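import Pool.Agent.Helper54.UST.Defs

/-! Averages, indicators, averages over lists of points. -/

namespace Pool.Agent.UST

open MeasureTheory

section av
variable {α β : Type} [Fintype α] [Fintype β]

theorem av_const [Nonempty α] (c : ℝ) : av (fun _ : α => c) = c := by
  have h : (Fintype.card α : ℝ) ≠ 0 := by exact_mod_cast Fintype.card_ne_zero
  simp only [av, Finset.sum_const, Finset.card_univ, nsmul_eq_mul]
  field_simp

theorem av_mono {f g : α → ℝ} (h : ∀ a, f a ≤ g a) : av f ≤ av g := by
  unfold av
  exact div_le_div_of_nonneg_right (Finset.sum_le_sum fun a _ => h a) (Nat.cast_nonneg _)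

theorem av_nonneg {f : α → ℝ} (h : ∀ a, 0 ≤ f a) : 0 ≤ av f :=
  div_nonneg (Finset.sum_nonneg fun a _ => h a) (Nat.cast_nonneg _)

theorem av_le {f : α → ℝ} {c : ℝ} (hc : 0 ≤ c) (h : ∀ a, f a ≤ c) : av f ≤ c := by
  rcases isEmpty_or_nonempty α with hα | hα
  · simpa [av] using hc
  · exact (av_mono h).trans (av_const c).le

theorem av_add (f g : α → ℝ) : av (fun a => f a + g a) = av f + av g := by
  simp only [av, Finset.sum_add_distrib, add_div]

theorem av_sub (f g : α → ℝ) : av (fun a => f a - g a) = av f - av g := by
  simp only [av, Finset.sum_sub_distrib, sub_div]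

theorem av_mul_left (c : ℝ) (f : α → ℝ) : av (fun a => c * f a) = c * av f := by
  simp only [av, ← Finset.mul_sum, mul_div_assoc]

theorem av_mul_right (c : ℝ) (f : α → ℝ) : av (fun a => f a * c) = av f * c := by
  simp only [av, ← Finset.sum_mul]
  ring

theorem av_sum {ι : Type} (s : Finset ι) (f : ι → α → ℝ) :
    av (fun a => ∑ i ∈ s, f i a) = ∑ i ∈ s, av (f i) := by
  simp only [av]
  rw [Finset.sum_comm, Finset.sum_div]

theorem av_comm (f : α → β → ℝ) : av (fun a => av (f a)) = av (fun b => av (fun a => f a b)) := by
  simp only [av]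
  rw [← Finset.sum_div, ← Finset.sum_div, Finset.sum_comm, div_right_comm]

theorem av_equiv (e : α ≃ β) (f : β → ℝ) : av (fun a => f (e a)) = av f := by
  simp only [av]
  rw [Equiv.sum_comp e f, Fintype.card_congr e]

theorem av_exists_le [Nonempty α] (f : α → ℝ) : ∃ a, f a ≤ av f := by
  by_contra h
  push Not at h
  have h1 : (0 : ℝ) < Fintype.card α := by exact_mod_cast Fintype.card_pos
  have h2 : ∑ _a : α, av f < ∑ a, f a :=
    Finset.sum_lt_sum_of_nonempty Finset.univ_nonempty fun a _ => h a
  rw [Finset.sum_const, Finset.card_univ, nsmul_eq_mul] at h2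
  have h3 : (Fintype.card α : ℝ) * av f = ∑ a, f a := by
    unfold av
    field_simp
  linarith

private theorem av_eq_wsum (f : α → ℝ) :
    av f = ∑ a, (Fintype.card α : ℝ)⁻¹ * f a := by
  rw [av, div_eq_inv_mul, Finset.mul_sum]

private theorem av_w_one [Nonempty α] : ∑ _a : α, (Fintype.card α : ℝ)⁻¹ = 1 := by
  have h : (Fintype.card α : ℝ) ≠ 0 := by exact_mod_cast Fintype.card_ne_zero
  rw [Finset.sum_const, Finset.card_univ, nsmul_eq_mul]
  field_simp

/-- Jensen for the cube -/
theorem av_pow_three_le {f : α → ℝ} (h : ∀ a, 0 ≤ f a) : (av f) ^ 3 ≤ av (fun a => f a ^ 3) := by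
  rcases isEmpty_or_nonempty α with hα | hα
  · simp [av]
  · rw [av_eq_wsum, av_eq_wsum]
    exact Real.pow_arith_mean_le_arith_mean_pow Finset.univ _ f
      (fun _ _ => inv_nonneg.2 (Nat.cast_nonneg _)) av_w_one (fun a _ => h a) 3

/-- Cauchy-Schwarz -/
theorem av_sq_le (f : α → ℝ) : (av f) ^ 2 ≤ av (fun a => f a ^ 2) := by
  rcases isEmpty_or_nonempty α with hα | hα
  · simp [av]
  · rw [av_eq_wsum, av_eq_wsum]
    exact Real.pow_arith_mean_le_arith_mean_pow_of_even Finset.univ _ f
      (fun _ _ => inv_nonneg.2 (Nat.cast_nonneg _)) av_w_one (by decide)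

theorem av_integral {Ω : Type} [MeasurableSpace Ω] (μ : Measure Ω) (f : α → Ω → ℝ)
    (hf : ∀ a, Integrable (f a) μ) : av (fun a => ∫ ω, f a ω ∂μ) = ∫ ω, av (fun a => f a ω) ∂μ := by
  simp only [av]
  rw [integral_div, integral_finsetSum _ fun a _ => hf a]

end av

section ind

theorem ind_true {P : Prop} (h : P) : ind P = 1 := by simp [ind, h]

theorem ind_false {P : Prop} (h : ¬ P) : ind P = 0 := by simp [ind, h]

theorem ind_nonneg (P : Prop) : 0 ≤ ind P := by
  unfold ind; split_ifs <;> norm_num

theorem ind_le_one (P : Prop) : ind P ≤ 1 := by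
  unfold ind; split_ifs <;> norm_num

theorem ind_mono {P Q : Prop} (h : P → Q) : ind P ≤ ind Q := by
  by_cases hp : P
  · rw [ind_true hp, ind_true (h hp)]
  · rw [ind_false hp]; exact ind_nonneg Q

theorem ind_or_le (P Q : Prop) : ind (P ∨ Q) ≤ ind P + ind Q := by
  by_cases hp : P
  · rw [ind_true (Or.inl hp), ind_true hp]
    linarith [ind_nonneg Q]
  · by_cases hq : Q
    · rw [ind_true (Or.inr hq), ind_true hq]
      linarith [ind_nonneg P]
    · rw [ind_false (by tauto)]
      linarith [ind_nonneg P, ind_nonneg Q]

theorem ind_and (P Q : Prop) : ind (P ∧ Q) = ind P * ind Q := by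
  by_cases hp : P
  · by_cases hq : Q
    · rw [ind_true ⟨hp, hq⟩, ind_true hp, ind_true hq, one_mul]
    · rw [ind_false (by tauto), ind_false hq, mul_zero]
  · rw [ind_false (by tauto), ind_false hp, zero_mul]

theorem ind_not (P : Prop) : ind (¬ P) = 1 - ind P := by
  by_cases hp : P
  · rw [ind_false (by tauto), ind_true hp, sub_self]
  · rw [ind_true hp, ind_false hp, sub_zero]

theorem ind_exists_le {ι : Type} (s : Finset ι) (P : ι → Prop) :
    ind (∃ i ∈ s, P i) ≤ ∑ i ∈ s, ind (P i) := by
  by_cases h : ∃ i ∈ s, P i
  · rw [ind_true h]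
    obtain ⟨i, hi, hP⟩ := h
    rw [← ind_true hP]
    exact Finset.single_le_sum (f := fun i => ind (P i)) (fun j _ => ind_nonneg _) hi
  · rw [ind_false h]
    exact Finset.sum_nonneg fun i _ => ind_nonneg _

/-- Markov inequality for averages -/
theorem av_ind_le {α : Type} [Fintype α] {f : α → ℝ} (hf : ∀ a, 0 ≤ f a) {c : ℝ} (hc : 0 < c) :
    av (fun a => ind (c ≤ f a)) ≤ av f / c := by
  rw [le_div_iff₀ hc, ← av_mul_right]
  refine av_mono fun a => ?_
  by_cases h : c ≤ f a
  · rw [ind_true h, one_mul]; exact h
  · rw [ind_false h, zero_mul]; exact hf a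

/-- probability as integral of the indicator -/
theorem integral_ind {Ω : Type} [MeasurableSpace Ω] (μ : Measure Ω) (P : Ω → Prop)
    (hP : MeasurableSet {ω | P ω}) : ∫ ω, ind (P ω) ∂μ = μ.real {ω | P ω} := by
  have h : (fun ω => ind (P ω)) = Set.indicator {ω | P ω} (1 : Ω → ℝ) := by
    funext ω
    by_cases h : P ω
    · rw [ind_true h, Set.indicator_of_mem (show ω ∈ {ω | P ω} from h), Pi.one_apply]
    · rw [ind_false h, Set.indicator_of_notMem (show ω ∉ {ω | P ω} from h)]
  rw [h, integral_indicator_one hP]

end ind

section avL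
variable (n : ℕ) [NeZero n]

private theorem avL_zero' (F : List (V n) → ℝ) : avL F 0 = F [] := rfl

private theorem avL_succ' (F : List (V n) → ℝ) (m : ℕ) :
    avL F (m + 1) = av (fun v : V n => avL (fun L => F (v :: L)) m) := rfl

theorem avL_mono {F G : List (V n) → ℝ} (m : ℕ) (h : ∀ L, L.length = m → F L ≤ G L) :
    avL F m ≤ avL G m := by
  induction m generalizing F G with
  | zero => exact h [] rfl
  | succ m ih =>
    rw [avL_succ', avL_succ']
    exact av_mono fun v => ih fun L hL => h (v :: L) (by simp [hL])

theorem avL_const (c : ℝ) (m : ℕ) : avL (fun _ : List (V n) => c) m = c := by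
  induction m with
  | zero => rfl
  | succ m ih =>
    rw [avL_succ']
    simp only [ih]
    exact av_const c

theorem avL_nonneg {F : List (V n) → ℝ} (m : ℕ) (h : ∀ L, L.length = m → 0 ≤ F L) :
    0 ≤ avL F m := by
  have := avL_mono n (F := fun _ => 0) (G := F) m h
  rwa [avL_const] at this

theorem avL_add_fn (F G : List (V n) → ℝ) (m : ℕ) :
    avL (fun L => F L + G L) m = avL F m + avL G m := by
  induction m generalizing F G with
  | zero => rfl
  | succ m ih =>
    rw [avL_succ', avL_succ', avL_succ', ← av_add]
    congr 1
    funext v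
    exact ih _ _

theorem avL_mul_left (c : ℝ) (F : List (V n) → ℝ) (m : ℕ) :
    avL (fun L => c * F L) m = c * avL F m := by
  induction m generalizing F with
  | zero => rfl
  | succ m ih =>
    rw [avL_succ', avL_succ', ← av_mul_left]
    congr 1
    funext v
    exact ih _

theorem avL_sum {ι : Type} (s : Finset ι) (F : ι → List (V n) → ℝ) (m : ℕ) :
    avL (fun L => ∑ i ∈ s, F i L) m = ∑ i ∈ s, avL (F i) m := by
  induction m generalizing F with
  | zero => rfl
  | succ m ih =>
    rw [avL_succ']
    simp only [avL_succ']
    rw [← av_sum]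
    congr 1
    funext v
    exact ih _

theorem avL_av {α : Type} [Fintype α] (F : α → List (V n) → ℝ) (m : ℕ) :
    avL (fun L => av (fun a => F a L)) m = av (fun a => avL (F a) m) := by
  induction m generalizing F with
  | zero => rfl
  | succ m ih =>
    rw [avL_succ']
    simp only [avL_succ']
    rw [av_comm]
    congr 1
    funext v
    exact ih _

theorem avL_append (F : List (V n) → ℝ) (a b : ℕ) :
    avL F (a + b) = avL (fun L => avL (fun L' => F (L ++ L')) b) a := by
  induction a generalizing F with
  | zero => rw [Nat.zero_add]; rfl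
  | succ a ih =>
    rw [show a + 1 + b = (a + b) + 1 by omega, avL_succ', avL_succ']
    congr 1
    funext v
    exact ih _

theorem avL_succ (F : List (V n) → ℝ) (m : ℕ) :
    avL F (m + 1) = avL (fun L => av (fun v => F (L ++ [v]))) m := by
  rw [avL_append]
  rfl

theorem avL_take (F : List (V n) → ℝ) (a b : ℕ) :
    avL (fun L => F (L.take a)) (a + b) = avL F a := by
  induction a generalizing F with
  | zero =>
    simp only [List.take_zero]
    exact avL_const n _ _
  | succ a ih =>
    rw [show a + 1 + b = (a + b) + 1 by omega, avL_succ', avL_succ']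
    congr 1
    funext v
    simp only [List.take_succ_cons]
    exact ih (fun L => F (v :: L))

/-- the law of one point -/
theorem avL_get (F : V n → ℝ) (m i : ℕ) (hi : i < m) :
    avL (fun L => F (L.getD i 0)) m = av F := by
  induction m generalizing i with
  | zero => omega
  | succ m ih =>
    rw [avL_succ']
    cases i with
    | zero =>
      simp only [List.getD_cons_zero]
      congr 1
      funext v
      exact avL_const n _ _
    | succ i =>
      simp only [List.getD_cons_succ]
      rw [ih i (by omega)]
      exact av_const _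

/-- the law of two points -/
theorem avL_get₂ (F : V n → V n → ℝ) (m i j : ℕ) (hi : i < m) (hj : j < m) (hij : i ≠ j) :
    avL (fun L => F (L.getD i 0) (L.getD j 0)) m = av (fun u => av (fun v => F u v)) := by
  induction m generalizing i j with
  | zero => omega
  | succ m ih =>
    rw [avL_succ']
    cases i with
    | zero =>
      cases j with
      | zero => exact absurd rfl hij
      | succ j =>
        simp only [List.getD_cons_zero, List.getD_cons_succ]
        congr 1
        funext v
        exact avL_get n (F v) m j (by omega)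
    | succ i =>
      cases j with
      | zero =>
        simp only [List.getD_cons_zero, List.getD_cons_succ]
        rw [av_comm]
        congr 1
        funext v
        exact avL_get n (fun u => F u v) m i (by omega)
      | succ j =>
        simp only [List.getD_cons_succ]
        rw [ih i j (by omega) (by omega) (by omega)]
        exact av_const _

/-- the law of three points -/
theorem avL_get₃ (F : V n → V n → V n → ℝ) (m i j k : ℕ) (hi : i < m) (hj : j < m) (hk : k < m)
    (hij : i ≠ j) (hik : i ≠ k) (hjk : j ≠ k) :
    avL (fun L => F (L.getD i 0) (L.getD j 0) (L.getD k 0)) m =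
      av (fun u => av (fun v => av (fun w => F u v w))) := by
  induction m generalizing i j k with
  | zero => omega
  | succ m ih =>
    rw [avL_succ']
    rcases i with _ | i
    · rcases j with _ | j
      · exact absurd rfl hij
      rcases k with _ | k
      · exact absurd rfl hik
      simp only [List.getD_cons_zero, List.getD_cons_succ]
      congr 1
      funext v
      exact avL_get₂ n (F v) m j k (by omega) (by omega) (by omega)
    rcases j with _ | j
    · rcases k with _ | k
      · exact absurd rfl hjk
      simp only [List.getD_cons_zero, List.getD_cons_succ]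
      rw [av_comm]
      congr 1
      funext v
      exact avL_get₂ n (fun u w => F u v w) m i k (by omega) (by omega) (by omega)
    rcases k with _ | k
    · simp only [List.getD_cons_zero, List.getD_cons_succ]
      have h : ∀ u : V n, av (fun v => av (fun w => F u v w)) =
          av (fun w => av (fun v => F u v w)) := fun u => av_comm _
      simp only [h]
      rw [av_comm]
      congr 1
      funext w
      exact avL_get₂ n (fun u v => F u v w) m i j (by omega) (by omega) (by omega)
    simp only [List.getD_cons_succ]
    rw [ih i j k (by omega) (by omega) (by omega) (by omega) (by omega) (by omega)]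
    exact av_const _

/-- independent misses -/
theorem avL_all (P : V n → Prop) (m : ℕ) :
    avL (fun L => ind (∀ v ∈ L, P v)) m = (av (fun v => ind (P v))) ^ m := by
  induction m with
  | zero =>
    rw [avL_zero', pow_zero]
    exact ind_true (by simp)
  | succ m ih =>
    rw [avL_succ', pow_succ', ← av_mul_right]
    congr 1
    funext v
    simp only [List.forall_mem_cons, ind_and]
    rw [avL_mul_left, ih]

end avL

end Pool.Agent.UST
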