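import Pool.Agent.Helper54.UST.Defs

namespace Pool.Agent.UST

open MeasureTheory

section le1
variable {W : Type}

/-! ### auxiliary facts on `stepLE` -/

lemma le1_stepLE_nil (y : W) : stepLE [] y = [y] := rfl

lemma le1_stepLE_cons_ne {x y : W} (h : x ≠ y) (γ : List W) :
    stepLE (x :: γ) y = x :: stepLE γ y := by
  classical
  unfold stepLE
  rw [List.takeWhile_cons_of_pos (by simpa using h), List.cons_append]

lemma le1_stepLE_cons_self (x : W) (γ : List W) : stepLE (x :: γ) x = [x] := by
  classical
  unfold stepLE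
  rw [List.takeWhile_cons_of_neg (by simp), List.nil_append]

lemma le1_stepLE_append_notMem {y : W} {γ : List W} (h : y ∉ γ) (δ : List W) :
    stepLE (γ ++ δ) y = γ ++ stepLE δ y := by
  induction γ with
  | nil => rfl
  | cons x γ ih =>
    rw [List.mem_cons, not_or] at h
    rw [List.cons_append, le1_stepLE_cons_ne (Ne.symm h.1), ih h.2, List.cons_append]

lemma le1_stepLE_append_mem {y : W} {γ : List W} (h : y ∈ γ) (δ : List W) :
    stepLE (γ ++ δ) y = stepLE γ y := by
  induction γ with
  | nil => exact absurd h List.not_mem_nil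
  | cons x γ ih =>
    by_cases hx : x = y
    · rw [hx, List.cons_append, le1_stepLE_cons_self, le1_stepLE_cons_self]
    · rw [List.cons_append, le1_stepLE_cons_ne hx, le1_stepLE_cons_ne hx,
        ih ((List.mem_cons.mp h).resolve_left (fun e => hx e.symm))]

lemma le1_stepLE_split {y : W} {α : List W} (h : y ∉ α) (δ : List W) :
    stepLE (α ++ y :: δ) y = α ++ [y] := by
  rw [le1_stepLE_append_notMem h, le1_stepLE_cons_self]

lemma le1_mem_stepLE {γ : List W} {y z : W} (h : z ∈ stepLE γ y) : z ∈ γ ∨ z = y := by
  classical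
  unfold stepLE at h
  rw [List.mem_append, List.mem_singleton] at h
  rcases h with h | h
  · exact Or.inl ((List.takeWhile_sublist _).subset h)
  · exact Or.inr h

lemma le1_self_mem_stepLE (γ : List W) (y : W) : y ∈ stepLE γ y := by
  unfold stepLE
  simp

lemma le1_leF_nil (γ : List W) : leF γ [] = γ := rfl

lemma le1_leF_cons (γ : List W) (y : W) (l : List W) : leF γ (y :: l) = leF (stepLE γ y) l := rfl

lemma le1_leF_snoc (γ l : List W) (y : W) : leF γ (l ++ [y]) = stepLE (leF γ l) y := by
  unfold leF
  rw [List.foldl_append]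
  rfl

theorem leF_append (γ l l' : List W) : leF γ (l ++ l') = leF (leF γ l) l' := by
  unfold leF
  rw [List.foldl_append]

lemma le1_stepLE_nodup {γ : List W} (h : γ.Nodup) (y : W) : (stepLE γ y).Nodup := by
  classical
  unfold stepLE
  rw [List.nodup_append]
  refine ⟨h.sublist (List.takeWhile_sublist _), List.nodup_singleton y, ?_⟩
  intro a ha b hb
  rw [List.mem_singleton] at hb
  have := List.mem_takeWhile_imp ha
  rw [hb]
  simpa using this

theorem leF_nodup {γ : List W} (h : γ.Nodup) (l : List W) : (leF γ l).Nodup := by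
  induction l generalizing γ with
  | nil => exact h
  | cons y l ih =>
    rw [le1_leF_cons]
    exact ih (le1_stepLE_nodup h y)

theorem leF_getLast {γ l : List W} (hl : l ≠ []) : (leF γ l).getLast? = l.getLast? := by
  rcases List.eq_nil_or_concat' l with h | ⟨l', y, h⟩
  · exact absurd h hl
  · rw [h, le1_leF_snoc]
    unfold stepLE
    simp

theorem leF_decomp (γ l : List W) :
    ∃ α δ, leF γ l = α ++ δ ∧ α <+: γ ∧ ∀ y ∈ δ, y ∈ l := by
  induction l using List.reverseRecOn with
  | nil => exact ⟨γ, [], by simp [le1_leF_nil], List.prefix_rfl, by simp⟩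
  | append_singleton l y ih =>
    obtain ⟨α, δ, h1, h2, h3⟩ := ih
    rw [le1_leF_snoc, h1]
    by_cases hy : y ∈ α
    · rw [le1_stepLE_append_mem hy]
      classical
      refine ⟨α.takeWhile (fun z => decide (z ≠ y)), [y], ?_, ?_, ?_⟩
      · unfold stepLE
        rfl
      · exact (List.takeWhile_prefix _).trans h2
      · intro z hz
        rw [List.mem_singleton] at hz
        rw [hz]
        simp
    · rw [le1_stepLE_append_notMem hy]
      refine ⟨α, stepLE δ y, rfl, h2, ?_⟩
      intro z hz
      rcases le1_mem_stepLE hz with h | h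
      · exact List.mem_append_left _ (h3 z h)
      · rw [h]; simp

lemma le1_keep_one {α γ : List W} {y : W} (hα : α <+: γ) (h : y ∉ α.dropLast) :
    α <+: stepLE γ y := by
  obtain ⟨β, rfl⟩ := hα
  by_cases hy : y ∈ α
  · rw [le1_stepLE_append_mem hy]
    rcases List.eq_nil_or_concat' α with h0 | ⟨α', z, h0⟩
    · rw [h0] at hy
      exact absurd hy List.not_mem_nil
    · rw [h0, List.dropLast_concat] at h
      rw [h0, List.mem_append, List.mem_singleton] at hy
      have hz : y = z := hy.resolve_left h
      rw [h0, ← hz, le1_stepLE_split h]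
  · rw [le1_stepLE_append_notMem hy]
    exact List.prefix_append _ _

theorem leF_keep {α γ l : List W} (hα : α <+: γ) (h : ∀ y ∈ l, y ∉ α.dropLast) :
    α <+: leF γ l := by
  induction l generalizing γ with
  | nil => exact hα
  | cons y l ih =>
    rw [le1_leF_cons]
    exact ih (le1_keep_one hα (h y List.mem_cons_self))
      (fun z hz => h z (List.mem_cons_of_mem _ hz))

theorem mem_leF {γ l : List W} {y : W} (h : y ∈ leF γ l) : y ∈ γ ∨ y ∈ l := by
  obtain ⟨α, δ, h1, h2, h3⟩ := leF_decomp γ l
  rw [h1, List.mem_append] at h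
  rcases h with h | h
  · exact Or.inl (h2.subset h)
  · exact Or.inr (h3 y h)

/-- `M_t` starting from a one point path is the loop erasure -/
theorem le_cons (x : W) (l : List W) : le (x :: l) = leF [x] l := by
  unfold le
  rw [le1_leF_cons, le1_stepLE_nil]

lemma le1_leF_append_notMem {γ l : List W} (h : ∀ y ∈ l, y ∉ γ) (δ : List W) :
    leF (γ ++ δ) l = γ ++ leF δ l := by
  induction l generalizing δ with
  | nil => rfl
  | cons y l ih =>
    rw [le1_leF_cons, le1_leF_cons, le1_stepLE_append_notMem (h y List.mem_cons_self)]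
    exact ih (fun z hz => h z (List.mem_cons_of_mem _ hz)) _

theorem le_cons_notMem {x : W} {l : List W} (h : x ∉ l) : le (x :: l) = x :: le l := by
  rw [le_cons]
  have := le1_leF_append_notMem (γ := [x]) (l := l) (by
    intro y hy hyx
    rw [List.mem_singleton] at hyx
    exact h (hyx ▸ hy)) []
  rw [List.append_nil] at this
  rw [this]
  rfl

theorem le_cons_last {x : W} (l1 : List W) {l2 : List W} (h : x ∉ l2) :
    le (x :: (l1 ++ x :: l2)) = x :: le l2 := by
  rw [le_cons, leF_append, le1_leF_cons]
  obtain ⟨β, hβ⟩ : [x] <+: leF [x] l1 := leF_keep List.prefix_rfl (by simp)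
  rw [← hβ, List.singleton_append, le1_stepLE_cons_self, ← le_cons, le_cons_notMem h]

theorem le_head {x : W} (l : List W) : (le (x :: l)).head? = some x := by
  rw [le_cons]
  obtain ⟨β, hβ⟩ : [x] <+: leF [x] l := leF_keep List.prefix_rfl (by simp)
  rw [← hβ]
  rfl

lemma le1_eq {y : W} {l l1 l2 : List W} (hl : l = l1 ++ y :: l2) :
    le l = leF (le (l1 ++ [y])) l2 := by
  unfold le
  rw [← leF_append, hl]
  simp

lemma le1_mem_le_snoc (l1 : List W) (y : W) : y ∈ le (l1 ++ [y]) := by
  unfold le
  rw [le1_leF_snoc]
  exact le1_self_mem_stepLE _ _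

/-- the last point of a path is lost for ever if the path is hit elsewhere -/
lemma le1_lost {α : List W} {y : W} (hα : y ∉ α) (l2 : List W) (hy : y ∉ l2) (δ : List W)
    (h : ∃ z ∈ l2, z ∈ α) : y ∉ leF (α ++ [y] ++ δ) l2 := by
  induction l2 generalizing δ with
  | nil =>
    obtain ⟨z, hz, _⟩ := h
    exact absurd hz List.not_mem_nil
  | cons w l2 ih =>
    rw [List.mem_cons, not_or] at hy
    rw [le1_leF_cons]
    by_cases hw : w ∈ α
    · rw [List.append_assoc, le1_stepLE_append_mem hw]
      intro hmem
      rcases mem_leF hmem with h1 | h1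
      · rcases le1_mem_stepLE h1 with h2 | h2
        · exact hα h2
        · exact hy.1 h2
      · exact hy.2 h1
    · have hw2 : w ∉ α ++ [y] := by
        rw [List.mem_append, List.mem_singleton, not_or]
        exact ⟨hw, fun e => hy.1 e.symm⟩
      rw [le1_stepLE_append_notMem hw2]
      refine ih hy.2 _ ?_
      obtain ⟨z, hz, hzα⟩ := h
      rcases List.mem_cons.mp hz with h1 | h1
      · exact absurd (h1 ▸ hzα) hw
      · exact ⟨z, h1, hzα⟩

/-- loop erasure seen from the last visit of `y` -/
theorem le_split {y : W} {l l1 l2 : List W} (hl : l = l1 ++ y :: l2) (hy : y ∉ l2)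
    (hm : y ∈ le l) : ∃ δ, le l = le (l1 ++ [y]) ++ δ ∧ (∀ z ∈ δ, z ∈ l2) ∧
      ∀ z ∈ l2, z ∉ le (l1 ++ [y]) := by
  have hno : ∀ z ∈ l2, z ∉ le (l1 ++ [y]) := by
    classical
    have e1 : le (l1 ++ [y]) = (le l1).takeWhile (fun z => decide (z ≠ y)) ++ [y] := by
      unfold le
      rw [le1_leF_snoc]
      unfold stepLE
      rfl
    set α := (le l1).takeWhile (fun z => decide (z ≠ y)) with hα
    have hyα : y ∉ α := by
      intro h
      have := List.mem_takeWhile_imp h
      simp at this
    intro z hz hzm
    rw [e1, List.mem_append, List.mem_singleton] at hzm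
    rcases hzm with h1 | h1
    · rw [le1_eq hl, e1] at hm
      have := le1_lost hyα l2 hy [] ⟨z, hz, h1⟩
      rw [List.append_nil] at this
      exact this hm
    · exact hy (h1 ▸ hz)
  refine ⟨leF [] l2, ?_, ?_, hno⟩
  · rw [le1_eq hl]
    have := le1_leF_append_notMem hno []
    rwa [List.append_nil] at this
  · intro z hz
    exact (mem_leF hz).resolve_left List.not_mem_nil

theorem le_mem_iff {y : W} {l l1 l2 : List W} (hl : l = l1 ++ y :: l2) (hy : y ∉ l2) :
    y ∈ le l ↔ ∀ z ∈ l2, z ∉ le (l1 ++ [y]) := by
  constructor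
  · intro h
    obtain ⟨_, _, _, h3⟩ := le_split hl hy h
    exact h3
  · intro h
    rw [le1_eq hl]
    have := le1_leF_append_notMem h []
    rw [List.append_nil] at this
    rw [this]
    exact List.mem_append_left _ (le1_mem_le_snoc l1 y)

lemma le1_length_leF (γ l : List W) : (leF γ l).length ≤ γ.length + l.length := by
  classical
  induction l generalizing γ with
  | nil => exact le_refl _
  | cons y l ih =>
    rw [le1_leF_cons, List.length_cons]
    refine (ih _).trans ?_
    have : (stepLE γ y).length ≤ γ.length + 1 := by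
      unfold stepLE
      rw [List.length_append, List.length_singleton]
      have := (List.takeWhile_sublist (l := γ) (fun z => decide (z ≠ y))).length_le
      omega
    omega

theorem le_length_le (l : List W) : (le l).length ≤ l.length := by
  have := le1_length_leF [] l
  unfold le
  simpa using this

/-- certificate: if the list `l'` hits `γ` at an index at most that of `l`, then the point of
`γ` hit by `l'` is in `leF γ l` -/
theorem certificate (γ l l' : List W) (h : (open Classical in γ.findIdx (fun z => decide (z ∈ l'))) ≤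
      (open Classical in γ.findIdx (fun z => decide (z ∈ l))))
    (h' : ∃ z ∈ γ, z ∈ l') : ∃ z ∈ l', z ∈ leF γ l := by
  classical
  set i := γ.findIdx (fun z => decide (z ∈ l')) with hi
  have hil : i < γ.length := by
    rw [hi]
    refine List.findIdx_lt_length_of_exists ?_
    obtain ⟨z, hz, hz'⟩ := h'
    exact ⟨z, hz, by simpa using hz'⟩
  have hzi : γ[i] ∈ l' := by
    have := List.findIdx_getElem (w := hil)
    simpa using this
  refine ⟨γ[i], hzi, ?_⟩
  have hpre : γ.take (i + 1) <+: leF γ l := by
    refine leF_keep (List.take_prefix _ _) ?_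
    intro y hy hy2
    have e1 : (γ.take (i + 1)).dropLast = γ.take i := by
      rw [← List.take_concat_get' γ i hil, List.dropLast_concat]
    rw [e1, List.mem_take_iff_getElem] at hy2
    obtain ⟨j, hj, hj2⟩ := hy2
    have hji : j < i := by omega
    have hj3 := List.not_of_lt_findIdx (xs := γ) (p := fun z => decide (z ∈ l)) (i := j)
      (lt_of_lt_of_le hji h)
    rw [hj2] at hj3
    simp at hj3
    exact hj3 hy
  refine hpre.subset ?_
  rw [List.mem_take_iff_getElem]
  exact ⟨i, by omega, rfl⟩

end le1

end Pool.Agent.UST
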