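import Pool.Agent.Helper54.UST.BaseTorus
import Pool.Agent.Helper54.UST.LE1
import Pool.Agent.Helper54.UST.Av

/-! Basic facts on the local event. -/

namespace Pool.Agent.UST

open MeasureTheory

private theorem ab_dep2 {α : Type} [MeasurableSpace α] (s t : ℕ) (f : (ℕ → DD) × (ℕ → DD) → α)
    (hf : ∀ p p' : (ℕ → DD) × (ℕ → DD), (∀ i, i < s → p.1 i = p'.1 i) →
      (∀ i, i < t → p.2 i = p'.2 i) → f p = f p') : Measurable f := by
  let r : (ℕ → DD) × (ℕ → DD) → (Fin s → DD) × (Fin t → DD) :=
    fun p => (fun i => p.1 i, fun i => p.2 i)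
  have hr : Measurable r := by
    refine Measurable.prodMk ?_ ?_
    · exact measurable_pi_lambda _ fun i => (measurable_pi_apply _).comp measurable_fst
    · exact measurable_pi_lambda _ fun i => (measurable_pi_apply _).comp measurable_snd
  have h : f = (fun q : (Fin s → DD) × (Fin t → DD) => f (btExt q.1, btExt q.2)) ∘ r := by
    funext p
    refine hf _ _ (fun i hi => ?_) (fun i hi => ?_)
    · exact (btExt_restrict p.1 i hi).symm
    · exact (btExt_restrict p.2 i hi).symm
  rw [h]
  exact (measurable_of_finite _).comp hr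

private theorem ab_pr2 (P : (ℕ → DD) → (ℕ → DD) → Prop) (s t : ℕ)
    (hP : ∀ ω ω' η η' : ℕ → DD, (∀ i, i < s → ω i = ω' i) → (∀ i, i < t → η i = η' i) →
      (P ω η ↔ P ω' η')) :
    pr2 {p | P p.1 p.2} = ∫ ω, ∫ η, ind (P ω η) ∂(mu DD) ∂(mu DD) := by
  have hm : Measurable (fun p : (ℕ → DD) × (ℕ → DD) => P p.1 p.2) :=
    ab_dep2 s t _ fun p p' h h' => propext (hP _ _ _ _ h h')
  have hms : MeasurableSet {p : (ℕ → DD) × (ℕ → DD) | P p.1 p.2} := measurableSet_setOfPred.mpr hm
  unfold pr2
  rw [← integral_ind ((mu DD).prod (mu DD)) (fun p => P p.1 p.2) hms, integral_prod]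
  refine Integrable.of_bound (C := 1) ?_ (Filter.Eventually.of_forall fun p => ?_)
  · refine (ab_dep2 s t _ fun p p' h h' => ?_).aestronglyMeasurable
    exact congrArg ind (propext (hP _ _ _ _ h h'))
  · rw [Real.norm_eq_abs, abs_of_nonneg (ind_nonneg _)]
    exact ind_le_one _

private theorem ab_pr (P : (ℕ → DD) → Prop) (s : ℕ)
    (hP : ∀ ω ω' : ℕ → DD, (∀ i, i < s → ω i = ω' i) → (P ω ↔ P ω')) :
    pr {ω | P ω} = ∫ ω, ind (P ω) ∂(mu DD) := by
  have hm : Measurable (fun ω : ℕ → DD => P ω) :=
    measurable_dep s _ fun ω ω' h => propext (hP _ _ h)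
  have hms : MeasurableSet {ω : ℕ → DD | P ω} := measurableSet_setOfPred.mpr hm
  unfold pr
  exact (integral_ind (mu DD) (fun ω => P ω) hms).symm

theorem aloc_nonneg (n i : ℕ) : 0 ≤ aloc n i := by
  unfold aloc pr2
  exact measureReal_nonneg

theorem aloc_le_one (n i : ℕ) : aloc n i ≤ 1 := by
  unfold aloc pr2
  exact measureReal_le_one

private theorem ab_le_seg (n : ℕ) (x : V n) (ω : ℕ → DD) (s t : ℕ) :
    le (seg (act n) x ω s t) = (le (seg (act n) 0 ω s t)).map (fun z => z + x) := by
  have hinj : Function.Injective (fun z : V n => z + x) := add_left_injective x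
  have hseg : seg (act n) x ω s t = (seg (act n) 0 ω s t).map (fun z => z + x) := by
    unfold seg
    rw [List.map_map]
    refine List.map_congr_left fun i _ => ?_
    have := pos_translate n 0 x ω i
    rw [zero_add] at this
    exact this
  rw [hseg]
  exact bt_leF_map _ hinj _ []

private theorem ab_pos (n : ℕ) (x : V n) (ω : ℕ → DD) (t : ℕ) :
    pos (act n) x ω t = pos (act n) 0 ω t + x := by
  have := pos_translate n 0 x ω t
  rwa [zero_add] at this

theorem aloc_two (n i : ℕ) (x : V n) :
    pr2 {ω | ¬ hit (act n) x ω.1 1 (bb n) (st (le (seg (act n) x ω.2 0 i)))} = aloc n i := by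
  have hinj : Function.Injective (fun z : V n => z + x) := add_left_injective x
  unfold aloc
  congr 1
  ext ω
  simp only [Set.mem_ofPred_eq]
  refine not_congr ?_
  unfold hit st
  refine exists_congr fun j => and_congr Iff.rfl (and_congr Iff.rfl ?_)
  simp only [Set.mem_ofPred_eq]
  rw [ab_le_seg, ab_pos]
  exact List.mem_map_of_injective hinj

/-- one walk, the first part reversed -/
theorem aloc_one (n i : ℕ) (x : V n) :
    pr {ω | ∀ j, j < bb n → pos (act n) x ω j ∉ le (seg (act n) x ω (bb n) (bb n + i))} =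
      aloc n i := by
  set b := bb n with hb
  -- the event for two walks
  let F : (ℕ → DD) → (ℕ → DD) → ℝ := fun ω η =>
    ind (∀ j, j < b → pos (act n) x ω j ∉ le (seg (act n) (pos (act n) x ω b) η 0 i))
  let H : (ℕ → DD) → (ℕ → DD) → Prop := fun ω η =>
    ¬ hit (act n) 0 ω 1 b (st (le (seg (act n) 0 η 0 i)))
  have hFdep : ∀ ω ω' η η' : ℕ → DD, (∀ j, j < b → ω j = ω' j) → (∀ j, j < i → η j = η' j) →
      F ω η = F ω' η' := by
    intro ω ω' η η' h h'
    have h1 : ∀ j, j ≤ b → pos (act n) x ω j = pos (act n) x ω' j := fun j hj =>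
      pos_congr (act n) x ω ω' j fun k hk => h k (by omega)
    simp only [F]
    rw [h1 b le_rfl, seg_congr (act n) _ η η' 0 i h']
    congr 1
    refine propext (forall_congr' fun j => ?_)
    refine forall_congr' fun hj => ?_
    rw [h1 j (by omega)]
  have hHdep : ∀ ω ω' η η' : ℕ → DD, (∀ j, j < b → ω j = ω' j) → (∀ j, j < i → η j = η' j) →
      (H ω η ↔ H ω' η') := by
    intro ω ω' η η' h h'
    simp only [H]
    rw [hit_iff, hit_iff, seg_congr (act n) _ η η' 0 i h', seg_congr (act n) _ ω ω' 1 b h]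
  have e1 : pr {ω | ∀ j, j < b → pos (act n) x ω j ∉ le (seg (act n) x ω b (b + i))} =
      ∫ ω, F ω (sh b ω) ∂(mu DD) := by
    rw [ab_pr _ (b + i)]
    · refine integral_congr_ae (Filter.Eventually.of_forall fun ω => ?_)
      have h1 : seg (act n) x ω b (b + i) = seg (act n) (pos (act n) x ω b) (sh b ω) 0 i := by
        have := seg_shift (act n) x ω b 0 i
        rwa [Nat.add_zero] at this
      simp only [F, h1]
    · intro ω ω' h
      rw [seg_congr (act n) x ω ω' b (b + i) h]
      refine forall_congr' fun j => forall_congr' fun hj => ?_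
      rw [pos_congr (act n) x ω ω' j fun k hk => h k (by omega)]
  have e2 : ∫ ω, F ω (sh b ω) ∂(mu DD) = ∫ ω, ∫ η, F ω η ∂(mu DD) ∂(mu DD) := by
    refine markov_int b F ?_ 1 ?_ ?_
    · exact ab_dep2 b i _ fun p p' h h' => hFdep _ _ _ _ h h'
    · intro ω η
      rw [abs_of_nonneg (ind_nonneg _)]
      exact ind_le_one _
    · intro ω ω' η h
      exact hFdep _ _ _ _ h fun _ _ => rfl
  have e3 : pr2 {ω | H ω.1 ω.2} = ∫ ω, ∫ η, ind (H ω η) ∂(mu DD) ∂(mu DD) := ab_pr2 H b i hHdep
  have e4 : aloc n i = pr2 {ω | H ω.1 ω.2} := rfl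
  rw [e1, e2, e4, e3]
  rw [bt_int_fin (t := b) (fun ω => ∫ η, F ω η ∂(mu DD)),
    bt_int_fin (t := b) (fun ω => ∫ η, ind (H ω η) ∂(mu DD))]
  · congr 1
    refine Fintype.sum_equiv (btRevE b) _ _ fun a => ?_
    change ∫ η, F (btExt a) η ∂(mu DD) = ∫ η, ind (H (btExt (btRev b a)) η) ∂(mu DD)
    refine integral_congr_ae (Filter.Eventually.of_forall fun η => ?_)
    simp only [F, H]
    congr 1
    refine propext ?_
    set z := pos (act n) x (btExt a) b with hz
    have hinj : Function.Injective (fun y : V n => y + z) := add_left_injective z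
    have hrev : ∀ j, j ≤ b → pos (act n) z (btExt (btRev b a)) j =
        pos (act n) x (btExt a) (b - j) := by
      refine bt_pos_rev n b x (btExt a) (btExt (btRev b a)) fun j hj => ?_
      have h1 := btExt_apply (btRev b a) ⟨j, hj⟩
      have h2 := btExt_apply a (Fin.rev ⟨j, hj⟩)
      simp only at h1
      rw [h1]
      unfold btRev
      rw [← h2, Fin.val_rev]
      congr 2
      simp only
      omega
    have hmem : ∀ j, j ≤ b → (pos (act n) 0 (btExt (btRev b a)) j ∈ le (seg (act n) 0 η 0 i) ↔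
        pos (act n) x (btExt a) (b - j) ∈ le (seg (act n) z η 0 i)) := by
      intro j hj
      rw [← hrev j hj, ab_le_seg n z, ab_pos n z]
      exact (List.mem_map_of_injective hinj).symm
    unfold hit st
    simp only [Set.mem_ofPred_eq, not_exists, not_and]
    constructor
    · intro h j h1 h2 h3
      exact h (b - j) (by omega) ((hmem j h2).mp h3)
    · intro h j hj h3
      refine h (b - j) (by omega) (by omega) ((hmem (b - j) (by omega)).mpr ?_)
      rwa [show b - (b - j) = j by omega]
  · intro ω ω' h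
    refine integral_congr_ae (Filter.Eventually.of_forall fun η => ?_)
    simp only
    rw [propext (hHdep ω ω' η η h fun _ _ => rfl)]
  · intro ω ω' h
    refine integral_congr_ae (Filter.Eventually.of_forall fun η => ?_)
    exact hFdep ω ω' η η h fun _ _ => rfl

end Pool.Agent.UST
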