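import Pool.Agent.Helper54.UST.Defs

/-! Elementary asymptotics of the scales. -/

namespace Pool.Agent.UST

open MeasureTheory Filter

private theorem tend_LL : Tendsto LL atTop atTop :=
  Real.tendsto_log_atTop.comp tendsto_natCast_atTop_atTop

private theorem ev_LL (C : ℝ) : ∀ᶠ n : ℕ in atTop, C ≤ LL n := tend_LL.eventually_ge_atTop C

theorem LL_large (C : ℝ) : ∃ n0 : ℕ, ∀ n : ℕ, n0 ≤ n → C ≤ LL n :=
  eventually_atTop.mp (ev_LL C)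

theorem loglog_large (C : ℝ) : ∃ n0 : ℕ, ∀ n : ℕ, n0 ≤ n → C ≤ Real.log (LL n) :=
  eventually_atTop.mp ((Real.tendsto_log_atTop.comp tend_LL).eventually_ge_atTop C)

private theorem ev_rpow (C p q : ℝ) (hp : 0 < p) :
    ∀ᶠ x : ℝ in atTop, C * Real.log x ^ q ≤ x ^ p := by
  have h := isLittleO_log_rpow_rpow_atTop q hp
  have hc : (0 : ℝ) < 1 / (|C| + 1) := by positivity
  filter_upwards [h.bound hc, eventually_gt_atTop (1 : ℝ)] with x hx hx1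
  have hl : 0 < Real.log x := Real.log_pos hx1
  have h1 : 0 < Real.log x ^ q := Real.rpow_pos_of_pos hl q
  have h2 : 0 < x ^ p := Real.rpow_pos_of_pos (by linarith) p
  rw [Real.norm_of_nonneg h1.le, Real.norm_of_nonneg h2.le] at hx
  calc C * Real.log x ^ q ≤ (|C| + 1) * Real.log x ^ q := by
        refine mul_le_mul_of_nonneg_right ?_ h1.le
        linarith [le_abs_self C]
    _ ≤ (|C| + 1) * (1 / (|C| + 1) * x ^ p) := by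
        refine mul_le_mul_of_nonneg_left hx (by positivity)
    _ = x ^ p := by field_simp

theorem LL_rpow_le (C p q : ℝ) (hp : 0 < p) :
    ∃ n0 : ℕ, ∀ n : ℕ, n0 ≤ n → C * LL n ^ q ≤ (n : ℝ) ^ p :=
  eventually_atTop.mp (tendsto_natCast_atTop_atTop.eventually (ev_rpow C p q hp))

theorem LL_pow_le (C p : ℝ) (j : ℕ) (hp : 0 < p) :
    ∃ n0 : ℕ, ∀ n : ℕ, n0 ≤ n → C * LL n ^ j ≤ (n : ℝ) ^ p := by
  obtain ⟨n0, h⟩ := LL_rpow_le C p j hp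
  exact ⟨n0, fun n hn => by simpa using h n hn⟩

theorem exp_small (C : ℝ) (j : ℕ) :
    ∃ n0 : ℕ, ∀ n : ℕ, n0 ≤ n → C * Real.exp (-((n : ℝ) ^ ((1 : ℝ) / 4))) ≤ 1 / (n : ℝ) ^ j := by
  have h1 : Tendsto (fun x : ℝ => x ^ (4 * j) * Real.exp (-x)) atTop (nhds 0) :=
    Real.tendsto_pow_mul_exp_neg_atTop_nhds_zero (4 * j)
  have h2 : Tendsto (fun n : ℕ => (n : ℝ) ^ ((1 : ℝ) / 4)) atTop atTop :=
    (tendsto_rpow_atTop (by norm_num : (0 : ℝ) < 1 / 4)).comp tendsto_natCast_atTop_atTop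
  have h3 := (h1.comp h2).eventually_le_const (show (0 : ℝ) < 1 / (|C| + 1) by positivity)
  refine eventually_atTop.mp ?_
  filter_upwards [h3, eventually_ge_atTop 1] with n hn hn1
  have hn0 : (0 : ℝ) < n := by exact_mod_cast hn1
  have e : ((n : ℝ) ^ ((1 : ℝ) / 4)) ^ (4 * j) = (n : ℝ) ^ j := by
    rw [← Real.rpow_natCast, ← Real.rpow_mul hn0.le, ← Real.rpow_natCast]
    congr 1
    push_cast
    ring
  simp only [Function.comp] at hn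
  rw [e] at hn
  have hj : (0 : ℝ) < (n : ℝ) ^ j := pow_pos hn0 j
  have he := Real.exp_pos (-((n : ℝ) ^ ((1 : ℝ) / 4)))
  rw [le_div_iff₀ hj]
  calc C * Real.exp (-((n : ℝ) ^ ((1 : ℝ) / 4))) * (n : ℝ) ^ j
      = C * ((n : ℝ) ^ j * Real.exp (-((n : ℝ) ^ ((1 : ℝ) / 4)))) := by ring
    _ ≤ (|C| + 1) * ((n : ℝ) ^ j * Real.exp (-((n : ℝ) ^ ((1 : ℝ) / 4)))) := by
        refine mul_le_mul_of_nonneg_right ?_ (mul_pos hj he).le
        linarith [le_abs_self C]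
    _ ≤ (|C| + 1) * (1 / (|C| + 1)) := mul_le_mul_of_nonneg_left hn (by positivity)
    _ = 1 := by field_simp

private theorem ev_kk : ∀ᶠ n : ℕ in atTop,
    (n : ℝ) ^ 2 * Real.sqrt (LL n) ≤ kk n ∧ (kk n : ℝ) ≤ 2 * ((n : ℝ) ^ 2 * Real.sqrt (LL n)) := by
  filter_upwards [ev_LL 1, eventually_ge_atTop 1] with n hn hn1
  have h1 : (1 : ℝ) ≤ n := by exact_mod_cast hn1
  have h2 : 1 ≤ Real.sqrt (LL n) := Real.one_le_sqrt.mpr hn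
  have h3 : 1 ≤ (n : ℝ) ^ 2 * Real.sqrt (LL n) := by
    have : (1 : ℝ) ≤ (n : ℝ) ^ 2 := one_le_pow₀ h1
    calc (1 : ℝ) = 1 * 1 := by norm_num
      _ ≤ _ := mul_le_mul this h2 (by norm_num) (by positivity)
  refine ⟨Nat.le_ceil _, ?_⟩
  have h4 := Nat.ceil_lt_add_one (show 0 ≤ (n : ℝ) ^ 2 * Real.sqrt (LL n) by linarith)
  unfold kk
  linarith

theorem kk_bounds : ∃ n0 : ℕ, ∀ n : ℕ, n0 ≤ n →
    (n : ℝ) ^ 2 * Real.sqrt (LL n) ≤ kk n ∧ (kk n : ℝ) ≤ 2 * ((n : ℝ) ^ 2 * Real.sqrt (LL n)) :=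
  eventually_atTop.mp ev_kk

theorem kk_sq : ∃ n0 : ℕ, ∀ n : ℕ, n0 ≤ n →
    NN n * LL n ≤ (kk n : ℝ) ^ 2 ∧ (kk n : ℝ) ^ 2 ≤ 4 * (NN n * LL n) := by
  refine eventually_atTop.mp ?_
  filter_upwards [ev_kk, ev_LL 0] with n hn h0
  have e : NN n * LL n = ((n : ℝ) ^ 2 * Real.sqrt (LL n)) ^ 2 := by
    rw [mul_pow, Real.sq_sqrt h0]
    unfold NN
    ring
  have hp : 0 ≤ (n : ℝ) ^ 2 * Real.sqrt (LL n) := by positivity
  rw [e]
  refine ⟨pow_le_pow_left₀ hp hn.1 2, ?_⟩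
  calc (kk n : ℝ) ^ 2 ≤ (2 * ((n : ℝ) ^ 2 * Real.sqrt (LL n))) ^ 2 :=
        pow_le_pow_left₀ (Nat.cast_nonneg _) hn.2 2
    _ = _ := by ring

theorem rr_kk : ∃ n0 : ℕ, ∀ n : ℕ, n0 ≤ n →
    rr n * LL n ^ ((1 : ℝ) / 3) ≤ kk n ∧ (kk n : ℝ) ≤ 2 * (rr n * LL n ^ ((1 : ℝ) / 3)) := by
  refine eventually_atTop.mp ?_
  filter_upwards [ev_kk, ev_LL 1] with n hn h0
  have e : rr n * LL n ^ ((1 : ℝ) / 3) = (n : ℝ) ^ 2 * Real.sqrt (LL n) := by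
    unfold rr
    rw [mul_assoc, ← Real.rpow_add (by linarith), Real.sqrt_eq_rpow]
    norm_num
  rw [e]
  exact hn

theorem t0_kk : ∃ n0 : ℕ, ∀ n : ℕ, n0 ≤ n → (t0 n : ℝ) ≤ 4 * kk n / Real.sqrt (LL n) := by
  refine eventually_atTop.mp ?_
  filter_upwards [ev_kk, ev_LL 1] with n hn h0
  have h1 : 0 < Real.sqrt (LL n) := Real.sqrt_pos.mpr (by linarith)
  rw [le_div_iff₀ h1]
  unfold t0
  push_cast
  linarith [hn.1]

theorem kk_le_pow (B : ℝ) : ∃ n0 : ℕ, ∀ n : ℕ, n0 ≤ n → B * kk n ≤ (n : ℝ) ^ ((9 : ℝ) / 4) := by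
  refine eventually_atTop.mp ?_
  filter_upwards [ev_kk, tendsto_natCast_atTop_atTop.eventually
    (ev_rpow (|B| * 2) (1 / 4) (1 / 2) (by norm_num)), eventually_ge_atTop 1] with n hn h0 hn1
  have h1 : (0 : ℝ) < n := by exact_mod_cast hn1
  have e : (n : ℝ) ^ ((9 : ℝ) / 4) = (n : ℝ) ^ 2 * (n : ℝ) ^ ((1 : ℝ) / 4) := by
    rw [← Real.rpow_natCast, ← Real.rpow_add h1]
    norm_num
  rw [e]
  calc B * kk n ≤ |B| * (2 * ((n : ℝ) ^ 2 * Real.sqrt (LL n))) := by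
        calc B * kk n ≤ |B| * kk n :=
              mul_le_mul_of_nonneg_right (le_abs_self B) (Nat.cast_nonneg _)
          _ ≤ _ := mul_le_mul_of_nonneg_left hn.2 (abs_nonneg B)
    _ = (n : ℝ) ^ 2 * (|B| * 2 * Real.log n ^ ((1 : ℝ) / 2)) := by
        rw [Real.sqrt_eq_rpow]
        unfold LL
        ring
    _ ≤ _ := mul_le_mul_of_nonneg_left h0 (by positivity)

theorem sq_le_kk (C : ℝ) (ξ : ℝ) (hξ : 0 < ξ) :
    ∃ n0 : ℕ, ∀ n : ℕ, n0 ≤ n → C * (n : ℝ) ^ 2 ≤ ξ * kk n := by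
  refine eventually_atTop.mp ?_
  filter_upwards [ev_kk, ev_LL ((C / ξ) ^ 2)] with n hn h0
  have h1 : C / ξ ≤ Real.sqrt (LL n) := by
    have := Real.sqrt_le_sqrt h0
    rw [Real.sqrt_sq_eq_abs] at this
    exact (le_abs_self _).trans this
  have h2 : C ≤ ξ * Real.sqrt (LL n) := by
    rw [div_le_iff₀ hξ] at h1
    linarith
  calc C * (n : ℝ) ^ 2 ≤ ξ * Real.sqrt (LL n) * (n : ℝ) ^ 2 :=
        mul_le_mul_of_nonneg_right h2 (by positivity)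
    _ = ξ * ((n : ℝ) ^ 2 * Real.sqrt (LL n)) := by ring
    _ ≤ ξ * kk n := mul_le_mul_of_nonneg_left hn.1 hξ.le

private theorem sqrt_bounds (n : ℕ) (hn : 4 ≤ n) :
    (n : ℝ) ^ ((1 : ℝ) / 2) / 2 ≤ Nat.sqrt n ∧ (Nat.sqrt n : ℝ) ≤ (n : ℝ) ^ ((1 : ℝ) / 2) := by
  rw [← Real.sqrt_eq_rpow]
  have h4 : (2 : ℝ) ≤ Real.sqrt n := by
    rw [show (2 : ℝ) = Real.sqrt 4 by
      rw [show (4 : ℝ) = 2 ^ 2 by norm_num]; exact (Real.sqrt_sq (by norm_num)).symm]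
    exact Real.sqrt_le_sqrt (by exact_mod_cast hn)
  have h1 : Real.sqrt n < (Nat.sqrt n : ℝ) + 1 := by
    rw [Real.sqrt_lt' (by positivity)]
    have := Nat.lt_succ_sqrt' n
    calc (n : ℝ) < ((Nat.sqrt n).succ ^ 2 : ℕ) := by exact_mod_cast this
      _ = _ := by push_cast; ring
  refine ⟨by linarith, ?_⟩
  refine Real.le_sqrt_of_sq_le ?_
  exact_mod_cast Nat.sqrt_le' n

theorem bb_bounds : ∃ n0 : ℕ, ∀ n : ℕ, n0 ≤ n →
    (n : ℝ) ^ ((3 : ℝ) / 2) / 2 ≤ bb n ∧ (bb n : ℝ) ≤ (n : ℝ) ^ ((3 : ℝ) / 2) ∧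
    (n : ℝ) ^ ((1 : ℝ) / 2) / 2 ≤ b1 n ∧ (b1 n : ℝ) ≤ (n : ℝ) ^ ((1 : ℝ) / 2) ∧
    b1 n ≤ bb n ∧ bb n ≤ n ^ 2 := by
  refine ⟨4, fun n hn => ?_⟩
  obtain ⟨h1, h2⟩ := sqrt_bounds n hn
  have hn0 : (0 : ℝ) < n := by exact_mod_cast (by omega : 0 < n)
  have e : (n : ℝ) ^ ((3 : ℝ) / 2) = n * (n : ℝ) ^ ((1 : ℝ) / 2) := by
    nth_rewrite 2 [← Real.rpow_one (n : ℝ)]
    rw [← Real.rpow_add hn0]
    norm_num
  have eb : (bb n : ℝ) = n * (Nat.sqrt n : ℝ) := by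
    unfold bb
    push_cast
    ring
  refine ⟨?_, ?_, h1, h2, ?_, ?_⟩
  · rw [e, eb, mul_div_assoc]
    exact mul_le_mul_of_nonneg_left h1 hn0.le
  · rw [e, eb]
    exact mul_le_mul_of_nonneg_left h2 hn0.le
  · unfold b1 bb
    exact Nat.le_mul_of_pos_left _ (by omega)
  · unfold bb
    rw [sq]
    exact Nat.mul_le_mul_left n (Nat.sqrt_le_self n)

/-- `n^2 log L` is much smaller than `r` -/
theorem rr_large (C : ℝ) : ∃ n0 : ℕ, ∀ n : ℕ, n0 ≤ n →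
    C * (n : ℝ) ^ 2 * Real.log (LL n) ≤ rr n ∧ C * (n : ℝ) ^ 2 ≤ rr n ∧ C * bb n ≤ rr n := by
  obtain ⟨n1, hb⟩ := bb_bounds
  refine eventually_atTop.mp ?_
  have h6 : Tendsto (fun n : ℕ => LL n ^ ((1 : ℝ) / 6)) atTop atTop :=
    (tendsto_rpow_atTop (by norm_num : (0 : ℝ) < 1 / 6)).comp tend_LL
  filter_upwards [tend_LL.eventually (ev_rpow C (1 / 6) 1 (by norm_num)),
    h6.eventually_ge_atTop |C|, eventually_ge_atTop n1] with n h1 h2 h3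
  rw [Real.rpow_one] at h1
  have hsq : (0 : ℝ) ≤ (n : ℝ) ^ 2 := by positivity
  have hr : |C| * (n : ℝ) ^ 2 ≤ rr n := by
    unfold rr
    rw [mul_comm]
    exact mul_le_mul_of_nonneg_left h2 hsq
  refine ⟨?_, ?_, ?_⟩
  · unfold rr
    calc C * (n : ℝ) ^ 2 * Real.log (LL n) = (n : ℝ) ^ 2 * (C * Real.log (LL n)) := by ring
      _ ≤ _ := mul_le_mul_of_nonneg_left h1 hsq
  · exact (mul_le_mul_of_nonneg_right (le_abs_self C) hsq).trans hr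
  · have h4 : (bb n : ℝ) ≤ (n : ℝ) ^ 2 := by exact_mod_cast (hb n h3).2.2.2.2.2
    calc C * (bb n : ℝ) ≤ |C| * (bb n : ℝ) :=
          mul_le_mul_of_nonneg_right (le_abs_self C) (Nat.cast_nonneg _)
      _ ≤ |C| * (n : ℝ) ^ 2 := mul_le_mul_of_nonneg_left h4 (abs_nonneg C)
      _ ≤ rr n := hr

end Pool.Agent.UST
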