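import Pool.Agent.Helper54.UST.LemU

/-! Paper Lemma UC and its consequences. -/

namespace Pool.Agent.UST

open MeasureTheory

/-- measurability of events depending on finitely many choices -/
private lemma meas_set_dep (t : ℕ) (P : (ℕ → DD) → Prop)
    (hP : ∀ ω ω' : ℕ → DD, (∀ i, i < t → ω i = ω' i) → (P ω ↔ P ω')) :
    MeasurableSet {ω | P ω} := by
  have h := measurable_dep (D := DD) t P (fun ω ω' h => propext (hP ω ω' h))
  have h2 : {ω | P ω} = P ⁻¹' {True} := by
    ext ω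
    simp
  rw [h2]
  exact h (measurableSet_singleton _)

/-- a function of the position and of another variable -/
private lemma meas_pos_comp {α : Type} [MeasurableSpace α] {β : Type} [MeasurableSpace β]
    (n : ℕ) [NeZero n] (x : V n) (t : ℕ) (h : V n → β → α) (hh : ∀ y, Measurable (h y)) :
    Measurable (fun p : (ℕ → DD) × β => h (pos (act n) x p.1 t) p.2) := by
  intro s hs
  have h1 : (fun p : (ℕ → DD) × β => h (pos (act n) x p.1 t) p.2) ⁻¹' s
      = ⋃ y : V n, ({p : (ℕ → DD) × β | pos (act n) x p.1 t = y} ∩ {p | h y p.2 ∈ s}) := by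
    ext p
    simp
  rw [h1]
  refine MeasurableSet.iUnion fun y => MeasurableSet.inter ?_ ?_
  · have h2 : MeasurableSet {ω : ℕ → DD | pos (act n) x ω t = y} := by
      refine meas_set_dep t _ fun ω ω' h => ?_
      rw [pos_congr (act n) x ω ω' t h]
    exact measurable_fst h2
  · exact measurable_snd (hh y hs)

/-- the Markov property at time `i` for events -/
private lemma pr_shift_le (n : ℕ) [NeZero n] (x : V n) (i : ℕ) (P : V n → (ℕ → DD) → Prop)
    (hP : ∀ y, MeasurableSet {η | P y η}) (p : ℝ) (hp : ∀ y, pr {η | P y η} ≤ p) :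
    pr {ω | P (pos (act n) x ω i) (sh i ω)} ≤ p := by
  classical
  have hp0 : 0 ≤ p := le_trans measureReal_nonneg (hp 0)
  let F : (ℕ → DD) → (ℕ → DD) → ENNReal := fun ω η =>
    {η | P (pos (act n) x ω i) η}.indicator (fun _ => (1 : ENNReal)) η
  have hF : Measurable (Function.uncurry F) := by
    have := meas_pos_comp (α := ENNReal) (β := ℕ → DD) n x i
      (fun y η => {η | P y η}.indicator (fun _ => (1 : ENNReal)) η)
      (fun y => measurable_const.indicator (hP y))
    exact this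
  have hm := markov_lint (D := DD) i F hF (fun ω ω' η h => by
    show {η | P (pos (act n) x ω i) η}.indicator (fun _ => (1 : ENNReal)) η
      = {η | P (pos (act n) x ω' i) η}.indicator (fun _ => (1 : ENNReal)) η
    rw [pos_congr (act n) x ω ω' i h])
  have hS : MeasurableSet {ω | P (pos (act n) x ω i) (sh i ω)} := by
    have h1 := meas_pos_comp (α := ENNReal) (β := ℕ → DD) n x i
      (fun y η => {η | P y η}.indicator (fun _ => (1 : ENNReal)) η)
      (fun y => measurable_const.indicator (hP y))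
    have h2 := h1.comp (measurable_id.prodMk (measurable_sh (D := DD) i))
    have h3 : {ω | P (pos (act n) x ω i) (sh i ω)} =
        (((fun p : (ℕ → DD) × (ℕ → DD) =>
          {η | P (pos (act n) x p.1 i) η}.indicator (fun _ => (1 : ENNReal)) p.2)) ∘
          (fun ω => (id ω, sh i ω))) ⁻¹' {1} := by
      ext ω
      simp [Set.indicator_apply]
    rw [h3]
    exact h2 (measurableSet_singleton _)
  have h4 : ∫⁻ ω, F ω (sh i ω) ∂(mu DD) = (mu DD) {ω | P (pos (act n) x ω i) (sh i ω)} := by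
    rw [← lintegral_indicator_one hS]
    refine lintegral_congr fun ω => ?_
    show {η | P (pos (act n) x ω i) η}.indicator (fun _ => (1 : ENNReal)) (sh i ω) = _
    simp [Set.indicator_apply]
  have h5 : ∀ ω, ∫⁻ η, F ω η ∂(mu DD) ≤ ENNReal.ofReal p := by
    intro ω
    have h6 : ∫⁻ η, F ω η ∂(mu DD) = (mu DD) {η | P (pos (act n) x ω i) η} :=
      lintegral_indicator_one (hP _)
    rw [h6]
    have h7 := hp (pos (act n) x ω i)
    unfold pr at h7
    rw [measureReal_def] at h7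
    exact (ENNReal.le_ofReal_iff_toReal_le (measure_ne_top _ _) hp0).2 h7
  rw [h4] at hm
  unfold pr
  rw [measureReal_def, hm]
  refine ENNReal.toReal_le_of_le_ofReal hp0 ?_
  calc ∫⁻ ω, ∫⁻ η, F ω η ∂(mu DD) ∂(mu DD) ≤ ∫⁻ _ω, ENNReal.ofReal p ∂(mu DD) :=
        lintegral_mono h5
    _ = ENNReal.ofReal p := by rw [lintegral_const, measure_univ, mul_one]

private lemma exp_le_one_add_two {x : ℝ} (h0 : 0 ≤ x) (h1 : x ≤ 1) : Real.exp x ≤ 1 + 2 * x := by
  have h := Real.abs_exp_sub_one_sub_id_le (x := x) (by rw [abs_of_nonneg h0]; exact h1)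
  have h2 := (abs_le.1 h).2
  nlinarith

/-- exponential moment of the sum over the blocks -/
private lemma exp_mom (n : ℕ) [NeZero n] (f : V n → (ℕ → DD) → ℝ) (lam A : ℝ)
    (hdep : ∀ y, ∀ ω ω' : ℕ → DD, (∀ i, i < n → ω i = ω' i) → f y ω = f y ω')
    (hb : ∀ y ω, 0 ≤ f y ω ∧ f y ω ≤ 1) (hlam : 0 ≤ lam)
    (hA : ∀ y, ∫ ω, Real.exp (lam * f y ω) ∂(mu DD) ≤ A) (Q : ℕ) :
    ∀ x : V n, ∫ ω, Real.exp (lam * ∑ j ∈ Finset.range Q, f (pos (act n) x ω (j * n)) (sh (j * n) ω))
      ∂(mu DD) ≤ A ^ Q := by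
  have hA0 : 0 ≤ A := (integral_nonneg fun ω => (Real.exp_pos _).le).trans (hA 0)
  induction Q with
  | zero => intro x; simp
  | succ Q ih =>
    intro x
    set G : V n → (ℕ → DD) → ℝ := fun y η =>
      Real.exp (lam * ∑ j ∈ Finset.range Q, f (pos (act n) y η (j * n)) (sh (j * n) η)) with hG
    have hGdep : ∀ y, ∀ ω ω' : ℕ → DD, (∀ i, i < (Q + 1) * n → ω i = ω' i) → G y ω = G y ω' := by
      intro y ω ω' h
      simp only [hG]
      congr 2
      refine Finset.sum_congr rfl fun j hj => ?_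
      rw [Finset.mem_range] at hj
      have hjn : j * n + n ≤ (Q + 1) * n := by nlinarith
      rw [pos_congr (act n) y ω ω' (j * n) (fun i hi => h i (by omega))]
      refine hdep _ _ _ fun i hi => ?_
      unfold sh
      exact h _ (by omega)
    have hGm : ∀ y, Measurable (G y) := fun y => measurable_dep ((Q + 1) * n) _ (hGdep y)
    have hGb : ∀ y η, 0 ≤ G y η ∧ G y η ≤ Real.exp (lam * Q) := by
      intro y η
      refine ⟨(Real.exp_pos _).le, ?_⟩
      apply Real.exp_le_exp.2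
      refine mul_le_mul_of_nonneg_left ?_ hlam
      calc ∑ j ∈ Finset.range Q, f (pos (act n) y η (j * n)) (sh (j * n) η)
          ≤ ∑ _j ∈ Finset.range Q, (1 : ℝ) := Finset.sum_le_sum fun j _ => (hb _ _).2
        _ = Q := by simp
    let F : (ℕ → DD) → (ℕ → DD) → ℝ := fun ω η =>
      Real.exp (lam * f x ω) * G (pos (act n) x ω n) η
    have hFm : Measurable (Function.uncurry F) := by
      have h1 : Measurable (fun p : (ℕ → DD) × (ℕ → DD) => Real.exp (lam * f x p.1)) := by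
        have h2 : Measurable (fun ω : ℕ → DD => Real.exp (lam * f x ω)) :=
          measurable_dep n _ fun ω ω' h => by rw [hdep x ω ω' h]
        exact h2.comp measurable_fst
      exact h1.mul (meas_pos_comp n x n G hGm)
    have hmk := markov_int (D := DD) n F hFm (Real.exp lam * Real.exp (lam * Q)) (by
      intro ω η
      rw [abs_of_nonneg (mul_nonneg (Real.exp_pos _).le (hGb _ _).1)]
      refine mul_le_mul ?_ (hGb _ _).2 (hGb _ _).1 (Real.exp_pos _).le
      apply Real.exp_le_exp.2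
      nlinarith [(hb x ω).2]) (by
      intro ω ω' η h
      show Real.exp (lam * f x ω) * G (pos (act n) x ω n) η
        = Real.exp (lam * f x ω') * G (pos (act n) x ω' n) η
      rw [hdep x ω ω' h, pos_congr (act n) x ω ω' n h])
    have h1 : ∀ ω : ℕ → DD, Real.exp (lam * ∑ j ∈ Finset.range (Q + 1),
        f (pos (act n) x ω (j * n)) (sh (j * n) ω)) = F ω (sh n ω) := by
      intro ω
      show _ = Real.exp (lam * f x ω) * Real.exp (lam * ∑ j ∈ Finset.range Q,
        f (pos (act n) (pos (act n) x ω n) (sh n ω) (j * n)) (sh (j * n) (sh n ω)))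
      rw [← Real.exp_add, Finset.sum_range_succ']
      congr 1
      have h2 : ∀ j : ℕ, f (pos (act n) x ω ((j + 1) * n)) (sh ((j + 1) * n) ω)
          = f (pos (act n) (pos (act n) x ω n) (sh n ω) (j * n)) (sh (j * n) (sh n ω)) := by
        intro j
        have h3 : (j + 1) * n = n + j * n := by ring
        rw [h3, pos_add (act n) x ω n (j * n)]
        congr 1
        funext i
        unfold sh
        rw [add_assoc]
      simp_rw [h2]
      have h4 : f (pos (act n) x ω (0 * n)) (sh (0 * n) ω) = f x ω := by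
        have h5 : sh (0 * n) ω = ω := by
          funext i
          unfold sh
          simp
        rw [h5]
        simp [pos]
      rw [h4]
      ring
    simp_rw [h1]
    rw [hmk]
    have h6 : ∀ ω, ∫ η, F ω η ∂(mu DD) ≤ Real.exp (lam * f x ω) * A ^ Q := by
      intro ω
      show ∫ η, Real.exp (lam * f x ω) * G (pos (act n) x ω n) η ∂(mu DD) ≤ _
      rw [integral_const_mul]
      exact mul_le_mul_of_nonneg_left (ih _) (Real.exp_pos _).le
    have hem : Measurable (fun ω : ℕ → DD => Real.exp (lam * f x ω)) :=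
      measurable_dep n _ fun ω ω' h => by rw [hdep x ω ω' h]
    have hei : Integrable (fun ω : ℕ → DD => Real.exp (lam * f x ω)) (mu DD) := by
      refine Integrable.of_bound hem.aestronglyMeasurable (Real.exp lam)
        (Filter.Eventually.of_forall fun ω => ?_)
      rw [Real.norm_of_nonneg (Real.exp_pos _).le]
      apply Real.exp_le_exp.2
      nlinarith [(hb x ω).2]
    calc ∫ ω, ∫ η, F ω η ∂(mu DD) ∂(mu DD)
        ≤ ∫ ω, Real.exp (lam * f x ω) * A ^ Q ∂(mu DD) := by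
          refine integral_mono_of_nonneg (Filter.Eventually.of_forall fun ω => ?_)
            (hei.mul_const _) (Filter.Eventually.of_forall h6)
          exact integral_nonneg fun η => mul_nonneg (Real.exp_pos _).le (hGb _ _).1
      _ = (∫ ω, Real.exp (lam * f x ω) ∂(mu DD)) * A ^ Q := integral_mul_const _ _
      _ ≤ A * A ^ Q := mul_le_mul_of_nonneg_right (hA x) (pow_nonneg hA0 _)
      _ = A ^ (Q + 1) := by ring

private lemma ncard_seg_le (n : ℕ) (x : V n) (ω : ℕ → DD) (s t : ℕ) :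
    (st (seg (act n) x ω s t)).ncard ≤ t + 1 - s := by
  classical
  have h1 : st (seg (act n) x ω s t) = ((seg (act n) x ω s t).toFinset : Set (V n)) := by
    ext y
    simp [st]
  rw [h1, Set.ncard_coe_finset]
  refine (List.toFinset_card_le _).trans ?_
  rw [seg_length]

private lemma nat_sqrt_ge (n : ℕ) : Real.sqrt n - 1 ≤ (Nat.sqrt n : ℝ) := by
  have h1 : n < (Nat.sqrt n + 1) * (Nat.sqrt n + 1) := Nat.lt_succ_sqrt n
  have h2 : (n : ℝ) ≤ ((Nat.sqrt n : ℝ) + 1) ^ 2 := by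
    have : ((n : ℕ) : ℝ) < (((Nat.sqrt n + 1) * (Nat.sqrt n + 1) : ℕ) : ℝ) := by exact_mod_cast h1
    push_cast at this
    nlinarith
  have h3 : Real.sqrt n ≤ (Nat.sqrt n : ℝ) + 1 := by
    rw [Real.sqrt_le_left (by positivity)]
    exact h2
  linarith

/-- `n^(1/4) log n` is smaller than the integer part of `√n` -/
private lemma big_n : ∃ n0 : ℕ, ∀ n : ℕ, n0 ≤ n → 3 ≤ n ∧ 1 ≤ LL n ∧
    (n : ℝ) ^ ((1 : ℝ) / 4) * LL n ≤ (Nat.sqrt n : ℝ) := by
  have h1 := (isLittleO_log_rpow_atTop (by norm_num : (0 : ℝ) < 1 / 4)).bound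
    (by norm_num : (0 : ℝ) < 1 / 2)
  have h2 := tendsto_natCast_atTop_atTop (R := ℝ) |>.eventually h1
  obtain ⟨N, hN⟩ := Filter.eventually_atTop.1 h2
  refine ⟨max N 4, fun n hn => ?_⟩
  have hn4 : 4 ≤ n := le_trans (le_max_right _ _) hn
  have hn4' : (4 : ℝ) ≤ n := by exact_mod_cast hn4
  have h3 := hN n (le_trans (le_max_left _ _) hn)
  have hlog1 : 1 ≤ LL n := by
    unfold LL
    rw [Real.le_log_iff_exp_le (by linarith)]
    have := Real.exp_one_lt_d9
    linarith
  refine ⟨by omega, hlog1, ?_⟩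
  have hp : 0 < (n : ℝ) ^ ((1 : ℝ) / 4) := Real.rpow_pos_of_pos (by linarith) _
  rw [Real.norm_of_nonneg (by unfold LL at hlog1; linarith), Real.norm_of_nonneg hp.le] at h3
  have h4 : (n : ℝ) ^ ((1 : ℝ) / 4) * (n : ℝ) ^ ((1 : ℝ) / 4) = Real.sqrt n := by
    rw [← Real.rpow_add (by linarith), Real.sqrt_eq_rpow]
    norm_num
  have h5 : (2 : ℝ) ≤ Real.sqrt n := by
    rw [Real.le_sqrt (by norm_num) (by linarith)]
    linarith
  have h6 := nat_sqrt_ge n
  unfold LL
  nlinarith [mul_le_mul_of_nonneg_left h3 hp.le]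

theorem lemUC : ∃ C : ℝ, 0 < C ∧ ∃ n0 : ℕ, ∀ (n : ℕ) [NeZero n], n0 ≤ n →
    ∀ (m s : ℕ) (x : V n), b1 n ≤ m → bb n ≤ s →
    pr {ω | C * m * s / (NN n * LL n) < pm n m (st (seg (act n) x ω 0 s))} ≤
      Real.exp (-((n : ℝ) ^ ((1 : ℝ) / 4))) := by
  obtain ⟨Cu, hCu, nu, hU⟩ := lemU
  obtain ⟨nb, hnb⟩ := big_n
  refine ⟨16 * Cu + 4, by positivity, max nu nb, fun n _ hn m s x hm hs => ?_⟩
  have hnu : nu ≤ n := le_trans (le_max_left _ _) hn
  obtain ⟨hn3, hL1, hbig⟩ := hnb n (le_trans (le_max_right _ _) hn)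
  have hU' := hU n hnu
  have hn3' : (3 : ℝ) ≤ n := by exact_mod_cast hn3
  have hNN : 0 < NN n := by unfold NN; positivity
  have hLL : 0 < LL n := by linarith
  have hsq1 : 1 ≤ Nat.sqrt n := by
    rw [Nat.le_sqrt]
    omega
  have hm1 : 1 ≤ m := le_trans (by unfold b1; exact hsq1) hm
  have hm1' : (1 : ℝ) ≤ m := by exact_mod_cast hm1
  have hb1n : b1 n ≤ n := by unfold b1; exact Nat.sqrt_le_self n
  have hsn : n ≤ s := le_trans (by unfold bb; nlinarith) hs
  have hsn' : (n : ℝ) ≤ s := by exact_mod_cast hsn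
  have hs0 : (0 : ℝ) < s := by linarith
  -- the block function
  set f : V n → (ℕ → DD) → ℝ := fun y ω => pm n m (st (seg (act n) y ω 0 n)) with hf
  set v : ℝ := ((m : ℝ) + 1) * ((n : ℝ) + 1) / NN n with hv
  have hv0 : 0 < v := by positivity
  have hfv : ∀ y ω, f y ω ≤ v := by
    intro y ω
    refine (pm_card n m _).trans ?_
    rw [hv]
    have h1 : ((st (seg (act n) y ω 0 n)).ncard : ℝ) ≤ (n : ℝ) + 1 := by
      have := ncard_seg_le n y ω 0 n
      have h2 : (st (seg (act n) y ω 0 n)).ncard ≤ n + 1 := by omega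
      exact_mod_cast h2
    gcongr
  have hfb : ∀ y ω, 0 ≤ f y ω ∧ f y ω ≤ 1 := fun y ω => ⟨pm_nonneg n m _, pm_le_one n m _⟩
  have hfdep : ∀ y, ∀ ω ω' : ℕ → DD, (∀ i, i < n → ω i = ω' i) → f y ω = f y ω' := by
    intro y ω ω' h
    simp only [hf]
    rw [seg_congr (act n) y ω ω' 0 n h]
  set lam : ℝ := 1 / v with hlam
  have hlam0 : 0 < lam := by positivity
  set E : ℝ := Cu * m * n / (NN n * LL n) with hE
  have hE0 : 0 ≤ E := by positivity
  have hEf : ∀ y, ∫ ω, f y ω ∂(mu DD) ≤ E := fun y => hU' m n y hm hb1n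
  have hfm : ∀ y, Measurable (f y) := fun y => measurable_dep n _ (hfdep y)
  have hfi : ∀ y, Integrable (f y) (mu DD) := by
    intro y
    refine Integrable.of_bound (hfm y).aestronglyMeasurable 1
      (Filter.Eventually.of_forall fun ω => ?_)
    rw [Real.norm_of_nonneg (hfb y ω).1]
    exact (hfb y ω).2
  have hA : ∀ y, ∫ ω, Real.exp (lam * f y ω) ∂(mu DD) ≤ Real.exp (2 * lam * E) := by
    intro y
    calc ∫ ω, Real.exp (lam * f y ω) ∂(mu DD) ≤ ∫ ω, (1 + 2 * lam * f y ω) ∂(mu DD) := by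
          refine integral_mono_of_nonneg (Filter.Eventually.of_forall fun ω => (Real.exp_pos _).le)
            ((integrable_const _).add ((hfi y).const_mul _))
            (Filter.Eventually.of_forall fun ω => ?_)
          show Real.exp (lam * f y ω) ≤ 1 + 2 * lam * f y ω
          have h1 : lam * f y ω ≤ 1 := by
            rw [hlam, one_div, inv_mul_le_iff₀ hv0, mul_one]
            exact hfv y ω
          have h2 := exp_le_one_add_two (mul_nonneg hlam0.le (hfb y ω).1) h1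
          linarith
      _ = 1 + 2 * lam * ∫ ω, f y ω ∂(mu DD) := by
          rw [integral_add (integrable_const _) ((hfi y).const_mul _), integral_const,
            integral_const_mul]
          simp
      _ ≤ 1 + 2 * lam * E := by
          have := mul_le_mul_of_nonneg_left (hEf y) (by positivity : 0 ≤ 2 * lam)
          linarith
      _ ≤ Real.exp (2 * lam * E) := by
          have := Real.add_one_le_exp (2 * lam * E)
          linarith
  -- the number of blocks
  set Q : ℕ := s / n + 1 with hQ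
  have hQs : (Q : ℝ) ≤ 2 * s / n := by
    rw [le_div_iff₀ (by linarith)]
    have h1 : s / n * n ≤ s := Nat.div_mul_le_self s n
    have h2 : ((s / n : ℕ) : ℝ) * n ≤ s := by exact_mod_cast h1
    rw [hQ]
    push_cast
    nlinarith
  set S : (ℕ → DD) → ℝ := fun ω =>
    ∑ j ∈ Finset.range Q, f (pos (act n) x ω (j * n)) (sh (j * n) ω) with hS
  have hcover : ∀ ω, pm n m (st (seg (act n) x ω 0 s)) ≤ S ω := by
    intro ω
    have h1 : st (seg (act n) x ω 0 s) ⊆ ⋃ j ∈ Finset.range Q,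
        st (seg (act n) (pos (act n) x ω (j * n)) (sh (j * n) ω) 0 n) := by
      intro y hy
      obtain ⟨i, _, hi2, hi3⟩ := (mem_seg (act n) x ω 0 s y).1 hy
      rw [Set.mem_iUnion₂]
      refine ⟨i / n, ?_, ?_⟩
      · rw [Finset.mem_range, hQ]
        have : i / n ≤ s / n := Nat.div_le_div_right hi2
        omega
      · have h2 : i / n * n + i % n = i := Nat.div_add_mod' i n
        have h3 : i % n < n := Nat.mod_lt _ (by omega)
        refine (mem_seg (act n) _ _ 0 n y).2 ⟨i % n, Nat.zero_le _, h3.le, ?_⟩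
        rw [← pos_add, h2]
        exact hi3
    refine (pm_mono n le_rfl h1).trans ?_
    exact pm_iUnion n (Finset.range Q) m _
  have hmom := exp_mom n f lam (Real.exp (2 * lam * E)) hfdep hfb hlam0.le hA Q x
  have hSdep : ∀ ω ω' : ℕ → DD, (∀ i, i < (Q + 1) * n → ω i = ω' i) → S ω = S ω' := by
    intro ω ω' h
    simp only [hS]
    refine Finset.sum_congr rfl fun j hj => ?_
    rw [Finset.mem_range] at hj
    have hjn : j * n + n ≤ (Q + 1) * n := by nlinarith
    rw [pos_congr (act n) x ω ω' (j * n) (fun i hi => h i (by omega))]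
    refine hfdep _ _ _ fun i hi => ?_
    unfold sh
    exact h _ (by omega)
  have hSm : Measurable S := measurable_dep ((Q + 1) * n) _ hSdep
  have hSb : ∀ ω, S ω ≤ Q := by
    intro ω
    calc S ω ≤ ∑ _j ∈ Finset.range Q, (1 : ℝ) := Finset.sum_le_sum fun j _ => (hfb _ _).2
      _ = Q := by simp
  have hexpi : Integrable (fun ω => Real.exp (lam * S ω)) (mu DD) := by
    refine Integrable.of_bound (Real.measurable_exp.comp (hSm.const_mul lam)).aestronglyMeasurable
      (Real.exp (lam * Q)) (Filter.Eventually.of_forall fun ω => ?_)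
    rw [Real.norm_of_nonneg (Real.exp_pos _).le]
    apply Real.exp_le_exp.2
    exact mul_le_mul_of_nonneg_left (hSb ω) hlam0.le
  set a : ℝ := (16 * Cu + 4) * m * s / (NN n * LL n) with ha
  have hcheb := mul_meas_ge_le_integral_of_nonneg (μ := mu DD)
    (Filter.Eventually.of_forall fun ω => (Real.exp_pos (lam * S ω)).le) hexpi (Real.exp (lam * a))
  have hprle : pr {ω | a < pm n m (st (seg (act n) x ω 0 s))}
      ≤ (mu DD).real {ω | Real.exp (lam * a) ≤ Real.exp (lam * S ω)} := by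
    unfold pr
    refine measureReal_mono ?_ (measure_ne_top _ _)
    intro ω hω
    have h1 : a < pm n m (st (seg (act n) x ω 0 s)) := hω
    show Real.exp (lam * a) ≤ Real.exp (lam * S ω)
    apply Real.exp_le_exp.2
    exact mul_le_mul_of_nonneg_left (h1.le.trans (hcover ω)) hlam0.le
  have hmom' : ∫ ω, Real.exp (lam * S ω) ∂(mu DD) ≤ Real.exp (2 * lam * E * Q) := by
    refine hmom.trans (le_of_eq ?_)
    rw [← Real.exp_nat_mul]
    congr 1
    ring
  have hstep : pr {ω | a < pm n m (st (seg (act n) x ω 0 s))}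
      ≤ Real.exp (2 * lam * E * Q - lam * a) := by
    refine hprle.trans ?_
    rw [Real.exp_sub, le_div_iff₀ (Real.exp_pos _), mul_comm]
    exact hcheb.trans hmom'
  refine hstep.trans (Real.exp_le_exp.2 ?_)
  -- arithmetic of the exponent
  have hn0 : (0 : ℝ) < n := by linarith
  have hlamE : lam * E ≤ Cu / LL n := by
    rw [hlam, hE, hv]
    have h1 : 1 / (((m : ℝ) + 1) * ((n : ℝ) + 1) / NN n) * (Cu * m * n / (NN n * LL n))
        = Cu / LL n * ((m : ℝ) * n / (((m : ℝ) + 1) * ((n : ℝ) + 1))) := by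
      field_simp
    rw [h1]
    have h2 : (m : ℝ) * n / (((m : ℝ) + 1) * ((n : ℝ) + 1)) ≤ 1 := by
      rw [div_le_one (by positivity)]
      nlinarith
    calc Cu / LL n * ((m : ℝ) * n / (((m : ℝ) + 1) * ((n : ℝ) + 1))) ≤ Cu / LL n * 1 :=
          mul_le_mul_of_nonneg_left h2 (by positivity)
      _ = Cu / LL n := mul_one _
  have hlama : (4 * Cu + 1) * s / (n * LL n) ≤ lam * a := by
    rw [hlam, ha, hv]
    have h1 : 1 / (((m : ℝ) + 1) * ((n : ℝ) + 1) / NN n) * ((16 * Cu + 4) * m * s / (NN n * LL n))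
        = (4 * Cu + 1) * s / (n * LL n) * (4 * (m * n) / (((m : ℝ) + 1) * ((n : ℝ) + 1))) := by
      field_simp
      ring
    rw [h1]
    have h2 : 1 ≤ 4 * ((m : ℝ) * n) / (((m : ℝ) + 1) * ((n : ℝ) + 1)) := by
      rw [le_div_iff₀ (by positivity)]
      nlinarith [mul_nonneg (sub_nonneg.2 hm1') (sub_nonneg.2 hn3')]
    calc (4 * Cu + 1) * s / (n * LL n) = (4 * Cu + 1) * s / (n * LL n) * 1 := (mul_one _).symm
      _ ≤ _ := mul_le_mul_of_nonneg_left h2 (by positivity)
  have hEQ : 2 * lam * E * Q ≤ 4 * Cu * s / (n * LL n) := by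
    calc 2 * lam * E * Q = 2 * (lam * E) * Q := by ring
      _ ≤ 2 * (Cu / LL n) * (2 * s / n) := by gcongr
      _ = 4 * Cu * s / (n * LL n) := by
          field_simp
          ring
  have hdiff : 2 * lam * E * Q - lam * a ≤ -(s / (n * LL n)) := by
    have h1 : 4 * Cu * s / (n * LL n) - (4 * Cu + 1) * s / (n * LL n) = -(s / (n * LL n)) := by
      field_simp
      ring
    linarith
  refine hdiff.trans (neg_le_neg ?_)
  rw [le_div_iff₀ (by positivity)]
  have h1 : (n : ℝ) * (Nat.sqrt n : ℝ) ≤ s := by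
    have : n * Nat.sqrt n ≤ s := hs
    exact_mod_cast this
  calc (n : ℝ) ^ ((1 : ℝ) / 4) * (n * LL n) = n * ((n : ℝ) ^ ((1 : ℝ) / 4) * LL n) := by ring
    _ ≤ n * (Nat.sqrt n : ℝ) := mul_le_mul_of_nonneg_left hbig hn0.le
    _ ≤ s := h1

/-- Lemma UC for a piece of path starting at time `i` -/
private lemma lemUC_shift : ∃ C : ℝ, 0 < C ∧ ∃ n0 : ℕ, ∀ (n : ℕ) [NeZero n], n0 ≤ n →
    ∀ (m s i : ℕ) (x : V n), b1 n ≤ m → bb n ≤ s →
    pr {ω | C * m * s / (NN n * LL n) < pm n m (st (seg (act n) x ω i (i + s)))} ≤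
      Real.exp (-((n : ℝ) ^ ((1 : ℝ) / 4))) := by
  obtain ⟨C, hC, n0, h⟩ := lemUC
  refine ⟨C, hC, n0, fun n _ hn m s i x hm hs => ?_⟩
  have h1 := pr_shift_le n x i
    (fun y η => C * m * s / (NN n * LL n) < pm n m (st (seg (act n) y η 0 s)))
    (fun y => meas_set_dep s _ fun ω ω' h => by rw [seg_congr (act n) y ω ω' 0 s h])
    (Real.exp (-((n : ℝ) ^ ((1 : ℝ) / 4)))) (fun y => h n hn m s y hm hs)
  have h2 : ∀ ω : ℕ → DD, seg (act n) x ω i (i + s)
      = seg (act n) (pos (act n) x ω i) (sh i ω) 0 s := by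
    intro ω
    have := seg_shift (act n) x ω i 0 s
    rwa [add_zero] at this
  simp_rw [h2]
  exact h1

private lemma kk_le (n : ℕ) (hn : 1 ≤ n) (hL : 1 ≤ LL n) :
    (n : ℝ) ^ 2 * Real.sqrt (LL n) ≤ kk n ∧ (kk n : ℝ) ≤ 2 * ((n : ℝ) ^ 2 * Real.sqrt (LL n)) ∧
      (n : ℝ) ^ 2 ≤ kk n := by
  have hn' : (1 : ℝ) ≤ n := by exact_mod_cast hn
  have hs1 : 1 ≤ Real.sqrt (LL n) := by
    rw [Real.le_sqrt (by norm_num) (by linarith)]
    linarith
  have h1 : (1 : ℝ) ≤ (n : ℝ) ^ 2 * Real.sqrt (LL n) := by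
    have : (1 : ℝ) ≤ (n : ℝ) ^ 2 := by nlinarith
    nlinarith
  have h2 := Nat.le_ceil ((n : ℝ) ^ 2 * Real.sqrt (LL n))
  have h3 := Nat.ceil_lt_add_one (a := (n : ℝ) ^ 2 * Real.sqrt (LL n)) (by positivity)
  unfold kk
  refine ⟨h2, by linarith, ?_⟩
  refine le_trans ?_ h2
  nlinarith [sq_nonneg (n : ℝ)]

/-- on the macroscopic scale -/
theorem lemUC_k : ∃ C : ℝ, 0 < C ∧ ∀ B θ : ℝ, 0 < B → 0 < θ → ∃ n0 : ℕ, ∀ (n : ℕ) [NeZero n],
    n0 ≤ n → ∀ (m s i : ℕ) (x : V n), (m : ℝ) ≤ B * kk n + 1 → (s : ℝ) ≤ θ * kk n + 1 →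
    pr {ω | C * B * θ < pm n m (st (seg (act n) x ω i (i + s)))} ≤
      Real.exp (-((n : ℝ) ^ ((1 : ℝ) / 4))) := by
  obtain ⟨C, hC, nc, h⟩ := lemUC_shift
  obtain ⟨nb, hnb⟩ := big_n
  refine ⟨16 * C, by positivity, fun B θ hB hθ => ?_⟩
  -- `B n^2 ≥ n`, `θ n^2 ≥ 1`, `θ^2 n ≥ 1`
  obtain ⟨n1, hn1⟩ := exists_nat_ge (1 / B + 1 / θ + 1 / θ ^ 2 + 1)
  refine ⟨max (max nc nb) n1, fun n _ hn m s i x hm hs => ?_⟩
  have hnc : nc ≤ n := le_trans (le_trans (le_max_left _ _) (le_max_left _ _)) hn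
  obtain ⟨hn3, hL1, hbig⟩ := hnb n (le_trans (le_trans (le_max_right _ _) (le_max_left _ _)) hn)
  have hn1' : 1 / B + 1 / θ + 1 / θ ^ 2 + 1 ≤ (n : ℝ) :=
    hn1.trans (by exact_mod_cast le_trans (le_max_right _ _) hn)
  have hn3' : (3 : ℝ) ≤ n := by exact_mod_cast hn3
  obtain ⟨hk1, hk2, hk3⟩ := kk_le n (by omega) hL1
  have hBi : 0 < 1 / B := by positivity
  have hθi : 0 < 1 / θ := by positivity
  have hθi2 : 0 < 1 / θ ^ 2 := by positivity
  have hBn : 1 ≤ B * n := by
    have : 1 / B ≤ n := by linarith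
    rw [div_le_iff₀ hB] at this
    linarith
  have hθn : 1 ≤ θ * n := by
    have : 1 / θ ≤ n := by linarith
    rw [div_le_iff₀ hθ] at this
    linarith
  have hθn2 : 1 ≤ θ ^ 2 * n := by
    have : 1 / θ ^ 2 ≤ n := by linarith
    rw [div_le_iff₀ (by positivity)] at this
    linarith
  have hkn : (n : ℝ) ≤ kk n := by nlinarith
  have hBk : (n : ℝ) ≤ B * kk n := by nlinarith
  have hθk : (1 : ℝ) ≤ θ * kk n := by nlinarith
  set m' : ℕ := ⌊B * kk n + 1⌋₊ with hm'
  set s' : ℕ := ⌊θ * kk n + 1⌋₊ with hs'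
  have hmm' : m ≤ m' := Nat.le_floor hm
  have hss' : s ≤ s' := Nat.le_floor hs
  have hm'1 : (m' : ℝ) ≤ 2 * (B * kk n) := by
    have := Nat.floor_le (a := B * kk n + 1) (by positivity)
    linarith
  have hs'1 : (s' : ℝ) ≤ 2 * (θ * kk n) := by
    have := Nat.floor_le (a := θ * kk n + 1) (by positivity)
    linarith
  have hm'2 : B * kk n ≤ m' := by
    have := Nat.lt_floor_add_one (B * kk n + 1)
    linarith
  have hs'2 : θ * kk n ≤ s' := by
    have := Nat.lt_floor_add_one (θ * kk n + 1)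
    linarith
  have hb1m : b1 n ≤ m' := by
    have h1 : (n : ℝ) ≤ m' := hBk.trans hm'2
    have h2 : n ≤ m' := by exact_mod_cast h1
    exact le_trans (by unfold b1; exact Nat.sqrt_le_self n) h2
  have hbbs : bb n ≤ s' := by
    have h0 : (Nat.sqrt n : ℝ) ≤ Real.sqrt n := by
      rw [Real.le_sqrt (by positivity) (by positivity)]
      have := Nat.sqrt_le' n
      exact_mod_cast this
    have h1 : Real.sqrt n ≤ θ * n := by
      rw [Real.sqrt_le_left (by positivity)]
      nlinarith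
    have h2 : (n : ℝ) * (Nat.sqrt n : ℝ) ≤ θ * n ^ 2 := by nlinarith
    have h3 : ((bb n : ℕ) : ℝ) ≤ s' := by
      unfold bb
      push_cast
      calc (n : ℝ) * (Nat.sqrt n : ℝ) ≤ θ * n ^ 2 := h2
        _ ≤ θ * kk n := mul_le_mul_of_nonneg_left hk3 hθ.le
        _ ≤ s' := hs'2
    exact_mod_cast h3
  have h1 := h n hnc m' s' i x hb1m hbbs
  refine le_trans ?_ h1
  unfold pr
  refine measureReal_mono ?_ (measure_ne_top _ _)
  intro ω hω
  have hω' : 16 * C * B * θ < pm n m (st (seg (act n) x ω i (i + s))) := hω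
  show C * m' * s' / (NN n * LL n) < pm n m' (st (seg (act n) x ω i (i + s')))
  have hNN : 0 < NN n := by unfold NN; positivity
  have hLL : 0 < LL n := by linarith
  have h2 : C * m' * s' / (NN n * LL n) ≤ 16 * C * B * θ := by
    rw [div_le_iff₀ (by positivity)]
    have h3 : (kk n : ℝ) ^ 2 ≤ 4 * (NN n * LL n) := by
      have h4 : (kk n : ℝ) ^ 2 ≤ (2 * ((n : ℝ) ^ 2 * Real.sqrt (LL n))) ^ 2 :=
        pow_le_pow_left₀ (by positivity) hk2 2
      have h5 : (2 * ((n : ℝ) ^ 2 * Real.sqrt (LL n))) ^ 2 = 4 * (NN n * LL n) := by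
        unfold NN
        rw [mul_pow, mul_pow, Real.sq_sqrt hLL.le]
        ring
      rwa [h5] at h4
    calc C * m' * s' ≤ C * (2 * (B * kk n)) * (2 * (θ * kk n)) := by gcongr
      _ = 4 * C * B * θ * (kk n : ℝ) ^ 2 := by ring
      _ ≤ 4 * C * B * θ * (4 * (NN n * LL n)) := by gcongr
      _ = 16 * C * B * θ * (NN n * LL n) := by ring
  refine h2.trans_lt (hω'.trans_le (pm_mono n hmm' ?_))
  intro y hy
  obtain ⟨j, hj1, hj2, hj3⟩ := (mem_seg (act n) x ω i (i + s) y).1 hy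
  exact (mem_seg (act n) x ω i (i + s') y).2 ⟨j, hj1, by omega, hj3⟩

/-- pieces of length `t0` -/
theorem lemUC_t0 : ∃ C : ℝ, 0 < C ∧ ∃ n0 : ℕ, ∀ (n : ℕ) [NeZero n], n0 ≤ n → ∀ (i : ℕ) (x : V n),
    pr {ω | C / Real.sqrt (LL n) < qq n (st (seg (act n) x ω i (i + t0 n)))} ≤
      Real.exp (-((n : ℝ) ^ ((1 : ℝ) / 4))) := by
  obtain ⟨C, hC, nc, h⟩ := lemUC_shift
  obtain ⟨nb, hnb⟩ := big_n
  refine ⟨16 * C, by positivity, max nc nb, fun n _ hn i x => ?_⟩
  have hnc : nc ≤ n := le_trans (le_max_left _ _) hn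
  obtain ⟨hn3, hL1, hbig⟩ := hnb n (le_trans (le_max_right _ _) hn)
  have hn3' : (3 : ℝ) ≤ n := by exact_mod_cast hn3
  obtain ⟨hk1, hk2, hk3⟩ := kk_le n (by omega) hL1
  have hsqn : Nat.sqrt n ≤ n := Nat.sqrt_le_self n
  have hb1m : b1 n ≤ 2 * kk n := by
    have h1 : (n : ℝ) ≤ kk n := by nlinarith
    have h2 : n ≤ kk n := by exact_mod_cast h1
    unfold b1
    omega
  have hbbs : bb n ≤ t0 n := by
    unfold bb t0
    nlinarith
  have h1 := h n hnc (2 * kk n) (t0 n) i x hb1m hbbs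
  refine le_trans ?_ h1
  unfold pr
  refine measureReal_mono ?_ (measure_ne_top _ _)
  intro ω hω
  have hω' : 16 * C / Real.sqrt (LL n) < qq n (st (seg (act n) x ω i (i + t0 n))) := hω
  show C * ((2 * kk n : ℕ) : ℝ) * ((t0 n : ℕ) : ℝ) / (NN n * LL n)
    < pm n (2 * kk n) (st (seg (act n) x ω i (i + t0 n)))
  refine lt_of_le_of_lt ?_ hω'
  have hLL : 0 < LL n := by linarith
  have hsL : 0 < Real.sqrt (LL n) := Real.sqrt_pos.2 hLL
  have hNN : 0 < NN n := by unfold NN; positivity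
  rw [div_le_div_iff₀ (by positivity) hsL]
  unfold t0
  push_cast
  have h5 : Real.sqrt (LL n) * Real.sqrt (LL n) = LL n := Real.mul_self_sqrt hLL.le
  calc C * (2 * (kk n : ℝ)) * (4 * (n : ℝ) ^ 2) * Real.sqrt (LL n)
      ≤ C * (2 * (2 * ((n : ℝ) ^ 2 * Real.sqrt (LL n)))) * (4 * (n : ℝ) ^ 2) * Real.sqrt (LL n) := by
        gcongr
    _ = 16 * C * ((n : ℝ) ^ 4 * (Real.sqrt (LL n) * Real.sqrt (LL n))) := by ring
    _ = 16 * C * (NN n * LL n) := by rw [h5]; rfl

end Pool.Agent.UST
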