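import Pool.Agent.Helper54.UST.Kill2
import Pool.Agent.Helper54.UST.LemUC
import Pool.Agent.Helper54.UST.Av
import Pool.Agent.Helper54.UST.Asy

/-! Paper Lemma E. -/

namespace Pool.Agent.UST

open MeasureTheory

theorem i0_spec (n : ℕ) : (bb n ≤ 2 * i0 n ∧ i0 n ≤ 2 * bb n) ∧
    ∀ j, bb n ≤ 2 * j → j ≤ 2 * bb n → aloc n (i0 n) ≤ aloc n j := by
  have hex : ∃ i, (bb n ≤ 2 * i ∧ i ≤ 2 * bb n) ∧
      ∀ j, bb n ≤ 2 * j → j ≤ 2 * bb n → aloc n i ≤ aloc n j := by
    obtain ⟨i, hi, hmin⟩ := Finset.exists_min_image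
      ((Finset.range (2 * bb n + 1)).filter (fun i => bb n ≤ 2 * i)) (aloc n)
      ⟨bb n, by rw [Finset.mem_filter, Finset.mem_range]; omega⟩
    rw [Finset.mem_filter, Finset.mem_range] at hi
    refine ⟨i, ⟨hi.2, by omega⟩, fun j h1 h2 => hmin j ?_⟩
    rw [Finset.mem_filter, Finset.mem_range]
    exact ⟨by omega, h1⟩
  exact Classical.epsilon_spec hex

/-- the escape probability of the loop erasure of the first `g` steps -/
private noncomputable def XX (n g : ℕ) (ω : ℕ → DD) : ℝ :=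
  pr {η | ¬ hit (act n) 0 η 1 (bb n) (st (le (seg (act n) 0 ω 0 g)))}

private theorem XX_nonneg (n g : ℕ) (ω : ℕ → DD) : 0 ≤ XX n g ω := measureReal_nonneg

private theorem XX_le_one (n g : ℕ) (ω : ℕ → DD) : XX n g ω ≤ 1 := by
  unfold XX pr
  exact measureReal_le_one

private theorem XX_dep (n g : ℕ) (ω ω' : ℕ → DD) (h : ∀ i, i < g → ω i = ω' i) :
    XX n g ω = XX n g ω' := by
  unfold XX
  rw [seg_congr (act n) 0 ω ω' 0 g h]

/-- elementary: `(1 - δ)^m` from below -/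
private theorem ae_pow (δ T : ℝ) (m : ℕ) (h0 : 0 ≤ δ) (h1 : δ ≤ 1 / 2) (hm : (m : ℝ) ≤ T) :
    Real.exp (-(2 * δ * T)) ≤ (1 - δ) ^ m := by
  have h2 : Real.exp (-(2 * δ)) ≤ 1 - δ := by
    have h3 : 1 + 2 * δ ≤ Real.exp (2 * δ) := by
      have := Real.add_one_le_exp (2 * δ)
      linarith
    rw [Real.exp_neg, inv_le_comm₀ (Real.exp_pos _) (by linarith)]
    refine le_trans ?_ h3
    rw [inv_le_comm₀ (by linarith) (by linarith)]
    rw [inv_eq_one_div, div_le_iff₀ (by linarith)]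
    nlinarith
  have h4 : Real.exp (-(2 * δ)) ^ m ≤ (1 - δ) ^ m :=
    pow_le_pow_left₀ (Real.exp_pos _).le h2 m
  refine le_trans ?_ h4
  rw [← Real.exp_nat_mul, Real.exp_le_exp]
  nlinarith [mul_le_mul_of_nonneg_left hm h0]

/-- elementary: the killing factor from below -/
private theorem ae_kill (b g : ℕ) (hb : 1 ≤ b) (hg : g ≤ 2 * b) :
    Real.exp (-2) ≤ ((b : ℝ) / (b + 1)) ^ g := by
  have hb0 : (0 : ℝ) < b := by exact_mod_cast hb
  have h1 : Real.exp (-(1 / (b : ℝ))) ≤ (b : ℝ) / (b + 1) := by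
    have h2 := Real.add_one_le_exp (1 / (b : ℝ))
    rw [Real.exp_neg, inv_le_comm₀ (Real.exp_pos _) (by positivity)]
    rw [inv_div]
    refine le_trans (le_of_eq ?_) h2
    field_simp
    ring
  have h3 : Real.exp (-(1 / (b : ℝ))) ^ g ≤ ((b : ℝ) / (b + 1)) ^ g :=
    pow_le_pow_left₀ (Real.exp_pos _).le h1 g
  refine le_trans ?_ h3
  rw [← Real.exp_nat_mul, Real.exp_le_exp]
  have hg' : (g : ℝ) ≤ 2 * b := by exact_mod_cast hg
  have : (g : ℝ) * (1 / (b : ℝ)) ≤ 2 := by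
    rw [mul_one_div, div_le_iff₀ hb0]
    exact hg'
  linarith

/-- the first inequality, with the factor -/
private theorem ae_first (n : ℕ) [NeZero n] (J : ℕ) (hb : 1 ≤ bb n) (hJ : 1 ≤ J)
    (hL : 0 < LL n) (hJT : NN n * LL n / (bb n : ℝ) ^ 2 ≤ J) :
    ∑ g ∈ Finset.Icc (bb n) (2 * bb n), ∫ ω, (XX n g ω) ^ 3 *
      (1 - pm n (bb n) (st (le (seg (act n) 0 ω 0 g)))) ^ (J - 1) ∂(mu DD) ≤
      3 * Real.exp 2 * bb n / LL n := by
  set b := bb n with hbdef
  have hb0 : (0 : ℝ) < b := by exact_mod_cast hb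
  have hN : 0 < NN n := by
    unfold NN
    have : (0 : ℝ) < n := by exact_mod_cast Nat.pos_of_ne_zero (NeZero.ne n)
    positivity
  set Y : ℕ → ℝ := fun g => ∫ ω, (XX n g ω) ^ 3 *
      (1 - pm n b (st (le (seg (act n) 0 ω 0 g)))) ^ (J - 1) ∂(mu DD) with hY
  have hY0 : ∀ g, 0 ≤ Y g := by
    intro g
    refine integral_nonneg fun ω => mul_nonneg (pow_nonneg (XX_nonneg n g ω) 3) (pow_nonneg ?_ _)
    have := pm_le_one n b (st (le (seg (act n) 0 ω 0 g)))
    linarith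
  have hmain := kill_main n b J hb hJ
  have e1 : ∀ g : ℕ, ∫ ω,
        ((b : ℝ) / 3) * (pr {η | ¬ hit (act n) 0 η 1 b (st (le (seg (act n) 0 ω 0 g)))}) ^ 3 *
          (1 - pm n b (st (le (seg (act n) 0 ω 0 g)))) ^ (J - 1) ∂(mu DD) = ((b : ℝ) / 3) * Y g := by
    intro g
    rw [hY]
    simp only
    rw [← integral_const_mul]
    refine integral_congr_ae (ae_of_all _ fun ω => ?_)
    simp only [XX]
    rw [← hbdef]
    ring
  rw [Finset.sum_congr rfl fun g _ => by rw [e1 g]] at hmain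
  have h2 : ∑ g ∈ Finset.Icc b (2 * b), Real.exp (-2) * (1 / ((b : ℝ) + 1)) * ((b : ℝ) / 3 * Y g) ≤
      ∑ g ∈ Finset.range (2 * b + 1),
        ((b : ℝ) / (b + 1)) ^ g * (1 / (b + 1)) * ((b : ℝ) / 3 * Y g) := by
    have h3 : ∑ g ∈ Finset.Icc b (2 * b), Real.exp (-2) * (1 / ((b : ℝ) + 1)) *
        ((b : ℝ) / 3 * Y g) ≤ ∑ g ∈ Finset.Icc b (2 * b),
        ((b : ℝ) / (b + 1)) ^ g * (1 / (b + 1)) * ((b : ℝ) / 3 * Y g) := by
      refine Finset.sum_le_sum fun g hg => ?_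
      rw [Finset.mem_Icc] at hg
      have h4 := ae_kill b g hb hg.2
      have h5 : 0 ≤ (1 / ((b : ℝ) + 1)) * ((b : ℝ) / 3 * Y g) := by
        have := hY0 g
        positivity
      rw [mul_assoc, mul_assoc]
      exact mul_le_mul_of_nonneg_right h4 h5
    refine h3.trans (Finset.sum_le_sum_of_subset_of_nonneg ?_ fun g _ _ => ?_)
    · intro g hg
      rw [Finset.mem_Icc] at hg
      rw [Finset.mem_range]
      omega
    · have := hY0 g
      positivity
  rw [← Finset.mul_sum, ← Finset.mul_sum] at h2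
  have hJ0 : (0 : ℝ) < J := by exact_mod_cast hJ
  have h6 : (J : ℝ) * ((b : ℝ) + 1) / NN n *
      (Real.exp (-2) * (1 / ((b : ℝ) + 1)) * ((b : ℝ) / 3 * ∑ g ∈ Finset.Icc b (2 * b), Y g)) ≤
      1 := le_trans (mul_le_mul_of_nonneg_left h2 (by positivity)) hmain
  have h7 : (J : ℝ) * ((b : ℝ) + 1) / NN n *
      (Real.exp (-2) * (1 / ((b : ℝ) + 1)) * ((b : ℝ) / 3 * ∑ g ∈ Finset.Icc b (2 * b), Y g)) =
      ((J : ℝ) * b / (3 * NN n * Real.exp 2)) * ∑ g ∈ Finset.Icc b (2 * b), Y g := by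
    rw [Real.exp_neg]
    field_simp
  rw [h7] at h6
  set Z := ∑ g ∈ Finset.Icc b (2 * b), Y g with hZ
  have hZ0 : 0 ≤ Z := Finset.sum_nonneg fun g _ => hY0 g
  have h8 : (NN n * LL n / (b : ℝ) ^ 2 * b / (3 * NN n * Real.exp 2)) * Z ≤ 1 := by
    refine le_trans (mul_le_mul_of_nonneg_right ?_ hZ0) h6
    have : NN n * LL n / (b : ℝ) ^ 2 * b ≤ (J : ℝ) * b :=
      mul_le_mul_of_nonneg_right hJT hb0.le
    exact div_le_div_of_nonneg_right this (by positivity)
  have h9 : (NN n * LL n / (b : ℝ) ^ 2 * b / (3 * NN n * Real.exp 2)) * Z =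
      Z / (3 * Real.exp 2 * b / LL n) := by
    field_simp
  rw [h9, div_le_one (by positivity)] at h8
  exact h8

theorem kill_sum : ∃ C : ℝ, 0 < C ∧ ∃ n0 : ℕ, ∀ (n : ℕ) [NeZero n], n0 ≤ n →
    ∑ g ∈ Finset.Icc (bb n) (2 * bb n), ∫ ω,
      (pr {η | ¬ hit (act n) 0 η 1 (bb n) (st (le (seg (act n) 0 ω 0 g)))}) ^ 3 ∂(mu DD) ≤
      C * bb n / LL n := by
  classical
  obtain ⟨C, hC, n1, hUC⟩ := lemUC
  obtain ⟨n2, hn2⟩ := bb_bounds
  obtain ⟨n3, hn3⟩ := exp_small 1 1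
  obtain ⟨n4, hn4⟩ := LL_large (max 1 (4 * C))
  refine ⟨3 * Real.exp 2 * Real.exp (4 * C) + 2, by positivity, max (max n1 n2) (max n3 (max n4 1)),
    fun n hnz hn => ?_⟩
  have hn1 : n1 ≤ n := by omega
  have hn2' : n2 ≤ n := by omega
  have hn3' : n3 ≤ n := by omega
  have hn4' : n4 ≤ n := by omega
  have hn5 : 1 ≤ n := by omega
  obtain ⟨hbl, hbu, _, _, hb1, hb2⟩ := hn2 n hn2'
  have hLL := hn4 n hn4'
  have hL1 : 1 ≤ LL n := (le_max_left _ _).trans hLL
  have hL4 : 4 * C ≤ LL n := (le_max_right _ _).trans hLL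
  have hL : 0 < LL n := by linarith
  have hn0 : (0 : ℝ) < n := by exact_mod_cast hn5
  have hn1r : (1 : ℝ) ≤ n := by exact_mod_cast hn5
  have hbpos : (0 : ℝ) < bb n := lt_of_lt_of_le (by positivity) hbl
  have hb : 1 ≤ bb n := by
    have : 0 < bb n := by exact_mod_cast hbpos
    omega
  have hb3 : (bb n : ℝ) ^ 2 ≤ (n : ℝ) ^ 3 := by
    have h1 : (bb n : ℝ) ^ 2 ≤ ((n : ℝ) ^ ((3 : ℝ) / 2)) ^ 2 :=
      pow_le_pow_left₀ hbpos.le hbu 2
    refine h1.trans (le_of_eq ?_)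
    rw [← Real.rpow_natCast, ← Real.rpow_mul hn0.le, ← Real.rpow_natCast]
    norm_num
  have hN : NN n = (n : ℝ) ^ 4 := rfl
  have hN0 : 0 < NN n := by rw [hN]; positivity
  set T : ℝ := NN n * LL n / (bb n : ℝ) ^ 2 with hT
  have hT0 : 0 < T := by positivity
  set J : ℕ := ⌈T⌉₊ with hJ
  have hJT : T ≤ J := Nat.le_ceil T
  have hJ1 : 1 ≤ J := Nat.one_le_iff_ne_zero.mpr (by
    intro h
    rw [h] at hJT
    simp at hJT
    linarith)
  have hJm : ((J - 1 : ℕ) : ℝ) ≤ T := by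
    have h1 : (J : ℝ) < T + 1 := Nat.ceil_lt_add_one hT0.le
    rw [Nat.cast_sub hJ1]
    push_cast
    linarith
  set δ : ℝ := C * (bb n : ℝ) * ((2 * bb n : ℕ) : ℝ) / (NN n * LL n) with hδ
  have hδ0 : 0 ≤ δ := by positivity
  have hδT : δ * T = 2 * C := by
    rw [hδ, hT]
    push_cast
    field_simp
  have hδ2 : δ ≤ 1 / 2 := by
    rw [hδ, div_le_iff₀ (by positivity)]
    push_cast
    have h1 : C * (bb n : ℝ) * (2 * (bb n : ℝ)) ≤ 2 * C * (n : ℝ) ^ 3 := by
      nlinarith [mul_le_mul_of_nonneg_left hb3 hC.le]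
    have h2 : 2 * C * (n : ℝ) ^ 3 ≤ 1 / 2 * (NN n * LL n) := by
      rw [hN]
      have h3 : 4 * C * (n : ℝ) ^ 3 ≤ LL n * (n : ℝ) ^ 3 :=
        mul_le_mul_of_nonneg_right hL4 (by positivity)
      have h4 : LL n * (n : ℝ) ^ 3 ≤ LL n * (n : ℝ) ^ 4 :=
        mul_le_mul_of_nonneg_left (pow_le_pow_right₀ hn1r (by norm_num)) hL.le
      nlinarith
    linarith
  have hfac : Real.exp (-(4 * C)) ≤ (1 - δ) ^ (J - 1) := by
    have := ae_pow δ T (J - 1) hδ0 hδ2 hJm
    have h2 : 2 * δ * T = 4 * C := by rw [mul_assoc, hδT]; ring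
    rwa [h2] at this
  -- the bad event
  set bad : Set (ℕ → DD) := {ω | δ < pm n (bb n) (st (seg (act n) 0 ω 0 (2 * bb n)))} with hbad
  have hbadm : MeasurableSet bad := by
    have : Measurable (fun ω : ℕ → DD => δ < pm n (bb n) (st (seg (act n) 0 ω 0 (2 * bb n)))) := by
      refine measurable_dep (2 * bb n) _ fun ω ω' h => ?_
      rw [seg_congr (act n) 0 ω ω' 0 (2 * bb n) h]
    exact measurableSet_setOfPred.mpr this
  have hbadP : (mu DD).real bad ≤ Real.exp (-((n : ℝ) ^ ((1 : ℝ) / 4))) := by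
    have := hUC n hn1 (bb n) (2 * bb n) 0 hb1 (by omega)
    exact this
  have hexp : Real.exp (-((n : ℝ) ^ ((1 : ℝ) / 4))) ≤ 1 / LL n := by
    have h1 := hn3 n hn3'
    rw [one_mul, pow_one] at h1
    refine h1.trans (one_div_le_one_div_of_le hL ?_)
    unfold LL
    exact Real.log_le_self hn0.le
  -- pointwise bound
  have hpt : ∀ g, g ≤ 2 * bb n → ∀ ω, (XX n g ω) ^ 3 ≤ Real.exp (4 * C) * ((XX n g ω) ^ 3 *
      (1 - pm n (bb n) (st (le (seg (act n) 0 ω 0 g)))) ^ (J - 1)) +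
      bad.indicator (fun _ => (1 : ℝ)) ω := by
    intro g hg ω
    have hp1 := pm_le_one n (bb n) (st (le (seg (act n) 0 ω 0 g)))
    have hX0 := pow_nonneg (XX_nonneg n g ω) 3
    by_cases hω : ω ∈ bad
    · rw [Set.indicator_of_mem hω]
      have h1 : (XX n g ω) ^ 3 ≤ 1 := pow_le_one₀ (XX_nonneg n g ω) (XX_le_one n g ω)
      have h2 : 0 ≤ Real.exp (4 * C) * ((XX n g ω) ^ 3 *
          (1 - pm n (bb n) (st (le (seg (act n) 0 ω 0 g)))) ^ (J - 1)) :=
        mul_nonneg (Real.exp_pos _).le (mul_nonneg hX0 (pow_nonneg (by linarith) _))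
      linarith
    · rw [Set.indicator_of_notMem hω, add_zero]
      have h1 : pm n (bb n) (st (le (seg (act n) 0 ω 0 g))) ≤ δ := by
        have h2 : pm n (bb n) (st (seg (act n) 0 ω 0 (2 * bb n))) ≤ δ := not_lt.mp hω
        refine le_trans (pm_mono n le_rfl ?_) h2
        intro z hz
        have hz1 : z ∈ le (seg (act n) 0 ω 0 g) := hz
        have hz2 : z ∈ seg (act n) 0 ω 0 g := by
          unfold le at hz1
          rcases mem_leF hz1 with h | h
          · exact absurd h List.not_mem_nil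
          · exact h
        rw [mem_seg] at hz2
        obtain ⟨i, h3, h4, h5⟩ := hz2
        show z ∈ seg (act n) 0 ω 0 (2 * bb n)
        rw [mem_seg]
        exact ⟨i, h3, by omega, h5⟩
      have h3 : Real.exp (-(4 * C)) ≤
          (1 - pm n (bb n) (st (le (seg (act n) 0 ω 0 g)))) ^ (J - 1) :=
        hfac.trans (pow_le_pow_left₀ (by linarith) (by linarith) _)
      have h4 : 1 ≤ Real.exp (4 * C) *
          (1 - pm n (bb n) (st (le (seg (act n) 0 ω 0 g)))) ^ (J - 1) := by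
        have h5 : Real.exp (4 * C) * Real.exp (-(4 * C)) = 1 := by
          rw [← Real.exp_add]
          simp
        calc (1 : ℝ) = Real.exp (4 * C) * Real.exp (-(4 * C)) := h5.symm
          _ ≤ _ := mul_le_mul_of_nonneg_left h3 (Real.exp_pos _).le
      nlinarith
  have hXi : ∀ g, Integrable (fun ω => (XX n g ω) ^ 3) (mu DD) := by
    intro g
    refine integrable_dep g _ fun ω ω' h => ?_
    rw [XX_dep n g ω ω' h]
  have hYi : ∀ g, Integrable (fun ω => (XX n g ω) ^ 3 *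
      (1 - pm n (bb n) (st (le (seg (act n) 0 ω 0 g)))) ^ (J - 1)) (mu DD) := by
    intro g
    refine integrable_dep g _ fun ω ω' h => ?_
    rw [XX_dep n g ω ω' h, seg_congr (act n) 0 ω ω' 0 g h]
  have hBi : Integrable (bad.indicator (fun _ => (1 : ℝ))) (mu DD) :=
    (integrable_const (1 : ℝ)).indicator hbadm
  have hint : ∀ g ∈ Finset.Icc (bb n) (2 * bb n), ∫ ω, (XX n g ω) ^ 3 ∂(mu DD) ≤
      Real.exp (4 * C) * (∫ ω, (XX n g ω) ^ 3 *
      (1 - pm n (bb n) (st (le (seg (act n) 0 ω 0 g)))) ^ (J - 1) ∂(mu DD)) + 1 / LL n := by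
    intro g hg
    rw [Finset.mem_Icc] at hg
    have h1 := integral_mono (hXi g) (((hYi g).const_mul (Real.exp (4 * C))).add hBi)
      (fun ω => hpt g hg.2 ω)
    refine h1.trans ?_
    simp only [Pi.add_apply]
    rw [integral_add ((hYi g).const_mul _) hBi, integral_const_mul,
      integral_indicator_const _ hbadm]
    simp only [smul_eq_mul, mul_one]
    linarith
  have hsum := Finset.sum_le_sum hint
  rw [Finset.sum_add_distrib, ← Finset.mul_sum, Finset.sum_const, Nat.card_Icc] at hsum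
  have hfirst := ae_first n J hb hJ1 hL hJT
  have hcard : 2 * bb n + 1 - bb n = bb n + 1 := by omega
  rw [hcard] at hsum
  have hgoal : ∑ g ∈ Finset.Icc (bb n) (2 * bb n), ∫ ω, (XX n g ω) ^ 3 ∂(mu DD) ≤
      (3 * Real.exp 2 * Real.exp (4 * C) + 2) * bb n / LL n := by
    refine hsum.trans ?_
    have h1 : Real.exp (4 * C) * ∑ g ∈ Finset.Icc (bb n) (2 * bb n), ∫ ω, (XX n g ω) ^ 3 *
        (1 - pm n (bb n) (st (le (seg (act n) 0 ω 0 g)))) ^ (J - 1) ∂(mu DD) ≤
        Real.exp (4 * C) * (3 * Real.exp 2 * bb n / LL n) :=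
      mul_le_mul_of_nonneg_left hfirst (Real.exp_pos _).le
    have h2 : (bb n + 1) • (1 / LL n) ≤ 2 * (bb n : ℝ) / LL n := by
      rw [nsmul_eq_mul]
      push_cast
      rw [mul_one_div]
      refine div_le_div_of_nonneg_right ?_ hL.le
      have : (1 : ℝ) ≤ bb n := by exact_mod_cast hb
      linarith
    calc _ ≤ Real.exp (4 * C) * (3 * Real.exp 2 * bb n / LL n) + 2 * (bb n : ℝ) / LL n :=
          add_le_add h1 h2
      _ = _ := by ring
  exact hgoal

/-- `aloc` as an iterated integral -/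
private theorem aloc_eq (n i : ℕ) : aloc n i = ∫ ω, XX n i ω ∂(mu DD) := by
  classical
  unfold aloc pr2
  set S : Set ((ℕ → DD) × (ℕ → DD)) :=
    {ω | ¬ hit (act n) 0 ω.1 1 (bb n) (st (le (seg (act n) 0 ω.2 0 i)))} with hS
  have hSm : MeasurableSet S := by
    have h1 : S = ⋃ l ∈ (Set.univ : Set (Fin i → DD)),
        {ω : ℕ → DD | ¬ hit (act n) 0 ω 1 (bb n) (st (le (seg (act n) 0
          (fun k => if h : k < i then l ⟨k, h⟩ else (false, 0, false)) 0 i)))} ×ˢ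
        {ω : ℕ → DD | ∀ k : Fin i, ω k = l k} := by
      ext p
      simp only [Set.mem_iUnion, Set.mem_univ, exists_prop, true_and, Set.mem_prod,
        Set.mem_ofPred_eq, hS]
      constructor
      · intro h
        refine ⟨fun k => p.2 k, ?_, fun k => rfl⟩
        rw [seg_congr (act n) 0 (fun k => if h : k < i then p.2 k else (false, 0, false)) p.2 0 i
          (fun k hk => by simp [hk])]
        exact h
      · rintro ⟨l, h, hl⟩
        rw [seg_congr (act n) 0 (fun k => if h : k < i then l ⟨k, h⟩ else (false, 0, false)) p.2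
          0 i (fun k hk => by simp only [hk, dif_pos]; exact (hl ⟨k, hk⟩).symm)] at h
        exact h
    rw [h1]
    refine Set.Finite.measurableSet_biUnion Set.finite_univ fun l _ => MeasurableSet.prod ?_ ?_
    · have : Measurable (fun ω : ℕ → DD => ¬ hit (act n) 0 ω 1 (bb n) (st (le (seg (act n) 0
          (fun k => if h : k < i then l ⟨k, h⟩ else (false, 0, false)) 0 i)))) := by
        refine measurable_dep (bb n) _ fun ω ω' h => ?_
        rw [hit_iff, hit_iff, seg_congr (act n) 0 ω ω' 1 (bb n) h]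
      exact measurableSet_setOfPred.mpr this
    · have : Measurable (fun ω : ℕ → DD => ∀ k : Fin i, ω k = l k) := by
        refine measurable_dep i _ fun ω ω' h => ?_
        refine propext ⟨fun h' k => ?_, fun h' k => ?_⟩
        · rw [← h k k.2]; exact h' k
        · rw [h k k.2]; exact h' k
      exact measurableSet_setOfPred.mpr this
  rw [Measure.real, Measure.prod_apply_symm hSm]
  have h2 : ∫ ω, XX n i ω ∂(mu DD) =
      (∫⁻ ω, (mu DD) ((fun x => (x, ω)) ⁻¹' S) ∂(mu DD)).toReal := by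
    rw [← integral_toReal]
    · rfl
    · exact (measurable_measure_prodMk_right hSm).aemeasurable
    · exact ae_of_all _ fun ω => measure_lt_top _ _
  rw [h2]

theorem aloc_le : ∃ C : ℝ, 0 < C ∧ ∃ n0 : ℕ, ∀ (n : ℕ) [NeZero n], n0 ≤ n →
    aloc n (i0 n) ≤ C * LL n ^ (-(1 / 3 : ℝ)) := by
  obtain ⟨C, hC, n1, hK⟩ := kill_sum
  obtain ⟨n4, hn4⟩ := LL_large 1
  obtain ⟨n2, hn2⟩ := bb_bounds
  refine ⟨C ^ ((1 : ℝ) / 3), by positivity, max n1 (max n4 (max n2 1)), fun n hnz hn => ?_⟩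
  have hL : 0 < LL n := lt_of_lt_of_le one_pos (hn4 n (by omega))
  have hn0 : (0 : ℝ) < n := by
    have : 1 ≤ n := by omega
    exact_mod_cast this
  obtain ⟨hbl, _, _, _, _, _⟩ := hn2 n (by omega)
  have hbpos : (0 : ℝ) < bb n := lt_of_lt_of_le (by positivity) hbl
  have hsum := hK n (by omega)
  set a := aloc n (i0 n) with ha
  have ha0 : 0 ≤ a := measureReal_nonneg
  have hXi : ∀ g, Integrable (fun ω => XX n g ω) (mu DD) := fun g =>
    integrable_dep g _ fun ω ω' h => XX_dep n g ω ω' h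
  have hXi3 : ∀ g, Integrable (fun ω => (XX n g ω) ^ 3) (mu DD) := by
    intro g
    refine integrable_dep g _ fun ω ω' h => ?_
    rw [XX_dep n g ω ω' h]
  have hg : ∀ g ∈ Finset.Icc (bb n) (2 * bb n), a ^ 3 ≤ ∫ ω, (XX n g ω) ^ 3 ∂(mu DD) := by
    intro g hg
    rw [Finset.mem_Icc] at hg
    have h1 : a ≤ ∫ ω, XX n g ω ∂(mu DD) := by
      rw [← aloc_eq]
      exact (i0_spec n).2 g (by omega) hg.2
    set x := ∫ ω, XX n g ω ∂(mu DD) with hx
    have hx0 : 0 ≤ x := ha0.trans h1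
    refine (pow_le_pow_left₀ ha0 h1 3).trans ?_
    have h2 : ∫ ω, (x ^ 3 + 3 * x ^ 2 * (XX n g ω - x)) ∂(mu DD) ≤
        ∫ ω, (XX n g ω) ^ 3 ∂(mu DD) := by
      refine integral_mono ?_ (hXi3 g) fun ω => ?_
      · exact (integrable_const _).add (((hXi g).sub (integrable_const _)).const_mul _)
      · have h3 := XX_nonneg n g ω
        simp only
        nlinarith [mul_nonneg (add_nonneg h3 (mul_nonneg (by norm_num : (0 : ℝ) ≤ 2) hx0))
          (sq_nonneg (XX n g ω - x))]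
    refine le_trans (le_of_eq ?_) h2
    have hI : Integrable (fun ω => 3 * x ^ 2 * (XX n g ω - x)) (mu DD) :=
      ((hXi g).sub (integrable_const _)).const_mul _
    rw [integral_add (integrable_const _) hI, integral_const_mul,
      integral_sub (hXi g) (integrable_const _), ← hx]
    simp
  have h4 : ∑ g ∈ Finset.Icc (bb n) (2 * bb n), a ^ 3 ≤ C * bb n / LL n :=
    (Finset.sum_le_sum hg).trans hsum
  rw [Finset.sum_const, Nat.card_Icc, nsmul_eq_mul] at h4
  have h5 : (bb n : ℝ) * a ^ 3 ≤ ((2 * bb n + 1 - bb n : ℕ) : ℝ) * a ^ 3 := by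
    refine mul_le_mul_of_nonneg_right ?_ (by positivity)
    exact_mod_cast (by omega : bb n ≤ 2 * bb n + 1 - bb n)
  have h6 : a ^ 3 ≤ C / LL n := by
    have h7 : (bb n : ℝ) * a ^ 3 ≤ (bb n : ℝ) * (C / LL n) := by
      refine (h5.trans h4).trans (le_of_eq ?_)
      ring
    exact le_of_mul_le_mul_left h7 hbpos
  have h8 : a = (a ^ 3) ^ ((1 : ℝ) / 3) := by
    rw [← Real.rpow_natCast, ← Real.rpow_mul ha0]
    norm_num
  rw [h8]
  refine (Real.rpow_le_rpow (by positivity) h6 (by norm_num)).trans (le_of_eq ?_)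
  rw [Real.div_rpow hC.le hL.le, Real.rpow_neg hL.le, div_eq_mul_inv]

end Pool.Agent.UST
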