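import Pool.Agent.Helper54.UST.Defs

namespace Pool.Agent.UST

open MeasureTheory

section basepos
variable {W D : Type} (act : D → W → W)

theorem pos_add (x : W) (ω : ℕ → D) (s t : ℕ) :
    pos act x ω (s + t) = pos act (pos act x ω s) (sh s ω) t := by
  induction t with
  | zero => rfl
  | succ t ih =>
    rw [← Nat.add_assoc]
    change act (ω (s + t)) (pos act x ω (s + t)) = _
    rw [ih]
    rfl

theorem pos_congr (x : W) (ω ω' : ℕ → D) (t : ℕ) (h : ∀ i, i < t → ω i = ω' i) :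
    pos act x ω t = pos act x ω' t := by
  induction t with
  | zero => rfl
  | succ t ih =>
    change act (ω t) (pos act x ω t) = act (ω' t) (pos act x ω' t)
    rw [ih fun i hi => h i (Nat.lt_succ_of_lt hi), h t (Nat.lt_succ_self t)]

theorem seg_congr (x : W) (ω ω' : ℕ → D) (s t : ℕ) (h : ∀ i, i < t → ω i = ω' i) :
    seg act x ω s t = seg act x ω' s t := by
  unfold seg
  refine List.map_congr_left fun i hi => ?_
  rw [List.mem_range'_1] at hi
  exact pos_congr act x ω ω' i fun j hj => h j (by omega)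

theorem seg_shift (x : W) (ω : ℕ → D) (r s t : ℕ) :
    seg act x ω (r + s) (r + t) = seg act (pos act x ω r) (sh r ω) s t := by
  unfold seg
  have h1 : r + t + 1 - (r + s) = t + 1 - s := by omega
  rw [h1, ← List.map_add_range' (a := r), List.map_map]
  refine List.map_congr_left fun i _ => ?_
  exact pos_add act x ω r i

theorem seg_append (x : W) (ω : ℕ → D) (s t r : ℕ) (h : s ≤ t + 1) (h' : t ≤ r) :
    seg act x ω s r = seg act x ω s t ++ seg act x ω (t + 1) r := by
  unfold seg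
  rw [← List.map_append]
  congr 1
  have h1 : t + 1 = s + 1 * (t + 1 - s) := by omega
  have h2 : r + 1 - s = (t + 1 - s) + (r + 1 - (t + 1)) := by omega
  conv_rhs =>
    arg 2
    rw [h1]
  rw [h2, ← List.range'_append]
  congr 2
  omega

theorem mem_seg (x : W) (ω : ℕ → D) (s t : ℕ) (y : W) :
    y ∈ seg act x ω s t ↔ ∃ i, s ≤ i ∧ i ≤ t ∧ pos act x ω i = y := by
  unfold seg
  rw [List.mem_map]
  constructor
  · rintro ⟨i, hi, rfl⟩
    rw [List.mem_range'_1] at hi
    exact ⟨i, hi.1, by omega, rfl⟩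
  · rintro ⟨i, h1, h2, rfl⟩
    refine ⟨i, ?_, rfl⟩
    rw [List.mem_range'_1]
    omega

theorem hit_iff (x : W) (ω : ℕ → D) (s t : ℕ) (B : Set W) :
    hit act x ω s t B ↔ ∃ y ∈ seg act x ω s t, y ∈ B := by
  constructor
  · rintro ⟨i, h1, h2, h3⟩
    exact ⟨_, (mem_seg act x ω s t _).2 ⟨i, h1, h2, rfl⟩, h3⟩
  · rintro ⟨y, hy, hB⟩
    obtain ⟨i, h1, h2, rfl⟩ := (mem_seg act x ω s t _).1 hy
    exact ⟨i, h1, h2, hB⟩

theorem seg_length (x : W) (ω : ℕ → D) (s t : ℕ) : (seg act x ω s t).length = t + 1 - s := by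
  simp [seg]

/-- if `A` is hit: the hitting time is the first time in `A` -/
theorem tau_spec (x : W) (ω : ℕ → D) (A : Set W) (h : ∃ t, pos act x ω t ∈ A) :
    pos act x ω (tau act x ω A) ∈ A ∧ ∀ i, i < tau act x ω A → pos act x ω i ∉ A :=
  ⟨Nat.sInf_mem (s := {t | pos act x ω t ∈ A}) h,
    fun _ hi hA => Nat.notMem_of_lt_sInf (s := {t | pos act x ω t ∈ A}) hi hA⟩

theorem lt_tau_iff (x : W) (ω : ℕ → D) (A : Set W) (h : ∃ t, pos act x ω t ∈ A) (s : ℕ) :
    s < tau act x ω A ↔ ¬ hit act x ω 0 s A := by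
  obtain ⟨h1, h2⟩ := tau_spec act x ω A h
  constructor
  · rintro hs ⟨i, _, hi, hA⟩
    exact h2 i (lt_of_le_of_lt hi hs) hA
  · intro hn
    by_contra hcon
    exact hn ⟨tau act x ω A, Nat.zero_le _, not_lt.1 hcon, h1⟩

theorem tau_shift (x : W) (ω : ℕ → D) (A : Set W) (h : ∃ t, pos act x ω t ∈ A) (s : ℕ)
    (hs : s ≤ tau act x ω A) :
    tau act x ω A = s + tau act (pos act x ω s) (sh s ω) A := by
  obtain ⟨h1, h2⟩ := tau_spec act x ω A h
  have h3 : pos act (pos act x ω s) (sh s ω) (tau act x ω A - s) ∈ A := by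
    rw [← pos_add, Nat.add_sub_cancel' hs]
    exact h1
  obtain ⟨h4, h5⟩ := tau_spec act (pos act x ω s) (sh s ω) A ⟨_, h3⟩
  rw [← pos_add] at h4
  have h6 : ¬ s + tau act (pos act x ω s) (sh s ω) A < tau act x ω A := fun hlt => h2 _ hlt h4
  have h7 : ¬ tau act x ω A - s < tau act (pos act x ω s) (sh s ω) A := fun hlt => h5 _ hlt h3
  omega

end basepos

end Pool.Agent.UST
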