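import Pool.Agent.Helper54.UST.BaseMu
import Pool.Agent.Helper54.UST.BasePos

namespace Pool.Agent.UST

open MeasureTheory

section basehit
variable {W D : Type} [Finite W] [Fintype D] [Nonempty D] [MeasurableSpace D]
  [MeasurableSingletonClass D] (act : D → W → W)

private theorem bh_set_dep (t : ℕ) (S : Set (ℕ → D))
    (h : ∀ ω ω' : ℕ → D, (∀ i, i < t → ω i = ω' i) → (ω ∈ S ↔ ω' ∈ S)) : MeasurableSet S := by
  have : Measurable (fun ω : ℕ → D => ω ∈ S) :=
    measurable_dep t (fun ω : ℕ → D => ω ∈ S) fun ω ω' hω => propext (h ω ω' hω)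
  exact measurableSet_setOfPred.mpr this

private theorem bh_dep2 {α : Type} [MeasurableSpace α] (s t : ℕ) (f : (ℕ → D) × (ℕ → D) → α)
    (hf : ∀ p p' : (ℕ → D) × (ℕ → D), (∀ i, i < s → p.1 i = p'.1 i) →
      (∀ i, i < t → p.2 i = p'.2 i) → f p = f p') : Measurable f := by
  let r : (ℕ → D) × (ℕ → D) → (Fin s → D) × (Fin t → D) := fun p => (fun i => p.1 i, fun i => p.2 i)
  let e : (Fin s → D) × (Fin t → D) → (ℕ → D) × (ℕ → D) := fun q =>
    (fun i => if h : i < s then q.1 ⟨i, h⟩ else Classical.arbitrary D,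
      fun i => if h : i < t then q.2 ⟨i, h⟩ else Classical.arbitrary D)
  have hr : Measurable r := by
    refine Measurable.prodMk ?_ ?_
    · exact measurable_pi_lambda _ fun i => (measurable_pi_apply _).comp measurable_fst
    · exact measurable_pi_lambda _ fun i => (measurable_pi_apply _).comp measurable_snd
  have h : f = (fun q => f (e q)) ∘ r := by
    funext p
    refine hf _ _ (fun i hi => ?_) (fun i hi => ?_)
    · simp [e, r, hi]
    · simp [e, r, hi]
  rw [h]
  exact (measurable_of_finite _).comp hr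

/-- `A` is not hit up to time `t` -/
private def nh (A : Set W) (x : W) (t : ℕ) : Set (ℕ → D) := {ω | ∀ i, i ≤ t → pos act x ω i ∉ A}

omit [Finite W] [Fintype D] [Nonempty D] [MeasurableSpace D] [MeasurableSingletonClass D] in
private theorem nh_dep (A : Set W) (x : W) (t : ℕ) (ω ω' : ℕ → D)
    (h : ∀ i, i < t → ω i = ω' i) : ω ∈ nh act A x t ↔ ω' ∈ nh act A x t := by
  have : ∀ i, i ≤ t → pos act x ω i = pos act x ω' i := fun i hi =>
    pos_congr act x ω ω' i fun j hj => h j (lt_of_lt_of_le hj hi)
  constructor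
  · intro H i hi
    rw [← this i hi]
    exact H i hi
  · intro H i hi
    rw [this i hi]
    exact H i hi

omit [Finite W] in
private theorem nh_meas (A : Set W) (x : W) (t : ℕ) : MeasurableSet (nh act A x t) :=
  bh_set_dep t _ (nh_dep act A x t)

omit [Finite W] in
private theorem cyl_pos (t : ℕ) (a : ℕ → D) : 0 < (mu D).real {ω | ∀ i, i < t → ω i = a i} := by
  classical
  have hm : MeasurableSet {ω : ℕ → D | ∀ i, i < t → ω i = a i} := by
    refine bh_set_dep t _ fun ω ω' h => ?_
    constructor
    · intro H i hi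
      rw [← h i hi]
      exact H i hi
    · intro H i hi
      rw [h i hi]
      exact H i hi
  have h := mu_fin (D := D) t
    (fun b : Fin t → D => if b = (fun i : Fin t => a i) then (1 : ℝ) else 0)
  have h1 : ∫ ω : ℕ → D, (if (fun i : Fin t => ω i) = (fun i : Fin t => a i) then (1 : ℝ) else 0)
      ∂(mu D) = (mu D).real {ω | ∀ i, i < t → ω i = a i} := by
    rw [← integral_indicator_one hm]
    refine integral_congr_ae (ae_of_all _ fun ω => ?_)
    simp only [Set.indicator_apply, Set.mem_ofPred_eq, Pi.one_apply]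
    refine if_congr ?_ rfl rfl
    constructor
    · intro H i hi
      exact congrFun H ⟨i, hi⟩
    · intro H
      funext i
      exact H i i.2
  rw [h1] at h
  rw [h]
  have h2 : (∑ b : Fin t → D, if b = (fun i : Fin t => a i) then (1 : ℝ) else 0) = 1 := by
    rw [Finset.sum_ite_eq']
    simp
  rw [h2]
  have : (0 : ℝ) < Fintype.card D := by exact_mod_cast Fintype.card_pos
  positivity

private theorem nh_decay [Nonempty W] (A : Set W) (hA : Reach act A) :
    ∃ T : ℕ, 0 < T ∧ ∃ ρ : ℝ, 0 < ρ ∧ ρ < 1 ∧ ∀ j : ℕ, ∀ x : W,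
      (mu D) (nh act A x (j * T)) ≤ ENNReal.ofReal (ρ ^ j) := by
  classical
  choose wd tt hw using hA
  obtain ⟨xm, hxm⟩ := Finite.exists_max tt
  set T : ℕ := tt xm + 1 with hT
  obtain ⟨x0, hx0⟩ := Finite.exists_max (fun x : W => (mu D).real (nh act A x T))
  have hlt : ∀ x : W, (mu D).real (nh act A x T) < 1 := by
    intro x
    have h1 : nh act A x T ⊆ {ω | ∀ i, i < tt x → ω i = wd x i}ᶜ := by
      intro ω hω h2
      have h3 : pos act x ω (tt x) = pos act x (wd x) (tt x) := pos_congr act x ω (wd x) (tt x) h2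
      have h4 := hω (tt x) (by have := hxm x; omega)
      rw [h3] at h4
      exact h4 (hw x)
    have h2 := cyl_pos (D := D) (tt x) (wd x)
    have hm : MeasurableSet {ω : ℕ → D | ∀ i, i < tt x → ω i = wd x i} := by
      refine bh_set_dep (tt x) _ fun ω ω' h => ?_
      constructor
      · intro H i hi
        rw [← h i hi]
        exact H i hi
      · intro H i hi
        rw [h i hi]
        exact H i hi
    have h3 : (mu D).real (nh act A x T) ≤
        (mu D).real {ω : ℕ → D | ∀ i, i < tt x → ω i = wd x i}ᶜ := measureReal_mono h1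
    rw [probReal_compl_eq_one_sub hm] at h3
    linarith
  set ρ : ℝ := max ((mu D).real (nh act A x0 T)) (1 / 2) with hρ
  have hρ0 : 0 < ρ := lt_of_lt_of_le (by norm_num) (le_max_right _ _)
  have hρ1 : ρ < 1 := max_lt (hlt x0) (by norm_num)
  have hq : ∀ x : W, (mu D) (nh act A x T) ≤ ENNReal.ofReal ρ := by
    intro x
    rw [← ofReal_measureReal]
    exact ENNReal.ofReal_le_ofReal ((hx0 x).trans (le_max_left _ _))
  refine ⟨T, by omega, ρ, hρ0, hρ1, ?_⟩
  intro j
  induction j with
  | zero =>
    intro x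
    simp only [pow_zero, ENNReal.ofReal_one]
    exact prob_le_one
  | succ j ih =>
    intro x
    have hsub : nh act A x ((j + 1) * T) ⊆ {ω | ω ∈ nh act A x T ∧
        sh T ω ∈ nh act A (pos act x ω T) (j * T)} := by
      intro ω hω
      refine ⟨fun i hi => hω i (by nlinarith), fun i hi => ?_⟩
      rw [← pos_add]
      exact hω (T + i) (by nlinarith)
    set F : (ℕ → D) → (ℕ → D) → ENNReal := fun ω η =>
      if ω ∈ nh act A x T ∧ η ∈ nh act A (pos act x ω T) (j * T) then 1 else 0 with hF
    have hFm : Measurable (Function.uncurry F) := by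
      refine bh_dep2 T (j * T) _ fun p p' h1 h2 => ?_
      simp only [Function.uncurry, hF]
      rw [pos_congr act x p.1 p'.1 T h1]
      refine if_congr ?_ rfl rfl
      rw [nh_dep act A x T _ _ h1, nh_dep act A (pos act x p'.1 T) (j * T) _ _ h2]
    have hdep : ∀ ω ω' η, (∀ i, i < T → ω i = ω' i) → F ω η = F ω' η := by
      intro ω ω' η h
      simp only [hF]
      rw [pos_congr act x ω ω' T h]
      refine if_congr ?_ rfl rfl
      rw [nh_dep act A x T _ _ h]
    have hm := markov_lint (D := D) T F hFm hdep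
    have h1 : (mu D) (nh act A x ((j + 1) * T)) ≤ ∫⁻ ω, F ω (sh T ω) ∂(mu D) := by
      calc (mu D) (nh act A x ((j + 1) * T))
          = ∫⁻ ω, (nh act A x ((j + 1) * T)).indicator 1 ω ∂(mu D) :=
            (lintegral_indicator_one (nh_meas act A x _)).symm
        _ ≤ ∫⁻ ω, F ω (sh T ω) ∂(mu D) := by
            refine lintegral_mono fun ω => ?_
            by_cases hω : ω ∈ nh act A x ((j + 1) * T)
            · rw [Set.indicator_of_mem hω]
              simp only [hF, Pi.one_apply]
              have h5 : ω ∈ nh act A x T ∧ sh T ω ∈ nh act A (pos act x ω T) (j * T) := hsub hω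
              rw [if_pos h5]
            · rw [Set.indicator_of_notMem hω]
              exact bot_le
    have h2 : ∀ ω, ∫⁻ η, F ω η ∂(mu D) ≤
        (nh act A x T).indicator (fun _ => ENNReal.ofReal (ρ ^ j)) ω := by
      intro ω
      by_cases hω : ω ∈ nh act A x T
      · rw [Set.indicator_of_mem hω]
        have : ∀ η, F ω η = (nh act A (pos act x ω T) (j * T)).indicator 1 η := by
          intro η
          simp only [hF, hω, true_and, Set.indicator_apply, Pi.one_apply]
        simp_rw [this]
        rw [lintegral_indicator_one (nh_meas act A _ _)]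
        exact ih _
      · rw [Set.indicator_of_notMem hω]
        have : ∀ η, F ω η = 0 := by
          intro η
          simp only [hF, hω, false_and, if_false]
        simp_rw [this]
        simp
    calc (mu D) (nh act A x ((j + 1) * T)) ≤ ∫⁻ ω, F ω (sh T ω) ∂(mu D) := h1
      _ = ∫⁻ ω, ∫⁻ η, F ω η ∂(mu D) ∂(mu D) := hm
      _ ≤ ∫⁻ ω, (nh act A x T).indicator (fun _ => ENNReal.ofReal (ρ ^ j)) ω ∂(mu D) :=
          lintegral_mono h2
      _ = ENNReal.ofReal (ρ ^ j) * (mu D) (nh act A x T) := by
          rw [lintegral_indicator_const (nh_meas act A x T)]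
      _ ≤ ENNReal.ofReal (ρ ^ j) * ENNReal.ofReal ρ := mul_le_mul' le_rfl (hq x)
      _ = ENNReal.ofReal (ρ ^ (j + 1)) := by
          rw [← ENNReal.ofReal_mul (by positivity), pow_succ]

theorem ae_hit (A : Set W) (hA : Reach act A) (x : W) :
    ∀ᵐ ω ∂(mu D), ∃ t, pos act x ω t ∈ A := by
  have : Nonempty W := ⟨x⟩
  obtain ⟨T, _, ρ, hρ0, hρ1, h⟩ := nh_decay (D := D) act A hA
  rw [ae_iff]
  have h1 : ∀ j : ℕ, (mu D) {ω | ¬ ∃ t, pos act x ω t ∈ A} ≤ ENNReal.ofReal (ρ ^ j) := by
    intro j
    refine le_trans (measure_mono ?_) (h j x)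
    intro ω hω i _ hi
    exact hω ⟨i, hi⟩
  have h2 : Filter.Tendsto (fun j : ℕ => ENNReal.ofReal (ρ ^ j)) Filter.atTop (nhds 0) := by
    have := ENNReal.tendsto_ofReal (tendsto_pow_atTop_nhds_zero_of_lt_one hρ0.le hρ1)
    rwa [ENNReal.ofReal_zero] at this
  exact le_antisymm (ge_of_tendsto' h2 h1) bot_le

/-- functions of the path up to the hitting time are measurable -/
theorem measurable_tau (A : Set W) (x : W) {α : Type} [MeasurableSpace α] (f : ℕ → (ℕ → D) → α)
    (hf : ∀ t, ∀ ω ω' : ℕ → D, (∀ i, i < t → ω i = ω' i) → f t ω = f t ω') :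
    Measurable (fun ω => f (tau act x ω A) ω) := by
  have hS : ∀ t, MeasurableSet {ω : ℕ → D | pos act x ω t ∈ A} := by
    intro t
    refine bh_set_dep t _ fun ω ω' h => ?_
    simp only [Set.mem_ofPred_eq]
    rw [pos_congr act x ω ω' t h]
  have hN : MeasurableSet {ω : ℕ → D | ∀ t, pos act x ω t ∉ A} := by
    have : {ω : ℕ → D | ∀ t, pos act x ω t ∉ A} = ⋂ t, {ω : ℕ → D | pos act x ω t ∈ A}ᶜ := by
      ext ω
      simp
    rw [this]
    exact MeasurableSet.iInter fun t => (hS t).compl
  have hT : Measurable (fun ω : ℕ → D => tau act x ω A) := by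
    refine measurable_to_countable' fun t => ?_
    have h1 : (fun ω : ℕ → D => tau act x ω A) ⁻¹' {t} =
        ({ω : ℕ → D | pos act x ω t ∈ A} ∩ ⋂ i : {i : ℕ // i < t}, {ω : ℕ → D | pos act x ω i ∈ A}ᶜ) ∪
          ({ω : ℕ → D | ∀ s, pos act x ω s ∉ A} ∩ {_ω : ℕ → D | t = 0}) := by
      ext ω
      simp only [Set.mem_preimage, Set.mem_singleton_iff, Set.mem_union, Set.mem_inter_iff,
        Set.mem_ofPred_eq, Set.mem_iInter, Set.mem_compl_iff, Subtype.forall]
      constructor
      · intro h
        by_cases he : ∃ s, pos act x ω s ∈ A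
        · left
          have hs := tau_spec act x ω A he
          rw [h] at hs
          exact hs
        · right
          push Not at he
          refine ⟨he, ?_⟩
          rw [← h]
          unfold tau
          have : {s | pos act x ω s ∈ A} = ∅ := by
            ext s
            simp [he s]
          rw [this, Nat.sInf_empty]
      · rintro (⟨h1, h2⟩ | ⟨h1, h2⟩)
        · have hs := tau_spec act x ω A ⟨t, h1⟩
          have h3 : tau act x ω A ≤ t := Nat.sInf_le h1
          by_contra hne
          exact h2 _ (lt_of_le_of_ne h3 hne) hs.1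
        · unfold tau
          have : {s | pos act x ω s ∈ A} = ∅ := by
            ext s
            simp [h1 s]
          rw [this, Nat.sInf_empty, h2]
    rw [h1]
    have hI : MeasurableSet (⋂ i : {i : ℕ // i < t}, {ω : ℕ → D | pos act x ω i ∈ A}ᶜ) :=
      MeasurableSet.iInter fun i => (hS i.1).compl
    exact ((hS t).inter hI).union (hN.inter (MeasurableSet.const _))
  have hU : Measurable (Function.uncurry f) := by
    refine measurable_from_prod_countable_right fun t => ?_
    exact measurable_dep t (f t) (hf t)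
  exact hU.comp (hT.prodMk measurable_id)

theorem tau_integrable (A : Set W) (hA : Reach act A) (x : W) (j : ℕ) :
    Integrable (fun ω => (tau act x ω A : ℝ) ^ j) (mu D) := by
  have : Nonempty W := ⟨x⟩
  obtain ⟨T, hT0, ρ, hρ0, hρ1, h⟩ := nh_decay (D := D) act A hA
  have hm : Measurable (fun ω : ℕ → D => (tau act x ω A : ℝ) ^ j) :=
    measurable_tau act A x (fun t _ => (t : ℝ) ^ j) fun t ω ω' _ => rfl
  refine ⟨hm.aestronglyMeasurable, ?_⟩
  rw [hasFiniteIntegral_iff_enorm]
  have hb : ∀ ω : ℕ → D, ‖(tau act x ω A : ℝ) ^ j‖ₑ ≤ 1 + ∑' m : ℕ,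
      (nh act A x (m * T)).indicator (fun _ => ENNReal.ofReal ((((m + 1 : ℕ) : ℝ) * T) ^ j)) ω := by
    intro ω
    rw [← ofReal_norm, Real.norm_of_nonneg (by positivity)]
    by_cases h0 : tau act x ω A = 0
    · rw [h0]
      refine le_trans ?_ le_self_add
      rw [← ENNReal.ofReal_one]
      refine ENNReal.ofReal_le_ofReal ?_
      rcases Nat.eq_zero_or_pos j with rfl | hj
      · simp
      · simp [hj.ne']
    · obtain ⟨m, hm1, hm2⟩ : ∃ m : ℕ, m * T < tau act x ω A ∧ tau act x ω A ≤ (m + 1) * T := by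
        refine ⟨(tau act x ω A - 1) / T, ?_, ?_⟩
        · have := Nat.div_mul_le_self (tau act x ω A - 1) T
          omega
        · have h3 := Nat.lt_div_mul_add (a := tau act x ω A - 1) hT0
          have h4 : ((tau act x ω A - 1) / T + 1) * T = (tau act x ω A - 1) / T * T + T := by ring
          rw [h4]
          omega
      refine le_trans ?_ (le_add_left (ENNReal.le_tsum m))
      have hmem : ω ∈ nh act A x (m * T) := by
        intro i hi hiA
        have : tau act x ω A ≤ i := Nat.sInf_le hiA
        omega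
      rw [Set.indicator_of_mem hmem]
      refine ENNReal.ofReal_le_ofReal (pow_le_pow_left₀ (by positivity) ?_ j)
      exact_mod_cast hm2
  have hsum : Summable (fun m : ℕ => (((m + 1 : ℕ) : ℝ) * T) ^ j * ρ ^ m) := by
    have hs : Summable (fun n : ℕ => ((n : ℝ)) ^ j * ρ ^ n) :=
      summable_pow_mul_geometric_of_norm_lt_one j
        (by rw [Real.norm_eq_abs, abs_of_pos hρ0]; exact hρ1)
    have hs1 : Summable (fun n : ℕ => (((n + 1 : ℕ) : ℝ)) ^ j * ρ ^ (n + 1)) :=
      (summable_nat_add_iff 1).mpr hs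
    have hs2 := hs1.mul_left ((T : ℝ) ^ j * ρ⁻¹)
    refine hs2.congr fun n => ?_
    rw [mul_pow, pow_succ]
    field_simp
  calc ∫⁻ ω, ‖(tau act x ω A : ℝ) ^ j‖ₑ ∂(mu D)
      ≤ ∫⁻ ω, (1 + ∑' m : ℕ, (nh act A x (m * T)).indicator
          (fun _ => ENNReal.ofReal ((((m + 1 : ℕ) : ℝ) * T) ^ j)) ω) ∂(mu D) := lintegral_mono hb
    _ = 1 + ∑' m : ℕ, ENNReal.ofReal ((((m + 1 : ℕ) : ℝ) * T) ^ j) *
          (mu D) (nh act A x (m * T)) := by
        rw [lintegral_add_left measurable_const, lintegral_tsum]
        · simp only [lintegral_const, measure_univ, mul_one]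
          congr 1
          refine tsum_congr fun m => ?_
          rw [lintegral_indicator_const (nh_meas act A x (m * T))]
        · intro m
          exact (measurable_const.indicator (nh_meas act A x (m * T))).aemeasurable
    _ ≤ 1 + ∑' m : ℕ, ENNReal.ofReal ((((m + 1 : ℕ) : ℝ) * T) ^ j * ρ ^ m) := by
        refine add_le_add le_rfl (ENNReal.tsum_le_tsum fun m => ?_)
        rw [ENNReal.ofReal_mul (by positivity)]
        exact mul_le_mul' le_rfl (h m x)
    _ < ⊤ := by
        rw [← ENNReal.ofReal_tsum_of_nonneg (fun m => by positivity) hsum]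
        exact ENNReal.add_lt_top.mpr ⟨ENNReal.one_lt_top, ENNReal.ofReal_lt_top⟩

end basehit

end Pool.Agent.UST
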