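import Pool.Agent.Helper54.UST.Defs

namespace Pool.Agent.UST

open MeasureTheory

section basemu
variable {D : Type} [Fintype D] [Nonempty D] [MeasurableSpace D] [MeasurableSingletonClass D]

instance mu_prob : IsProbabilityMeasure (mu D) := by
  unfold mu
  infer_instance

/-- restriction to the first `t` choices -/
private def rt (D : Type) (t : ℕ) (ω : ℕ → D) : Fin t → D := fun i => ω i

private theorem measurable_rt (t : ℕ) : Measurable (rt D t) :=
  measurable_pi_lambda _ fun i => measurable_pi_apply _

/-- extension of a finite sequence of choices -/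
private noncomputable def xt {D : Type} [Nonempty D] (t : ℕ) (a : Fin t → D) : ℕ → D :=
  fun i => if h : i < t then a ⟨i, h⟩ else Classical.arbitrary D

/-- a function of the first `t` choices is measurable -/
theorem measurable_dep {α : Type} [MeasurableSpace α] (t : ℕ) (f : (ℕ → D) → α)
    (hf : ∀ ω ω' : ℕ → D, (∀ i, i < t → ω i = ω' i) → f ω = f ω') : Measurable f := by
  have h : f = (fun a : Fin t → D => f (xt t a)) ∘ rt D t := by
    funext ω
    refine hf _ _ fun i hi => ?_
    simp [xt, rt, hi]
  rw [h]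
  exact (measurable_of_finite _).comp (measurable_rt t)

theorem measurable_sh (t : ℕ) : Measurable (sh t : (ℕ → D) → (ℕ → D)) :=
  measurable_pi_lambda _ fun i => measurable_pi_apply _

/-- glue the first `t` choices of `p.1` and the choices of `p.2` -/
private def glu (D : Type) (t : ℕ) (p : (ℕ → D) × (ℕ → D)) : ℕ → D :=
  fun i => if i < t then p.1 i else p.2 (i - t)

private theorem measurable_glu (t : ℕ) : Measurable (glu D t) := by
  refine measurable_pi_lambda _ fun i => ?_
  unfold glu
  split_ifs
  · exact (measurable_pi_apply i).comp measurable_fst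
  · exact (measurable_pi_apply (i - t)).comp measurable_snd

private theorem glu_sh (t : ℕ) (p : (ℕ → D) × (ℕ → D)) : sh t (glu D t p) = p.2 := by
  funext i
  simp [sh, glu]

private theorem glu_lt {t i : ℕ} (hi : i < t) (p : (ℕ → D) × (ℕ → D)) : glu D t p i = p.1 i := by
  simp [glu, hi]

private theorem map_glu (t : ℕ) : ((mu D).prod (mu D)).map (glu D t) = mu D := by
  classical
  unfold mu
  refine Measure.eq_infinitePi _ fun s A hA => ?_
  rw [Measure.map_apply (measurable_glu t) (.pi s.countable_toSet fun _ _ => hA _)]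
  have h : glu D t ⁻¹' ((s : Set ℕ).pi A) =
      (((s.filter (fun i => i < t) : Finset ℕ) : Set ℕ).pi A) ×ˢ
        ((((s.filter (fun i => ¬ i < t)).image (fun i => i - t) : Finset ℕ) : Set ℕ).pi
          (fun j => A (j + t))) := by
    ext p
    simp only [Set.mem_preimage, Set.mem_pi, Set.mem_prod, Finset.mem_coe, Finset.mem_filter,
      Finset.mem_image]
    constructor
    · intro h
      refine ⟨fun i hi => ?_, ?_⟩
      · have := h i hi.1
        rwa [glu_lt hi.2] at this
      · rintro j ⟨i, hi, rfl⟩
        have := h i hi.1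
        unfold glu at this
        rw [if_neg hi.2] at this
        have e : i - t + t = i := by omega
        rwa [e]
    · rintro ⟨h1, h2⟩ i hi
      by_cases hit : i < t
      · rw [glu_lt hit]
        exact h1 i ⟨hi, hit⟩
      · unfold glu
        rw [if_neg hit]
        have := h2 (i - t) ⟨i, ⟨hi, hit⟩, rfl⟩
        have e : i - t + t = i := by omega
        rwa [e] at this
  rw [h, Measure.prod_prod, Measure.infinitePi_pi _ (fun i _ => hA i),
    Measure.infinitePi_pi _ (fun i _ => hA _), Finset.prod_image]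
  · rw [← Finset.prod_filter_mul_prod_filter_not s (fun i => i < t)]
    congr 1
    refine Finset.prod_congr rfl fun i hi => ?_
    have e : i - t + t = i := by
      have := (Finset.mem_filter.mp hi).2
      omega
    rw [e]
  · intro i hi j hj hij
    have h1 := (Finset.mem_filter.mp (Finset.mem_coe.mp hi)).2
    have h2 := (Finset.mem_filter.mp (Finset.mem_coe.mp hj)).2
    simp only at hij
    omega

/-- Markov property at a fixed time -/
theorem markov_lint (t : ℕ) (F : (ℕ → D) → (ℕ → D) → ENNReal)
    (hF : Measurable (Function.uncurry F))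
    (hdep : ∀ ω ω' η, (∀ i, i < t → ω i = ω' i) → F ω η = F ω' η) :
    ∫⁻ ω, F ω (sh t ω) ∂(mu D) = ∫⁻ ω, ∫⁻ η, F ω η ∂(mu D) ∂(mu D) := by
  have hm : Measurable (fun ω : ℕ → D => F ω (sh t ω)) :=
    hF.comp (measurable_id.prodMk (measurable_sh t))
  have h1 : ∫⁻ ω, F ω (sh t ω) ∂(mu D) =
      ∫⁻ p, F (glu D t p) (sh t (glu D t p)) ∂((mu D).prod (mu D)) := by
    conv_lhs => rw [← map_glu (D := D) t]
    rw [lintegral_map hm (measurable_glu t)]
  have h2 : ∀ p : (ℕ → D) × (ℕ → D), F (glu D t p) (sh t (glu D t p)) = Function.uncurry F p := by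
    intro p
    rw [glu_sh]
    exact hdep _ _ _ fun i hi => glu_lt hi p
  rw [h1]
  simp_rw [h2]
  rw [lintegral_prod _ hF.aemeasurable]
  rfl

theorem markov_int (t : ℕ) (F : (ℕ → D) → (ℕ → D) → ℝ) (hF : Measurable (Function.uncurry F))
    (C : ℝ) (hC : ∀ ω η, |F ω η| ≤ C)
    (hdep : ∀ ω ω' η, (∀ i, i < t → ω i = ω' i) → F ω η = F ω' η) :
    ∫ ω, F ω (sh t ω) ∂(mu D) = ∫ ω, ∫ η, F ω η ∂(mu D) ∂(mu D) := by
  have hm : Measurable (fun ω : ℕ → D => F ω (sh t ω)) :=
    hF.comp (measurable_id.prodMk (measurable_sh t))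
  have h1 : ∫ ω, F ω (sh t ω) ∂(mu D) =
      ∫ p, F (glu D t p) (sh t (glu D t p)) ∂((mu D).prod (mu D)) := by
    conv_lhs => rw [← map_glu (D := D) t]
    rw [integral_map (measurable_glu t).aemeasurable hm.aestronglyMeasurable]
  have h2 : ∀ p : (ℕ → D) × (ℕ → D), F (glu D t p) (sh t (glu D t p)) = Function.uncurry F p := by
    intro p
    rw [glu_sh]
    exact hdep _ _ _ fun i hi => glu_lt hi p
  rw [h1]
  simp_rw [h2]
  have hint : Integrable (Function.uncurry F) ((mu D).prod (mu D)) := by
    refine Integrable.of_bound hF.aestronglyMeasurable C (ae_of_all _ fun p => ?_)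
    rw [Real.norm_eq_abs]
    exact hC p.1 p.2
  rw [integral_prod _ hint]
  rfl

private theorem unif_singleton (d : D) :
    (PMF.uniformOfFintype D).toMeasure {d} = (Fintype.card D : ENNReal)⁻¹ := by
  rw [PMF.toMeasure_apply_singleton _ _ (measurableSet_singleton d),
    PMF.uniformOfFintype_apply]

private theorem mu_rt_singleton (t : ℕ) (a : Fin t → D) :
    ((mu D).map (rt D t)).real {a} = ((Fintype.card D : ℝ) ^ t)⁻¹ := by
  classical
  have h : rt D t ⁻¹' {a} = ((Finset.range t : Finset ℕ) : Set ℕ).pi (fun i => {xt t a i}) := by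
    ext ω
    simp only [Set.mem_preimage, Set.mem_singleton_iff, Set.mem_pi, Finset.mem_coe,
      Finset.mem_range]
    constructor
    · rintro rfl i hi
      simp [xt, rt, hi]
    · intro h
      funext i
      have := h i i.2
      simpa [xt, rt, i.2] using this
  rw [Measure.real, Measure.map_apply (measurable_rt t) (measurableSet_singleton a), h]
  unfold mu
  rw [Measure.infinitePi_pi _ (fun i _ => measurableSet_singleton _)]
  simp only [unif_singleton, Finset.prod_const, Finset.card_range, ENNReal.toReal_pow,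
    ENNReal.toReal_inv, ENNReal.toReal_natCast, inv_pow]

theorem mu_fin (t : ℕ) (f : (Fin t → D) → ℝ) :
    ∫ ω, f (fun i => ω i) ∂(mu D) = (∑ a, f a) / (Fintype.card D : ℝ) ^ t := by
  have h1 : ∫ ω, f (fun i => ω i) ∂(mu D) = ∫ a, f a ∂((mu D).map (rt D t)) := by
    rw [integral_map (measurable_rt t).aemeasurable
      (measurable_of_finite f).aestronglyMeasurable]
    rfl
  haveI : IsProbabilityMeasure ((mu D).map (rt D t)) :=
    Measure.isProbabilityMeasure_map (measurable_rt t).aemeasurable
  rw [h1, integral_fintype Integrable.of_finite]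
  simp only [mu_rt_singleton, smul_eq_mul]
  rw [← Finset.mul_sum, div_eq_inv_mul]

/-- the law of the first choice -/
theorem mu_first (f : D → ℝ) : ∫ ω, f (ω 0) ∂(mu D) = (∑ d, f d) / Fintype.card D := by
  have h := mu_fin (D := D) 1 (fun a => f (a 0))
  simp only [Fin.isValue, Fin.coe_ofNat_eq_mod, pow_one] at h
  rw [show (0 : ℕ) % 1 = 0 from rfl] at h
  rw [h]
  congr 1
  exact Fintype.sum_equiv (Equiv.funUnique (Fin 1) D) _ _ fun a => rfl

/-- functions of the first `t` choices, invariance under bijections of the choices -/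
theorem mu_perm (t : ℕ) (σ : (Fin t → D) ≃ (Fin t → D)) (f : (Fin t → D) → ℝ) :
    ∫ ω, f (σ (fun i => ω i)) ∂(mu D) = ∫ ω, f (fun i => ω i) ∂(mu D) := by
  rw [mu_fin t (fun a => f (σ a)), mu_fin t f, Equiv.sum_comp σ f]

end basemu

end Pool.Agent.UST
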