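import Pool.Agent.Helper54.UST.BaseHit

namespace Pool.Agent.UST

open MeasureTheory

/-! ### reachability -/

theorem act_reach (n : ℕ) [NeZero n] (A : Set (V n)) (hA : A.Nonempty) : Reach (act n) A := by
  intro x
  obtain ⟨a, ha⟩ := hA
  let R : Set (V n) := {y | ∃ ω : ℕ → DD, ∃ t, pos (act n) x ω t = y}
  have hstep : ∀ (d : DD) (y : V n), y ∈ R → y + inc n d ∈ R := by
    rintro d y ⟨ω, t, h⟩
    refine ⟨Function.update ω t d, t + 1, ?_⟩
    have h1 : pos (act n) x (Function.update ω t d) t = pos (act n) x ω t :=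
      pos_congr (act n) x _ _ t (fun i hi => Function.update_of_ne (Nat.ne_of_lt hi) _ _)
    simp only [pos, h1, h, act, Function.update_self]
  let S : AddSubmonoid (V n) :=
    { carrier := {v | ∀ y, y ∈ R → y + v ∈ R}
      add_mem' := by
        intro v w hv hw y hy
        rw [← add_assoc]
        exact hw _ (hv _ hy)
      zero_mem' := by
        intro y hy
        rwa [add_zero] }
  have h1 : ∀ i : Fin 4, (Pi.single i (1 : ZMod n) : V n) ∈ S := by
    intro i y hy
    have := hstep (true, i, true) y hy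
    simpa [inc] using this
  have h2 : ∀ (i : Fin 4) (c : ZMod n), (Pi.single i c : V n) ∈ S := by
    intro i c
    have h3 : (Pi.single i c : V n) = c.val • (Pi.single i (1 : ZMod n) : V n) := by
      rw [← Pi.single_smul]
      congr 1
      rw [nsmul_eq_mul, mul_one, ZMod.natCast_zmod_val]
    rw [h3]
    exact S.nsmul_mem (h1 i) _
  have h4 : a - x ∈ S := by
    rw [← Finset.univ_sum_single (a - x)]
    exact S.sum_mem fun i _ => h2 i _
  have h5 : x ∈ R := ⟨fun _ => default, 0, rfl⟩
  obtain ⟨ω, t, h⟩ := h4 x h5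
  refine ⟨ω, t, ?_⟩
  rw [h]
  simpa using ha

/-! ### translations -/

theorem pos_translate (n : ℕ) (x y : V n) (ω : ℕ → DD) (t : ℕ) :
    pos (act n) (x + y) ω t = pos (act n) x ω t + y := by
  induction t with
  | zero => rfl
  | succ t ih =>
    simp only [pos, act, ih]
    abel

theorem bt_stepLE_map {α β : Type} (f : α → β) (hf : Function.Injective f) (γ : List α) (y : α) :
    stepLE (γ.map f) (f y) = (stepLE γ y).map f := by
  classical
  unfold stepLE
  rw [List.takeWhile_map, List.map_append]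
  congr 2
  refine congrArg (fun p => List.takeWhile p γ) ?_
  funext z
  simp [hf.eq_iff]

theorem bt_leF_map {α β : Type} (f : α → β) (hf : Function.Injective f) (l : List α) :
    ∀ γ : List α, leF (γ.map f) (l.map f) = (leF γ l).map f := by
  induction l with
  | nil => intro γ; rfl
  | cons a l ih =>
    intro γ
    have h1 : leF (γ.map f) ((a :: l).map f) = leF (stepLE (γ.map f) (f a)) (l.map f) := rfl
    have h2 : leF γ (a :: l) = leF (stepLE γ a) l := rfl
    rw [h1, h2, bt_stepLE_map f hf, ih]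

/-- translation invariance of the loop-erased walk -/
theorem lerw_translate (n : ℕ) (x y : V n) (ω : ℕ → DD) (A : Set (V n)) :
    lerw (act n) (x + y) ω ((fun z => z + y) '' A) = (lerw (act n) x ω A).map (fun z => z + y) := by
  have hinj : Function.Injective (fun z : V n => z + y) := add_left_injective y
  have htau : tau (act n) (x + y) ω ((fun z => z + y) '' A) = tau (act n) x ω A := by
    unfold tau
    congr 1
    ext t
    simp only [Set.mem_ofPred_eq, pos_translate]
    exact hinj.mem_set_image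
  have hseg : ∀ s t, seg (act n) (x + y) ω s t = (seg (act n) x ω s t).map (fun z => z + y) := by
    intro s t
    unfold seg
    rw [List.map_map]
    refine List.map_congr_left fun i _ => ?_
    exact pos_translate n x y ω i
  unfold lerw
  rw [htau, hseg]
  exact bt_leF_map _ hinj _ []

theorem hk_translate (n : ℕ) (t : ℕ) (x y z : V n) : hk n t (x + z) (y + z) = hk n t x y := by
  unfold hk
  congr 1
  ext ω
  simp only [Set.mem_ofPred_eq, pos_translate, add_left_inj]

/-! ### finite sums -/

/-- extension of a finite sequence of choices -/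
def btExt {t : ℕ} (a : Fin t → DD) : ℕ → DD := fun i => if h : i < t then a ⟨i, h⟩ else default

theorem btExt_apply {t : ℕ} (a : Fin t → DD) (i : Fin t) : btExt a i = a i := by
  unfold btExt
  rw [dif_pos i.2]

theorem btExt_restrict {t : ℕ} (ω : ℕ → DD) (i : ℕ) (hi : i < t) :
    btExt (fun i : Fin t => ω i) i = ω i := by
  unfold btExt
  rw [dif_pos hi]

theorem bt_int_fin {t : ℕ} (G : (ℕ → DD) → ℝ)
    (hG : ∀ ω ω' : ℕ → DD, (∀ i, i < t → ω i = ω' i) → G ω = G ω') :
    ∫ ω, G ω ∂(mu DD) = (∑ a : Fin t → DD, G (btExt a)) / (Fintype.card DD : ℝ) ^ t := by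
  rw [← mu_fin t (fun a => G (btExt a))]
  refine integral_congr_ae (Filter.Eventually.of_forall fun ω => ?_)
  exact hG _ _ (fun i hi => (btExt_restrict ω i hi).symm)

/-- sign flip of a choice -/
def btFlip (d : DD) : DD := (d.1, d.2.1, !d.2.2)

theorem btFlip_flip (d : DD) : btFlip (btFlip d) = d := by
  simp [btFlip]

theorem inc_btFlip (n : ℕ) (d : DD) : inc n (btFlip d) = -inc n d := by
  obtain ⟨a, i, b⟩ := d
  cases a <;> cases b <;> simp [inc, btFlip, Pi.single_neg]

/-- reversal of a finite sequence of choices -/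
def btRev (t : ℕ) (a : Fin t → DD) : Fin t → DD := fun i => btFlip (a i.rev)

theorem btRev_rev (t : ℕ) (a : Fin t → DD) : btRev t (btRev t a) = a := by
  funext i
  simp [btRev, btFlip_flip]

/-- reversal as a permutation -/
def btRevE (t : ℕ) : (Fin t → DD) ≃ (Fin t → DD) where
  toFun := btRev t
  invFun := btRev t
  left_inv := btRev_rev t
  right_inv := btRev_rev t

theorem bt_pos_rev (n t : ℕ) (x : V n) (ω ω' : ℕ → DD)
    (h : ∀ i, i < t → ω' i = btFlip (ω (t - 1 - i))) :
    ∀ i, i ≤ t → pos (act n) (pos (act n) x ω t) ω' i = pos (act n) x ω (t - i) := by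
  intro i
  induction i with
  | zero => intro _; rfl
  | succ i ih =>
    intro hi
    have h1 : pos (act n) x ω (t - i) = pos (act n) x ω (t - (i + 1)) + inc n (ω (t - 1 - i)) := by
      have h2 : t - i = (t - (i + 1)) + 1 := by omega
      have h3 : t - 1 - i = t - (i + 1) := by omega
      rw [h2, h3]
      rfl
    have h4 : pos (act n) (pos (act n) x ω t) ω' (i + 1) =
        pos (act n) (pos (act n) x ω t) ω' i + inc n (ω' i) := rfl
    rw [h4, ih (by omega), h i (by omega), inc_btFlip, h1]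
    abel

theorem bt_seg_rev (n t : ℕ) (x : V n) (ω ω' : ℕ → DD)
    (h : ∀ i, i < t → ω' i = btFlip (ω (t - 1 - i))) :
    seg (act n) (pos (act n) x ω t) ω' 0 t = (seg (act n) x ω 0 t).reverse := by
  apply List.ext_getElem
  · simp [seg]
  · intro i h1 h2
    have hi : i ≤ t := by
      rw [seg_length] at h1
      omega
    rw [List.getElem_reverse]
    simp only [seg, List.getElem_map, List.getElem_range', List.length_map, List.length_range']
    rw [show 0 + 1 * i = i by ring, show 0 + 1 * (t + 1 - 0 - 1 - i) = t - i by omega]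
    exact bt_pos_rev n t x ω ω' h i hi

theorem bt_seg_rev' (n t : ℕ) (x : V n) (a : Fin t → DD) :
    seg (act n) (pos (act n) x (btExt a) t) (btExt (btRev t a)) 0 t =
      (seg (act n) x (btExt a) 0 t).reverse := by
  refine bt_seg_rev n t x _ _ fun i hi => ?_
  have h1 := btExt_apply (btRev t a) ⟨i, hi⟩
  have h2 := btExt_apply a (Fin.rev ⟨i, hi⟩)
  simp only at h1
  rw [h1]
  unfold btRev
  rw [← h2, Fin.val_rev]
  congr 2
  simp only
  omega

theorem bt_pos_rev' (n t : ℕ) (x : V n) (a : Fin t → DD) :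
    pos (act n) (pos (act n) x (btExt a) t) (btExt (btRev t a)) t = x := by
  have h := bt_pos_rev n t x (btExt a) (btExt (btRev t a)) (fun i hi => by
    have h1 := btExt_apply (btRev t a) ⟨i, hi⟩
    have h2 := btExt_apply a (Fin.rev ⟨i, hi⟩)
    simp only at h1
    rw [h1]
    unfold btRev
    rw [← h2, Fin.val_rev]
    congr 2
    simp only
    omega) t le_rfl
  rw [h, Nat.sub_self]
  rfl

/-- time reversal from the uniform law -/
theorem reversal (n : ℕ) [NeZero n] (t : ℕ) (F : List (V n) → ℝ) :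
    ∑ x : V n, ∫ ω, F (seg (act n) x ω 0 t) ∂(mu DD) =
      ∑ x : V n, ∫ ω, F (seg (act n) x ω 0 t).reverse ∂(mu DD) := by
  have h1 : ∀ x : V n, ∫ ω, F (seg (act n) x ω 0 t) ∂(mu DD) =
      (∑ a : Fin t → DD, F (seg (act n) x (btExt a) 0 t)) / (Fintype.card DD : ℝ) ^ t := by
    intro x
    refine bt_int_fin (fun ω => F (seg (act n) x ω 0 t)) fun ω ω' h => ?_
    simp only [seg_congr (act n) x ω ω' 0 t h]
  have h2 : ∀ x : V n, ∫ ω, F (seg (act n) x ω 0 t).reverse ∂(mu DD) =
      (∑ a : Fin t → DD, F (seg (act n) x (btExt a) 0 t).reverse) /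
        (Fintype.card DD : ℝ) ^ t := by
    intro x
    refine bt_int_fin (fun ω => F (seg (act n) x ω 0 t).reverse) fun ω ω' h => ?_
    simp only [seg_congr (act n) x ω ω' 0 t h]
  simp only [h1, h2, ← Finset.sum_div]
  congr 1
  rw [← Fintype.sum_prod_type' (fun (x : V n) (a : Fin t → DD) =>
      F (seg (act n) x (btExt a) 0 t)),
    ← Fintype.sum_prod_type' (fun (x : V n) (a : Fin t → DD) =>
      F (seg (act n) x (btExt a) 0 t).reverse)]
  let Ψ : V n × (Fin t → DD) ≃ V n × (Fin t → DD) :=
    { toFun := fun p => (pos (act n) p.1 (btExt p.2) t, btRev t p.2)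
      invFun := fun p => (pos (act n) p.1 (btExt p.2) t, btRev t p.2)
      left_inv := fun p => by
        simp only [bt_pos_rev', btRev_rev]
      right_inv := fun p => by
        simp only [bt_pos_rev', btRev_rev] }
  refine Fintype.sum_equiv Ψ _ _ fun p => ?_
  change F (seg (act n) p.1 (btExt p.2) 0 t) =
    F (seg (act n) (pos (act n) p.1 (btExt p.2) t) (btExt (btRev t p.2)) 0 t).reverse
  rw [bt_seg_rev', List.reverse_reverse]

/-- time reversal of a bridge from `x` to `y` -/
theorem reversal_pt (n : ℕ) [NeZero n] (t : ℕ) (F : List (V n) → ℝ) (x y : V n) :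
    ∫ ω, (ind (pos (act n) x ω t = y) * F (seg (act n) x ω 0 t)) ∂(mu DD) =
      ∫ ω, (ind (pos (act n) y ω t = x) * F (seg (act n) y ω 0 t).reverse) ∂(mu DD) := by
  rw [bt_int_fin (t := t) (fun ω => ind (pos (act n) x ω t = y) * F (seg (act n) x ω 0 t)),
    bt_int_fin (t := t) (fun ω => ind (pos (act n) y ω t = x) * F (seg (act n) y ω 0 t).reverse)]
  · congr 1
    refine Fintype.sum_equiv (btRevE t) _ _ fun a => ?_
    change ind (pos (act n) x (btExt a) t = y) * F (seg (act n) x (btExt a) 0 t) =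
      ind (pos (act n) y (btExt (btRev t a)) t = x) *
        F (seg (act n) y (btExt (btRev t a)) 0 t).reverse
    by_cases h : pos (act n) x (btExt a) t = y
    · subst h
      rw [bt_seg_rev', bt_pos_rev', List.reverse_reverse]
      simp [ind]
    · have h' : ¬ pos (act n) y (btExt (btRev t a)) t = x := by
        intro h1
        apply h
        have h2 := bt_pos_rev' n t y (btRev t a)
        rw [btRev_rev, h1] at h2
        exact h2
      simp [ind, h, h']
  · intro ω ω' h
    simp only [pos_congr (act n) y ω ω' t h, seg_congr (act n) y ω ω' 0 t h]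
  · intro ω ω' h
    simp only [pos_congr (act n) x ω ω' t h, seg_congr (act n) x ω ω' 0 t h]

/-! ### integrals of functions of finitely many choices -/

theorem bt_bdd {t : ℕ} (G : (ℕ → DD) → ℝ)
    (hG : ∀ ω ω' : ℕ → DD, (∀ i, i < t → ω i = ω' i) → G ω = G ω') :
    ∃ C, 0 ≤ C ∧ ∀ ω, |G ω| ≤ C := by
  refine ⟨∑ a : Fin t → DD, |G (btExt a)|, Finset.sum_nonneg fun _ _ => abs_nonneg _,
    fun ω => ?_⟩
  rw [hG ω (btExt (fun i : Fin t => ω i)) (fun i hi => (btExt_restrict ω i hi).symm)]
  exact Finset.single_le_sum (f := fun a : Fin t → DD => |G (btExt a)|)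
    (fun _ _ => abs_nonneg _) (Finset.mem_univ _)

theorem bt_integrable {t : ℕ} (G : (ℕ → DD) → ℝ)
    (hG : ∀ ω ω' : ℕ → DD, (∀ i, i < t → ω i = ω' i) → G ω = G ω') :
    Integrable G (mu DD) := by
  obtain ⟨C, -, hC⟩ := bt_bdd G hG
  exact Integrable.of_bound (measurable_dep t G hG).aestronglyMeasurable C
    (Filter.Eventually.of_forall fun ω => by rw [Real.norm_eq_abs]; exact hC ω)

theorem bt_hk_int (n t : ℕ) (x y : V n) :
    hk n t x y = ∫ ω, ind (pos (act n) x ω t = y) ∂(mu DD) := by
  have hm : Measurable (fun ω : ℕ → DD => ind (pos (act n) x ω t = y)) :=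
    measurable_dep t _ fun ω ω' h => by rw [pos_congr (act n) x ω ω' t h]
  have hs : MeasurableSet {ω : ℕ → DD | pos (act n) x ω t = y} := by
    have h1 : {ω : ℕ → DD | pos (act n) x ω t = y} =
        (fun ω : ℕ → DD => ind (pos (act n) x ω t = y)) ⁻¹' {1} := by
      ext ω
      simp [ind]
    rw [h1]
    exact hm (measurableSet_singleton 1)
  unfold hk pr
  rw [← integral_indicator_one hs]
  refine integral_congr_ae (Filter.Eventually.of_forall fun ω => ?_)
  by_cases h : pos (act n) x ω t = y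
  · simp [Set.indicator, ind, h]
  · simp [Set.indicator, ind, h]

theorem hk_symm (n : ℕ) [NeZero n] (t : ℕ) (x y : V n) : hk n t x y = hk n t y x := by
  have h := reversal_pt n t (fun _ => 1) x y
  simp only [mul_one] at h
  rw [bt_hk_int, bt_hk_int, h]

theorem bt_sum_ind (n : ℕ) [NeZero n] (z : V n) (f : V n → ℝ) :
    ∑ y, ind (z = y) * f y = f z := by
  rw [Finset.sum_eq_single z]
  · simp [ind]
  · intro y _ hy
    simp [ind, hy.symm]
  · intro h
    exact absurd (Finset.mem_univ z) h

theorem hk_sum (n : ℕ) [NeZero n] (t : ℕ) (x : V n) : ∑ y, hk n t x y = 1 := by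
  simp only [bt_hk_int]
  rw [← integral_finsetSum]
  · have h1 : ∀ ω : ℕ → DD, ∑ y, ind (pos (act n) x ω t = y) = 1 := by
      intro ω
      have := bt_sum_ind n (pos (act n) x ω t) (fun _ => 1)
      simpa using this
    simp only [h1]
    simp
  · intro y _
    exact bt_integrable (t := t) _ fun ω ω' h => by rw [pos_congr (act n) x ω ω' t h]

theorem bt_meas (n : ℕ) [NeZero n] (t : ℕ) (x : V n) (Φ : V n → (ℕ → DD) → ℝ)
    (hΦ : ∀ y, Measurable (Φ y)) :
    Measurable (fun p : (ℕ → DD) × (ℕ → DD) => Φ (pos (act n) x p.1 t) p.2) := by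
  have h1 : (fun p : (ℕ → DD) × (ℕ → DD) => Φ (pos (act n) x p.1 t) p.2) =
      fun p => ∑ y, ind (pos (act n) x p.1 t = y) * Φ y p.2 := by
    funext p
    rw [bt_sum_ind n (pos (act n) x p.1 t) (fun y => Φ y p.2)]
  rw [h1]
  refine Finset.measurable_sum _ fun y _ => ?_
  refine Measurable.mul ?_ ((hΦ y).comp measurable_snd)
  exact (measurable_dep (t := t) (fun ω : ℕ → DD => ind (pos (act n) x ω t = y))
    fun ω ω' h => by rw [pos_congr (act n) x ω ω' t h]).comp measurable_fst

theorem bt_markov (n : ℕ) [NeZero n] (t : ℕ) (x : V n) (G : (ℕ → DD) → ℝ)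
    (hG : ∀ ω ω' : ℕ → DD, (∀ i, i < t → ω i = ω' i) → G ω = G ω') (Φ : V n → (ℕ → DD) → ℝ)
    (hΦ : ∀ y, Measurable (Φ y)) (C : ℝ) (hC : ∀ y η, |Φ y η| ≤ C) :
    ∫ ω, G ω * Φ (pos (act n) x ω t) (sh t ω) ∂(mu DD) =
      ∫ ω, G ω * (∫ η, Φ (pos (act n) x ω t) η ∂(mu DD)) ∂(mu DD) := by
  obtain ⟨C', hC'0, hC'⟩ := bt_bdd G hG
  have h := markov_int t (fun ω η => G ω * Φ (pos (act n) x ω t) η)
    (((measurable_dep t G hG).comp measurable_fst).mul (bt_meas n t x Φ hΦ)) (C' * C)
    (fun ω η => by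
      rw [abs_mul]
      exact mul_le_mul (hC' ω) (hC _ _) (abs_nonneg _) hC'0)
    (fun ω ω' η h => by rw [hG ω ω' h, pos_congr (act n) x ω ω' t h])
  rw [h]
  refine integral_congr_ae (Filter.Eventually.of_forall fun ω => ?_)
  exact integral_const_mul _ _

theorem hk_add (n : ℕ) [NeZero n] (s t : ℕ) (x z : V n) :
    hk n (s + t) x z = ∑ y, hk n s x y * hk n t y z := by
  have h1 : hk n (s + t) x z =
      ∫ ω, 1 * ind (pos (act n) (pos (act n) x ω s) (sh s ω) t = z) ∂(mu DD) := by
    rw [bt_hk_int]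
    simp only [one_mul, pos_add]
  rw [h1, bt_markov n s x (fun _ => 1) (fun _ _ _ => rfl)
    (fun y η => ind (pos (act n) y η t = z))
    (fun y => measurable_dep t _ fun ω ω' h => by rw [pos_congr (act n) y ω ω' t h]) 1
    (fun y η => by
      by_cases h : pos (act n) y η t = z
      · simp [ind, h]
      · simp [ind, h])]
  simp only [one_mul, ← bt_hk_int]
  have h2 : ∀ ω : ℕ → DD, hk n t (pos (act n) x ω s) z =
      ∑ y, ind (pos (act n) x ω s = y) * hk n t y z := fun ω =>
    (bt_sum_ind n (pos (act n) x ω s) (fun y => hk n t y z)).symm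
  simp only [h2]
  rw [integral_finsetSum]
  · refine Finset.sum_congr rfl fun y _ => ?_
    rw [integral_mul_const, ← bt_hk_int]
  · intro y _
    exact (bt_integrable (t := s) (fun ω => ind (pos (act n) x ω s = y))
      fun ω ω' h => by rw [pos_congr (act n) x ω ω' s h]).mul_const _

/-- from a uniform point, the future after `t` is independent of the choices before `t` -/
theorem stationary_indep (n : ℕ) [NeZero n] (t : ℕ) (G : (ℕ → DD) → ℝ)
    (hG : ∀ ω ω' : ℕ → DD, (∀ i, i < t → ω i = ω' i) → G ω = G ω') (F : V n → (ℕ → DD) → ℝ)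
    (hF : ∀ x, Measurable (F x)) (C : ℝ) (hC : ∀ x ω, |F x ω| ≤ C) :
    av (fun x : V n => ∫ ω, G ω * F (pos (act n) x ω t) (sh t ω) ∂(mu DD)) =
      (∫ ω, G ω ∂(mu DD)) * av (fun x : V n => ∫ ω, F x ω ∂(mu DD)) := by
  unfold av
  rw [← mul_div_assoc]
  congr 1
  have h1 : ∀ x : V n, ∫ ω, G ω * F (pos (act n) x ω t) (sh t ω) ∂(mu DD) =
      ∫ ω, G ω * (∫ η, F (pos (act n) x ω t) η ∂(mu DD)) ∂(mu DD) := fun x =>
    bt_markov n t x G hG F hF C hC
  simp only [h1]
  rw [← integral_finsetSum]
  · rw [← integral_mul_const]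
    refine integral_congr_ae (Filter.Eventually.of_forall fun ω => ?_)
    simp only
    rw [← Finset.mul_sum]
    congr 1
    refine Fintype.sum_equiv (Equiv.addLeft (pos (act n) 0 ω t)) _ _ fun x => ?_
    have h2 := pos_translate n 0 x ω t
    rw [zero_add] at h2
    rw [h2]
    rfl
  · intro x _
    exact bt_integrable (t := t) _ fun ω ω' h => by
      rw [hG ω ω' h, pos_congr (act n) x ω ω' t h]

/-- stationarity of the uniform law -/
theorem stationary (n : ℕ) [NeZero n] (t : ℕ) (F : V n → (ℕ → DD) → ℝ)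
    (hF : ∀ x, Measurable (F x)) (C : ℝ) (hC : ∀ x ω, |F x ω| ≤ C) :
    av (fun x : V n => ∫ ω, F (pos (act n) x ω t) (sh t ω) ∂(mu DD)) =
      av (fun x : V n => ∫ ω, F x ω ∂(mu DD)) := by
  have h := stationary_indep n t (fun _ => 1) (fun _ _ _ => rfl) F hF C hC
  simpa using h

end Pool.Agent.UST
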