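import Pool.Agent.Helper54.UST.WStep

/-! The chain of the spanned sets (paper 5.1). -/

namespace Pool.Agent.UST

open MeasureTheory

private theorem spn_congr {n : ℕ} {L : List (V n)} {T T' : Tr n}
    (h : ∀ v ∈ L, pth T v (L.headD 0) = pth T' v (L.headD 0)) : spn T L = spn T' L := by
  ext y
  simp only [spn, Set.mem_setOf_eq]
  constructor
  · rintro ⟨u, hu, hy⟩
    exact ⟨u, hu, by rw [← h u hu]; exact hy⟩
  · rintro ⟨u, hu, hy⟩
    exact ⟨u, hu, by rw [h u hu]; exact hy⟩

private theorem avL_congr' {n : ℕ} [NeZero n] {F G : List (V n) → ℝ} (m : ℕ)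
    (h : ∀ L, L.length = m → F L = G L) : avL F m = avL G m :=
  le_antisymm (avL_mono n m fun L hL => (h L hL).le) (avL_mono n m fun L hL => (h L hL).ge)

/-- one step of the chain -/
private theorem chain_one (n : ℕ) [NeZero n] (hn : 3 ≤ n) (L : List (V n)) (hL : L ≠ [])
    (G : Tr n → ℝ)
    (hG : ∀ T T' : Tr n, (∀ v ∈ L, pth T v (L.headD 0) = pth T' v (L.headD 0)) → G T = G T')
    (Φ : Set (V n) → ℝ) :
    av (fun T : Tr n => G T * av (fun v => Φ (spn T (L ++ [v])))) =
      av (fun T : Tr n => G T * kop n Φ (spn T L)) := by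
  have h1 : ∀ u : V n, av (fun T : Tr n => G T * Φ (spn T (L ++ [u]))) =
      av (fun T : Tr n => ∫ ω, G T * Φ (spn T L ∪ st (lerw (act n) u ω (spn T L))) ∂(mu DD)) := by
    intro u
    have h2 := wilson_step n hn L hL u (fun T l => G T * Φ (spn T L ∪ st l)) (by
      intro T T' h
      funext l
      rw [hG T T' h, spn_congr h])
    rw [← h2]
    congr 1
    funext T
    rw [spn_snoc T hL u]
  have e1 : (fun T : Tr n => G T * av (fun v => Φ (spn T (L ++ [v])))) =
      fun T : Tr n => av (fun v => G T * Φ (spn T (L ++ [v]))) := by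
    funext T
    rw [av_mul_left]
  have e2 : (fun T : Tr n => G T * kop n Φ (spn T L)) =
      fun T : Tr n => av (fun u : V n =>
        ∫ ω, G T * Φ (spn T L ∪ st (lerw (act n) u ω (spn T L))) ∂(mu DD)) := by
    funext T
    unfold kop
    rw [← av_mul_left]
    congr 1
    funext u
    rw [integral_const_mul]
  rw [e1, e2, av_comm, av_comm (fun (T : Tr n) (u : V n) =>
    ∫ ω, G T * Φ (spn T L ∪ st (lerw (act n) u ω (spn T L))) ∂(mu DD))]
  congr 1
  funext u
  exact h1 u

theorem chain_link (n : ℕ) [NeZero n] (hn : 3 ≤ n) (L : List (V n)) (hL : L ≠ [])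
    (G : Tr n → ℝ)
    (hG : ∀ T T' : Tr n, (∀ v ∈ L, pth T v (L.headD 0) = pth T' v (L.headD 0)) → G T = G T')
    (Φ : Set (V n) → ℝ) (m : ℕ) :
    av (fun T : Tr n => G T * avL (fun L' => Φ (spn T (L ++ L'))) m) =
      av (fun T : Tr n => G T * ((kop n)^[m] Φ) (spn T L)) := by
  induction m generalizing Φ with
  | zero =>
    congr 1
    funext T
    simp only [avL, List.append_nil, Function.iterate_zero, id_eq]
  | succ m ih =>
    rw [Function.iterate_succ_apply, ← ih (kop n Φ)]
    have e1 : (fun T : Tr n => G T * avL (fun L' => Φ (spn T (L ++ L'))) (m + 1)) =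
        fun T : Tr n => avL (fun L' => G T * av (fun v => Φ (spn T (L ++ L' ++ [v])))) m := by
      funext T
      rw [avL_succ, ← avL_mul_left]
      simp only [List.append_assoc]
    have e2 : (fun T : Tr n => G T * avL (fun L' => kop n Φ (spn T (L ++ L'))) m) =
        fun T : Tr n => avL (fun L' => G T * kop n Φ (spn T (L ++ L'))) m := by
      funext T
      rw [← avL_mul_left]
    rw [e1, e2, ← avL_av, ← avL_av]
    congr 1
    funext L'
    have hh : (L ++ L').headD 0 = L.headD 0 := by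
      cases L with
      | nil => exact absurd rfl hL
      | cons a l => rfl
    refine chain_one n hn (L ++ L') (by simp [hL]) G ?_ Φ
    intro T T' h
    refine hG T T' fun v hv => ?_
    have := h v (List.mem_append_left _ hv)
    rwa [hh] at this

/-- a function of the spanned set and of the set spanned by the first points -/
theorem chain_law (n : ℕ) [NeZero n] (hn : 3 ≤ n) (a m : ℕ) (ha : 1 ≤ a)
    (G Φ : Set (V n) → ℝ) :
    av (fun T : Tr n => avL (fun L => G (spn T (L.take a)) * Φ (spn T L)) (a + m)) =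
      av (fun T : Tr n => avL (fun L => G (spn T L) * ((kop n)^[m] Φ) (spn T L)) a) := by
  have e1 : (fun T : Tr n => avL (fun L => G (spn T (L.take a)) * Φ (spn T L)) (a + m)) =
      fun T : Tr n => avL (fun L => G (spn T L) * avL (fun L' => Φ (spn T (L ++ L'))) m) a := by
    funext T
    rw [avL_append]
    refine avL_congr' a fun L hLa => ?_
    rw [← avL_mul_left]
    congr 1
    funext L'
    rw [← hLa, List.take_left]
  rw [e1, ← avL_av, ← avL_av]
  refine avL_congr' a fun L hLa => ?_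
  have hL : L ≠ [] := by
    rintro rfl
    simp at hLa
    omega
  exact chain_link n hn L hL (fun T => G (spn T L))
    (fun T T' h => by rw [spn_congr h]) Φ m

private theorem kop_int (n : ℕ) [NeZero n] (Φ : Set (V n) → ℝ) (S : Set (V n)) (u : V n) :
    Integrable (fun ω => Φ (S ∪ st (lerw (act n) u ω S))) (mu DD) := by
  have hm : Measurable (fun ω => Φ (S ∪ st (lerw (act n) u ω S))) :=
    measurable_tau (act n) S u (fun t ω => Φ (S ∪ st (le (seg (act n) u ω 0 t))))
      (fun t ω ω' h => by rw [seg_congr (act n) u ω ω' 0 t h])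
  obtain ⟨C, hC⟩ : ∃ C : ℝ, ∀ S : Set (V n), |Φ S| ≤ C := by
    obtain ⟨C, hC⟩ := (Set.finite_range (fun S : Set (V n) => |Φ S|)).bddAbove
    exact ⟨C, fun S => hC ⟨S, rfl⟩⟩
  exact Integrable.of_bound hm.aestronglyMeasurable C (Filter.Eventually.of_forall fun ω => hC _)

private theorem kop_mono' (n : ℕ) [NeZero n] {Φ Φ' : Set (V n) → ℝ} (S : Set (V n))
    (h : ∀ (u : V n) (ω : ℕ → DD),
      Φ (S ∪ st (lerw (act n) u ω S)) ≤ Φ' (S ∪ st (lerw (act n) u ω S))) :
    kop n Φ S ≤ kop n Φ' S := by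
  unfold kop
  exact av_mono fun u => integral_mono (kop_int n Φ S u) (kop_int n Φ' S u) (h u)

theorem kop_mono (n : ℕ) [NeZero n] {Φ Φ' : Set (V n) → ℝ} (h : ∀ S, S.Nonempty → Φ S ≤ Φ' S)
    (S : Set (V n)) : kop n Φ S ≤ kop n Φ' S := by
  refine kop_mono' n S fun u ω => h _ ?_
  refine Set.Nonempty.inr ⟨u, ?_⟩
  have h1 : seg (act n) u ω 0 (tau (act n) u ω S) =
      u :: seg (act n) u ω 1 (tau (act n) u ω S) := by
    rw [seg_append (act n) u ω 0 0 _ (by omega) (by omega)]
    simp [seg, pos]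
  have h2 : (lerw (act n) u ω S).head? = some u := by
    unfold lerw
    rw [h1]
    exact le_head _
  exact List.mem_of_mem_head? h2

theorem kop_const (n : ℕ) [NeZero n] (c : ℝ) (S : Set (V n)) : kop n (fun _ => c) S = c := by
  unfold kop
  simp only [integral_const, probReal_univ, smul_eq_mul, one_mul]
  exact av_const c

theorem kop_add (n : ℕ) [NeZero n] (Φ Φ' : Set (V n) → ℝ) (S : Set (V n)) :
    kop n (fun S => Φ S + Φ' S) S = kop n Φ S + kop n Φ' S := by
  unfold kop
  rw [← av_add]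
  congr 1
  funext u
  exact integral_add (kop_int n Φ S u) (kop_int n Φ' S u)

theorem kop_mul_left (n : ℕ) [NeZero n] (c : ℝ) (Φ : Set (V n) → ℝ) (S : Set (V n)) :
    kop n (fun S => c * Φ S) S = c * kop n Φ S := by
  unfold kop
  rw [← av_mul_left]
  congr 1
  funext u
  exact integral_const_mul _ _

/-- bounds along the chain: the sets only grow -/
theorem kop_le_of_le (n : ℕ) [NeZero n] (P : Set (V n) → Prop)
    (hP : ∀ S S', S ⊆ S' → P S → P S') {Φ Φ' : Set (V n) → ℝ}
    (h : ∀ S, P S → Φ S ≤ Φ' S) (S : Set (V n)) (hS : P S) : kop n Φ S ≤ kop n Φ' S :=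
  kop_mono' n S fun _ _ => h _ (hP S _ Set.subset_union_left hS)

/-- iteration of a contraction on an increasing class of sets -/
theorem kop_iter_le (n : ℕ) [NeZero n] (P : Set (V n) → Prop)
    (hP : ∀ S S', S ⊆ S' → P S → P S') {Φ : Set (V n) → ℝ} {ρ : ℝ} (hρ : 0 ≤ ρ)
    (h : ∀ S, P S → kop n Φ S ≤ ρ * Φ S) (m : ℕ) (S : Set (V n)) (hS : P S) :
    ((kop n)^[m] Φ) S ≤ ρ ^ m * Φ S := by
  induction m generalizing S with
  | zero => simp
  | succ m ih =>
    rw [Function.iterate_succ_apply']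
    calc kop n ((kop n)^[m] Φ) S ≤ kop n (fun S => ρ ^ m * Φ S) S :=
          kop_le_of_le n P hP (fun S hS => ih S hS) S hS
      _ = ρ ^ m * kop n Φ S := kop_mul_left n _ Φ S
      _ ≤ ρ ^ m * (ρ * Φ S) := mul_le_mul_of_nonneg_left (h S hS) (pow_nonneg hρ m)
      _ = ρ ^ (m + 1) * Φ S := by ring

end Pool.Agent.UST
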