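import Pool.Agent.Helper54.UST.Mix
import Pool.Agent.Helper54.UST.Av

/-! Mean hitting times and exponential decay of the survival probability. -/

namespace Pool.Agent.UST

open MeasureTheory

/-! ### auxiliary facts: independence of the past and the future -/

section tauaux
variable {D : Type} [Fintype D] [Nonempty D] [MeasurableSpace D] [MeasurableSingletonClass D]

/-- a function of the first `t` choices is bounded -/
theorem tauaux_bdd (t : ℕ) (g : (ℕ → D) → ℝ)
    (hg : ∀ ω ω' : ℕ → D, (∀ i, i < t → ω i = ω' i) → g ω = g ω') :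
    ∃ C : ℝ, ∀ ω, |g ω| ≤ C := by
  classical
  obtain ⟨d0⟩ := (inferInstance : Nonempty D)
  set ext : (Fin t → D) → ℕ → D := fun a i => if h : i < t then a ⟨i, h⟩ else d0 with hext
  refine ⟨∑ a : Fin t → D, |g (ext a)|, fun ω => ?_⟩
  have h1 : g ω = g (ext fun i => ω i) := by
    refine hg _ _ fun i hi => ?_
    simp [hext, hi]
  rw [h1]
  exact Finset.single_le_sum (f := fun a : Fin t → D => |g (ext a)|) (fun a _ => abs_nonneg _)
    (Finset.mem_univ (fun i : Fin t => ω i))

theorem tauaux_int (t : ℕ) (g : (ℕ → D) → ℝ)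
    (hg : ∀ ω ω' : ℕ → D, (∀ i, i < t → ω i = ω' i) → g ω = g ω') :
    Integrable g (mu D) := by
  obtain ⟨C, hC⟩ := tauaux_bdd t g hg
  exact Integrable.of_bound (measurable_dep t g hg).aestronglyMeasurable C
    (Filter.Eventually.of_forall fun ω => by rw [Real.norm_eq_abs]; exact hC ω)

theorem tauaux_indep (t : ℕ) (g h : (ℕ → D) → ℝ)
    (hg : ∀ ω ω' : ℕ → D, (∀ i, i < t → ω i = ω' i) → g ω = g ω') (hg0 : ∀ ω, 0 ≤ g ω)
    (hh : Measurable h) (hh0 : ∀ ω, 0 ≤ h ω) (hint : Integrable h (mu D)) :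
    ∫ ω, g ω * h (sh t ω) ∂(mu D) = (∫ ω, g ω ∂(mu D)) * ∫ ω, h ω ∂(mu D) ∧
      Integrable (fun ω => g ω * h (sh t ω)) (mu D) := by
  have hgm : Measurable g := measurable_dep t g hg
  have hgi := tauaux_int t g hg
  have hm : Measurable (fun ω => g ω * h (sh t ω)) := hgm.mul (hh.comp (measurable_sh t))
  have key : ∫⁻ ω, ENNReal.ofReal (g ω * h (sh t ω)) ∂(mu D) =
      (∫⁻ ω, ENNReal.ofReal (g ω) ∂(mu D)) * ∫⁻ ω, ENNReal.ofReal (h ω) ∂(mu D) := by
    have h1 := markov_lint (D := D) t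
      (fun ω η => ENNReal.ofReal (g ω) * ENNReal.ofReal (h η))
      ((hgm.ennreal_ofReal.comp measurable_fst).mul (hh.ennreal_ofReal.comp measurable_snd))
      (fun ω ω' η hω => by rw [hg ω ω' hω])
    have h2 : ∫⁻ ω, ENNReal.ofReal (g ω * h (sh t ω)) ∂(mu D)
        = ∫⁻ ω, ENNReal.ofReal (g ω) * ENNReal.ofReal (h (sh t ω)) ∂(mu D) :=
      lintegral_congr fun ω => ENNReal.ofReal_mul (hg0 ω)
    rw [h2, h1]
    have h3 : ∀ ω, ∫⁻ η, ENNReal.ofReal (g ω) * ENNReal.ofReal (h η) ∂(mu D)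
        = ENNReal.ofReal (g ω) * ∫⁻ η, ENNReal.ofReal (h η) ∂(mu D) := fun ω =>
      lintegral_const_mul _ hh.ennreal_ofReal
    simp_rw [h3]
    exact lintegral_mul_const _ hgm.ennreal_ofReal
  have e1 : ∫⁻ ω, ENNReal.ofReal (g ω) ∂(mu D) = ENNReal.ofReal (∫ ω, g ω ∂(mu D)) :=
    (ofReal_integral_eq_lintegral_ofReal hgi (Filter.Eventually.of_forall hg0)).symm
  have e2 : ∫⁻ ω, ENNReal.ofReal (h ω) ∂(mu D) = ENNReal.ofReal (∫ ω, h ω ∂(mu D)) :=
    (ofReal_integral_eq_lintegral_ofReal hint (Filter.Eventually.of_forall hh0)).symm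
  have hnn : ∀ ω, 0 ≤ g ω * h (sh t ω) := fun ω => mul_nonneg (hg0 ω) (hh0 _)
  have hI : Integrable (fun ω => g ω * h (sh t ω)) (mu D) := by
    refine ⟨hm.aestronglyMeasurable, ?_⟩
    rw [hasFiniteIntegral_iff_ofReal (Filter.Eventually.of_forall hnn), key, e1, e2]
    exact ENNReal.mul_lt_top ENNReal.ofReal_lt_top ENNReal.ofReal_lt_top
  refine ⟨?_, hI⟩
  have e3 := ofReal_integral_eq_lintegral_ofReal hI (Filter.Eventually.of_forall hnn)
  rw [key, e1, e2, ← ENNReal.ofReal_mul (integral_nonneg hg0)] at e3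
  have p1 : 0 ≤ ∫ ω, g ω * h (sh t ω) ∂(mu D) := integral_nonneg hnn
  have p2 : 0 ≤ (∫ ω, g ω ∂(mu D)) * ∫ ω, h ω ∂(mu D) :=
    mul_nonneg (integral_nonneg hg0) (integral_nonneg hh0)
  exact (ENNReal.ofReal_eq_ofReal_iff p1 p2).mp e3

/-- Markov property at a fixed time for nonnegative integrable functions -/
theorem tauaux_markov {W : Type} [Fintype W] (act : D → W → W) (t : ℕ) (x : W)
    (g : (ℕ → D) → ℝ) (f : W → (ℕ → D) → ℝ)
    (hg : ∀ ω ω' : ℕ → D, (∀ i, i < t → ω i = ω' i) → g ω = g ω') (hg0 : ∀ ω, 0 ≤ g ω)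
    (hf : ∀ y, Measurable (f y)) (hf0 : ∀ y ω, 0 ≤ f y ω) (hfi : ∀ y, Integrable (f y) (mu D)) :
    ∫ ω, g ω * f (pos act x ω t) (sh t ω) ∂(mu D) =
      ∫ ω, g ω * ∫ η, f (pos act x ω t) η ∂(mu D) ∂(mu D) ∧
    Integrable (fun ω => g ω * f (pos act x ω t) (sh t ω)) (mu D) := by
  classical
  set G : W → (ℕ → D) → ℝ := fun y ω => g ω * (if pos act x ω t = y then 1 else 0) with hG
  have hGd : ∀ y, ∀ ω ω' : ℕ → D, (∀ i, i < t → ω i = ω' i) → G y ω = G y ω' := by
    intro y ω ω' h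
    simp only [hG]
    rw [hg ω ω' h, pos_congr act x ω ω' t h]
  have hG0 : ∀ y ω, 0 ≤ G y ω := by
    intro y ω
    simp only [hG]
    split_ifs
    · simpa using hg0 ω
    · simp
  have e1 : ∀ ω, g ω * f (pos act x ω t) (sh t ω) = ∑ y, G y ω * f y (sh t ω) := by
    intro ω
    rw [Finset.sum_eq_single (pos act x ω t)]
    · simp [hG]
    · intro y _ hy
      simp [hG, Ne.symm hy]
    · intro h; exact absurd (Finset.mem_univ _) h
  have e2 : ∀ ω, g ω * ∫ η, f (pos act x ω t) η ∂(mu D) = ∑ y, G y ω * ∫ η, f y η ∂(mu D) := by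
    intro ω
    rw [Finset.sum_eq_single (pos act x ω t)]
    · simp [hG]
    · intro y _ hy
      simp [hG, Ne.symm hy]
    · intro h; exact absurd (Finset.mem_univ _) h
  have hk := fun y => tauaux_indep t (G y) (f y) (hGd y) (hG0 y) (hf y) (hf0 y) (hfi y)
  constructor
  · simp_rw [e1, e2]
    rw [integral_finsetSum _ fun y _ => (hk y).2, integral_finsetSum _ fun y _ => ?_]
    · refine Finset.sum_congr rfl fun y _ => ?_
      rw [(hk y).1, integral_mul_const]
    · exact (tauaux_int t (G y) (hGd y)).mul_const _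
  · simp_rw [e1]
    exact integrable_finsetSum _ fun y _ => (hk y).2

end tauaux

section tausec
variable (n : ℕ) [NeZero n] (A : Set (V n)) (hA : A.Nonempty)
include hA

theorem tauaux_ae (x : V n) : ∀ᵐ ω ∂(mu DD), ∃ t, pos (act n) x ω t ∈ A :=
  ae_hit (act n) A (act_reach n A hA) x

theorem tauaux_tau_int (x : V n) : Integrable (fun ω => (tau (act n) x ω A : ℝ)) (mu DD) := by
  have h := tau_integrable (act n) A (act_reach n A hA) x 1
  simpa using h

omit hA in
theorem tauaux_tau_meas (x : V n) : Measurable (fun ω => (tau (act n) x ω A : ℝ)) :=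
  measurable_tau (act n) A x (fun k _ => (k : ℝ)) fun _ _ _ _ => rfl

omit hA in
theorem tauaux_ind_meas (x : V n) (t : ℕ) :
    Measurable (fun ω => ind (t < tau (act n) x ω A)) :=
  measurable_tau (act n) A x (fun k _ => ind (t < k)) fun _ _ _ _ => rfl

omit hA in
theorem tauaux_ind_int (x : V n) (t : ℕ) :
    Integrable (fun ω => ind (t < tau (act n) x ω A)) (mu DD) :=
  Integrable.of_bound (tauaux_ind_meas n A x t).aestronglyMeasurable 1
    (Filter.Eventually.of_forall fun ω => by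
      rw [Real.norm_eq_abs, abs_of_nonneg (ind_nonneg _)]; exact ind_le_one _)

omit hA in
theorem tauaux_ind_pr (x : V n) (t : ℕ) :
    ∫ ω, ind (t < tau (act n) x ω A) ∂(mu DD) = pr {ω | t < tau (act n) x ω A} := by
  refine integral_ind (mu DD) (fun ω => t < tau (act n) x ω A) ?_
  have h := measurable_tau (act n) A x (fun k (_ : ℕ → DD) => k) fun _ _ _ _ => rfl
  exact h measurableSet_Ioi

omit hA in
theorem Et_nonneg' (x : V n) : 0 ≤ Et n A x := integral_nonneg fun _ => Nat.cast_nonneg _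

omit hA in
/-- dependence of the event not to hit -/
theorem tauaux_hit_dep (x : V n) (t : ℕ) (ω ω' : ℕ → DD) (h : ∀ i, i < t → ω i = ω' i) :
    ind (¬ hit (act n) x ω 0 t A) = ind (¬ hit (act n) x ω' 0 t A) := by
  have : hit (act n) x ω 0 t A ↔ hit (act n) x ω' 0 t A := by
    unfold hit
    refine exists_congr fun i => ?_
    refine and_congr_right fun _ => and_congr_right fun hi => ?_
    rw [pos_congr (act n) x ω ω' i fun j hj => h j (by omega)]
  rw [this]

theorem tauaux_lt_iff (x : V n) (t : ℕ) :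
    ∀ᵐ ω ∂(mu DD), ind (t < tau (act n) x ω A) = ind (¬ hit (act n) x ω 0 t A) := by
  filter_upwards [tauaux_ae n A hA x] with ω hω
  rw [lt_tau_iff (act n) x ω A hω t]

theorem Et_le_MA (x : V n) : Et n A x ≤ t0 n + 2 * MA n A := by
  have hm := tauaux_markov (act n) (t0 n) x (fun _ => 1)
    (fun y η => (tau (act n) y η A : ℝ)) (fun _ _ _ => rfl) (fun _ => zero_le_one)
    (fun y => tauaux_tau_meas n A y) (fun _ _ => Nat.cast_nonneg _)
    (fun y => tauaux_tau_int n A hA y)
  simp only [one_mul] at hm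
  have h1 : Et n A x ≤ ∫ ω, ((t0 n : ℝ) +
      (tau (act n) (pos (act n) x ω (t0 n)) (sh (t0 n) ω) A : ℝ)) ∂(mu DD) := by
    unfold Et
    refine integral_mono_ae (tauaux_tau_int n A hA x) ((integrable_const _).add hm.2) ?_
    filter_upwards [tauaux_ae n A hA x] with ω hω
    rcases le_total (t0 n) (tau (act n) x ω A) with h | h
    · have := tau_shift (act n) x ω A hω (t0 n) h
      have h2 : (tau (act n) x ω A : ℝ) = (t0 n : ℝ)
          + (tau (act n) (pos (act n) x ω (t0 n)) (sh (t0 n) ω) A : ℝ) := by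
        exact_mod_cast this
      exact h2.le
    · have h2 : (tau (act n) x ω A : ℝ) ≤ (t0 n : ℝ) := by exact_mod_cast h
      have h3 : (0:ℝ) ≤ (tau (act n) (pos (act n) x ω (t0 n)) (sh (t0 n) ω) A : ℝ) :=
        Nat.cast_nonneg _
      linarith
  rw [integral_add (integrable_const _) hm.2, hm.1, integral_const] at h1
  simp only [probReal_univ, one_smul] at h1
  -- the law of the position at time `t0`
  have h2 : ∫ ω, ∫ η, (tau (act n) (pos (act n) x ω (t0 n)) η A : ℝ) ∂(mu DD) ∂(mu DD)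
      = ∑ y, hk n (t0 n) x y * Et n A y := by
    have e1 : ∀ ω, ∫ η, (tau (act n) (pos (act n) x ω (t0 n)) η A : ℝ) ∂(mu DD)
        = ∑ y, ind (pos (act n) x ω (t0 n) = y) * Et n A y := by
      intro ω
      rw [Finset.sum_eq_single (pos (act n) x ω (t0 n))]
      · rw [ind_true rfl, one_mul]; rfl
      · intro y _ hy
        rw [ind_false (Ne.symm hy), zero_mul]
      · intro h; exact absurd (Finset.mem_univ _) h
    simp_rw [e1]
    have hd : ∀ y : V n, ∀ ω ω' : ℕ → DD, (∀ i, i < t0 n → ω i = ω' i) →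
        ind (pos (act n) x ω (t0 n) = y) = ind (pos (act n) x ω' (t0 n) = y) := by
      intro y ω ω' h
      rw [pos_congr (act n) x ω ω' (t0 n) h]
    rw [integral_finsetSum _ fun y _ =>
      (tauaux_int (t0 n) (fun ω => ind (pos (act n) x ω (t0 n) = y)) (hd y)).mul_const _]
    refine Finset.sum_congr rfl fun y _ => ?_
    rw [integral_mul_const]
    congr 1
    unfold hk pr
    refine integral_ind (mu DD) (fun ω => pos (act n) x ω (t0 n) = y) ?_
    have hm2 := measurable_dep (t0 n) (fun ω => ind (pos (act n) x ω (t0 n) = y)) (hd y)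
    have hset : {ω | pos (act n) x ω (t0 n) = y}
        = (fun ω => ind (pos (act n) x ω (t0 n) = y)) ⁻¹' {1} := by
      ext ω
      simp only [Set.mem_ofPred_eq, Set.mem_preimage, Set.mem_singleton_iff]
      constructor
      · intro h; exact ind_true h
      · intro h
        by_contra hne
        rw [ind_false hne] at h
        exact zero_ne_one h
    rw [hset]
    exact hm2 (measurableSet_singleton _)
  rw [h2] at h1
  have hN : (Fintype.card (V n) : ℝ) = NN n := by
    simp [NN, V, ZMod.card]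
  have h3 : ∑ y, hk n (t0 n) x y * Et n A y ≤ 2 * MA n A := by
    calc ∑ y, hk n (t0 n) x y * Et n A y ≤ ∑ y, (2 / NN n) * Et n A y :=
          Finset.sum_le_sum fun y _ =>
            mul_le_mul_of_nonneg_right (heat_mix n (t0 n) le_rfl x y).2 (Et_nonneg' n A y)
      _ = 2 * MA n A := by
          unfold MA av
          rw [hN, ← Finset.mul_sum]; ring
  linarith

theorem Et_le_pm (η : ℝ) (hη : 0 < η) (m : ℕ) (h : η ≤ pm n m A) (x : V n) :
    Et n A x ≤ 2 * ((m : ℝ) + t0 n + 1) / η := by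
  obtain ⟨x0, -, hx0⟩ := Finset.exists_max_image (Finset.univ : Finset (V n)) (fun y => Et n A y)
    ⟨x, Finset.mem_univ _⟩
  have hx0' : ∀ y, Et n A y ≤ Et n A x0 := fun y => hx0 y (Finset.mem_univ y)
  refine (hx0' x).trans ?_
  set M := t0 n + m with hM
  have hm := tauaux_markov (act n) M x0 (fun ω => ind (¬ hit (act n) x0 ω 0 M A))
    (fun y η => (tau (act n) y η A : ℝ)) (fun ω ω' hω => tauaux_hit_dep n A x0 M ω ω' hω)
    (fun _ => ind_nonneg _) (fun y => tauaux_tau_meas n A y) (fun _ _ => Nat.cast_nonneg _)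
    (fun y => tauaux_tau_int n A hA y)
  have hgi := tauaux_int M (fun ω => ind (¬ hit (act n) x0 ω 0 M A))
    (fun ω ω' hω => tauaux_hit_dep n A x0 M ω ω' hω)
  have h1 : Et n A x0 ≤ ∫ ω, ((M : ℝ) + ind (¬ hit (act n) x0 ω 0 M A) *
      (tau (act n) (pos (act n) x0 ω M) (sh M ω) A : ℝ)) ∂(mu DD) := by
    unfold Et
    refine integral_mono_ae (tauaux_tau_int n A hA x0) ((integrable_const _).add hm.2) ?_
    filter_upwards [tauaux_ae n A hA x0] with ω hω
    rcases lt_or_ge M (tau (act n) x0 ω A) with h | h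
    · have h4 := tau_shift (act n) x0 ω A hω M h.le
      rw [lt_tau_iff (act n) x0 ω A hω] at h
      rw [ind_true h, one_mul]
      have h2 : (tau (act n) x0 ω A : ℝ) = (M : ℝ)
          + (tau (act n) (pos (act n) x0 ω M) (sh M ω) A : ℝ) := by
        exact_mod_cast h4
      exact h2.le
    · have h2 : (tau (act n) x0 ω A : ℝ) ≤ (M : ℝ) := by exact_mod_cast h
      have h3 : (0:ℝ) ≤ ind (¬ hit (act n) x0 ω 0 M A) *
          (tau (act n) (pos (act n) x0 ω M) (sh M ω) A : ℝ) :=
        mul_nonneg (ind_nonneg _) (Nat.cast_nonneg _)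
      linarith
  rw [integral_add (integrable_const _) hm.2, hm.1, integral_const] at h1
  simp only [probReal_univ, one_smul] at h1
  have h2 : ∫ ω, ind (¬ hit (act n) x0 ω 0 M A) *
      ∫ η, (tau (act n) (pos (act n) x0 ω M) η A : ℝ) ∂(mu DD) ∂(mu DD)
      ≤ (1 - η / 2) * Et n A x0 := by
    have e1 : ∫ ω, ind (¬ hit (act n) x0 ω 0 M A) *
        ∫ η, (tau (act n) (pos (act n) x0 ω M) η A : ℝ) ∂(mu DD) ∂(mu DD)
        ≤ ∫ ω, ind (¬ hit (act n) x0 ω 0 M A) * Et n A x0 ∂(mu DD) := by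
      refine integral_mono_of_nonneg (Filter.Eventually.of_forall fun ω =>
        mul_nonneg (ind_nonneg _) (Et_nonneg' n A _)) (hgi.mul_const _)
        (Filter.Eventually.of_forall fun ω => mul_le_mul_of_nonneg_left (hx0' _) (ind_nonneg _))
    refine e1.trans ?_
    rw [integral_mul_const]
    refine mul_le_mul_of_nonneg_right ?_ (Et_nonneg' n A _)
    have hdep : ∀ ω ω' : ℕ → DD, (∀ i, i < M → ω i = ω' i) →
        ind (hit (act n) x0 ω (t0 n) M A) = ind (hit (act n) x0 ω' (t0 n) M A) := by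
      intro ω ω' hω
      have : hit (act n) x0 ω (t0 n) M A ↔ hit (act n) x0 ω' (t0 n) M A := by
        unfold hit
        refine exists_congr fun i => ?_
        refine and_congr_right fun _ => and_congr_right fun hi => ?_
        rw [pos_congr (act n) x0 ω ω' i fun j hj => hω j (by omega)]
      rw [this]
    have hi2 := tauaux_int M (fun ω => ind (hit (act n) x0 ω (t0 n) M A)) hdep
    have e2 : ∫ ω, ind (¬ hit (act n) x0 ω 0 M A) ∂(mu DD)
        ≤ ∫ ω, (1 - ind (hit (act n) x0 ω (t0 n) M A)) ∂(mu DD) := by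
      refine integral_mono hgi ((integrable_const _).sub hi2) fun ω => ?_
      simp only
      rw [← ind_not]
      refine ind_mono fun h5 h6 => h5 ?_
      obtain ⟨i, hi1, hi2, hi3⟩ := h6
      exact ⟨i, Nat.zero_le _, hi2, hi3⟩
    refine e2.trans ?_
    rw [integral_sub (integrable_const _) hi2, integral_const]
    simp only [probReal_univ, one_smul]
    have e3 : ∫ ω, ind (hit (act n) x0 ω (t0 n) M A) ∂(mu DD)
        = pr {ω | hit (act n) x0 ω (t0 n) M A} := by
      refine integral_ind (mu DD) (fun ω => hit (act n) x0 ω (t0 n) M A) ?_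
      have hm2 := measurable_dep M (fun ω => ind (hit (act n) x0 ω (t0 n) M A)) hdep
      have hset : {ω | hit (act n) x0 ω (t0 n) M A}
          = (fun ω => ind (hit (act n) x0 ω (t0 n) M A)) ⁻¹' {1} := by
        ext ω
        simp only [Set.mem_ofPred_eq, Set.mem_preimage, Set.mem_singleton_iff]
        constructor
        · intro h; exact ind_true h
        · intro h
          by_contra hne
          rw [ind_false hne] at h
          exact zero_ne_one h
      rw [hset]
      exact hm2 (measurableSet_singleton _)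
    rw [e3]
    have e4 := hit_ge n x0 m A
    rw [← hM] at e4
    linarith
  have h3 : Et n A x0 ≤ M + (1 - η / 2) * Et n A x0 := h1.trans (by linarith)
  rw [le_div_iff₀ hη]
  have h4 : (M : ℝ) = (t0 n : ℝ) + m := by rw [hM]; push_cast; ring
  nlinarith

theorem MA_nonneg : 0 ≤ MA n A := av_nonneg fun x => Et_nonneg' n A x

theorem pm_le_MA (s : ℕ) (h : 0 < MA n A) :
    pm n s A ≤ 2 * ((s : ℝ) + t0 n + 1) / MA n A := by
  rcases (pm_nonneg n s A).lt_or_eq with h0 | h0
  · have h1 : MA n A ≤ 2 * ((s : ℝ) + t0 n + 1) / pm n s A := by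
      unfold MA
      refine av_le ?_ fun x => Et_le_pm n A hA (pm n s A) h0 s le_rfl x
      positivity
    rw [le_div_iff₀ h0] at h1
    rw [le_div_iff₀ h]
    linarith
  · rw [← h0]
    positivity

theorem MA_mono {A' : Set (V n)} (h : A ⊆ A') : MA n A' ≤ MA n A := by
  unfold MA
  refine av_mono fun x => ?_
  unfold Et
  refine integral_mono_ae (tauaux_tau_int n A' (hA.mono h) x) (tauaux_tau_int n A hA x) ?_
  filter_upwards [tauaux_ae n A hA x] with ω hω
  have h1 := (tau_spec (act n) x ω A hω).1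
  have h2 : tau (act n) x ω A' ≤ tau (act n) x ω A := Nat.sInf_le (h h1)
  exact_mod_cast h2

theorem MA_le_of_Et (H : ℝ) (h : ∀ x, Et n A x ≤ H) : MA n A ≤ H :=
  av_le ((Et_nonneg' n A 0).trans (h 0)) h

theorem tauaux_pow (H : ℝ) (hH : 1 ≤ H) (h : ∀ x, Et n A x ≤ H) (j : ℕ) (x : V n) :
    pr {ω | j * ⌈2 * H⌉₊ < tau (act n) x ω A} ≤ (1 / 2 : ℝ) ^ j := by
  induction j generalizing x with
  | zero =>
    simp only [pow_zero]
    exact measureReal_le_one
  | succ j ih =>
    set L := ⌈2 * H⌉₊ with hL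
    have hL1 : 2 * H ≤ L := Nat.le_ceil _
    have hL0 : (0:ℝ) < L := by linarith
    have hm := tauaux_markov (act n) L x (fun ω => ind (¬ hit (act n) x ω 0 L A))
      (fun y η => ind (j * L < tau (act n) y η A))
      (fun ω ω' hω => tauaux_hit_dep n A x L ω ω' hω)
      (fun _ => ind_nonneg _) (fun y => tauaux_ind_meas n A y _) (fun _ _ => ind_nonneg _)
      (fun y => tauaux_ind_int n A y _)
    have hgi := tauaux_int L (fun ω => ind (¬ hit (act n) x ω 0 L A))
      (fun ω ω' hω => tauaux_hit_dep n A x L ω ω' hω)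
    rw [← tauaux_ind_pr n A x]
    have e1 : ∫ ω, ind ((j + 1) * L < tau (act n) x ω A) ∂(mu DD)
        = ∫ ω, ind (¬ hit (act n) x ω 0 L A) *
          ind (j * L < tau (act n) (pos (act n) x ω L) (sh L ω) A) ∂(mu DD) := by
      refine integral_congr_ae ?_
      filter_upwards [tauaux_ae n A hA x] with ω hω
      rw [← lt_tau_iff (act n) x ω A hω L, ← ind_and]
      congr 1
      refine propext ⟨fun h1 => ?_, fun h1 => ?_⟩
      · have h2 : (j + 1) * L = j * L + L := by ring
        have h3 : L < tau (act n) x ω A := by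
          have := Nat.zero_le (j * L); omega
        have h4 := tau_shift (act n) x ω A hω L h3.le
        exact ⟨h3, by omega⟩
      · have h2 : (j + 1) * L = j * L + L := by ring
        have h4 := tau_shift (act n) x ω A hω L h1.1.le
        have h5 := h1.2
        omega
    rw [e1, hm.1]
    have e2 : ∫ ω, ind (¬ hit (act n) x ω 0 L A) *
        ∫ η, ind (j * L < tau (act n) (pos (act n) x ω L) η A) ∂(mu DD) ∂(mu DD)
        ≤ ∫ ω, ind (¬ hit (act n) x ω 0 L A) * (1 / 2 : ℝ) ^ j ∂(mu DD) := by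
      refine integral_mono_of_nonneg (Filter.Eventually.of_forall fun ω =>
        mul_nonneg (ind_nonneg _) (integral_nonneg fun _ => ind_nonneg _)) (hgi.mul_const _)
        (Filter.Eventually.of_forall fun ω => mul_le_mul_of_nonneg_left ?_ (ind_nonneg _))
      rw [tauaux_ind_pr n A]
      exact ih _
    refine e2.trans ?_
    rw [integral_mul_const, pow_succ, mul_comm]
    refine mul_le_mul_of_nonneg_left ?_ (by positivity)
    -- Markov's inequality
    have e3 : (∫ ω, ind (¬ hit (act n) x ω 0 L A) ∂(mu DD)) * (L : ℝ) ≤ Et n A x := by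
      rw [← integral_mul_const]
      unfold Et
      refine integral_mono_ae (hgi.mul_const _) (tauaux_tau_int n A hA x) ?_
      filter_upwards [tauaux_ae n A hA x] with ω hω
      rw [← lt_tau_iff (act n) x ω A hω L]
      by_cases h1 : L < tau (act n) x ω A
      · rw [ind_true h1, one_mul]
        exact_mod_cast h1.le
      · rw [ind_false h1, zero_mul]
        exact Nat.cast_nonneg _
    have e4 := h x
    rw [← not_lt]
    intro h5
    nlinarith

theorem survive_pr (H : ℝ) (hH : 1 ≤ H) (h : ∀ x, Et n A x ≤ H) (x : V n) (t : ℕ) :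
    pr {ω | t < tau (act n) x ω A} ≤ 2 * (2 : ℝ) ^ (-((t : ℝ) / (3 * H))) := by
  set L := ⌈2 * H⌉₊ with hL
  have hL1 : 2 * H ≤ L := Nat.le_ceil _
  have hL2 : (L : ℝ) < 2 * H + 1 := Nat.ceil_lt_add_one (by linarith)
  have hL0 : (0:ℝ) < L := by linarith
  have hL0' : 0 < L := by exact_mod_cast hL0
  have h1 := tauaux_pow n A hA H hH h (t / L) x
  rw [← hL] at h1
  have h2 : pr {ω | t < tau (act n) x ω A} ≤ pr {ω | t / L * L < tau (act n) x ω A} := by
    refine measureReal_mono ?_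
    intro ω hω
    simp only [Set.mem_ofPred_eq] at hω ⊢
    exact lt_of_le_of_lt (Nat.div_mul_le_self t L) hω
  refine h2.trans (h1.trans ?_)
  have h3 : (1 / 2 : ℝ) ^ (t / L) = (2:ℝ) ^ (-((t / L : ℕ) : ℝ)) := by
    rw [Real.rpow_neg (by norm_num), Real.rpow_natCast, one_div, inv_pow]
  have h4 : 2 * (2 : ℝ) ^ (-((t : ℝ) / (3 * H))) = (2:ℝ) ^ (1 - ((t : ℝ) / (3 * H))) := by
    rw [sub_eq_add_neg, Real.rpow_add (by norm_num), Real.rpow_one]
  rw [h3, h4]
  refine Real.rpow_le_rpow_of_exponent_le (by norm_num) ?_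
  have h5 : (t : ℝ) / L < ((t / L : ℕ) : ℝ) + 1 := by
    rw [div_lt_iff₀ hL0]
    have := Nat.lt_div_mul_add (a := t) (b := L) hL0'
    have h6 : (t : ℝ) < ((t / L : ℕ) : ℝ) * L + L := by exact_mod_cast this
    linarith
  have h6 : (t : ℝ) / (3 * H) ≤ (t : ℝ) / L := by
    refine div_le_div_of_nonneg_left (Nat.cast_nonneg _) hL0 ?_
    linarith
  linarith

/-- exponential decay of the survival probability, also after a first piece of path -/
theorem survive (H : ℝ) (hH : 1 ≤ H) (h : ∀ x, Et n A x ≤ H) (x : V n) (s t : ℕ)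
    (G : (ℕ → DD) → ℝ) (hG : ∀ ω, 0 ≤ G ω)
    (hdep : ∀ ω ω', (∀ i, i < s → ω i = ω' i) → G ω = G ω') :
    ∫ ω, G ω * ind (s + t < tau (act n) x ω A) ∂(mu DD) ≤
      (2 * (2 : ℝ) ^ (-((t : ℝ) / (3 * H)))) * ∫ ω, G ω * ind (s < tau (act n) x ω A) ∂(mu DD) := by
  have hdep' : ∀ ω ω' : ℕ → DD, (∀ i, i < s → ω i = ω' i) →
      G ω * ind (¬ hit (act n) x ω 0 s A) = G ω' * ind (¬ hit (act n) x ω' 0 s A) := by
    intro ω ω' hω
    rw [hdep ω ω' hω, tauaux_hit_dep n A x s ω ω' hω]
  have hnn : ∀ ω, 0 ≤ G ω * ind (¬ hit (act n) x ω 0 s A) := fun ω =>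
    mul_nonneg (hG ω) (ind_nonneg _)
  have hm := tauaux_markov (act n) s x (fun ω => G ω * ind (¬ hit (act n) x ω 0 s A))
    (fun y η => ind (t < tau (act n) y η A)) hdep' hnn
    (fun y => tauaux_ind_meas n A y _) (fun _ _ => ind_nonneg _)
    (fun y => tauaux_ind_int n A y _)
  have hgi := tauaux_int s (fun ω => G ω * ind (¬ hit (act n) x ω 0 s A)) hdep'
  have e1 : ∫ ω, G ω * ind (s + t < tau (act n) x ω A) ∂(mu DD)
      = ∫ ω, G ω * ind (¬ hit (act n) x ω 0 s A) *
        ind (t < tau (act n) (pos (act n) x ω s) (sh s ω) A) ∂(mu DD) := by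
    refine integral_congr_ae ?_
    filter_upwards [tauaux_ae n A hA x] with ω hω
    rw [← lt_tau_iff (act n) x ω A hω s, mul_assoc, ← ind_and]
    congr 2
    refine propext ⟨fun h1 => ?_, fun h1 => ?_⟩
    · have h3 : s < tau (act n) x ω A := by omega
      have h4 := tau_shift (act n) x ω A hω s h3.le
      exact ⟨h3, by omega⟩
    · have h4 := tau_shift (act n) x ω A hω s h1.1.le
      have h5 := h1.2
      omega
  have e2 : ∫ ω, G ω * ind (s < tau (act n) x ω A) ∂(mu DD)
      = ∫ ω, G ω * ind (¬ hit (act n) x ω 0 s A) ∂(mu DD) := by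
    refine integral_congr_ae ?_
    filter_upwards [tauaux_ae n A hA x] with ω hω
    rw [← lt_tau_iff (act n) x ω A hω s]
  rw [e1, e2, hm.1, mul_comm, ← integral_mul_const]
  refine integral_mono_of_nonneg (Filter.Eventually.of_forall fun ω =>
    mul_nonneg (hnn ω) (integral_nonneg fun _ => ind_nonneg _)) (hgi.mul_const _)
    (Filter.Eventually.of_forall fun ω => mul_le_mul_of_nonneg_left ?_ (hnn ω))
  rw [tauaux_ind_pr n A]
  exact survive_pr n A hA H hH h _ t

end tausec

theorem decay_sum : ∃ C : ℝ, 0 < C ∧ ∀ (H : ℝ), 1 ≤ H → ∀ j : ℕ, j ≤ 2 →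
    Summable (fun t : ℕ => (t : ℝ) ^ j * (2 * (2 : ℝ) ^ (-((t : ℝ) / (3 * H))))) ∧
    ∑' t : ℕ, (t : ℝ) ^ j * (2 * (2 : ℝ) ^ (-((t : ℝ) / (3 * H)))) ≤ C * H ^ (j + 1) := by
  refine ⟨864, by norm_num, fun H hH j hj => ?_⟩
  have hH0 : 0 < H := by linarith
  set ρ : ℝ := (2:ℝ) ^ (-(1 / (3 * H))) with hρ
  have hρ0 : 0 < ρ := Real.rpow_pos_of_pos (by norm_num) _
  have hpow : ∀ t : ℕ, (2 : ℝ) ^ (-((t : ℝ) / (3 * H))) = ρ ^ t := by
    intro t
    rw [hρ, ← Real.rpow_natCast, ← Real.rpow_mul (by norm_num)]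
    congr 1
    ring
  have hu0 : 0 < 1 / (3 * H) := by positivity
  have hu1 : 1 / (3 * H) ≤ 1 := by
    rw [div_le_one (by positivity)]; linarith
  -- `2 ^ (-u) ≤ 1 - u / 2` on `[0, 1]`
  have hρ1 : ρ ≤ 1 - 1 / (6 * H) := by
    have key : (2:ℝ)⁻¹ ^ (1 / (3 * H)) ≤ 1 + (1 / (3 * H)) * (-(1/2)) := by
      have h1 := rpow_one_add_le_one_add_mul_self (s := -(1/2)) (by norm_num)
        (p := 1 / (3 * H)) hu0.le hu1
      have h2 : (1 + -(1/2) : ℝ) = (2:ℝ)⁻¹ := by norm_num
      rw [h2] at h1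
      exact h1
    have e : ρ = (2:ℝ)⁻¹ ^ (1 / (3 * H)) := by
      rw [hρ, Real.rpow_neg (by norm_num), Real.inv_rpow (by norm_num)]
    rw [e]
    refine key.trans (le_of_eq ?_)
    field_simp
    ring
  have hρlt : ρ < 1 := by
    have : 0 < 1 / (6 * H) := by positivity
    linarith
  have hnorm : ‖ρ‖ < 1 := by rw [Real.norm_eq_abs, abs_of_pos hρ0]; exact hρlt
  have hS := summable_choose_mul_geometric_of_norm_lt_one (R := ℝ) j hnorm
  have hT := tsum_choose_mul_geometric_of_norm_lt_one (𝕜 := ℝ) j hnorm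
  have hle : ∀ t : ℕ, (t : ℝ) ^ j * (2 * (2 : ℝ) ^ (-((t : ℝ) / (3 * H))))
      ≤ 4 * (((t + j).choose j : ℕ) * ρ ^ t) := by
    intro t
    rw [hpow t]
    have h1 : (t : ℝ) ^ j ≤ 2 * (((t + j).choose j : ℕ) : ℝ) := by
      have h2 : t ^ j ≤ 2 * (t + j).choose j := by
        interval_cases j
        · simp
        · simp; omega
        · have h3 : (t + 2).choose 2 = (t + 2) * (t + 1) / 2 := by
            rw [Nat.choose_two_right]; rfl
          have h4 : 2 ∣ (t + 2) * (t + 1) := by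
            have := Nat.even_mul_succ_self (t + 1)
            rw [mul_comm]
            exact this.two_dvd
          have h5 := Nat.div_mul_cancel h4
          rw [h3]
          nlinarith
      exact_mod_cast h2
    have h3 : 0 ≤ ρ ^ t := by positivity
    nlinarith
  have hnn : ∀ t : ℕ, 0 ≤ (t : ℝ) ^ j * (2 * (2 : ℝ) ^ (-((t : ℝ) / (3 * H)))) := by
    intro t; positivity
  have hs : Summable (fun t : ℕ => (t : ℝ) ^ j * (2 * (2 : ℝ) ^ (-((t : ℝ) / (3 * H))))) :=
    Summable.of_nonneg_of_le hnn hle (hS.mul_left 4)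
  refine ⟨hs, ?_⟩
  calc ∑' t : ℕ, (t : ℝ) ^ j * (2 * (2 : ℝ) ^ (-((t : ℝ) / (3 * H))))
      ≤ ∑' t : ℕ, 4 * (((t + j).choose j : ℕ) * ρ ^ t) := hs.tsum_le_tsum hle (hS.mul_left 4)
    _ = 4 * (1 / (1 - ρ) ^ (j + 1)) := by rw [tsum_mul_left, hT]
    _ ≤ 4 * (6 * H) ^ (j + 1) := by
        refine mul_le_mul_of_nonneg_left ?_ (by norm_num)
        rw [one_div, ← inv_pow]
        refine pow_le_pow_left₀ (inv_nonneg.mpr (by linarith)) ?_ _
        have h1 : 1 / (6 * H) ≤ 1 - ρ := by linarith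
        have h2 : (6 * H)⁻¹ ≤ 1 - ρ := by rwa [one_div] at h1
        exact inv_le_of_inv_le₀ (by positivity) h2
    _ ≤ 864 * H ^ (j + 1) := by
        rw [mul_pow]
        have h1 : (6:ℝ) ^ (j + 1) ≤ 216 := by
          interval_cases j <;> norm_num
        have h2 : 0 ≤ H ^ (j + 1) := by positivity
        nlinarith

end Pool.Agent.UST
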