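import Pool.Agent.Helper54.UST.C2
import Pool.Agent.Helper54.UST.Chain
import Pool.Agent.Helper54.UST.Av
import Pool.Agent.Helper54.UST.Tau

/-! Paper Proposition S1, one level: exponential decay of the probability not to reach it. -/

namespace Pool.Agent.UST

open MeasureTheory

private theorem blk_iter_mono (n : ℕ) [NeZero n] {Φ Φ' : Set (V n) → ℝ}
    (h : ∀ S, Φ S ≤ Φ' S) (m : ℕ) : ∀ S, ((kop n)^[m] Φ) S ≤ ((kop n)^[m] Φ') S := by
  induction m with
  | zero => exact h
  | succ m ih =>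
    intro S
    rw [Function.iterate_succ_apply', Function.iterate_succ_apply']
    exact kop_mono n (fun S _ => ih S) S

theorem block (B : ℝ) (hB : 1 ≤ B) : ∃ c : ℝ, 0 < c ∧ ∃ C : ℝ, 0 < C ∧ ∃ n0 : ℕ,
    ∀ (n : ℕ) [NeZero n], n0 ≤ n → ∀ ξ : ℝ, 0 < ξ → ξ ≤ B → C * (n : ℝ) ^ 2 ≤ ξ * kk n →
    ∀ A : Set (V n), A.Nonempty → MA n A ≤ 2 * (ξ * kk n) → ∀ m : ℕ,
    ((kop n)^[m] (fun S => ind (ξ * kk n < MA n S))) A ≤ 2 * Real.exp (-(c * ξ ^ 2 * m)) := by
  obtain ⟨c, hc, C, hC, n0, hmain⟩ := lemC2 (2 * B) (by linarith)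
  refine ⟨c, hc, C, hC, n0, ?_⟩
  intro n _ hn ξ hξ hξB hCn A hA hAM m
  have hn0 : (0 : ℝ) < n := by
    exact_mod_cast Nat.pos_of_ne_zero (NeZero.ne n)
  have hk : 0 < ξ * kk n := lt_of_lt_of_le (by positivity) hCn
  have hkk : (0 : ℝ) < kk n := by
    rcases lt_or_ge (0 : ℝ) (kk n) with h | h
    · exact h
    · nlinarith
  set a : ℝ := ξ * kk n with ha
  set Φ : Set (V n) → ℝ := fun S => (1 / a) * (MA n S * ind (a < MA n S)) with hΦ
  have hind : ∀ S, ind (a < MA n S) ≤ Φ S := by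
    intro S
    by_cases h : a < MA n S
    · rw [hΦ]
      simp only
      rw [ind_true h, mul_one, one_div, inv_mul_eq_div, le_div_iff₀ hk, one_mul]
      exact h.le
    · rw [hΦ]
      simp only
      rw [ind_false h, mul_zero, mul_zero]
  have hstep : ∀ S : Set (V n), (S.Nonempty ∧ MA n S ≤ 2 * a) →
      kop n Φ S ≤ Real.exp (-(c * ξ ^ 2)) * Φ S := by
    rintro S ⟨hS, hSM⟩
    by_cases h : a < MA n S
    · have h1 : kop n Φ S = (1 / a) * kop n (fun S => MA n S * ind (a < MA n S)) S :=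
        kop_mul_left n (1 / a) (fun S => MA n S * ind (a < MA n S)) S
      have h2 : kop n (fun S => MA n S * ind (a < MA n S)) S ≤ kop n (fun S => MA n S) S := by
        refine kop_mono n ?_ S
        intro S' hS'
        have h3 := MA_nonneg n S' hS'
        calc MA n S' * ind (a < MA n S') ≤ MA n S' * 1 :=
              mul_le_mul_of_nonneg_left (ind_le_one _) h3
          _ = MA n S' := mul_one _
      have h4 := hmain n hn S hS (le_trans hCn h.le) (by nlinarith)
      have h5 : MA n S * (1 - c * (MA n S / kk n) ^ 2) ≤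
          Real.exp (-(c * ξ ^ 2)) * MA n S := by
        have h6 : ξ ≤ MA n S / kk n := by
          rw [le_div_iff₀ hkk]
          exact h.le
        have h7 : ξ ^ 2 ≤ (MA n S / kk n) ^ 2 := pow_le_pow_left₀ hξ.le h6 2
        have h8 : 1 - c * (MA n S / kk n) ^ 2 ≤ Real.exp (-(c * ξ ^ 2)) := by
          have h9 := Real.add_one_le_exp (-(c * ξ ^ 2))
          have h10 : c * ξ ^ 2 ≤ c * (MA n S / kk n) ^ 2 := mul_le_mul_of_nonneg_left h7 hc.le
          linarith
        have h11 : 0 ≤ MA n S := MA_nonneg n S hS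
        calc MA n S * (1 - c * (MA n S / kk n) ^ 2) ≤ MA n S * Real.exp (-(c * ξ ^ 2)) :=
              mul_le_mul_of_nonneg_left h8 h11
          _ = _ := mul_comm _ _
      rw [h1]
      have h12 : Φ S = (1 / a) * MA n S := by
        rw [hΦ]
        simp only
        rw [ind_true h, mul_one]
      rw [h12]
      have h13 : (0 : ℝ) ≤ 1 / a := by positivity
      calc (1 / a) * kop n (fun S => MA n S * ind (a < MA n S)) S ≤
          (1 / a) * (Real.exp (-(c * ξ ^ 2)) * MA n S) :=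
            mul_le_mul_of_nonneg_left (le_trans h2 (le_trans h4 h5)) h13
        _ = _ := by ring
    · have h1 : kop n Φ S ≤ kop n (fun _ => (0 : ℝ)) S := by
        refine kop_le_of_le n (fun S' => S'.Nonempty ∧ ¬ a < MA n S') ?_ ?_ S ⟨hS, h⟩
        · rintro S1 S2 h12 ⟨h3, h4⟩
          refine ⟨h3.mono h12, ?_⟩
          have := MA_mono n S1 h3 h12
          intro h5
          exact h4 (lt_of_lt_of_le h5 this)
        · rintro S' ⟨_, h3⟩
          rw [hΦ]
          simp only
          rw [ind_false h3, mul_zero, mul_zero]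
      rw [kop_const] at h1
      have h2 : Φ S = 0 := by
        rw [hΦ]
        simp only
        rw [ind_false h, mul_zero, mul_zero]
      rw [h2, mul_zero]
      exact h1
  have hiter := kop_iter_le n (fun S => S.Nonempty ∧ MA n S ≤ 2 * a) (by
    rintro S1 S2 h12 ⟨h3, h4⟩
    exact ⟨h3.mono h12, le_trans (MA_mono n S1 h3 h12) h4⟩) (Real.exp_pos _).le hstep m A ⟨hA, hAM⟩
  have hA2 : Φ A ≤ 2 := by
    by_cases h : a < MA n A
    · rw [hΦ]
      simp only
      rw [ind_true h, mul_one, one_div, inv_mul_eq_div, div_le_iff₀ hk]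
      exact hAM
    · rw [hΦ]
      simp only
      rw [ind_false h, mul_zero, mul_zero]
      norm_num
  have hexp : Real.exp (-(c * ξ ^ 2)) ^ m = Real.exp (-(c * ξ ^ 2 * m)) := by
    rw [← Real.exp_nat_mul]
    congr 1
    ring
  calc ((kop n)^[m] (fun S => ind (a < MA n S))) A ≤ ((kop n)^[m] Φ) A :=
        blk_iter_mono n hind m A
    _ ≤ Real.exp (-(c * ξ ^ 2)) ^ m * Φ A := hiter
    _ ≤ Real.exp (-(c * ξ ^ 2)) ^ m * 2 :=
        mul_le_mul_of_nonneg_left hA2 (pow_nonneg (Real.exp_pos _).le m)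
    _ = 2 * Real.exp (-(c * ξ ^ 2 * m)) := by
        rw [hexp]
        ring

end Pool.Agent.UST
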