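import Pool.Agent.Helper54.UST.BaseTorus
import Pool.Agent.Helper54.UST.Av

namespace Pool.Agent.UST

open MeasureTheory

section pmbasic
variable (n : ℕ) [NeZero n]

private theorem measurableSet_hit (x : V n) (s t : ℕ) (B : Set (V n)) :
    MeasurableSet {ω : ℕ → DD | hit (act n) x ω s t B} := by
  have h : Measurable (fun ω : ℕ → DD => hit (act n) x ω s t B) := by
    refine measurable_dep t _ fun ω ω' hω => ?_
    refine propext ?_
    rw [hit_iff, hit_iff, seg_congr (act n) x ω ω' s t hω]
  exact measurableSet_setOf.mpr h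

private theorem pr_le_one (s : Set (ℕ → DD)) : pr s ≤ 1 := by
  unfold pr
  exact measureReal_le_one

private theorem pr_nonneg (s : Set (ℕ → DD)) : 0 ≤ pr s := by
  unfold pr
  exact measureReal_nonneg

private theorem pr_mono {s t : Set (ℕ → DD)} (h : s ⊆ t) : pr s ≤ pr t := by
  unfold pr
  exact measureReal_mono h

theorem pm_nonneg (m : ℕ) (B : Set (V n)) : 0 ≤ pm n m B :=
  av_nonneg fun _ => pr_nonneg _

theorem pm_le_one (m : ℕ) (B : Set (V n)) : pm n m B ≤ 1 :=
  av_le zero_le_one fun _ => pr_le_one _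

theorem pm_mono {m m' : ℕ} {B B' : Set (V n)} (hm : m ≤ m') (hB : B ⊆ B') :
    pm n m B ≤ pm n m' B' := by
  refine av_mono fun y => pr_mono ?_
  rintro ω ⟨i, h1, h2, h3⟩
  exact ⟨i, h1, h2.trans hm, hB h3⟩

theorem pm_union (m : ℕ) (B B' : Set (V n)) : pm n m (B ∪ B') ≤ pm n m B + pm n m B' := by
  unfold pm
  rw [← av_add]
  refine av_mono fun y => ?_
  refine le_trans (pr_mono (t := {ω | hit (act n) y ω 0 m B} ∪ {ω | hit (act n) y ω 0 m B'}) ?_) ?_
  · rintro ω ⟨i, h1, h2, h3⟩
    rcases h3 with h3 | h3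
    · exact Or.inl ⟨i, h1, h2, h3⟩
    · exact Or.inr ⟨i, h1, h2, h3⟩
  · unfold pr
    exact measureReal_union_le _ _

private theorem pm_empty (m : ℕ) : pm n m (∅ : Set (V n)) = 0 := by
  refine le_antisymm ?_ (pm_nonneg n m _)
  refine av_le le_rfl fun y => ?_
  have : {ω : ℕ → DD | hit (act n) y ω 0 m (∅ : Set (V n))} = ∅ := by
    ext ω
    simp [hit]
  rw [this]
  simp [pr]

theorem pm_iUnion {ι : Type} (s : Finset ι) (m : ℕ) (B : ι → Set (V n)) :
    pm n m (⋃ i ∈ s, B i) ≤ ∑ i ∈ s, pm n m (B i) := by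
  classical
  induction s using Finset.induction_on with
  | empty => simp [pm_empty]
  | insert a s ha ih =>
    rw [Finset.sum_insert ha, Finset.set_biUnion_insert]
    exact (pm_union n m _ _).trans (by linarith)

private theorem stat_hit (t m : ℕ) (B : Set (V n)) :
    av (fun y : V n => pr {ω | hit (act n) (pos (act n) y ω t) (sh t ω) 0 m B}) = pm n m B := by
  have hF : ∀ x : V n, Measurable (fun ω : ℕ → DD => ind (hit (act n) x ω 0 m B)) := by
    intro x
    refine measurable_dep m _ fun ω ω' hω => ?_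
    rw [hit_iff, hit_iff, seg_congr (act n) x ω ω' 0 m hω]
  have h := stationary n t (fun x ω => ind (hit (act n) x ω 0 m B)) hF 1 (by
    intro x ω
    rw [abs_of_nonneg (ind_nonneg _)]
    exact ind_le_one _)
  unfold pm
  have e1 : ∀ y : V n, ∫ ω, ind (hit (act n) y ω 0 m B) ∂(mu DD) =
      pr {ω | hit (act n) y ω 0 m B} := fun y =>
    integral_ind (mu DD) _ (measurableSet_hit n y 0 m B)
  have e2 : ∀ y : V n, ∫ ω, ind (hit (act n) (pos (act n) y ω t) (sh t ω) 0 m B) ∂(mu DD) =
      pr {ω | hit (act n) (pos (act n) y ω t) (sh t ω) 0 m B} := by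
    intro y
    refine integral_ind (mu DD) _ ?_
    have h : Measurable (fun ω : ℕ → DD => hit (act n) (pos (act n) y ω t) (sh t ω) 0 m B) := by
      refine measurable_dep (t + m) _ fun ω ω' hω => ?_
      refine propext ?_
      rw [hit_iff, hit_iff, ← seg_shift, ← seg_shift]
      rw [seg_congr (act n) y ω ω' _ _ fun i hi => hω i hi]
    exact measurableSet_setOf.mpr h
  simp only [e1, e2] at h
  exact h

theorem pm_add (m m' : ℕ) (B : Set (V n)) : pm n (m + m') B ≤ pm n m B + pm n m' B := by
  rw [← stat_hit n m m' B]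
  unfold pm
  rw [← av_add]
  refine av_mono fun y => ?_
  refine le_trans (pr_mono (t := {ω | hit (act n) y ω 0 m B} ∪
    {ω | hit (act n) (pos (act n) y ω m) (sh m ω) 0 m' B}) ?_) ?_
  · rintro ω ⟨i, h1, h2, h3⟩
    by_cases hi : i ≤ m
    · exact Or.inl ⟨i, h1, hi, h3⟩
    · refine Or.inr ⟨i - m, Nat.zero_le _, by omega, ?_⟩
      rw [← pos_add]
      rwa [show m + (i - m) = i by omega]
  · unfold pr
    exact measureReal_union_le _ _

private theorem pm_zero (B : Set (V n)) : pm n 0 B = (B.ncard : ℝ) / NN n := by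
  classical
  have h1 : ∀ y : V n, pr {ω : ℕ → DD | hit (act n) y ω 0 0 B} = ind (y ∈ B) := by
    intro y
    by_cases hy : y ∈ B
    · have : {ω : ℕ → DD | hit (act n) y ω 0 0 B} = Set.univ := by
        ext ω
        simp only [Set.mem_setOf_eq, Set.mem_univ, iff_true]
        exact ⟨0, le_rfl, le_rfl, hy⟩
      rw [this, ind_true hy]
      unfold pr
      exact probReal_univ
    · have : {ω : ℕ → DD | hit (act n) y ω 0 0 B} = ∅ := by
        ext ω
        simp only [Set.mem_setOf_eq, Set.mem_empty_iff_false, iff_false]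
        rintro ⟨i, h1, h2, h3⟩
        obtain rfl : i = 0 := by omega
        exact hy h3
      rw [this, ind_false hy]
      simp [pr]
  unfold pm
  simp only [h1]
  unfold av NN
  congr 1
  · rw [Set.ncard_eq_toFinset_card' B]
    have h2 : ∀ y : V n, ind (y ∈ B) = if y ∈ B.toFinset then (1 : ℝ) else 0 := by
      intro y
      by_cases hy : y ∈ B
      · rw [ind_true hy, if_pos (by simpa using hy)]
      · rw [ind_false hy, if_neg (by simpa using hy)]
    simp only [h2]
    rw [Finset.sum_ite_mem, Finset.univ_inter]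
    simp
  · simp [ZMod.card]

theorem pm_card (m : ℕ) (B : Set (V n)) : pm n m B ≤ ((m : ℝ) + 1) * (B.ncard : ℝ) / NN n := by
  induction m with
  | zero => rw [pm_zero]; simp
  | succ m ih =>
    have h0 : av (fun y : V n => pr {ω | pos (act n) y ω (m + 1) ∈ B}) = pm n 0 B := by
      rw [← stat_hit n (m + 1) 0 B]
      refine congrArg av (funext fun y => congrArg pr ?_)
      ext ω
      simp only [Set.mem_setOf_eq]
      constructor
      · intro h
        exact ⟨0, le_rfl, le_rfl, h⟩
      · rintro ⟨i, h1, h2, h3⟩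
        obtain rfl : i = 0 := by omega
        exact h3
    have h1 : pm n (m + 1) B ≤ pm n m B + pm n 0 B := by
      rw [← h0]
      unfold pm
      rw [← av_add]
      refine av_mono fun y => ?_
      refine le_trans (pr_mono (t := {ω | hit (act n) y ω 0 m B} ∪
        {ω | pos (act n) y ω (m + 1) ∈ B}) ?_) ?_
      · rintro ω ⟨i, h1, h2, h3⟩
        by_cases hi : i ≤ m
        · exact Or.inl ⟨i, h1, hi, h3⟩
        · refine Or.inr ?_
          obtain rfl : i = m + 1 := by omega
          exact h3
      · unfold pr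
        exact measureReal_union_le _ _
    refine h1.trans ?_
    rw [pm_zero]
    refine (add_le_add_left ih _).trans (le_of_eq ?_)
    push_cast
    ring

theorem pm_translate (m : ℕ) (B : Set (V n)) (y : V n) :
    pm n m ((fun z => z + y) '' B) = pm n m B := by
  unfold pm
  rw [← av_equiv (Equiv.addRight y)
    (fun x : V n => pr {ω | hit (act n) x ω 0 m ((fun z => z + y) '' B)})]
  refine congrArg av (funext fun x => congrArg pr ?_)
  ext ω
  simp only [Set.mem_setOf_eq, Equiv.coe_addRight]
  unfold hit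
  simp only [pos_translate, Set.mem_image, add_left_inj, exists_eq_right]

theorem pm_mul (j m : ℕ) (B : Set (V n)) : pm n (j * m) B ≤ ((j : ℝ) + 1) * pm n m B := by
  induction j with
  | zero =>
    simp only [Nat.zero_mul, Nat.cast_zero, zero_add, one_mul]
    exact pm_mono n (Nat.zero_le m) (subset_refl B)
  | succ j ih =>
    rw [Nat.succ_mul]
    refine (pm_add n (j * m) m B).trans ?_
    push_cast
    linarith

end pmbasic

end Pool.Agent.UST
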