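import Pool.Agent.Helper54.UST.Cert
import Pool.Agent.Helper54.UST.PmBasic
import Pool.Agent.Helper54.UST.LE1

/-! Paper Lemma C1. -/

namespace Pool.Agent.UST

open MeasureTheory

/-- a function of the first `t` choices of both walks is measurable -/
theorem measurable_dep2 {α : Type} [MeasurableSpace α] (t : ℕ) (f : (ℕ → DD) × (ℕ → DD) → α)
    (hf : ∀ ω ω' : (ℕ → DD) × (ℕ → DD), (∀ i, i < t → ω.1 i = ω'.1 i) →
      (∀ i, i < t → ω.2 i = ω'.2 i) → f ω = f ω') : Measurable f := by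
  classical
  let ext : (Fin t → DD) → (ℕ → DD) := fun r i => if h : i < t then r ⟨i, h⟩ else (false, 0, false)
  let r : (ℕ → DD) × (ℕ → DD) → (Fin t → DD) × (Fin t → DD) :=
    fun ω => (fun i => ω.1 i, fun i => ω.2 i)
  have hr : Measurable r := by
    refine Measurable.prodMk ?_ ?_
    · exact measurable_pi_lambda _ fun i => (measurable_pi_apply _).comp measurable_fst
    · exact measurable_pi_lambda _ fun i => (measurable_pi_apply _).comp measurable_snd
  have hg : Measurable (fun p : (Fin t → DD) × (Fin t → DD) => f (ext p.1, ext p.2)) :=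
    Measurable.of_discrete
  have hfg : f = (fun p : (Fin t → DD) × (Fin t → DD) => f (ext p.1, ext p.2)) ∘ r := by
    funext ω
    refine hf _ _ ?_ ?_
    · intro i hi
      simp [ext, r, hi]
    · intro i hi
      simp [ext, r, hi]
  rw [hfg]
  exact hg.comp hr

theorem C1_card_V (n : ℕ) [NeZero n] : (Fintype.card (V n) : ℝ) = NN n := by
  simp [NN, ZMod.card]

theorem C1_bdd_integrable (t : ℕ) (f : (ℕ → DD) × (ℕ → DD) → ℝ)
    (hf : ∀ ω ω' : (ℕ → DD) × (ℕ → DD), (∀ i, i < t → ω.1 i = ω'.1 i) →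
      (∀ i, i < t → ω.2 i = ω'.2 i) → f ω = f ω') (C : ℝ) (hC : ∀ ω, 0 ≤ f ω ∧ f ω ≤ C) :
    Integrable f ((mu DD).prod (mu DD)) := by
  refine Integrable.of_bound (measurable_dep2 t f hf).aestronglyMeasurable C
    (Filter.Eventually.of_forall fun ω => ?_)
  rw [Real.norm_eq_abs, abs_of_nonneg (hC ω).1]
  exact (hC ω).2

/-- the path `M_j` depends on the first `j` choices -/
theorem MM_dep (n : ℕ) (γ : List (V n)) (x : V n) (j : ℕ) (ω ω' : ℕ → DD)
    (h : ∀ a, a < j → ω a = ω' a) : MM n γ x ω j = MM n γ x ω' j := by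
  unfold MM
  rw [seg_congr _ _ _ _ _ _ h]

/-- the last element of `M_j` is the position of the walk -/
theorem MM_last (n : ℕ) (γ : List (V n)) (x : V n) (hγ : Path1 γ x) (ω : ℕ → DD) (j : ℕ) :
    (MM n γ x ω j).getLast? = some (pos (act n) x ω j) := by
  unfold MM
  rcases Nat.eq_zero_or_pos j with h | h
  · subst h
    have : seg (act n) x ω 1 0 = [] := by simp [seg]
    rw [this]
    exact hγ.2
  · have hne : seg (act n) x ω 1 j ≠ [] := by
      intro h0
      have := seg_length (act n) x ω 1 j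
      rw [h0] at this
      simp at this
      omega
    rw [leF_getLast hne]
    have : seg (act n) x ω 1 j = seg (act n) x ω 1 (j - 1) ++ [pos (act n) x ω j] := by
      rw [seg_append (act n) x ω 1 (j - 1) j (by omega) (by omega)]
      congr 1
      have e1 : j - 1 + 1 = j := by omega
      rw [e1]
      simp [seg]
    rw [this]
    simp

theorem MM_nodup (n : ℕ) (γ : List (V n)) (x : V n) (hγ : Path1 γ x) (ω : ℕ → DD) (j : ℕ) :
    (MM n γ x ω j).Nodup := leF_nodup hγ.1 _

/-- appending the last point changes nothing -/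
theorem stepLE_last {W : Type} {γ : List W} {z : W} (hn : γ.Nodup) (h : γ.getLast? = some z) :
    stepLE γ z = γ := by
  rcases List.eq_nil_or_concat' γ with h0 | ⟨l, y, h0⟩
  · rw [h0] at h
    simp at h
  · rw [h0] at h hn ⊢
    have hy : y = z := by simpa using h
    subst hy
    have hyl : y ∉ l := by
      rw [List.nodup_append] at hn
      intro hyl
      exact hn.2.2 y hyl y (by simp) rfl
    exact le1_stepLE_split hyl []

theorem MM_later (n : ℕ) (γ : List (V n)) (x : V n) (hγ : Path1 γ x) (ω : ℕ → DD) (j t : ℕ)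
    (hj : j ≤ t) : leF (MM n γ x ω j) (seg (act n) x ω j t) = MM n γ x ω t := by
  have h1 : seg (act n) x ω j t = pos (act n) x ω j :: seg (act n) x ω (j + 1) t := by
    have h := seg_append (act n) x ω j j t (by omega) hj
    rw [h]
    simp [seg]
  rw [h1, le1_leF_cons, stepLE_last (MM_nodup n γ x hγ ω j) (MM_last n γ x hγ ω j)]
  unfold MM
  rw [← leF_append, ← seg_append (act n) x ω 1 j t (by omega) hj]

theorem lemC1 : ∃ c : ℝ, 0 < c ∧ ∃ n0 : ℕ, ∀ (n : ℕ) [NeZero n], n0 ≤ n →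
    ∀ (t m : ℕ) (x : V n) (γ : List (V n)), Path1 γ x → 1 ≤ t → 1 ≤ m → t ≤ n ^ 9 → m ≤ n ^ 9 →
    c * ((t : ℝ) * m / NN n) / (LL n + (t : ℝ) * m / NN n) ≤
      ∫ ω, pm n (m + t) (st (MM n γ x ω t)) ∂(mu DD) := by
  classical
  obtain ⟨C, hC, n0, hsum⟩ := heat_sum
  refine ⟨1 / (16 * C), by positivity, max n0 2, ?_⟩
  intro n _ hn t m x γ hγ ht hm ht9 hm9
  have hn2 : 2 ≤ n := le_trans (le_max_right _ _) hn
  have hn0 : n0 ≤ n := le_trans (le_max_left _ _) hn
  have hL : 0 < LL n := by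
    unfold LL
    exact Real.log_pos (by exact_mod_cast hn2)
  have hN : 0 < NN n := by
    unfold NN
    positivity
  have ht10 : t ≤ n ^ 10 := ht9.trans (Nat.pow_le_pow_right (by omega) (by norm_num))
  have hm10 : m ≤ n ^ 10 := hm9.trans (Nat.pow_le_pow_right (by omega) (by norm_num))
  -- the certificate
  let Ct : V n → ℕ → ℕ → (ℕ → DD) × (ℕ → DD) → Prop := fun y j i ω =>
    pos (act n) x ω.1 j = pos (act n) y ω.2 i ∧ True ∧
        ((MM n γ x ω.1 j).findIdx
          (fun z => decide (z ∈ seg (act n) y ω.2 i (i + (t - j))))) ≤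
        ((MM n γ x ω.1 j).findIdx
          (fun z => decide (z ∈ seg (act n) x ω.1 j (j + (t - j)))))
  let S : V n → (ℕ → DD) × (ℕ → DD) → ℝ := fun y ω =>
    ∑ j ∈ Finset.Icc 0 (0 + t), ∑ i ∈ Finset.Icc 0 (0 + m), ind (Ct y j i ω)
  have hCtdep : ∀ y j i, j ≤ t → ∀ ω ω' : (ℕ → DD) × (ℕ → DD),
      (∀ a, a < t + i → ω.1 a = ω'.1 a) → (∀ a, a < t + i → ω.2 a = ω'.2 a) →
      Ct y j i ω = Ct y j i ω' := by
    intro y j i hj ω ω' h1 h2
    show (_ ∧ True ∧ _) = (_ ∧ True ∧ _)
    rw [pos_congr (act n) x ω.1 ω'.1 j (fun a ha => h1 a (by omega)),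
      pos_congr (act n) y ω.2 ω'.2 i (fun a ha => h2 a (by omega)),
      MM_dep n γ x j ω.1 ω'.1 (fun a ha => h1 a (by omega)),
      seg_congr (act n) y ω.2 ω'.2 i (i + (t - j)) (fun a ha => h2 a (by omega)),
      seg_congr (act n) x ω.1 ω'.1 j (j + (t - j)) (fun a ha => h1 a (by omega))]
  have hSdep : ∀ y, ∀ ω ω' : (ℕ → DD) × (ℕ → DD),
      (∀ a, a < t + m → ω.1 a = ω'.1 a) → (∀ a, a < t + m → ω.2 a = ω'.2 a) →
      S y ω = S y ω' := by
    intro y ω ω' h1 h2
    refine Finset.sum_congr rfl fun j hj => Finset.sum_congr rfl fun i hi => ?_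
    rw [Finset.mem_Icc] at hj hi
    rw [hCtdep y j i (by omega) ω ω' (fun a ha => h1 a (by omega)) (fun a ha => h2 a (by omega))]
  have hSm : ∀ y, Measurable (S y) := fun y => measurable_dep2 (t + m) _ (hSdep y)
  have hS0 : ∀ y ω, 0 ≤ S y ω := fun y ω =>
    Finset.sum_nonneg fun j _ => Finset.sum_nonneg fun i _ => ind_nonneg _
  have hSmeets : ∀ y ω, S y ω ≤ meets n x y 0 t 0 m ω := by
    intro y ω
    exact Finset.sum_le_sum fun j _ => Finset.sum_le_sum fun i _ => ind_mono fun h => h.1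
  have hmeets : ∀ y ω, meets n x y 0 t 0 m ω ≤ ((t : ℝ) + 1) * ((m : ℝ) + 1) := by
    intro y ω
    unfold meets
    calc _ ≤ ∑ j ∈ Finset.Icc 0 (0 + t), ∑ i ∈ Finset.Icc 0 (0 + m), (1 : ℝ) :=
          Finset.sum_le_sum fun j _ => Finset.sum_le_sum fun i _ => ind_le_one _
      _ = _ := by
          simp
          ring
  have hmeets0 : ∀ y ω, 0 ≤ meets n x y 0 t 0 m ω := fun y ω =>
    Finset.sum_nonneg fun j _ => Finset.sum_nonneg fun i _ => ind_nonneg _
  have hmdep : ∀ y, ∀ ω ω' : (ℕ → DD) × (ℕ → DD),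
      (∀ a, a < t + m → ω.1 a = ω'.1 a) → (∀ a, a < t + m → ω.2 a = ω'.2 a) →
      meets n x y 0 t 0 m ω = meets n x y 0 t 0 m ω' := by
    intro y ω ω' h1 h2
    refine Finset.sum_congr rfl fun j hj => Finset.sum_congr rfl fun i hi => ?_
    rw [Finset.mem_Icc] at hj hi
    rw [pos_congr (act n) x ω.1 ω'.1 j (fun a ha => h1 a (by omega)),
      pos_congr (act n) y ω.2 ω'.2 i (fun a ha => h2 a (by omega))]
  -- Paley-Zygmund
  have hpz := pz_sum ((mu DD).prod (mu DD)) (fun _ : V n => 1 / NN n) (fun _ => by positivity) S hSm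
    (((t : ℝ) + 1) * ((m : ℝ) + 1)) (fun y ω => ⟨hS0 y ω, (hSmeets y ω).trans (hmeets y ω)⟩)
  -- second moment
  have h2 : ∑ y, 1 / NN n * ∫ ω, (S y ω) ^ 2 ∂((mu DD).prod (mu DD)) ≤
      4 * (1 / NN n) * ((t : ℝ) + 1) * ((m : ℝ) + 1) *
        (C * (LL n + ((t : ℝ) + 1) * ((m : ℝ) + 1) / NN n)) := by
    have h3 := meets_sq n (fun _ : V n => 1 / NN n) (fun _ => by positivity) x 0 t 0 m (1 / NN n)
      (fun i b _ _ => by
        rw [← Finset.mul_sum]
        have : ∑ y, hk n i y b = 1 := by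
          rw [← hk_sum n i b]
          exact Finset.sum_congr rfl fun y _ => hk_symm n i y b
        rw [this, mul_one])
    have h4 : ∑ y, 1 / NN n * ∫ ω, (S y ω) ^ 2 ∂((mu DD).prod (mu DD)) ≤
        ∑ y, 1 / NN n * ∫ ω, (meets n x y 0 t 0 m ω) ^ 2 ∂((mu DD).prod (mu DD)) := by
      refine Finset.sum_le_sum fun y _ => ?_
      refine mul_le_mul_of_nonneg_left ?_ (by positivity)
      refine integral_mono ?_ ?_ ?_
      · refine C1_bdd_integrable (t + m) _ (fun ω ω' e1 e2 => by rw [hSdep y ω ω' e1 e2])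
          ((((t : ℝ) + 1) * ((m : ℝ) + 1)) ^ 2) (fun ω => ⟨sq_nonneg _, ?_⟩)
        exact pow_le_pow_left₀ (hS0 y ω) ((hSmeets y ω).trans (hmeets y ω)) 2
      · refine C1_bdd_integrable (t + m) _ (fun ω ω' e1 e2 => by rw [hmdep y ω ω' e1 e2])
          ((((t : ℝ) + 1) * ((m : ℝ) + 1)) ^ 2) (fun ω => ⟨sq_nonneg _, ?_⟩)
        exact pow_le_pow_left₀ (hmeets0 y ω) (hmeets y ω) 2
      · intro ω
        exact pow_le_pow_left₀ (hS0 y ω) (hSmeets y ω) 2
    refine h4.trans (h3.trans ?_)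
    refine mul_le_mul_of_nonneg_left (hsum n hn0 t m ht10 hm10) (by positivity)
  -- first moment
  have h1 : ((t : ℝ) + 1) * ((m : ℝ) + 1) / (2 * NN n) ≤
      ∑ y, 1 / NN n * ∫ ω, S y ω ∂((mu DD).prod (mu DD)) := by
    have hmm := meets_mean n x 0 t 0 m
    have h5 : ∀ y, (1 / 2 : ℝ) * ∫ ω, meets n x y 0 t 0 m ω ∂((mu DD).prod (mu DD)) ≤
        ∫ ω, S y ω ∂((mu DD).prod (mu DD)) := by
      intro y
      have hiC : ∀ j i, j ≤ t → Integrable (fun ω => ind (Ct y j i ω)) ((mu DD).prod (mu DD)) :=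
        fun j i hj => C1_bdd_integrable (t + i) _
          (fun ω ω' e1 e2 => by rw [hCtdep y j i hj ω ω' e1 e2]) 1
          (fun ω => ⟨ind_nonneg _, ind_le_one _⟩)
      have hPdep : ∀ j i, j ≤ t → ∀ ω ω' : (ℕ → DD) × (ℕ → DD),
          (∀ a, a < t + i → ω.1 a = ω'.1 a) → (∀ a, a < t + i → ω.2 a = ω'.2 a) →
          (pos (act n) x ω.1 j = pos (act n) y ω.2 i) =
            (pos (act n) x ω'.1 j = pos (act n) y ω'.2 i) := by
        intro j i hj ω ω' e1 e2
        rw [pos_congr (act n) x ω.1 ω'.1 j (fun a ha => e1 a (by omega)),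
          pos_congr (act n) y ω.2 ω'.2 i (fun a ha => e2 a (by omega))]
      have hiP : ∀ j i, j ≤ t → Integrable (fun ω : (ℕ → DD) × (ℕ → DD) =>
          ind (pos (act n) x ω.1 j = pos (act n) y ω.2 i)) ((mu DD).prod (mu DD)) :=
        fun j i hj => C1_bdd_integrable (t + i) _
          (fun ω ω' e1 e2 => by rw [hPdep j i hj ω ω' e1 e2]) 1
          (fun ω => ⟨ind_nonneg _, ind_le_one _⟩)
      show (1 / 2 : ℝ) * ∫ ω, (∑ j ∈ Finset.Icc 0 (0 + t), ∑ i ∈ Finset.Icc 0 (0 + m),
          ind (pos (act n) x ω.1 j = pos (act n) y ω.2 i)) ∂((mu DD).prod (mu DD)) ≤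
        ∫ ω, (∑ j ∈ Finset.Icc 0 (0 + t), ∑ i ∈ Finset.Icc 0 (0 + m),
          ind (Ct y j i ω)) ∂((mu DD).prod (mu DD))
      have hle : ∀ j ∈ Finset.Icc 0 (0 + t), j ≤ t := fun j hj => by
        rw [Finset.mem_Icc] at hj
        omega
      rw [integral_finsetSum _ (fun j hj => integrable_finsetSum _ fun i _ => hiP j i (hle j hj)),
        integral_finsetSum _ (fun j hj => integrable_finsetSum _ fun i _ => hiC j i (hle j hj)),
        Finset.mul_sum]
      refine Finset.sum_le_sum fun j hj => ?_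
      rw [integral_finsetSum _ (fun i _ => hiP j i (hle j hj)),
        integral_finsetSum _ (fun i _ => hiC j i (hle j hj)), Finset.mul_sum]
      refine Finset.sum_le_sum fun i _ => ?_
      have hmS1 : MeasurableSet {ω : (ℕ → DD) × (ℕ → DD) |
          pos (act n) x ω.1 j = pos (act n) y ω.2 i} :=
        measurableSet_setOfPred.2 (measurable_dep2 (t + i) _ (hPdep j i (hle j hj)))
      have hmS2 : MeasurableSet {ω : (ℕ → DD) × (ℕ → DD) | Ct y j i ω} :=
        measurableSet_setOfPred.2 (measurable_dep2 (t + i) _ (hCtdep y j i (hle j hj)))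
      rw [integral_ind _ _ hmS1, integral_ind _ _ hmS2]
      have h6 := cert_half n x y j i (t - j) (fun ω => MM n γ x ω j)
        (fun ω ω' h => MM_dep n γ x j ω ω' h) (fun _ _ => True)
        (fun _ _ _ _ => Iff.rfl) (fun _ _ _ _ => Iff.rfl)
      have h7 : {ω : (ℕ → DD) × (ℕ → DD) | pos (act n) x ω.1 j = pos (act n) y ω.2 i ∧ True} =
          {ω : (ℕ → DD) × (ℕ → DD) | pos (act n) x ω.1 j = pos (act n) y ω.2 i} := by
        ext ω
        simp
      rw [h7] at h6
      exact h6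
    have h8 : av (fun y : V n => (1 / 2 : ℝ) * ∫ ω, meets n x y 0 t 0 m ω ∂((mu DD).prod (mu DD)))
        ≤ av (fun y : V n => ∫ ω, S y ω ∂((mu DD).prod (mu DD))) := av_mono h5
    rw [av_mul_left, hmm] at h8
    have h9 : av (fun y : V n => ∫ ω, S y ω ∂((mu DD).prod (mu DD))) =
        ∑ y, 1 / NN n * ∫ ω, S y ω ∂((mu DD).prod (mu DD)) := by
      unfold av
      rw [C1_card_V, Finset.sum_div]
      exact Finset.sum_congr rfl fun y _ => by ring
    rw [h9] at h8
    refine le_trans (le_of_eq ?_) h8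
    field_simp
  -- the event
  have h3 : ∑ y, 1 / NN n * ((mu DD).prod (mu DD)).real {ω | 0 < S y ω} ≤
      ∫ ω, pm n (m + t) (st (MM n γ x ω t)) ∂(mu DD) := by
    have hev : ∀ y, ((mu DD).prod (mu DD)).real {ω | 0 < S y ω} ≤
        ∫ ω, pr {η | hit (act n) y η 0 (m + t) (st (MM n γ x ω t))} ∂(mu DD) := by
      intro y
      have hHdep : ∀ ω ω' : (ℕ → DD) × (ℕ → DD),
          (∀ a, a < m + t → ω.1 a = ω'.1 a) → (∀ a, a < m + t → ω.2 a = ω'.2 a) →
          (hit (act n) y ω.2 0 (m + t) (st (MM n γ x ω.1 t))) =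
            (hit (act n) y ω'.2 0 (m + t) (st (MM n γ x ω'.1 t))) := by
        intro ω ω' e1 e2
        rw [MM_dep n γ x t ω.1 ω'.1 (fun a ha => e1 a (by omega)), hit_iff, hit_iff,
          seg_congr (act n) y ω.2 ω'.2 0 (m + t) e2]
      have hmH : MeasurableSet {ω : (ℕ → DD) × (ℕ → DD) |
          hit (act n) y ω.2 0 (m + t) (st (MM n γ x ω.1 t))} :=
        measurableSet_setOfPred.2 (measurable_dep2 (m + t) _ hHdep)
      have hsub : {ω : (ℕ → DD) × (ℕ → DD) | 0 < S y ω} ⊆
          {ω | hit (act n) y ω.2 0 (m + t) (st (MM n γ x ω.1 t))} := by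
        intro ω hω
        have hω' : 0 < S y ω := hω
        have hex : ∃ j ∈ Finset.Icc 0 (0 + t), ∃ i ∈ Finset.Icc 0 (0 + m), Ct y j i ω := by
          by_contra hne
          have : S y ω = 0 := by
            refine Finset.sum_eq_zero fun j hj => Finset.sum_eq_zero fun i hi => ?_
            exact ind_false fun h => hne ⟨j, hj, i, hi, h⟩
          linarith
        obtain ⟨j, hj, i, hi, hc1, _, hc2⟩ := hex
        rw [Finset.mem_Icc] at hj hi
        have hjt : j + (t - j) = t := by omega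
        rw [hjt] at hc2
        have hlast := MM_last n γ x hγ ω.1 j
        have hmem : pos (act n) x ω.1 j ∈ MM n γ x ω.1 j := List.mem_of_getLast? hlast
        obtain ⟨z, hz1, hz2⟩ := certificate (MM n γ x ω.1 j) (seg (act n) x ω.1 j t)
          (seg (act n) y ω.2 i (i + (t - j))) (by convert hc2) ⟨pos (act n) x ω.1 j, hmem, by
            rw [hc1, mem_seg]
            exact ⟨i, le_rfl, by omega, rfl⟩⟩
        rw [MM_later n γ x hγ ω.1 j t (by omega)] at hz2
        rw [mem_seg] at hz1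
        obtain ⟨l, hl1, hl2, hl3⟩ := hz1
        show hit _ _ _ _ _ _
        exact ⟨l, Nat.zero_le _, by omega, by rw [hl3]; exact hz2⟩
      refine (measureReal_mono hsub (measure_ne_top _ _)).trans ?_
      rw [← integral_ind _ _ hmH]
      have hint : Integrable (fun ω : (ℕ → DD) × (ℕ → DD) =>
          ind (hit (act n) y ω.2 0 (m + t) (st (MM n γ x ω.1 t)))) ((mu DD).prod (mu DD)) :=
        C1_bdd_integrable (m + t) _ (fun ω ω' e1 e2 => by rw [hHdep ω ω' e1 e2]) 1
          (fun ω => ⟨ind_nonneg _, ind_le_one _⟩)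
      rw [integral_prod _ hint]
      refine le_of_eq (integral_congr_ae (Filter.Eventually.of_forall fun ω => ?_))
      have hmh : MeasurableSet {η : ℕ → DD | hit (act n) y η 0 (m + t) (st (MM n γ x ω t))} := by
        refine measurableSet_setOfPred.2 (measurable_dep (D := DD) (m + t) _ (fun η η' e => ?_))
        rw [hit_iff, hit_iff, seg_congr (act n) y η η' 0 (m + t) e]
      exact integral_ind _ _ hmh
    have hint2 : ∀ y : V n, Integrable (fun ω : ℕ → DD =>
        pr {η | hit (act n) y η 0 (m + t) (st (MM n γ x ω t))}) (mu DD) := by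
      intro y
      have hm : Measurable (fun ω : ℕ → DD =>
        pr {η | hit (act n) y η 0 (m + t) (st (MM n γ x ω t))}) :=
        measurable_dep (D := DD) t _ (fun ω ω' e => by rw [MM_dep n γ x t ω ω' e])
      refine Integrable.of_bound hm.aestronglyMeasurable 1
        (Filter.Eventually.of_forall fun ω => ?_)
      rw [Real.norm_eq_abs, abs_of_nonneg (show (0 : ℝ) ≤ pr _ from measureReal_nonneg)]
      exact measureReal_le_one
    calc ∑ y, 1 / NN n * ((mu DD).prod (mu DD)).real {ω | 0 < S y ω}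
        ≤ ∑ y, 1 / NN n * ∫ ω, pr {η | hit (act n) y η 0 (m + t) (st (MM n γ x ω t))} ∂(mu DD) :=
          Finset.sum_le_sum fun y _ => mul_le_mul_of_nonneg_left (hev y) (by positivity)
      _ = av (fun y : V n =>
          ∫ ω, pr {η | hit (act n) y η 0 (m + t) (st (MM n γ x ω t))} ∂(mu DD)) := by
          unfold av
          rw [C1_card_V, Finset.sum_div]
          exact Finset.sum_congr rfl fun y _ => by ring
      _ = _ := av_integral (mu DD) _ hint2
  -- conclusion
  set I := ∫ ω, pm n (m + t) (st (MM n γ x ω t)) ∂(mu DD) with hI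
  set T : ℝ := ((t : ℝ) + 1) * ((m : ℝ) + 1) / NN n with hT
  have hTpos : 0 < T := by positivity
  have hu0 : 0 ≤ (t : ℝ) * m / NN n := by positivity
  have hTge : (t : ℝ) * m / NN n ≤ T := by
    rw [hT]
    gcongr
    · linarith
    · linarith
  have hI0 : 0 ≤ ∑ y, 1 / NN n * ((mu DD).prod (mu DD)).real {ω | 0 < S y ω} :=
    Finset.sum_nonneg fun y _ => mul_nonneg (by positivity) measureReal_nonneg
  have key : (T / 2) ^ 2 ≤ (4 * T * (C * (LL n + T))) * I := by
    have e1 : T / 2 ≤ ∑ y, 1 / NN n * ∫ ω, S y ω ∂((mu DD).prod (mu DD)) := by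
      refine le_trans (le_of_eq ?_) h1
      rw [hT]
      field_simp
    have e2 : ∑ y, 1 / NN n * ∫ ω, (S y ω) ^ 2 ∂((mu DD).prod (mu DD)) ≤
        4 * T * (C * (LL n + T)) := by
      refine le_trans h2 (le_of_eq ?_)
      rw [hT]
      ring
    calc (T / 2) ^ 2 ≤ (∑ y, 1 / NN n * ∫ ω, S y ω ∂((mu DD).prod (mu DD))) ^ 2 :=
          pow_le_pow_left₀ (by positivity) e1 2
      _ ≤ (∑ y, 1 / NN n * ∫ ω, (S y ω) ^ 2 ∂((mu DD).prod (mu DD))) *
          ∑ y, 1 / NN n * ((mu DD).prod (mu DD)).real {ω | 0 < S y ω} := hpz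
      _ ≤ (4 * T * (C * (LL n + T))) *
          ∑ y, 1 / NN n * ((mu DD).prod (mu DD)).real {ω | 0 < S y ω} :=
          mul_le_mul_of_nonneg_right e2 hI0
      _ ≤ _ := mul_le_mul_of_nonneg_left h3 (by positivity)
  have key2 : T / (16 * C) / (LL n + T) ≤ I := by
    rw [div_div, div_le_iff₀ (by positivity)]
    have : T * T ≤ T * (I * (16 * C * (LL n + T))) := by nlinarith
    exact le_of_mul_le_mul_left this hTpos
  refine le_trans ?_ key2
  have e3 : 1 / (16 * C) * ((t : ℝ) * m / NN n) / (LL n + (t : ℝ) * m / NN n) =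
      1 / (16 * C) * (((t : ℝ) * m / NN n) / (LL n + (t : ℝ) * m / NN n)) := by ring
  have e4 : T / (16 * C) / (LL n + T) = 1 / (16 * C) * (T / (LL n + T)) := by
    field_simp
  rw [e3, e4]
  refine mul_le_mul_of_nonneg_left ?_ (by positivity)
  rw [div_le_div_iff₀ (by positivity) (by positivity)]
  nlinarith

end Pool.Agent.UST
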