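import Pool.Agent.Helper54.UST.C2a
import Pool.Agent.Helper54.UST.BaseTorus
import Pool.Agent.Helper54.UST.Av

/-! Paper Lemma C2 (drift). -/

namespace Pool.Agent.UST

open MeasureTheory

/-- the event of the second walk in Lemma C2 for a fixed list -/
private def evC2 (n : ℕ) (A : Set (V n)) (M : ℝ) (y : V n) (l : List (V n)) : Set (ℕ → DD) :=
  {ω | (∃ i : ℕ, (i : ℝ) ≤ M / 512 ∧ pos (act n) y ω i ∈ l) ∧
    M / 256 ≤ (tau (act n) y ω A : ℝ)}

private theorem meas_evC2 (n : ℕ) [NeZero n] (A : Set (V n)) (M : ℝ) (y : V n)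
    (l : List (V n)) : MeasurableSet (evC2 n A M y l) := by
  have h1 : Measurable (fun ω : ℕ → DD => (tau (act n) y ω A : ℝ)) :=
    measurable_tau (act n) A y (fun t _ => (t : ℝ)) (fun _ _ _ _ => rfl)
  have h2 : MeasurableSet {ω : ℕ → DD | M / 256 ≤ (tau (act n) y ω A : ℝ)} :=
    measurableSet_le measurable_const h1
  have h3 : MeasurableSet {ω : ℕ → DD | ∃ i : ℕ, (i : ℝ) ≤ M / 512 ∧ pos (act n) y ω i ∈ l} := by
    have : {ω : ℕ → DD | ∃ i : ℕ, (i : ℝ) ≤ M / 512 ∧ pos (act n) y ω i ∈ l} =
        ⋃ i : ℕ, {ω : ℕ → DD | (i : ℝ) ≤ M / 512 ∧ pos (act n) y ω i ∈ l} := by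
      ext ω
      simp
    rw [this]
    refine MeasurableSet.iUnion fun i => ?_
    have hm : Measurable (fun ω : ℕ → DD => (i : ℝ) ≤ M / 512 ∧ pos (act n) y ω i ∈ l) :=
      measurable_dep i _ fun ω ω' h => by rw [pos_congr (act n) y ω ω' i h]
    exact measurableSet_setOfPred.mpr hm
  exact h3.inter h2

/-- the deterministic comparison integrated over the second walk -/
private theorem step_C2 (n : ℕ) [NeZero n] (A : Set (V n)) (hA : A.Nonempty) (M : ℝ)
    (hM : 0 < M) (y : V n) (l : List (V n)) :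
    Et n (A ∪ st l) y + M / 512 * (mu DD).real (evC2 n A M y l) ≤ Et n A y := by
  have hR := act_reach n A hA
  have hR' : Reach (act n) (A ∪ st l) := by
    intro x
    obtain ⟨ω, t, ht⟩ := hR x
    exact ⟨ω, t, Or.inl ht⟩
  have hi1 : Integrable (fun ω => (tau (act n) y ω (A ∪ st l) : ℝ)) (mu DD) := by
    simpa using tau_integrable (act n) (A ∪ st l) hR' y 1
  have hi2 : Integrable (fun ω => (tau (act n) y ω A : ℝ)) (mu DD) := by
    simpa using tau_integrable (act n) A hR y 1
  have hE := meas_evC2 n A M y l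
  have hi3 : Integrable (fun ω => M / 512 * ind (ω ∈ evC2 n A M y l)) (mu DD) := by
    have : (fun ω => M / 512 * ind (ω ∈ evC2 n A M y l)) =
        Set.indicator (evC2 n A M y l) (fun _ => M / 512) := by
      funext ω
      by_cases h : ω ∈ evC2 n A M y l
      · rw [ind_true h, Set.indicator_of_mem h, mul_one]
      · rw [ind_false h, Set.indicator_of_notMem h, mul_zero]
    rw [this]
    exact (integrable_const _).indicator hE
  have h4 : ∫ ω, M / 512 * ind (ω ∈ evC2 n A M y l) ∂(mu DD) =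
      M / 512 * (mu DD).real (evC2 n A M y l) := by
    rw [integral_const_mul, integral_ind (mu DD) (fun ω => ω ∈ evC2 n A M y l) hE]
    rfl
  unfold Et
  rw [← h4, ← integral_add hi1 hi3]
  refine integral_mono_ae (hi1.add hi3) hi2 ?_
  filter_upwards [ae_hit (act n) A hR y] with ω hω
  have hω' : ∃ t, pos (act n) y ω t ∈ A ∪ st l := by
    obtain ⟨t, ht⟩ := hω
    exact ⟨t, Or.inl ht⟩
  obtain ⟨a1, a2⟩ := tau_spec (act n) y ω A hω
  obtain ⟨b1, b2⟩ := tau_spec (act n) y ω (A ∪ st l) hω'
  have hle : tau (act n) y ω (A ∪ st l) ≤ tau (act n) y ω A := by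
    by_contra h
    push Not at h
    exact b2 _ h (Or.inl a1)
  change (tau (act n) y ω (A ∪ st l) : ℝ) + M / 512 * ind (ω ∈ evC2 n A M y l) ≤ _
  by_cases h : ω ∈ evC2 n A M y l
  · rw [ind_true h, mul_one]
    obtain ⟨⟨i, hi, hil⟩, h5⟩ := h
    have h6 : tau (act n) y ω (A ∪ st l) ≤ i := by
      by_contra h7
      push Not at h7
      exact b2 _ h7 (Or.inr hil)
    have h8 : (tau (act n) y ω (A ∪ st l) : ℝ) ≤ i := by exact_mod_cast h6
    linarith
  · rw [ind_false h, mul_zero, add_zero]
    exact_mod_cast hle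

theorem lemC2 (B : ℝ) (hB : 1 ≤ B) : ∃ c : ℝ, 0 < c ∧ ∃ C : ℝ, 0 < C ∧ ∃ n0 : ℕ,
    ∀ (n : ℕ) [NeZero n], n0 ≤ n → ∀ A : Set (V n), A.Nonempty →
    C * (n : ℝ) ^ 2 ≤ MA n A → MA n A ≤ B * kk n →
    kop n (fun S => MA n S) A ≤ MA n A * (1 - c * (MA n A / kk n) ^ 2) := by
  obtain ⟨c, hc, C, hC, n0, h⟩ := lemC2a B hB
  refine ⟨c / 512, by positivity, C, hC, n0, ?_⟩
  intro n hn hn0 A hA h1 h2
  have h3 := h n hn0 A hA h1 h2
  set M := MA n A with hMdef
  have hn1 : (1 : ℝ) ≤ n := by exact_mod_cast Nat.one_le_iff_ne_zero.mpr (NeZero.ne n)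
  have hM : 0 < M := lt_of_lt_of_le (by positivity) h1
  -- the event of the two walks
  let E : V n → V n → Set ((ℕ → DD) × (ℕ → DD)) := fun u y =>
    {ω | (∃ i : ℕ, (i : ℝ) ≤ M / 512 ∧ pos (act n) y ω.2 i ∈ lerw (act n) u ω.1 A) ∧
      M / 256 ≤ (tau (act n) y ω.2 A : ℝ)}
  have hEm : ∀ u y, MeasurableSet (E u y) := by
    intro u y
    have hE : E u y = ⋃ l : List (V n), ({ω : ℕ → DD | lerw (act n) u ω A = l} ×ˢ
        evC2 n A M y l) := by
      ext ω
      simp only [Set.mem_iUnion, Set.mem_prod]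
      constructor
      · intro hω
        exact ⟨lerw (act n) u ω.1 A, rfl, hω⟩
      · rintro ⟨l, hl, hω⟩
        have hl' : lerw (act n) u ω.1 A = l := hl
        subst hl'
        exact hω
    rw [hE]
    refine MeasurableSet.iUnion fun l => MeasurableSet.prod ?_ (meas_evC2 n A M y l)
    exact measurableSet_setOfPred.mpr (measurable_lerw (act n) A u (fun l' => l' = l))
  have hEr : ∀ u y, (fun ω1 : ℕ → DD => (mu DD).real (evC2 n A M y (lerw (act n) u ω1 A))) =
      fun ω1 => ((mu DD) (Prod.mk ω1 ⁻¹' E u y)).toReal := by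
    intro u y
    rfl
  have hpr : ∀ u y, pr2 (E u y) =
      ∫ ω1, (mu DD).real (evC2 n A M y (lerw (act n) u ω1 A)) ∂(mu DD) := by
    intro u y
    rw [hEr, integral_toReal]
    · rw [pr2, Measure.real, Measure.prod_apply (hEm u y)]
    · exact (measurable_measure_prodMk_left (hEm u y)).aemeasurable
    · exact ae_of_all _ fun ω => measure_lt_top _ _
  have hint : ∀ u y, Integrable
      (fun ω1 : ℕ → DD => (mu DD).real (evC2 n A M y (lerw (act n) u ω1 A))) (mu DD) := by
    intro u y
    refine Integrable.of_bound (C := 1) ?_ (ae_of_all _ fun ω => ?_)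
    · exact (measurable_lerw (act n) A u
        (fun l => (mu DD).real (evC2 n A M y l))).aestronglyMeasurable
    · rw [Real.norm_eq_abs, abs_of_nonneg measureReal_nonneg]
      exact measureReal_le_one
  -- one step
  have hstep : ∀ (u : V n) (ω1 : ℕ → DD), MA n (A ∪ st (lerw (act n) u ω1 A)) ≤
      M - M / 512 * av (fun y : V n => (mu DD).real (evC2 n A M y (lerw (act n) u ω1 A))) := by
    intro u ω1
    rw [← av_mul_left, hMdef]
    change _ ≤ av (fun x => Et n A x) - _
    rw [← av_sub]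
    refine av_mono fun y => ?_
    have := step_C2 n A hA M hM y (lerw (act n) u ω1 A)
    linarith
  have hFint : ∀ u : V n, Integrable
      (fun ω1 : ℕ → DD => MA n (A ∪ st (lerw (act n) u ω1 A))) (mu DD) := by
    intro u
    refine Integrable.of_bound (C := M) ?_ (ae_of_all _ fun ω => ?_)
    · exact (measurable_lerw (act n) A u (fun l => MA n (A ∪ st l))).aestronglyMeasurable
    · have hne : (A ∪ st (lerw (act n) u ω A)).Nonempty := hA.mono Set.subset_union_left
      rw [Real.norm_eq_abs, abs_of_nonneg (MA_nonneg n _ hne)]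
      exact MA_mono n A hA Set.subset_union_left
  have hav : ∀ u : V n, ∫ ω1, MA n (A ∪ st (lerw (act n) u ω1 A)) ∂(mu DD) ≤
      M - M / 512 * av (fun y : V n => pr2 (E u y)) := by
    intro u
    have e1 : M - M / 512 * av (fun y : V n => pr2 (E u y)) =
        ∫ ω1, (M - M / 512 *
          av (fun y : V n => (mu DD).real (evC2 n A M y (lerw (act n) u ω1 A)))) ∂(mu DD) := by
      have hi : Integrable (fun ω1 : ℕ → DD =>
          av (fun y : V n => (mu DD).real (evC2 n A M y (lerw (act n) u ω1 A)))) (mu DD) := by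
        unfold av
        exact (integrable_finsetSum _ fun y _ => hint u y).div_const _
      rw [integral_sub (integrable_const _) (hi.const_mul _), integral_const_mul,
        ← av_integral (mu DD) _ (hint u)]
      simp only [hpr, integral_const, probReal_univ, smul_eq_mul, one_mul]
    rw [e1]
    refine integral_mono (hFint u) ?_ (hstep u)
    have hi : Integrable (fun ω1 : ℕ → DD =>
        av (fun y : V n => (mu DD).real (evC2 n A M y (lerw (act n) u ω1 A)))) (mu DD) := by
      unfold av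
      exact (integrable_finsetSum _ fun y _ => hint u y).div_const _
    exact (integrable_const _).sub (hi.const_mul _)
  have hk : kop n (fun S => MA n S) A ≤
      av (fun u : V n => M - M / 512 * av (fun y : V n => pr2 (E u y))) := by
    unfold kop
    exact av_mono hav
  have e2 : av (fun u : V n => M - M / 512 * av (fun y : V n => pr2 (E u y))) =
      M - M / 512 * av (fun u : V n => av (fun y : V n => pr2 (E u y))) := by
    rw [av_sub, av_mul_left, av_const]
  rw [e2] at hk
  have h4 : M / 512 * (c * (M / kk n) ^ 2) ≤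
      M / 512 * av (fun u : V n => av (fun y : V n => pr2 (E u y))) :=
    mul_le_mul_of_nonneg_left h3 (by positivity)
  refine hk.trans ?_
  have : M * (1 - c / 512 * (M / kk n) ^ 2) = M - M / 512 * (c * (M / kk n) ^ 2) := by ring
  rw [this]
  linarith

end Pool.Agent.UST
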