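import Pool.Agent.Helper54.UST.PmBasic
import Pool.Agent.Helper54.UST.Av

/-! Auxiliary lemmas for Lemmas U and U': the hitting probability of a deterministic target path. -/

namespace Pool.Agent.UST

open MeasureTheory

/-- a real function of the first `t` choices is integrable -/
theorem integrable_dep (t : ℕ) (f : (ℕ → DD) → ℝ)
    (hf : ∀ ω ω' : ℕ → DD, (∀ i, i < t → ω i = ω' i) → f ω = f ω') :
    Integrable f (mu DD) := by
  classical
  have hm : Measurable f := measurable_dep t f hf
  let ext : (Fin t → DD) → (ℕ → DD) := fun r i => if h : i < t then r ⟨i, h⟩ else (false, 0, false)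
  have hb : ∀ ω, ‖f ω‖ ≤ ∑ r : Fin t → DD, ‖f (ext r)‖ := by
    intro ω
    have h1 : f ω = f (ext (fun i => ω i)) := by
      apply hf
      intro i hi
      simp [ext, hi]
    rw [h1]
    exact Finset.single_le_sum (f := fun r : Fin t → DD => ‖f (ext r)‖)
      (fun r _ => norm_nonneg _) (Finset.mem_univ (fun i : Fin t => ω i))
  exact Integrable.of_bound hm.aestronglyMeasurable _ (Filter.Eventually.of_forall hb)

/-- the local intersection sum of the path `a` at the index `i` -/
noncomputable def Za (n b : ℕ) (a : ℕ → V n) (i : ℕ) : ℝ :=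
  ∑ i' ∈ Finset.range (b + 1), ∑ j' ∈ Finset.range (b + 1), hk n j' (a i) (a (i + i'))

theorem Za_pos (n : ℕ) (x : V n) (ω : ℕ → DD) (g i : ℕ) :
    Za n (b1 n) (fun i => pos (act n) x ω (g + i)) i = ZZ n (sh (g + i) ω) := by
  unfold Za ZZ
  refine Finset.sum_congr rfl fun i' _ => Finset.sum_congr rfl fun j' _ => ?_
  have h1 : pos (act n) x ω (g + (i + i')) =
      pos (act n) 0 (sh (g + i) ω) i' + pos (act n) x ω (g + i) := by
    rw [← pos_translate, zero_add, ← add_assoc, pos_add]
  simp only [h1]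
  have h2 := hk_translate n j' 0 (pos (act n) 0 (sh (g + i) ω) i') (pos (act n) x ω (g + i))
  rw [zero_add] at h2
  exact h2

theorem hk_nonneg (n t : ℕ) (x y : V n) : 0 ≤ hk n t x y := measureReal_nonneg

theorem Za_nonneg (n b : ℕ) (a : ℕ → V n) (i : ℕ) : 0 ≤ Za n b a i :=
  Finset.sum_nonneg fun _ _ => Finset.sum_nonneg fun _ _ => hk_nonneg _ _ _ _

/-- the first meeting of the walk with the target is `(j,i)` -/
def Fst (n : ℕ) (a : ℕ → V n) (y : V n) (s : ℕ) (j i : ℕ) (η : ℕ → DD) : Prop :=
  pos (act n) y η j = a i ∧ (∀ i', i' < i → a i' ≠ a i) ∧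
    ∀ j', j' < j → ∀ i', i' ≤ s → pos (act n) y η j' ≠ a i'

theorem Fst_dep (n : ℕ) (a : ℕ → V n) (y : V n) (s : ℕ) (j i : ℕ) (ω ω' : ℕ → DD)
    (h : ∀ k, k < j → ω k = ω' k) : Fst n a y s j i ω = Fst n a y s j i ω' := by
  unfold Fst
  have h1 : ∀ j', j' ≤ j → pos (act n) y ω j' = pos (act n) y ω' j' := fun j' hj' =>
    pos_congr _ _ _ _ _ fun i hi => h i (by omega)
  rw [h1 j le_rfl]
  simp only [eq_iff_iff]
  constructor
  · rintro ⟨e1, e2, e3⟩
    exact ⟨e1, e2, fun j' hj' i' hi' => by rw [← h1 j' hj'.le]; exact e3 j' hj' i' hi'⟩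
  · rintro ⟨e1, e2, e3⟩
    exact ⟨e1, e2, fun j' hj' i' hi' => by rw [h1 j' hj'.le]; exact e3 j' hj' i' hi'⟩

theorem Fst_unique (n : ℕ) (a : ℕ → V n) (y : V n) (s : ℕ) (j i j1 i1 : ℕ) (η : ℕ → DD)
    (hi : i ≤ s) (hi1 : i1 ≤ s) (h : Fst n a y s j i η) (h' : Fst n a y s j1 i1 η) :
    j = j1 ∧ i = i1 := by
  obtain ⟨e1, e2, e3⟩ := h
  obtain ⟨e1', e2', e3'⟩ := h'
  have hj : j = j1 := by
    rcases lt_trichotomy j j1 with h | h | h
    · exact absurd e1 (e3' j h i hi)
    · exact h
    · exact absurd e1' (e3 j1 h i1 hi1)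
  subst hj
  refine ⟨rfl, ?_⟩
  have ha : a i = a i1 := e1.symm.trans e1'
  rcases lt_trichotomy i i1 with h | h | h
  · exact absurd ha (e2' i h)
  · exact h
  · exact absurd ha.symm (e2 i1 h)

theorem Fst_exists (n : ℕ) (a : ℕ → V n) (y : V n) (m s : ℕ) (η : ℕ → DD)
    (h : ∃ j, j ≤ m ∧ ∃ i, i ≤ s ∧ pos (act n) y η j = a i) :
    ∃ j, j ≤ m ∧ ∃ i, i ≤ s ∧ Fst n a y s j i η := by
  classical
  have h1 : ∃ j, ∃ i, i ≤ s ∧ pos (act n) y η j = a i := by
    obtain ⟨j, _, i, hi, e⟩ := h
    exact ⟨j, i, hi, e⟩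
  let j := Nat.find h1
  have hjs := Nat.find_spec h1
  have hjm : j ≤ m := by
    obtain ⟨j', hj', i, hi, e⟩ := h
    exact (Nat.find_min' h1 ⟨i, hi, e⟩).trans hj'
  have h2 : ∃ i, pos (act n) y η j = a i := by
    obtain ⟨i, _, e⟩ := hjs
    exact ⟨i, e⟩
  let i := Nat.find h2
  have his := Nat.find_spec h2
  have hi : i ≤ s := by
    obtain ⟨i', hi', e⟩ := hjs
    exact (Nat.find_min' h2 e).trans hi'
  refine ⟨j, hjm, i, hi, his, ?_, ?_⟩
  · intro i' hi' e
    exact Nat.find_min h2 hi' (his.trans e.symm)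
  · intro j' hj' i' hi' e
    exact Nat.find_min h1 hj' ⟨i', hi', e⟩

theorem pr_nonneg (s : Set (ℕ → DD)) : 0 ≤ pr s := measureReal_nonneg

/-- Markov property at the first meeting -/
theorem Fst_markov (n : ℕ) [NeZero n] (a : ℕ → V n) (y : V n) (s : ℕ) (j i j' i' : ℕ) :
    ∫ η, ind (Fst n a y s j i η) * ind (pos (act n) y η (j + j') = a (i + i')) ∂(mu DD) =
      pr {η | Fst n a y s j i η} * hk n j' (a i) (a (i + i')) := by
  classical
  have h1 : ∀ η : ℕ → DD, ind (Fst n a y s j i η) * ind (pos (act n) y η (j + j') = a (i + i')) =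
      (fun ω η : ℕ → DD => ind (Fst n a y s j i ω) * ind (pos (act n) (a i) η j' = a (i + i')))
        η (sh j η) := by
    intro η
    by_cases hF : Fst n a y s j i η
    · have h3 : pos (act n) y η (j + j') = pos (act n) (a i) (sh j η) j' := by
        rw [pos_add, hF.1]
      simp only [h3]
    · simp only [ind_false hF, zero_mul]
  have hmF : MeasurableSet {η | Fst n a y s j i η} := by
    have h := measurable_dep (D := DD) j (fun η => Fst n a y s j i η)
      (fun ω ω' h => Fst_dep n a y s j i ω ω' h)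
    exact measurableSet_setOfPred.2 h
  have hmP : MeasurableSet {η : ℕ → DD | pos (act n) (a i) η j' = a (i + i')} := by
    have h := measurable_dep (D := DD) j' (fun η => pos (act n) (a i) η j' = a (i + i'))
      (fun ω ω' h => by rw [pos_congr _ _ _ _ _ h])
    exact measurableSet_setOfPred.2 h
  have hm1 : Measurable (fun η : ℕ → DD => ind (Fst n a y s j i η)) :=
    measurable_dep (D := DD) j _ (fun ω ω' h => by rw [Fst_dep n a y s j i ω ω' h])
  have hm2 : Measurable (fun η : ℕ → DD => ind (pos (act n) (a i) η j' = a (i + i'))) :=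
    measurable_dep (D := DD) j' _ (fun ω ω' h => by rw [pos_congr _ _ _ _ _ h])
  have h2 : ∫ η, ind (Fst n a y s j i η) * ind (pos (act n) y η (j + j') = a (i + i')) ∂(mu DD)
      = ∫ η, (fun ω η : ℕ → DD =>
        ind (Fst n a y s j i ω) * ind (pos (act n) (a i) η j' = a (i + i')))
        η (sh j η) ∂(mu DD) := integral_congr_ae (Filter.Eventually.of_forall h1)
  rw [h2, markov_int (D := DD) j (fun ω η : ℕ → DD =>
        ind (Fst n a y s j i ω) * ind (pos (act n) (a i) η j' = a (i + i'))) ?_ 1 ?_ ?_]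
  · simp only [integral_const_mul, integral_mul_const]
    rw [integral_ind _ _ hmF, integral_ind _ _ hmP]
    rfl
  · exact (hm1.comp measurable_fst).mul (hm2.comp measurable_snd)
  · intro ω η
    rw [abs_of_nonneg (mul_nonneg (ind_nonneg _) (ind_nonneg _))]
    exact mul_le_one₀ (ind_le_one _) (ind_nonneg _) (ind_le_one _)
  · intro ω ω' η h
    simp only [Fst_dep n a y s j i ω ω' h]

/-- hitting probability of a deterministic target path -/
theorem hit_target (n : ℕ) [NeZero n] (a : ℕ → V n) (y : V n) (m s b : ℕ) (κ : ℝ) (hκ : 0 < κ) :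
    pr {η | ∃ j, j ≤ m ∧ ∃ i, i ≤ s ∧ pos (act n) y η j = a i} ≤
      (1 / κ) * ∑ j ∈ Finset.range (m + b + 1), ∑ i ∈ Finset.range (s + b + 1), hk n j y (a i) +
      ∑ j ∈ Finset.range (m + 1), ∑ i ∈ Finset.range (s + 1),
        ind (Za n b a i < κ) * hk n j y (a i) := by
  classical
  have hmF : ∀ j i, MeasurableSet {η | Fst n a y s j i η} := fun j i => by
    have h := measurable_dep (D := DD) j (fun η => Fst n a y s j i η)
      (fun ω ω' h => Fst_dep n a y s j i ω ω' h)
    exact measurableSet_setOfPred.2 h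
  have hmP : ∀ j i, MeasurableSet {η : ℕ → DD | pos (act n) y η j = a i} := fun j i => by
    have h := measurable_dep (D := DD) j (fun η => pos (act n) y η j = a i)
      (fun ω ω' h => by rw [pos_congr _ _ _ _ _ h])
    exact measurableSet_setOfPred.2 h
  have hmH : MeasurableSet {η : ℕ → DD | ∃ j, j ≤ m ∧ ∃ i, i ≤ s ∧ pos (act n) y η j = a i} := by
    have h := measurable_dep (D := DD) m
      (fun η => ∃ j, j ≤ m ∧ ∃ i, i ≤ s ∧ pos (act n) y η j = a i)
      (fun ω ω' h => by
        simp only [eq_iff_iff]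
        constructor
        · rintro ⟨j, hj, i, hi, e⟩
          exact ⟨j, hj, i, hi, by rw [← e]; exact pos_congr _ _ _ _ _ fun k hk => (h k (by omega)).symm⟩
        · rintro ⟨j, hj, i, hi, e⟩
          exact ⟨j, hj, i, hi, by rw [← e]; exact pos_congr _ _ _ _ _ fun k hk => (h k (by omega))⟩)
    exact measurableSet_setOfPred.2 h
  -- integrability
  have hiF : ∀ j i, Integrable (fun η => ind (Fst n a y s j i η)) (mu DD) := fun j i =>
    integrable_dep j _ (fun ω ω' h => by rw [Fst_dep n a y s j i ω ω' h])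
  have hiP : ∀ j i, Integrable (fun η : ℕ → DD => ind (pos (act n) y η j = a i)) (mu DD) :=
    fun j i => integrable_dep j _ (fun ω ω' h => by rw [pos_congr _ _ _ _ _ h])
  have hiFP : ∀ j i j' i', Integrable (fun η : ℕ → DD =>
      ind (Fst n a y s j i η) * ind (pos (act n) y η (j + j') = a (i + i'))) (mu DD) := by
    intro j i j' i'
    refine integrable_dep (j + j') _ (fun ω ω' h => ?_)
    rw [pos_congr _ _ _ _ _ h, Fst_dep n a y s j i ω ω' (fun k hk => h k (by omega))]
  have hiH : Integrable (fun η : ℕ → DD =>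
      ind (∃ j, j ≤ m ∧ ∃ i, i ≤ s ∧ pos (act n) y η j = a i)) (mu DD) := by
    refine integrable_dep m _ (fun ω ω' h => ?_)
    congr 1
    simp only [eq_iff_iff]
    constructor
    · rintro ⟨j, hj, i, hi, e⟩
      exact ⟨j, hj, i, hi, by rw [← e]; exact pos_congr _ _ _ _ _ fun k hk => (h k (by omega)).symm⟩
    · rintro ⟨j, hj, i, hi, e⟩
      exact ⟨j, hj, i, hi, by rw [← e]; exact pos_congr _ _ _ _ _ fun k hk => (h k (by omega))⟩
  -- step 1
  have P1 : pr {η | ∃ j, j ≤ m ∧ ∃ i, i ≤ s ∧ pos (act n) y η j = a i} ≤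
      ∑ j ∈ Finset.range (m + 1), ∑ i ∈ Finset.range (s + 1), pr {η | Fst n a y s j i η} := by
    have e1 : pr {η | ∃ j, j ≤ m ∧ ∃ i, i ≤ s ∧ pos (act n) y η j = a i} =
        ∫ η, ind (∃ j, j ≤ m ∧ ∃ i, i ≤ s ∧ pos (act n) y η j = a i) ∂(mu DD) :=
      (integral_ind _ _ hmH).symm
    have e2 : ∑ j ∈ Finset.range (m + 1), ∑ i ∈ Finset.range (s + 1),
        pr {η | Fst n a y s j i η} =
        ∫ η, ∑ j ∈ Finset.range (m + 1), ∑ i ∈ Finset.range (s + 1),
          ind (Fst n a y s j i η) ∂(mu DD) := by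
      rw [integral_finsetSum _ (fun j _ => integrable_finsetSum _ fun i _ => hiF j i)]
      refine Finset.sum_congr rfl fun j _ => ?_
      rw [integral_finsetSum _ (fun i _ => hiF j i)]
      refine Finset.sum_congr rfl fun i _ => ?_
      exact (integral_ind _ _ (hmF j i)).symm
    rw [e1, e2]
    refine integral_mono hiH
      (integrable_finsetSum _ fun j _ => integrable_finsetSum _ fun i _ => hiF j i) ?_
    intro η
    have hnn : ∀ j ∈ Finset.range (m + 1), 0 ≤ ∑ i ∈ Finset.range (s + 1),
        ind (Fst n a y s j i η) := fun j _ => Finset.sum_nonneg fun i _ => ind_nonneg _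
    by_cases hH : ∃ j, j ≤ m ∧ ∃ i, i ≤ s ∧ pos (act n) y η j = a i
    · obtain ⟨j, hj, i, hi, hF⟩ := Fst_exists n a y m s η hH
      show ind _ ≤ _
      rw [ind_true hH]
      calc (1 : ℝ) = ind (Fst n a y s j i η) := (ind_true hF).symm
        _ ≤ ∑ i ∈ Finset.range (s + 1), ind (Fst n a y s j i η) :=
          Finset.single_le_sum (f := fun i => ind (Fst n a y s j i η))
            (fun i _ => ind_nonneg _) (Finset.mem_range.2 (by omega))
        _ ≤ _ := Finset.single_le_sum (f := fun j => ∑ i ∈ Finset.range (s + 1),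
            ind (Fst n a y s j i η)) hnn (Finset.mem_range.2 (by omega))
    · show ind _ ≤ _
      rw [ind_false hH]
      exact Finset.sum_nonneg hnn
  -- step 2
  have P2 : ∑ j ∈ Finset.range (m + 1), ∑ i ∈ Finset.range (s + 1),
      pr {η | Fst n a y s j i η} * Za n b a i ≤
      ∑ j ∈ Finset.range (m + b + 1), ∑ i ∈ Finset.range (s + b + 1), hk n j y (a i) := by
    have e1 : ∑ j ∈ Finset.range (m + 1), ∑ i ∈ Finset.range (s + 1),
        pr {η | Fst n a y s j i η} * Za n b a i =
        ∫ η, ∑ j ∈ Finset.range (m + 1), ∑ i ∈ Finset.range (s + 1),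
          ∑ i' ∈ Finset.range (b + 1), ∑ j' ∈ Finset.range (b + 1),
          ind (Fst n a y s j i η) * ind (pos (act n) y η (j + j') = a (i + i')) ∂(mu DD) := by
      rw [integral_finsetSum _ (fun j _ => integrable_finsetSum _ fun i _ =>
        integrable_finsetSum _ fun i' _ => integrable_finsetSum _ fun j' _ => hiFP j i j' i')]
      refine Finset.sum_congr rfl fun j _ => ?_
      rw [integral_finsetSum _ (fun i _ =>
        integrable_finsetSum _ fun i' _ => integrable_finsetSum _ fun j' _ => hiFP j i j' i')]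
      refine Finset.sum_congr rfl fun i _ => ?_
      rw [integral_finsetSum _ (fun i' _ => integrable_finsetSum _ fun j' _ => hiFP j i j' i')]
      rw [Za, Finset.mul_sum]
      refine Finset.sum_congr rfl fun i' _ => ?_
      rw [integral_finsetSum _ (fun j' _ => hiFP j i j' i'), Finset.mul_sum]
      refine Finset.sum_congr rfl fun j' _ => ?_
      rw [Fst_markov]
    have e2 : ∑ j ∈ Finset.range (m + b + 1), ∑ i ∈ Finset.range (s + b + 1), hk n j y (a i) =
        ∫ η, ∑ j ∈ Finset.range (m + b + 1), ∑ i ∈ Finset.range (s + b + 1),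
          ind (pos (act n) y η j = a i) ∂(mu DD) := by
      rw [integral_finsetSum _ (fun j _ => integrable_finsetSum _ fun i _ => hiP j i)]
      refine Finset.sum_congr rfl fun j _ => ?_
      rw [integral_finsetSum _ (fun i _ => hiP j i)]
      refine Finset.sum_congr rfl fun i _ => ?_
      exact (integral_ind _ _ (hmP j i)).symm
    rw [e1, e2]
    refine integral_mono
      (integrable_finsetSum _ fun j _ => integrable_finsetSum _ fun i _ =>
        integrable_finsetSum _ fun i' _ => integrable_finsetSum _ fun j' _ => hiFP j i j' i')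
      (integrable_finsetSum _ fun j _ => integrable_finsetSum _ fun i _ => hiP j i) ?_
    intro η
    show ∑ j ∈ Finset.range (m + 1), ∑ i ∈ Finset.range (s + 1),
          ∑ i' ∈ Finset.range (b + 1), ∑ j' ∈ Finset.range (b + 1),
          ind (Fst n a y s j i η) * ind (pos (act n) y η (j + j') = a (i + i')) ≤
      ∑ j ∈ Finset.range (m + b + 1), ∑ i ∈ Finset.range (s + b + 1),
          ind (pos (act n) y η j = a i)
    have hnn : 0 ≤ ∑ j ∈ Finset.range (m + b + 1), ∑ i ∈ Finset.range (s + b + 1),
          ind (pos (act n) y η j = a i) :=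
      Finset.sum_nonneg fun j _ => Finset.sum_nonneg fun i _ => ind_nonneg _
    by_cases hE : ∃ j, j ≤ m ∧ ∃ i, i ≤ s ∧ Fst n a y s j i η
    · obtain ⟨j0, hj0, i0, hi0, hF⟩ := hE
      have h1 : ∑ j ∈ Finset.range (m + 1), ∑ i ∈ Finset.range (s + 1),
          ∑ i' ∈ Finset.range (b + 1), ∑ j' ∈ Finset.range (b + 1),
          ind (Fst n a y s j i η) * ind (pos (act n) y η (j + j') = a (i + i')) =
          ∑ i' ∈ Finset.range (b + 1), ∑ j' ∈ Finset.range (b + 1),
            ind (pos (act n) y η (j0 + j') = a (i0 + i')) := by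
        rw [Finset.sum_eq_single j0]
        · rw [Finset.sum_eq_single i0]
          · simp only [ind_true hF, one_mul]
          · intro i hi hne
            have : ¬ Fst n a y s j0 i η := fun h =>
              hne ((Fst_unique n a y s j0 i j0 i0 η (by simpa using Finset.mem_range.1 hi |> Nat.lt_succ_iff.1)
                hi0 h hF).2)
            simp only [ind_false this, zero_mul, Finset.sum_const_zero]
          · intro h
            exact absurd (Finset.mem_range.2 (by omega)) h
        · intro j hj hne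
          refine Finset.sum_eq_zero fun i hi => ?_
          have : ¬ Fst n a y s j i η := fun h =>
            hne ((Fst_unique n a y s j i j0 i0 η (by have := Finset.mem_range.1 hi; omega)
              hi0 h hF).1)
          simp only [ind_false this, zero_mul, Finset.sum_const_zero]
        · intro h
          exact absurd (Finset.mem_range.2 (by omega)) h
      rw [h1, Finset.sum_comm]
      -- injection
      have h2 : ∑ j' ∈ Finset.range (b + 1), ∑ i' ∈ Finset.range (b + 1),
            ind (pos (act n) y η (j0 + j') = a (i0 + i')) =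
          ∑ j ∈ Finset.Ico j0 (j0 + (b + 1)), ∑ i ∈ Finset.Ico i0 (i0 + (b + 1)),
            ind (pos (act n) y η j = a i) := by
        rw [Finset.sum_Ico_eq_sum_range]
        simp only [Nat.add_sub_cancel_left]
        refine Finset.sum_congr rfl fun j' _ => ?_
        rw [Finset.sum_Ico_eq_sum_range]
        simp only [Nat.add_sub_cancel_left]
      rw [h2]
      calc ∑ j ∈ Finset.Ico j0 (j0 + (b + 1)), ∑ i ∈ Finset.Ico i0 (i0 + (b + 1)),
            ind (pos (act n) y η j = a i)
          ≤ ∑ j ∈ Finset.Ico j0 (j0 + (b + 1)), ∑ i ∈ Finset.range (s + b + 1),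
            ind (pos (act n) y η j = a i) := by
            refine Finset.sum_le_sum fun j _ => ?_
            refine Finset.sum_le_sum_of_subset_of_nonneg ?_ (fun i _ _ => ind_nonneg _)
            intro i hi
            rw [Finset.mem_Ico] at hi
            exact Finset.mem_range.2 (by omega)
        _ ≤ _ := by
            refine Finset.sum_le_sum_of_subset_of_nonneg ?_
              (fun j _ _ => Finset.sum_nonneg fun i _ => ind_nonneg _)
            intro j hj
            rw [Finset.mem_Ico] at hj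
            exact Finset.mem_range.2 (by omega)
    · have h1 : ∑ j ∈ Finset.range (m + 1), ∑ i ∈ Finset.range (s + 1),
          ∑ i' ∈ Finset.range (b + 1), ∑ j' ∈ Finset.range (b + 1),
          ind (Fst n a y s j i η) * ind (pos (act n) y η (j + j') = a (i + i')) = 0 := by
        refine Finset.sum_eq_zero fun j hj => Finset.sum_eq_zero fun i hi => ?_
        have : ¬ Fst n a y s j i η := fun h =>
          hE ⟨j, by have := Finset.mem_range.1 hj; omega, i, by have := Finset.mem_range.1 hi; omega, h⟩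
        simp only [ind_false this, zero_mul, Finset.sum_const_zero]
      rw [h1]
      exact hnn
  -- step 3
  have P3 : ∀ j i, pr {η | Fst n a y s j i η} ≤
      (1 / κ) * (pr {η | Fst n a y s j i η} * Za n b a i) +
      ind (Za n b a i < κ) * hk n j y (a i) := by
    intro j i
    have hz := Za_nonneg n b a i
    have hp := pr_nonneg {η | Fst n a y s j i η}
    have hh : pr {η | Fst n a y s j i η} ≤ hk n j y (a i) := by
      refine measureReal_mono ?_ (measure_ne_top _ _)
      intro η hη
      exact hη.1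
    by_cases hb : Za n b a i < κ
    · rw [ind_true hb, one_mul]
      have : 0 ≤ (1 / κ) * (pr {η | Fst n a y s j i η} * Za n b a i) := by positivity
      linarith
    · rw [ind_false hb, zero_mul, add_zero]
      rw [not_lt] at hb
      rw [one_div, ← div_eq_inv_mul, le_div_iff₀ hκ]
      exact mul_le_mul_of_nonneg_left hb hp
  calc pr {η | ∃ j, j ≤ m ∧ ∃ i, i ≤ s ∧ pos (act n) y η j = a i}
      ≤ ∑ j ∈ Finset.range (m + 1), ∑ i ∈ Finset.range (s + 1), pr {η | Fst n a y s j i η} := P1
    _ ≤ ∑ j ∈ Finset.range (m + 1), ∑ i ∈ Finset.range (s + 1),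
        ((1 / κ) * (pr {η | Fst n a y s j i η} * Za n b a i) +
          ind (Za n b a i < κ) * hk n j y (a i)) :=
        Finset.sum_le_sum fun j _ => Finset.sum_le_sum fun i _ => P3 j i
    _ = (1 / κ) * (∑ j ∈ Finset.range (m + 1), ∑ i ∈ Finset.range (s + 1),
          pr {η | Fst n a y s j i η} * Za n b a i) +
        ∑ j ∈ Finset.range (m + 1), ∑ i ∈ Finset.range (s + 1),
          ind (Za n b a i < κ) * hk n j y (a i) := by
        simp only [Finset.sum_add_distrib, Finset.mul_sum]
    _ ≤ _ := by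
        have := mul_le_mul_of_nonneg_left P2 (by positivity : 0 ≤ 1 / κ)
        linarith

end Pool.Agent.UST
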