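import Pool.Agent.Helper54.UST.LemZ
import Pool.Agent.Helper54.UST.PmBasic
import Pool.Agent.Helper54.UST.LemUAux

/-! Paper Lemma U. -/

namespace Pool.Agent.UST

open MeasureTheory

theorem card_V (n : ℕ) [NeZero n] : (Fintype.card (V n) : ℝ) = NN n := by
  simp [NN, ZMod.card]

theorem av_hk (n : ℕ) [NeZero n] (j : ℕ) (v : V n) : av (fun y : V n => hk n j y v) = 1 / NN n := by
  unfold av
  rw [card_V]
  congr 1
  rw [← hk_sum n j v]
  exact Finset.sum_congr rfl fun y _ => hk_symm n j y v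

theorem ZZ_dep (n : ℕ) (ω ω' : ℕ → DD) (h : ∀ i, i < b1 n → ω i = ω' i) : ZZ n ω = ZZ n ω' := by
  unfold ZZ
  refine Finset.sum_congr rfl fun i hi => Finset.sum_congr rfl fun j _ => ?_
  rw [pos_congr _ _ _ _ _ fun k hk => h k (by have := Finset.mem_range.1 hi; omega)]

theorem bad_shift (n : ℕ) [NeZero n] (κ : ℝ) (i : ℕ) :
    ∫ ω, ind (ZZ n (sh i ω) < κ) ∂(mu DD) = pr {ω | ZZ n ω < κ} := by
  have hm : Measurable (fun η : ℕ → DD => ind (ZZ n η < κ)) :=
    measurable_dep (D := DD) (b1 n) _ (fun ω ω' h => by rw [ZZ_dep n ω ω' h])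
  have hmS : MeasurableSet {η : ℕ → DD | ZZ n η < κ} := by
    have h := measurable_dep (D := DD) (b1 n) (fun η => ZZ n η < κ)
      (fun ω ω' h => by rw [ZZ_dep n ω ω' h])
    exact measurableSet_setOfPred.2 h
  have h := markov_int (D := DD) i (fun _ η => ind (ZZ n η < κ)) (hm.comp measurable_snd) 1
    (fun ω η => by rw [abs_of_nonneg (ind_nonneg _)]; exact ind_le_one _) (fun _ _ _ _ => rfl)
  rw [h]
  simp only [integral_const, probReal_univ, smul_eq_mul, one_mul]
  exact integral_ind _ _ hmS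

theorem lemU : ∃ C : ℝ, 0 < C ∧ ∃ n0 : ℕ, ∀ (n : ℕ) [NeZero n], n0 ≤ n →
    ∀ (m s : ℕ) (x : V n), b1 n ≤ m → b1 n ≤ s →
    ∫ ω, pm n m (st (seg (act n) x ω 0 s)) ∂(mu DD) ≤ C * m * s / (NN n * LL n) := by
  classical
  obtain ⟨c, hc, Cz, hCz, n1, hZ⟩ := lemZ
  refine ⟨9 / c + 4 * Cz, by positivity, max n1 2, ?_⟩
  intro n _ hn m s x hm hs
  have hn2 : 2 ≤ n := le_trans (le_max_right _ _) hn
  have hn1 : n1 ≤ n := le_trans (le_max_left _ _) hn
  have hL : 0 < LL n := by
    unfold LL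
    exact Real.log_pos (by exact_mod_cast hn2)
  have hN : 0 < NN n := by
    unfold NN
    positivity
  have hb1 : 1 ≤ b1 n := by
    unfold b1
    rw [Nat.le_sqrt]
    omega
  set κ := c * LL n with hκdef
  have hκ : 0 < κ := by positivity
  set b := b1 n with hb
  -- pointwise bound
  have hpt : ∀ ω : ℕ → DD, pm n m (st (seg (act n) x ω 0 s)) ≤
      (1 / κ) * (((m + b + 1 : ℕ) : ℝ) * ((s + b + 1 : ℕ) : ℝ) / NN n) +
      ((m + 1 : ℕ) : ℝ) / NN n * ∑ i ∈ Finset.range (s + 1), ind (ZZ n (sh i ω) < κ) := by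
    intro ω
    have h1 : ∀ y : V n, pr {η | hit (act n) y η 0 m (st (seg (act n) x ω 0 s))} ≤
        (1 / κ) * ∑ j ∈ Finset.range (m + b + 1), ∑ i ∈ Finset.range (s + b + 1),
          hk n j y (pos (act n) x ω i) +
        ∑ j ∈ Finset.range (m + 1), ∑ i ∈ Finset.range (s + 1),
          ind (ZZ n (sh i ω) < κ) * hk n j y (pos (act n) x ω i) := by
      intro y
      have h2 : {η | hit (act n) y η 0 m (st (seg (act n) x ω 0 s))} =
          {η | ∃ j, j ≤ m ∧ ∃ i, i ≤ s ∧ pos (act n) y η j = pos (act n) x ω i} := by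
        ext η
        simp only [Set.mem_ofPred_eq, hit, st, mem_seg]
        constructor
        · rintro ⟨j, _, hj, i, _, hi, e⟩
          exact ⟨j, hj, i, hi, e.symm⟩
        · rintro ⟨j, hj, i, hi, e⟩
          exact ⟨j, Nat.zero_le _, hj, i, Nat.zero_le _, hi, e.symm⟩
      rw [h2]
      have h3 := hit_target n (fun i => pos (act n) x ω i) y m s b κ hκ
      have h4 : ∀ i, Za n b (fun i => pos (act n) x ω i) i = ZZ n (sh i ω) := by
        intro i
        have := Za_pos n x ω 0 i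
        simpa only [zero_add] using this
      simp only [h4] at h3
      exact h3
    unfold pm
    refine (av_mono h1).trans (le_of_eq ?_)
    rw [av_add, av_mul_left]
    congr 1
    · congr 1
      rw [av_sum]
      have : ∀ j ∈ Finset.range (m + b + 1), av (fun y : V n => ∑ i ∈ Finset.range (s + b + 1),
          hk n j y (pos (act n) x ω i)) = ((s + b + 1 : ℕ) : ℝ) * (1 / NN n) := by
        intro j _
        rw [av_sum]
        simp only [av_hk, Finset.sum_const, Finset.card_range, nsmul_eq_mul]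
      rw [Finset.sum_congr rfl this]
      simp only [Finset.sum_const, Finset.card_range, nsmul_eq_mul]
      ring
    · rw [av_sum]
      have : ∀ j ∈ Finset.range (m + 1), av (fun y : V n => ∑ i ∈ Finset.range (s + 1),
          ind (ZZ n (sh i ω) < κ) * hk n j y (pos (act n) x ω i)) =
          (∑ i ∈ Finset.range (s + 1), ind (ZZ n (sh i ω) < κ)) * (1 / NN n) := by
        intro j _
        rw [av_sum, Finset.sum_mul]
        refine Finset.sum_congr rfl fun i _ => ?_
        rw [av_mul_left, av_hk]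
      rw [Finset.sum_congr rfl this]
      simp only [Finset.sum_const, Finset.card_range, nsmul_eq_mul]
      ring
  -- integrability
  have hiB : ∀ i, Integrable (fun ω : ℕ → DD => ind (ZZ n (sh i ω) < κ)) (mu DD) := by
    intro i
    refine integrable_dep (i + b1 n) _ (fun ω ω' h => ?_)
    rw [ZZ_dep n (sh i ω) (sh i ω') (fun k hk => h (i + k) (by omega))]
  have hiP : Integrable (fun ω : ℕ → DD => pm n m (st (seg (act n) x ω 0 s))) (mu DD) := by
    refine integrable_dep s _ (fun ω ω' h => ?_)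
    rw [seg_congr _ _ _ _ _ _ h]
  have hiR : Integrable (fun ω : ℕ → DD =>
      (1 / κ) * (((m + b + 1 : ℕ) : ℝ) * ((s + b + 1 : ℕ) : ℝ) / NN n) +
      ((m + 1 : ℕ) : ℝ) / NN n * ∑ i ∈ Finset.range (s + 1), ind (ZZ n (sh i ω) < κ)) (mu DD) :=
    (integrable_const _).add ((integrable_finsetSum _ fun i _ => hiB i).const_mul _)
  have hint := integral_mono hiP hiR hpt
  refine hint.trans ?_
  rw [integral_add (integrable_const _) ((integrable_finsetSum _ fun i _ => hiB i).const_mul _),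
    integral_const_mul, integral_const_mul, integral_finsetSum _ (fun i _ => hiB i)]
  simp only [bad_shift, integral_const, probReal_univ, smul_eq_mul, one_mul, Finset.sum_const,
    Finset.card_range, nsmul_eq_mul]
  have hbad : pr {ω | ZZ n ω < κ} ≤ Cz / LL n := hZ n hn1
  have hm1 : (1 : ℝ) ≤ m := by exact_mod_cast hb1.trans hm
  have hs1 : (1 : ℝ) ≤ s := by exact_mod_cast hb1.trans hs
  have hbm : (b : ℝ) ≤ m := by exact_mod_cast hm
  have hbs : (b : ℝ) ≤ s := by exact_mod_cast hs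
  have hb0 : (0 : ℝ) ≤ b := Nat.cast_nonneg _
  push_cast
  have e1 : ((m : ℝ) + b + 1) * ((s : ℝ) + b + 1) ≤ 9 * (m * s) := by nlinarith
  have e2 : ((m : ℝ) + 1) * ((s : ℝ) + 1) ≤ 4 * (m * s) := by nlinarith
  calc 1 / κ * (((m : ℝ) + b + 1) * ((s : ℝ) + b + 1) / NN n) +
        ((m : ℝ) + 1) / NN n * (((s : ℝ) + 1) * pr {ω | ZZ n ω < κ})
      ≤ 1 / κ * ((9 * (m * s)) / NN n) + ((m : ℝ) + 1) / NN n * (((s : ℝ) + 1) * (Cz / LL n)) := by
        gcongr
    _ = 9 / c * m * s / (NN n * LL n) +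
        (((m : ℝ) + 1) * ((s : ℝ) + 1)) * (Cz / (NN n * LL n)) := by
        rw [hκdef]
        field_simp
    _ ≤ 9 / c * m * s / (NN n * LL n) + (4 * (m * s)) * (Cz / (NN n * LL n)) := by
        gcongr
    _ = (9 / c + 4 * Cz) * m * s / (NN n * LL n) := by
        field_simp

end Pool.Agent.UST
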