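import Pool.Agent.Helper54.UST.Tau
import Pool.Agent.Helper54.UST.LemU

/-! Returns of the walk to its first part after time `t0` and before the hitting time of `A`. -/

namespace Pool.Agent.UST

open MeasureTheory

private theorem ind_true' {P : Prop} (h : P) : ind P = 1 := by
  unfold ind
  exact if_pos h

private theorem ind_false' {P : Prop} (h : ¬ P) : ind P = 0 := by
  unfold ind
  exact if_neg h

private theorem ind_nonneg' (P : Prop) : 0 ≤ ind P := by
  by_cases h : P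
  · rw [ind_true' h]; exact zero_le_one
  · rw [ind_false' h]

private theorem ind_le_one' (P : Prop) : ind P ≤ 1 := by
  by_cases h : P
  · rw [ind_true' h]
  · rw [ind_false' h]; exact zero_le_one

private theorem ind_and' (P Q : Prop) : ind (P ∧ Q) = ind P * ind Q := by
  by_cases h1 : P
  · by_cases h2 : Q
    · rw [ind_true' h1, ind_true' h2, ind_true' (And.intro h1 h2)]
      norm_num
    · rw [ind_false' h2, ind_false' (fun h : P ∧ Q => h2 h.2)]
      norm_num
  · rw [ind_false' h1, ind_false' (fun h : P ∧ Q => h1 h.1)]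
    norm_num

private theorem pr_int (E : Set (ℕ → DD)) (hE : MeasurableSet E) :
    pr E = ∫ ω, ind (ω ∈ E) ∂(mu DD) := by
  unfold pr
  rw [← integral_indicator_one hE]
  refine integral_congr_ae (Filter.Eventually.of_forall fun ω => ?_)
  by_cases h : ω ∈ E
  · simp only [Set.indicator_of_mem h, Pi.one_apply]
    exact (ind_true' h).symm
  · simp only [Set.indicator_of_notMem h]
    exact (ind_false' h).symm

private theorem rb_mu_prob : IsProbabilityMeasure (mu DD) := by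
  unfold mu
  infer_instance

/-- union of a sequence of events with geometric bounds -/
private theorem pr_union (E : ℕ → Set (ℕ → DD)) (c r : ℝ) (hc : 0 ≤ c) (h0 : 0 ≤ r) (h1 : r < 1)
    (h : ∀ q, pr (E q) ≤ c * r ^ q) : pr (⋃ q, E q) ≤ c * (1 - r)⁻¹ := by
  have := rb_mu_prob
  have hs : Summable (fun q : ℕ => c * r ^ q) := (summable_geometric_of_lt_one h0 h1).mul_left c
  have ht : ∑' q : ℕ, c * r ^ q = c * (1 - r)⁻¹ := by
    rw [tsum_mul_left, tsum_geometric_of_lt_one h0 h1]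
  have h2 : mu DD (⋃ q, E q) ≤ ENNReal.ofReal (c * (1 - r)⁻¹) := by
    calc mu DD (⋃ q, E q) ≤ ∑' q, mu DD (E q) := measure_iUnion_le _
      _ ≤ ∑' q, ENNReal.ofReal (c * r ^ q) := by
          refine ENNReal.tsum_le_tsum fun q => ?_
          rw [← ENNReal.ofReal_toReal (measure_ne_top (mu DD) (E q))]
          exact ENNReal.ofReal_le_ofReal (h q)
      _ = ENNReal.ofReal (∑' q : ℕ, c * r ^ q) :=
          (ENNReal.ofReal_tsum_of_nonneg (fun q => mul_nonneg hc (pow_nonneg h0 q)) hs).symm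
      _ = ENNReal.ofReal (c * (1 - r)⁻¹) := by rw [ht]
  have h3 : 0 ≤ c * (1 - r)⁻¹ := mul_nonneg hc (inv_nonneg.2 (by linarith))
  unfold pr Measure.real
  exact ENNReal.toReal_le_of_le_ofReal h3 h2

private theorem hit_congr' {n : ℕ} (x : V n) (ω ω' : ℕ → DD) (s t : ℕ) (B : Set (V n))
    (h : ∀ i, i < t → ω i = ω' i) : hit (act n) x ω s t B ↔ hit (act n) x ω' s t B := by
  constructor
  · rintro ⟨i, h1, h2, h3⟩
    refine ⟨i, h1, h2, ?_⟩
    rwa [← pos_congr (act n) x ω ω' i fun k hk => h k (by omega)]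
  · rintro ⟨i, h1, h2, h3⟩
    refine ⟨i, h1, h2, ?_⟩
    rwa [pos_congr (act n) x ω ω' i fun k hk => h k (by omega)]

/-- one window -/
private theorem window (n : ℕ) [NeZero n] (A : Set (V n)) (hA : A.Nonempty) (H : ℝ) (hH : 1 ≤ H)
    (hE : ∀ x, Et n A x ≤ H) (x : V n) (j m q : ℕ) :
    pr {ω | ¬ hit (act n) x ω 0 (j + q * m) A ∧
      hit (act n) x ω (j + q * m + t0 n) (j + q * m + t0 n + m) (st (seg (act n) x ω 0 j))} ≤
    2 * ((2 * (2 : ℝ) ^ (-(((q * m : ℕ) : ℝ) / (3 * H)))) *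
      ∫ ω, pm n m (st (seg (act n) x ω 0 j)) ∂(mu DD)) := by
  have := rb_mu_prob
  set B : (ℕ → DD) → Set (V n) := fun ω => st (seg (act n) x ω 0 j) with hB
  have hBdep : ∀ ω ω' : ℕ → DD, (∀ i, i < j → ω i = ω' i) → B ω = B ω' := fun ω ω' h => by
    simp only [hB]
    rw [seg_congr (act n) x ω ω' 0 j h]
  set s := j + q * m + t0 n with hs
  have hs1 : s - t0 n = j + q * m := by omega
  have hmeas : MeasurableSet {ω : ℕ → DD | ¬ hit (act n) x ω 0 (j + q * m) A ∧
      hit (act n) x ω s (s + m) (B ω)} := by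
    have h1 : Measurable (fun ω : ℕ → DD => (¬ hit (act n) x ω 0 (j + q * m) A ∧
      hit (act n) x ω s (s + m) (B ω) : Prop)) := by
      refine measurable_dep (s + m) _ fun ω ω' h => ?_
      have h2 := hit_congr' x ω ω' 0 (j + q * m) A fun i hi => h i (by omega)
      have h3 := hBdep ω ω' fun i hi => h i (by omega)
      have h4 := hit_congr' x ω ω' s (s + m) (B ω) fun i hi => h i hi
      rw [← h3]
      exact propext (and_congr (not_congr h2) h4)
    exact measurableSet_setOfPred.2 h1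
  rw [pr_int _ hmeas]
  have hsplit : ∀ ω : ℕ → DD, ind (ω ∈ {ω : ℕ → DD | ¬ hit (act n) x ω 0 (j + q * m) A ∧
      hit (act n) x ω s (s + m) (B ω)}) =
      ind (¬ hit (act n) x ω 0 (j + q * m) A) * ind (hit (act n) x ω s (s + m) (B ω)) := by
    intro ω
    exact ind_and' _ _
  rw [integral_congr_ae (Filter.Eventually.of_forall hsplit)]
  have hmix := hit_mix_le n x s m (by omega)
    (fun ω => ind (¬ hit (act n) x ω 0 (j + q * m) A)) (fun ω => ind_nonneg' _) B
    (fun ω ω' h => by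
      have h2 := hit_congr' x ω ω' 0 (j + q * m) A fun i hi => h i (by omega)
      simp only [h2])
    (fun ω ω' h => hBdep ω ω' fun i hi => h i (by omega))
  refine le_trans hmix ?_
  refine mul_le_mul_of_nonneg_left ?_ (by norm_num)
  have hae : ∀ᵐ ω ∂(mu DD), ind (¬ hit (act n) x ω 0 (j + q * m) A) * pm n m (B ω) =
      pm n m (B ω) * ind (j + q * m < tau (act n) x ω A) := by
    filter_upwards [ae_hit (act n) A (act_reach n A hA) x] with ω hω
    rw [mul_comm]
    congr 2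
    exact propext (lt_tau_iff (act n) x ω A hω (j + q * m)).symm
  rw [integral_congr_ae hae]
  have hsv := survive n A hA H hH hE x j (q * m) (fun ω => pm n m (B ω))
    (fun ω => pm_nonneg n m (B ω)) (fun ω ω' h => by simp only [hBdep ω ω' h])
  refine le_trans hsv ?_
  refine mul_le_mul_of_nonneg_left ?_ (by positivity)
  have hint : Integrable (fun ω => pm n m (B ω)) (mu DD) := by
    refine Integrable.of_bound (measurable_dep j _ fun ω ω' h => by
      simp only [hBdep ω ω' h]).aestronglyMeasurable 1 (Filter.Eventually.of_forall fun ω => ?_)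
    rw [Real.norm_eq_abs, abs_of_nonneg (pm_nonneg n m _)]
    exact pm_le_one n m _
  refine integral_mono_of_nonneg (Filter.Eventually.of_forall fun ω =>
    mul_nonneg (pm_nonneg n m _) (ind_nonneg' _)) hint (Filter.Eventually.of_forall fun ω => ?_)
  calc pm n m (B ω) * ind (j < tau (act n) x ω A) ≤ pm n m (B ω) * 1 :=
        mul_le_mul_of_nonneg_left (ind_le_one' _) (pm_nonneg n m _)
    _ = pm n m (B ω) := mul_one _

theorem rb : ∃ C : ℝ, 0 < C ∧ ∃ n0 : ℕ, ∀ (n : ℕ) [NeZero n], n0 ≤ n →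
    ∀ (A : Set (V n)), A.Nonempty → ∀ H : ℝ, (n : ℝ) ^ 2 ≤ H → (∀ x, Et n A x ≤ H) →
    ∀ (x : V n) (j : ℕ), b1 n ≤ j →
    pr {ω | ∃ a, a ≤ j ∧ ∃ l, j + t0 n ≤ l ∧ l < tau (act n) x ω A ∧
      pos (act n) x ω l = pos (act n) x ω a} ≤ C * H * j / (NN n * LL n) := by
  obtain ⟨CU, hCU, n0, hU⟩ := lemU
  obtain ⟨r, hr⟩ : ∃ r : ℝ, r = (2 : ℝ) ^ (-(1 / 3 : ℝ)) := ⟨_, rfl⟩
  have hr0 : 0 < r := by rw [hr]; positivity
  have hr1 : r < 1 := by
    rw [hr]
    exact Real.rpow_lt_one_of_one_lt_of_neg (by norm_num) (by norm_num)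
  have hr2 : 0 < (1 - r)⁻¹ := inv_pos.2 (by linarith)
  refine ⟨8 * CU * (1 - r)⁻¹, by positivity, n0, ?_⟩
  intro n hn hn0 A hA H hH hE x j hj
  have := rb_mu_prob
  have hn1 : 1 ≤ n := Nat.one_le_iff_ne_zero.2 (NeZero.ne n)
  have hn1' : (1 : ℝ) ≤ n := by exact_mod_cast hn1
  have hH1 : 1 ≤ H := le_trans (one_le_pow₀ hn1') hH
  have hH0 : 0 < H := by linarith
  obtain ⟨m, hm⟩ : ∃ m : ℕ, m = ⌈H⌉₊ := ⟨_, rfl⟩
  have hmH : H ≤ m := by rw [hm]; exact Nat.le_ceil H
  have hmH2 : (m : ℝ) ≤ 2 * H := by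
    have := (Nat.ceil_lt_add_one hH0.le).le
    rw [← hm] at this
    linarith
  have hm0 : 0 < m := by
    rw [hm]; exact Nat.ceil_pos.2 hH0
  have hb1 : b1 n ≤ m := by
    have h1 : b1 n ≤ n := Nat.sqrt_le_self n
    have h2 : (n : ℝ) ≤ m := by
      have : (n : ℝ) ≤ (n : ℝ) ^ 2 := by nlinarith
      linarith
    exact le_trans h1 (by exact_mod_cast h2)
  have hNL : 0 ≤ NN n * LL n := by
    unfold NN LL
    exact mul_nonneg (by positivity) (Real.log_nonneg hn1')
  have hI := hU n hn0 m j x hb1 hj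
  set I := ∫ ω, pm n m (st (seg (act n) x ω 0 j)) ∂(mu DD) with hIdef
  have hI0 : 0 ≤ I := integral_nonneg fun ω => pm_nonneg n m _
  set E : ℕ → Set (ℕ → DD) := fun q => {ω | ¬ hit (act n) x ω 0 (j + q * m) A ∧
      hit (act n) x ω (j + q * m + t0 n) (j + q * m + t0 n + m)
        (st (seg (act n) x ω 0 j))} with hEdef
  have hw : ∀ q, pr (E q) ≤ (4 * I) * r ^ q := by
    intro q
    have h1 := window n A hA H hH1 hE x j m q
    have h2 : (2 : ℝ) ^ (-(((q * m : ℕ) : ℝ) / (3 * H))) ≤ r ^ q := by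
      rw [hr, ← Real.rpow_natCast, ← Real.rpow_mul (by norm_num)]
      apply Real.rpow_le_rpow_of_exponent_le (by norm_num)
      have h3 : (q : ℝ) / 3 ≤ ((q * m : ℕ) : ℝ) / (3 * H) := by
        rw [div_le_div_iff₀ (by norm_num) (by positivity)]
        push_cast
        have : (q : ℝ) * H ≤ q * m := mul_le_mul_of_nonneg_left hmH (Nat.cast_nonneg q)
        linarith
      linarith
    calc pr (E q) ≤ 2 * ((2 * (2 : ℝ) ^ (-(((q * m : ℕ) : ℝ) / (3 * H)))) * I) := h1
      _ ≤ 2 * ((2 * r ^ q) * I) := by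
          have := mul_le_mul_of_nonneg_right h2 hI0
          nlinarith
      _ = (4 * I) * r ^ q := by ring
  have hsub : {ω | ∃ a, a ≤ j ∧ ∃ l, j + t0 n ≤ l ∧ l < tau (act n) x ω A ∧
      pos (act n) x ω l = pos (act n) x ω a} ⊆ ⋃ q, E q := by
    rintro ω ⟨a, ha, l, hl, hlt, hpos⟩
    have hex : ∃ t, pos (act n) x ω t ∈ A := by
      by_contra hno
      have h0 : tau (act n) x ω A = 0 := by
        have : {t | pos (act n) x ω t ∈ A} = ∅ := by
          ext t
          exact ⟨fun ht => hno ⟨t, ht⟩, fun ht => ht.elim⟩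
        unfold tau
        rw [this]
        exact Nat.sInf_empty
      omega
    obtain ⟨q, hq⟩ : ∃ q, q = (l - (j + t0 n)) / m := ⟨_, rfl⟩
    have hdm := Nat.div_add_mod (l - (j + t0 n)) m
    have hml := Nat.mod_lt (l - (j + t0 n)) hm0
    rw [← hq] at hdm
    rw [Nat.mul_comm m q] at hdm
    refine Set.mem_iUnion.2 ⟨q, ?_, ?_⟩
    · have hn' := (lt_tau_iff (act n) x ω A hex l).1 hlt
      rintro ⟨i, hi0, hi1, hi2⟩
      exact hn' ⟨i, hi0, by omega, hi2⟩
    · refine ⟨l, by omega, by omega, ?_⟩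
      rw [hpos]
      exact (mem_seg (act n) x ω 0 j _).2 ⟨a, Nat.zero_le _, ha, rfl⟩
  have hfin : pr (⋃ q, E q) ≤ (4 * I) * (1 - r)⁻¹ :=
    pr_union E (4 * I) r (by positivity) hr0.le hr1 hw
  calc pr {ω | ∃ a, a ≤ j ∧ ∃ l, j + t0 n ≤ l ∧ l < tau (act n) x ω A ∧
      pos (act n) x ω l = pos (act n) x ω a} ≤ pr (⋃ q, E q) :=
        measureReal_mono hsub (measure_ne_top _ _)
    _ ≤ (4 * I) * (1 - r)⁻¹ := hfin
    _ ≤ (4 * (CU * m * j / (NN n * LL n))) * (1 - r)⁻¹ := by
        apply mul_le_mul_of_nonneg_right _ hr2.le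
        linarith
    _ ≤ (4 * (CU * (2 * H) * j / (NN n * LL n))) * (1 - r)⁻¹ := by
        apply mul_le_mul_of_nonneg_right _ hr2.le
        apply mul_le_mul_of_nonneg_left _ (by norm_num)
        apply div_le_div_of_nonneg_right _ hNL
        apply mul_le_mul_of_nonneg_right _ (Nat.cast_nonneg _)
        exact mul_le_mul_of_nonneg_left hmH2 hCU.le
    _ = 8 * CU * (1 - r)⁻¹ * H * j / (NN n * LL n) := by ring

end Pool.Agent.UST
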