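import Pool.Agent.Helper54.UST.LE1

/-! More combinatorics of the loop erasure. -/

namespace Pool.Agent.UST

open MeasureTheory

section le2
variable {W : Type}

theorem le_nodup (l : List W) : (le l).Nodup := leF_nodup List.nodup_nil l

theorem le_append (l l' : List W) : le (l ++ l') = leF (le l) l' := leF_append [] l l'

theorem mem_le {l : List W} {y : W} (h : y ∈ le l) : y ∈ l := by
  rcases mem_leF h with h | h
  · simp at h
  · exact h

private theorem leF_cons (γ : List W) (y : W) (l : List W) :
    leF γ (y :: l) = leF (stepLE γ y) l := rfl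

private theorem leF_nil (γ : List W) : leF γ [] = γ := rfl

private theorem stepLE_append_left {γ β : List W} {y : W} (h : y ∉ γ) :
    stepLE (γ ++ β) y = γ ++ stepLE β y := by
  classical
  unfold stepLE
  rw [List.takeWhile_append_of_pos, List.append_assoc]
  intro z hz
  simp only [ne_eq, decide_eq_true_eq]
  rintro rfl
  exact h hz

private theorem stepLE_mem_of_mem {γ β : List W} {y : W} (h : y ∈ γ) :
    stepLE (γ ++ β) y = stepLE γ y := by
  classical
  unfold stepLE
  congr 1
  induction γ with
  | nil => simp at h
  | cons a γ ih =>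
    by_cases hay : a = y
    · simp [hay]
    · have hy : y ∈ γ := by
        rcases List.mem_cons.1 h with h | h
        · exact absurd h.symm hay
        · exact h
      have h2 := ih hy
      simpa [hay] using h2

private theorem mem_stepLE {γ : List W} {y z : W} (h : z ∈ stepLE γ y) : z ∈ γ ∨ z = y := by
  classical
  unfold stepLE at h
  rcases List.mem_append.1 h with h | h
  · exact Or.inl ((List.takeWhile_prefix _).subset h)
  · right
    simpa using h

private theorem stepLE_takeWhile_notMem (γ : List W) (y : W) :
    ∃ α, stepLE γ y = α ++ [y] ∧ α <+: γ ∧ y ∉ α := by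
  classical
  refine ⟨_, rfl, List.takeWhile_prefix _, ?_⟩
  intro h
  have := List.mem_takeWhile_imp h
  simp at this

private theorem last_aux {γ : List W} {z : W} (hz : γ.getLast? = some z) :
    ∀ (l β : List W), z ∉ l → z ∉ β → (γ ++ β).Nodup →
      (z ∈ leF (γ ++ β) l ↔ ∀ y ∈ l, y ∉ γ) := by
  have hzγ : z ∈ γ := List.mem_of_getLast? hz
  intro l
  induction l with
  | nil =>
    intro β _ _ _
    simp [leF_nil, hzγ]
  | cons y l ih =>
    intro β hzl hzβ hnd
    rw [leF_cons]
    have hzy : z ≠ y := fun h => hzl (h ▸ List.mem_cons_self)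
    have hzl' : z ∉ l := fun h => hzl (List.mem_cons_of_mem _ h)
    by_cases hy : y ∈ γ
    · constructor
      · intro h
        exfalso
        rcases mem_leF h with h | h
        · rw [stepLE_mem_of_mem hy] at h
          -- `z` is the last element of `γ`
          have hγ : γ.Nodup := (List.nodup_append.1 hnd).1
          obtain ⟨γ', rfl⟩ : ∃ γ', γ = γ' ++ [z] := by
            have hne : γ ≠ [] := by
              rintro rfl
              simp at hy
            refine ⟨γ.dropLast, ?_⟩
            have h1 := List.dropLast_append_getLast hne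
            rw [List.getLast?_eq_some_getLast hne] at hz
            simp only [Option.some.injEq] at hz
            rw [hz] at h1
            exact h1.symm
          have hyγ' : y ∈ γ' := by
            rcases List.mem_append.1 hy with h1 | h1
            · exact h1
            · simp at h1
              exact absurd h1.symm hzy
          rw [stepLE_mem_of_mem hyγ'] at h
          rcases mem_stepLE h with h | h
          · have := List.disjoint_of_nodup_append hγ
            exact this h (by simp)
          · exact hzy h
        · exact hzl' h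
      · intro h
        exact absurd hy (h y List.mem_cons_self)
    · rw [stepLE_append_left hy, ih _ hzl']
      · constructor
        · intro h w hw
          rcases List.mem_cons.1 hw with rfl | hw
          · exact hy
          · exact h w hw
        · intro h w hw
          exact h w (List.mem_cons_of_mem _ hw)
      · intro h
        rcases mem_stepLE h with h | h
        · exact hzβ h
        · exact hzy h
      · have h1 := leF_nodup hnd [y]
        rw [leF_cons, leF_nil, stepLE_append_left hy] at h1
        exact h1

/-- an element of the walk which is visited later is not on the loop erasure (twice) -/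
theorem leF_last_mem {γ l : List W} (hγ : γ.Nodup) {z : W} (hz : γ.getLast? = some z)
    (hzl : z ∉ l) : z ∈ leF γ l ↔ ∀ y ∈ l, y ∉ γ := by
  have h := last_aux hz l [] hzl (by simp) (by simpa using hγ)
  simpa using h

/-- a walk which misses `γ`: `γ` is kept -/
theorem leF_prefix {γ l : List W} (h : ∀ y ∈ l, y ∉ γ) : γ <+: leF γ l :=
  leF_keep (List.prefix_refl γ) fun y hy hy' => h y hy (List.dropLast_subset γ hy')

private theorem visited_aux {γ l : List W} {y : W} (hy : y ∈ l) :
    ∃ α δ, leF γ l = α ++ δ ∧ α <+: γ ∧ y ∉ α ∧ ∀ z ∈ δ, z ∈ l := by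
  obtain ⟨l1, l2, rfl⟩ := List.append_of_mem hy
  rw [leF_append, leF_cons]
  obtain ⟨α1, δ1, h1, h2, h3⟩ := leF_decomp γ l1
  rw [h1]
  -- the path after the visit of `y`
  have key : ∃ α' δ', stepLE (α1 ++ δ1) y = α' ++ δ' ∧ α' <+: γ ∧ y ∉ α' ∧
      ∀ z ∈ δ', z ∈ l1 ++ y :: l2 := by
    by_cases hy1 : y ∈ α1
    · rw [stepLE_mem_of_mem hy1]
      obtain ⟨α, ha, hb, hc⟩ := stepLE_takeWhile_notMem α1 y
      exact ⟨α, [y], ha, hb.trans h2, hc, by simp⟩
    · rw [stepLE_append_left hy1]
      refine ⟨α1, _, rfl, h2, hy1, ?_⟩
      intro z hz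
      rcases mem_stepLE hz with hz | rfl
      · exact List.mem_append_left _ (h3 z hz)
      · simp
  obtain ⟨α', δ', k1, k2, k3, k4⟩ := key
  rw [k1]
  obtain ⟨α2, δ2, m1, m2, m3⟩ := leF_decomp (α' ++ δ') l2
  have hα2 : α2 = α'.take α2.length ++ δ'.take (α2.length - α'.length) := by
    rw [← List.take_append]
    exact List.prefix_iff_eq_take.1 m2
  refine ⟨α'.take α2.length, δ'.take (α2.length - α'.length) ++ δ2, ?_, ?_, ?_, ?_⟩
  · rw [m1, ← List.append_assoc, ← hα2]
  · exact (List.take_prefix _ _).trans k2
  · exact fun h => k3 ((List.take_prefix _ _).subset h)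
  · intro z hz
    rcases List.mem_append.1 hz with hz | hz
    · exact k4 z ((List.take_prefix _ _).subset hz)
    · exact List.mem_append_right _ (List.mem_cons_of_mem _ (m3 z hz))

private theorem drop_append_of_le {α δ : List W} {h : ℕ} (hα : α.length ≤ h) {z : W}
    (hz : z ∈ (α ++ δ).drop h) : z ∈ δ := by
  rw [List.drop_append, List.drop_eq_nil_of_le hα, List.nil_append] at hz
  exact (List.drop_suffix _ _).subset hz

/-- if one of the first `h+1` vertices of `γ` is visited (or is the last one) then all vertices of
index at least `h` of `leF γ l` are visited -/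
theorem leF_visited {γ l : List W} (hγ : γ.Nodup) (h : ℕ)
    (hv : ∃ y ∈ γ.take (h + 1), y ∈ l ∨ γ.getLast? = some y) :
    ∀ z ∈ (leF γ l).drop h, z ∈ l ∨ γ.getLast? = some z := by
  obtain ⟨y, hy, hy' | hy'⟩ := hv
  · obtain ⟨α, δ, h1, h2, h3, h4⟩ := visited_aux (γ := γ) hy'
    have hlen : α.length ≤ h := by
      by_contra hcon
      push Not at hcon
      apply h3
      have h5 : γ.take (h + 1) <+: α := by
        rw [List.prefix_iff_eq_take.1 h2]
        rw [List.prefix_iff_eq_take, List.take_take, List.length_take]
        congr 1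
        have := h2.length_le
        omega
      exact h5.subset hy
    intro z hz
    rw [h1] at hz
    exact Or.inl (h4 z (drop_append_of_le hlen hz))
  · -- `γ` has length at most `h + 1`
    have hlenγ : γ.length ≤ h + 1 := by
      by_contra hcon
      push Not at hcon
      have hne : γ ≠ [] := by
        rintro rfl
        simp at hy
      have h1 : y = γ.getLast hne := by
        rw [List.getLast?_eq_some_getLast hne] at hy'
        simpa using hy'.symm
      have h2 : γ = γ.take (h + 1) ++ γ.drop (h + 1) := (List.take_append_drop _ _).symm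
      have hne2 : γ.drop (h + 1) ≠ [] := by
        intro hd
        have := List.drop_eq_nil_iff.1 hd
        omega
      have h3 : γ.getLast hne ∈ γ.drop (h + 1) := by
        have h4 : (γ.drop (h + 1)).getLast hne2 = γ.getLast hne := List.getLast_drop hne2
        rw [← h4]
        exact List.getLast_mem hne2
      rw [← h1] at h3
      rw [h2] at hγ
      exact List.disjoint_of_nodup_append hγ hy h3
    obtain ⟨α, δ, h1, h2, h3⟩ := leF_decomp γ l
    intro z hz
    rw [h1, List.drop_append] at hz
    rcases List.mem_append.1 hz with hz | hz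
    · right
      have h4 : α.length ≤ γ.length := h2.length_le
      have h5 : h < α.length := by
        by_contra hcon
        push Not at hcon
        rw [List.drop_eq_nil_of_le hcon] at hz
        simp at hz
      have h6 : α = γ := h2.eq_of_length (by omega)
      subst h6
      have hne : α ≠ [] := by
        rintro rfl
        simp at h5
      have h7 : α.drop h = [α.getLast hne] := by
        have h8 : α.length = h + 1 := by omega
        rw [List.getLast_eq_getElem]
        have h9 : (α.drop h).length = 1 := by rw [List.length_drop]; omega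
        obtain ⟨a, ha⟩ := List.length_eq_one_iff.1 h9
        rw [ha]
        congr 1
        have h10 : (α.drop h)[0]'(by omega) = a := by simp [ha]
        rw [← h10, List.getElem_drop]
        congr 1
        omega
      rw [h7] at hz
      rw [List.getLast?_eq_some_getLast hne]
      simp only [List.mem_singleton] at hz
      rw [hz]
    · exact Or.inl (h3 z ((List.drop_suffix _ _).subset hz))

private theorem flatten_take (ps : List (List W)) : ∀ k : ℕ, ∃ ps' : List (List W),
    List.Forall₂ (fun p q => ∀ y ∈ p, y ∈ q) ps' ps ∧ ps'.flatten = ps.flatten.take k := by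
  induction ps with
  | nil => intro k; exact ⟨[], List.Forall₂.nil, by simp⟩
  | cons p ps ih =>
    intro k
    obtain ⟨ps', h1, h2⟩ := ih (k - p.length)
    refine ⟨p.take k :: ps', List.Forall₂.cons (fun y hy => (List.take_prefix _ _).subset hy) h1, ?_⟩
    rw [List.flatten_cons, List.flatten_cons, h2, List.take_append]

private theorem forall₂_snoc {R : List W → List W → Prop} {ps qs : List (List W)} {p q : List W}
    (h : List.Forall₂ R ps qs) (h' : R p q) : List.Forall₂ R (ps ++ [p]) (qs ++ [q]) :=
  List.rel_append h (List.Forall₂.cons h' List.Forall₂.nil)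

private theorem le_flatten_aux (ls : List (List W)) : ∃ ps : List (List W),
    List.Forall₂ (fun p q => ∀ y ∈ p, y ∈ q) ps ls ∧ ps.flatten = le ls.flatten := by
  induction ls using List.reverseRecOn with
  | nil => exact ⟨[], List.Forall₂.nil, rfl⟩
  | append_singleton ls l ih =>
    obtain ⟨ps, h1, h2⟩ := ih
    have h3 : (ls ++ [l]).flatten = ls.flatten ++ l := by simp
    rw [h3, le_append, ← h2]
    obtain ⟨α, δ, h4, h5, h6⟩ := leF_decomp ps.flatten l
    obtain ⟨ps', h7, h8⟩ := flatten_take ps α.length
    refine ⟨ps' ++ [δ], ?_, ?_⟩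
    · refine forall₂_snoc ?_ h6
      have htr : ∀ (a b c : List (List W)),
          List.Forall₂ (fun p q : List W => ∀ y ∈ p, y ∈ q) a b →
          List.Forall₂ (fun p q : List W => ∀ y ∈ p, y ∈ q) b c →
          List.Forall₂ (fun p q : List W => ∀ y ∈ p, y ∈ q) a c := by
        intro a b c hab
        induction hab generalizing c with
        | nil => intro hbc; cases hbc; exact List.Forall₂.nil
        | cons h _ ih =>
          intro hbc
          cases hbc with
          | cons h' hbc' => exact List.Forall₂.cons (fun y hy => h' y (h y hy)) (ih _ hbc')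
      exact htr _ _ _ h7 h1
    · rw [List.flatten_append, h8, h4]
      rw [← List.prefix_iff_eq_take.1 h5]
      simp

/-- the loop erasure of a concatenation is a concatenation of parts of the pieces -/
theorem le_flatten (ls : List (List W)) : ∃ ps : List (List W), ps.length = ls.length ∧
    ps.flatten = le ls.flatten ∧ ∀ i (h : i < ps.length) (h' : i < ls.length),
      ∀ y ∈ ps[i], y ∈ ls[i] := by
  obtain ⟨ps, h1, h2⟩ := le_flatten_aux ls
  refine ⟨ps, h1.length_eq, h2, ?_⟩
  intro i h h' y hy
  have h3 := (List.forall₂_iff_get.1 h1).2 i h h'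
  exact h3 y hy

private theorem seg_append' {D : Type} (act : D → W → W) (x : W) (ω : ℕ → D) {s t u : ℕ}
    (hst : s ≤ t + 1) (htu : t ≤ u) :
    seg act x ω s u = seg act x ω s t ++ seg act x ω (t + 1) u := by
  unfold seg
  rw [← List.map_append]
  congr 1
  have h1 : t + 1 = s + (t + 1 - s) := by omega
  have h2 : u + 1 - s = (t + 1 - s) + (u + 1 - (t + 1)) := by omega
  rw [h2]
  conv_rhs => rw [show List.range' (t + 1) (u + 1 - (t + 1)) =
    List.range' (s + (t + 1 - s)) (u + 1 - (t + 1)) by rw [← h1]]
  rw [List.range'_append_1]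

private theorem mem_seg' {D : Type} {act : D → W → W} {x : W} {ω : ℕ → D} {s t : ℕ} {y : W} :
    y ∈ seg act x ω s t ↔ ∃ i, s ≤ i ∧ i ≤ t ∧ pos act x ω i = y := by
  unfold seg
  rw [List.mem_map]
  constructor
  · rintro ⟨i, hi, rfl⟩
    rw [List.mem_range'_1] at hi
    exact ⟨i, hi.1, by omega, rfl⟩
  · rintro ⟨i, h1, h2, rfl⟩
    exact ⟨i, by rw [List.mem_range'_1]; omega, rfl⟩

private theorem last_split {l : List W} {y : W} (h : y ∈ l) :
    ∃ l1 l2, l = l1 ++ y :: l2 ∧ y ∉ l2 := by
  induction l with
  | nil => simp at h
  | cons a l ih =>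
    by_cases hl : y ∈ l
    · obtain ⟨l1, l2, h1, h2⟩ := ih hl
      exact ⟨a :: l1, l2, by rw [h1]; rfl, h2⟩
    · have : y = a := by
        rcases List.mem_cons.1 h with h | h
        · exact h
        · exact absurd h hl
      subst this
      exact ⟨[], l, rfl, hl⟩

/-- paper (8.1) for a walk of length `l` and a set `P` -/
theorem eight_one {D : Type} (act : D → W → W) (x : W) (ω : ℕ → D) (i l : ℕ) (hi : i ≤ l)
    (P : Set W) (hP : ∀ y ∈ P, y ∉ le (seg act x ω 0 l)) :
    (∀ y ∈ P, y ∉ le (seg act x ω 0 i)) ∨ hit act x ω i l (st (seg act x ω 0 (i / 2))) ∨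
      ∃ y ∈ P, y ∈ seg act x ω (i / 2) i := by
  by_contra hcon
  push Not at hcon
  obtain ⟨⟨y, hyP, hy⟩, hnh, hns⟩ := hcon
  have hsplit : seg act x ω 0 i = seg act x ω 0 (i / 2) ++ seg act x ω (i / 2 + 1) i :=
    seg_append' act x ω (by omega) (Nat.div_le_self i 2)
  have hy2 : y ∉ seg act x ω (i / 2 + 1) i := by
    intro h
    obtain ⟨j, h1, h2, h3⟩ := mem_seg'.1 h
    exact hns y hyP (mem_seg'.2 ⟨j, by omega, h2, h3⟩)
  have hy1 : y ∈ seg act x ω 0 (i / 2) := by
    have := mem_le hy
    rw [hsplit] at this
    rcases List.mem_append.1 this with h | h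
    · exact h
    · exact absurd h hy2
  obtain ⟨l1, l2, e1, e2⟩ := last_split hy1
  have e3 : seg act x ω 0 i = l1 ++ y :: (l2 ++ seg act x ω (i / 2 + 1) i) := by
    rw [hsplit, e1]
    simp
  obtain ⟨δ, hδ, -, -⟩ := le_split e3 (by
    intro h
    rcases List.mem_append.1 h with h | h
    · exact e2 h
    · exact hy2 h) hy
  have hkeep : le (l1 ++ [y]) <+: leF (le (seg act x ω 0 i)) (seg act x ω (i + 1) l) := by
    refine leF_keep ⟨δ, hδ.symm⟩ ?_
    intro z hz hz'
    apply hnh
    obtain ⟨j, h1, h2, h3⟩ := mem_seg'.1 hz
    refine ⟨j, by omega, h2, ?_⟩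
    show pos act x ω j ∈ seg act x ω 0 (i / 2)
    rw [h3]
    have h4 := mem_le (List.dropLast_subset _ hz')
    rw [e1]
    rcases List.mem_append.1 h4 with h4 | h4
    · exact List.mem_append_left _ h4
    · simp only [List.mem_singleton] at h4
      rw [h4]
      simp
  rw [← le_append, ← seg_append' act x ω (by omega) hi] at hkeep
  apply hP y hyP
  apply hkeep.subset
  rw [le_append]
  show y ∈ stepLE (le l1) y
  unfold stepLE
  simp

end le2

end Pool.Agent.UST
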