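import Pool.Agent.Helper54.UST.BaseHit
import Pool.Agent.Helper54.UST.LE2

/-! Wilson's theorem, probabilistic part: last exit decomposition of the loop-erased walk. -/

namespace Pool.Agent.UST

open MeasureTheory

section wilb
variable {W D : Type} (act : D → W → W)

private theorem wilb_seg_self (x : W) (ω : ℕ → D) (t : ℕ) : seg act x ω t t = [pos act x ω t] := by
  have h : t + 1 - t = 1 := by omega
  unfold seg
  rw [h]
  rfl

private theorem wilb_seg_cons (x : W) (ω : ℕ → D) (t : ℕ) :
    seg act x ω 0 t = x :: seg act x ω 1 t := by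
  rw [seg_append act x ω 0 0 t (by omega) (by omega), wilb_seg_self]
  rfl

private theorem wilb_tau_eq (x : W) (ω : ℕ → D) (A : Set W) (t : ℕ) (h1 : pos act x ω t ∈ A)
    (h2 : ∀ i, i < t → pos act x ω i ∉ A) : tau act x ω A = t := by
  unfold tau
  apply le_antisymm
  · exact Nat.sInf_le h1
  · by_contra hcon
    push Not at hcon
    have h3 : sInf {t | pos act x ω t ∈ A} ∈ {t | pos act x ω t ∈ A} := Nat.sInf_mem ⟨t, h1⟩
    exact h2 _ hcon h3

theorem lerw_mem (A : Set W) (w : W) (hw : w ∈ A) (ω : ℕ → D) : lerw act w ω A = [w] := by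
  have h : tau act w ω A = 0 := wilb_tau_eq act w ω A 0 hw (fun i hi => absurd hi (Nat.not_lt_zero i))
  unfold lerw
  rw [h, wilb_seg_self]
  show le [w] = [w]
  unfold le leF stepLE
  simp

theorem lerw_nodup (A : Set W) (w : W) (ω : ℕ → D) : (lerw act w ω A).Nodup := le_nodup _

theorem lerw_head (A : Set W) (w : W) (ω : ℕ → D) : (lerw act w ω A).head? = some w := by
  unfold lerw
  rw [wilb_seg_cons]
  exact le_head _

theorem lerw_getLast (A : Set W) (w : W) (ω : ℕ → D) :
    (lerw act w ω A).getLast? = some (pos act w ω (tau act w ω A)) := by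
  unfold lerw le
  rw [leF_getLast]
  · rcases Nat.eq_zero_or_pos (tau act w ω A) with h | h
    · rw [h, wilb_seg_self]
      rfl
    · rw [seg_append act w ω 0 (tau act w ω A - 1) _ (by omega) (by omega)]
      have e : tau act w ω A - 1 + 1 = tau act w ω A := by omega
      rw [e, wilb_seg_self]
      simp
  · rw [wilb_seg_cons]
    exact List.cons_ne_nil _ _

theorem lerw_dropLast (A : Set W) (w : W) (ω : ℕ → D) (h : ∃ t, pos act w ω t ∈ A) :
    ∀ y ∈ (lerw act w ω A).dropLast, y ∉ A := by
  intro y hy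
  have hnd := lerw_nodup act A w ω
  have hlast := lerw_getLast act A w ω
  have hne : lerw act w ω A ≠ [] := by
    intro h0
    rw [h0] at hlast
    simp at hlast
  have hsplit : (lerw act w ω A).dropLast ++ [pos act w ω (tau act w ω A)] = lerw act w ω A := by
    have h1 := List.dropLast_append_getLast hne
    have h2 : (lerw act w ω A).getLast hne = pos act w ω (tau act w ω A) := by
      rw [List.getLast?_eq_getLast_of_ne_nil hne] at hlast
      exact Option.some.inj hlast
    rw [h2] at h1
    exact h1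
  rw [← hsplit] at hnd
  have hyne : y ≠ pos act w ω (tau act w ω A) := by
    rintro rfl
    exact (List.nodup_append.1 hnd).2.2 _ hy _ (by simp) rfl
  have hmem : y ∈ seg act w ω 0 (tau act w ω A) := by
    apply mem_le
    have : y ∈ lerw act w ω A := List.mem_of_mem_dropLast hy
    exact this
  obtain ⟨i, _, hi2, hi3⟩ := (mem_seg act w ω _ _ y).1 hmem
  have hlt : i < tau act w ω A := by
    rcases Nat.lt_or_ge i (tau act w ω A) with h1 | h1
    · exact h1
    · exfalso
      apply hyne
      rw [← hi3, le_antisymm hi2 h1]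
  rw [← hi3]
  exact (tau_spec act w ω A h).2 i hlt

theorem lerw_length_le (A : Set W) (w : W) (ω : ℕ → D) :
    (lerw act w ω A).length ≤ tau act w ω A + 1 := by
  have h1 := le_length_le (seg act w ω 0 (tau act w ω A))
  rw [seg_length] at h1
  exact h1

/-- loop erasure and the last visit of the starting point -/
private theorem wilb_last (w : W) (ω : ℕ → D) (l t : ℕ) (hlt : l ≤ t) (hl : pos act w ω l = w)
    (hn : w ∉ seg act w ω (l + 1) t) :
    le (seg act w ω 0 t) = w :: le (seg act w ω (l + 1) t) := by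
  rcases Nat.eq_zero_or_pos l with h0 | h0
  · subst h0
    rw [wilb_seg_cons]
    exact le_cons_notMem hn
  · rw [wilb_seg_cons, seg_append act w ω 1 (l - 1) t (by omega) (by omega)]
    have e : l - 1 + 1 = l := by omega
    rw [e, seg_append act w ω l l t (by omega) hlt, wilb_seg_self, hl]
    exact le_cons_last _ hn

/-- the event in the last exit decomposition -/
private def wilbE (A : Set W) (w e : W) (η : List W) (l : ℕ) (ω : ℕ → D) : Prop :=
  ((∀ i, i ≤ l → pos act w ω i ∉ A) ∧ pos act w ω l = w) ∧ act (ω l) w = e ∧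
    lerw act e (sh (l + 1) ω) (insert w A) = e :: η

private theorem wilb_pos (w e : W) (ω : ℕ → D) (l : ℕ) (h : pos act w ω l = w)
    (he : act (ω l) w = e) (i : ℕ) : pos act w ω (l + 1 + i) = pos act e (sh (l + 1) ω) i := by
  rw [pos_add]
  have : pos act w ω (l + 1) = e := by
    show act (ω l) (pos act w ω l) = e
    rw [h, he]
  rw [this]

/-- consequences of the event -/
private theorem wilb_E_tau (A : Set W) (w : W) (hw : w ∉ A) (e : W) (η : List W)
    (hη : ∃ a ∈ A, (e :: η).getLast? = some a) (l : ℕ) (ω : ℕ → D)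
    (h : wilbE act A w e η l ω) :
    l < tau act w ω A ∧ w ∉ seg act w ω (l + 1) (tau act w ω A) ∧
      lerw act w ω A = w :: e :: η := by
  obtain ⟨⟨h1, h2⟩, h3, h4⟩ := h
  obtain ⟨a, haA, ha⟩ := hη
  set T := tau act e (sh (l + 1) ω) (insert w A) with hT
  have hlast := lerw_getLast act (insert w A) e (sh (l + 1) ω)
  rw [h4, ha] at hlast
  have hTA : pos act e (sh (l + 1) ω) T ∈ A := by
    rw [hT, ← Option.some.inj hlast]
    exact haA
  have hspec := tau_spec act e (sh (l + 1) ω) (insert w A) ⟨T, Set.mem_insert_of_mem _ hTA⟩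
  rw [← hT] at hspec
  have htau : tau act w ω A = l + 1 + T := by
    apply wilb_tau_eq
    · rw [wilb_pos act w e ω l h2 h3]
      exact hTA
    · intro i hi
      rcases Nat.lt_or_ge l i with hli | hli
      · obtain ⟨j, rfl⟩ : ∃ j, i = l + 1 + j := ⟨i - (l + 1), by omega⟩
        rw [wilb_pos act w e ω l h2 h3]
        intro hcon
        exact hspec.2 j (by omega) (Set.mem_insert_of_mem _ hcon)
      · exact h1 i hli
  have hnot : w ∉ seg act w ω (l + 1) (tau act w ω A) := by
    intro hcon
    obtain ⟨i, hi1, hi2, hi3⟩ := (mem_seg act w ω _ _ w).1 hcon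
    obtain ⟨j, rfl⟩ : ∃ j, i = l + 1 + j := ⟨i - (l + 1), by omega⟩
    rw [wilb_pos act w e ω l h2 h3] at hi3
    rcases Nat.lt_or_ge j T with hj | hj
    · apply hspec.2 j hj
      rw [hi3]
      exact Set.mem_insert _ _
    · have : j = T := by omega
      rw [this] at hi3
      rw [hi3] at hTA
      exact hw hTA
  refine ⟨by omega, hnot, ?_⟩
  unfold lerw
  rw [wilb_last act w ω l _ (by omega) h2 hnot]
  have hseg : seg act w ω (l + 1) (tau act w ω A) = seg act e (sh (l + 1) ω) 0 T := by
    rw [htau]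
    have := seg_shift act w ω (l + 1) 0 T
    rw [Nat.add_zero] at this
    rw [this]
    have e1 : pos act w ω (l + 1) = e := by
      show act (ω l) (pos act w ω l) = e
      rw [h2, h3]
    rw [e1]
  rw [hseg]
  unfold lerw at h4
  rw [← hT] at h4
  rw [h4]

/-- existence of the last exit -/
private theorem wilb_exists (A : Set W) (w : W) (hw : w ∉ A) (e : W) (η : List W)
    (ω : ℕ → D) (hit : ∃ t, pos act w ω t ∈ A) (h : lerw act w ω A = w :: e :: η) :
    ∃ l, wilbE act A w e η l ω := by
  classical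
  have hspec := tau_spec act w ω A hit
  set τ := tau act w ω A with hτ
  have hτ0 : 0 < τ := by
    rcases Nat.eq_zero_or_pos τ with h0 | h0
    · rw [h0] at hspec
      exact absurd hspec.1 hw
    · exact h0
  -- the last visit
  set S : Finset ℕ := (Finset.range τ).filter (fun j => pos act w ω j = w) with hS
  have hSne : S.Nonempty := ⟨0, by
    rw [hS, Finset.mem_filter, Finset.mem_range]
    exact ⟨hτ0, rfl⟩⟩
  set l := S.max' hSne with hl
  have hlS : l ∈ S := Finset.max'_mem _ _
  rw [hS, Finset.mem_filter, Finset.mem_range] at hlS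
  obtain ⟨hl1, hl2⟩ := hlS
  have hmax : ∀ j, l < j → j < τ → pos act w ω j ≠ w := by
    intro j hj1 hj2 hj3
    have : j ∈ S := by
      rw [hS, Finset.mem_filter, Finset.mem_range]
      exact ⟨hj2, hj3⟩
    have := Finset.le_max' S j this
    rw [← hl] at this
    omega
  have hnot : w ∉ seg act w ω (l + 1) τ := by
    intro hcon
    obtain ⟨i, hi1, hi2, hi3⟩ := (mem_seg act w ω _ _ w).1 hcon
    rcases Nat.lt_or_ge i τ with hi | hi
    · exact hmax i (by omega) hi hi3
    · have : i = τ := by omega
      rw [this] at hi3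
      rw [hi3] at hspec
      exact hw hspec.1
  have hle : le (seg act w ω 0 τ) = w :: le (seg act w ω (l + 1) τ) :=
    wilb_last act w ω l τ hl1.le hl2 hnot
  have hlerw : le (seg act w ω (l + 1) τ) = e :: η := by
    unfold lerw at h
    rw [← hτ, hle] at h
    exact (List.cons.inj h).2
  obtain ⟨T, hT⟩ : ∃ T, τ = l + 1 + T := ⟨τ - (l + 1), by omega⟩
  have hseg : seg act w ω (l + 1) τ = seg act (pos act w ω (l + 1)) (sh (l + 1) ω) 0 T := by
    rw [hT]
    have := seg_shift act w ω (l + 1) 0 T
    rw [Nat.add_zero] at this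
    exact this
  rw [hseg] at hlerw
  have hhead : pos act w ω (l + 1) = e := by
    have h1 : (le (seg act (pos act w ω (l + 1)) (sh (l + 1) ω) 0 T)).head? =
        some (pos act w ω (l + 1)) := by
      rw [wilb_seg_cons]
      exact le_head _
    rw [hlerw] at h1
    exact (Option.some.inj h1).symm
  have hact : act (ω l) w = e := by
    have h1 : pos act w ω (l + 1) = act (ω l) (pos act w ω l) := rfl
    rw [hl2, hhead] at h1
    exact h1.symm
  refine ⟨l, ⟨fun i hi => hspec.2 i (by omega), hl2⟩, hact, ?_⟩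
  have htau : tau act e (sh (l + 1) ω) (insert w A) = T := by
    apply wilb_tau_eq
    · rw [← wilb_pos act w e ω l hl2 hact, ← hT]
      exact Set.mem_insert_of_mem _ hspec.1
    · intro i hi hcon
      rw [← wilb_pos act w e ω l hl2 hact] at hcon
      rcases hcon with hcon | hcon
      · exact hmax (l + 1 + i) (by omega) (by omega) hcon
      · exact hspec.2 (l + 1 + i) (by omega) hcon
  unfold lerw
  rw [htau, ← hlerw, hhead]

variable [Finite W] [Fintype D] [Nonempty D] [MeasurableSpace D] [MeasurableSingletonClass D]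

theorem measurable_lerw (A : Set W) (w : W) {α : Type} [MeasurableSpace α] (F : List W → α) :
    Measurable (fun ω : ℕ → D => F (lerw act w ω A)) := by
  apply measurable_tau act A w (fun t ω => F (le (seg act w ω 0 t)))
  intro t ω ω' h
  show F (le (seg act w ω 0 t)) = F (le (seg act w ω' 0 t))
  rw [seg_congr act w ω ω' 0 t h]

private theorem wilb_dep (t : ℕ) (p : (ℕ → D) → Prop)
    (hp : ∀ ω ω' : ℕ → D, (∀ i, i < t → ω i = ω' i) → p ω = p ω') :
    MeasurableSet {ω | p ω} :=
  measurableSet_setOfPred.2 (measurable_dep t p hp)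

/-- Markov property for sets -/
private theorem wilb_markov (t : ℕ) (p q : (ℕ → D) → Prop)
    (hp : ∀ ω ω' : ℕ → D, (∀ i, i < t → ω i = ω' i) → p ω = p ω')
    (hq : MeasurableSet {ω | q ω}) :
    mu D {ω | p ω ∧ q (sh t ω)} = mu D {ω | p ω} * mu D {ω | q ω} := by
  classical
  have hpm := wilb_dep t p hp
  have hpq : MeasurableSet {ω : ℕ → D | p ω ∧ q (sh t ω)} :=
    hpm.inter (measurable_sh t hq)
  have h1 := markov_lint t (fun ω η => Set.indicator {x : ℕ → D | p x} 1 ω *
    Set.indicator {x : ℕ → D | q x} 1 η) (by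
      apply Measurable.mul
      · exact (measurable_one.indicator hpm).comp measurable_fst
      · exact (measurable_one.indicator hq).comp measurable_snd) (by
      intro ω ω' η h
      have := hp ω ω' h
      simp only [Set.indicator_apply, Set.mem_ofPred_eq, Pi.one_apply, this])
  have h2 : ∫⁻ ω, Set.indicator {x : ℕ → D | p x} 1 ω *
      Set.indicator {x : ℕ → D | q x} 1 (sh t ω) ∂(mu D) = mu D {ω | p ω ∧ q (sh t ω)} := by
    rw [← lintegral_indicator_one hpq]
    apply lintegral_congr
    intro ω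
    simp only [Set.indicator_apply, Set.mem_ofPred_eq, Pi.one_apply]
    by_cases ha : p ω <;> by_cases hb : q (sh t ω) <;> simp [ha, hb]
  have h3 : ∫⁻ ω, ∫⁻ η, Set.indicator {x : ℕ → D | p x} 1 ω *
      Set.indicator {x : ℕ → D | q x} 1 η ∂(mu D) ∂(mu D) =
      mu D {ω | p ω} * mu D {ω | q ω} := by
    have h4 : ∀ ω : ℕ → D, ∫⁻ η, Set.indicator {x : ℕ → D | p x} 1 ω *
        Set.indicator {x : ℕ → D | q x} 1 η ∂(mu D) =
        Set.indicator {x : ℕ → D | p x} 1 ω * mu D {ω | q ω} := by
      intro ω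
      rw [lintegral_const_mul _ (measurable_one.indicator hq), lintegral_indicator_one hq]
    simp_rw [h4]
    rw [lintegral_mul_const _ (measurable_one.indicator hpm), lintegral_indicator_one hpm]
  rw [← h2, h1, h3]

theorem lerw_rec (A : Set W) (hA : Reach act A) (w : W) (hw : w ∉ A) :
    ∃ G : ℝ, ∀ (e : W) (η : List W), (∃ a ∈ A, (e :: η).getLast? = some a) →
    (mu D).real {ω | lerw act w ω A = w :: e :: η} =
      G * ((Set.ncard {d | act d w = e} : ℝ) / Fintype.card D) *
        (mu D).real {ω | lerw act e ω (insert w A) = e :: η} := by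
  classical
  refine ⟨(∑' l : ℕ, mu D {ω | (∀ i, i ≤ l → pos act w ω i ∉ A) ∧ pos act w ω l = w}).toReal, ?_⟩
  intro e η hη
  have hqm : MeasurableSet {ω : ℕ → D | lerw act e ω (insert w A) = e :: η} :=
    measurableSet_setOfPred.2 (measurable_lerw act (insert w A) e (fun l => l = e :: η))
  have hdep1 : ∀ l : ℕ, ∀ ω ω' : ℕ → D, (∀ i, i < l → ω i = ω' i) →
      ((∀ i, i ≤ l → pos act w ω i ∉ A) ∧ pos act w ω l = w) =
      ((∀ i, i ≤ l → pos act w ω' i ∉ A) ∧ pos act w ω' l = w) := by
    intro l ω ω' h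
    have h1 : ∀ i, i ≤ l → pos act w ω i = pos act w ω' i := fun i hi =>
      pos_congr act w ω ω' i (fun j hj => h j (by omega))
    have h2 : (∀ i, i ≤ l → pos act w ω i ∉ A) ↔ (∀ i, i ≤ l → pos act w ω' i ∉ A) :=
      forall_congr' fun i => forall_congr' fun hi => by rw [h1 i hi]
    rw [h1 l le_rfl]
    exact propext (and_congr_left' h2)
  have hdep2 : ∀ l : ℕ, ∀ ω ω' : ℕ → D, (∀ i, i < l + 1 → ω i = ω' i) →
      (((∀ i, i ≤ l → pos act w ω i ∉ A) ∧ pos act w ω l = w) ∧ act (ω l) w = e) =
      (((∀ i, i ≤ l → pos act w ω' i ∉ A) ∧ pos act w ω' l = w) ∧ act (ω' l) w = e) := by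
    intro l ω ω' h
    rw [hdep1 l ω ω' (fun i hi => h i (by omega)), h l (by omega)]
  have hset : ∀ l : ℕ, {ω : ℕ → D | wilbE act A w e η l ω} =
      {ω | (((∀ i, i ≤ l → pos act w ω i ∉ A) ∧ pos act w ω l = w) ∧ act (ω l) w = e) ∧
        lerw act e (sh (l + 1) ω) (insert w A) = e :: η} := by
    intro l
    ext ω
    simp only [Set.mem_ofPred_eq, wilbE, and_assoc]
  have hEm : ∀ l : ℕ, MeasurableSet {ω : ℕ → D | wilbE act A w e η l ω} := by
    intro l
    rw [hset l]
    exact (wilb_dep (l + 1) _ (hdep2 l)).inter (measurable_sh (l + 1) hqm)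
  have hEmu : ∀ l : ℕ, mu D {ω : ℕ → D | wilbE act A w e η l ω} =
      mu D {ω | (∀ i, i ≤ l → pos act w ω i ∉ A) ∧ pos act w ω l = w} *
        mu D {ω | act (ω 0) w = e} * mu D {ω | lerw act e ω (insert w A) = e :: η} := by
    intro l
    rw [hset l, wilb_markov (l + 1) _ _ (hdep2 l) hqm]
    congr 1
    have h0 : MeasurableSet {ω : ℕ → D | act (ω 0) w = e} :=
      wilb_dep 1 _ (fun ω ω' h => by rw [h 0 (by omega)])
    have := wilb_markov l (fun ω => (∀ i, i ≤ l → pos act w ω i ∉ A) ∧ pos act w ω l = w)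
      (fun ω => act (ω 0) w = e) (hdep1 l) h0
    exact this
  have hdisj : Pairwise (Function.onFun Disjoint
      (fun l : ℕ => {ω : ℕ → D | wilbE act A w e η l ω})) := by
    have key : ∀ l l' : ℕ, ∀ ω : ℕ → D, l < l' → wilbE act A w e η l ω →
        wilbE act A w e η l' ω → False := by
      intro l l' ω hll h1 h2
      obtain ⟨_, b1, _⟩ := wilb_E_tau act A w hw e η hη l ω h1
      obtain ⟨a2, _, _⟩ := wilb_E_tau act A w hw e η hη l' ω h2
      apply b1
      rw [mem_seg]
      exact ⟨l', by omega, by omega, h2.1.2⟩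
    intro l l' hne
    rw [Function.onFun, Set.disjoint_left]
    intro ω h1 h2
    rcases Nat.lt_or_gt_of_ne hne with h | h
    · exact key l l' ω h h1 h2
    · exact key l' l ω h h2 h1
  have hunion : mu D {ω : ℕ → D | lerw act w ω A = w :: e :: η} =
      mu D (⋃ l : ℕ, {ω : ℕ → D | wilbE act A w e η l ω}) := by
    apply measure_congr
    filter_upwards [ae_hit act A hA w] with ω hω
    apply propext
    constructor
    · intro h
      obtain ⟨l, hl⟩ := wilb_exists act A w hw e η ω hω h
      exact Set.mem_iUnion.2 ⟨l, hl⟩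
    · intro h
      obtain ⟨l, hl⟩ := Set.mem_iUnion.1 h
      exact (wilb_E_tau act A w hw e η hη l ω hl).2.2
  have hfirst : (mu D {ω | act (ω 0) w = e}).toReal =
      (Set.ncard {d | act d w = e} : ℝ) / Fintype.card D := by
    have h0 : MeasurableSet {ω : ℕ → D | act (ω 0) w = e} :=
      wilb_dep 1 _ (fun ω ω' h => by rw [h 0 (by omega)])
    have h1 := mu_first (D := D) (fun d => if act d w = e then 1 else 0)
    have h2 : ∫ ω : ℕ → D, (if act (ω 0) w = e then (1 : ℝ) else 0) ∂(mu D) =
        (mu D).real {ω | act (ω 0) w = e} := by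
      rw [← integral_indicator_one h0]
      apply integral_congr_ae
      filter_upwards with ω
      simp [Set.indicator_apply]
    rw [h2] at h1
    have h3 : (∑ d : D, if act d w = e then (1 : ℝ) else 0) = (Set.ncard {d | act d w = e} : ℝ) := by
      rw [Finset.sum_boole, Set.ncard_eq_toFinset_card']
      congr 2
      ext d
      simp
    rw [h3] at h1
    exact h1
  show (mu D {ω | lerw act w ω A = w :: e :: η}).toReal = _ * _ *
    (mu D {ω | lerw act e ω (insert w A) = e :: η}).toReal
  rw [hunion, measure_iUnion hdisj hEm]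
  simp_rw [hEmu]
  rw [ENNReal.tsum_mul_right, ENNReal.tsum_mul_right, ENNReal.toReal_mul, ENNReal.toReal_mul,
    hfirst]

end wilb

end Pool.Agent.UST
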