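import Pool.Agent.Helper54.UST.C2aLE
import Pool.Agent.Helper54.UST.RB
import Pool.Agent.Helper54.UST.WilB

/-! Paper Lemma C2, the pair counting part: with probability at least `c (M/k)^2` the walk `Y`
hits the loop-erased walk of `X` before time `M/512` but does not hit `A` before `M/256`. -/

namespace Pool.Agent.UST

open MeasureTheory

namespace C2a

theorem meas_dep2 (t : ℕ) (P : (ℕ → DD) → (ℕ → DD) → Prop)
    (h : ∀ ω ω' η η' : ℕ → DD, (∀ i, i < t → ω i = ω' i) → (∀ i, i < t → η i = η' i) →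
      (P ω η ↔ P ω' η')) :
    MeasurableSet {ω : (ℕ → DD) × (ℕ → DD) | P ω.1 ω.2} := by
  classical
  let ext : (Fin t → DD) → ℕ → DD := fun a i => if hi : i < t then a ⟨i, hi⟩ else default
  have hext : ∀ (ω : ℕ → DD), ∀ i, i < t → ω i = ext (fun k : Fin t => ω k) i := by
    intro ω i hi
    simp only [ext, hi, dif_pos]
  have e1 : {ω : (ℕ → DD) × (ℕ → DD) | P ω.1 ω.2} = ⋃ a : Fin t → DD, ⋃ b : Fin t → DD,
      {ω | (∀ k : Fin t, ω.1 k = a k) ∧ (∀ k : Fin t, ω.2 k = b k) ∧ P (ext a) (ext b)} := by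
    ext ω
    simp only [Set.mem_ofPred_eq, Set.mem_iUnion]
    constructor
    · intro hP
      refine ⟨fun k => ω.1 k, fun k => ω.2 k, fun _ => rfl, fun _ => rfl, ?_⟩
      exact (h _ _ _ _ (hext ω.1) (hext ω.2)).mp hP
    · rintro ⟨a, b, h1, h2, h3⟩
      have ha : (fun k : Fin t => ω.1 k) = a := funext h1
      have hb : (fun k : Fin t => ω.2 k) = b := funext h2
      rw [← ha, ← hb] at h3
      exact (h _ _ _ _ (hext ω.1) (hext ω.2)).mpr h3
  rw [e1]
  refine MeasurableSet.iUnion fun a => MeasurableSet.iUnion fun b => ?_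
  have m1 : MeasurableSet {ω : ℕ → DD | ∀ k : Fin t, ω k = a k} :=
    meas_dep t _ fun ω ω' hω => by
      constructor
      · intro h1 k; rw [← hω k k.2]; exact h1 k
      · intro h1 k; rw [hω k k.2]; exact h1 k
  have m2 : MeasurableSet {ω : ℕ → DD | ∀ k : Fin t, ω k = b k} :=
    meas_dep t _ fun ω ω' hω => by
      constructor
      · intro h1 k; rw [← hω k k.2]; exact h1 k
      · intro h1 k; rw [hω k k.2]; exact h1 k
  exact (measurable_fst m1).inter ((measurable_snd m2).inter (MeasurableSet.const _))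

theorem meas_Ev {n : ℕ} (A : Set (V n)) (s s' : ℕ) (u y : V n) (j i : ℕ) :
    MeasurableSet {ω | Ev A s s' u y j i ω} := by
  have m1 : MeasurableSet {ω : (ℕ → DD) × (ℕ → DD) |
      pos (act n) u ω.1 j = pos (act n) y ω.2 i} :=
    meas_dep2 (max j i) (fun ω η => pos (act n) u ω j = pos (act n) y η i)
      fun ω ω' η η' h1 h2 => by
      rw [pos_congr (act n) u ω ω' j (fun b hb => h1 b (lt_of_lt_of_le hb (le_max_left _ _))),
        pos_congr (act n) y η η' i (fun b hb => h2 b (lt_of_lt_of_le hb (le_max_right _ _)))]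
  have m2 : MeasurableSet {ω : (ℕ → DD) × (ℕ → DD) | Cert u y j i s ω} := by
    refine meas_dep2 (max (j + s) (i + s)) (fun ω η => Cert u y j i s (ω, η))
      fun ω ω' η η' h1 h2 => ?_
    unfold Cert
    rw [seg_congr (act n) u ω ω' 0 j (fun b hb => h1 b (lt_of_lt_of_le hb
        ((Nat.le_add_right _ _).trans (le_max_left _ _)))),
      seg_congr (act n) u ω ω' j (j + s) (fun b hb => h1 b (lt_of_lt_of_le hb
        (le_max_left _ _))),
      seg_congr (act n) y η η' i (i + s) (fun b hb => h2 b (lt_of_lt_of_le hb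
        (le_max_right _ _)))]
  exact m1.inter (((measurable_fst (meas_PX A s' u j)).inter
    (measurable_snd (meas_QY A y i))).inter (m2.inter
      ((measurable_snd (meas_hit y 0 (i + s') A)).compl.inter
        (measurable_fst (meas_Rt A u j s)).compl)))

/-- the number of good pairs -/
noncomputable def SS {n : ℕ} (A : Set (V n)) (s s' t : ℕ) (p : V n × V n)
    (ω : (ℕ → DD) × (ℕ → DD)) : ℝ :=
  ∑ j ∈ Finset.Icc t (t + t), ∑ i ∈ Finset.Icc t (t + t), ind (Ev A s s' p.1 p.2 j i ω)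

theorem measurable_ind {Ω : Type} [MeasurableSpace Ω] {P : Ω → Prop}
    (h : MeasurableSet {ω | P ω}) : Measurable (fun ω => ind (P ω)) := by
  unfold ind
  exact Measurable.ite h measurable_const measurable_const

theorem measurable_SS {n : ℕ} (A : Set (V n)) (s s' t : ℕ) (p : V n × V n) :
    Measurable (SS A s s' t p) :=
  Finset.measurable_fun_sum _ fun j _ => Finset.measurable_fun_sum _ fun i _ =>
    measurable_ind (meas_Ev A s s' p.1 p.2 j i)

theorem card_Icc (t : ℕ) : ((Finset.Icc t (t + t)).card : ℝ) = (t : ℝ) + 1 := by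
  rw [Nat.card_Icc]
  have : t + t + 1 - t = t + 1 := by omega
  rw [this]; push_cast; rfl

theorem SS_le_meets {n : ℕ} (A : Set (V n)) (s s' t : ℕ) (p : V n × V n)
    (ω : (ℕ → DD) × (ℕ → DD)) :
    0 ≤ SS A s s' t p ω ∧ SS A s s' t p ω ≤ meets n p.1 p.2 t t t t ω ∧
      meets n p.1 p.2 t t t t ω ≤ ((t : ℝ) + 1) ^ 2 := by
  refine ⟨Finset.sum_nonneg fun j _ => Finset.sum_nonneg fun i _ => ind_nonneg _, ?_, ?_⟩
  · exact Finset.sum_le_sum fun j _ => Finset.sum_le_sum fun i _ => ind_mono fun h => h.1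
  · unfold meets
    refine (Finset.sum_le_sum fun j _ => Finset.sum_le_sum fun i _ => ind_le_one _).trans ?_
    rw [Finset.sum_const, Finset.sum_const, nsmul_eq_mul, nsmul_eq_mul, card_Icc]
    exact le_of_eq (by ring)

theorem sum_av2 {n : ℕ} [NeZero n] (F : V n × V n → ℝ) :
    ∑ p : V n × V n, 1 / NN n ^ 2 * F p = av (fun u : V n => av (fun y : V n => F (u, y))) := by
  have hN := NN_pos n
  rw [← Finset.mul_sum, Fintype.sum_prod_type]
  unfold av
  rw [card_V, ← Finset.sum_div]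
  field_simp

theorem int_SS {n : ℕ} (A : Set (V n)) (s s' t : ℕ) (p : V n × V n) :
    ∫ ω, SS A s s' t p ω ∂((mu DD).prod (mu DD)) =
      ∑ j ∈ Finset.Icc t (t + t), ∑ i ∈ Finset.Icc t (t + t),
        pr2 {ω | Ev A s s' p.1 p.2 j i ω} := by
  have hpr : IsProbabilityMeasure (mu DD) := mu_prob
  have hint : ∀ j i, Integrable (fun ω => ind (Ev A s s' p.1 p.2 j i ω))
      ((mu DD).prod (mu DD)) := fun j i =>
    Integrable.of_bound (measurable_ind (meas_Ev A s s' p.1 p.2 j i)).aestronglyMeasurable 1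
      (Filter.Eventually.of_forall fun ω => by
        rw [Real.norm_eq_abs, abs_of_nonneg (ind_nonneg _)]; exact ind_le_one _)
  unfold SS
  rw [integral_finsetSum _ fun j _ => integrable_finsetSum _ fun i _ => hint j i]
  refine Finset.sum_congr rfl fun j _ => ?_
  rw [integral_finsetSum _ fun i _ => hint j i]
  refine Finset.sum_congr rfl fun i _ => ?_
  rw [integral_ind _ _ (meas_Ev A s s' p.1 p.2 j i)]
  rfl

theorem pr_mono_ae {s t : Set (ℕ → DD)} (h : ∀ᵐ ω ∂(mu DD), ω ∈ s → ω ∈ t) : pr s ≤ pr t := by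
  have hpr : IsProbabilityMeasure (mu DD) := mu_prob
  exact ENNReal.toReal_mono (measure_ne_top _ _) (measure_mono_ae h)

theorem pr2_mono_ae {s t : Set ((ℕ → DD) × (ℕ → DD))}
    (h : ∀ᵐ ω ∂((mu DD).prod (mu DD)), ω ∈ s → ω ∈ t) : pr2 s ≤ pr2 t := by
  have hpr : IsProbabilityMeasure (mu DD) := mu_prob
  exact ENNReal.toReal_mono (measure_ne_top _ _) (measure_mono_ae h)

theorem ae_both {n : ℕ} [NeZero n] (A : Set (V n)) (hA : A.Nonempty) (u y : V n) :
    ∀ᵐ ω ∂((mu DD).prod (mu DD)), (∃ t, pos (act n) u ω.1 t ∈ A) ∧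
      (∃ t, pos (act n) y ω.2 t ∈ A) := by
  have hpr : IsProbabilityMeasure (mu DD) := mu_prob
  have h1 := ae_hit (D := DD) (act n) A (act_reach n A hA) u
  have h2 := ae_hit (D := DD) (act n) A (act_reach n A hA) y
  have h3 := (Measure.quasiMeasurePreserving_fst (μ := mu DD) (ν := mu DD)).ae h1
  have h4 := (Measure.quasiMeasurePreserving_snd (μ := mu DD) (ν := mu DD)).ae h2
  filter_upwards [h3, h4] with ω h5 h6
  exact ⟨h5, h6⟩

theorem Rt_le {n : ℕ} [NeZero n] (A : Set (V n)) (hA : A.Nonempty) (u : V n) (j s : ℕ)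
    (hs : t0 n ≤ s) : pr {ω | Rt A u j s ω} ≤ pr {ω | ∃ a, a ≤ j ∧ ∃ l, j + t0 n ≤ l ∧
      l < tau (act n) u ω A ∧ pos (act n) u ω l = pos (act n) u ω a} := by
  refine pr_mono_ae ?_
  filter_upwards [ae_hit (D := DD) (act n) A (act_reach n A hA) u] with ω hω
  rintro ⟨a, h1, l, h2, h3, h4⟩
  exact ⟨a, h1, l, by omega, (lt_tau_iff (act n) u ω A hω l).mpr h3, h4⟩

theorem pos_SS_le {n : ℕ} [NeZero n] (A : Set (V n)) (hA : A.Nonempty) (s s' t : ℕ) (u y : V n)
    (b b' : ℝ) (hb : ((t + t + s : ℕ) : ℝ) ≤ b) (hb' : b' ≤ s') :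
    pr2 {ω | 0 < SS A s s' t (u, y) ω} ≤ pr2 {ω | (∃ i : ℕ, (i : ℝ) ≤ b ∧
        pos (act n) y ω.2 i ∈ lerw (act n) u ω.1 A) ∧
        b' ≤ (tau (act n) y ω.2 A : ℝ)} := by
  refine pr2_mono_ae ?_
  filter_upwards [ae_both A hA u y] with ω hω
  intro h0
  have h1 : ∃ j ∈ Finset.Icc t (t + t), ∃ i ∈ Finset.Icc t (t + t), Ev A s s' u y j i ω := by
    by_contra hn
    have hz : SS A s s' t (u, y) ω = 0 :=
      Finset.sum_eq_zero fun j hj => Finset.sum_eq_zero fun i hi => by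
        refine ind_false fun h => hn ⟨j, hj, i, hi, h⟩
    have h0' : 0 < SS A s s' t (u, y) ω := h0
    rw [hz] at h0'
    exact lt_irrefl _ h0'
  obtain ⟨j, hj, i, hi, hE⟩ := h1
  obtain ⟨i', h2, h3, h4⟩ := ev_lerw A s s' u y j i ω hω.1 hE
  refine ⟨⟨i', ?_, h4⟩, ?_⟩
  · refine le_trans ?_ hb
    have := (Finset.mem_Icc.mp hi).2
    exact_mod_cast (by omega : i' ≤ t + t + s)
  · obtain ⟨_, _, _, h5, _⟩ := hE
    have h6 := (lt_tau_iff (act n) y ω.2 A hω.2 (i + s')).mpr h5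
    refine hb'.trans ?_
    exact_mod_cast (by omega : s' ≤ tau (act n) y ω.2 A)

/-- the second moment bound for fixed parameters -/
theorem second {n : ℕ} [NeZero n] (A : Set (V n)) (hA : A.Nonempty) (s s' t : ℕ)
    (b b' Q : ℝ) (hb : ((t + t + s : ℕ) : ℝ) ≤ b) (hb' : b' ≤ s')
    (h1 : av (fun z : V n => ind (¬ Gd A s' z)) ≤ 1 / 8) (h2 : pm n (t + t) A ≤ 1 / 8)
    (hR : ∀ j ∈ Finset.Icc t (t + t), ∀ u : V n, pr {ω | Rt A u j s ω} ≤ 1 / 16)
    (hQ : ∑ a ∈ Finset.range (t + 1), ∑ c ∈ Finset.range (t + 1), hk n (a + c) 0 0 ≤ Q)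
    (hQ0 : 0 < Q) :
    ((t : ℝ) + 1) ^ 2 / (256 * NN n * Q) ≤ av (fun u : V n => av (fun y : V n =>
      pr2 {ω | (∃ i : ℕ, (i : ℝ) ≤ b ∧
        pos (act n) y ω.2 i ∈ lerw (act n) u ω.1 A) ∧
        b' ≤ (tau (act n) y ω.2 A : ℝ)})) := by
  have hpr : IsProbabilityMeasure (mu DD) := mu_prob
  have hN := NN_pos n
  have ht : (0 : ℝ) < (t : ℝ) + 1 := by positivity
  have hpz := pz_sum ((mu DD).prod (mu DD)) (fun _ : V n × V n => 1 / NN n ^ 2)
    (fun _ => by positivity) (SS A s s' t) (measurable_SS A s s' t) (((t : ℝ) + 1) ^ 2)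
    (fun p ω => ⟨(SS_le_meets A s s' t p ω).1,
      (SS_le_meets A s s' t p ω).2.1.trans (SS_le_meets A s s' t p ω).2.2⟩)
  rw [sum_av2 (fun p => ∫ ω, SS A s s' t p ω ∂((mu DD).prod (mu DD))),
    sum_av2 (fun p => ∫ ω, (SS A s s' t p ω) ^ 2 ∂((mu DD).prod (mu DD))),
    sum_av2 (fun p => ((mu DD).prod (mu DD)).real {ω | 0 < SS A s s' t p ω})] at hpz
  -- first moment
  have e1 : (1 / 8 : ℝ) * ((t : ℝ) + 1) ^ 2 / NN n ≤ av (fun u : V n => av (fun y : V n =>
      ∫ ω, SS A s s' t (u, y) ω ∂((mu DD).prod (mu DD)))) := by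
    refine (count A s s' t h1 h2 hR).trans (le_of_eq ?_)
    simp only [int_SS]
    rw [eq_comm]
    have h3 : ∀ u : V n, av (fun y : V n => ∑ j ∈ Finset.Icc t (t + t),
        ∑ i ∈ Finset.Icc t (t + t), pr2 {ω | Ev A s s' u y j i ω}) =
        ∑ j ∈ Finset.Icc t (t + t), ∑ i ∈ Finset.Icc t (t + t),
          av (fun y : V n => pr2 {ω | Ev A s s' u y j i ω}) := by
      intro u
      rw [av_sum]
      exact Finset.sum_congr rfl fun j _ => av_sum _ _
    simp only [h3]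
    rw [av_sum]
    exact Finset.sum_congr rfl fun j _ => av_sum _ _
  -- second moment
  have e2 : av (fun u : V n => av (fun y : V n =>
      ∫ ω, (SS A s s' t (u, y) ω) ^ 2 ∂((mu DD).prod (mu DD)))) ≤
      4 * (1 / NN n) * ((t : ℝ) + 1) * ((t : ℝ) + 1) * Q := by
    refine av_le (by positivity) fun u => ?_
    have hms := meets_sq n (fun _ : V n => 1 / NN n) (fun _ => by positivity) u t t t t (1 / NN n)
      (fun i c _ _ => by
        rw [← Finset.mul_sum]
        have : ∑ y : V n, hk n i y c = 1 := by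
          rw [← hk_sum n i c]
          exact Finset.sum_congr rfl fun y _ => hk_symm n i y c
        rw [this, mul_one])
    have hle : av (fun y : V n => ∫ ω, (SS A s s' t (u, y) ω) ^ 2 ∂((mu DD).prod (mu DD))) ≤
        ∑ y : V n, 1 / NN n *
          ∫ ω, (meets n u y t t t t ω) ^ 2 ∂((mu DD).prod (mu DD)) := by
      unfold av
      rw [card_V, Finset.sum_div]
      refine Finset.sum_le_sum fun y _ => ?_
      rw [div_eq_inv_mul, one_div]
      refine mul_le_mul_of_nonneg_left ?_ (by positivity)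
      have hmm : Measurable (meets n u y t t t t) :=
        Finset.measurable_fun_sum _ fun j _ => Finset.measurable_fun_sum _ fun i _ =>
          measurable_ind (meas_dep2 (max j i) (fun ω η => pos (act n) u ω j = pos (act n) y η i)
            fun ω ω' η η' h1 h2 => by
            rw [pos_congr (act n) u ω ω' j (fun b hb => h1 b
              (lt_of_lt_of_le hb (le_max_left _ _))),
              pos_congr (act n) y η η' i (fun b hb => h2 b
                (lt_of_lt_of_le hb (le_max_right _ _)))])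
      refine integral_mono_of_nonneg (Filter.Eventually.of_forall fun ω => sq_nonneg _) ?_
        (Filter.Eventually.of_forall fun ω => ?_)
      · refine Integrable.of_bound (hmm.pow_const 2).aestronglyMeasurable
          ((((t : ℝ) + 1) ^ 2) ^ 2) (Filter.Eventually.of_forall fun ω => ?_)
        have h3 := SS_le_meets A s s' t (u, y) ω
        have h4 : 0 ≤ meets n u y t t t t ω := h3.1.trans h3.2.1
        rw [Real.norm_eq_abs, abs_of_nonneg (sq_nonneg _)]
        exact pow_le_pow_left₀ h4 h3.2.2 2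
      · have h3 := SS_le_meets A s s' t (u, y) ω
        exact pow_le_pow_left₀ h3.1 h3.2.1 2
    refine hle.trans (hms.trans ?_)
    exact mul_le_mul_of_nonneg_left hQ (by positivity)
  -- conclusion
  have e3 : av (fun u : V n => av (fun y : V n =>
      ((mu DD).prod (mu DD)).real {ω | 0 < SS A s s' t (u, y) ω})) ≤
      av (fun u : V n => av (fun y : V n => pr2 {ω | (∃ i : ℕ, (i : ℝ) ≤ b ∧
        pos (act n) y ω.2 i ∈ lerw (act n) u ω.1 A) ∧
        b' ≤ (tau (act n) y ω.2 A : ℝ)})) :=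
    av_mono fun u => av_mono fun y => pos_SS_le A hA s s' t u y b b' hb hb'
  refine le_trans ?_ e3
  set R := av (fun u : V n => av (fun y : V n =>
      ((mu DD).prod (mu DD)).real {ω | 0 < SS A s s' t (u, y) ω})) with hRdef
  have hR0 : 0 ≤ R := av_nonneg fun u => av_nonneg fun y => measureReal_nonneg
  have e4 : ((1 / 8 : ℝ) * ((t : ℝ) + 1) ^ 2 / NN n) ^ 2 ≤
      (4 * (1 / NN n) * ((t : ℝ) + 1) * ((t : ℝ) + 1) * Q) * R :=
    (pow_le_pow_left₀ (by positivity) e1 2).trans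
      (hpz.trans (mul_le_mul_of_nonneg_right e2 hR0))
  rw [div_le_iff₀ (by positivity)]
  have e5 : ((1 / 8 : ℝ) * ((t : ℝ) + 1) ^ 2 / NN n) ^ 2 =
      ((t : ℝ) + 1) ^ 2 / NN n ^ 2 * (((t : ℝ) + 1) ^ 2 / 64) := by
    field_simp; ring
  have e6 : (4 * (1 / NN n) * ((t : ℝ) + 1) * ((t : ℝ) + 1) * Q) * R =
      ((t : ℝ) + 1) ^ 2 / NN n ^ 2 * (4 * NN n * Q * R) := by
    field_simp
  rw [e5, e6] at e4
  have e7 := le_of_mul_le_mul_left e4 (by positivity)
  linarith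

theorem kk_bounds {n : ℕ} (hn : 3 ≤ n) :
    1 ≤ LL n ∧ NN n * LL n ≤ (kk n : ℝ) ^ 2 ∧ (kk n : ℝ) ^ 2 ≤ 4 * (NN n * LL n) ∧
      (kk n : ℝ) ≤ 2 * (n : ℝ) ^ 3 ∧ 0 < (kk n : ℝ) := by
  have hn' : (3 : ℝ) ≤ n := by exact_mod_cast hn
  have hL1 : 1 ≤ LL n := by
    unfold LL
    rw [Real.le_log_iff_exp_le (by linarith)]
    have := Real.exp_one_lt_d9
    linarith
  have hs1 : 1 ≤ Real.sqrt (LL n) := by
    rw [show (1 : ℝ) = Real.sqrt 1 by simp]
    exact Real.sqrt_le_sqrt hL1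
  have hsq : Real.sqrt (LL n) ^ 2 = LL n := Real.sq_sqrt (by linarith)
  have hn2 : (1 : ℝ) ≤ (n : ℝ) ^ 2 := by nlinarith
  have h1 : (n : ℝ) ^ 2 * Real.sqrt (LL n) ≤ kk n := Nat.le_ceil _
  have h2 : (kk n : ℝ) < (n : ℝ) ^ 2 * Real.sqrt (LL n) + 1 :=
    Nat.ceil_lt_add_one (by positivity)
  have h3 : 1 ≤ (n : ℝ) ^ 2 * Real.sqrt (LL n) := by nlinarith
  have h4 : (kk n : ℝ) ≤ 2 * ((n : ℝ) ^ 2 * Real.sqrt (LL n)) := by linarith
  have hNL : NN n * LL n = ((n : ℝ) ^ 2 * Real.sqrt (LL n)) ^ 2 := by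
    rw [mul_pow, hsq]; unfold NN; ring
  have h0 : 0 < (n : ℝ) ^ 2 * Real.sqrt (LL n) := by linarith
  refine ⟨hL1, ?_, ?_, ?_, by linarith⟩
  · rw [hNL]; exact pow_le_pow_left₀ h0.le h1 2
  · rw [hNL]
    have := pow_le_pow_left₀ (by positivity) h4 2
    refine this.trans (le_of_eq (by ring))
  · have h5 : Real.sqrt (LL n) ≤ n := by
      rw [Real.sqrt_le_left (by positivity)]
      unfold LL
      have := Real.log_le_sub_one_of_pos (show (0 : ℝ) < n by linarith)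
      nlinarith
    refine h4.trans ?_
    have : (n : ℝ) ^ 2 * Real.sqrt (LL n) ≤ (n : ℝ) ^ 2 * n :=
      mul_le_mul_of_nonneg_left h5 (by positivity)
    nlinarith

end C2a

open C2a in
theorem lemC2a (B : ℝ) (hB : 1 ≤ B) : ∃ c : ℝ, 0 < c ∧ ∃ C : ℝ, 0 < C ∧ ∃ n0 : ℕ,
    ∀ (n : ℕ) [NeZero n], n0 ≤ n → ∀ A : Set (V n), A.Nonempty →
    C * (n : ℝ) ^ 2 ≤ MA n A → MA n A ≤ B * kk n →
    c * (MA n A / kk n) ^ 2 ≤ av (fun u : V n => av (fun y : V n =>
      pr2 {ω | (∃ i : ℕ, (i : ℝ) ≤ MA n A / 512 ∧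
        pos (act n) y ω.2 i ∈ lerw (act n) u ω.1 A) ∧
        MA n A / 256 ≤ (tau (act n) y ω.2 A : ℝ)})) := by
  obtain ⟨Cr, hCr, nr, hr⟩ := rb
  obtain ⟨Ch, hCh, nh, hh⟩ := heat_sum
  have hB0 : 0 < B := by linarith
  set θ : ℝ := min (1 / 2048) (1 / (384 * Cr * B ^ 2)) with hθ
  have hθ0 : 0 < θ := lt_min (by norm_num) (by positivity)
  have hθ1 : θ ≤ 1 / 2048 := min_le_left _ _
  have hθ2 : θ ≤ 1 / (384 * Cr * B ^ 2) := min_le_right _ _
  refine ⟨θ ^ 2 / (256 * (Ch * (1 + 4 * B ^ 2))), by positivity, 100000, by norm_num,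
    max (max nr nh) (max (max 3 ⌈B⌉₊) ⌈2 / θ⌉₊), ?_⟩
  intro n _ hn A hA hM1 hM2
  have hnr : nr ≤ n := ((le_max_left _ _).trans (le_max_left _ _)).trans hn
  have hnh : nh ≤ n := ((le_max_right _ _).trans (le_max_left _ _)).trans hn
  have hn3 : 3 ≤ n := ((le_max_left _ _).trans ((le_max_left _ _).trans (le_max_right _ _))).trans hn
  have hnB : B ≤ n := (Nat.le_ceil B).trans (by
    exact_mod_cast ((le_max_right _ _).trans ((le_max_left _ _).trans (le_max_right _ _))).trans hn)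
  have hnθ : 2 / θ ≤ n := (Nat.le_ceil _).trans (by
    exact_mod_cast ((le_max_right _ _).trans (le_max_right _ _)).trans hn)
  have hn3' : (3 : ℝ) ≤ n := by exact_mod_cast hn3
  obtain ⟨hL, hk1, hk2, hk3, hk0⟩ := kk_bounds hn3
  have hN := NN_pos n
  set M := MA n A with hMdef
  have hn2 : (9 : ℝ) ≤ (n : ℝ) ^ 2 := by nlinarith
  have hMn : (n : ℝ) ^ 2 ≤ M := by nlinarith
  have hM0 : 0 < M := by nlinarith
  have ht0 : ((t0 n : ℕ) : ℝ) = 4 * (n : ℝ) ^ 2 := by unfold t0; push_cast; ring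
  set t := ⌊θ * M⌋₊ with ht
  set s := ⌊M / 1024⌋₊ with hs
  set s' := ⌈M / 256⌉₊ with hs'
  have t1 : (t : ℝ) ≤ θ * M := Nat.floor_le (by positivity)
  have t2 : θ * M < (t : ℝ) + 1 := Nat.lt_floor_add_one _
  have s1 : (s : ℝ) ≤ M / 1024 := Nat.floor_le (by positivity)
  have s2 : M / 1024 < (s : ℝ) + 1 := Nat.lt_floor_add_one _
  have s3 : M / 256 ≤ (s' : ℝ) := Nat.le_ceil _
  have s4 : (s' : ℝ) < M / 256 + 1 := Nat.ceil_lt_add_one (by positivity)
  have t3 : θ * M ≤ M / 2048 := by nlinarith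
  have hs0 : t0 n ≤ s := by
    have : ((t0 n : ℕ) : ℝ) < (s : ℝ) + 1 := by rw [ht0]; linarith
    have h5 : t0 n < s + 1 := by exact_mod_cast this
    omega
  have htn : n ≤ t := by
    have h5 : (n : ℝ) < (t : ℝ) + 1 := by
      have h6 : 2 ≤ θ * n := by
        rw [div_le_iff₀ hθ0] at hnθ
        linarith
      have h7 : θ * (n : ℝ) ^ 2 ≤ θ * M := mul_le_mul_of_nonneg_left hMn hθ0.le
      nlinarith
    have : n < t + 1 := by exact_mod_cast h5
    omega
  -- the good points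
  have hgood : av (fun z : V n => ind (¬ Gd A s' z)) ≤ 1 / 8 := by
    have h5 : av (fun z : V n => ind (¬ Gd A s' z)) ≤
        av (fun z : V n => ind ((1 / 8 : ℝ) ≤ pr {ω | hit (act n) z ω 0 s' A})) :=
      av_mono fun z => ind_mono fun h => (not_le.mp h).le
    have h6 := av_ind_le (f := fun z : V n => pr {ω | hit (act n) z ω 0 s' A})
      (fun z => pr_nonneg _) (c := 1 / 8) (by norm_num)
    have h7 : av (fun z : V n => pr {ω | hit (act n) z ω 0 s' A}) = pm n s' A := rfl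
    rw [h7] at h6
    have h8 := pm_le_MA n A hA s' hM0
    have h9 : 2 * ((s' : ℝ) + t0 n + 1) / MA n A ≤ 1 / 64 := by
      rw [div_le_iff₀ hM0, ht0]
      linarith
    linarith
  have hpm : pm n (t + t) A ≤ 1 / 8 := by
    have h8 := pm_le_MA n A hA (t + t) hM0
    have h9 : 2 * (((t + t : ℕ) : ℝ) + t0 n + 1) / MA n A ≤ 1 / 8 := by
      rw [div_le_iff₀ hM0, ht0]
      push_cast
      linarith
    linarith
  have hR : ∀ j ∈ Finset.Icc t (t + t), ∀ u : V n, pr {ω | Rt A u j s ω} ≤ 1 / 16 := by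
    intro j hj u
    obtain ⟨hj1, hj2⟩ := Finset.mem_Icc.mp hj
    have h5 : ∀ x, Et n A x ≤ 3 * M := by
      intro x
      refine (Et_le_MA n A hA x).trans ?_
      rw [ht0]
      linarith
    have hbj : b1 n ≤ j := by
      have : b1 n ≤ n := Nat.sqrt_le_self n
      omega
    refine (Rt_le A hA u j s hs0).trans ((hr n hnr A hA (3 * M) (by linarith) h5 u j hbj).trans ?_)
    have hj3 : (j : ℝ) ≤ 2 * (θ * M) := by
      have : (j : ℝ) ≤ ((t + t : ℕ) : ℝ) := by exact_mod_cast hj2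
      push_cast at this
      linarith
    have hNL : 0 < NN n * LL n := by positivity
    rw [div_le_iff₀ hNL]
    have h6 : Cr * (3 * M) * (j : ℝ) ≤ 6 * Cr * θ * M ^ 2 := by
      calc Cr * (3 * M) * (j : ℝ) ≤ Cr * (3 * M) * (2 * (θ * M)) :=
            mul_le_mul_of_nonneg_left hj3 (by positivity)
        _ = 6 * Cr * θ * M ^ 2 := by ring
    have h7 : M ^ 2 ≤ B ^ 2 * (4 * (NN n * LL n)) := by
      calc M ^ 2 ≤ (B * kk n) ^ 2 := pow_le_pow_left₀ hM0.le hM2 2
        _ = B ^ 2 * (kk n : ℝ) ^ 2 := by ring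
        _ ≤ _ := mul_le_mul_of_nonneg_left hk2 (by positivity)
    have h8 : 6 * Cr * θ * M ^ 2 ≤ 6 * Cr * (1 / (384 * Cr * B ^ 2)) *
        (B ^ 2 * (4 * (NN n * LL n))) := by
      gcongr
    refine h6.trans (h8.trans (le_of_eq ?_))
    field_simp
    norm_num
  -- the heat sum
  have hMB : M ≤ 2 * (n : ℝ) ^ 4 := by
    calc M ≤ B * kk n := hM2
      _ ≤ n * (2 * (n : ℝ) ^ 3) := mul_le_mul hnB hk3 hk0.le (by positivity)
      _ = 2 * (n : ℝ) ^ 4 := by ring
  have htt : t ≤ n ^ 10 := by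
    have h5 : (t : ℝ) ≤ (n : ℝ) ^ 4 := by
      have : θ * M ≤ M / 2048 := t3
      have h6 : (0 : ℝ) ≤ (n : ℝ) ^ 4 := by positivity
      linarith
    have h6 : t ≤ n ^ 4 := by exact_mod_cast h5
    exact h6.trans (Nat.pow_le_pow_right (by omega) (by norm_num))
  have hsum := hh n hnh t t htt htt
  have hK : ((t : ℝ) + 1) * ((t : ℝ) + 1) / NN n ≤ 4 * B ^ 2 * LL n := by
    rw [div_le_iff₀ hN]
    have h5 : (t : ℝ) + 1 ≤ B * kk n := by
      have : (t : ℝ) + 1 ≤ M := by linarith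
      linarith
    calc ((t : ℝ) + 1) * ((t : ℝ) + 1) ≤ (B * kk n) * (B * kk n) :=
          mul_le_mul h5 h5 (by positivity) (by positivity)
      _ = B ^ 2 * (kk n : ℝ) ^ 2 := by ring
      _ ≤ B ^ 2 * (4 * (NN n * LL n)) := mul_le_mul_of_nonneg_left hk2 (by positivity)
      _ = 4 * B ^ 2 * LL n * NN n := by ring
  have hQ : ∑ a ∈ Finset.range (t + 1), ∑ c ∈ Finset.range (t + 1), hk n (a + c) 0 0 ≤
      Ch * (1 + 4 * B ^ 2) * LL n := by
    refine hsum.trans ?_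
    calc Ch * (LL n + ((t : ℝ) + 1) * ((t : ℝ) + 1) / NN n)
        ≤ Ch * (LL n + 4 * B ^ 2 * LL n) := by gcongr
      _ = Ch * (1 + 4 * B ^ 2) * LL n := by ring
  have hfin := second A hA s s' t (M / 512) (M / 256) (Ch * (1 + 4 * B ^ 2) * LL n)
    (by push_cast; linarith) s3 hgood hpm hR hQ (by positivity)
  refine le_trans ?_ hfin
  have hNL : 0 < NN n * LL n := by positivity
  calc θ ^ 2 / (256 * (Ch * (1 + 4 * B ^ 2))) * (M / kk n) ^ 2
      = (θ * M) ^ 2 / (256 * (Ch * (1 + 4 * B ^ 2))) / (kk n : ℝ) ^ 2 := by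
        field_simp
    _ ≤ ((t : ℝ) + 1) ^ 2 / (256 * (Ch * (1 + 4 * B ^ 2))) / (NN n * LL n) := by
        gcongr
    _ = ((t : ℝ) + 1) ^ 2 / (256 * NN n * (Ch * (1 + 4 * B ^ 2) * LL n)) := by
        field_simp

end Pool.Agent.UST
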