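import Pool.Agent.Helper54.UST.BaseTorus
import Pool.Agent.Helper54.UST.Av

/-! Auxiliary facts for the paper Lemma C2: pairs of meeting times of two independent walks. -/

namespace Pool.Agent.UST

open MeasureTheory

namespace C2a

theorem hit_congr {W D : Type} (act : D → W → W) (x : W) (ω ω' : ℕ → D) (s t : ℕ) (B : Set W)
    (h : ∀ i, i < t → ω i = ω' i) : hit act x ω s t B ↔ hit act x ω' s t B := by
  unfold hit
  constructor
  · rintro ⟨i, h1, h2, h3⟩
    exact ⟨i, h1, h2, by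
      rw [← pos_congr act x ω ω' i (fun a ha => h a (lt_of_lt_of_le ha h2))]; exact h3⟩
  · rintro ⟨i, h1, h2, h3⟩
    exact ⟨i, h1, h2, by
      rw [pos_congr act x ω ω' i (fun a ha => h a (lt_of_lt_of_le ha h2))]; exact h3⟩

theorem meas_dep (t : ℕ) (P : (ℕ → DD) → Prop)
    (h : ∀ ω ω' : ℕ → DD, (∀ i, i < t → ω i = ω' i) → (P ω ↔ P ω')) :
    MeasurableSet {ω | P ω} := by
  have := measurable_dep (D := DD) t P (fun ω ω' hω => propext (h ω ω' hω))
  exact measurableSet_setOfPred.mpr this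

theorem meas_pos {n : ℕ} (x z : V n) (t : ℕ) : MeasurableSet {ω : ℕ → DD | pos (act n) x ω t = z} :=
  meas_dep t _ fun ω ω' h => by rw [pos_congr (act n) x ω ω' t h]

theorem meas_hit {n : ℕ} (x : V n) (s t : ℕ) (B : Set (V n)) :
    MeasurableSet {ω : ℕ → DD | hit (act n) x ω s t B} :=
  meas_dep t _ fun ω ω' h => hit_congr (act n) x ω ω' s t B h

theorem card_V (n : ℕ) [NeZero n] : (Fintype.card (V n) : ℝ) = NN n := by
  unfold NN
  rw [Fintype.card_fun, ZMod.card, Fintype.card_fin]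
  push_cast
  rfl

theorem NN_pos (n : ℕ) [NeZero n] : 0 < NN n := by
  rw [← card_V]
  exact_mod_cast Fintype.card_pos

/-- the law of a pair of walks at a meeting -/
theorem pr2_pair (n : ℕ) [NeZero n] (u y : V n) (j i : ℕ) (P Q : (ℕ → DD) → Prop)
    (hP : MeasurableSet {ω | P ω}) (hQ : MeasurableSet {ω | Q ω}) :
    pr2 {ω | pos (act n) u ω.1 j = pos (act n) y ω.2 i ∧ P ω.1 ∧ Q ω.2}
      = ∑ z : V n, pr {ω | pos (act n) u ω j = z ∧ P ω} *
        pr {ω | pos (act n) y ω i = z ∧ Q ω} := by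
  have h1 : {ω : (ℕ → DD) × (ℕ → DD) | pos (act n) u ω.1 j = pos (act n) y ω.2 i ∧ P ω.1 ∧ Q ω.2}
      = ⋃ z ∈ (Finset.univ : Finset (V n)), {ω | pos (act n) u ω j = z ∧ P ω} ×ˢ
        {ω | pos (act n) y ω i = z ∧ Q ω} := by
    ext ω
    simp only [Set.mem_ofPred_eq, Finset.mem_univ, Set.iUnion_true, Set.mem_iUnion, Set.mem_prod]
    constructor
    · rintro ⟨h1, h2, h3⟩
      exact ⟨_, ⟨rfl, h2⟩, h1.symm, h3⟩
    · rintro ⟨z, ⟨h1, h2⟩, h3, h4⟩
      exact ⟨h1.trans h3.symm, h2, h4⟩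
  unfold pr2 pr
  rw [h1, measureReal_biUnion_finset]
  · refine Finset.sum_congr rfl fun z _ => ?_
    rw [measureReal_prod_prod]
  · intro z _ z' _ hzz
    refine Set.disjoint_left.mpr ?_
    rintro ω ⟨⟨h1, _⟩, _⟩ ⟨⟨h2, _⟩, _⟩
    exact hzz (h1.symm.trans h2)
  · intro z _
    exact ((meas_pos u z j).inter hP).prod ((meas_pos y z i).inter hQ)

theorem pr_nonneg (s : Set (ℕ → DD)) : 0 ≤ pr s := measureReal_nonneg

theorem pr_le_one (s : Set (ℕ → DD)) : pr s ≤ 1 := by
  have : IsProbabilityMeasure (mu DD) := mu_prob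
  exact measureReal_le_one

theorem pr_mono {s t : Set (ℕ → DD)} (h : s ⊆ t) : pr s ≤ pr t := by
  have : IsProbabilityMeasure (mu DD) := mu_prob
  exact measureReal_mono h

theorem pr2_nonneg (s : Set ((ℕ → DD) × (ℕ → DD))) : 0 ≤ pr2 s := measureReal_nonneg

theorem pr2_mono {s t : Set ((ℕ → DD) × (ℕ → DD))} (h : s ⊆ t) : pr2 s ≤ pr2 t := by
  have : IsProbabilityMeasure (mu DD) := mu_prob
  exact measureReal_mono h

theorem pr2_union (s t : Set ((ℕ → DD) × (ℕ → DD))) : pr2 (s ∪ t) ≤ pr2 s + pr2 t :=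
  measureReal_union_le s t

theorem pr_union (s t : Set (ℕ → DD)) : pr (s ∪ t) ≤ pr s + pr t :=
  measureReal_union_le s t

/-- partition according to the position -/
theorem sum_pos (n : ℕ) [NeZero n] (u : V n) (j : ℕ) (P : (ℕ → DD) → Prop)
    (hP : MeasurableSet {ω | P ω}) :
    ∑ z : V n, pr {ω | pos (act n) u ω j = z ∧ P ω} = pr {ω | P ω} := by
  have h1 : {ω : ℕ → DD | P ω}
      = ⋃ z ∈ (Finset.univ : Finset (V n)), {ω | pos (act n) u ω j = z ∧ P ω} := by
    ext ω
    simp
  unfold pr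
  conv_rhs => rw [h1]
  rw [measureReal_biUnion_finset]
  · intro z _ z' _ hzz
    refine Set.disjoint_left.mpr ?_
    rintro ω ⟨h1, _⟩ ⟨h2, _⟩
    exact hzz (h1.symm.trans h2)
  · intro z _
    exact (meas_pos u z j).inter hP

/-- the position from a uniform starting point is uniform -/
theorem av_pos (n : ℕ) [NeZero n] (i : ℕ) (z : V n) :
    av (fun y : V n => pr {ω | pos (act n) y ω i = z}) = 1 / NN n := by
  have h := stationary n i (fun x _ => ind (x = z)) (fun x => measurable_const) 1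
    (fun x _ => by rw [abs_of_nonneg (ind_nonneg _)]; exact ind_le_one _)
  have h1 : ∀ x : V n, ∫ ω, ind (pos (act n) x ω i = z) ∂(mu DD)
      = pr {ω | pos (act n) x ω i = z} := fun x =>
    integral_ind (mu DD) _ (meas_pos x z i)
  have : IsProbabilityMeasure (mu DD) := mu_prob
  simp only [h1, integral_const, probReal_univ, one_smul] at h
  rw [h]
  unfold av
  rw [card_V]
  congr 1
  rw [Finset.sum_eq_single z]
  · exact ind_true rfl
  · intro b _ hb
    exact ind_false hb
  · intro hz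
    exact absurd (Finset.mem_univ z) hz

/-- Markov property: hitting after the time `i` -/
theorem hit_after (n : ℕ) [NeZero n] (y z : V n) (i s : ℕ) (A : Set (V n)) :
    pr {ω | pos (act n) y ω i = z ∧ ¬ hit (act n) y ω 0 i A ∧ hit (act n) y ω 0 (i + s) A}
      ≤ pr {ω | pos (act n) y ω i = z ∧ ¬ hit (act n) y ω 0 i A} *
        pr {ω | hit (act n) z ω 0 s A} := by
  have : IsProbabilityMeasure (mu DD) := mu_prob
  set P : (ℕ → DD) → Prop := fun ω => pos (act n) y ω i = z ∧ ¬ hit (act n) y ω 0 i A with hPdef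
  have hPd : ∀ ω ω' : ℕ → DD, (∀ a, a < i → ω a = ω' a) → (P ω ↔ P ω') := by
    intro ω ω' h
    simp only [hPdef]
    rw [pos_congr (act n) y ω ω' i h, hit_congr (act n) y ω ω' 0 i A h]
  have hPm : MeasurableSet {ω | P ω} := meas_dep i P hPd
  have hQm : MeasurableSet {ω : ℕ → DD | hit (act n) z ω 0 s A} := meas_hit z 0 s A
  have hm1 : Measurable (fun ω : ℕ → DD => ind (P ω)) := by
    unfold ind
    exact Measurable.ite hPm measurable_const measurable_const
  have hm2 : Measurable (fun ω : ℕ → DD => ind (hit (act n) z ω 0 s A)) := by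
    unfold ind
    exact Measurable.ite hQm measurable_const measurable_const
  have hmk := markov_int (D := DD) i (fun ω η => ind (P ω) * ind (hit (act n) z η 0 s A))
    (by
      have h1 : Measurable (Function.uncurry
          (fun (ω η : ℕ → DD) => ind (P ω) * ind (hit (act n) z η 0 s A))) := by
        exact (hm1.comp measurable_fst).mul (hm2.comp measurable_snd)
      exact h1) 1
    (fun ω η => by
      rw [abs_of_nonneg (mul_nonneg (ind_nonneg _) (ind_nonneg _))]
      exact mul_le_one₀ (ind_le_one _) (ind_nonneg _) (ind_le_one _))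
    (fun ω ω' η h => by
      have : ind (P ω) = ind (P ω') := by rw [propext (hPd ω ω' h)]
      rw [this])
  have e1 : ∀ ω : ℕ → DD, ∫ η, ind (P ω) * ind (hit (act n) z η 0 s A) ∂(mu DD)
      = ind (P ω) * pr {ω | hit (act n) z ω 0 s A} := by
    intro ω
    rw [integral_const_mul, integral_ind (mu DD) _ hQm]
    rfl
  simp only [e1] at hmk
  rw [integral_mul_const, integral_ind (mu DD) _ hPm] at hmk
  change _ ≤ (mu DD).real {ω | P ω} * _
  rw [← hmk]
  have e2 : ∀ ω : ℕ → DD, ind (P ω) * ind (hit (act n) z (sh i ω) 0 s A)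
      = ind (P ω ∧ hit (act n) z (sh i ω) 0 s A) := fun ω => (ind_and _ _).symm
  simp only [e2]
  have hm3 : MeasurableSet {ω : ℕ → DD | P ω ∧ hit (act n) z (sh i ω) 0 s A} := by
    refine hPm.inter ?_
    exact (measurable_sh (D := DD) i) hQm
  rw [integral_ind (mu DD) _ hm3]
  refine measureReal_mono ?_
  rintro ω ⟨h1, h2, h3⟩
  refine ⟨⟨h1, h2⟩, ?_⟩
  obtain ⟨a, _, ha, hA⟩ := h3
  have hai : i < a := by
    by_contra hn
    exact h2 ⟨a, Nat.zero_le _, not_lt.mp hn, hA⟩
  refine ⟨a - i, Nat.zero_le _, by omega, ?_⟩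
  have h4 := pos_add (act n) y ω i (a - i)
  rw [show i + (a - i) = a by omega, h1] at h4
  rw [← h4]
  exact hA

end C2a

end Pool.Agent.UST
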