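import Pool.Agent.Helper54.UST.Heat

namespace Pool.Agent.UST

open MeasureTheory

/-- Telescoping bound for a tail of the inverse squares. -/
private lemma hs_tail (b : ℝ) (hb : 0 < b) (t : ℕ) :
    ∑ c ∈ Finset.range (t + 1), 1 / (b + (c : ℝ)) ^ 2 ≤ (1 / b + 1) / b - 0 := by
  have key : ∀ t : ℕ, ∑ c ∈ Finset.range (t + 1), 1 / (b + (c : ℝ)) ^ 2 ≤
      1 / b ^ 2 + (1 / b - 1 / (b + t)) := by
    intro t
    induction t with
    | zero => simp
    | succ t ih =>
      rw [Finset.sum_range_succ]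
      have h1 : 0 < b + t := by positivity
      have h2 : 0 < b + ((t + 1 : ℕ) : ℝ) := by positivity
      have h3 : 1 / (b + ((t + 1 : ℕ) : ℝ)) ^ 2 ≤ 1 / (b + t) - 1 / (b + ((t + 1 : ℕ) : ℝ)) := by
        have h4 : 1 / (b + t) - 1 / (b + ((t + 1 : ℕ) : ℝ)) =
            1 / ((b + t) * (b + ((t + 1 : ℕ) : ℝ))) := by
          field_simp
          push_cast
          ring
        rw [h4]
        apply one_div_le_one_div_of_le (by positivity)
        rw [pow_two]
        apply mul_le_mul_of_nonneg_right _ h2.le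
        push_cast
        linarith
      linarith
  have h := key t
  have h5 : 0 ≤ 1 / (b + t) := by positivity
  have h6 : (1 / b + 1) / b = 1 / b ^ 2 + 1 / b := by
    field_simp
  linarith

private lemma hs_tail' (b : ℝ) (hb : 1 ≤ b) (t : ℕ) :
    ∑ c ∈ Finset.range (t + 1), 1 / (b + (c : ℝ)) ^ 2 ≤ 2 / b := by
  have h := hs_tail b (by linarith) t
  have hb0 : 0 < b := by linarith
  have h1 : (1 / b + 1) / b ≤ 2 / b := by
    apply div_le_div_of_nonneg_right _ hb0.le
    have : 1 / b ≤ 1 := by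
      rw [div_le_one hb0]
      exact hb
    linarith
  linarith

private lemma hs_harm (s : ℕ) :
    ∑ a ∈ Finset.range (s + 1), 1 / ((a : ℝ) + 1) ≤ 1 + Real.log ((s : ℝ) + 1) := by
  have h := harmonic_le_one_add_log (s + 1)
  have h2 : ((harmonic (s + 1) : ℚ) : ℝ) = ∑ a ∈ Finset.range (s + 1), 1 / ((a : ℝ) + 1) := by
    rw [harmonic]
    push_cast
    apply Finset.sum_congr rfl
    intro a _
    rw [one_div]
  rw [← h2]
  have h3 : (((s + 1 : ℕ)) : ℝ) = (s : ℝ) + 1 := by push_cast; ring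
  rw [← h3]
  exact h

theorem heat_sum : ∃ C : ℝ, 0 < C ∧ ∃ n0 : ℕ, ∀ (n : ℕ) [NeZero n], n0 ≤ n → ∀ s t : ℕ,
    s ≤ n ^ 10 → t ≤ n ^ 10 →
    ∑ a ∈ Finset.range (s + 1), ∑ c ∈ Finset.range (t + 1), hk n (a + c) 0 0 ≤
      C * (LL n + ((s : ℝ) + 1) * ((t : ℝ) + 1) / NN n) := by
  obtain ⟨C, hC, hup⟩ := heat_upper
  refine ⟨24 * C, by positivity, 3, ?_⟩
  intro n hn0 hn s t hs ht
  have hnR : (3 : ℝ) ≤ (n : ℝ) := by exact_mod_cast hn
  have hNN : 0 < NN n := by
    unfold NN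
    positivity
  have hL1 : (1 : ℝ) ≤ LL n := by
    unfold LL
    have h1 : Real.exp 1 ≤ (n : ℝ) := by
      have := Real.exp_one_lt_d9
      linarith
    calc (1 : ℝ) = Real.log (Real.exp 1) := (Real.log_exp 1).symm
      _ ≤ Real.log n := Real.log_le_log (Real.exp_pos 1) h1
  have h1 : ∀ a ∈ Finset.range (s + 1),
      ∑ c ∈ Finset.range (t + 1), hk n (a + c) 0 0 ≤
        C * (2 / ((a : ℝ) + 1)) + ((t : ℝ) + 1) * (C / NN n) := by
    intro a _
    calc ∑ c ∈ Finset.range (t + 1), hk n (a + c) 0 0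
        ≤ ∑ c ∈ Finset.range (t + 1), (C * (1 / (((a : ℝ) + 1) + (c : ℝ)) ^ 2) + C / NN n) := by
          apply Finset.sum_le_sum
          intro c _
          have := hup n (a + c) 0 0
          have h2 : C / (((a + c : ℕ) : ℝ) + 1) ^ 2 = C * (1 / (((a : ℝ) + 1) + (c : ℝ)) ^ 2) := by
            push_cast
            rw [show ((a : ℝ) + c + 1) = ((a : ℝ) + 1 + c) by ring]
            ring
          linarith
      _ = C * (∑ c ∈ Finset.range (t + 1), 1 / (((a : ℝ) + 1) + (c : ℝ)) ^ 2)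
            + ((t : ℝ) + 1) * (C / NN n) := by
          rw [Finset.sum_add_distrib, Finset.mul_sum]
          simp
      _ ≤ C * (2 / ((a : ℝ) + 1)) + ((t : ℝ) + 1) * (C / NN n) := by
          have := hs_tail' ((a : ℝ) + 1) (by
            have : (0 : ℝ) ≤ a := Nat.cast_nonneg a
            linarith) t
          have := mul_le_mul_of_nonneg_left this hC.le
          linarith
  have h2 : ∑ a ∈ Finset.range (s + 1), ∑ c ∈ Finset.range (t + 1), hk n (a + c) 0 0 ≤
      2 * C * (1 + Real.log ((s : ℝ) + 1)) + ((s : ℝ) + 1) * (((t : ℝ) + 1) * (C / NN n)) := by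
    calc _ ≤ ∑ a ∈ Finset.range (s + 1),
          (C * (2 / ((a : ℝ) + 1)) + ((t : ℝ) + 1) * (C / NN n)) := Finset.sum_le_sum h1
      _ = 2 * C * (∑ a ∈ Finset.range (s + 1), 1 / ((a : ℝ) + 1)) +
          ((s : ℝ) + 1) * (((t : ℝ) + 1) * (C / NN n)) := by
          rw [Finset.sum_add_distrib, Finset.mul_sum]
          congr 1
          · apply Finset.sum_congr rfl
            intro a _
            ring
          · simp
      _ ≤ _ := by
          have := mul_le_mul_of_nonneg_left (hs_harm s) (by positivity : (0 : ℝ) ≤ 2 * C)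
          linarith
  have h3 : Real.log ((s : ℝ) + 1) ≤ 11 * LL n := by
    have hs' : (s : ℝ) ≤ (n : ℝ) ^ 10 := by exact_mod_cast hs
    have h4 : (s : ℝ) + 1 ≤ (n : ℝ) ^ 11 := by
      have h5 : (1 : ℝ) ≤ (n : ℝ) ^ 10 := one_le_pow₀ (by linarith)
      have h6 : (n : ℝ) ^ 11 = (n : ℝ) ^ 10 * n := by ring
      rw [h6]
      nlinarith
    calc Real.log ((s : ℝ) + 1) ≤ Real.log ((n : ℝ) ^ 11) :=
          Real.log_le_log (by positivity) h4
      _ = 11 * LL n := by
          rw [Real.log_pow]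
          unfold LL
          norm_num
  have h7 : ((s : ℝ) + 1) * (((t : ℝ) + 1) * (C / NN n)) =
      C * (((s : ℝ) + 1) * ((t : ℝ) + 1) / NN n) := by ring
  have h8 : 0 ≤ ((s : ℝ) + 1) * ((t : ℝ) + 1) / NN n := by positivity
  have h9 : 2 * C * (1 + Real.log ((s : ℝ) + 1)) ≤ 24 * C * LL n := by
    have : 1 + Real.log ((s : ℝ) + 1) ≤ 12 * LL n := by linarith
    nlinarith
  nlinarith [mul_nonneg hC.le h8]

theorem heat_sum' : ∃ C : ℝ, 0 < C ∧ ∀ (n : ℕ) [NeZero n] (m g s : ℕ), 1 ≤ g → m ≤ 8 * g →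
    ∑ a ∈ Finset.range (m + 1), ∑ c ∈ Finset.Icc g (g + s), hk n (a + c) 0 0 ≤
      C * (1 + ((m : ℝ) + 1) * ((s : ℝ) + 1) / NN n) := by
  obtain ⟨C, hC, hup⟩ := heat_upper
  refine ⟨16 * C, by positivity, ?_⟩
  intro n hn0 m g s hg hm
  have hnR : (0 : ℝ) < (n : ℝ) := by
    have : n ≠ 0 := NeZero.ne n
    exact_mod_cast Nat.pos_of_ne_zero this
  have hNN : 0 < NN n := by
    unfold NN
    positivity
  have hgR : (1 : ℝ) ≤ g := by exact_mod_cast hg
  have hmR : (m : ℝ) ≤ 8 * g := by exact_mod_cast hm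
  have hre : ∀ a : ℕ, ∑ c ∈ Finset.Icc g (g + s), hk n (a + c) 0 0 =
      ∑ c ∈ Finset.range (s + 1), hk n (a + (g + c)) 0 0 := by
    intro a
    have : Finset.Icc g (g + s) = Finset.Ico g (g + s + 1) := by
      ext x
      simp only [Finset.mem_Icc, Finset.mem_Ico]
      omega
    rw [this, Finset.sum_Ico_eq_sum_range]
    congr 2
    omega
  have h1 : ∀ a ∈ Finset.range (m + 1),
      ∑ c ∈ Finset.Icc g (g + s), hk n (a + c) 0 0 ≤
        C * (2 / ((g : ℝ) + 1)) + ((s : ℝ) + 1) * (C / NN n) := by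
    intro a _
    rw [hre a]
    calc ∑ c ∈ Finset.range (s + 1), hk n (a + (g + c)) 0 0
        ≤ ∑ c ∈ Finset.range (s + 1), (C * (1 / (((a : ℝ) + g + 1) + (c : ℝ)) ^ 2) + C / NN n) := by
          apply Finset.sum_le_sum
          intro c _
          have := hup n (a + (g + c)) 0 0
          have h2 : C / (((a + (g + c) : ℕ) : ℝ) + 1) ^ 2 =
              C * (1 / (((a : ℝ) + g + 1) + (c : ℝ)) ^ 2) := by
            push_cast
            rw [show ((a : ℝ) + (g + c) + 1) = ((a : ℝ) + g + 1 + c) by ring]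
            ring
          linarith
      _ = C * (∑ c ∈ Finset.range (s + 1), 1 / (((a : ℝ) + g + 1) + (c : ℝ)) ^ 2)
            + ((s : ℝ) + 1) * (C / NN n) := by
          rw [Finset.sum_add_distrib, Finset.mul_sum]
          simp
      _ ≤ C * (2 / ((g : ℝ) + 1)) + ((s : ℝ) + 1) * (C / NN n) := by
          have ha : (0 : ℝ) ≤ a := Nat.cast_nonneg a
          have h3 := hs_tail' ((a : ℝ) + g + 1) (by linarith) s
          have h4 : 2 / ((a : ℝ) + g + 1) ≤ 2 / ((g : ℝ) + 1) := by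
            apply div_le_div_of_nonneg_left (by norm_num) (by linarith)
            linarith
          have := mul_le_mul_of_nonneg_left (h3.trans h4) hC.le
          linarith
  have h2 : ∑ a ∈ Finset.range (m + 1), ∑ c ∈ Finset.Icc g (g + s), hk n (a + c) 0 0 ≤
      ((m : ℝ) + 1) * (C * (2 / ((g : ℝ) + 1)) + ((s : ℝ) + 1) * (C / NN n)) := by
    calc _ ≤ ∑ a ∈ Finset.range (m + 1),
          (C * (2 / ((g : ℝ) + 1)) + ((s : ℝ) + 1) * (C / NN n)) := Finset.sum_le_sum h1
      _ = _ := by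
          rw [Finset.sum_const, Finset.card_range, nsmul_eq_mul]
          push_cast
          ring
  have h3 : ((m : ℝ) + 1) * (C * (2 / ((g : ℝ) + 1))) ≤ 16 * C := by
    have h4 : ((m : ℝ) + 1) * (2 / ((g : ℝ) + 1)) ≤ 16 := by
      rw [mul_div_assoc', div_le_iff₀ (by linarith)]
      linarith
    nlinarith
  have h8 : 0 ≤ ((m : ℝ) + 1) * ((s : ℝ) + 1) / NN n := by positivity
  have h9 : ((m : ℝ) + 1) * (((s : ℝ) + 1) * (C / NN n)) =
      C * (((m : ℝ) + 1) * ((s : ℝ) + 1) / NN n) := by ring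
  nlinarith [mul_nonneg hC.le h8]

end Pool.Agent.UST
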