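import Pool.Agent.Helper54.UST.LE1
import Pool.Agent.Helper54.UST.HeatSum
import Pool.Agent.Helper54.UST.Av

/-! Tools for second moment arguments (paper section 6). -/

namespace Pool.Agent.UST

open MeasureTheory


/-- Cauchy-Schwarz for a bounded nonnegative function and the set where it is positive -/
private theorem pz_one {Ω : Type} [MeasurableSpace Ω] (μ : Measure Ω) [IsProbabilityMeasure μ]
    (S : Ω → ℝ) (hm : Measurable S) (C : ℝ) (hS : ∀ ω, 0 ≤ S ω ∧ S ω ≤ C) :
    (∫ ω, S ω ∂μ) ^ 2 ≤ (∫ ω, (S ω) ^ 2 ∂μ) * μ.real {ω | 0 < S ω} := by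
  classical
  have hset : MeasurableSet {ω | 0 < S ω} := measurableSet_lt measurable_const hm
  have hi1 : Integrable S μ := by
    refine Integrable.of_bound hm.aestronglyMeasurable C (ae_of_all _ fun ω => ?_)
    rw [Real.norm_eq_abs, abs_of_nonneg (hS ω).1]
    exact (hS ω).2
  have hi2 : Integrable (fun ω => (S ω) ^ 2) μ := by
    refine Integrable.of_bound (hm.pow_const 2).aestronglyMeasurable (C ^ 2)
      (ae_of_all _ fun ω => ?_)
    rw [Real.norm_eq_abs, abs_of_nonneg (sq_nonneg _)]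
    exact pow_le_pow_left₀ (hS ω).1 (hS ω).2 2
  have hi3 : Integrable ({ω | 0 < S ω}.indicator (fun _ => (1 : ℝ))) μ :=
    (integrable_const (1 : ℝ)).indicator hset
  have hint : ∫ ω, {ω | 0 < S ω}.indicator (fun _ => (1 : ℝ)) ω ∂μ = μ.real {ω | 0 < S ω} := by
    rw [integral_indicator_const _ hset]
    simp
  have key : ∀ l : ℝ, 0 ≤ (μ.real {ω | 0 < S ω}) * (l * l) + (-2 * ∫ ω, S ω ∂μ) * l +
      ∫ ω, (S ω) ^ 2 ∂μ := by
    intro l
    have h0 : 0 ≤ ∫ ω, (S ω - l * {ω | 0 < S ω}.indicator (fun _ => (1 : ℝ)) ω) ^ 2 ∂μ :=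
      integral_nonneg fun ω => sq_nonneg _
    have h1 : ∀ ω, (S ω - l * {ω | 0 < S ω}.indicator (fun _ => (1 : ℝ)) ω) ^ 2 =
        (S ω) ^ 2 + (-2 * l) * S ω + (l * l) * {ω | 0 < S ω}.indicator (fun _ => (1 : ℝ)) ω := by
      intro ω
      by_cases hω : 0 < S ω
      · rw [Set.indicator_of_mem (show ω ∈ {ω | 0 < S ω} from hω)]
        ring
      · rw [Set.indicator_of_notMem (show ω ∉ {ω | 0 < S ω} from hω)]
        have : S ω = 0 := le_antisymm (not_lt.mp hω) (hS ω).1
        rw [this]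
        ring
    rw [integral_congr_ae (ae_of_all _ h1)] at h0
    have hA : Integrable (fun ω => (S ω) ^ 2 + (-2 * l) * S ω) μ := hi2.add (hi1.const_mul _)
    rw [integral_add hA (hi3.const_mul _), integral_add hi2 (hi1.const_mul _),
      integral_const_mul, integral_const_mul, hint] at h0
    linarith
  have := discrim_le_zero key
  unfold discrim at this
  nlinarith

/-- second moment inequality for a weighted family -/
theorem pz_sum {α Ω : Type} [Fintype α] [MeasurableSpace Ω] (μ : Measure Ω) [IsProbabilityMeasure μ]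
    (w : α → ℝ) (hw : ∀ a, 0 ≤ w a) (S : α → Ω → ℝ) (hm : ∀ a, Measurable (S a)) (C : ℝ)
    (hS : ∀ a ω, 0 ≤ S a ω ∧ S a ω ≤ C) :
    (∑ a, w a * ∫ ω, S a ω ∂μ) ^ 2 ≤
      (∑ a, w a * ∫ ω, (S a ω) ^ 2 ∂μ) * ∑ a, w a * μ.real {ω | 0 < S a ω} := by
  classical
  set A : α → ℝ := fun a => ∫ ω, (S a ω) ^ 2 ∂μ with hA
  set B : α → ℝ := fun a => μ.real {ω | 0 < S a ω} with hB
  have hA0 : ∀ a, 0 ≤ A a := fun a => integral_nonneg fun ω => sq_nonneg _
  have hB0 : ∀ a, 0 ≤ B a := fun a => measureReal_nonneg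
  have hI0 : ∀ a, 0 ≤ ∫ ω, S a ω ∂μ := fun a => integral_nonneg fun ω => (hS a ω).1
  have h1 : ∀ a, w a * ∫ ω, S a ω ∂μ ≤ Real.sqrt (w a * A a) * Real.sqrt (w a * B a) := by
    intro a
    have h2 := pz_one μ (S a) (hm a) C (hS a)
    rw [← Real.sqrt_mul (mul_nonneg (hw a) (hA0 a))]
    refine Real.le_sqrt_of_sq_le ?_
    have : (w a) ^ 2 * (∫ ω, S a ω ∂μ) ^ 2 ≤ (w a) ^ 2 * (A a * B a) :=
      mul_le_mul_of_nonneg_left h2 (sq_nonneg _)
    nlinarith
  have h3 : (∑ a, w a * ∫ ω, S a ω ∂μ) ^ 2 ≤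
      (∑ a, Real.sqrt (w a * A a) * Real.sqrt (w a * B a)) ^ 2 := by
    refine pow_le_pow_left₀ (Finset.sum_nonneg fun a _ => mul_nonneg (hw a) (hI0 a)) ?_ 2
    exact Finset.sum_le_sum fun a _ => h1 a
  refine h3.trans ((Finset.sum_mul_sq_le_sq_mul_sq _ _ _).trans (le_of_eq ?_))
  congr 1
  · exact Finset.sum_congr rfl fun a _ => Real.sq_sqrt (mul_nonneg (hw a) (hA0 a))
  · exact Finset.sum_congr rfl fun a _ => Real.sq_sqrt (mul_nonneg (hw a) (hB0 a))


private abbrev QQ4 : Type := (ℕ → DD) × (ℕ → DD) × (ℕ → DD) × (ℕ → DD)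

private def crt (N : ℕ) (ω : ℕ → DD) : Fin N → DD := fun i => ω i

private theorem measurable_crt (N : ℕ) : Measurable (crt N) :=
  measurable_pi_lambda _ fun i => measurable_pi_apply _

private def cxt (N : ℕ) (a : Fin N → DD) : ℕ → DD :=
  fun i => if h : i < N then a ⟨i, h⟩ else (false, 0, false)

private theorem cxt_crt {N i : ℕ} (hi : i < N) (ω : ℕ → DD) : cxt N (crt N ω) i = ω i := by
  simp [cxt, crt, hi]

/-- a function of finitely many choices of four walks is measurable -/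
private theorem measurable_four {α : Type} [MeasurableSpace α] (N : ℕ) (f : QQ4 → α)
    (hf : ∀ p q : QQ4, (∀ i, i < N → p.1 i = q.1 i ∧ p.2.1 i = q.2.1 i ∧ p.2.2.1 i = q.2.2.1 i ∧
      p.2.2.2 i = q.2.2.2 i) → f p = f q) : Measurable f := by
  have h : f = (fun a : (Fin N → DD) × (Fin N → DD) × (Fin N → DD) × (Fin N → DD) =>
      f (cxt N a.1, cxt N a.2.1, cxt N a.2.2.1, cxt N a.2.2.2)) ∘
      (fun p : QQ4 => (crt N p.1, crt N p.2.1, crt N p.2.2.1, crt N p.2.2.2)) := by
    funext p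
    refine hf _ _ fun i hi => ?_
    simp only [cxt_crt hi]
    exact ⟨trivial, trivial, trivial, trivial⟩
  rw [h]
  refine (measurable_of_finite _).comp ?_
  exact ((measurable_crt N).comp measurable_fst).prodMk
    (((measurable_crt N).comp (measurable_fst.comp measurable_snd)).prodMk
      (((measurable_crt N).comp (measurable_fst.comp (measurable_snd.comp measurable_snd))).prodMk
        ((measurable_crt N).comp (measurable_snd.comp (measurable_snd.comp measurable_snd)))))

/-- Markov property for two walks -/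
private theorem two_markov (j i : ℕ) (K : QQ4 → ENNReal) (hK : Measurable K)
    (h1 : ∀ ω ω' η a b, (∀ k, k < j → ω k = ω' k) → K (ω, η, a, b) = K (ω', η, a, b))
    (h2 : ∀ ω η η' a b, (∀ k, k < i → η k = η' k) → K (ω, η, a, b) = K (ω, η', a, b)) :
    ∫⁻ p, K (p.1, p.2, sh j p.1, sh i p.2) ∂((mu DD).prod (mu DD)) =
      ∫⁻ ω, ∫⁻ a, ∫⁻ η, ∫⁻ b, K (ω, η, a, b) ∂(mu DD) ∂(mu DD) ∂(mu DD) ∂(mu DD) := by
  have hm : Measurable (fun p : (ℕ → DD) × (ℕ → DD) => K (p.1, p.2, sh j p.1, sh i p.2)) :=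
    hK.comp (measurable_fst.prodMk (measurable_snd.prodMk
      (((measurable_sh j).comp measurable_fst).prodMk ((measurable_sh i).comp measurable_snd))))
  rw [lintegral_prod _ hm.aemeasurable]
  have e1 : ∀ ω : ℕ → DD, ∫⁻ η, K (ω, η, sh j ω, sh i η) ∂(mu DD) =
      ∫⁻ η, ∫⁻ b, K (ω, η, sh j ω, b) ∂(mu DD) ∂(mu DD) := by
    intro ω
    refine markov_lint i (fun η b => K (ω, η, sh j ω, b)) ?_ ?_
    · exact hK.comp (measurable_const.prodMk (measurable_fst.prodMk
        (measurable_const.prodMk measurable_snd)))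
    · intro η η' b h
      exact h2 _ _ _ _ _ h
  simp only at e1 ⊢
  rw [lintegral_congr e1]
  have hF : Measurable (Function.uncurry (fun (ω a : ℕ → DD) =>
      ∫⁻ η, ∫⁻ b, K (ω, η, a, b) ∂(mu DD) ∂(mu DD))) := by
    unfold Function.uncurry
    refine Measurable.lintegral_prod_right' (f := fun q : ((ℕ → DD) × (ℕ → DD)) × (ℕ → DD) =>
      ∫⁻ b, K (q.1.1, q.2, q.1.2, b) ∂(mu DD)) ?_
    refine Measurable.lintegral_prod_right'
      (f := fun q : (((ℕ → DD) × (ℕ → DD)) × (ℕ → DD)) × (ℕ → DD) =>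
        K (q.1.1.1, q.1.2, q.1.1.2, q.2)) ?_
    exact hK.comp ((measurable_fst.comp (measurable_fst.comp measurable_fst)).prodMk
      ((measurable_snd.comp measurable_fst).prodMk
        ((measurable_snd.comp (measurable_fst.comp measurable_fst)).prodMk measurable_snd)))
  refine markov_lint j (fun ω a => ∫⁻ η, ∫⁻ b, K (ω, η, a, b) ∂(mu DD) ∂(mu DD)) hF ?_
  intro ω ω' a h
  refine lintegral_congr fun η => lintegral_congr fun b => ?_
  exact h1 _ _ _ _ _ h

/-- exchange of the futures -/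
private theorem swap_four (K : QQ4 → ENNReal) (hK : Measurable K) :
    ∫⁻ ω, ∫⁻ a, ∫⁻ η, ∫⁻ b, K (ω, η, b, a) ∂(mu DD) ∂(mu DD) ∂(mu DD) ∂(mu DD) =
      ∫⁻ ω, ∫⁻ a, ∫⁻ η, ∫⁻ b, K (ω, η, a, b) ∂(mu DD) ∂(mu DD) ∂(mu DD) ∂(mu DD) := by
  refine lintegral_congr fun ω => ?_
  -- G (a, η, b) = K (ω, η, b, a)
  have hG : Measurable (fun q : ((ℕ → DD) × (ℕ → DD)) × (ℕ → DD) => K (ω, q.1.1, q.1.2, q.2)) :=
    hK.comp (measurable_const.prodMk ((measurable_fst.comp measurable_fst).prodMk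
      ((measurable_snd.comp measurable_fst).prodMk measurable_snd)))
  -- swap a and η
  have s1 : ∫⁻ a, ∫⁻ η, ∫⁻ b, K (ω, η, b, a) ∂(mu DD) ∂(mu DD) ∂(mu DD) =
      ∫⁻ η, ∫⁻ a, ∫⁻ b, K (ω, η, b, a) ∂(mu DD) ∂(mu DD) ∂(mu DD) := by
    refine lintegral_lintegral_swap (Measurable.aemeasurable ?_)
    unfold Function.uncurry
    refine Measurable.lintegral_prod_right' (f := fun q : ((ℕ → DD) × (ℕ → DD)) × (ℕ → DD) =>
      K (ω, q.1.2, q.2, q.1.1)) ?_
    exact hK.comp (measurable_const.prodMk ((measurable_snd.comp measurable_fst).prodMk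
      (measurable_snd.prodMk (measurable_fst.comp measurable_fst))))
  have s2 : ∀ η : ℕ → DD, ∫⁻ a, ∫⁻ b, K (ω, η, b, a) ∂(mu DD) ∂(mu DD) =
      ∫⁻ b, ∫⁻ a, K (ω, η, b, a) ∂(mu DD) ∂(mu DD) := by
    intro η
    refine lintegral_lintegral_swap (Measurable.aemeasurable ?_)
    unfold Function.uncurry
    exact hK.comp (measurable_const.prodMk (measurable_const.prodMk
      (measurable_snd.prodMk measurable_fst)))
  have s3 : ∫⁻ η, ∫⁻ b, ∫⁻ a, K (ω, η, b, a) ∂(mu DD) ∂(mu DD) ∂(mu DD) =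
      ∫⁻ b, ∫⁻ η, ∫⁻ a, K (ω, η, b, a) ∂(mu DD) ∂(mu DD) ∂(mu DD) := by
    refine lintegral_lintegral_swap (Measurable.aemeasurable ?_)
    unfold Function.uncurry
    exact Measurable.lintegral_prod_right' hG
  rw [s1, lintegral_congr s2, s3]

/-- the certificate has conditional probability at least one half -/
theorem cert_half (n : ℕ) (x y : V n) (j i t : ℕ) (lam : (ℕ → DD) → List (V n))
    (hlam : ∀ ω ω' : ℕ → DD, (∀ a, a < j → ω a = ω' a) → lam ω = lam ω')
    (E : (ℕ → DD) → (ℕ → DD) → Prop)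
    (hE1 : ∀ ω ω' η : ℕ → DD, (∀ a, a < j → ω a = ω' a) → (E ω η ↔ E ω' η))
    (hE2 : ∀ ω η η' : ℕ → DD, (∀ a, a < i → η a = η' a) → (E ω η ↔ E ω η')) :
    (1 / 2 : ℝ) * pr2 {ω | pos (act n) x ω.1 j = pos (act n) y ω.2 i ∧ E ω.1 ω.2} ≤
      pr2 {ω | pos (act n) x ω.1 j = pos (act n) y ω.2 i ∧ E ω.1 ω.2 ∧
        (open Classical in (lam ω.1).findIdx
          (fun z => decide (z ∈ seg (act n) y ω.2 i (i + t)))) ≤
        (open Classical in (lam ω.1).findIdx
          (fun z => decide (z ∈ seg (act n) x ω.1 j (j + t))))} := by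
  classical
  -- the index of the future `a` from the meeting point
  set idx : (ℕ → DD) → (ℕ → DD) → ℕ := fun ω a =>
    (lam ω).findIdx (fun z => decide (z ∈ seg (act n) (pos (act n) x ω j) a 0 t)) with hidx
  set K : QQ4 → ENNReal := fun q =>
    if (pos (act n) x q.1 j = pos (act n) y q.2.1 i ∧ E q.1 q.2.1 ∧
      idx q.1 q.2.2.2 ≤ idx q.1 q.2.2.1) then 1 else 0 with hKdef
  have hEE : ∀ ω ω' η η' : ℕ → DD, (∀ a, a < j → ω a = ω' a) → (∀ a, a < i → η a = η' a) →
      (E ω η ↔ E ω' η') := fun ω ω' η η' h h' => (hE1 ω ω' η h).trans (hE2 ω' η η' h')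
  have hidx1 : ∀ ω ω' a a' : ℕ → DD, (∀ k, k < j → ω k = ω' k) → (∀ k, k < t → a k = a' k) →
      idx ω a = idx ω' a' := by
    intro ω ω' a a' h h'
    simp only [hidx]
    rw [hlam ω ω' h, pos_congr (act n) x ω ω' j h, seg_congr (act n) _ a a' 0 t h']
  have hKm : Measurable K := by
    refine measurable_four (j + i + t) K ?_
    intro p q hpq
    have hj : ∀ k, k < j → p.1 k = q.1 k := fun k hk => (hpq k (by omega)).1
    have hi : ∀ k, k < i → p.2.1 k = q.2.1 k := fun k hk => (hpq k (by omega)).2.1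
    have ha : ∀ k, k < t → p.2.2.1 k = q.2.2.1 k := fun k hk => (hpq k (by omega)).2.2.1
    have hb : ∀ k, k < t → p.2.2.2 k = q.2.2.2 k := fun k hk => (hpq k (by omega)).2.2.2
    simp only [hKdef]
    rw [pos_congr (act n) x p.1 q.1 j hj, pos_congr (act n) y p.2.1 q.2.1 i hi,
      hidx1 p.1 q.1 _ _ hj ha, hidx1 p.1 q.1 _ _ hj hb]
    simp only [hEE p.1 q.1 p.2.1 q.2.1 hj hi]
  have hK1 : ∀ ω ω' η a b : ℕ → DD, (∀ k, k < j → ω k = ω' k) →
      K (ω, η, a, b) = K (ω', η, a, b) := by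
    intro ω ω' η a b h
    simp only [hKdef]
    rw [pos_congr (act n) x ω ω' j h, hidx1 ω ω' a a h (fun _ _ => rfl),
      hidx1 ω ω' b b h (fun _ _ => rfl)]
    simp only [hE1 ω ω' η h]
  have hK2 : ∀ ω η η' a b : ℕ → DD, (∀ k, k < i → η k = η' k) →
      K (ω, η, a, b) = K (ω, η', a, b) := by
    intro ω η η' a b h
    simp only [hKdef]
    rw [pos_congr (act n) y η η' i h]
    simp only [hE2 ω η η' h]
  -- the two events
  set A0 : Set ((ℕ → DD) × (ℕ → DD)) :=
    {ω | pos (act n) x ω.1 j = pos (act n) y ω.2 i ∧ E ω.1 ω.2} with hA0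
  set A1 : Set ((ℕ → DD) × (ℕ → DD)) :=
    {ω | pos (act n) x ω.1 j = pos (act n) y ω.2 i ∧ E ω.1 ω.2 ∧
      idx ω.1 (sh i ω.2) ≤ idx ω.1 (sh j ω.1)} with hA1
  set A2 : Set ((ℕ → DD) × (ℕ → DD)) :=
    {ω | pos (act n) x ω.1 j = pos (act n) y ω.2 i ∧ E ω.1 ω.2 ∧
      idx ω.1 (sh j ω.1) ≤ idx ω.1 (sh i ω.2)} with hA2
  have hshm : Measurable (fun p : (ℕ → DD) × (ℕ → DD) => ((p.1, p.2, sh j p.1, sh i p.2) : QQ4)) :=
    measurable_fst.prodMk (measurable_snd.prodMk
      (((measurable_sh j).comp measurable_fst).prodMk ((measurable_sh i).comp measurable_snd)))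
  have hshm' : Measurable (fun p : (ℕ → DD) × (ℕ → DD) => ((p.1, p.2, sh i p.2, sh j p.1) : QQ4)) :=
    measurable_fst.prodMk (measurable_snd.prodMk
      (((measurable_sh i).comp measurable_snd).prodMk ((measurable_sh j).comp measurable_fst)))
  have hA1K : ∀ p : (ℕ → DD) × (ℕ → DD), A1.indicator 1 p = K (p.1, p.2, sh j p.1, sh i p.2) := by
    intro p
    simp only [hKdef, hA1, Set.indicator, Set.mem_ofPred_eq, Pi.one_apply]
  have hA2K : ∀ p : (ℕ → DD) × (ℕ → DD), A2.indicator 1 p = K (p.1, p.2, sh i p.2, sh j p.1) := by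
    intro p
    simp only [hKdef, hA2, Set.indicator, Set.mem_ofPred_eq, Pi.one_apply]
  have hmA1 : MeasurableSet A1 := by
    have : A1 = (fun p : (ℕ → DD) × (ℕ → DD) => K (p.1, p.2, sh j p.1, sh i p.2)) ⁻¹' {1} := by
      ext p
      simp only [Set.mem_preimage, Set.mem_singleton_iff, ← hA1K p]
      by_cases hp : p ∈ A1 <;> simp [hp]
    rw [this]
    exact (hKm.comp hshm) (measurableSet_singleton 1)
  have hmA2 : MeasurableSet A2 := by
    have : A2 = (fun p : (ℕ → DD) × (ℕ → DD) => K (p.1, p.2, sh i p.2, sh j p.1)) ⁻¹' {1} := by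
      ext p
      simp only [Set.mem_preimage, Set.mem_singleton_iff, ← hA2K p]
      by_cases hp : p ∈ A2 <;> simp [hp]
    rw [this]
    exact (hKm.comp hshm') (measurableSet_singleton 1)
  have hP1 : ((mu DD).prod (mu DD)) A1 =
      ∫⁻ ω, ∫⁻ a, ∫⁻ η, ∫⁻ b, K (ω, η, a, b) ∂(mu DD) ∂(mu DD) ∂(mu DD) ∂(mu DD) := by
    rw [← lintegral_indicator_one hmA1, lintegral_congr hA1K]
    exact two_markov j i K hKm hK1 hK2
  have hP2 : ((mu DD).prod (mu DD)) A2 =
      ∫⁻ ω, ∫⁻ a, ∫⁻ η, ∫⁻ b, K (ω, η, b, a) ∂(mu DD) ∂(mu DD) ∂(mu DD) ∂(mu DD) := by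
    rw [← lintegral_indicator_one hmA2, lintegral_congr hA2K]
    refine two_markov j i (fun q => K (q.1, q.2.1, q.2.2.2, q.2.2.1)) ?_ ?_ ?_
    · exact hKm.comp (measurable_fst.prodMk ((measurable_fst.comp measurable_snd).prodMk
        ((measurable_snd.comp (measurable_snd.comp measurable_snd)).prodMk
          (measurable_fst.comp (measurable_snd.comp measurable_snd)))))
    · intro ω ω' η a b h
      exact hK1 _ _ _ _ _ h
    · intro ω η η' a b h
      exact hK2 _ _ _ _ _ h
  have hP12 : ((mu DD).prod (mu DD)) A2 = ((mu DD).prod (mu DD)) A1 := by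
    rw [hP1, hP2, swap_four K hKm]
  have hle : pr2 A0 ≤ pr2 A1 + pr2 A2 := by
    have hsub : A0 ⊆ A1 ∪ A2 := by
      intro p hp
      rcases le_total (idx p.1 (sh i p.2)) (idx p.1 (sh j p.1)) with h | h
      · exact Or.inl ⟨hp.1, hp.2, h⟩
      · exact Or.inr ⟨hp.1, hp.2, h⟩
    exact (measureReal_mono hsub).trans (measureReal_union_le _ _)
  have h2 : pr2 A2 = pr2 A1 := by
    unfold pr2 Measure.real
    rw [hP12]
  have hfin : A1 = {ω | pos (act n) x ω.1 j = pos (act n) y ω.2 i ∧ E ω.1 ω.2 ∧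
        (lam ω.1).findIdx (fun z => decide (z ∈ seg (act n) y ω.2 i (i + t))) ≤
        (lam ω.1).findIdx (fun z => decide (z ∈ seg (act n) x ω.1 j (j + t)))} := by
    ext p
    simp only [hA1, Set.mem_ofPred_eq, hidx]
    constructor
    · rintro ⟨h1, h2, h3⟩
      refine ⟨h1, h2, ?_⟩
      have e1 := seg_shift (act n) y p.2 i 0 t
      have e2 := seg_shift (act n) x p.1 j 0 t
      rw [add_zero] at e1 e2
      rw [e1, e2, ← h1]
      exact h3
    · rintro ⟨h1, h2, h3⟩
      refine ⟨h1, h2, ?_⟩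
      have e1 := seg_shift (act n) y p.2 i 0 t
      have e2 := seg_shift (act n) x p.1 j 0 t
      rw [add_zero] at e1 e2
      rw [e1, e2, ← h1] at h3
      exact h3
  rw [h2] at hle
  have : pr2 {ω | pos (act n) x ω.1 j = pos (act n) y ω.2 i ∧ E ω.1 ω.2 ∧
        (lam ω.1).findIdx (fun z => decide (z ∈ seg (act n) y ω.2 i (i + t))) ≤
        (lam ω.1).findIdx (fun z => decide (z ∈ seg (act n) x ω.1 j (j + t)))} = pr2 A1 := by
    rw [hfin]
  calc (1 / 2 : ℝ) * pr2 A0 ≤ pr2 A1 := by linarith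
    _ = _ := this.symm


private theorem chk_nonneg (n t : ℕ) (x y : V n) : 0 ≤ hk n t x y := measureReal_nonneg

private theorem chk_diag (n t : ℕ) (b : V n) : hk n t b b = hk n t 0 0 := by
  have := hk_translate n t 0 0 b
  rwa [zero_add] at this

/-- the event that the position at time `t` is `y` is measurable -/
private theorem cmeas_pos (n : ℕ) (x : V n) (t : ℕ) (P : V n → Prop) :
    MeasurableSet {ω : ℕ → DD | P (pos (act n) x ω t)} := by
  have : Measurable (fun ω : ℕ → DD => P (pos (act n) x ω t)) := by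
    refine measurable_dep t _ fun ω ω' h => ?_
    rw [pos_congr (act n) x ω ω' t h]
  exact measurableSet_setOfPred.mpr this

private theorem cmeas_pos2 (n : ℕ) (x : V n) (s t : ℕ) (P : V n → V n → Prop) :
    MeasurableSet {ω : ℕ → DD | P (pos (act n) x ω s) (pos (act n) x ω t)} := by
  have : Measurable (fun ω : ℕ → DD => P (pos (act n) x ω s) (pos (act n) x ω t)) := by
    refine measurable_dep (s + t) _ fun ω ω' h => ?_
    rw [pos_congr (act n) x ω ω' t (fun i hi => h i (by omega)),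
      pos_congr (act n) x ω ω' s (fun i hi => h i (by omega))]
  exact measurableSet_setOfPred.mpr this

/-- joint law of the positions at the times `s` and `s + r` -/
private theorem cjoint (n : ℕ) (x : V n) (s r : ℕ) (b c : V n) :
    pr {ω | pos (act n) x ω s = b ∧ pos (act n) x ω (s + r) = c} = hk n s x b * hk n r b c := by
  classical
  have h1 : pr {ω | pos (act n) x ω s = b ∧ pos (act n) x ω (s + r) = c} =
      ∫ ω, (if pos (act n) x ω s = b then (1 : ℝ) else 0) *
        (if pos (act n) b (sh s ω) r = c then 1 else 0) ∂(mu DD) := by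
    have hm := cmeas_pos2 n x s (s + r) (fun u v => u = b ∧ v = c)
    unfold pr
    rw [← integral_indicator_one hm]
    refine integral_congr_ae (ae_of_all _ fun ω => ?_)
    simp only [Set.indicator, Set.mem_ofPred_eq, Pi.one_apply]
    by_cases hb : pos (act n) x ω s = b
    · rw [pos_add (act n) x ω s r, hb]
      simp
    · simp [hb]
  rw [h1]
  have hmeas : Measurable (Function.uncurry (fun ω η : ℕ → DD =>
      (if pos (act n) x ω s = b then (1 : ℝ) else 0) *
        (if pos (act n) b η r = c then 1 else 0))) := by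
    unfold Function.uncurry
    refine Measurable.mul ?_ ?_
    · exact (Measurable.ite (cmeas_pos n x s (fun u => u = b)) measurable_const
        measurable_const).comp measurable_fst
    · exact (Measurable.ite (cmeas_pos n b r (fun u => u = c)) measurable_const
        measurable_const).comp measurable_snd
  have h2 := markov_int (D := DD) s (fun ω η =>
      (if pos (act n) x ω s = b then (1 : ℝ) else 0) *
        (if pos (act n) b η r = c then 1 else 0)) hmeas 1 ?_ ?_
  · rw [h2]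
    simp only [integral_const_mul]
    rw [integral_mul_const]
    have e1 : ∫ ω, (if pos (act n) x ω s = b then (1 : ℝ) else 0) ∂(mu DD) = hk n s x b := by
      unfold hk pr
      rw [← integral_indicator_one (cmeas_pos n x s (fun u => u = b))]
      refine integral_congr_ae (ae_of_all _ fun ω => ?_)
      simp only [Set.indicator, Set.mem_ofPred_eq, Pi.one_apply]
    have e2 : ∫ ω, (if pos (act n) b ω r = c then (1 : ℝ) else 0) ∂(mu DD) = hk n r b c := by
      unfold hk pr
      rw [← integral_indicator_one (cmeas_pos n b r (fun u => u = c))]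
      refine integral_congr_ae (ae_of_all _ fun ω => ?_)
      simp only [Set.indicator, Set.mem_ofPred_eq, Pi.one_apply]
    rw [e1, e2]
  · intro ω η
    split_ifs <;> simp
  · intro ω ω' η h
    rw [pos_congr (act n) x ω ω' s h]

/-- joint law, in any order of the times -/
private noncomputable def CJ (n : ℕ) (x : V n) (s t : ℕ) (b c : V n) : ℝ :=
  pr {ω | pos (act n) x ω s = b ∧ pos (act n) x ω t = c}

private theorem CJ_nonneg (n : ℕ) (x : V n) (s t : ℕ) (b c : V n) : 0 ≤ CJ n x s t b c :=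
  measureReal_nonneg

private theorem CJ_le (n : ℕ) (x : V n) {s t : ℕ} (h : s ≤ t) (b c : V n) :
    CJ n x s t b c = hk n s x b * hk n (t - s) b c := by
  unfold CJ
  have := cjoint n x s (t - s) b c
  rwa [Nat.add_sub_cancel' h] at this

private theorem CJ_swap (n : ℕ) (x : V n) (s t : ℕ) (b c : V n) :
    CJ n x s t b c = CJ n x t s c b := by
  unfold CJ
  congr 1
  ext ω
  simp only [Set.mem_ofPred_eq]
  exact and_comm

/-- the indicator of two meetings is a sum over the pairs of points -/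
private theorem ctwo_sum (n : ℕ) [NeZero n] (x y : V n) (j j' i i' : ℕ)
    (ω : (ℕ → DD) × (ℕ → DD)) :
    ind (pos (act n) x ω.1 j = pos (act n) y ω.2 i) *
        ind (pos (act n) x ω.1 j' = pos (act n) y ω.2 i') =
      ∑ b : V n, ∑ c : V n,
        ({ω | pos (act n) x ω j = b ∧ pos (act n) x ω j' = c}.indicator (fun _ => (1 : ℝ)) ω.1) *
        ({ω | pos (act n) y ω i = b ∧ pos (act n) y ω i' = c}.indicator
          (fun _ => (1 : ℝ)) ω.2) := by
  classical
  have hterm : ∀ b c : V n,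
      ({ω | pos (act n) x ω j = b ∧ pos (act n) x ω j' = c}.indicator (fun _ => (1 : ℝ)) ω.1) *
      ({ω | pos (act n) y ω i = b ∧ pos (act n) y ω i' = c}.indicator (fun _ => (1 : ℝ)) ω.2) =
      if b = pos (act n) x ω.1 j then (if c = pos (act n) x ω.1 j' then
        (ind (pos (act n) x ω.1 j = pos (act n) y ω.2 i) *
      ind (pos (act n) x ω.1 j' = pos (act n) y ω.2 i')) else 0) else 0 := by
    intro b c
    unfold ind
    simp only [Set.indicator, Set.mem_ofPred_eq]
    by_cases h1 : b = pos (act n) x ω.1 j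
    · by_cases h2 : c = pos (act n) x ω.1 j'
      · rw [if_pos h1, if_pos h2, if_pos ⟨h1.symm, h2.symm⟩, one_mul]
        rw [h1, h2]
        by_cases h3 : pos (act n) x ω.1 j = pos (act n) y ω.2 i
        · by_cases h4 : pos (act n) x ω.1 j' = pos (act n) y ω.2 i'
          · rw [if_pos ⟨h3.symm, h4.symm⟩, if_pos h3, if_pos h4, one_mul]
          · rw [if_neg (fun h => h4 h.2.symm), if_neg h4, mul_zero]
        · rw [if_neg (fun h => h3 h.1.symm), if_neg h3, zero_mul]
      · rw [if_pos h1, if_neg h2, if_neg (fun h => h2 h.2.symm), zero_mul]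
    · rw [if_neg h1, if_neg (fun h => h1 h.1.symm), zero_mul]
  simp only [hterm]
  simp

private theorem ctwo_int1 (n : ℕ) [NeZero n] (x y : V n) (j j' i i' : ℕ) (b c : V n) :
    Integrable (fun ω : (ℕ → DD) × (ℕ → DD) =>
      ({ω | pos (act n) x ω j = b ∧ pos (act n) x ω j' = c}.indicator (fun _ => (1 : ℝ)) ω.1) *
      ({ω | pos (act n) y ω i = b ∧ pos (act n) y ω i' = c}.indicator (fun _ => (1 : ℝ)) ω.2))
      ((mu DD).prod (mu DD)) :=
  Integrable.mul_prod
    ((integrable_const (1 : ℝ)).indicator (cmeas_pos2 n x j j' (fun u v => u = b ∧ v = c)))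
    ((integrable_const (1 : ℝ)).indicator (cmeas_pos2 n y i i' (fun u v => u = b ∧ v = c)))

private theorem ctwo_int (n : ℕ) [NeZero n] (x y : V n) (j j' i i' : ℕ) :
    Integrable (fun ω : (ℕ → DD) × (ℕ → DD) =>
      ind (pos (act n) x ω.1 j = pos (act n) y ω.2 i) *
        ind (pos (act n) x ω.1 j' = pos (act n) y ω.2 i')) ((mu DD).prod (mu DD)) := by
  have h := integrable_finsetSum (μ := (mu DD).prod (mu DD)) (Finset.univ : Finset (V n))
    (fun b _ => integrable_finsetSum (Finset.univ : Finset (V n))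
      (fun c _ => ctwo_int1 n x y j j' i i' b c))
  refine h.congr (ae_of_all _ fun ω => ?_)
  simp only
  rw [ctwo_sum n x y j j' i i' ω]

/-- the probability of two meetings is a sum over the pairs of points -/
private theorem ctwo (n : ℕ) [NeZero n] (x y : V n) (j j' i i' : ℕ) :
    ∫ ω, ind (pos (act n) x ω.1 j = pos (act n) y ω.2 i) *
      ind (pos (act n) x ω.1 j' = pos (act n) y ω.2 i') ∂((mu DD).prod (mu DD)) =
      ∑ b : V n, ∑ c : V n, CJ n x j j' b c * CJ n y i i' b c := by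
  classical
  rw [integral_congr_ae (ae_of_all _ (ctwo_sum n x y j j' i i'))]
  rw [integral_finsetSum _ (fun b _ => integrable_finsetSum _ fun c _ =>
    ctwo_int1 n x y j j' i i' b c)]
  refine Finset.sum_congr rfl fun b _ => ?_
  rw [integral_finsetSum _ (fun c _ => ctwo_int1 n x y j j' i i' b c)]
  refine Finset.sum_congr rfl fun c _ => ?_
  rw [integral_prod_mul]
  unfold CJ pr
  rw [integral_indicator_const _ (cmeas_pos2 n x j j' (fun u v => u = b ∧ v = c)),
    integral_indicator_const _ (cmeas_pos2 n y i i' (fun u v => u = b ∧ v = c))]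
  simp

private theorem cb1 (n : ℕ) [NeZero n] (ν : V n → ℝ) (x : V n) (j j' i i' : ℕ) (κ : ℝ)
    (hj : j ≤ j') (hκ1 : ∀ b, ∑ y, ν y * hk n i y b ≤ κ)
    (hκ2 : ∀ b, ∑ y, ν y * hk n i' y b ≤ κ) :
    ∑ y, ν y * ∑ b : V n, ∑ c : V n, CJ n x j j' b c * CJ n y i i' b c ≤
      κ * hk n (((j' - j) + (j - j')) + ((i' - i) + (i - i'))) 0 0 := by
  classical
  have hexch : ∑ y, ν y * ∑ b : V n, ∑ c : V n, CJ n x j j' b c * CJ n y i i' b c =
      ∑ b : V n, ∑ c : V n, CJ n x j j' b c * ∑ y, ν y * CJ n y i i' b c := by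
    simp only [Finset.mul_sum]
    rw [Finset.sum_comm]
    refine Finset.sum_congr rfl fun b _ => ?_
    rw [Finset.sum_comm]
    refine Finset.sum_congr rfl fun c _ => Finset.sum_congr rfl fun y _ => ?_
    ring
  rw [hexch]
  have hjj : j - j' = 0 := by omega
  have hfin : ∀ d : ℕ, ∑ b : V n, ∑ c : V n, CJ n x j j' b c * (κ * hk n d b c) =
      κ * hk n ((j' - j) + d) 0 0 := by
    intro d
    have e1 : ∀ b : V n, ∑ c : V n, CJ n x j j' b c * (κ * hk n d b c) =
        (κ * hk n ((j' - j) + d) 0 0) * hk n j x b := by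
      intro b
      have e2 : ∑ c : V n, hk n (j' - j) b c * hk n d c b = hk n ((j' - j) + d) 0 0 := by
        rw [← hk_add, chk_diag]
      rw [← e2, Finset.mul_sum, Finset.sum_mul]
      refine Finset.sum_congr rfl fun c _ => ?_
      rw [CJ_le n x hj, hk_symm n d b c]
      ring
    rw [Finset.sum_congr rfl fun b _ => e1 b, ← Finset.mul_sum, hk_sum, mul_one]
  rcases le_total i i' with hi | hi
  · have hii : i - i' = 0 := by omega
    rw [hjj, hii, add_zero, add_zero, ← hfin (i' - i)]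
    refine Finset.sum_le_sum fun b _ => Finset.sum_le_sum fun c _ => ?_
    refine mul_le_mul_of_nonneg_left ?_ (CJ_nonneg n x j j' b c)
    have e3 : ∑ y, ν y * CJ n y i i' b c = (∑ y, ν y * hk n i y b) * hk n (i' - i) b c := by
      rw [Finset.sum_mul]
      refine Finset.sum_congr rfl fun y _ => ?_
      rw [CJ_le n y hi]
      ring
    rw [e3]
    exact mul_le_mul_of_nonneg_right (hκ1 b) (chk_nonneg _ _ _ _)
  · have hii : i' - i = 0 := by omega
    rw [hjj, hii, add_zero, zero_add, ← hfin (i - i')]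
    refine Finset.sum_le_sum fun b _ => Finset.sum_le_sum fun c _ => ?_
    refine mul_le_mul_of_nonneg_left ?_ (CJ_nonneg n x j j' b c)
    have e3 : ∑ y, ν y * CJ n y i i' b c = (∑ y, ν y * hk n i' y c) * hk n (i - i') b c := by
      rw [Finset.sum_mul]
      refine Finset.sum_congr rfl fun y _ => ?_
      rw [CJ_swap, CJ_le n y hi, hk_symm n (i - i') c b]
      ring
    rw [e3]
    exact mul_le_mul_of_nonneg_right (hκ2 c) (chk_nonneg _ _ _ _)

private theorem cb2 (n : ℕ) [NeZero n] (ν : V n → ℝ) (x : V n) (j j' i i' : ℕ) (κ : ℝ)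
    (hκ1 : ∀ b, ∑ y, ν y * hk n i y b ≤ κ) (hκ2 : ∀ b, ∑ y, ν y * hk n i' y b ≤ κ) :
    ∑ y, ν y * ∑ b : V n, ∑ c : V n, CJ n x j j' b c * CJ n y i i' b c ≤
      κ * hk n (((j' - j) + (j - j')) + ((i' - i) + (i - i'))) 0 0 := by
  rcases le_total j j' with hj | hj
  · exact cb1 n ν x j j' i i' κ hj hκ1 hκ2
  · have h := cb1 n ν x j' j i' i κ hj hκ2 hκ1
    have e : ∀ y : V n, ∑ b : V n, ∑ c : V n, CJ n x j j' b c * CJ n y i i' b c =
        ∑ b : V n, ∑ c : V n, CJ n x j' j b c * CJ n y i' i b c := by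
      intro y
      rw [Finset.sum_comm]
      refine Finset.sum_congr rfl fun b _ => Finset.sum_congr rfl fun c _ => ?_
      rw [CJ_swap n x j j', CJ_swap n y i i']
    rw [Finset.sum_congr rfl fun y _ => by rw [e y]]
    refine h.trans (le_of_eq ?_)
    congr 2
    omega

/-- sum over the distances to a point of an interval -/
private theorem cdist (G : ℕ → ℝ) (hG : ∀ a, 0 ≤ G a) (j1 t j : ℕ)
    (hj : j ∈ Finset.Icc j1 (j1 + t)) :
    ∑ j' ∈ Finset.Icc j1 (j1 + t), G ((j' - j) + (j - j')) ≤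
      2 * ∑ a ∈ Finset.range (t + 1), G a := by
  classical
  rw [Finset.mem_Icc] at hj
  rw [← Finset.sum_filter_add_sum_filter_not (Finset.Icc j1 (j1 + t)) (fun j' => j' ≤ j)]
  have h1 : ∑ j' ∈ (Finset.Icc j1 (j1 + t)).filter (fun j' => j' ≤ j),
      G ((j' - j) + (j - j')) ≤ ∑ a ∈ Finset.range (t + 1), G a := by
    have e : ∑ j' ∈ (Finset.Icc j1 (j1 + t)).filter (fun j' => j' ≤ j),
        G ((j' - j) + (j - j')) =
        ∑ a ∈ ((Finset.Icc j1 (j1 + t)).filter (fun j' => j' ≤ j)).image (fun j' => j - j'),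
          G a := by
      rw [Finset.sum_image]
      · refine Finset.sum_congr rfl fun a ha => ?_
        rw [Finset.mem_filter] at ha
        have : a - j = 0 := by omega
        rw [this, zero_add]
      · intro a ha b hb hab
        rw [Finset.mem_coe, Finset.mem_filter] at ha hb
        simp only at hab
        omega
    rw [e]
    refine Finset.sum_le_sum_of_subset_of_nonneg ?_ fun a _ _ => hG a
    intro a ha
    rw [Finset.mem_image] at ha
    obtain ⟨b, hb, rfl⟩ := ha
    rw [Finset.mem_filter, Finset.mem_Icc] at hb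
    rw [Finset.mem_range]
    omega
  have h2 : ∑ j' ∈ (Finset.Icc j1 (j1 + t)).filter (fun j' => ¬ j' ≤ j),
      G ((j' - j) + (j - j')) ≤ ∑ a ∈ Finset.range (t + 1), G a := by
    have e : ∑ j' ∈ (Finset.Icc j1 (j1 + t)).filter (fun j' => ¬ j' ≤ j),
        G ((j' - j) + (j - j')) =
        ∑ a ∈ ((Finset.Icc j1 (j1 + t)).filter (fun j' => ¬ j' ≤ j)).image (fun j' => j' - j),
          G a := by
      rw [Finset.sum_image]
      · refine Finset.sum_congr rfl fun a ha => ?_
        rw [Finset.mem_filter] at ha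
        have : j - a = 0 := by omega
        rw [this, add_zero]
      · intro a ha b hb hab
        rw [Finset.mem_coe, Finset.mem_filter] at ha hb
        simp only at hab
        omega
    rw [e]
    refine Finset.sum_le_sum_of_subset_of_nonneg ?_ fun a _ _ => hG a
    intro a ha
    rw [Finset.mem_image] at ha
    obtain ⟨b, hb, rfl⟩ := ha
    rw [Finset.mem_filter, Finset.mem_Icc] at hb
    rw [Finset.mem_range]
    omega
  linarith

/-- second moment of the number of meetings: `y` has law `ν` and the positions of the second walk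
in its window have density at most `κ` -/
theorem meets_sq (n : ℕ) [NeZero n] (ν : V n → ℝ) (hν : ∀ y, 0 ≤ ν y) (x : V n)
    (j1 t i1 m : ℕ) (κ : ℝ)
    (hκ : ∀ i b, i1 ≤ i → i ≤ i1 + m → ∑ y, ν y * hk n i y b ≤ κ) :
    ∑ y, ν y * ∫ ω, (meets n x y j1 t i1 m ω) ^ 2 ∂((mu DD).prod (mu DD)) ≤
      4 * κ * ((t : ℝ) + 1) * ((m : ℝ) + 1) *
        ∑ a ∈ Finset.range (t + 1), ∑ c ∈ Finset.range (m + 1), hk n (a + c) 0 0 := by
  classical
  have hκ0 : 0 ≤ κ := le_trans (Finset.sum_nonneg fun y _ =>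
    mul_nonneg (hν y) (chk_nonneg n i1 y 0)) (hκ i1 0 le_rfl (by omega))
  set J := Finset.Icc j1 (j1 + t) with hJ
  set I := Finset.Icc i1 (i1 + m) with hI
  have hexp : ∀ y : V n, ∫ ω, (meets n x y j1 t i1 m ω) ^ 2 ∂((mu DD).prod (mu DD)) =
      ∑ j ∈ J, ∑ i ∈ I, ∑ j' ∈ J, ∑ i' ∈ I,
        ∑ b : V n, ∑ c : V n, CJ n x j j' b c * CJ n y i i' b c := by
    intro y
    have e1 : ∀ ω : (ℕ → DD) × (ℕ → DD), (meets n x y j1 t i1 m ω) ^ 2 =
        ∑ j ∈ J, ∑ i ∈ I, ∑ j' ∈ J, ∑ i' ∈ I,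
          ind (pos (act n) x ω.1 j = pos (act n) y ω.2 i) *
            ind (pos (act n) x ω.1 j' = pos (act n) y ω.2 i') := by
      intro ω
      unfold meets
      rw [sq, Finset.sum_mul]
      refine Finset.sum_congr rfl fun j _ => ?_
      rw [Finset.sum_mul]
      refine Finset.sum_congr rfl fun i _ => ?_
      rw [Finset.mul_sum]
      refine Finset.sum_congr rfl fun j' _ => ?_
      rw [Finset.mul_sum]
    rw [integral_congr_ae (ae_of_all _ e1)]
    rw [integral_finsetSum _ (fun j _ => integrable_finsetSum _ fun i _ =>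
      integrable_finsetSum _ fun j' _ => integrable_finsetSum _ fun i' _ =>
        ctwo_int n x y j j' i i')]
    refine Finset.sum_congr rfl fun j _ => ?_
    rw [integral_finsetSum _ (fun i _ =>
      integrable_finsetSum _ fun j' _ => integrable_finsetSum _ fun i' _ =>
        ctwo_int n x y j j' i i')]
    refine Finset.sum_congr rfl fun i _ => ?_
    rw [integral_finsetSum _ (fun j' _ => integrable_finsetSum _ fun i' _ =>
        ctwo_int n x y j j' i i')]
    refine Finset.sum_congr rfl fun j' _ => ?_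
    rw [integral_finsetSum _ (fun i' _ => ctwo_int n x y j j' i i')]
    refine Finset.sum_congr rfl fun i' _ => ?_
    exact ctwo n x y j j' i i'
  have hswap : ∑ y, ν y * ∫ ω, (meets n x y j1 t i1 m ω) ^ 2 ∂((mu DD).prod (mu DD)) =
      ∑ j ∈ J, ∑ i ∈ I, ∑ j' ∈ J, ∑ i' ∈ I,
        ∑ y, ν y * ∑ b : V n, ∑ c : V n, CJ n x j j' b c * CJ n y i i' b c := by
    rw [Finset.sum_congr rfl fun y _ => by rw [hexp y]]
    have e2 : ∀ y : V n, ν y * ∑ j ∈ J, ∑ i ∈ I, ∑ j' ∈ J, ∑ i' ∈ I,
        ∑ b : V n, ∑ c : V n, CJ n x j j' b c * CJ n y i i' b c =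
        ∑ j ∈ J, ∑ i ∈ I, ∑ j' ∈ J, ∑ i' ∈ I,
          ν y * ∑ b : V n, ∑ c : V n, CJ n x j j' b c * CJ n y i i' b c := by
      intro y
      rw [Finset.mul_sum]
      refine Finset.sum_congr rfl fun j _ => ?_
      rw [Finset.mul_sum]
      refine Finset.sum_congr rfl fun i _ => ?_
      rw [Finset.mul_sum]
      refine Finset.sum_congr rfl fun j' _ => ?_
      rw [Finset.mul_sum]
    rw [Finset.sum_congr rfl fun y _ => e2 y, Finset.sum_comm]
    refine Finset.sum_congr rfl fun j _ => ?_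
    rw [Finset.sum_comm]
    refine Finset.sum_congr rfl fun i _ => ?_
    rw [Finset.sum_comm]
    refine Finset.sum_congr rfl fun j' _ => ?_
    rw [Finset.sum_comm]
  rw [hswap]
  have hb : ∀ j ∈ J, ∀ i ∈ I, ∑ j' ∈ J, ∑ i' ∈ I,
      ∑ y, ν y * ∑ b : V n, ∑ c : V n, CJ n x j j' b c * CJ n y i i' b c ≤
      4 * κ * ∑ a ∈ Finset.range (t + 1), ∑ c ∈ Finset.range (m + 1), hk n (a + c) 0 0 := by
    intro j hj i hi
    have hiI := Finset.mem_Icc.mp hi
    have s1 : ∑ j' ∈ J, ∑ i' ∈ I,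
        ∑ y, ν y * ∑ b : V n, ∑ c : V n, CJ n x j j' b c * CJ n y i i' b c ≤
        ∑ j' ∈ J, ∑ i' ∈ I, κ * hk n (((j' - j) + (j - j')) + ((i' - i) + (i - i'))) 0 0 := by
      refine Finset.sum_le_sum fun j' _ => Finset.sum_le_sum fun i' hi' => ?_
      have hi'I := Finset.mem_Icc.mp hi'
      exact cb2 n ν x j j' i i' κ (fun b => hκ i b hiI.1 hiI.2) (fun b => hκ i' b hi'I.1 hi'I.2)
    refine s1.trans ?_
    have s2 : ∑ j' ∈ J, ∑ i' ∈ I,
        κ * hk n (((j' - j) + (j - j')) + ((i' - i) + (i - i'))) 0 0 ≤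
        ∑ j' ∈ J, 2 * ∑ c ∈ Finset.range (m + 1), κ * hk n (((j' - j) + (j - j')) + c) 0 0 := by
      refine Finset.sum_le_sum fun j' _ => ?_
      exact cdist (fun c => κ * hk n (((j' - j) + (j - j')) + c) 0 0)
        (fun c => mul_nonneg hκ0 (chk_nonneg _ _ _ _)) i1 m i hi
    refine s2.trans ?_
    have s3 := cdist (fun a => 2 * ∑ c ∈ Finset.range (m + 1), κ * hk n (a + c) 0 0)
      (fun a => mul_nonneg (by norm_num) (Finset.sum_nonneg fun c _ =>
        mul_nonneg hκ0 (chk_nonneg _ _ _ _))) j1 t j hj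
    refine s3.trans (le_of_eq ?_)
    simp only [← Finset.mul_sum]
    ring
  calc ∑ j ∈ J, ∑ i ∈ I, ∑ j' ∈ J, ∑ i' ∈ I,
        ∑ y, ν y * ∑ b : V n, ∑ c : V n, CJ n x j j' b c * CJ n y i i' b c
      ≤ ∑ j ∈ J, ∑ i ∈ I, 4 * κ *
        ∑ a ∈ Finset.range (t + 1), ∑ c ∈ Finset.range (m + 1), hk n (a + c) 0 0 :=
        Finset.sum_le_sum fun j hj => Finset.sum_le_sum fun i hi => hb j hj i hi
    _ = _ := by
        rw [Finset.sum_const, Finset.sum_const, hJ, hI, Nat.card_Icc, Nat.card_Icc]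
        have e1 : j1 + t + 1 - j1 = t + 1 := by omega
        have e2 : i1 + m + 1 - i1 = m + 1 := by omega
        rw [e1, e2]
        simp only [nsmul_eq_mul]
        push_cast
        ring

private theorem chk_zero (n : ℕ) (b c : V n) : hk n 0 b c = if b = c then 1 else 0 := by
  classical
  unfold hk pr
  by_cases h : b = c
  · rw [if_pos h]
    have : {ω : ℕ → DD | pos (act n) b ω 0 = c} = Set.univ := by
      ext ω
      simp [pos, h]
    rw [this]
    simp
  · rw [if_neg h]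
    have : {ω : ℕ → DD | pos (act n) b ω 0 = c} = ∅ := by
      ext ω
      simp [pos, h]
    rw [this]
    simp

private theorem ccard (n : ℕ) [NeZero n] : (Fintype.card (V n) : ℝ) = NN n := by
  unfold NN
  simp [V, ZMod.card]

/-- first moment, the second walk from the uniform law -/
theorem meets_mean (n : ℕ) [NeZero n] (x : V n) (j1 t i1 m : ℕ) :
    av (fun y : V n => ∫ ω, meets n x y j1 t i1 m ω ∂((mu DD).prod (mu DD))) =
      ((t : ℝ) + 1) * ((m : ℝ) + 1) / NN n := by
  classical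
  have hone : ∀ (y : V n) (j i : ℕ),
      ∫ ω, ind (pos (act n) x ω.1 j = pos (act n) y ω.2 i) ∂((mu DD).prod (mu DD)) =
        ∑ b : V n, hk n j x b * hk n i y b := by
    intro y j i
    have h := ctwo n x y j j i i
    have e1 : ∀ ω : (ℕ → DD) × (ℕ → DD),
        ind (pos (act n) x ω.1 j = pos (act n) y ω.2 i) *
          ind (pos (act n) x ω.1 j = pos (act n) y ω.2 i) =
        ind (pos (act n) x ω.1 j = pos (act n) y ω.2 i) := by
      intro ω
      unfold ind
      split_ifs <;> simp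
    rw [integral_congr_ae (ae_of_all _ e1)] at h
    rw [h]
    refine Finset.sum_congr rfl fun b _ => ?_
    have e2 : ∀ c : V n, CJ n x j j b c * CJ n y i i b c =
        if b = c then hk n j x b * hk n i y b else 0 := by
      intro c
      rw [CJ_le n x le_rfl, CJ_le n y le_rfl, Nat.sub_self, Nat.sub_self, chk_zero]
      by_cases hbc : b = c
      · rw [if_pos hbc, if_pos hbc]
        ring
      · rw [if_neg hbc, if_neg hbc]
        ring
    rw [Finset.sum_congr rfl fun c _ => e2 c]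
    simp
  have hint : ∀ (y : V n) (j i : ℕ), Integrable (fun ω : (ℕ → DD) × (ℕ → DD) =>
      ind (pos (act n) x ω.1 j = pos (act n) y ω.2 i)) ((mu DD).prod (mu DD)) := by
    intro y j i
    refine (ctwo_int n x y j j i i).congr (ae_of_all _ fun ω => ?_)
    simp only
    unfold ind
    split_ifs <;> simp
  have hmean : ∀ y : V n, ∫ ω, meets n x y j1 t i1 m ω ∂((mu DD).prod (mu DD)) =
      ∑ j ∈ Finset.Icc j1 (j1 + t), ∑ i ∈ Finset.Icc i1 (i1 + m),
        ∑ b : V n, hk n j x b * hk n i y b := by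
    intro y
    unfold meets
    rw [integral_finsetSum _ (fun j _ => integrable_finsetSum _ fun i _ => hint y j i)]
    refine Finset.sum_congr rfl fun j _ => ?_
    rw [integral_finsetSum _ (fun i _ => hint y j i)]
    exact Finset.sum_congr rfl fun i _ => hone y j i
  have hsum : ∀ j i : ℕ, ∑ y : V n, ∑ b : V n, hk n j x b * hk n i y b = 1 := by
    intro j i
    rw [Finset.sum_comm]
    have e1 : ∀ b : V n, ∑ y : V n, hk n j x b * hk n i y b = hk n j x b := by
      intro b
      rw [← Finset.mul_sum]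
      have : ∑ y : V n, hk n i y b = 1 := by
        rw [← hk_sum n i b]
        exact Finset.sum_congr rfl fun y _ => hk_symm n i y b
      rw [this, mul_one]
    rw [Finset.sum_congr rfl fun b _ => e1 b, hk_sum]
  unfold av
  rw [ccard]
  congr 1
  rw [Finset.sum_congr rfl fun y _ => hmean y, Finset.sum_comm]
  have e3 : ∀ j ∈ Finset.Icc j1 (j1 + t), ∑ y : V n, ∑ i ∈ Finset.Icc i1 (i1 + m),
      ∑ b : V n, hk n j x b * hk n i y b = (m : ℝ) + 1 := by
    intro j _
    rw [Finset.sum_comm, Finset.sum_congr rfl fun i _ => hsum j i, Finset.sum_const,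
      Nat.card_Icc]
    have e2 : i1 + m + 1 - i1 = m + 1 := by omega
    rw [e2, nsmul_eq_mul]
    push_cast
    ring
  rw [Finset.sum_congr rfl e3, Finset.sum_const, Nat.card_Icc]
  have e1 : j1 + t + 1 - j1 = t + 1 := by omega
  rw [e1, nsmul_eq_mul]
  push_cast
  ring

end Pool.Agent.UST
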