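import Pool.Agent.Helper54.UST.C2aAux
import Pool.Agent.Helper54.UST.Cert
import Pool.Agent.Helper54.UST.PmBasic

/-! Paper Lemma C2: the counting of the pairs. -/

namespace Pool.Agent.UST

open MeasureTheory

namespace C2a

/-- the certificate -/
def Cert {n : ℕ} (u y : V n) (j i s : ℕ) (ω : (ℕ → DD) × (ℕ → DD)) : Prop :=
  (open Classical in (le (seg (act n) u ω.1 0 j)).findIdx
    (fun z => decide (z ∈ seg (act n) y ω.2 i (i + s)))) ≤
  (open Classical in (le (seg (act n) u ω.1 0 j)).findIdx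
    (fun z => decide (z ∈ seg (act n) u ω.1 j (j + s))))

/-- the walk returns to its first part -/
def Rt {n : ℕ} (A : Set (V n)) (u : V n) (j s : ℕ) (ω : ℕ → DD) : Prop :=
  ∃ a, a ≤ j ∧ ∃ l, j + s ≤ l ∧ ¬ hit (act n) u ω 0 l A ∧
    pos (act n) u ω l = pos (act n) u ω a

/-- good points -/
def Gd {n : ℕ} (A : Set (V n)) (s' : ℕ) (z : V n) : Prop :=
  pr {ω | hit (act n) z ω 0 s' A} ≤ 1 / 8

/-- the condition on the first walk -/
def PX {n : ℕ} (A : Set (V n)) (s' : ℕ) (u : V n) (j : ℕ) (ω : ℕ → DD) : Prop :=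
  Gd A s' (pos (act n) u ω j) ∧ ¬ hit (act n) u ω 0 j A

/-- the condition on the second walk -/
def QY {n : ℕ} (A : Set (V n)) (y : V n) (i : ℕ) (ω : ℕ → DD) : Prop :=
  ¬ hit (act n) y ω 0 i A

/-- the event for the pair of times `(j,i)` -/
def Ev {n : ℕ} (A : Set (V n)) (s s' : ℕ) (u y : V n) (j i : ℕ)
    (ω : (ℕ → DD) × (ℕ → DD)) : Prop :=
  pos (act n) u ω.1 j = pos (act n) y ω.2 i ∧ (PX A s' u j ω.1 ∧ QY A y i ω.2) ∧
    Cert u y j i s ω ∧ ¬ hit (act n) y ω.2 0 (i + s') A ∧ ¬ Rt A u j s ω.1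

theorem PX_congr {n : ℕ} (A : Set (V n)) (s' : ℕ) (u : V n) (j : ℕ) (ω ω' : ℕ → DD)
    (h : ∀ a, a < j → ω a = ω' a) : PX A s' u j ω ↔ PX A s' u j ω' := by
  unfold PX
  rw [pos_congr (act n) u ω ω' j h, hit_congr (act n) u ω ω' 0 j A h]

theorem QY_congr {n : ℕ} (A : Set (V n)) (y : V n) (i : ℕ) (ω ω' : ℕ → DD)
    (h : ∀ a, a < i → ω a = ω' a) : QY A y i ω ↔ QY A y i ω' := by
  unfold QY
  rw [hit_congr (act n) y ω ω' 0 i A h]

theorem meas_PX {n : ℕ} (A : Set (V n)) (s' : ℕ) (u : V n) (j : ℕ) :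
    MeasurableSet {ω | PX A s' u j ω} := meas_dep j _ (PX_congr A s' u j)

theorem meas_QY {n : ℕ} (A : Set (V n)) (y : V n) (i : ℕ) :
    MeasurableSet {ω | QY A y i ω} := meas_dep i _ (QY_congr A y i)

theorem meas_Rt {n : ℕ} (A : Set (V n)) (u : V n) (j s : ℕ) :
    MeasurableSet {ω | Rt A u j s ω} := by
  have h : {ω | Rt A u j s ω} = ⋃ a : ℕ, ⋃ l : ℕ, {ω | a ≤ j ∧ j + s ≤ l ∧
      ¬ hit (act n) u ω 0 l A ∧ pos (act n) u ω l = pos (act n) u ω a} := by
    ext ω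
    simp only [Rt, Set.mem_ofPred_eq, Set.mem_iUnion]
    constructor
    · rintro ⟨a, h1, l, h2, h3, h4⟩
      exact ⟨a, l, h1, h2, h3, h4⟩
    · rintro ⟨a, l, h1, h2, h3, h4⟩
      exact ⟨a, h1, l, h2, h3, h4⟩
  rw [h]
  refine MeasurableSet.iUnion fun a => MeasurableSet.iUnion fun l => ?_
  refine meas_dep (max a l) _ fun ω ω' hω => ?_
  rw [pos_congr (act n) u ω ω' l (fun b hb => hω b (lt_of_lt_of_le hb (le_max_right _ _))),
    pos_congr (act n) u ω ω' a (fun b hb => hω b (lt_of_lt_of_le hb (le_max_left _ _))),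
    hit_congr (act n) u ω ω' 0 l A (fun b hb => hω b (lt_of_lt_of_le hb (le_max_right _ _)))]

theorem ev_lower {n : ℕ} (A : Set (V n)) (s s' : ℕ) (u y : V n) (j i : ℕ) :
    (1 / 2 : ℝ) * pr2 {ω | pos (act n) u ω.1 j = pos (act n) y ω.2 i ∧
        PX A s' u j ω.1 ∧ QY A y i ω.2} -
      pr2 {ω | pos (act n) u ω.1 j = pos (act n) y ω.2 i ∧ PX A s' u j ω.1 ∧
        (¬ hit (act n) y ω.2 0 i A ∧ hit (act n) y ω.2 0 (i + s') A)} -
      pr2 {ω | pos (act n) u ω.1 j = pos (act n) y ω.2 i ∧ Rt A u j s ω.1 ∧ True} ≤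
    pr2 {ω | Ev A s s' u y j i ω} := by
  have h1 := cert_half n u y j i s (fun ω => le (seg (act n) u ω 0 j))
    (fun ω ω' h => by rw [seg_congr (act n) u ω ω' 0 j h])
    (fun ω η => PX A s' u j ω ∧ QY A y i η)
    (fun ω ω' η h => by rw [PX_congr A s' u j ω ω' h])
    (fun ω η η' h => by rw [QY_congr A y i η η' h])
  have h2 : {ω : (ℕ → DD) × (ℕ → DD) | pos (act n) u ω.1 j = pos (act n) y ω.2 i ∧
      (PX A s' u j ω.1 ∧ QY A y i ω.2) ∧ Cert u y j i s ω} ⊆
      {ω | Ev A s s' u y j i ω} ∪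
      ({ω | pos (act n) u ω.1 j = pos (act n) y ω.2 i ∧ PX A s' u j ω.1 ∧
        (¬ hit (act n) y ω.2 0 i A ∧ hit (act n) y ω.2 0 (i + s') A)} ∪
      {ω | pos (act n) u ω.1 j = pos (act n) y ω.2 i ∧ Rt A u j s ω.1 ∧ True}) := by
    rintro ω ⟨h1, ⟨h2, h3⟩, h4⟩
    by_cases h5 : hit (act n) y ω.2 0 (i + s') A
    · exact Or.inr (Or.inl ⟨h1, h2, h3, h5⟩)
    · by_cases h6 : Rt A u j s ω.1
      · exact Or.inr (Or.inr ⟨h1, h6, trivial⟩)
      · exact Or.inl ⟨h1, ⟨h2, h3⟩, h4, h5, h6⟩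
  have h3 := (pr2_mono h2).trans ((pr2_union _ _).trans (add_le_add le_rfl (pr2_union _ _)))
  have h4 : (1 / 2 : ℝ) * pr2 {ω | pos (act n) u ω.1 j = pos (act n) y ω.2 i ∧
        PX A s' u j ω.1 ∧ QY A y i ω.2} ≤ pr2 {ω : (ℕ → DD) × (ℕ → DD) |
        pos (act n) u ω.1 j = pos (act n) y ω.2 i ∧
      (PX A s' u j ω.1 ∧ QY A y i ω.2) ∧ Cert u y j i s ω} := h1
  linarith

/-- `P(X_i = z, i < τ)` -/
noncomputable def be {n : ℕ} (A : Set (V n)) (i : ℕ) (y z : V n) : ℝ :=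
  pr {ω | pos (act n) y ω i = z ∧ QY A y i ω}

theorem al_eq {n : ℕ} (A : Set (V n)) (s' j : ℕ) (u z : V n) :
    pr {ω | pos (act n) u ω j = z ∧ PX A s' u j ω} = ind (Gd A s' z) * be A j u z := by
  unfold be
  by_cases hz : Gd A s' z
  · rw [ind_true hz, one_mul]
    congr 1
    ext ω
    simp only [Set.mem_ofPred_eq, PX, QY]
    constructor
    · rintro ⟨h1, h2, h3⟩
      exact ⟨h1, h3⟩
    · rintro ⟨h1, h2⟩
      exact ⟨h1, by rw [h1]; exact hz, h2⟩
  · rw [ind_false hz, zero_mul]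
    have : {ω : ℕ → DD | pos (act n) u ω j = z ∧ PX A s' u j ω} = ∅ := by
      ext ω
      simp only [Set.mem_ofPred_eq, PX, Set.mem_empty_iff_false, iff_false]
      rintro ⟨h1, h2, _⟩
      rw [h1] at h2
      exact hz h2
    rw [this]
    unfold pr
    simp

theorem ev_lower' {n : ℕ} [NeZero n] (A : Set (V n)) (s s' : ℕ) (u y : V n) (j i : ℕ) :
    (3 / 8 : ℝ) * ∑ z : V n, ind (Gd A s' z) * be A j u z * be A i y z -
      ∑ z : V n, pr {ω | pos (act n) u ω j = z ∧ Rt A u j s ω} *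
        pr {ω | pos (act n) y ω i = z} ≤ pr2 {ω | Ev A s s' u y j i ω} := by
  refine le_trans ?_ (ev_lower A s s' u y j i)
  rw [pr2_pair n u y j i _ _ (meas_PX A s' u j) (meas_QY A y i),
    pr2_pair n u y j i (fun ω => PX A s' u j ω)
      (fun η => ¬ hit (act n) y η 0 i A ∧ hit (act n) y η 0 (i + s') A)
      (meas_PX A s' u j) ((meas_hit y 0 i A).compl.inter (meas_hit y 0 (i + s') A)),
    pr2_pair n u y j i (fun ω => Rt A u j s ω) (fun _ => True) (meas_Rt A u j s)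
      MeasurableSet.univ]
  have h1 : ∑ z : V n, pr {ω | pos (act n) u ω j = z ∧ PX A s' u j ω} *
      pr {ω | pos (act n) y ω i = z ∧ ¬ hit (act n) y ω 0 i A ∧ hit (act n) y ω 0 (i + s') A} ≤
      (1 / 8 : ℝ) * ∑ z : V n, ind (Gd A s' z) * be A j u z * be A i y z := by
    rw [Finset.mul_sum]
    refine Finset.sum_le_sum fun z _ => ?_
    rw [al_eq]
    by_cases hz : Gd A s' z
    · rw [ind_true hz, one_mul]
      have h2 := hit_after n y z i s' A
      have h3 : pr {ω | pos (act n) y ω i = z ∧ ¬ hit (act n) y ω 0 i A ∧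
          hit (act n) y ω 0 (i + s') A} ≤ be A i y z * (1 / 8) :=
        h2.trans (mul_le_mul_of_nonneg_left hz (pr_nonneg _))
      calc be A j u z * pr {ω | pos (act n) y ω i = z ∧ ¬ hit (act n) y ω 0 i A ∧
          hit (act n) y ω 0 (i + s') A} ≤ be A j u z * (be A i y z * (1 / 8)) :=
            mul_le_mul_of_nonneg_left h3 (pr_nonneg _)
        _ = 1 / 8 * (be A j u z * be A i y z) := by ring
    · rw [ind_false hz]; simp
  have h2 : ∑ z : V n, pr {ω | pos (act n) u ω j = z ∧ PX A s' u j ω} *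
      pr {ω | pos (act n) y ω i = z ∧ QY A y i ω} =
      ∑ z : V n, ind (Gd A s' z) * be A j u z * be A i y z := by
    refine Finset.sum_congr rfl fun z _ => ?_
    rw [al_eq]
    rfl
  have h3 : ∀ z : V n, {ω : ℕ → DD | pos (act n) y ω i = z ∧ True} =
      {ω | pos (act n) y ω i = z} := fun z => by ext ω; simp
  rw [h2]
  simp only [h3]
  linarith

/-- average of `be` -/
noncomputable def ba {n : ℕ} [NeZero n] (A : Set (V n)) (i : ℕ) (z : V n) : ℝ :=
  av (fun y : V n => be A i y z)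

theorem av_lower {n : ℕ} [NeZero n] (A : Set (V n)) (s s' : ℕ) (j i : ℕ)
    (hR : ∀ u : V n, pr {ω | Rt A u j s ω} ≤ 1 / 16) :
    (3 / 8 : ℝ) * ∑ z : V n, ind (Gd A s' z) * ba A j z * ba A i z - 1 / 16 / NN n ≤
      av (fun u : V n => av (fun y : V n => pr2 {ω | Ev A s s' u y j i ω})) := by
  have h1 : ∀ u : V n, (3 / 8 : ℝ) * ∑ z : V n, ind (Gd A s' z) * be A j u z * ba A i z -
      pr {ω | Rt A u j s ω} / NN n ≤
      av (fun y : V n => pr2 {ω | Ev A s s' u y j i ω}) := by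
    intro u
    refine le_trans (le_of_eq ?_) (av_mono fun y => ev_lower' A s s' u y j i)
    rw [av_sub, av_mul_left, av_sum, av_sum]
    congr 1
    · congr 1
      refine Finset.sum_congr rfl fun z _ => ?_
      rw [av_mul_left]
      rfl
    · rw [← sum_pos n u j _ (meas_Rt A u j s), Finset.sum_div]
      refine Finset.sum_congr rfl fun z _ => ?_
      rw [av_mul_left, av_pos n i z]
      ring
  refine le_trans ?_ (av_mono h1)
  rw [av_sub, av_mul_left, av_sum]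
  have h2 : av (fun u : V n => pr {ω | Rt A u j s ω} / NN n) ≤ 1 / 16 / NN n := by
    refine av_le ?_ fun u => ?_
    · have := NN_pos n
      positivity
    · have := NN_pos n
      exact div_le_div_of_nonneg_right (hR u) this.le
  have h3 : ∀ z : V n, av (fun u : V n => ind (Gd A s' z) * be A j u z * ba A i z) =
      ind (Gd A s' z) * ba A j z * ba A i z := by
    intro z
    rw [av_mul_right, av_mul_left]
    rfl
  simp only [h3]
  linarith

theorem sum_ba {n : ℕ} [NeZero n] (A : Set (V n)) (s' j : ℕ)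
    (h1 : av (fun z : V n => ind (¬ Gd A s' z)) ≤ 1 / 8) (h2 : pm n j A ≤ 1 / 8) :
    (3 / 4 : ℝ) ≤ ∑ z : V n, ind (Gd A s' z) * ba A j z := by
  have e1 : ∑ z : V n, ind (Gd A s' z) * ba A j z = av (fun u : V n => pr {ω | PX A s' u j ω}) := by
    have : ∀ u : V n, pr {ω | PX A s' u j ω} = ∑ z : V n, ind (Gd A s' z) * be A j u z := by
      intro u
      rw [← sum_pos n u j _ (meas_PX A s' u j)]
      exact Finset.sum_congr rfl fun z _ => al_eq A s' j u z
    simp only [this]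
    rw [av_sum]
    refine Finset.sum_congr rfl fun z _ => ?_
    rw [av_mul_left]
    rfl
  rw [e1]
  have hpr : IsProbabilityMeasure (mu DD) := mu_prob
  have e2 : ∀ u : V n, 1 - pr {ω | ¬ Gd A s' (pos (act n) u ω j)} -
      pr {ω | hit (act n) u ω 0 j A} ≤ pr {ω | PX A s' u j ω} := by
    intro u
    have h3 : (Set.univ : Set (ℕ → DD)) ⊆ {ω | PX A s' u j ω} ∪
        ({ω | ¬ Gd A s' (pos (act n) u ω j)} ∪ {ω | hit (act n) u ω 0 j A}) := by
      intro ω _
      by_cases h4 : Gd A s' (pos (act n) u ω j)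
      · by_cases h5 : hit (act n) u ω 0 j A
        · exact Or.inr (Or.inr h5)
        · exact Or.inl ⟨h4, h5⟩
      · exact Or.inr (Or.inl h4)
    have h4 := (pr_mono h3).trans ((pr_union _ _).trans (add_le_add le_rfl (pr_union _ _)))
    have h5 : pr (Set.univ : Set (ℕ → DD)) = 1 := probReal_univ
    linarith
  refine le_trans ?_ (av_mono e2)
  have : Nonempty (V n) := ⟨0⟩
  rw [av_sub, av_sub, av_const]
  have e3 : av (fun u : V n => pr {ω | ¬ Gd A s' (pos (act n) u ω j)}) =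
      av (fun z : V n => ind (¬ Gd A s' z)) := by
    have h := stationary n j (fun x _ => ind (¬ Gd A s' x)) (fun x => measurable_const) 1
      (fun x _ => by rw [abs_of_nonneg (ind_nonneg _)]; exact ind_le_one _)
    have h6 : ∀ x : V n, ∫ ω, ind (¬ Gd A s' (pos (act n) x ω j)) ∂(mu DD)
        = pr {ω | ¬ Gd A s' (pos (act n) x ω j)} := fun x =>
      integral_ind (mu DD) _ (meas_dep j _ fun ω ω' hω => by
        rw [pos_congr (act n) x ω ω' j hω])
    simp only [h6, integral_const, probReal_univ, one_smul] at h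
    exact h
  rw [e3]
  have e4 : av (fun u : V n => pr {ω | hit (act n) u ω 0 j A}) = pm n j A := rfl
  rw [e4]
  linarith

/-- the expected number of the pairs -/
theorem count {n : ℕ} [NeZero n] (A : Set (V n)) (s s' t : ℕ)
    (h1 : av (fun z : V n => ind (¬ Gd A s' z)) ≤ 1 / 8) (h2 : pm n (t + t) A ≤ 1 / 8)
    (hR : ∀ j ∈ Finset.Icc t (t + t), ∀ u : V n, pr {ω | Rt A u j s ω} ≤ 1 / 16) :
    (1 / 8 : ℝ) * ((t : ℝ) + 1) ^ 2 / NN n ≤
      ∑ j ∈ Finset.Icc t (t + t), ∑ i ∈ Finset.Icc t (t + t),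
        av (fun u : V n => av (fun y : V n => pr2 {ω | Ev A s s' u y j i ω})) := by
  have hN := NN_pos n
  set T := Finset.Icc t (t + t) with hT
  have hTc : (T.card : ℝ) = (t : ℝ) + 1 := by
    rw [hT, Nat.card_Icc]
    have : t + t + 1 - t = t + 1 := by omega
    rw [this]; push_cast; rfl
  set F : V n → ℝ := fun z => ∑ j ∈ T, ba A j z with hF
  have e1 : ∑ j ∈ T, ∑ i ∈ T, ((3 / 8 : ℝ) * ∑ z : V n, ind (Gd A s' z) * ba A j z * ba A i z -
      1 / 16 / NN n) = (3 / 8 : ℝ) * ∑ z : V n, ind (Gd A s' z) * F z ^ 2 -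
      ((t : ℝ) + 1) ^ 2 * (1 / 16 / NN n) := by
    simp only [Finset.sum_sub_distrib, Finset.sum_const, nsmul_eq_mul, hTc, ← Finset.mul_sum]
    congr 1
    · congr 1
      have h3 : ∀ j ∈ T, ∑ i ∈ T, ∑ z : V n, ind (Gd A s' z) * ba A j z * ba A i z =
          ∑ z : V n, ind (Gd A s' z) * ba A j z * F z := by
        intro j _
        rw [Finset.sum_comm]
        refine Finset.sum_congr rfl fun z _ => ?_
        rw [← Finset.mul_sum]
      rw [Finset.sum_congr rfl h3, Finset.sum_comm]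
      refine Finset.sum_congr rfl fun z _ => ?_
      rw [← Finset.sum_mul, ← Finset.mul_sum]
      ring
    · ring
  have e2 : ∑ j ∈ T, ∑ i ∈ T, ((3 / 8 : ℝ) * ∑ z : V n, ind (Gd A s' z) * ba A j z * ba A i z -
      1 / 16 / NN n) ≤ ∑ j ∈ T, ∑ i ∈ T,
        av (fun u : V n => av (fun y : V n => pr2 {ω | Ev A s s' u y j i ω})) :=
    Finset.sum_le_sum fun j hj => Finset.sum_le_sum fun i _ => av_lower A s s' j i (hR j hj)
  refine le_trans ?_ e2
  rw [e1]
  have e3 : ((t : ℝ) + 1) * (3 / 4) ≤ ∑ z : V n, ind (Gd A s' z) * F z := by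
    have h4 : ∑ z : V n, ind (Gd A s' z) * F z = ∑ j ∈ T, ∑ z : V n, ind (Gd A s' z) * ba A j z := by
      rw [Finset.sum_comm]
      refine Finset.sum_congr rfl fun z _ => ?_
      rw [hF, Finset.mul_sum]
    rw [h4, ← hTc, ← nsmul_eq_mul, ← Finset.sum_const]
    refine Finset.sum_le_sum fun j hj => sum_ba A s' j h1 ?_
    refine le_trans (pm_mono n ?_ le_rfl) h2
    exact (Finset.mem_Icc.mp hj).2
  have e4 : (∑ z : V n, ind (Gd A s' z) * F z) ^ 2 ≤
      NN n * ∑ z : V n, ind (Gd A s' z) * F z ^ 2 := by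
    have h5 := sq_sum_le_card_mul_sum_sq (s := (Finset.univ : Finset (V n)))
      (f := fun z => ind (Gd A s' z) * F z)
    rw [Finset.card_univ] at h5
    rw [← card_V n]
    refine h5.trans (le_of_eq ?_)
    congr 1
    refine Finset.sum_congr rfl fun z _ => ?_
    by_cases hz : Gd A s' z
    · rw [ind_true hz]; ring
    · rw [ind_false hz]; ring
  have ht : (0 : ℝ) < (t : ℝ) + 1 := by positivity
  have e5 : (((t : ℝ) + 1) * (3 / 4)) ^ 2 ≤ NN n * ∑ z : V n, ind (Gd A s' z) * F z ^ 2 :=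
    (pow_le_pow_left₀ (by positivity) e3 2).trans e4
  have e6 : (9 / 16) * ((t : ℝ) + 1) ^ 2 / NN n ≤ ∑ z : V n, ind (Gd A s' z) * F z ^ 2 := by
    rw [div_le_iff₀ hN]
    nlinarith
  have e7 : (1 / 8 : ℝ) * ((t : ℝ) + 1) ^ 2 / NN n + ((t : ℝ) + 1) ^ 2 * (1 / 16 / NN n) ≤
      (3 / 8) * ((9 / 16) * ((t : ℝ) + 1) ^ 2 / NN n) := by
    have h7 : 0 ≤ ((t : ℝ) + 1) ^ 2 / NN n := by positivity
    have h8 : (1 / 8 : ℝ) * ((t : ℝ) + 1) ^ 2 / NN n = (1 / 8) * (((t : ℝ) + 1) ^ 2 / NN n) := by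
      ring
    have h9 : ((t : ℝ) + 1) ^ 2 * (1 / 16 / NN n) = (1 / 16) * (((t : ℝ) + 1) ^ 2 / NN n) := by
      ring
    have h10 : (9 / 16) * ((t : ℝ) + 1) ^ 2 / NN n = (9 / 16) * (((t : ℝ) + 1) ^ 2 / NN n) := by
      ring
    rw [h8, h9, h10]
    nlinarith
  linarith

end C2a

end Pool.Agent.UST
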