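import Pool.Agent.Helper54.UST.C2aCnt
import Pool.Agent.Helper54.UST.LE2

/-! Paper Lemma C2: the event for a pair implies that the second walk hits the loop erasure. -/

namespace Pool.Agent.UST

open MeasureTheory

namespace C2a

theorem ev_lerw {n : ℕ} (A : Set (V n)) (s s' : ℕ) (u y : V n) (j i : ℕ)
    (ω : (ℕ → DD) × (ℕ → DD)) (hA : ∃ t, pos (act n) u ω.1 t ∈ A) (h : Ev A s s' u y j i ω) :
    ∃ i', i ≤ i' ∧ i' ≤ i + s ∧ pos (act n) y ω.2 i' ∈ lerw (act n) u ω.1 A := by
  classical
  obtain ⟨h1, ⟨⟨_, h2⟩, _⟩, h3, _, h4⟩ := h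
  set T := tau (act n) u ω.1 A with hT
  have hjT : j < T := (lt_tau_iff (act n) u ω.1 A hA j).mpr h2
  set γ := le (seg (act n) u ω.1 0 j) with hγ
  have hl : lerw (act n) u ω.1 A = leF γ (seg (act n) u ω.1 (j + 1) T) := by
    unfold lerw
    rw [seg_append (act n) u ω.1 0 j T (Nat.zero_le _) hjT.le, le_append]
  have hseg : seg (act n) u ω.1 0 j ≠ [] := by
    intro h0
    have := seg_length (act n) u ω.1 0 j
    rw [h0] at this
    simp at this
  have hlast : γ.getLast? = some (pos (act n) u ω.1 j) := by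
    have e1 : γ.getLast? = (seg (act n) u ω.1 0 j).getLast? := leF_getLast hseg
    rw [e1]
    unfold seg
    rw [show j + 1 - 0 = j + 1 by omega, List.range'_concat, List.map_append]
    simp
  have hXj : pos (act n) u ω.1 j ∈ γ := List.mem_of_getLast? hlast
  set iY := γ.findIdx (fun z => decide (z ∈ seg (act n) y ω.2 i (i + s))) with hiY
  have hYj : pos (act n) u ω.1 j ∈ seg (act n) y ω.2 i (i + s) :=
    (mem_seg (act n) y ω.2 i (i + s) _).mpr ⟨i, le_rfl, Nat.le_add_right _ _, h1.symm⟩
  have hlt : iY < γ.length := by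
    refine List.findIdx_lt_length_of_exists ⟨_, hXj, ?_⟩
    simpa using hYj
  have h3' : iY ≤ γ.findIdx (fun z => decide (z ∈ seg (act n) u ω.1 j (j + s))) := by
    have := h3
    unfold Cert at this
    convert this using 2
  have hmem : ∀ z ∈ γ, ∃ a, a ≤ j ∧ pos (act n) u ω.1 a = z := by
    intro z hz
    have := mem_le hz
    obtain ⟨a, _, ha, hz⟩ := (mem_seg (act n) u ω.1 0 j z).mp this
    exact ⟨a, ha, hz⟩
  have hkeep : γ.take (iY + 1) <+: leF γ (seg (act n) u ω.1 (j + 1) T) := by
    refine leF_keep (List.take_prefix _ _) ?_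
    intro z hz hzd
    have hd : (γ.take (iY + 1)).dropLast = γ.take iY := by
      rw [List.dropLast_eq_take, List.length_take, min_eq_left (by omega), Nat.add_sub_cancel,
        List.take_take, min_eq_left (by omega)]
    rw [hd] at hzd
    obtain ⟨l, hl1, hl2, hlz⟩ := (mem_seg (act n) u ω.1 (j + 1) T z).mp hz
    have hzγ : z ∈ γ := List.mem_of_mem_take hzd
    obtain ⟨a, haj, haz⟩ := hmem z hzγ
    rcases Nat.lt_or_ge l T with hlT | hlT
    · by_cases hls : l ≤ j + s
      · have hzs : z ∈ seg (act n) u ω.1 j (j + s) :=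
          (mem_seg (act n) u ω.1 j (j + s) z).mpr ⟨l, by omega, hls, hlz⟩
        obtain ⟨b, hb, hbz⟩ := List.mem_take_iff_getElem.mp hzd
        have hb1 : b < iY := by omega
        have hb2 : b < γ.findIdx (fun z => decide (z ∈ seg (act n) u ω.1 j (j + s))) :=
          lt_of_lt_of_le hb1 h3'
        have := List.not_of_lt_findIdx hb2
        rw [hbz] at this
        simp at this
        exact this hzs
      · refine h4 ⟨a, haj, l, by omega, ?_, hlz.trans haz.symm⟩
        exact (lt_tau_iff (act n) u ω.1 A hA l).mp hlT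
    · have hlT' : l = T := le_antisymm hl2 hlT
      have hzA : z ∈ A := by
        rw [← hlz, hlT']
        exact (tau_spec (act n) u ω.1 A hA).1
      exact h2 ⟨a, Nat.zero_le _, haj, by rw [haz]; exact hzA⟩
  have hz : γ[iY] ∈ lerw (act n) u ω.1 A := by
    rw [hl]
    refine hkeep.subset ?_
    exact List.mem_take_iff_getElem.mpr ⟨iY, by omega, rfl⟩
  have hz2 : γ[iY] ∈ seg (act n) y ω.2 i (i + s) := by
    have := List.findIdx_getElem (w := hlt)
    simpa using this
  obtain ⟨i', h5, h6, h7⟩ := (mem_seg (act n) y ω.2 i (i + s) _).mp hz2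
  exact ⟨i', h5, h6, by rw [h7]; exact hz⟩

end C2a

end Pool.Agent.UST
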