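import Pool.Agent.Helper54.UST.HeatAux

set_option linter.unusedSectionVars false
set_option linter.unusedVariables false

namespace Pool.Agent.UST

open MeasureTheory

/-! ### One-dimensional sums -/

/-- The Gaussian sum over `ZMod n`. -/
noncomputable def heatS (n : ℕ) [NeZero n] (x : ℝ) : ℝ :=
  ∑ u : ZMod n, Real.exp (-x * (u.valMinAbs : ℝ) ^ 2)

theorem heatS_nonneg (n : ℕ) [NeZero n] (x : ℝ) : 0 ≤ heatS n x :=
  Finset.sum_nonneg fun _ _ => (Real.exp_pos _).le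

theorem heatS_le (n : ℕ) [NeZero n] (x : ℝ) :
    heatS n x ≤ 1 + 2 * ∑ k ∈ Finset.Ico 1 n, Real.exp (-x * (k : ℝ) ^ 2) := by
  have hn : 0 < n := Nat.pos_of_ne_zero (NeZero.ne n)
  set G : ℕ → ℝ := fun k => Real.exp (-x * (k : ℝ) ^ 2) with hG
  have hG0 : ∀ k, 0 ≤ G k := fun k => (Real.exp_pos _).le
  have h1 : ∀ u : ZMod n, Real.exp (-x * (u.valMinAbs : ℝ) ^ 2) = G (min u.val (n - u.val)) := by
    intro u
    rw [← ZMod.valMinAbs_natAbs_eq_min, hG]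
    simp only
    congr 2
    rw [Nat.cast_natAbs]
    push_cast
    rw [sq_abs]
  have h2 : heatS n x = ∑ k ∈ Finset.range n, G (min k (n - k)) := by
    unfold heatS
    rw [Finset.sum_congr rfl fun u _ => h1 u]
    refine Finset.sum_nbij' (fun u : ZMod n => u.val) (fun k : ℕ => (k : ZMod n)) ?_ ?_ ?_ ?_ ?_
    · intro u _
      exact Finset.mem_range.2 (ZMod.val_lt u)
    · intro k _
      exact Finset.mem_univ _
    · intro u _
      exact ZMod.natCast_zmod_val u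
    · intro k hk
      exact ZMod.val_cast_of_lt (Finset.mem_range.1 hk)
    · intro u _
      rfl
  rw [h2, Finset.range_eq_Ico, Finset.sum_eq_sum_Ico_succ_bot hn]
  have h3 : G (min 0 (n - 0)) = 1 := by
    simp [hG]
  rw [h3]
  have h4 : ∑ k ∈ Finset.Ico (0 + 1) n, G (min k (n - k)) ≤
      ∑ k ∈ Finset.Ico 1 n, (G k + G (n - k)) := by
    refine Finset.sum_le_sum fun k hk => ?_
    rcases le_total k (n - k) with h | h
    · rw [min_eq_left h]
      linarith [hG0 (n - k)]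
    · rw [min_eq_right h]
      linarith [hG0 k]
  have h5 : ∑ k ∈ Finset.Ico 1 n, G (n - k) = ∑ k ∈ Finset.Ico 1 n, G k := by
    have := Finset.sum_Ico_reflect G 1 (m := n) (n := n) (by omega)
    rw [this]
    congr 1
    ext k
    simp only [Finset.mem_Ico]
    omega
  rw [Finset.sum_add_distrib, h5] at h4
  linarith

theorem heat_exp_le (y : ℝ) (hy : 0 ≤ y) : Real.exp (-y ^ 2) ≤ 2 / (1 + y) ^ 2 := by
  have h1 : (1 + y) ^ 2 ≤ 2 * Real.exp (y ^ 2) := by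
    have := Real.add_one_le_exp (y ^ 2)
    nlinarith [sq_nonneg (1 - y)]
  rw [le_div_iff₀ (by positivity), Real.exp_neg, inv_mul_le_iff₀ (Real.exp_pos _)]
  linarith

theorem heat_sum_sqrt (m : ℕ) (s : ℝ) (hs : 0 < s) :
    ∑ k ∈ Finset.Ico 1 m, Real.exp (-(s ^ 2) * (k : ℝ) ^ 2) ≤ 2 / s := by
  have h1 : ∀ k ∈ Finset.Ico 1 m, Real.exp (-(s ^ 2) * (k : ℝ) ^ 2) ≤
      (2 / s) * (1 / (1 + s * ((k : ℝ) - 1)) - 1 / (1 + s * k)) := by
    intro k hk
    have hk1 : (1 : ℝ) ≤ k := by exact_mod_cast (Finset.mem_Ico.1 hk).1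
    have h2 := heat_exp_le (s * k) (by positivity)
    have e1 : -(s ^ 2) * (k : ℝ) ^ 2 = -(s * k) ^ 2 := by ring
    rw [e1]
    refine h2.trans ?_
    have p1 : 0 < 1 + s * ((k : ℝ) - 1) := by nlinarith
    have p2 : 0 < 1 + s * (k : ℝ) := by positivity
    have e2 : (2 / s) * (1 / (1 + s * ((k : ℝ) - 1)) - 1 / (1 + s * k)) =
        2 / ((1 + s * ((k : ℝ) - 1)) * (1 + s * k)) := by
      field_simp
      ring
    rw [e2, pow_two]
    refine div_le_div_of_nonneg_left (by norm_num) (mul_pos p1 p2) ?_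
    refine mul_le_mul_of_nonneg_right ?_ p2.le
    linarith
  refine (Finset.sum_le_sum h1).trans ?_
  rw [← Finset.mul_sum]
  have h3 : ∀ m : ℕ, ∑ k ∈ Finset.Ico 1 m, (1 / (1 + s * ((k : ℝ) - 1)) - 1 / (1 + s * k)) ≤ 1 := by
    intro m
    have h4 : ∀ m : ℕ, ∑ k ∈ Finset.Ico 1 (m + 1),
        (1 / (1 + s * ((k : ℝ) - 1)) - 1 / (1 + s * k)) = 1 - 1 / (1 + s * m) := by
      intro m
      induction m with
      | zero => simp
      | succ m ih =>
        rw [Finset.sum_Ico_succ_top (by omega), ih]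
        push_cast
        ring_nf
    rcases m with _ | m
    · simp
    · rw [h4]
      have : 0 ≤ 1 / (1 + s * (m : ℝ)) := by positivity
      linarith
  have := mul_le_mul_of_nonneg_left (h3 m) (by positivity : 0 ≤ 2 / s)
  linarith

theorem heatS_le_sqrt (n : ℕ) [NeZero n] (s : ℝ) (hs : 0 < s) : heatS n (s ^ 2) ≤ 1 + 4 / s := by
  have h1 := heatS_le n (s ^ 2)
  have h2 := heat_sum_sqrt n s hs
  have : 4 / s = 2 * (2 / s) := by ring
  linarith

theorem heatS_four (n : ℕ) [NeZero n] (x : ℝ) (hx : 4 ≤ x) : heatS n x ≤ 1 + 2 / 49 := by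
  have h1 := heatS_le n x
  have hr : Real.exp (-4) ≤ 1 / 50 := by
    have h2 := Real.exp_one_gt_d9
    have h3 : Real.exp 4 = Real.exp 1 ^ 4 := by
      rw [← Real.exp_nat_mul]
      norm_num
    have h4 : (50 : ℝ) ≤ Real.exp 4 := by
      rw [h3]
      have := pow_le_pow_left₀ (by norm_num) h2.le 4
      norm_num at this ⊢
      linarith
    rw [Real.exp_neg, ← one_div]
    exact one_div_le_one_div_of_le (by norm_num) h4
  have h2 : ∀ k ∈ Finset.Ico 1 n, Real.exp (-x * (k : ℝ) ^ 2) ≤ (1 / 50) ^ k := by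
    intro k hk
    have hk1 : (1 : ℝ) ≤ k := by exact_mod_cast (Finset.mem_Ico.1 hk).1
    calc Real.exp (-x * (k : ℝ) ^ 2) ≤ Real.exp ((k : ℝ) * (-4)) := by
          apply Real.exp_le_exp.2
          nlinarith [mul_le_mul hx (pow_le_pow_left₀ zero_le_one hk1 1) (by norm_num) (by linarith)]
      _ = Real.exp (-4) ^ k := Real.exp_nat_mul _ _
      _ ≤ (1 / 50) ^ k := pow_le_pow_left₀ (Real.exp_pos _).le hr k
  have h3 : ∑ k ∈ Finset.Ico 1 n, ((1 : ℝ) / 50) ^ k ≤ 1 / 49 := by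
    have h4 := geom_sum_Ico_le_of_lt_one (m := 1) (n := n) (x := (1 : ℝ) / 50) (by norm_num)
      (by norm_num)
    refine h4.trans (le_of_eq (by norm_num))
  have h4 := (Finset.sum_le_sum h2).trans h3
  linarith

theorem heatS_pow (n : ℕ) [NeZero n] (x : ℝ) :
    ∑ θ : V n, Real.exp (-x * ∑ a, ((θ a).valMinAbs : ℝ) ^ 2) = heatS n x ^ 4 := by
  unfold heatS
  rw [Fintype.sum_pow]
  refine Finset.sum_congr rfl fun θ _ => ?_
  rw [← Real.exp_sum, Finset.mul_sum]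

/-! ### The multiplier -/

theorem heatPhi_nonneg {n : ℕ} (θ : V n) : 0 ≤ heatPhi θ := by
  unfold heatPhi
  have h : ∀ a, -1 ≤ Real.cos (2 * Real.pi * ((θ a).valMinAbs / n)) := fun a => Real.neg_one_le_cos _
  rw [Fin.sum_univ_four]
  have h0 := h 0
  have h1 := h 1
  have h2 := h 2
  have h3 := h 3
  linarith

theorem heat_abs_le {n : ℕ} [NeZero n] (u : ZMod n) : |(u.valMinAbs : ℝ) / n| ≤ 1 / 2 := by
  have hn : (0 : ℝ) < n := by exact_mod_cast Nat.pos_of_ne_zero (NeZero.ne n)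
  rw [abs_div, abs_of_pos hn, div_le_iff₀ hn]
  have h := ZMod.natAbs_valMinAbs_le u
  have h2 : |(u.valMinAbs : ℝ)| = (u.valMinAbs.natAbs : ℝ) := by
    rw [Nat.cast_natAbs]
    push_cast
    rfl
  rw [h2]
  have h3 : 2 * u.valMinAbs.natAbs ≤ n := by omega
  have h4 : (2 : ℝ) * (u.valMinAbs.natAbs : ℝ) ≤ n := by exact_mod_cast h3
  linarith

theorem heatPhi_le {n : ℕ} [NeZero n] (θ : V n) :
    heatPhi θ ≤ 1 - (∑ a, ((θ a).valMinAbs : ℝ) ^ 2) / (n : ℝ) ^ 2 := by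
  unfold heatPhi
  have h : ∀ a, Real.cos (2 * Real.pi * ((θ a).valMinAbs / n)) ≤
      1 - 8 * (((θ a).valMinAbs : ℝ) / n) ^ 2 := by
    intro a
    have hpi := Real.pi_pos
    have h1 : |2 * Real.pi * (((θ a).valMinAbs : ℝ) / n)| ≤ Real.pi := by
      rw [abs_mul, abs_of_pos (by positivity)]
      have := heat_abs_le (θ a)
      nlinarith
    have h2 := Real.cos_le_one_sub_mul_cos_sq h1
    refine h2.trans (le_of_eq ?_)
    field_simp
    ring
  have h2 : ∑ a, Real.cos (2 * Real.pi * ((θ a).valMinAbs / n)) ≤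
      ∑ a : Fin 4, (1 - 8 * (((θ a).valMinAbs : ℝ) / n) ^ 2) := Finset.sum_le_sum fun a _ => h a
  have h3 : ∑ a : Fin 4, (1 - 8 * (((θ a).valMinAbs : ℝ) / n) ^ 2) =
      4 - 8 * ((∑ a, ((θ a).valMinAbs : ℝ) ^ 2) / (n : ℝ) ^ 2) := by
    rw [Finset.sum_sub_distrib, ← Finset.mul_sum, Finset.sum_div]
    simp only [div_pow]
    simp
  linarith

theorem heatPhi_ge {n : ℕ} [NeZero n] (θ : V n) :
    1 - Real.pi ^ 2 / 4 * ((∑ a, ((θ a).valMinAbs : ℝ) ^ 2) / (n : ℝ) ^ 2) ≤ heatPhi θ := by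
  unfold heatPhi
  have h : ∀ a, 1 - 2 * Real.pi ^ 2 * (((θ a).valMinAbs : ℝ) / n) ^ 2 ≤
      Real.cos (2 * Real.pi * ((θ a).valMinAbs / n)) := by
    intro a
    have h2 := Real.one_sub_sq_div_two_le_cos (x := 2 * Real.pi * (((θ a).valMinAbs : ℝ) / n))
    refine (le_of_eq ?_).trans h2
    ring
  have h2 : ∑ a : Fin 4, (1 - 2 * Real.pi ^ 2 * (((θ a).valMinAbs : ℝ) / n) ^ 2) ≤
      ∑ a, Real.cos (2 * Real.pi * ((θ a).valMinAbs / n)) := Finset.sum_le_sum fun a _ => h a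
  have h3 : ∑ a : Fin 4, (1 - 2 * Real.pi ^ 2 * (((θ a).valMinAbs : ℝ) / n) ^ 2) =
      4 - 2 * Real.pi ^ 2 * ((∑ a, ((θ a).valMinAbs : ℝ) ^ 2) / (n : ℝ) ^ 2) := by
    rw [Finset.sum_sub_distrib, ← Finset.mul_sum, Finset.sum_div]
    simp only [div_pow]
    simp
  linarith

theorem heatPhi_pow_le {n : ℕ} [NeZero n] (θ : V n) (t : ℕ) :
    heatPhi θ ^ t ≤ Real.exp (-((t : ℝ) / (n : ℝ) ^ 2) * ∑ a, ((θ a).valMinAbs : ℝ) ^ 2) := by
  have h1 : heatPhi θ ≤ Real.exp (-((∑ a, ((θ a).valMinAbs : ℝ) ^ 2) / (n : ℝ) ^ 2)) := by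
    have h2 := Real.add_one_le_exp (-((∑ a, ((θ a).valMinAbs : ℝ) ^ 2) / (n : ℝ) ^ 2))
    linarith [heatPhi_le θ]
  refine (pow_le_pow_left₀ (heatPhi_nonneg θ) h1 t).trans (le_of_eq ?_)
  rw [← Real.exp_nat_mul]
  congr 1
  ring

theorem heatChi_re_le {n : ℕ} [NeZero n] (θ y : V n) : |(heatChi θ y).re| ≤ 1 := by
  have h1 : ‖heatChi θ y‖ = 1 := by
    unfold heatChi
    exact AddChar.norm_apply _ _
  exact (Complex.abs_re_le_norm _).trans h1.le

theorem heatChi_re_int {n : ℕ} [NeZero n] (θ : V n) (z : Fin 4 → ℤ) :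
    (heatChi θ fun a => (z a : ZMod n)).re =
      Real.cos (2 * Real.pi * ((∑ a, ((θ a).valMinAbs : ℝ) * z a) / n)) := by
  unfold heatChi
  have h1 : ∑ a, θ a * (z a : ZMod n) = ((∑ a, (θ a).valMinAbs * z a : ℤ) : ZMod n) := by
    rw [Int.cast_sum]
    exact Finset.sum_congr rfl fun a _ => by rw [Int.cast_mul, ZMod.coe_valMinAbs]
  rw [h1, heat_std_re]
  push_cast
  rfl

theorem heat_NN_pos (n : ℕ) [NeZero n] : 0 < NN n := by
  have hn : (0 : ℝ) < n := by exact_mod_cast Nat.pos_of_ne_zero (NeZero.ne n)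
  unfold NN
  positivity

/-- Upper bound by the Gaussian sum. -/
theorem heat_le_S (n : ℕ) [NeZero n] (t : ℕ) (x y : V n) :
    hk n t x y ≤ heatS n ((t : ℝ) / (n : ℝ) ^ 2) ^ 4 / NN n := by
  rw [heat_fourier_re, ← heatS_pow]
  refine div_le_div_of_nonneg_right (Finset.sum_le_sum fun θ _ => ?_) (heat_NN_pos n).le
  have h1 := heatPhi_pow_le θ t
  have h2 := heatChi_re_le θ (y - x)
  have h3 := pow_nonneg (heatPhi_nonneg θ) t
  have h4 := (abs_le.1 h2).2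
  nlinarith

theorem heat_upper : ∃ C : ℝ, 0 < C ∧ ∀ (n : ℕ) [NeZero n] (t : ℕ) (x y : V n),
    hk n t x y ≤ C / ((t : ℝ) + 1) ^ 2 + C / NN n := by
  refine ⟨8192, by norm_num, ?_⟩
  intro n _ t x y
  have hN := heat_NN_pos n
  have hn : (0 : ℝ) < n := by exact_mod_cast Nat.pos_of_ne_zero (NeZero.ne n)
  rcases Nat.eq_zero_or_pos t with rfl | ht
  · have h1 := heat_hk_le_one n 0 x y
    have h2 : 0 ≤ 8192 / NN n := by positivity
    norm_num
    linarith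
  · have ht' : (1 : ℝ) ≤ t := by exact_mod_cast ht
    have hs : 0 < Real.sqrt t := Real.sqrt_pos.2 (by linarith)
    have hs2 : Real.sqrt t ^ 2 = t := Real.sq_sqrt (by linarith)
    have h1 := heat_le_S n t x y
    have h2 := heatS_le_sqrt n (Real.sqrt t / n) (by positivity)
    rw [div_pow, hs2] at h2
    have h3 := pow_le_pow_left₀ (heatS_nonneg n _) h2 4
    have h4 : (1 + 4 / (Real.sqrt t / n)) ^ 4 ≤ 8 * (1 + 256 * (n : ℝ) ^ 4 / (t : ℝ) ^ 2) := by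
      set w := 4 / (Real.sqrt t / n) with hw
      have hw0 : 0 ≤ w := by positivity
      have hw4 : w ^ 4 = 256 * (n : ℝ) ^ 4 / (t : ℝ) ^ 2 := by
        have e1 : w ^ 4 = 256 * (n : ℝ) ^ 4 / (Real.sqrt t ^ 2) ^ 2 := by
          rw [hw]
          field_simp
          norm_num
        rw [e1, hs2]
      rw [← hw4]
      nlinarith [sq_nonneg (w - 1), sq_nonneg (w ^ 2 - 1), mul_nonneg hw0 (sq_nonneg (w - 1))]
    have h5 : hk n t x y ≤ 8 * (1 + 256 * (n : ℝ) ^ 4 / (t : ℝ) ^ 2) / NN n :=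
      h1.trans (div_le_div_of_nonneg_right (h3.trans h4) hN.le)
    have h6 : 8 * (1 + 256 * (n : ℝ) ^ 4 / (t : ℝ) ^ 2) / NN n = 8 / NN n + 2048 / (t : ℝ) ^ 2 := by
      unfold NN
      field_simp
      ring
    have h7 : 2048 / (t : ℝ) ^ 2 ≤ 8192 / ((t : ℝ) + 1) ^ 2 := by
      rw [div_le_div_iff₀ (by positivity) (by positivity)]
      nlinarith
    have h8 : 8 / NN n ≤ 8192 / NN n := div_le_div_of_nonneg_right (by norm_num) hN.le
    linarith

theorem heat_zero_term {n : ℕ} [NeZero n] (y : V n) (t : ℕ) :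
    heatPhi (0 : V n) ^ t * (heatChi (0 : V n) y).re = 1 := by
  have h1 : heatPhi (0 : V n) = 1 := by
    unfold heatPhi
    simp
    norm_num
  have h2 : heatChi (0 : V n) y = 1 := by
    unfold heatChi
    simp
  rw [h1, h2]
  simp

theorem heat_mix (n : ℕ) [NeZero n] (t : ℕ) (ht : t0 n ≤ t) (x y : V n) :
    1 / (2 * NN n) ≤ hk n t x y ∧ hk n t x y ≤ 2 / NN n := by
  have hN := heat_NN_pos n
  have hn : (0 : ℝ) < n := by exact_mod_cast Nat.pos_of_ne_zero (NeZero.ne n)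
  have hx : 4 ≤ (t : ℝ) / (n : ℝ) ^ 2 := by
    rw [le_div_iff₀ (by positivity)]
    unfold t0 at ht
    exact_mod_cast ht
  have h1 := heatS_four n _ hx
  have h2 := pow_le_pow_left₀ (heatS_nonneg n _) h1 4
  have h3 : heatS n ((t : ℝ) / (n : ℝ) ^ 2) ^ 4 ≤ 3 / 2 := h2.trans (by norm_num)
  rw [← heatS_pow] at h3
  rw [← Finset.add_sum_erase _ _ (Finset.mem_univ (0 : V n))] at h3
  have e0 : Real.exp (-((t : ℝ) / (n : ℝ) ^ 2) * ∑ a, (((0 : V n) a).valMinAbs : ℝ) ^ 2) = 1 := by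
    simp
  rw [e0] at h3
  have h4 : |∑ θ ∈ Finset.univ.erase (0 : V n), heatPhi θ ^ t * (heatChi θ (y - x)).re| ≤ 1 / 2 := by
    refine (Finset.abs_sum_le_sum_abs _ _).trans ?_
    have h5 : ∑ θ ∈ Finset.univ.erase (0 : V n), |heatPhi θ ^ t * (heatChi θ (y - x)).re| ≤
        ∑ θ ∈ Finset.univ.erase (0 : V n),
          Real.exp (-((t : ℝ) / (n : ℝ) ^ 2) * ∑ a, ((θ a).valMinAbs : ℝ) ^ 2) := by
      refine Finset.sum_le_sum fun θ _ => ?_
      rw [abs_mul, abs_of_nonneg (pow_nonneg (heatPhi_nonneg θ) t)]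
      have a1 := heatPhi_pow_le θ t
      have a2 := heatChi_re_le θ (y - x)
      have a3 := pow_nonneg (heatPhi_nonneg θ) t
      nlinarith [abs_nonneg (heatChi θ (y - x)).re]
    linarith
  have h6 : hk n t x y * NN n =
      1 + ∑ θ ∈ Finset.univ.erase (0 : V n), heatPhi θ ^ t * (heatChi θ (y - x)).re := by
    rw [heat_fourier_re, div_mul_cancel₀ _ hN.ne',
      ← Finset.add_sum_erase _ _ (Finset.mem_univ (0 : V n)), heat_zero_term]
  have h7 := abs_le.1 h4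
  constructor
  · rw [div_le_iff₀ (by positivity)]
    nlinarith
  · rw [le_div_iff₀ hN]
    nlinarith

/-! ### The lower bound -/

theorem heat_card (n : ℕ) [NeZero n] (w : ℝ) (hw0 : 0 ≤ w) (hw : w ≤ n / 5) :
    w ≤ ((Finset.univ.filter fun u : ZMod n => ((u.valMinAbs : ℝ)) ^ 2 ≤ w ^ 2).card : ℝ) := by
  have hn : 0 < n := Nat.pos_of_ne_zero (NeZero.ne n)
  have hn' : (0 : ℝ) < n := by exact_mod_cast hn
  have h1 : ∀ j ∈ Finset.range (⌊w⌋₊ + 1), (j : ℝ) ≤ w ∧ j ≤ n / 2 ∧ j < n := by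
    intro j hj
    have h2 : j ≤ ⌊w⌋₊ := Nat.lt_succ_iff.1 (Finset.mem_range.1 hj)
    have h3 : (j : ℝ) ≤ w := (Nat.le_floor_iff hw0).1 h2
    have h4 : 2 * j ≤ n := by
      have : (2 : ℝ) * j ≤ n := by linarith
      exact_mod_cast this
    have h5 : j < n := by
      have : (j : ℝ) < n := by linarith
      exact_mod_cast this
    exact ⟨h3, by omega, h5⟩
  have h2 : (Finset.range (⌊w⌋₊ + 1)).image (fun j : ℕ => (j : ZMod n)) ⊆
      Finset.univ.filter fun u : ZMod n => ((u.valMinAbs : ℝ)) ^ 2 ≤ w ^ 2 := by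
    intro u hu
    obtain ⟨j, hj, rfl⟩ := Finset.mem_image.1 hu
    obtain ⟨a1, a2, a3⟩ := h1 j hj
    rw [Finset.mem_filter]
    refine ⟨Finset.mem_univ _, ?_⟩
    rw [ZMod.valMinAbs_natCast_of_le_half a2]
    push_cast
    exact pow_le_pow_left₀ (Nat.cast_nonneg j) a1 2
  have h3 : ((Finset.range (⌊w⌋₊ + 1)).image (fun j : ℕ => (j : ZMod n))).card = ⌊w⌋₊ + 1 := by
    rw [Finset.card_image_of_injOn, Finset.card_range]
    intro j hj k hk hjk
    obtain ⟨_, _, a3⟩ := h1 j (Finset.mem_coe.1 hj)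
    obtain ⟨_, _, b3⟩ := h1 k (Finset.mem_coe.1 hk)
    have := congrArg ZMod.val hjk
    simpa [ZMod.val_cast_of_lt a3, ZMod.val_cast_of_lt b3] using this
  have h4 := Finset.card_le_card h2
  rw [h3] at h4
  have h5 : w < (⌊w⌋₊ : ℝ) + 1 := Nat.lt_floor_add_one w
  have h6 : ((⌊w⌋₊ + 1 : ℕ) : ℝ) ≤
      ((Finset.univ.filter fun u : ZMod n => ((u.valMinAbs : ℝ)) ^ 2 ≤ w ^ 2).card : ℝ) := by
    exact_mod_cast h4
  push_cast at h6
  linarith

theorem heat_exp_half (y : ℝ) (hy : 0 ≤ y) : y * Real.exp (-y) ≤ Real.exp (-(y / 2)) := by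
  have h1 : y ≤ Real.exp (y / 2) := by
    have := Real.quadratic_le_exp_of_nonneg (x := y / 2) (by linarith)
    nlinarith [sq_nonneg (y - 2)]
  have h2 : Real.exp (-(y / 2)) = Real.exp (y / 2) * Real.exp (-y) := by
    rw [← Real.exp_add]
    congr 1
    ring
  rw [h2]
  exact mul_le_mul_of_nonneg_right h1 (Real.exp_pos _).le

/-- Lower bound for the sum of the multipliers. -/
theorem heat_first (n : ℕ) [NeZero n] (t : ℕ) (ht : 1 ≤ t) (htn : t ≤ n ^ 2) :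
    (n : ℝ) ^ 4 / (1250 * (t : ℝ) ^ 2) ≤ ∑ θ : V n, heatPhi θ ^ t := by
  have hn : (0 : ℝ) < n := by exact_mod_cast Nat.pos_of_ne_zero (NeZero.ne n)
  have ht' : (1 : ℝ) ≤ t := by exact_mod_cast ht
  have hs : 0 < Real.sqrt t := Real.sqrt_pos.2 (by linarith)
  have hs1 : 1 ≤ Real.sqrt t := Real.one_le_sqrt.2 ht'
  have hs2 : Real.sqrt t ^ 2 = t := Real.sq_sqrt (by linarith)
  set w : ℝ := n / (5 * Real.sqrt t) with hw
  have hw0 : 0 ≤ w := by positivity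
  have hw5 : w ≤ n / 5 := by
    rw [hw]
    refine div_le_div_of_nonneg_left hn.le (by norm_num) ?_
    linarith
  have hw2 : w ^ 2 = (n : ℝ) ^ 2 / (25 * t) := by
    rw [hw, div_pow, mul_pow, hs2]
    norm_num
  set T := Finset.univ.filter fun u : ZMod n => ((u.valMinAbs : ℝ)) ^ 2 ≤ w ^ 2 with hT
  have hcard : w ≤ (T.card : ℝ) := heat_card n w hw0 hw5
  have hpi := Real.pi_pos
  have hpi2 : Real.pi ^ 2 ≤ 10 := by
    have := Real.pi_lt_d2
    nlinarith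
  have h1 : ∀ θ ∈ Fintype.piFinset fun _ : Fin 4 => T, (1 : ℝ) / 2 ≤ heatPhi θ ^ t := by
    intro θ hθ
    rw [Fintype.mem_piFinset] at hθ
    have h2 : ∑ a, ((θ a).valMinAbs : ℝ) ^ 2 ≤ 4 * w ^ 2 := by
      have : ∑ a, ((θ a).valMinAbs : ℝ) ^ 2 ≤ ∑ _a : Fin 4, w ^ 2 :=
        Finset.sum_le_sum fun a _ => (Finset.mem_filter.1 (hθ a)).2
      simpa using this
    have h3 : Real.pi ^ 2 / 4 * ((∑ a, ((θ a).valMinAbs : ℝ) ^ 2) / (n : ℝ) ^ 2) ≤ 1 / (2 * t) := by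
      have h4 : (∑ a, ((θ a).valMinAbs : ℝ) ^ 2) / (n : ℝ) ^ 2 ≤ 4 / (25 * t) := by
        rw [div_le_iff₀ (by positivity)]
        refine h2.trans (le_of_eq ?_)
        rw [hw2]
        ring
      calc Real.pi ^ 2 / 4 * ((∑ a, ((θ a).valMinAbs : ℝ) ^ 2) / (n : ℝ) ^ 2)
          ≤ 10 / 4 * (4 / (25 * t)) := by
            refine mul_le_mul (by linarith) h4 (by positivity) (by norm_num)
        _ = (10 / 25) * (1 / t) := by
            field_simp
        _ ≤ 1 / (2 * t) := by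
            have e : 1 / (2 * (t : ℝ)) = (1 / 2) * (1 / t) := by
              field_simp
            rw [e]
            have : 0 ≤ 1 / (t : ℝ) := by positivity
            nlinarith
    have h4 := heatPhi_ge θ
    have h5 : 1 - 1 / (2 * (t : ℝ)) ≤ heatPhi θ := by linarith
    have h6 : 0 ≤ 1 - 1 / (2 * (t : ℝ)) := by
      have : 1 / (2 * (t : ℝ)) ≤ 1 / 2 := by
        apply one_div_le_one_div_of_le (by norm_num)
        linarith
      linarith
    have h7 := pow_le_pow_left₀ h6 h5 t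
    have h8 := one_add_mul_le_pow (a := -(1 / (2 * (t : ℝ)))) (by linarith) t
    have h9 : 1 + (t : ℝ) * -(1 / (2 * (t : ℝ))) = 1 / 2 := by
      field_simp
      norm_num
    rw [h9] at h8
    have h10 : 1 + -(1 / (2 * (t : ℝ))) = 1 - 1 / (2 * (t : ℝ)) := by ring
    rw [h10] at h8
    exact h8.trans h7
  calc (n : ℝ) ^ 4 / (1250 * (t : ℝ) ^ 2) = w ^ 4 * (1 / 2) := by
        have : w ^ 4 = (w ^ 2) ^ 2 := by ring
        rw [this, hw2]
        field_simp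
        norm_num
    _ ≤ (T.card : ℝ) ^ 4 * (1 / 2) := by
        have := pow_le_pow_left₀ hw0 hcard 4
        linarith
    _ = ∑ θ ∈ Fintype.piFinset fun _ : Fin 4 => T, (1 : ℝ) / 2 := by
        rw [Finset.sum_const, Fintype.card_piFinset_const, nsmul_eq_mul]
        push_cast
        ring
    _ ≤ ∑ θ ∈ Fintype.piFinset fun _ : Fin 4 => T, heatPhi θ ^ t := Finset.sum_le_sum h1
    _ ≤ ∑ θ : V n, heatPhi θ ^ t :=
        Finset.sum_le_sum_of_subset_of_nonneg (Finset.subset_univ _)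
          fun θ _ _ => pow_nonneg (heatPhi_nonneg θ) t

/-- Cauchy–Schwarz for four coordinates. -/
theorem heat_cs (u v : Fin 4 → ℝ) : (∑ a, u a * v a) ^ 2 ≤ (∑ a, u a ^ 2) * ∑ a, v a ^ 2 :=
  Finset.sum_mul_sq_le_sq_mul_sq _ _ _

/-- Upper bound for the weighted sum of the multipliers. -/
theorem heat_second (n : ℕ) [NeZero n] (t : ℕ) (ht : 1 ≤ t) (htn : t ≤ n ^ 2) :
    ∑ θ : V n, heatPhi θ ^ t * ((∑ a, ((θ a).valMinAbs : ℝ) ^ 2) / (n : ℝ) ^ 2) ≤
      2500 * (n : ℝ) ^ 4 / (t : ℝ) ^ 3 := by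
  have hn : (0 : ℝ) < n := by exact_mod_cast Nat.pos_of_ne_zero (NeZero.ne n)
  have ht' : (1 : ℝ) ≤ t := by exact_mod_cast ht
  have htn' : (t : ℝ) ≤ (n : ℝ) ^ 2 := by exact_mod_cast htn
  set s : ℝ := Real.sqrt (t / 2) with hsdef
  have hs : 0 < s := Real.sqrt_pos.2 (by linarith)
  have hs2 : s ^ 2 = t / 2 := Real.sq_sqrt (by linarith)
  have hsn : s ≤ n := by
    have : s ^ 2 ≤ (n : ℝ) ^ 2 := by
      rw [hs2]
      linarith
    exact le_of_sq_le_sq this hn.le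
  have h1 : ∀ θ : V n, heatPhi θ ^ t * ((∑ a, ((θ a).valMinAbs : ℝ) ^ 2) / (n : ℝ) ^ 2) ≤
      (1 / t) * Real.exp (-((s / n) ^ 2) * ∑ a, ((θ a).valMinAbs : ℝ) ^ 2) := by
    intro θ
    set q := ∑ a, ((θ a).valMinAbs : ℝ) ^ 2 with hq
    have hq0 : 0 ≤ q := Finset.sum_nonneg fun a _ => sq_nonneg _
    have h2 := heatPhi_pow_le θ t
    rw [← hq] at h2
    have h3 := heat_exp_half (t * (q / (n : ℝ) ^ 2)) (by positivity)
    have e1 : -((t : ℝ) / (n : ℝ) ^ 2) * q = -(t * (q / (n : ℝ) ^ 2)) := by ring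
    have e2 : -((s / n) ^ 2) * q = -(t * (q / (n : ℝ) ^ 2) / 2) := by
      rw [div_pow, hs2]
      ring
    rw [e1] at h2
    rw [e2]
    have h4 : heatPhi θ ^ t * (q / (n : ℝ) ^ 2) ≤
        Real.exp (-(t * (q / (n : ℝ) ^ 2))) * (q / (n : ℝ) ^ 2) :=
      mul_le_mul_of_nonneg_right h2 (by positivity)
    refine h4.trans ?_
    have h5 : Real.exp (-(t * (q / (n : ℝ) ^ 2))) * (q / (n : ℝ) ^ 2) =
        (1 / t) * (t * (q / (n : ℝ) ^ 2) * Real.exp (-(t * (q / (n : ℝ) ^ 2)))) := by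
      field_simp
    rw [h5]
    exact mul_le_mul_of_nonneg_left h3 (by positivity)
  have h2 : heatS n ((s / n) ^ 2) ≤ 5 * n / s := by
    have h3 := heatS_le_sqrt n (s / n) (by positivity)
    have e1 : 4 / (s / n) = 4 * (n : ℝ) / s := by
      field_simp
    have e2 : 1 ≤ (n : ℝ) / s := (one_le_div hs).2 hsn
    have e3 : 5 * (n : ℝ) / s = n / s + 4 * n / s := by ring
    rw [e1] at h3
    rw [e3]
    linarith
  have h3 := pow_le_pow_left₀ (heatS_nonneg n _) h2 4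
  have h4 : (5 * (n : ℝ) / s) ^ 4 = 2500 * (n : ℝ) ^ 4 / (t : ℝ) ^ 2 := by
    have e1 : (5 * (n : ℝ) / s) ^ 4 = 625 * (n : ℝ) ^ 4 / (s ^ 2) ^ 2 := by
      field_simp
      norm_num
    rw [e1, hs2]
    field_simp
    norm_num
  rw [h4] at h3
  refine (Finset.sum_le_sum fun θ _ => h1 θ).trans ?_
  rw [← Finset.mul_sum, heatS_pow]
  have h5 : (1 / (t : ℝ)) * heatS n ((s / n) ^ 2) ^ 4 ≤ (1 / t) * (2500 * (n : ℝ) ^ 4 / (t : ℝ) ^ 2) :=
    mul_le_mul_of_nonneg_left h3 (by positivity)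
  refine h5.trans (le_of_eq ?_)
  field_simp

theorem heat_lower : ∃ c : ℝ, 0 < c ∧ ∀ (n : ℕ) [NeZero n] (t : ℕ) (x : V n) (z : Fin 4 → ℤ),
    1 ≤ t → t ≤ n ^ 2 → (∑ a, (z a : ℝ) ^ 2) ≤ c * t →
    c / (t : ℝ) ^ 2 ≤ hk n t x (x + fun a => (z a : ZMod n)) := by
  refine ⟨1 / 100000000, by norm_num, ?_⟩
  intro n _ t x z ht htn hz
  have hN := heat_NN_pos n
  have hn : (0 : ℝ) < n := by exact_mod_cast Nat.pos_of_ne_zero (NeZero.ne n)
  have ht' : (1 : ℝ) ≤ t := by exact_mod_cast ht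
  have hpi := Real.pi_pos
  have hpi2 : Real.pi ^ 2 ≤ 10 := by
    have := Real.pi_lt_d2
    nlinarith
  set Z := ∑ a, (z a : ℝ) ^ 2 with hZ
  have hZ0 : 0 ≤ Z := Finset.sum_nonneg fun a _ => sq_nonneg _
  have h1 : ∀ θ : V n, heatPhi θ ^ t - 20 * Z *
      (heatPhi θ ^ t * ((∑ a, ((θ a).valMinAbs : ℝ) ^ 2) / (n : ℝ) ^ 2)) ≤
      heatPhi θ ^ t * (heatChi θ fun a => (z a : ZMod n)).re := by
    intro θ
    set q := ∑ a, ((θ a).valMinAbs : ℝ) ^ 2 with hq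
    have hq0 : 0 ≤ q := Finset.sum_nonneg fun a _ => sq_nonneg _
    have h2 : 1 - 20 * Z * (q / (n : ℝ) ^ 2) ≤ (heatChi θ fun a => (z a : ZMod n)).re := by
      rw [heatChi_re_int]
      have h3 := Real.one_sub_sq_div_two_le_cos
        (x := 2 * Real.pi * ((∑ a, ((θ a).valMinAbs : ℝ) * z a) / n))
      have h4 := heat_cs (fun a => ((θ a).valMinAbs : ℝ)) (fun a => (z a : ℝ))
      rw [← hq, ← hZ] at h4
      set m := ∑ a, ((θ a).valMinAbs : ℝ) * z a with hm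
      have e1 : (2 * Real.pi * (m / n)) ^ 2 / 2 = 2 * Real.pi ^ 2 * (m ^ 2 / (n : ℝ) ^ 2) := by
        field_simp
      rw [e1] at h3
      have h5 : m ^ 2 / (n : ℝ) ^ 2 ≤ q * Z / (n : ℝ) ^ 2 :=
        div_le_div_of_nonneg_right h4 (by positivity)
      have h6 : 2 * Real.pi ^ 2 * (m ^ 2 / (n : ℝ) ^ 2) ≤ 20 * (q * Z / (n : ℝ) ^ 2) :=
        mul_le_mul (by linarith) h5 (by positivity) (by norm_num)
      have e2 : 20 * (q * Z / (n : ℝ) ^ 2) = 20 * Z * (q / (n : ℝ) ^ 2) := by ring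
      linarith
    have h3 := mul_le_mul_of_nonneg_left h2 (pow_nonneg (heatPhi_nonneg θ) t)
    refine (le_of_eq ?_).trans h3
    ring
  have h2 := Finset.sum_le_sum fun (θ : V n) (_ : θ ∈ Finset.univ) => h1 θ
  rw [Finset.sum_sub_distrib, ← Finset.mul_sum] at h2
  have h3 := heat_first n t ht htn
  have h4 := heat_second n t ht htn
  have h5 : 20 * Z * ∑ θ : V n, heatPhi θ ^ t * ((∑ a, ((θ a).valMinAbs : ℝ) ^ 2) / (n : ℝ) ^ 2) ≤
      20 * (1 / 100000000 * t) * (2500 * (n : ℝ) ^ 4 / (t : ℝ) ^ 3) := by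
    refine mul_le_mul (by linarith) h4 ?_ (by positivity)
    exact Finset.sum_nonneg fun θ _ => mul_nonneg (pow_nonneg (heatPhi_nonneg θ) t) (by positivity)
  have h6 : hk n t x (x + fun a => (z a : ZMod n)) * NN n =
      ∑ θ : V n, heatPhi θ ^ t * (heatChi θ fun a => (z a : ZMod n)).re := by
    rw [heat_fourier_re, div_mul_cancel₀ _ hN.ne', add_sub_cancel_left]
  have h7 : 1 / 100000000 / (t : ℝ) ^ 2 * NN n ≤ hk n t x (x + fun a => (z a : ZMod n)) * NN n := by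
    rw [h6]
    refine le_trans ?_ h2
    have e1 : 1 / 100000000 / (t : ℝ) ^ 2 * NN n = (1 / 100000000) * ((n : ℝ) ^ 4 / (t : ℝ) ^ 2) := by
      unfold NN
      field_simp
    have e2 : 20 * (1 / 100000000 * t) * (2500 * (n : ℝ) ^ 4 / (t : ℝ) ^ 3) =
        (50000 / 100000000) * ((n : ℝ) ^ 4 / (t : ℝ) ^ 2) := by
      field_simp
      norm_num
    have e3 : (n : ℝ) ^ 4 / (1250 * (t : ℝ) ^ 2) = (1 / 1250) * ((n : ℝ) ^ 4 / (t : ℝ) ^ 2) := by
      field_simp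
    rw [e2] at h5
    rw [e3] at h3
    rw [e1]
    have : 0 ≤ (n : ℝ) ^ 4 / (t : ℝ) ^ 2 := by positivity
    linarith
  exact le_of_mul_le_mul_right h7 hN

end Pool.Agent.UST
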