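import Pool.Agent.Helper54.UST.C3a
import Pool.Agent.Helper54.UST.Heat
import Pool.Agent.Helper54.UST.Av

/-! Paper Lemma C3 (local growth). -/

namespace Pool.Agent.UST

open MeasureTheory

private theorem c3_muP : IsProbabilityMeasure (mu DD) := by
  unfold mu; infer_instance

private theorem c3_h3_nonneg (n : ℕ) (A : Set (V n)) (x : V n) : 0 ≤ h3 n A x := measureReal_nonneg

private theorem c3_h3_le_one (n : ℕ) (A : Set (V n)) (x : V n) : h3 n A x ≤ 1 := by
  have : IsProbabilityMeasure (mu DD) := c3_muP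
  exact measureReal_le_one

private theorem c3_h3_mono (n : ℕ) {A B : Set (V n)} (h : A ⊆ B) (x : V n) :
    h3 n A x ≤ h3 n B x := by
  have : IsProbabilityMeasure (mu DD) := c3_muP
  unfold h3 pr
  apply measureReal_mono
  · rintro ω ⟨i, h1, h2, h3⟩
    exact ⟨i, h1, h2, h h3⟩
  · exact measure_ne_top _ _

private theorem c3_meas_lerw (n : ℕ) [NeZero n] (A : Set (V n)) (w : V n) (F : List (V n) → ℝ) :
    Measurable (fun ω => F (lerw (act n) w ω A)) := by
  have := measurable_tau (act n) A w (fun t ω => F (le (seg (act n) w ω 0 t)))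
    (fun t ω ω' h => by
      show F _ = F _
      rw [seg_congr (act n) w ω ω' 0 t h])
  exact this

private theorem c3_int_of_bdd (n : ℕ) [NeZero n] (A : Set (V n)) (w : V n) (F : List (V n) → ℝ)
    (h0 : ∀ l, 0 ≤ F l) (h1 : ∀ l, F l ≤ 1) :
    Integrable (fun ω => F (lerw (act n) w ω A)) (mu DD) := by
  have : IsProbabilityMeasure (mu DD) := c3_muP
  refine Integrable.of_bound (c3_meas_lerw n A w F).aestronglyMeasurable 1 ?_
  filter_upwards with ω
  rw [Real.norm_eq_abs, abs_le]
  exact ⟨by linarith [h0 (lerw (act n) w ω A)], h1 _⟩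

theorem lemC3 (C' : ℝ) (hC' : 0 < C') : ∃ c : ℝ, 0 < c ∧ ∃ n0 : ℕ, ∀ (n : ℕ) [NeZero n],
    n0 ≤ n → ∀ A : Set (V n), A.Nonempty → MA n A ≤ C' * (n : ℝ) ^ 2 → ∀ x : V n,
    c / LL n ^ 9 ≤ kop n (fun S => ind (c / LL n ≤ h3 n S x)) A := by
  have : IsProbabilityMeasure (mu DD) := c3_muP
  obtain ⟨c1, hc1, n1, hn1⟩ := lemC3a C' hC'
  obtain ⟨C, hC, hheat⟩ := heat_upper
  refine ⟨min (min (c1 / 2) 1) (c1 / (10 * C)), by positivity, max n1 3, ?_⟩
  intro n _ hn A hA hMA x
  set c := min (min (c1 / 2) 1) (c1 / (10 * C)) with hc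
  have hc0 : 0 < c := by rw [hc]; positivity
  have hca : c ≤ c1 / 2 := le_trans (min_le_left _ _) (min_le_left _ _)
  have hcb : c ≤ 1 := le_trans (min_le_left _ _) (min_le_right _ _)
  have hcc : c ≤ c1 / (10 * C) := min_le_right _ _
  have hn3 : 3 ≤ n := le_trans (le_max_right _ _) hn
  have hL : 1 ≤ LL n := by
    unfold LL
    rw [Real.le_log_iff_exp_le (by positivity)]
    have : (3 : ℝ) ≤ n := by exact_mod_cast hn3
    linarith [Real.exp_one_lt_d9]
  have hL0 : 0 < LL n := by linarith
  have hcL : c / LL n ≤ c := div_le_self hc0.le hL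
  by_cases hx : h3 n A x ≤ c1
  · have key := hn1 n (le_trans (le_max_left _ _) hn) A hA hMA x hx
    -- the probabilities
    set P : V n → ℝ := fun w =>
      ∫ ω, ind (c / LL n ≤ h3 n (A ∪ st (lerw (act n) w ω A)) x) ∂(mu DD) with hP
    have hP0 : ∀ w, 0 ≤ P w := fun w => integral_nonneg (fun ω => ind_nonneg _)
    have hf : ∀ w, ∫ ω, h3 n (A ∪ st (lerw (act n) w ω A)) x ∂(mu DD) ≤ c / LL n + P w := by
      intro w
      have e1 : Integrable (fun ω => h3 n (A ∪ st (lerw (act n) w ω A)) x) (mu DD) :=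
        c3_int_of_bdd n A w (fun l => h3 n (A ∪ st l) x) (fun l => c3_h3_nonneg _ _ _)
          (fun l => c3_h3_le_one _ _ _)
      have e2 : Integrable (fun ω => ind (c / LL n ≤ h3 n (A ∪ st (lerw (act n) w ω A)) x))
          (mu DD) :=
        c3_int_of_bdd n A w (fun l => ind (c / LL n ≤ h3 n (A ∪ st l) x)) (fun l => ind_nonneg _)
          (fun l => ind_le_one _)
      have e3 : ∫ ω, (c / LL n + ind (c / LL n ≤ h3 n (A ∪ st (lerw (act n) w ω A)) x)) ∂(mu DD)
          = c / LL n + P w := by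
        rw [integral_add (integrable_const _) e2]
        simp [hP]
      rw [← e3]
      apply integral_mono e1 ((integrable_const _).add e2)
      intro ω
      simp only [Pi.add_apply]
      by_cases h : c / LL n ≤ h3 n (A ∪ st (lerw (act n) w ω A)) x
      · rw [ind_true h]
        have := c3_h3_le_one n (A ∪ st (lerw (act n) w ω A)) x
        have : 0 ≤ c / LL n := by positivity
        linarith
      · rw [ind_false h]
        push Not at h
        linarith
    have hN : (0 : ℝ) < NN n := by unfold NN; positivity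
    have hN' : (0 : ℝ) < n := by positivity
    have hk_le : ∀ w, hk n (t3 n / 2) x w ≤ 5 * C * LL n ^ 8 / NN n := by
      intro w
      refine (hheat n _ x w).trans ?_
      have h1 : (n : ℝ) ^ 2 / (2 * LL n ^ 4) ≤ ((t3 n / 2 : ℕ) : ℝ) + 1 := by
        have h2 : (n : ℝ) ^ 2 / LL n ^ 4 ≤ (t3 n : ℝ) := Nat.le_ceil _
        have h3 : (t3 n : ℝ) ≤ 2 * ((t3 n / 2 : ℕ) : ℝ) + 1 := by
          have : t3 n ≤ 2 * (t3 n / 2) + 1 := by omega
          exact_mod_cast this
        have h4 : (n : ℝ) ^ 2 / (2 * LL n ^ 4) = ((n : ℝ) ^ 2 / LL n ^ 4) / 2 := by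
          field_simp
        rw [h4]
        linarith
      have h5 : 0 < (n : ℝ) ^ 2 / (2 * LL n ^ 4) := by positivity
      have h6 : C / (((t3 n / 2 : ℕ) : ℝ) + 1) ^ 2 ≤ C / ((n : ℝ) ^ 2 / (2 * LL n ^ 4)) ^ 2 := by
        apply div_le_div_of_nonneg_left hC.le (by positivity)
        exact pow_le_pow_left₀ h5.le h1 2
      have h7 : C / ((n : ℝ) ^ 2 / (2 * LL n ^ 4)) ^ 2 = 4 * C * LL n ^ 8 / NN n := by
        unfold NN
        field_simp
        ring
      have h8 : C / NN n ≤ C * LL n ^ 8 / NN n := by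
        apply div_le_div_of_nonneg_right _ hN.le
        have : 1 ≤ LL n ^ 8 := one_le_pow₀ hL
        nlinarith
      calc C / (((t3 n / 2 : ℕ) : ℝ) + 1) ^ 2 + C / NN n
          ≤ 4 * C * LL n ^ 8 / NN n + C * LL n ^ 8 / NN n := by
            rw [← h7]; exact add_le_add h6 h8
        _ = 5 * C * LL n ^ 8 / NN n := by ring
    have hk0 : ∀ w, 0 ≤ hk n (t3 n / 2) x w := fun w => measureReal_nonneg
    have h9 : c1 / LL n ≤ c / LL n + 5 * C * LL n ^ 8 * av P := by
      refine key.trans ?_
      calc ∑ w : V n, hk n (t3 n / 2) x w *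
            ∫ ω, h3 n (A ∪ st (lerw (act n) w ω A)) x ∂(mu DD)
          ≤ ∑ w : V n, (hk n (t3 n / 2) x w * (c / LL n) + 5 * C * LL n ^ 8 / NN n * P w) := by
            apply Finset.sum_le_sum
            intro w _
            calc hk n (t3 n / 2) x w * ∫ ω, h3 n (A ∪ st (lerw (act n) w ω A)) x ∂(mu DD)
                ≤ hk n (t3 n / 2) x w * (c / LL n + P w) :=
                  mul_le_mul_of_nonneg_left (hf w) (hk0 w)
              _ = hk n (t3 n / 2) x w * (c / LL n) + hk n (t3 n / 2) x w * P w := by ring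
              _ ≤ _ := by
                  have := mul_le_mul_of_nonneg_right (hk_le w) (hP0 w)
                  linarith
        _ = c / LL n + 5 * C * LL n ^ 8 * av P := by
            rw [Finset.sum_add_distrib, ← Finset.sum_mul, hk_sum, ← Finset.mul_sum]
            unfold av
            have hcard : ((Fintype.card (V n) : ℕ) : ℝ) = NN n := by
              unfold NN
              simp [ZMod.card]
            rw [hcard]
            ring
    have h10 : kop n (fun S => ind (c / LL n ≤ h3 n S x)) A = av P := rfl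
    rw [h10]
    have h11 : c1 / 2 / LL n ≤ 5 * C * LL n ^ 8 * av P := by
      have : c / LL n ≤ c1 / 2 / LL n := div_le_div_of_nonneg_right hca hL0.le
      have h12 : c1 / LL n = c1 / 2 / LL n + c1 / 2 / LL n := by ring
      linarith
    have h13 : c1 / 2 ≤ 5 * C * LL n ^ 9 * av P := by
      rw [div_le_iff₀ hL0] at h11
      calc c1 / 2 ≤ 5 * C * LL n ^ 8 * av P * LL n := h11
        _ = 5 * C * LL n ^ 9 * av P := by ring
    rw [div_le_iff₀ (by positivity)]
    refine hcc.trans ?_
    rw [div_le_iff₀ (by positivity)]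
    nlinarith
  · push Not at hx
    have h1 : ∀ u ω, ind (c / LL n ≤ h3 n (A ∪ st (lerw (act n) u ω A)) x) = 1 := by
      intro u ω
      apply ind_true
      have h2 := c3_h3_mono n (Set.subset_union_left : A ⊆ A ∪ st (lerw (act n) u ω A)) x
      linarith
    have h2 : kop n (fun S => ind (c / LL n ≤ h3 n S x)) A = 1 := by
      unfold kop
      simp only [h1]
      simp [av]
    rw [h2, div_le_one (by positivity)]
    exact hcb.trans (one_le_pow₀ hL)

end Pool.Agent.UST
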