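import Pool.Agent.Helper54.UST.Cert
import Pool.Agent.Helper54.UST.Tau
import Pool.Agent.Helper54.UST.LE2
import Pool.Agent.Helper54.UST.WilB
import Pool.Agent.Helper54.UST.RB

/-! Paper Lemma C3, the pair counting part: `X` starts from the position at time `t3/2` of a
walk from `x`, `Y` starts from `x`. -/

namespace Pool.Agent.UST

open MeasureTheory

namespace C3a

/-! ### measurability -/

private def rt (t : ℕ) (ω : ℕ → DD) : Fin t → DD := fun i => ω i

private theorem measurable_rt (t : ℕ) : Measurable (rt t) :=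
  measurable_pi_lambda _ fun i => measurable_pi_apply _

private noncomputable def xt (t : ℕ) (a : Fin t → DD) : ℕ → DD :=
  fun i => if h : i < t then a ⟨i, h⟩ else Classical.arbitrary DD

private theorem measurable_dep2 {α : Type} [MeasurableSpace α] (s t : ℕ)
    (f : (ℕ → DD) → (ℕ → DD) → α)
    (hf1 : ∀ ω ω' η : ℕ → DD, (∀ i, i < s → ω i = ω' i) → f ω η = f ω' η)
    (hf2 : ∀ ω η η' : ℕ → DD, (∀ i, i < t → η i = η' i) → f ω η = f ω η') :
    Measurable (fun p : (ℕ → DD) × (ℕ → DD) => f p.1 p.2) := by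
  have h : (fun p : (ℕ → DD) × (ℕ → DD) => f p.1 p.2) =
      (fun a : (Fin s → DD) × (Fin t → DD) => f (xt s a.1) (xt t a.2)) ∘
        (fun p : (ℕ → DD) × (ℕ → DD) => (rt s p.1, rt t p.2)) := by
    funext p
    show f p.1 p.2 = f (xt s (rt s p.1)) (xt t (rt t p.2))
    rw [hf1 p.1 (xt s (rt s p.1)) p.2 (fun i hi => by simp [xt, rt, hi])]
    exact hf2 _ _ _ (fun i hi => by simp [xt, rt, hi])
  rw [h]
  exact (measurable_of_finite _).comp
    (((measurable_rt s).comp measurable_fst).prodMk ((measurable_rt t).comp measurable_snd))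

/-- Fubini for the probability of an event of two walks -/
private theorem pr2_eq (P : (ℕ → DD) → (ℕ → DD) → Prop)
    (hP : MeasurableSet {p : (ℕ → DD) × (ℕ → DD) | P p.1 p.2}) :
    pr2 {p | P p.1 p.2} = ∫ ω, pr {η | P ω η} ∂(mu DD) := by
  have hsec : ∀ ω, MeasurableSet {η | P ω η} := fun ω => measurable_prodMk_left hP
  have hm : Measurable (fun p : (ℕ → DD) × (ℕ → DD) => ind (P p.1 p.2)) := by
    unfold ind
    exact Measurable.ite hP measurable_const measurable_const
  have hint : Integrable (fun p : (ℕ → DD) × (ℕ → DD) => ind (P p.1 p.2))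
      ((mu DD).prod (mu DD)) := by
    refine Integrable.of_bound hm.aestronglyMeasurable 1 (ae_of_all _ fun p => ?_)
    rw [Real.norm_eq_abs, abs_of_nonneg (ind_nonneg _)]
    exact ind_le_one _
  have h1 : pr2 {p | P p.1 p.2} = ∫ p, ind (P p.1 p.2) ∂((mu DD).prod (mu DD)) :=
    (integral_ind ((mu DD).prod (mu DD)) (fun p => P p.1 p.2) hP).symm
  rw [h1, integral_prod _ hint]
  refine integral_congr_ae (ae_of_all _ fun ω => ?_)
  exact integral_ind (mu DD) (fun η => P ω η) (hsec ω)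

private theorem pr_nonneg (s : Set (ℕ → DD)) : 0 ≤ pr s := measureReal_nonneg

private theorem pr_mono {s t : Set (ℕ → DD)} (h : s ⊆ t) : pr s ≤ pr t :=
  measureReal_mono h

private theorem pr_le_one (s : Set (ℕ → DD)) : pr s ≤ 1 := measureReal_le_one

private theorem pr2_mono {s t : Set ((ℕ → DD) × (ℕ → DD))} (h : s ⊆ t) : pr2 s ≤ pr2 t :=
  measureReal_mono h

section
variable (n : ℕ) [NeZero n]

private theorem meas_pos {α : Type} [MeasurableSpace α] (x : V n) (t : ℕ) (f : V n → α) :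
    Measurable (fun ω : ℕ → DD => f (pos (act n) x ω t)) :=
  measurable_dep t _ fun ω ω' h => by rw [pos_congr (act n) x ω ω' t h]

/-- integral of a function of the position -/
private theorem int_pos (x : V n) (t : ℕ) (f : V n → ℝ) :
    ∫ ω, f (pos (act n) x ω t) ∂(mu DD) = ∑ y, hk n t x y * f y := by
  classical
  have h1 : ∀ ω : ℕ → DD, f (pos (act n) x ω t) =
      ∑ y, ind (pos (act n) x ω t = y) * f y := by
    intro ω
    rw [Finset.sum_eq_single (pos (act n) x ω t)]
    · rw [ind_true rfl, one_mul]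
    · intro y _ hy
      rw [ind_false (fun h => hy h.symm), zero_mul]
    · intro h; exact absurd (Finset.mem_univ _) h
  have hint : ∀ y, Integrable (fun ω : ℕ → DD => ind (pos (act n) x ω t = y) * f y) (mu DD) := by
    intro y
    refine (Integrable.of_bound (meas_pos n x t (fun v => ind (v = y))).aestronglyMeasurable 1
      (ae_of_all _ fun ω => ?_)).mul_const _
    rw [Real.norm_eq_abs, abs_of_nonneg (ind_nonneg _)]
    exact ind_le_one _
  simp_rw [h1]
  rw [integral_finsetSum _ (fun y _ => hint y)]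
  refine Finset.sum_congr rfl fun y _ => ?_
  rw [integral_mul_const]
  congr 1
  refine integral_ind (mu DD) (fun ω => pos (act n) x ω t = y) ?_
  exact measurableSet_setOfPred.mpr (meas_pos n x t (fun v => v = y))

private theorem hk_nonneg' (t : ℕ) (x y : V n) : 0 ≤ hk n t x y := measureReal_nonneg

/-- probability that the second walk meets the first one, given an event of the first one -/
private theorem meet_le (w x : V n) (j i : ℕ) (P : (ℕ → DD) → Prop) (hP : MeasurableSet {ω | P ω})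
    (κ : ℝ) (hκ : ∀ b, hk n i x b ≤ κ) :
    pr2 {p | pos (act n) w p.1 j = pos (act n) x p.2 i ∧ P p.1} ≤ κ * pr {ω | P ω} := by
  have hm1 : MeasurableSet {p : (ℕ → DD) × (ℕ → DD) |
      pos (act n) w p.1 j = pos (act n) x p.2 i} := by
    refine measurableSet_setOfPred.mpr (measurable_dep2 j i
      (fun ω η => pos (act n) w ω j = pos (act n) x η i) ?_ ?_)
    · intro ω ω' η h
      show (pos (act n) w ω j = pos (act n) x η i) = (pos (act n) w ω' j = pos (act n) x η i)
      rw [pos_congr (act n) w ω ω' j h]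
    · intro ω η η' h
      show (pos (act n) w ω j = pos (act n) x η i) = (pos (act n) w ω j = pos (act n) x η' i)
      rw [pos_congr (act n) x η η' i h]
  have hm2 : MeasurableSet {p : (ℕ → DD) × (ℕ → DD) |
      pos (act n) w p.1 j = pos (act n) x p.2 i ∧ P p.1} := hm1.inter (measurable_fst hP)
  rw [pr2_eq (fun ω η => pos (act n) w ω j = pos (act n) x η i ∧ P ω) hm2]
  have h0 : (0 : ℝ) ≤ κ := le_trans (hk_nonneg' n i x 0) (hκ 0)
  have h1 : ∀ ω : ℕ → DD, pr {η | pos (act n) w ω j = pos (act n) x η i ∧ P ω} ≤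
      κ * ind (P ω) := by
    intro ω
    by_cases hPω : P ω
    · rw [ind_true hPω, mul_one]
      refine le_trans (pr_mono ?_) (hκ (pos (act n) w ω j))
      intro η hη
      exact hη.1.symm
    · rw [ind_false hPω, mul_zero]
      have : {η : ℕ → DD | pos (act n) w ω j = pos (act n) x η i ∧ P ω} = ∅ := by
        ext η
        simp [hPω]
      rw [this]
      simp [pr]
  have hmi : Measurable (fun ω : ℕ → DD => ind (P ω)) := by
    unfold ind
    exact Measurable.ite hP measurable_const measurable_const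
  have hii : Integrable (fun ω : ℕ → DD => ind (P ω)) (mu DD) := by
    refine Integrable.of_bound hmi.aestronglyMeasurable 1 (ae_of_all _ fun ω => ?_)
    rw [Real.norm_eq_abs, abs_of_nonneg (ind_nonneg _)]
    exact ind_le_one _
  have h2 : κ * pr {ω | P ω} = ∫ ω, κ * ind (P ω) ∂(mu DD) := by
    rw [integral_const_mul, integral_ind (mu DD) P hP]
    rfl
  rw [h2]
  refine integral_mono_of_nonneg (ae_of_all _ fun ω => pr_nonneg _) (hii.const_mul _)
    (ae_of_all _ fun ω => h1 ω)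

/-- probability of a meeting at given times -/
private theorem meet_eq (w x : V n) (j i : ℕ) :
    pr2 {p | pos (act n) w p.1 j = pos (act n) x p.2 i} = ∑ y, hk n j w y * hk n i x y := by
  have hm1 : MeasurableSet {p : (ℕ → DD) × (ℕ → DD) |
      pos (act n) w p.1 j = pos (act n) x p.2 i} := by
    refine measurableSet_setOfPred.mpr (measurable_dep2 j i
      (fun ω η => pos (act n) w ω j = pos (act n) x η i) ?_ ?_)
    · intro ω ω' η h
      show (pos (act n) w ω j = pos (act n) x η i) = (pos (act n) w ω' j = pos (act n) x η i)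
      rw [pos_congr (act n) w ω ω' j h]
    · intro ω η η' h
      show (pos (act n) w ω j = pos (act n) x η i) = (pos (act n) w ω j = pos (act n) x η' i)
      rw [pos_congr (act n) x η η' i h]
  rw [pr2_eq (fun ω η => pos (act n) w ω j = pos (act n) x η i) hm1,
    ← int_pos n w j (fun y => hk n i x y)]
  refine integral_congr_ae (ae_of_all _ fun ω => ?_)
  show pr _ = pr _
  congr 1
  ext η
  exact eq_comm

/-! ### markov property at a fixed time, returns -/

private theorem kill_le (A : Set (V n)) (x : V n) (I j T : ℕ) (hT : I + j ≤ T) :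
    ∑ w, hk n I x w * pr {ω | ∃ a, a < j ∧ pos (act n) w ω a ∈ A} ≤
      pr {ω | hit (act n) x ω 0 T A} := by
  classical
  rw [← int_pos n x I (fun w => pr {ω | ∃ a, a < j ∧ pos (act n) w ω a ∈ A})]
  have hmk := markov_int (D := DD) I
    (fun ω η => ind (∃ a, a < j ∧ pos (act n) (pos (act n) x ω I) η a ∈ A)) ?_ 1 ?_ ?_
  · have hms : ∀ w : V n, MeasurableSet {ω : ℕ → DD | ∃ a, a < j ∧ pos (act n) w ω a ∈ A} := by
      intro w
      refine measurableSet_setOfPred.mpr (measurable_dep j _ fun ω ω' h => ?_)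
      refine propext ⟨?_, ?_⟩
      · rintro ⟨a, ha, ha'⟩
        exact ⟨a, ha, by rwa [← pos_congr (act n) w ω ω' a (fun i hi => h i (by omega))]⟩
      · rintro ⟨a, ha, ha'⟩
        exact ⟨a, ha, by rwa [pos_congr (act n) w ω ω' a (fun i hi => h i (by omega))]⟩
    have h1 : ∀ ω : ℕ → DD, ∫ η, ind (∃ a, a < j ∧ pos (act n) (pos (act n) x ω I) η a ∈ A) ∂(mu DD) =
        pr {η | ∃ a, a < j ∧ pos (act n) (pos (act n) x ω I) η a ∈ A} := fun ω =>
      integral_ind (mu DD) _ (hms _)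
    simp_rw [h1] at hmk
    rw [← hmk]
    have hms2 : MeasurableSet {ω : ℕ → DD | hit (act n) x ω 0 T A} := by
      refine measurableSet_setOfPred.mpr (measurable_dep T _ fun ω ω' h => ?_)
      refine propext ⟨?_, ?_⟩
      · rintro ⟨a, ha, ha1, ha'⟩
        exact ⟨a, ha, ha1, by rwa [← pos_congr (act n) x ω ω' a (fun i hi => h i (by omega))]⟩
      · rintro ⟨a, ha, ha1, ha'⟩
        exact ⟨a, ha, ha1, by rwa [pos_congr (act n) x ω ω' a (fun i hi => h i (by omega))]⟩
    have h2 : pr {ω | hit (act n) x ω 0 T A} = ∫ ω, ind (hit (act n) x ω 0 T A) ∂(mu DD) :=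
      (integral_ind (mu DD) _ hms2).symm
    rw [h2]
    refine integral_mono_of_nonneg (ae_of_all _ fun ω => ind_nonneg _) ?_
      (ae_of_all _ fun ω => ind_mono ?_)
    · refine Integrable.of_bound ?_ 1 (ae_of_all _ fun ω => ?_)
      · have : Measurable (fun ω : ℕ → DD => ind (hit (act n) x ω 0 T A)) := by
          unfold ind
          exact Measurable.ite hms2 measurable_const measurable_const
        exact this.aestronglyMeasurable
      · rw [Real.norm_eq_abs, abs_of_nonneg (ind_nonneg _)]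
        exact ind_le_one _
    · rintro ⟨a, ha, ha'⟩
      rw [← pos_add] at ha'
      exact ⟨I + a, Nat.zero_le _, by omega, ha'⟩
  · refine measurable_dep2 I j
      (fun ω η => ind (∃ a, a < j ∧ pos (act n) (pos (act n) x ω I) η a ∈ A)) ?_ ?_
    · intro ω ω' η h
      show ind _ = ind _
      rw [pos_congr (act n) x ω ω' I h]
    · intro ω η η' h
      show ind _ = ind _
      congr 1
      refine propext ⟨?_, ?_⟩
      · rintro ⟨a, ha, ha'⟩
        exact ⟨a, ha, by rwa [← pos_congr (act n) _ η η' a (fun i hi => h i (by omega))]⟩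
      · rintro ⟨a, ha, ha'⟩
        exact ⟨a, ha, by rwa [pos_congr (act n) _ η η' a (fun i hi => h i (by omega))]⟩
  · intro ω η
    rw [abs_of_nonneg (ind_nonneg _)]
    exact ind_le_one _
  · intro ω ω' η h
    show ind _ = ind _
    rw [pos_congr (act n) x ω ω' I h]

private theorem return_eq (w : V n) (a u : ℕ) :
    pr {ω | pos (act n) w ω (a + u) = pos (act n) w ω a} = hk n u 0 0 := by
  classical
  have hmk := markov_int (D := DD) a
    (fun ω η => ind (pos (act n) (pos (act n) w ω a) η u = pos (act n) w ω a)) ?_ 1 ?_ ?_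
  · have hms2 : MeasurableSet {ω : ℕ → DD | pos (act n) w ω (a + u) = pos (act n) w ω a} := by
      refine measurableSet_setOfPred.mpr (measurable_dep (a + u) _ fun ω ω' h => ?_)
      rw [pos_congr (act n) w ω ω' (a + u) h, pos_congr (act n) w ω ω' a (fun i hi => h i (by omega))]
    have h2 : pr {ω | pos (act n) w ω (a + u) = pos (act n) w ω a} =
        ∫ ω, ind (pos (act n) w ω (a + u) = pos (act n) w ω a) ∂(mu DD) :=
      (integral_ind (mu DD) _ hms2).symm
    rw [h2]
    simp_rw [pos_add]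
    rw [hmk]
    have h3 : ∀ ω : ℕ → DD, ∫ η, ind (pos (act n) (pos (act n) w ω a) η u = pos (act n) w ω a)
        ∂(mu DD) = hk n u 0 0 := by
      intro ω
      have h4 := hk_translate n u 0 0 (pos (act n) w ω a)
      rw [zero_add] at h4
      rw [← h4]
      exact integral_ind (mu DD) _ (measurableSet_setOfPred.mpr
        (meas_pos n (pos (act n) w ω a) u (fun v => v = pos (act n) w ω a)))
    simp_rw [h3]
    simp
  · refine measurable_dep2 a u
      (fun ω η => ind (pos (act n) (pos (act n) w ω a) η u = pos (act n) w ω a)) ?_ ?_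
    · intro ω ω' η h
      show ind _ = ind _
      rw [pos_congr (act n) w ω ω' a h]
    · intro ω η η' h
      show ind _ = ind _
      rw [pos_congr (act n) _ η η' u h]
  · intro ω η
    rw [abs_of_nonneg (ind_nonneg _)]
    exact ind_le_one _
  · intro ω ω' η h
    show ind _ = ind _
    rw [pos_congr (act n) w ω ω' a h]

/-! ### the certificate -/

/-- the walk returns to its first part after time `j + g` and before hitting `A` -/
private def RR (A : Set (V n)) (w : V n) (j g : ℕ) (ω : ℕ → DD) : Prop :=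
  ∃ a, a ≤ j ∧ ∃ l, j + g < l ∧ l < tau (act n) w ω A ∧
    pos (act n) w ω l = pos (act n) w ω a

/-- the index condition -/
private def CC (w x : V n) (j i g : ℕ) (ω η : ℕ → DD) : Prop :=
  (open Classical in (le (seg (act n) w ω 0 j)).findIdx
      (fun z => decide (z ∈ seg (act n) x η i (i + g)))) ≤
    (open Classical in (le (seg (act n) w ω 0 j)).findIdx
      (fun z => decide (z ∈ seg (act n) w ω j (j + g))))

private theorem cert_hit (A : Set (V n)) (w x : V n) (ω η : ℕ → DD)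
    (h : ∃ t, pos (act n) w ω t ∈ A) (j i g T : ℕ) (hj : ∀ a, a < j → pos (act n) w ω a ∉ A)
    (hji : pos (act n) w ω j = pos (act n) x η i) (hc : CC n w x j i g ω η)
    (hR : ¬ RR n A w j g ω) (hT : i + g ≤ T) :
    hit (act n) x η 0 T (A ∪ st (lerw (act n) w ω A)) := by
  classical
  obtain ⟨hτ1, hτ2⟩ := tau_spec (act n) w ω A h
  have hjτ : j ≤ tau (act n) w ω A := by
    by_contra hlt
    exact hj _ (not_le.mp hlt) hτ1
  have hseg : seg (act n) w ω 0 (tau (act n) w ω A) =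
      seg (act n) w ω 0 j ++ seg (act n) w ω (j + 1) (tau (act n) w ω A) :=
    seg_append (act n) w ω 0 j _ (Nat.zero_le _) hjτ
  have hle : lerw (act n) w ω A =
      leF (le (seg (act n) w ω 0 j)) (seg (act n) w ω (j + 1) (tau (act n) w ω A)) := by
    unfold lerw
    rw [hseg, le_append]
  have hmono : (le (seg (act n) w ω 0 j)).findIdx
        (fun z => decide (z ∈ seg (act n) w ω j (j + g))) ≤
      (le (seg (act n) w ω 0 j)).findIdx
        (fun z => decide (z ∈ seg (act n) w ω (j + 1) (tau (act n) w ω A))) := by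
    refine List.findIdx_le_findIdx ?_
    intro z hz hz2
    have hz2' : z ∈ seg (act n) w ω (j + 1) (tau (act n) w ω A) := of_decide_eq_true hz2
    refine decide_eq_true ?_
    rw [mem_seg] at hz2' ⊢
    obtain ⟨l, hl1, hl2, hl3⟩ := hz2'
    obtain ⟨a, -, ha2, ha3⟩ := (mem_seg (act n) w ω 0 j z).mp (mem_le hz)
    by_cases hlg : l ≤ j + g
    · exact ⟨l, by omega, hlg, hl3⟩
    · exfalso
      rcases Nat.lt_or_ge l (tau (act n) w ω A) with hlt | hge
      · exact hR ⟨a, ha2, l, not_le.mp hlg, hlt, by rw [hl3, ha3]⟩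
      · have hle' : l = tau (act n) w ω A := le_antisymm hl2 hge
        refine hτ2 a (by omega) ?_
        rw [ha3, ← hl3, hle']
        exact hτ1
  have hlast : pos (act n) w ω j ∈ le (seg (act n) w ω 0 j) := by
    have h1 : seg (act n) w ω 0 j ≠ [] := by
      intro h0
      have := seg_length (act n) w ω 0 j
      rw [h0] at this
      simp at this
    have h2 : (le (seg (act n) w ω 0 j)).getLast? = (seg (act n) w ω 0 j).getLast? :=
      leF_getLast h1
    have h3 : (seg (act n) w ω 0 j).getLast? = some (pos (act n) w ω j) := by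
      unfold seg
      rw [Nat.sub_zero, List.range'_concat]
      simp
    exact List.mem_of_getLast? (h2.trans h3)
  obtain ⟨z, hz1, hz2⟩ := certificate (le (seg (act n) w ω 0 j))
    (seg (act n) w ω (j + 1) (tau (act n) w ω A)) (seg (act n) x η i (i + g))
    (by
      have h1 := Nat.le_trans hc hmono
      convert h1) ⟨_, hlast, (mem_seg (act n) x η i (i + g) _).mpr
      ⟨i, le_refl _, Nat.le_add_right _ _, hji.symm⟩⟩
  rw [mem_seg] at hz1
  obtain ⟨l, -, hl2, hl3⟩ := hz1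
  refine ⟨l, Nat.zero_le _, by omega, Or.inr ?_⟩
  rw [hl3, hle]
  exact hz2

/-! ### the pairs -/

private theorem meas_RR (A : Set (V n)) (w : V n) (j g : ℕ) :
    MeasurableSet {ω | RR n A w j g ω} := by
  refine measurableSet_setOfPred.mpr (measurable_tau (act n) A w
    (fun t ω => ∃ a, a ≤ j ∧ ∃ l, j + g < l ∧ l < t ∧
      pos (act n) w ω l = pos (act n) w ω a) ?_)
  intro t ω ω' h
  refine propext ⟨?_, ?_⟩
  · rintro ⟨a, ha, l, hl1, hl2, h3⟩
    refine ⟨a, ha, l, hl1, hl2, ?_⟩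
    rw [← pos_congr (act n) w ω ω' l (fun i hi => h i (by omega)),
      ← pos_congr (act n) w ω ω' a (fun i hi => h i (by omega))]
    exact h3
  · rintro ⟨a, ha, l, hl1, hl2, h3⟩
    refine ⟨a, ha, l, hl1, hl2, ?_⟩
    rw [pos_congr (act n) w ω ω' l (fun i hi => h i (by omega)),
      pos_congr (act n) w ω ω' a (fun i hi => h i (by omega))]
    exact h3

/-- the counted pairs -/
private def GG (A : Set (V n)) (w x : V n) (j i g : ℕ) (ω η : ℕ → DD) : Prop :=
  (pos (act n) w ω j = pos (act n) x η i ∧ (∀ a, a < j → pos (act n) w ω a ∉ A) ∧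
    CC n w x j i g ω η) ∧ ¬ RR n A w j g ω

private theorem meas_G1 (A : Set (V n)) (w x : V n) (j i g : ℕ) :
    MeasurableSet {p : (ℕ → DD) × (ℕ → DD) | pos (act n) w p.1 j = pos (act n) x p.2 i ∧
      (∀ a, a < j → pos (act n) w p.1 a ∉ A) ∧ CC n w x j i g p.1 p.2} := by
  refine measurableSet_setOfPred.mpr (measurable_dep2 (j + g) (i + g)
    (fun ω η => pos (act n) w ω j = pos (act n) x η i ∧
      (∀ a, a < j → pos (act n) w ω a ∉ A) ∧ CC n w x j i g ω η) ?_ ?_)
  · intro ω ω' η h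
    have e1 := pos_congr (act n) w ω ω' j (fun i hi => h i (by omega))
    have e2 := seg_congr (act n) w ω ω' 0 j (fun i hi => h i (by omega))
    have e3 := seg_congr (act n) w ω ω' j (j + g) h
    have e4 : (∀ a, a < j → pos (act n) w ω a ∉ A) = (∀ a, a < j → pos (act n) w ω' a ∉ A) := by
      refine propext ⟨?_, ?_⟩
      · intro h1 a ha
        rw [← pos_congr (act n) w ω ω' a (fun i hi => h i (by omega))]
        exact h1 a ha
      · intro h1 a ha
        rw [pos_congr (act n) w ω ω' a (fun i hi => h i (by omega))]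
        exact h1 a ha
    show (_ ∧ _ ∧ _) = (_ ∧ _ ∧ _)
    rw [e4, e1]
    unfold CC
    rw [e2, e3]
  · intro ω η η' h
    have e1 := pos_congr (act n) x η η' i (fun a hi => h a (by omega))
    have e3 := seg_congr (act n) x η η' i (i + g) h
    show (_ ∧ _ ∧ _) = (_ ∧ _ ∧ _)
    rw [e1]
    unfold CC
    rw [e3]

private theorem meas_GG (A : Set (V n)) (w x : V n) (j i g : ℕ) :
    MeasurableSet {p : (ℕ → DD) × (ℕ → DD) | GG n A w x j i g p.1 p.2} :=
  (meas_G1 n A w x j i g).inter (measurable_fst (meas_RR n A w j g).compl)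

private theorem pair_low (A : Set (V n)) (w x : V n) (j i g : ℕ) (κ : ℝ)
    (hκ : ∀ b, hk n i x b ≤ κ) :
    (1 / 2) * (∑ y, hk n j w y * hk n i x y) -
      (1 / 2) * (κ * pr {ω | ∃ a, a < j ∧ pos (act n) w ω a ∈ A}) -
      κ * pr {ω | RR n A w j g ω} ≤ pr2 {p | GG n A w x j i g p.1 p.2} := by
  have h1 := cert_half n w x j i g (fun ω => le (seg (act n) w ω 0 j))
    (fun ω ω' h => by
      show le _ = le _
      rw [seg_congr (act n) w ω ω' 0 j h])
    (fun ω _ => ∀ a, a < j → pos (act n) w ω a ∉ A)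
    (fun ω ω' η h => by
      constructor
      · intro h1 a ha
        rw [← pos_congr (act n) w ω ω' a (fun i hi => h i (by omega))]
        exact h1 a ha
      · intro h1 a ha
        rw [pos_congr (act n) w ω ω' a (fun i hi => h i (by omega))]
        exact h1 a ha)
    (fun ω η η' _ => Iff.rfl)
  have h2 : pr2 {p | pos (act n) w p.1 j = pos (act n) x p.2 i ∧
      (∀ a, a < j → pos (act n) w p.1 a ∉ A) ∧ CC n w x j i g p.1 p.2} ≤
      pr2 {p | GG n A w x j i g p.1 p.2} +
      pr2 {p | pos (act n) w p.1 j = pos (act n) x p.2 i ∧ RR n A w j g p.1} := by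
    refine le_trans (pr2_mono ?_) (measureReal_union_le _ _)
    intro p hp
    by_cases hR : RR n A w j g p.1
    · exact Or.inr ⟨hp.1, hR⟩
    · exact Or.inl ⟨hp, hR⟩
  have h3 : pr2 {p | pos (act n) w p.1 j = pos (act n) x p.2 i} ≤
      pr2 {p | pos (act n) w p.1 j = pos (act n) x p.2 i ∧
        (∀ a, a < j → pos (act n) w p.1 a ∉ A)} +
      pr2 {p | pos (act n) w p.1 j = pos (act n) x p.2 i ∧
        (∃ a, a < j ∧ pos (act n) w p.1 a ∈ A)} := by
    refine le_trans (pr2_mono ?_) (measureReal_union_le _ _)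
    intro p hp
    by_cases hR : ∃ a, a < j ∧ pos (act n) w p.1 a ∈ A
    · exact Or.inr ⟨hp, hR⟩
    · exact Or.inl ⟨hp, fun a ha h => hR ⟨a, ha, h⟩⟩
  have hms : MeasurableSet {ω : ℕ → DD | ∃ a, a < j ∧ pos (act n) w ω a ∈ A} := by
    refine measurableSet_setOfPred.mpr (measurable_dep j _ fun ω ω' h => ?_)
    refine propext ⟨?_, ?_⟩
    · rintro ⟨a, ha, ha'⟩
      exact ⟨a, ha, by rwa [← pos_congr (act n) w ω ω' a (fun i hi => h i (by omega))]⟩
    · rintro ⟨a, ha, ha'⟩
      exact ⟨a, ha, by rwa [pos_congr (act n) w ω ω' a (fun i hi => h i (by omega))]⟩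
  have h4 := meet_le n w x j i (fun ω => ∃ a, a < j ∧ pos (act n) w ω a ∈ A) hms κ hκ
  have h5 := meet_le n w x j i (fun ω => RR n A w j g ω) (meas_RR n A w j g) κ hκ
  have h6 := meet_eq n w x j i
  have h7 : (1 / 2 : ℝ) * pr2 {p | pos (act n) w p.1 j = pos (act n) x p.2 i ∧
        (∀ a, a < j → pos (act n) w p.1 a ∉ A)} ≤
      pr2 {p | pos (act n) w p.1 j = pos (act n) x p.2 i ∧
      (∀ a, a < j → pos (act n) w p.1 a ∉ A) ∧ CC n w x j i g p.1 p.2} := h1
  linarith

/-- number of the counted pairs -/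
private noncomputable def SS (A : Set (V n)) (w x : V n) (I J g : ℕ)
    (p : (ℕ → DD) × (ℕ → DD)) : ℝ :=
  ∑ j ∈ Finset.range (J + 1), ∑ i ∈ Finset.Icc I (I + J), ind (GG n A w x j i g p.1 p.2)

private theorem meas_ind {Ω : Type} [MeasurableSpace Ω] (P : Ω → Prop)
    (hP : MeasurableSet {ω | P ω}) : Measurable (fun ω => ind (P ω)) := by
  unfold ind
  exact Measurable.ite hP measurable_const measurable_const

private theorem int_ind {Ω : Type} [MeasurableSpace Ω] (μ : Measure Ω) [IsProbabilityMeasure μ]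
    (P : Ω → Prop) (hP : MeasurableSet {ω | P ω}) : Integrable (fun ω => ind (P ω)) μ := by
  refine Integrable.of_bound (meas_ind P hP).aestronglyMeasurable 1 (ae_of_all _ fun ω => ?_)
  rw [Real.norm_eq_abs, abs_of_nonneg (ind_nonneg _)]
  exact ind_le_one _

private theorem meas_SS (A : Set (V n)) (w x : V n) (I J g : ℕ) :
    Measurable (SS n A w x I J g) := by
  unfold SS
  refine Finset.measurable_sum _ fun j _ => Finset.measurable_sum _ fun i _ => ?_
  exact meas_ind _ (meas_GG n A w x j i g)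

private theorem SS_nonneg (A : Set (V n)) (w x : V n) (I J g : ℕ) (p) :
    0 ≤ SS n A w x I J g p :=
  Finset.sum_nonneg fun _ _ => Finset.sum_nonneg fun _ _ => ind_nonneg _

private theorem SS_le (A : Set (V n)) (w x : V n) (I J g : ℕ) (p) :
    SS n A w x I J g p ≤ ((J : ℝ) + 1) ^ 2 := by
  have h1 : SS n A w x I J g p ≤
      ∑ j ∈ Finset.range (J + 1), ∑ i ∈ Finset.Icc I (I + J), (1 : ℝ) :=
    Finset.sum_le_sum fun _ _ => Finset.sum_le_sum fun _ _ => ind_le_one _
  refine le_trans h1 (le_of_eq ?_)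
  simp only [Finset.sum_const, Finset.card_range, Nat.card_Icc, nsmul_eq_mul, mul_one]
  have : I + J + 1 - I = J + 1 := by omega
  rw [this]
  push_cast
  ring

private theorem int_SS (A : Set (V n)) (w x : V n) (I J g : ℕ) :
    ∫ p, SS n A w x I J g p ∂((mu DD).prod (mu DD)) =
      ∑ j ∈ Finset.range (J + 1), ∑ i ∈ Finset.Icc I (I + J),
        pr2 {p | GG n A w x j i g p.1 p.2} := by
  unfold SS
  have hi : ∀ j i : ℕ, Integrable (fun p : (ℕ → DD) × (ℕ → DD) =>
      ind (GG n A w x j i g p.1 p.2)) ((mu DD).prod (mu DD)) := fun j i =>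
    int_ind _ _ (meas_GG n A w x j i g)
  rw [integral_finsetSum _ (fun j _ => integrable_finsetSum _ fun i _ => hi j i)]
  refine Finset.sum_congr rfl fun j _ => ?_
  rw [integral_finsetSum _ (fun i _ => hi j i)]
  refine Finset.sum_congr rfl fun i _ => ?_
  exact integral_ind _ _ (meas_GG n A w x j i g)

private theorem sum_low (A : Set (V n)) (x : V n) (I J g T : ℕ) (hT : I + J ≤ T) (κ m ρ : ℝ)
    (hκ : ∀ i b, I ≤ i → hk n i x b ≤ κ)
    (hm : ∀ s, I ≤ s → s ≤ I + J + (I + J) → m ≤ hk n s x x)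
    (hρ : ∀ w j, j ≤ J → pr {ω | RR n A w j g ω} ≤ ρ) :
    ((J : ℝ) + 1) ^ 2 * (m / 2 - κ * pr {ω | hit (act n) x ω 0 T A} / 2 - κ * ρ) ≤
      ∑ w, hk n I x w * ∫ p, SS n A w x I J g p ∂((mu DD).prod (mu DD)) := by
  have hκ0 : 0 ≤ κ := le_trans (hk_nonneg' n I x x) (hκ I x le_rfl)
  have h1 : ∑ w, hk n I x w * ∫ p, SS n A w x I J g p ∂((mu DD).prod (mu DD)) =
      ∑ j ∈ Finset.range (J + 1), ∑ i ∈ Finset.Icc I (I + J),
        ∑ w, hk n I x w * pr2 {p | GG n A w x j i g p.1 p.2} := by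
    simp_rw [int_SS, Finset.mul_sum]
    rw [Finset.sum_comm]
    refine Finset.sum_congr rfl fun j _ => ?_
    rw [Finset.sum_comm]
  rw [h1]
  have h2 : ∀ j ∈ Finset.range (J + 1), ∀ i ∈ Finset.Icc I (I + J),
      m / 2 - κ * pr {ω | hit (act n) x ω 0 T A} / 2 - κ * ρ ≤
        ∑ w, hk n I x w * pr2 {p | GG n A w x j i g p.1 p.2} := by
    intro j hj i hi
    have hj' : j ≤ J := Nat.lt_succ_iff.mp (Finset.mem_range.mp hj)
    obtain ⟨hi1, hi2⟩ := Finset.mem_Icc.mp hi
    have h3 : ∑ w, hk n I x w * ((1 / 2) * (∑ y, hk n j w y * hk n i x y) -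
      (1 / 2) * (κ * pr {ω | ∃ a, a < j ∧ pos (act n) w ω a ∈ A}) -
      κ * pr {ω | RR n A w j g ω}) ≤ ∑ w, hk n I x w * pr2 {p | GG n A w x j i g p.1 p.2} :=
      Finset.sum_le_sum fun w _ => mul_le_mul_of_nonneg_left
        (pair_low n A w x j i g κ (fun b => hκ i b hi1)) (hk_nonneg' n I x w)
    refine le_trans ?_ h3
    have h4 : ∑ w, hk n I x w * ((1 / 2) * (∑ y, hk n j w y * hk n i x y) -
      (1 / 2) * (κ * pr {ω | ∃ a, a < j ∧ pos (act n) w ω a ∈ A}) -
      κ * pr {ω | RR n A w j g ω}) =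
      (1 / 2) * (∑ w, hk n I x w * ∑ y, hk n j w y * hk n i x y) -
      (κ / 2) * (∑ w, hk n I x w * pr {ω | ∃ a, a < j ∧ pos (act n) w ω a ∈ A}) -
      κ * (∑ w, hk n I x w * pr {ω | RR n A w j g ω}) := by
      rw [Finset.mul_sum (a := (1 / 2 : ℝ)), Finset.mul_sum (a := κ / 2),
        Finset.mul_sum (a := κ), ← Finset.sum_sub_distrib, ← Finset.sum_sub_distrib]
      refine Finset.sum_congr rfl fun w _ => ?_
      ring
    have h5 : ∑ w, hk n I x w * ∑ y, hk n j w y * hk n i x y = hk n (I + j + i) x x := by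
      rw [hk_add n (I + j) i x x]
      simp_rw [Finset.mul_sum]
      rw [Finset.sum_comm]
      refine Finset.sum_congr rfl fun y _ => ?_
      rw [hk_add n I j x y, Finset.sum_mul]
      refine Finset.sum_congr rfl fun w _ => ?_
      rw [hk_symm n i x y]
      ring
    have h6 := kill_le n A x I j T (by omega)
    have h7 : ∑ w, hk n I x w * pr {ω | RR n A w j g ω} ≤ ρ := by
      have h8 : ∑ w, hk n I x w * pr {ω | RR n A w j g ω} ≤ ∑ w, hk n I x w * ρ :=
        Finset.sum_le_sum fun w _ => mul_le_mul_of_nonneg_left (hρ w j hj') (hk_nonneg' n I x w)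
      rw [← Finset.sum_mul, hk_sum, one_mul] at h8
      exact h8
    have h8 := hm (I + j + i) (by omega) (by omega)
    rw [h4, h5]
    have h9 := mul_le_mul_of_nonneg_left h6 (div_nonneg hκ0 (by norm_num : (0 : ℝ) ≤ 2))
    have h10 := mul_le_mul_of_nonneg_left h7 hκ0
    linarith
  have h3 : ((J : ℝ) + 1) ^ 2 * (m / 2 - κ * pr {ω | hit (act n) x ω 0 T A} / 2 - κ * ρ) =
      ∑ j ∈ Finset.range (J + 1), ∑ i ∈ Finset.Icc I (I + J),
        (m / 2 - κ * pr {ω | hit (act n) x ω 0 T A} / 2 - κ * ρ) := by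
    simp only [Finset.sum_const, Finset.card_range, Nat.card_Icc, nsmul_eq_mul]
    have : I + J + 1 - I = J + 1 := by omega
    rw [this]
    push_cast
    ring
  rw [h3]
  exact Finset.sum_le_sum fun j hj => Finset.sum_le_sum fun i hi => h2 j hj i hi

/-- second moment -/
private theorem sum_sq (A : Set (V n)) (x : V n) (I J g : ℕ) (κ : ℝ)
    (hκ : ∀ i b, I ≤ i → hk n i x b ≤ κ) :
    ∑ w, hk n I x w * ∫ p, (SS n A w x I J g p) ^ 2 ∂((mu DD).prod (mu DD)) ≤
      4 * κ * ((J : ℝ) + 1) * ((J : ℝ) + 1) *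
        ∑ a ∈ Finset.range (J + 1), ∑ c ∈ Finset.range (J + 1), hk n (a + c) 0 0 := by
  have h0 := meets_sq n (fun w => hk n I x w) (fun w => hk_nonneg' n I x w) x I J 0 J κ
    (fun i b _ _ => by
      show ∑ y, hk n I x y * hk n i y b ≤ κ
      rw [← hk_add]
      exact hκ _ _ (Nat.le_add_right _ _))
  refine le_trans (Finset.sum_le_sum fun w _ => mul_le_mul_of_nonneg_left ?_
    (hk_nonneg' n I x w)) h0
  have hms : Measurable (fun p => meets n x w I J 0 J p) := by
    unfold meets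
    refine Finset.measurable_sum _ fun j _ => Finset.measurable_sum _ fun i _ => ?_
    refine meas_ind _ (measurableSet_setOfPred.mpr (measurable_dep2 j i
      (fun ω η => pos (act n) x ω j = pos (act n) w η i) ?_ ?_))
    · intro ω ω' η h
      show (pos (act n) x ω j = pos (act n) w η i) = (pos (act n) x ω' j = pos (act n) w η i)
      rw [pos_congr (act n) x ω ω' j h]
    · intro ω η η' h
      show (pos (act n) x ω j = pos (act n) w η i) = (pos (act n) x ω j = pos (act n) w η' i)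
      rw [pos_congr (act n) w η η' i h]
  have hb : ∀ p, |meets n x w I J 0 J p| ≤ ((J : ℝ) + 1) ^ 2 := by
    intro p
    have h1 : (0 : ℝ) ≤ meets n x w I J 0 J p :=
      Finset.sum_nonneg fun _ _ => Finset.sum_nonneg fun _ _ => ind_nonneg _
    rw [abs_of_nonneg h1]
    have h1 : meets n x w I J 0 J p ≤
        ∑ j ∈ Finset.Icc I (I + J), ∑ i ∈ Finset.Icc 0 (0 + J), (1 : ℝ) :=
      Finset.sum_le_sum fun _ _ => Finset.sum_le_sum fun _ _ => ind_le_one _
    refine le_trans h1 (le_of_eq ?_)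
    simp only [Finset.sum_const, Nat.card_Icc, nsmul_eq_mul, mul_one]
    have e1 : I + J + 1 - I = J + 1 := by omega
    rw [e1]
    push_cast
    ring
  rw [← integral_prod_swap (μ := mu DD) (ν := mu DD) (fun p => (meets n x w I J 0 J p) ^ 2)]
  refine integral_mono_of_nonneg (ae_of_all _ fun p => sq_nonneg _) ?_ (ae_of_all _ fun p => ?_)
  · refine Integrable.of_bound ((hms.comp measurable_swap).pow_const 2).aestronglyMeasurable
      ((((J : ℝ) + 1) ^ 2) ^ 2) (ae_of_all _ fun p => ?_)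
    rw [Real.norm_eq_abs, abs_of_nonneg (sq_nonneg _)]
    have := hb p.swap
    rw [← sq_abs]
    exact pow_le_pow_left₀ (abs_nonneg _) this 2
  · show (SS n A w x I J g p) ^ 2 ≤ (meets n x w I J 0 J p.swap) ^ 2
    refine pow_le_pow_left₀ (SS_nonneg n A w x I J g p) ?_ 2
    unfold SS meets
    rw [Finset.sum_comm]
    refine Finset.sum_le_sum fun i _ => ?_
    have e1 : Finset.Icc 0 (0 + J) = Finset.range (J + 1) := by
      ext a
      simp [Nat.lt_succ_iff]
    rw [e1]
    refine Finset.sum_le_sum fun j _ => ind_mono ?_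
    intro h
    exact h.1.1.symm

/-- a counted pair makes `Y` hit `A` or the loop-erased walk -/
private theorem final_le (A : Set (V n)) (hA : A.Nonempty) (w x : V n) (I J g T : ℕ)
    (hT : I + J + g ≤ T) :
    ((mu DD).prod (mu DD)).real {p | 0 < SS n A w x I J g p} ≤
      ∫ ω, pr {η | hit (act n) x η 0 T (A ∪ st (lerw (act n) w ω A))} ∂(mu DD) := by
  have hms : MeasurableSet {p : (ℕ → DD) × (ℕ → DD) | 0 < SS n A w x I J g (p.1, p.2)} :=
    measurableSet_lt measurable_const (meas_SS n A w x I J g)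
  have h0 := pr2_eq (fun ω η => 0 < SS n A w x I J g (ω, η)) hms
  have h1 : ((mu DD).prod (mu DD)).real {p | 0 < SS n A w x I J g p} =
      pr2 {p | 0 < SS n A w x I J g (p.1, p.2)} := rfl
  rw [h1, h0]
  have hm1 : Measurable (fun ω : ℕ → DD =>
      pr {η | hit (act n) x η 0 T (A ∪ st (lerw (act n) w ω A))}) :=
    measurable_lerw (act n) A w (fun l => pr {η | hit (act n) x η 0 T (A ∪ st l)})
  refine integral_mono_of_nonneg (ae_of_all _ fun ω => pr_nonneg _) ?_ ?_
  · refine Integrable.of_bound hm1.aestronglyMeasurable 1 (ae_of_all _ fun ω => ?_)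
    rw [Real.norm_eq_abs, abs_of_nonneg (pr_nonneg _)]
    exact pr_le_one _
  · filter_upwards [ae_hit (act n) A (act_reach n A hA) w] with ω hω
    refine pr_mono ?_
    intro η hη
    have hη' : 0 < SS n A w x I J g (ω, η) := hη
    have hex : ∃ j ∈ Finset.range (J + 1), ∃ i ∈ Finset.Icc I (I + J),
        GG n A w x j i g ω η := by
      by_contra hno
      push Not at hno
      have : SS n A w x I J g (ω, η) = 0 := by
        unfold SS
        refine Finset.sum_eq_zero fun j hj => Finset.sum_eq_zero fun i hi => ?_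
        exact ind_false (hno j hj i hi)
      rw [this] at hη'
      exact lt_irrefl _ hη'
    obtain ⟨j, hj, i, hi, hG⟩ := hex
    have hi2 := (Finset.mem_Icc.mp hi).2
    exact cert_hit n A w x ω η hω j i g T hG.1.2.1 hG.1.1 hG.1.2.2 hG.2 (by omega)

end

/-! ### returns -/

private theorem tele (g j M : ℕ) :
    ∑ l ∈ Finset.Ioc (j + g) M, 1 / ((l : ℝ) - j + 1) ^ 2 ≤ 1 / ((g : ℝ) + 1) := by
  have key : ∀ M : ℕ, j + g ≤ M →
      ∑ l ∈ Finset.Ioc (j + g) M, 1 / ((l : ℝ) - j + 1) ^ 2 ≤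
        1 / ((g : ℝ) + 1) - 1 / ((M : ℝ) - j + 1) := by
    intro M hM
    induction M, hM using Nat.le_induction with
    | base =>
      simp
    | succ M hM ih =>
      rw [← Finset.insert_Ioc_right_eq_Ioc_add_one (by omega), Finset.sum_insert (by simp)]
      have h1 : ((j + g : ℕ) : ℝ) ≤ M := by exact_mod_cast hM
      push_cast at h1
      have h2 : (0 : ℝ) < (M : ℝ) - j + 1 := by
        have : (0 : ℝ) ≤ g := Nat.cast_nonneg g
        linarith
      have h3 : 1 / (((M + 1 : ℕ) : ℝ) - j + 1) ^ 2 ≤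
          1 / ((M : ℝ) - j + 1) - 1 / (((M + 1 : ℕ) : ℝ) - j + 1) := by
        have e : (((M + 1 : ℕ) : ℝ) - j + 1) = ((M : ℝ) - j + 1) + 1 := by
          push_cast
          ring
        rw [e]
        generalize (M : ℝ) - j + 1 = a at h2
        rw [div_sub_div _ _ (by positivity) (by positivity), div_le_div_iff₀ (by positivity)
          (by positivity)]
        nlinarith
      linarith
  rcases Nat.lt_or_ge M (j + g) with h | h
  · rw [Finset.Ioc_eq_empty (by omega), Finset.sum_empty]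
    positivity
  · refine le_trans (key M h) ?_
    have h1 : ((j + g : ℕ) : ℝ) ≤ M := by exact_mod_cast h
    push_cast at h1
    have h2 : (0 : ℝ) < (M : ℝ) - j + 1 := by
      have : (0 : ℝ) ≤ g := Nat.cast_nonneg g
      linarith
    have : (0 : ℝ) ≤ 1 / ((M : ℝ) - j + 1) := by positivity
    linarith

private theorem pr_union_le {ι : Type} (s : Finset ι) (f : ι → Set (ℕ → DD)) :
    pr {ω | ∃ i ∈ s, ω ∈ f i} ≤ ∑ i ∈ s, pr (f i) := by
  classical
  induction s using Finset.induction_on with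
  | empty => simp [pr]
  | insert i s hi ih =>
    rw [Finset.sum_insert hi]
    refine le_trans (pr_mono (t := f i ∪ {ω | ∃ i ∈ s, ω ∈ f i}) ?_)
      (le_trans (measureReal_union_le _ _) (add_le_add le_rfl ih))
    rintro ω ⟨a, ha, ha'⟩
    rcases Finset.mem_insert.mp ha with rfl | h
    · exact Or.inl ha'
    · exact Or.inr ⟨a, h, ha'⟩

private theorem RR_le (n : ℕ) [NeZero n] (A : Set (V n)) (w : V n) (j J g : ℕ) (hj : j ≤ J)
    (C : ℝ) (hC0 : 0 < C)
    (hC : ∀ (t : ℕ) (x y : V n), hk n t x y ≤ C / ((t : ℝ) + 1) ^ 2 + C / NN n)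
    (ρ' : ℝ) (hρ' : pr {ω | ∃ a, a ≤ J ∧ ∃ l, J + t0 n ≤ l ∧ l < tau (act n) w ω A ∧
      pos (act n) w ω l = pos (act n) w ω a} ≤ ρ') :
    pr {ω | RR n A w j g ω} ≤
      ((J : ℝ) + 1) * (C / ((g : ℝ) + 1) + C * ((J : ℝ) + t0 n) / NN n) + ρ' := by
  have hN : 0 ≤ NN n := by unfold NN; positivity
  have h1 : pr {ω | RR n A w j g ω} ≤
      pr {ω | ∃ a ∈ Finset.range (j + 1), ω ∈ {ω | ∃ l ∈ Finset.Ioc (j + g) (J + t0 n),
        ω ∈ {ω : ℕ → DD | pos (act n) w ω l = pos (act n) w ω a}}} + ρ' := by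
    refine le_trans (pr_mono ?_) (le_trans (measureReal_union_le _ _) (add_le_add le_rfl hρ'))
    rintro ω ⟨a, ha, l, hl1, hl2, h3⟩
    rcases Nat.lt_or_ge (J + t0 n) l with h | h
    · exact Or.inr ⟨a, by omega, l, h.le, hl2, h3⟩
    · exact Or.inl ⟨a, Finset.mem_range.mpr (by omega), l, Finset.mem_Ioc.mpr ⟨hl1, h⟩, h3⟩
  refine le_trans h1 (add_le_add ?_ le_rfl)
  refine le_trans (pr_union_le _ _) ?_
  have h2 : ∀ a ∈ Finset.range (j + 1), pr {ω | ∃ l ∈ Finset.Ioc (j + g) (J + t0 n),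
        ω ∈ {ω : ℕ → DD | pos (act n) w ω l = pos (act n) w ω a}} ≤
        C / ((g : ℝ) + 1) + C * ((J : ℝ) + t0 n) / NN n := by
    intro a ha
    have ha' : a ≤ j := Nat.lt_succ_iff.mp (Finset.mem_range.mp ha)
    refine le_trans (pr_union_le _ _) ?_
    have h3 : ∀ l ∈ Finset.Ioc (j + g) (J + t0 n),
        pr {ω : ℕ → DD | pos (act n) w ω l = pos (act n) w ω a} ≤
          C * (1 / ((l : ℝ) - j + 1) ^ 2) + C / NN n := by
      intro l hl
      obtain ⟨hl1, hl2⟩ := Finset.mem_Ioc.mp hl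
      obtain ⟨u, rfl⟩ : ∃ u, l = a + u := ⟨l - a, by omega⟩
      rw [return_eq]
      refine le_trans (hC u 0 0) (add_le_add ?_ le_rfl)
      rw [mul_one_div]
      refine div_le_div_of_nonneg_left hC0.le ?_ ?_
      · have : ((j + g : ℕ) : ℝ) < ((a + u : ℕ) : ℝ) := by exact_mod_cast hl1
        push_cast at this ⊢
        have h4 : (0 : ℝ) < (a : ℝ) + u - j + 1 := by
          have : (0 : ℝ) ≤ g := Nat.cast_nonneg g
          linarith
        positivity
      · have : ((j + g : ℕ) : ℝ) < ((a + u : ℕ) : ℝ) := by exact_mod_cast hl1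
        push_cast at this ⊢
        have h4 : (0 : ℝ) < (a : ℝ) + u - j + 1 := by
          have : (0 : ℝ) ≤ g := Nat.cast_nonneg g
          linarith
        have h5 : (a : ℝ) ≤ j := by exact_mod_cast ha'
        refine pow_le_pow_left₀ h4.le ?_ 2
        linarith
    refine le_trans (Finset.sum_le_sum h3) ?_
    rw [Finset.sum_add_distrib, ← Finset.mul_sum]
    refine add_le_add ?_ ?_
    · have := mul_le_mul_of_nonneg_left (tele g j (J + t0 n)) hC0.le
      rwa [mul_one_div] at this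
    · rw [Finset.sum_const, Nat.card_Ioc, nsmul_eq_mul]
      have h6 : (((J + t0 n - (j + g) : ℕ)) : ℝ) ≤ (J : ℝ) + t0 n := by
        have : J + t0 n - (j + g) ≤ J + t0 n := Nat.sub_le _ _
        exact_mod_cast this
      have h7 : C * ((J : ℝ) + t0 n) / NN n = ((J : ℝ) + t0 n) * (C / NN n) := by ring
      rw [h7]
      exact mul_le_mul_of_nonneg_right h6 (div_nonneg hC0.le hN)
  refine le_trans (Finset.sum_le_sum h2) ?_
  rw [Finset.sum_const, Finset.card_range, nsmul_eq_mul]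
  refine mul_le_mul_of_nonneg_right ?_ (by positivity)
  push_cast
  have : (j : ℝ) ≤ J := by exact_mod_cast hj
  linarith

/-! ### constants -/

private theorem arith_main (Ch cl K η t h κ ρ m : ℝ) (hCh : 0 < Ch) (hcl : 0 < cl) (hK : 0 < K)
    (ht : 0 < t) (hκ : κ = 5 * Ch / t ^ 2) (hm : m = cl / (4 * t ^ 2)) (hρ : ρ ≤ K * η)
    (hη : η ≤ cl / (160 * Ch * K)) (hh : h ≤ cl / (80 * Ch)) :
    cl / (16 * t ^ 2) ≤ m / 2 - κ * h / 2 - κ * ρ := by
  have h1 : Ch * h ≤ cl / 80 := by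
    have := mul_le_mul_of_nonneg_left hh hCh.le
    refine le_trans this (le_of_eq ?_)
    field_simp
  have h2 : Ch * ρ ≤ cl / 160 := by
    have h3 := mul_le_mul_of_nonneg_left (le_trans hρ (mul_le_mul_of_nonneg_left hη hK.le)) hCh.le
    refine le_trans h3 (le_of_eq ?_)
    field_simp
  have h4 : m / 2 - κ * h / 2 - κ * ρ = (cl / 8 - 5 * (Ch * h) / 2 - 5 * (Ch * ρ)) / t ^ 2 := by
    rw [hκ, hm]
    field_simp
    ring
  rw [h4]
  have h5 : cl / (16 * t ^ 2) = (cl / 16) / t ^ 2 := by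
    field_simp
  rw [h5]
  refine div_le_div_of_nonneg_right ?_ (by positivity)
  linarith

private theorem arith_rho (Ch Crb C' η t J g n2 N L T0 ρ' : ℝ) (hCh : 0 < Ch) (hCrb : 0 < Crb)
    (hC' : 0 < C') (hη : 0 < η) (ht : 0 < t) (hJ0 : 0 ≤ J) (hJ : J ≤ η * t) (hg : t / 4 ≤ g + 1)
    (htn : t ≤ n2) (hJn : J ≤ n2) (hN : N = n2 ^ 2) (hL : 1 ≤ L) (hT0 : T0 = 4 * n2)
    (ht2 : 1 ≤ η * t) (hρ' : ρ' = Crb * ((4 + 2 * C') * n2) * J / (N * L)) :
    (J + 1) * (Ch / (g + 1) + Ch * (J + T0) / N) + ρ' ≤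
      (18 * Ch + Crb * (4 + 2 * C')) * η := by
  have hn2 : 0 < n2 := lt_of_lt_of_le ht htn
  have h1 : Ch / (g + 1) ≤ 4 * Ch / t := by
    rw [div_le_div_iff₀ (by linarith [div_pos ht (by norm_num : (0 : ℝ) < 4)]) ht]
    nlinarith
  have h2 : Ch * (J + T0) / N ≤ 5 * Ch / t := by
    rw [hN, hT0, div_le_div_iff₀ (by positivity) ht]
    have e1 : J + 4 * n2 ≤ 5 * n2 := by linarith
    have e2 : Ch * (J + 4 * n2) * t ≤ Ch * (5 * n2) * n2 :=
      mul_le_mul (mul_le_mul_of_nonneg_left e1 hCh.le) htn ht.le (by positivity)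
    nlinarith
  have h3 : (J + 1) * (Ch / (g + 1) + Ch * (J + T0) / N) ≤ (2 * (η * t)) * (9 * Ch / t) := by
    refine mul_le_mul (by linarith) ?_ ?_ (by positivity)
    · have : 9 * Ch / t = 4 * Ch / t + 5 * Ch / t := by ring
      rw [this]
      exact add_le_add h1 h2
    · have : 0 < g + 1 := by linarith [div_pos ht (by norm_num : (0 : ℝ) < 4)]
      rw [hN, hT0]
      positivity
  have h4 : (2 * (η * t)) * (9 * Ch / t) = 18 * Ch * η := by
    field_simp
    ring
  have h5 : ρ' ≤ Crb * (4 + 2 * C') * η := by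
    rw [hρ', hN, div_le_iff₀ (by positivity)]
    have e1 : J ≤ η * n2 := le_trans hJ (mul_le_mul_of_nonneg_left htn hη.le)
    have e2 : Crb * ((4 + 2 * C') * n2) * J ≤ Crb * ((4 + 2 * C') * n2) * (η * n2) :=
      mul_le_mul_of_nonneg_left e1 (by positivity)
    have e3 : Crb * (4 + 2 * C') * η * n2 ^ 2 * 1 ≤ Crb * (4 + 2 * C') * η * n2 ^ 2 * L :=
      mul_le_mul_of_nonneg_left hL (by positivity)
    nlinarith
  nlinarith

private theorem arith_final (cl Ch Cs L t J η P κ D ES ES2 : ℝ) (hcl : 0 < cl) (hCh : 0 < Ch)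
    (hCs : 0 < Cs) (hL : 1 ≤ L) (ht : 0 < t) (hJ0 : 0 ≤ J) (hη : 0 < η) (hJη : η * t ≤ J + 1)
    (hκ : κ = 5 * Ch / t ^ 2) (hD : D ≤ Cs * (2 * L)) (hP : 0 ≤ P)
    (h1 : (J + 1) ^ 2 * (cl / (16 * t ^ 2)) ≤ ES) (h2 : ES2 ≤ 4 * κ * (J + 1) * (J + 1) * D)
    (h3 : ES ^ 2 ≤ ES2 * P) : η ^ 2 * cl ^ 2 / (10240 * Ch * Cs) / L ≤ P := by
  have e1 : ((J + 1) ^ 2 * (cl / (16 * t ^ 2))) ^ 2 ≤ ES ^ 2 :=
    pow_le_pow_left₀ (by positivity) h1 2
  have e2 : ES2 ≤ 4 * (5 * Ch / t ^ 2) * (J + 1) * (J + 1) * (Cs * (2 * L)) := by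
    refine le_trans h2 ?_
    rw [hκ]
    exact mul_le_mul_of_nonneg_left hD (by positivity)
  have e3 : ((J + 1) ^ 2 * (cl / (16 * t ^ 2))) ^ 2 ≤
      4 * (5 * Ch / t ^ 2) * (J + 1) * (J + 1) * (Cs * (2 * L)) * P :=
    le_trans e1 (le_trans h3 (mul_le_mul_of_nonneg_right e2 hP))
  have hJ1 : 0 < J + 1 := by linarith
  have e4 : (J + 1) ^ 2 * cl ^ 2 ≤ 10240 * Ch * Cs * L * t ^ 2 * P := by
    have e5 : ((J + 1) ^ 2 * (cl / (16 * t ^ 2))) ^ 2 =
        ((J + 1) ^ 2 * cl ^ 2) * ((J + 1) ^ 2 / (256 * t ^ 4)) := by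
      field_simp
      ring
    have e6 : 4 * (5 * Ch / t ^ 2) * (J + 1) * (J + 1) * (Cs * (2 * L)) * P =
        (10240 * Ch * Cs * L * t ^ 2 * P) * ((J + 1) ^ 2 / (256 * t ^ 4)) := by
      field_simp
      ring
    rw [e5, e6] at e3
    exact le_of_mul_le_mul_right e3 (by positivity)
  have e7 : (η * t) ^ 2 * cl ^ 2 ≤ (J + 1) ^ 2 * cl ^ 2 :=
    mul_le_mul_of_nonneg_right (pow_le_pow_left₀ (by positivity) hJη 2) (by positivity)
  have hL0 : 0 < L := by linarith
  rw [div_div, div_le_iff₀ (by positivity)]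
  have e8 : (η ^ 2 * cl ^ 2) * t ^ 2 ≤ (P * (10240 * Ch * Cs * L)) * t ^ 2 := by
    nlinarith
  exact le_of_mul_le_mul_right e8 (by positivity)

private theorem large (η : ℝ) (hη : 0 < η) : ∃ n0 : ℕ, ∀ n : ℕ, n0 ≤ n →
    2 ≤ n ∧ 2 ≤ LL n ∧ LL n ^ 4 ≤ η * n := by
  have h1 : Filter.Tendsto (fun n : ℕ => LL n) Filter.atTop Filter.atTop :=
    Real.tendsto_log_atTop.comp tendsto_natCast_atTop_atTop
  have h2 : ∀ᶠ n : ℕ in Filter.atTop, LL n ^ 4 ≤ η * n := by
    have h3 : (fun x : ℝ => Real.log x ^ 4) =o[Filter.atTop] (id : ℝ → ℝ) :=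
      Real.isLittleO_pow_log_id_atTop
    have h4 := (h3.comp_tendsto tendsto_natCast_atTop_atTop (k := fun n : ℕ => (n : ℝ))).bound hη
    filter_upwards [h4] with n hn
    have h5 : ‖Real.log (n : ℝ) ^ 4‖ ≤ η * ‖(n : ℝ)‖ := hn
    rw [Real.norm_eq_abs, Real.norm_eq_abs, Nat.abs_cast, abs_of_nonneg (by positivity)] at h5
    exact h5
  have h3 := (Filter.eventually_ge_atTop 2).and ((h1.eventually_ge_atTop 2).and h2)
  obtain ⟨n0, hn0⟩ := Filter.eventually_atTop.mp h3
  exact ⟨n0, fun n hn => hn0 n hn⟩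

end C3a

theorem lemC3a (C' : ℝ) (hC' : 0 < C') : ∃ c : ℝ, 0 < c ∧ ∃ n0 : ℕ, ∀ (n : ℕ) [NeZero n],
    n0 ≤ n → ∀ A : Set (V n), A.Nonempty → MA n A ≤ C' * (n : ℝ) ^ 2 → ∀ x : V n,
    h3 n A x ≤ c →
    c / LL n ≤ ∑ w : V n, hk n (t3 n / 2) x w *
      ∫ ω, h3 n (A ∪ st (lerw (act n) w ω A)) x ∂(mu DD) := by
  obtain ⟨Ch, hCh, hup⟩ := heat_upper
  obtain ⟨cl, hcl, hlow⟩ := heat_lower
  obtain ⟨Cs, hCs, n1, hsum⟩ := heat_sum
  obtain ⟨Crb, hCrb, n2, hrb⟩ := rb
  set K : ℝ := 18 * Ch + Crb * (4 + 2 * C') with hK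
  have hKpos : 0 < K := by positivity
  set η : ℝ := min (1 / 8) (cl / (160 * Ch * K)) with hη
  have hηpos : 0 < η := lt_min (by norm_num) (by positivity)
  have hη8 : η ≤ 1 / 8 := min_le_left _ _
  have hη2 : η ≤ cl / (160 * Ch * K) := min_le_right _ _
  obtain ⟨n3, hn3⟩ := C3a.large η hηpos
  refine ⟨min (cl / (80 * Ch)) (η ^ 2 * cl ^ 2 / (10240 * Ch * Cs)),
    lt_min (by positivity) (by positivity), max n1 (max n2 n3), ?_⟩
  intro n _ hn A hA hMA x hx
  have hn1' : n1 ≤ n := le_trans (le_max_left _ _) hn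
  have hn2' : n2 ≤ n := le_trans (le_trans (le_max_left _ _) (le_max_right _ _)) hn
  have hn3' : n3 ≤ n := le_trans (le_trans (le_max_right _ _) (le_max_right _ _)) hn
  obtain ⟨hn2le, hL2, hL4⟩ := hn3 n hn3'
  have hL1 : 1 ≤ LL n := by linarith
  have hL0 : 0 < LL n := by linarith
  have hnR : (2 : ℝ) ≤ n := by exact_mod_cast hn2le
  have hn0R : (0 : ℝ) < n := by linarith
  set t : ℕ := t3 n with ht
  have htlow : (n : ℝ) ^ 2 / LL n ^ 4 ≤ t := Nat.le_ceil _
  have htup : (t : ℝ) < (n : ℝ) ^ 2 / LL n ^ 4 + 1 := Nat.ceil_lt_add_one (by positivity)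
  have hL16 : (16 : ℝ) ≤ LL n ^ 4 := by
    have := pow_le_pow_left₀ (by norm_num) hL2 4
    norm_num at this
    exact this
  have h16 : (n : ℝ) ^ 2 / LL n ^ 4 ≤ (n : ℝ) ^ 2 / 16 :=
    div_le_div_of_nonneg_left (by positivity) (by norm_num) hL16
  have h2tR : 2 * (t : ℝ) ≤ (n : ℝ) ^ 2 := by nlinarith
  have h2t : 2 * t ≤ n ^ 2 := by exact_mod_cast h2tR
  have hηn : (n : ℝ) ≤ η * ((n : ℝ) ^ 2 / LL n ^ 4) := by
    rw [← mul_div_assoc, le_div_iff₀ (by positivity)]
    nlinarith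
  have hηt : (n : ℝ) ≤ η * t := le_trans hηn (mul_le_mul_of_nonneg_left htlow hηpos.le)
  have hηt1 : 1 ≤ η * (t : ℝ) := by linarith
  have htpos : (0 : ℝ) < t := by
    by_contra h
    have : η * (t : ℝ) ≤ 0 := mul_nonpos_of_nonneg_of_nonpos hηpos.le (not_lt.mp h)
    linarith
  set I : ℕ := t / 2 with hI
  set g : ℕ := t / 4 with hg
  set J : ℕ := ⌊η * (t : ℝ)⌋₊ with hJ
  have hJle : (J : ℝ) ≤ η * t := Nat.floor_le (by positivity)
  have hJlt : η * (t : ℝ) < (J : ℝ) + 1 := Nat.lt_floor_add_one _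
  have h8J : 8 * J ≤ t := by
    have : 8 * (J : ℝ) ≤ t := by nlinarith
    exact_mod_cast this
  have htge8 : 8 ≤ t := by
    have : (8 : ℝ) ≤ t := by nlinarith
    exact_mod_cast this
  have hIJg : I + J + g ≤ t := by omega
  have hNN : NN n = ((n : ℝ) ^ 2) ^ 2 := by unfold NN; ring
  have htn : (t : ℝ) ≤ (n : ℝ) ^ 2 := by linarith
  have htN : (t : ℝ) ^ 2 ≤ NN n := by
    rw [hNN]
    exact pow_le_pow_left₀ htpos.le htn 2
  have hNpos : 0 < NN n := by unfold NN; positivity
  -- densities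
  set κ : ℝ := 5 * Ch / (t : ℝ) ^ 2 with hκdef
  have hκ : ∀ (i : ℕ) (b : V n), I ≤ i → hk n i x b ≤ κ := by
    intro i b hi
    refine le_trans (hup n i x b) ?_
    have h1 : (t : ℝ) / 2 ≤ (i : ℝ) + 1 := by
      have : t ≤ 2 * (i + 1) := by omega
      have h2 : (t : ℝ) ≤ 2 * ((i : ℝ) + 1) := by exact_mod_cast this
      linarith
    have h2 : Ch / ((i : ℝ) + 1) ^ 2 ≤ 4 * Ch / (t : ℝ) ^ 2 := by
      rw [div_le_div_iff₀ (by positivity) (by positivity)]
      have h3 : ((t : ℝ) / 2) ^ 2 ≤ ((i : ℝ) + 1) ^ 2 := pow_le_pow_left₀ (by positivity) h1 2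
      nlinarith
    have h3 : Ch / NN n ≤ Ch / (t : ℝ) ^ 2 :=
      div_le_div_of_nonneg_left hCh.le (by positivity) htN
    have h4 : κ = 4 * Ch / (t : ℝ) ^ 2 + Ch / (t : ℝ) ^ 2 := by
      rw [hκdef]; ring
    rw [h4]
    exact add_le_add h2 h3
  have hm : ∀ s, I ≤ s → s ≤ I + J + (I + J) → cl / (4 * (t : ℝ) ^ 2) ≤ hk n s x x := by
    intro s hs1 hs2
    have h1 := hlow n s x (fun _ => 0) (by omega) (by omega) (by
      simp
      positivity)
    have h2 : (x + fun a : Fin 4 => (((fun _ => 0 : Fin 4 → ℤ) a : ℤ) : ZMod n)) = x := by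
      funext a
      simp
    rw [h2] at h1
    refine le_trans ?_ h1
    have hs0 : (0 : ℝ) < s := by
      have : 0 < s := by omega
      exact_mod_cast this
    have hs3 : (s : ℝ) ≤ 2 * t := by
      have : s ≤ 2 * t := by omega
      exact_mod_cast this
    refine div_le_div_of_nonneg_left hcl.le (by positivity) ?_
    have := pow_le_pow_left₀ hs0.le hs3 2
    nlinarith
  -- returns
  have hH1 : (n : ℝ) ^ 2 ≤ (4 + 2 * C') * (n : ℝ) ^ 2 := by
    have : 0 ≤ (n : ℝ) ^ 2 := by positivity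
    nlinarith
  have hEt : ∀ y, Et n A y ≤ (4 + 2 * C') * (n : ℝ) ^ 2 := by
    intro y
    have h1 := Et_le_MA n A hA y
    have h2 : ((t0 n : ℕ) : ℝ) = 4 * (n : ℝ) ^ 2 := by
      unfold t0
      push_cast
      ring
    rw [h2] at h1
    linarith
  have hb1 : b1 n ≤ J := by
    refine Nat.le_floor ?_
    have h1 : b1 n ≤ n := by
      unfold b1
      exact Nat.sqrt_le_self n
    have h2 : ((b1 n : ℕ) : ℝ) ≤ n := by exact_mod_cast h1
    linarith
  set ρ' : ℝ := Crb * ((4 + 2 * C') * (n : ℝ) ^ 2) * J / (NN n * LL n) with hρ'def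
  have hρ' : ∀ w : V n, pr {ω | ∃ a, a ≤ J ∧ ∃ l, J + t0 n ≤ l ∧ l < tau (act n) w ω A ∧
      pos (act n) w ω l = pos (act n) w ω a} ≤ ρ' := fun w =>
    hrb n hn2' A hA _ hH1 hEt w J hb1
  have hρ : ∀ (w : V n) (j : ℕ), j ≤ J → pr {ω | C3a.RR n A w j g ω} ≤
      ((J : ℝ) + 1) * (Ch / ((g : ℝ) + 1) + Ch * ((J : ℝ) + t0 n) / NN n) + ρ' := fun w j hj =>
    C3a.RR_le n A w j J g hj Ch hCh (hup n) ρ' (hρ' w)
  have hρK := C3a.arith_rho Ch Crb C' η t J g ((n : ℝ) ^ 2) (NN n) (LL n) (t0 n : ℕ) ρ' hCh hCrb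
    hC' hηpos htpos (Nat.cast_nonneg J) hJle (by
      have : t ≤ 4 * (g + 1) := by omega
      have h2 : (t : ℝ) ≤ 4 * ((g : ℝ) + 1) := by exact_mod_cast this
      linarith) htn (by
      have : J ≤ t := by omega
      have h2 : (J : ℝ) ≤ t := by exact_mod_cast this
      linarith) hNN hL1 (by unfold t0; push_cast; ring) hηt1 hρ'def
  have hES := C3a.sum_low n A x I J g t (by omega) κ (cl / (4 * (t : ℝ) ^ 2)) _ hκ hm hρ
  have hES2 := C3a.sum_sq n A x I J g κ hκ
  have hh : pr {ω | hit (act n) x ω 0 t A} ≤ cl / (80 * Ch) := le_trans hx (min_le_left _ _)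
  have hmain := C3a.arith_main Ch cl K η t (pr {ω | hit (act n) x ω 0 t A}) κ _
    (cl / (4 * (t : ℝ) ^ 2)) hCh hcl hKpos htpos hκdef rfl hρK hη2 hh
  have hES' := le_trans (mul_le_mul_of_nonneg_left hmain
    (by positivity : (0 : ℝ) ≤ ((J : ℝ) + 1) ^ 2)) hES
  have hD := hsum n hn1' J J (by
      have : J ≤ n ^ 2 := by omega
      exact le_trans this (Nat.pow_le_pow_right (by omega) (by norm_num))) (by
      have : J ≤ n ^ 2 := by omega
      exact le_trans this (Nat.pow_le_pow_right (by omega) (by norm_num)))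
  have hD' : ∑ a ∈ Finset.range (J + 1), ∑ c ∈ Finset.range (J + 1), hk n (a + c) 0 0 ≤
      Cs * (2 * LL n) := by
    refine le_trans hD (mul_le_mul_of_nonneg_left ?_ hCs.le)
    have h1 : (J : ℝ) + 1 ≤ (n : ℝ) ^ 2 := by
      have h2 : J + 1 ≤ t := by omega
      have h3 : ((J : ℝ) + 1) ≤ t := by exact_mod_cast h2
      linarith
    have h2 : ((J : ℝ) + 1) * ((J : ℝ) + 1) / NN n ≤ 1 := by
      rw [div_le_one hNpos, hNN, sq]
      exact mul_le_mul h1 h1 (by positivity) (by positivity)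
    linarith
  have hpz := pz_sum ((mu DD).prod (mu DD)) (fun w => hk n I x w) (fun w => measureReal_nonneg)
    (fun w => C3a.SS n A w x I J g) (fun w => C3a.meas_SS n A w x I J g) (((J : ℝ) + 1) ^ 2)
    (fun w p => ⟨C3a.SS_nonneg n A w x I J g p, C3a.SS_le n A w x I J g p⟩)
  have hP : ∑ w, hk n I x w * ((mu DD).prod (mu DD)).real {p | 0 < C3a.SS n A w x I J g p} ≤
      ∑ w : V n, hk n I x w * ∫ ω, h3 n (A ∪ st (lerw (act n) w ω A)) x ∂(mu DD) := by
    refine Finset.sum_le_sum fun w _ => mul_le_mul_of_nonneg_left ?_ measureReal_nonneg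
    exact C3a.final_le n A hA w x I J g t hIJg
  refine le_trans ?_ hP
  refine le_trans (div_le_div_of_nonneg_right (min_le_right _ _) hL0.le) ?_
  refine C3a.arith_final cl Ch Cs (LL n) t J η _ κ _ _ _ hcl hCh hCs hL1 htpos
    (Nat.cast_nonneg J) hηpos hJlt.le hκdef hD' ?_ hES' hES2 hpz
  exact Finset.sum_nonneg fun w _ => mul_nonneg measureReal_nonneg measureReal_nonneg

end Pool.Agent.UST
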