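import Pool.Agent.Helper54.UST.RootTree
import Pool.Agent.Helper54.UST.LE2

/-! Paper Lemma CM. -/

namespace Pool.Agent.UST

open MeasureTheory

lemma cm_dep_integrable (t : ℕ) (f : (ℕ → DD) → ℝ)
    (hf : ∀ ω ω' : ℕ → DD, (∀ i, i < t → ω i = ω' i) → f ω = f ω') (C : ℝ)
    (hC : ∀ ω, |f ω| ≤ C) : Integrable f (mu DD) := by
  refine Integrable.of_bound (measurable_dep t f hf).aestronglyMeasurable C ?_
  exact Filter.Eventually.of_forall (fun ω => by rw [Real.norm_eq_abs]; exact hC ω)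

lemma cm_hit_congr {n : ℕ} (x : V n) (ω ω' : ℕ → DD) (s t : ℕ) (B : Set (V n))
    (h : ∀ i, i < t → ω i = ω' i) :
    hit (act n) x ω s t B ↔ hit (act n) x ω' s t B := by
  constructor
  · rintro ⟨i, h1, h2, h3⟩
    refine ⟨i, h1, h2, ?_⟩
    rwa [← pos_congr (act n) x ω ω' i (fun j hj => h j (by omega))]
  · rintro ⟨i, h1, h2, h3⟩
    refine ⟨i, h1, h2, ?_⟩
    rwa [pos_congr (act n) x ω ω' i (fun j hj => h j (by omega))]

lemma cm_dst_idx {n : ℕ} (T : Tr n) (a b : V n) (i k : ℕ) (hk : i + k < (pth T a b).length) :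
    dst T ((pth T a b)[i]'(by omega)) ((pth T a b)[i + k]) ≤ k := by
  induction k with
  | zero => simp [dst_self]
  | succ k ih =>
    have h1 := ih (by omega)
    have hadj : T.1.Adj ((pth T a b)[i + k]'(by omega)) ((pth T a b)[i + k + 1]'(by omega)) := by
      have := pth_chain T a b
      rw [List.isChain_iff_getElem] at this
      exact this (i + k) (by omega)
    have h2 : dst T ((pth T a b)[i + k]'(by omega)) ((pth T a b)[i + k + 1]'(by omega)) = 1 := by
      rw [dst_eq_dist]; exact SimpleGraph.dist_eq_one_iff_adj.2 hadj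
    have h3 := dst_triangle T ((pth T a b)[i]'(by omega)) ((pth T a b)[i + k]'(by omega))
      ((pth T a b)[i + k + 1]'(by omega))
    have h4 : dst T ((pth T a b)[i]'(by omega)) ((pth T a b)[i + k + 1]'(by omega)) ≤ k + 1 := by
      omega
    exact h4

/-- the event of the last sum -/
def cmQ (n m r1 i : ℕ) (T : Tr n) (w x : V n) (ω : ℕ → DD) : Prop :=
  ¬ hit (act n) x ω 1 i (st (pth T w x)) ∧
    Set.ncard {v | dst T v x ≤ 3 * r1 ∧ ¬ hit (act n) x ω 1 i (st (pth T v x))} < m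

lemma cmQ_congr {n : ℕ} (m r1 i : ℕ) (T : Tr n) (w x : V n) (ω ω' : ℕ → DD)
    (h : ∀ j, j < i → ω j = ω' j) : cmQ n m r1 i T w x ω ↔ cmQ n m r1 i T w x ω' := by
  unfold cmQ
  have h1 : ∀ B : Set (V n), hit (act n) x ω 1 i B ↔ hit (act n) x ω' 1 i B :=
    fun B => cm_hit_congr x ω ω' 1 i B h
  simp only [h1]

lemma cm_vis (n : ℕ) [NeZero n] (hn : 3 ≤ n) (I r1 h m : ℕ) (hh : h ≤ r1)
    (T : Tr n) (w x : V n) (ω : ℕ → DD) (i0 : ℕ)
    (hi0 : i0 < (pth (mvT n T x ω I) w (pos (act n) x ω I)).length)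
    (hnb : nb (mvT n T x ω I) ((pth (mvT n T x ω I) w (pos (act n) x ω I))[i0]) (4 * r1) < m)
    (hi1 : 2 * r1 < i0)
    (h2 : hit (act n) x ω 0 I (st ((pth T w x).take (h + 1)))) (j : ℕ) (hj : j < r1) :
    ∃ l, l ≤ I ∧ pos (act n) x ω l =
        (pth (mvT n T x ω I) w (pos (act n) x ω I))[i0 - j]'(by omega) ∧
      cmQ n m r1 (I - l) (mvT n T x ω l) w (pos (act n) x ω l) (sh l ω) := by
  classical
  set TI := mvT n T x ω I with hTI
  set P := pth TI w (pos (act n) x ω I) with hP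
  have hP2 : P = leF (pth T w x) (seg (act n) x ω 1 I) := mvT_pth n hn T x ω I w
  -- the vertex with index i0 - j
  have hjl : i0 - j < P.length := by omega
  obtain ⟨y, hy⟩ : ∃ y, y = P[i0 - j] := ⟨_, rfl⟩
  -- it is in the dropped part
  have hdrop : y ∈ (leF (pth T w x) (seg (act n) x ω 1 I)).drop h := by
    rw [← hP2, List.mem_drop_iff_getElem]
    refine ⟨i0 - j - h, by omega, ?_⟩
    rw [hy]
    congr 1
    omega
  have hv : ∃ y ∈ (pth T w x).take (h + 1), y ∈ seg (act n) x ω 1 I ∨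
      (pth T w x).getLast? = some y := by
    obtain ⟨i, _, hiI, hi⟩ := h2
    rcases Nat.eq_zero_or_pos i with h0 | h0
    · subst h0
      exact ⟨x, hi, Or.inr (pth_last T w x)⟩
    · exact ⟨pos (act n) x ω i, hi, Or.inl ((mem_seg (act n) x ω 1 I _).2 ⟨i, h0, hiI, rfl⟩)⟩
  have hvis : ∃ t, t ≤ I ∧ pos (act n) x ω t = y := by
    rcases leF_visited (pth_nodup T w x) h hv y hdrop with h3 | h3
    · obtain ⟨i, _, hiI, hi⟩ := (mem_seg (act n) x ω 1 I _).1 h3
      exact ⟨i, hiI, hi⟩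
    · rw [pth_last] at h3
      exact ⟨0, Nat.zero_le _, Option.some.inj h3⟩
  obtain ⟨t, htI, hty⟩ := hvis
  -- last visit
  obtain ⟨l, hl⟩ : ∃ l, l = Nat.findGreatest (fun t => pos (act n) x ω t = y) I := ⟨_, rfl⟩
  have hlI : l ≤ I := by rw [hl]; exact Nat.findGreatest_le I
  have hly : pos (act n) x ω l = y := by
    rw [hl]
    exact Nat.findGreatest_spec (P := fun t => pos (act n) x ω t = y) htI hty
  have hlast : ∀ s, l < s → s ≤ I → pos (act n) x ω s ≠ y := by
    intro s hs1 hs2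
    rw [hl] at hs1
    exact Nat.findGreatest_is_greatest hs1 hs2
  -- the tree at time l
  have hadd : mvT n (mvT n T x ω l) (pos (act n) x ω l) (sh l ω) (I - l) = TI := by
    rw [← mvT_add n hn T x ω l (I - l), hTI]
    congr 1
    omega
  have hposadd : pos (act n) (pos (act n) x ω l) (sh l ω) (I - l) = pos (act n) x ω I := by
    rw [← pos_add]
    congr 1
    omega
  have hP3 : P = leF (pth (mvT n T x ω l) w (pos (act n) x ω l))
      (seg (act n) (pos (act n) x ω l) (sh l ω) 1 (I - l)) := by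
    have := mvT_pth n hn (mvT n T x ω l) (pos (act n) x ω l) (sh l ω) (I - l) w
    rw [hadd, hposadd] at this
    exact this
  have hnot : pos (act n) x ω l ∉ seg (act n) (pos (act n) x ω l) (sh l ω) 1 (I - l) := by
    intro hmem
    obtain ⟨i, hi1', hi2', hi3'⟩ := (mem_seg _ _ _ _ _ _).1 hmem
    rw [← pos_add] at hi3'
    exact hlast (l + i) (by omega) (by omega) (hi3'.trans hly)
  have hyP : pos (act n) x ω l ∈ leF (pth (mvT n T x ω l) w (pos (act n) x ω l))
      (seg (act n) (pos (act n) x ω l) (sh l ω) 1 (I - l)) := by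
    rw [← hP3, hly, hy]
    exact List.getElem_mem _
  have hmiss : ¬ hit (act n) (pos (act n) x ω l) (sh l ω) 1 (I - l)
      (st (pth (mvT n T x ω l) w (pos (act n) x ω l))) := by
    rw [hit_iff]
    rintro ⟨v, hv1, hv2⟩
    exact (leF_last_mem (pth_nodup _ _ _) (pth_last _ _ _) hnot).1 hyP v hv1 hv2
  refine ⟨l, hlI, hly.trans hy, hmiss, ?_⟩
  -- the ball
  have hsub : {v | dst (mvT n T x ω l) v (pos (act n) x ω l) ≤ 3 * r1 ∧
      ¬ hit (act n) (pos (act n) x ω l) (sh l ω) 1 (I - l)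
        (st (pth (mvT n T x ω l) v (pos (act n) x ω l)))} ⊆
      {v | dst TI (pos (act n) x ω l) v ≤ 3 * r1} := by
    rintro v ⟨hv1, hv2⟩
    have hk := mvT_keep n hn (mvT n T x ω l) (pos (act n) x ω l) v (sh l ω) (I - l) hv2
    rw [hadd] at hk
    have : dst TI v (pos (act n) x ω l) = dst (mvT n T x ω l) v (pos (act n) x ω l) := by
      unfold dst; rw [hk]
    change dst TI (pos (act n) x ω l) v ≤ 3 * r1
    rw [dst_symm, this]
    exact hv1
  have hd : dst TI (P[i0]) (pos (act n) x ω l) ≤ j := by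
    rw [dst_symm, hly]
    have h5 := cm_dst_idx TI w (pos (act n) x ω I) (i0 - j) j (by
      have : i0 - j + j = i0 := by omega
      rw [this]; exact hi0)
    have h6 : P[i0 - j + j]'(by
      have : i0 - j + j = i0 := by omega
      rw [this]; exact hi0) = P[i0] := by
      congr 1
      omega
    rw [hy, ← h6]
    exact h5
  have hnb2 : nb TI (pos (act n) x ω l) (3 * r1) ≤ nb TI (P[i0]) (4 * r1) :=
    nb_mono TI (by omega)
  calc Set.ncard {v | dst (mvT n T x ω l) v (pos (act n) x ω l) ≤ 3 * r1 ∧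
      ¬ hit (act n) (pos (act n) x ω l) (sh l ω) 1 (I - l)
        (st (pth (mvT n T x ω l) v (pos (act n) x ω l)))}
      ≤ Set.ncard {v | dst TI (pos (act n) x ω l) v ≤ 3 * r1} :=
        Set.ncard_le_ncard hsub (Set.toFinite _)
    _ ≤ nb TI (P[i0]) (4 * r1) := hnb2
    _ < m := hnb

lemma cm_point (n : ℕ) [NeZero n] (hn : 3 ≤ n) (I r1 h m : ℕ) (hr : 1 ≤ r1) (hh : h ≤ r1)
    (T : Tr n) (w x : V n) (ω : ℕ → DD) :
    ind (∃ z ∈ pth (mvT n T x ω I) w (pos (act n) x ω I), nb (mvT n T x ω I) z (4 * r1) < m) ≤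
      ind (nb (mvT n T x ω I) w (2 * r1) < m) +
      ind (¬ hit (act n) x ω 0 I (st ((pth T w x).take (h + 1)))) +
      (1 / (r1 : ℝ)) * ∑ l ∈ Finset.range (I + 1),
        ind (cmQ n m r1 (I - l) (mvT n T x ω l) w (pos (act n) x ω l) (sh l ω)) := by
  classical
  have hr0 : (0 : ℝ) < r1 := by exact_mod_cast hr
  have hsum0 : 0 ≤ (1 / (r1 : ℝ)) * ∑ l ∈ Finset.range (I + 1),
        ind (cmQ n m r1 (I - l) (mvT n T x ω l) w (pos (act n) x ω l) (sh l ω)) :=
    mul_nonneg (by positivity) (Finset.sum_nonneg (fun l _ => ind_nonneg _))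
  have e1 := ind_nonneg (nb (mvT n T x ω I) w (2 * r1) < m)
  have e2 := ind_nonneg (¬ hit (act n) x ω 0 I (st ((pth T w x).take (h + 1))))
  by_cases hE : ∃ z ∈ pth (mvT n T x ω I) w (pos (act n) x ω I),
      nb (mvT n T x ω I) z (4 * r1) < m
  swap
  · rw [ind_false hE]; linarith
  rw [ind_true hE]
  by_cases h1 : nb (mvT n T x ω I) w (2 * r1) < m
  · rw [ind_true h1]; linarith
  by_cases h2 : hit (act n) x ω 0 I (st ((pth T w x).take (h + 1)))
  swap
  · rw [ind_true h2]; linarith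
  obtain ⟨z0, hz0, hz1⟩ := hE
  obtain ⟨i0, hi0, hz⟩ := List.getElem_of_mem hz0
  subst hz
  have hi1 : 2 * r1 < i0 := by
    by_contra hcon
    push Not at hcon
    apply h1
    refine lt_of_le_of_lt (nb_mono _ ?_) hz1
    have h3 := cm_dst_idx (mvT n T x ω I) w (pos (act n) x ω I) 0 i0 (by omega)
    have hw : (pth (mvT n T x ω I) w (pos (act n) x ω I))[0]'(by omega) = w := by
      have := pth_head (mvT n T x ω I) w (pos (act n) x ω I)
      rw [List.head?_eq_getElem?, List.getElem?_eq_getElem (by omega)] at this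
      exact Option.some.inj this
    rw [hw] at h3
    simp only [Nat.zero_add] at h3
    rw [dst_symm]
    omega
  choose! lf hl1 hl2 hl3 using cm_vis n hn I r1 h m hh T w x ω i0 hi0 hz1 hi1 h2
  have hnd := pth_nodup (mvT n T x ω I) w (pos (act n) x ω I)
  have hcard : r1 ≤ ((Finset.range (I + 1)).filter (fun l =>
      cmQ n m r1 (I - l) (mvT n T x ω l) w (pos (act n) x ω l) (sh l ω))).card := by
    have h4 := Finset.card_le_card_of_injOn (s := Finset.range r1)
      (t := (Finset.range (I + 1)).filter (fun l =>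
      cmQ n m r1 (I - l) (mvT n T x ω l) w (pos (act n) x ω l) (sh l ω))) lf
      (fun j hj => by
        have hj' : j < r1 := Finset.mem_range.1 (Finset.mem_coe.1 hj)
        refine Finset.mem_coe.2 (Finset.mem_filter.2 ⟨Finset.mem_range.2 ?_, hl3 j hj'⟩)
        have := hl1 j hj'
        omega)
      (fun j hj j' hj' hjj => by
        have hj1 : j < r1 := Finset.mem_range.1 (Finset.mem_coe.1 hj)
        have hj2 : j' < r1 := Finset.mem_range.1 (Finset.mem_coe.1 hj')
        have h5 := hl2 j hj1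
        have h6 := hl2 j' hj2
        rw [hjj] at h5
        have h7 := (List.Nodup.getElem_inj_iff hnd).1 (h5.symm.trans h6)
        omega)
    simpa using h4
  have hsum : (r1 : ℝ) ≤ ∑ l ∈ Finset.range (I + 1),
        ind (cmQ n m r1 (I - l) (mvT n T x ω l) w (pos (act n) x ω l) (sh l ω)) := by
    have h8 : ∑ l ∈ Finset.range (I + 1),
        ind (cmQ n m r1 (I - l) (mvT n T x ω l) w (pos (act n) x ω l) (sh l ω)) =
        (((Finset.range (I + 1)).filter (fun l =>
      cmQ n m r1 (I - l) (mvT n T x ω l) w (pos (act n) x ω l) (sh l ω))).card : ℝ) := by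
      simp only [ind]
      rw [Finset.sum_boole]
    rw [h8]
    exact_mod_cast hcard
  have h9 : 1 ≤ (1 / (r1 : ℝ)) * ∑ l ∈ Finset.range (I + 1),
        ind (cmQ n m r1 (I - l) (mvT n T x ω l) w (pos (act n) x ω l) (sh l ω)) := by
    calc (1 : ℝ) = (1 / (r1 : ℝ)) * r1 := by field_simp
      _ ≤ _ := mul_le_mul_of_nonneg_left hsum (by positivity)
  linarith

lemma cm_abs_av {α : Type} [Fintype α] (P : α → Prop) : |av (fun a => ind (P a))| ≤ 1 := by
  rw [abs_of_nonneg (av_nonneg (fun a => ind_nonneg _))]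
  exact av_le (by norm_num) (fun a => ind_le_one _)

/-- integral of an average of indicators -/
lemma cm_int_av {α : Type} [Fintype α] (t : ℕ) (P : α → (ℕ → DD) → Prop)
    (hP : ∀ a, ∀ ω ω' : ℕ → DD, (∀ i, i < t → ω i = ω' i) → (P a ω ↔ P a ω')) :
    ∫ ω, av (fun a => ind (P a ω)) ∂(mu DD) = av (fun a => pr {ω | P a ω}) := by
  have hdep : ∀ a, ∀ ω ω' : ℕ → DD, (∀ i, i < t → ω i = ω' i) → ind (P a ω) = ind (P a ω') := by
    intro a ω ω' h
    have := hP a ω ω' h
    by_cases h1 : P a ω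
    · rw [ind_true h1, ind_true (this.1 h1)]
    · rw [ind_false h1, ind_false (fun h2 => h1 (this.2 h2))]
  rw [← av_integral (mu DD) (fun a ω => ind (P a ω)) (fun a =>
    cm_dep_integrable t _ (hdep a) 1 (fun ω => by
      rw [abs_of_nonneg (ind_nonneg _)]; exact ind_le_one _))]
  congr 1
  funext a
  rw [integral_ind]
  · rfl
  · have hm : Measurable (fun ω => ind (P a ω)) := measurable_dep t _ (hdep a)
    have : {ω | P a ω} = (fun ω => ind (P a ω)) ⁻¹' {1} := by
      ext ω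
      constructor
      · intro h
        exact ind_true h
      · intro h
        by_contra h2
        have h2' : ¬ P a ω := h2
        have h3 : ind (P a ω) = 1 := h
        rw [ind_false h2'] at h3
        norm_num at h3
    rw [this]
    exact hm (measurableSet_singleton 1)

theorem chain_ineq (n : ℕ) [NeZero n] (hn : 3 ≤ n) (I r1 h m : ℕ) (hr : 1 ≤ r1) (hh : h ≤ r1) :
    av (fun T : Tr n => av (fun w : V n => av (fun u : V n =>
      ind (∃ z ∈ pth T w u, nb T z (4 * r1) < m)))) ≤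
    av (fun T : Tr n => av (fun w : V n => ind (nb T w (2 * r1) < m))) +
    av (fun T : Tr n => av (fun w : V n => av (fun u : V n =>
      pr {ω | ¬ hit (act n) u ω 0 I (st ((pth T w u).take (h + 1)))}))) +
    (1 / (r1 : ℝ)) * ∑ i ∈ Finset.range (I + 1),
      av (fun T : Tr n => av (fun w : V n => av (fun z : V n =>
        pr {ω | ¬ hit (act n) z ω 1 i (st (pth T w z)) ∧
          Set.ncard {v | dst T v z ≤ 3 * r1 ∧
            ¬ hit (act n) z ω 1 i (st (pth T v z))} < m}))) := by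
  -- the functions
  obtain ⟨G0, hG0⟩ : ∃ G0 : Tr n → V n → ℝ, G0 = fun T x =>
    av (fun w : V n => ind (∃ z ∈ pth T w x, nb T z (4 * r1) < m)) := ⟨_, rfl⟩
  obtain ⟨G1, hG1⟩ : ∃ G1 : Tr n → ℝ, G1 = fun T =>
    av (fun w : V n => ind (nb T w (2 * r1) < m)) := ⟨_, rfl⟩
  obtain ⟨G2, hG2⟩ : ∃ G2 : Tr n → V n → (ℕ → DD) → ℝ, G2 = fun T x ω =>
    av (fun w : V n => ind (¬ hit (act n) x ω 0 I (st ((pth T w x).take (h + 1))))) := ⟨_, rfl⟩
  obtain ⟨G3, hG3⟩ : ∃ G3 : ℕ → Tr n → V n → (ℕ → DD) → ℝ, G3 = fun i T x ω =>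
    av (fun w : V n => ind (cmQ n m r1 i T w x ω)) := ⟨_, rfl⟩
  have b0 : ∀ T x, |G0 T x| ≤ 1 := fun T x => by rw [hG0]; exact cm_abs_av _
  have b1 : ∀ T, |G1 T| ≤ 1 := fun T => by rw [hG1]; exact cm_abs_av _
  have b2 : ∀ T x ω, |G2 T x ω| ≤ 1 := fun T x ω => by rw [hG2]; exact cm_abs_av _
  have b3 : ∀ i T x ω, |G3 i T x ω| ≤ 1 := fun i T x ω => by rw [hG3]; exact cm_abs_av _
  have d2 : ∀ T x, ∀ ω ω' : ℕ → DD, (∀ i, i < I → ω i = ω' i) → G2 T x ω = G2 T x ω' := by
    intro T x ω ω' h1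
    rw [hG2]
    simp only [cm_hit_congr x ω ω' 0 I _ h1]
  have d3 : ∀ i T x, ∀ ω ω' : ℕ → DD, (∀ j, j < i → ω j = ω' j) → G3 i T x ω = G3 i T x ω' := by
    intro i T x ω ω' h1
    rw [hG3]
    simp only [cmQ_congr m r1 i T _ x ω ω' h1]
  -- pointwise
  have hpt : ∀ (T : Tr n) (x : V n) (ω : ℕ → DD),
      G0 (mvT n T x ω I) (pos (act n) x ω I) ≤ G1 (mvT n T x ω I) + G2 T x ω +
        (1 / (r1 : ℝ)) * ∑ l ∈ Finset.range (I + 1),
          G3 (I - l) (mvT n T x ω l) (pos (act n) x ω l) (sh l ω) := by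
    intro T x ω
    rw [hG0, hG1, hG2, hG3]
    simp only
    rw [← av_sum, ← av_mul_left, ← av_add, ← av_add]
    exact av_mono (fun w => cm_point n hn I r1 h m hr hh T w x ω)
  -- integrability
  have i0 : ∀ (T : Tr n) (x : V n), Integrable
      (fun ω => G0 (mvT n T x ω I) (pos (act n) x ω I)) (mu DD) := by
    intro T x
    refine cm_dep_integrable I _ (fun ω ω' h1 => ?_) 1 (fun ω => b0 _ _)
    rw [mvT_congr n hn T x ω ω' I h1, pos_congr (act n) x ω ω' I h1]
  have i1 : ∀ (T : Tr n) (x : V n), Integrable (fun ω => G1 (mvT n T x ω I)) (mu DD) := by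
    intro T x
    refine cm_dep_integrable I _ (fun ω ω' h1 => ?_) 1 (fun ω => b1 _)
    rw [mvT_congr n hn T x ω ω' I h1]
  have i2 : ∀ (T : Tr n) (x : V n), Integrable (fun ω => G2 T x ω) (mu DD) :=
    fun T x => cm_dep_integrable I _ (d2 T x) 1 (fun ω => b2 _ _ _)
  have i3 : ∀ (T : Tr n) (x : V n), ∀ l ∈ Finset.range (I + 1), Integrable
      (fun ω => G3 (I - l) (mvT n T x ω l) (pos (act n) x ω l) (sh l ω)) (mu DD) := by
    intro T x l hl
    have hl' : l ≤ I := by have := Finset.mem_range.1 hl; omega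
    refine cm_dep_integrable I _ (fun ω ω' h1 => ?_) 1 (fun ω => b3 _ _ _ _)
    rw [mvT_congr n hn T x ω ω' l (fun i hi => h1 i (by omega)),
      pos_congr (act n) x ω ω' l (fun i hi => h1 i (by omega))]
    exact d3 _ _ _ _ _ (fun j hj => h1 (l + j) (by omega))
  -- integrated
  have hint : ∀ (T : Tr n) (x : V n),
      ∫ ω, G0 (mvT n T x ω I) (pos (act n) x ω I) ∂(mu DD) ≤
        ∫ ω, G1 (mvT n T x ω I) ∂(mu DD) + ∫ ω, G2 T x ω ∂(mu DD) +
        (1 / (r1 : ℝ)) * ∑ l ∈ Finset.range (I + 1),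
          ∫ ω, G3 (I - l) (mvT n T x ω l) (pos (act n) x ω l) (sh l ω) ∂(mu DD) := by
    intro T x
    have e1 : ∫ ω, (G1 (mvT n T x ω I) + G2 T x ω + (1 / (r1 : ℝ)) * ∑ l ∈ Finset.range (I + 1),
          G3 (I - l) (mvT n T x ω l) (pos (act n) x ω l) (sh l ω)) ∂(mu DD) =
        ∫ ω, G1 (mvT n T x ω I) ∂(mu DD) + ∫ ω, G2 T x ω ∂(mu DD) +
        (1 / (r1 : ℝ)) * ∑ l ∈ Finset.range (I + 1),
          ∫ ω, G3 (I - l) (mvT n T x ω l) (pos (act n) x ω l) (sh l ω) ∂(mu DD) := by
      have j1 : Integrable (fun ω => G1 (mvT n T x ω I) + G2 T x ω) (mu DD) :=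
        (i1 T x).add (i2 T x)
      have j2 : Integrable (fun ω => (1 / (r1 : ℝ)) * ∑ l ∈ Finset.range (I + 1),
          G3 (I - l) (mvT n T x ω l) (pos (act n) x ω l) (sh l ω)) (mu DD) :=
        (integrable_finsetSum _ (i3 T x)).const_mul _
      rw [integral_add j1 j2, integral_add (i1 T x) (i2 T x), integral_const_mul,
        integral_finsetSum _ (i3 T x)]
    rw [← e1]
    exact integral_mono (i0 T x) (((i1 T x).add (i2 T x)).add
      ((integrable_finsetSum _ (i3 T x)).const_mul _)) (fun ω => hpt T x ω)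
  -- averaged
  have hav : av (fun T : Tr n => av (fun x : V n =>
      ∫ ω, G0 (mvT n T x ω I) (pos (act n) x ω I) ∂(mu DD))) ≤
      av (fun T : Tr n => av (fun x : V n => ∫ ω, G1 (mvT n T x ω I) ∂(mu DD))) +
      av (fun T : Tr n => av (fun x : V n => ∫ ω, G2 T x ω ∂(mu DD))) +
      (1 / (r1 : ℝ)) * ∑ l ∈ Finset.range (I + 1),
        av (fun T : Tr n => av (fun x : V n =>
          ∫ ω, G3 (I - l) (mvT n T x ω l) (pos (act n) x ω l) (sh l ω) ∂(mu DD))) := by
    rw [← av_sum, ← av_mul_left, ← av_add, ← av_add]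
    refine av_mono (fun T => ?_)
    rw [← av_sum, ← av_mul_left, ← av_add, ← av_add]
    exact av_mono (fun x => hint T x)
  -- stationarity
  have s0 : av (fun T : Tr n => av (fun x : V n =>
      ∫ ω, G0 (mvT n T x ω I) (pos (act n) x ω I) ∂(mu DD))) =
      av (fun T : Tr n => av (fun x : V n => G0 T x)) := by
    have := mvT_stat n hn I (fun T x _ => G0 T x) (fun T x => measurable_const) 1
      (fun T x ω => b0 T x)
    rw [this]
    simp
  have hne : Nonempty (V n) := ⟨0⟩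
  have s1 : av (fun T : Tr n => av (fun x : V n =>
      ∫ ω, G1 (mvT n T x ω I) ∂(mu DD))) = av (fun T : Tr n => G1 T) := by
    have := mvT_stat n hn I (fun T _ _ => G1 T) (fun T x => measurable_const) 1
      (fun T x ω => b1 T)
    rw [this]
    simp [av_const]
  have s2 : av (fun T : Tr n => av (fun x : V n => ∫ ω, G2 T x ω ∂(mu DD))) =
      av (fun T : Tr n => av (fun w : V n => av (fun u : V n =>
      pr {ω | ¬ hit (act n) u ω 0 I (st ((pth T w u).take (h + 1)))}))) := by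
    congr 1
    funext T
    rw [av_comm (fun w u => pr {ω | ¬ hit (act n) u ω 0 I (st ((pth T w u).take (h + 1)))})]
    congr 1
    funext x
    rw [hG2]
    exact cm_int_av I _ (fun w ω ω' h1 => by rw [cm_hit_congr x ω ω' 0 I _ h1])
  have s3 : ∀ l ∈ Finset.range (I + 1), av (fun T : Tr n => av (fun x : V n =>
          ∫ ω, G3 (I - l) (mvT n T x ω l) (pos (act n) x ω l) (sh l ω) ∂(mu DD))) =
      av (fun T : Tr n => av (fun w : V n => av (fun z : V n =>
        pr {ω | cmQ n m r1 (I - l) T w z ω}))) := by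
    intro l _
    rw [mvT_stat n hn l (G3 (I - l)) (fun T x => measurable_dep (I - l) _ (d3 (I - l) T x)) 1
      (b3 (I - l))]
    congr 1
    funext T
    rw [av_comm (fun w z => pr {ω | cmQ n m r1 (I - l) T w z ω})]
    congr 1
    funext x
    rw [hG3]
    exact cm_int_av (I - l) _ (fun w ω ω' h1 => cmQ_congr m r1 (I - l) T w x ω ω' h1)
  rw [s0, s1, s2, Finset.sum_congr rfl s3] at hav
  have hrefl : ∑ l ∈ Finset.range (I + 1), av (fun T : Tr n => av (fun w : V n =>
      av (fun z : V n => pr {ω | cmQ n m r1 (I - l) T w z ω}))) =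
      ∑ i ∈ Finset.range (I + 1), av (fun T : Tr n => av (fun w : V n =>
      av (fun z : V n => pr {ω | cmQ n m r1 i T w z ω}))) := by
    have := Finset.sum_range_reflect (fun i => av (fun T : Tr n => av (fun w : V n =>
      av (fun z : V n => pr {ω | cmQ n m r1 i T w z ω})))) (I + 1)
    rw [← this]
    refine Finset.sum_congr rfl (fun l hl => ?_)
    have : I + 1 - 1 - l = I - l := by omega
    rw [this]
  rw [hrefl] at hav
  have hL : av (fun T : Tr n => av (fun x : V n => G0 T x)) =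
      av (fun T : Tr n => av (fun w : V n => av (fun u : V n =>
      ind (∃ z ∈ pth T w u, nb T z (4 * r1) < m)))) := by
    congr 1
    funext T
    rw [hG0, av_comm (fun w u => ind (∃ z ∈ pth T w u, nb T z (4 * r1) < m))]
  rw [hL] at hav
  rw [hG1] at hav
  exact hav

end Pool.Agent.UST
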