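import Pool.Agent.Helper54.UST.LemU1
import Pool.Agent.Helper54.UST.RB
import Pool.Agent.Helper54.UST.AlocE

/-! Paper (8.2). -/

namespace Pool.Agent.UST

open MeasureTheory

section d8aux

private theorem d8_ind_true {P : Prop} (h : P) : ind P = 1 := by
  unfold ind
  exact if_pos h

private theorem d8_ind_false {P : Prop} (h : ¬ P) : ind P = 0 := by
  unfold ind
  exact if_neg h

private theorem d8_ind_nonneg (P : Prop) : 0 ≤ ind P := by
  by_cases h : P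
  · rw [d8_ind_true h]; exact zero_le_one
  · rw [d8_ind_false h]

private theorem d8_ind_le_one (P : Prop) : ind P ≤ 1 := by
  by_cases h : P
  · rw [d8_ind_true h]
  · rw [d8_ind_false h]; exact zero_le_one

private theorem d8_ind_and (P Q : Prop) : ind (P ∧ Q) = ind P * ind Q := by
  by_cases h1 : P
  · by_cases h2 : Q
    · rw [d8_ind_true h1, d8_ind_true h2, d8_ind_true (And.intro h1 h2)]
      norm_num
    · rw [d8_ind_false h2, d8_ind_false (fun h : P ∧ Q => h2 h.2)]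
      norm_num
  · rw [d8_ind_false h1, d8_ind_false (fun h : P ∧ Q => h1 h.1)]
    norm_num

private theorem d8_pr_int (E : Set (ℕ → DD)) (hE : MeasurableSet E) :
    pr E = ∫ ω, ind (ω ∈ E) ∂(mu DD) := by
  unfold pr
  rw [← integral_indicator_one hE]
  refine integral_congr_ae (Filter.Eventually.of_forall fun ω => ?_)
  by_cases h : ω ∈ E
  · simp only [Set.indicator_of_mem h, Pi.one_apply]
    exact (d8_ind_true h).symm
  · simp only [Set.indicator_of_notMem h]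
    exact (d8_ind_false h).symm

private theorem d8_mu_prob : IsProbabilityMeasure (mu DD) := by
  unfold mu
  infer_instance

private theorem d8_pr_mono {E F : Set (ℕ → DD)} (h : E ⊆ F) : pr E ≤ pr F := by
  have := d8_mu_prob
  exact measureReal_mono h (measure_ne_top _ _)

private theorem d8_pr_nonneg (E : Set (ℕ → DD)) : 0 ≤ pr E := measureReal_nonneg

private theorem d8_pr_union_le (E F : Set (ℕ → DD)) : pr (E ∪ F) ≤ pr E + pr F :=
  measureReal_union_le E F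

/-- union of a sequence of events with geometric bounds -/
private theorem d8_pr_union (E : ℕ → Set (ℕ → DD)) (c r : ℝ) (hc : 0 ≤ c) (h0 : 0 ≤ r) (h1 : r < 1)
    (h : ∀ q, pr (E q) ≤ c * r ^ q) : pr (⋃ q, E q) ≤ c * (1 - r)⁻¹ := by
  have := d8_mu_prob
  have hs : Summable (fun q : ℕ => c * r ^ q) := (summable_geometric_of_lt_one h0 h1).mul_left c
  have ht : ∑' q : ℕ, c * r ^ q = c * (1 - r)⁻¹ := by
    rw [tsum_mul_left, tsum_geometric_of_lt_one h0 h1]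
  have h2 : mu DD (⋃ q, E q) ≤ ENNReal.ofReal (c * (1 - r)⁻¹) := by
    calc mu DD (⋃ q, E q) ≤ ∑' q, mu DD (E q) := measure_iUnion_le _
      _ ≤ ∑' q, ENNReal.ofReal (c * r ^ q) := by
          refine ENNReal.tsum_le_tsum fun q => ?_
          rw [← ENNReal.ofReal_toReal (measure_ne_top (mu DD) (E q))]
          exact ENNReal.ofReal_le_ofReal (h q)
      _ = ENNReal.ofReal (∑' q : ℕ, c * r ^ q) :=
          (ENNReal.ofReal_tsum_of_nonneg (fun q => mul_nonneg hc (pow_nonneg h0 q)) hs).symm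
      _ = ENNReal.ofReal (c * (1 - r)⁻¹) := by rw [ht]
  have h3 : 0 ≤ c * (1 - r)⁻¹ := mul_nonneg hc (inv_nonneg.2 (by linarith))
  unfold pr Measure.real
  exact ENNReal.toReal_le_of_le_ofReal h3 h2

/-- union of finitely many events with a common bound -/
private theorem d8_pr_fin (E : ℕ → Set (ℕ → DD)) (c : ℝ) (Q : ℕ)
    (h : ∀ q, pr (E q) ≤ c) : pr (⋃ q ∈ Finset.range Q, E q) ≤ Q * c := by
  have h1 : pr (⋃ q ∈ Finset.range Q, E q) ≤ ∑ q ∈ Finset.range Q, pr (E q) :=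
    measureReal_biUnion_finset_le (Finset.range Q) E
  refine h1.trans ?_
  calc ∑ q ∈ Finset.range Q, pr (E q) ≤ ∑ q ∈ Finset.range Q, c :=
        Finset.sum_le_sum fun q _ => h q
    _ = Q * c := by rw [Finset.sum_const, Finset.card_range, nsmul_eq_mul]

private theorem d8_hit_congr {n : ℕ} (x : V n) (ω ω' : ℕ → DD) (s t : ℕ) (B : Set (V n))
    (h : ∀ i, i < t → ω i = ω' i) : hit (act n) x ω s t B ↔ hit (act n) x ω' s t B := by
  constructor
  · rintro ⟨i, h1, h2, h3⟩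
    refine ⟨i, h1, h2, ?_⟩
    rwa [← pos_congr (act n) x ω ω' i fun k hk => h k (by omega)]
  · rintro ⟨i, h1, h2, h3⟩
    refine ⟨i, h1, h2, ?_⟩
    rwa [pos_congr (act n) x ω ω' i fun k hk => h k (by omega)]

/-- one window -/
private theorem d8_window (n : ℕ) [NeZero n] (A : Set (V n)) (hA : A.Nonempty) (H : ℝ)
    (hH : 1 ≤ H) (hE : ∀ x, Et n A x ≤ H) (x : V n) (j m q : ℕ) :
    pr {ω | ¬ hit (act n) x ω 0 (j + q * m) A ∧
      hit (act n) x ω (j + q * m + t0 n) (j + q * m + t0 n + m) (st (seg (act n) x ω 0 j))} ≤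
    2 * ((2 * (2 : ℝ) ^ (-(((q * m : ℕ) : ℝ) / (3 * H)))) *
      ∫ ω, pm n m (st (seg (act n) x ω 0 j)) ∂(mu DD)) := by
  have := d8_mu_prob
  set B : (ℕ → DD) → Set (V n) := fun ω => st (seg (act n) x ω 0 j) with hB
  have hBdep : ∀ ω ω' : ℕ → DD, (∀ i, i < j → ω i = ω' i) → B ω = B ω' := fun ω ω' h => by
    simp only [hB]
    rw [seg_congr (act n) x ω ω' 0 j h]
  set s := j + q * m + t0 n with hs
  have hs1 : s - t0 n = j + q * m := by omega
  have hmeas : MeasurableSet {ω : ℕ → DD | ¬ hit (act n) x ω 0 (j + q * m) A ∧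
      hit (act n) x ω s (s + m) (B ω)} := by
    have h1 : Measurable (fun ω : ℕ → DD => (¬ hit (act n) x ω 0 (j + q * m) A ∧
      hit (act n) x ω s (s + m) (B ω) : Prop)) := by
      refine measurable_dep (s + m) _ fun ω ω' h => ?_
      have h2 := d8_hit_congr x ω ω' 0 (j + q * m) A fun i hi => h i (by omega)
      have h3 := hBdep ω ω' fun i hi => h i (by omega)
      have h4 := d8_hit_congr x ω ω' s (s + m) (B ω) fun i hi => h i hi
      rw [← h3]
      exact propext (and_congr (not_congr h2) h4)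
    exact measurableSet_setOfPred.2 h1
  rw [d8_pr_int _ hmeas]
  have hsplit : ∀ ω : ℕ → DD, ind (ω ∈ {ω : ℕ → DD | ¬ hit (act n) x ω 0 (j + q * m) A ∧
      hit (act n) x ω s (s + m) (B ω)}) =
      ind (¬ hit (act n) x ω 0 (j + q * m) A) * ind (hit (act n) x ω s (s + m) (B ω)) := by
    intro ω
    exact d8_ind_and _ _
  rw [integral_congr_ae (Filter.Eventually.of_forall hsplit)]
  have hmix := hit_mix_le n x s m (by omega)
    (fun ω => ind (¬ hit (act n) x ω 0 (j + q * m) A)) (fun ω => d8_ind_nonneg _) B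
    (fun ω ω' h => by
      have h2 := d8_hit_congr x ω ω' 0 (j + q * m) A fun i hi => h i (by omega)
      simp only [h2])
    (fun ω ω' h => hBdep ω ω' fun i hi => h i (by omega))
  refine le_trans hmix ?_
  refine mul_le_mul_of_nonneg_left ?_ (by norm_num)
  have hae : ∀ᵐ ω ∂(mu DD), ind (¬ hit (act n) x ω 0 (j + q * m) A) * pm n m (B ω) =
      pm n m (B ω) * ind (j + q * m < tau (act n) x ω A) := by
    filter_upwards [ae_hit (act n) A (act_reach n A hA) x] with ω hω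
    rw [mul_comm]
    congr 2
    exact propext (lt_tau_iff (act n) x ω A hω (j + q * m)).symm
  rw [integral_congr_ae hae]
  have hsv := survive n A hA H hH hE x j (q * m) (fun ω => pm n m (B ω))
    (fun ω => pm_nonneg n m (B ω)) (fun ω ω' h => by simp only [hBdep ω ω' h])
  refine le_trans hsv ?_
  refine mul_le_mul_of_nonneg_left ?_ (by positivity)
  have hint : Integrable (fun ω => pm n m (B ω)) (mu DD) := by
    refine Integrable.of_bound (measurable_dep j _ fun ω ω' h => by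
      simp only [hBdep ω ω' h]).aestronglyMeasurable 1 (Filter.Eventually.of_forall fun ω => ?_)
    rw [Real.norm_eq_abs, abs_of_nonneg (pm_nonneg n m _)]
    exact pm_le_one n m _
  refine integral_mono_of_nonneg (Filter.Eventually.of_forall fun ω =>
    mul_nonneg (pm_nonneg n m _) (d8_ind_nonneg _)) hint (Filter.Eventually.of_forall fun ω => ?_)
  calc pm n m (B ω) * ind (j < tau (act n) x ω A) ≤ pm n m (B ω) * 1 :=
        mul_le_mul_of_nonneg_left (d8_ind_le_one _) (pm_nonneg n m _)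
    _ = pm n m (B ω) := mul_one _

/-- survival after an event of the first `s` steps -/
private theorem d8_surv (n : ℕ) [NeZero n] (A : Set (V n)) (hA : A.Nonempty) (H : ℝ)
    (hH : 1 ≤ H) (hE : ∀ x, Et n A x ≤ H) (x : V n) (s l : ℕ) (P : (ℕ → DD) → Prop)
    (hP : ∀ ω ω' : ℕ → DD, (∀ i, i < s → ω i = ω' i) → (P ω ↔ P ω')) :
    pr {ω | P ω ∧ l ≤ tau (act n) x ω A} ≤
      (2 * (2 : ℝ) ^ (-(((l - 1 - s : ℕ) : ℝ) / (3 * H)))) * pr {ω | P ω} := by
  have := d8_mu_prob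
  by_cases hl : l ≤ s
  · have h0 : l - 1 - s = 0 := by omega
    rw [h0]
    simp only [Nat.cast_zero, zero_div, neg_zero, Real.rpow_zero, mul_one]
    have h1 : pr {ω | P ω ∧ l ≤ tau (act n) x ω A} ≤ pr {ω | P ω} :=
      d8_pr_mono fun ω h => h.1
    have h2 := d8_pr_nonneg {ω | P ω}
    linarith
  · obtain ⟨t, ht⟩ : ∃ t, t = l - 1 - s := ⟨_, rfl⟩
    rw [← ht]
    have hPdep : ∀ ω ω' : ℕ → DD, (∀ i, i < s → ω i = ω' i) → ind (P ω) = ind (P ω') := by
      intro ω ω' h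
      rw [propext (hP ω ω' h)]
    have hPm : MeasurableSet {ω | P ω} :=
      measurableSet_setOfPred.2 (measurable_dep s _ fun ω ω' h => propext (hP ω ω' h))
    have hTm : MeasurableSet {ω : ℕ → DD | s + t < tau (act n) x ω A} := by
      have h := measurable_tau (act n) A x (fun k (_ : ℕ → DD) => k) fun _ _ _ _ => rfl
      exact h measurableSet_Ioi
    have hsub : {ω | P ω ∧ l ≤ tau (act n) x ω A} ⊆
        {ω | P ω} ∩ {ω | s + t < tau (act n) x ω A} := by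
      rintro ω ⟨h1, h2⟩
      refine ⟨h1, ?_⟩
      show s + t < tau (act n) x ω A
      omega
    refine (d8_pr_mono hsub).trans ?_
    rw [d8_pr_int _ (hPm.inter hTm), d8_pr_int _ hPm]
    have hsplit : ∀ ω : ℕ → DD, ind (ω ∈ {ω | P ω} ∩ {ω | s + t < tau (act n) x ω A}) =
        ind (P ω) * ind (s + t < tau (act n) x ω A) := fun ω => d8_ind_and _ _
    rw [integral_congr_ae (Filter.Eventually.of_forall hsplit)]
    have hsv := survive n A hA H hH hE x s t (fun ω => ind (P ω)) (fun ω => d8_ind_nonneg _)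
      hPdep
    refine le_trans hsv ?_
    refine mul_le_mul_of_nonneg_left ?_ (by positivity)
    have hint : Integrable (fun ω => ind (ω ∈ {ω | P ω})) (mu DD) := by
      refine Integrable.of_bound (measurable_dep s _ hPdep).aestronglyMeasurable 1
        (Filter.Eventually.of_forall fun ω => ?_)
      rw [Real.norm_eq_abs, abs_of_nonneg (d8_ind_nonneg _)]
      exact d8_ind_le_one _
    refine integral_mono_of_nonneg (Filter.Eventually.of_forall fun ω =>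
      mul_nonneg (d8_ind_nonneg _) (d8_ind_nonneg _)) hint (Filter.Eventually.of_forall fun ω => ?_)
    calc ind (P ω) * ind (s < tau (act n) x ω A) ≤ ind (P ω) * 1 :=
          mul_le_mul_of_nonneg_left (d8_ind_le_one _) (d8_ind_nonneg _)
      _ = ind (P ω) := mul_one _

/-- the loss of the time `s` in the exponent -/
private theorem d8_exp (H : ℝ) (hH : 0 < H) (l s : ℕ) (a : ℝ) (ha : (s : ℝ) + 1 ≤ a * (3 * H)) :
    (2 : ℝ) ^ (-(((l - 1 - s : ℕ) : ℝ) / (3 * H))) ≤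
      (2 : ℝ) ^ a * (2 : ℝ) ^ (-((l : ℝ) / (3 * H))) := by
  rw [← Real.rpow_add (by norm_num)]
  apply Real.rpow_le_rpow_of_exponent_le (by norm_num)
  have h1 : (l : ℝ) ≤ ((l - 1 - s : ℕ) : ℝ) + (s + 1) := by
    have : l ≤ (l - 1 - s) + (s + 1) := by omega
    exact_mod_cast this
  have h3 : (0 : ℝ) < 3 * H := by linarith
  have h2 : (l : ℝ) / (3 * H) ≤ ((l - 1 - s : ℕ) : ℝ) / (3 * H) + a := by
    rw [div_add' _ _ _ h3.ne', div_le_div_iff_of_pos_right h3]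
    linarith
  linarith

/-- asymptotic facts on the scales -/
private theorem d8_facts : ∀ n : ℕ, 100 ≤ n →
    b1 n ≤ i0 n / 2 ∧ i0 n / 2 ≤ bb n ∧ bb n ≤ n ^ 2 ∧ b1 n ≤ t0 n ∧ i0 n / 2 ≤ i0 n - i0 n / 2 ∧
    bb n ≤ 5 * (i0 n / 2) ∧ i0 n - i0 n / 2 ≤ 2 * bb n ∧ b1 n ≤ bb n ∧ b1 n ≤ n ∧
    (bb n : ℝ) ≤ (n : ℝ) ^ ((3 : ℝ) / 2) ∧ 0 < i0 n ∧ 0 < LL n := by
  intro n hn
  obtain ⟨⟨h1, h2⟩, -⟩ := i0_spec n
  have h3 : b1 n ≤ n := Nat.sqrt_le_self n
  have h4 : 10 ≤ b1 n := by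
    unfold b1
    exact Nat.le_sqrt.2 (by omega)
  have h5 : bb n = n * b1 n := rfl
  have h6 : 100 * b1 n ≤ bb n := by
    rw [h5]; exact Nat.mul_le_mul_right _ hn
  have h7 : bb n ≤ n ^ 2 := by
    rw [h5, pow_two]; exact Nat.mul_le_mul_left _ h3
  have h8 : t0 n = 4 * n ^ 2 := rfl
  have h9 : n ≤ n ^ 2 := by nlinarith
  have h10 : (bb n : ℝ) ≤ (n : ℝ) ^ ((3 : ℝ) / 2) := by
    have hn0 : (0 : ℝ) < n := by
      have : 0 < n := by omega
      exact_mod_cast this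
    have e : ((3 : ℝ) / 2) = 1 + 1 / 2 := by norm_num
    rw [h5, e, Real.rpow_add hn0, Real.rpow_one, ← Real.sqrt_eq_rpow]
    push_cast
    exact mul_le_mul_of_nonneg_left (Real.nat_sqrt_le_real_sqrt) hn0.le
  have h11 : 0 < LL n := by
    unfold LL
    apply Real.log_pos
    have : 1 < n := by omega
    exact_mod_cast this
  refine ⟨by omega, by omega, h7, by omega, by omega, by omega, by omega, by omega, h3, h10,
    by omega, h11⟩

/-- the product of the scales of the windows and of the first part -/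
private theorem d8_prod (n : ℕ) (hn : 100 ≤ n) (H : ℝ)
    (hH : H ≤ (n : ℝ) ^ ((9 : ℝ) / 4)) (m : ℝ) (hm : m ≤ 2 * H) :
    m * ((i0 n / 2 : ℕ) : ℝ) ≤ 2 * NN n := by
  obtain ⟨-, f2, -, -, -, -, -, -, -, f10, -, -⟩ := d8_facts n hn
  have hn0 : (0 : ℝ) < n := by
    have : 0 < n := by omega
    exact_mod_cast this
  have hn1 : (1 : ℝ) ≤ n := by
    have : 1 ≤ n := by omega
    exact_mod_cast this
  have h1 : ((i0 n / 2 : ℕ) : ℝ) ≤ (n : ℝ) ^ ((3 : ℝ) / 2) :=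
    le_trans (by exact_mod_cast f2) f10
  have h2 : m ≤ 2 * (n : ℝ) ^ ((9 : ℝ) / 4) := by linarith
  calc m * ((i0 n / 2 : ℕ) : ℝ) ≤ (2 * (n : ℝ) ^ ((9 : ℝ) / 4)) * (n : ℝ) ^ ((3 : ℝ) / 2) :=
        mul_le_mul h2 h1 (Nat.cast_nonneg _) (by positivity)
    _ = 2 * (n : ℝ) ^ ((9 : ℝ) / 4 + (3 : ℝ) / 2) := by
        rw [Real.rpow_add hn0]; ring
    _ ≤ 2 * (n : ℝ) ^ (4 : ℝ) := by
        apply mul_le_mul_of_nonneg_left _ (by norm_num)
        exact Real.rpow_le_rpow_of_exponent_le hn1 (by norm_num)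
    _ = 2 * NN n := by
        unfold NN
        rw [← Real.rpow_natCast]
        norm_num

/-- near part: meeting up to the time `i0 / 2 + t0` -/
private theorem d8_near : ∃ C : ℝ, 0 < C ∧ ∃ n0 : ℕ, ∀ (n : ℕ) [NeZero n], n0 ≤ n → ∀ x : V n,
    pr {ω | hit (act n) x ω (i0 n) (i0 n / 2 + t0 n) (st (seg (act n) x ω 0 (i0 n / 2)))} ≤
      C / LL n := by
  obtain ⟨C, hC, n0, h⟩ := lemU1
  refine ⟨5 * C, by positivity, max n0 100, ?_⟩
  intro n _ hn x
  have hn0 : n0 ≤ n := le_trans (le_max_left _ _) hn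
  have hn1 : 100 ≤ n := le_trans (le_max_right _ _) hn
  obtain ⟨f1, f2, f3, f4, f5, f6, f7, f8, f9, f10, f11, f12⟩ := d8_facts n hn1
  have h1 := h n hn0 (i0 n / 2) (i0 n - i0 n / 2) (t0 n) x f1 (by omega) (by omega) f4
  have hsub : {ω | hit (act n) x ω (i0 n) (i0 n / 2 + t0 n)
      (st (seg (act n) x ω 0 (i0 n / 2)))} ⊆
      {ω | ∃ i, i ≤ i0 n / 2 ∧ ∃ j, i0 n / 2 + (i0 n - i0 n / 2) ≤ j ∧
        j ≤ i0 n / 2 + (i0 n - i0 n / 2) + t0 n ∧ pos (act n) x ω i = pos (act n) x ω j} := by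
    rintro ω ⟨i, hi1, hi2, hi3⟩
    obtain ⟨a, -, ha, hpa⟩ := (mem_seg (act n) x ω 0 (i0 n / 2) _).1 hi3
    exact ⟨a, ha, i, by omega, by omega, hpa⟩
  refine (d8_pr_mono hsub).trans (h1.trans ?_)
  have hNN : 0 < NN n := by
    have : 0 < n := by omega
    have : (0 : ℝ) < n := by exact_mod_cast this
    unfold NN
    positivity
  have h2 : ((i0 n / 2 : ℕ) : ℝ) * (t0 n : ℕ) / NN n ≤ 4 := by
    rw [div_le_iff₀ hNN]
    have h3 : ((i0 n / 2 : ℕ) : ℝ) ≤ (n : ℝ) ^ 2 := by exact_mod_cast f2.trans f3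
    have h4 : ((t0 n : ℕ) : ℝ) = 4 * (n : ℝ) ^ 2 := by
      unfold t0; push_cast; ring
    rw [h4]
    unfold NN
    have h5 : (0 : ℝ) ≤ 4 * (n : ℝ) ^ 2 := by positivity
    nlinarith [mul_le_mul_of_nonneg_right h3 h5]
  have h3 : 0 ≤ C / LL n := by positivity
  calc C / LL n * (1 + ((i0 n / 2 : ℕ) : ℝ) * (t0 n : ℕ) / NN n) ≤ C / LL n * (1 + 4) :=
        mul_le_mul_of_nonneg_left (by linarith) h3
    _ = 5 * C / LL n := by ring

end d8aux

theorem d1 : ∃ C : ℝ, 0 < C ∧ ∃ n0 : ℕ, ∀ (n : ℕ) [NeZero n], n0 ≤ n →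
    ∀ (A : Set (V n)), A.Nonempty → ∀ H : ℝ, (n : ℝ) ^ 2 ≤ H → H ≤ (n : ℝ) ^ ((9 : ℝ) / 4) →
    (∀ x, Et n A x ≤ H) → ∀ (x : V n) (l : ℕ),
    pr {ω | l ≤ tau (act n) x ω A ∧
      hit (act n) x ω (i0 n) l (st (seg (act n) x ω 0 (i0 n / 2)))} ≤
      C / LL n * (1 + l / H) * (2 : ℝ) ^ (-((l : ℝ) / (3 * H))) := by
  obtain ⟨C1, hC1, n1, hN⟩ := d8_near
  obtain ⟨CU, hCU, n2, hU⟩ := lemU
  refine ⟨8 * C1 + 128 * CU, by positivity, max (max n1 n2) 100, ?_⟩
  intro n _ hn A hA H hH hH2 hE x l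
  have hn1 : n1 ≤ n := le_trans (le_trans (le_max_left _ _) (le_max_left _ _)) hn
  have hn2 : n2 ≤ n := le_trans (le_trans (le_max_right _ _) (le_max_left _ _)) hn
  have hn3 : 100 ≤ n := le_trans (le_max_right _ _) hn
  obtain ⟨f1, f2, f3, f4, f5, f6, f7, f8, f9, f10, f11, f12⟩ := d8_facts n hn3
  have := d8_mu_prob
  have hn1' : (1 : ℝ) ≤ n := by
    have : 1 ≤ n := by omega
    exact_mod_cast this
  have hH1 : 1 ≤ H := le_trans (one_le_pow₀ hn1') hH
  have hH0 : 0 < H := by linarith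
  have hNN : 0 < NN n := by
    unfold NN
    positivity
  obtain ⟨m, hm⟩ : ∃ m : ℕ, m = ⌈H⌉₊ := ⟨_, rfl⟩
  have hmH : H ≤ m := by rw [hm]; exact Nat.le_ceil H
  have hmH2 : (m : ℝ) ≤ 2 * H := by
    have := (Nat.ceil_lt_add_one hH0.le).le
    rw [← hm] at this
    linarith
  have hm0 : 0 < m := by
    rw [hm]; exact Nat.ceil_pos.2 hH0
  have hb1 : b1 n ≤ m := by
    have h2 : (n : ℝ) ≤ m := by
      have : (n : ℝ) ≤ (n : ℝ) ^ 2 := by nlinarith
      linarith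
    exact le_trans f9 (by exact_mod_cast h2)
  obtain ⟨j, hj⟩ : ∃ j, j = i0 n / 2 := ⟨_, rfl⟩
  have hj2 : (j : ℝ) ≤ (n : ℝ) ^ 2 := by
    rw [hj]; exact_mod_cast f2.trans f3
  have ht0 : ((t0 n : ℕ) : ℝ) = 4 * (n : ℝ) ^ 2 := by
    unfold t0; push_cast; ring
  have hI : ∫ ω, pm n m (st (seg (act n) x ω 0 j)) ∂(mu DD) ≤ 2 * CU / LL n := by
    refine (hU n hn2 m j x hb1 (by omega)).trans ?_
    have h1 : (m : ℝ) * j ≤ 2 * NN n := by
      rw [hj]; exact d8_prod n hn3 H hH2 m hmH2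
    rw [div_le_div_iff₀ (by positivity) f12]
    have h2 : 0 ≤ CU * LL n := by positivity
    nlinarith [mul_le_mul_of_nonneg_left h1 h2]
  have hI0 : 0 ≤ ∫ ω, pm n m (st (seg (act n) x ω 0 j)) ∂(mu DD) :=
    integral_nonneg fun ω => pm_nonneg n m _
  obtain ⟨I, hIdef⟩ : ∃ I : ℝ, I = ∫ ω, pm n m (st (seg (act n) x ω 0 j)) ∂(mu DD) := ⟨_, rfl⟩
  rw [← hIdef] at hI hI0
  obtain ⟨e, he⟩ : ∃ e : ℝ, e = (2 : ℝ) ^ (-((l : ℝ) / (3 * H))) := ⟨_, rfl⟩
  have he0 : 0 < e := by rw [he]; positivity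
  rw [← he]
  -- the windows
  have hw : ∀ q : ℕ, pr {ω | (¬ hit (act n) x ω 0 (j + q * m) A ∧
      hit (act n) x ω (j + q * m + t0 n) (j + q * m + t0 n + m) (st (seg (act n) x ω 0 j))) ∧
      l ≤ tau (act n) x ω A} ≤ 64 * I * e := by
    intro q
    have h1 := d8_window n A hA H hH1 hE x j m q
    rw [← hIdef] at h1
    have h2 := d8_surv n A hA H hH1 hE x (j + q * m + t0 n + m) l
      (fun ω => ¬ hit (act n) x ω 0 (j + q * m) A ∧
      hit (act n) x ω (j + q * m + t0 n) (j + q * m + t0 n + m) (st (seg (act n) x ω 0 j)))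
      (fun ω ω' h => by
        have h2 := d8_hit_congr x ω ω' 0 (j + q * m) A fun i hi => h i (by omega)
        have h3 := seg_congr (act n) x ω ω' 0 j fun i hi => h i (by omega)
        have h4 := d8_hit_congr x ω ω' (j + q * m + t0 n) (j + q * m + t0 n + m)
          (st (seg (act n) x ω 0 j)) fun i hi => h i hi
        rw [← h3]
        exact and_congr (not_congr h2) h4)
    have h3 := d8_exp H hH0 l (j + q * m + t0 n + m) (3 + ((q * m : ℕ) : ℝ) / (3 * H)) (by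
      rw [add_mul, div_mul_cancel₀ _ (by positivity)]
      push_cast
      rw [ht0]
      nlinarith)
    rw [← he, Real.rpow_add (by norm_num)] at h3
    have h4 : (2 : ℝ) ^ (3 : ℝ) = 8 := by norm_num
    rw [h4] at h3
    have h5 : (2 : ℝ) ^ (((q * m : ℕ) : ℝ) / (3 * H)) *
        (2 : ℝ) ^ (-(((q * m : ℕ) : ℝ) / (3 * H))) = 1 := by
      rw [← Real.rpow_add (by norm_num)]
      simp
    obtain ⟨a, ha⟩ : ∃ a : ℝ, a = (2 : ℝ) ^ (((q * m : ℕ) : ℝ) / (3 * H)) := ⟨_, rfl⟩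
    obtain ⟨b, hb⟩ : ∃ b : ℝ, b = (2 : ℝ) ^ (-(((q * m : ℕ) : ℝ) / (3 * H))) := ⟨_, rfl⟩
    rw [← ha] at h3 h5
    rw [← hb] at h1 h5
    have ha0 : 0 < a := by rw [ha]; positivity
    have hb0 : 0 < b := by rw [hb]; positivity
    refine h2.trans ?_
    calc _ ≤ (2 * (8 * a * e)) * (2 * ((2 * b) * I)) := by
          apply mul_le_mul _ h1 (d8_pr_nonneg _) (by positivity)
          linarith
      _ = 64 * I * e * (a * b) := by ring
      _ = 64 * I * e := by rw [h5, mul_one]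
  -- the near part
  have hnear : pr {ω | hit (act n) x ω (i0 n) (j + t0 n) (st (seg (act n) x ω 0 j)) ∧
      l ≤ tau (act n) x ω A} ≤ 8 * C1 / LL n * e := by
    have h1 := hN n hn1 x
    rw [← hj] at h1
    have h2 := d8_surv n A hA H hH1 hE x (j + t0 n) l
      (fun ω => hit (act n) x ω (i0 n) (j + t0 n) (st (seg (act n) x ω 0 j)))
      (fun ω ω' h => by
        have h3 := seg_congr (act n) x ω ω' 0 j fun i hi => h i (by omega)
        have h4 := d8_hit_congr x ω ω' (i0 n) (j + t0 n)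
          (st (seg (act n) x ω 0 j)) fun i hi => h i hi
        rw [← h3]
        exact h4)
    have h3 := d8_exp H hH0 l (j + t0 n) 2 (by
      push_cast
      rw [ht0]
      nlinarith)
    rw [← he] at h3
    have h4 : (2 : ℝ) ^ (2 : ℝ) = 4 := by norm_num
    rw [h4] at h3
    refine h2.trans ?_
    calc _ ≤ (2 * (4 * e)) * (C1 / LL n) := by
          apply mul_le_mul _ h1 (d8_pr_nonneg _) (by positivity)
          linarith
      _ = 8 * C1 / LL n * e := by ring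
  -- the union
  have hsub : {ω | l ≤ tau (act n) x ω A ∧
      hit (act n) x ω (i0 n) l (st (seg (act n) x ω 0 j))} ⊆
      {ω | hit (act n) x ω (i0 n) (j + t0 n) (st (seg (act n) x ω 0 j)) ∧
        l ≤ tau (act n) x ω A} ∪
      ⋃ q ∈ Finset.range (l / m + 1), {ω | (¬ hit (act n) x ω 0 (j + q * m) A ∧
        hit (act n) x ω (j + q * m + t0 n) (j + q * m + t0 n + m) (st (seg (act n) x ω 0 j))) ∧
        l ≤ tau (act n) x ω A} := by
    rintro ω ⟨hl, i, hi1, hi2, hi3⟩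
    by_cases hi4 : i ≤ j + t0 n
    · exact Or.inl ⟨⟨i, hi1, hi4, hi3⟩, hl⟩
    · right
      have hex : ∃ t, pos (act n) x ω t ∈ A := by
        by_contra hno
        have h0 : tau (act n) x ω A = 0 := by
          have : {t | pos (act n) x ω t ∈ A} = ∅ := by
            ext t
            exact ⟨fun ht => hno ⟨t, ht⟩, fun ht => ht.elim⟩
          unfold tau
          rw [this]
          exact Nat.sInf_empty
        omega
      obtain ⟨q, hq⟩ : ∃ q, q = (i - (j + t0 n)) / m := ⟨_, rfl⟩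
      have hdm := Nat.div_add_mod (i - (j + t0 n)) m
      have hml := Nat.mod_lt (i - (j + t0 n)) hm0
      have hql : q ≤ l / m := by
        rw [hq]
        exact Nat.div_le_div_right (by omega)
      rw [← hq] at hdm
      rw [Nat.mul_comm m q] at hdm
      have ht0' : 0 < t0 n := by
        unfold t0
        positivity
      refine Set.mem_biUnion (x := q) (by simp; omega) ⟨⟨?_, ?_⟩, hl⟩
      · have hlt : j + q * m < tau (act n) x ω A := by omega
        have hn' := (lt_tau_iff (act n) x ω A hex _).1 hlt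
        exact hn'
      · exact ⟨i, by omega, by omega, hi3⟩
  rw [← hj]
  refine (d8_pr_mono hsub).trans ((d8_pr_union_le _ _).trans ?_)
  have hfar := d8_pr_fin (fun q => {ω | (¬ hit (act n) x ω 0 (j + q * m) A ∧
        hit (act n) x ω (j + q * m + t0 n) (j + q * m + t0 n + m) (st (seg (act n) x ω 0 j))) ∧
        l ≤ tau (act n) x ω A}) (64 * I * e) (l / m + 1) hw
  have hQ : ((l / m + 1 : ℕ) : ℝ) ≤ 1 + l / H := by
    push_cast
    have h1 : ((l / m : ℕ) : ℝ) ≤ (l : ℝ) / m := Nat.cast_div_le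
    have h2 : (l : ℝ) / m ≤ l / H := div_le_div_of_nonneg_left (Nat.cast_nonneg _) hH0 hmH
    linarith
  have hl0 : (0 : ℝ) ≤ l / H := by positivity
  have hfar2 : ((l / m + 1 : ℕ) : ℝ) * (64 * I * e) ≤ (1 + l / H) * (128 * CU / LL n * e) := by
    apply mul_le_mul hQ _ (by positivity) (by positivity)
    have : 64 * I ≤ 128 * CU / LL n := by
      calc 64 * I ≤ 64 * (2 * CU / LL n) := by linarith
        _ = 128 * CU / LL n := by ring
    exact mul_le_mul_of_nonneg_right this he0.le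
  have hnear2 : 8 * C1 / LL n * e ≤ (1 + l / H) * (8 * C1 / LL n * e) := by
    have : 0 ≤ 8 * C1 / LL n * e := by positivity
    nlinarith
  calc _ ≤ 8 * C1 / LL n * e + ((l / m + 1 : ℕ) : ℝ) * (64 * I * e) := add_le_add hnear hfar
    _ ≤ (1 + l / H) * (8 * C1 / LL n * e) + (1 + l / H) * (128 * CU / LL n * e) :=
        add_le_add hnear2 hfar2
    _ = (8 * C1 + 128 * CU) / LL n * (1 + l / H) * e := by ring

theorem d2 : ∃ C : ℝ, 0 < C ∧ ∃ n0 : ℕ, ∀ (n : ℕ) [NeZero n], n0 ≤ n →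
    ∀ (A : Set (V n)), A.Nonempty → ∀ H : ℝ, (n : ℝ) ^ 2 ≤ H → H ≤ (n : ℝ) ^ ((9 : ℝ) / 4) →
    (∀ x, Et n A x ≤ H) → ∀ (x : V n),
    pr {ω | hit (act n) x ω (i0 n) (tau (act n) x ω A) (st (seg (act n) x ω 0 (i0 n / 2)))} ≤
      C / LL n := by
  obtain ⟨C1, hC1, n1, hN⟩ := d8_near
  obtain ⟨CU, hCU, n2, hU⟩ := lemU
  obtain ⟨r, hr⟩ : ∃ r : ℝ, r = (2 : ℝ) ^ (-(1 / 3 : ℝ)) := ⟨_, rfl⟩
  have hr0 : 0 < r := by rw [hr]; positivity
  have hr1 : r < 1 := by
    rw [hr]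
    exact Real.rpow_lt_one_of_one_lt_of_neg (by norm_num) (by norm_num)
  have hr2 : 0 < (1 - r)⁻¹ := inv_pos.2 (by linarith)
  refine ⟨C1 + 8 * CU * (1 - r)⁻¹, by positivity, max (max n1 n2) 100, ?_⟩
  intro n _ hn A hA H hH hH2 hE x
  have hn1 : n1 ≤ n := le_trans (le_trans (le_max_left _ _) (le_max_left _ _)) hn
  have hn2 : n2 ≤ n := le_trans (le_trans (le_max_right _ _) (le_max_left _ _)) hn
  have hn3 : 100 ≤ n := le_trans (le_max_right _ _) hn
  obtain ⟨f1, f2, f3, f4, f5, f6, f7, f8, f9, f10, f11, f12⟩ := d8_facts n hn3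
  have := d8_mu_prob
  have hn1' : (1 : ℝ) ≤ n := by
    have : 1 ≤ n := by omega
    exact_mod_cast this
  have hH1 : 1 ≤ H := le_trans (one_le_pow₀ hn1') hH
  have hH0 : 0 < H := by linarith
  have hNN : 0 < NN n := by
    unfold NN
    positivity
  obtain ⟨m, hm⟩ : ∃ m : ℕ, m = ⌈H⌉₊ := ⟨_, rfl⟩
  have hmH : H ≤ m := by rw [hm]; exact Nat.le_ceil H
  have hmH2 : (m : ℝ) ≤ 2 * H := by
    have := (Nat.ceil_lt_add_one hH0.le).le
    rw [← hm] at this
    linarith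
  have hm0 : 0 < m := by
    rw [hm]; exact Nat.ceil_pos.2 hH0
  have hb1 : b1 n ≤ m := by
    have h2 : (n : ℝ) ≤ m := by
      have : (n : ℝ) ≤ (n : ℝ) ^ 2 := by nlinarith
      linarith
    exact le_trans f9 (by exact_mod_cast h2)
  obtain ⟨j, hj⟩ : ∃ j, j = i0 n / 2 := ⟨_, rfl⟩
  have hI : ∫ ω, pm n m (st (seg (act n) x ω 0 j)) ∂(mu DD) ≤ 2 * CU / LL n := by
    refine (hU n hn2 m j x hb1 (by omega)).trans ?_
    have h1 : (m : ℝ) * j ≤ 2 * NN n := by
      rw [hj]; exact d8_prod n hn3 H hH2 m hmH2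
    rw [div_le_div_iff₀ (by positivity) f12]
    have h2 : 0 ≤ CU * LL n := by positivity
    nlinarith [mul_le_mul_of_nonneg_left h1 h2]
  have hI0 : 0 ≤ ∫ ω, pm n m (st (seg (act n) x ω 0 j)) ∂(mu DD) :=
    integral_nonneg fun ω => pm_nonneg n m _
  obtain ⟨I, hIdef⟩ : ∃ I : ℝ, I = ∫ ω, pm n m (st (seg (act n) x ω 0 j)) ∂(mu DD) := ⟨_, rfl⟩
  rw [← hIdef] at hI hI0
  set E : ℕ → Set (ℕ → DD) := fun q => {ω | ¬ hit (act n) x ω 0 (j + q * m) A ∧
      hit (act n) x ω (j + q * m + t0 n) (j + q * m + t0 n + m)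
        (st (seg (act n) x ω 0 j))} with hEdef
  have hw : ∀ q, pr (E q) ≤ (4 * I) * r ^ q := by
    intro q
    have h1 := d8_window n A hA H hH1 hE x j m q
    rw [← hIdef] at h1
    have h2 : (2 : ℝ) ^ (-(((q * m : ℕ) : ℝ) / (3 * H))) ≤ r ^ q := by
      rw [hr, ← Real.rpow_natCast, ← Real.rpow_mul (by norm_num)]
      apply Real.rpow_le_rpow_of_exponent_le (by norm_num)
      have h3 : (q : ℝ) / 3 ≤ ((q * m : ℕ) : ℝ) / (3 * H) := by
        rw [div_le_div_iff₀ (by norm_num) (by positivity)]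
        push_cast
        have : (q : ℝ) * H ≤ q * m := mul_le_mul_of_nonneg_left hmH (Nat.cast_nonneg q)
        linarith
      linarith
    calc pr (E q) ≤ 2 * ((2 * (2 : ℝ) ^ (-(((q * m : ℕ) : ℝ) / (3 * H)))) * I) := h1
      _ ≤ 2 * ((2 * r ^ q) * I) := by
          have := mul_le_mul_of_nonneg_right h2 hI0
          nlinarith
      _ = (4 * I) * r ^ q := by ring
  have hsub : {ω | hit (act n) x ω (i0 n) (tau (act n) x ω A)
      (st (seg (act n) x ω 0 j))} ⊆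
      {ω | hit (act n) x ω (i0 n) (j + t0 n) (st (seg (act n) x ω 0 j))} ∪ ⋃ q, E q := by
    rintro ω ⟨i, hi1, hi2, hi3⟩
    by_cases hi4 : i ≤ j + t0 n
    · exact Or.inl ⟨i, hi1, hi4, hi3⟩
    · right
      have hex : ∃ t, pos (act n) x ω t ∈ A := by
        by_contra hno
        have h0 : tau (act n) x ω A = 0 := by
          have : {t | pos (act n) x ω t ∈ A} = ∅ := by
            ext t
            exact ⟨fun ht => hno ⟨t, ht⟩, fun ht => ht.elim⟩
          unfold tau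
          rw [this]
          exact Nat.sInf_empty
        omega
      obtain ⟨q, hq⟩ : ∃ q, q = (i - (j + t0 n)) / m := ⟨_, rfl⟩
      have hdm := Nat.div_add_mod (i - (j + t0 n)) m
      have hml := Nat.mod_lt (i - (j + t0 n)) hm0
      rw [← hq] at hdm
      rw [Nat.mul_comm m q] at hdm
      have ht0' : 0 < t0 n := by
        unfold t0
        positivity
      refine Set.mem_iUnion.2 ⟨q, ?_, ?_⟩
      · have hlt : j + q * m < tau (act n) x ω A := by omega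
        have hn' := (lt_tau_iff (act n) x ω A hex _).1 hlt
        exact hn'
      · exact ⟨i, by omega, by omega, hi3⟩
  have hfin : pr (⋃ q, E q) ≤ (4 * I) * (1 - r)⁻¹ :=
    d8_pr_union E (4 * I) r (by positivity) hr0.le hr1 hw
  have h1 := hN n hn1 x
  rw [← hj] at h1 ⊢
  calc _ ≤ _ := d8_pr_mono hsub
    _ ≤ _ := d8_pr_union_le _ _
    _ ≤ C1 / LL n + (4 * I) * (1 - r)⁻¹ := add_le_add h1 hfin
    _ ≤ C1 / LL n + (4 * (2 * CU / LL n)) * (1 - r)⁻¹ := by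
        have := mul_le_mul_of_nonneg_right hI hr2.le
        linarith
    _ = (C1 + 8 * CU * (1 - r)⁻¹) / LL n := by ring

/-- one walk -/
theorem d3 : ∃ C : ℝ, 0 < C ∧ ∃ n0 : ℕ, ∀ (n : ℕ) [NeZero n], n0 ≤ n → ∀ x : V n,
    pr {ω | ∃ i, i < bb n ∧ ∃ j, bb n + i0 n / 2 ≤ j ∧ j ≤ bb n + i0 n ∧
      pos (act n) x ω i = pos (act n) x ω j} ≤ C / LL n := by
  obtain ⟨C, hC, n0, h⟩ := lemU1
  refine ⟨3 * C, by positivity, max n0 100, ?_⟩
  intro n _ hn x
  have hn0 : n0 ≤ n := le_trans (le_max_left _ _) hn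
  have hn1 : 100 ≤ n := le_trans (le_max_right _ _) hn
  obtain ⟨f1, f2, f3, f4, f5, f6, f7, f8, f9, f10, f11, f12⟩ := d8_facts n hn1
  have h1 := h n hn0 (bb n) (i0 n / 2) (i0 n - i0 n / 2) x f8 f6 f1 (by omega)
  have hsub : {ω | ∃ i, i < bb n ∧ ∃ j, bb n + i0 n / 2 ≤ j ∧ j ≤ bb n + i0 n ∧
      pos (act n) x ω i = pos (act n) x ω j} ⊆
      {ω | ∃ i, i ≤ bb n ∧ ∃ j, bb n + i0 n / 2 ≤ j ∧
        j ≤ bb n + i0 n / 2 + (i0 n - i0 n / 2) ∧ pos (act n) x ω i = pos (act n) x ω j} := by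
    rintro ω ⟨i, hi, j, hj1, hj2, hp⟩
    exact ⟨i, by omega, j, hj1, by omega, hp⟩
  refine (d8_pr_mono hsub).trans (h1.trans ?_)
  have hNN : 0 < NN n := by
    have : 0 < n := by omega
    have : (0 : ℝ) < n := by exact_mod_cast this
    unfold NN
    positivity
  have h2 : (bb n : ℝ) * ((i0 n - i0 n / 2 : ℕ) : ℝ) / NN n ≤ 2 := by
    rw [div_le_iff₀ hNN]
    have h3 : (bb n : ℝ) ≤ (n : ℝ) ^ 2 := by exact_mod_cast f3
    have h4 : ((i0 n - i0 n / 2 : ℕ) : ℝ) ≤ 2 * (n : ℝ) ^ 2 := by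
      have : i0 n - i0 n / 2 ≤ 2 * n ^ 2 := by omega
      exact_mod_cast this
    unfold NN
    calc (bb n : ℝ) * ((i0 n - i0 n / 2 : ℕ) : ℝ) ≤ (n : ℝ) ^ 2 * (2 * (n : ℝ) ^ 2) :=
          mul_le_mul h3 h4 (Nat.cast_nonneg _) (by positivity)
      _ = 2 * (n : ℝ) ^ 4 := by ring
  have h3 : 0 ≤ C / LL n := by positivity
  calc C / LL n * (1 + (bb n : ℝ) * ((i0 n - i0 n / 2 : ℕ) : ℝ) / NN n) ≤ C / LL n * (1 + 2) :=
        mul_le_mul_of_nonneg_left (by linarith) h3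
    _ = 3 * C / LL n := by ring

/-- two walks -/
theorem d3' : ∃ C : ℝ, 0 < C ∧ ∃ n0 : ℕ, ∀ (n : ℕ) [NeZero n], n0 ≤ n → ∀ x : V n,
    pr2 {ω | ∃ i, 1 ≤ i ∧ i ≤ bb n ∧ ∃ j, i0 n / 2 ≤ j ∧ j ≤ i0 n ∧
      pos (act n) x ω.1 i = pos (act n) x ω.2 j} ≤ C / LL n := by
  obtain ⟨C, hC, n0, h⟩ := lemU2
  refine ⟨3 * C, by positivity, max n0 100, ?_⟩
  intro n _ hn x
  have hn0 : n0 ≤ n := le_trans (le_max_left _ _) hn
  have hn1 : 100 ≤ n := le_trans (le_max_right _ _) hn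
  obtain ⟨f1, f2, f3, f4, f5, f6, f7, f8, f9, f10, f11, f12⟩ := d8_facts n hn1
  have h1 := h n hn0 (bb n) (i0 n / 2) (i0 n - i0 n / 2) x f8 f6 f1 (by omega)
  have hsub : {ω : (ℕ → DD) × (ℕ → DD) | ∃ i, 1 ≤ i ∧ i ≤ bb n ∧ ∃ j, i0 n / 2 ≤ j ∧ j ≤ i0 n ∧
      pos (act n) x ω.1 i = pos (act n) x ω.2 j} ⊆
      {ω | ∃ i, i ≤ bb n ∧ ∃ j, i0 n / 2 ≤ j ∧
        j ≤ i0 n / 2 + (i0 n - i0 n / 2) ∧ pos (act n) x ω.1 i = pos (act n) x ω.2 j} := by
    rintro ω ⟨i, hi0, hi, j, hj1, hj2, hp⟩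
    exact ⟨i, hi, j, hj1, by omega, hp⟩
  have := d8_mu_prob
  have hmono : pr2 {ω : (ℕ → DD) × (ℕ → DD) | ∃ i, 1 ≤ i ∧ i ≤ bb n ∧ ∃ j, i0 n / 2 ≤ j ∧
      j ≤ i0 n ∧ pos (act n) x ω.1 i = pos (act n) x ω.2 j} ≤
      pr2 {ω | ∃ i, i ≤ bb n ∧ ∃ j, i0 n / 2 ≤ j ∧
        j ≤ i0 n / 2 + (i0 n - i0 n / 2) ∧ pos (act n) x ω.1 i = pos (act n) x ω.2 j} :=
    measureReal_mono hsub (measure_ne_top _ _)
  refine hmono.trans (h1.trans ?_)
  have hNN : 0 < NN n := by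
    have : 0 < n := by omega
    have : (0 : ℝ) < n := by exact_mod_cast this
    unfold NN
    positivity
  have h2 : (bb n : ℝ) * ((i0 n - i0 n / 2 : ℕ) : ℝ) / NN n ≤ 2 := by
    rw [div_le_iff₀ hNN]
    have h3 : (bb n : ℝ) ≤ (n : ℝ) ^ 2 := by exact_mod_cast f3
    have h4 : ((i0 n - i0 n / 2 : ℕ) : ℝ) ≤ 2 * (n : ℝ) ^ 2 := by
      have : i0 n - i0 n / 2 ≤ 2 * n ^ 2 := by omega
      exact_mod_cast this
    unfold NN
    calc (bb n : ℝ) * ((i0 n - i0 n / 2 : ℕ) : ℝ) ≤ (n : ℝ) ^ 2 * (2 * (n : ℝ) ^ 2) :=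
          mul_le_mul h3 h4 (Nat.cast_nonneg _) (by positivity)
      _ = 2 * (n : ℝ) ^ 4 := by ring
  have h3 : 0 ≤ C / LL n := by positivity
  calc C / LL n * (1 + (bb n : ℝ) * ((i0 n - i0 n / 2 : ℕ) : ℝ) / NN n) ≤ C / LL n * (1 + 2) :=
        mul_le_mul_of_nonneg_left (by linarith) h3
    _ = 3 * C / LL n := by ring

end Pool.Agent.UST
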