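import Mathlib

/-! Uniform spanning tree of the four-dimensional torus: definitions.
Chains driven by iid uniform choices, loop erasure of lists, hitting functional, spanning trees. -/

namespace Pool.Agent.UST

open MeasureTheory

/-! ### General chains: `W` states, `D` choices, `act d x` = new state. -/

section gen

variable {W D : Type}

/-- Position at time `t` of the chain started at `x` with the choices `ω`. -/
def pos (act : D → W → W) (x : W) (ω : ℕ → D) : ℕ → W
  | 0 => x
  | t + 1 => act (ω t) (pos act x ω t)

/-- The list of the positions at the times `s, s+1, ..., t`. -/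
def seg (act : D → W → W) (x : W) (ω : ℕ → D) (s t : ℕ) : List W :=
  (List.range' s (t + 1 - s)).map (pos act x ω)

/-- The chain is in `B` at some time in `[s,t]`. -/
def hit (act : D → W → W) (x : W) (ω : ℕ → D) (s t : ℕ) (B : Set W) : Prop :=
  ∃ i, s ≤ i ∧ i ≤ t ∧ pos act x ω i ∈ B

/-- First hitting time of `A` (0 if `A` is never hit). -/
noncomputable def tau (act : D → W → W) (x : W) (ω : ℕ → D) (A : Set W) : ℕ :=
  sInf {t | pos act x ω t ∈ A}

/-- The shifted sequence of choices. -/
def sh (t : ℕ) (ω : ℕ → D) : ℕ → D := fun i => ω (t + i)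

/-- The set of the elements of a list. -/
def st (l : List W) : Set W := {y | y ∈ l}

/-- One step of loop erasure: append `y` to `γ` and erase the loop. -/
noncomputable def stepLE (γ : List W) (y : W) : List W :=
  open Classical in γ.takeWhile (fun z => decide (z ≠ y)) ++ [y]

/-- Loop erasure of `γ ++ l` if `γ` has no repetition. -/
noncomputable def leF (γ l : List W) : List W := l.foldl stepLE γ

/-- Loop erasure of a list. -/
noncomputable def le (l : List W) : List W := leF [] l

/-- The initial part of a list up to the first element in `S` (included). -/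
noncomputable def upto (S : Set W) (l : List W) : List W :=
  open Classical in
  l.takeWhile (fun z => decide (z ∉ S)) ++ (l.dropWhile (fun z => decide (z ∉ S))).take 1

/-- The part of a list from the first element in `S` on. -/
noncomputable def fromS (S : Set W) (l : List W) : List W :=
  open Classical in l.dropWhile (fun z => decide (z ∉ S))

/-- Loop-erased walk from `x` to `A`. -/
noncomputable def lerw (act : D → W → W) (x : W) (ω : ℕ → D) (A : Set W) : List W :=
  le (seg act x ω 0 (tau act x ω A))

/-- `A` can be reached from every state. -/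
def Reach (act : D → W → W) (A : Set W) : Prop := ∀ x, ∃ ω : ℕ → D, ∃ t, pos act x ω t ∈ A

/-- Choices of a direction at every state which lead to `A` from everywhere. -/
def FG (act : D → W → W) (A : Set W) : Set (W → D) :=
  {g | ∀ v, ∃ t, (fun v => act (g v) v)^[t] v ∈ A}

/-- The path from `v` to `A` along the directions `g`. -/
noncomputable def gpath (act : D → W → W) (g : W → D) (A : Set W) (v : W) : List W :=
  (List.range (sInf {t | (fun v => act (g v) v)^[t] v ∈ A} + 1)).map
    (fun i => (fun v => act (g v) v)^[i] v)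

/-- The directions after `t` steps of the root from `x`: at the vertices left by the walk the
last choice made there, elsewhere `g`. -/
noncomputable def gmv (act : D → W → W) (g : W → D) (x : W) (ω : ℕ → D) : ℕ → W → D
  | 0 => g
  | t + 1 => open Classical in Function.update (gmv act g x ω t) (pos act x ω t) (ω t)

end gen

/-- The product of the uniform measures: iid uniform choices in `D`. -/
noncomputable def mu (D : Type) [Fintype D] [Nonempty D] [MeasurableSpace D] :
    Measure (ℕ → D) :=
  Measure.infinitePi (fun _ : ℕ => (PMF.uniformOfFintype D).toMeasure)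

/-- Average over a finite type. -/
noncomputable def av {α : Type} [Fintype α] (f : α → ℝ) : ℝ := (∑ a, f a) / Fintype.card α

/-- Indicator of a proposition. -/
noncomputable def ind (P : Prop) : ℝ := open Classical in if P then 1 else 0

/-! ### The torus -/

/-- Vertices of the torus. -/
abbrev V (n : ℕ) : Type := Fin 4 → ZMod n

/-- The sixteen choices of the lazy walk: stay with probability 1/2. -/
abbrev DD : Type := Bool × Fin 4 × Bool

/-- The increment of a choice. -/
def inc (n : ℕ) (d : DD) : V n :=
  if d.1 then Pi.single d.2.1 (if d.2.2 then 1 else -1) else 0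

/-- The step of the lazy walk. -/
def act (n : ℕ) (d : DD) (x : V n) : V n := x + inc n d

/-- Probability of an event of one walk. -/
noncomputable def pr (s : Set (ℕ → DD)) : ℝ := (mu DD).real s

/-- Probability of an event of two independent walks. -/
noncomputable def pr2 (s : Set ((ℕ → DD) × (ℕ → DD))) : ℝ := ((mu DD).prod (mu DD)).real s

/-- Heat kernel. -/
noncomputable def hk (n t : ℕ) (x y : V n) : ℝ := pr {ω | pos (act n) x ω t = y}

/-- The hitting functional: probability that the stationary walk hits `B` in `[0,m]`. -/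
noncomputable def pm (n : ℕ) [NeZero n] (m : ℕ) (B : Set (V n)) : ℝ :=
  av (fun y : V n => pr {ω | hit (act n) y ω 0 m B})

/-- Mean hitting time of `A` from `x`. -/
noncomputable def Et (n : ℕ) (A : Set (V n)) (x : V n) : ℝ :=
  ∫ ω, (tau (act n) x ω A : ℝ) ∂(mu DD)

/-- Mean hitting time of `A` from the uniform law. -/
noncomputable def MA (n : ℕ) [NeZero n] (A : Set (V n)) : ℝ := av (fun x => Et n A x)

/-- Number of vertices. -/
noncomputable def NN (n : ℕ) : ℝ := (n : ℝ) ^ 4

/-- `log n`. -/
noncomputable def LL (n : ℕ) : ℝ := Real.log n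

/-- The macroscopic time scale. -/
noncomputable def kk (n : ℕ) : ℕ := ⌈(n : ℝ) ^ 2 * Real.sqrt (LL n)⌉₊

/-- The macroscopic length scale. -/
noncomputable def rr (n : ℕ) : ℝ := (n : ℝ) ^ 2 * LL n ^ ((1 : ℝ) / 6)

/-- The local scale `n^(3/2)`. -/
def bb (n : ℕ) : ℕ := n * Nat.sqrt n

/-- The small scale `n^(1/2)`. -/
def b1 (n : ℕ) : ℕ := Nat.sqrt n

/-- The mixing time. -/
def t0 (n : ℕ) : ℕ := 4 * n ^ 2

/-- The hitting functional on the macroscopic scale. -/
noncomputable def qq (n : ℕ) [NeZero n] (B : Set (V n)) : ℝ := pm n (2 * kk n) B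

/-- `M_t(γ)`: the path `γ` (ending at `x`) prolonged by the walk from `x` up to time `t`. -/
noncomputable def MM (n : ℕ) (γ : List (V n)) (x : V n) (ω : ℕ → DD) (t : ℕ) : List (V n) :=
  leF γ (seg (act n) x ω 1 t)

/-- `γ` is a list without repetition ending at `x`. -/
def Path1 {n : ℕ} (γ : List (V n)) (x : V n) : Prop := γ.Nodup ∧ γ.getLast? = some x

/-! ### Spanning trees -/

/-- The torus graph (as in the frozen statement). -/
def torus (n : ℕ) : SimpleGraph (V n) :=
  SimpleGraph.fromRel (fun x y : Fin 4 → ZMod n =>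
    ∃ i : Fin 4, (∀ j : Fin 4, j ≠ i → x j = y j) ∧ y i = x i + 1)

/-- Spanning trees of the torus. -/
def Tr (n : ℕ) : Type := {H : SimpleGraph (V n) // H ≤ torus n ∧ H.IsTree}

instance Tr.finite (n : ℕ) [NeZero n] : Finite (Tr n) := by
  unfold Tr
  infer_instance

noncomputable instance Tr.fintype (n : ℕ) [NeZero n] : Fintype (Tr n) := Fintype.ofFinite _

/-- The vertices of the tree path from `a` to `b`. -/
noncomputable def pth {n : ℕ} (T : Tr n) (a b : V n) : List (V n) :=
  (T.2.2.existsUnique_path a b).choose.support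

/-- Tree distance. -/
noncomputable def dst {n : ℕ} (T : Tr n) (a b : V n) : ℕ := (pth T a b).length - 1

/-- Number of vertices in the tree ball. -/
noncomputable def nb {n : ℕ} (T : Tr n) (x : V n) (ρ : ℕ) : ℕ := Set.ncard {y | dst T x y ≤ ρ}

/-- The subtree spanned by the points in the list `L`. -/
def spn {n : ℕ} (T : Tr n) (L : List (V n)) : Set (V n) :=
  {y | ∃ u ∈ L, y ∈ pth T u (L.headD 0)}

/-- The path from `u` to the subtree spanned by `L`. -/
noncomputable def brn {n : ℕ} (T : Tr n) (L : List (V n)) (u : V n) : List (V n) :=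
  upto (spn T L) (pth T u (L.headD 0))

/-- Average over the lists of `m` points. -/
noncomputable def avL {n : ℕ} [NeZero n] : (List (V n) → ℝ) → ℕ → ℝ
  | F, 0 => F []
  | F, m + 1 => av (fun v : V n => avL (fun L => F (v :: L)) m)

/-- Transition operator of the chain of sets: add a loop-erased walk from a uniform point. -/
noncomputable def kop (n : ℕ) [NeZero n] (Φ : Set (V n) → ℝ) (S : Set (V n)) : ℝ :=
  av (fun u : V n => ∫ ω, Φ (S ∪ st (lerw (act n) u ω S)) ∂(mu DD))

/-- The spanning tree after `t` steps of the root from `x` (see the module RootTree). -/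
noncomputable def mvT (n : ℕ) (T : Tr n) (x : V n) (ω : ℕ → DD) (t : ℕ) : Tr n :=
  open Classical in
  if h : ∃ T' : Tr n, ∀ w, pth T' w (pos (act n) x ω t) = MM n (pth T w x) x ω t then h.choose
  else T

/-! ### Auxiliary objects -/

/-- The increment of a choice in `ℤ^4`. -/
def incZ (d : DD) : Fin 4 → ℤ :=
  if d.1 then Pi.single d.2.1 (if d.2.2 then 1 else -1) else 0

/-- The walk in `ℤ^4`. -/
def zw (ω : ℕ → DD) (i : ℕ) : Fin 4 → ℤ := ∑ j ∈ Finset.range i, incZ (ω j)

/-- Square of the Euclidean norm. -/
def nsq (z : Fin 4 → ℤ) : ℝ := ∑ a, (z a : ℝ) ^ 2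

/-- The local intersection sum along the walk from 0. -/
noncomputable def ZZ (n : ℕ) (ω : ℕ → DD) : ℝ :=
  ∑ i ∈ Finset.range (b1 n + 1), ∑ j ∈ Finset.range (b1 n + 1), hk n j 0 (pos (act n) 0 ω i)

/-- Probability that a walk of length `bb n` misses the loop erasure of an independent walk of
length `i` from the same point. -/
noncomputable def aloc (n i : ℕ) : ℝ :=
  pr2 {ω | ¬ hit (act n) 0 ω.1 1 (bb n) (st (le (seg (act n) 0 ω.2 0 i)))}

/-- The length of the local loop-erased walk: a minimiser of `aloc n` in `[bb n / 2, 2 bb n]`. -/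
noncomputable def i0 (n : ℕ) : ℕ :=
  Classical.epsilon (fun i => (bb n ≤ 2 * i ∧ i ≤ 2 * bb n) ∧
    ∀ j, bb n ≤ 2 * j → j ≤ 2 * bb n → aloc n i ≤ aloc n j)

/-- The walk killed with probability `1/(b+1)` at every step (`none` = killed). -/
def kact (n b : ℕ) (d : DD × Fin (b + 1)) : Option (V n) → Option (V n)
  | none => none
  | some x => if d.2 = 0 then none else some (act n d.1 x)

/-- The small time scale of Lemma C3. -/
noncomputable def t3 (n : ℕ) : ℕ := ⌈(n : ℝ) ^ 2 / LL n ^ 4⌉₊

/-- Probability to hit `A` from `x` before the time `t3`. -/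
noncomputable def h3 (n : ℕ) (A : Set (V n)) (x : V n) : ℝ := pr {ω | hit (act n) x ω 0 (t3 n) A}

/-- The numbers of points of the levels of the skeleton. -/
noncomputable def Kl (C : ℝ) (i : ℕ) : ℕ := ⌈C * ((i : ℝ) + 1) * 4 ^ i⌉₊

/-- The list is cut in at most `R` short pieces with small hitting functional. -/
def Pieces (n : ℕ) [NeZero n] (R : ℕ) (h B ζ : ℝ) (l : List (V n)) : Prop :=
  ∃ c : List (List (V n)), c.flatten = l ∧ c.length ≤ R ∧
    ∀ p ∈ c, (p.length : ℝ) ≤ h * rr n ∧ pm n ⌈B * kk n⌉₊ (st p) ≤ ζ

/-- The vertices `v` whose tree path to `z` is short with small hitting functional. -/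
def NBs (n : ℕ) [NeZero n] (h B ζ : ℝ) (T : Tr n) (z : V n) : Set (V n) :=
  {v | ((pth T v z).length : ℝ) ≤ h * rr n ∧ pm n ⌈B * kk n⌉₊ (st (pth T v z)) ≤ ζ}

/-- Number of meetings of two walks in two windows of times. -/
noncomputable def meets (n : ℕ) (x y : V n) (j1 t i1 m : ℕ) (ω : (ℕ → DD) × (ℕ → DD)) : ℝ :=
  ∑ j ∈ Finset.Icc j1 (j1 + t), ∑ i ∈ Finset.Icc i1 (i1 + m),
    ind (pos (act n) x ω.1 j = pos (act n) y ω.2 i)

end Pool.Agent.UST
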