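import Pool.Agent.Helper54.UST.D8
import Pool.Agent.Helper54.UST.LE2
import Pool.Agent.Helper54.UST.PmBasic
import Pool.Agent.Helper54.UST.BaseTorus

/-! Paper Lemma F1 (decoupling). -/

namespace Pool.Agent.UST

open MeasureTheory

private theorem f1_mu_prob : IsProbabilityMeasure (mu DD) := by
  unfold mu
  infer_instance

private theorem f1_dep2 {α : Type} [MeasurableSpace α] (s t : ℕ)
    (f : (ℕ → DD) × (ℕ → DD) → α)
    (hf : ∀ p p' : (ℕ → DD) × (ℕ → DD), (∀ i, i < s → p.1 i = p'.1 i) →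
      (∀ i, i < t → p.2 i = p'.2 i) → f p = f p') : Measurable f := by
  let r : (ℕ → DD) × (ℕ → DD) → (Fin s → DD) × (Fin t → DD) :=
    fun p => (fun i => p.1 i, fun i => p.2 i)
  let e : (Fin s → DD) × (Fin t → DD) → (ℕ → DD) × (ℕ → DD) := fun q =>
    (fun i => if h : i < s then q.1 ⟨i, h⟩ else Classical.arbitrary DD,
      fun i => if h : i < t then q.2 ⟨i, h⟩ else Classical.arbitrary DD)
  have hr : Measurable r := by
    refine Measurable.prodMk ?_ ?_
    · exact measurable_pi_lambda _ fun i => (measurable_pi_apply _).comp measurable_fst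
    · exact measurable_pi_lambda _ fun i => (measurable_pi_apply _).comp measurable_snd
  have h : f = (fun q => f (e q)) ∘ r := by
    funext p
    refine hf _ _ (fun i hi => ?_) (fun i hi => ?_)
    · simp [e, r, hi]
    · simp [e, r, hi]
  rw [h]
  exact (measurable_of_finite _).comp hr

/-- the loop erasure of a walk depends only on the increments -/
private theorem f1_le_translate (n : ℕ) (z : V n) (ω : ℕ → DD) (i : ℕ) :
    le (seg (act n) z ω 0 i) = (le (seg (act n) 0 ω 0 i)).map (fun y => y + z) := by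
  have h1 : seg (act n) z ω 0 i = (seg (act n) 0 ω 0 i).map (fun y => y + z) := by
    unfold seg
    rw [List.map_map]
    refine List.map_congr_left fun j _ => ?_
    have := pos_translate n 0 z ω j
    rw [zero_add] at this
    exact this
  have h2 := bt_leF_map (fun y : V n => y + z) (add_left_injective z) (seg (act n) 0 ω 0 i) []
  unfold le
  rw [h1]
  exact h2

private theorem f1_pos_translate (n : ℕ) (z : V n) (ω : ℕ → DD) (i : ℕ) :
    pos (act n) z ω i = pos (act n) 0 ω i + z := by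
  have := pos_translate n 0 z ω i
  rwa [zero_add] at this

private theorem f1_pr2_mono {s t : Set ((ℕ → DD) × (ℕ → DD))} (h : s ⊆ t) : pr2 s ≤ pr2 t := by
  have := f1_mu_prob
  exact measureReal_mono h

private theorem f1_pr2_union (s t : Set ((ℕ → DD) × (ℕ → DD))) :
    pr2 (s ∪ t) ≤ pr2 s + pr2 t := by
  have := f1_mu_prob
  exact measureReal_union_le s t

private theorem f1_pr2_snd (s : Set (ℕ → DD)) : pr2 {ω | ω.2 ∈ s} = pr s := by
  have := f1_mu_prob
  have h : {ω : (ℕ → DD) × (ℕ → DD) | ω.2 ∈ s} = Set.univ ×ˢ s := by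
    ext ω
    simp
  unfold pr2 pr
  rw [h, measureReal_prod_prod]
  simp

private theorem f1_ind_iff (P : Prop) : P ↔ ind P = 1 := by
  by_cases h : P
  · simp only [h, true_iff]
    exact ind_true trivial
  · simp only [h, false_iff]
    rw [ind_false (fun h => h)]
    norm_num

/-- the main term -/
private theorem f1_main (n : ℕ) [NeZero n] (A : Set (V n)) (Bad : Set (V n)) (t i : ℕ) :
    av (fun z : V n => pr2 {ω | ¬ hit (act n) 0 ω.1 1 (bb n) (st (le (seg (act n) 0 ω.2 0 i))) ∧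
      (pos (act n) (pos (act n) z ω.2 i) (sh i ω.2)
        (tau (act n) (pos (act n) z ω.2 i) (sh i ω.2) A) ∈ Bad ∨
        t < tau (act n) (pos (act n) z ω.2 i) (sh i ω.2) A + i)}) =
    aloc n i * av (fun z : V n => pr {ω |
      pos (act n) z ω (tau (act n) z ω A) ∈ Bad ∨ t < tau (act n) z ω A + i}) := by
  have hP := f1_mu_prob
  set G : (ℕ → DD) → (ℕ → DD) → ℝ := fun ω1 ω2 =>
    ind (¬ hit (act n) 0 ω1 1 (bb n) (st (le (seg (act n) 0 ω2 0 i)))) with hG
  set F : V n → (ℕ → DD) → ℝ := fun x η =>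
    ind (pos (act n) x η (tau (act n) x η A) ∈ Bad ∨ t < tau (act n) x η A + i) with hF
  have hFm : ∀ x, Measurable (F x) := by
    intro x
    refine measurable_tau (act n) A x
      (fun s η => ind (pos (act n) x η s ∈ Bad ∨ t < s + i)) fun s ω ω' h => ?_
    rw [pos_congr (act n) x ω ω' s h]
  have hFb : ∀ x η, |F x η| ≤ 1 := by
    intro x η
    rw [abs_of_nonneg (ind_nonneg _)]
    exact ind_le_one _
  have hFset : ∀ x, MeasurableSet {η : ℕ → DD |
      pos (act n) x η (tau (act n) x η A) ∈ Bad ∨ t < tau (act n) x η A + i} := by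
    intro x
    have := measurable_tau (act n) A x
      (fun s η => pos (act n) x η s ∈ Bad ∨ t < s + i) fun s ω ω' h => by
        rw [pos_congr (act n) x ω ω' s h]
    exact measurableSet_setOfPred.mpr this
  have hGm : Measurable (fun p : (ℕ → DD) × (ℕ → DD) => G p.1 p.2) := by
    refine f1_dep2 (bb n) i _ fun p p' h1 h2 => ?_
    simp only [hG]
    have e1 : seg (act n) 0 p.2 0 i = seg (act n) 0 p'.2 0 i := seg_congr (act n) 0 _ _ 0 i h2
    have e2 : ∀ B : Set (V n), hit (act n) 0 p.1 1 (bb n) B ↔ hit (act n) 0 p'.1 1 (bb n) B := by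
      intro B
      unfold hit
      constructor
      · rintro ⟨j, a, b, c⟩
        refine ⟨j, a, b, ?_⟩
        rw [← pos_congr (act n) 0 p.1 p'.1 j fun k hk => h1 k (by omega)]
        exact c
      · rintro ⟨j, a, b, c⟩
        refine ⟨j, a, b, ?_⟩
        rw [pos_congr (act n) 0 p.1 p'.1 j fun k hk => h1 k (by omega)]
        exact c
    rw [e1, e2]
  have hGset : MeasurableSet {p : (ℕ → DD) × (ℕ → DD) |
      ¬ hit (act n) 0 p.1 1 (bb n) (st (le (seg (act n) 0 p.2 0 i)))} := by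
    have h1 : {p : (ℕ → DD) × (ℕ → DD) |
      ¬ hit (act n) 0 p.1 1 (bb n) (st (le (seg (act n) 0 p.2 0 i)))} =
        (fun p : (ℕ → DD) × (ℕ → DD) => G p.1 p.2) ⁻¹' {1} := by
      ext p
      simp only [Set.mem_ofPred_eq, Set.mem_preimage, Set.mem_singleton_iff, hG]
      exact f1_ind_iff _
    rw [h1]
    exact hGm (measurableSet_singleton 1)
  have hGb : ∀ ω1 ω2, |G ω1 ω2| ≤ 1 := by
    intro x η
    rw [abs_of_nonneg (ind_nonneg _)]
    exact ind_le_one _
  have hFshift : ∀ z : V n, Measurable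
      (fun ω : ℕ → DD => F (pos (act n) z ω i) (sh i ω)) := by
    intro z
    have h1 := (bt_meas n i z F hFm).comp (measurable_id.prodMk (measurable_sh (D := DD) i))
    exact h1
  have hjoint : ∀ z : V n, Measurable (fun p : (ℕ → DD) × (ℕ → DD) =>
      G p.1 p.2 * F (pos (act n) z p.2 i) (sh i p.2)) := by
    intro z
    exact hGm.mul ((hFshift z).comp measurable_snd)
  have hjb : ∀ z : V n, ∀ p : (ℕ → DD) × (ℕ → DD),
      |G p.1 p.2 * F (pos (act n) z p.2 i) (sh i p.2)| ≤ 1 := by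
    intro z p
    rw [abs_mul]
    exact mul_le_one₀ (hGb _ _) (abs_nonneg _) (hFb _ _)
  have hjint : ∀ z : V n, Integrable (fun p : (ℕ → DD) × (ℕ → DD) =>
      G p.1 p.2 * F (pos (act n) z p.2 i) (sh i p.2)) ((mu DD).prod (mu DD)) := by
    intro z
    refine Integrable.of_bound (hjoint z).aestronglyMeasurable 1 (Filter.Eventually.of_forall ?_)
    intro p
    rw [Real.norm_eq_abs]
    exact hjb z p
  have step1 : ∀ z : V n, pr2 {ω | ¬ hit (act n) 0 ω.1 1 (bb n)
        (st (le (seg (act n) 0 ω.2 0 i))) ∧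
      (pos (act n) (pos (act n) z ω.2 i) (sh i ω.2)
        (tau (act n) (pos (act n) z ω.2 i) (sh i ω.2) A) ∈ Bad ∨
        t < tau (act n) (pos (act n) z ω.2 i) (sh i ω.2) A + i)} =
      ∫ ω1, ∫ ω2, G ω1 ω2 * F (pos (act n) z ω2 i) (sh i ω2) ∂(mu DD) ∂(mu DD) := by
    intro z
    rw [← integral_prod _ (hjint z)]
    unfold pr2
    rw [← integral_ind]
    · refine integral_congr_ae (Filter.Eventually.of_forall fun p => ?_)
      simp only [hG, hF]
      rw [ind_and]
    · have h1 : MeasurableSet {p : (ℕ → DD) × (ℕ → DD) |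
          pos (act n) (pos (act n) z p.2 i) (sh i p.2)
            (tau (act n) (pos (act n) z p.2 i) (sh i p.2) A) ∈ Bad ∨
            t < tau (act n) (pos (act n) z p.2 i) (sh i p.2) A + i} := by
        have h2 : {p : (ℕ → DD) × (ℕ → DD) |
          pos (act n) (pos (act n) z p.2 i) (sh i p.2)
            (tau (act n) (pos (act n) z p.2 i) (sh i p.2) A) ∈ Bad ∨
            t < tau (act n) (pos (act n) z p.2 i) (sh i p.2) A + i} =
            (fun p : (ℕ → DD) × (ℕ → DD) => F (pos (act n) z p.2 i) (sh i p.2)) ⁻¹' {1} := by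
          ext p
          simp only [Set.mem_ofPred_eq, Set.mem_preimage, Set.mem_singleton_iff, hF]
          exact f1_ind_iff _
        rw [h2]
        exact ((hFshift z).comp measurable_snd) (measurableSet_singleton 1)
      exact hGset.inter h1
  have hinner : ∀ z : V n, Integrable (fun ω1 : ℕ → DD =>
      ∫ ω2, G ω1 ω2 * F (pos (act n) z ω2 i) (sh i ω2) ∂(mu DD)) (mu DD) :=
    fun z => (hjint z).integral_prod_left
  have hGint : Integrable (fun p : (ℕ → DD) × (ℕ → DD) => G p.1 p.2)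
      ((mu DD).prod (mu DD)) := by
    refine Integrable.of_bound hGm.aestronglyMeasurable 1 (Filter.Eventually.of_forall ?_)
    intro p
    rw [Real.norm_eq_abs]
    exact hGb _ _
  calc av (fun z : V n => pr2 {ω | ¬ hit (act n) 0 ω.1 1 (bb n)
        (st (le (seg (act n) 0 ω.2 0 i))) ∧
      (pos (act n) (pos (act n) z ω.2 i) (sh i ω.2)
        (tau (act n) (pos (act n) z ω.2 i) (sh i ω.2) A) ∈ Bad ∨
        t < tau (act n) (pos (act n) z ω.2 i) (sh i ω.2) A + i)})
      = av (fun z : V n => ∫ ω1, ∫ ω2, G ω1 ω2 * F (pos (act n) z ω2 i) (sh i ω2)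
          ∂(mu DD) ∂(mu DD)) := by
        simp only [step1]
    _ = ∫ ω1, av (fun z : V n => ∫ ω2, G ω1 ω2 * F (pos (act n) z ω2 i) (sh i ω2)
          ∂(mu DD)) ∂(mu DD) := av_integral _ _ hinner
    _ = ∫ ω1, (∫ ω2, G ω1 ω2 ∂(mu DD)) * av (fun x : V n => ∫ ω, F x ω ∂(mu DD)) ∂(mu DD) := by
        refine integral_congr_ae (Filter.Eventually.of_forall fun ω1 => ?_)
        refine stationary_indep n i (G ω1) ?_ F hFm 1 hFb
        intro ω ω' h
        simp only [hG]
        rw [seg_congr (act n) 0 ω ω' 0 i h]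
    _ = (∫ p, G p.1 p.2 ∂((mu DD).prod (mu DD))) *
          av (fun x : V n => ∫ ω, F x ω ∂(mu DD)) := by
        rw [integral_mul_const, integral_prod _ hGint]
    _ = _ := by
        congr 1
        · simp only [hG]
          rw [integral_ind _ _ hGset]
          rfl
        · congr 1
          funext x
          simp only [hF]
          rw [integral_ind _ _ (hFset x)]
          rfl

theorem f1 : ∃ C : ℝ, 0 < C ∧ ∃ n0 : ℕ, ∀ (n : ℕ) [NeZero n], n0 ≤ n →
    ∀ (A : Set (V n)), A.Nonempty → (∀ x, Et n A x ≤ (n : ℝ) ^ ((9 : ℝ) / 4)) →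
    ∀ (Bad : Set (V n)) (t : ℕ),
    av (fun z : V n => pr2 {ω | ¬ hit (act n) z ω.1 1 (bb n) (st (lerw (act n) z ω.2 A)) ∧
      (pos (act n) z ω.2 (tau (act n) z ω.2 A) ∈ Bad ∨ t < tau (act n) z ω.2 A)}) ≤
    aloc n (i0 n) * av (fun z : V n => pr {ω |
      pos (act n) z ω (tau (act n) z ω A) ∈ Bad ∨ t < tau (act n) z ω A + i0 n}) +
    C / LL n + pm n (i0 n) A := by
  obtain ⟨C2, hC2, n2, h2⟩ := d2
  obtain ⟨C3, hC3, n3, h3⟩ := d3'
  refine ⟨C2 + C3, by linarith, max n2 n3, ?_⟩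
  intro n _ hn A hA hEt Bad t
  have hP := f1_mu_prob
  have hn2 : n2 ≤ n := le_trans (le_max_left _ _) hn
  have hn3 : n3 ≤ n := le_trans (le_max_right _ _) hn
  have hn1 : (1 : ℝ) ≤ (n : ℝ) := by
    have : 1 ≤ n := Nat.one_le_iff_ne_zero.2 (NeZero.ne n)
    exact_mod_cast this
  have hH : (n : ℝ) ^ 2 ≤ (n : ℝ) ^ ((9 : ℝ) / 4) := by
    rw [← Real.rpow_natCast]
    exact Real.rpow_le_rpow_of_exponent_le hn1 (by norm_num)
  -- pointwise bound
  have key : ∀ z : V n,
      pr2 {ω | ¬ hit (act n) z ω.1 1 (bb n) (st (lerw (act n) z ω.2 A)) ∧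
        (pos (act n) z ω.2 (tau (act n) z ω.2 A) ∈ Bad ∨ t < tau (act n) z ω.2 A)} ≤
      pr2 {ω | ¬ hit (act n) 0 ω.1 1 (bb n) (st (le (seg (act n) 0 ω.2 0 (i0 n)))) ∧
        (pos (act n) (pos (act n) z ω.2 (i0 n)) (sh (i0 n) ω.2)
          (tau (act n) (pos (act n) z ω.2 (i0 n)) (sh (i0 n) ω.2) A) ∈ Bad ∨
          t < tau (act n) (pos (act n) z ω.2 (i0 n)) (sh (i0 n) ω.2) A + i0 n)} +
      (C2 + C3) / LL n + pr {ω | hit (act n) z ω 0 (i0 n) A} := by
    intro z
    have hsub : {ω : (ℕ → DD) × (ℕ → DD) |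
          ¬ hit (act n) z ω.1 1 (bb n) (st (lerw (act n) z ω.2 A)) ∧
        (pos (act n) z ω.2 (tau (act n) z ω.2 A) ∈ Bad ∨ t < tau (act n) z ω.2 A)} ⊆
      ({ω | ¬ hit (act n) 0 ω.1 1 (bb n) (st (le (seg (act n) 0 ω.2 0 (i0 n)))) ∧
        (pos (act n) (pos (act n) z ω.2 (i0 n)) (sh (i0 n) ω.2)
          (tau (act n) (pos (act n) z ω.2 (i0 n)) (sh (i0 n) ω.2) A) ∈ Bad ∨
          t < tau (act n) (pos (act n) z ω.2 (i0 n)) (sh (i0 n) ω.2) A + i0 n)} ∪
        (({ω | ω.2 ∈ {ω | hit (act n) z ω (i0 n) (tau (act n) z ω A)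
            (st (seg (act n) z ω 0 (i0 n / 2)))}} ∪
          {ω | ∃ i, 1 ≤ i ∧ i ≤ bb n ∧ ∃ j, i0 n / 2 ≤ j ∧ j ≤ i0 n ∧
            pos (act n) z ω.1 i = pos (act n) z ω.2 j}) ∪
          ({ω | ω.2 ∈ {ω | hit (act n) z ω 0 (i0 n) A}} ∪
            {ω | ω.2 ∈ {ω | ¬ ∃ s, pos (act n) z ω s ∈ A}}))) := by
      rintro ω ⟨hmiss, hB⟩
      by_cases h5 : ∃ s, pos (act n) z ω.2 s ∈ A
      swap
      · exact Or.inr (Or.inr (Or.inr h5))
      by_cases h4 : hit (act n) z ω.2 0 (i0 n) A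
      · exact Or.inr (Or.inr (Or.inl h4))
      have hlt : i0 n < tau (act n) z ω.2 A := (lt_tau_iff (act n) z ω.2 A h5 (i0 n)).2 h4
      set P : Set (V n) := {y | ∃ j, 1 ≤ j ∧ j ≤ bb n ∧ pos (act n) z ω.1 j = y} with hPdef
      have h81 := eight_one (act n) z ω.2 (i0 n) (tau (act n) z ω.2 A) hlt.le P (by
        rintro y ⟨j, hj1, hj2, rfl⟩ hy
        exact hmiss ⟨j, hj1, hj2, hy⟩)
      rcases h81 with h | h | h
      · left
        refine ⟨?_, ?_⟩
        · rintro ⟨j, hj1, hj2, hy⟩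
          apply h (pos (act n) z ω.1 j) ⟨j, hj1, hj2, rfl⟩
          rw [f1_le_translate, f1_pos_translate]
          exact List.mem_map_of_mem hy
        · have e1 := tau_shift (act n) z ω.2 A h5 (i0 n) hlt.le
          have e2 := pos_add (act n) z ω.2 (i0 n)
            (tau (act n) (pos (act n) z ω.2 (i0 n)) (sh (i0 n) ω.2) A)
          rw [← e1] at e2
          rcases hB with hB | hB
          · left
            rw [← e2]
            exact hB
          · right
            rw [e1] at hB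
            omega
      · exact Or.inr (Or.inl (Or.inl h))
      · right
        left
        right
        obtain ⟨y, ⟨j, hj1, hj2, hjy⟩, hy⟩ := h
        obtain ⟨k, hk1, hk2, hky⟩ := (mem_seg (act n) z ω.2 _ _ y).1 hy
        exact ⟨j, hj1, hj2, k, hk1, hk2, by rw [hjy, hky]⟩
    have b2 : pr {ω | hit (act n) z ω (i0 n) (tau (act n) z ω A)
        (st (seg (act n) z ω 0 (i0 n / 2)))} ≤ C2 / LL n :=
      h2 n hn2 A hA _ hH le_rfl hEt z
    have b3 : pr2 {ω | ∃ i, 1 ≤ i ∧ i ≤ bb n ∧ ∃ j, i0 n / 2 ≤ j ∧ j ≤ i0 n ∧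
        pos (act n) z ω.1 i = pos (act n) z ω.2 j} ≤ C3 / LL n := h3 n hn3 z
    have b5 : pr {ω | ¬ ∃ s, pos (act n) z ω s ∈ A} = 0 := by
      have h := ae_hit (act n) A (act_reach n A hA) z
      unfold pr
      rw [measureReal_def]
      have h' : (mu DD) {ω | ¬ ∃ s, pos (act n) z ω s ∈ A} = 0 := h
      rw [h']
      rfl
    refine (f1_pr2_mono hsub).trans ?_
    refine (f1_pr2_union _ _).trans ?_
    have u1 := f1_pr2_union ({ω : (ℕ → DD) × (ℕ → DD) | ω.2 ∈ {ω | hit (act n) z ω (i0 n)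
            (tau (act n) z ω A) (st (seg (act n) z ω 0 (i0 n / 2)))}} ∪
          {ω | ∃ i, 1 ≤ i ∧ i ≤ bb n ∧ ∃ j, i0 n / 2 ≤ j ∧ j ≤ i0 n ∧
            pos (act n) z ω.1 i = pos (act n) z ω.2 j})
          ({ω : (ℕ → DD) × (ℕ → DD) | ω.2 ∈ {ω | hit (act n) z ω 0 (i0 n) A}} ∪
            {ω | ω.2 ∈ {ω | ¬ ∃ s, pos (act n) z ω s ∈ A}})
    have u2 := f1_pr2_union {ω : (ℕ → DD) × (ℕ → DD) | ω.2 ∈ {ω | hit (act n) z ω (i0 n)
            (tau (act n) z ω A) (st (seg (act n) z ω 0 (i0 n / 2)))}}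
          {ω | ∃ i, 1 ≤ i ∧ i ≤ bb n ∧ ∃ j, i0 n / 2 ≤ j ∧ j ≤ i0 n ∧
            pos (act n) z ω.1 i = pos (act n) z ω.2 j}
    have u3 := f1_pr2_union {ω : (ℕ → DD) × (ℕ → DD) | ω.2 ∈ {ω | hit (act n) z ω 0 (i0 n) A}}
            {ω | ω.2 ∈ {ω | ¬ ∃ s, pos (act n) z ω s ∈ A}}
    rw [f1_pr2_snd] at u2
    rw [f1_pr2_snd, f1_pr2_snd] at u3
    rw [add_div]
    linarith
  refine (av_mono key).trans ?_
  rw [av_add, av_add, av_const, f1_main n A Bad t (i0 n)]
  exact le_rfl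

end Pool.Agent.UST
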