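import Pool.Agent.Helper54.UST.OnePt
import Pool.Agent.Helper54.UST.BaseHit
import Pool.Agent.Helper54.UST.LE1

namespace Pool.Agent.UST

open MeasureTheory

section onepttime
variable {W D : Type} [Finite W] [Fintype D] [Nonempty D] [MeasurableSpace D]
  [MeasurableSingletonClass D] (act : D → W → W)

open Classical in
/-- the integrand with two walks -/
noncomputable def optG (A : Set W) (w y : W) (Φ : ℕ → (ℕ → D) → List W → ENNReal) (t : ℕ)
    (ω : ℕ → D) (l : List W) : ENNReal :=
  if pos act w ω t = y ∧ ∀ j, j < t → pos act w ω j ∉ A ∪ st l then Φ t ω l else 0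

omit [Finite W] [Fintype D] [Nonempty D] [MeasurableSpace D] [MeasurableSingletonClass D] in
lemma optG_dep (A : Set W) (w y : W) (Φ : ℕ → (ℕ → D) → List W → ENNReal)
    (hΦ : ∀ s ω ω' l, (∀ i, i < s → ω i = ω' i) → Φ s ω l = Φ s ω' l) (t : ℕ)
    (ω ω' : ℕ → D) (l : List W) (h : ∀ i, i < t → ω i = ω' i) :
    optG act A w y Φ t ω l = optG act A w y Φ t ω' l := by
  have h1 : ∀ j, j ≤ t → pos act w ω j = pos act w ω' j := fun j hj =>
    pos_congr act w ω ω' j fun i hi => h i (hi.trans_le hj)
  have h2 : (pos act w ω t = y ∧ ∀ j, j < t → pos act w ω j ∉ A ∪ st l) ↔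
      (pos act w ω' t = y ∧ ∀ j, j < t → pos act w ω' j ∉ A ∪ st l) := by
    rw [h1 t le_rfl]
    refine and_congr_right fun _ => forall_congr' fun j => imp_congr_right fun hj => ?_
    rw [h1 j hj.le]
  unfold optG
  rw [hΦ t ω ω' l h]
  by_cases h3 : (pos act w ω t = y ∧ ∀ j, j < t → pos act w ω j ∉ A ∪ st l)
  · rw [if_pos h3, if_pos (h2.mp h3)]
  · rw [if_neg h3, if_neg (fun h4 => h3 (h2.mpr h4))]

lemma optG_meas (A : Set W) (w y : W) (Φ : ℕ → (ℕ → D) → List W → ENNReal)
    (hΦ : ∀ s ω ω' l, (∀ i, i < s → ω i = ω' i) → Φ s ω l = Φ s ω' l) (t : ℕ) :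
    Measurable (Function.uncurry fun (ω η : ℕ → D) => optG act A w y Φ t ω (lerw act y η A)) := by
  let _ : MeasurableSpace (List W) := ⊤
  have : DiscreteMeasurableSpace (List W) := ⟨fun _ => trivial⟩
  have h1 : Measurable (fun p : (ℕ → D) × List W => optG act A w y Φ t p.1 p.2) := by
    refine measurable_from_prod_countable_left fun l => ?_
    exact measurable_dep t _ fun ω ω' h => optG_dep act A w y Φ hΦ t ω ω' l h
  have h2 : Measurable (fun η : ℕ → D => lerw act y η A) :=
    measurable_tau act A y (fun t η => le (seg act y η 0 t)) fun t ω ω' h => by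
      rw [seg_congr act y ω ω' 0 t h]
  exact h1.comp (measurable_fst.prodMk (h2.comp measurable_snd))

omit [Finite W] [Fintype D] [Nonempty D] [MeasurableSpace D] [MeasurableSingletonClass D] in
open Classical in
lemma optG_pt1 [Fintype W] (A : Set W) (w : W) (Φ : ℕ → (ℕ → D) → List W → ENNReal) (t : ℕ)
    (ω : ℕ → D) (h : ∃ s, pos act w ω s ∈ A) :
    (if t ≤ tau act w ω A ∧
        (∀ j, j < t → pos act w ω j ∉ le (seg act w ω t (tau act w ω A))) then
      Φ t ω (le (seg act w ω t (tau act w ω A))) else 0)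
      = ∑ y, optG act A w y Φ t ω (lerw act y (sh t ω) A) := by
  obtain ⟨hs1, hs2⟩ := tau_spec act w ω A h
  rw [Finset.sum_eq_single (pos act w ω t)]
  rotate_left
  · intro y _ hy
    unfold optG
    rw [if_neg]
    rintro ⟨h1, _⟩
    exact hy h1.symm
  · intro hh; exact absurd (Finset.mem_univ _) hh
  by_cases ht : t ≤ tau act w ω A
  · have e1 := tau_shift act w ω A h t ht
    have e2 : le (seg act w ω t (tau act w ω A)) = lerw act (pos act w ω t) (sh t ω) A := by
      have e3 := seg_shift act w ω t 0 (tau act (pos act w ω t) (sh t ω) A)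
      rw [add_zero] at e3
      rw [e1, e3]
      rfl
    rw [e2]
    unfold optG
    by_cases hc : ∀ j, j < t → pos act w ω j ∉ lerw act (pos act w ω t) (sh t ω) A
    · rw [if_pos ⟨ht, hc⟩, if_pos]
      refine ⟨rfl, fun j hj => ?_⟩
      rintro (h3 | h3)
      · exact hs2 j (hj.trans_le ht) h3
      · exact hc j hj h3
    · rw [if_neg (fun h3 => hc h3.2), if_neg]
      rintro ⟨_, h3⟩
      exact hc fun j hj h4 => h3 j hj (Or.inr h4)
  · rw [if_neg (fun h3 => ht h3.1)]
    unfold optG
    rw [if_neg]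
    rintro ⟨_, h3⟩
    exact h3 _ (not_le.mp ht) (Or.inl hs1)

omit [Finite W] [Fintype D] [Nonempty D] [MeasurableSpace D] [MeasurableSingletonClass D] in
open Classical in
lemma optG_pt2 (A : Set W) (w y : W) (Φ : ℕ → (ℕ → D) → List W → ENNReal)
    (ω : ℕ → D) (l : List W) (hl : y ∈ l) (h : ∃ s, pos act w ω s ∈ A) :
    ∑' t, optG act A w y Φ t ω l
      = if pos act w ω (tau act w ω (A ∪ st l)) = y then Φ (tau act w ω (A ∪ st l)) ω l else 0 := by
  have h' : ∃ s, pos act w ω s ∈ A ∪ st l := by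
    obtain ⟨s, hs⟩ := h
    exact ⟨s, Or.inl hs⟩
  obtain ⟨hs1, hs2⟩ := tau_spec act w ω (A ∪ st l) h'
  rw [tsum_eq_single (tau act w ω (A ∪ st l))]
  · unfold optG
    by_cases hy : pos act w ω (tau act w ω (A ∪ st l)) = y
    · rw [if_pos ⟨hy, hs2⟩, if_pos hy]
    · rw [if_neg (fun h3 => hy h3.1), if_neg hy]
  · intro t ht
    unfold optG
    rw [if_neg]
    rintro ⟨h1, h2⟩
    apply ht
    refine le_antisymm ?_ ?_
    · by_contra hlt
      exact h2 _ (not_le.mp hlt) hs1
    · by_contra hlt
      refine hs2 t (not_le.mp hlt) (Or.inr ?_)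
      rw [h1]
      exact hl

omit [Finite W] [Fintype D] [Nonempty D] [MeasurableSpace D] [MeasurableSingletonClass D] in
lemma opt_mem_lerw (A : Set W) (y : W) (η : ℕ → D) : y ∈ lerw act y η A := by
  have h1 : seg act y η 0 (tau act y η A)
      = y :: (List.range' 1 (tau act y η A)).map (pos act y η) := by
    unfold seg
    rw [Nat.sub_zero, List.range'_succ, List.map_cons]
    rfl
  have h2 := le_head (x := y) ((List.range' 1 (tau act y η A)).map (pos act y η))
  unfold lerw
  rw [h1]
  exact List.mem_of_mem_head? h2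

open Classical in
/-- the two walk form and the one walk form -/
theorem onept_gen [Fintype W] (A : Set W) (hA : Reach act A) (w : W)
    (Φ : ℕ → (ℕ → D) → List W → ENNReal)
    (hΦ : ∀ s ω ω' l, (∀ i, i < s → ω i = ω' i) → Φ s ω l = Φ s ω' l) :
    ∑ y, ∫⁻ η, ∫⁻ ω, (if pos act w ω (tau act w ω (A ∪ st (lerw act y η A))) = y then
        Φ (tau act w ω (A ∪ st (lerw act y η A))) ω (lerw act y η A) else 0) ∂(mu D) ∂(mu D)
      = ∑' t : ℕ, ∫⁻ ω, (if t ≤ tau act w ω A ∧
            (∀ j, j < t → pos act w ω j ∉ le (seg act w ω t (tau act w ω A))) then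
          Φ t ω (le (seg act w ω t (tau act w ω A))) else 0) ∂(mu D) := by
  have hae := ae_hit act A hA w
  have hm := fun y t => optG_meas act A w y Φ hΦ t
  have e1 : ∀ t : ℕ, ∫⁻ ω, (if t ≤ tau act w ω A ∧
            (∀ j, j < t → pos act w ω j ∉ le (seg act w ω t (tau act w ω A))) then
          Φ t ω (le (seg act w ω t (tau act w ω A))) else 0) ∂(mu D)
      = ∑ y, ∫⁻ η, ∫⁻ ω, optG act A w y Φ t ω (lerw act y η A) ∂(mu D) ∂(mu D) := by
    intro t
    have e2 : ∫⁻ ω, (if t ≤ tau act w ω A ∧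
            (∀ j, j < t → pos act w ω j ∉ le (seg act w ω t (tau act w ω A))) then
          Φ t ω (le (seg act w ω t (tau act w ω A))) else 0) ∂(mu D)
        = ∫⁻ ω, ∑ y, optG act A w y Φ t ω (lerw act y (sh t ω) A) ∂(mu D) := by
      refine lintegral_congr_ae ?_
      filter_upwards [hae] with ω hω
      exact optG_pt1 act A w Φ t ω hω
    rw [e2, lintegral_finsetSum _ fun y _ => ?_]
    · refine Finset.sum_congr rfl fun y _ => ?_
      rw [markov_lint t (fun ω η => optG act A w y Φ t ω (lerw act y η A)) (hm y t)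
        (fun ω ω' η h => optG_dep act A w y Φ hΦ t ω ω' _ h)]
      exact lintegral_lintegral_swap (hm y t).aemeasurable
    · exact (hm y t).comp (measurable_id.prodMk (measurable_sh t))
  rw [tsum_congr e1, Summable.tsum_finsetSum fun _ _ => ENNReal.summable]
  refine Finset.sum_congr rfl fun y _ => ?_
  have hm2 : ∀ t, Measurable (fun η => ∫⁻ ω, optG act A w y Φ t ω (lerw act y η A) ∂(mu D)) :=
    fun t => ((hm y t).comp measurable_swap).lintegral_prod_right'
  rw [← lintegral_tsum fun t => (hm2 t).aemeasurable]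
  refine lintegral_congr fun η => ?_
  have hm3 : ∀ t, Measurable (fun ω => optG act A w y Φ t ω (lerw act y η A)) := fun t =>
    measurable_dep t _ fun ω ω' h => optG_dep act A w y Φ hΦ t ω ω' _ h
  rw [← lintegral_tsum fun t => (hm3 t).aemeasurable]
  refine lintegral_congr_ae ?_
  filter_upwards [hae] with ω hω
  exact (optG_pt2 act A w y Φ ω _ (opt_mem_lerw act A y η) hω).symm

/-- (*) with the time `t` of the splitting point -/
theorem onept_time (A : Set W) (hA : Reach act A) (w : W) (F : List W → List W → ENNReal) :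
    ∫⁻ ω, ∑ i ∈ Finset.range (lerw act w ω A).length,
        F ((lerw act w ω A).take (i + 1)) ((lerw act w ω A).drop i) ∂(mu D) =
      ∑' t : ℕ, ∫⁻ ω, (open Classical in
        if t ≤ tau act w ω A ∧
            (∀ j, j < t → pos act w ω j ∉ le (seg act w ω t (tau act w ω A))) then
          F (le (seg act w ω 0 t)) (le (seg act w ω t (tau act w ω A))) else 0) ∂(mu D) := by
  let _ : Fintype W := Fintype.ofFinite W
  rw [onept_int act A hA w F]
  exact onept_gen act A hA w (fun t ω l => F (le (seg act w ω 0 t)) l) fun s ω ω' l h => by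
    rw [seg_congr act w ω ω' 0 s h]

end onepttime

end Pool.Agent.UST
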