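import Pool.Agent.Helper54.UST.D8
import Pool.Agent.Helper54.UST.AlocB
import Pool.Agent.Helper54.UST.LE2
import Pool.Agent.Helper54.UST.Asy
import Pool.Agent.Helper54.UST.OnePtTime

/-! Auxiliary estimates for the paper Lemma F2. -/

namespace Pool.Agent.UST

open MeasureTheory

section f2aux

variable (n : ℕ) [NeZero n]

theorem f2_hit_congr {n : ℕ} (x : V n) (ω ω' : ℕ → DD) (s t : ℕ) (B : Set (V n))
    (h : ∀ i, i < t → ω i = ω' i) : hit (act n) x ω s t B ↔ hit (act n) x ω' s t B := by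
  constructor
  · rintro ⟨i, h1, h2, h3⟩
    refine ⟨i, h1, h2, ?_⟩
    rwa [← pos_congr (act n) x ω ω' i fun k hk => h k (by omega)]
  · rintro ⟨i, h1, h2, h3⟩
    refine ⟨i, h1, h2, ?_⟩
    rwa [pos_congr (act n) x ω ω' i fun k hk => h k (by omega)]

theorem f2_meas_dep (t : ℕ) (P : (ℕ → DD) → Prop)
    (h : ∀ ω ω' : ℕ → DD, (∀ i, i < t → ω i = ω' i) → (P ω ↔ P ω')) :
    MeasurableSet {ω | P ω} :=
  measurableSet_setOfPred.2 (measurable_dep t P fun ω ω' h' => propext (h ω ω' h'))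

/-- measurability of events of two walks -/
theorem f2_meas (L : (ℕ → DD) → List (V n))
    (hL : ∀ l, MeasurableSet {η | L η = l}) (P : (ℕ → DD) → List (V n) → Prop)
    (hP : ∀ l, MeasurableSet {ξ | P ξ l}) :
    MeasurableSet {ω : (ℕ → DD) × (ℕ → DD) | P ω.1 (L ω.2)} := by
  have h1 : {ω : (ℕ → DD) × (ℕ → DD) | P ω.1 (L ω.2)} =
      ⋃ l : List (V n), ({ξ | P ξ l} ×ˢ {η | L η = l}) := by
    ext ω
    simp only [Set.mem_ofPred_eq, Set.mem_iUnion, Set.mem_prod]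
    constructor
    · intro h
      exact ⟨L ω.2, h, rfl⟩
    · rintro ⟨l, h2, h3⟩
      rw [h3]
      exact h2
  rw [h1]
  exact MeasurableSet.iUnion fun l => (hP l).prod (hL l)

/-- sections -/
theorem f2_sect (E : Set ((ℕ → DD) × (ℕ → DD))) (hE : MeasurableSet E) :
    ∫ η, pr {ξ | (ξ, η) ∈ E} ∂(mu DD) = pr2 E := by
  unfold pr pr2 Measure.real
  rw [Measure.prod_apply_symm hE, integral_toReal]
  · rfl
  · exact (measurable_measure_prodMk_right hE).aemeasurable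
  · exact Filter.Eventually.of_forall fun η => measure_lt_top _ _

theorem f2_sect_lint (E : Set ((ℕ → DD) × (ℕ → DD))) (hE : MeasurableSet E) :
    ((mu DD).prod (mu DD)) E = ∫⁻ η, ENNReal.ofReal (pr {ξ | (ξ, η) ∈ E}) ∂(mu DD) := by
  rw [Measure.prod_apply_symm hE]
  refine lintegral_congr fun η => ?_
  unfold pr Measure.real
  rw [ENNReal.ofReal_toReal (measure_ne_top _ _)]
  rfl

/-- the probability that the walk misses the list -/
noncomputable def f2f (z : V n) (l : List (V n)) : ℝ :=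
  pr {ξ | ¬ hit (act n) z ξ 1 (bb n) (st l)}

omit [NeZero n] in
theorem f2f_nonneg (z : V n) (l : List (V n)) : 0 ≤ f2f n z l := measureReal_nonneg

omit [NeZero n] in
theorem f2f_le_one (z : V n) (l : List (V n)) : f2f n z l ≤ 1 := measureReal_le_one

omit [NeZero n] in
theorem f2f_anti (z : V n) (l l' : List (V n)) (h : ∀ y ∈ l, y ∈ l') :
    f2f n z l' ≤ f2f n z l := by
  unfold f2f pr
  refine measureReal_mono ?_
  intro ξ hξ
  simp only [Set.mem_ofPred_eq] at hξ ⊢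
  rintro ⟨i, h1, h2, h3⟩
  exact hξ ⟨i, h1, h2, h _ h3⟩

theorem f2f_int (z : V n) (i : ℕ) :
    ∫ η, f2f n z (le (seg (act n) z η 0 i)) ∂(mu DD) = aloc n i := by
  rw [← aloc_two n i z, ← f2_sect]
  · rfl
  · refine f2_meas n (fun η => le (seg (act n) z η 0 i)) ?_
      (fun ξ l => ¬ hit (act n) z ξ 1 (bb n) (st l)) ?_
    · intro l
      refine f2_meas_dep i _ fun ω ω' h => ?_
      rw [seg_congr (act n) z ω ω' 0 i h]
    · intro l
      refine f2_meas_dep (bb n) _ fun ω ω' h => ?_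
      exact not_congr (f2_hit_congr z ω ω' 1 (bb n) _ h)

/-- the probability that the walk meets a list -/
noncomputable def f2g (z : V n) (ω : ℕ → DD) : ℝ :=
  pr {ξ | ∃ i, 1 ≤ i ∧ i ≤ bb n ∧ ∃ j, i0 n / 2 ≤ j ∧ j ≤ i0 n ∧
      pos (act n) z ξ i = pos (act n) z ω j}

omit [NeZero n] in
theorem f2g_dep (z : V n) (ω ω' : ℕ → DD) (h : ∀ i, i < i0 n → ω i = ω' i) :
    f2g n z ω = f2g n z ω' := by
  unfold f2g
  congr 1
  ext ξ
  simp only [Set.mem_ofPred_eq]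
  refine exists_congr fun i => and_congr_right fun _ => and_congr_right fun _ =>
    exists_congr fun j => and_congr_right fun _ => and_congr_right fun hj => ?_
  rw [pos_congr (act n) z ω ω' j fun k hk => h k (by omega)]

theorem f2g_int (z : V n) : ∫ η, f2g n z η ∂(mu DD) =
    pr2 {ω | ∃ i, 1 ≤ i ∧ i ≤ bb n ∧ ∃ j, i0 n / 2 ≤ j ∧ j ≤ i0 n ∧
      pos (act n) z ω.1 i = pos (act n) z ω.2 j} := by
  rw [← f2_sect]
  · rfl
  · have h1 : {ω : (ℕ → DD) × (ℕ → DD) | ∃ i, 1 ≤ i ∧ i ≤ bb n ∧ ∃ j, i0 n / 2 ≤ j ∧ j ≤ i0 n ∧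
        pos (act n) z ω.1 i = pos (act n) z ω.2 j} =
        {ω : (ℕ → DD) × (ℕ → DD) | hit (act n) z ω.1 1 (bb n)
          (st (seg (act n) z ω.2 (i0 n / 2) (i0 n)))} := by
      ext ω
      simp only [Set.mem_ofPred_eq]
      constructor
      · rintro ⟨i, h1, h2, j, h3, h4, h5⟩
        exact ⟨i, h1, h2, (mem_seg (act n) z ω.2 _ _ _).2 ⟨j, h3, h4, h5.symm⟩⟩
      · rintro ⟨i, h1, h2, h3⟩
        obtain ⟨j, h4, h5, h6⟩ := (mem_seg (act n) z ω.2 _ _ _).1 h3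
        exact ⟨i, h1, h2, j, h4, h5, h6.symm⟩
    rw [h1]
    refine f2_meas n (fun η => seg (act n) z η (i0 n / 2) (i0 n)) ?_
      (fun ξ l => hit (act n) z ξ 1 (bb n) (st l)) ?_
    · intro l
      refine f2_meas_dep (i0 n) _ fun ω ω' h => ?_
      rw [seg_congr (act n) z ω ω' _ _ h]
    · intro l
      refine f2_meas_dep (bb n) _ fun ω ω' h => ?_
      exact f2_hit_congr z ω ω' 1 (bb n) _ h

/-- Markov property with an event after the time `s` -/
theorem f2_mk (z : V n) (s : ℕ) (g : (ℕ → DD) → ℝ)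
    (hg : ∀ ω ω' : ℕ → DD, (∀ i, i < s → ω i = ω' i) → g ω = g ω') (hg0 : ∀ ω, 0 ≤ g ω)
    (Q : V n → (ℕ → DD) → Prop) (hQ : ∀ y, MeasurableSet {η | Q y η}) (c : ℝ)
    (hc : ∀ y, pr {η | Q y η} ≤ c) :
    Integrable (fun ω => g ω * ind (Q (pos (act n) z ω s) (sh s ω))) (mu DD) ∧
    ∫ ω, g ω * ind (Q (pos (act n) z ω s) (sh s ω)) ∂(mu DD) ≤ c * ∫ ω, g ω ∂(mu DD) := by
  have hm : ∀ y, Measurable (fun η => ind (Q y η)) := by
    intro y
    have h1 : (fun η => ind (Q y η)) = Set.indicator {η | Q y η} (fun _ => (1 : ℝ)) := by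
      funext η
      by_cases h : Q y η
      · rw [ind_true h, Set.indicator_of_mem (show η ∈ {η | Q y η} from h)]
      · rw [ind_false h, Set.indicator_of_notMem (show η ∉ {η | Q y η} from h)]
    rw [h1]
    exact measurable_const.indicator (hQ y)
  have hi : ∀ y, Integrable (fun η => ind (Q y η)) (mu DD) := fun y =>
    Integrable.of_bound (hm y).aestronglyMeasurable 1 (Filter.Eventually.of_forall fun ω => by
      rw [Real.norm_eq_abs, abs_of_nonneg (ind_nonneg _)]; exact ind_le_one _)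
  obtain ⟨h1, h2⟩ := tauaux_markov (act n) s z g (fun y η => ind (Q y η)) hg hg0 hm
    (fun _ _ => ind_nonneg _) hi
  refine ⟨h2, ?_⟩
  rw [h1, mul_comm c, ← integral_mul_const]
  refine integral_mono_of_nonneg (Filter.Eventually.of_forall fun ω =>
    mul_nonneg (hg0 ω) (integral_nonneg fun _ => ind_nonneg _))
    ((tauaux_int s g hg).mul_const c) (Filter.Eventually.of_forall fun ω => ?_)
  refine mul_le_mul_of_nonneg_left ?_ (hg0 ω)
  rw [integral_ind (mu DD) (fun η => Q (pos (act n) z ω s) η) (hQ _)]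
  exact hc _

/-- survival -/
theorem f2_sv (A : Set (V n)) (hA : A.Nonempty) (H : ℝ) (hH : 1 ≤ H) (hE : ∀ x, Et n A x ≤ H)
    (z : V n) (s m r : ℕ) (hr : s + m = r) (G : (ℕ → DD) → ℝ) (hG : ∀ ω, 0 ≤ G ω)
    (hdep : ∀ ω ω', (∀ i, i < s → ω i = ω' i) → G ω = G ω') :
    ∫ ω, G ω * ind (¬ hit (act n) z ω 0 r A) ∂(mu DD) ≤
      (2 * (2 : ℝ) ^ (-((m : ℝ) / (3 * H)))) * ∫ ω, G ω ∂(mu DD) := by
  have h1 := survive n A hA H hH hE z s m G hG hdep
  have h2 : ∫ ω, G ω * ind (¬ hit (act n) z ω 0 r A) ∂(mu DD) =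
      ∫ ω, G ω * ind (s + m < tau (act n) z ω A) ∂(mu DD) := by
    refine integral_congr_ae ?_
    filter_upwards [tauaux_ae n A hA z] with ω hω
    rw [hr, lt_tau_iff (act n) z ω A hω]
  rw [h2]
  refine h1.trans (mul_le_mul_of_nonneg_left ?_ (by positivity))
  refine integral_mono_of_nonneg (Filter.Eventually.of_forall fun ω =>
    mul_nonneg (hG ω) (ind_nonneg _)) (tauaux_int s G hdep)
    (Filter.Eventually.of_forall fun ω => ?_)
  exact mul_le_of_le_one_right (hG ω) (ind_le_one _)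

/-- the second event of `D` -/
theorem f2_meas_D2 (A : Set (V n)) (y : V n) : MeasurableSet
    {η | hit (act n) y η (i0 n) (tau (act n) y η A) (st (seg (act n) y η 0 (i0 n / 2)))} := by
  have h := measurable_tau (act n) A y
    (fun k η => (hit (act n) y η (i0 n) k (st (seg (act n) y η 0 (i0 n / 2))) : Prop))
    (fun k ω ω' h => by
      rcases lt_or_ge k (i0 n) with hk | hk
      · refine propext ⟨?_, ?_⟩
        · rintro ⟨i, h1, h2, _⟩
          omega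
        · rintro ⟨i, h1, h2, _⟩
          omega
      · rw [seg_congr (act n) y ω ω' 0 (i0 n / 2) fun i hi => h i (by omega)]
        exact propext (f2_hit_congr y ω ω' _ _ _ h))
  exact measurableSet_setOfPred.2 h

theorem f2_meas_E (y : V n) : MeasurableSet {η | ∀ j, j < bb n →
    pos (act n) y η j ∉ le (seg (act n) y η (bb n) (bb n + i0 n))} := by
  refine f2_meas_dep (bb n + i0 n) _ fun ω ω' h => ?_
  rw [seg_congr (act n) y ω ω' (bb n) (bb n + i0 n) h]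
  refine forall_congr' fun j => imp_congr_right fun hj => ?_
  rw [pos_congr (act n) y ω ω' j fun k hk => h k (by omega)]

theorem f2_meas_D3 (y : V n) : MeasurableSet {ω : ℕ → DD | ∃ i, i < bb n ∧
    ∃ j, bb n + i0 n / 2 ≤ j ∧ j ≤ bb n + i0 n ∧
      pos (act n) y ω i = pos (act n) y ω j} := by
  refine f2_meas_dep (bb n + i0 n) _ fun ω ω' h => ?_
  refine exists_congr fun i => and_congr_right fun hi =>
    exists_congr fun j => and_congr_right fun _ => and_congr_right fun hj => ?_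
  rw [pos_congr (act n) y ω ω' j fun k hk => h k (by omega),
    pos_congr (act n) y ω ω' i fun k hk => h k (by omega)]

/-- decoupling at the starting point -/
theorem f2f_split (z : V n) (ω : ℕ → DD) (t : ℕ) (ht : i0 n ≤ t) :
    f2f n z (le (seg (act n) z ω 0 t)) ≤ f2f n z (le (seg (act n) z ω 0 (i0 n))) +
      f2g n z ω + ind (hit (act n) z ω (i0 n) t (st (seg (act n) z ω 0 (i0 n / 2)))) := by
  by_cases h : hit (act n) z ω (i0 n) t (st (seg (act n) z ω 0 (i0 n / 2)))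
  · rw [ind_true h]
    have h1 := f2f_le_one n z (le (seg (act n) z ω 0 t))
    have h2 := f2f_nonneg n z (le (seg (act n) z ω 0 (i0 n)))
    have h3 : 0 ≤ f2g n z ω := measureReal_nonneg
    linarith
  · rw [ind_false h, add_zero]
    unfold f2f f2g pr
    refine le_trans (measureReal_mono (s₂ := {ξ | ¬ hit (act n) z ξ 1 (bb n)
      (st (le (seg (act n) z ω 0 (i0 n))))} ∪ {ξ | ∃ i, 1 ≤ i ∧ i ≤ bb n ∧
        ∃ j, i0 n / 2 ≤ j ∧ j ≤ i0 n ∧ pos (act n) z ξ i = pos (act n) z ω j}) ?_)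
      (measureReal_union_le _ _)
    intro ξ hξ
    simp only [Set.mem_ofPred_eq] at hξ
    rcases eight_one (act n) z ω (i0 n) t ht {y | ∃ i, 1 ≤ i ∧ i ≤ bb n ∧ pos (act n) z ξ i = y}
      (by
        rintro y ⟨i, h1, h2, rfl⟩ h3
        exact hξ ⟨i, h1, h2, h3⟩) with h1 | h1 | h1
    · left
      rintro ⟨i, h2, h3, h4⟩
      exact h1 _ ⟨i, h2, h3, rfl⟩ h4
    · exact absurd h1 h
    · right
      obtain ⟨y, ⟨i, h2, h3, rfl⟩, h4⟩ := h1
      obtain ⟨j, h5, h6, h7⟩ := (mem_seg (act n) z ω _ _ _).1 h4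
      exact ⟨i, h2, h3, j, h5, h6, h7.symm⟩

/-- decoupling at the time `t` -/
theorem f2_split (A : Set (V n)) (z : V n) (ω : ℕ → DD) (hω : ∃ s, pos (act n) z ω s ∈ A) (t : ℕ)
    (hbt : bb n ≤ t) (ht : t + i0 n ≤ tau (act n) z ω A)
    (h : ∀ j, j < t → pos (act n) z ω j ∉ le (seg (act n) z ω t (tau (act n) z ω A))) :
    (∀ j, j < bb n → pos (act n) (pos (act n) z ω (t - bb n)) (sh (t - bb n) ω) j ∉
      le (seg (act n) (pos (act n) z ω (t - bb n)) (sh (t - bb n) ω) (bb n) (bb n + i0 n))) ∨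
    hit (act n) (pos (act n) z ω t) (sh t ω) (i0 n)
      (tau (act n) (pos (act n) z ω t) (sh t ω) A)
      (st (seg (act n) (pos (act n) z ω t) (sh t ω) 0 (i0 n / 2))) ∨
    (∃ i, i < bb n ∧ ∃ j, bb n + i0 n / 2 ≤ j ∧ j ≤ bb n + i0 n ∧
      pos (act n) (pos (act n) z ω (t - bb n)) (sh (t - bb n) ω) i =
      pos (act n) (pos (act n) z ω (t - bb n)) (sh (t - bb n) ω) j) := by
  have e1 := tau_shift (act n) z ω A hω t (by omega)
  have e2 : seg (act n) z ω t (tau (act n) z ω A) =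
      seg (act n) (pos (act n) z ω t) (sh t ω) 0 (tau (act n) (pos (act n) z ω t) (sh t ω) A) := by
    have e3 := seg_shift (act n) z ω t 0 (tau (act n) (pos (act n) z ω t) (sh t ω) A)
    rw [add_zero] at e3
    rw [e1, e3]
  have e4 : ∀ j, pos (act n) (pos (act n) z ω (t - bb n)) (sh (t - bb n) ω) j =
      pos (act n) z ω (t - bb n + j) := fun j => (pos_add (act n) z ω _ _).symm
  have e5 : seg (act n) (pos (act n) z ω (t - bb n)) (sh (t - bb n) ω) (bb n) (bb n + i0 n) =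
      seg (act n) (pos (act n) z ω t) (sh t ω) 0 (i0 n) := by
    rw [← seg_shift, ← seg_shift]
    congr 1
    · omega
    · omega
  rcases eight_one (act n) (pos (act n) z ω t) (sh t ω) (i0 n)
    (tau (act n) (pos (act n) z ω t) (sh t ω) A) (by omega)
    {y | ∃ j, j < bb n ∧ pos (act n) z ω (t - bb n + j) = y}
    (by
      rintro y ⟨j, h1, rfl⟩
      rw [← e2]
      exact h _ (by omega)) with h1 | h1 | h1
  · left
    intro j hj
    rw [e5, e4]
    exact h1 _ ⟨j, hj, rfl⟩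
  · right; left
    exact h1
  · right; right
    obtain ⟨y, ⟨i, h2, rfl⟩, h3⟩ := h1
    obtain ⟨j, h4, h5, h6⟩ := (mem_seg _ _ _ _ _ _).1 h3
    refine ⟨i, h2, bb n + j, by omega, by omega, ?_⟩
    rw [e4, e4, ← h6, ← pos_add]
    congr 1
    omega

end f2aux

section f2term

variable (n : ℕ) [NeZero n]

theorem f2_rdecay (H : ℝ) (hH : 1 ≤ H) (s t : ℕ) (h : (s : ℝ) + 3 * H ≥ t) :
    2 * (2 : ℝ) ^ (-((s : ℝ) / (3 * H))) ≤ 2 * (2 * (2 : ℝ) ^ (-((t : ℝ) / (3 * H)))) := by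
  refine mul_le_mul_of_nonneg_left ?_ (by norm_num)
  have h1 : 2 * (2 : ℝ) ^ (-((t : ℝ) / (3 * H))) = (2 : ℝ) ^ (1 - ((t : ℝ) / (3 * H))) := by
    rw [sub_eq_add_neg, Real.rpow_add (by norm_num), Real.rpow_one]
  rw [h1]
  refine Real.rpow_le_rpow_of_exponent_le (by norm_num) ?_
  have h2 : (t : ℝ) / (3 * H) ≤ (s : ℝ) / (3 * H) + 1 := by
    rw [div_add_one (by positivity), div_le_div_iff_of_pos_right (by positivity)]
    exact h
  linarith

theorem f2_term (A : Set (V n)) (hA : A.Nonempty) (H : ℝ) (hH : 1 ≤ H) (hE : ∀ x, Et n A x ≤ H)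
    (z : V n) (C1 C2 C3 C4 : ℝ) (hC1 : 0 ≤ C1) (hC2 : 0 ≤ C2) (hC3 : 0 ≤ C3)
    (h1 : ∀ l : ℕ, pr {ω | l ≤ tau (act n) z ω A ∧
      hit (act n) z ω (i0 n) l (st (seg (act n) z ω 0 (i0 n / 2)))} ≤
      C1 * (1 + l / H) * (2 : ℝ) ^ (-((l : ℝ) / (3 * H))))
    (h2 : ∀ x : V n, pr {ω | hit (act n) x ω (i0 n) (tau (act n) x ω A)
      (st (seg (act n) x ω 0 (i0 n / 2)))} ≤ C2)
    (h3 : ∀ x : V n, pr {ω | ∃ i, i < bb n ∧ ∃ j, bb n + i0 n / 2 ≤ j ∧ j ≤ bb n + i0 n ∧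
      pos (act n) x ω i = pos (act n) x ω j} ≤ C3)
    (h4 : pr2 {ω | ∃ i, 1 ≤ i ∧ i ≤ bb n ∧ ∃ j, i0 n / 2 ≤ j ∧ j ≤ i0 n ∧
      pos (act n) z ω.1 i = pos (act n) z ω.2 j} ≤ C4)
    (hb : 1 ≤ bb n) (hi : i0 n ≤ 2 * bb n) (hbH : (bb n : ℝ) + i0 n ≤ 3 * H)
    (t : ℕ) (ht : 4 * bb n ≤ t) :
    ∫⁻ ω, (open Classical in if t ≤ tau (act n) z ω A ∧
        (∀ j, j < t → pos (act n) z ω j ∉ le (seg (act n) z ω t (tau (act n) z ω A))) then
        ENNReal.ofReal (f2f n z (le (seg (act n) z ω 0 t))) else 0) ∂(mu DD) ≤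
      ∫⁻ ω, ENNReal.ofReal (ind (t ≤ tau (act n) z ω A ∧ tau (act n) z ω A < t + i0 n)) ∂(mu DD) +
      ENNReal.ofReal ((2 * (aloc n (i0 n) ^ 2 + C2 + C3 + C4) + C1) *
        ((2 * (2 : ℝ) ^ (-((t : ℝ) / (3 * H)))) + t / H * (2 * (2 : ℝ) ^ (-((t : ℝ) / (3 * H)))))) := by
  have hH0 : 0 < H := by linarith
  obtain ⟨R, hR⟩ : ∃ R : ℕ → ℝ, ∀ m : ℕ, R m = 2 * (2 : ℝ) ^ (-((m : ℝ) / (3 * H))) :=
    ⟨_, fun _ => rfl⟩
  have hR0 : ∀ m, 0 ≤ R m := fun m => by rw [hR]; positivity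
  have hR1 : R (t - bb n - i0 n) ≤ 2 * R t := by
    rw [hR, hR]
    refine f2_rdecay H hH _ _ ?_
    have h5 : ((t - bb n - i0 n : ℕ) : ℝ) = (t : ℝ) - bb n - i0 n := by
      rw [Nat.cast_sub (by omega), Nat.cast_sub (by omega)]
    rw [h5]
    linarith
  have hR2 : R (t - bb n) ≤ 2 * R t := by
    rw [hR, hR]
    refine f2_rdecay H hH _ _ ?_
    have h5 : ((t - bb n : ℕ) : ℝ) = (t : ℝ) - bb n := by
      rw [Nat.cast_sub (by omega)]
    have h6 : (0 : ℝ) ≤ i0 n := Nat.cast_nonneg _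
    rw [h5]
    linarith
  have ha0 := aloc_nonneg n (i0 n)
  have hC4 : 0 ≤ C4 := le_trans measureReal_nonneg h4
  -- the five functions
  set s := t - bb n with hs
  set f0 : (ℕ → DD) → ℝ := fun ω => f2f n z (le (seg (act n) z ω 0 (i0 n))) with hf0
  set NH : (ℕ → DD) → ℝ := fun ω => ind (¬ hit (act n) z ω 0 s A) with hNH
  have hNHdep : ∀ ω ω' : ℕ → DD, (∀ i, i < s → ω i = ω' i) → NH ω = NH ω' := fun ω ω' h =>
    tauaux_hit_dep n A z s ω ω' h
  have hNH0 : ∀ ω, 0 ≤ NH ω := fun ω => ind_nonneg _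
  have hf00 : ∀ ω, 0 ≤ f0 ω := fun ω => f2f_nonneg n z _
  have hf0dep : ∀ ω ω' : ℕ → DD, (∀ i, i < i0 n → ω i = ω' i) → f0 ω = f0 ω' := fun ω ω' h => by
    simp only [hf0]
    rw [seg_congr (act n) z ω ω' 0 (i0 n) h]
  -- X1
  have hX1 := f2_mk n z s (fun ω => f0 ω * NH ω)
    (fun ω ω' h => by
      rw [hNHdep ω ω' h, hf0dep ω ω' fun i hi' => h i (by omega)])
    (fun ω => mul_nonneg (hf00 ω) (hNH0 ω))
    (fun y η => ∀ j, j < bb n → pos (act n) y η j ∉ le (seg (act n) y η (bb n) (bb n + i0 n)))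
    (fun y => f2_meas_E n y) (aloc n (i0 n)) (fun y => (aloc_one n (i0 n) y).le)
  have hX1b := f2_sv n A hA H hH hE z (i0 n) (t - bb n - i0 n) s (by omega) f0 hf00 hf0dep
  rw [← hR, f2f_int n z (i0 n)] at hX1b
  -- X2
  have hg0 : ∀ ω, 0 ≤ f2g n z ω := fun ω => measureReal_nonneg
  have hX2b := f2_sv n A hA H hH hE z (i0 n) (t - bb n - i0 n) s (by omega) (f2g n z) hg0
    (f2g_dep n z)
  rw [← hR, f2g_int n z] at hX2b
  have hX2i : Integrable (fun ω => f2g n z ω * NH ω) (mu DD) :=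
    tauaux_int s _ fun ω ω' h => by
      rw [hNHdep ω ω' h, f2g_dep n z ω ω' fun i hi' => h i (by omega)]
  -- survival
  have hNHb := f2_sv n A hA H hH hE z 0 s s (by omega) (fun _ => 1) (fun _ => zero_le_one)
    (fun _ _ _ => rfl)
  rw [← hR] at hNHb
  simp only [one_mul, integral_const, probReal_univ, smul_eq_mul, mul_one] at hNHb
  -- X4
  have hX4 := f2_mk n z t NH (fun ω ω' h => hNHdep ω ω' fun i hi' => h i (by omega)) hNH0
    (fun y η => hit (act n) y η (i0 n) (tau (act n) y η A) (st (seg (act n) y η 0 (i0 n / 2))))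
    (fun y => f2_meas_D2 n A y) C2 h2
  -- X5
  have hX5 := f2_mk n z s NH hNHdep hNH0
    (fun y ω => ∃ i, i < bb n ∧ ∃ j, bb n + i0 n / 2 ≤ j ∧ j ≤ bb n + i0 n ∧
      pos (act n) y ω i = pos (act n) y ω j)
    (fun y => f2_meas_D3 n y) C3 h3
  -- X3
  have hX3m : MeasurableSet {ω | t ≤ tau (act n) z ω A ∧
      hit (act n) z ω (i0 n) t (st (seg (act n) z ω 0 (i0 n / 2)))} := by
    have e1 : MeasurableSet {ω | t ≤ tau (act n) z ω A} := by
      have h := measurable_tau (act n) A z (fun k (_ : ℕ → DD) => k) fun _ _ _ _ => rfl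
      exact h measurableSet_Ici
    have e2 : MeasurableSet {ω | hit (act n) z ω (i0 n) t (st (seg (act n) z ω 0 (i0 n / 2)))} := by
      refine f2_meas_dep t _ fun ω ω' h => ?_
      rw [seg_congr (act n) z ω ω' 0 (i0 n / 2) fun i hi' => h i (by omega)]
      exact f2_hit_congr z ω ω' _ _ _ h
    exact e1.inter e2
  have hX3i : Integrable (fun ω => ind (t ≤ tau (act n) z ω A ∧
      hit (act n) z ω (i0 n) t (st (seg (act n) z ω 0 (i0 n / 2))))) (mu DD) := by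
    have e1 : (fun ω => ind (t ≤ tau (act n) z ω A ∧
        hit (act n) z ω (i0 n) t (st (seg (act n) z ω 0 (i0 n / 2))))) =
        Set.indicator {ω | t ≤ tau (act n) z ω A ∧
        hit (act n) z ω (i0 n) t (st (seg (act n) z ω 0 (i0 n / 2)))} (fun _ => (1 : ℝ)) := by
      funext ω
      by_cases h : t ≤ tau (act n) z ω A ∧
        hit (act n) z ω (i0 n) t (st (seg (act n) z ω 0 (i0 n / 2)))
      · rw [ind_true h, Set.indicator_of_mem (show ω ∈ {ω | t ≤ tau (act n) z ω A ∧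
          hit (act n) z ω (i0 n) t (st (seg (act n) z ω 0 (i0 n / 2)))} from h)]
      · rw [ind_false h, Set.indicator_of_notMem (show ω ∉ {ω | t ≤ tau (act n) z ω A ∧
          hit (act n) z ω (i0 n) t (st (seg (act n) z ω 0 (i0 n / 2)))} from h)]
    rw [e1]
    exact (integrable_const 1).indicator hX3m
  have hX3b : ∫ ω, ind (t ≤ tau (act n) z ω A ∧
      hit (act n) z ω (i0 n) t (st (seg (act n) z ω 0 (i0 n / 2)))) ∂(mu DD) ≤
      C1 * (1 + t / H) * (2 : ℝ) ^ (-((t : ℝ) / (3 * H))) := by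
    rw [integral_ind (mu DD) (fun ω => t ≤ tau (act n) z ω A ∧
      hit (act n) z ω (i0 n) t (st (seg (act n) z ω 0 (i0 n / 2)))) hX3m]
    exact h1 t
  -- the first term
  have hF : Measurable (fun ω => ENNReal.ofReal
      (ind (t ≤ tau (act n) z ω A ∧ tau (act n) z ω A < t + i0 n))) :=
    measurable_tau (act n) A z (fun k _ => ENNReal.ofReal (ind (t ≤ k ∧ k < t + i0 n)))
      fun _ _ _ _ => rfl
  obtain ⟨X1, hX1d⟩ : ∃ X : (ℕ → DD) → ℝ, X = fun ω => f0 ω * NH ω *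
      ind (∀ j, j < bb n → pos (act n) (pos (act n) z ω s) (sh s ω) j ∉
        le (seg (act n) (pos (act n) z ω s) (sh s ω) (bb n) (bb n + i0 n))) := ⟨_, rfl⟩
  obtain ⟨X2, hX2d⟩ : ∃ X : (ℕ → DD) → ℝ, X = fun ω => f2g n z ω * NH ω := ⟨_, rfl⟩
  obtain ⟨X3, hX3d⟩ : ∃ X : (ℕ → DD) → ℝ, X = fun ω => ind (t ≤ tau (act n) z ω A ∧
      hit (act n) z ω (i0 n) t (st (seg (act n) z ω 0 (i0 n / 2)))) := ⟨_, rfl⟩
  obtain ⟨X4, hX4d⟩ : ∃ X : (ℕ → DD) → ℝ, X = fun ω => NH ω *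
      ind (hit (act n) (pos (act n) z ω t) (sh t ω) (i0 n)
        (tau (act n) (pos (act n) z ω t) (sh t ω) A)
        (st (seg (act n) (pos (act n) z ω t) (sh t ω) 0 (i0 n / 2)))) := ⟨_, rfl⟩
  obtain ⟨X5, hX5d⟩ : ∃ X : (ℕ → DD) → ℝ, X = fun ω => NH ω *
      ind (∃ i, i < bb n ∧ ∃ j, bb n + i0 n / 2 ≤ j ∧ j ≤ bb n + i0 n ∧
        pos (act n) (pos (act n) z ω s) (sh s ω) i =
        pos (act n) (pos (act n) z ω s) (sh s ω) j) := ⟨_, rfl⟩
  have i1 : Integrable X1 (mu DD) := by rw [hX1d]; exact hX1.1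
  have i2 : Integrable X2 (mu DD) := by rw [hX2d]; exact hX2i
  have i3 : Integrable X3 (mu DD) := by rw [hX3d]; exact hX3i
  have i4 : Integrable X4 (mu DD) := by rw [hX4d]; exact hX4.1
  have i5 : Integrable X5 (mu DD) := by rw [hX5d]; exact hX5.1
  have p1 : ∀ ω, 0 ≤ X1 ω := fun ω => by
    rw [hX1d]; exact mul_nonneg (mul_nonneg (hf00 ω) (hNH0 ω)) (ind_nonneg _)
  have p2 : ∀ ω, 0 ≤ X2 ω := fun ω => by
    rw [hX2d]; exact mul_nonneg (hg0 ω) (hNH0 ω)
  have p3 : ∀ ω, 0 ≤ X3 ω := fun ω => by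
    rw [hX3d]; exact ind_nonneg _
  have p4 : ∀ ω, 0 ≤ X4 ω := fun ω => by
    rw [hX4d]; exact mul_nonneg (hNH0 ω) (ind_nonneg _)
  have p5 : ∀ ω, 0 ≤ X5 ω := fun ω => by
    rw [hX5d]; exact mul_nonneg (hNH0 ω) (ind_nonneg _)
  have b1' : ∫ ω, X1 ω ∂(mu DD) ≤ 2 * aloc n (i0 n) ^ 2 * R t := by
    rw [hX1d]
    refine hX1.2.trans ?_
    calc aloc n (i0 n) * ∫ ω, f0 ω * NH ω ∂(mu DD)
        ≤ aloc n (i0 n) * (R (t - bb n - i0 n) * aloc n (i0 n)) :=
          mul_le_mul_of_nonneg_left hX1b ha0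
      _ ≤ aloc n (i0 n) * (2 * R t * aloc n (i0 n)) := by gcongr
      _ = 2 * aloc n (i0 n) ^ 2 * R t := by ring
  have b2' : ∫ ω, X2 ω ∂(mu DD) ≤ 2 * C4 * R t := by
    rw [hX2d]
    refine hX2b.trans ?_
    calc R (t - bb n - i0 n) * _ ≤ (2 * R t) * C4 :=
          mul_le_mul hR1 h4 measureReal_nonneg (by have := hR0 t; linarith)
      _ = 2 * C4 * R t := by ring
  have b3' : ∫ ω, X3 ω ∂(mu DD) ≤ C1 * (R t + t / H * R t) := by
    rw [hX3d]
    refine hX3b.trans ?_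
    have e1 : 0 ≤ C1 * (1 + t / H) := by positivity
    have e2 : (2 : ℝ) ^ (-((t : ℝ) / (3 * H))) ≤ R t := by
      rw [hR]
      have : 0 ≤ (2 : ℝ) ^ (-((t : ℝ) / (3 * H))) := by positivity
      linarith
    calc _ ≤ C1 * (1 + t / H) * R t := mul_le_mul_of_nonneg_left e2 e1
      _ = C1 * (R t + t / H * R t) := by ring
  have b4' : ∫ ω, X4 ω ∂(mu DD) ≤ 2 * C2 * R t := by
    rw [hX4d]
    refine hX4.2.trans ?_
    calc C2 * ∫ ω, NH ω ∂(mu DD) ≤ C2 * (2 * R t) :=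
          mul_le_mul_of_nonneg_left (hNHb.trans hR2) hC2
      _ = 2 * C2 * R t := by ring
  have b5' : ∫ ω, X5 ω ∂(mu DD) ≤ 2 * C3 * R t := by
    rw [hX5d]
    refine hX5.2.trans ?_
    calc C3 * ∫ ω, NH ω ∂(mu DD) ≤ C3 * (2 * R t) :=
          mul_le_mul_of_nonneg_left (hNHb.trans hR2) hC3
      _ = 2 * C3 * R t := by ring
  have hsumi : Integrable (fun ω => X1 ω + X2 ω + X3 ω + X4 ω + X5 ω) (mu DD) :=
    (((i1.add i2).add i3).add i4).add i5
  have hsum : ∫ ω, (X1 ω + X2 ω + X3 ω + X4 ω + X5 ω) ∂(mu DD) =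
      ∫ ω, X1 ω ∂(mu DD) + ∫ ω, X2 ω ∂(mu DD) + ∫ ω, X3 ω ∂(mu DD) + ∫ ω, X4 ω ∂(mu DD) +
        ∫ ω, X5 ω ∂(mu DD) := by
    have j1 : Integrable (fun ω => X1 ω + X2 ω) (mu DD) := i1.add i2
    have j2 : Integrable (fun ω => X1 ω + X2 ω + X3 ω) (mu DD) := j1.add i3
    have j3 : Integrable (fun ω => X1 ω + X2 ω + X3 ω + X4 ω) (mu DD) := j2.add i4
    rw [integral_add j3 i5, integral_add j2 i4, integral_add j1 i3, integral_add i1 i2]
  have hfin : ∫⁻ ω, ENNReal.ofReal (X1 ω + X2 ω + X3 ω + X4 ω + X5 ω) ∂(mu DD) ≤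
      ENNReal.ofReal ((2 * (aloc n (i0 n) ^ 2 + C2 + C3 + C4) + C1) *
        ((2 * (2 : ℝ) ^ (-((t : ℝ) / (3 * H)))) +
          t / H * (2 * (2 : ℝ) ^ (-((t : ℝ) / (3 * H)))))) := by
    rw [← ofReal_integral_eq_lintegral_ofReal hsumi (Filter.Eventually.of_forall fun ω => by
      have := p1 ω; have := p2 ω; have := p3 ω; have := p4 ω; have := p5 ω
      simp only [Pi.zero_apply]
      linarith)]
    refine ENNReal.ofReal_le_ofReal ?_
    rw [hsum, ← hR]
    have e1 : 0 ≤ (t : ℝ) / H * R t := mul_nonneg (by positivity) (hR0 t)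
    have e2 : 0 ≤ 2 * (aloc n (i0 n) ^ 2 + C2 + C3 + C4) := by positivity
    have e3 := mul_nonneg e2 e1
    nlinarith
  refine le_trans ?_ (add_le_add_right hfin _)
  rw [← lintegral_add_left hF]
  refine lintegral_mono_ae ?_
  filter_upwards [tauaux_ae n A hA z] with ω hω
  split_ifs with hc
  swap
  · exact zero_le
  obtain ⟨hc1, hc2⟩ := hc
  rcases lt_or_ge (tau (act n) z ω A) (t + i0 n) with hlt | hge
  · refine le_trans ?_ le_self_add
    rw [ind_true ⟨hc1, hlt⟩]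
    exact ENNReal.ofReal_le_ofReal (f2f_le_one n z _)
  · refine le_trans ?_ le_add_self
    refine ENNReal.ofReal_le_ofReal ?_
    have q1 := p1 ω
    have q2 := p2 ω
    have q3 := p3 ω
    have q4 := p4 ω
    have q5 := p5 ω
    have hNH1 : NH ω = 1 := by
      refine ind_true ?_
      rw [← lt_tau_iff (act n) z ω A hω]
      omega
    have hle := f2f_le_one n z (le (seg (act n) z ω 0 t))
    rcases f2_split n A z ω hω t (by omega) hge hc2 with hh | hh | hh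
    · have r1 := f2f_split n z ω t (by omega)
      have r2 : X1 ω = f0 ω := by
        rw [hX1d]
        simp only
        rw [hNH1, ind_true hh]
        ring
      have r3 : X2 ω = f2g n z ω := by
        rw [hX2d]
        simp only
        rw [hNH1, mul_one]
      have r4 : ind (hit (act n) z ω (i0 n) t (st (seg (act n) z ω 0 (i0 n / 2)))) ≤ X3 ω := by
        rw [hX3d]
        exact ind_mono fun h => ⟨hc1, h⟩
      have r5 : f0 ω = f2f n z (le (seg (act n) z ω 0 (i0 n))) := rfl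
      rw [r2, r3]
      rw [r5]
      linarith
    · have r2 : X4 ω = 1 := by
        rw [hX4d]
        simp only
        rw [hNH1, ind_true hh, mul_one]
      linarith
    · have r2 : X5 ω = 1 := by
        rw [hX5d]
        simp only
        rw [hNH1, ind_true hh, mul_one]
      linarith

end f2term

end Pool.Agent.UST
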