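import Pool.Agent.Helper54.UST.D8
import Pool.Agent.Helper54.UST.AlocB
import Pool.Agent.Helper54.UST.LE2
import Pool.Agent.Helper54.UST.Asy
import Pool.Agent.Helper54.UST.OnePtTime
import Pool.Agent.Helper54.UST.F2Aux

/-! Paper Lemma F2. -/

namespace Pool.Agent.UST

open MeasureTheory

section f2main

variable (n : ℕ) [NeZero n]

/-- the sum over `t` of the first terms -/
theorem f2_first (A : Set (V n)) (z : V n) :
    ∑' t : ℕ, ∫⁻ ω, ENNReal.ofReal (ind (t ≤ tau (act n) z ω A ∧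
      tau (act n) z ω A < t + i0 n)) ∂(mu DD) ≤ (i0 n : ENNReal) := by
  have hF : ∀ t : ℕ, Measurable (fun ω => ENNReal.ofReal
      (ind (t ≤ tau (act n) z ω A ∧ tau (act n) z ω A < t + i0 n))) := fun t =>
    measurable_tau (act n) A z (fun k _ => ENNReal.ofReal (ind (t ≤ k ∧ k < t + i0 n)))
      fun _ _ _ _ => rfl
  rw [← lintegral_tsum fun t => (hF t).aemeasurable]
  have h1 : ∀ ω : ℕ → DD, ∑' t : ℕ, ENNReal.ofReal (ind (t ≤ tau (act n) z ω A ∧
      tau (act n) z ω A < t + i0 n)) ≤ (i0 n : ENNReal) := by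
    intro ω
    set T := tau (act n) z ω A with hT
    rw [tsum_eq_sum (s := (Finset.range (T + 1)).filter (fun t => T < t + i0 n))]
    · calc ∑ t ∈ (Finset.range (T + 1)).filter (fun t => T < t + i0 n),
            ENNReal.ofReal (ind (t ≤ T ∧ T < t + i0 n))
          ≤ ∑ _t ∈ (Finset.range (T + 1)).filter (fun t => T < t + i0 n), (1 : ENNReal) := by
            refine Finset.sum_le_sum fun t _ => ?_
            rw [← ENNReal.ofReal_one]
            exact ENNReal.ofReal_le_ofReal (ind_le_one _)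
        _ = (((Finset.range (T + 1)).filter (fun t => T < t + i0 n)).card : ENNReal) := by
            simp
        _ ≤ (i0 n : ENNReal) := by
            have h2 : ((Finset.range (T + 1)).filter (fun t => T < t + i0 n)).card ≤ i0 n := by
              have h3 : (Finset.range (T + 1)).filter (fun t => T < t + i0 n) ⊆
                  Finset.Ico (T + 1 - i0 n) (T + 1) := by
                intro t ht
                rw [Finset.mem_filter, Finset.mem_range] at ht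
                rw [Finset.mem_Ico]
                omega
              refine (Finset.card_le_card h3).trans ?_
              rw [Nat.card_Ico]
              omega
            exact_mod_cast h2
    · intro t ht
      rw [Finset.mem_filter, Finset.mem_range] at ht
      rw [ind_false, ENNReal.ofReal_zero]
      rintro ⟨h2, h3⟩
      exact ht ⟨by omega, h3⟩
  calc ∫⁻ ω, ∑' t : ℕ, ENNReal.ofReal (ind (t ≤ tau (act n) z ω A ∧
      tau (act n) z ω A < t + i0 n)) ∂(mu DD) ≤ ∫⁻ _ω, (i0 n : ENNReal) ∂(mu DD) :=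
        lintegral_mono h1
    _ = (i0 n : ENNReal) := by
        rw [lintegral_const, measure_univ, mul_one]

/-- Markov inequality -/
theorem f2_markov (A : Set (V n)) (z : V n) (ℓ : ℝ) :
    ENNReal.ofReal ℓ * ((mu DD).prod (mu DD))
      {ω | ¬ hit (act n) z ω.1 1 (bb n) (st (lerw (act n) z ω.2 A)) ∧
        ℓ ≤ ((lerw (act n) z ω.2 A).length : ℝ)} ≤
    ∫⁻ ω, ∑ i ∈ Finset.range (lerw (act n) z ω A).length,
      ENNReal.ofReal (f2f n z ((lerw (act n) z ω A).take (i + 1))) ∂(mu DD) := by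
  have hm : MeasurableSet {ω : (ℕ → DD) × (ℕ → DD) |
      ¬ hit (act n) z ω.1 1 (bb n) (st (lerw (act n) z ω.2 A)) ∧
        ℓ ≤ ((lerw (act n) z ω.2 A).length : ℝ)} := by
    refine f2_meas n (fun η => lerw (act n) z η A) ?_
      (fun ξ l => ¬ hit (act n) z ξ 1 (bb n) (st l) ∧ ℓ ≤ (l.length : ℝ)) ?_
    · intro l
      exact measurableSet_setOfPred.2 (measurable_tau (act n) A z
        (fun t η => (le (seg (act n) z η 0 t) = l : Prop)) fun t ω ω' h => by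
          rw [seg_congr (act n) z ω ω' 0 t h])
    · intro l
      refine f2_meas_dep (bb n) _ fun ω ω' h => ?_
      rw [f2_hit_congr z ω ω' 1 (bb n) _ h]
  rw [f2_sect_lint _ hm, ← lintegral_const_mul' _ _ ENNReal.ofReal_ne_top]
  refine lintegral_mono fun η => ?_
  simp only [Set.mem_ofPred_eq]
  by_cases h : ℓ ≤ ((lerw (act n) z η A).length : ℝ)
  · have h1 : pr {ξ | ¬ hit (act n) z ξ 1 (bb n) (st (lerw (act n) z η A)) ∧
        ℓ ≤ ((lerw (act n) z η A).length : ℝ)} = f2f n z (lerw (act n) z η A) := by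
      unfold f2f
      congr 1
      ext ξ
      simp only [Set.mem_ofPred_eq]
      exact and_iff_left h
    rw [h1]
    calc ENNReal.ofReal ℓ * ENNReal.ofReal (f2f n z (lerw (act n) z η A))
        ≤ ENNReal.ofReal ((lerw (act n) z η A).length : ℝ) *
          ENNReal.ofReal (f2f n z (lerw (act n) z η A)) := by
          gcongr
      _ = ∑ _i ∈ Finset.range (lerw (act n) z η A).length,
          ENNReal.ofReal (f2f n z (lerw (act n) z η A)) := by
          rw [Finset.sum_const, Finset.card_range, nsmul_eq_mul, ENNReal.ofReal_natCast]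
      _ ≤ _ := by
          refine Finset.sum_le_sum fun i _ => ENNReal.ofReal_le_ofReal ?_
          exact f2f_anti n z _ _ fun y hy => List.mem_of_mem_take hy
  · have h1 : {ξ | ¬ hit (act n) z ξ 1 (bb n) (st (lerw (act n) z η A)) ∧
        ℓ ≤ ((lerw (act n) z η A).length : ℝ)} = ∅ := by
      ext ξ
      simp only [Set.mem_ofPred_eq, Set.mem_empty_iff_false, iff_false]
      exact fun h2 => h h2.2
    rw [h1]
    unfold pr
    rw [measureReal_empty, ENNReal.ofReal_zero, mul_zero]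
    exact zero_le

/-- the bound for the sum over the times -/
theorem f2_total (A : Set (V n)) (hA : A.Nonempty) (H : ℝ) (hH : 1 ≤ H)
    (hE : ∀ x, Et n A x ≤ H)
    (z : V n) (C1 C2 C3 C4 : ℝ) (hC1 : 0 ≤ C1) (hC2 : 0 ≤ C2) (hC3 : 0 ≤ C3)
    (h1 : ∀ l : ℕ, pr {ω | l ≤ tau (act n) z ω A ∧
      hit (act n) z ω (i0 n) l (st (seg (act n) z ω 0 (i0 n / 2)))} ≤
      C1 * (1 + l / H) * (2 : ℝ) ^ (-((l : ℝ) / (3 * H))))
    (h2 : ∀ x : V n, pr {ω | hit (act n) x ω (i0 n) (tau (act n) x ω A)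
      (st (seg (act n) x ω 0 (i0 n / 2)))} ≤ C2)
    (h3 : ∀ x : V n, pr {ω | ∃ i, i < bb n ∧ ∃ j, bb n + i0 n / 2 ≤ j ∧ j ≤ bb n + i0 n ∧
      pos (act n) x ω i = pos (act n) x ω j} ≤ C3)
    (h4 : pr2 {ω | ∃ i, 1 ≤ i ∧ i ≤ bb n ∧ ∃ j, i0 n / 2 ≤ j ∧ j ≤ i0 n ∧
      pos (act n) z ω.1 i = pos (act n) z ω.2 j} ≤ C4)
    (hb : 1 ≤ bb n) (hi : i0 n ≤ 2 * bb n) (hbH : (bb n : ℝ) + i0 n ≤ 3 * H) (CD : ℝ)
    (hD : ∀ j : ℕ, j ≤ 2 →
      Summable (fun t : ℕ => (t : ℝ) ^ j * (2 * (2 : ℝ) ^ (-((t : ℝ) / (3 * H))))) ∧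
      ∑' t : ℕ, (t : ℝ) ^ j * (2 * (2 : ℝ) ^ (-((t : ℝ) / (3 * H)))) ≤ CD * H ^ (j + 1))
    (ℓ : ℝ) (hℓ : 0 < ℓ) :
    pr2 {ω | ¬ hit (act n) z ω.1 1 (bb n) (st (lerw (act n) z ω.2 A)) ∧
      ℓ ≤ ((lerw (act n) z ω.2 A).length : ℝ)} ≤
      (6 * bb n + (2 * (aloc n (i0 n) ^ 2 + C2 + C3 + C4) + C1) * (2 * CD * H)) / ℓ := by
  have hH0 : 0 < H := by linarith
  have hC4 : 0 ≤ C4 := le_trans measureReal_nonneg h4
  obtain ⟨κ, hκ⟩ : ∃ κ : ℝ, κ = 2 * (aloc n (i0 n) ^ 2 + C2 + C3 + C4) + C1 := ⟨_, rfl⟩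
  have hκ0 : 0 ≤ κ := by rw [hκ]; positivity
  obtain ⟨G, hG⟩ : ∃ G : ℕ → ℝ, ∀ t : ℕ, G t = κ * ((2 * (2 : ℝ) ^ (-((t : ℝ) / (3 * H)))) +
      t / H * (2 * (2 : ℝ) ^ (-((t : ℝ) / (3 * H))))) := ⟨_, fun _ => rfl⟩
  have hG0 : ∀ t, 0 ≤ G t := fun t => by rw [hG]; positivity
  obtain ⟨hs0, hd0⟩ := hD 0 (by norm_num)
  obtain ⟨hs1, hd1⟩ := hD 1 (by norm_num)
  simp only [pow_zero, one_mul, zero_add, pow_one] at hs0 hd0 hs1 hd1
  have hGe : ∀ t : ℕ, G t = κ * (2 * (2 : ℝ) ^ (-((t : ℝ) / (3 * H)))) +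
      κ / H * ((t : ℝ) * (2 * (2 : ℝ) ^ (-((t : ℝ) / (3 * H))))) := fun t => by
    rw [hG]; ring
  have hGs : Summable G := by
    have := (hs0.mul_left κ).add (hs1.mul_left (κ / H))
    exact this.congr fun t => (hGe t).symm
  have hGt : ∑' t, G t ≤ κ * (2 * CD * H) := by
    have e01 : ∑' t : ℕ, κ * (2 * (2 : ℝ) ^ (-((t : ℝ) / (3 * H)))) =
        κ * ∑' t : ℕ, (2 * (2 : ℝ) ^ (-((t : ℝ) / (3 * H)))) := tsum_mul_left
    have e02 : ∑' t : ℕ, κ / H * ((t : ℝ) * (2 * (2 : ℝ) ^ (-((t : ℝ) / (3 * H))))) =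
        κ / H * ∑' t : ℕ, (t : ℝ) * (2 * (2 : ℝ) ^ (-((t : ℝ) / (3 * H)))) := tsum_mul_left
    rw [tsum_congr hGe, (hs0.mul_left κ).tsum_add (hs1.mul_left (κ / H)), e01, e02]
    have e1 : κ / H * ∑' t : ℕ, (t : ℝ) * (2 * (2 : ℝ) ^ (-((t : ℝ) / (3 * H)))) ≤
        κ / H * (CD * H ^ (1 + 1)) := mul_le_mul_of_nonneg_left hd1 (by positivity)
    have e2 : κ * ∑' t : ℕ, (2 * (2 : ℝ) ^ (-((t : ℝ) / (3 * H)))) ≤ κ * (CD * H) :=
      mul_le_mul_of_nonneg_left hd0 hκ0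
    have e3 : κ / H * (CD * H ^ (1 + 1)) = κ * (CD * H) := by
      field_simp
      ring
    linarith
  have hmk := f2_markov n A z ℓ
  have hot := onept_time (act n) A (act_reach n A hA) z
    (fun ζ _ => ENNReal.ofReal (f2f n z ζ))
  rw [hot] at hmk
  have hterm : ∀ t : ℕ, ∫⁻ ω, (open Classical in if t ≤ tau (act n) z ω A ∧
        (∀ j, j < t → pos (act n) z ω j ∉ le (seg (act n) z ω t (tau (act n) z ω A))) then
        ENNReal.ofReal (f2f n z (le (seg (act n) z ω 0 t))) else 0) ∂(mu DD) ≤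
      (if t < 4 * bb n then (1 : ENNReal) else 0) +
      (∫⁻ ω, ENNReal.ofReal (ind (t ≤ tau (act n) z ω A ∧
        tau (act n) z ω A < t + i0 n)) ∂(mu DD) + ENNReal.ofReal (G t)) := by
    intro t
    split_ifs with ht
    · refine le_trans ?_ le_self_add
      calc _ ≤ ∫⁻ _ω, (1 : ENNReal) ∂(mu DD) := by
            refine lintegral_mono fun ω => ?_
            split_ifs
            · rw [← ENNReal.ofReal_one]
              exact ENNReal.ofReal_le_ofReal (f2f_le_one n z _)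
            · exact zero_le
        _ = 1 := by rw [lintegral_const, measure_univ, mul_one]
    · rw [zero_add, hG, hκ]
      exact f2_term n A hA H hH hE z C1 C2 C3 C4 hC1 hC2 hC3 h1 h2 h3 h4 hb hi hbH t
        (not_lt.1 ht)
  have hsum := ENNReal.tsum_le_tsum hterm
  rw [ENNReal.tsum_add, ENNReal.tsum_add] at hsum
  have e1 : ∑' t : ℕ, (if t < 4 * bb n then (1 : ENNReal) else 0) = ((4 * bb n : ℕ) : ENNReal) := by
    rw [tsum_eq_sum (s := Finset.range (4 * bb n))]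
    · rw [Finset.sum_congr rfl fun t ht => if_pos (Finset.mem_range.1 ht)]
      simp
    · intro t ht
      rw [if_neg fun h => ht (Finset.mem_range.2 h)]
  have e2 : ∑' t : ℕ, ENNReal.ofReal (G t) = ENNReal.ofReal (∑' t, G t) :=
    (ENNReal.ofReal_tsum_of_nonneg hG0 hGs).symm
  rw [e1, e2] at hsum
  have e3 : ENNReal.ofReal ℓ * ((mu DD).prod (mu DD))
      {ω | ¬ hit (act n) z ω.1 1 (bb n) (st (lerw (act n) z ω.2 A)) ∧
        ℓ ≤ ((lerw (act n) z ω.2 A).length : ℝ)} ≤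
      ENNReal.ofReal (6 * bb n + κ * (2 * CD * H)) := by
    refine (hmk.trans (le_of_eq (tsum_congr fun t => lintegral_congr fun ω => ?_))).trans
      (hsum.trans ?_)
    · by_cases hc : t ≤ tau (act n) z ω A ∧
        (∀ j, j < t → pos (act n) z ω j ∉ le (seg (act n) z ω t (tau (act n) z ω A)))
      · rw [if_pos hc, if_pos hc]
      · rw [if_neg hc, if_neg hc]
    have e4 := f2_first n A z
    calc ((4 * bb n : ℕ) : ENNReal) + (∑' t : ℕ, ∫⁻ ω, ENNReal.ofReal (ind (t ≤ tau (act n) z ω A ∧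
          tau (act n) z ω A < t + i0 n)) ∂(mu DD) + ENNReal.ofReal (∑' t, G t))
        ≤ ((4 * bb n : ℕ) : ENNReal) + (((2 * bb n : ℕ) : ENNReal) +
          ENNReal.ofReal (κ * (2 * CD * H))) := by
          gcongr
          exact e4.trans (by exact_mod_cast hi)
      _ = ENNReal.ofReal (6 * bb n + κ * (2 * CD * H)) := by
          have e5 : 0 ≤ κ * (2 * CD * H) := le_trans (tsum_nonneg hG0) hGt
          rw [ENNReal.ofReal_add (by positivity) e5, ← add_assoc]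
          congr 1
          rw [← Nat.cast_add, ← ENNReal.ofReal_natCast]
          congr 1
          push_cast
          ring
  have e5 : 0 ≤ κ * (2 * CD * H) := le_trans (tsum_nonneg hG0) hGt
  rw [← hκ, le_div_iff₀ hℓ, mul_comm]
  have e6 := ENNReal.toReal_mono ENNReal.ofReal_ne_top e3
  rw [ENNReal.toReal_mul, ENNReal.toReal_ofReal hℓ.le,
    ENNReal.toReal_ofReal (by positivity)] at e6
  exact e6

end f2main

theorem f2 : ∃ C : ℝ, 0 < C ∧ ∃ n0 : ℕ, ∀ (n : ℕ) [NeZero n], n0 ≤ n →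
    ∀ (A : Set (V n)), A.Nonempty → ∀ H : ℝ, (n : ℝ) ^ 2 ≤ H → H ≤ (n : ℝ) ^ ((9 : ℝ) / 4) →
    (∀ x, Et n A x ≤ H) → ∀ (z : V n) (ℓ : ℝ), 0 < ℓ →
    pr2 {ω | ¬ hit (act n) z ω.1 1 (bb n) (st (lerw (act n) z ω.2 A)) ∧
      ℓ ≤ ((lerw (act n) z ω.2 A).length : ℝ)} ≤ C * H * LL n ^ (-(2 / 3 : ℝ)) / ℓ := by
  obtain ⟨C1, hC1, m1, h1⟩ := d1
  obtain ⟨C2, hC2, m2, h2⟩ := d2
  obtain ⟨C3, hC3, m3, h3⟩ := d3
  obtain ⟨C4, hC4, m4, h4⟩ := d3'
  obtain ⟨C5, hC5, m5, h5⟩ := aloc_le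
  obtain ⟨CD, hCD, hD⟩ := decay_sum
  obtain ⟨m6, h6⟩ := LL_large 1
  obtain ⟨m7, h7⟩ := bb_bounds
  obtain ⟨m8, h8⟩ := LL_rpow_le 1 ((1 : ℝ) / 2) (2 / 3 : ℝ) (by norm_num)
  refine ⟨6 + (2 * (C5 ^ 2 + C2 + C3 + C4) + C1) * (2 * CD), by positivity,
    m1 + m2 + m3 + m4 + m5 + m6 + m7 + m8 + 2, fun n _ hn A hA H hH1 hH2 hE z ℓ hℓ => ?_⟩
  have hL1 : 1 ≤ LL n := h6 n (by omega)
  have hL0 : 0 < LL n := by linarith
  obtain ⟨hb1, hb2, -, -, -, hb3⟩ := h7 n (by omega)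
  have hn1 : (1 : ℝ) ≤ n := by exact_mod_cast (by omega : 1 ≤ n)
  have hn0 : (0 : ℝ) < n := by linarith
  have hHn : 1 ≤ H := le_trans (one_le_pow₀ hn1) hH1
  have hH0 : 0 < H := by linarith
  obtain ⟨⟨hi1, hi2⟩, -⟩ := i0_spec n
  have hbpos : 1 ≤ bb n := by
    by_contra hcon
    have e1 : bb n = 0 := by omega
    rw [e1, Nat.cast_zero] at hb1
    have : 0 < (n : ℝ) ^ ((3 : ℝ) / 2) / 2 := by positivity
    linarith
  have hbsq : (bb n : ℝ) ≤ H := le_trans (by exact_mod_cast hb3) hH1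
  have hbH : (bb n : ℝ) + i0 n ≤ 3 * H := by
    have e1 : (i0 n : ℝ) ≤ 2 * bb n := by exact_mod_cast hi2
    linarith
  have ht := f2_total n A hA H hHn hE z (C1 / LL n) (C2 / LL n) (C3 / LL n) (C4 / LL n)
    (by positivity) (by positivity) (by positivity)
    (fun l => h1 n (by omega) A hA H hH1 hH2 hE z l)
    (fun x => h2 n (by omega) A hA H hH1 hH2 hE x)
    (fun x => h3 n (by omega) x) (h4 n (by omega) z) hbpos hi2 hbH CD (hD H hHn) ℓ hℓ
  refine ht.trans (div_le_div_of_nonneg_right ?_ hℓ.le)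
  obtain ⟨w, hw⟩ : ∃ w : ℝ, w = LL n ^ (-(2 / 3 : ℝ)) := ⟨_, rfl⟩
  have hw0 : 0 < w := by rw [hw]; positivity
  rw [← hw]
  have ea : aloc n (i0 n) ^ 2 ≤ C5 ^ 2 * w := by
    have e1 := h5 n (by omega)
    have e2 := pow_le_pow_left₀ (aloc_nonneg n (i0 n)) e1 2
    rw [mul_pow, ← Real.rpow_natCast (LL n ^ (-(1 / 3 : ℝ))), ← Real.rpow_mul hL0.le] at e2
    rw [show (-(1 / 3 : ℝ)) * ((2 : ℕ) : ℝ) = -(2 / 3 : ℝ) by norm_num] at e2
    rw [hw]
    exact e2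
  have eL : 1 / LL n ≤ w := by
    rw [hw, one_div, ← Real.rpow_neg_one]
    exact Real.rpow_le_rpow_of_exponent_le hL1 (by norm_num)
  have eb : (bb n : ℝ) ≤ H * w := by
    have e1 := h8 n (by omega)
    rw [one_mul] at e1
    have e2 : LL n ^ (2 / 3 : ℝ) * w = 1 := by
      rw [hw, ← Real.rpow_add hL0]
      norm_num
    have e3 : (n : ℝ) ^ ((3 : ℝ) / 2) * LL n ^ (2 / 3 : ℝ) ≤ H := by
      calc (n : ℝ) ^ ((3 : ℝ) / 2) * LL n ^ (2 / 3 : ℝ)
          ≤ (n : ℝ) ^ ((3 : ℝ) / 2) * (n : ℝ) ^ ((1 : ℝ) / 2) := by gcongr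
        _ = (n : ℝ) ^ 2 := by
            rw [← Real.rpow_add hn0, ← Real.rpow_natCast]
            norm_num
        _ ≤ H := hH1
    calc (bb n : ℝ) ≤ (n : ℝ) ^ ((3 : ℝ) / 2) := hb2
      _ = (n : ℝ) ^ ((3 : ℝ) / 2) * LL n ^ (2 / 3 : ℝ) * w := by rw [mul_assoc, e2, mul_one]
      _ ≤ H * w := mul_le_mul_of_nonneg_right e3 hw0.le
  have k1 : C1 / LL n ≤ C1 * w := by
    rw [div_eq_mul_one_div]; exact mul_le_mul_of_nonneg_left eL hC1.le
  have k2 : C2 / LL n ≤ C2 * w := by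
    rw [div_eq_mul_one_div]; exact mul_le_mul_of_nonneg_left eL hC2.le
  have k3 : C3 / LL n ≤ C3 * w := by
    rw [div_eq_mul_one_div]; exact mul_le_mul_of_nonneg_left eL hC3.le
  have k4 : C4 / LL n ≤ C4 * w := by
    rw [div_eq_mul_one_div]; exact mul_le_mul_of_nonneg_left eL hC4.le
  have k5 : 2 * (aloc n (i0 n) ^ 2 + C2 / LL n + C3 / LL n + C4 / LL n) + C1 / LL n ≤
      (2 * (C5 ^ 2 + C2 + C3 + C4) + C1) * w := by nlinarith
  calc 6 * (bb n : ℝ) + (2 * (aloc n (i0 n) ^ 2 + C2 / LL n + C3 / LL n + C4 / LL n) +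
        C1 / LL n) * (2 * CD * H)
      ≤ 6 * (H * w) + ((2 * (C5 ^ 2 + C2 + C3 + C4) + C1) * w) * (2 * CD * H) := by gcongr
    _ = (6 + (2 * (C5 ^ 2 + C2 + C3 + C4) + C1) * (2 * CD)) * H * w := by ring

end Pool.Agent.UST
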