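import Pool.Agent.Helper54.UST.Mix
import Pool.Agent.Helper54.UST.LE2
import Pool.Agent.Helper54.UST.Av

/-! Paper Lemma P (persistence). -/

namespace Pool.Agent.UST

open MeasureTheory

namespace Persist

variable {n : ℕ} [NeZero n]

/-- shortest initial segment with `q >= η` (empty if there is none) -/
noncomputable def short (η : ℝ) (l : List (V n)) : List (V n) :=
  l.take (sInf {i | η ≤ qq n (st (l.take i))})

theorem NN_pos : 0 < NN n := by
  unfold NN
  have : (0 : ℝ) < n := by exact_mod_cast Nat.pos_of_ne_zero (NeZero.ne n)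
  positivity

theorem qq_empty : qq n (st ([] : List (V n))) ≤ 0 := by
  have h := pm_card n (2 * kk n) (st ([] : List (V n)))
  have h1 : st ([] : List (V n)) = ∅ := by
    ext y; simp [st]
  unfold qq
  rw [h1] at h ⊢
  simpa using h

theorem short_le (η : ℝ) (hη : 0 < η) (hη' : (2 * (kk n : ℝ) + 1) / NN n ≤ η)
    (l : List (V n)) : qq n (st (short η l)) ≤ 2 * η := by
  unfold short
  rcases Nat.eq_zero_or_pos (sInf {i | η ≤ qq n (st (l.take i))}) with h0 | h0
  · rw [h0, List.take_zero]
    have := qq_empty (n := n)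
    linarith
  · obtain ⟨i, hi⟩ := Nat.exists_eq_succ_of_ne_zero h0.ne'
    have h1 : ¬ η ≤ qq n (st (l.take i)) := by
      intro h
      have h2 : sInf {i | η ≤ qq n (st (l.take i))} ≤ i := Nat.sInf_le h
      omega
    rw [hi, Nat.succ_eq_add_one]
    have h2 : ∃ y : V n, st (l.take (i + 1)) ⊆ st (l.take i) ∪ {y} := by
      by_cases hl : i < l.length
      · refine ⟨l[i], ?_⟩
        intro z hz
        have hz' : z ∈ l.take (i + 1) := hz
        rw [List.take_succ_eq_append_getElem hl, List.mem_append, List.mem_singleton] at hz'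
        rcases hz' with h | h
        · exact Or.inl h
        · exact Or.inr h
      · refine ⟨0, ?_⟩
        intro z hz
        left
        have hz' : z ∈ l.take (i + 1) := hz
        show z ∈ l.take i
        rw [List.take_of_length_le (by omega)] at hz' ⊢
        exact hz'
    obtain ⟨y, hy⟩ := h2
    have h3 : qq n (st (l.take (i + 1))) ≤ qq n (st (l.take i)) + pm n (2 * kk n) {y} :=
      (pm_mono n le_rfl hy).trans (pm_union n _ _ _)
    have h4 := pm_card n (2 * kk n) ({y} : Set (V n))
    rw [Set.ncard_singleton] at h4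
    push_cast at h4
    rw [mul_one] at h4
    push Not at h1
    linarith

theorem short_prefix (η : ℝ) {α' l : List (V n)} (h : α' <+: l) (hq : η ≤ qq n (st α')) :
    short η l <+: α' ∧ η ≤ qq n (st (short η l)) := by
  have h1 : α' = l.take α'.length := (List.prefix_iff_eq_take.mp h)
  have h2 : α'.length ∈ {i | η ≤ qq n (st (l.take i))} := by
    show η ≤ qq n (st (l.take α'.length))
    rw [← h1]
    exact hq
  have h3 : sInf {i | η ≤ qq n (st (l.take i))} ≤ α'.length := Nat.sInf_le h2
  have h4 := Nat.sInf_mem (s := {i | η ≤ qq n (st (l.take i))}) ⟨_, h2⟩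
  refine ⟨?_, h4⟩
  unfold short
  have h5 : l.take (sInf {i | η ≤ qq n (st (l.take i))}) =
      α'.take (sInf {i | η ≤ qq n (st (l.take i))}) := by
    conv_rhs => rw [h1]
    rw [List.take_take, min_eq_left h3]
  rw [h5]
  exact List.take_prefix _ _

theorem MM_split (γ : List (V n)) (x : V n) (ω : ℕ → DD) (s t : ℕ) (h : s ≤ t) :
    MM n γ x ω t = leF (MM n γ x ω s) (seg (act n) x ω (s + 1) t) := by
  unfold MM
  rw [← leF_append, ← seg_append (act n) x ω 1 s t (by omega) h]

/-- deterministic part -/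
theorem determ (η α : ℝ) (hη : 0 < η) (hα : 4 * η ≤ α) (γ : List (V n)) (x : V n)
    (ω : ℕ → DD) (j T t : ℕ) (hj : t0 n ≤ j) (hq : α ≤ qq n (st (MM n γ x ω j)))
    (hseg : qq n (st (seg (act n) x ω (j - t0 n) j)) ≤ α / 2)
    (hmiss : ¬ hit (act n) x ω j T (st (short η (MM n γ x ω (j - t0 n)))))
    (hjt : j ≤ t) (htT : t ≤ T) : η ≤ qq n (st (MM n γ x ω t)) := by
  have h1 := MM_split γ x ω (j - t0 n) j (by omega)
  obtain ⟨α', δ, h2, h3, h4⟩ := leF_decomp (MM n γ x ω (j - t0 n))
    (seg (act n) x ω (j - t0 n + 1) j)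
  rw [h2] at h1
  have h5 : st (MM n γ x ω j) ⊆ st α' ∪ st (seg (act n) x ω (j - t0 n) j) := by
    rw [h1]
    intro z hz
    have hz' : z ∈ α' ++ δ := hz
    rcases List.mem_append.mp hz' with h | h
    · exact Or.inl h
    · right
      have h6 := h4 z h
      rw [mem_seg] at h6
      show z ∈ seg (act n) x ω (j - t0 n) j
      rw [mem_seg]
      obtain ⟨i, hi1, hi2, hi3⟩ := h6
      exact ⟨i, by omega, hi2, hi3⟩
  have h6 : qq n (st (MM n γ x ω j)) ≤ qq n (st α') +
      qq n (st (seg (act n) x ω (j - t0 n) j)) :=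
    (pm_mono n le_rfl h5).trans (pm_union n _ _ _)
  have h7 : η ≤ qq n (st α') := by linarith
  obtain ⟨h8, h9⟩ := short_prefix η h3 h7
  have h10 : short η (MM n γ x ω (j - t0 n)) <+: MM n γ x ω j := by
    rw [h1]
    exact h8.trans (List.prefix_append _ _)
  have h11 : short η (MM n γ x ω (j - t0 n)) <+: MM n γ x ω t := by
    rw [MM_split γ x ω j t hjt]
    refine leF_keep h10 fun y hy hy' => hmiss ?_
    rw [mem_seg] at hy
    obtain ⟨i, hi1, hi2, hi3⟩ := hy
    refine ⟨i, by omega, by omega, ?_⟩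
    rw [hi3]
    exact List.dropLast_subset _ hy'
  refine h9.trans (pm_mono n le_rfl ?_)
  intro z hz
  exact h11.subset hz

theorem MM_dep (γ : List (V n)) (x : V n) (t s : ℕ) (hs : s ≤ t) (ω ω' : ℕ → DD)
    (h : ∀ i, i < t → ω i = ω' i) : MM n γ x ω s = MM n γ x ω' s := by
  unfold MM
  rw [seg_congr (act n) x ω ω' 1 s (fun i hi => h i (by omega))]

theorem measSet_dep (t : ℕ) (P : (ℕ → DD) → Prop)
    (h : ∀ ω ω' : ℕ → DD, (∀ i, i < t → ω i = ω' i) → (P ω ↔ P ω')) :
    MeasurableSet {ω | P ω} :=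
  measurableSet_setOfPred.mpr (measurable_dep t P (fun ω ω' hω => propext (h ω ω' hω)))

theorem hit_dep (x : V n) (ω ω' : ℕ → DD) (s t : ℕ) (B : Set (V n))
    (h : ∀ i, i < t → ω i = ω' i) : hit (act n) x ω s t B ↔ hit (act n) x ω' s t B := by
  rw [hit_iff, hit_iff, seg_congr (act n) x ω ω' s t h]

/-- shift invariance -/
theorem pr_sh (r : ℕ) (S : Set (ℕ → DD)) (hS : MeasurableSet S) :
    pr {ω | sh r ω ∈ S} = pr S := by
  unfold pr Measure.real
  congr 1
  have h1 := markov_lint (D := DD) r (fun _ η => S.indicator 1 η)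
    ((measurable_const.indicator hS).comp measurable_snd) (fun _ _ _ _ => rfl)
  have h2 : ∫⁻ ω, S.indicator 1 (sh r ω) ∂(mu DD) = mu DD {ω | sh r ω ∈ S} := by
    have h3 : (fun ω : ℕ → DD => S.indicator (1 : (ℕ → DD) → ENNReal) (sh r ω)) =
        (sh r ⁻¹' S).indicator 1 := by
      ext ω
      by_cases h : sh r ω ∈ S
      · rw [Set.indicator_of_mem h, Set.indicator_of_mem (show ω ∈ sh r ⁻¹' S from h)]
        rfl
      · rw [Set.indicator_of_notMem h, Set.indicator_of_notMem (show ω ∉ sh r ⁻¹' S from h)]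
    rw [h3, lintegral_indicator_one (measurable_sh r hS)]
    rfl
  rw [← h2, h1]
  simp only [lintegral_indicator_one hS, lintegral_const, measure_univ, mul_one]

theorem qq_seg_translate (x y : V n) (ω : ℕ → DD) (s t : ℕ) :
    qq n (st (seg (act n) y ω s t)) = qq n (st (seg (act n) x ω s t)) := by
  have h : st (seg (act n) y ω s t) = (fun z => z + (y - x)) '' st (seg (act n) x ω s t) := by
    ext z
    constructor
    · intro hz
      have hz' : z ∈ seg (act n) y ω s t := hz
      rw [mem_seg] at hz'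
      obtain ⟨i, hi1, hi2, hi3⟩ := hz'
      refine ⟨pos (act n) x ω i, ?_, ?_⟩
      · show pos (act n) x ω i ∈ seg (act n) x ω s t
        rw [mem_seg]
        exact ⟨i, hi1, hi2, rfl⟩
      · show pos (act n) x ω i + (y - x) = z
        rw [← pos_translate, add_sub_cancel, hi3]
    · rintro ⟨z', hz', rfl⟩
      have hz'' : z' ∈ seg (act n) x ω s t := hz'
      rw [mem_seg] at hz''
      obtain ⟨i, hi1, hi2, hi3⟩ := hz''
      show z' + (y - x) ∈ seg (act n) y ω s t
      rw [mem_seg]
      refine ⟨i, hi1, hi2, ?_⟩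
      rw [← hi3, ← pos_translate, add_sub_cancel]
  unfold qq
  rw [h, pm_translate]

end Persist

open Persist

theorem lemP (n : ℕ) [NeZero n] (x : V n) (γ : List (V n)) (hγ : Path1 γ x) (s : Finset ℕ)
    (T : ℕ) (hs : ∀ j ∈ s, t0 n ≤ j ∧ j ≤ T) (η α : ℝ) (hη : 0 < η) (hα : 4 * η ≤ α)
    (hη' : (2 * (kk n : ℝ) + 1) / NN n ≤ η) :
    pr {ω | ∃ j ∈ s, α ≤ qq n (st (MM n γ x ω j)) ∧
      ∃ t, j ≤ t ∧ t ≤ T ∧ qq n (st (MM n γ x ω t)) < η} ≤
      (s.card : ℝ) * (8 * (T / (2 * kk n) + 1 : ℕ) * η +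
        pr {ω | α / 2 < qq n (st (seg (act n) x ω 0 (t0 n)))}) := by
  have hpr0 : 0 ≤ pr {ω | α / 2 < qq n (st (seg (act n) x ω 0 (t0 n)))} := measureReal_nonneg
  rcases Nat.eq_zero_or_pos (kk n) with hk | hk
  · -- `n = 1`
    have hn : n = 1 := by
      by_contra hn
      have hn2 : 2 ≤ n := by
        have := Nat.pos_of_ne_zero (NeZero.ne n)
        omega
      have h1 : 0 < (n : ℝ) ^ 2 * Real.sqrt (LL n) := by
        have h2 : (0 : ℝ) < n := by positivity
        have h3 : 0 < LL n := Real.log_pos (by exact_mod_cast hn2)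
        positivity
      have h2 : 0 < kk n := Nat.ceil_pos.mpr h1
      omega
    have h1 : 1 ≤ η := by
      have h2 : NN n = 1 := by unfold NN; rw [hn]; norm_num
      rw [h2, hk] at hη'
      simpa using hη'
    have h2 : {ω | ∃ j ∈ s, α ≤ qq n (st (MM n γ x ω j)) ∧
      ∃ t, j ≤ t ∧ t ≤ T ∧ qq n (st (MM n γ x ω t)) < η} = ∅ := by
      ext ω
      simp only [Set.mem_ofPred_eq, Set.mem_empty_iff_false, iff_false]
      rintro ⟨j, _, h, _⟩
      have := pm_le_one n (2 * kk n) (st (MM n γ x ω j))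
      unfold qq at h
      linarith
    rw [h2]
    unfold pr at *
    rw [measureReal_empty]
    have : (0 : ℝ) ≤ 8 * (T / (2 * kk n) + 1 : ℕ) * η := by positivity
    exact mul_nonneg (Nat.cast_nonneg _) (by linarith)
  · set J : ℕ := T / (2 * kk n) + 1 with hJ
    have hJ1 : 1 ≤ J := Nat.succ_le_succ (Nat.zero_le _)
    have hTJ : T ≤ J * (2 * kk n) := by
      have h1 : T < (T / (2 * kk n) + 1) * (2 * kk n) := by
        have h2 := Nat.lt_succ_self (T / (2 * kk n))
        have h3 := (Nat.div_lt_iff_lt_mul (show 0 < 2 * kk n by omega)).mp h2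
        simpa using h3
      exact h1.le
    -- the union bound
    have hsub : {ω | ∃ j ∈ s, α ≤ qq n (st (MM n γ x ω j)) ∧
        ∃ t, j ≤ t ∧ t ≤ T ∧ qq n (st (MM n γ x ω t)) < η} ⊆
        ⋃ j ∈ s, ({ω | hit (act n) x ω j T (st (short η (MM n γ x ω (j - t0 n))))} ∪
          {ω | α / 2 < qq n (st (seg (act n) x ω (j - t0 n) j))}) := by
      rintro ω ⟨j, hj, h1, t, h2, h3, h4⟩
      rw [Set.mem_iUnion₂]
      refine ⟨j, hj, ?_⟩
      by_contra hcon
      rw [Set.mem_union, not_or] at hcon
      obtain ⟨h5, h6⟩ := hcon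
      have h7 := determ η α hη hα γ x ω j T t (hs j hj).1 h1 (not_lt.mp h6) h5 h2 h3
      linarith
    have hstep : ∀ j ∈ s, pr {ω | hit (act n) x ω j T (st (short η (MM n γ x ω (j - t0 n))))} +
        pr {ω | α / 2 < qq n (st (seg (act n) x ω (j - t0 n) j))} ≤
        8 * (J : ℝ) * η + pr {ω | α / 2 < qq n (st (seg (act n) x ω 0 (t0 n)))} := by
      intro j hj
      obtain ⟨hj1, hj2⟩ := hs j hj
      refine add_le_add ?_ ?_
      · have hm : MeasurableSet {ω | hit (act n) x ω j T
            (st (short η (MM n γ x ω (j - t0 n))))} := by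
          refine measSet_dep T _ fun ω ω' h => ?_
          rw [MM_dep γ x T (j - t0 n) (by omega) ω ω' h]
          exact hit_dep x ω ω' j T _ h
        have h1 : pr {ω | hit (act n) x ω j T (st (short η (MM n γ x ω (j - t0 n))))} =
            ∫ ω, (1 : ℝ) * ind (hit (act n) x ω j (j + (T - j))
              (st (short η (MM n γ x ω (j - t0 n))))) ∂(mu DD) := by
          have h2 : j + (T - j) = T := by omega
          rw [h2]
          simp only [one_mul]
          exact (integral_ind (mu DD) _ hm).symm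
        rw [h1]
        refine (hit_mix_le n x j (T - j) hj1 (fun _ => 1) (fun _ => zero_le_one)
          (fun ω => st (short η (MM n γ x ω (j - t0 n)))) (fun _ _ _ => rfl)
          (fun ω ω' h => by rw [MM_dep γ x (j - t0 n) (j - t0 n) le_rfl ω ω' h])).trans ?_
        have h3 : ∀ ω : ℕ → DD, (1 : ℝ) * pm n (T - j)
            (st (short η (MM n γ x ω (j - t0 n)))) ≤ 4 * (J : ℝ) * η := by
          intro ω
          rw [one_mul]
          have h4 : pm n (T - j) (st (short η (MM n γ x ω (j - t0 n)))) ≤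
              ((J : ℝ) + 1) * qq n (st (short η (MM n γ x ω (j - t0 n)))) :=
            (pm_mono n (show T - j ≤ J * (2 * kk n) by omega) (Set.Subset.refl _)).trans
              (pm_mul n J (2 * kk n) _)
          have h5 := short_le η hη hη' (MM n γ x ω (j - t0 n))
          have h6 : (1 : ℝ) ≤ J := by exact_mod_cast hJ1
          have h7 : ((J : ℝ) + 1) * qq n (st (short η (MM n γ x ω (j - t0 n)))) ≤
              ((J : ℝ) + 1) * (2 * η) := mul_le_mul_of_nonneg_left h5 (by linarith)
          nlinarith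
        have h8 : ∫ ω, (1 : ℝ) * pm n (T - j) (st (short η (MM n γ x ω (j - t0 n)))) ∂(mu DD) ≤
            4 * (J : ℝ) * η := by
          have h9 := integral_mono_of_nonneg (μ := mu DD)
            (f := fun ω => (1 : ℝ) * pm n (T - j) (st (short η (MM n γ x ω (j - t0 n)))))
            (g := fun _ => 4 * (J : ℝ) * η)
            (Filter.Eventually.of_forall fun ω => by
              show (0 : ℝ) ≤ 1 * _
              rw [one_mul]
              exact pm_nonneg n _ _)
            (integrable_const _) (Filter.Eventually.of_forall h3)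
          simpa using h9
        linarith
      · have h1 : {ω | α / 2 < qq n (st (seg (act n) x ω (j - t0 n) j))} =
            {ω | sh (j - t0 n) ω ∈ {η | α / 2 < qq n (st (seg (act n) x η 0 (t0 n)))}} := by
          ext ω
          have h2 := seg_shift (act n) x ω (j - t0 n) 0 (t0 n)
          rw [add_zero, Nat.sub_add_cancel hj1] at h2
          simp only [Set.mem_ofPred_eq]
          rw [h2, qq_seg_translate x]
        rw [h1, pr_sh]
        refine measSet_dep (t0 n) _ fun ω ω' h => ?_
        rw [seg_congr (act n) x ω ω' 0 (t0 n) h]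
    calc pr {ω | ∃ j ∈ s, α ≤ qq n (st (MM n γ x ω j)) ∧
          ∃ t, j ≤ t ∧ t ≤ T ∧ qq n (st (MM n γ x ω t)) < η}
        ≤ pr (⋃ j ∈ s, ({ω | hit (act n) x ω j T (st (short η (MM n γ x ω (j - t0 n))))} ∪
          {ω | α / 2 < qq n (st (seg (act n) x ω (j - t0 n) j))})) :=
          measureReal_mono hsub (measure_ne_top _ _)
      _ ≤ ∑ j ∈ s, pr ({ω | hit (act n) x ω j T (st (short η (MM n γ x ω (j - t0 n))))} ∪
          {ω | α / 2 < qq n (st (seg (act n) x ω (j - t0 n) j))}) :=
          measureReal_biUnion_finset_le s _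
      _ ≤ ∑ j ∈ s, (8 * (J : ℝ) * η +
          pr {ω | α / 2 < qq n (st (seg (act n) x ω 0 (t0 n)))}) :=
          Finset.sum_le_sum fun j hj => (measureReal_union_le _ _).trans (hstep j hj)
      _ = _ := by
          rw [Finset.sum_const, nsmul_eq_mul]

end Pool.Agent.UST
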