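import Pool.Agent.Helper54.UST.GrowG
import Pool.Agent.Helper54.UST.Persist

/-! Paper Corollary GP (a). -/

namespace Pool.Agent.UST

open MeasureTheory

namespace GPaAux

open Filter

lemma gpa_pr_mono {s t : Set (ℕ → DD)} (h : s ⊆ t) : pr s ≤ pr t := by
  unfold pr
  exact measureReal_mono h (measure_ne_top _ _)

lemma gpa_pr_union (s t : Set (ℕ → DD)) : pr (s ∪ t) ≤ pr s + pr t := by
  unfold pr
  exact measureReal_union_le _ _

lemma gpa_ev_LL (K : ℝ) : ∀ᶠ n : ℕ in atTop, K ≤ LL n :=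
  (Real.tendsto_log_atTop.comp tendsto_natCast_atTop_atTop).eventually_ge_atTop K

lemma gpa_ev_sqrt (K : ℝ) : ∀ᶠ n : ℕ in atTop, K ≤ Real.sqrt (LL n) :=
  (Real.tendsto_sqrt_atTop.comp (Real.tendsto_log_atTop.comp
    tendsto_natCast_atTop_atTop)).eventually_ge_atTop K

lemma gpa_ev_nat (K : ℝ) : ∀ᶠ n : ℕ in atTop, K ≤ (n : ℝ) :=
  tendsto_natCast_atTop_atTop.eventually_ge_atTop K

lemma gpa_ev_exp (ε : ℝ) (hε : 0 < ε) :
    ∀ᶠ n : ℕ in atTop, Real.exp (-((n : ℝ) ^ ((1 : ℝ) / 4))) ≤ ε := by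
  have h1 : Tendsto (fun n : ℕ => (n : ℝ) ^ ((1 : ℝ) / 4)) atTop atTop :=
    (tendsto_rpow_atTop (by norm_num)).comp tendsto_natCast_atTop_atTop
  have h2 : Tendsto (fun n : ℕ => Real.exp (-((n : ℝ) ^ ((1 : ℝ) / 4)))) atTop (nhds 0) :=
    Real.tendsto_exp_neg_atTop_nhds_zero.comp h1
  exact (h2.eventually (gt_mem_nhds hε)).mono fun n hn => hn.le

lemma gpa_kk_ge (n : ℕ) : (n : ℝ) ^ 2 * Real.sqrt (LL n) ≤ kk n := Nat.le_ceil _

lemma gpa_kk_le (n : ℕ) (hn : 1 ≤ n) (hL : 1 ≤ LL n) : (kk n : ℝ) ≤ (n : ℝ) ^ 3 + 1 := by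
  have hn' : (1 : ℝ) ≤ n := by exact_mod_cast hn
  have h1 : (kk n : ℝ) < (n : ℝ) ^ 2 * Real.sqrt (LL n) + 1 := Nat.ceil_lt_add_one (by positivity)
  have h2 : Real.sqrt (LL n) ≤ LL n := by
    rw [Real.sqrt_le_left (by linarith)]
    nlinarith
  have h3 : LL n ≤ n := by
    have := Real.log_le_sub_one_of_pos (show (0 : ℝ) < n by linarith)
    unfold LL
    linarith
  have h4 : (n : ℝ) ^ 2 * Real.sqrt (LL n) ≤ (n : ℝ) ^ 2 * n :=
    mul_le_mul_of_nonneg_left (h2.trans h3) (by positivity)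
  nlinarith

end GPaAux

open GPaAux in
theorem gpA (θ lam ε : ℝ) (hθ : 0 < θ) (hθ1 : θ ≤ 1) (hlam : 1 ≤ lam) (hε : 0 < ε) :
    ∃ η : ℝ, 0 < η ∧ ∃ n0 : ℕ, ∀ (n : ℕ) [NeZero n], n0 ≤ n →
    ∀ (x : V n) (γ : List (V n)), Path1 γ x →
    pr {ω | ∃ t : ℕ, θ * kk n ≤ t ∧ (t : ℝ) ≤ lam * kk n ∧
      qq n (st (MM n γ x ω t)) < η} ≤ ε := by
  obtain ⟨c, hc, hc1, hG⟩ := lemG_iter
  obtain ⟨C, hC, nC, hUC⟩ := lemUC_t0
  -- the number of blocks
  obtain ⟨J0, hJ0⟩ := exists_pow_lt_of_lt_one (show (0 : ℝ) < ε / 2 by positivity)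
    (show 1 - c < 1 by linarith)
  obtain ⟨J, hJ⟩ : ∃ J, J = J0 + 1 := ⟨_, rfl⟩
  have hJ1 : (1 : ℝ) ≤ J := by rw [hJ]; push_cast; linarith [Nat.cast_nonneg (α := ℝ) J0]
  have hJp : (1 - c) ^ J ≤ ε / 2 := by
    refine le_trans ?_ hJ0.le
    rw [hJ]
    exact pow_le_pow_of_le_one (by linarith) (by linarith) (Nat.le_succ _)
  obtain ⟨θ', hθ'⟩ : ∃ θ', θ' = θ / (J + 1) := ⟨_, rfl⟩
  have hθ'0 : 0 < θ' := by rw [hθ']; positivity
  have hθ'1 : θ' ≤ 1 := by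
    rw [hθ', div_le_one (by positivity)]
    linarith
  obtain ⟨nG, hnG⟩ := hG θ' hθ'0 hθ'1
  obtain ⟨η, hη⟩ : ∃ η, η = min (c * θ' / 4) (ε / (128 * lam * J)) := ⟨_, rfl⟩
  have hη0 : 0 < η := by
    rw [hη]
    exact lt_min (by positivity) (by positivity)
  have hηα : 4 * η ≤ c * θ' := by
    have := min_le_left (c * θ' / 4) (ε / (128 * lam * J))
    rw [← hη] at this
    linarith
  have hηε : 32 * lam * J * η ≤ ε / 4 := by
    have := min_le_right (c * θ' / 4) (ε / (128 * lam * J))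
    rw [← hη, le_div_iff₀ (by positivity)] at this
    linarith
  refine ⟨η, hη0, ?_⟩
  obtain ⟨n1, hn1⟩ := Filter.eventually_atTop.1 (gpa_ev_LL 1)
  obtain ⟨n2, hn2⟩ := Filter.eventually_atTop.1 (gpa_ev_sqrt (8 / θ'))
  obtain ⟨n3, hn3⟩ := Filter.eventually_atTop.1 (gpa_ev_sqrt (2 * C / (c * θ')))
  obtain ⟨n4, hn4⟩ := Filter.eventually_atTop.1 (gpa_ev_nat (2 * J / θ'))
  obtain ⟨n5, hn5⟩ := Filter.eventually_atTop.1 (gpa_ev_exp (ε / (8 * J)) (by positivity))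
  obtain ⟨n6, hn6⟩ := Filter.eventually_atTop.1 (gpa_ev_nat (5 / η))
  refine ⟨nC + nG + n1 + n2 + n3 + n4 + n5 + n6 + 1, fun n _ hn x γ hγ => ?_⟩
  have g1 := hn1 n (by omega)
  have g2 := hn2 n (by omega)
  have g3 := hn3 n (by omega)
  have g4 := hn4 n (by omega)
  have g5 := hn5 n (by omega)
  have g6 := hn6 n (by omega)
  have gG := hnG n (by omega)
  have gC := hUC n (by omega)
  have hn1' : 1 ≤ n := by omega
  have hnR : (1 : ℝ) ≤ n := by exact_mod_cast hn1'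
  have hs1 : 1 ≤ Real.sqrt (LL n) := by
    rw [show (1 : ℝ) = Real.sqrt 1 by simp]
    exact Real.sqrt_le_sqrt g1
  have hkn : (n : ℝ) ≤ kk n := by
    refine le_trans ?_ (gpa_kk_ge n)
    nlinarith
  have hk0 : (0 : ℝ) < kk n := by linarith
  have hk0' : 0 < kk n := by exact_mod_cast hk0
  -- the block length
  obtain ⟨t1, ht1⟩ : ∃ t1, t1 = ⌈θ' * kk n / 2⌉₊ := ⟨_, rfl⟩
  have ht1g : θ' * kk n / 2 ≤ t1 := ht1 ▸ Nat.le_ceil _
  have ht1l : (t1 : ℝ) ≤ θ' * kk n / 2 + 1 := by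
    rw [ht1]
    exact (Nat.ceil_lt_add_one (by positivity)).le
  have ht0 : t0 n ≤ t1 := by
    have h1 : ((t0 n : ℕ) : ℝ) ≤ t1 := by
      refine le_trans ?_ ht1g
      have h2 := gpa_kk_ge n
      have h3 : 8 ≤ θ' * Real.sqrt (LL n) := by
        rw [div_le_iff₀ hθ'0] at g2
        linarith
      have h4 : (n : ℝ) ^ 2 * 8 ≤ (n : ℝ) ^ 2 * (θ' * Real.sqrt (LL n)) :=
        mul_le_mul_of_nonneg_left h3 (by positivity)
      have h5 : θ' * ((n : ℝ) ^ 2 * Real.sqrt (LL n)) ≤ θ' * kk n :=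
        mul_le_mul_of_nonneg_left h2 hθ'0.le
      unfold t0
      push_cast
      linarith
    exact_mod_cast h1
  -- the times are before `θ k`
  have hJt : ∀ i : ℕ, i ≤ 2 * J → ((i * t1 : ℕ) : ℝ) ≤ θ * kk n := by
    intro i hi
    have hi' : (i : ℝ) ≤ 2 * J := by exact_mod_cast hi
    have h1 : (2 * J : ℝ) ≤ θ' * kk n := by
      rw [div_le_iff₀ hθ'0] at g4
      calc (2 * J : ℝ) ≤ n * θ' := g4
        _ ≤ kk n * θ' := mul_le_mul_of_nonneg_right hkn hθ'0.le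
        _ = θ' * kk n := mul_comm _ _
    have h2 : θ = θ' * (J + 1) := by rw [hθ']; field_simp
    push_cast
    calc (i : ℝ) * t1 ≤ 2 * J * (θ' * kk n / 2 + 1) := by
          apply mul_le_mul hi' ht1l (by positivity) (by positivity)
      _ = J * (θ' * kk n) + 2 * J := by ring
      _ ≤ J * (θ' * kk n) + θ' * kk n := by linarith
      _ = θ * kk n := by rw [h2]; ring
  obtain ⟨s, hs⟩ : ∃ s : Finset ℕ, s = (Finset.Icc 1 (2 * J)).image (fun i => i * t1) := ⟨_, rfl⟩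
  obtain ⟨T, hT⟩ : ∃ T : ℕ, T = ⌊lam * kk n⌋₊ := ⟨_, rfl⟩
  have hscard : (s.card : ℝ) ≤ 2 * J := by
    have h1 : s.card ≤ 2 * J := by
      rw [hs]
      refine Finset.card_image_le.trans ?_
      simp
    exact_mod_cast h1
  have hsT : ∀ j ∈ s, t0 n ≤ j ∧ j ≤ T := by
    intro j hj
    rw [hs, Finset.mem_image] at hj
    obtain ⟨i, hi, rfl⟩ := hj
    rw [Finset.mem_Icc] at hi
    refine ⟨?_, ?_⟩
    · calc t0 n ≤ t1 := ht0
        _ = 1 * t1 := (one_mul _).symm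
        _ ≤ i * t1 := Nat.mul_le_mul_right _ hi.1
    · rw [hT]
      apply Nat.le_floor
      refine (hJt i hi.2).trans ?_
      exact mul_le_mul_of_nonneg_right (hθ1.trans hlam) hk0.le
  have hη' : (2 * (kk n : ℝ) + 1) / NN n ≤ η := by
    have h1 := gpa_kk_le n hn1' g1
    have h2 : 5 ≤ η * n := by
      rw [div_le_iff₀ hη0] at g6
      linarith
    unfold NN
    rw [div_le_iff₀ (by positivity)]
    have h3 : (1 : ℝ) ≤ (n : ℝ) ^ 3 := one_le_pow₀ hnR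
    have h4 : (n : ℝ) ^ 3 * 5 ≤ (n : ℝ) ^ 3 * (η * n) :=
      mul_le_mul_of_nonneg_left h2 (by positivity)
    nlinarith
  have hP := lemP n x γ hγ s T hsT η (c * θ') hη0 hηα hη'
  -- the quotient of the times
  have hTk : ((T / (2 * kk n) + 1 : ℕ) : ℝ) ≤ 2 * lam := by
    have h1 : ((T / (2 * kk n) : ℕ) : ℝ) ≤ (T : ℝ) / ((2 * kk n : ℕ) : ℝ) := Nat.cast_div_le
    have h2 : (T : ℝ) ≤ lam * kk n := by
      rw [hT]; exact Nat.floor_le (by positivity)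
    have h3 : (T : ℝ) / ((2 * kk n : ℕ) : ℝ) ≤ lam / 2 := by
      push_cast
      rw [div_le_iff₀ (by positivity)]
      linarith
    push_cast
    push_cast at h1 h3
    linarith
  have hUCx : pr {ω | c * θ' / 2 < qq n (st (seg (act n) x ω 0 (t0 n)))} ≤ ε / (8 * J) := by
    refine le_trans (gpa_pr_mono ?_) ((gC 0 x).trans g5)
    intro ω hω
    simp only [Set.mem_ofPred_eq, zero_add] at hω ⊢
    refine lt_of_le_of_lt ?_ hω
    have hs0 : 0 < Real.sqrt (LL n) := by linarith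
    rw [div_le_iff₀ hs0]
    rw [div_le_iff₀ (by positivity)] at g3
    linarith
  have hP2 : (s.card : ℝ) * (8 * (T / (2 * kk n) + 1 : ℕ) * η +
        pr {ω | c * θ' / 2 < qq n (st (seg (act n) x ω 0 (t0 n)))}) ≤ ε / 2 := by
    have h1 : 8 * ((T / (2 * kk n) + 1 : ℕ) : ℝ) * η +
        pr {ω | c * θ' / 2 < qq n (st (seg (act n) x ω 0 (t0 n)))} ≤
        8 * (2 * lam) * η + ε / (8 * J) := by
      have := mul_le_mul_of_nonneg_right (mul_le_mul_of_nonneg_left hTk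
        (show (0 : ℝ) ≤ 8 by norm_num)) hη0.le
      linarith
    have h2 : 0 ≤ 8 * (2 * lam) * η + ε / (8 * J) := by positivity
    calc _ ≤ (s.card : ℝ) * (8 * (2 * lam) * η + ε / (8 * J)) :=
          mul_le_mul_of_nonneg_left h1 (by positivity)
      _ ≤ (2 * J) * (8 * (2 * lam) * η + ε / (8 * J)) := mul_le_mul_of_nonneg_right hscard h2
      _ = 32 * lam * J * η + ε / 4 := by field_simp; ring
      _ ≤ ε / 2 := by linarith
  have hcov : {ω | ∃ t : ℕ, θ * kk n ≤ t ∧ (t : ℝ) ≤ lam * kk n ∧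
      qq n (st (MM n γ x ω t)) < η} ⊆
      {ω | ∀ i : ℕ, 1 ≤ i → i ≤ 2 * J →
        qq n (st (MM n γ x ω (i * ⌈θ' * kk n / 2⌉₊))) < c * θ'} ∪
      {ω | ∃ j ∈ s, c * θ' ≤ qq n (st (MM n γ x ω j)) ∧
        ∃ t, j ≤ t ∧ t ≤ T ∧ qq n (st (MM n γ x ω t)) < η} := by
    rintro ω ⟨t, h1, h2, h3⟩
    by_cases h : ∀ i : ℕ, 1 ≤ i → i ≤ 2 * J →
        qq n (st (MM n γ x ω (i * ⌈θ' * kk n / 2⌉₊))) < c * θ'
    · exact Or.inl h
    · right
      push Not at h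
      obtain ⟨i, hi1, hi2, hi3⟩ := h
      refine ⟨i * t1, ?_, ?_, t, ?_, ?_, h3⟩
      · rw [hs, Finset.mem_image]
        exact ⟨i, Finset.mem_Icc.2 ⟨hi1, hi2⟩, rfl⟩
      · rw [ht1]; exact hi3
      · have := (hJt i hi2).trans h1
        exact_mod_cast this
      · rw [hT]
        exact Nat.le_floor h2
  calc _ ≤ _ := gpa_pr_mono hcov
    _ ≤ _ := gpa_pr_union _ _
    _ ≤ ε / 2 + ε / 2 := add_le_add ((gG J x γ hγ).trans hJp) (hP.trans hP2)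
    _ = ε := by ring

end Pool.Agent.UST
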