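import Pool.Agent.Helper54.UST.GrowG
import Pool.Agent.Helper54.UST.Persist

/-! Paper Corollary GP (b). -/

namespace Pool.Agent.UST

open MeasureTheory

/-- the numerical conditions hold for large `n` -/
private lemma gpb_num (c C C' M : ℝ) (hc : 0 < c) (hC : 0 < C) :
    ∃ n1 : ℕ, ∀ n : ℕ, n1 ≤ n → 25 ≤ n ∧ 64 ≤ LL n ∧ M ≤ Real.log (LL n) ∧
      4 * (n : ℝ) ^ (-(1 / 10 : ℝ)) ≤ c ∧ C' / Real.sqrt (LL n) ≤ c / 2 ∧
      C * (8 * C + 17) * LL n ^ 3 * (n : ℝ) ^ (-(1 / 10 : ℝ)) ≤ 1 := by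
  have hlog : Filter.Tendsto (fun n : ℕ => LL n) Filter.atTop Filter.atTop :=
    Real.tendsto_log_atTop.comp tendsto_natCast_atTop_atTop
  have h1 : ∀ᶠ n : ℕ in Filter.atTop, 25 ≤ n := Filter.eventually_ge_atTop 25
  have h2 : ∀ᶠ n : ℕ in Filter.atTop, 64 ≤ LL n := hlog.eventually_ge_atTop 64
  have h3 : ∀ᶠ n : ℕ in Filter.atTop, M ≤ Real.log (LL n) :=
    (Real.tendsto_log_atTop.comp hlog).eventually_ge_atTop M
  have h4 : ∀ᶠ n : ℕ in Filter.atTop, 4 * (n : ℝ) ^ (-(1 / 10 : ℝ)) ≤ c := by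
    have h5 : Filter.Tendsto (fun n : ℕ => (n : ℝ) ^ (-(1 / 10 : ℝ))) Filter.atTop (nhds 0) :=
      (tendsto_rpow_neg_atTop (by norm_num : (0 : ℝ) < 1 / 10)).comp tendsto_natCast_atTop_atTop
    filter_upwards [h5.eventually (ge_mem_nhds (by positivity : (0 : ℝ) < c / 4))] with n hn
    linarith
  have h6 : ∀ᶠ n : ℕ in Filter.atTop, C' / Real.sqrt (LL n) ≤ c / 2 := by
    have h7 : Filter.Tendsto (fun n : ℕ => C' / Real.sqrt (LL n)) Filter.atTop (nhds 0) :=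
      Filter.Tendsto.const_div_atTop (Real.tendsto_sqrt_atTop.comp hlog) C'
    exact h7.eventually (ge_mem_nhds (by positivity : (0 : ℝ) < c / 2))
  have h8 : ∀ᶠ n : ℕ in Filter.atTop,
      C * (8 * C + 17) * LL n ^ 3 * (n : ℝ) ^ (-(1 / 10 : ℝ)) ≤ 1 := by
    have h9 := (isLittleO_log_rpow_rpow_atTop 3 (by norm_num : (0 : ℝ) < 1 / 10)).def
      (by positivity : (0 : ℝ) < 1 / (C * (8 * C + 17)))
    have h10 := tendsto_natCast_atTop_atTop.eventually h9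
    filter_upwards [h10, h1, h2] with n hn hn1 hn2
    have hn0 : (0 : ℝ) < n := by
      have : 0 < n := by omega
      exact_mod_cast this
    have hL : (0 : ℝ) ≤ LL n := by linarith
    have e1 : Real.log (n : ℝ) ^ (3 : ℝ) = LL n ^ 3 := by
      rw [show (3 : ℝ) = ((3 : ℕ) : ℝ) by norm_num, Real.rpow_natCast]
      rfl
    rw [e1, Real.norm_of_nonneg (by positivity), Real.norm_of_nonneg (by positivity)] at hn
    rw [Real.rpow_neg hn0.le]
    have hp : 0 < (n : ℝ) ^ (1 / 10 : ℝ) := by positivity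
    rw [← div_eq_mul_inv, div_le_one hp]
    have hCC : 0 < C * (8 * C + 17) := by positivity
    calc C * (8 * C + 17) * LL n ^ 3
        ≤ C * (8 * C + 17) * (1 / (C * (8 * C + 17)) * (n : ℝ) ^ (1 / 10 : ℝ)) :=
          mul_le_mul_of_nonneg_left hn hCC.le
      _ = (n : ℝ) ^ (1 / 10 : ℝ) := by
          rw [← mul_assoc, mul_one_div_cancel hCC.ne', one_mul]
  obtain ⟨n1, hn1⟩ := Filter.eventually_atTop.1 (h1.and (h2.and (h3.and (h4.and (h6.and h8)))))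
  exact ⟨n1, fun n hn => hn1 n hn⟩

/-- `exp(-n^{1/4}) ≤ n^{-1/10}` -/
private lemma gpb_exp (n : ℕ) (hn : 1 ≤ n) :
    Real.exp (-((n : ℝ) ^ ((1 : ℝ) / 4))) ≤ (n : ℝ) ^ (-(1 / 10 : ℝ)) := by
  have hn0 : (0 : ℝ) < n := by exact_mod_cast hn
  have h1 : Real.log n ≤ (n : ℝ) ^ ((1 : ℝ) / 4) / (1 / 4) :=
    Real.log_le_rpow_div hn0.le (by norm_num)
  rw [Real.rpow_def_of_pos hn0 (-(1 / 10))]
  apply Real.exp_le_exp.2
  have h2 : 0 ≤ (n : ℝ) ^ ((1 : ℝ) / 4) := by positivity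
  have h3 : Real.log n ≤ 4 * (n : ℝ) ^ ((1 : ℝ) / 4) := by
    linarith
  nlinarith

/-- `(2k+1)/N ≤ n^{-1/10}` -/
private lemma gpb_k (n : ℕ) (hn : 25 ≤ n) (hL : 1 ≤ LL n) :
    (2 * (kk n : ℝ) + 1) / NN n ≤ (n : ℝ) ^ (-(1 / 10 : ℝ)) := by
  have hn1 : (25 : ℝ) ≤ n := by exact_mod_cast hn
  have hn0 : (0 : ℝ) < n := by linarith
  have hsq : Real.sqrt (LL n) ≤ LL n := by
    rw [Real.sqrt_le_left (by linarith)]
    nlinarith
  have hk : (kk n : ℝ) ≤ (n : ℝ) ^ 2 * LL n + 1 := by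
    have h1 : (kk n : ℝ) < (n : ℝ) ^ 2 * Real.sqrt (LL n) + 1 :=
      Nat.ceil_lt_add_one (by positivity)
    have h2 : (n : ℝ) ^ 2 * Real.sqrt (LL n) ≤ (n : ℝ) ^ 2 * LL n :=
      mul_le_mul_of_nonneg_left hsq (by positivity)
    linarith
  have hLn : LL n ≤ n := by
    have := Real.log_le_sub_one_of_pos hn0
    unfold LL
    linarith
  have h3 : 2 * (kk n : ℝ) + 1 ≤ 5 * (n : ℝ) ^ 3 := by
    have h4 : (n : ℝ) ^ 2 * LL n ≤ (n : ℝ) ^ 2 * n := mul_le_mul_of_nonneg_left hLn (by positivity)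
    have h5 : (1 : ℝ) ≤ (n : ℝ) ^ 3 := one_le_pow₀ (by linarith)
    nlinarith
  have h6 : (2 * (kk n : ℝ) + 1) / NN n ≤ 5 / n := by
    unfold NN
    rw [div_le_div_iff₀ (by positivity) hn0]
    calc (2 * (kk n : ℝ) + 1) * n ≤ 5 * (n : ℝ) ^ 3 * n :=
          mul_le_mul_of_nonneg_right h3 hn0.le
      _ = 5 * (n : ℝ) ^ 4 := by ring
  refine h6.trans ?_
  have h7 : (n : ℝ) ^ (-(1 / 2 : ℝ)) ≤ (n : ℝ) ^ (-(1 / 10 : ℝ)) :=
    Real.rpow_le_rpow_of_exponent_le (by linarith) (by norm_num)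
  refine le_trans ?_ h7
  rw [Real.rpow_neg hn0.le, ← Real.sqrt_eq_rpow, div_le_iff₀ hn0]
  have h8 : 5 ≤ Real.sqrt n := by
    rw [show (5 : ℝ) = Real.sqrt (5 ^ 2) by rw [Real.sqrt_sq (by norm_num)]]
    exact Real.sqrt_le_sqrt (by linarith)
  have h9 : Real.sqrt n * Real.sqrt n = n := Real.mul_self_sqrt hn0.le
  have h10 : (Real.sqrt n)⁻¹ * n = Real.sqrt n := by
    rw [inv_mul_eq_div, div_eq_iff (by positivity)]
    exact h9.symm
  rw [h10]
  exact h8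

theorem gpB : ∃ C : ℝ, 0 < C ∧ ∃ n0 : ℕ, ∀ (n : ℕ) [NeZero n], n0 ≤ n →
    ∀ (x : V n) (γ : List (V n)), Path1 γ x →
    pr {ω | qq n (st (MM n γ x ω (⌈C * Real.log (LL n)⌉₊ * kk n))) <
      (n : ℝ) ^ (-(1 / 10 : ℝ))} ≤ 3 / LL n := by
  classical
  obtain ⟨c, hc, hc1, hG⟩ := lemG_iter
  obtain ⟨nG, hG⟩ := hG 1 one_pos le_rfl
  obtain ⟨C', hC', nU, hU⟩ := lemUC_t0
  set C : ℝ := 4 / c with hCdef
  have hC : 0 < C := by positivity
  obtain ⟨n1, hn1⟩ := gpb_num c C C' c hc hC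
  refine ⟨C, hC, max nG (max nU n1), fun n _ hn x γ hγ => ?_⟩
  have hnG : nG ≤ n := le_trans (le_max_left _ _) hn
  have hnU : nU ≤ n := le_trans (le_trans (le_max_left _ _) (le_max_right _ _)) hn
  obtain ⟨h25, hL64, hllc, h4η, hC's, hbig⟩ :=
    hn1 n (le_trans (le_trans (le_max_right _ _) (le_max_right _ _)) hn)
  set η : ℝ := (n : ℝ) ^ (-(1 / 10 : ℝ)) with hη
  set ll : ℝ := Real.log (LL n) with hll
  set J : ℕ := ⌈ll / c⌉₊ with hJ
  set t : ℕ := ⌈(1 : ℝ) * kk n / 2⌉₊ with ht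
  set T : ℕ := ⌈C * ll⌉₊ * kk n with hT
  have hn0 : (0 : ℝ) < n := by
    have : 0 < n := by omega
    exact_mod_cast this
  have hη0 : 0 < η := by positivity
  have hLpos : 0 < LL n := by linarith
  have hll0 : 0 ≤ ll := Real.log_nonneg (by linarith)
  have hllL : ll ≤ LL n := by
    have := Real.log_le_sub_one_of_pos hLpos
    linarith
  -- `2 J ≤ C log L`
  have hJ1 : (J : ℝ) < ll / c + 1 := Nat.ceil_lt_add_one (by positivity)
  have hJ2 : (2 * J : ℝ) ≤ C * ll := by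
    have h1 : 1 ≤ ll / c := by rw [le_div_iff₀ hc]; linarith
    have h2 : C * ll = 4 * (ll / c) := by rw [hCdef]; ring
    rw [h2]
    linarith
  have hJ3 : 2 * J ≤ ⌈C * ll⌉₊ := by
    have : ((2 * J : ℕ) : ℝ) ≤ (⌈C * ll⌉₊ : ℝ) := by
      push_cast
      exact hJ2.trans (Nat.le_ceil _)
    exact_mod_cast this
  -- `t`
  have hsq : 8 ≤ Real.sqrt (LL n) := by
    rw [show (8 : ℝ) = Real.sqrt (8 ^ 2) by rw [Real.sqrt_sq (by norm_num)]]
    exact Real.sqrt_le_sqrt (by linarith)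
  have hkk : (8 : ℝ) * (n : ℝ) ^ 2 ≤ kk n := by
    have h1 : (n : ℝ) ^ 2 * Real.sqrt (LL n) ≤ kk n := Nat.le_ceil _
    have h2 : (n : ℝ) ^ 2 * 8 ≤ (n : ℝ) ^ 2 * Real.sqrt (LL n) :=
      mul_le_mul_of_nonneg_left hsq (by positivity)
    linarith
  have ht0 : t0 n ≤ t := by
    have h1 : ((t0 n : ℕ) : ℝ) ≤ (t : ℝ) := by
      have h2 : (1 : ℝ) * kk n / 2 ≤ (t : ℝ) := Nat.le_ceil _
      unfold t0
      push_cast
      linarith
    exact_mod_cast h1
  have hk2 : 2 ≤ kk n := by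
    have h1 : (2 : ℝ) ≤ kk n := by
      have h2 : (1 : ℝ) ≤ n := by
        have : 1 ≤ n := by omega
        exact_mod_cast this
      nlinarith
    exact_mod_cast h1
  have htk : t ≤ kk n := by
    have h1 : t ≤ kk n := by
      apply Nat.ceil_le.2
      have : (0 : ℝ) ≤ kk n := Nat.cast_nonneg _
      linarith
    exact h1
  set s : Finset ℕ := (Finset.Icc 1 (2 * J)).image (fun i => i * t) with hs
  have hscard : (s.card : ℝ) ≤ C * ll := by
    have h1 : s.card ≤ 2 * J := by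
      refine Finset.card_image_le.trans ?_
      simp
    have h2 : (s.card : ℝ) ≤ ((2 * J : ℕ) : ℝ) := by exact_mod_cast h1
    push_cast at h2
    linarith
  have hsT : ∀ j ∈ s, t0 n ≤ j ∧ j ≤ T := by
    intro j hj
    rw [hs, Finset.mem_image] at hj
    obtain ⟨i, hi, rfl⟩ := hj
    rw [Finset.mem_Icc] at hi
    constructor
    · calc t0 n ≤ 1 * t := by rw [one_mul]; exact ht0
        _ ≤ i * t := Nat.mul_le_mul_right _ hi.1
    · calc i * t ≤ (2 * J) * kk n := Nat.mul_le_mul hi.2 htk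
        _ ≤ ⌈C * ll⌉₊ * kk n := Nat.mul_le_mul_right _ hJ3
  have hP := lemP n x γ hγ s T hsT η c hη0 h4η (gpb_k n h25 (by linarith))
  have hGJ := hG n hnG J x γ hγ
  -- the probability of the growth event
  have hp1 : (1 - c) ^ J ≤ 1 / LL n := by
    have h1 : (1 - c) ^ J ≤ Real.exp (-c) ^ J := by
      refine pow_le_pow_left₀ (by linarith) ?_ J
      have := Real.add_one_le_exp (-c)
      linarith
    have h2 : Real.exp (-c) ^ J = Real.exp (-(c * J)) := by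
      rw [← Real.exp_nat_mul]
      congr 1
      ring
    have h3 : ll ≤ c * J := by
      have : ll / c ≤ J := Nat.le_ceil _
      rw [div_le_iff₀ hc] at this
      linarith
    calc (1 - c) ^ J ≤ Real.exp (-(c * J)) := by rw [← h2]; exact h1
      _ ≤ Real.exp (-ll) := Real.exp_le_exp.2 (by linarith)
      _ = 1 / LL n := by rw [Real.exp_neg, hll, Real.exp_log hLpos, one_div]
  -- the probability of the small hitting functional
  have hpU : pr {ω | c / 2 < qq n (st (seg (act n) x ω 0 (t0 n)))} ≤ η := by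
    refine le_trans ?_ (gpb_exp n (by omega))
    refine le_trans ?_ (hU n hnU 0 x)
    unfold pr
    refine measureReal_mono ?_ (measure_ne_top _ _)
    intro ω hω
    simp only [Set.mem_ofPred_eq, zero_add] at hω ⊢
    exact lt_of_le_of_lt hC's hω
  have hp2 : (s.card : ℝ) * (8 * (T / (2 * kk n) + 1 : ℕ) * η +
        pr {ω | c / 2 < qq n (st (seg (act n) x ω 0 (t0 n)))}) ≤ 1 / LL n := by
    have h1 : ((T / (2 * kk n) + 1 : ℕ) : ℝ) ≤ C * ll + 2 := by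
      have h2 : T / (2 * kk n) ≤ ⌈C * ll⌉₊ := by
        have hk0 : 0 < kk n := by omega
        calc T / (2 * kk n) ≤ T / kk n := Nat.div_le_div_left (by omega) hk0
          _ = ⌈C * ll⌉₊ := by rw [hT]; exact Nat.mul_div_cancel _ hk0
      have h3 : ((T / (2 * kk n) : ℕ) : ℝ) ≤ (⌈C * ll⌉₊ : ℝ) := by exact_mod_cast h2
      have h4 : (⌈C * ll⌉₊ : ℝ) < C * ll + 1 := Nat.ceil_lt_add_one (by positivity)
      push_cast at h3 ⊢
      linarith
    have h5 : (8 * (T / (2 * kk n) + 1 : ℕ) * η +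
        pr {ω | c / 2 < qq n (st (seg (act n) x ω 0 (t0 n)))}) ≤ (8 * C + 17) * LL n * η := by
      have h6 : 8 * ((T / (2 * kk n) + 1 : ℕ) : ℝ) * η ≤ 8 * (C * ll + 2) * η := by
        refine mul_le_mul_of_nonneg_right ?_ hη0.le
        linarith
      have h7 : 8 * (C * ll + 2) * η + η ≤ (8 * C + 17) * LL n * η := by
        have h8 : 8 * (C * ll + 2) + 1 ≤ (8 * C + 17) * LL n := by
          have h9 : C * ll ≤ C * LL n := mul_le_mul_of_nonneg_left hllL hC.le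
          nlinarith
        calc 8 * (C * ll + 2) * η + η = (8 * (C * ll + 2) + 1) * η := by ring
          _ ≤ (8 * C + 17) * LL n * η := mul_le_mul_of_nonneg_right h8 hη0.le
      linarith
    have h10 : (s.card : ℝ) ≤ C * LL n :=
      hscard.trans (mul_le_mul_of_nonneg_left hllL hC.le)
    calc (s.card : ℝ) * (8 * (T / (2 * kk n) + 1 : ℕ) * η +
        pr {ω | c / 2 < qq n (st (seg (act n) x ω 0 (t0 n)))})
        ≤ (C * LL n) * ((8 * C + 17) * LL n * η) := by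
          refine mul_le_mul h10 h5 ?_ (by positivity)
          have : 0 ≤ pr {ω | c / 2 < qq n (st (seg (act n) x ω 0 (t0 n)))} := measureReal_nonneg
          positivity
      _ ≤ 1 / LL n := by
          rw [le_div_iff₀ hLpos]
          calc C * LL n * ((8 * C + 17) * LL n * η) * LL n
              = C * (8 * C + 17) * LL n ^ 3 * η := by ring
            _ ≤ 1 := hbig
  -- the union
  have hsub : {ω | qq n (st (MM n γ x ω T)) < η} ⊆
      {ω | ∀ i : ℕ, 1 ≤ i → i ≤ 2 * J → qq n (st (MM n γ x ω (i * t))) < c * 1} ∪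
      {ω | ∃ j ∈ s, c ≤ qq n (st (MM n γ x ω j)) ∧
        ∃ t, j ≤ t ∧ t ≤ T ∧ qq n (st (MM n γ x ω t)) < η} := by
    intro ω hω
    by_cases h : ∀ i : ℕ, 1 ≤ i → i ≤ 2 * J → qq n (st (MM n γ x ω (i * t))) < c * 1
    · exact Or.inl h
    · right
      push Not at h
      obtain ⟨i, hi1, hi2, hi3⟩ := h
      rw [mul_one] at hi3
      have hmem : i * t ∈ s := by
        rw [hs, Finset.mem_image]
        exact ⟨i, Finset.mem_Icc.2 ⟨hi1, hi2⟩, rfl⟩
      exact ⟨i * t, hmem, hi3, T, (hsT _ hmem).2, le_rfl, hω⟩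
  calc pr {ω | qq n (st (MM n γ x ω T)) < η}
      ≤ pr ({ω | ∀ i : ℕ, 1 ≤ i → i ≤ 2 * J → qq n (st (MM n γ x ω (i * t))) < c * 1} ∪
        {ω | ∃ j ∈ s, c ≤ qq n (st (MM n γ x ω j)) ∧
          ∃ t, j ≤ t ∧ t ≤ T ∧ qq n (st (MM n γ x ω t)) < η}) :=
        measureReal_mono hsub (measure_ne_top _ _)
    _ ≤ pr {ω | ∀ i : ℕ, 1 ≤ i → i ≤ 2 * J → qq n (st (MM n γ x ω (i * t))) < c * 1} +
        pr {ω | ∃ j ∈ s, c ≤ qq n (st (MM n γ x ω j)) ∧
          ∃ t, j ≤ t ∧ t ≤ T ∧ qq n (st (MM n γ x ω t)) < η} := measureReal_union_le _ _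
    _ ≤ 1 / LL n + 1 / LL n := add_le_add (hGJ.trans hp1) (hP.trans hp2)
    _ ≤ 3 / LL n := by
        rw [← add_div]
        exact div_le_div_of_nonneg_right (by norm_num) hLpos.le

end Pool.Agent.UST
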