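import Pool.Agent.Helper54.UST.Av
import Pool.Agent.Helper54.UST.C1
import Pool.Agent.Helper54.UST.LemUC
import Pool.Agent.Helper54.UST.LE2

/-! Paper Lemma G (growth). -/

namespace Pool.Agent.UST

open MeasureTheory

/-! ### measurability of functions of finitely many choices of two walks -/

private lemma gg_meas2 {α : Type} [MeasurableSpace α] (s t : ℕ)
    (F : (ℕ → DD) → (ℕ → DD) → α)
    (hF : ∀ ω ω' η η' : ℕ → DD, (∀ i, i < s → ω i = ω' i) → (∀ i, i < t → η i = η' i) →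
      F ω η = F ω' η') : Measurable (Function.uncurry F) := by
  set e1 : ∀ r : ℕ, (Fin r → DD) → (ℕ → DD) :=
    fun r a i => if h : i < r then a ⟨i, h⟩ else Classical.arbitrary DD with he1
  have h : Function.uncurry F = (fun a : (Fin s → DD) × (Fin t → DD) => F (e1 s a.1) (e1 t a.2)) ∘
      (fun p : (ℕ → DD) × (ℕ → DD) => (fun i : Fin s => p.1 i, fun i : Fin t => p.2 i)) := by
    funext p
    refine hF _ _ _ _ (fun i hi => ?_) (fun i hi => ?_)
    · simp [he1, hi]
    · simp [he1, hi]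
  rw [h]
  refine (measurable_of_finite _).comp ?_
  refine Measurable.prodMk ?_ ?_
  · exact measurable_pi_lambda _ fun i => (measurable_pi_apply _).comp measurable_fst
  · exact measurable_pi_lambda _ fun i => (measurable_pi_apply _).comp measurable_snd

private lemma gg_int_ind (P : (ℕ → DD) → Prop) (hP : MeasurableSet {ω | P ω}) :
    Integrable (fun ω => ind (P ω)) (mu DD) := by
  have h : (fun ω : ℕ → DD => ind (P ω)) = Set.indicator {ω | P ω} (fun _ => (1 : ℝ)) := by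
    funext ω
    by_cases h : P ω
    · rw [ind_true h]
      exact (Set.indicator_of_mem (s := {ω | P ω}) h (fun _ => (1 : ℝ))).symm
    · rw [ind_false h]
      exact (Set.indicator_of_notMem (s := {ω | P ω}) h (fun _ => (1 : ℝ))).symm
  rw [h]
  exact (integrable_const 1).indicator hP

/-! ### the process `M_t` -/

private lemma gg_MM_congr (n : ℕ) (γ : List (V n)) (x : V n) (ω ω' : ℕ → DD) (t : ℕ)
    (h : ∀ i, i < t → ω i = ω' i) : MM n γ x ω t = MM n γ x ω' t := by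
  unfold MM
  rw [seg_congr (act n) x ω ω' 1 t h]

private lemma gg_MM_add (n : ℕ) (γ : List (V n)) (x : V n) (ω : ℕ → DD) (s t : ℕ) :
    MM n γ x ω (s + t) = MM n (MM n γ x ω s) (pos (act n) x ω s) (sh s ω) t := by
  unfold MM
  rw [← leF_append, ← seg_shift (act n) x ω s 1 t,
    ← seg_append (act n) x ω 1 s (s + t) (by omega) (by omega)]

private lemma gg_seg_nil (n : ℕ) (x : V n) (ω : ℕ → DD) : seg (act n) x ω 1 0 = [] := by
  unfold seg
  rfl

private lemma gg_seg_last (n : ℕ) (x : V n) (ω : ℕ → DD) (t : ℕ) :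
    (seg (act n) x ω 1 (t + 1)).getLast? = some (pos (act n) x ω (t + 1)) := by
  rw [seg_append (act n) x ω 1 t (t + 1) (by omega) (by omega)]
  have : seg (act n) x ω (t + 1) (t + 1) = [pos (act n) x ω (t + 1)] := by
    unfold seg
    have e : t + 1 + 1 - (t + 1) = 1 := by omega
    rw [e]
    rfl
  rw [this]
  simp

private lemma gg_path (n : ℕ) (γ : List (V n)) (x : V n) (hγ : Path1 γ x) (ω : ℕ → DD) (t : ℕ) :
    Path1 (MM n γ x ω t) (pos (act n) x ω t) := by
  refine ⟨leF_nodup hγ.1 _, ?_⟩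
  unfold MM
  rcases t with _ | t
  · rw [gg_seg_nil]
    exact hγ.2
  · rw [leF_getLast, gg_seg_last]
    intro h
    have := gg_seg_last n x ω t
    rw [h] at this
    simp at this

private lemma gg_st_MM (n : ℕ) (γ : List (V n)) (x : V n) (ω : ℕ → DD) (t : ℕ) :
    st (MM n γ x ω t) ⊆ st γ ∪ st (seg (act n) x ω 0 (0 + t)) := by
  intro y hy
  rcases mem_leF (show y ∈ leF γ (seg (act n) x ω 1 t) from hy) with h | h
  · exact Or.inl h
  · refine Or.inr ?_
    rw [mem_seg] at h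
    obtain ⟨i, h1, h2, h3⟩ := h
    show y ∈ seg (act n) x ω 0 (0 + t)
    rw [mem_seg]
    exact ⟨i, by omega, by omega, h3⟩

/-! ### scales -/

private lemma gg_kk_ge (n : ℕ) (hn : 1 ≤ n) : NN n * LL n ≤ (kk n : ℝ) ^ 2 := by
  have hL : 0 ≤ LL n := Real.log_nonneg (by exact_mod_cast hn)
  have h1 : (n : ℝ) ^ 2 * Real.sqrt (LL n) ≤ kk n := Nat.le_ceil _
  have h0 : 0 ≤ (n : ℝ) ^ 2 * Real.sqrt (LL n) := by positivity
  calc NN n * LL n = ((n : ℝ) ^ 2 * Real.sqrt (LL n)) ^ 2 := by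
        rw [mul_pow, Real.sq_sqrt hL]
        unfold NN
        ring
    _ ≤ (kk n : ℝ) ^ 2 := by
        exact pow_le_pow_left₀ h0 h1 2

private lemma gg_kk_le (n : ℕ) (hn : 2 ≤ n) : kk n ≤ n ^ 4 := by
  unfold kk
  rw [Nat.ceil_le]
  have hn1 : (2 : ℝ) ≤ n := by exact_mod_cast hn
  have hL : LL n ≤ (n : ℝ) ^ 2 := by
    unfold LL
    have := Real.log_le_sub_one_of_pos (show (0 : ℝ) < n by linarith)
    nlinarith
  have hs : Real.sqrt (LL n) ≤ n := by
    rw [show (n : ℝ) = Real.sqrt ((n : ℝ) ^ 2) by rw [Real.sqrt_sq (by linarith)]]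
    exact Real.sqrt_le_sqrt hL
  push_cast
  have h2 : (n : ℝ) ^ 2 * Real.sqrt (LL n) ≤ (n : ℝ) ^ 2 * n :=
    mul_le_mul_of_nonneg_left hs (by positivity)
  have h3 : (n : ℝ) ^ 2 * n ≤ (n : ℝ) ^ 4 := by
    have : (n : ℝ) ^ 4 = (n : ℝ) ^ 2 * n * n := by ring
    rw [this]
    have h4 : 0 ≤ (n : ℝ) ^ 2 * n := by positivity
    nlinarith
  linarith

private lemma gg_n_le_kk (n : ℕ) (hn : 3 ≤ n) : n ≤ kk n := by
  unfold kk
  have hn1 : (3 : ℝ) ≤ n := by exact_mod_cast hn
  have hL : (1 : ℝ) ≤ LL n := by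
    unfold LL
    rw [Real.le_log_iff_exp_le (by linarith)]
    have := Real.exp_one_lt_d9
    linarith
  have hs : (1 : ℝ) ≤ Real.sqrt (LL n) := by
    rw [Real.one_le_sqrt]
    exact hL
  have h2 : (n : ℝ) ≤ (n : ℝ) ^ 2 * Real.sqrt (LL n) := by
    have h3 : (n : ℝ) ≤ (n : ℝ) ^ 2 := by nlinarith
    have h4 : 0 ≤ (n : ℝ) ^ 2 := by positivity
    nlinarith
  exact_mod_cast h2.trans (Nat.le_ceil _)

private lemma gg_exp_small (ε : ℝ) (hε : 0 < ε) : ∃ n0 : ℕ, ∀ n : ℕ, n0 ≤ n →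
    Real.exp (-((n : ℝ) ^ ((1 : ℝ) / 4))) ≤ ε := by
  have h1 : Filter.Tendsto (fun n : ℕ => Real.exp (-((n : ℝ) ^ ((1 : ℝ) / 4))))
      Filter.atTop (nhds 0) := by
    refine Real.tendsto_exp_neg_atTop_nhds_zero.comp ?_
    exact (tendsto_rpow_atTop (by norm_num)).comp tendsto_natCast_atTop_atTop
  have h2 := (h1.eventually (gt_mem_nhds hε))
  rw [Filter.eventually_atTop] at h2
  obtain ⟨n0, h0⟩ := h2
  exact ⟨n0, fun n hn => (h0 n hn).le⟩

/-- the core: from a path with a small hitting functional -/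
private lemma gg_core : ∃ c : ℝ, 0 < c ∧ c ≤ 1 ∧ ∀ θ : ℝ, 0 < θ → θ ≤ 1 → ∃ n0 : ℕ,
    ∀ (n : ℕ) [NeZero n], n0 ≤ n → ∀ (x : V n) (γ : List (V n)), Path1 γ x →
    qq n (st γ) < c * θ →
    c ≤ pr {ω | c * θ ≤ qq n (st (MM n γ x ω ⌈θ * kk n / 2⌉₊))} := by
  obtain ⟨c1, hc1, n1, h1⟩ := lemC1
  obtain ⟨C, hC, hUC⟩ := lemUC_k
  set c : ℝ := min 1 (min (c1 / 20) (c1 / (20 * (1 + 2 * C)))) with hc
  have hc0 : 0 < c := by
    rw [hc]
    refine lt_min one_pos (lt_min (by positivity) (by positivity))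
  have hcle1 : c ≤ 1 := min_le_left _ _
  have hc2 : c ≤ c1 / 20 := (min_le_right _ _).trans (min_le_left _ _)
  have hc3 : c ≤ c1 / (20 * (1 + 2 * C)) := (min_le_right _ _).trans (min_le_right _ _)
  refine ⟨c, hc0, hcle1, fun θ hθ hθ1 => ?_⟩
  obtain ⟨n2, h2⟩ := hUC 2 θ (by norm_num) hθ
  obtain ⟨n3, h3⟩ := gg_exp_small (c1 * θ / 20) (by positivity)
  refine ⟨max (max n1 n2) (max n3 10), fun n _ hn x γ hγ hq => ?_⟩
  have hn1 : n1 ≤ n := le_trans (le_trans (le_max_left _ _) (le_max_left _ _)) hn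
  have hn2 : n2 ≤ n := le_trans (le_trans (le_max_right _ _) (le_max_left _ _)) hn
  have hn3 : n3 ≤ n := le_trans (le_trans (le_max_left _ _) (le_max_right _ _)) hn
  have hn10 : 10 ≤ n := le_trans (le_trans (le_max_right _ _) (le_max_right _ _)) hn
  set t : ℕ := ⌈θ * kk n / 2⌉₊ with ht
  have hk : n ≤ kk n := gg_n_le_kk n (by omega)
  have hk10 : (10 : ℝ) ≤ kk n := by exact_mod_cast hn10.trans hk
  have hkle : kk n ≤ n ^ 4 := gg_kk_le n (by omega)
  have hkpos : (0 : ℝ) < kk n := by linarith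
  have ht1 : θ * kk n / 2 ≤ t := Nat.le_ceil _
  have ht2 : (t : ℝ) < θ * kk n / 2 + 1 := Nat.ceil_lt_add_one (by positivity)
  have hθk : θ * kk n ≤ kk n := by nlinarith
  have htk : t ≤ kk n := by
    have : (t : ℝ) ≤ kk n := by linarith
    exact_mod_cast this
  have htpos : 1 ≤ t := by
    rw [ht, Nat.one_le_ceil_iff]
    positivity
  set m : ℕ := 2 * kk n - t with hm
  have hmt : m + t = 2 * kk n := by omega
  have hmk : (kk n : ℝ) ≤ m := by
    have : kk n ≤ m := by omega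
    exact_mod_cast this
  have hmpos : 1 ≤ m := by omega
  have hn5 : 2 * n ^ 4 ≤ n ^ 9 := by
    have e : n ^ 9 = n ^ 4 * n ^ 5 := by ring
    rw [e, mul_comm]
    refine Nat.mul_le_mul_left _ ?_
    calc 2 ≤ n := by omega
      _ ≤ n ^ 5 := Nat.le_self_pow (by norm_num) n
  have htn : t ≤ n ^ 9 := by omega
  have hmn : m ≤ n ^ 9 := by omega
  have hexp := h1 n hn1 t m x γ hγ htpos hmpos htn hmn
  rw [hmt] at hexp
  -- lower bound of the expectation
  have hNpos : 0 < NN n := by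
    unfold NN
    have : (0 : ℝ) < n := by exact_mod_cast (by omega : 0 < n)
    positivity
  have hLpos : 0 < LL n := by
    unfold LL
    exact Real.log_pos (by exact_mod_cast (by omega : 1 < n))
  have hlow : c1 * θ / 5 ≤ ∫ ω, qq n (st (MM n γ x ω t)) ∂(mu DD) := by
    refine le_trans ?_ hexp
    set u : ℝ := (t : ℝ) * m / NN n with hu
    have hu1 : θ * LL n / 4 ≤ u := by
      rw [hu, le_div_iff₀ hNpos]
      have h5 := gg_kk_ge n (by omega)
      have h6 : θ * kk n / 2 * kk n ≤ (t : ℝ) * m :=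
        mul_le_mul ht1 hmk hkpos.le (by positivity)
      nlinarith
    have hu0 : 0 < u := lt_of_lt_of_le (by positivity) hu1
    rw [le_div_iff₀ (by linarith)]
    have h7 : θ * (LL n + u) ≤ 5 * u := by
      nlinarith
    nlinarith
  -- the pointwise upper bound
  set α : ℝ := c * θ with hα
  have hα0 : 0 < α := by positivity
  have hpt : ∀ ω : ℕ → DD, qq n (st (MM n γ x ω t)) ≤
      α + (α + C * 2 * θ) * ind (α ≤ qq n (st (MM n γ x ω t))) +
        ind (C * 2 * θ < qq n (st (seg (act n) x ω 0 (0 + t)))) := by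
    intro ω
    have hi1 := ind_nonneg (α ≤ qq n (st (MM n γ x ω t)))
    have hi2 := ind_nonneg (C * 2 * θ < qq n (st (seg (act n) x ω 0 (0 + t))))
    have hCθ : 0 < C * 2 * θ := by positivity
    by_cases ha : α ≤ qq n (st (MM n γ x ω t))
    · rw [ind_true ha]
      by_cases hb : C * 2 * θ < qq n (st (seg (act n) x ω 0 (0 + t)))
      · rw [ind_true hb]
        have : qq n (st (MM n γ x ω t)) ≤ 1 := pm_le_one n _ _
        linarith
      · have h8 : qq n (st (MM n γ x ω t)) ≤ qq n (st γ) +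
            qq n (st (seg (act n) x ω 0 (0 + t))) :=
          (pm_mono n le_rfl (gg_st_MM n γ x ω t)).trans (pm_union n _ _ _)
        push Not at hb
        linarith
    · push Not at ha
      have := mul_nonneg (by linarith : 0 ≤ α + C * 2 * θ) hi1
      linarith
  -- measurability
  have hmeas1 : Measurable (fun ω : ℕ → DD => qq n (st (MM n γ x ω t))) :=
    measurable_dep t _ fun ω ω' h => by rw [gg_MM_congr n γ x ω ω' t h]
  have hmeas2 : Measurable (fun ω : ℕ → DD => qq n (st (seg (act n) x ω 0 (0 + t)))) :=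
    measurable_dep t _ fun ω ω' h => by
      rw [seg_congr (act n) x ω ω' 0 (0 + t) (fun i hi => h i (by omega))]
  have hs1 : MeasurableSet {ω : ℕ → DD | α ≤ qq n (st (MM n γ x ω t))} :=
    measurableSet_le measurable_const hmeas1
  have hs2 : MeasurableSet {ω : ℕ → DD | C * 2 * θ < qq n (st (seg (act n) x ω 0 (0 + t)))} :=
    measurableSet_lt measurable_const hmeas2
  have hI1 : Integrable (fun ω => ind (α ≤ qq n (st (MM n γ x ω t)))) (mu DD) :=
    gg_int_ind _ hs1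
  have hI2 : Integrable (fun ω => ind (C * 2 * θ < qq n (st (seg (act n) x ω 0 (0 + t)))))
      (mu DD) := gg_int_ind _ hs2
  have hI0 : Integrable (fun ω : ℕ → DD => qq n (st (MM n γ x ω t))) (mu DD) := by
    refine Integrable.of_bound hmeas1.aestronglyMeasurable 1 (ae_of_all _ fun ω => ?_)
    have h0 : 0 ≤ qq n (st (MM n γ x ω t)) := pm_nonneg n _ _
    rw [Real.norm_eq_abs, abs_of_nonneg h0]
    exact pm_le_one n _ _
  have hI3 : Integrable (fun ω => α + (α + C * 2 * θ) * ind (α ≤ qq n (st (MM n γ x ω t))))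
      (mu DD) := (integrable_const α).add (hI1.const_mul _)
  have hup : ∫ ω, qq n (st (MM n γ x ω t)) ∂(mu DD) ≤
      α + (α + C * 2 * θ) * pr {ω | α ≤ qq n (st (MM n γ x ω t))} +
        pr {ω | C * 2 * θ < qq n (st (seg (act n) x ω 0 (0 + t)))} := by
    have h9 : ∫ ω, (α + (α + C * 2 * θ) * ind (α ≤ qq n (st (MM n γ x ω t))) +
        ind (C * 2 * θ < qq n (st (seg (act n) x ω 0 (0 + t))))) ∂(mu DD) =
        α + (α + C * 2 * θ) * pr {ω | α ≤ qq n (st (MM n γ x ω t))} +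
        pr {ω | C * 2 * θ < qq n (st (seg (act n) x ω 0 (0 + t)))} := by
      rw [integral_add hI3 hI2, integral_add (integrable_const _) (hI1.const_mul _),
        integral_const_mul (α + C * 2 * θ), integral_ind (mu DD) _ hs1,
        integral_ind (mu DD) _ hs2]
      simp [pr]
    rw [← h9]
    exact integral_mono hI0 (hI3.add hI2) hpt
  have hθk0 : 0 ≤ θ * kk n := by positivity
  have hUC2 := h2 n hn2 (2 * kk n) t 0 x (by push_cast; linarith) (by linarith)
  have hUC3 : pr {ω | C * 2 * θ < qq n (st (seg (act n) x ω 0 (0 + t)))} ≤ c1 * θ / 20 :=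
    hUC2.trans (h3 n hn3)
  -- conclusion
  have hα2 : α ≤ c1 * θ / 20 := by
    rw [hα]
    have := mul_le_mul_of_nonneg_right hc2 hθ.le
    linarith
  have h10 : c1 * θ / 10 ≤ (α + C * 2 * θ) * pr {ω | α ≤ qq n (st (MM n γ x ω t))} := by
    linarith
  have hP0 : 0 ≤ pr {ω | α ≤ qq n (st (MM n γ x ω t))} := measureReal_nonneg
  have h11 : (α + C * 2 * θ) * pr {ω | α ≤ qq n (st (MM n γ x ω t))} ≤
      (θ * (1 + 2 * C)) * pr {ω | α ≤ qq n (st (MM n γ x ω t))} := by
    refine mul_le_mul_of_nonneg_right ?_ hP0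
    rw [hα]
    nlinarith
  have h12 : c1 / 10 ≤ (1 + 2 * C) * pr {ω | α ≤ qq n (st (MM n γ x ω t))} := by
    have h13 : θ * (c1 / 10) ≤ θ * ((1 + 2 * C) * pr {ω | α ≤ qq n (st (MM n γ x ω t))}) := by
      linarith
    exact le_of_mul_le_mul_left h13 hθ
  refine hc3.trans ?_
  rw [div_le_iff₀ (by positivity)]
  nlinarith

/-- one block of two steps -/
private lemma gg_block : ∃ c : ℝ, 0 < c ∧ c ≤ 1 ∧ ∀ θ : ℝ, 0 < θ → θ ≤ 1 → ∃ n0 : ℕ,
    ∀ (n : ℕ) [NeZero n], n0 ≤ n → ∀ (x : V n) (γ : List (V n)), Path1 γ x →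
    pr {ω | qq n (st (MM n γ x ω ⌈θ * kk n / 2⌉₊)) < c * θ ∧
      qq n (st (MM n γ x ω (2 * ⌈θ * kk n / 2⌉₊))) < c * θ} ≤ 1 - c := by
  obtain ⟨c, hc0, hc1, hcore⟩ := gg_core
  refine ⟨c, hc0, hc1, fun θ hθ hθ1 => ?_⟩
  obtain ⟨n0, h0⟩ := hcore θ hθ hθ1
  refine ⟨n0, fun n _ hn x γ hγ => ?_⟩
  set t : ℕ := ⌈θ * kk n / 2⌉₊ with ht
  set F : (ℕ → DD) → (ℕ → DD) → ℝ := fun ω η =>
    ind (qq n (st (MM n γ x ω t)) < c * θ ∧
      qq n (st (MM n (MM n γ x ω t) (pos (act n) x ω t) η t)) < c * θ) with hF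
  have hFdep : ∀ ω ω' η η' : ℕ → DD, (∀ i, i < t → ω i = ω' i) → (∀ i, i < t → η i = η' i) →
      F ω η = F ω' η' := by
    intro ω ω' η η' h h'
    simp only [hF]
    rw [gg_MM_congr n γ x ω ω' t h, pos_congr (act n) x ω ω' t h,
      gg_MM_congr n _ _ η η' t h']
  have hFm := gg_meas2 t t F hFdep
  have hset : MeasurableSet {ω : ℕ → DD | qq n (st (MM n γ x ω t)) < c * θ ∧
      qq n (st (MM n γ x ω (2 * t))) < c * θ} := by
    have hm1 : Measurable (fun ω : ℕ → DD => qq n (st (MM n γ x ω t))) :=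
      measurable_dep t _ fun ω ω' h => by rw [gg_MM_congr n γ x ω ω' t h]
    have hm2 : Measurable (fun ω : ℕ → DD => qq n (st (MM n γ x ω (2 * t)))) :=
      measurable_dep (2 * t) _ fun ω ω' h => by rw [gg_MM_congr n γ x ω ω' (2 * t) h]
    exact (measurableSet_lt hm1 measurable_const).inter (measurableSet_lt hm2 measurable_const)
  have e1 : pr {ω | qq n (st (MM n γ x ω t)) < c * θ ∧
      qq n (st (MM n γ x ω (2 * t))) < c * θ} = ∫ ω, F ω (sh t ω) ∂(mu DD) := by
    unfold pr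
    rw [← integral_ind (mu DD) _ hset]
    refine integral_congr_ae (ae_of_all _ fun ω => ?_)
    simp only [hF]
    rw [← gg_MM_add, ← two_mul]
  rw [e1, markov_int t F hFm 1 (fun ω η => by
    rw [abs_of_nonneg (ind_nonneg _)]; exact ind_le_one _)
    (fun ω ω' η h => hFdep ω ω' η η h (fun _ _ => rfl))]
  have hle : ∀ ω : ℕ → DD, ∫ η, F ω η ∂(mu DD) ≤ 1 - c := by
    intro ω
    by_cases ha : qq n (st (MM n γ x ω t)) < c * θ
    · have h1 := h0 n hn (pos (act n) x ω t) (MM n γ x ω t) (gg_path n γ x hγ ω t) ha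
      have hm3 : Measurable (fun η : ℕ → DD =>
          qq n (st (MM n (MM n γ x ω t) (pos (act n) x ω t) η t))) :=
        measurable_dep t _ fun η η' h => by rw [gg_MM_congr n _ _ η η' t h]
      have hs3 : MeasurableSet {η : ℕ → DD | c * θ ≤
          qq n (st (MM n (MM n γ x ω t) (pos (act n) x ω t) η t))} :=
        measurableSet_le measurable_const hm3
      have hs4 : MeasurableSet {η : ℕ → DD |
          qq n (st (MM n (MM n γ x ω t) (pos (act n) x ω t) η t)) < c * θ} :=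
        measurableSet_lt hm3 measurable_const
      have e2 : ∫ η, F ω η ∂(mu DD) = pr {η |
          qq n (st (MM n (MM n γ x ω t) (pos (act n) x ω t) η t)) < c * θ} := by
        unfold pr
        rw [← integral_ind (mu DD) _ hs4]
        refine integral_congr_ae (ae_of_all _ fun η => ?_)
        simp only [hF]
        congr 1
        exact propext ⟨fun h => h.2, fun h => ⟨ha, h⟩⟩
      rw [e2]
      have e3 : {η : ℕ → DD | qq n (st (MM n (MM n γ x ω t) (pos (act n) x ω t) η t)) < c * θ} =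
          {η : ℕ → DD | c * θ ≤ qq n (st (MM n (MM n γ x ω t) (pos (act n) x ω t) η t))}ᶜ := by
        ext η
        simp
      rw [e3]
      unfold pr at h1 ⊢
      rw [probReal_compl_eq_one_sub hs3]
      linarith
    · have e4 : ∀ η : ℕ → DD, F ω η = 0 := fun η => ind_false fun h => ha h.1
      simp only [e4, integral_zero]
      linarith
  have hnn : ∀ ω η, 0 ≤ F ω η := fun ω η => ind_nonneg _
  calc ∫ ω, ∫ η, F ω η ∂(mu DD) ∂(mu DD) ≤ ∫ ω : ℕ → DD, (1 - c) ∂(mu DD) := by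
        refine integral_mono_of_nonneg (ae_of_all _ fun ω => integral_nonneg (hnn ω))
          (integrable_const _) (ae_of_all _ hle)
    _ = 1 - c := by simp

theorem lemG : ∃ c : ℝ, 0 < c ∧ ∀ θ : ℝ, 0 < θ → θ ≤ 1 → ∃ n0 : ℕ, ∀ (n : ℕ) [NeZero n],
    n0 ≤ n → ∀ (x : V n) (γ : List (V n)), Path1 γ x →
    c ≤ pr {ω | c * θ ≤ qq n (st (MM n γ x ω ⌈θ * kk n / 2⌉₊)) ∨
      c * θ ≤ qq n (st (MM n γ x ω (2 * ⌈θ * kk n / 2⌉₊)))} := by
  obtain ⟨c, hc0, hc1, hb⟩ := gg_block
  refine ⟨c, hc0, fun θ hθ hθ1 => ?_⟩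
  obtain ⟨n0, h0⟩ := hb θ hθ hθ1
  refine ⟨n0, fun n _ hn x γ hγ => ?_⟩
  have h1 := h0 n hn x γ hγ
  set t : ℕ := ⌈θ * kk n / 2⌉₊ with ht
  have hm1 : Measurable (fun ω : ℕ → DD => qq n (st (MM n γ x ω t))) :=
    measurable_dep t _ fun ω ω' h => by rw [gg_MM_congr n γ x ω ω' t h]
  have hm2 : Measurable (fun ω : ℕ → DD => qq n (st (MM n γ x ω (2 * t)))) :=
    measurable_dep (2 * t) _ fun ω ω' h => by rw [gg_MM_congr n γ x ω ω' (2 * t) h]
  have hs : MeasurableSet {ω : ℕ → DD | qq n (st (MM n γ x ω t)) < c * θ ∧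
      qq n (st (MM n γ x ω (2 * t))) < c * θ} :=
    (measurableSet_lt hm1 measurable_const).inter (measurableSet_lt hm2 measurable_const)
  have e : {ω : ℕ → DD | c * θ ≤ qq n (st (MM n γ x ω t)) ∨
      c * θ ≤ qq n (st (MM n γ x ω (2 * t)))} =
      {ω : ℕ → DD | qq n (st (MM n γ x ω t)) < c * θ ∧
      qq n (st (MM n γ x ω (2 * t))) < c * θ}ᶜ := by
    ext ω
    simp only [Set.mem_setOf_eq, Set.mem_compl_iff, not_and_or, not_lt]
  rw [e]
  unfold pr at h1 ⊢
  rw [probReal_compl_eq_one_sub hs]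
  linarith

/-- several blocks of growth: the probability that none of the times `i * t` for
`1 ≤ i ≤ 2 J` is good, `t = ⌈θ k / 2⌉` -/
theorem lemG_iter : ∃ c : ℝ, 0 < c ∧ c ≤ 1 ∧ ∀ θ : ℝ, 0 < θ → θ ≤ 1 → ∃ n0 : ℕ,
    ∀ (n : ℕ) [NeZero n], n0 ≤ n → ∀ (J : ℕ) (x : V n) (γ : List (V n)), Path1 γ x →
    pr {ω | ∀ i : ℕ, 1 ≤ i → i ≤ 2 * J →
      qq n (st (MM n γ x ω (i * ⌈θ * kk n / 2⌉₊))) < c * θ} ≤ (1 - c) ^ J := by
  obtain ⟨c, hc0, hc1, hb⟩ := gg_block
  refine ⟨c, hc0, hc1, fun θ hθ hθ1 => ?_⟩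
  obtain ⟨n0, h0⟩ := hb θ hθ hθ1
  refine ⟨n0, fun n _ hn J => ?_⟩
  set t : ℕ := ⌈θ * kk n / 2⌉₊ with ht
  -- measurability of the events
  have hset : ∀ (J : ℕ) (x : V n) (γ : List (V n)), MeasurableSet {ω : ℕ → DD |
      ∀ i : ℕ, 1 ≤ i → i ≤ 2 * J → qq n (st (MM n γ x ω (i * t))) < c * θ} := by
    intro J x γ
    have : {ω : ℕ → DD | ∀ i : ℕ, 1 ≤ i → i ≤ 2 * J → qq n (st (MM n γ x ω (i * t))) < c * θ} =
        ⋂ i ∈ Set.Icc 1 (2 * J), {ω : ℕ → DD | qq n (st (MM n γ x ω (i * t))) < c * θ} := by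
      ext ω
      simp only [Set.mem_setOf_eq, Set.mem_iInter, Set.mem_Icc, and_imp]
    rw [this]
    refine MeasurableSet.biInter (Set.to_countable _) fun i _ => ?_
    have hm1 : Measurable (fun ω : ℕ → DD => qq n (st (MM n γ x ω (i * t)))) :=
      measurable_dep (i * t) _ fun ω ω' h => by rw [gg_MM_congr n γ x ω ω' (i * t) h]
    exact measurableSet_lt hm1 measurable_const
  induction J with
  | zero =>
    intro x γ _
    rw [pow_zero]
    exact measureReal_le_one
  | succ J ih =>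
    intro x γ hγ
    set F : (ℕ → DD) → (ℕ → DD) → ℝ := fun ω η =>
      ind ((qq n (st (MM n γ x ω t)) < c * θ ∧ qq n (st (MM n γ x ω (2 * t))) < c * θ) ∧
        ∀ i : ℕ, 1 ≤ i → i ≤ 2 * J →
          qq n (st (MM n (MM n γ x ω (2 * t)) (pos (act n) x ω (2 * t)) η (i * t))) < c * θ)
      with hF
    have hFdep : ∀ ω ω' η η' : ℕ → DD, (∀ i, i < 2 * t → ω i = ω' i) →
        (∀ i, i < 2 * J * t → η i = η' i) → F ω η = F ω' η' := by
      intro ω ω' η η' h h'
      simp only [hF]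
      rw [gg_MM_congr n γ x ω ω' t (fun i hi => h i (by omega)),
        gg_MM_congr n γ x ω ω' (2 * t) h, pos_congr (act n) x ω ω' (2 * t) h]
      congr 1
      refine propext (and_congr Iff.rfl (forall_congr' fun i => forall_congr' fun h1 =>
        forall_congr' fun h2 => ?_))
      have h3 : i * t ≤ 2 * J * t := Nat.mul_le_mul_right _ h2
      rw [gg_MM_congr n _ _ η η' (i * t) (fun j hj => h' j (by omega))]
    have hFm := gg_meas2 (2 * t) (2 * J * t) F hFdep
    have e1 : pr {ω | ∀ i : ℕ, 1 ≤ i → i ≤ 2 * (J + 1) →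
        qq n (st (MM n γ x ω (i * t))) < c * θ} = ∫ ω, F ω (sh (2 * t) ω) ∂(mu DD) := by
      unfold pr
      rw [← integral_ind (mu DD) _ (hset (J + 1) x γ)]
      refine integral_congr_ae (ae_of_all _ fun ω => ?_)
      simp only [hF]
      congr 1
      refine propext ⟨fun h => ⟨⟨?_, ?_⟩, fun i h1 h2 => ?_⟩, fun h i h1 h2 => ?_⟩
      · have := h 1 le_rfl (by omega)
        rwa [one_mul] at this
      · exact h 2 (by omega) (by omega)
      · rw [← gg_MM_add, ← add_mul]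
        exact h (2 + i) (by omega) (by omega)
      · rcases Nat.lt_or_ge 2 i with h3 | h3
        · have := h.2 (i - 2) (by omega) (by omega)
          rw [← gg_MM_add, ← add_mul] at this
          rwa [show 2 + (i - 2) = i by omega] at this
        · have h4 : i = 1 ∨ i = 2 := by omega
          rcases h4 with h4 | h4
          · rw [h4, one_mul]
            exact h.1.1
          · rw [h4]
            exact h.1.2
    rw [e1, markov_int (2 * t) F hFm 1 (fun ω η => by
      rw [abs_of_nonneg (ind_nonneg _)]; exact ind_le_one _)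
      (fun ω ω' η h => hFdep ω ω' η η h (fun _ _ => rfl))]
    have hc1' : 0 ≤ 1 - c := by linarith
    have hs2 : MeasurableSet {ω : ℕ → DD | qq n (st (MM n γ x ω t)) < c * θ ∧
        qq n (st (MM n γ x ω (2 * t))) < c * θ} := by
      have hm1 : Measurable (fun ω : ℕ → DD => qq n (st (MM n γ x ω t))) :=
        measurable_dep t _ fun ω ω' h => by rw [gg_MM_congr n γ x ω ω' t h]
      have hm2 : Measurable (fun ω : ℕ → DD => qq n (st (MM n γ x ω (2 * t)))) :=
        measurable_dep (2 * t) _ fun ω ω' h => by rw [gg_MM_congr n γ x ω ω' (2 * t) h]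
      exact (measurableSet_lt hm1 measurable_const).inter (measurableSet_lt hm2 measurable_const)
    have hle : ∀ ω : ℕ → DD, ∫ η, F ω η ∂(mu DD) ≤
        (1 - c) ^ J * ind (qq n (st (MM n γ x ω t)) < c * θ ∧
          qq n (st (MM n γ x ω (2 * t))) < c * θ) := by
      intro ω
      by_cases ha : qq n (st (MM n γ x ω t)) < c * θ ∧ qq n (st (MM n γ x ω (2 * t))) < c * θ
      · rw [ind_true ha, mul_one]
        have h1 := ih (pos (act n) x ω (2 * t)) (MM n γ x ω (2 * t))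
          (gg_path n γ x hγ ω (2 * t))
        refine le_trans (le_of_eq ?_) h1
        unfold pr
        rw [← integral_ind (mu DD) _ (hset J _ _)]
        refine integral_congr_ae (ae_of_all _ fun η => ?_)
        simp only [hF]
        congr 1
        exact propext ⟨fun h => h.2, fun h => ⟨ha, h⟩⟩
      · have e4 : ∀ η : ℕ → DD, F ω η = 0 := fun η => ind_false fun h => ha h.1
        simp only [e4, integral_zero]
        exact mul_nonneg (pow_nonneg hc1' J) (ind_nonneg _)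
    have hI : Integrable (fun ω : ℕ → DD => (1 - c) ^ J *
        ind (qq n (st (MM n γ x ω t)) < c * θ ∧ qq n (st (MM n γ x ω (2 * t))) < c * θ))
        (mu DD) := (gg_int_ind _ hs2).const_mul _
    have hnn : ∀ ω η, 0 ≤ F ω η := fun ω η => ind_nonneg _
    calc ∫ ω, ∫ η, F ω η ∂(mu DD) ∂(mu DD) ≤
          ∫ ω : ℕ → DD, (1 - c) ^ J * ind (qq n (st (MM n γ x ω t)) < c * θ ∧
            qq n (st (MM n γ x ω (2 * t))) < c * θ) ∂(mu DD) :=
          integral_mono_of_nonneg (ae_of_all _ fun ω => integral_nonneg (hnn ω)) hI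
            (ae_of_all _ hle)
      _ = (1 - c) ^ J * pr {ω | qq n (st (MM n γ x ω t)) < c * θ ∧
            qq n (st (MM n γ x ω (2 * t))) < c * θ} := by
          rw [integral_const_mul, integral_ind (mu DD) _ hs2]
          rfl
      _ ≤ (1 - c) ^ J * (1 - c) :=
          mul_le_mul_of_nonneg_left (h0 n hn x γ hγ) (pow_nonneg hc1' J)
      _ = (1 - c) ^ (J + 1) := by rw [pow_succ]

end Pool.Agent.UST
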