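import Pool.Agent.Helper54.UST.BaseTorus

/-! Heat kernel of the lazy walk on the four-dimensional torus: Fourier series. -/

set_option linter.unusedSectionVars false
set_option linter.unusedVariables false

namespace Pool.Agent.UST

open MeasureTheory

/-! ### Characters -/

/-- The character with frequency `θ`. -/
noncomputable def heatChi {n : ℕ} [NeZero n] (θ y : V n) : ℂ := ZMod.stdAddChar (∑ a, θ a * y a)

/-- The Fourier multiplier. -/
noncomputable def heatPhi {n : ℕ} (θ : V n) : ℝ :=
  1 / 2 + (1 / 8) * ∑ a, Real.cos (2 * Real.pi * ((θ a).valMinAbs / n))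

theorem heatChi_add {n : ℕ} [NeZero n] (θ x y : V n) :
    heatChi θ (x + y) = heatChi θ x * heatChi θ y := by
  unfold heatChi
  rw [← AddChar.map_add_eq_mul, ← Finset.sum_add_distrib]
  congr 1
  exact Finset.sum_congr rfl fun a _ => by rw [Pi.add_apply, mul_add]

theorem heatChi_zero {n : ℕ} [NeZero n] (θ : V n) : heatChi θ 0 = 1 := by
  unfold heatChi
  simp

theorem heat_std_re {n : ℕ} [NeZero n] (j : ℤ) :
    (ZMod.stdAddChar (j : ZMod n) : ℂ).re = Real.cos (2 * Real.pi * (j / n)) := by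
  rw [ZMod.stdAddChar_coe]
  have h : (2 * Real.pi * Complex.I * j / n : ℂ) = ((2 * Real.pi * (j / n) : ℝ) : ℂ) * Complex.I := by
    push_cast
    ring
  rw [h, Complex.exp_ofReal_mul_I_re]

theorem heat_std_neg {n : ℕ} [NeZero n] (u : ZMod n) :
    (ZMod.stdAddChar (-u) : ℂ) = (starRingEnd ℂ) (ZMod.stdAddChar u) := by
  obtain ⟨j, rfl⟩ := ZMod.intCast_surjective u
  rw [← Int.cast_neg, ZMod.stdAddChar_coe, ZMod.stdAddChar_coe, ← Complex.exp_conj]
  congr 1
  have h2 : (starRingEnd ℂ) 2 = 2 := map_ofNat _ 2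
  simp [h2]

theorem heat_std_pair {n : ℕ} [NeZero n] (u : ZMod n) :
    (ZMod.stdAddChar u : ℂ) + ZMod.stdAddChar (-u) =
      ((2 * Real.cos (2 * Real.pi * (u.valMinAbs / n)) : ℝ) : ℂ) := by
  rw [heat_std_neg, Complex.add_conj]
  have h := heat_std_re (n := n) u.valMinAbs
  rw [ZMod.coe_valMinAbs] at h
  rw [h]

theorem heatChi_single {n : ℕ} [NeZero n] (θ : V n) (a : Fin 4) (s : ZMod n) :
    heatChi θ (Pi.single a s) = ZMod.stdAddChar (θ a * s) := by
  unfold heatChi
  rw [Finset.sum_eq_single a]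
  · rw [Pi.single_eq_same]
  · intro b _ hb
    rw [Pi.single_eq_of_ne hb, mul_zero]
  · intro h
    exact absurd (Finset.mem_univ a) h

theorem heatChi_inc {n : ℕ} [NeZero n] (θ : V n) :
    ∑ d : DD, heatChi θ (-inc n d) = 16 * (heatPhi θ : ℂ) := by
  rw [Fintype.sum_prod_type, Fintype.sum_bool, Fintype.sum_prod_type, Fintype.sum_prod_type]
  have h1 : ∀ (a : Fin 4), ∑ b : Bool, heatChi θ (-inc n (true, a, b)) =
      ((2 * Real.cos (2 * Real.pi * ((θ a).valMinAbs / n)) : ℝ) : ℂ) := by
    intro a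
    rw [Fintype.sum_bool]
    simp only [inc, if_true, Bool.false_eq_true, if_false]
    rw [← Pi.single_neg, ← Pi.single_neg, heatChi_single, heatChi_single, neg_neg, mul_one,
      mul_neg, mul_one, add_comm, heat_std_pair]
  have h2 : ∀ (a : Fin 4), ∑ b : Bool, heatChi θ (-inc n (false, a, b)) = 2 := by
    intro a
    rw [Fintype.sum_bool]
    simp only [inc, Bool.false_eq_true, if_false, neg_zero, heatChi_zero]
    norm_num
  rw [Finset.sum_congr rfl fun a _ => h1 a, Finset.sum_congr rfl fun a _ => h2 a]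
  unfold heatPhi
  push_cast
  rw [← Finset.mul_sum]
  simp
  ring

theorem heat_orth {n : ℕ} [NeZero n] (y : V n) :
    ∑ θ : V n, heatChi θ y = if y = 0 then ((n : ℂ) ^ 4) else 0 := by
  have h1 : ∀ θ : V n, heatChi θ y = ∏ a, (ZMod.stdAddChar (θ a * y a) : ℂ) := by
    intro θ
    unfold heatChi
    rw [Fin.sum_univ_four, Fin.prod_univ_four, AddChar.map_add_eq_mul, AddChar.map_add_eq_mul,
      AddChar.map_add_eq_mul]
  rw [Finset.sum_congr rfl fun θ _ => h1 θ]
  have h2 := Finset.prod_univ_sum (fun _ : Fin 4 => (Finset.univ : Finset (ZMod n)))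
    (fun a u => (ZMod.stdAddChar (u * y a) : ℂ))
  rw [Fintype.piFinset_univ] at h2
  rw [← h2]
  have h3 : ∀ a, ∑ u : ZMod n, (ZMod.stdAddChar (u * y a) : ℂ) = if y a = 0 then (n : ℂ) else 0 := by
    intro a
    have := AddChar.sum_mulShift (y a) (ZMod.isPrimitive_stdAddChar n)
    rw [ZMod.card] at this
    exact_mod_cast this
  rw [Finset.prod_congr rfl fun a _ => h3 a]
  by_cases hy : y = 0
  · subst hy
    simp
  · rw [if_neg hy]
    obtain ⟨a, ha⟩ : ∃ a, y a ≠ 0 := by
      by_contra hc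
      push Not at hc
      exact hy (funext hc)
    exact Finset.prod_eq_zero (Finset.mem_univ a) (if_neg ha)

/-! ### One step -/

theorem heat_hk_nonneg (n t : ℕ) (x y : V n) : 0 ≤ hk n t x y := measureReal_nonneg

theorem heat_hk_le_one (n t : ℕ) (x y : V n) : hk n t x y ≤ 1 := by
  unfold hk pr
  exact measureReal_le_one

theorem heat_hk_zero (n : ℕ) (x y : V n) : hk n 0 x y = if x = y then 1 else 0 := by
  unfold hk pr
  by_cases h : x = y
  · have : {ω : ℕ → DD | pos (act n) x ω 0 = y} = Set.univ := by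
      ext ω
      simpa [pos] using h
    rw [this, if_pos h]
    simp
  · have : {ω : ℕ → DD | pos (act n) x ω 0 = y} = ∅ := by
      ext ω
      simpa [pos] using h
    rw [this, if_neg h]
    simp

theorem heat_hk_one (n : ℕ) [NeZero n] (x y : V n) :
    hk n 1 x y = (∑ d : DD, if x = y - inc n d then 1 else 0) / 16 := by
  have h1 := mu_first (D := DD) (fun d => if x = y - inc n d then (1 : ℝ) else 0)
  have h2 : (Fintype.card DD : ℝ) = 16 := by
    have : Fintype.card DD = 16 := by decide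
    rw [this]
    norm_num
  rw [h2] at h1
  rw [← h1]
  unfold hk pr
  have hm : MeasurableSet {ω : ℕ → DD | pos (act n) x ω 1 = y} := by
    have : Measurable fun ω : ℕ → DD => pos (act n) x ω 1 :=
      measurable_dep 1 _ fun ω ω' h => pos_congr (act n) x ω ω' 1 h
    exact this (measurableSet_singleton y)
  rw [← integral_indicator_one hm]
  refine integral_congr_ae (Filter.Eventually.of_forall fun ω => ?_)
  have h3 : pos (act n) x ω 1 = x + inc n (ω 0) := rfl
  by_cases h : x = y - inc n (ω 0)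
  · have h4 : ω ∈ {ω : ℕ → DD | pos (act n) x ω 1 = y} := by
      show pos (act n) x ω 1 = y
      rw [h3, h, sub_add_cancel]
    simp only [Set.indicator_of_mem h4, Pi.one_apply, if_pos h]
  · have h4 : ω ∉ {ω : ℕ → DD | pos (act n) x ω 1 = y} := by
      intro hc
      apply h
      have h5 : pos (act n) x ω 1 = y := hc
      rw [h3] at h5
      rw [← h5, add_sub_cancel_right]
    simp only [Set.indicator_of_notMem h4, if_neg h]

theorem heat_hk_step (n : ℕ) [NeZero n] (t : ℕ) (x y : V n) :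
    hk n (t + 1) x y = (∑ d : DD, hk n t x (y - inc n d)) / 16 := by
  rw [hk_add]
  simp only [heat_hk_one]
  have h1 : ∀ w : V n, hk n t x w * ((∑ d : DD, if w = y - inc n d then (1 : ℝ) else 0) / 16) =
      (∑ d : DD, if w = y - inc n d then hk n t x w else 0) / 16 := by
    intro w
    rw [mul_div_assoc', Finset.mul_sum]
    congr 1
    refine Finset.sum_congr rfl fun d _ => ?_
    split_ifs
    · rw [mul_one]
    · rw [mul_zero]
  rw [Finset.sum_congr rfl fun w _ => h1 w, ← Finset.sum_div, Finset.sum_comm]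
  congr 1
  refine Finset.sum_congr rfl fun d _ => ?_
  rw [Finset.sum_ite_eq' Finset.univ (y - inc n d)]
  simp

/-- Fourier series. -/
theorem heat_fourier (n : ℕ) [NeZero n] (t : ℕ) (x y : V n) :
    (hk n t x y : ℂ) = (∑ θ : V n, (heatPhi θ : ℂ) ^ t * heatChi θ (y - x)) / (n : ℂ) ^ 4 := by
  have hn : (n : ℂ) ^ 4 ≠ 0 := pow_ne_zero 4 (Nat.cast_ne_zero.2 (NeZero.ne n))
  induction t generalizing y with
  | zero =>
    rw [heat_hk_zero]
    simp only [pow_zero, one_mul]
    rw [heat_orth]
    by_cases h : x = y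
    · rw [if_pos h, if_pos (by rw [h, sub_self]), div_self hn]
      simp
    · rw [if_neg h, if_neg (fun hc => h (sub_eq_zero.1 hc).symm)]
      simp
  | succ t ih =>
    rw [heat_hk_step]
    push_cast
    rw [Finset.sum_congr rfl fun d _ => ih (y - inc n d), ← Finset.sum_div, Finset.sum_comm]
    have h1 : ∀ θ : V n, ∑ d : DD, (heatPhi θ : ℂ) ^ t * heatChi θ (y - inc n d - x) =
        16 * ((heatPhi θ : ℂ) ^ (t + 1) * heatChi θ (y - x)) := by
      intro θ
      have h2 : ∀ d : DD, (heatPhi θ : ℂ) ^ t * heatChi θ (y - inc n d - x) =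
          (heatPhi θ : ℂ) ^ t * heatChi θ (y - x) * heatChi θ (-inc n d) := by
        intro d
        rw [mul_assoc, ← heatChi_add]
        congr 2
        abel
      rw [Finset.sum_congr rfl fun d _ => h2 d, ← Finset.mul_sum, heatChi_inc]
      ring
    rw [Finset.sum_congr rfl fun θ _ => h1 θ, ← Finset.mul_sum]
    field_simp

theorem heat_fourier_re (n : ℕ) [NeZero n] (t : ℕ) (x y : V n) :
    hk n t x y = (∑ θ : V n, (heatPhi θ) ^ t * (heatChi θ (y - x)).re) / NN n := by
  have h := congrArg Complex.re (heat_fourier n t x y)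
  rw [Complex.ofReal_re] at h
  rw [h]
  have h2 : ((n : ℂ) ^ 4) = ((NN n : ℝ) : ℂ) := by
    unfold NN
    push_cast
    rfl
  rw [h2, Complex.div_ofReal_re, Complex.re_sum]
  congr 1
  refine Finset.sum_congr rfl fun θ _ => ?_
  rw [← Complex.ofReal_pow, Complex.re_ofReal_mul]

end Pool.Agent.UST
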