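import Pool.Agent.Helper54.UST.OnePt
import Pool.Agent.Helper54.UST.BaseTorus
import Pool.Agent.Helper54.UST.Av

/-! The killed walk (paper Lemma E, first part). -/

namespace Pool.Agent.UST

open MeasureTheory

namespace Kill1

/-! ### Functions of finitely many choices -/

section fin
variable {D : Type} [Fintype D] [Nonempty D] [MeasurableSpace D] [MeasurableSingletonClass D]

theorem lint_fin (t : ℕ) (f : (Fin t → D) → ENNReal) :
    ∫⁻ ω, f (fun i => ω i) ∂(mu D) = (∑ a, f a) / (Fintype.card D : ENNReal) ^ t := by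
  classical
  have hm : Measurable (fun (ω : ℕ → D) (i : Fin t) => ω i) :=
    measurable_pi_lambda _ fun i => measurable_pi_apply _
  have h1 : ∫⁻ ω, f (fun i => ω i) ∂(mu D) =
      ∫⁻ a, f a ∂((mu D).map (fun (ω : ℕ → D) (i : Fin t) => ω i)) :=
    (lintegral_map (measurable_of_finite f) hm).symm
  have h2 : ∀ a : Fin t → D, ((mu D).map (fun (ω : ℕ → D) (i : Fin t) => ω i)) {a} =
      ((Fintype.card D : ENNReal) ^ t)⁻¹ := by
    intro a
    rw [Measure.map_apply hm (measurableSet_singleton a)]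
    have h3 := mu_fin (D := D) t (fun a' => if a' = a then 1 else 0)
    have h4 : ∫ ω, (if (fun i : Fin t => ω i) = a then (1 : ℝ) else 0) ∂(mu D) =
        (mu D).real ((fun (ω : ℕ → D) (i : Fin t) => ω i) ⁻¹' {a}) := by
      have h5 : (fun ω : ℕ → D => if (fun i : Fin t => ω i) = a then (1 : ℝ) else 0) =
          ((fun (ω : ℕ → D) (i : Fin t) => ω i) ⁻¹' {a}).indicator (fun _ => (1 : ℝ)) := by
        funext ω
        by_cases h : (fun i : Fin t => ω i) = a
        · rw [if_pos h, Set.indicator_of_mem (show ω ∈ _ from h)]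
        · rw [if_neg h, Set.indicator_of_notMem (show ω ∉ _ from h)]
      rw [h5, integral_indicator_const _ (hm (measurableSet_singleton a))]
      simp
    rw [h4] at h3
    have h6 : (∑ a' : Fin t → D, if a' = a then (1 : ℝ) else 0) = 1 := by simp
    rw [h6] at h3
    have h7 : (mu D) ((fun (ω : ℕ → D) (i : Fin t) => ω i) ⁻¹' {a}) =
        ENNReal.ofReal (1 / (Fintype.card D : ℝ) ^ t) := by
      rw [← h3]
      unfold Measure.real
      rw [ENNReal.ofReal_toReal (measure_ne_top _ _)]
    rw [h7, one_div, ENNReal.ofReal_inv_of_pos (by positivity), ENNReal.ofReal_pow (by positivity),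
      ENNReal.ofReal_natCast]
  rw [h1, lintegral_fintype]
  simp only [h2]
  rw [← Finset.sum_mul, ENNReal.div_eq_inv_mul, mul_comm]

end fin

/-- extension of a finite sequence of choices -/
noncomputable def ext {D : Type} [Nonempty D] (t : ℕ) (a : Fin t → D) : ℕ → D :=
  fun i => if h : i < t then a ⟨i, h⟩ else Classical.arbitrary D

theorem ext_lt {D : Type} [Nonempty D] (t : ℕ) (ω : ℕ → D) (i : ℕ) (hi : i < t) :
    ext t (fun j : Fin t => ω j) i = ω i := by
  simp [ext, hi]

/-- indicator with values in `ENNReal` -/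
noncomputable def indE (P : Prop) : ENNReal := open Classical in if P then 1 else 0

theorem indE_true {P : Prop} (h : P) : indE P = 1 := if_pos h

theorem indE_false {P : Prop} (h : ¬ P) : indE P = 0 := if_neg h

theorem lint_indE {Ω : Type} [MeasurableSpace Ω] (μ : Measure Ω) (P : Ω → Prop)
    (hP : MeasurableSet {ω | P ω}) : ∫⁻ ω, indE (P ω) ∂μ = μ {ω | P ω} := by
  classical
  rw [← lintegral_indicator_one hP]
  refine lintegral_congr fun ω => ?_
  by_cases h : P ω
  · rw [Set.indicator_of_mem (show ω ∈ {ω | P ω} from h), indE_true h]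
    rfl
  · rw [Set.indicator_of_notMem (show ω ∉ {ω | P ω} from h), indE_false h]

theorem prod_lint (b t : ℕ) (p : (Fin t → Fin (b + 1)) → Prop) (f : (ℕ → DD) → ENNReal)
    (hf : ∀ ω ω' : ℕ → DD, (∀ i, i < t → ω i = ω' i) → f ω = f ω') :
    ∫⁻ ω, indE (p (fun i : Fin t => (ω i).2)) * f (fun i => (ω i).1)
        ∂(mu (DD × Fin (b + 1))) =
      (Nat.card {a // p a} : ENNReal) / (b + 1 : ENNReal) ^ t * ∫⁻ ω, f ω ∂(mu DD) := by
  classical
  set g1 : (Fin t → DD × Fin (b + 1)) → ENNReal := fun a =>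
    indE (p (fun i : Fin t => (a i).2)) * f (ext t (fun i : Fin t => (a i).1)) with hg1
  have e1 : ∀ ω : ℕ → DD × Fin (b + 1),
      indE (p (fun i : Fin t => (ω i).2)) * f (fun i => (ω i).1) =
      g1 (fun i : Fin t => ω i) := by
    intro ω
    simp only [hg1]
    congr 1
    refine hf _ _ fun i hi => ?_
    exact (ext_lt t (fun i => (ω i).1) i hi).symm
  have e2 : ∀ ω : ℕ → DD, f ω = (fun a : Fin t → DD => f (ext t a)) (fun i : Fin t => ω i) := by
    intro ω
    refine hf _ _ fun i hi => ?_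
    exact (ext_lt t ω i hi).symm
  rw [(lintegral_congr e1).trans (lint_fin t g1),
    (lintegral_congr e2).trans (lint_fin t (fun a : Fin t → DD => f (ext t a)))]
  have e3 : (∑ a : Fin t → DD × Fin (b + 1), g1 a) =
      (∑ a : Fin t → DD, f (ext t a)) * (Nat.card {a // p a} : ENNReal) := by
    rw [← Equiv.sum_comp (Equiv.arrowProdEquivProdArrow (Fin t) (fun _ => DD)
      (fun _ => Fin (b + 1))).symm, Fintype.sum_prod_type, Finset.sum_mul]
    refine Finset.sum_congr rfl fun a1 _ => ?_
    have h1 : ∀ a2 : Fin t → Fin (b + 1),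
        g1 ((Equiv.arrowProdEquivProdArrow (Fin t) (fun _ => DD)
          (fun _ => Fin (b + 1))).symm (a1, a2)) = indE (p a2) * f (ext t a1) := fun a2 => rfl
    rw [Finset.sum_congr rfl fun a2 _ => h1 a2, ← Finset.sum_mul, mul_comm]
    congr 1
    unfold indE
    rw [Finset.sum_ite, Finset.sum_const_zero, add_zero, Finset.sum_const, nsmul_eq_mul, mul_one,
      Nat.card_eq_fintype_card, Fintype.card_subtype]
  rw [e3]
  have e4 : (Fintype.card (DD × Fin (b + 1)) : ENNReal) ^ t =
      (Fintype.card DD : ENNReal) ^ t * (b + 1 : ENNReal) ^ t := by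
    rw [Fintype.card_prod, Fintype.card_fin]
    push_cast
    rw [mul_pow]
  rw [e4]
  have h1 : (Fintype.card DD : ENNReal) ^ t ≠ 0 := by
    refine pow_ne_zero _ ?_
    simp
  have h2 : (Fintype.card DD : ENNReal) ^ t ≠ ⊤ := ENNReal.pow_ne_top (ENNReal.natCast_ne_top _)
  rw [ENNReal.div_eq_inv_mul, ENNReal.div_eq_inv_mul, ENNReal.div_eq_inv_mul,
    ENNReal.mul_inv (Or.inl h1) (Or.inl h2)]
  ring

/-! ### The killed walk -/

variable {n b : ℕ}

/-- The killing happens at step `g + 1`. -/
def KK {b : ℕ} (g : ℕ) (ω : ℕ → DD × Fin (b + 1)) : Prop :=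
  (∀ i, i < g → (ω i).2 ≠ 0) ∧ (ω g).2 = 0

theorem kpos (x : V n) (ω : ℕ → DD × Fin (b + 1)) (t : ℕ) (h : ∀ i, i < t → (ω i).2 ≠ 0) :
    pos (kact n b) (some x) ω t = some (pos (act n) x (fun i => (ω i).1) t) := by
  induction t with
  | zero => rfl
  | succ t ih =>
    change kact n b (ω t) (pos (kact n b) (some x) ω t) = _
    rw [ih fun i hi => h i (Nat.lt_succ_of_lt hi)]
    change (if (ω t).2 = 0 then none else some (act n (ω t).1 _)) = _
    rw [if_neg (h t (Nat.lt_succ_self t))]
    rfl

theorem kpos_none (x : V n) (ω : ℕ → DD × Fin (b + 1)) (g : ℕ) (h : KK g ω) :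
    pos (kact n b) (some x) ω (g + 1) = none := by
  change kact n b (ω g) (pos (kact n b) (some x) ω g) = _
  rw [kpos x ω g h.1]
  change (if (ω g).2 = 0 then none else some (act n (ω g).1 _)) = _
  rw [if_pos h.2]

theorem ktau (x : V n) (ω : ℕ → DD × Fin (b + 1)) (g : ℕ) (h : KK g ω) :
    tau (kact n b) (some x) ω {none} = g + 1 := by
  obtain ⟨h1, h2⟩ := tau_spec (kact n b) (some x) ω {none} ⟨g + 1, kpos_none x ω g h⟩
  rcases lt_trichotomy (tau (kact n b) (some x) ω {none}) (g + 1) with h3 | h3 | h3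
  · rw [kpos x ω _ fun i hi => h.1 i (by omega)] at h1
    exact absurd h1 (by simp)
  · exact h3
  · exact absurd (kpos_none x ω g h) (h2 _ h3)

theorem kseg (x : V n) (ω : ℕ → DD × Fin (b + 1)) (g : ℕ) (h : KK g ω) :
    seg (kact n b) (some x) ω 0 (g + 1) =
      (seg (act n) x (fun i => (ω i).1) 0 g).map some ++ [none] := by
  rw [seg_append (kact n b) (some x) ω 0 g (g + 1) (Nat.zero_le _) (Nat.le_succ g)]
  congr 1
  · unfold seg
    rw [List.map_map]
    refine List.map_congr_left fun i hi => ?_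
    rw [List.mem_range'_1] at hi
    exact kpos x ω i fun j hj => h.1 j (by omega)
  · unfold seg
    have : g + 1 + 1 - (g + 1) = 1 := by omega
    rw [this]
    simp only [List.range'_one, List.map_cons, List.map_nil]
    rw [kpos_none x ω g h]

theorem stepLE_some {W : Type} (γ : List W) (y : W) :
    stepLE (γ.map some) (some y) = (stepLE γ y).map some := by
  unfold stepLE
  rw [List.takeWhile_map, List.map_append]
  congr 2
  congr 1
  funext z
  simp

theorem leF_some {W : Type} (l γ : List W) :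
    leF (γ.map some) (l.map some) = (leF γ l).map some := by
  induction l generalizing γ with
  | nil => rfl
  | cons y l ih =>
    change leF (stepLE (γ.map some) (some y)) (l.map some) = (leF (stepLE γ y) l).map some
    rw [stepLE_some, ih]

theorem le_some {W : Type} (l : List W) :
    le (l.map some ++ [none]) = (le l).map some ++ [none] := by
  have h1 : le (l.map some ++ [none]) = stepLE (leF ([].map some) (l.map some)) none := by
    unfold le leF
    rw [List.foldl_append]
    rfl
  rw [h1, leF_some]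
  unfold stepLE
  congr 1
  change List.takeWhile _ ((leF [] l).map some) = (leF [] l).map some
  rw [List.takeWhile_eq_self_iff]
  intro z hz
  obtain ⟨w, _, rfl⟩ := List.mem_map.mp hz
  simp

theorem klerw (x : V n) (ω : ℕ → DD × Fin (b + 1)) (g : ℕ) (h : KK g ω) :
    lerw (kact n b) (some x) ω {none} =
      (le (seg (act n) x (fun i => (ω i).1) 0 g)).map some ++ [none] := by
  unfold lerw
  rw [ktau x ω g h, kseg x ω g h, le_some]

theorem exists_KK (x : V n) (ω : ℕ → DD × Fin (b + 1))
    (h : ∃ t, pos (kact n b) (some x) ω t = none) : ∃ g, KK g ω := by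
  classical
  have h1 : ∃ g, (ω g).2 = 0 := by
    by_contra hcon
    push Not at hcon
    obtain ⟨t, ht⟩ := h
    rw [kpos x ω t fun i _ => hcon i] at ht
    exact absurd ht (by simp)
  exact ⟨Nat.find h1, fun i hi => Nat.find_min h1 hi, Nat.find_spec h1⟩

theorem KK_unique {ω : ℕ → DD × Fin (b + 1)} {g g' : ℕ} (h : KK g ω) (h' : KK g' ω) :
    g = g' := by
  rcases lt_trichotomy g g' with h1 | h1 | h1
  · exact absurd h.2 (h'.1 g h1)
  · exact h1
  · exact absurd h'.2 (h.1 g' h1)

/-- Number of ways not to be killed. -/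
theorem card_alive (b t : ℕ) : Nat.card {a : Fin t → Fin (b + 1) // ∀ i, a i ≠ 0} = b ^ t := by
  classical
  rw [Nat.card_eq_fintype_card, Fintype.card_subtype]
  have : (Finset.univ.filter fun a : Fin t → Fin (b + 1) => ∀ i, a i ≠ 0) =
      Fintype.piFinset (fun _ : Fin t => Finset.univ.erase (0 : Fin (b + 1))) := by
    ext a
    simp
  rw [this, Fintype.card_piFinset]
  simp

theorem card_KK (b g : ℕ) : Nat.card {a : Fin (g + 1) → Fin (b + 1) //
    (∀ i : Fin (g + 1), (i : ℕ) < g → a i ≠ 0) ∧ a (Fin.last g) = 0} = b ^ g := by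
  classical
  rw [Nat.card_eq_fintype_card, Fintype.card_subtype]
  have : (Finset.univ.filter fun a : Fin (g + 1) → Fin (b + 1) =>
      (∀ i : Fin (g + 1), (i : ℕ) < g → a i ≠ 0) ∧ a (Fin.last g) = 0) =
      Fintype.piFinset (fun i : Fin (g + 1) => if (i : ℕ) < g then
        Finset.univ.erase (0 : Fin (b + 1)) else {0}) := by
    ext a
    simp only [Finset.mem_filter, Finset.mem_univ, true_and, Fintype.mem_piFinset]
    constructor
    · rintro ⟨h1, h2⟩ i
      by_cases hi : (i : ℕ) < g
      · rw [if_pos hi]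
        simpa using h1 i hi
      · rw [if_neg hi]
        have : i = Fin.last g := Fin.ext (by have := i.2; simp; omega)
        rw [this, h2]
        simp
    · intro h
      refine ⟨fun i hi => ?_, ?_⟩
      · have := h i
        rw [if_pos hi] at this
        simpa using this
      · have := h (Fin.last g)
        rw [if_neg (by simp)] at this
        simpa using this
  rw [this, Fintype.card_piFinset, Fin.prod_univ_castSucc]
  simp

end Kill1

theorem kact_reach (n b : ℕ) : Reach (kact n b) {none} := by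
  intro x
  refine ⟨fun _ => (Classical.arbitrary DD, 0), 1, ?_⟩
  change kact n b _ x = none
  cases x with
  | none => rfl
  | some x =>
    simp [kact]

/-- law of the loop erasure of the killed walk -/
theorem kill_law (n b : ℕ) [NeZero n] (x : V n) (Ψ : List (V n) → ENNReal) :
    ∫⁻ ω, Ψ ((lerw (kact n b) (some x) ω {none}).filterMap id) ∂(mu (DD × Fin (b + 1))) =
      ∑' g : ℕ, ENNReal.ofReal (((b : ℝ) / (b + 1)) ^ g * (1 / (b + 1))) *
        ∫⁻ ω, Ψ (le (seg (act n) x ω 0 g)) ∂(mu DD) := by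
  classical
  have h1 : ∀ᵐ ω ∂(mu (DD × Fin (b + 1))),
      Ψ ((lerw (kact n b) (some x) ω {none}).filterMap id) =
      ∑' g : ℕ, Kill1.indE ((∀ i : Fin (g + 1), (i : ℕ) < g → (ω i).2 ≠ 0) ∧
        (ω (Fin.last g : Fin (g + 1))).2 = 0) *
          Ψ (le (seg (act n) x (fun i => (ω i).1) 0 g)) := by
    filter_upwards [ae_hit (kact n b) {none} (kact_reach n b) (some x)] with ω hω
    obtain ⟨g, hg⟩ := Kill1.exists_KK x ω hω
    rw [Kill1.klerw x ω g hg, tsum_eq_single g]
    · rw [Kill1.indE_true ⟨fun i hi => hg.1 i hi, hg.2⟩, one_mul]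
      congr 1
      rw [List.filterMap_append, List.filterMap_map]
      simp
    · intro g' hg'
      rw [Kill1.indE_false, zero_mul]
      rintro ⟨h1, h2⟩
      exact hg' (Kill1.KK_unique ⟨fun i hi => h1 ⟨i, by omega⟩ hi, h2⟩ hg)
  rw [lintegral_congr_ae h1, lintegral_tsum]
  · refine tsum_congr fun g => ?_
    have h2 := Kill1.prod_lint b (g + 1)
      (fun a => (∀ i : Fin (g + 1), (i : ℕ) < g → a i ≠ 0) ∧ a (Fin.last g) = 0)
      (fun ω => Ψ (le (seg (act n) x ω 0 g))) (fun ω ω' hω => by
        rw [seg_congr (act n) x ω ω' 0 g fun i hi => hω i (by omega)])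
    refine Eq.trans h2 ?_
    rw [Kill1.card_KK]
    congr 1
    rw [ENNReal.ofReal_mul (by positivity), ENNReal.ofReal_pow (by positivity),
      ENNReal.ofReal_div_of_pos (by positivity), ENNReal.ofReal_div_of_pos (by positivity),
      ENNReal.ofReal_natCast, ENNReal.ofReal_one]
    have h3 : ENNReal.ofReal ((b : ℝ) + 1) = (b : ENNReal) + 1 := by
      rw [ENNReal.ofReal_add (by positivity) (by positivity), ENNReal.ofReal_natCast,
        ENNReal.ofReal_one]
    rw [h3]
    have h4 : ((b : ENNReal) + 1) ≠ 0 := by simp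
    have h5 : ((b : ENNReal) + 1) ≠ ⊤ := by simp
    rw [ENNReal.div_eq_inv_mul, ENNReal.div_eq_inv_mul, ENNReal.div_eq_inv_mul, mul_pow,
      pow_succ, ENNReal.mul_inv (Or.inl (pow_ne_zero _ h4)) (Or.inl (ENNReal.pow_ne_top h5)),
      ENNReal.inv_pow]
    push_cast
    ring
  · intro g
    refine (measurable_dep (g + 1) _ fun ω ω' hω => ?_).aemeasurable
    have e1 : (∀ i : Fin (g + 1), (i : ℕ) < g → (ω i).2 ≠ 0) ∧
        (ω (Fin.last g : Fin (g + 1))).2 = 0 ↔
        (∀ i : Fin (g + 1), (i : ℕ) < g → (ω' i).2 ≠ 0) ∧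
        (ω' (Fin.last g : Fin (g + 1))).2 = 0 := by
      have : ∀ i : Fin (g + 1), ω i = ω' i := fun i => hω i i.2
      simp only [this]
    have e2 : seg (act n) x (fun i => (ω i).1) 0 g = seg (act n) x (fun i => (ω' i).1) 0 g :=
      seg_congr (act n) x _ _ 0 g fun i hi => by rw [hω i (by omega)]
    rw [e2, propext e1]

/-- the loop erasure of the killed walk ends at `none` -/
theorem kill_shape (n b : ℕ) (x : V n) (ω : ℕ → DD × Fin (b + 1))
    (h : ∃ t, pos (kact n b) (some x) ω t = none) : ∃ l : List (V n),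
    lerw (kact n b) (some x) ω {none} = l.map some ++ [none] := by
  obtain ⟨g, hg⟩ := Kill1.exists_KK x ω h
  exact ⟨_, Kill1.klerw x ω g hg⟩

namespace Kill1

variable {n b : ℕ}

/-- The killed walk from `w` first hits `B` at time `j`, at `y`. -/
def EE (n b : ℕ) (B : Set (V n)) (y w : V n) (j : ℕ) : Set (ℕ → DD × Fin (b + 1)) :=
  {ω | (∀ i : Fin j, (ω i).2 ≠ 0) ∧ pos (act n) w (fun i => (ω i).1) j = y ∧
    ∀ i, i < j → pos (act n) w (fun i => (ω i).1) i ∉ B}

theorem EE_tau {B : Set (V n)} {y w : V n} (hy : y ∈ B) {j : ℕ}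
    {ω : ℕ → DD × Fin (b + 1)} (h : ω ∈ EE n b B y w j) :
    tau (kact n b) (some w) ω ({none} ∪ (some '' B)) = j ∧
      pos (kact n b) (some w) ω j = some y := by
  obtain ⟨h1, h2, h3⟩ := h
  have hp : ∀ i, i ≤ j → pos (kact n b) (some w) ω i =
      some (pos (act n) w (fun i => (ω i).1) i) := fun i hi =>
    kpos w ω i fun k hk => h1 ⟨k, by omega⟩
  have hj : pos (kact n b) (some w) ω j = some y := by rw [hp j le_rfl, h2]
  have hin : pos (kact n b) (some w) ω j ∈ ({none} ∪ (some '' B) : Set (Option (V n))) := by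
    rw [hj]
    exact Or.inr ⟨y, hy, rfl⟩
  obtain ⟨h4, h5⟩ := tau_spec (kact n b) (some w) ω _ ⟨j, hin⟩
  refine ⟨?_, hj⟩
  rcases lt_trichotomy (tau (kact n b) (some w) ω ({none} ∪ (some '' B))) j with h6 | h6 | h6
  · exfalso
    rw [hp _ h6.le] at h4
    rcases h4 with h4 | ⟨z, hz, h4⟩
    · exact absurd h4 (by simp)
    · rw [Option.some.injEq] at h4
      exact h3 _ h6 (h4 ▸ hz)
  · exact h6
  · exact absurd hin (h5 j h6)

theorem measurableSet_EE (B : Set (V n)) (y w : V n) (j : ℕ) :
    MeasurableSet (EE n b B y w j) := by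
  have h : Measurable (fun ω : ℕ → DD × Fin (b + 1) => ω ∈ EE n b B y w j) := by
    refine measurable_dep j _ fun ω ω' hω => ?_
    refine propext ?_
    unfold EE
    have e1 : ∀ i : Fin j, ω i = ω' i := fun i => hω i i.2
    have e2 : ∀ t, t ≤ j → pos (act n) w (fun i => (ω i).1) t =
        pos (act n) w (fun i => (ω' i).1) t := fun t ht =>
      pos_congr (act n) w _ _ t fun i hi => by rw [hω i (by omega)]
    simp only [Set.mem_setOf_eq, e1, e2 j le_rfl]
    constructor
    · rintro ⟨h1, h2, h3⟩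
      exact ⟨h1, h2, fun i hi => by rw [← e2 i hi.le]; exact h3 i hi⟩
    · rintro ⟨h1, h2, h3⟩
      exact ⟨h1, h2, fun i hi => by rw [e2 i hi.le]; exact h3 i hi⟩
  exact measurableSet_setOf.mpr h

theorem real_EE [NeZero n] (B : Set (V n)) (y w : V n) (j : ℕ) :
    (mu (DD × Fin (b + 1))).real (EE n b B y w j) = ((b : ℝ) / (b + 1)) ^ j *
      pr {ω | pos (act n) w ω j = y ∧ ∀ i, i < j → pos (act n) w ω i ∉ B} := by
  classical
  have hms : MeasurableSet {ω : ℕ → DD | pos (act n) w ω j = y ∧
      ∀ i, i < j → pos (act n) w ω i ∉ B} := by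
    have h : Measurable (fun ω : ℕ → DD => pos (act n) w ω j = y ∧
        ∀ i, i < j → pos (act n) w ω i ∉ B) := by
      refine measurable_dep j _ fun ω ω' hω => ?_
      refine propext ?_
      have e2 : ∀ t, t ≤ j → pos (act n) w ω t = pos (act n) w ω' t := fun t ht =>
        pos_congr (act n) w _ _ t fun i hi => hω i (by omega)
      rw [e2 j le_rfl]
      constructor
      · rintro ⟨h2, h3⟩
        exact ⟨h2, fun i hi => by rw [← e2 i hi.le]; exact h3 i hi⟩
      · rintro ⟨h2, h3⟩
        exact ⟨h2, fun i hi => by rw [e2 i hi.le]; exact h3 i hi⟩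
    exact measurableSet_setOf.mpr h
  have h2 := prod_lint b j (fun a => ∀ i, a i ≠ 0)
    (fun ω => indE (pos (act n) w ω j = y ∧ ∀ i, i < j → pos (act n) w ω i ∉ B))
    (fun ω ω' hω => by
      have e2 : ∀ t, t ≤ j → pos (act n) w ω t = pos (act n) w ω' t := fun t ht =>
        pos_congr (act n) w _ _ t fun i hi => hω i (by omega)
      refine congrArg indE (propext ?_)
      rw [e2 j le_rfl]
      constructor
      · rintro ⟨h2, h3⟩
        exact ⟨h2, fun i hi => by rw [← e2 i hi.le]; exact h3 i hi⟩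
      · rintro ⟨h2, h3⟩
        exact ⟨h2, fun i hi => by rw [e2 i hi.le]; exact h3 i hi⟩)
  have e1 : ∫⁻ ω, indE (∀ i : Fin j, (ω i).2 ≠ 0) *
      indE (pos (act n) w (fun i => (ω i).1) j = y ∧
        ∀ i, i < j → pos (act n) w (fun i => (ω i).1) i ∉ B)
        ∂(mu (DD × Fin (b + 1))) = (mu (DD × Fin (b + 1))) (EE n b B y w j) := by
    refine Eq.trans ?_ (lint_indE _ (fun ω => ω ∈ EE n b B y w j) (measurableSet_EE B y w j))
    refine lintegral_congr fun ω => ?_
    by_cases h : ω ∈ EE n b B y w j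
    · rw [indE_true (P := ω ∈ EE n b B y w j) h, indE_true h.1, indE_true h.2, one_mul]
    · rw [indE_false (P := ω ∈ EE n b B y w j) h]
      by_cases h1 : ∀ i : Fin j, (ω i).2 ≠ 0
      · rw [indE_false fun h2 => h ⟨h1, h2⟩, mul_zero]
      · rw [indE_false h1, zero_mul]
  have e2 : ∫⁻ ω, indE (pos (act n) w ω j = y ∧ ∀ i, i < j → pos (act n) w ω i ∉ B) ∂(mu DD) =
      (mu DD) {ω | pos (act n) w ω j = y ∧ ∀ i, i < j → pos (act n) w ω i ∉ B} :=
    lint_indE _ _ hms
  rw [card_alive] at h2
  unfold Measure.real pr Measure.real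
  rw [← e1, ← e2]
  refine (congrArg ENNReal.toReal h2).trans ?_
  rw [ENNReal.toReal_mul, ENNReal.toReal_div]
  congr 1
  push_cast
  rw [ENNReal.toReal_pow, ENNReal.toReal_pow, div_pow]
  congr 2

/-- time reversal -/
theorem rev [NeZero n] (B : Set (V n)) (y : V n) (j : ℕ) :
    ∑ w : V n, pr {ω | pos (act n) w ω j = y ∧ ∀ i, i < j → pos (act n) w ω i ∉ B} =
      pr {ω | ¬ hit (act n) y ω 1 j B} := by
  classical
  have hseg : ∀ (w : V n) (ω : ℕ → DD), seg (act n) w ω 0 j =
      (List.range' 0 j).map (pos (act n) w ω) ++ [pos (act n) w ω j] := by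
    intro w ω
    unfold seg
    rw [Nat.sub_zero, List.range'_concat, List.map_append]
    simp
  have hseg' : ∀ (w : V n) (ω : ℕ → DD), seg (act n) w ω 0 j = w :: seg (act n) w ω 1 j := by
    intro w ω
    rw [seg_append (act n) w ω 0 0 j (Nat.zero_le _) (Nat.zero_le _)]
    unfold seg
    simp [pos]
  have h1 := reversal n j (fun l => ind (l.getLast? = some y ∧ ∀ z ∈ l.dropLast, z ∉ B))
  have e1 : ∀ w : V n, ∫ ω, ind ((seg (act n) w ω 0 j).getLast? = some y ∧
      ∀ z ∈ (seg (act n) w ω 0 j).dropLast, z ∉ B) ∂(mu DD) =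
      pr {ω | pos (act n) w ω j = y ∧ ∀ i, i < j → pos (act n) w ω i ∉ B} := by
    intro w
    have h2 : ∀ ω : ℕ → DD, ((seg (act n) w ω 0 j).getLast? = some y ∧
      ∀ z ∈ (seg (act n) w ω 0 j).dropLast, z ∉ B) ↔
      (pos (act n) w ω j = y ∧ ∀ i, i < j → pos (act n) w ω i ∉ B) := by
      intro ω
      rw [hseg w ω, List.getLast?_concat, List.dropLast_concat, Option.some.injEq]
      refine and_congr_right fun _ => ?_
      constructor
      · intro h i hi
        refine h _ (List.mem_map.mpr ⟨i, ?_, rfl⟩)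
        rw [List.mem_range'_1]
        omega
      · intro h z hz
        obtain ⟨i, hi, rfl⟩ := List.mem_map.mp hz
        rw [List.mem_range'_1] at hi
        exact h i (by omega)
    have h3 : ∀ ω : ℕ → DD, ind ((seg (act n) w ω 0 j).getLast? = some y ∧
      ∀ z ∈ (seg (act n) w ω 0 j).dropLast, z ∉ B) =
      ind (pos (act n) w ω j = y ∧ ∀ i, i < j → pos (act n) w ω i ∉ B) := by
      intro ω
      rw [propext (h2 ω)]
    simp only [h3]
    refine integral_ind _ _ ?_
    have h : Measurable (fun ω : ℕ → DD => pos (act n) w ω j = y ∧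
        ∀ i, i < j → pos (act n) w ω i ∉ B) := by
      refine measurable_dep j _ fun ω ω' hω => ?_
      refine propext ?_
      have e2 : ∀ t, t ≤ j → pos (act n) w ω t = pos (act n) w ω' t := fun t ht =>
        pos_congr (act n) w _ _ t fun i hi => hω i (by omega)
      rw [e2 j le_rfl]
      constructor
      · rintro ⟨h2, h3⟩
        exact ⟨h2, fun i hi => by rw [← e2 i hi.le]; exact h3 i hi⟩
      · rintro ⟨h2, h3⟩
        exact ⟨h2, fun i hi => by rw [e2 i hi.le]; exact h3 i hi⟩
    exact measurableSet_setOf.mpr h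
  have e2 : ∀ w : V n, ∫ ω, ind ((seg (act n) w ω 0 j).reverse.getLast? = some y ∧
      ∀ z ∈ (seg (act n) w ω 0 j).reverse.dropLast, z ∉ B) ∂(mu DD) =
      if w = y then pr {ω | ¬ hit (act n) w ω 1 j B} else 0 := by
    intro w
    have h2 : ∀ ω : ℕ → DD, ((seg (act n) w ω 0 j).reverse.getLast? = some y ∧
      ∀ z ∈ (seg (act n) w ω 0 j).reverse.dropLast, z ∉ B) ↔
      (w = y ∧ ¬ hit (act n) w ω 1 j B) := by
      intro ω
      rw [hseg' w ω, List.reverse_cons, List.getLast?_concat, List.dropLast_concat,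
        Option.some.injEq, hit_iff]
      refine and_congr_right fun _ => ?_
      push Not
      simp only [List.mem_reverse]
    have h3 : ∀ ω : ℕ → DD, ind ((seg (act n) w ω 0 j).reverse.getLast? = some y ∧
      ∀ z ∈ (seg (act n) w ω 0 j).reverse.dropLast, z ∉ B) =
      ind (w = y ∧ ¬ hit (act n) w ω 1 j B) := by
      intro ω
      rw [propext (h2 ω)]
    simp only [h3]
    by_cases hw : w = y
    · rw [if_pos hw]
      simp only [hw, true_and]
      refine integral_ind _ _ ?_
      have h : Measurable (fun ω : ℕ → DD => ¬ hit (act n) y ω 1 j B) := by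
        refine measurable_dep j _ fun ω ω' hω => ?_
        rw [hit_iff, hit_iff, seg_congr (act n) y ω ω' 1 j hω]
      exact measurableSet_setOf.mpr h
    · rw [if_neg hw]
      simp [hw, ind_false]
  simp only [e1, e2] at h1
  rw [h1, Finset.sum_ite_eq']
  simp

end Kill1

/-- first hit of `B` at `y` before the killing, summed over the starting points -/
theorem kill_hit (n b : ℕ) [NeZero n] (B : Set (V n)) (y : V n) (hy : y ∈ B) :
    ∑ j ∈ Finset.range (b + 1), ((b : ℝ) / (b + 1)) ^ j * pr {ω | ¬ hit (act n) y ω 1 j B} ≤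
      ∑ w : V n, (mu (DD × Fin (b + 1))).real {ω | pos (kact n b) (some w) ω
        (tau (kact n b) (some w) ω ({none} ∪ (some '' B))) = some y} := by
  have h1 : ∀ w : V n, ∑ j ∈ Finset.range (b + 1), (mu (DD × Fin (b + 1))).real
      (Kill1.EE n b B y w j) ≤ (mu (DD × Fin (b + 1))).real {ω | pos (kact n b) (some w) ω
        (tau (kact n b) (some w) ω ({none} ∪ (some '' B))) = some y} := by
    intro w
    rw [← measureReal_biUnion_finset]
    · refine measureReal_mono ?_
      intro ω hω
      simp only [Set.mem_iUnion] at hω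
      obtain ⟨j, _, hj⟩ := hω
      obtain ⟨h1, h2⟩ := Kill1.EE_tau hy hj
      show pos (kact n b) (some w) ω (tau (kact n b) (some w) ω ({none} ∪ (some '' B))) = some y
      rw [h1, h2]
    · intro i _ j _ hij
      refine Set.disjoint_left.mpr fun ω hi hj => hij ?_
      rw [← (Kill1.EE_tau hy hi).1, ← (Kill1.EE_tau hy hj).1]
    · intro j _
      exact Kill1.measurableSet_EE B y w j
  refine le_trans (le_of_eq ?_) (Finset.sum_le_sum fun w _ => h1 w)
  rw [Finset.sum_comm]
  refine Finset.sum_congr rfl fun j _ => ?_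
  simp only [Kill1.real_EE]
  rw [← Finset.mul_sum, Kill1.rev]

end Pool.Agent.UST
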