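import Pool.Agent.Helper54.UST.Kill1
import Pool.Agent.Helper54.UST.PmBasic

/-! Paper Lemma E: the main inequality, by telescoping along the killed loop-erased walk. -/

namespace Pool.Agent.UST

open MeasureTheory

/-! ### one stationary walk which hits `z` but not `B` -/

private theorem k2_hit_meas (n : ℕ) [NeZero n] (x : V n) (s t : ℕ) (B : Set (V n)) :
    MeasurableSet {ω : ℕ → DD | hit (act n) x ω s t B} := by
  have h : Measurable (fun ω : ℕ → DD => hit (act n) x ω s t B) := by
    refine measurable_dep t _ fun ω ω' hω => ?_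
    refine propext ?_
    rw [hit_iff, hit_iff, seg_congr (act n) x ω ω' s t hω]
  exact measurableSet_setOfPred.mpr h

private theorem k2_pr_int (n : ℕ) [NeZero n] (x : V n) (s t : ℕ) (B : Set (V n)) :
    pr {ω : ℕ → DD | ¬ hit (act n) x ω s t B} =
      ∫ ω, ind (¬ hit (act n) x ω s t B) ∂(mu DD) :=
  (integral_ind (mu DD) _ (k2_hit_meas n x s t B).compl).symm

private theorem k2_sum_ind (n : ℕ) [NeZero n] (z : V n) : ∑ y : V n, ind (z = y) = 1 := by
  classical
  have h : ∀ y : V n, ind (z = y) = if z = y then (1 : ℝ) else 0 := by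
    intro y
    by_cases hy : z = y
    · rw [ind_true hy, if_pos hy]
    · rw [ind_false hy, if_neg hy]
  simp only [h]
  simp

/-- the walk is at `z` at time `j` and misses `C` before: summed over the starting points -/
private theorem k2_past (n : ℕ) [NeZero n] (j : ℕ) (C : Set (V n)) (z : V n) :
    ∑ y : V n, ∫ ω, ind (pos (act n) y ω j = z) *
        ind (∀ i, i < j → pos (act n) y ω i ∉ C) ∂(mu DD) =
      pr {ω | ¬ hit (act n) z ω 1 j C} := by
  have h1 : ∀ y : V n, ∫ ω, ind (pos (act n) y ω j = z) *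
      ind (∀ i, i < j → pos (act n) y ω i ∉ C) ∂(mu DD) =
      ∫ ω, ind (pos (act n) z ω j = y) * ind (¬ hit (act n) z ω 1 j C) ∂(mu DD) := by
    intro y
    have h := reversal_pt n j (fun l => ind (∀ v ∈ l.dropLast, v ∉ C)) y z
    have e1 : ∀ ω : ℕ → DD, ind (∀ v ∈ (seg (act n) y ω 0 j).dropLast, v ∉ C) =
        ind (∀ i, i < j → pos (act n) y ω i ∉ C) := by
      intro ω
      congr 1
      refine propext ?_
      have hs : (seg (act n) y ω 0 j).dropLast = (List.range j).map (pos (act n) y ω) := by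
        unfold seg
        rw [← List.map_dropLast, show j + 1 - 0 = j + 1 from rfl, ← List.range_eq_range',
          List.range_succ, List.dropLast_concat]
      rw [hs]
      simp [List.mem_map, List.mem_range]
    have e2 : ∀ ω : ℕ → DD, ind (∀ v ∈ (seg (act n) z ω 0 j).reverse.dropLast, v ∉ C) =
        ind (¬ hit (act n) z ω 1 j C) := by
      intro ω
      congr 1
      refine propext ?_
      rw [List.dropLast_reverse, hit_iff]
      have hs : (seg (act n) z ω 0 j).tail = seg (act n) z ω 1 j := by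
        unfold seg
        rw [show j + 1 - 0 = j + 1 from rfl, List.range'_succ, List.map_cons, List.tail_cons,
          show j + 1 - 1 = j from rfl]
      rw [hs]
      simp
    simp only [e1, e2] at h
    exact h
  rw [Finset.sum_congr rfl fun y _ => h1 y, ← integral_finsetSum]
  · rw [k2_pr_int]
    refine integral_congr_ae (Filter.Eventually.of_forall fun ω => ?_)
    simp only
    rw [← Finset.sum_mul, k2_sum_ind, one_mul]
  · intro y _
    refine bt_integrable (t := j) _ fun ω ω' h => ?_
    rw [pos_congr (act n) z ω ω' j h, hit_iff, hit_iff, seg_congr (act n) z ω ω' 1 j h]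

/-- the walk is at `z` at time `j` and misses `C` before and after -/
private theorem k2_both (n : ℕ) [NeZero n] (j m : ℕ) (C : Set (V n)) (z : V n) :
    ∑ y : V n, ∫ ω, (ind (pos (act n) y ω j = z) * ind (∀ i, i < j → pos (act n) y ω i ∉ C)) *
        ind (¬ hit (act n) (pos (act n) y ω j) (sh j ω) 1 m C) ∂(mu DD) =
      pr {ω | ¬ hit (act n) z ω 1 j C} * pr {ω | ¬ hit (act n) z ω 1 m C} := by
  rw [← k2_past, Finset.sum_mul]
  refine Finset.sum_congr rfl fun y _ => ?_
  rw [bt_markov n j y
    (fun ω => ind (pos (act n) y ω j = z) * ind (∀ i, i < j → pos (act n) y ω i ∉ C))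
    (fun ω ω' h => by
      rw [pos_congr (act n) y ω ω' j h]
      congr 2
      refine propext (forall_congr' fun i => imp_congr_right fun hi => ?_)
      rw [pos_congr (act n) y ω ω' i fun k hk => h k (hk.trans hi)])
    (fun x η => ind (¬ hit (act n) x η 1 m C))
    (fun x => measurable_dep m _ fun ω ω' h => by
      rw [hit_iff, hit_iff, seg_congr (act n) x ω ω' 1 m h]) 1
    (fun x η => by
      rw [abs_of_nonneg (ind_nonneg _)]
      exact ind_le_one _)]
  rw [← integral_mul_const]
  refine integral_congr_ae (Filter.Eventually.of_forall fun ω => ?_)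
  simp only
  by_cases h : pos (act n) y ω j = z
  · rw [h, k2_pr_int]
  · rw [ind_false h]
    simp

private theorem k2_pr_mono {s t : Set (ℕ → DD)} (h : s ⊆ t) : pr s ≤ pr t := by
  unfold pr
  exact measureReal_mono h

private theorem k2_pr_nonneg (s : Set (ℕ → DD)) : 0 ≤ pr s := by
  unfold pr
  exact measureReal_nonneg

/-- one stationary walk of length `b` hits `z` but not `B` -/
theorem hit_only (n b : ℕ) [NeZero n] (B : Set (V n)) (z : V n) (hz : z ∉ B) :
    ((b : ℝ) + 1) / NN n * (pr {ω | ¬ hit (act n) z ω 1 b (insert z B)}) ^ 2 ≤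
      pm n b (insert z B) - pm n b B := by
  classical
  set C : Set (V n) := insert z B with hC
  set e : ℝ := pr {ω | ¬ hit (act n) z ω 1 b C} with he
  have hN : (0 : ℝ) < NN n := by
    unfold NN
    have : (0 : ℝ) < n := by exact_mod_cast Nat.pos_of_ne_zero (NeZero.ne n)
    positivity
  -- the pointwise inequality
  have hpt : ∀ (y : V n) (ω : ℕ → DD),
      (∑ j ∈ Finset.range (b + 1), (ind (pos (act n) y ω j = z) *
        ind (∀ i, i < j → pos (act n) y ω i ∉ C)) *
        ind (¬ hit (act n) (pos (act n) y ω j) (sh j ω) 1 (b - j) C)) +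
        ind (hit (act n) y ω 0 b B) ≤ ind (hit (act n) y ω 0 b C) := by
    intro y ω
    by_cases hex : ∃ j ∈ Finset.range (b + 1), pos (act n) y ω j = z ∧
        (∀ i, i < j → pos (act n) y ω i ∉ C) ∧
        ¬ hit (act n) (pos (act n) y ω j) (sh j ω) 1 (b - j) C
    · obtain ⟨j, hj, h1, h2, h3⟩ := hex
      have hjb : j ≤ b := by
        have := Finset.mem_range.mp hj
        omega
      have hone : ∀ k ∈ Finset.range (b + 1), k ≠ j → (ind (pos (act n) y ω k = z) *
          ind (∀ i, i < k → pos (act n) y ω i ∉ C)) *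
          ind (¬ hit (act n) (pos (act n) y ω k) (sh k ω) 1 (b - k) C) = 0 := by
        intro k hk hkj
        have hkb : k ≤ b := by
          have := Finset.mem_range.mp hk
          omega
        rcases lt_or_gt_of_ne hkj with hlt | hgt
        · rw [ind_false (P := pos (act n) y ω k = z), zero_mul, zero_mul]
          intro hk1
          exact h2 k hlt (by rw [hk1]; exact Set.mem_insert z B)
        · rw [ind_false (P := ∀ i, i < k → pos (act n) y ω i ∉ C), mul_zero, zero_mul]
          intro hk1
          exact hk1 j hgt (by rw [h1]; exact Set.mem_insert z B)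
      rw [Finset.sum_eq_single_of_mem j hj hone, ind_true h1, ind_true h2, ind_true h3]
      have hB : ¬ hit (act n) y ω 0 b B := by
        rintro ⟨i, _, hi2, hi3⟩
        have hi3' : pos (act n) y ω i ∈ C := Set.mem_insert_of_mem z hi3
        rcases lt_trichotomy i j with hlt | heq | hgt
        · exact h2 i hlt hi3'
        · subst heq
          exact hz (h1 ▸ hi3)
        · apply h3
          refine ⟨i - j, by omega, by omega, ?_⟩
          rw [← pos_add]
          rwa [show j + (i - j) = i by omega]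
      have hCh : hit (act n) y ω 0 b C :=
        ⟨j, Nat.zero_le _, hjb, by rw [h1]; exact Set.mem_insert z B⟩
      rw [ind_false hB, ind_true hCh]
      norm_num
    · have hzero : ∀ k ∈ Finset.range (b + 1), (ind (pos (act n) y ω k = z) *
          ind (∀ i, i < k → pos (act n) y ω i ∉ C)) *
          ind (¬ hit (act n) (pos (act n) y ω k) (sh k ω) 1 (b - k) C) = 0 := by
        intro k hk
        by_cases g1 : pos (act n) y ω k = z
        · by_cases g2 : ∀ i, i < k → pos (act n) y ω i ∉ C
          · by_cases g3 : ¬ hit (act n) (pos (act n) y ω k) (sh k ω) 1 (b - k) C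
            · exact absurd ⟨k, hk, g1, g2, g3⟩ hex
            · rw [ind_false g3, mul_zero]
          · rw [ind_false g2, mul_zero, zero_mul]
        · rw [ind_false g1, zero_mul, zero_mul]
      rw [Finset.sum_eq_zero hzero, zero_add]
      refine ind_mono ?_
      rintro ⟨i, hi1, hi2, hi3⟩
      exact ⟨i, hi1, hi2, Set.mem_insert_of_mem z hi3⟩
  -- integrability
  have hint1 : ∀ (y : V n) (j : ℕ), j ∈ Finset.range (b + 1) →
      Integrable (fun ω : ℕ → DD => (ind (pos (act n) y ω j = z) *
        ind (∀ i, i < j → pos (act n) y ω i ∉ C)) *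
        ind (¬ hit (act n) (pos (act n) y ω j) (sh j ω) 1 (b - j) C)) (mu DD) := by
    intro y j hj
    have hjb : j ≤ b := by
      have := Finset.mem_range.mp hj
      omega
    refine bt_integrable (t := b) _ fun ω ω' h => ?_
    have g1 : pos (act n) y ω j = pos (act n) y ω' j :=
      pos_congr (act n) y ω ω' j fun k hk => h k (by omega)
    have g2 : (∀ i, i < j → pos (act n) y ω i ∉ C) = (∀ i, i < j → pos (act n) y ω' i ∉ C) := by
      refine propext (forall_congr' fun i => imp_congr_right fun hi => ?_)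
      rw [pos_congr (act n) y ω ω' i fun k hk => h k (by omega)]
    have g3 : hit (act n) (pos (act n) y ω' j) (sh j ω) 1 (b - j) C =
        hit (act n) (pos (act n) y ω' j) (sh j ω') 1 (b - j) C := by
      refine propext ?_
      rw [hit_iff, hit_iff, seg_congr (act n) _ (sh j ω) (sh j ω') 1 (b - j) fun i hi =>
        h (j + i) (by omega)]
    rw [g1, g2, g3]
  have hint2 : ∀ (y : V n) (B' : Set (V n)),
      Integrable (fun ω : ℕ → DD => ind (hit (act n) y ω 0 b B')) (mu DD) := by
    intro y B'
    refine bt_integrable (t := b) _ fun ω ω' h => ?_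
    rw [hit_iff, hit_iff, seg_congr (act n) y ω ω' 0 b h]
  have hpm : ∀ B' : Set (V n), pm n b B' =
      av (fun y : V n => ∫ ω, ind (hit (act n) y ω 0 b B') ∂(mu DD)) := by
    intro B'
    unfold pm
    refine congrArg av (funext fun y => ?_)
    exact (integral_ind (mu DD) _ (k2_hit_meas n y 0 b B')).symm
  have hstep : ∀ y : V n, (∑ j ∈ Finset.range (b + 1), ∫ ω, (ind (pos (act n) y ω j = z) *
        ind (∀ i, i < j → pos (act n) y ω i ∉ C)) *
        ind (¬ hit (act n) (pos (act n) y ω j) (sh j ω) 1 (b - j) C) ∂(mu DD)) +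
        ∫ ω, ind (hit (act n) y ω 0 b B) ∂(mu DD) ≤
      ∫ ω, ind (hit (act n) y ω 0 b C) ∂(mu DD) := by
    intro y
    rw [← integral_finsetSum _ (hint1 y), ← integral_add (integrable_finsetSum _ (hint1 y))
      (hint2 y B)]
    exact integral_mono ((integrable_finsetSum _ (hint1 y)).add (hint2 y B)) (hint2 y C)
      (fun ω => hpt y ω)
  have hav := av_mono hstep
  rw [av_add, ← hpm, ← hpm, av_sum] at hav
  have hsum : ∀ j ∈ Finset.range (b + 1), e ^ 2 / NN n ≤
      av (fun y : V n => ∫ ω, (ind (pos (act n) y ω j = z) *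
        ind (∀ i, i < j → pos (act n) y ω i ∉ C)) *
        ind (¬ hit (act n) (pos (act n) y ω j) (sh j ω) 1 (b - j) C) ∂(mu DD)) := by
    intro j hj
    have hjb : j ≤ b := by
      have := Finset.mem_range.mp hj
      omega
    unfold av
    rw [k2_both n j (b - j) C z]
    have hcard : ((Fintype.card (V n) : ℕ) : ℝ) = NN n := by
      unfold NN
      simp [ZMod.card]
    rw [hcard]
    refine div_le_div_of_nonneg_right ?_ hN.le
    rw [sq]
    refine mul_le_mul ?_ ?_ (k2_pr_nonneg _) (k2_pr_nonneg _)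
    · refine k2_pr_mono fun ω hω hh => hω ?_
      obtain ⟨i, h1, h2, h3⟩ := hh
      exact ⟨i, h1, h2.trans hjb, h3⟩
    · refine k2_pr_mono fun ω hω hh => hω ?_
      obtain ⟨i, h1, h2, h3⟩ := hh
      exact ⟨i, h1, h2.trans (Nat.sub_le b j), h3⟩
  have htot := Finset.sum_le_sum hsum
  rw [Finset.sum_const, Finset.card_range, nsmul_eq_mul] at htot
  have hfin : ((b : ℝ) + 1) / NN n * e ^ 2 = ((b + 1 : ℕ) : ℝ) * (e ^ 2 / NN n) := by
    push_cast
    ring
  rw [hfin]
  linarith

/-! ### telescoping along the killed loop-erased walk -/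

private noncomputable def k2p (n b : ℕ) [NeZero n] (L : List (Option (V n))) : ℝ :=
  pm n b (st (L.filterMap id))

private noncomputable def k2f (n b J : ℕ) [NeZero n] (L : List (Option (V n))) : ENNReal :=
  ENNReal.ofReal ((1 - k2p n b L.tail) ^ J - (1 - k2p n b L) ^ J)

private theorem k2p_nonneg (n b : ℕ) [NeZero n] (L : List (Option (V n))) : 0 ≤ 1 - k2p n b L := by
  have := pm_le_one n b (st (L.filterMap id))
  unfold k2p
  linarith

private theorem k2p_le_one (n b : ℕ) [NeZero n] (L : List (Option (V n))) : 1 - k2p n b L ≤ 1 := by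
  have := pm_nonneg n b (st (L.filterMap id))
  unfold k2p
  linarith

private theorem k2p_cons (n b : ℕ) [NeZero n] (o : Option (V n)) (L : List (Option (V n))) :
    1 - k2p n b (o :: L) ≤ 1 - k2p n b L := by
  have : k2p n b L ≤ k2p n b (o :: L) := by
    unfold k2p
    refine pm_mono n le_rfl ?_
    intro v hv
    have hv' : v ∈ L.filterMap id := hv
    show v ∈ (o :: L).filterMap id
    rw [List.mem_filterMap] at hv' ⊢
    obtain ⟨a, ha, hav⟩ := hv'
    exact ⟨a, List.mem_cons_of_mem _ ha, hav⟩
  linarith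

private theorem k2_tele (n b J : ℕ) [NeZero n] (L : List (Option (V n))) :
    ∑ i ∈ Finset.range L.length, k2f n b J (L.drop i) ≤
      ENNReal.ofReal (1 - (1 - k2p n b L) ^ J) := by
  induction L with
  | nil => simp
  | cons o L ih =>
    rw [List.length_cons, Finset.sum_range_succ']
    have h1 : ∀ i, (o :: L).drop (i + 1) = L.drop i := fun i => List.drop_succ_cons
    simp only [h1, List.drop_zero]
    have h2 : k2f n b J (o :: L) =
        ENNReal.ofReal ((1 - k2p n b L) ^ J - (1 - k2p n b (o :: L)) ^ J) := rfl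
    rw [h2]
    refine (add_le_add ih le_rfl).trans ?_
    rw [← ENNReal.ofReal_add]
    · exact ENNReal.ofReal_le_ofReal (by linarith)
    · have := pow_le_one₀ (n := J) (k2p_nonneg n b L) (k2p_le_one n b L)
      linarith
    · have := pow_le_pow_left₀ (k2p_nonneg n b (o :: L)) (k2p_cons n b o L) J
      linarith

private theorem k2_pow (a c : ℝ) (hc : 0 ≤ c) (hac : c ≤ a) (J : ℕ) :
    (J : ℝ) * c ^ (J - 1) * (a - c) ≤ a ^ J - c ^ J := by
  rw [← geom_sum₂_mul a c J]
  refine mul_le_mul_of_nonneg_right ?_ (by linarith)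
  have h : ∀ i ∈ Finset.range J, c ^ (J - 1) ≤ a ^ i * c ^ (J - 1 - i) := by
    intro i hi
    have hi' : i < J := Finset.mem_range.mp hi
    calc c ^ (J - 1) = c ^ i * c ^ (J - 1 - i) := by
          rw [← pow_add]
          congr 1
          omega
      _ ≤ a ^ i * c ^ (J - 1 - i) := by gcongr
  have := Finset.sum_le_sum h
  rw [Finset.sum_const, Finset.card_range, nsmul_eq_mul] at this
  exact this

/-- the quantity of Lemma E at `x` -/
private noncomputable def k2q (n b J : ℕ) [NeZero n] (x : V n) (l : List (V n)) : ℝ :=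
  (J : ℝ) * ((b : ℝ) + 1) / NN n * (((b : ℝ) / 3) *
    (pr {η | ¬ hit (act n) x η 1 b (st l)}) ^ 3 * (1 - pm n b (st l)) ^ (J - 1))

private theorem k2_NN (n : ℕ) [NeZero n] : (0 : ℝ) < NN n := by
  unfold NN
  have : (0 : ℝ) < n := by exact_mod_cast Nat.pos_of_ne_zero (NeZero.ne n)
  positivity

private theorem k2q_nonneg (n b J : ℕ) [NeZero n] (x : V n) (l : List (V n)) :
    0 ≤ k2q n b J x l := by
  unfold k2q
  have h1 := k2_NN n
  have h2 := k2_pr_nonneg {η | ¬ hit (act n) x η 1 b (st l)}
  have h3 : 0 ≤ 1 - pm n b (st l) := by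
    have := pm_le_one n b (st l)
    linarith
  positivity

private theorem k2_filter {n : ℕ} (l : List (V n)) :
    (l.map some ++ [none]).filterMap id = l := by
  rw [List.filterMap_append, List.filterMap_map]
  simp

/-- lower bound of the functional at a point of the loop-erased walk -/
private theorem k2_psi (n b J : ℕ) [NeZero n] (l1 : List (V n)) (y : V n)
    (hn : (y :: l1).Nodup) :
    ENNReal.ofReal ((J : ℝ) * (((b : ℝ) + 1) / NN n *
      (pr {η | ¬ hit (act n) y η 1 b (st (y :: l1))}) ^ 2) *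
        (1 - pm n b (st (y :: l1))) ^ (J - 1)) ≤
      k2f n b J ((y :: l1).map some ++ [none]) := by
  unfold k2f
  refine ENNReal.ofReal_le_ofReal ?_
  have h1 : k2p n b ((y :: l1).map some ++ [none]) = pm n b (st (y :: l1)) := by
    unfold k2p
    rw [k2_filter]
  have h2 : k2p n b ((y :: l1).map some ++ [none]).tail = pm n b (st l1) := by
    unfold k2p
    rw [List.map_cons, List.cons_append, List.tail_cons, k2_filter]
  rw [h1, h2]
  have hy : y ∉ st l1 := (List.nodup_cons.mp hn).1
  have hins : st (y :: l1) = insert y (st l1) := by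
    ext v
    show v ∈ y :: l1 ↔ v = y ∨ v ∈ l1
    exact List.mem_cons
  have h3 := hit_only n b (st l1) y hy
  rw [← hins] at h3
  have h4 : 0 ≤ 1 - pm n b (st (y :: l1)) := by
    have := pm_le_one n b (st (y :: l1))
    linarith
  have h5 : pm n b (st l1) ≤ pm n b (st (y :: l1)) := by
    refine pm_mono n le_rfl ?_
    rw [hins]
    exact Set.subset_insert _ _
  refine le_trans ?_ (k2_pow (1 - pm n b (st l1)) (1 - pm n b (st (y :: l1))) h4 (by linarith) J)
  have h6 : 0 ≤ (1 - pm n b (st (y :: l1))) ^ (J - 1) := pow_nonneg h4 _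
  have h7 : ((b : ℝ) + 1) / NN n * (pr {η | ¬ hit (act n) y η 1 b (st (y :: l1))}) ^ 2 ≤
      (1 - pm n b (st l1)) - (1 - pm n b (st (y :: l1))) := by linarith
  have h8 : 0 ≤ (J : ℝ) * (1 - pm n b (st (y :: l1))) ^ (J - 1) := by positivity
  have := mul_le_mul_of_nonneg_left h7 h8
  nlinarith [this]

/-- `(b/(b+1))^j ≥ 1/3` for `j ≤ b` -/
private theorem k2_third (b j : ℕ) (hb : 1 ≤ b) (hj : j ≤ b) :
    (1 : ℝ) / 3 ≤ ((b : ℝ) / (b + 1)) ^ j := by
  have hb' : (0 : ℝ) < b := by exact_mod_cast hb
  have h1 : ((b : ℝ) / (b + 1)) ^ b ≤ ((b : ℝ) / (b + 1)) ^ j := by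
    refine pow_le_pow_of_le_one (by positivity) ?_ hj
    rw [div_le_one (by positivity)]
    linarith
  refine le_trans ?_ h1
  have h2 : ((b : ℝ) / (b + 1)) ^ b = ((1 + 1 / (b : ℝ)) ^ b)⁻¹ := by
    rw [← inv_pow]
    congr 1
    field_simp
  rw [h2, one_div]
  have h3 : (1 + 1 / (b : ℝ)) ^ b ≤ 3 := by
    have h4 : (1 + 1 / (b : ℝ)) ^ b ≤ Real.exp 1 := by
      have h5 : 1 + 1 / (b : ℝ) ≤ Real.exp (1 / b) := by
        have := Real.add_one_le_exp (1 / (b : ℝ))
        linarith
      calc (1 + 1 / (b : ℝ)) ^ b ≤ (Real.exp (1 / b)) ^ b := by gcongr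
        _ = Real.exp 1 := by
            rw [← Real.exp_nat_mul]
            congr 1
            field_simp
    have := Real.exp_one_lt_d9
    linarith
  exact inv_anti₀ (by positivity) h3

/-- the first hit of `B` at `y` before the killing has mass at least `b e / 3` -/
private theorem k2_hit_lower (n b : ℕ) [NeZero n] (hb : 1 ≤ b) (B : Set (V n)) (y : V n)
    (hy : y ∈ B) :
    ENNReal.ofReal (((b : ℝ) / 3) * pr {η | ¬ hit (act n) y η 1 b B}) ≤
      ∑ w : V n, (mu (DD × Fin (b + 1))) {ω | pos (kact n b) (some w) ω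
        (tau (kact n b) (some w) ω ({none} ∪ (some '' B))) = some y} := by
  have h1 := kill_hit n b B y hy
  have h2 : ((b : ℝ) / 3) * pr {η | ¬ hit (act n) y η 1 b B} ≤
      ∑ j ∈ Finset.range (b + 1), ((b : ℝ) / (b + 1)) ^ j *
        pr {ω | ¬ hit (act n) y ω 1 j B} := by
    have h3 : ∀ j ∈ Finset.range (b + 1), (1 / 3) * pr {η | ¬ hit (act n) y η 1 b B} ≤
        ((b : ℝ) / (b + 1)) ^ j * pr {ω | ¬ hit (act n) y ω 1 j B} := by
      intro j hj
      have hjb : j ≤ b := by
        have := Finset.mem_range.mp hj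
        omega
      refine mul_le_mul (k2_third b j hb hjb) ?_ (k2_pr_nonneg _) (by positivity)
      refine k2_pr_mono fun ω hω hh => hω ?_
      obtain ⟨i, g1, g2, g3⟩ := hh
      exact ⟨i, g1, g2.trans hjb, g3⟩
    have h4 := Finset.sum_le_sum h3
    rw [Finset.sum_const, Finset.card_range, nsmul_eq_mul] at h4
    refine le_trans ?_ h4
    push_cast
    have := k2_pr_nonneg {η | ¬ hit (act n) y η 1 b B}
    nlinarith
  have h5 := ENNReal.ofReal_le_ofReal (h2.trans h1)
  refine h5.trans ?_
  rw [ENNReal.ofReal_sum_of_nonneg fun _ _ => measureReal_nonneg]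
  refine Finset.sum_le_sum fun w _ => ?_
  exact ENNReal.ofReal_toReal_le

/-- translation invariance of the quantity -/
private theorem k2q_translate (n b J : ℕ) [NeZero n] (y : V n) (l : List (V n)) :
    k2q n b J (0 + y) (l.map (fun z => z + y)) = k2q n b J 0 l := by
  have hst : st (l.map (fun z => z + y)) = (fun z => z + y) '' st l := by
    ext v
    show v ∈ l.map (fun z => z + y) ↔ v ∈ (fun z => z + y) '' {z | z ∈ l}
    rw [List.mem_map, Set.mem_image]
    rfl
  unfold k2q
  rw [hst, pm_translate]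
  congr 5
  ext ω
  simp only [Set.mem_ofPred_eq]
  unfold hit
  simp only [pos_translate, Set.mem_image, add_left_inj, exists_eq_right]

private theorem k2_le_translate (n : ℕ) (y : V n) (ω : ℕ → DD) (g : ℕ) :
    le (seg (act n) (0 + y) ω 0 g) = (le (seg (act n) 0 ω 0 g)).map (fun z => z + y) := by
  have hinj : Function.Injective (fun z : V n => z + y) := add_left_injective y
  have hseg : seg (act n) (0 + y) ω 0 g = (seg (act n) 0 ω 0 g).map (fun z => z + y) := by
    unfold seg
    rw [List.map_map]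
    refine List.map_congr_left fun i _ => ?_
    exact pos_translate n 0 y ω i
  rw [hseg]
  exact bt_leF_map _ hinj _ []

/-- one term of the one-point identity -/
private noncomputable def k2h (n b J : ℕ) [NeZero n] (w y : V n) (L : List (Option (V n))) :
    ENNReal :=
  k2f n b J L * (mu (DD × Fin (b + 1))) {ω | pos (kact n b) (some w) ω
    (tau (kact n b) (some w) ω ({none} ∪ st L)) = some y}

private theorem k2_inner (n b J : ℕ) [NeZero n] (w : V n) (y : Option (V n))
    (L : List (Option (V n))) :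
    ∫⁻ ω', (@ite ENNReal (pos (kact n b) (some w) ω'
        (tau (kact n b) (some w) ω' ({none} ∪ st L)) = y) (Classical.propDecidable _)
          (k2f n b J L) 0) ∂(mu (DD × Fin (b + 1))) =
      k2f n b J L * (mu (DD × Fin (b + 1))) {ω | pos (kact n b) (some w) ω
        (tau (kact n b) (some w) ω ({none} ∪ st L)) = y} := by
  classical
  have hm : MeasurableSet {ω : ℕ → DD × Fin (b + 1) | pos (kact n b) (some w) ω
      (tau (kact n b) (some w) ω ({none} ∪ st L)) = y} := by
    have h1 := measurable_lerw (kact n b) ({none} ∪ st L) (some w)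
      (fun l => (l.getLast? = some y : Prop)) (D := DD × Fin (b + 1))
    have h2 : {ω : ℕ → DD × Fin (b + 1) | pos (kact n b) (some w) ω
        (tau (kact n b) (some w) ω ({none} ∪ st L)) = y} =
        {ω | (lerw (kact n b) (some w) ω ({none} ∪ st L)).getLast? = some y} := by
      ext ω
      simp only [Set.mem_ofPred_eq]
      rw [lerw_getLast (kact n b) ({none} ∪ st L) (some w) ω]
      exact Option.some_inj.symm
    rw [h2]
    exact measurableSet_setOfPred.mpr h1
  have h3 : ∀ ω' : ℕ → DD × Fin (b + 1), (@ite ENNReal (pos (kact n b) (some w) ω'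
      (tau (kact n b) (some w) ω' ({none} ∪ st L)) = y) (Classical.propDecidable _)
        (k2f n b J L) 0) =
      Set.indicator {ω | pos (kact n b) (some w) ω
        (tau (kact n b) (some w) ω ({none} ∪ st L)) = y} (fun _ => k2f n b J L) ω' := by
    intro ω'
    by_cases h : pos (kact n b) (some w) ω'
      (tau (kact n b) (some w) ω' ({none} ∪ st L)) = y
    · rw [if_pos h]
      exact (Set.indicator_of_mem (s := {ω | pos (kact n b) (some w) ω
        (tau (kact n b) (some w) ω ({none} ∪ st L)) = y}) h (fun _ => k2f n b J L)).symm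
    · rw [if_neg h]
      exact (Set.indicator_of_notMem (s := {ω | pos (kact n b) (some w) ω
        (tau (kact n b) (some w) ω ({none} ∪ st L)) = y}) h (fun _ => k2f n b J L)).symm
  rw [lintegral_congr h3, lintegral_indicator_const hm]

private theorem k2_pt (n b J : ℕ) [NeZero n] (hb : 1 ≤ b) (y : V n) :
    ∀ᵐ ω ∂(mu (DD × Fin (b + 1))),
      ENNReal.ofReal (k2q n b J y ((lerw (kact n b) (some y) ω {none}).filterMap id)) ≤
        ∑ w : V n, k2h n b J w y (lerw (kact n b) (some y) ω {none}) := by
  filter_upwards [ae_hit (kact n b) {none} (kact_reach n b) (some y)] with ω hω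
  obtain ⟨l, hl⟩ := kill_shape n b y ω (by
    obtain ⟨t, ht⟩ := hω
    exact ⟨t, ht⟩)
  have hhead := lerw_head (kact n b) {none} (some y) ω
  have hnd := lerw_nodup (kact n b) {none} (some y) ω
  rw [hl] at hhead hnd ⊢
  rw [k2_filter]
  obtain ⟨l1, rfl⟩ : ∃ l1, l = y :: l1 := by
    cases l with
    | nil => simp at hhead
    | cons a l1 =>
      simp only [List.map_cons, List.cons_append, List.head?_cons, Option.some.injEq] at hhead
      exact ⟨l1, by rw [hhead]⟩
  have hnd' : (y :: l1).Nodup := by
    have h1 := (List.nodup_append.mp hnd).1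
    exact List.Nodup.of_map some h1
  have h2 := k2_psi n b J l1 y hnd'
  have hy : y ∈ st (y :: l1) := List.mem_cons_self
  have h3 := k2_hit_lower n b hb (st (y :: l1)) y hy
  have hset : ({none} ∪ st ((y :: l1).map some ++ [none]) : Set (Option (V n))) =
      {none} ∪ (some '' st (y :: l1)) := by
    ext v
    constructor
    · rintro (hv | hv)
      · exact Or.inl hv
      · have hv' : v ∈ (y :: l1).map some ++ [none] := hv
        rw [List.mem_append] at hv'
        rcases hv' with hv' | hv'
        · right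
          rw [List.mem_map] at hv'
          obtain ⟨a, ha, hav⟩ := hv'
          exact ⟨a, ha, hav⟩
        · left
          exact List.mem_singleton.mp hv'
    · rintro (hv | ⟨a, ha, hav⟩)
      · exact Or.inl hv
      · right
        show v ∈ (y :: l1).map some ++ [none]
        rw [List.mem_append]
        left
        rw [List.mem_map]
        exact ⟨a, ha, hav⟩
  unfold k2h
  rw [← Finset.mul_sum, hset]
  refine le_trans ?_ (mul_le_mul' h2 h3)
  have h4 : 0 ≤ 1 - pm n b (st (y :: l1)) := by
    have := pm_le_one n b (st (y :: l1))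
    linarith
  have h5 := k2_pr_nonneg {η | ¬ hit (act n) y η 1 b (st (y :: l1))}
  have h6 := k2_NN n
  rw [← ENNReal.ofReal_mul (by positivity)]
  refine le_of_eq (congrArg ENNReal.ofReal ?_)
  unfold k2q
  ring

private theorem k2_sum (n b J : ℕ) [NeZero n] (hb : 1 ≤ b) :
    ∑ y : V n, ∫⁻ ω, ENNReal.ofReal (k2q n b J y
        ((lerw (kact n b) (some y) ω {none}).filterMap id)) ∂(mu (DD × Fin (b + 1))) ≤
      (Fintype.card (V n) : ENNReal) := by
  classical
  have h1 : ∀ w : V n, ∫⁻ ω, ∑ i ∈ Finset.range (lerw (kact n b) (some w) ω {none}).length,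
      k2f n b J ((lerw (kact n b) (some w) ω {none}).drop i) ∂(mu (DD × Fin (b + 1))) ≤ 1 := by
    intro w
    calc ∫⁻ ω, ∑ i ∈ Finset.range (lerw (kact n b) (some w) ω {none}).length,
        k2f n b J ((lerw (kact n b) (some w) ω {none}).drop i) ∂(mu (DD × Fin (b + 1)))
        ≤ ∫⁻ _, 1 ∂(mu (DD × Fin (b + 1))) := by
          refine lintegral_mono fun ω => (k2_tele n b J _).trans ?_
          rw [← ENNReal.ofReal_one]
          refine ENNReal.ofReal_le_ofReal ?_
          have := pow_nonneg (k2p_nonneg n b (lerw (kact n b) (some w) ω {none})) J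
          linarith
      _ = 1 := by simp
  have h2 : ∀ w : V n, ∑ y : V n, ∫⁻ ω, k2h n b J w y (lerw (kact n b) (some y) ω {none})
      ∂(mu (DD × Fin (b + 1))) ≤ 1 := by
    intro w
    refine le_trans ?_ (h1 w)
    have h3 := onept_int (kact n b) {none} (kact_reach n b) (some w)
      (fun _ l1 => k2f n b J l1)
    rw [h3, Fintype.sum_option]
    refine le_trans (le_of_eq ?_) (le_add_self)
    refine Finset.sum_congr rfl fun y _ => ?_
    refine lintegral_congr fun ω => ?_
    exact (k2_inner n b J w (some y) (lerw (kact n b) (some y) ω {none})).symm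
  calc ∑ y : V n, ∫⁻ ω, ENNReal.ofReal (k2q n b J y
        ((lerw (kact n b) (some y) ω {none}).filterMap id)) ∂(mu (DD × Fin (b + 1)))
      ≤ ∑ y : V n, ∫⁻ ω, ∑ w : V n, k2h n b J w y (lerw (kact n b) (some y) ω {none})
        ∂(mu (DD × Fin (b + 1))) :=
        Finset.sum_le_sum fun y _ => lintegral_mono_ae (k2_pt n b J hb y)
    _ = ∑ y : V n, ∑ w : V n, ∫⁻ ω, k2h n b J w y (lerw (kact n b) (some y) ω {none})
        ∂(mu (DD × Fin (b + 1))) := by
        refine Finset.sum_congr rfl fun y _ => ?_
        rw [lintegral_finsetSum]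
        intro w _
        exact measurable_lerw (kact n b) {none} (some y) (fun L => k2h n b J w y L)
    _ = ∑ w : V n, ∑ y : V n, ∫⁻ ω, k2h n b J w y (lerw (kact n b) (some y) ω {none})
        ∂(mu (DD × Fin (b + 1))) := Finset.sum_comm
    _ ≤ ∑ _w : V n, 1 := Finset.sum_le_sum fun w _ => h2 w
    _ = (Fintype.card (V n) : ENNReal) := by simp

/-- the main inequality of Lemma E, for every number `J` -/
theorem kill_main (n b J : ℕ) [NeZero n] (hb : 1 ≤ b) (hJ : 1 ≤ J) :
    (J : ℝ) * ((b : ℝ) + 1) / NN n * ∑ g ∈ Finset.range (2 * b + 1),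
      ((b : ℝ) / (b + 1)) ^ g * (1 / (b + 1)) * ∫ ω,
        ((b : ℝ) / 3) * (pr {η | ¬ hit (act n) 0 η 1 b (st (le (seg (act n) 0 ω 0 g)))}) ^ 3 *
          (1 - pm n b (st (le (seg (act n) 0 ω 0 g)))) ^ (J - 1) ∂(mu DD) ≤ 1 := by
  classical
  have hs := k2_sum n b J hb
  set X : ENNReal := ∑' g : ℕ, ENNReal.ofReal (((b : ℝ) / (b + 1)) ^ g * (1 / (b + 1))) *
        ∫⁻ ω, ENNReal.ofReal (k2q n b J 0 (le (seg (act n) 0 ω 0 g))) ∂(mu DD) with hX
  have h1 : ∀ y : V n, ∫⁻ ω, ENNReal.ofReal (k2q n b J y
      ((lerw (kact n b) (some y) ω {none}).filterMap id)) ∂(mu (DD × Fin (b + 1))) = X := by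
    intro y
    rw [kill_law n b y (fun l => ENNReal.ofReal (k2q n b J y l)), hX]
    refine tsum_congr fun g => ?_
    congr 1
    refine lintegral_congr fun ω => ?_
    have h2 := k2_le_translate n y ω g
    have h3 := k2q_translate n b J y (le (seg (act n) 0 ω 0 g))
    rw [← h2, zero_add] at h3
    rw [h3]
  simp only [h1] at hs
  rw [Finset.sum_const, Finset.card_univ, nsmul_eq_mul] at hs
  have hcard : (Fintype.card (V n) : ENNReal) ≠ 0 :=
    Nat.cast_ne_zero.mpr Fintype.card_ne_zero
  have hX1 : X ≤ 1 := by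
    have h2 : (Fintype.card (V n) : ENNReal) * X ≤ (Fintype.card (V n) : ENNReal) * 1 := by
      rwa [mul_one]
    exact (ENNReal.mul_le_mul_iff_right hcard (ENNReal.natCast_ne_top _)).mp h2
  -- the finite sum
  have hfin : ∑ g ∈ Finset.range (2 * b + 1),
      ENNReal.ofReal (((b : ℝ) / (b + 1)) ^ g * (1 / (b + 1))) *
        ∫⁻ ω, ENNReal.ofReal (k2q n b J 0 (le (seg (act n) 0 ω 0 g))) ∂(mu DD) ≤ 1 :=
    (ENNReal.sum_le_tsum _).trans hX1
  have hint : ∀ g : ℕ, Integrable (fun ω : ℕ → DD => k2q n b J 0 (le (seg (act n) 0 ω 0 g)))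
      (mu DD) := by
    intro g
    refine bt_integrable (t := g) _ fun ω ω' h => ?_
    rw [seg_congr (act n) 0 ω ω' 0 g h]
  have hconv : ∀ g : ℕ, ENNReal.ofReal (((b : ℝ) / (b + 1)) ^ g * (1 / (b + 1))) *
        ∫⁻ ω, ENNReal.ofReal (k2q n b J 0 (le (seg (act n) 0 ω 0 g))) ∂(mu DD) =
      ENNReal.ofReal (((b : ℝ) / (b + 1)) ^ g * (1 / (b + 1)) *
        ∫ ω, k2q n b J 0 (le (seg (act n) 0 ω 0 g)) ∂(mu DD)) := by
    intro g
    have hg : 0 ≤ ((b : ℝ) / (b + 1)) ^ g * (1 / (b + 1)) := by positivity
    rw [← ofReal_integral_eq_lintegral_ofReal (hint g)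
      (Filter.Eventually.of_forall fun ω => k2q_nonneg n b J 0 _), ← ENNReal.ofReal_mul hg]
  simp only [hconv] at hfin
  rw [← ENNReal.ofReal_sum_of_nonneg, ← ENNReal.ofReal_one] at hfin
  · have hfin' := (ENNReal.ofReal_le_ofReal_iff zero_le_one).mp hfin
    refine le_trans (le_of_eq ?_) hfin'
    rw [Finset.mul_sum]
    refine Finset.sum_congr rfl fun g _ => ?_
    unfold k2q
    rw [integral_const_mul]
    ring
  · intro g _
    have : 0 ≤ ∫ ω, k2q n b J 0 (le (seg (act n) 0 ω 0 g)) ∂(mu DD) :=
      integral_nonneg fun ω => k2q_nonneg n b J 0 _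
    positivity

end Pool.Agent.UST
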