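import Pool.Agent.Helper54.UST.OnePtTime

/-! The triple form of (*), paper proof of Lemma L3. -/

namespace Pool.Agent.UST

open MeasureTheory

section triple
variable {W D : Type} [Finite W] [Fintype D] [Nonempty D] [MeasurableSpace D]
  [MeasurableSingletonClass D] (act : D → W → W)

/-- number of multisets of `k` indices -/
def trN : ℕ → ℕ → ℕ
  | 0, _ => 1
  | k + 1, n => ∑ i ∈ Finset.range n, trN k (i + 1)

lemma trN_one (n : ℕ) : trN 1 n = n := by simp [trN]

lemma trN_two (n : ℕ) : 2 * trN 2 n = n * (n + 1) := by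
  have h : ∀ n, trN 2 n = ∑ i ∈ Finset.range n, (i + 1) := by
    intro n
    change ∑ i ∈ Finset.range n, trN 1 (i + 1) = _
    exact Finset.sum_congr rfl fun i _ => trN_one _
  induction n with
  | zero => simp [h]
  | succ n ih =>
    rw [h, Finset.sum_range_succ, ← h, mul_add, ih]
    ring

lemma trN_three (n : ℕ) : 6 * trN 3 n = n * (n + 1) * (n + 2) := by
  have h : ∀ n, trN 3 n = ∑ i ∈ Finset.range n, trN 2 (i + 1) := fun _ => rfl
  induction n with
  | zero => simp [h]
  | succ n ih =>
    have h2 := trN_two (n + 1)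
    rw [h, Finset.sum_range_succ, ← h, mul_add, ih]
    have h3 : 6 * trN 2 (n + 1) = 3 * (2 * trN 2 (n + 1)) := by ring
    rw [h3, h2]
    ring

lemma trN_cube (n : ℕ) : n ^ 3 ≤ 6 * trN 3 n := by
  rw [trN_three]
  have : n * n * n ≤ n * (n + 1) * (n + 2) := by gcongr <;> omega
  calc n ^ 3 = n * n * n := by ring
    _ ≤ _ := this

open Classical in
/-- the sum over the times -/
noncomputable def trE (w : W) (ω : ℕ → D) : ℕ → ℕ → ENNReal
  | 0, _ => 1
  | k + 1, s => ∑' t, if t ≤ s ∧ (∀ j, j < t → pos act w ω j ∉ le (seg act w ω t s)) then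
      trE w ω k t else 0

omit [Finite W] [Fintype D] [Nonempty D] [MeasurableSpace D] [MeasurableSingletonClass D] in
lemma tr_cond (w : W) (ω ω' : ℕ → D) (t s : ℕ) (h : ∀ i, i < s → ω i = ω' i) :
    (t ≤ s ∧ (∀ j, j < t → pos act w ω j ∉ le (seg act w ω t s))) ↔
      (t ≤ s ∧ (∀ j, j < t → pos act w ω' j ∉ le (seg act w ω' t s))) := by
  refine and_congr_right fun hts => forall_congr' fun j => imp_congr_right fun hj => ?_
  rw [seg_congr act w ω ω' t s h, pos_congr act w ω ω' j fun i hi => h i (by omega)]

omit [Finite W] [Fintype D] [Nonempty D] [MeasurableSpace D] [MeasurableSingletonClass D] in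
lemma trE_dep (w : W) (k : ℕ) : ∀ (s : ℕ) (ω ω' : ℕ → D), (∀ i, i < s → ω i = ω' i) →
    trE act w ω k s = trE act w ω' k s := by
  classical
  induction k with
  | zero => intro s ω ω' _; rfl
  | succ k ih =>
    intro s ω ω' h
    change (∑' t, if t ≤ s ∧ (∀ j, j < t → pos act w ω j ∉ le (seg act w ω t s)) then
      trE act w ω k t else 0) = ∑' t, if t ≤ s ∧ (∀ j, j < t → pos act w ω' j ∉
        le (seg act w ω' t s)) then trE act w ω' k t else 0
    refine tsum_congr fun t => ?_
    have h1 := tr_cond act w ω ω' t s h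
    by_cases h2 : t ≤ s ∧ (∀ j, j < t → pos act w ω j ∉ le (seg act w ω t s))
    · rw [if_pos h2, if_pos (h1.mp h2)]
      exact ih t ω ω' fun i hi => h i (hi.trans_le h2.1)
    · rw [if_neg h2, if_neg fun h3 => h2 (h1.mpr h3)]

/-- value at the last element of a list -/
def trL (h : W → ENNReal) (l : List W) : ENNReal := (l.getLast?).elim 0 h

omit [Finite W] [Fintype D] [Nonempty D] [MeasurableSpace D] [MeasurableSingletonClass D] in
lemma tr_seg_last (w : W) (ω : ℕ → D) (t s : ℕ) (h : t ≤ s) :
    (le (seg act w ω t s)).getLast? = some (pos act w ω s) := by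
  have h1 : seg act w ω t s = (List.range' t (s - t)).map (pos act w ω) ++ [pos act w ω s] := by
    unfold seg
    have h2 : s + 1 - t = (s - t) + 1 := by omega
    rw [h2, List.range'_concat, List.map_append]
    have h3 : t + 1 * (s - t) = s := by omega
    rw [h3]
    rfl
  unfold le
  rw [leF_getLast (by rw [h1]; simp), h1]
  simp

omit [Finite W] [Fintype D] [Nonempty D] [MeasurableSpace D] [MeasurableSingletonClass D] in
lemma tr_L_seg (h : W → ENNReal) (w : W) (ω : ℕ → D) (t s : ℕ) (hts : t ≤ s) :
    trL h (le (seg act w ω t s)) = h (pos act w ω s) := by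
  unfold trL
  rw [tr_seg_last act w ω t s hts]
  rfl

omit [Finite W] [Fintype D] [Nonempty D] [MeasurableSpace D] [MeasurableSingletonClass D] in
lemma tr_reach {A B : Set W} (hA : Reach act A) : Reach act (A ∪ B) := by
  intro x
  obtain ⟨ω, t, h⟩ := hA x
  exact ⟨ω, t, Or.inl h⟩

/-- the moments of the length of the loop erased walk -/
theorem tr_claim (w : W) (k : ℕ) : ∀ (S : Set W), Reach act S → ∀ h : W → ENNReal,
    ∫⁻ ω, (trN k (lerw act w ω S).length : ENNReal) * h (pos act w ω (tau act w ω S)) ∂(mu D)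
      = ∫⁻ ω, trE act w ω k (tau act w ω S) * h (pos act w ω (tau act w ω S)) ∂(mu D) := by
  classical
  let _ : Fintype W := Fintype.ofFinite W
  induction k with
  | zero =>
    intro S _ h
    refine lintegral_congr fun ω => ?_
    simp [trN, trE]
  | succ k ih =>
    intro S hS h
    have e1 : ∫⁻ ω, (trN (k + 1) (lerw act w ω S).length : ENNReal) *
          h (pos act w ω (tau act w ω S)) ∂(mu D)
        = ∫⁻ ω, ∑ i ∈ Finset.range (lerw act w ω S).length,
          (fun a b : List W => (trN k a.length : ENNReal) * trL h b)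
            ((lerw act w ω S).take (i + 1)) ((lerw act w ω S).drop i) ∂(mu D) := by
      refine lintegral_congr fun ω => ?_
      change ((∑ i ∈ Finset.range (lerw act w ω S).length, trN k (i + 1) : ℕ) : ENNReal) *
          h (pos act w ω (tau act w ω S)) = _
      push_cast
      rw [Finset.sum_mul]
      refine Finset.sum_congr rfl fun i hi => ?_
      rw [Finset.mem_range] at hi
      have e2 : ((lerw act w ω S).take (i + 1)).length = i + 1 := by
        rw [List.length_take]; omega
      have e3 : trL h ((lerw act w ω S).drop i) = h (pos act w ω (tau act w ω S)) := by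
        have e4 : ((lerw act w ω S).drop i).getLast? = (lerw act w ω S).getLast? := by
          rw [List.getLast?_drop, if_neg (by omega)]
        unfold trL
        rw [e4]
        unfold lerw
        rw [tr_seg_last act w ω 0 _ (Nat.zero_le _)]
        rfl
      simp only [e2, e3]
    refine (e1.trans (onept_int act S hS w
      (fun a b : List W => (trN k a.length : ENNReal) * trL h b))).trans ?_
    have e5 : ∀ y, ∀ η : ℕ → D, ∫⁻ ω, (if pos act w ω
          (tau act w ω (S ∪ st (lerw act y η S))) = y then
          (fun a b : List W => (trN k a.length : ENNReal) * trL h b)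
            (lerw act w ω (S ∪ st (lerw act y η S))) (lerw act y η S) else 0) ∂(mu D)
        = ∫⁻ ω, (if pos act w ω (tau act w ω (S ∪ st (lerw act y η S))) = y then
          (fun (s : ℕ) (ω : ℕ → D) (l : List W) => trE act w ω k s * trL h l)
            (tau act w ω (S ∪ st (lerw act y η S))) ω (lerw act y η S) else 0) ∂(mu D) := by
      intro y η
      have e6 := ih (S ∪ st (lerw act y η S)) (tr_reach act hS)
        (fun z => if z = y then trL h (lerw act y η S) else 0)
      simp only [mul_ite, mul_zero] at e6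
      exact e6
    simp only [e5]
    rw [onept_gen act S hS w (fun (s : ℕ) (ω : ℕ → D) (l : List W) => trE act w ω k s * trL h l)
      (fun s ω ω' l hh => by simp only [trE_dep act w k s ω ω' hh])]
    rw [← lintegral_tsum fun t => ?_]
    · refine lintegral_congr fun ω => ?_
      change _ = (∑' t, if t ≤ tau act w ω S ∧ (∀ j, j < t → pos act w ω j ∉
        le (seg act w ω t (tau act w ω S))) then trE act w ω k t else 0) *
          h (pos act w ω (tau act w ω S))
      rw [← ENNReal.tsum_mul_right]
      refine tsum_congr fun t => ?_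
      by_cases h2 : t ≤ tau act w ω S ∧ (∀ j, j < t → pos act w ω j ∉
        le (seg act w ω t (tau act w ω S)))
      · rw [if_pos h2, if_pos h2, tr_L_seg act h w ω t _ h2.1]
      · rw [if_neg h2, if_neg h2, zero_mul]
    · refine (measurable_tau act S w (fun s ω => if t ≤ s ∧ (∀ j, j < t → pos act w ω j ∉
        le (seg act w ω t s)) then trE act w ω k t * trL h (le (seg act w ω t s)) else 0)
        fun s ω ω' hh => ?_).aemeasurable
      have h1 := tr_cond act w ω ω' t s hh
      by_cases h2 : t ≤ s ∧ (∀ j, j < t → pos act w ω j ∉ le (seg act w ω t s))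
      · simp only [if_pos h2, if_pos (h1.mp h2)]
        rw [trE_dep act w k t ω ω' fun i hi => hh i (hi.trans_le h2.1),
          seg_congr act w ω ω' t s hh]
      · simp only [if_neg h2, if_neg fun h3 => h2 (h1.mpr h3)]

lemma tr_shift (G : ℕ → ENNReal) (m : ℕ) (h : ∀ n, n < m → G n = 0) :
    ∑' n, G n = ∑' p, G (m + p) := by
  symm
  refine (add_right_injective m).tsum_eq ?_
  intro n hn
  by_contra hc
  apply hn
  refine h n ?_
  by_contra hlt
  exact hc ⟨n - m, by change m + (n - m) = n; omega⟩

omit [Finite W] [Fintype D] [Nonempty D] [MeasurableSpace D] [MeasurableSingletonClass D] in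
open Classical in
lemma tr_three (w : W) (ω : ℕ → D) (τ : ℕ) : trE act w ω 3 τ ≤
    ∑' t : ℕ, ∑' p : ℕ, ∑' q : ℕ, (if t + p + q ≤ τ ∧
        (∀ j, j < t → pos act w ω j ∉ le (seg act w ω t (t + p))) ∧
        (∀ j, t ≤ j → j < t + p → pos act w ω j ∉ le (seg act w ω (t + p) (t + p + q))) ∧
        (∀ j, t + p ≤ j → j < t + p + q →
          pos act w ω j ∉ le (seg act w ω (t + p + q) τ)) then (1 : ENNReal) else 0) := by
  set c : ℕ → ℕ → Prop := fun t s => t ≤ s ∧ (∀ j, j < t → pos act w ω j ∉
    le (seg act w ω t s)) with hc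
  have e1 : trE act w ω 3 τ = ∑' s, ∑' u, ∑' t,
      (if c s τ ∧ c u s ∧ c t u then (1 : ENNReal) else 0) := by
    change (∑' s, if c s τ then (∑' u, if c u s then (∑' t, if c t u then (1 : ENNReal) else 0)
      else 0) else 0) = _
    refine tsum_congr fun s => ?_
    by_cases h1 : c s τ
    · rw [if_pos h1]
      refine tsum_congr fun u => ?_
      by_cases h2 : c u s
      · rw [if_pos h2]
        refine tsum_congr fun t => ?_
        by_cases h3 : c t u
        · rw [if_pos h3, if_pos ⟨h1, h2, h3⟩]
        · rw [if_neg h3, if_neg fun h => h3 h.2.2]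
      · rw [if_neg h2]
        symm
        rw [ENNReal.tsum_eq_zero]
        intro t
        rw [if_neg fun h => h2 h.2.1]
    · rw [if_neg h1]
      symm
      rw [ENNReal.tsum_eq_zero]
      intro u
      rw [ENNReal.tsum_eq_zero]
      intro t
      rw [if_neg fun h => h1 h.1]
  have e2 : ∑' s, ∑' u, ∑' t, (if c s τ ∧ c u s ∧ c t u then (1 : ENNReal) else 0)
      = ∑' t, ∑' u, ∑' s, (if c s τ ∧ c u s ∧ c t u then (1 : ENNReal) else 0) := by
    rw [ENNReal.tsum_comm]
    have e3 : ∀ u, ∑' s, ∑' t, (if c s τ ∧ c u s ∧ c t u then (1 : ENNReal) else 0)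
        = ∑' t, ∑' s, (if c s τ ∧ c u s ∧ c t u then (1 : ENNReal) else 0) := fun u =>
      ENNReal.tsum_comm
    rw [tsum_congr e3, ENNReal.tsum_comm]
  rw [e1, e2]
  refine ENNReal.tsum_le_tsum fun t => ?_
  rw [tr_shift _ t fun u hu => by
    rw [ENNReal.tsum_eq_zero]
    intro s
    rw [if_neg]
    rintro ⟨_, _, h3⟩
    exact absurd h3.1 (not_le.mpr hu)]
  refine ENNReal.tsum_le_tsum fun p => ?_
  rw [tr_shift _ (t + p) fun s hs => by
    rw [if_neg]
    rintro ⟨_, h2, _⟩
    exact absurd h2.1 (not_le.mpr hs)]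
  refine ENNReal.tsum_le_tsum fun q => ?_
  by_cases h : c (t + p + q) τ ∧ c (t + p) (t + p + q) ∧ c t (t + p)
  · rw [if_pos h, if_pos]
    exact ⟨h.1.1, h.2.2.2, fun j _ hj => h.2.1.2 j hj, fun j _ hj => h.1.2 j hj⟩
  · rw [if_neg h]
    exact zero_le

theorem triple (A : Set W) (hA : Reach act A) (w : W) :
    ∫⁻ ω, ((lerw act w ω A).length : ENNReal) ^ 3 ∂(mu D) ≤
      6 * ∑' t : ℕ, ∑' p : ℕ, ∑' q : ℕ, (mu D) {ω | t + p + q ≤ tau act w ω A ∧
        (∀ j, j < t → pos act w ω j ∉ le (seg act w ω t (t + p))) ∧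
        (∀ j, t ≤ j → j < t + p → pos act w ω j ∉ le (seg act w ω (t + p) (t + p + q))) ∧
        (∀ j, t + p ≤ j → j < t + p + q →
          pos act w ω j ∉ le (seg act w ω (t + p + q) (tau act w ω A)))} := by
  classical
  have e1 : ∫⁻ ω, ((lerw act w ω A).length : ENNReal) ^ 3 ∂(mu D)
      ≤ ∫⁻ ω, 6 * (trN 3 (lerw act w ω A).length : ENNReal) ∂(mu D) := by
    refine lintegral_mono fun ω => ?_
    have h1 := trN_cube (lerw act w ω A).length
    have h2 : (((lerw act w ω A).length ^ 3 : ℕ) : ENNReal)
        ≤ ((6 * trN 3 (lerw act w ω A).length : ℕ) : ENNReal) := Nat.cast_le.mpr h1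
    push_cast at h2
    exact h2
  refine e1.trans ?_
  rw [lintegral_const_mul' _ _ (by norm_num)]
  refine mul_le_mul' le_rfl ?_
  have e2 := tr_claim act w 3 A hA (fun _ => 1)
  simp only [mul_one] at e2
  rw [e2]
  refine (lintegral_mono fun ω => tr_three act w ω (tau act w ω A)).trans (le_of_eq ?_)
  -- measurability of the events
  have hm : ∀ t p q : ℕ, Measurable (fun ω : ℕ → D => (if t + p + q ≤ tau act w ω A ∧
        (∀ j, j < t → pos act w ω j ∉ le (seg act w ω t (t + p))) ∧
        (∀ j, t ≤ j → j < t + p → pos act w ω j ∉ le (seg act w ω (t + p) (t + p + q))) ∧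
        (∀ j, t + p ≤ j → j < t + p + q →
          pos act w ω j ∉ le (seg act w ω (t + p + q) (tau act w ω A))) then
            (1 : ENNReal) else 0)) := by
    intro t p q
    refine measurable_tau act A w (fun s ω => if t + p + q ≤ s ∧
        (∀ j, j < t → pos act w ω j ∉ le (seg act w ω t (t + p))) ∧
        (∀ j, t ≤ j → j < t + p → pos act w ω j ∉ le (seg act w ω (t + p) (t + p + q))) ∧
        (∀ j, t + p ≤ j → j < t + p + q →
          pos act w ω j ∉ le (seg act w ω (t + p + q) s)) then
            (1 : ENNReal) else 0) fun s ω ω' hh => ?_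
    by_cases hs : t + p + q ≤ s
    · have g1 : ∀ j, j ≤ s → pos act w ω j = pos act w ω' j := fun j hj =>
        pos_congr act w ω ω' j fun i hi => hh i (hi.trans_le hj)
      have g2 : ∀ a b, b ≤ s → seg act w ω a b = seg act w ω' a b := fun a b hb =>
        seg_congr act w ω ω' a b fun i hi => hh i (hi.trans_le hb)
      have g3 : (t + p + q ≤ s ∧
        (∀ j, j < t → pos act w ω j ∉ le (seg act w ω t (t + p))) ∧
        (∀ j, t ≤ j → j < t + p → pos act w ω j ∉ le (seg act w ω (t + p) (t + p + q))) ∧
        (∀ j, t + p ≤ j → j < t + p + q →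
          pos act w ω j ∉ le (seg act w ω (t + p + q) s))) ↔ (t + p + q ≤ s ∧
        (∀ j, j < t → pos act w ω' j ∉ le (seg act w ω' t (t + p))) ∧
        (∀ j, t ≤ j → j < t + p → pos act w ω' j ∉ le (seg act w ω' (t + p) (t + p + q))) ∧
        (∀ j, t + p ≤ j → j < t + p + q →
          pos act w ω' j ∉ le (seg act w ω' (t + p + q) s))) := by
        rw [g2 t (t + p) (by omega), g2 (t + p) (t + p + q) hs, g2 (t + p + q) s le_rfl]
        refine and_congr_right fun _ => and_congr ?_ (and_congr ?_ ?_)
        · refine forall_congr' fun j => imp_congr_right fun hj => ?_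
          rw [g1 j (by omega)]
        · refine forall_congr' fun j => imp_congr_right fun _ => imp_congr_right fun hj => ?_
          rw [g1 j (by omega)]
        · refine forall_congr' fun j => imp_congr_right fun _ => imp_congr_right fun hj => ?_
          rw [g1 j (by omega)]
      simp only [g3]
    · rw [if_neg fun h => hs h.1, if_neg fun h => hs h.1]
  rw [lintegral_tsum fun t => (Measurable.tsum fun p => Measurable.tsum fun q =>
    hm t p q).aemeasurable]
  refine tsum_congr fun t => ?_
  rw [lintegral_tsum fun p => (Measurable.tsum fun q => hm t p q).aemeasurable]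
  refine tsum_congr fun p => ?_
  rw [lintegral_tsum fun q => (hm t p q).aemeasurable]
  refine tsum_congr fun q => ?_
  have hset : MeasurableSet {ω : ℕ → D | t + p + q ≤ tau act w ω A ∧
        (∀ j, j < t → pos act w ω j ∉ le (seg act w ω t (t + p))) ∧
        (∀ j, t ≤ j → j < t + p → pos act w ω j ∉ le (seg act w ω (t + p) (t + p + q))) ∧
        (∀ j, t + p ≤ j → j < t + p + q →
          pos act w ω j ∉ le (seg act w ω (t + p + q) (tau act w ω A)))} := by
    have h1 := (hm t p q) (measurableSet_singleton (1 : ENNReal))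
    convert h1 using 1
    ext ω
    simp only [Set.mem_preimage, Set.mem_singleton_iff, Set.mem_ofPred_eq]
    constructor
    · intro h; rw [if_pos h]
    · intro h
      by_contra hc
      rw [if_neg hc] at h
      exact zero_ne_one h
  rw [← lintegral_indicator_one hset]
  refine lintegral_congr fun ω => ?_
  rw [Set.indicator_apply]
  rfl

end triple

end Pool.Agent.UST
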