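import Pool.Agent.Helper54.UST.L3a
import Pool.Agent.Helper54.UST.Triple
import Pool.Agent.Helper54.UST.Tau
import Pool.Agent.Helper54.UST.AlocE
import Pool.Agent.Helper54.UST.AlocB
import Pool.Agent.Helper54.UST.Asy

/-! Paper Lemma L3. -/

namespace Pool.Agent.UST

open MeasureTheory

section l3aux

/-- number of the gaps `q` compatible with the value `T` of the hitting time -/
private theorem l3_cnt (m i T : ℕ) :
    ∑' q : ℕ, (if m + q ≤ T ∧ T < m + q + i then (1 : ENNReal) else 0) ≤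
      i * (if m ≤ T then (1 : ENNReal) else 0) := by
  classical
  by_cases hm : m ≤ T
  · rw [if_pos hm, mul_one]
    rw [tsum_eq_sum (s := Finset.Ico (T - m + 1 - i) (T - m + 1))]
    · refine (Finset.sum_le_sum (g := fun _ => (1 : ENNReal)) fun q _ => ?_).trans ?_
      · split_ifs
        · exact le_rfl
        · exact zero_le_one
      · rw [Finset.sum_const, nsmul_eq_mul, mul_one, Nat.card_Ico]
        exact_mod_cast (by omega : T - m + 1 - (T - m + 1 - i) ≤ i)
    · intro q hq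
      rw [if_neg]
      intro h
      apply hq
      rw [Finset.mem_Ico]
      omega
  · rw [if_neg hm, mul_zero]
    refine le_of_eq (ENNReal.tsum_eq_zero.mpr fun q => ?_)
    rw [if_neg]
    omega

/-- sums of products -/
private theorem l3_prod (u v w : ℕ → ENNReal) :
    ∑' t : ℕ, ∑' p : ℕ, ∑' q : ℕ, u t * v p * w q = (∑' t, u t) * (∑' t, v t) * (∑' t, w t) := by
  simp_rw [ENNReal.tsum_mul_left, ENNReal.tsum_mul_right, ENNReal.tsum_mul_left,
    ENNReal.tsum_mul_right]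

private theorem l3_add (f g : ℕ → ℕ → ℕ → ENNReal) :
    ∑' t : ℕ, ∑' p : ℕ, ∑' q : ℕ, (f t p q + g t p q) =
      (∑' t : ℕ, ∑' p : ℕ, ∑' q : ℕ, f t p q) + ∑' t : ℕ, ∑' p : ℕ, ∑' q : ℕ, g t p q := by
  simp_rw [ENNReal.tsum_add]

private theorem l3_mul (c : ENNReal) (f : ℕ → ℕ → ℕ → ENNReal) :
    ∑' t : ℕ, ∑' p : ℕ, ∑' q : ℕ, c * f t p q = c * ∑' t : ℕ, ∑' p : ℕ, ∑' q : ℕ, f t p q := by
  simp_rw [ENNReal.tsum_mul_left]

private theorem l3_meas {n : ℕ} [NeZero n] (A : Set (V n)) (x : V n) :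
    Measurable (fun ω => tau (act n) x ω A) :=
  measurable_tau (act n) A x (fun k _ => k) fun _ _ _ _ => rfl

private theorem l3_gap {n : ℕ} [NeZero n] (A : Set (V n)) (x : V n) (m i : ℕ) :
    ∑' q : ℕ, (mu DD) {ω | m + q ≤ tau (act n) x ω A ∧ tau (act n) x ω A < m + q + i} ≤
      i * (mu DD) {ω | m ≤ tau (act n) x ω A} := by
  classical
  have hms : ∀ s : Set ℕ, MeasurableSet {ω | tau (act n) x ω A ∈ s} := fun s =>
    l3_meas A x (MeasurableSet.of_discrete (s := s))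
  have e1 : ∀ q : ℕ, (mu DD) {ω | m + q ≤ tau (act n) x ω A ∧ tau (act n) x ω A < m + q + i}
      = ∫⁻ ω, (if m + q ≤ tau (act n) x ω A ∧ tau (act n) x ω A < m + q + i
          then (1 : ENNReal) else 0) ∂(mu DD) := by
    intro q
    rw [show {ω | m + q ≤ tau (act n) x ω A ∧ tau (act n) x ω A < m + q + i} =
      {ω | tau (act n) x ω A ∈ {k | m + q ≤ k ∧ k < m + q + i}} from rfl,
      ← lintegral_indicator_one (hms {k | m + q ≤ k ∧ k < m + q + i})]
    refine lintegral_congr fun ω => ?_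
    simp [Set.indicator_apply]
  have e2 : (mu DD) {ω | m ≤ tau (act n) x ω A}
      = ∫⁻ ω, (if m ≤ tau (act n) x ω A then (1 : ENNReal) else 0) ∂(mu DD) := by
    rw [show {ω | m ≤ tau (act n) x ω A} = {ω | tau (act n) x ω A ∈ {k | m ≤ k}} from rfl,
      ← lintegral_indicator_one (hms {k | m ≤ k})]
    refine lintegral_congr fun ω => ?_
    simp [Set.indicator_apply]
  have e3 : ∀ q : ℕ, Measurable (fun ω => (if m + q ≤ tau (act n) x ω A ∧
      tau (act n) x ω A < m + q + i then (1 : ENNReal) else 0)) := fun q =>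
    measurable_tau (act n) A x (fun k _ => if m + q ≤ k ∧ k < m + q + i
      then (1 : ENNReal) else 0) fun _ _ _ _ => rfl
  simp_rw [e1]
  rw [← lintegral_tsum fun q => (e3 q).aemeasurable, e2, ← lintegral_const_mul' _ _ (by simp)]
  exact lintegral_mono fun ω => l3_cnt m i _

end l3aux

/-- real bound of `pr {s ≤ tau}` -/
private theorem l3_surv (n : ℕ) [NeZero n] (A : Set (V n)) (hA : A.Nonempty) (H : ℝ) (hH : 1 ≤ H)
    (h : ∀ x, Et n A x ≤ H) (x : V n) (s : ℕ) :
    pr {ω | s ≤ tau (act n) x ω A} ≤ 4 * (2 : ℝ) ^ (-((s : ℝ) / (3 * H))) := by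
  rcases Nat.eq_zero_or_pos s with rfl | hs
  · have h1 : pr {ω | 0 ≤ tau (act n) x ω A} ≤ 1 := measureReal_le_one
    refine h1.trans ?_
    simp
  · have h1 := survive_pr n A hA H hH h x (s - 1)
    have h2 : {ω | s ≤ tau (act n) x ω A} = {ω | s - 1 < tau (act n) x ω A} := by
      ext ω
      simp only [Set.mem_ofPred_eq]
      omega
    rw [h2]
    refine h1.trans ?_
    have h3 : (2 : ℝ) ^ (-(((s - 1 : ℕ) : ℝ) / (3 * H))) ≤ 2 * (2 : ℝ) ^ (-((s : ℝ) / (3 * H))) := by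
      have h4 : 2 * (2 : ℝ) ^ (-((s : ℝ) / (3 * H))) = (2:ℝ) ^ (1 - ((s : ℝ) / (3 * H))) := by
        rw [sub_eq_add_neg, Real.rpow_add (by norm_num), Real.rpow_one]
      rw [h4]
      refine Real.rpow_le_rpow_of_exponent_le (by norm_num) ?_
      rw [Nat.cast_sub hs, sub_div]
      have h5 : ((1 : ℕ) : ℝ) / (3 * H) ≤ 1 := by
        rw [div_le_one (by linarith)]
        push_cast
        linarith
      linarith
    linarith

/-- the summation, abstract form -/
private theorem l3_sum (Cd : ℝ) (hCd : 0 < Cd) (H : ℝ) (hH : 1 ≤ H)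
    (hS : ∀ j : ℕ, j ≤ 2 →
      Summable (fun t : ℕ => (t : ℝ) ^ j * (2 * (2 : ℝ) ^ (-((t : ℝ) / (3 * H))))) ∧
      ∑' t : ℕ, (t : ℝ) ^ j * (2 * (2 : ℝ) ^ (-((t : ℝ) / (3 * H)))) ≤ Cd * H ^ (j + 1))
    (b i : ℕ) (K1 K2 : ℝ) (hK1 : 0 ≤ K1) (hK2 : 0 ≤ K2) (M : ℕ → ℕ → ℕ → ENNReal)
    (R : ℕ → ℕ → ℕ → ENNReal)
    (hR : ∀ t p : ℕ, ∑' q, R t p q ≤
      i * ENNReal.ofReal (4 * (2 : ℝ) ^ (-(((t + p : ℕ) : ℝ) / (3 * H)))))
    (hbad : ∀ t p q : ℕ, M t p q ≤
      ENNReal.ofReal (4 * (2 : ℝ) ^ (-(((t : ℝ) + p + q) / (3 * H)))))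
    (hM : ∀ t p q : ℕ, b ≤ t → b ≤ p → b ≤ q → M t p q ≤
      ENNReal.ofReal ((K1 + K2 * ((t : ℝ) + p + q)) *
        (2 : ℝ) ^ (-(((t : ℝ) + p + q) / (3 * H)))) + R t p q) :
    ∑' t : ℕ, ∑' p : ℕ, ∑' q : ℕ, M t p q ≤
      ENNReal.ofReal (12 * b * (Cd * H) ^ 2 + K1 * (Cd * H) ^ 3 +
        3 * K2 * (Cd * H ^ 2) * (Cd * H) ^ 2 + 4 * i * (Cd * H) ^ 2) := by
  classical
  have hH0 : 0 < H := by linarith
  set g : ℕ → ℝ := fun t => (2 : ℝ) ^ (-((t : ℝ) / (3 * H))) with hg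
  have hg0 : ∀ t, 0 ≤ g t := fun t => Real.rpow_nonneg (by norm_num) _
  have hg1 : ∀ t, g t ≤ 1 := fun t => by
    rw [hg]
    refine Real.rpow_le_one_of_one_le_of_nonpos (by norm_num) ?_
    rw [neg_nonpos]
    positivity
  have hg3 : ∀ t p q : ℕ, (2 : ℝ) ^ (-(((t : ℝ) + p + q) / (3 * H))) = g t * g p * g q := by
    intro t p q
    rw [hg]
    simp only
    rw [← Real.rpow_add (by norm_num), ← Real.rpow_add (by norm_num)]
    congr 1
    ring
  have hg2 : ∀ t p : ℕ, (2 : ℝ) ^ (-(((t + p : ℕ) : ℝ) / (3 * H))) = g t * g p := by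
    intro t p
    rw [hg]
    simp only
    rw [← Real.rpow_add (by norm_num)]
    congr 1
    push_cast
    ring
  set G : ℕ → ENNReal := fun t => ENNReal.ofReal (g t) with hG
  have hS0 : ∑' t, G t ≤ ENNReal.ofReal (Cd * H) := by
    have h := hS 0 (by norm_num)
    simp only [pow_zero, one_mul, zero_add, pow_one] at h
    have h2 : Summable g := by
      have := h.1.mul_left (1 / 2)
      refine this.congr fun t => ?_
      rw [hg]
      ring
    rw [hG, ← ENNReal.ofReal_tsum_of_nonneg hg0 h2]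
    refine ENNReal.ofReal_le_ofReal (le_trans ?_ h.2)
    refine h2.tsum_le_tsum (fun t => ?_) h.1
    have := hg0 t
    rw [hg] at this ⊢
    simp only at this ⊢
    linarith
  have hS1 : ∑' t : ℕ, (t : ENNReal) * G t ≤ ENNReal.ofReal (Cd * H ^ 2) := by
    have h := hS 1 (by norm_num)
    simp only [pow_one, Nat.reduceAdd] at h
    have h2 : Summable (fun t : ℕ => (t : ℝ) * g t) := by
      have := h.1.mul_left (1 / 2)
      refine this.congr fun t => ?_
      rw [hg]
      ring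
    have e : ∀ t : ℕ, (t : ENNReal) * G t = ENNReal.ofReal ((t : ℝ) * g t) := fun t => by
      rw [ENNReal.ofReal_mul (Nat.cast_nonneg _), ENNReal.ofReal_natCast]
    simp_rw [e]
    rw [← ENNReal.ofReal_tsum_of_nonneg (fun t => mul_nonneg (Nat.cast_nonneg _) (hg0 t)) h2]
    refine ENNReal.ofReal_le_ofReal (le_trans ?_ h.2)
    refine h2.tsum_le_tsum (fun t => ?_) h.1
    have h3 := mul_nonneg (Nat.cast_nonneg (α := ℝ) t) (hg0 t)
    rw [hg] at h3 ⊢
    simp only at h3 ⊢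
    linarith
  set I : ℕ → ENNReal := fun t => if t < b then G t else 0 with hI
  have hSI : ∑' t, I t ≤ ENNReal.ofReal b := by
    rw [tsum_eq_sum (s := Finset.range b)]
    · refine (Finset.sum_le_sum (g := fun _ => (1 : ENNReal)) fun q _ => ?_).trans ?_
      · rw [hI]
        simp only
        split_ifs
        · rw [hG, ← ENNReal.ofReal_one]
          exact ENNReal.ofReal_le_ofReal (hg1 q)
        · exact zero_le_one
      · rw [Finset.sum_const, nsmul_eq_mul, mul_one, Finset.card_range, ENNReal.ofReal_natCast]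
    · intro q hq
      rw [hI]
      simp only
      rw [if_neg]
      simpa using hq
  -- pointwise bound
  have hpt : ∀ t p q : ℕ, M t p q ≤
      4 * (I t * G p * G q + G t * I p * G q + G t * G p * I q) +
      (ENNReal.ofReal K1 * (G t * G p * G q) +
        ENNReal.ofReal K2 * ((t : ENNReal) * G t * G p * G q + G t * ((p : ENNReal) * G p) * G q +
          G t * G p * ((q : ENNReal) * G q))) + R t p q := by
    intro t p q
    by_cases hgood : b ≤ t ∧ b ≤ p ∧ b ≤ q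
    · refine (hM t p q hgood.1 hgood.2.1 hgood.2.2).trans ?_
      rw [hg3]
      refine add_le_add (le_trans (le_of_eq ?_) le_add_self) le_rfl
      rw [add_mul, ENNReal.ofReal_add (mul_nonneg hK1 (mul_nonneg (mul_nonneg (hg0 _) (hg0 _)) (hg0 _)))
        (by have := hg0 t; have := hg0 p; have := hg0 q; positivity)]
      congr 1
      · rw [ENNReal.ofReal_mul hK1, ENNReal.ofReal_mul (mul_nonneg (hg0 _) (hg0 _)),
          ENNReal.ofReal_mul (hg0 _)]
      · rw [mul_assoc, ENNReal.ofReal_mul hK2, ENNReal.ofReal_mul (by positivity),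
          ENNReal.ofReal_mul (mul_nonneg (hg0 _) (hg0 _)), ENNReal.ofReal_mul (hg0 _),
          ENNReal.ofReal_add (by positivity) (by positivity),
          ENNReal.ofReal_add (by positivity) (by positivity), ENNReal.ofReal_natCast,
          ENNReal.ofReal_natCast, ENNReal.ofReal_natCast]
        ring
    · refine (hbad t p q).trans ?_
      rw [hg3, ENNReal.ofReal_mul (by norm_num), ENNReal.ofReal_mul (mul_nonneg (hg0 _) (hg0 _)),
        ENNReal.ofReal_mul (hg0 _)]
      have h4 : ENNReal.ofReal 4 = 4 := by norm_num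
      rw [h4, add_assoc]
      refine le_trans ?_ le_self_add
      refine mul_le_mul' le_rfl ?_
      by_cases h1 : t < b
      · refine le_trans (le_of_eq ?_) (le_trans le_self_add le_self_add)
        rw [hI]
        simp only
        rw [if_pos h1]
      · by_cases h2 : p < b
        · refine le_trans (le_of_eq ?_) (le_trans le_add_self le_self_add)
          rw [hI]
          simp only
          rw [if_pos h2]
        · have h3 : q < b := by
            by_contra h3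
            exact hgood ⟨not_lt.mp h1, not_lt.mp h2, not_lt.mp h3⟩
          refine le_trans (le_of_eq ?_) le_add_self
          rw [hI]
          simp only
          rw [if_pos h3]
  -- sum
  set SG : ENNReal := ∑' t, G t with hSG
  set SI : ENNReal := ∑' t, I t with hSI'
  set S1 : ENNReal := ∑' t : ℕ, (t : ENNReal) * G t with hS1'
  have hRR : ∑' t : ℕ, ∑' p : ℕ, ∑' q : ℕ, R t p q ≤ i * 4 * (SG * SG) := by
    have h1 : ∀ t p : ℕ, ∑' q, R t p q ≤ (i * 4 * G t) * G p := by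
      intro t p
      refine (hR t p).trans (le_of_eq ?_)
      rw [hg2, ENNReal.ofReal_mul (by norm_num), ENNReal.ofReal_mul (hg0 _)]
      have h4 : ENNReal.ofReal 4 = 4 := by norm_num
      rw [h4]
      ring
    refine (ENNReal.tsum_le_tsum fun t => ENNReal.tsum_le_tsum fun p => h1 t p).trans
      (le_of_eq ?_)
    simp_rw [ENNReal.tsum_mul_left]
    rw [ENNReal.tsum_mul_right, ENNReal.tsum_mul_left]
    ring
  have hsum : ∑' t : ℕ, ∑' p : ℕ, ∑' q : ℕ, M t p q ≤
      4 * (SI * SG * SG + SG * SI * SG + SG * SG * SI) +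
      (ENNReal.ofReal K1 * (SG * SG * SG) +
        ENNReal.ofReal K2 * (S1 * SG * SG + SG * S1 * SG + SG * SG * S1)) +
      i * 4 * (SG * SG) := by
    refine (ENNReal.tsum_le_tsum fun t => ENNReal.tsum_le_tsum fun p =>
      ENNReal.tsum_le_tsum fun q => hpt t p q).trans ?_
    rw [l3_add, l3_add, l3_add, l3_mul, l3_mul, l3_mul, l3_add, l3_add, l3_add, l3_add,
      l3_prod, l3_prod, l3_prod, l3_prod, l3_prod, l3_prod, l3_prod]
    exact add_le_add le_rfl hRR
  refine hsum.trans ?_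
  have hb0 : (0 : ℝ) ≤ b := Nat.cast_nonneg _
  have hi0 : (0 : ℝ) ≤ i := Nat.cast_nonneg _
  have hCH : 0 ≤ Cd * H := by positivity
  have hCH2 : 0 ≤ Cd * H ^ 2 := by positivity
  have e1 : ENNReal.ofReal (12 * b * (Cd * H) ^ 2 + K1 * (Cd * H) ^ 3 +
        3 * K2 * (Cd * H ^ 2) * (Cd * H) ^ 2 + 4 * i * (Cd * H) ^ 2) =
      4 * (ENNReal.ofReal b * ENNReal.ofReal (Cd * H) * ENNReal.ofReal (Cd * H) +
        ENNReal.ofReal (Cd * H) * ENNReal.ofReal b * ENNReal.ofReal (Cd * H) +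
        ENNReal.ofReal (Cd * H) * ENNReal.ofReal (Cd * H) * ENNReal.ofReal b) +
      (ENNReal.ofReal K1 * (ENNReal.ofReal (Cd * H) * ENNReal.ofReal (Cd * H) *
          ENNReal.ofReal (Cd * H)) +
        ENNReal.ofReal K2 * (ENNReal.ofReal (Cd * H ^ 2) * ENNReal.ofReal (Cd * H) *
            ENNReal.ofReal (Cd * H) +
          ENNReal.ofReal (Cd * H) * ENNReal.ofReal (Cd * H ^ 2) * ENNReal.ofReal (Cd * H) +
          ENNReal.ofReal (Cd * H) * ENNReal.ofReal (Cd * H) * ENNReal.ofReal (Cd * H ^ 2))) +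
      i * 4 * (ENNReal.ofReal (Cd * H) * ENNReal.ofReal (Cd * H)) := by
    have h4 : (4 : ENNReal) = ENNReal.ofReal 4 := by norm_num
    have h5 : (i : ENNReal) = ENNReal.ofReal i := by rw [ENNReal.ofReal_natCast]
    rw [h4, h5]
    have hz : ∀ a c : ℝ, 0 ≤ a → 0 ≤ c → ENNReal.ofReal a * ENNReal.ofReal c =
      ENNReal.ofReal (a * c) := fun a c ha hc => (ENNReal.ofReal_mul ha).symm
    have hy : ∀ a c : ℝ, 0 ≤ a → 0 ≤ c → ENNReal.ofReal a + ENNReal.ofReal c =
      ENNReal.ofReal (a + c) := fun a c ha hc => (ENNReal.ofReal_add ha hc).symm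
    rw [hz b (Cd * H) (by positivity) (by positivity),
      hz (b * (Cd * H)) (Cd * H) (by positivity) (by positivity),
      hz (Cd * H) b (by positivity) (by positivity),
      hz (Cd * H * b) (Cd * H) (by positivity) (by positivity),
      hz (Cd * H) (Cd * H) (by positivity) (by positivity),
      hz (Cd * H * (Cd * H)) b (by positivity) (by positivity),
      hy _ _ (by positivity) (by positivity), hy _ _ (by positivity) (by positivity),
      hz _ _ (by positivity) (by positivity),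
      hz (Cd * H * (Cd * H)) (Cd * H) (by positivity) (by positivity),
      hz K1 _ (by positivity) (by positivity),
      hz (Cd * H ^ 2) (Cd * H) (by positivity) (by positivity),
      hz (Cd * H ^ 2 * (Cd * H)) (Cd * H) (by positivity) (by positivity),
      hz (Cd * H) (Cd * H ^ 2) (by positivity) (by positivity),
      hz (Cd * H * (Cd * H ^ 2)) (Cd * H) (by positivity) (by positivity),
      hz (Cd * H * (Cd * H)) (Cd * H ^ 2) (by positivity) (by positivity),
      hy _ _ (by positivity) (by positivity), hy _ _ (by positivity) (by positivity),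
      hz K2 _ (by positivity) (by positivity), hy _ _ (by positivity) (by positivity),
      hz i 4 (by positivity) (by positivity), hz (i * 4) _ (by positivity) (by positivity),
      hy _ _ (by positivity) (by positivity), hy _ _ (by positivity) (by positivity)]
    congr 1
    ring
  rw [e1]
  gcongr

/-- elementary bound of the scales -/
private theorem l3_scale : ∃ n0 : ℕ, ∀ n : ℕ, n0 ≤ n → 1 ≤ LL n ∧ 1 ≤ (n : ℝ) ^ 2 ∧
    (bb n : ℝ) * LL n ≤ (n : ℝ) ^ 2 := by
  obtain ⟨n1, h1⟩ := LL_large 1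
  obtain ⟨n2, h2⟩ := bb_bounds
  obtain ⟨n3, h3⟩ := LL_pow_le 1 (1 / 2) 1 (by norm_num)
  refine ⟨max (max n1 n2) (max n3 1), fun n hn => ?_⟩
  have g1 := h1 n (by omega)
  have g2 := (h2 n (by omega)).2.1
  have g3 := h3 n (by omega)
  have hn1 : 1 ≤ n := by omega
  have hn1' : (1 : ℝ) ≤ n := by exact_mod_cast hn1
  refine ⟨g1, by nlinarith, ?_⟩
  have g4 : LL n ≤ (n : ℝ) ^ ((1 : ℝ) / 2) := by simpa using g3
  have g5 : (n : ℝ) ^ 2 = (n : ℝ) ^ ((3 : ℝ) / 2) * (n : ℝ) ^ ((1 : ℝ) / 2) := by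
    rw [← Real.rpow_add (by linarith), ← Real.rpow_natCast]
    norm_num
  rw [g5]
  exact mul_le_mul g2 g4 (by linarith) (by positivity)

theorem l3 : ∃ C : ℝ, 0 < C ∧ ∃ n0 : ℕ, ∀ (n : ℕ) [NeZero n], n0 ≤ n →
    ∀ (A : Set (V n)), A.Nonempty → ∀ H : ℝ, (n : ℝ) ^ 2 ≤ H → H ≤ (n : ℝ) ^ ((9 : ℝ) / 4) →
    (∀ x, Et n A x ≤ H) → ∀ x : V n,
    ∫⁻ ω, ((lerw (act n) x ω A).length : ENNReal) ^ 3 ∂(mu DD) ≤
      ENNReal.ofReal (C * H ^ 3 / LL n) := by
  classical
  obtain ⟨Cl, hCl, n1, h1⟩ := l3a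
  obtain ⟨Ca, hCa, n2, h2⟩ := aloc_le
  obtain ⟨n3, h3⟩ := l3_scale
  obtain ⟨Cd, hCd, hd⟩ := decay_sum
  refine ⟨6 * (56 * Cd ^ 2 + Cl * (Ca ^ 3 + 1) * Cd ^ 3 + 3 * Cl * Cd ^ 3), by positivity,
    max n1 (max n2 n3), ?_⟩
  intro n _ hn A hA H hH1 hH2 hE x
  have g1 := h1 n (by omega) A hA H hH1 hH2 hE x
  have g2 := h2 n (by omega)
  obtain ⟨g3, g4, g5⟩ := h3 n (by omega)
  have hH : 1 ≤ H := g4.trans hH1
  have hH0 : 0 < H := by linarith
  have hL0 : 0 < LL n := by linarith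
  have ha0 := aloc_nonneg n (i0 n)
  have ha3 : aloc n (i0 n) ^ 3 ≤ Ca ^ 3 / LL n := by
    have e : (Ca * LL n ^ (-(1 / 3 : ℝ))) ^ 3 = Ca ^ 3 / LL n := by
      rw [mul_pow, ← Real.rpow_natCast (LL n ^ (-(1 / 3 : ℝ))), ← Real.rpow_mul hL0.le]
      have : (-(1 / 3 : ℝ)) * ((3 : ℕ) : ℝ) = -1 := by norm_num
      rw [this, Real.rpow_neg_one]
      rfl
    rw [← e]
    exact pow_le_pow_left₀ ha0 g2 3
  have ha3' : 0 ≤ aloc n (i0 n) ^ 3 := by positivity
  have hfin : ∀ s : Set (ℕ → DD), (mu DD) s = ENNReal.ofReal (pr s) := fun s => by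
    unfold pr
    rw [ofReal_measureReal]
  have hpr : ∀ s : Set (ℕ → DD), 0 ≤ pr s := fun s => measureReal_nonneg
  have hmain := l3_sum Cd hCd H hH (hd H hH) (4 * bb n) (i0 n)
    (Cl * (aloc n (i0 n) ^ 3 + 1 / LL n)) (Cl / (LL n * H)) (by positivity) (by positivity)
    (fun t p q => (mu DD) {ω | t + p + q ≤ tau (act n) x ω A ∧
        (∀ j, j < t → pos (act n) x ω j ∉ le (seg (act n) x ω t (t + p))) ∧
        (∀ j, t ≤ j → j < t + p → pos (act n) x ω j ∉ le (seg (act n) x ω (t + p) (t + p + q))) ∧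
        (∀ j, t + p ≤ j → j < t + p + q →
          pos (act n) x ω j ∉ le (seg (act n) x ω (t + p + q) (tau (act n) x ω A)))})
    (fun t p q => (mu DD) {ω | t + p + q ≤ tau (act n) x ω A ∧
      tau (act n) x ω A < t + p + q + i0 n})
    (fun t p => by
      refine (l3_gap A x (t + p) (i0 n)).trans ?_
      rw [hfin]
      refine mul_le_mul' le_rfl (ENNReal.ofReal_le_ofReal ?_)
      exact l3_surv n A hA H hH hE x (t + p))
    (fun t p q => by
      rw [hfin]
      refine ENNReal.ofReal_le_ofReal ?_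
      have g := l3_surv n A hA H hH hE x (t + p + q)
      push_cast at g
      refine le_trans ?_ g
      unfold pr
      exact measureReal_mono fun ω hω => hω.1)
    (fun t p q ht hp hq => by
      rw [hfin, hfin, ← ENNReal.ofReal_add (by positivity) (hpr _)]
      refine ENNReal.ofReal_le_ofReal ?_
      refine (g1 t p q ht hp hq).trans (le_of_eq ?_)
      have e : Cl * (aloc n (i0 n) ^ 3 + (1 + ((t : ℝ) + p + q) / H) / LL n) =
          Cl * (aloc n (i0 n) ^ 3 + 1 / LL n) + Cl / (LL n * H) * ((t : ℝ) + p + q) := by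
        field_simp
        ring
      rw [e])
  refine (triple (act n) A (act_reach n A hA) x).trans ?_
  refine (mul_le_mul' le_rfl hmain).trans ?_
  have h6 : (6 : ENNReal) = ENNReal.ofReal 6 := by norm_num
  rw [h6, ← ENNReal.ofReal_mul (by norm_num)]
  refine ENNReal.ofReal_le_ofReal ?_
  have hi : (i0 n : ℝ) ≤ 2 * bb n := by exact_mod_cast (i0_spec n).1.2
  have hb : (bb n : ℝ) ≤ H / LL n := by
    rw [le_div_iff₀ hL0]
    linarith
  have hb0 : (0 : ℝ) ≤ bb n := Nat.cast_nonneg _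
  have t1 : 12 * ((4 * bb n : ℕ) : ℝ) * (Cd * H) ^ 2 + 4 * (i0 n : ℝ) * (Cd * H) ^ 2 ≤
      56 * (H / LL n) * (Cd * H) ^ 2 := by
    push_cast
    rw [← add_mul]
    refine mul_le_mul_of_nonneg_right ?_ (by positivity)
    linarith
  have t2 : Cl * (aloc n (i0 n) ^ 3 + 1 / LL n) * (Cd * H) ^ 3 ≤
      Cl * (Ca ^ 3 / LL n + 1 / LL n) * (Cd * H) ^ 3 := by
    gcongr
  have t3 : 6 * (56 * Cd ^ 2 + Cl * (Ca ^ 3 + 1) * Cd ^ 3 + 3 * Cl * Cd ^ 3) * H ^ 3 / LL n =
      6 * (56 * (H / LL n) * (Cd * H) ^ 2 + Cl * (Ca ^ 3 / LL n + 1 / LL n) * (Cd * H) ^ 3 +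
        3 * (Cl / (LL n * H)) * (Cd * H ^ 2) * (Cd * H) ^ 2) := by
    field_simp
  rw [t3]
  linarith

theorem l3_tail : ∃ C : ℝ, 0 < C ∧ ∃ n0 : ℕ, ∀ (n : ℕ) [NeZero n], n0 ≤ n →
    ∀ (A : Set (V n)), A.Nonempty → ∀ H : ℝ, (n : ℝ) ^ 2 ≤ H → H ≤ (n : ℝ) ^ ((9 : ℝ) / 4) →
    (∀ x, Et n A x ≤ H) → ∀ (x : V n) (ℓ : ℝ), 0 < ℓ →
    pr {ω | ℓ ≤ ((lerw (act n) x ω A).length : ℝ)} ≤ C * H ^ 3 / (LL n * ℓ ^ 3) := by
  classical
  obtain ⟨C, hC, n1, h1⟩ := l3
  obtain ⟨n2, h2⟩ := l3_scale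
  refine ⟨C, hC, max n1 n2, ?_⟩
  intro n _ hn A hA H hH1 hH2 hE x ℓ hℓ
  have g1 := h1 n (by omega) A hA H hH1 hH2 hE x
  obtain ⟨g3, g4, -⟩ := h2 n (by omega)
  have hH0 : 0 < H := by linarith
  have hL0 : 0 < LL n := by linarith
  have hm : Measurable (fun ω => ((lerw (act n) x ω A).length : ENNReal) ^ 3) :=
    measurable_tau (act n) A x (fun k ω => ((le (seg (act n) x ω 0 k)).length : ENNReal) ^ 3)
      fun t ω ω' h => by
        have hs : seg (act n) x ω 0 t = seg (act n) x ω' 0 t := by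
          unfold seg
          refine List.map_congr_left fun j hj => ?_
          refine pos_congr (act n) x ω ω' j fun i hi => h i ?_
          have := List.mem_range'_1.mp hj
          omega
        simp only [hs]
  have h3 := mul_meas_ge_le_lintegral₀ (μ := mu DD) hm.aemeasurable (ENNReal.ofReal (ℓ ^ 3))
  have h4 := h3.trans g1
  have h5 : {ω | ENNReal.ofReal (ℓ ^ 3) ≤ ((lerw (act n) x ω A).length : ENNReal) ^ 3} =
      {ω | ℓ ≤ ((lerw (act n) x ω A).length : ℝ)} := by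
    ext ω
    simp only [Set.mem_ofPred_eq]
    have e : ((lerw (act n) x ω A).length : ENNReal) ^ 3 =
        ENNReal.ofReal (((lerw (act n) x ω A).length : ℝ) ^ 3) := by
      rw [ENNReal.ofReal_pow (Nat.cast_nonneg _), ENNReal.ofReal_natCast]
    rw [e, ENNReal.ofReal_le_ofReal_iff (by positivity)]
    exact pow_le_pow_iff_left₀ hℓ.le (Nat.cast_nonneg _) (by norm_num)
  rw [h5] at h4
  have h6 : (mu DD) {ω | ℓ ≤ ((lerw (act n) x ω A).length : ℝ)} =
      ENNReal.ofReal (pr {ω | ℓ ≤ ((lerw (act n) x ω A).length : ℝ)}) := by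
    unfold pr
    rw [ofReal_measureReal]
  rw [h6, ← ENNReal.ofReal_mul (by positivity),
    ENNReal.ofReal_le_ofReal_iff (by positivity)] at h4
  rw [← div_div, le_div_iff₀ (by positivity)]
  linarith

end Pool.Agent.UST
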