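import Pool.Agent.Helper54.UST.D8
import Pool.Agent.Helper54.UST.AlocB
import Pool.Agent.Helper54.UST.LE2
import Pool.Agent.Helper54.UST.Asy
import Pool.Agent.Helper54.UST.Tau

/-! Paper Lemma L3: bound of one triple of times with large gaps. -/

namespace Pool.Agent.UST

open MeasureTheory

/-! ### sequences of events -/

private theorem l3a_pr_int (E : (ℕ → DD) → Prop) (hE : MeasurableSet {ω | E ω}) :
    ∫ ω, ind (E ω) ∂(mu DD) = pr {ω | E ω} := by
  classical
  have h : (fun ω => ind (E ω)) = Set.indicator {ω | E ω} (1 : (ℕ → DD) → ℝ) := by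
    funext ω
    by_cases h : E ω
    · rw [Set.indicator_of_mem (show ω ∈ {ω | E ω} from h), ind_true h]; rfl
    · rw [Set.indicator_of_notMem (show ω ∉ {ω | E ω} from h), ind_false h]
  rw [h, integral_indicator_one hE]
  rfl

private theorem l3a_nonneg (s : Set (ℕ → DD)) : 0 ≤ pr s := measureReal_nonneg

private theorem l3a_le_one (s : Set (ℕ → DD)) : pr s ≤ 1 := by
  unfold pr
  exact measureReal_le_one

private theorem l3a_mono {s t : Set (ℕ → DD)} (h : s ⊆ t) : pr s ≤ pr t :=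
  measureReal_mono h

private theorem l3a_mono_ae {s t : Set (ℕ → DD)} (h : ∀ᵐ ω ∂(mu DD), ω ∈ s → ω ∈ t) :
    pr s ≤ pr t :=
  ENNReal.toReal_mono (measure_ne_top _ _) (measure_mono_ae h)

private theorem l3a_union (s t : Set (ℕ → DD)) : pr (s ∪ t) ≤ pr s + pr t :=
  measureReal_union_le s t

/-- an event of the future with a bound of its probability for every start -/
private def L3aBd (n : ℕ) (R : V n → (ℕ → DD) → Prop) (γ : ℝ) : Prop :=
  (∀ y, MeasurableSet {η | R y η}) ∧ ∀ y, pr {η | R y η} ≤ γ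

/-- an event of the first `m` choices with a bound of its probability for every start -/
private def L3aFd (n m : ℕ) (P : V n → (ℕ → DD) → Prop) (β : ℝ) : Prop :=
  (∀ y, ∀ ω ω' : ℕ → DD, (∀ i, i < m → ω i = ω' i) → (P y ω → P y ω')) ∧
    ∀ y, pr {η | P y η} ≤ β

private def l3aThen (n m : ℕ) (P R : V n → (ℕ → DD) → Prop) : V n → (ℕ → DD) → Prop :=
  fun y η => P y η ∧ R (pos (act n) y η m) (sh m η)

private theorem l3a_sh_sh (s t : ℕ) (ω : ℕ → DD) : sh t (sh s ω) = sh (s + t) ω := by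
  funext i
  simp only [sh, Nat.add_assoc]

private theorem l3a_then_at {n m r : ℕ} {P R : V n → (ℕ → DD) → Prop} {x : V n} {ω : ℕ → DD}
    (h1 : P (pos (act n) x ω r) (sh r ω)) (h2 : R (pos (act n) x ω (r + m)) (sh (r + m) ω)) :
    l3aThen n m P R (pos (act n) x ω r) (sh r ω) := by
  refine ⟨h1, ?_⟩
  rw [← pos_add, l3a_sh_sh]
  exact h2

private theorem l3a_fd_meas {n m : ℕ} {P : V n → (ℕ → DD) → Prop} {β : ℝ}
    (h : L3aFd n m P β) (y : V n) : MeasurableSet {η | P y η} := by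
  have h2 : Measurable (fun η => P y η) := by
    refine measurable_dep m _ fun ω ω' hω => ?_
    exact propext ⟨h.1 y ω ω' hω, h.1 y ω' ω fun i hi => (hω i hi).symm⟩
  exact measurableSet_setOfPred.2 h2

private theorem l3a_fd_bd {n m : ℕ} {P : V n → (ℕ → DD) → Prop} {β : ℝ}
    (h : L3aFd n m P β) : L3aBd n P β := ⟨l3a_fd_meas h, h.2⟩

private theorem l3a_then {n m : ℕ} [NeZero n] {P R : V n → (ℕ → DD) → Prop} {β γ : ℝ}
    (hP : L3aFd n m P β) (hR : L3aBd n R γ) : L3aBd n (l3aThen n m P R) (β * γ) := by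
  have hmeas : ∀ y, MeasurableSet {η | l3aThen n m P R y η} := by
    intro y
    have h1 : {η | l3aThen n m P R y η} =
        {η | P y η} ∩ ⋃ z : V n, ({η | pos (act n) y η m = z} ∩ (sh m) ⁻¹' {η | R z η}) := by
      ext η
      simp only [Set.mem_ofPred_eq, Set.mem_inter_iff, Set.mem_iUnion, Set.mem_preimage]
      constructor
      · intro h
        exact ⟨h.1, _, rfl, h.2⟩
      · rintro ⟨h2, z, h3, h4⟩
        refine ⟨h2, ?_⟩
        rw [h3]
        exact h4
    rw [h1]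
    refine (l3a_fd_meas hP y).inter (MeasurableSet.iUnion fun z => ?_)
    refine MeasurableSet.inter ?_ (measurable_sh m (hR.1 z))
    have h2 : Measurable (fun η : ℕ → DD => pos (act n) y η m = z) := by
      refine measurable_dep m _ fun ω ω' hω => ?_
      rw [pos_congr (act n) y ω ω' m hω]
    exact measurableSet_setOfPred.2 h2
  refine ⟨hmeas, fun y => ?_⟩
  have h1 := (tauaux_markov (act n) m y (fun ω => ind (P y ω)) (fun z η => ind (R z η))
    (by
      intro ω ω' hω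
      have h2 : P y ω = P y ω' :=
        propext ⟨hP.1 y ω ω' hω, hP.1 y ω' ω fun i hi => (hω i hi).symm⟩
      simp only [h2])
    (fun ω => ind_nonneg _) (fun z => by
      have h3 : (fun η => ind (R z η)) = Set.indicator {η | R z η} (1 : (ℕ → DD) → ℝ) := by
        classical
        funext ω
        by_cases h : R z ω
        · rw [Set.indicator_of_mem (show ω ∈ {ω | R z ω} from h), ind_true h]; rfl
        · rw [Set.indicator_of_notMem (show ω ∉ {ω | R z ω} from h), ind_false h]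
      rw [h3]
      exact measurable_one.indicator (hR.1 z))
    (fun z ω => ind_nonneg _)
    (fun z => by
      have h3 : (fun η => ind (R z η)) = Set.indicator {η | R z η} (1 : (ℕ → DD) → ℝ) := by
        classical
        funext ω
        by_cases h : R z ω
        · rw [Set.indicator_of_mem (show ω ∈ {ω | R z ω} from h), ind_true h]; rfl
        · rw [Set.indicator_of_notMem (show ω ∉ {ω | R z ω} from h), ind_false h]
      rw [h3]
      exact (integrable_const (1 : ℝ)).indicator (hR.1 z))).1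
  have h2 : pr {η | l3aThen n m P R y η} =
      ∫ ω, ind (P y ω) * ind (R (pos (act n) y ω m) (sh m ω)) ∂(mu DD) := by
    rw [← l3a_pr_int _ (hmeas y)]
    congr 1
    funext ω
    rw [← ind_and]
    rfl
  rw [h2, h1]
  have h3 : ∀ ω, ∫ η, ind (R (pos (act n) y ω m) η) ∂(mu DD) =
      pr {η | R (pos (act n) y ω m) η} := fun ω => l3a_pr_int _ (hR.1 _)
  simp_rw [h3]
  have hγ : 0 ≤ γ := (l3a_nonneg _).trans (hR.2 y)
  have h4 : Integrable (fun ω => ind (P y ω)) (mu DD) := by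
    refine tauaux_int m _ ?_
    intro ω ω' hω
    have h2 : P y ω = P y ω' :=
      propext ⟨hP.1 y ω ω' hω, hP.1 y ω' ω fun i hi => (hω i hi).symm⟩
    simp only [h2]
  calc ∫ ω, ind (P y ω) * pr {η | R (pos (act n) y ω m) η} ∂(mu DD)
      ≤ ∫ ω, ind (P y ω) * γ ∂(mu DD) := by
        refine integral_mono_of_nonneg ?_ (h4.mul_const γ) ?_
        · exact Filter.Eventually.of_forall fun ω => mul_nonneg (ind_nonneg _) (l3a_nonneg _)
        · exact Filter.Eventually.of_forall fun ω =>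
            mul_le_mul_of_nonneg_left (hR.2 _) (ind_nonneg _)
    _ = pr {η | P y η} * γ := by
        rw [integral_mul_const, l3a_pr_int _ (l3a_fd_meas hP y)]
    _ ≤ β * γ := mul_le_mul_of_nonneg_right (hP.2 y) hγ

/-! ### the events -/

/-- no hit of `A` before time `m` -/
private def l3aNo (n : ℕ) (A : Set (V n)) (m : ℕ) : V n → (ℕ → DD) → Prop :=
  fun y η => ∀ j, j < m → pos (act n) y η j ∉ A

private def l3aLoc (n : ℕ) : V n → (ℕ → DD) → Prop :=
  fun y η => ∀ j, j < bb n → pos (act n) y η j ∉ le (seg (act n) y η (bb n) (bb n + i0 n))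

private def l3aMee (n : ℕ) : V n → (ℕ → DD) → Prop :=
  fun y η => ∃ i, i < bb n ∧ ∃ j, bb n + i0 n / 2 ≤ j ∧ j ≤ bb n + i0 n ∧
      pos (act n) y η i = pos (act n) y η j

private def l3aHit (n : ℕ) (l : ℕ) : V n → (ℕ → DD) → Prop :=
  fun y η => hit (act n) y η (i0 n) l (st (seg (act n) y η 0 (i0 n / 2)))

private theorem l3a_no_fd {n : ℕ} [NeZero n] {A : Set (V n)} (hA : A.Nonempty) {H : ℝ}
    (hH : 1 ≤ H) (h : ∀ x, Et n A x ≤ H) (m : ℕ) :
    L3aFd n m (l3aNo n A m) (4 * (2 : ℝ) ^ (-((m : ℝ) / (3 * H)))) := by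
  constructor
  · intro y ω ω' hω hP j hj
    have h1 := hP j hj
    rwa [pos_congr (act n) y ω ω' j fun i hi => hω i (hi.trans hj)] at h1
  · intro y
    rcases Nat.eq_zero_or_pos m with rfl | hm
    · refine (l3a_le_one _).trans ?_
      norm_num
    · obtain ⟨k, rfl⟩ : ∃ k, m = k + 1 := ⟨m - 1, by omega⟩
      have h1 : pr {η | l3aNo n A (k + 1) y η} ≤ pr {ω | k < tau (act n) y ω A} := by
        refine l3a_mono_ae ?_
        filter_upwards [ae_hit (act n) A (act_reach n A hA) y] with ω hω hno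
        have h2 := tau_spec (act n) y ω A hω
        by_contra hcon
        have h3 : tau (act n) y ω A < k + 1 := by
          have : ¬ k < tau (act n) y ω A := hcon
          omega
        exact hno _ h3 h2.1
      refine h1.trans ((survive_pr n A hA H hH h y k).trans ?_)
      have h4 : (2 : ℝ) ^ (-((k : ℝ) / (3 * H))) =
          (2 : ℝ) ^ (-(((k + 1 : ℕ) : ℝ) / (3 * H))) * (2 : ℝ) ^ (1 / (3 * H)) := by
        rw [← Real.rpow_add (by norm_num)]
        congr 1
        push_cast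
        ring
      have h5 : (2 : ℝ) ^ (1 / (3 * H)) ≤ 2 := by
        calc (2 : ℝ) ^ (1 / (3 * H)) ≤ (2 : ℝ) ^ (1 : ℝ) := by
              refine Real.rpow_le_rpow_of_exponent_le (by norm_num) ?_
              rw [div_le_one (by positivity)]
              linarith
          _ = 2 := Real.rpow_one 2
      rw [h4]
      have h6 : 0 < (2 : ℝ) ^ (-(((k + 1 : ℕ) : ℝ) / (3 * H))) := by positivity
      nlinarith

private theorem l3a_loc_fd (n : ℕ) [NeZero n] :
    L3aFd n (bb n + i0 n) (l3aLoc n) (aloc n (i0 n)) := by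
  constructor
  · intro y ω ω' hω hP j hj
    have h1 := hP j hj
    rwa [pos_congr (act n) y ω ω' j fun i hi => hω i (by omega),
      seg_congr (act n) y ω ω' _ _ hω] at h1
  · intro y
    exact (aloc_one n (i0 n) y).le

private theorem l3a_mee_fd (n : ℕ) {c : ℝ} (h : ∀ x : V n,
    pr {ω | ∃ i, i < bb n ∧ ∃ j, bb n + i0 n / 2 ≤ j ∧ j ≤ bb n + i0 n ∧
      pos (act n) x ω i = pos (act n) x ω j} ≤ c) : L3aFd n (bb n + i0 n) (l3aMee n) c := by
  constructor
  · rintro y ω ω' hω ⟨i, hi, j, hj1, hj2, hij⟩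
    refine ⟨i, hi, j, hj1, hj2, ?_⟩
    rwa [pos_congr (act n) y ω ω' i fun k hk => hω k (by omega),
      pos_congr (act n) y ω ω' j fun k hk => hω k (by omega)] at hij
  · exact h

private theorem l3a_hit_fd {n : ℕ} [NeZero n] {A : Set (V n)} (hA : A.Nonempty) {l : ℕ}
    (hl : i0 n / 2 ≤ l) {c : ℝ} (h : ∀ x : V n, pr {ω | l ≤ tau (act n) x ω A ∧
      hit (act n) x ω (i0 n) l (st (seg (act n) x ω 0 (i0 n / 2)))} ≤ c) :
    L3aFd n l (fun y η => l3aNo n A l y η ∧ l3aHit n l y η) c := by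
  constructor
  · rintro y ω ω' hω ⟨h1, i, hi1, hi2, hi3⟩
    refine ⟨?_, i, hi1, hi2, ?_⟩
    · intro j hj
      have h2 := h1 j hj
      rwa [pos_congr (act n) y ω ω' j fun k hk => hω k (by omega)] at h2
    · rwa [pos_congr (act n) y ω ω' i fun k hk => hω k (by omega),
        seg_congr (act n) y ω ω' _ _ fun k hk => hω k (by omega)] at hi3
  · intro y
    refine (l3a_mono_ae ?_).trans (h y)
    filter_upwards [ae_hit (act n) A (act_reach n A hA) y] with ω hω hno
    refine ⟨?_, hno.2⟩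
    by_contra hcon
    push Not at hcon
    exact hno.1 _ hcon (tau_spec (act n) y ω A hω).1

/-- paper (8.1) at time `s` -/
private theorem l3a_tri {n : ℕ} {x : V n} {ω : ℕ → DD} {s l : ℕ} (hs : bb n ≤ s)
    (hl : i0 n ≤ l) (h : ∀ j, s - bb n ≤ j → j < s →
      pos (act n) x ω j ∉ le (seg (act n) x ω s (s + l))) :
    l3aLoc n (pos (act n) x ω (s - bb n)) (sh (s - bb n) ω) ∨
      l3aHit n l (pos (act n) x ω s) (sh s ω) ∨
      l3aMee n (pos (act n) x ω (s - bb n)) (sh (s - bb n) ω) := by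
  have e0 : ∀ u v, seg (act n) (pos (act n) x ω s) (sh s ω) u v =
      seg (act n) x ω (s + u) (s + v) := fun u v => (seg_shift (act n) x ω s u v).symm
  have e1 : ∀ u v, seg (act n) (pos (act n) x ω (s - bb n)) (sh (s - bb n) ω) u v =
      seg (act n) x ω (s - bb n + u) (s - bb n + v) :=
    fun u v => (seg_shift (act n) x ω (s - bb n) u v).symm
  have e2 : ∀ u, pos (act n) (pos (act n) x ω (s - bb n)) (sh (s - bb n) ω) u =
      pos (act n) x ω (s - bb n + u) := fun u => (pos_add (act n) x ω (s - bb n) u).symm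
  have h0 := eight_one (act n) (pos (act n) x ω s) (sh s ω) (i0 n) l hl
    {y | ∃ j, s - bb n ≤ j ∧ j < s ∧ y = pos (act n) x ω j} (by
      rintro y ⟨j, hj1, hj2, rfl⟩
      rw [e0]
      exact h j hj1 hj2)
  rcases h0 with h0 | h0 | h0
  · left
    intro j hj
    rw [e1, e2]
    have h2 := h0 _ ⟨s - bb n + j, by omega, by omega, rfl⟩
    rw [e0] at h2
    have h3 : s - bb n + bb n = s + 0 := by omega
    have h4 : s - bb n + (bb n + i0 n) = s + i0 n := by omega
    rw [h3, h4]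
    exact h2
  · right; left
    exact h0
  · right; right
    obtain ⟨y, ⟨j, hj1, hj2, rfl⟩, hy⟩ := h0
    rw [e0, mem_seg] at hy
    obtain ⟨i, hi1, hi2, hi3⟩ := hy
    refine ⟨j - (s - bb n), by omega, i - (s - bb n), by omega, by omega, ?_⟩
    rw [e2, e2]
    have h3 : s - bb n + (j - (s - bb n)) = j := by omega
    have h4 : s - bb n + (i - (s - bb n)) = i := by omega
    rw [h3, h4, hi3]

private theorem l3a_no_at {n : ℕ} {A : Set (V n)} {x : V n} {ω : ℕ → DD} {r m : ℕ}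
    (h : ∀ j, j < r + m → pos (act n) x ω j ∉ A) :
    l3aNo n A m (pos (act n) x ω r) (sh r ω) := by
  intro j hj
  rw [← pos_add]
  exact h _ (by omega)

private theorem l3a_true (n : ℕ) : L3aBd n (fun _ _ => True) 1 := by
  constructor
  · intro y
    simp
  · intro y
    exact l3a_le_one _

private theorem l3a_hitT {n : ℕ} [NeZero n] {A : Set (V n)} {c : ℝ} (h : ∀ x : V n,
    pr {ω | hit (act n) x ω (i0 n) (tau (act n) x ω A) (st (seg (act n) x ω 0 (i0 n / 2)))} ≤ c) :
    L3aBd n (fun y η => hit (act n) y η (i0 n) (tau (act n) y η A)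
      (st (seg (act n) y η 0 (i0 n / 2)))) c := by
  refine ⟨fun y => ?_, h⟩
  have h1 : Measurable (fun η => hit (act n) y η (i0 n) (tau (act n) y η A)
      (st (seg (act n) y η 0 (i0 n / 2)))) := by
    refine measurable_tau (act n) A y (fun l η => hit (act n) y η (i0 n) l
      (st (seg (act n) y η 0 (i0 n / 2)))) ?_
    intro l ω ω' hω
    have key : ∀ ω ω' : ℕ → DD, (∀ i, i < l → ω i = ω' i) →
        hit (act n) y ω (i0 n) l (st (seg (act n) y ω 0 (i0 n / 2))) →
        hit (act n) y ω' (i0 n) l (st (seg (act n) y ω' 0 (i0 n / 2))) := by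
      rintro ω ω' hω ⟨i, hi1, hi2, hi3⟩
      refine ⟨i, hi1, hi2, ?_⟩
      rwa [pos_congr (act n) y ω ω' i fun k hk => hω k (by omega),
        seg_congr (act n) y ω ω' _ _ fun k hk => hω k (by omega)] at hi3
    exact propext ⟨key ω ω' hω, key ω' ω fun i hi => (hω i hi).symm⟩
  exact measurableSet_setOfPred.2 h1

private noncomputable def l3aE (H s : ℝ) : ℝ := (2 : ℝ) ^ (-(s / (3 * H)))

private theorem l3a_E_pos (H s : ℝ) : 0 < l3aE H s := by
  unfold l3aE
  positivity

private theorem l3a_E_add (H s u : ℝ) : l3aE H s * l3aE H u = l3aE H (s + u) := by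
  unfold l3aE
  rw [← Real.rpow_add (by norm_num)]
  congr 1
  ring

private theorem l3a_final {a3 C1 C2 C3 S w E : ℝ} (ha : 0 ≤ a3) (h1 : 0 < C1) (h2 : 0 < C2)
    (h3 : 0 < C3) (hS : 0 ≤ S) (hw : 0 ≤ w) (hE : 0 ≤ E) :
    512 * a3 * E + 16 * (C1 * w) * (1 + S) * E + 128 * (C3 * w) * E +
      4 * (C1 * w) * (1 + S) * E + 128 * (C3 * w) * E + 4 * (C2 * w) * E +
      32 * (C3 * w) * E ≤
      (512 + 20 * C1 + 4 * C2 + 288 * C3) * (a3 + (1 + S) * w) * E := by
  have k1 : 0 ≤ C1 * a3 * E := by positivity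
  have k2 : 0 ≤ C2 * a3 * E := by positivity
  have k3 : 0 ≤ C3 * a3 * E := by positivity
  have k4 : 0 ≤ (1 + S) * w * E := by positivity
  have k5 : 0 ≤ C2 * S * w * E := by positivity
  have k6 : 0 ≤ C3 * S * w * E := by positivity
  have k : (512 + 20 * C1 + 4 * C2 + 288 * C3) * (a3 + (1 + S) * w) * E -
      (512 * a3 * E + 16 * (C1 * w) * (1 + S) * E + 128 * (C3 * w) * E +
      4 * (C1 * w) * (1 + S) * E + 128 * (C3 * w) * E + 4 * (C2 * w) * E +
      32 * (C3 * w) * E) = 20 * (C1 * a3 * E) + 4 * (C2 * a3 * E) + 288 * (C3 * a3 * E) +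
      512 * ((1 + S) * w * E) + 4 * (C2 * S * w * E) + 288 * (C3 * S * w * E) := by ring
  linarith

private theorem l3a_E_le {H b s u : ℝ} (hH : 0 < H) (hb : b ≤ H) (h : u ≤ s + 7 * b) :
    l3aE H s ≤ 8 * l3aE H u := by
  unfold l3aE
  calc (2 : ℝ) ^ (-(s / (3 * H))) ≤ (2 : ℝ) ^ (3 + -(u / (3 * H))) := by
        refine Real.rpow_le_rpow_of_exponent_le (by norm_num) ?_
        have h1 : u / (3 * H) ≤ (s + 9 * H) / (3 * H) := by
          refine div_le_div_of_nonneg_right ?_ (by positivity)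
          linarith
        have h2 : (s + 9 * H) / (3 * H) = s / (3 * H) + 3 := by
          field_simp
          ring
        linarith
    _ = 8 * (2 : ℝ) ^ (-(u / (3 * H))) := by
        rw [Real.rpow_add (by norm_num)]
        norm_num

theorem l3a : ∃ C : ℝ, 0 < C ∧ ∃ n0 : ℕ, ∀ (n : ℕ) [NeZero n], n0 ≤ n →
    ∀ (A : Set (V n)), A.Nonempty → ∀ H : ℝ, (n : ℝ) ^ 2 ≤ H → H ≤ (n : ℝ) ^ ((9 : ℝ) / 4) →
    (∀ x, Et n A x ≤ H) → ∀ (x : V n) (t p q : ℕ), 4 * bb n ≤ t → 4 * bb n ≤ p → 4 * bb n ≤ q →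
    pr {ω | t + p + q ≤ tau (act n) x ω A ∧
        (∀ j, j < t → pos (act n) x ω j ∉ le (seg (act n) x ω t (t + p))) ∧
        (∀ j, t ≤ j → j < t + p → pos (act n) x ω j ∉ le (seg (act n) x ω (t + p) (t + p + q))) ∧
        (∀ j, t + p ≤ j → j < t + p + q →
          pos (act n) x ω j ∉ le (seg (act n) x ω (t + p + q) (tau (act n) x ω A)))} ≤
      C * (aloc n (i0 n) ^ 3 + (1 + ((t : ℝ) + p + q) / H) / LL n) *
        (2 : ℝ) ^ (-(((t : ℝ) + p + q) / (3 * H))) +
      pr {ω | t + p + q ≤ tau (act n) x ω A ∧ tau (act n) x ω A < t + p + q + i0 n} := by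
  obtain ⟨C1, hC1, n1, h1⟩ := d1
  obtain ⟨C2, hC2, n2, h2⟩ := d2
  obtain ⟨C3, hC3, n3, h3⟩ := d3
  obtain ⟨n4, h4⟩ := LL_large 1
  refine ⟨512 + 20 * C1 + 4 * C2 + 288 * C3, by positivity, max (max n1 n2) (max n3 n4), ?_⟩
  intro n _ hn A hA H hH1 hH2 hE x t p q ht hp hq
  have hn1 : n1 ≤ n := le_trans (le_trans (le_max_left _ _) (le_max_left _ _)) hn
  have hn2 : n2 ≤ n := le_trans (le_trans (le_max_right _ _) (le_max_left _ _)) hn
  have hn3 : n3 ≤ n := le_trans (le_trans (le_max_left _ _) (le_max_right _ _)) hn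
  have hn4 : n4 ≤ n := le_trans (le_trans (le_max_right _ _) (le_max_right _ _)) hn
  have hL : 1 ≤ LL n := h4 n hn4
  have hL0 : 0 < LL n := by linarith
  have hnpos : 1 ≤ n := NeZero.one_le
  have hn1R : (1 : ℝ) ≤ n := by exact_mod_cast hnpos
  have hH : 1 ≤ H := le_trans (by nlinarith) hH1
  have hH0 : 0 < H := by linarith
  have hb : (bb n : ℝ) ≤ H := by
    refine le_trans ?_ hH1
    have : bb n ≤ n ^ 2 := by
      unfold bb
      rw [pow_two]
      exact Nat.mul_le_mul_left _ (Nat.sqrt_le_self n)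
    exact_mod_cast this
  have hbpos : 0 < bb n := by
    unfold bb
    exact Nat.mul_pos hnpos (Nat.sqrt_pos.2 hnpos)
  obtain ⟨⟨hi1, hi2⟩, -⟩ := i0_spec n
  have hno := fun m => l3a_no_fd hA hH hE m
  have hloc := l3a_loc_fd n
  have hmee := l3a_mee_fd n (h3 n hn3)
  have hhit : ∀ l, i0 n / 2 ≤ l → L3aFd n l (fun y η => l3aNo n A l y η ∧ l3aHit n l y η)
      (C1 / LL n * (1 + l / H) * (2 : ℝ) ^ (-((l : ℝ) / (3 * H)))) := fun l hl =>
    l3a_hit_fd hA hl fun y => h1 n hn1 A hA H hH1 hH2 hE y l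
  have hT := l3a_hitT (A := A) (h2 n hn2 A hA H hH1 hH2 hE)
  -- the bounds
  set a := aloc n (i0 n) with ha
  have ha0 : 0 ≤ a := aloc_nonneg n (i0 n)
  have B1 := (l3a_then (hno (t - bb n)) (l3a_then hloc (l3a_then (hno (p - bb n - i0 n))
    (l3a_then hloc (l3a_then (hno (q - bb n - i0 n)) (l3a_fd_bd hloc)))))).2 x
  have B2 := (l3a_then (hno t) (l3a_then (hhit p (by omega)) (l3a_fd_bd (hno q)))).2 x
  have B3 := (l3a_then (hno (t - bb n)) (l3a_then hmee (l3a_fd_bd (hno (p + q - i0 n))))).2 x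
  have B4 := (l3a_then (hno (t + p)) (l3a_fd_bd (hhit q (by omega)))).2 x
  have B5 := (l3a_then (hno (t + p - bb n)) (l3a_then hmee (l3a_fd_bd (hno (q - i0 n))))).2 x
  have B6 := (l3a_then (hno (t + p + q)) hT).2 x
  have B7 := (l3a_then (hno (t + p + q - bb n)) (l3a_fd_bd hmee)).2 x
  -- the inclusion
  have hincl : {ω | t + p + q ≤ tau (act n) x ω A ∧
        (∀ j, j < t → pos (act n) x ω j ∉ le (seg (act n) x ω t (t + p))) ∧
        (∀ j, t ≤ j → j < t + p → pos (act n) x ω j ∉ le (seg (act n) x ω (t + p) (t + p + q))) ∧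
        (∀ j, t + p ≤ j → j < t + p + q →
          pos (act n) x ω j ∉ le (seg (act n) x ω (t + p + q) (tau (act n) x ω A)))} ⊆
      {ω | l3aThen n (t - bb n) (l3aNo n A (t - bb n)) (l3aThen n (bb n + i0 n) (l3aLoc n)
        (l3aThen n (p - bb n - i0 n) (l3aNo n A (p - bb n - i0 n)) (l3aThen n (bb n + i0 n)
        (l3aLoc n) (l3aThen n (q - bb n - i0 n) (l3aNo n A (q - bb n - i0 n)) (l3aLoc n))))) x ω} ∪
      ({ω | l3aThen n t (l3aNo n A t) (l3aThen n p (fun y η => l3aNo n A p y η ∧ l3aHit n p y η)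
        (l3aNo n A q)) x ω} ∪
      ({ω | l3aThen n (t - bb n) (l3aNo n A (t - bb n)) (l3aThen n (bb n + i0 n) (l3aMee n)
        (l3aNo n A (p + q - i0 n))) x ω} ∪
      ({ω | l3aThen n (t + p) (l3aNo n A (t + p)) (fun y η => l3aNo n A q y η ∧ l3aHit n q y η)
        x ω} ∪
      ({ω | l3aThen n (t + p - bb n) (l3aNo n A (t + p - bb n)) (l3aThen n (bb n + i0 n) (l3aMee n)
        (l3aNo n A (q - i0 n))) x ω} ∪
      ({ω | l3aThen n (t + p + q) (l3aNo n A (t + p + q)) (fun y η => hit (act n) y η (i0 n)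
        (tau (act n) y η A) (st (seg (act n) y η 0 (i0 n / 2)))) x ω} ∪
      ({ω | l3aThen n (t + p + q - bb n) (l3aNo n A (t + p + q - bb n)) (l3aMee n) x ω} ∪
      {ω | t + p + q ≤ tau (act n) x ω A ∧ tau (act n) x ω A < t + p + q + i0 n})))))) := by
    intro ω hω
    obtain ⟨hτ, g1, g2, g3⟩ := hω
    simp only [Set.mem_union, Set.mem_ofPred_eq]
    by_cases hlong : tau (act n) x ω A < t + p + q + i0 n
    · right; right; right; right; right; right; right
      exact ⟨hτ, hlong⟩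
    push Not at hlong
    have hex : ∃ s, pos (act n) x ω s ∈ A := by
      have h5 : 0 < tau (act n) x ω A := by omega
      exact Nat.nonempty_of_pos_sInf h5
    have hnoA : ∀ j, j < t + p + q → pos (act n) x ω j ∉ A := fun j hj =>
      (tau_spec (act n) x ω A hex).2 j (by omega)
    have T1 := l3a_tri (n := n) (x := x) (ω := ω) (s := t) (l := p) (by omega) (by omega)
      fun j _ hj => g1 j hj
    have T2 := l3a_tri (n := n) (x := x) (ω := ω) (s := t + p) (l := q) (by omega) (by omega)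
      fun j hj1 hj => g2 j (by omega) hj
    have hsh := tau_shift (act n) x ω A hex (t + p + q) hτ
    have T3 := l3a_tri (n := n) (x := x) (ω := ω) (s := t + p + q)
      (l := tau (act n) (pos (act n) x ω (t + p + q)) (sh (t + p + q) ω) A)
      (by omega) (by omega)
      fun j hj1 hj => by
        rw [← hsh]
        exact g3 j (by omega) hj
    have q1 : t - bb n + (bb n + i0 n) = t + i0 n := by omega
    have q2 : t + i0 n + (p - bb n - i0 n) = t + p - bb n := by omega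
    have q3 : t + p - bb n + (bb n + i0 n) = t + p + i0 n := by omega
    have q4 : t + p + i0 n + (q - bb n - i0 n) = t + p + q - bb n := by omega
    rcases T1 with T1 | T1 | T1
    · rcases T2 with T2 | T2 | T2
      · rcases T3 with T3 | T3 | T3
        · left
          refine ⟨fun j hj => hnoA j (by omega), l3a_then_at T1 ?_⟩
          rw [q1]
          refine l3a_then_at (l3a_no_at fun j hj => hnoA j (by omega)) ?_
          rw [q2]
          refine l3a_then_at T2 ?_
          rw [q3]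
          refine l3a_then_at (l3a_no_at fun j hj => hnoA j (by omega)) ?_
          rw [q4]
          exact T3
        · right; right; right; right; right; left
          exact ⟨fun j hj => hnoA j (by omega), T3⟩
        · right; right; right; right; right; right; left
          exact ⟨fun j hj => hnoA j (by omega), T3⟩
      · right; right; right; left
        exact ⟨fun j hj => hnoA j (by omega), l3a_no_at fun j hj => hnoA j (by omega), T2⟩
      · right; right; right; right; left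
        refine ⟨fun j hj => hnoA j (by omega), l3a_then_at T2 ?_⟩
        exact l3a_no_at fun j hj => hnoA j (by omega)
    · right; left
      refine ⟨fun j hj => hnoA j (by omega), l3a_then_at ⟨l3a_no_at fun j hj =>
        hnoA j (by omega), T1⟩ ?_⟩
      exact l3a_no_at fun j hj => hnoA j (by omega)
    · right; right; left
      refine ⟨fun j hj => hnoA j (by omega), l3a_then_at T1 ?_⟩
      exact l3a_no_at fun j hj => hnoA j (by omega)
  -- conclusion
  have key : ∀ (s1 s2 s3 s4 s5 s6 s7 s8 : Set (ℕ → DD)), pr (s1 ∪ (s2 ∪ (s3 ∪ (s4 ∪ (s5 ∪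
      (s6 ∪ (s7 ∪ s8))))))) ≤ pr s1 + pr s2 + pr s3 + pr s4 + pr s5 + pr s6 + pr s7 + pr s8 := by
    intro s1 s2 s3 s4 s5 s6 s7 s8
    have k1 := l3a_union s1 (s2 ∪ (s3 ∪ (s4 ∪ (s5 ∪ (s6 ∪ (s7 ∪ s8))))))
    have k2 := l3a_union s2 (s3 ∪ (s4 ∪ (s5 ∪ (s6 ∪ (s7 ∪ s8)))))
    have k3 := l3a_union s3 (s4 ∪ (s5 ∪ (s6 ∪ (s7 ∪ s8))))
    have k4 := l3a_union s4 (s5 ∪ (s6 ∪ (s7 ∪ s8)))
    have k5 := l3a_union s5 (s6 ∪ (s7 ∪ s8))
    have k6 := l3a_union s6 (s7 ∪ s8)
    have k7 := l3a_union s7 s8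
    linarith
  refine (l3a_mono hincl).trans ((key _ _ _ _ _ _ _ _).trans ?_)
  -- sizes
  set E : ℝ := (2 : ℝ) ^ (-(((t : ℝ) + p + q) / (3 * H))) with hEdef
  have hE' : E = l3aE H ((t : ℝ) + p + q) := rfl
  have hEpos : 0 < E := by rw [hE']; exact l3a_E_pos _ _
  set S : ℝ := ((t : ℝ) + p + q) / H with hS
  have hS0 : 0 ≤ S := by positivity
  have hpS : (p : ℝ) / H ≤ S := by
    refine div_le_div_of_nonneg_right ?_ hH0.le
    have : (0 : ℝ) ≤ t := Nat.cast_nonneg _
    have : (0 : ℝ) ≤ q := Nat.cast_nonneg _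
    linarith
  have hqS : (q : ℝ) / H ≤ S := by
    refine div_le_div_of_nonneg_right ?_ hH0.le
    have : (0 : ℝ) ≤ t := Nat.cast_nonneg _
    have : (0 : ℝ) ≤ p := Nat.cast_nonneg _
    linarith
  have hcast : ∀ m : ℕ, t + p + q ≤ m + 7 * bb n →
      ((t : ℝ) + p + q) ≤ (m : ℝ) + 7 * (bb n : ℝ) := by
    intro m hm
    exact_mod_cast hm
  have F1 : 4 * l3aE H ((t - bb n : ℕ) : ℝ) * (a * (4 * l3aE H ((p - bb n - i0 n : ℕ) : ℝ) *
      (a * (4 * l3aE H ((q - bb n - i0 n : ℕ) : ℝ) * a)))) ≤ 512 * a ^ 3 * E := by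
    have m1 : l3aE H ((t - bb n : ℕ) : ℝ) * l3aE H ((p - bb n - i0 n : ℕ) : ℝ) *
        l3aE H ((q - bb n - i0 n : ℕ) : ℝ) ≤ 8 * E := by
      rw [l3a_E_add, l3a_E_add, hE']
      refine l3a_E_le hH0 hb ?_
      have := hcast ((t - bb n) + (p - bb n - i0 n) + (q - bb n - i0 n)) (by omega)
      push_cast at this ⊢
      linarith
    calc 4 * l3aE H ((t - bb n : ℕ) : ℝ) * (a * (4 * l3aE H ((p - bb n - i0 n : ℕ) : ℝ) *
          (a * (4 * l3aE H ((q - bb n - i0 n : ℕ) : ℝ) * a))))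
        = 64 * a ^ 3 * (l3aE H ((t - bb n : ℕ) : ℝ) * l3aE H ((p - bb n - i0 n : ℕ) : ℝ) *
          l3aE H ((q - bb n - i0 n : ℕ) : ℝ)) := by ring
      _ ≤ 64 * a ^ 3 * (8 * E) := mul_le_mul_of_nonneg_left m1 (by positivity)
      _ = 512 * a ^ 3 * E := by ring
  have F2 : 4 * l3aE H (t : ℝ) * (C1 / LL n * (1 + p / H) * l3aE H (p : ℝ) *
      (4 * l3aE H (q : ℝ))) ≤ 16 * (C1 / LL n) * (1 + S) * E := by
    have m1 : l3aE H (t : ℝ) * l3aE H (p : ℝ) * l3aE H (q : ℝ) = E := by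
      rw [l3a_E_add, l3a_E_add, hE']
    calc 4 * l3aE H (t : ℝ) * (C1 / LL n * (1 + p / H) * l3aE H (p : ℝ) * (4 * l3aE H (q : ℝ)))
        = 16 * (C1 / LL n) * (1 + p / H) *
          (l3aE H (t : ℝ) * l3aE H (p : ℝ) * l3aE H (q : ℝ)) := by ring
      _ = 16 * (C1 / LL n) * (1 + p / H) * E := by rw [m1]
      _ ≤ 16 * (C1 / LL n) * (1 + S) * E := by
        refine mul_le_mul_of_nonneg_right ?_ hEpos.le
        refine mul_le_mul_of_nonneg_left (by linarith) (by positivity)
  have F3 : 4 * l3aE H ((t - bb n : ℕ) : ℝ) * (C3 / LL n *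
      (4 * l3aE H ((p + q - i0 n : ℕ) : ℝ))) ≤ 128 * (C3 / LL n) * E := by
    have m1 : l3aE H ((t - bb n : ℕ) : ℝ) * l3aE H ((p + q - i0 n : ℕ) : ℝ) ≤ 8 * E := by
      rw [l3a_E_add, hE']
      refine l3a_E_le hH0 hb ?_
      have := hcast ((t - bb n) + (p + q - i0 n)) (by omega)
      push_cast at this ⊢
      linarith
    calc 4 * l3aE H ((t - bb n : ℕ) : ℝ) * (C3 / LL n * (4 * l3aE H ((p + q - i0 n : ℕ) : ℝ)))
        = 16 * (C3 / LL n) * (l3aE H ((t - bb n : ℕ) : ℝ) *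
          l3aE H ((p + q - i0 n : ℕ) : ℝ)) := by ring
      _ ≤ 16 * (C3 / LL n) * (8 * E) := mul_le_mul_of_nonneg_left m1 (by positivity)
      _ = 128 * (C3 / LL n) * E := by ring
  have F4 : 4 * l3aE H ((t + p : ℕ) : ℝ) * (C1 / LL n * (1 + q / H) * l3aE H (q : ℝ)) ≤
      4 * (C1 / LL n) * (1 + S) * E := by
    have m1 : l3aE H ((t + p : ℕ) : ℝ) * l3aE H (q : ℝ) = E := by
      rw [l3a_E_add, hE']
      push_cast
      rfl
    calc 4 * l3aE H ((t + p : ℕ) : ℝ) * (C1 / LL n * (1 + q / H) * l3aE H (q : ℝ))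
        = 4 * (C1 / LL n) * (1 + q / H) *
          (l3aE H ((t + p : ℕ) : ℝ) * l3aE H (q : ℝ)) := by ring
      _ = 4 * (C1 / LL n) * (1 + q / H) * E := by rw [m1]
      _ ≤ 4 * (C1 / LL n) * (1 + S) * E := by
        refine mul_le_mul_of_nonneg_right ?_ hEpos.le
        refine mul_le_mul_of_nonneg_left (by linarith) (by positivity)
  have F5 : 4 * l3aE H ((t + p - bb n : ℕ) : ℝ) * (C3 / LL n *
      (4 * l3aE H ((q - i0 n : ℕ) : ℝ))) ≤ 128 * (C3 / LL n) * E := by
    have m1 : l3aE H ((t + p - bb n : ℕ) : ℝ) * l3aE H ((q - i0 n : ℕ) : ℝ) ≤ 8 * E := by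
      rw [l3a_E_add, hE']
      refine l3a_E_le hH0 hb ?_
      have := hcast ((t + p - bb n) + (q - i0 n)) (by omega)
      push_cast at this ⊢
      linarith
    calc 4 * l3aE H ((t + p - bb n : ℕ) : ℝ) * (C3 / LL n * (4 * l3aE H ((q - i0 n : ℕ) : ℝ)))
        = 16 * (C3 / LL n) * (l3aE H ((t + p - bb n : ℕ) : ℝ) *
          l3aE H ((q - i0 n : ℕ) : ℝ)) := by ring
      _ ≤ 16 * (C3 / LL n) * (8 * E) := mul_le_mul_of_nonneg_left m1 (by positivity)
      _ = 128 * (C3 / LL n) * E := by ring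
  have F6 : 4 * l3aE H ((t + p + q : ℕ) : ℝ) * (C2 / LL n) ≤ 4 * (C2 / LL n) * E := by
    have m1 : l3aE H ((t + p + q : ℕ) : ℝ) = E := by
      rw [hE']
      push_cast
      rfl
    rw [m1]
    linarith
  have F7 : 4 * l3aE H ((t + p + q - bb n : ℕ) : ℝ) * (C3 / LL n) ≤ 32 * (C3 / LL n) * E := by
    have m1 : l3aE H ((t + p + q - bb n : ℕ) : ℝ) ≤ 8 * E := by
      rw [hE']
      exact l3a_E_le hH0 hb (hcast _ (by omega))
    calc 4 * l3aE H ((t + p + q - bb n : ℕ) : ℝ) * (C3 / LL n)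
        = 4 * (C3 / LL n) * l3aE H ((t + p + q - bb n : ℕ) : ℝ) := by ring
      _ ≤ 4 * (C3 / LL n) * (8 * E) := mul_le_mul_of_nonneg_left m1 (by positivity)
      _ = 32 * (C3 / LL n) * E := by ring
  have B1' := B1.trans F1
  have B2' := B2.trans F2
  have B3' := B3.trans F3
  have B4' := B4.trans F4
  have B5' := B5.trans F5
  have B6' := B6.trans F6
  have B7' := B7.trans F7
  have hfin : 512 * a ^ 3 * E + 16 * (C1 / LL n) * (1 + S) * E + 128 * (C3 / LL n) * E +
      4 * (C1 / LL n) * (1 + S) * E + 128 * (C3 / LL n) * E + 4 * (C2 / LL n) * E +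
      32 * (C3 / LL n) * E ≤
      (512 + 20 * C1 + 4 * C2 + 288 * C3) * (a ^ 3 + (1 + S) / LL n) * E := by
    have e1 : C1 / LL n = C1 * (1 / LL n) := by ring
    have e2 : C2 / LL n = C2 * (1 / LL n) := by ring
    have e3 : C3 / LL n = C3 * (1 / LL n) := by ring
    have e4 : (1 + S) / LL n = (1 + S) * (1 / LL n) := by ring
    rw [e1, e2, e3, e4]
    exact l3a_final (by positivity) hC1 hC2 hC3 hS0 (by positivity) hEpos.le
  linarith

end Pool.Agent.UST
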