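import Pool.Agent.Helper54.UST.Spn

/-! Paper section 9: distances along the skeleton. -/

namespace Pool.Agent.UST

open MeasureTheory

private theorem lta_headD {n : ℕ} (L : List (V n)) (k : ℕ) (hk : 1 ≤ k) :
    (L.take k).headD 0 = L.headD 0 := by
  cases L with
  | nil => simp
  | cons b L =>
    obtain ⟨j, rfl⟩ := Nat.exists_eq_add_of_le hk
    rw [Nat.add_comm]
    rfl

private theorem lta_step {n : ℕ} (T : Tr n) (L : List (V n)) (a b ℓ : ℕ) (ha : 1 ≤ a) (hab : a ≤ b)
    (hb : b ≤ L.length)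
    (h : ∀ j, a ≤ j → j < b → (brn T (L.take a) (L.getD j 0)).length ≤ ℓ + 1) :
    ∀ y ∈ spn T (L.take b), ∃ s ∈ spn T (L.take a), dst T y s ≤ ℓ := by
  rintro y ⟨u, hu, hy⟩
  rw [lta_headD L b (ha.trans hab)] at hy
  obtain ⟨j, hj, hju⟩ := List.mem_take_iff_getElem.mp hu
  have hjb : j < b := lt_of_lt_of_le hj (min_le_left _ _)
  have hjl : j < L.length := lt_of_lt_of_le hj (min_le_right _ _)
  by_cases hja : j < a
  · refine ⟨y, ⟨u, List.mem_take_iff_getElem.mpr ⟨j, lt_min hja hjl, hju⟩, ?_⟩, ?_⟩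
    · rw [lta_headD L a ha]
      exact hy
    · rw [dst_self]
      exact Nat.zero_le _
  · rw [not_lt] at hja
    have hne : L.take a ≠ [] := by
      intro h0
      have h1 := congrArg List.length h0
      rw [List.length_take, List.length_nil] at h1
      omega
    have hu' : L.getD j 0 = u := by
      rw [List.getD_eq_getElem _ _ hjl]
      exact hju
    have hlen := h j hja hjb
    rw [hu'] at hlen
    obtain ⟨s, hs, hd⟩ := dst_brn T hne u y (by
      rw [lta_headD L a ha]
      exact hy)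
    exact ⟨s, hs, by omega⟩

theorem chain_dist {n : ℕ} (T : Tr n) (L : List (V n)) (a ℓ : ℕ → ℕ) (m : ℕ)
    (ha : 1 ≤ a 0) (hmono : ∀ i, a i ≤ a (i + 1)) (hm : a m ≤ L.length)
    (h : ∀ i, i < m → ∀ j, a i ≤ j → j < a (i + 1) →
      (brn T (L.take (a i)) (L.getD j 0)).length ≤ ℓ i + 1) :
    ∀ y ∈ spn T (L.take (a m)), ∃ s ∈ spn T (L.take (a 0)),
      dst T y s ≤ ∑ i ∈ Finset.range m, ℓ i := by
  have hmon : Monotone a := monotone_nat_of_le_succ hmono
  induction m with
  | zero =>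
    intro y hy
    refine ⟨y, hy, ?_⟩
    rw [dst_self]
    exact Nat.zero_le _
  | succ m ih =>
    intro y hy
    obtain ⟨s, hs, hd⟩ := lta_step T L (a m) (a (m + 1)) (ℓ m) (ha.trans (hmon (Nat.zero_le m)))
      (hmono m) hm (h m (Nat.lt_succ_self m)) y hy
    obtain ⟨s', hs', hd'⟩ := ih ((hmono m).trans hm)
      (fun i hi => h i (Nat.lt_succ_of_lt hi)) s hs
    refine ⟨s', hs', ?_⟩
    rw [Finset.sum_range_succ]
    have := dst_triangle T y s s'
    omega

end Pool.Agent.UST
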