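import Pool.Agent.Helper54.UST.TreeBasic

/-! The subtree spanned by a list of points and the branches. -/

namespace Pool.Agent.UST

open MeasureTheory

section spnAux

/-- the initial part up to the first element of `S` -/
theorem spn_upto_append {W : Type} (S : Set W) (l₁ l₂ : List W) (a : W) (ha : a ∈ S)
    (h : ∀ y ∈ l₁, y ∉ S) : upto S (l₁ ++ a :: l₂) = l₁ ++ [a] := by
  classical
  unfold upto
  have h1 : (l₁ ++ a :: l₂).takeWhile (fun z => decide (z ∉ S)) = l₁ := by
    rw [List.takeWhile_append_of_pos (fun y hy => by simpa using h y hy)]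
    rw [List.takeWhile_cons_of_neg (by simpa using ha)]
    simp
  have h2 : (l₁ ++ a :: l₂).dropWhile (fun z => decide (z ∉ S)) = a :: l₂ := by
    rw [List.dropWhile_append_of_pos (fun y hy => by simpa using h y hy)]
    rw [List.dropWhile_cons_of_neg (by simpa using ha)]
  rw [h1, h2]
  rfl

/-- a list which meets `S` splits at the first element of `S` -/
theorem spn_exists_first {W : Type} (S : Set W) (l : List W) (h : ∃ y ∈ l, y ∈ S) :
    ∃ (l₁ : List W) (a : W) (l₂ : List W), l = l₁ ++ a :: l₂ ∧ a ∈ S ∧ ∀ y ∈ l₁, y ∉ S := by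
  classical
  induction l with
  | nil =>
    obtain ⟨y, hy, -⟩ := h
    exact absurd hy List.not_mem_nil
  | cons b l ih =>
    by_cases hb : b ∈ S
    · exact ⟨[], b, l, rfl, hb, fun y hy => absurd hy List.not_mem_nil⟩
    · obtain ⟨y, hy, hyS⟩ := h
      rcases List.mem_cons.1 hy with rfl | hy
      · exact absurd hyS hb
      obtain ⟨l₁, a, l₂, e, ha, h1⟩ := ih ⟨y, hy, hyS⟩
      refine ⟨b :: l₁, a, l₂, by rw [e]; rfl, ha, ?_⟩
      intro z hz
      rcases List.mem_cons.1 hz with rfl | hz
      · exact hb
      · exact h1 z hz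

theorem spn_headD_mem {n : ℕ} {L : List (V n)} (hL : L ≠ []) : L.headD 0 ∈ L := by
  cases L with
  | nil => exact absurd rfl hL
  | cons a L => simp

theorem spn_headD_append {n : ℕ} {L L' : List (V n)} (hL : L ≠ []) :
    (L ++ L').headD 0 = L.headD 0 := by
  cases L with
  | nil => exact absurd rfl hL
  | cons a L => rfl

end spnAux

section spn
variable {n : ℕ} (T : Tr n)

theorem spn_pth_cons (a b : V n) : pth T a b = a :: (pth T a b).tail := by
  have h := pth_head T a b
  cases hp : pth T a b with
  | nil => rw [hp] at h; simp at h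
  | cons c l =>
    rw [hp] at h
    simp only [List.head?_cons, Option.some.injEq] at h
    subst h
    rfl

theorem spn_tail_subset {a b y : V n} (h : y ∈ (pth T a b).tail) : y ∈ pth T a b :=
  List.mem_of_mem_tail h

theorem spn_notMem_tail (a b : V n) : a ∉ (pth T a b).tail := by
  have h := pth_nodup T a b
  rw [spn_pth_cons T a b, List.nodup_cons] at h
  exact h.1

theorem spn_sub_of_mem {u a ρ y : V n} (ha : a ∈ pth T u ρ) (hy : y ∈ pth T a ρ) :
    y ∈ pth T u ρ := by
  rw [pth_split T ha, List.mem_append]
  rw [spn_pth_cons T a ρ, List.mem_cons] at hy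
  rcases hy with rfl | hy
  · exact Or.inl (pth_mem_right T u y)
  · exact Or.inr hy

theorem spn_single (u : V n) : spn T [u] = {u} := by
  ext y
  simp only [spn, List.mem_singleton, List.headD_cons, Set.mem_ofPred_eq, exists_eq_left,
    Set.mem_singleton_iff, pth_self]

theorem spn_pair (u v : V n) : spn T [u, v] = st (pth T v u) := by
  ext y
  constructor
  · rintro ⟨w, hw, hy⟩
    simp only [List.headD_cons] at hy
    rcases List.mem_cons.1 hw with rfl | hw
    · rw [pth_self, List.mem_singleton] at hy
      subst hy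
      exact pth_mem_right T v y
    · rw [List.mem_singleton] at hw
      subst hw
      exact hy
  · intro hy
    exact ⟨v, by simp, hy⟩

theorem mem_spn_of_mem {L : List (V n)} {u : V n} (h : u ∈ L) : u ∈ spn T L :=
  ⟨u, h, pth_mem_left T u _⟩

theorem root_mem_spn {L : List (V n)} (hL : L ≠ []) : L.headD 0 ∈ spn T L :=
  mem_spn_of_mem T (spn_headD_mem hL)

theorem spn_mono {L L' : List (V n)} (hL : L ≠ []) (h : L <+: L') : spn T L ⊆ spn T L' := by
  obtain ⟨M, rfl⟩ := h
  rintro y ⟨u, hu, hy⟩
  refine ⟨u, List.mem_append_left M hu, ?_⟩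
  rw [spn_headD_append hL]
  exact hy

theorem spn_nonempty {L : List (V n)} (hL : L ≠ []) : (spn T L).Nonempty :=
  ⟨_, root_mem_spn T hL⟩

/-- the spanned set is closed under paths -/
theorem spn_closed {L : List (V n)} {a b : V n} (ha : a ∈ spn T L) (hb : b ∈ spn T L) :
    st (pth T a b) ⊆ spn T L := by
  intro y hy
  obtain ⟨u, hu, hau⟩ := ha
  obtain ⟨v, hv, hbv⟩ := hb
  rcases pth_subset T a (L.headD 0) b hy with h | h
  · exact ⟨u, hu, spn_sub_of_mem T hau h⟩
  · refine ⟨v, hv, spn_sub_of_mem T hbv ?_⟩
    have h' : y ∈ pth T (L.headD 0) b := h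
    rw [pth_rev T b (L.headD 0), List.mem_reverse] at h'
    exact h'

/-- the branch is the path to the attaching point -/
theorem brn_eq {L : List (V n)} (hL : L ≠ []) (u : V n) : ∃ a ∈ spn T L, brn T L u = pth T u a ∧
    (∀ y ∈ pth T u a, y ∈ spn T L → y = a) ∧
    ∀ s ∈ spn T L, pth T u s = pth T u a ++ (pth T a s).tail := by
  obtain ⟨l₁, a, l₂, e, ha, h1⟩ := spn_exists_first (spn T L) (pth T u (L.headD 0))
    ⟨L.headD 0, pth_mem_right T u _, root_mem_spn T hL⟩
  have hb : brn T L u = l₁ ++ [a] := by
    unfold brn
    rw [e]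
    exact spn_upto_append (spn T L) l₁ l₂ a ha h1
  have hpre : l₁ ++ [a] <+: pth T u (L.headD 0) := ⟨l₂, by rw [e]; simp⟩
  have hpa : l₁ ++ [a] = pth T u a := by
    refine pth_unique T u a _ ?_ ?_ ?_ ?_
    · exact (pth_nodup T u _).sublist hpre.sublist
    · have hch := pth_chain T u (L.headD 0)
      rw [e] at hch
      exact (List.isChain_split.mp hch).1
    · have h2 := pth_head T u (L.headD 0)
      rw [e] at h2
      cases l₁ with
      | nil => simpa using h2
      | cons c l => simpa using h2
    · simp
  refine ⟨a, ha, by rw [hb, hpa], ?_, ?_⟩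
  · intro y hy hyS
    rw [← hpa, List.mem_append, List.mem_singleton] at hy
    rcases hy with hy | hy
    · exact absurd hyS (h1 y hy)
    · exact hy
  · intro s hs
    symm
    refine pth_unique T u s _ ?_ ?_ ?_ ?_
    · rw [List.nodup_append]
      refine ⟨pth_nodup T u a, (pth_nodup T a s).tail, ?_⟩
      intro y hy z hz hyz
      subst hyz
      have h3 : y ∈ spn T L := spn_closed T ha hs (spn_tail_subset T hz)
      have h4 : y = a := by
        rw [← hpa, List.mem_append, List.mem_singleton] at hy
        rcases hy with hy | hy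
        · exact absurd h3 (h1 y hy)
        · exact hy
      subst h4
      exact spn_notMem_tail T y s hz
    · rw [List.isChain_append]
      refine ⟨pth_chain T u a, (pth_chain T a s).tail, ?_⟩
      intro x hx y hy
      rw [pth_last T u a] at hx
      have hx' : a = x := by simpa using hx
      subst hx'
      have h5 := pth_chain T a s
      rw [spn_pth_cons T a s] at h5
      rw [List.isChain_cons] at h5
      exact h5.1 y hy
    · rw [spn_pth_cons T u a]
      rfl
    · by_cases ht : (pth T a s).tail = []
      · have h6 : pth T a s = [a] := by rw [spn_pth_cons T a s, ht]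
        have h7 := pth_last T a s
        rw [h6] at h7
        simp only [List.getLast?_singleton, Option.some.injEq] at h7
        rw [ht, List.append_nil, pth_last, h7]
      · rw [List.getLast?_append_of_ne_nil _ ht]
        have h7 := pth_last T a s
        rw [spn_pth_cons T a s] at h7
        rw [← h7]
        cases ht' : (pth T a s).tail with
        | nil => exact absurd ht' ht
        | cons c l => simp

theorem brn_prefix (L : List (V n)) (u : V n) : brn T L u <+: pth T u (L.headD 0) := by
  classical
  unfold brn upto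
  have h : pth T u (L.headD 0)
      = (pth T u (L.headD 0)).takeWhile (fun z => decide (z ∉ spn T L)) ++
        (pth T u (L.headD 0)).dropWhile (fun z => decide (z ∉ spn T L)) :=
    List.takeWhile_append_dropWhile.symm
  conv_rhs => rw [h]
  rw [List.prefix_append_right_inj]
  exact List.take_prefix 1 _

theorem spn_snoc {L : List (V n)} (hL : L ≠ []) (u : V n) :
    spn T (L ++ [u]) = spn T L ∪ st (brn T L u) := by
  obtain ⟨a, ha, hb, h1, h2⟩ := brn_eq T hL u
  ext y
  constructor
  · rintro ⟨v, hv, hy⟩
    rw [spn_headD_append hL] at hy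
    rcases List.mem_append.1 hv with hv | hv
    · exact Or.inl ⟨v, hv, hy⟩
    · rw [List.mem_singleton] at hv
      subst hv
      rw [h2 _ (root_mem_spn T hL), List.mem_append] at hy
      rcases hy with hy | hy
      · right
        show y ∈ brn T L v
        rw [hb]
        exact hy
      · left
        exact spn_closed T ha (root_mem_spn T hL) (spn_tail_subset T hy)
  · rintro (hy | hy)
    · exact spn_mono T hL ⟨[u], rfl⟩ hy
    · refine ⟨u, by simp, ?_⟩
      rw [spn_headD_append hL]
      exact (brn_prefix T L u).subset hy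

theorem spn_eq_biUnion {L : List (V n)} :
    spn T L = {y | ∃ u ∈ L, y ∈ st (pth T u (L.headD 0))} := rfl

/-- distance to the spanned set along the branch -/
theorem dst_brn {L : List (V n)} (hL : L ≠ []) (u y : V n) (hy : y ∈ pth T u (L.headD 0)) :
    ∃ a ∈ spn T L, dst T y a + 1 ≤ (brn T L u).length := by
  obtain ⟨a, ha, hb, h1, h2⟩ := brn_eq T hL u
  rw [h2 _ (root_mem_spn T hL), List.mem_append] at hy
  rcases hy with hy | hy
  · refine ⟨a, ha, ?_⟩
    rw [hb, pth_length, dst_add T hy]
    omega
  · refine ⟨y, spn_closed T ha (root_mem_spn T hL) (spn_tail_subset T hy), ?_⟩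
    rw [hb, pth_length, dst_self]
    omega

end spn

end Pool.Agent.UST
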