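import Pool.Agent.Helper54.UST.Wil

/-! Conditional form of Wilson's theorem: the directions on `S` are fixed. -/

namespace Pool.Agent.UST

open MeasureTheory

namespace WilC

variable {W D : Type} (act : D → W → W)

/-- membership in `FG` for directions equal to `g0` on `S` -/
theorem FG_iff (A S : Set W) (hS : A ⊆ S) (g0 : W → D)
    (hg0 : g0 ∈ FG act A) (hcl : ∀ v ∈ S, v ∉ A → act (g0 v) v ∈ S) (g : W → D)
    (hg : ∀ v ∈ S, v ∉ A → g v = g0 v) : g ∈ FG act A ↔ g ∈ FG act S := by
  constructor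
  · exact fun h => WilA.FG_mono act hS h
  · intro h
    have h1 : ∀ v, v ∈ S → ∃ t, (WilA.stp act g)^[t] v ∈ A := by
      refine WilA.FG_ind act hg0 (P := fun v => v ∈ S → ∃ t, (WilA.stp act g)^[t] v ∈ A)
        (fun v hv _ => ⟨0, hv⟩) (fun v hv ih hvS => ?_)
      have h2 : WilA.stp act g v = WilA.stp act g0 v := by
        unfold WilA.stp; rw [hg v hvS hv]
      obtain ⟨t, ht⟩ := ih (hcl v hvS hv)
      exact ⟨t + 1, by rw [Function.iterate_succ_apply, h2]; exact ht⟩
    intro v
    obtain ⟨t, ht⟩ := h v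
    obtain ⟨s, hs⟩ := h1 _ ht
    refine ⟨s + t, ?_⟩
    rw [Function.iterate_add_apply]
    exact hs

/-- changing the directions inside `S` does not change `FG S` -/
theorem FG_change (S : Set W) (g g' : W → D) (h : ∀ v, v ∉ S → g' v = g v)
    (hg : g ∈ FG act S) : g' ∈ FG act S := by
  have key : ∀ v, ∃ t, (WilA.stp act g')^[t] v ∈ S := by
    refine WilA.FG_ind act hg (fun v hv => ⟨0, hv⟩) (fun v hv ih => ?_)
    obtain ⟨t, ht⟩ := ih
    refine ⟨t + 1, ?_⟩
    rw [Function.iterate_succ_apply]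
    have h1 : WilA.stp act g' v = WilA.stp act g v := by
      unfold WilA.stp
      rw [h v hv]
    rw [h1]
    exact ht
  exact key

theorem gpath_change (S : Set W) (g g' : W → D) (h : ∀ v, v ∉ S → g' v = g v)
    (hg : g ∈ FG act S) (w : W) : gpath act g' S w = gpath act g S w :=
  gpath_congr act g g' S w hg fun v hv => h v (gpath_dropLast act g S w hg v hv)

/-- counting with the directions on `S \ A` fixed or free -/
theorem count (A S : Set W) (hS : A ⊆ S) (g0 : W → D)
    (hg0 : g0 ∈ FG act A) (hcl : ∀ v ∈ S, v ∉ A → act (g0 v) v ∈ S) (P : (W → D) → Prop)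
    (hP : ∀ g g' : W → D, g ∈ FG act S → (∀ v, v ∉ S → g' v = g v) → P g → P g') :
    (FG act S ∩ {g | P g}).ncard =
      (FG act A ∩ {g | (∀ v ∈ S, v ∉ A → g v = g0 v) ∧ P g}).ncard *
        Nat.card ((S \ A : Set W) → D) := by
  classical
  rw [← Set.ncard_univ ((S \ A : Set W) → D), ← Set.ncard_prod]
  refine Set.ncard_congr
    (fun g _ => ((fun v => if v ∈ S \ A then g0 v else g v), fun v => g v)) ?_ ?_ ?_
  · rintro g ⟨h1, h2⟩
    have h3 : ∀ v, v ∉ S → (fun v => if v ∈ S \ A then g0 v else g v) v = g v := by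
      intro v hv
      have : v ∉ S \ A := fun h => hv h.1
      simp only [this, if_false]
    have h4 : ∀ v ∈ S, v ∉ A → (fun v => if v ∈ S \ A then g0 v else g v) v = g0 v := by
      intro v hv hvA
      have : v ∈ S \ A := ⟨hv, hvA⟩
      simp only [this, if_true]
    refine ⟨⟨?_, h4, ?_⟩, Set.mem_univ _⟩
    · exact (FG_iff act A S hS g0 hg0 hcl _ h4).mpr (FG_change act S g _ h3 h1)
    · exact hP g _ h1 h3 h2
  · rintro g g' - - h
    simp only [Prod.mk.injEq] at h
    obtain ⟨h1, h2⟩ := h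
    funext v
    by_cases hv : v ∈ S \ A
    · exact congrFun h2 ⟨v, hv⟩
    · have := congrFun h1 v
      simpa only [hv, if_false] using this
  · rintro ⟨g1, k⟩ ⟨⟨h1, h2, h3⟩, -⟩
    have h4 : ∀ v, v ∉ S → (fun v => if hv : v ∈ S \ A then k ⟨v, hv⟩ else g1 v) v = g1 v := by
      intro v hv
      have : v ∉ S \ A := fun h => hv h.1
      simp only [this, dif_neg, not_false_eq_true]
    have h5 : g1 ∈ FG act S := (FG_iff act A S hS g0 hg0 hcl g1 h2).mp h1
    refine ⟨fun v => if hv : v ∈ S \ A then k ⟨v, hv⟩ else g1 v,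
      ⟨FG_change act S g1 _ h4 h5, hP g1 _ h5 h4 h3⟩, ?_⟩
    refine Prod.ext ?_ ?_
    · funext v
      by_cases hv : v ∈ S \ A
      · simp only [hv, if_true]
        exact (h2 v hv.1 hv.2).symm
      · simp only [hv, if_false, dif_neg, not_false_eq_true]
    · funext v
      have := v.2
      simp only [this, dif_pos]

end WilC

section wilc
variable {W D : Type} [Finite W] [Fintype D] [Nonempty D] [MeasurableSpace D]
  [MeasurableSingletonClass D] (act : D → W → W)

theorem wilson_cond (A S : Set W) (hA : Reach act A) (hS : A ⊆ S) (g0 : W → D)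
    (hg0 : g0 ∈ FG act A) (hcl : ∀ v ∈ S, v ∉ A → act (g0 v) v ∈ S) (w : W) (η : List W) :
    ((FG act A ∩ {g | (∀ v ∈ S, v ∉ A → g v = g0 v) ∧ gpath act g S w = η}).ncard : ℝ) =
      ((FG act A ∩ {g | ∀ v ∈ S, v ∉ A → g v = g0 v}).ncard : ℝ) *
        (mu D).real {ω | lerw act w ω S = η} := by
  have hRS : Reach act S := by
    intro x
    obtain ⟨ω, t, ht⟩ := hA x
    exact ⟨ω, t, hS ht⟩
  have h1 := wilson (D := D) act S hRS w η
  have h2 := WilC.count act A S hS g0 hg0 hcl (fun g => gpath act g S w = η)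
    (fun g g' hg h hp => by rw [WilC.gpath_change act S g g' h hg w]; exact hp)
  have h3 := WilC.count act A S hS g0 hg0 hcl (fun _ => True) (fun _ _ _ _ _ => trivial)
  have h4 : (FG act S ∩ {_g | True}) = FG act S := by
    ext g; simp
  have h5 : (FG act A ∩ {g | (∀ v ∈ S, v ∉ A → g v = g0 v) ∧ True})
      = (FG act A ∩ {g | ∀ v ∈ S, v ∉ A → g v = g0 v}) := by
    ext g; simp
  rw [h4, h5] at h3
  rw [h2, h3] at h1
  push_cast at h1
  have hM : (Nat.card ((S \ A : Set W) → D) : ℝ) ≠ 0 := by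
    have : 0 < Nat.card ((S \ A : Set W) → D) := Nat.card_pos
    exact_mod_cast this.ne'
  have h6 : ((FG act A ∩ {g | (∀ v ∈ S, v ∉ A → g v = g0 v) ∧ gpath act g S w = η}).ncard : ℝ)
      * (Nat.card ((S \ A : Set W) → D) : ℝ)
      = ((FG act A ∩ {g | ∀ v ∈ S, v ∉ A → g v = g0 v}).ncard : ℝ) *
        (mu D).real {ω | lerw act w ω S = η} * (Nat.card ((S \ A : Set W) → D) : ℝ) := by
    rw [h1]; ring
  exact mul_right_cancel₀ hM h6

end wilc

end Pool.Agent.UST
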