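import Pool.Agent.Helper54.UST.TreeFG
import Pool.Agent.Helper54.UST.Spn
import Pool.Agent.Helper54.UST.WilC
import Pool.Agent.Helper54.UST.Av

/-! The Wilson step (paper 5.1). -/

namespace Pool.Agent.UST

open MeasureTheory

section wstepAux

theorem wstep_sum_classes {E K : Type} [Fintype E] [Fintype K] [DecidableEq K] (κ : E → K)
    (F G : E → ℝ)
    (h : ∀ g0 : E, ∑ g ∈ Finset.univ.filter (fun g => κ g = κ g0), F g =
      ∑ g ∈ Finset.univ.filter (fun g => κ g = κ g0), G g) :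
    ∑ g, F g = ∑ g, G g := by
  rw [← Finset.sum_fiberwise Finset.univ κ F, ← Finset.sum_fiberwise Finset.univ κ G]
  refine Finset.sum_congr rfl fun k _ => ?_
  by_cases hk : ∃ g0, κ g0 = k
  · obtain ⟨g0, rfl⟩ := hk
    exact h g0
  · have he : Finset.univ.filter (fun g => κ g = k) = ∅ := by
      rw [Finset.filter_eq_empty_iff]
      intro g _ hg
      exact hk ⟨g, hg⟩
    rw [he, Finset.sum_empty, Finset.sum_empty]

theorem wstep_ncard {X : Type} (s : Set X) [Fintype s] (p : X → Prop)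
    [DecidablePred (fun g : s => p g.1)] :
    (s ∩ {g | p g}).ncard = (Finset.univ.filter (fun g : s => p g.1)).card := by
  classical
  have h : s ∩ {g | p g} = Subtype.val '' {g : s | p g.1} := by
    ext x
    constructor
    · rintro ⟨h1, h2⟩
      exact ⟨⟨x, h1⟩, h2, rfl⟩
    · rintro ⟨y, hy, rfl⟩
      exact ⟨y.2, hy⟩
  rw [h, Set.ncard_image_of_injective _ Subtype.val_injective, Set.ncard_eq_toFinset_card']
  congr 1
  ext g
  simp

variable {W D : Type} (act : D → W → W)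

theorem wstep_upto_mem (S : Set W) (w : W) (l : List W) (hw : w ∈ S) : upto S (w :: l) = [w] := by
  classical
  unfold upto
  rw [List.takeWhile_cons_of_neg (by simpa using hw),
    List.dropWhile_cons_of_neg (by simpa using hw)]
  rfl

theorem wstep_upto_cons (S : Set W) (w : W) (l : List W) (hw : w ∉ S) :
    upto S (w :: l) = w :: upto S l := by
  classical
  unfold upto
  rw [List.takeWhile_cons_of_pos (by simpa using hw),
    List.dropWhile_cons_of_pos (by simpa using hw)]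
  rfl

theorem wstep_gpath_upto {g : W → D} {A S : Set W} (hg : g ∈ FG act A) (hAS : A ⊆ S) (u : W) :
    gpath act g S u = upto S (gpath act g A u) := by
  have hgS : g ∈ FG act S := WilA.FG_mono act hAS hg
  refine WilA.FG_ind act hg (P := fun u => gpath act g S u = upto S (gpath act g A u))
    (fun w hw => ?_) (fun w hw ih => ?_) u
  · rw [gpath_mem act g A w hw, gpath_mem act g S w (hAS hw), wstep_upto_mem S w [] (hAS hw)]
  · rw [gpath_cons act g A w hg hw]
    by_cases hwS : w ∈ S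
    · rw [wstep_upto_mem S w _ hwS, gpath_mem act g S w hwS]
    · have ih' : gpath act g S (act (g w) w) = upto S (gpath act g A (act (g w) w)) := ih
      rw [wstep_upto_cons S w _ hwS, gpath_cons act g S w hgS hwS, ih']

theorem wstep_gpath_next {g : W → D} {A : Set W} (hg : g ∈ FG act A) (v : W) (hv : v ∉ A)
    (w : W) : v ∈ gpath act g A w → act (g v) v ∈ gpath act g A w := by
  refine WilA.FG_ind act hg (P := fun w => v ∈ gpath act g A w → act (g v) v ∈ gpath act g A w)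
    (fun w hw h => ?_) (fun w hw ih h => ?_) w
  · rw [gpath_mem act g A w hw, List.mem_singleton] at h
    subst h
    exact absurd hw hv
  · rw [gpath_cons act g A w hg hw] at h ⊢
    rcases List.mem_cons.1 h with h | h
    · subst h
      refine List.mem_cons_of_mem _ ?_
      exact List.mem_of_mem_head? (gpath_head act g A (act (g v) v))
    · exact List.mem_cons_of_mem _ (ih h)

end wstepAux

/-- law of the loop-erased walk as a finite sum -/
theorem wstep_integral (n : ℕ) [NeZero n] (u : V n) (S : Set (V n)) (ψ : List (V n) → ℝ)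
    (N : Finset (List (V n))) (hN : ∀ l : List (V n), l.Nodup → l ∈ N) :
    ∫ ω, ψ (lerw (act n) u ω S) ∂(mu DD) =
      ∑ η ∈ N, ψ η * (mu DD).real {ω | lerw (act n) u ω S = η} := by
  classical
  have hms : ∀ η : List (V n), MeasurableSet {ω : ℕ → DD | lerw (act n) u ω S = η} := by
    intro η
    rw [measurableSet_setOfPred]
    exact measurable_lerw (act n) S u (fun l => (l = η : Prop))
  have h1 : ∀ ω : ℕ → DD, ψ (lerw (act n) u ω S) =
      ∑ η ∈ N, ψ η * ind (lerw (act n) u ω S = η) := by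
    intro ω
    rw [Finset.sum_eq_single (lerw (act n) u ω S)]
    · rw [ind_true rfl, mul_one]
    · intro η _ hη
      rw [ind_false (fun h => hη h.symm), mul_zero]
    · intro h
      exact absurd (hN _ (lerw_nodup (act n) S u ω)) h
  simp_rw [h1]
  rw [integral_finsetSum]
  · refine Finset.sum_congr rfl fun η _ => ?_
    rw [integral_const_mul, integral_ind _ _ (hms η)]
  · intro η _
    refine Integrable.const_mul ?_ _
    have h2 : (fun ω : ℕ → DD => ind (lerw (act n) u ω S = η)) =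
        Set.indicator {ω : ℕ → DD | lerw (act n) u ω S = η} (fun _ => (1 : ℝ)) := by
      funext ω
      by_cases h : lerw (act n) u ω S = η
      · rw [ind_true h, Set.indicator_of_mem (show ω ∈ {ω : ℕ → DD | lerw (act n) u ω S = η} from h)]
      · rw [ind_false h, Set.indicator_of_notMem
          (show ω ∉ {ω : ℕ → DD | lerw (act n) u ω S = η} from h)]
    rw [h2]
    exact (integrable_const (1 : ℝ)).indicator (hms η)

theorem wilson_step (n : ℕ) [NeZero n] (hn : 3 ≤ n) (L : List (V n)) (hL : L ≠ []) (u : V n)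
    (Ψ : Tr n → List (V n) → ℝ)
    (hΨ : ∀ T T' : Tr n, (∀ v ∈ L, pth T v (L.headD 0) = pth T' v (L.headD 0)) → Ψ T = Ψ T') :
    av (fun T : Tr n => Ψ T (brn T L u)) =
      av (fun T : Tr n => ∫ ω, Ψ T (lerw (act n) u ω (spn T L)) ∂(mu DD)) := by
  classical
  set ρ : V n := L.headD 0 with hρ
  obtain ⟨φ, hφ⟩ := tr_fg n hn ρ
  let _ : Fintype ↥(FG (act n) {ρ}) := Fintype.ofFinite _
  -- sums over the trees and sums over the directions
  have hsum : ∀ F : Tr n → ℝ,
      ∑ g : ↥(FG (act n) {ρ}), F (φ g).1 = (Fintype.card DD : ℝ) * ∑ T, F T := by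
    intro F
    rw [Equiv.sum_comp φ (fun p : Tr n × DD => F p.1), Fintype.sum_prod_type, Finset.mul_sum]
    refine Finset.sum_congr rfl fun T _ => ?_
    show ∑ _y : DD, F T = _
    rw [Finset.sum_const, Finset.card_univ, nsmul_eq_mul]
  suffices hmain : ∑ g : ↥(FG (act n) {ρ}), Ψ (φ g).1 (brn (φ g).1 L u) =
      ∑ g : ↥(FG (act n) {ρ}), ∫ ω, Ψ (φ g).1 (lerw (act n) u ω (spn (φ g).1 L)) ∂(mu DD) by
    rw [hsum (fun T => Ψ T (brn T L u)),
      hsum (fun T => ∫ ω, Ψ T (lerw (act n) u ω (spn T L)) ∂(mu DD))] at hmain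
    have hc : (Fintype.card DD : ℝ) ≠ 0 := by
      have : 0 < Fintype.card DD := Fintype.card_pos
      positivity
    unfold av
    rw [mul_left_cancel₀ hc hmain]
  -- the spanned set in terms of the directions
  set Sg : (V n → DD) → Set (V n) := fun g => {y | ∃ v ∈ L, y ∈ gpath (act n) g {ρ} v} with hSg
  have hspn : ∀ g : ↥(FG (act n) {ρ}), spn (φ g).1 L = Sg g.1 := by
    intro g
    ext y
    constructor
    · rintro ⟨v, hv, hy⟩
      rw [← hρ, hφ g v] at hy
      exact ⟨v, hv, hy⟩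
    · rintro ⟨v, hv, hy⟩
      refine ⟨v, hv, ?_⟩
      rw [← hρ, hφ g v]
      exact hy
  have hρS : ∀ g : ↥(FG (act n) {ρ}), ({ρ} : Set (V n)) ⊆ Sg g.1 := by
    intro g y hy
    rw [Set.mem_singleton_iff] at hy
    subst hy
    rw [← hspn g]
    exact root_mem_spn _ hL
  have hbrn : ∀ g : ↥(FG (act n) {ρ}), brn (φ g).1 L u = gpath (act n) g.1 (Sg g.1) u := by
    intro g
    rw [wstep_gpath_upto (act n) g.2 (hρS g) u]
    unfold brn
    rw [hspn g, ← hρ, hφ g u]
  -- the key of a class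
  set κ : ↥(FG (act n) {ρ}) → (V n → Option DD) := fun g y =>
    if y ∈ Sg g.1 ∧ y ≠ ρ then some (g.1 y) else none with hκ
  have hcong : ∀ g g0 : ↥(FG (act n) {ρ}), (∀ v ∈ Sg g0.1, v ∉ ({ρ} : Set (V n)) →
      g.1 v = g0.1 v) → ∀ v ∈ L, gpath (act n) g.1 {ρ} v = gpath (act n) g0.1 {ρ} v := by
    intro g g0 h v hv
    refine gpath_congr (act n) g0.1 g.1 {ρ} v g0.2 fun y hy => ?_
    exact h y ⟨v, hv, List.dropLast_subset _ hy⟩ (gpath_dropLast (act n) g0.1 {ρ} v g0.2 y hy)
  have hSeq : ∀ g g0 : ↥(FG (act n) {ρ}), (∀ v ∈ Sg g0.1, v ∉ ({ρ} : Set (V n)) →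
      g.1 v = g0.1 v) → Sg g.1 = Sg g0.1 := by
    intro g g0 h
    ext y
    constructor
    · rintro ⟨v, hv, hy⟩
      exact ⟨v, hv, by rw [← hcong g g0 h v hv]; exact hy⟩
    · rintro ⟨v, hv, hy⟩
      exact ⟨v, hv, by rw [hcong g g0 h v hv]; exact hy⟩
  have hκiff : ∀ g g0 : ↥(FG (act n) {ρ}), κ g = κ g0 ↔
      ∀ v ∈ Sg g0.1, v ∉ ({ρ} : Set (V n)) → g.1 v = g0.1 v := by
    intro g g0
    constructor
    · intro h v hv hvρ
      have h1 := congrFun h v
      simp only [hκ] at h1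
      rw [if_pos (show v ∈ Sg g0.1 ∧ v ≠ ρ from ⟨hv, hvρ⟩)] at h1
      by_cases h2 : v ∈ Sg g.1 ∧ v ≠ ρ
      · rw [if_pos h2] at h1
        exact Option.some.inj h1
      · rw [if_neg h2] at h1
        exact absurd h1 (by simp)
    · intro h
      funext y
      simp only [hκ]
      have hS := hSeq g g0 h
      by_cases h2 : y ∈ Sg g0.1 ∧ y ≠ ρ
      · have h3 : y ∈ Sg g.1 ∧ y ≠ ρ := ⟨hS ▸ h2.1, h2.2⟩
        rw [if_pos h2, if_pos h3, h y h2.1 h2.2]
      · have h3 : ¬ (y ∈ Sg g.1 ∧ y ≠ ρ) := fun h4 => h2 ⟨hS ▸ h4.1, h4.2⟩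
        rw [if_neg h2, if_neg h3]
  refine wstep_sum_classes κ _ _ fun g0 => ?_
  -- the finite set of the lists without repetition
  set N : Finset (List (V n)) :=
    (Finset.univ : Finset {l : List (V n) // l.Nodup}).image Subtype.val with hN
  have hNm : ∀ l : List (V n), l.Nodup → l ∈ N := by
    intro l hl
    rw [hN, Finset.mem_image]
    exact ⟨⟨l, hl⟩, Finset.mem_univ _, rfl⟩
  set S0 : Set (V n) := Sg g0.1 with hS0
  set ψ : List (V n) → ℝ := Ψ (φ g0).1 with hψ
  set C : Finset ↥(FG (act n) {ρ}) := Finset.univ.filter (fun g => κ g = κ g0) with hC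
  have hΨeq : ∀ g ∈ C, Ψ (φ g).1 = ψ ∧ Sg g.1 = S0 := by
    intro g hg
    have h1 := (hκiff g g0).1 (Finset.mem_filter.1 hg).2
    refine ⟨hΨ _ _ fun v hv => ?_, hSeq g g0 h1⟩
    rw [hφ g v, hφ g0 v]
    exact hcong g g0 h1 v hv
  have hL1 : ∑ g ∈ C, Ψ (φ g).1 (brn (φ g).1 L u) = ∑ g ∈ C, ψ (gpath (act n) g.1 S0 u) := by
    refine Finset.sum_congr rfl fun g hg => ?_
    obtain ⟨h1, h2⟩ := hΨeq g hg
    rw [h1, hbrn g, h2]
  have hR1 : ∑ g ∈ C, ∫ ω, Ψ (φ g).1 (lerw (act n) u ω (spn (φ g).1 L)) ∂(mu DD) =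
      (C.card : ℝ) * ∫ ω, ψ (lerw (act n) u ω S0) ∂(mu DD) := by
    rw [← nsmul_eq_mul, ← Finset.sum_const]
    refine Finset.sum_congr rfl fun g hg => ?_
    obtain ⟨h1, h2⟩ := hΨeq g hg
    rw [h1, hspn g, h2]
  rw [hL1, hR1, wstep_integral n u S0 ψ N hNm, Finset.mul_sum]
  have hg0S : g0.1 ∈ FG (act n) S0 := WilA.FG_mono (act n) (hρS g0) g0.2
  rw [← Finset.sum_fiberwise_of_maps_to (t := N) (g := fun g => gpath (act n) g.1 S0 u)
    (fun g hg => hNm _ (gpath_nodup (act n) g.1 S0 u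
      (WilA.FG_mono (act n) ((hΨeq g hg).2 ▸ hρS g) g.2)))]
  refine Finset.sum_congr rfl fun η _ => ?_
  have hL2 : ∑ g ∈ C.filter (fun g => gpath (act n) g.1 S0 u = η), ψ (gpath (act n) g.1 S0 u) =
      ((C.filter (fun g => gpath (act n) g.1 S0 u = η)).card : ℝ) * ψ η := by
    rw [← nsmul_eq_mul, ← Finset.sum_const]
    refine Finset.sum_congr rfl fun g hg => ?_
    rw [(Finset.mem_filter.1 hg).2]
  rw [hL2]
  have hcond := wilson_cond (act n) {ρ} S0 (act_reach n {ρ} (Set.singleton_nonempty ρ)) (hρS g0)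
    g0.1 g0.2 (by
      rintro v ⟨w, hw, hvw⟩ hvρ
      exact ⟨w, hw, wstep_gpath_next (act n) g0.2 v hvρ w hvw⟩) u η
  rw [wstep_ncard (FG (act n) {ρ}) (fun g => (∀ v ∈ S0, v ∉ ({ρ} : Set (V n)) → g v = g0.1 v) ∧
      gpath (act n) g S0 u = η),
    wstep_ncard (FG (act n) {ρ}) (fun g => ∀ v ∈ S0, v ∉ ({ρ} : Set (V n)) → g v = g0.1 v)]
    at hcond
  have hC1 : C = Finset.univ.filter (fun g : ↥(FG (act n) {ρ}) =>
      ∀ v ∈ S0, v ∉ ({ρ} : Set (V n)) → g.1 v = g0.1 v) := by
    rw [hC]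
    refine Finset.filter_congr fun g _ => ?_
    rw [hκiff g g0]
  have hC2 : C.filter (fun g => gpath (act n) g.1 S0 u = η) =
      Finset.univ.filter (fun g : ↥(FG (act n) {ρ}) =>
        (∀ v ∈ S0, v ∉ ({ρ} : Set (V n)) → g.1 v = g0.1 v) ∧ gpath (act n) g.1 S0 u = η) := by
    rw [hC1, Finset.filter_filter]
  rw [hC2, hC1, hcond]
  ring

/-- the path between two points is a loop-erased walk -/
theorem wilson_path (n : ℕ) [NeZero n] (hn : 3 ≤ n) (u v : V n) (F : List (V n) → ℝ) :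
    av (fun T : Tr n => F (pth T u v)) = ∫ ω, F (lerw (act n) u ω {v}) ∂(mu DD) := by
  have := tr_nonempty n hn
  have h := wilson_step n hn [v] (by simp) u (fun _ l => F l) (fun _ _ _ => rfl)
  have h1 : ∀ T : Tr n, brn T [v] u = pth T u v := by
    intro T
    obtain ⟨a, ha, hb, -, -⟩ := brn_eq T (L := [v]) (by simp) u
    rw [spn_single, Set.mem_singleton_iff] at ha
    rw [hb, ha]
  simp_rw [h1, spn_single] at h
  rw [h, av_const]

end Pool.Agent.UST
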