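import Pool.Agent.Helper54.UST.L3
import Pool.Agent.Helper54.UST.WStep
import Pool.Agent.Helper54.UST.Tau
import Pool.Agent.Helper54.UST.Asy

/-! Paper section 9: lengths of the branches. -/

namespace Pool.Agent.UST

open MeasureTheory

private theorem ltb_spn_congr {n : ℕ} {L : List (V n)} {T T' : Tr n}
    (h : ∀ v ∈ L, pth T v (L.headD 0) = pth T' v (L.headD 0)) : spn T L = spn T' L := by
  ext y
  simp only [spn, Set.mem_ofPred_eq]
  constructor
  · rintro ⟨u, hu, hy⟩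
    exact ⟨u, hu, by rw [← h u hu]; exact hy⟩
  · rintro ⟨u, hu, hy⟩
    exact ⟨u, hu, by rw [h u hu]; exact hy⟩

private theorem ltb_avL_congr {n : ℕ} [NeZero n] {F G : List (V n) → ℝ} (m : ℕ)
    (h : ∀ L, L.length = m → F L = G L) : avL F m = avL G m :=
  le_antisymm (avL_mono n m fun L hL => (h L hL).le) (avL_mono n m fun L hL => (h L hL).ge)

/-- a branch from the point `j` to the subtree of the first `a` points -/
theorem branch_law (n : ℕ) [NeZero n] (hn : 3 ≤ n) (a j m : ℕ) (ha : 1 ≤ a) (haj : a ≤ j)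
    (hj : j < m) (F : Set (V n) → List (V n) → ℝ) :
    av (fun T : Tr n => avL (fun L => F (spn T (L.take a)) (brn T (L.take a) (L.getD j 0))) m) =
      av (fun T : Tr n => avL (fun L => av (fun v : V n =>
        ∫ ω, F (spn T L) (lerw (act n) v ω (spn T L)) ∂(mu DD))) a) := by
  obtain ⟨b, rfl⟩ : ∃ b, m = a + b := ⟨m - a, by omega⟩
  have e1 : (fun T : Tr n => avL (fun L => F (spn T (L.take a))
      (brn T (L.take a) (L.getD j 0))) (a + b)) =
      fun T : Tr n => avL (fun L => av (fun v : V n => F (spn T L) (brn T L v))) a := by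
    funext T
    rw [avL_append]
    refine ltb_avL_congr a fun L hLa => ?_
    have e2 : (fun L' => F (spn T ((L ++ L').take a))
        (brn T ((L ++ L').take a) ((L ++ L').getD j 0))) =
        fun L' => F (spn T L) (brn T L (L'.getD (j - a) 0)) := by
      funext L'
      have h1 : (L ++ L').take a = L := by rw [← hLa, List.take_left]
      have h2 : (L ++ L').getD j 0 = L'.getD (j - a) 0 := by
        rw [List.getD_append_right _ _ _ _ (by omega), hLa]
      rw [h1, h2]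
    rw [e2]
    exact avL_get n (fun v => F (spn T L) (brn T L v)) b (j - a) (by omega)
  rw [e1, ← avL_av, ← avL_av]
  refine ltb_avL_congr a fun L hLa => ?_
  have hL : L ≠ [] := by
    rintro rfl
    simp at hLa
    omega
  rw [av_comm, av_comm (fun (T : Tr n) (u : V n) =>
    ∫ ω, F (spn T L) (lerw (act n) u ω (spn T L)) ∂(mu DD))]
  congr 1
  funext u
  exact wilson_step n hn L hL u (fun T l => F (spn T L) l) (by
    intro T T' h
    funext l
    rw [ltb_spn_congr h])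

private theorem ltb_len_meas (n : ℕ) [NeZero n] (S : Set (V n)) (v : V n) :
    Measurable (fun ω => (lerw (act n) v ω S).length) :=
  measurable_tau (act n) S v (fun t ω => (le (seg (act n) v ω 0 t)).length)
    (fun t ω ω' h => by rw [seg_congr (act n) v ω ω' 0 t h])

private theorem ltb_le (n : ℕ) [NeZero n] (hn : 3 ≤ n) (a j m : ℕ) (ha : 1 ≤ a) (haj : a ≤ j)
    (hj : j < m) (X ℓ c : ℝ) (hc : 0 ≤ c)
    (h : ∀ S : Set (V n), S.Nonempty → MA n S ≤ X → ∀ v : V n,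
      pr {ω | ℓ ≤ ((lerw (act n) v ω S).length : ℝ)} ≤ c) :
    av (fun T : Tr n => avL (fun L => ind (MA n (spn T (L.take a)) ≤ X ∧
      ℓ ≤ ((brn T (L.take a) (L.getD j 0)).length : ℝ))) m) ≤ c := by
  have h0 := branch_law n hn a j m ha haj hj
    (fun S η => ind (MA n S ≤ X ∧ ℓ ≤ (η.length : ℝ)))
  rw [h0]
  refine av_le hc fun T => ?_
  rw [← avL_const n c a]
  refine avL_mono n a fun L hLa => ?_
  have hL : L ≠ [] := by
    rintro rfl
    simp at hLa
    omega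
  refine av_le hc fun v => ?_
  by_cases hM : MA n (spn T L) ≤ X
  · have e1 : ∫ ω, ind (MA n (spn T L) ≤ X ∧
        ℓ ≤ ((lerw (act n) v ω (spn T L)).length : ℝ)) ∂(mu DD) =
        ∫ ω, ind (ℓ ≤ ((lerw (act n) v ω (spn T L)).length : ℝ)) ∂(mu DD) := by
      congr 1
      funext ω
      rw [ind_and, ind_true hM, one_mul]
    rw [e1, integral_ind (mu DD) (fun ω => ℓ ≤ ((lerw (act n) v ω (spn T L)).length : ℝ))]
    · exact h (spn T L) (spn_nonempty T hL) hM v
    · exact measurableSet_le measurable_const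
        (measurable_from_top.comp (ltb_len_meas n (spn T L) v))
  · have e1 : ∫ ω, ind (MA n (spn T L) ≤ X ∧
        ℓ ≤ ((lerw (act n) v ω (spn T L)).length : ℝ)) ∂(mu DD) = 0 := by
      have : (fun ω => ind (MA n (spn T L) ≤ X ∧
          ℓ ≤ ((lerw (act n) v ω (spn T L)).length : ℝ))) = fun _ => (0 : ℝ) := by
        funext ω
        rw [ind_and, ind_false hM, zero_mul]
      rw [this, integral_zero]
    rw [e1]
    exact hc

private theorem ltb_Et (n : ℕ) [NeZero n] (S : Set (V n)) (hS : S.Nonempty) (X : ℝ)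
    (h : MA n S ≤ X) (x : V n) : Et n S x ≤ 4 * (n : ℝ) ^ 2 + 2 * X := by
  have h1 := Et_le_MA n S hS x
  have h2 : (t0 n : ℝ) = 4 * (n : ℝ) ^ 2 := by
    unfold t0
    push_cast
    ring
  rw [h2] at h1
  linarith

theorem branch_tail : ∃ C : ℝ, 0 < C ∧ ∀ B : ℝ, 0 < B → ∃ n0 : ℕ, ∀ (n : ℕ) [NeZero n],
    n0 ≤ n → ∀ ξ : ℝ, ξ ≤ B → (n : ℝ) ^ 2 ≤ ξ * kk n → ∀ (a j m : ℕ), 1 ≤ a → a ≤ j → j < m →
    ∀ ℓ : ℝ, 0 < ℓ →
    av (fun T : Tr n => avL (fun L => ind (MA n (spn T (L.take a)) ≤ ξ * kk n ∧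
      ℓ ≤ ((brn T (L.take a) (L.getD j 0)).length : ℝ))) m) ≤
      C * (ξ * kk n) ^ 3 / (LL n * ℓ ^ 3) := by
  obtain ⟨C, hC, n1, h1⟩ := l3_tail
  refine ⟨216 * C, by positivity, fun B hB => ?_⟩
  obtain ⟨n2, h2⟩ := kk_le_pow (6 * B)
  obtain ⟨n3, h3⟩ := LL_large 1
  refine ⟨max (max n1 n2) (max n3 3), fun n _ hn ξ hξ hξk a j m ha haj hj ℓ hℓ => ?_⟩
  have hn1 : n1 ≤ n := le_trans (le_trans (le_max_left _ _) (le_max_left _ _)) hn
  have hn2 : n2 ≤ n := le_trans (le_trans (le_max_right _ _) (le_max_left _ _)) hn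
  have hn3 : n3 ≤ n := le_trans (le_trans (le_max_left _ _) (le_max_right _ _)) hn
  have hn4 : 3 ≤ n := le_trans (le_trans (le_max_right _ _) (le_max_right _ _)) hn
  have hLL := h3 n hn3
  have hn0 : (0 : ℝ) < (n : ℝ) ^ 2 := by
    have : (0 : ℝ) < n := by
      have : 0 < n := by omega
      exact_mod_cast this
    positivity
  have hξ0 : 0 < ξ * kk n := lt_of_lt_of_le hn0 hξk
  have hc : 0 ≤ 216 * C * (ξ * kk n) ^ 3 / (LL n * ℓ ^ 3) := by positivity
  refine ltb_le n hn4 a j m ha haj hj (ξ * kk n) ℓ _ hc fun S hS hM v => ?_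
  have hk0 : (0 : ℝ) ≤ kk n := Nat.cast_nonneg _
  have h4 := h1 n hn1 S hS (6 * (ξ * kk n)) (by linarith) (by
    refine le_trans ?_ (h2 n hn2)
    nlinarith [mul_le_mul_of_nonneg_right hξ hk0]) (fun x => by
      have := ltb_Et n S hS _ hM x
      linarith) v ℓ hℓ
  refine le_trans h4 (le_of_eq ?_)
  ring

theorem branch_far (C' : ℝ) (hC' : 0 < C') : ∃ C : ℝ, 0 < C ∧ ∃ n0 : ℕ, ∀ (n : ℕ) [NeZero n],
    n0 ≤ n → ∀ (a j m : ℕ), 1 ≤ a → a ≤ j → j < m →
    av (fun T : Tr n => avL (fun L => ind (MA n (spn T (L.take a)) ≤ C' * (n : ℝ) ^ 2 ∧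
      C * (n : ℝ) ^ 2 * Real.log (LL n) ≤ ((brn T (L.take a) (L.getD j 0)).length : ℝ))) m) ≤
      1 / LL n ^ 12 := by
  have hlog2 : 0 < Real.log 2 := Real.log_pos (by norm_num)
  refine ⟨6 * (4 + 2 * C') * 13 / Real.log 2, by positivity, ?_⟩
  set C : ℝ := 6 * (4 + 2 * C') * 13 / Real.log 2 with hCdef
  have hC0 : 0 < C := by positivity
  obtain ⟨n1, h1⟩ := loglog_large (max 1 (4 / C))
  obtain ⟨n2, h2⟩ := LL_large 2
  refine ⟨max (max n1 n2) 3, fun n _ hn a j m ha haj hj => ?_⟩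
  have hn1 : n1 ≤ n := le_trans (le_trans (le_max_left _ _) (le_max_left _ _)) hn
  have hn2 : n2 ≤ n := le_trans (le_trans (le_max_right _ _) (le_max_left _ _)) hn
  have hn4 : 3 ≤ n := le_trans (le_max_right _ _) hn
  have hll := h1 n hn1
  have hll1 : 1 ≤ Real.log (LL n) := le_trans (le_max_left _ _) hll
  have hll2 : 4 / C ≤ Real.log (LL n) := le_trans (le_max_right _ _) hll
  have hLL := h2 n hn2
  have hn0 : (1 : ℝ) ≤ (n : ℝ) ^ 2 := by
    have : (1 : ℝ) ≤ n := by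
      have : 1 ≤ n := by omega
      exact_mod_cast this
    nlinarith
  refine ltb_le n hn4 a j m ha haj hj (C' * (n : ℝ) ^ 2) _ _ (by positivity) fun S hS hM v => ?_
  set ℓ : ℝ := C * (n : ℝ) ^ 2 * Real.log (LL n) with hℓ
  set H : ℝ := (4 + 2 * C') * (n : ℝ) ^ 2 with hH
  have hH1 : 1 ≤ H := by nlinarith
  have hℓ4 : 4 ≤ ℓ := by
    have : 4 ≤ C * Real.log (LL n) := by
      rw [div_le_iff₀ hC0] at hll2
      linarith
    have h5 : ℓ = (C * Real.log (LL n)) * (n : ℝ) ^ 2 := by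
      rw [hℓ]
      ring
    rw [h5]
    nlinarith
  have hceil : ℓ ≤ ⌈ℓ⌉₊ := Nat.le_ceil ℓ
  have hc2 : 2 ≤ ⌈ℓ⌉₊ := by
    have : (2 : ℝ) ≤ (⌈ℓ⌉₊ : ℝ) := by linarith
    exact_mod_cast this
  have hmono : pr {ω | ℓ ≤ ((lerw (act n) v ω S).length : ℝ)} ≤
      pr {ω | ⌈ℓ⌉₊ - 2 < tau (act n) v ω S} := by
    refine measureReal_mono ?_ (measure_ne_top _ _)
    intro ω hω
    have h6 : ℓ ≤ ((lerw (act n) v ω S).length : ℝ) := hω
    have h7 : ⌈ℓ⌉₊ ≤ (lerw (act n) v ω S).length := Nat.ceil_le.mpr h6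
    have h8 : (lerw (act n) v ω S).length ≤ tau (act n) v ω S + 1 := by
      unfold lerw
      refine le_trans (le_length_le _) ?_
      rw [seg_length]
      omega
    show ⌈ℓ⌉₊ - 2 < tau (act n) v ω S
    omega
  refine le_trans hmono ?_
  have hs := survive_pr n S hS H hH1 (fun x => by
    have := ltb_Et n S hS _ hM x
    rw [hH]
    linarith) v (⌈ℓ⌉₊ - 2)
  refine le_trans hs ?_
  have ht : ℓ / 2 ≤ ((⌈ℓ⌉₊ - 2 : ℕ) : ℝ) := by
    rw [Nat.cast_sub hc2]
    push_cast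
    linarith
  have h9 : (2 : ℝ) ^ (-(((⌈ℓ⌉₊ - 2 : ℕ) : ℝ) / (3 * H))) ≤ (2 : ℝ) ^ (-((ℓ / 2) / (3 * H))) := by
    refine Real.rpow_le_rpow_of_exponent_le (by norm_num) ?_
    refine neg_le_neg ?_
    gcongr
  have h10 : (2 : ℝ) ^ (-((ℓ / 2) / (3 * H))) = 1 / LL n ^ 13 := by
    have hH0 : 0 < H := by linarith
    have e1 : (ℓ / 2) / (3 * H) = 13 * Real.log (LL n) / Real.log 2 := by
      rw [hℓ, hH, hCdef]
      have hnn : (n : ℝ) ^ 2 ≠ 0 := by positivity
      have h44 : (4 + 2 * C') ≠ 0 := by positivity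
      field_simp
      ring
    rw [e1, Real.rpow_def_of_pos (by norm_num : (0 : ℝ) < 2)]
    have e2 : Real.log 2 * -(13 * Real.log (LL n) / Real.log 2) = -(13 * Real.log (LL n)) := by
      field_simp
    rw [e2, Real.exp_neg, one_div]
    congr 1
    have : 13 * Real.log (LL n) = Real.log (LL n ^ 13) := by
      rw [Real.log_pow]
      push_cast
      ring
    rw [this, Real.exp_log (by positivity)]
  calc 2 * (2 : ℝ) ^ (-(((⌈ℓ⌉₊ - 2 : ℕ) : ℝ) / (3 * H))) ≤ 2 * (1 / LL n ^ 13) := by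
        rw [← h10]
        linarith
    _ ≤ 1 / LL n ^ 12 := by
        rw [mul_one_div, div_le_div_iff₀ (by positivity) (by positivity)]
        have : 0 < LL n ^ 12 := by positivity
        nlinarith

end Pool.Agent.UST
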