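import Pool.Agent.Helper54.UST.S2
import Pool.Agent.Helper54.UST.WStep
import Pool.Agent.Helper54.UST.Spn
import Pool.Agent.Helper54.UST.Chain

/-! Paper section 9: every vertex is close to the subtree spanned by `K_*` points. -/

namespace Pool.Agent.UST

open MeasureTheory

private theorem ltc_spn_congr {n : ℕ} {L : List (V n)} {T T' : Tr n}
    (h : ∀ v ∈ L, pth T v (L.headD 0) = pth T' v (L.headD 0)) : spn T L = spn T' L := by
  ext y
  simp only [spn, Set.mem_ofPred_eq]
  constructor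
  · rintro ⟨u, hu, hy⟩
    exact ⟨u, hu, by rw [← h u hu]; exact hy⟩
  · rintro ⟨u, hu, hy⟩
    exact ⟨u, hu, by rw [h u hu]; exact hy⟩

/-- one vertex far from a set which is hit quickly -/
private theorem ltc_one (n : ℕ) [NeZero n] (hn : 3 ≤ n) (L : List (V n)) (hL : L ≠ [])
    (P : Set (V n) → Prop) (c : ℝ) (hc : 0 ≤ c) (x : V n) (t : ℕ)
    (hP : ∀ S, P S → pr {ω | t < tau (act n) x ω S} ≤ c) :
    av (fun T : Tr n => ind (P (spn T L) ∧ ∀ y ∈ spn T L, t < dst T x y)) ≤ c := by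
  have h1 : av (fun T : Tr n => ind (P (spn T L) ∧ ∀ y ∈ spn T L, t < dst T x y)) ≤
      av (fun T : Tr n => ind (P (spn T L) ∧ t + 1 < (brn T L x).length)) := by
    refine av_mono fun T => ind_mono fun h => ⟨h.1, ?_⟩
    obtain ⟨a, ha, hd⟩ := dst_brn T hL x x (pth_mem_left T x _)
    have := h.2 a ha
    omega
  refine le_trans h1 ?_
  have h2 := wilson_step n hn L hL x
    (fun T η => ind (P (spn T L) ∧ t + 1 < η.length)) (by
      intro T T' h
      funext l
      rw [ltc_spn_congr h])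
  rw [h2]
  refine av_le hc fun T => ?_
  by_cases hM : P (spn T L)
  · have e1 : ∫ ω, ind (P (spn T L) ∧
        t + 1 < (lerw (act n) x ω (spn T L)).length) ∂(mu DD) =
        ∫ ω, ind (t + 1 < (lerw (act n) x ω (spn T L)).length) ∂(mu DD) := by
      congr 1
      funext ω
      rw [ind_and, ind_true hM, one_mul]
    have hmeas : Measurable (fun ω => (lerw (act n) x ω (spn T L)).length) :=
      measurable_tau (act n) (spn T L) x (fun t ω => (le (seg (act n) x ω 0 t)).length)
        (fun t ω ω' h => by rw [seg_congr (act n) x ω ω' 0 t h])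
    rw [e1, integral_ind (mu DD) (fun ω => t + 1 < (lerw (act n) x ω (spn T L)).length)
      (measurableSet_lt measurable_const hmeas)]
    refine le_trans ?_ (hP _ hM)
    refine measureReal_mono ?_ (measure_ne_top _ _)
    intro ω hω
    have h7 : t + 1 < (lerw (act n) x ω (spn T L)).length := hω
    have h8 : (lerw (act n) x ω (spn T L)).length ≤ tau (act n) x ω (spn T L) + 1 := by
      unfold lerw
      refine le_trans (le_length_le _) ?_
      rw [seg_length]
      omega
    show t < tau (act n) x ω (spn T L)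
    omega
  · have e1 : ∫ ω, ind (P (spn T L) ∧
        t + 1 < (lerw (act n) x ω (spn T L)).length) ∂(mu DD) = 0 := by
      have : (fun ω => ind (P (spn T L) ∧
          t + 1 < (lerw (act n) x ω (spn T L)).length)) = fun _ => (0 : ℝ) := by
        funext ω
        rw [ind_and, ind_false hM, zero_mul]
      rw [this, integral_zero]
    rw [e1]
    exact hc

theorem all_close (C' : ℝ) (hC' : 0 < C') : ∃ n0 : ℕ, ∀ (n : ℕ) [NeZero n], n0 ≤ n →
    ∀ a : ℕ, 1 ≤ a →
    av (fun T : Tr n => avL (fun L => ind (MA n (spn T (L.take a)) ≤ C' * (n : ℝ) ^ 2 ∧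
      ∃ x : V n, ∀ y ∈ spn T L, n ^ 2 < dst T x y)) (a + ⌈LL n ^ 11⌉₊)) ≤ 2 / NN n := by
  obtain ⟨n1, h1⟩ := skelS2 C' hC'
  refine ⟨max n1 3, fun n _ hn a ha => ?_⟩
  have hn1 : n1 ≤ n := le_trans (le_max_left _ _) hn
  have hn3 : 3 ≤ n := le_trans (le_max_right _ _) hn
  have hNN : 1 ≤ NN n := by
    unfold NN
    have : (1 : ℝ) ≤ n := by
      have : 1 ≤ n := by omega
      exact_mod_cast this
    exact one_le_pow₀ this
  have hNN0 : 0 < NN n := by linarith
  set K : ℕ := ⌈LL n ^ 11⌉₊ with hK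
  set Bad : Set (V n) → Prop := fun S => ∃ x, 1 / NN n ^ 3 <
      pr {ω | n ^ 2 < tau (act n) x ω S} with hBad
  have hstep : ∀ (T : Tr n) (L : List (V n)), ind (MA n (spn T (L.take a)) ≤ C' * (n : ℝ) ^ 2 ∧
      ∃ x : V n, ∀ y ∈ spn T L, n ^ 2 < dst T x y) ≤
      ind (MA n (spn T (L.take a)) ≤ C' * (n : ℝ) ^ 2) * ind (Bad (spn T L)) +
      ∑ x : V n, ind (¬ Bad (spn T L) ∧ ∀ y ∈ spn T L, n ^ 2 < dst T x y) := by
    intro T L
    have e1 : ind (MA n (spn T (L.take a)) ≤ C' * (n : ℝ) ^ 2 ∧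
        ∃ x : V n, ∀ y ∈ spn T L, n ^ 2 < dst T x y) ≤
        ind ((MA n (spn T (L.take a)) ≤ C' * (n : ℝ) ^ 2 ∧ Bad (spn T L)) ∨
          ∃ x ∈ (Finset.univ : Finset (V n)), (¬ Bad (spn T L) ∧
            ∀ y ∈ spn T L, n ^ 2 < dst T x y)) := by
      refine ind_mono ?_
      rintro ⟨h3, x, hx⟩
      by_cases hb : Bad (spn T L)
      · exact Or.inl ⟨h3, hb⟩
      · exact Or.inr ⟨x, Finset.mem_univ _, hb, hx⟩
    refine le_trans e1 (le_trans (ind_or_le _ _) ?_)
    rw [ind_and]
    exact add_le_add le_rfl (ind_exists_le _ _)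
  have hA : av (fun T : Tr n => avL (fun L => ind (MA n (spn T (L.take a)) ≤ C' * (n : ℝ) ^ 2) *
      ind (Bad (spn T L))) (a + K)) ≤ 1 / NN n := by
    have h2 := chain_law n hn3 a K ha (fun S => ind (MA n S ≤ C' * (n : ℝ) ^ 2))
      (fun S => ind (Bad S))
    rw [h2]
    refine av_le (by positivity) fun T => ?_
    rw [← avL_const n (1 / NN n) a]
    refine avL_mono n a fun L hLa => ?_
    have hL : L ≠ [] := by
      rintro rfl
      simp at hLa
      omega
    by_cases hM : MA n (spn T L) ≤ C' * (n : ℝ) ^ 2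
    · rw [ind_true hM, one_mul]
      exact h1 n hn1 (spn T L) (spn_nonempty T hL) hM
    · rw [ind_false hM, zero_mul]
      positivity
  have hB : ∀ x : V n, av (fun T : Tr n => avL (fun L =>
      ind (¬ Bad (spn T L) ∧ ∀ y ∈ spn T L, n ^ 2 < dst T x y)) (a + K)) ≤ 1 / NN n ^ 3 := by
    intro x
    rw [← avL_av, ← avL_const n (1 / NN n ^ 3) (a + K)]
    refine avL_mono n (a + K) fun L hLa => ?_
    have hL : L ≠ [] := by
      rintro rfl
      simp at hLa
      omega
    refine ltc_one n hn3 L hL (fun S => ¬ Bad S) (1 / NN n ^ 3) (by positivity) x (n ^ 2) ?_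
    intro S hS
    rw [hBad] at hS
    push Not at hS
    exact hS x
  have hcard : (Fintype.card (V n) : ℝ) = NN n := by
    rw [Fintype.card_fun, ZMod.card, Fintype.card_fin]
    unfold NN
    push_cast
    ring
  have hsum : av (fun T : Tr n => avL (fun L => ∑ x : V n,
      ind (¬ Bad (spn T L) ∧ ∀ y ∈ spn T L, n ^ 2 < dst T x y)) (a + K)) ≤ 1 / NN n := by
    have e1 : (fun T : Tr n => avL (fun L => ∑ x : V n,
        ind (¬ Bad (spn T L) ∧ ∀ y ∈ spn T L, n ^ 2 < dst T x y)) (a + K)) =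
        fun T : Tr n => ∑ x : V n, avL (fun L =>
          ind (¬ Bad (spn T L) ∧ ∀ y ∈ spn T L, n ^ 2 < dst T x y)) (a + K) := by
      funext T
      rw [avL_sum]
    rw [e1, av_sum]
    calc _ ≤ ∑ x : V n, 1 / NN n ^ 3 := Finset.sum_le_sum fun x _ => hB x
      _ = NN n * (1 / NN n ^ 3) := by
          rw [Finset.sum_const, Finset.card_univ, nsmul_eq_mul, hcard]
      _ ≤ 1 / NN n := by
          rw [mul_one_div, div_le_div_iff₀ (by positivity) hNN0]
          nlinarith [mul_pos hNN0 hNN0, mul_pos (mul_pos hNN0 hNN0) hNN0]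
  calc _ ≤ av (fun T : Tr n => avL (fun L =>
        ind (MA n (spn T (L.take a)) ≤ C' * (n : ℝ) ^ 2) * ind (Bad (spn T L)) +
        ∑ x : V n, ind (¬ Bad (spn T L) ∧ ∀ y ∈ spn T L, n ^ 2 < dst T x y)) (a + K)) :=
        av_mono fun T => avL_mono n (a + K) fun L _ => hstep T L
    _ = av (fun T : Tr n => avL (fun L => ind (MA n (spn T (L.take a)) ≤ C' * (n : ℝ) ^ 2) *
          ind (Bad (spn T L))) (a + K) + avL (fun L => ∑ x : V n,
          ind (¬ Bad (spn T L) ∧ ∀ y ∈ spn T L, n ^ 2 < dst T x y)) (a + K)) := by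
        congr 1
        funext T
        rw [avL_add_fn]
    _ ≤ 1 / NN n + 1 / NN n := by
        rw [av_add]
        exact add_le_add hA hsum
    _ = 2 / NN n := by ring

end Pool.Agent.UST
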