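import Pool.Agent.Helper54.UST.S1
import Pool.Agent.Helper54.UST.LTa
import Pool.Agent.Helper54.UST.LTb
import Pool.Agent.Helper54.UST.LTc
import Pool.Agent.Helper54.UST.Asy

/-! Paper Proposition LT (leaf tightness). -/

namespace Pool.Agent.UST

open MeasureTheory

section ltaux

theorem lt_geom (i : ℕ) : ((i : ℝ) + 2) * (500 / 729) ^ i ≤ 4 * (9 / 10) ^ i := by
  have h1 : (1 : ℝ) + (i : ℝ) * (1561 / 5000) ≤ (6561 / 5000) ^ i := by
    have h := one_add_mul_le_pow (a := (1561 / 5000 : ℝ)) (by norm_num) i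
    have e : (1 : ℝ) + 1561 / 5000 = 6561 / 5000 := by norm_num
    rw [e] at h
    linarith
  have h2 : ((9 : ℝ) / 10) ^ i = (6561 / 5000) ^ i * (500 / 729) ^ i := by
    rw [← mul_pow]
    norm_num
  have h3 : (0 : ℝ) < (500 / 729) ^ i := by positivity
  have h4 : (0 : ℝ) ≤ i := Nat.cast_nonneg i
  rw [h2, ← mul_assoc]
  refine mul_le_mul_of_nonneg_right ?_ h3.le
  nlinarith

theorem lt_geom_sum (i1 m : ℕ) :
    ∑ i ∈ Finset.range m, ((9 : ℝ) / 10) ^ (i1 + i) ≤ 10 * (9 / 10) ^ i1 := by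
  have h : ∀ m : ℕ, ∑ i ∈ Finset.range m, ((9 : ℝ) / 10) ^ i ≤ 10 - 10 * (9 / 10) ^ m := by
    intro m
    induction m with
    | zero => simp
    | succ m ih =>
      rw [Finset.sum_range_succ, pow_succ]
      nlinarith
  have h1 := h m
  simp only [pow_add]
  rw [← Finset.mul_sum]
  have h2 : (0 : ℝ) ≤ (9 / 10) ^ i1 := by positivity
  have h3 : (0 : ℝ) ≤ (9 / 10) ^ m := by positivity
  nlinarith

theorem lt_Kl_le (C : ℝ) (hC : 1 ≤ C) (i : ℕ) :
    (Kl C (i + 1) : ℝ) ≤ 8 * C * ((i : ℝ) + 2) * 4 ^ i := by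
  have h1 : (Kl C (i + 1) : ℝ) < C * (((i + 1 : ℕ) : ℝ) + 1) * 4 ^ (i + 1) + 1 := by
    unfold Kl
    apply Nat.ceil_lt_add_one
    positivity
  have h2 : (1 : ℝ) ≤ C * (((i + 1 : ℕ) : ℝ) + 1) * 4 ^ (i + 1) := by
    have h3 : (1 : ℝ) ≤ 4 ^ (i + 1) := one_le_pow₀ (by norm_num)
    have h4 : (1 : ℝ) ≤ ((i + 1 : ℕ) : ℝ) + 1 := by
      have : (0 : ℝ) ≤ ((i + 1 : ℕ) : ℝ) := Nat.cast_nonneg _
      linarith
    have h5 : (1 : ℝ) ≤ C * (((i + 1 : ℕ) : ℝ) + 1) := one_le_mul_of_one_le_of_one_le hC h4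
    exact one_le_mul_of_one_le_of_one_le h5 h3
  have h6 : 8 * C * ((i : ℝ) + 2) * 4 ^ i = 2 * (C * (((i + 1 : ℕ) : ℝ) + 1) * 4 ^ (i + 1)) := by
    push_cast
    ring
  rw [h6]
  linarith

/-- the deterministic part -/
theorem lt_det {n : ℕ} [NeZero n] (T : Tr n) (L : List (V n)) (C B C2 C'' ε1 : ℝ) (hC : 1 ≤ C)
    (i1 im M : ℕ) (hi : i1 ≤ im) (hM : Kl C im + 1 ≤ M) (hL : L.length = M)
    (hξ : B / 2 ^ im * kk n ≤ C'' * (n : ℝ) ^ 2)
    (h0 : ∀ i, i ≤ im → MA n (spn T (L.take (Kl C i + 1))) ≤ B / 2 ^ i * kk n)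
    (h1 : ∀ i, i1 ≤ i → i < im → ∀ j, Kl C i + 1 ≤ j → j < Kl C (i + 1) + 1 →
      ¬ (MA n (spn T (L.take (Kl C i + 1))) ≤ B / 2 ^ i * kk n ∧
        (9 / 10) ^ i * rr n ≤ ((brn T (L.take (Kl C i + 1)) (L.getD j 0)).length : ℝ)))
    (h2 : ∀ j, Kl C im + 1 ≤ j → j < M →
      ¬ (MA n (spn T (L.take (Kl C im + 1))) ≤ C'' * (n : ℝ) ^ 2 ∧
        C2 * (n : ℝ) ^ 2 * Real.log (LL n) ≤
          ((brn T (L.take (Kl C im + 1)) (L.getD j 0)).length : ℝ)))
    (h3 : ¬ (MA n (spn T (L.take (Kl C im + 1))) ≤ C'' * (n : ℝ) ^ 2 ∧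
      ∃ x : V n, ∀ y ∈ spn T L, n ^ 2 < dst T x y))
    (hr : 0 ≤ rr n)
    (h4 : 10 * (9 / 10) ^ i1 ≤ ε1 / 4)
    (h5 : 4 * C2 / ε1 * (n : ℝ) ^ 2 * Real.log (LL n) ≤ rr n)
    (h6 : 8 / ε1 * (n : ℝ) ^ 2 ≤ rr n) (hε1 : 0 < ε1)
    (h7 : 0 ≤ C2 * (n : ℝ) ^ 2 * Real.log (LL n)) (x : V n) :
    ∃ y ∈ spn T (L.take (Kl C i1 + 1)), (dst T x y : ℝ) ≤ ε1 * rr n := by
  have hMA : MA n (spn T (L.take (Kl C im + 1))) ≤ C'' * (n : ℝ) ^ 2 := (h0 im le_rfl).trans hξ
  obtain ⟨y, hy, hxy⟩ : ∃ y ∈ spn T L, dst T x y ≤ n ^ 2 := by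
    by_contra hcon
    push Not at hcon
    exact h3 ⟨hMA, x, hcon⟩
  set q := im - i1 with hq
  set a : ℕ → ℕ := fun i => if i ≤ q then Kl C (i1 + i) + 1 else M with hadef
  set ℓ : ℕ → ℕ := fun i => if i < q then ⌊(9 / 10 : ℝ) ^ (i1 + i) * rr n⌋₊ else
    ⌊C2 * (n : ℝ) ^ 2 * Real.log (LL n)⌋₊ with hℓdef
  have ha0 : a 0 = Kl C i1 + 1 := by simp [hadef]
  have hale : ∀ i, i ≤ q → a i = Kl C (i1 + i) + 1 := fun i hi => by simp [hadef, hi]
  have hagt : ∀ i, q < i → a i = M := fun i hi => by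
    simp only [hadef]
    rw [if_neg (by omega)]
  have hmono : ∀ i, a i ≤ a (i + 1) := by
    intro i
    rcases lt_trichotomy i q with h | h | h
    · rw [hale i h.le, hale (i + 1) h]
      have := s1_Kl_le_succ C hC (i1 + i)
      rw [← Nat.add_assoc]
      omega
    · rw [hale i h.le, hagt (i + 1) (by omega), h, show i1 + q = im by omega]
      exact hM
    · rw [hagt i h, hagt (i + 1) (by omega)]
  have hlast : a (q + 1) = M := hagt _ (by omega)
  have hchain := chain_dist T L a ℓ (q + 1) (by rw [ha0]; omega) hmono (by rw [hlast, hL]) ?_ y ?_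
  · obtain ⟨s, hs, hys⟩ := hchain
    rw [ha0] at hs
    refine ⟨s, hs, ?_⟩
    have htri := dst_triangle T x y s
    have hsum : ((∑ i ∈ Finset.range (q + 1), ℓ i : ℕ) : ℝ) ≤
        10 * (9 / 10) ^ i1 * rr n + C2 * (n : ℝ) ^ 2 * Real.log (LL n) := by
      rw [Finset.sum_range_succ, Nat.cast_add, Nat.cast_sum]
      apply add_le_add
      · have h8 : ∀ i ∈ Finset.range q, (ℓ i : ℝ) ≤ (9 / 10) ^ (i1 + i) * rr n := by
          intro i hi
          rw [Finset.mem_range] at hi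
          simp only [hℓdef]
          rw [if_pos hi]
          exact Nat.floor_le (by positivity)
        refine (Finset.sum_le_sum h8).trans ?_
        rw [← Finset.sum_mul]
        exact mul_le_mul_of_nonneg_right (lt_geom_sum i1 q) hr
      · simp only [hℓdef]
        rw [if_neg (lt_irrefl q)]
        exact Nat.floor_le h7
    have h9 : (dst T x s : ℝ) ≤ (dst T x y : ℝ) + (dst T y s : ℝ) := by exact_mod_cast htri
    have h10 : (dst T x y : ℝ) ≤ (n : ℝ) ^ 2 := by exact_mod_cast hxy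
    have h11 : (dst T y s : ℝ) ≤ ((∑ i ∈ Finset.range (q + 1), ℓ i : ℕ) : ℝ) := by
      exact_mod_cast hys
    have h12 : 10 * (9 / 10) ^ i1 * rr n ≤ ε1 / 4 * rr n := mul_le_mul_of_nonneg_right h4 hr
    have h13 : C2 * (n : ℝ) ^ 2 * Real.log (LL n) ≤ ε1 / 4 * rr n := by
      have := mul_le_mul_of_nonneg_left h5 (show 0 ≤ ε1 / 4 by positivity)
      have e : ε1 / 4 * (4 * C2 / ε1 * (n : ℝ) ^ 2 * Real.log (LL n)) =
          C2 * (n : ℝ) ^ 2 * Real.log (LL n) := by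
        field_simp
      linarith
    have h14 : (n : ℝ) ^ 2 ≤ ε1 / 8 * rr n := by
      have := mul_le_mul_of_nonneg_left h6 (show 0 ≤ ε1 / 8 by positivity)
      have e : ε1 / 8 * (8 / ε1 * (n : ℝ) ^ 2) = (n : ℝ) ^ 2 := by
        field_simp
      linarith
    have h15 : 0 ≤ ε1 * rr n := mul_nonneg hε1.le hr
    linarith
  · intro i hi j hj1 hj2
    rcases Nat.lt_succ_iff_lt_or_eq.1 hi with h | h
    · rw [hale i h.le] at hj1
      rw [hale (i + 1) h, ← Nat.add_assoc] at hj2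
      have h8 := h1 (i1 + i) (by omega) (by omega) j hj1 hj2
      rw [hale i h.le]
      have h9 : ((brn T (L.take (Kl C (i1 + i) + 1)) (L.getD j 0)).length : ℝ) <
          (9 / 10) ^ (i1 + i) * rr n := by
        by_contra hcon
        push Not at hcon
        exact h8 ⟨h0 _ (by omega), hcon⟩
      have h10 : (brn T (L.take (Kl C (i1 + i) + 1)) (L.getD j 0)).length ≤ ℓ i := by
        simp only [hℓdef]
        rw [if_pos h]
        exact Nat.le_floor h9.le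
      omega
    · subst h
      rw [hale q le_rfl, show i1 + q = im by omega] at hj1
      rw [hlast] at hj2
      have h8 := h2 j hj1 hj2
      rw [hale q le_rfl, show i1 + q = im by omega]
      have h9 : ((brn T (L.take (Kl C im + 1)) (L.getD j 0)).length : ℝ) <
          C2 * (n : ℝ) ^ 2 * Real.log (LL n) := by
        by_contra hcon
        push Not at hcon
        exact h8 ⟨hMA, hcon⟩
      have h10 : (brn T (L.take (Kl C im + 1)) (L.getD j 0)).length ≤ ℓ q := by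
        simp only [hℓdef]
        rw [if_neg (lt_irrefl q)]
        exact Nat.le_floor h9.le
      omega
  · rw [hlast, ← hL, List.take_length]
    exact hy

theorem lt_im (B C' K N2 : ℝ) (hK : 0 ≤ K) (hB : 0 < B) (hN : 0 < C' * N2) (i1 : ℕ)
    (h : C' * N2 ≤ B / 2 ^ i1 * K) :
    ∃ im, i1 ≤ im ∧ C' * N2 ≤ B / 2 ^ im * K ∧ B / 2 ^ (im + 1) * K < C' * N2 := by
  classical
  have hex : ∃ i, B / 2 ^ i * K < C' * N2 := by
    obtain ⟨i, hi⟩ := pow_unbounded_of_one_lt (B * K / (C' * N2)) (by norm_num : (1 : ℝ) < 2)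
    refine ⟨i, ?_⟩
    rw [div_lt_iff₀ hN] at hi
    rw [div_mul_eq_mul_div, div_lt_iff₀ (by positivity)]
    linarith
  have hspec := Nat.find_spec hex
  have hlt : i1 < Nat.find hex := by
    by_contra hcon
    push Not at hcon
    have h1 : B / 2 ^ i1 * K ≤ B / 2 ^ (Nat.find hex) * K := by
      apply mul_le_mul_of_nonneg_right _ hK
      apply div_le_div_of_nonneg_left hB.le (by positivity)
      exact pow_le_pow_right₀ (by norm_num) hcon
    linarith
  refine ⟨Nat.find hex - 1, by omega, ?_, ?_⟩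
  · have := Nat.find_min hex (m := Nat.find hex - 1) (by omega)
    exact not_lt.1 this
  · rw [Nat.sub_add_cancel (by omega)]
    exact hspec

end ltaux

theorem leafTight (ε ε1 : ℝ) (hε : 0 < ε) (hε1 : 0 < ε1) : ∃ K : ℕ, 1 ≤ K ∧ ∃ n0 : ℕ,
    ∀ (n : ℕ) [NeZero n], n0 ≤ n →
    av (fun T : Tr n => avL (fun L => ind (∃ x : V n, ∀ y ∈ spn T L, ε1 * rr n < dst T x y))
      (K + 1)) ≤ ε := by
  obtain ⟨B, hB, C, hC, C', hC', n1, hn1⟩ := skeleton (ε / 4) (by positivity)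
  obtain ⟨C1, hC1, hbt⟩ := branch_tail
  obtain ⟨n2, hn2⟩ := hbt B (by linarith)
  obtain ⟨C2, hC2, n3, hn3⟩ := branch_far (2 * C') (by linarith)
  obtain ⟨n4, hn4⟩ := all_close (2 * C') (by linarith)
  have hB0 : 0 < B := by linarith
  set D : ℝ := 64 * C * C1 * B ^ 3 with hD
  have hDpos : 0 < D := by positivity
  obtain ⟨i1, hi1⟩ := exists_pow_lt_of_lt_one
    (show 0 < min (ε / (160 * D)) (ε1 / 40) by positivity) (show (9 / 10 : ℝ) < 1 by norm_num)
  have hi1a : 40 * D * (9 / 10) ^ i1 ≤ ε / 4 := by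
    have h := (hi1.trans_le (min_le_left _ _)).le
    rw [le_div_iff₀ (by positivity)] at h
    linarith
  have hi1b : 10 * (9 / 10 : ℝ) ^ i1 ≤ ε1 / 4 := by
    have h := (hi1.trans_le (min_le_right _ _)).le
    linarith
  obtain ⟨n5, hn5⟩ := sq_le_kk C' (B / 2 ^ i1) (by positivity)
  obtain ⟨n6, hn6⟩ := rr_kk
  obtain ⟨n7, hn7⟩ := rr_large (4 * C2 / ε1)
  obtain ⟨n8, hn8⟩ := rr_large (8 / ε1)
  obtain ⟨n9, hn9⟩ := LL_large (max 1 (16 / ε))
  obtain ⟨n10, hn10⟩ := loglog_large 0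
  refine ⟨Kl C i1, s1_one_le_Kl C hC i1, max (max (max (max n1 n2) (max n3 n4))
    (max (max n5 n6) (max n7 n8))) (max (max n9 n10) (⌈16 / ε⌉₊ + 1)), ?_⟩
  intro n _ hn
  simp only [max_le_iff] at hn
  obtain ⟨⟨⟨⟨g1, g2⟩, g3, g4⟩, ⟨g5, g6⟩, g7, g8⟩, ⟨g9, g10⟩, g11⟩ := hn
  have hnpos : 0 < n := Nat.pos_of_ne_zero (NeZero.ne n)
  have hn1R : (1 : ℝ) ≤ n := by exact_mod_cast hnpos
  have hkk : (0 : ℝ) ≤ kk n := Nat.cast_nonneg _
  have hLL := hn9 n g9
  have hLL1 : 1 ≤ LL n := (le_max_left _ _).trans hLL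
  have hLL2 : 16 / ε ≤ LL n := (le_max_right _ _).trans hLL
  have hLLpos : 0 < LL n := by linarith
  have hlog : 0 ≤ Real.log (LL n) := hn10 n g10
  have hrr : 0 < rr n := by
    unfold rr
    have : 0 < LL n ^ ((1 : ℝ) / 6) := Real.rpow_pos_of_pos hLLpos _
    positivity
  obtain ⟨im, him1, him2, him3⟩ := lt_im B C' (kk n) ((n : ℝ) ^ 2) hkk hB0 (by positivity) i1
    (hn5 n g5)
  have hξ : B / 2 ^ im * kk n ≤ 2 * C' * (n : ℝ) ^ 2 := by
    have e : B / 2 ^ im * (kk n : ℝ) = 2 * (B / 2 ^ (im + 1) * kk n) := by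
      rw [pow_succ]
      field_simp
    rw [e]
    linarith
  set M : ℕ := Kl C im + 1 + ⌈LL n ^ 11⌉₊ with hMdef
  have hKmono := s1_Kl_mono C hC
  obtain ⟨b, hb⟩ := Nat.exists_eq_add_of_le (show Kl C i1 + 1 ≤ M by
    have := hKmono him1
    omega)
  -- marginal
  have hmarg : ∀ T : Tr n,
      avL (fun L => ind (∃ x : V n, ∀ y ∈ spn T L, ε1 * rr n < dst T x y)) (Kl C i1 + 1) =
      avL (fun L => ind (∃ x : V n, ∀ y ∈ spn T (L.take (Kl C i1 + 1)),
        ε1 * rr n < dst T x y)) M := by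
    intro T
    rw [hb]
    exact (avL_take n (fun L => ind (∃ x : V n, ∀ y ∈ spn T L, ε1 * rr n < dst T x y))
      (Kl C i1 + 1) b).symm
  simp only [hmarg]
  -- union bound
  have hU : av (fun T : Tr n => avL (fun L => ind (∃ x : V n,
      ∀ y ∈ spn T (L.take (Kl C i1 + 1)), ε1 * rr n < dst T x y)) M) ≤
      av (fun T : Tr n => avL (fun L => (fun L => ind (∃ i, i ≤ im ∧ B / 2 ^ i * kk n <
        MA n (spn T (L.take (Kl C i + 1))))) (L.take (Kl C im + 1))) M) +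
      (∑ i ∈ Finset.range (im - i1), ∑ j ∈ Finset.Ico (Kl C (i1 + i) + 1) (Kl C (i1 + i + 1) + 1),
        av (fun T : Tr n => avL (fun L =>
          ind (MA n (spn T (L.take (Kl C (i1 + i) + 1))) ≤ B / 2 ^ (i1 + i) * kk n ∧
          (9 / 10) ^ (i1 + i) * rr n ≤
            ((brn T (L.take (Kl C (i1 + i) + 1)) (L.getD j 0)).length : ℝ))) M) +
      (∑ j ∈ Finset.Ico (Kl C im + 1) M, av (fun T : Tr n => avL (fun L =>
        ind (MA n (spn T (L.take (Kl C im + 1))) ≤ 2 * C' * (n : ℝ) ^ 2 ∧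
        C2 * (n : ℝ) ^ 2 * Real.log (LL n) ≤
          ((brn T (L.take (Kl C im + 1)) (L.getD j 0)).length : ℝ))) M) +
      av (fun T : Tr n => avL (fun L =>
        ind (MA n (spn T (L.take (Kl C im + 1))) ≤ 2 * C' * (n : ℝ) ^ 2 ∧
          ∃ x : V n, ∀ y ∈ spn T L, n ^ 2 < dst T x y)) M))) := by
    simp only [← av_sum, ← av_add]
    refine av_mono fun T => ?_
    simp only [← avL_sum, ← avL_add_fn]
    apply avL_mono
    intro L hL
    refine le_trans (b := ind ((∃ i, i ≤ im ∧ B / 2 ^ i * kk n <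
        MA n (spn T ((L.take (Kl C im + 1)).take (Kl C i + 1)))) ∨
        (∃ i ∈ Finset.range (im - i1),
          ∃ j ∈ Finset.Ico (Kl C (i1 + i) + 1) (Kl C (i1 + i + 1) + 1),
          (MA n (spn T (L.take (Kl C (i1 + i) + 1))) ≤ B / 2 ^ (i1 + i) * kk n ∧
          (9 / 10) ^ (i1 + i) * rr n ≤
            ((brn T (L.take (Kl C (i1 + i) + 1)) (L.getD j 0)).length : ℝ))) ∨
        (∃ j ∈ Finset.Ico (Kl C im + 1) M,
          (MA n (spn T (L.take (Kl C im + 1))) ≤ 2 * C' * (n : ℝ) ^ 2 ∧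
          C2 * (n : ℝ) ^ 2 * Real.log (LL n) ≤
          ((brn T (L.take (Kl C im + 1)) (L.getD j 0)).length : ℝ))) ∨
        (MA n (spn T (L.take (Kl C im + 1))) ≤ 2 * C' * (n : ℝ) ^ 2 ∧
          ∃ x : V n, ∀ y ∈ spn T L, n ^ 2 < dst T x y))) ?_ ?_
    · apply ind_mono
      rintro ⟨x, hx⟩
      by_contra hcon
      simp only [not_or] at hcon
      obtain ⟨c0, c1, c2, c3⟩ := hcon
      obtain ⟨y, hy, hxy⟩ := lt_det T L C B C2 (2 * C') ε1 hC i1 im M him1 (by omega) hL hξ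
        (fun i hi => by
          by_contra hc
          push Not at hc
          refine c0 ⟨i, hi, ?_⟩
          rw [List.take_take, min_eq_left (by have := hKmono hi; omega)]
          exact hc)
        (fun i hi hi' j hj hj' hc => by
          refine c1 ⟨i - i1, Finset.mem_range.2 (by omega), j, ?_, ?_⟩
          · rw [show i1 + (i - i1) = i by omega]
            exact Finset.mem_Ico.2 ⟨hj, hj'⟩
          · rw [show i1 + (i - i1) = i by omega]
            exact hc)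
        (fun j hj hj' hc => c2 ⟨j, Finset.mem_Ico.2 ⟨hj, hj'⟩, hc⟩) c3 hrr.le hi1b
        (hn7 n g7).1 (hn8 n g8).2.1 hε1 (by positivity) x
      exact absurd (hx y hy) (not_lt.2 hxy)
    · refine (ind_or_le _ _).trans (add_le_add le_rfl ?_)
      refine (ind_or_le _ _).trans (add_le_add ?_ ?_)
      · refine (ind_exists_le _ _).trans (Finset.sum_le_sum fun i _ => ?_)
        exact ind_exists_le _ _
      · refine (ind_or_le _ _).trans (add_le_add ?_ le_rfl)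
        exact ind_exists_le _ _
  refine hU.trans ?_
  -- the four terms
  have hT1 : av (fun T : Tr n => avL (fun L => (fun L => ind (∃ i, i ≤ im ∧ B / 2 ^ i * kk n <
        MA n (spn T (L.take (Kl C i + 1))))) (L.take (Kl C im + 1))) M) ≤ ε / 4 := by
    have h := hn1 n g1 im him2
    refine le_trans (le_of_eq ?_) h
    congr 1
    funext T
    exact avL_take n (fun L => ind (∃ i, i ≤ im ∧ B / 2 ^ i * kk n <
        MA n (spn T (L.take (Kl C i + 1))))) (Kl C im + 1) ⌈LL n ^ 11⌉₊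
  have hT4 : av (fun T : Tr n => avL (fun L =>
        ind (MA n (spn T (L.take (Kl C im + 1))) ≤ 2 * C' * (n : ℝ) ^ 2 ∧
          ∃ x : V n, ∀ y ∈ spn T L, n ^ 2 < dst T x y)) M) ≤ ε / 8 := by
    refine (hn4 n g4 (Kl C im + 1) (by omega)).trans ?_
    have h1 : 16 / ε ≤ n := by
      have h2 : 16 / ε ≤ (⌈16 / ε⌉₊ : ℝ) := Nat.le_ceil _
      have h3 : ((⌈16 / ε⌉₊ + 1 : ℕ) : ℝ) ≤ n := by exact_mod_cast g11
      push_cast at h3
      linarith
    have h4 : (n : ℝ) ≤ NN n := by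
      unfold NN
      calc (n : ℝ) = (n : ℝ) ^ 1 := (pow_one _).symm
        _ ≤ (n : ℝ) ^ 4 := pow_le_pow_right₀ hn1R (by norm_num)
    have h5 : 16 / ε ≤ NN n := h1.trans h4
    have h6 : 0 < NN n := lt_of_lt_of_le (by positivity) h5
    rw [div_le_iff₀ hε] at h5
    rw [div_le_iff₀ h6]
    linarith
  have hT3 : ∑ j ∈ Finset.Ico (Kl C im + 1) M, av (fun T : Tr n => avL (fun L =>
        ind (MA n (spn T (L.take (Kl C im + 1))) ≤ 2 * C' * (n : ℝ) ^ 2 ∧
        C2 * (n : ℝ) ^ 2 * Real.log (LL n) ≤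
          ((brn T (L.take (Kl C im + 1)) (L.getD j 0)).length : ℝ))) M) ≤ ε / 8 := by
    have h1 : ∀ j ∈ Finset.Ico (Kl C im + 1) M, av (fun T : Tr n => avL (fun L =>
        ind (MA n (spn T (L.take (Kl C im + 1))) ≤ 2 * C' * (n : ℝ) ^ 2 ∧
        C2 * (n : ℝ) ^ 2 * Real.log (LL n) ≤
          ((brn T (L.take (Kl C im + 1)) (L.getD j 0)).length : ℝ))) M) ≤ 1 / LL n ^ 12 := by
      intro j hj
      rw [Finset.mem_Ico] at hj
      exact hn3 n g3 (Kl C im + 1) j M (by omega) hj.1 hj.2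
    refine (Finset.sum_le_sum h1).trans ?_
    rw [Finset.sum_const, Nat.card_Ico, nsmul_eq_mul,
      show M - (Kl C im + 1) = ⌈LL n ^ 11⌉₊ by omega]
    have h2 : (⌈LL n ^ 11⌉₊ : ℝ) ≤ 2 * LL n ^ 11 := by
      have h3 : (⌈LL n ^ 11⌉₊ : ℝ) < LL n ^ 11 + 1 := Nat.ceil_lt_add_one (by positivity)
      have h4 : 1 ≤ LL n ^ 11 := one_le_pow₀ hLL1
      linarith
    calc (⌈LL n ^ 11⌉₊ : ℝ) * (1 / LL n ^ 12) ≤ 2 * LL n ^ 11 * (1 / LL n ^ 12) :=
          mul_le_mul_of_nonneg_right h2 (by positivity)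
      _ = 2 / LL n := by
          field_simp
      _ ≤ ε / 8 := by
          rw [div_le_iff₀ hε] at hLL2
          rw [div_le_iff₀ hLLpos]
          linarith
  have hT2 : ∑ i ∈ Finset.range (im - i1),
      ∑ j ∈ Finset.Ico (Kl C (i1 + i) + 1) (Kl C (i1 + i + 1) + 1),
        av (fun T : Tr n => avL (fun L =>
          ind (MA n (spn T (L.take (Kl C (i1 + i) + 1))) ≤ B / 2 ^ (i1 + i) * kk n ∧
          (9 / 10) ^ (i1 + i) * rr n ≤
            ((brn T (L.take (Kl C (i1 + i) + 1)) (L.getD j 0)).length : ℝ))) M) ≤ ε / 4 := by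
    have hkr : (kk n : ℝ) ^ 3 ≤ 8 * rr n ^ 3 * LL n := by
      have h1 := (hn6 n g6).2
      have h2 : (kk n : ℝ) ^ 3 ≤ (2 * (rr n * LL n ^ ((1 : ℝ) / 3))) ^ 3 :=
        pow_le_pow_left₀ hkk h1 3
      have h3 : (LL n ^ ((1 : ℝ) / 3)) ^ 3 = LL n := by
        rw [← Real.rpow_natCast, ← Real.rpow_mul hLLpos.le]
        norm_num
      calc (kk n : ℝ) ^ 3 ≤ (2 * (rr n * LL n ^ ((1 : ℝ) / 3))) ^ 3 := h2
        _ = 8 * rr n ^ 3 * (LL n ^ ((1 : ℝ) / 3)) ^ 3 := by ring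
        _ = 8 * rr n ^ 3 * LL n := by rw [h3]
    have hlev : ∀ i ∈ Finset.range (im - i1),
        ∑ j ∈ Finset.Ico (Kl C (i1 + i) + 1) (Kl C (i1 + i + 1) + 1),
        av (fun T : Tr n => avL (fun L =>
          ind (MA n (spn T (L.take (Kl C (i1 + i) + 1))) ≤ B / 2 ^ (i1 + i) * kk n ∧
          (9 / 10) ^ (i1 + i) * rr n ≤
            ((brn T (L.take (Kl C (i1 + i) + 1)) (L.getD j 0)).length : ℝ))) M) ≤
        4 * D * (9 / 10) ^ (i1 + i) := by
      intro i hi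
      rw [Finset.mem_range] at hi
      set i' := i1 + i with hi'
      have h1 : ∀ j ∈ Finset.Ico (Kl C i' + 1) (Kl C (i' + 1) + 1),
          av (fun T : Tr n => avL (fun L =>
          ind (MA n (spn T (L.take (Kl C i' + 1))) ≤ B / 2 ^ i' * kk n ∧
          (9 / 10) ^ i' * rr n ≤
            ((brn T (L.take (Kl C i' + 1)) (L.getD j 0)).length : ℝ))) M) ≤
          8 * C1 * B ^ 3 * ((1 / 8) * (1000 / 729)) ^ i' := by
        intro j hj
        rw [Finset.mem_Ico] at hj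
        have hjM : j < M := by
          have h2 : Kl C (i' + 1) ≤ Kl C im := hKmono (by omega)
          have h3 : 0 < ⌈LL n ^ 11⌉₊ := Nat.ceil_pos.2 (by positivity)
          omega
        have hξi : (n : ℝ) ^ 2 ≤ B / 2 ^ i' * kk n := by
          have h2 : B / 2 ^ im * kk n ≤ B / 2 ^ i' * kk n := by
            apply mul_le_mul_of_nonneg_right _ hkk
            apply div_le_div_of_nonneg_left hB0.le (by positivity)
            exact pow_le_pow_right₀ (by norm_num) (by omega)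
          have h3 : (n : ℝ) ^ 2 ≤ C' * (n : ℝ) ^ 2 := by
            have : (0 : ℝ) ≤ (n : ℝ) ^ 2 := by positivity
            nlinarith
          linarith
        have hξB : B / 2 ^ i' ≤ B := div_le_self hB0.le (one_le_pow₀ (by norm_num))
        refine (hn2 n g2 (B / 2 ^ i') hξB hξi (Kl C i' + 1) j M (by omega) hj.1 hjM
          ((9 / 10) ^ i' * rr n) (by positivity)).trans ?_
        rw [div_le_iff₀ (by positivity)]
        have h4 : (B / 2 ^ i' * (kk n : ℝ)) ^ 3 ≤ (B / 2 ^ i') ^ 3 * (8 * rr n ^ 3 * LL n) := by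
          rw [mul_pow]
          exact mul_le_mul_of_nonneg_left hkr (by positivity)
        have h5 : (1 / 8 * (1000 / 729) : ℝ) ^ i' * ((9 / 10) ^ i') ^ 3 = (1 / 2 ^ i') ^ 3 := by
          rw [← pow_mul, mul_comm i' 3, pow_mul, ← mul_pow, div_pow 1 (2 ^ i') 3, ← pow_mul,
            mul_comm i' 3, pow_mul]
          norm_num
          rw [one_div, inv_pow]
        calc C1 * (B / 2 ^ i' * (kk n : ℝ)) ^ 3
            ≤ C1 * ((B / 2 ^ i') ^ 3 * (8 * rr n ^ 3 * LL n)) :=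
              mul_le_mul_of_nonneg_left h4 hC1.le
          _ = 8 * C1 * B ^ 3 * (1 / 2 ^ i') ^ 3 * (rr n ^ 3 * LL n) := by
              field_simp
          _ = 8 * C1 * B ^ 3 * (1 / 8 * (1000 / 729)) ^ i' *
              (LL n * ((9 / 10) ^ i' * rr n) ^ 3) := by
              rw [← h5]
              ring
      refine (Finset.sum_le_sum h1).trans ?_
      rw [Finset.sum_const, Nat.card_Ico, nsmul_eq_mul]
      have h2 : ((Kl C (i' + 1) + 1 - (Kl C i' + 1) : ℕ) : ℝ) ≤ 8 * C * ((i' : ℝ) + 2) * 4 ^ i' := by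
        refine le_trans ?_ (lt_Kl_le C hC i')
        exact_mod_cast (show Kl C (i' + 1) + 1 - (Kl C i' + 1) ≤ Kl C (i' + 1) by omega)
      calc ((Kl C (i' + 1) + 1 - (Kl C i' + 1) : ℕ) : ℝ) *
            (8 * C1 * B ^ 3 * (1 / 8 * (1000 / 729)) ^ i')
          ≤ 8 * C * ((i' : ℝ) + 2) * 4 ^ i' * (8 * C1 * B ^ 3 * (1 / 8 * (1000 / 729)) ^ i') :=
            mul_le_mul_of_nonneg_right h2 (by positivity)
        _ = D * (((i' : ℝ) + 2) * (500 / 729) ^ i') := by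
            have e : (500 / 729 : ℝ) ^ i' = 4 ^ i' * (1 / 8 * (1000 / 729)) ^ i' := by
              rw [← mul_pow]
              norm_num
            rw [e, hD]
            ring
        _ ≤ D * (4 * (9 / 10) ^ i') := mul_le_mul_of_nonneg_left (lt_geom i') hDpos.le
        _ = 4 * D * (9 / 10) ^ i' := by ring
    refine (Finset.sum_le_sum hlev).trans ?_
    rw [← Finset.mul_sum]
    have h3 := mul_le_mul_of_nonneg_left (lt_geom_sum i1 (im - i1))
      (show 0 ≤ 4 * D by positivity)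
    linarith
  linarith

end Pool.Agent.UST
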