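import Pool.Agent.Helper54.UST.LemU2

/-! Paper Lemma U', for one walk (by reversal of the first piece). -/

namespace Pool.Agent.UST

open MeasureTheory

section lemU1aux

/-- extension of a finite sequence of choices -/
private def u1ext {m : ℕ} (a : Fin m → DD) : ℕ → DD :=
  fun i => if h : i < m then a ⟨i, h⟩ else (false, 0, false)

private theorem u1ext_of_lt {m : ℕ} (a : Fin m → DD) {i : ℕ} (h : i < m) :
    u1ext a i = a ⟨i, h⟩ := by simp [u1ext, h]

/-- functions of finitely many choices of two walks are measurable -/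
private theorem u1_measurable {α : Type} [MeasurableSpace α] (t t' : ℕ)
    (f : (ℕ → DD) × (ℕ → DD) → α)
    (hf : ∀ p p' : (ℕ → DD) × (ℕ → DD), (∀ i, i < t → p.1 i = p'.1 i) →
      (∀ i, i < t' → p.2 i = p'.2 i) → f p = f p') : Measurable f := by
  have h1 : f = (fun q : (Fin t → DD) × (Fin t' → DD) => f (u1ext q.1, u1ext q.2)) ∘
      (fun p : (ℕ → DD) × (ℕ → DD) => ((fun i : Fin t => p.1 i), (fun i : Fin t' => p.2 i))) := by
    funext p
    refine hf _ _ (fun i hi => ?_) (fun i hi => ?_)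
    · exact (u1ext_of_lt (fun i : Fin t => p.1 i) hi).symm
    · exact (u1ext_of_lt (fun i : Fin t' => p.2 i) hi).symm
  rw [h1]
  refine Measurable.of_discrete.comp ?_
  refine Measurable.prodMk ?_ ?_
  · exact measurable_pi_iff.2 fun i => (measurable_pi_apply _).comp measurable_fst
  · exact measurable_pi_iff.2 fun i => (measurable_pi_apply _).comp measurable_snd

private theorem u1_ind_congr {P Q : Prop} (h : P ↔ Q) : ind P = ind Q := by
  rw [propext h]

private theorem u1_ind_abs (P : Prop) : |ind P| ≤ 1 := by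
  unfold ind
  split_ifs <;> simp

private theorem u1_pr {S : Set (ℕ → DD)} (hS : MeasurableSet S) :
    pr S = ∫ ω, ind (ω ∈ S) ∂(mu DD) := by
  unfold pr
  rw [← integral_indicator_one hS]
  refine integral_congr_ae (Filter.Eventually.of_forall fun ω => ?_)
  by_cases h : ω ∈ S
  · simp [h, ind]
  · simp [h, ind]

private theorem u1_pr2 {S : Set ((ℕ → DD) × (ℕ → DD))} (hS : MeasurableSet S) :
    pr2 S = ∫ ω, ∫ η, ind ((ω, η) ∈ S) ∂(mu DD) ∂(mu DD) := by
  have h1 : pr2 S = ∫ p, ind (p ∈ S) ∂((mu DD).prod (mu DD)) := by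
    unfold pr2
    rw [← integral_indicator_one hS]
    refine integral_congr_ae (Filter.Eventually.of_forall fun ω => ?_)
    by_cases h : ω ∈ S
    · simp [h, ind]
    · simp [h, ind]
  rw [h1, integral_prod]
  refine Integrable.of_bound (C := 1) ?_ (Filter.Eventually.of_forall fun p => ?_)
  · refine Measurable.aestronglyMeasurable ?_
    unfold ind
    exact Measurable.ite hS measurable_const measurable_const
  · rw [Real.norm_eq_abs]
    exact u1_ind_abs _

/-- change the sign of a choice -/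
private def u1flip (d : DD) : DD := (d.1, d.2.1, !d.2.2)

private theorem u1flip_flip (d : DD) : u1flip (u1flip d) = d := by
  simp [u1flip]

private theorem u1_inc_flip (n : ℕ) (d : DD) : inc n (u1flip d) = - inc n d := by
  obtain ⟨a, b, c⟩ := d
  unfold inc u1flip
  cases a <;> cases c <;> simp [Pi.single_neg]

private def u1rev (m : ℕ) (a : Fin m → DD) : Fin m → DD := fun i => u1flip (a (Fin.rev i))

private theorem u1rev_inv (m : ℕ) : Function.Involutive (u1rev m) := by
  intro a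
  funext i
  simp [u1rev, u1flip_flip]

/-- the reversed path -/
private theorem u1_path (n m : ℕ) (x : V n) (ω : ℕ → DD) (ω' : ℕ → DD)
    (h : ∀ i, i < m → ω' i = u1flip (ω (m - 1 - i))) :
    ∀ i, i ≤ m → pos (act n) (pos (act n) x ω' m) ω i = pos (act n) x ω' (m - i) := by
  intro i
  induction i with
  | zero => intro _; rfl
  | succ i ih =>
    intro hi
    have h1 := ih (by omega)
    change act n (ω i) (pos (act n) (pos (act n) x ω' m) ω i) = _
    rw [h1]
    have h2 : m - i = (m - (i + 1)) + 1 := by omega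
    rw [h2]
    change act n (ω i) (act n (ω' (m - (i + 1))) (pos (act n) x ω' (m - (i + 1)))) = _
    rw [h _ (by omega)]
    have h3 : m - 1 - (m - (i + 1)) = i := by omega
    rw [h3]
    unfold act
    rw [u1_inc_flip]
    abel

end lemU1aux

theorem lemU1 : ∃ C : ℝ, 0 < C ∧ ∃ n0 : ℕ, ∀ (n : ℕ) [NeZero n], n0 ≤ n →
    ∀ (m g s : ℕ) (x : V n), b1 n ≤ m → m ≤ 5 * g → b1 n ≤ g → b1 n ≤ s →
    pr {ω | ∃ i, i ≤ m ∧ ∃ j, m + g ≤ j ∧ j ≤ m + g + s ∧
      pos (act n) x ω i = pos (act n) x ω j} ≤ C / LL n * (1 + (m : ℝ) * s / NN n) := by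
  obtain ⟨C, hC, n0, hn0⟩ := lemU2
  refine ⟨C, hC, n0, fun n _ hn m g s x hm hmg hg hs => ?_⟩
  refine le_trans (le_of_eq ?_) (hn0 n hn m g s x hm hmg hg hs)
  -- the two functions
  let F : (ℕ → DD) → (ℕ → DD) → ℝ := fun ω η => ind (∃ i, i ≤ m ∧ ∃ j, g ≤ j ∧ j ≤ g + s ∧
    pos (act n) x ω i = pos (act n) (pos (act n) x ω m) η j)
  let H : (ℕ → DD) → (ℕ → DD) → ℝ := fun ω η => ind (∃ i, i ≤ m ∧ ∃ j, g ≤ j ∧ j ≤ g + s ∧
    pos (act n) x ω i = pos (act n) x η j)
  have hdepF : ∀ p p' : (ℕ → DD) × (ℕ → DD), (∀ i, i < m → p.1 i = p'.1 i) →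
      (∀ i, i < g + s → p.2 i = p'.2 i) → F p.1 p.2 = F p'.1 p'.2 := by
    intro p p' h1 h2
    refine u1_ind_congr ?_
    have e1 : ∀ i, i ≤ m → pos (act n) x p.1 i = pos (act n) x p'.1 i := fun i hi =>
      pos_congr _ _ _ _ _ fun l hl => h1 l (by omega)
    have e2 : ∀ y : V n, ∀ j, j ≤ g + s → pos (act n) y p.2 j = pos (act n) y p'.2 j :=
      fun y j hj => pos_congr _ _ _ _ _ fun l hl => h2 l (by omega)
    constructor
    · rintro ⟨i, hi, j, hj, hj', h⟩
      refine ⟨i, hi, j, hj, hj', ?_⟩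
      rw [← e1 i hi, ← e1 m le_rfl, ← e2 _ j hj', h]
    · rintro ⟨i, hi, j, hj, hj', h⟩
      refine ⟨i, hi, j, hj, hj', ?_⟩
      rw [e1 i hi, e1 m le_rfl, e2 _ j hj', h]
  -- step 1: Markov property
  have hS1 : MeasurableSet {ω : ℕ → DD | ∃ i, i ≤ m ∧ ∃ j, m + g ≤ j ∧ j ≤ m + g + s ∧
      pos (act n) x ω i = pos (act n) x ω j} := by
    refine measurableSet_setOfPred.2 (measurable_dep (m + g + s) _ fun ω ω' h => ?_)
    have e1 : ∀ i, i ≤ m + g + s → pos (act n) x ω i = pos (act n) x ω' i := fun i hi =>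
      pos_congr _ _ _ _ _ fun l hl => h l (by omega)
    refine propext ?_
    constructor
    · rintro ⟨i, hi, j, hj, hj', h⟩
      refine ⟨i, hi, j, hj, hj', ?_⟩
      rw [← e1 i (by omega), ← e1 j hj', h]
    · rintro ⟨i, hi, j, hj, hj', h⟩
      refine ⟨i, hi, j, hj, hj', ?_⟩
      rw [e1 i (by omega), e1 j hj', h]
  have s1 : pr {ω | ∃ i, i ≤ m ∧ ∃ j, m + g ≤ j ∧ j ≤ m + g + s ∧
      pos (act n) x ω i = pos (act n) x ω j} = ∫ ω, F ω (sh m ω) ∂(mu DD) := by
    rw [u1_pr hS1]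
    refine integral_congr_ae (Filter.Eventually.of_forall fun ω => ?_)
    refine u1_ind_congr ?_
    constructor
    · rintro ⟨i, hi, j, hj, hj', h⟩
      refine ⟨i, hi, j - m, by omega, by omega, ?_⟩
      rw [← pos_add]
      have : m + (j - m) = j := by omega
      rw [this]
      exact h
    · rintro ⟨i, hi, j, hj, hj', h⟩
      refine ⟨i, hi, m + j, by omega, by omega, ?_⟩
      rw [pos_add]
      exact h
  have s2 : ∫ ω, F ω (sh m ω) ∂(mu DD) = ∫ ω, ∫ η, F ω η ∂(mu DD) ∂(mu DD) := by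
    refine markov_int m F ?_ 1 (fun ω η => u1_ind_abs _) ?_
    · exact u1_measurable m (g + s) (Function.uncurry F) hdepF
    · intro ω ω' η h
      exact hdepF (ω, η) (ω', η) h fun _ _ => rfl
  -- step 2: reversal
  have s3 : ∫ ω, ∫ η, F ω η ∂(mu DD) ∂(mu DD) = ∫ ω, ∫ η, H ω η ∂(mu DD) ∂(mu DD) := by
    have h1 := mu_perm (D := DD) m ((u1rev_inv m).toPerm (u1rev m))
      (fun a => ∫ η, F (u1ext a) η ∂(mu DD))
    have h2 : ∀ ω : ℕ → DD, ∫ η, F (u1ext (fun i : Fin m => ω i)) η ∂(mu DD)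
        = ∫ η, F ω η ∂(mu DD) := by
      intro ω
      refine integral_congr_ae (Filter.Eventually.of_forall fun η => ?_)
      exact hdepF (u1ext (fun i : Fin m => ω i), η) (ω, η)
        (fun i hi => u1ext_of_lt (fun i : Fin m => ω i) hi) fun _ _ => rfl
    have h3 : ∀ ω : ℕ → DD,
        ∫ η, F (u1ext (((u1rev_inv m).toPerm (u1rev m)) (fun i : Fin m => ω i))) η ∂(mu DD)
        = ∫ η, H ω η ∂(mu DD) := by
      intro ω
      refine integral_congr_ae (Filter.Eventually.of_forall fun η => ?_)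
      refine u1_ind_congr ?_
      set ω' : ℕ → DD := u1ext (((u1rev_inv m).toPerm (u1rev m)) (fun i : Fin m => ω i)) with hω'
      have hw : ∀ i, i < m → ω' i = u1flip (ω (m - 1 - i)) := by
        intro i hi
        rw [hω', u1ext_of_lt _ hi]
        change u1flip (ω ((Fin.rev ⟨i, hi⟩ : Fin m) : ℕ)) = _
        rw [Fin.val_rev]
        congr 2
        simp only
        omega
      have hp := u1_path n m x ω ω' hw
      have htr : ∀ (ζ : ℕ → DD) (t : ℕ), pos (act n) (pos (act n) x ω' m) ζ t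
          = pos (act n) x ζ t + (pos (act n) x ω' m - x) := by
        intro ζ t
        rw [← pos_translate]
        congr 1
        abel
      constructor
      · rintro ⟨i, hi, j, hj, hj', h⟩
        refine ⟨m - i, by omega, j, hj, hj', ?_⟩
        have h4 := hp (m - i) (by omega)
        have h5 : m - (m - i) = i := by omega
        rw [h5, h, htr, htr] at h4
        exact add_right_cancel h4
      · rintro ⟨i, hi, j, hj, hj', h⟩
        refine ⟨m - i, by omega, j, hj, hj', ?_⟩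
        rw [← hp i hi, htr, htr, h]
    rw [← integral_congr_ae (Filter.Eventually.of_forall h2),
      ← integral_congr_ae (Filter.Eventually.of_forall h3)]
    exact h1.symm
  -- step 3: two walks
  have hdepH : ∀ p p' : (ℕ → DD) × (ℕ → DD), (∀ i, i < m → p.1 i = p'.1 i) →
      (∀ i, i < g + s → p.2 i = p'.2 i) →
      (∃ i, i ≤ m ∧ ∃ j, g ≤ j ∧ j ≤ g + s ∧ pos (act n) x p.1 i = pos (act n) x p.2 j) =
      (∃ i, i ≤ m ∧ ∃ j, g ≤ j ∧ j ≤ g + s ∧ pos (act n) x p'.1 i = pos (act n) x p'.2 j) := by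
    intro p p' h1 h2
    refine propext ?_
    have e1 : ∀ i, i ≤ m → pos (act n) x p.1 i = pos (act n) x p'.1 i := fun i hi =>
      pos_congr _ _ _ _ _ fun l hl => h1 l (by omega)
    have e2 : ∀ j, j ≤ g + s → pos (act n) x p.2 j = pos (act n) x p'.2 j :=
      fun j hj => pos_congr _ _ _ _ _ fun l hl => h2 l (by omega)
    constructor
    · rintro ⟨i, hi, j, hj, hj', h⟩
      refine ⟨i, hi, j, hj, hj', ?_⟩
      rw [← e1 i hi, ← e2 j hj', h]
    · rintro ⟨i, hi, j, hj, hj', h⟩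
      refine ⟨i, hi, j, hj, hj', ?_⟩
      rw [e1 i hi, e2 j hj', h]
  have hS2 : MeasurableSet {ω : (ℕ → DD) × (ℕ → DD) | ∃ i, i ≤ m ∧ ∃ j, g ≤ j ∧ j ≤ g + s ∧
      pos (act n) x ω.1 i = pos (act n) x ω.2 j} :=
    measurableSet_setOfPred.2 (u1_measurable m (g + s) _ hdepH)
  rw [s1, s2, s3, u1_pr2 hS2]
  rfl

end Pool.Agent.UST
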