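import Pool.Agent.Helper54.UST.LemZ
import Pool.Agent.Helper54.UST.HeatSum
import Pool.Agent.Helper54.UST.PmBasic
import Pool.Agent.Helper54.UST.Av

/-! Paper Lemma U', for two walks and for one walk. -/

namespace Pool.Agent.UST

open MeasureTheory

namespace LemU2

section gen
variable {D : Type} [Fintype D] [Nonempty D] [MeasurableSpace D] [MeasurableSingletonClass D]

/-- functions of finitely many choices of two sequences are measurable -/
theorem measurable_dep2 {α : Type} [MeasurableSpace α] (t : ℕ) (f : (ℕ → D) × (ℕ → D) → α)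
    (hf : ∀ p q : (ℕ → D) × (ℕ → D), (∀ i, i < t → p.1 i = q.1 i) →
      (∀ i, i < t → p.2 i = q.2 i) → f p = f q) : Measurable f := by
  classical
  let d0 : D := Classical.arbitrary D
  let e : (Fin t → D) → (ℕ → D) := fun a i => if h : i < t then a ⟨i, h⟩ else d0
  let π : (ℕ → D) → (Fin t → D) := fun ω i => ω i
  have hπ : Measurable π := measurable_pi_lambda _ fun i => measurable_pi_apply (i : ℕ)
  have he : ∀ ω : ℕ → D, ∀ i, i < t → e (π ω) i = ω i := by
    intro ω i hi
    show (if h : i < t then π ω ⟨i, h⟩ else d0) = ω i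
    rw [dif_pos hi]
  have h1 : f = (fun p : (Fin t → D) × (Fin t → D) => f (e p.1, e p.2)) ∘
      (fun p : (ℕ → D) × (ℕ → D) => (π p.1, π p.2)) := by
    funext p
    show f p = f (e (π p.1), e (π p.2))
    exact hf _ _ (fun i hi => (he p.1 i hi).symm) (fun i hi => (he p.2 i hi).symm)
  rw [h1]
  exact Measurable.of_discrete.comp
    ((hπ.comp measurable_fst).prodMk (hπ.comp measurable_snd))

end gen

section torus
variable (n : ℕ) [NeZero n]

theorem pos_dep (x : V n) (ω ω' : ℕ → DD) (t i : ℕ) (hi : i ≤ t)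
    (h : ∀ j, j < t → ω j = ω' j) : pos (act n) x ω i = pos (act n) x ω' i :=
  pos_congr (act n) x ω ω' i fun j hj => h j (by omega)

theorem meas_pos_eq (x y : V n) (t : ℕ) : MeasurableSet {ω : ℕ → DD | pos (act n) x ω t = y} := by
  have h := measurable_dep (D := DD) (α := Prop) t (fun ω => pos (act n) x ω t = y)
    (fun ω ω' h => by rw [pos_congr (act n) x ω ω' t h])
  exact measurableSet_setOfPred.mpr h

/-- expectation of a function of the position -/
theorem int_pos (x : V n) (t : ℕ) (f : V n → ℝ) :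
    ∫ ω, f (pos (act n) x ω t) ∂(mu DD) = ∑ y, hk n t x y * f y := by
  classical
  have h1 : ∀ ω : ℕ → DD, f (pos (act n) x ω t) =
      ∑ y, ind (pos (act n) x ω t = y) * f y := by
    intro ω
    rw [Finset.sum_eq_single (pos (act n) x ω t)]
    · rw [ind_true rfl, one_mul]
    · intro y _ hy
      rw [ind_false (fun h => hy h.symm), zero_mul]
    · intro h
      exact absurd (Finset.mem_univ _) h
  simp_rw [h1]
  rw [integral_finsetSum]
  · refine Finset.sum_congr rfl fun y _ => ?_
    rw [integral_mul_const, integral_ind _ _ (meas_pos_eq n x y t)]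
    rfl
  · intro y _
    refine Integrable.mul_const ?_ _
    refine Integrable.of_bound (C := 1) ?_ ?_
    · refine Measurable.aestronglyMeasurable ?_
      refine measurable_dep (D := DD) t _ fun ω ω' h => ?_
      rw [pos_congr (act n) x ω ω' t h]
    · refine Filter.Eventually.of_forall fun ω => ?_
      rw [Real.norm_eq_abs, abs_of_nonneg (ind_nonneg _)]
      exact ind_le_one _

theorem hk_nonneg (t : ℕ) (x y : V n) : 0 ≤ hk n t x y := measureReal_nonneg

theorem hk_le_one (t : ℕ) (x y : V n) : hk n t x y ≤ 1 := by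
  unfold hk pr
  exact measureReal_le_one

/-- the target is met at time `i` -/
def At (v : ℕ → V n) (g s : ℕ) (y : V n) : Prop := ∃ j, g ≤ j ∧ j ≤ g + s ∧ y = v j

/-- least index in the target -/
noncomputable def J (v : ℕ → V n) (g s : ℕ) (y : V n) : ℕ := sInf {j | g ≤ j ∧ j ≤ g + s ∧ y = v j}

theorem J_spec (v : ℕ → V n) (g s : ℕ) (y : V n) (h : At n v g s y) :
    g ≤ J n v g s y ∧ J n v g s y ≤ g + s ∧ y = v (J n v g s y) :=
  Nat.sInf_mem (s := {j | g ≤ j ∧ j ≤ g + s ∧ y = v j}) h

/-- first meeting at time `i`, at a good index -/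
def G (x : V n) (v : ℕ → V n) (g s : ℕ) (good : ℕ → Prop) (i : ℕ) (ω : ℕ → DD) : Prop :=
  At n v g s (pos (act n) x ω i) ∧ (∀ l, l < i → ¬ At n v g s (pos (act n) x ω l)) ∧
    good (J n v g s (pos (act n) x ω i))

theorem G_dep (x : V n) (v : ℕ → V n) (g s : ℕ) (good : ℕ → Prop) (i : ℕ) (ω ω' : ℕ → DD)
    (h : ∀ j, j < i → ω j = ω' j) : G n x v g s good i ω ↔ G n x v g s good i ω' := by
  unfold G
  rw [pos_congr (act n) x ω ω' i h]
  have h1 : (∀ l, l < i → ¬ At n v g s (pos (act n) x ω l)) ↔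
      (∀ l, l < i → ¬ At n v g s (pos (act n) x ω' l)) := by
    refine forall_congr' fun l => ?_
    by_cases hl : l < i
    · rw [pos_dep n x ω ω' i l hl.le h]
    · exact ⟨fun _ h2 => absurd h2 hl, fun _ h2 => absurd h2 hl⟩
  rw [h1]

theorem G_unique (x : V n) (v : ℕ → V n) (g s : ℕ) (good : ℕ → Prop) (i i' : ℕ) (ω : ℕ → DD)
    (h : G n x v g s good i ω) (h' : G n x v g s good i' ω) : i = i' := by
  rcases lt_trichotomy i i' with h1 | h1 | h1
  · exact absurd h.1 (h'.2.1 i h1)
  · exact h1
  · exact absurd h'.1 (h.2.1 i' h1)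

theorem count_le (x : V n) (v : ℕ → V n) (m g s b : ℕ) (good : ℕ → Prop) (ω : ℕ → DD) :
    ∑ i ∈ Finset.range (m + 1), ind (G n x v g s good i ω) *
      ∑ a ∈ Finset.range (b + 1), ∑ c ∈ Finset.range (b + 1),
        ind (pos (act n) x ω (i + a) = v (J n v g s (pos (act n) x ω i) + c)) ≤
    ∑ a ∈ Finset.range (m + b + 1), ∑ c ∈ Finset.Icc g (g + s + b),
      ind (pos (act n) x ω a = v c) := by
  classical
  have hR : 0 ≤ ∑ a ∈ Finset.range (m + b + 1), ∑ c ∈ Finset.Icc g (g + s + b),
      ind (pos (act n) x ω a = v c) :=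
    Finset.sum_nonneg fun _ _ => Finset.sum_nonneg fun _ _ => ind_nonneg _
  by_cases hex : ∃ i ∈ Finset.range (m + 1), G n x v g s good i ω
  · obtain ⟨i, hi, hG⟩ := hex
    rw [Finset.mem_range] at hi
    rw [Finset.sum_eq_single i]
    · rw [ind_true hG, one_mul]
      obtain ⟨j1, j2, j3⟩ := J_spec n v g s _ hG.1
      set j := J n v g s (pos (act n) x ω i) with hj
      have h1 : ∀ a, ∑ c ∈ Finset.range (b + 1), ind (pos (act n) x ω (i + a) = v (j + c)) ≤
          ∑ c ∈ Finset.Icc g (g + s + b), ind (pos (act n) x ω (i + a) = v c) := by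
        intro a
        have h2 := Finset.sum_Ico_eq_sum_range (fun c => ind (pos (act n) x ω (i + a) = v c)) j
          (j + (b + 1))
        rw [Nat.add_sub_cancel_left] at h2
        rw [← h2]
        refine Finset.sum_le_sum_of_subset_of_nonneg ?_ (fun _ _ _ => ind_nonneg _)
        intro c hc
        rw [Finset.mem_Ico] at hc
        rw [Finset.mem_Icc]
        omega
      refine (Finset.sum_le_sum fun a _ => h1 a).trans ?_
      have h2 := Finset.sum_Ico_eq_sum_range (fun a => ∑ c ∈ Finset.Icc g (g + s + b),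
        ind (pos (act n) x ω a = v c)) i (i + (b + 1))
      rw [Nat.add_sub_cancel_left] at h2
      rw [← h2]
      refine Finset.sum_le_sum_of_subset_of_nonneg ?_
        (fun _ _ _ => Finset.sum_nonneg fun _ _ => ind_nonneg _)
      intro c hc
      rw [Finset.mem_Ico] at hc
      rw [Finset.mem_range]
      omega
    · intro i' _ hi'
      rw [ind_false (fun h => hi' (G_unique n x v g s good i' i ω h hG)), zero_mul]
    · intro h
      exact absurd (Finset.mem_range.mpr hi) h
  · rw [Finset.sum_eq_zero]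
    · exact hR
    · intro i hi
      rw [ind_false (fun h => hex ⟨i, hi, h⟩), zero_mul]

theorem int_bdd {f : (ℕ → DD) → ℝ} (t : ℕ) (hf : ∀ ω ω' : ℕ → DD, (∀ i, i < t → ω i = ω' i) →
    f ω = f ω') (C : ℝ) (hC : ∀ ω, |f ω| ≤ C) : Integrable f (mu DD) := by
  refine Integrable.of_bound (C := C) (measurable_dep (D := DD) t f hf).aestronglyMeasurable ?_
  exact Filter.Eventually.of_forall fun ω => by rw [Real.norm_eq_abs]; exact hC ω

theorem ind_bdd (P : Prop) : |ind P| ≤ 1 := by
  rw [abs_of_nonneg (ind_nonneg P)]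
  exact ind_le_one P

/-- Markov property at the time of the first meeting -/
theorem step_i (x : V n) (v : ℕ → V n) (g s b : ℕ) (good : ℕ → Prop) (K : ℝ)
    (hK : ∀ j, g ≤ j → j ≤ g + s → good j →
      K ≤ ∑ a ∈ Finset.range (b + 1), ∑ c ∈ Finset.range (b + 1), hk n a (v j) (v (j + c)))
    (i : ℕ) :
    K * ∫ ω, ind (G n x v g s good i ω) ∂(mu DD) ≤
      ∫ ω, ind (G n x v g s good i ω) *
      ∑ a ∈ Finset.range (b + 1), ∑ c ∈ Finset.range (b + 1),
        ind (pos (act n) x ω (i + a) = v (J n v g s (pos (act n) x ω i) + c)) ∂(mu DD) := by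
  have h1 : ∀ ω : ℕ → DD, ind (G n x v g s good i ω) *
      ∑ a ∈ Finset.range (b + 1), ∑ c ∈ Finset.range (b + 1),
        ind (pos (act n) x ω (i + a) = v (J n v g s (pos (act n) x ω i) + c)) =
      ind (G n x v g s good i ω) *
        ∑ a ∈ Finset.range (b + 1), ∑ c ∈ Finset.range (b + 1),
        ind (pos (act n) (pos (act n) x ω i) (sh i ω) a =
          v (J n v g s (pos (act n) x ω i) + c)) := by
    intro ω
    simp_rw [pos_add (act n) x ω i]
  have hmk := markov_int (D := DD) i (fun (ω η : ℕ → DD) => ind (G n x v g s good i ω) *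
        ∑ a ∈ Finset.range (b + 1), ∑ c ∈ Finset.range (b + 1),
        ind (pos (act n) (pos (act n) x ω i) η a = v (J n v g s (pos (act n) x ω i) + c)))
        ?_ (((b : ℝ) + 1) * ((b : ℝ) + 1)) ?_ ?_
  rw [integral_congr_ae (Filter.Eventually.of_forall h1), hmk]
  · rw [← integral_const_mul]
    refine integral_mono ?_ ?_ ?_
    · refine Integrable.const_mul ?_ K
      refine int_bdd i (fun ω ω' h => ?_) 1 fun ω => ind_bdd _
      rw [show (G n x v g s good i ω) = (G n x v g s good i ω') from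
        propext (G_dep n x v g s good i ω ω' h)]
    · refine int_bdd i (fun ω ω' h => ?_) (((b : ℝ) + 1) * ((b : ℝ) + 1)) fun ω => ?_
      · rw [show (G n x v g s good i ω) = (G n x v g s good i ω') from
          propext (G_dep n x v g s good i ω ω' h), pos_congr (act n) x ω ω' i h]
      · have hb : ∀ η : ℕ → DD, |ind (G n x v g s good i ω) *
            ∑ a ∈ Finset.range (b + 1), ∑ c ∈ Finset.range (b + 1),
            ind (pos (act n) (pos (act n) x ω i) η a = v (J n v g s (pos (act n) x ω i) + c))|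
            ≤ ((b : ℝ) + 1) * ((b : ℝ) + 1) := by
          intro η
          rw [abs_mul]
          have h2 : |∑ a ∈ Finset.range (b + 1), ∑ c ∈ Finset.range (b + 1),
              ind (pos (act n) (pos (act n) x ω i) η a =
                v (J n v g s (pos (act n) x ω i) + c))| ≤ ((b : ℝ) + 1) * ((b : ℝ) + 1) := by
            rw [abs_of_nonneg (Finset.sum_nonneg fun _ _ => Finset.sum_nonneg fun _ _ =>
              ind_nonneg _)]
            refine (Finset.sum_le_sum fun a _ => Finset.sum_le_sum fun c _ =>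
              ind_le_one _).trans (le_of_eq ?_)
            simp
            ring
          calc _ ≤ 1 * (((b : ℝ) + 1) * ((b : ℝ) + 1)) :=
                mul_le_mul (ind_bdd _) h2 (abs_nonneg _) zero_le_one
            _ = _ := one_mul _
        rw [← Real.norm_eq_abs]
        refine (norm_integral_le_of_norm_le_const
          (Filter.Eventually.of_forall fun η => by rw [Real.norm_eq_abs]; exact hb η)).trans ?_
        simp
    · intro ω
      simp only
      rw [integral_const_mul]
      by_cases hG : G n x v g s good i ω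
      · rw [ind_true hG, mul_one, one_mul]
        obtain ⟨j1, j2, j3⟩ := J_spec n v g s _ hG.1
        have h2 := hK _ j1 j2 hG.2.2
        rw [← j3] at h2
        refine h2.trans (le_of_eq ?_)
        rw [integral_finsetSum]
        · refine Finset.sum_congr rfl fun a _ => ?_
          rw [integral_finsetSum]
          · refine Finset.sum_congr rfl fun c _ => ?_
            rw [integral_ind _ _ (meas_pos_eq n _ _ a)]
            rfl
          · intro c _
            refine int_bdd a (fun η η' h => ?_) 1 fun η => ind_bdd _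
            rw [pos_congr (act n) _ η η' a h]
        · intro a _
          refine integrable_finsetSum _ fun c _ => ?_
          refine int_bdd a (fun η η' h => ?_) 1 fun η => ind_bdd _
          rw [pos_congr (act n) _ η η' a h]
      · rw [ind_false hG, mul_zero, zero_mul]
  · refine measurable_dep2 (D := DD) (i + b + 1) _ fun p q hp hq => ?_
    obtain ⟨ω, η⟩ := p
    obtain ⟨ω', η'⟩ := q
    simp only [Function.uncurry]
    have hp' : ∀ j, j < i → ω j = ω' j := fun j hj => hp j (by omega)
    rw [show (G n x v g s good i ω) = (G n x v g s good i ω') from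
      propext (G_dep n x v g s good i ω ω' hp'), pos_congr (act n) x ω ω' i hp']
    congr 1
    refine Finset.sum_congr rfl fun a ha => Finset.sum_congr rfl fun c _ => ?_
    rw [Finset.mem_range] at ha
    rw [pos_congr (act n) _ η η' a (fun j hj => hq j (by omega))]
  · intro ω η
    rw [abs_mul]
    have h2 : |∑ a ∈ Finset.range (b + 1), ∑ c ∈ Finset.range (b + 1),
        ind (pos (act n) (pos (act n) x ω i) η a =
          v (J n v g s (pos (act n) x ω i) + c))| ≤ ((b : ℝ) + 1) * ((b : ℝ) + 1) := by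
      rw [abs_of_nonneg (Finset.sum_nonneg fun _ _ => Finset.sum_nonneg fun _ _ =>
        ind_nonneg _)]
      refine (Finset.sum_le_sum fun a _ => Finset.sum_le_sum fun c _ =>
        ind_le_one _).trans (le_of_eq ?_)
      simp
      ring
    calc _ ≤ 1 * (((b : ℝ) + 1) * ((b : ℝ) + 1)) :=
          mul_le_mul (ind_bdd _) h2 (abs_nonneg _) zero_le_one
      _ = _ := one_mul _
  · intro ω ω' η h
    rw [show (G n x v g s good i ω) = (G n x v g s good i ω') from
      propext (G_dep n x v g s good i ω ω' h), pos_congr (act n) x ω ω' i h]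

/-- the good part for a fixed target -/
theorem good_part (x : V n) (v : ℕ → V n) (m g s b : ℕ) (good : ℕ → Prop) (K : ℝ)
    (hK : ∀ j, g ≤ j → j ≤ g + s → good j →
      K ≤ ∑ a ∈ Finset.range (b + 1), ∑ c ∈ Finset.range (b + 1), hk n a (v j) (v (j + c))) :
    K * ∑ i ∈ Finset.range (m + 1), ∫ ω, ind (G n x v g s good i ω) ∂(mu DD) ≤
      ∑ a ∈ Finset.range (m + b + 1), ∑ c ∈ Finset.Icc g (g + s + b), hk n a x (v c) := by
  have hint : ∀ i, Integrable (fun ω => ind (G n x v g s good i ω) *
      ∑ a ∈ Finset.range (b + 1), ∑ c ∈ Finset.range (b + 1),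
        ind (pos (act n) x ω (i + a) = v (J n v g s (pos (act n) x ω i) + c))) (mu DD) := by
    intro i
    refine int_bdd (i + b + 1) (fun ω ω' h => ?_) (((b : ℝ) + 1) * ((b : ℝ) + 1)) fun ω => ?_
    · have hp' : ∀ j, j < i → ω j = ω' j := fun j hj => h j (by omega)
      rw [show (G n x v g s good i ω) = (G n x v g s good i ω') from
        propext (G_dep n x v g s good i ω ω' hp'), pos_congr (act n) x ω ω' i hp']
      congr 1
      refine Finset.sum_congr rfl fun a ha => Finset.sum_congr rfl fun c _ => ?_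
      rw [Finset.mem_range] at ha
      rw [pos_congr (act n) _ ω ω' (i + a) (fun j hj => h j (by omega))]
    · rw [abs_mul]
      have h2 : |∑ a ∈ Finset.range (b + 1), ∑ c ∈ Finset.range (b + 1),
          ind (pos (act n) x ω (i + a) =
            v (J n v g s (pos (act n) x ω i) + c))| ≤ ((b : ℝ) + 1) * ((b : ℝ) + 1) := by
        rw [abs_of_nonneg (Finset.sum_nonneg fun _ _ => Finset.sum_nonneg fun _ _ =>
          ind_nonneg _)]
        refine (Finset.sum_le_sum fun a _ => Finset.sum_le_sum fun c _ =>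
          ind_le_one _).trans (le_of_eq ?_)
        simp
        ring
      calc _ ≤ 1 * (((b : ℝ) + 1) * ((b : ℝ) + 1)) :=
            mul_le_mul (ind_bdd _) h2 (abs_nonneg _) zero_le_one
        _ = _ := one_mul _
  have hint2 : ∀ a c, Integrable (fun ω => ind (pos (act n) x ω a = v c)) (mu DD) := by
    intro a c
    refine int_bdd a (fun ω ω' h => ?_) 1 fun ω => ind_bdd _
    rw [pos_congr (act n) x ω ω' a h]
  calc K * ∑ i ∈ Finset.range (m + 1), ∫ ω, ind (G n x v g s good i ω) ∂(mu DD)
      = ∑ i ∈ Finset.range (m + 1), K * ∫ ω, ind (G n x v g s good i ω) ∂(mu DD) :=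
        Finset.mul_sum _ _ _
    _ ≤ ∑ i ∈ Finset.range (m + 1), ∫ ω, ind (G n x v g s good i ω) *
        ∑ a ∈ Finset.range (b + 1), ∑ c ∈ Finset.range (b + 1),
        ind (pos (act n) x ω (i + a) = v (J n v g s (pos (act n) x ω i) + c)) ∂(mu DD) :=
        Finset.sum_le_sum fun i _ => step_i n x v g s b good K hK i
    _ = ∫ ω, ∑ i ∈ Finset.range (m + 1), ind (G n x v g s good i ω) *
        ∑ a ∈ Finset.range (b + 1), ∑ c ∈ Finset.range (b + 1),
        ind (pos (act n) x ω (i + a) = v (J n v g s (pos (act n) x ω i) + c)) ∂(mu DD) :=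
        (integral_finsetSum _ fun i _ => hint i).symm
    _ ≤ ∫ ω, ∑ a ∈ Finset.range (m + b + 1), ∑ c ∈ Finset.Icc g (g + s + b),
        ind (pos (act n) x ω a = v c) ∂(mu DD) := by
        refine integral_mono (integrable_finsetSum _ fun i _ => hint i)
          (integrable_finsetSum _ fun a _ => integrable_finsetSum _ fun c _ => hint2 a c) ?_
        intro ω
        exact count_le n x v m g s b good ω
    _ = _ := by
        rw [integral_finsetSum _ fun a _ => integrable_finsetSum _ fun c _ => hint2 a c]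
        refine Finset.sum_congr rfl fun a _ => ?_
        rw [integral_finsetSum _ fun c _ => hint2 a c]
        refine Finset.sum_congr rfl fun c _ => ?_
        rw [integral_ind _ _ (meas_pos_eq n x (v c) a)]
        rfl

/-- the meeting event for a fixed target -/
theorem meet_le (x : V n) (v : ℕ → V n) (m g s b : ℕ) (good : ℕ → Prop) (K : ℝ) (hK0 : 0 < K)
    (hK : ∀ j, g ≤ j → j ≤ g + s → good j →
      K ≤ ∑ a ∈ Finset.range (b + 1), ∑ c ∈ Finset.range (b + 1), hk n a (v j) (v (j + c))) :
    pr {ω | ∃ i, i ≤ m ∧ ∃ j, g ≤ j ∧ j ≤ g + s ∧ pos (act n) x ω i = v j} ≤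
      (∑ a ∈ Finset.range (m + b + 1), ∑ c ∈ Finset.Icc g (g + s + b), hk n a x (v c)) / K +
      ∑ i ∈ Finset.range (m + 1), ∑ j ∈ Finset.Icc g (g + s), hk n i x (v j) * ind (¬ good j) := by
  classical
  have hgp := good_part n x v m g s b good K hK
  have h1 : ∑ i ∈ Finset.range (m + 1), ∫ ω, ind (G n x v g s good i ω) ∂(mu DD) ≤
      (∑ a ∈ Finset.range (m + b + 1), ∑ c ∈ Finset.Icc g (g + s + b), hk n a x (v c)) / K := by
    rw [le_div_iff₀ hK0, mul_comm]
    exact hgp
  have hGi : ∀ i, Integrable (fun ω => ind (G n x v g s good i ω)) (mu DD) := by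
    intro i
    refine int_bdd i (fun ω ω' h => ?_) 1 fun ω => ind_bdd _
    rw [show (G n x v g s good i ω) = (G n x v g s good i ω') from
      propext (G_dep n x v g s good i ω ω' h)]
  have hpi : ∀ a c, Integrable (fun ω => ind (pos (act n) x ω a = v c) * ind (¬ good c))
      (mu DD) := by
    intro a c
    refine Integrable.mul_const ?_ _
    refine int_bdd a (fun ω ω' h => ?_) 1 fun ω => ind_bdd _
    rw [pos_congr (act n) x ω ω' a h]
  have hP : ∀ ω : ℕ → DD, ind (∃ i, i ≤ m ∧ ∃ j, g ≤ j ∧ j ≤ g + s ∧ pos (act n) x ω i = v j) ≤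
      ∑ i ∈ Finset.range (m + 1), ind (G n x v g s good i ω) +
      ∑ i ∈ Finset.range (m + 1), ∑ j ∈ Finset.Icc g (g + s),
        ind (pos (act n) x ω i = v j) * ind (¬ good j) := by
    intro ω
    have hn1 : 0 ≤ ∑ i ∈ Finset.range (m + 1), ind (G n x v g s good i ω) :=
      Finset.sum_nonneg fun _ _ => ind_nonneg _
    have hn2 : 0 ≤ ∑ i ∈ Finset.range (m + 1), ∑ j ∈ Finset.Icc g (g + s),
        ind (pos (act n) x ω i = v j) * ind (¬ good j) :=
      Finset.sum_nonneg fun _ _ => Finset.sum_nonneg fun _ _ =>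
        mul_nonneg (ind_nonneg _) (ind_nonneg _)
    by_cases hex : ∃ i, i ≤ m ∧ ∃ j, g ≤ j ∧ j ≤ g + s ∧ pos (act n) x ω i = v j
    · rw [ind_true hex]
      have hex' : ∃ i, i ≤ m ∧ At n v g s (pos (act n) x ω i) := hex
      have hex2 : ∃ i, At n v g s (pos (act n) x ω i) := by
        obtain ⟨i, -, hi⟩ := hex'
        exact ⟨i, hi⟩
      have hf := Nat.find_spec hex2
      have hfm := fun l (hl : l < Nat.find hex2) => Nat.find_min hex2 hl
      have hfle : Nat.find hex2 ≤ m := by
        obtain ⟨i, hi, hi2⟩ := hex'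
        exact (Nat.find_min' hex2 hi2).trans hi
      set i := Nat.find hex2 with hi
      obtain ⟨j1, j2, j3⟩ := J_spec n v g s _ hf
      by_cases hgd : good (J n v g s (pos (act n) x ω i))
      · have hG : G n x v g s good i ω := ⟨hf, hfm, hgd⟩
        have h2 : ind (G n x v g s good i ω) ≤
            ∑ i ∈ Finset.range (m + 1), ind (G n x v g s good i ω) :=
          Finset.single_le_sum (f := fun i => ind (G n x v g s good i ω))
            (fun _ _ => ind_nonneg _) (Finset.mem_range.mpr (by omega))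
        rw [ind_true hG] at h2
        linarith
      · have h2 : ind (pos (act n) x ω i = v (J n v g s (pos (act n) x ω i))) *
            ind (¬ good (J n v g s (pos (act n) x ω i))) ≤
            ∑ i ∈ Finset.range (m + 1), ∑ j ∈ Finset.Icc g (g + s),
              ind (pos (act n) x ω i = v j) * ind (¬ good j) := by
          refine le_trans ?_ (Finset.single_le_sum (f := fun i =>
            ∑ j ∈ Finset.Icc g (g + s), ind (pos (act n) x ω i = v j) * ind (¬ good j))
            (fun _ _ => Finset.sum_nonneg fun _ _ => mul_nonneg (ind_nonneg _) (ind_nonneg _))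
            (Finset.mem_range.mpr (show i < m + 1 by omega)))
          exact Finset.single_le_sum (f := fun j =>
            ind (pos (act n) x ω i = v j) * ind (¬ good j))
            (fun _ _ => mul_nonneg (ind_nonneg _) (ind_nonneg _))
            (Finset.mem_Icc.mpr ⟨j1, j2⟩)
        rw [ind_true j3, ind_true hgd, one_mul] at h2
        linarith
    · rw [ind_false hex]
      linarith
  have hmeas : MeasurableSet {ω : ℕ → DD | ∃ i, i ≤ m ∧ ∃ j, g ≤ j ∧ j ≤ g + s ∧
      pos (act n) x ω i = v j} := by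
    have h := measurable_dep (D := DD) (α := Prop) m (fun ω => ∃ i, i ≤ m ∧ ∃ j, g ≤ j ∧
      j ≤ g + s ∧ pos (act n) x ω i = v j) (fun ω ω' h => by
        refine propext (exists_congr fun i => and_congr_right fun hi => ?_)
        rw [pos_dep n x ω ω' m i hi h])
    exact measurableSet_setOfPred.mpr h
  calc pr {ω | ∃ i, i ≤ m ∧ ∃ j, g ≤ j ∧ j ≤ g + s ∧ pos (act n) x ω i = v j}
      = ∫ ω, ind (∃ i, i ≤ m ∧ ∃ j, g ≤ j ∧ j ≤ g + s ∧ pos (act n) x ω i = v j) ∂(mu DD) := by
        rw [integral_ind _ _ hmeas]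
        rfl
    _ ≤ ∫ ω, (∑ i ∈ Finset.range (m + 1), ind (G n x v g s good i ω) +
        ∑ i ∈ Finset.range (m + 1), ∑ j ∈ Finset.Icc g (g + s),
        ind (pos (act n) x ω i = v j) * ind (¬ good j)) ∂(mu DD) := by
        refine integral_mono ?_ ?_ hP
        · refine int_bdd m (fun ω ω' h => ?_) 1 fun ω => ind_bdd _
          congr 1
          refine propext (exists_congr fun i => and_congr_right fun hi => ?_)
          rw [pos_dep n x ω ω' m i hi h]
        · exact (integrable_finsetSum _ fun i _ => hGi i).add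
            (integrable_finsetSum _ fun a _ => integrable_finsetSum _ fun c _ => hpi a c)
    _ = ∑ i ∈ Finset.range (m + 1), ∫ ω, ind (G n x v g s good i ω) ∂(mu DD) +
        ∑ i ∈ Finset.range (m + 1), ∑ j ∈ Finset.Icc g (g + s),
          hk n i x (v j) * ind (¬ good j) := by
        rw [integral_add (integrable_finsetSum _ fun i _ => hGi i)
          (integrable_finsetSum _ fun a _ => integrable_finsetSum _ fun c _ => hpi a c),
          integral_finsetSum _ fun i _ => hGi i,
          integral_finsetSum _ fun a _ => integrable_finsetSum _ fun c _ => hpi a c]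
        congr 1
        refine Finset.sum_congr rfl fun a _ => ?_
        rw [integral_finsetSum _ fun c _ => hpi a c]
        refine Finset.sum_congr rfl fun c _ => ?_
        rw [integral_mul_const, integral_ind _ _ (meas_pos_eq n x (v c) a)]
        rfl
    _ ≤ _ := by linarith

/-- the probability of an event of two walks is the integral of its sections -/
theorem pr2_eq (t : ℕ) (P : (ℕ → DD) → (ℕ → DD) → Prop)
    (hP : ∀ ω ω' η η' : ℕ → DD, (∀ i, i < t → ω i = ω' i) → (∀ i, i < t → η i = η' i) →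
      (P ω η ↔ P ω' η')) :
    pr2 {ω | P ω.1 ω.2} = ∫ η, pr {ω | P ω η} ∂(mu DD) := by
  have hm : MeasurableSet {ω : (ℕ → DD) × (ℕ → DD) | P ω.1 ω.2} := by
    have h := measurable_dep2 (D := DD) (α := Prop) t
      (fun p : (ℕ → DD) × (ℕ → DD) => P p.1 p.2)
      (fun p q h1 h2 => propext (hP _ _ _ _ h1 h2))
    exact measurableSet_setOfPred.mpr h
  have h1 : (((mu DD).prod (mu DD)) {ω | P ω.1 ω.2}) =
      ∫⁻ η, (mu DD) {ω | P ω η} ∂(mu DD) := by
    rw [Measure.prod_apply_symm hm]
    rfl
  unfold pr2 pr Measure.real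
  rw [h1, integral_toReal]
  · exact (measurable_measure_prodMk_right hm).aemeasurable
  · exact Filter.Eventually.of_forall fun η => measure_lt_top _ _

theorem hk_pair (x : V n) (a c : ℕ) :
    ∫ η, hk n a x (pos (act n) x η c) ∂(mu DD) = hk n (a + c) 0 0 := by
  rw [int_pos n x c (fun y => hk n a x y)]
  have h1 : ∀ y, hk n c x y * hk n a x y = hk n c x y * hk n a y x := by
    intro y
    rw [hk_symm n a x y]
  rw [Finset.sum_congr rfl fun y _ => h1 y, ← hk_add n c a x x, add_comm c a]
  have h2 := hk_translate n (a + c) 0 0 x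
  rwa [zero_add] at h2

theorem ZZ_dep (ω ω' : ℕ → DD) (h : ∀ i, i < b1 n → ω i = ω' i) : ZZ n ω = ZZ n ω' := by
  unfold ZZ
  refine Finset.sum_congr rfl fun i hi => Finset.sum_congr rfl fun j _ => ?_
  rw [Finset.mem_range] at hi
  rw [pos_dep n 0 ω ω' (b1 n) i (by omega) h]

/-- the local sum at the index `j` -/
theorem ZZ_eq (x : V n) (η : ℕ → DD) (j : ℕ) :
    ZZ n (sh j η) = ∑ a ∈ Finset.range (b1 n + 1), ∑ c ∈ Finset.range (b1 n + 1),
      hk n a (pos (act n) x η j) (pos (act n) x η (j + c)) := by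
  unfold ZZ
  rw [Finset.sum_comm]
  refine Finset.sum_congr rfl fun a _ => Finset.sum_congr rfl fun c _ => ?_
  rw [pos_add (act n) x η j c]
  have h1 := pos_translate n 0 (pos (act n) x η j) (sh j η) c
  rw [zero_add] at h1
  rw [h1]
  have h2 := hk_translate n a 0 (pos (act n) 0 (sh j η) c) (pos (act n) x η j)
  rw [zero_add] at h2
  exact h2.symm

theorem bad_part (x : V n) (i j : ℕ) (K : ℝ) :
    ∫ η, hk n i x (pos (act n) x η j) * ind (¬ K ≤ ZZ n (sh j η)) ∂(mu DD) =
      hk n (i + j) 0 0 * pr {ω | ZZ n ω < K} := by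
  have h := markov_int (D := DD) j
    (fun (ω η : ℕ → DD) => hk n i x (pos (act n) x ω j) * ind (¬ K ≤ ZZ n η)) ?_ 1 ?_ ?_
  · rw [h]
    simp_rw [integral_const_mul]
    rw [integral_mul_const, hk_pair]
    congr 1
    have hm : MeasurableSet {η : ℕ → DD | ¬ K ≤ ZZ n η} := by
      have h := measurable_dep (D := DD) (α := Prop) (b1 n) (fun η => ¬ K ≤ ZZ n η)
        (fun ω ω' h => by rw [ZZ_dep n ω ω' h])
      exact measurableSet_setOfPred.mpr h
    rw [integral_ind _ _ hm]
    unfold pr
    congr 1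
    ext ω
    exact not_le
  · refine measurable_dep2 (D := DD) (j + b1 n) _ fun p q hp hq => ?_
    obtain ⟨ω, η⟩ := p
    obtain ⟨ω', η'⟩ := q
    simp only [Function.uncurry]
    rw [pos_congr (act n) x ω ω' j (fun l hl => hp l (by omega)),
      ZZ_dep n η η' (fun l hl => hq l (by omega))]
  · intro ω η
    rw [abs_mul, abs_of_nonneg (hk_nonneg n _ _ _)]
    calc _ ≤ 1 * 1 := mul_le_mul (hk_le_one n _ _ _) (ind_bdd _) (abs_nonneg _) zero_le_one
      _ = 1 := one_mul 1
  · intro ω ω' η h
    rw [pos_congr (act n) x ω ω' j h]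

end torus

end LemU2

open LemU2

theorem lemU2 : ∃ C : ℝ, 0 < C ∧ ∃ n0 : ℕ, ∀ (n : ℕ) [NeZero n], n0 ≤ n →
    ∀ (m g s : ℕ) (x : V n), b1 n ≤ m → m ≤ 5 * g → b1 n ≤ g → b1 n ≤ s →
    pr2 {ω | ∃ i, i ≤ m ∧ ∃ j, g ≤ j ∧ j ≤ g + s ∧ pos (act n) x ω.1 i = pos (act n) x ω.2 j} ≤
      C / LL n * (1 + (m : ℝ) * s / NN n) := by
  obtain ⟨c, hc, C1, hC1, n1, hZ⟩ := lemZ
  obtain ⟨C2, hC2, hS⟩ := heat_sum'
  refine ⟨9 * C2 / c + 9 * C1 * C2, by positivity, max n1 2, ?_⟩
  intro n _ hn m g s x hm hmg hg hs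
  have hn1 : n1 ≤ n := le_trans (le_max_left _ _) hn
  have hn2 : 2 ≤ n := le_trans (le_max_right _ _) hn
  have hL : 0 < LL n := Real.log_pos (by exact_mod_cast hn2)
  have hN : 0 < NN n := by
    unfold NN
    have : (0 : ℝ) < n := by exact_mod_cast (by omega : 0 < n)
    positivity
  have hb1 : 1 ≤ b1 n := by
    unfold b1
    exact Nat.le_sqrt.mpr (by omega)
  set b := b1 n with hb
  set K : ℝ := c * LL n with hKdef
  have hK0 : 0 < K := mul_pos hc hL
  have hsec : ∀ η : ℕ → DD,
      pr {ω | ∃ i, i ≤ m ∧ ∃ j, g ≤ j ∧ j ≤ g + s ∧ pos (act n) x ω i = pos (act n) x η j} ≤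
      (∑ a ∈ Finset.range (m + b + 1), ∑ c ∈ Finset.Icc g (g + s + b),
        hk n a x (pos (act n) x η c)) / K +
      ∑ i ∈ Finset.range (m + 1), ∑ j ∈ Finset.Icc g (g + s),
        hk n i x (pos (act n) x η j) * ind (¬ K ≤ ZZ n (sh j η)) := by
    intro η
    refine meet_le n x (fun j => pos (act n) x η j) m g s b (fun j => K ≤ ZZ n (sh j η)) K hK0 ?_
    intro j _ _ hgd
    rw [ZZ_eq n x η j] at hgd
    exact hgd
  have hint1 : ∀ a c, Integrable (fun η : ℕ → DD => hk n a x (pos (act n) x η c)) (mu DD) := by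
    intro a c
    refine int_bdd c (fun ω ω' h => ?_) 1 fun ω => ?_
    · rw [pos_congr (act n) x ω ω' c h]
    · rw [abs_of_nonneg (hk_nonneg n _ _ _)]
      exact hk_le_one n _ _ _
  have hint2 : ∀ i j, Integrable (fun η : ℕ → DD => hk n i x (pos (act n) x η j) *
      ind (¬ K ≤ ZZ n (sh j η))) (mu DD) := by
    intro i j
    refine int_bdd (j + b1 n) (fun ω ω' h => ?_) 1 fun ω => ?_
    · rw [pos_congr (act n) x ω ω' j (fun l hl => h l (by omega)),
        ZZ_dep n (sh j ω) (sh j ω') (fun l hl => h (j + l) (by omega))]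
    · rw [abs_mul, abs_of_nonneg (hk_nonneg n _ _ _)]
      calc _ ≤ 1 * 1 := mul_le_mul (hk_le_one n _ _ _) (ind_bdd _) (abs_nonneg _) zero_le_one
        _ = 1 := one_mul 1
  have hdep : ∀ ω ω' η η' : ℕ → DD, (∀ i, i < m + g + s → ω i = ω' i) →
      (∀ i, i < m + g + s → η i = η' i) →
      ((∃ i, i ≤ m ∧ ∃ j, g ≤ j ∧ j ≤ g + s ∧ pos (act n) x ω i = pos (act n) x η j) ↔
        (∃ i, i ≤ m ∧ ∃ j, g ≤ j ∧ j ≤ g + s ∧ pos (act n) x ω' i = pos (act n) x η' j)) := by
    intro ω ω' η η' h1 h2
    refine exists_congr fun i => and_congr_right fun hi => exists_congr fun j =>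
      and_congr_right fun _ => and_congr_right fun hj => ?_
    rw [pos_dep n x ω ω' (m + g + s) i (by omega) h1, pos_dep n x η η' (m + g + s) j (by omega) h2]
  have hsum : ∀ η : ℕ → DD, (∑ a ∈ Finset.range (m + b + 1), ∑ c ∈ Finset.Icc g (g + s + b),
      hk n a x (pos (act n) x η c)) / K = (fun η => ∑ a ∈ Finset.range (m + b + 1),
      ∑ c ∈ Finset.Icc g (g + s + b), hk n a x (pos (act n) x η c)) η / K := fun _ => rfl
  have hmain : pr2 {ω | ∃ i, i ≤ m ∧ ∃ j, g ≤ j ∧ j ≤ g + s ∧
      pos (act n) x ω.1 i = pos (act n) x ω.2 j} ≤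
      (∑ a ∈ Finset.range (m + b + 1), ∑ c ∈ Finset.Icc g (g + s + b), hk n (a + c) 0 0) / K +
      (∑ i ∈ Finset.range (m + 1), ∑ j ∈ Finset.Icc g (g + s), hk n (i + j) 0 0) *
        pr {ω | ZZ n ω < K} := by
    rw [pr2_eq (m + g + s) (fun ω η => ∃ i, i ≤ m ∧ ∃ j, g ≤ j ∧ j ≤ g + s ∧
      pos (act n) x ω i = pos (act n) x η j) hdep]
    have hI1 : Integrable (fun η : ℕ → DD => ∑ a ∈ Finset.range (m + b + 1),
        ∑ c ∈ Finset.Icc g (g + s + b), hk n a x (pos (act n) x η c)) (mu DD) :=
      integrable_finsetSum _ fun a _ => integrable_finsetSum _ fun c _ => hint1 a c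
    have hI2 : Integrable (fun η : ℕ → DD => ∑ i ∈ Finset.range (m + 1),
        ∑ j ∈ Finset.Icc g (g + s), hk n i x (pos (act n) x η j) *
        ind (¬ K ≤ ZZ n (sh j η))) (mu DD) :=
      integrable_finsetSum _ fun a _ => integrable_finsetSum _ fun c _ => hint2 a c
    calc ∫ η, pr {ω | ∃ i, i ≤ m ∧ ∃ j, g ≤ j ∧ j ≤ g + s ∧
          pos (act n) x ω i = pos (act n) x η j} ∂(mu DD)
        ≤ ∫ η, ((∑ a ∈ Finset.range (m + b + 1), ∑ c ∈ Finset.Icc g (g + s + b),
          hk n a x (pos (act n) x η c)) / K +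
          ∑ i ∈ Finset.range (m + 1), ∑ j ∈ Finset.Icc g (g + s),
          hk n i x (pos (act n) x η j) * ind (¬ K ≤ ZZ n (sh j η))) ∂(mu DD) := by
          refine integral_mono_of_nonneg (Filter.Eventually.of_forall fun η => ?_)
            ((hI1.div_const K).add hI2) (Filter.Eventually.of_forall hsec)
          exact measureReal_nonneg
      _ = _ := by
          rw [integral_add (hI1.div_const K) hI2, integral_div,
            integral_finsetSum _ fun a _ => integrable_finsetSum _ fun c _ => hint1 a c,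
            integral_finsetSum _ fun a _ => integrable_finsetSum _ fun c _ => hint2 a c]
          congr 1
          · congr 1
            refine Finset.sum_congr rfl fun a _ => ?_
            rw [integral_finsetSum _ fun c _ => hint1 a c]
            exact Finset.sum_congr rfl fun c _ => hk_pair n x a c
          · rw [Finset.sum_mul]
            refine Finset.sum_congr rfl fun i _ => ?_
            rw [integral_finsetSum _ fun c _ => hint2 i c, Finset.sum_mul]
            exact Finset.sum_congr rfl fun j _ => bad_part n x i j K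
  have hS1 := hS n (m + b) g (s + b) (by omega) (by omega)
  have hS2 := hS n m g s (by omega) (by omega)
  have hZn := hZ n hn1
  have hm1 : (1 : ℝ) ≤ m := by exact_mod_cast (by omega : 1 ≤ m)
  have hs1 : (1 : ℝ) ≤ s := by exact_mod_cast (by omega : 1 ≤ s)
  have hbm : (b : ℝ) ≤ m := by exact_mod_cast hm
  have hbs : (b : ℝ) ≤ s := by exact_mod_cast hs
  have hb0 : (0 : ℝ) ≤ b := Nat.cast_nonneg b
  have hq : 0 ≤ (m : ℝ) * s / NN n := by positivity
  have hB1 : (∑ a ∈ Finset.range (m + b + 1), ∑ c ∈ Finset.Icc g (g + s + b),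
      hk n (a + c) 0 0) ≤ 9 * C2 * (1 + (m : ℝ) * s / NN n) := by
    rw [← add_assoc g s b] at hS1
    refine hS1.trans ?_
    push_cast
    have h1 : ((m : ℝ) + b + 1) * ((s : ℝ) + b + 1) / NN n ≤ 9 * ((m : ℝ) * s / NN n) := by
      rw [← mul_div_assoc]
      refine div_le_div_of_nonneg_right ?_ hN.le
      nlinarith [mul_nonneg (by linarith : (0 : ℝ) ≤ m) (by linarith : (0 : ℝ) ≤ s)]
    have h2 : C2 * (1 + ((m : ℝ) + b + 1) * ((s : ℝ) + b + 1) / NN n) ≤
        C2 * (1 + 9 * ((m : ℝ) * s / NN n)) :=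
      mul_le_mul_of_nonneg_left (by linarith) hC2.le
    refine h2.trans ?_
    nlinarith [hC2.le]
  have hB2 : (∑ i ∈ Finset.range (m + 1), ∑ j ∈ Finset.Icc g (g + s), hk n (i + j) 0 0) ≤
      9 * C2 * (1 + (m : ℝ) * s / NN n) := by
    refine hS2.trans ?_
    have h1 : ((m : ℝ) + 1) * ((s : ℝ) + 1) / NN n ≤ 9 * ((m : ℝ) * s / NN n) := by
      rw [← mul_div_assoc]
      refine div_le_div_of_nonneg_right ?_ hN.le
      nlinarith [mul_nonneg (by linarith : (0 : ℝ) ≤ m) (by linarith : (0 : ℝ) ≤ s)]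
    have h2 : C2 * (1 + ((m : ℝ) + 1) * ((s : ℝ) + 1) / NN n) ≤
        C2 * (1 + 9 * ((m : ℝ) * s / NN n)) :=
      mul_le_mul_of_nonneg_left (by linarith) hC2.le
    refine h2.trans ?_
    nlinarith [hC2.le]
  have hB20 : 0 ≤ ∑ i ∈ Finset.range (m + 1), ∑ j ∈ Finset.Icc g (g + s), hk n (i + j) 0 0 :=
    Finset.sum_nonneg fun _ _ => Finset.sum_nonneg fun _ _ => hk_nonneg n _ _ _
  have hq1 : 0 ≤ 9 * C2 * (1 + (m : ℝ) * s / NN n) := by positivity
  calc pr2 {ω | ∃ i, i ≤ m ∧ ∃ j, g ≤ j ∧ j ≤ g + s ∧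
      pos (act n) x ω.1 i = pos (act n) x ω.2 j}
      ≤ (∑ a ∈ Finset.range (m + b + 1), ∑ c ∈ Finset.Icc g (g + s + b),
          hk n (a + c) 0 0) / K +
        (∑ i ∈ Finset.range (m + 1), ∑ j ∈ Finset.Icc g (g + s), hk n (i + j) 0 0) *
          pr {ω | ZZ n ω < K} := hmain
    _ ≤ 9 * C2 * (1 + (m : ℝ) * s / NN n) / K +
        9 * C2 * (1 + (m : ℝ) * s / NN n) * (C1 / LL n) := by
        refine add_le_add (div_le_div_of_nonneg_right hB1 hK0.le) ?_
        exact mul_le_mul hB2 hZn measureReal_nonneg hq1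
    _ = (9 * C2 / c + 9 * C1 * C2) / LL n * (1 + (m : ℝ) * s / NN n) := by
        rw [hKdef]
        field_simp

end Pool.Agent.UST
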