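import Pool.Agent.Helper54.UST.ZMom
import Pool.Agent.Helper54.UST.Heat

/-! Paper Lemma Z. -/

namespace Pool.Agent.UST

open MeasureTheory

lemma lz_hk_nonneg (n t : ℕ) (x y : V n) : 0 ≤ hk n t x y := by
  unfold hk pr
  exact measureReal_nonneg

lemma lz_nsq_nonneg (z : Fin 4 → ℤ) : 0 ≤ nsq z := Finset.sum_nonneg fun _ _ => by positivity

/-- sum of the heat kernel over the times -/
lemma lz_heat (c0 : ℝ) (h0 : 0 < c0) (h1 : c0 ≤ 1)
    (hH : ∀ (n : ℕ) [NeZero n] (t : ℕ) (x : V n) (z : Fin 4 → ℤ),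
      1 ≤ t → t ≤ n ^ 2 → (∑ a, (z a : ℝ) ^ 2) ≤ c0 * t →
      c0 / (t : ℝ) ^ 2 ≤ hk n t x (x + fun a => (z a : ZMod n)))
    (n : ℕ) [NeZero n] (b : ℕ) (hb : b ≤ n) (z : Fin 4 → ℤ)
    (hz : 2 * (nsq z / c0 + 1) ≤ b) :
    c0 ^ 2 / 4 * (1 / (nsq z + 1)) ≤
      ∑ j ∈ Finset.range (b + 1), hk n j 0 (0 + fun a => (z a : ZMod n)) := by
  have hz0 := lz_nsq_nonneg z
  set J : ℕ := ⌊nsq z / c0⌋₊ + 1 with hJ
  have hJ1 : nsq z / c0 < J := by rw [hJ]; push_cast; exact Nat.lt_floor_add_one _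
  have hJ2 : (J : ℝ) ≤ nsq z / c0 + 1 := by
    rw [hJ]; push_cast
    have := Nat.floor_le (div_nonneg hz0 h0.le)
    linarith
  have hJ0 : (1 : ℝ) ≤ J := by rw [hJ]; push_cast; linarith [Nat.cast_nonneg (α := ℝ) ⌊nsq z / c0⌋₊]
  have hJb : 2 * J ≤ b := by
    have : (2 * J : ℝ) ≤ b := by linarith
    exact_mod_cast this
  have hJ3 : (J : ℝ) * c0 ≤ nsq z + 1 := by
    have h2 : (J : ℝ) * c0 ≤ (nsq z / c0 + 1) * c0 := mul_le_mul_of_nonneg_right hJ2 h0.le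
    have h3 : (nsq z / c0 + 1) * c0 = nsq z + c0 := by field_simp
    linarith
  have hsub : Finset.Ico J (2 * J) ⊆ Finset.range (b + 1) := by
    intro j hj
    rw [Finset.mem_Ico] at hj
    rw [Finset.mem_range]; omega
  have hterm : ∀ j ∈ Finset.Ico J (2 * J), c0 / (4 * (J : ℝ) ^ 2) ≤
      hk n j 0 (0 + fun a => (z a : ZMod n)) := by
    intro j hj
    rw [Finset.mem_Ico] at hj
    have hj1 : (J : ℝ) ≤ j := by exact_mod_cast hj.1
    have hj2 : (j : ℝ) ≤ 2 * J := by exact_mod_cast hj.2.le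
    have hjn : j ≤ n ^ 2 := by
      have h2 : j ≤ n := by omega
      have h3 : n ≤ n ^ 2 := by
        have : 1 ≤ n := Nat.one_le_iff_ne_zero.mpr (NeZero.ne n)
        nlinarith
      omega
    have h2 := hH n j 0 z (by omega) hjn (by
      have h3 : nsq z ≤ c0 * J := by
        have := (div_lt_iff₀ h0).mp hJ1
        linarith
      have h4 : c0 * (J : ℝ) ≤ c0 * j := mul_le_mul_of_nonneg_left hj1 h0.le
      exact h3.trans h4)
    refine le_trans ?_ h2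
    have hj0 : (0 : ℝ) < j := by linarith
    apply div_le_div_of_nonneg_left h0.le (by positivity)
    nlinarith
  have hsum : (J : ℝ) * (c0 / (4 * (J : ℝ) ^ 2)) ≤
      ∑ j ∈ Finset.range (b + 1), hk n j 0 (0 + fun a => (z a : ZMod n)) := by
    calc (J : ℝ) * (c0 / (4 * (J : ℝ) ^ 2))
        = ∑ _j ∈ Finset.Ico J (2 * J), c0 / (4 * (J : ℝ) ^ 2) := by
          rw [Finset.sum_const, Nat.card_Ico, nsmul_eq_mul]
          congr 2
          omega
      _ ≤ ∑ j ∈ Finset.Ico J (2 * J), hk n j 0 (0 + fun a => (z a : ZMod n)) :=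
          Finset.sum_le_sum hterm
      _ ≤ _ := Finset.sum_le_sum_of_subset_of_nonneg hsub fun _ _ _ => lz_hk_nonneg _ _ _ _
  refine le_trans ?_ hsum
  have hJp : (0 : ℝ) < J := by linarith
  have e1 : (J : ℝ) * (c0 / (4 * (J : ℝ) ^ 2)) = c0 / 4 * (1 / J) := by
    field_simp
  rw [e1]
  have e2 : c0 ^ 2 / 4 * (1 / (nsq z + 1)) = c0 / 4 * (c0 / (nsq z + 1)) := by ring
  rw [e2]
  refine mul_le_mul_of_nonneg_left ?_ (by positivity)
  rw [div_le_div_iff₀ (by linarith) hJp]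
  linarith

/-- the weight -/
noncomputable def lza (i : ℕ) : ℝ := 1 / ((i : ℝ) + 1)

lemma lza_pos (i : ℕ) : 0 < lza i := by unfold lza; positivity

lemma lza_mul (i : ℕ) : lza i * ((i : ℝ) + 1) = 1 := by
  unfold lza
  have : ((i : ℝ) + 1) ≠ 0 := by positivity
  field_simp

/-- the local variable -/
noncomputable def lzs (ω : ℕ → DD) (i : ℕ) : ℝ := nsq (zw ω i) + 1

lemma lzs_pos (ω : ℕ → DD) (i : ℕ) : 0 < lzs ω i := by
  unfold lzs; linarith [lz_nsq_nonneg (zw ω i)]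

lemma lzs_le (ω : ℕ → DD) (i : ℕ) : lzs ω i ≤ (i : ℝ) ^ 2 + 1 := by
  unfold lzs; linarith [nsq_zw_le ω i]

lemma lzs_meas (i : ℕ) : Measurable (fun ω : ℕ → DD => lzs ω i) :=
  measurable_zw i (fun z => nsq z + 1)

lemma lz_int (f : (ℕ → DD) → ℝ) (hf : Measurable f) (C : ℝ) (hC : ∀ ω, |f ω| ≤ C) :
    Integrable f (mu DD) :=
  Integrable.of_bound hf.aestronglyMeasurable C (Filter.Eventually.of_forall fun ω => by
    rw [Real.norm_eq_abs]; exact hC ω)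

lemma lzs_int (i : ℕ) : Integrable (fun ω : ℕ → DD => lzs ω i) (mu DD) :=
  lz_int _ (lzs_meas i) ((i : ℝ) ^ 2 + 1) fun ω => by
    rw [abs_of_pos (lzs_pos ω i)]; exact lzs_le ω i

lemma lz_nsq_int (i : ℕ) : Integrable (fun ω : ℕ → DD => nsq (zw ω i)) (mu DD) :=
  lz_int _ (measurable_zw i nsq) ((i : ℝ) ^ 2) fun ω => by
    rw [abs_of_nonneg (lz_nsq_nonneg _)]; exact nsq_zw_le ω i

lemma lz_nsq2_int (i j : ℕ) :
    Integrable (fun ω : ℕ → DD => nsq (zw ω i) * nsq (zw ω j)) (mu DD) :=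
  lz_int _ ((measurable_zw i nsq).mul (measurable_zw j nsq)) ((i : ℝ) ^ 2 * (j : ℝ) ^ 2)
    fun ω => by
      rw [abs_of_nonneg (mul_nonneg (lz_nsq_nonneg _) (lz_nsq_nonneg _))]
      exact mul_le_mul (nsq_zw_le ω i) (nsq_zw_le ω j) (lz_nsq_nonneg _) (by positivity)

lemma lzs2_int (i j : ℕ) : Integrable (fun ω : ℕ → DD => lzs ω i * lzs ω j) (mu DD) :=
  lz_int _ ((lzs_meas i).mul (lzs_meas j)) (((i : ℝ) ^ 2 + 1) * ((j : ℝ) ^ 2 + 1))
    fun ω => by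
      rw [abs_of_nonneg (mul_nonneg (lzs_pos _ _).le (lzs_pos _ _).le)]
      exact mul_le_mul (lzs_le ω i) (lzs_le ω j) (lzs_pos _ _).le (by positivity)

lemma lzs_mean (i : ℕ) : ∫ ω, lzs ω i ∂(mu DD) = (i : ℝ) / 2 + 1 := by
  unfold lzs
  rw [integral_add (lz_nsq_int i) (integrable_const _), nsq_mean]
  simp

lemma lzs_cov (C : ℝ) (hC : ∀ j i : ℕ, j ≤ i →
    ∫ ω, nsq (zw ω j) * nsq (zw ω i) ∂(mu DD) ≤ (j : ℝ) / 2 * ((i : ℝ) / 2) + C * (j : ℝ) ^ 2)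
    (j i : ℕ) (h : j ≤ i) :
    ∫ ω, lzs ω j * lzs ω i ∂(mu DD) ≤ ((j : ℝ) / 2 + 1) * ((i : ℝ) / 2 + 1) + C * (j : ℝ) ^ 2 := by
  have e : ∀ ω : ℕ → DD, lzs ω j * lzs ω i
      = nsq (zw ω j) * nsq (zw ω i) + (nsq (zw ω j) + lzs ω i) := by
    intro ω; unfold lzs; ring
  have e2 : ∫ ω, lzs ω j * lzs ω i ∂(mu DD)
      = ∫ ω, nsq (zw ω j) * nsq (zw ω i) ∂(mu DD) + ((j : ℝ) / 2 + ((i : ℝ) / 2 + 1)) := by
    have hI2 : Integrable (fun ω : ℕ → DD => nsq (zw ω j) + lzs ω i) (mu DD) :=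
      (lz_nsq_int j).add (lzs_int i)
    rw [integral_congr_ae (Filter.Eventually.of_forall e),
      integral_add (lz_nsq2_int j i) hI2,
      integral_add (lz_nsq_int j) (lzs_int i), nsq_mean, lzs_mean]
  rw [e2]
  have := hC j i h
  nlinarith

/-- the weighted sum -/
noncomputable def lzW (I : ℕ) (ω : ℕ → DD) : ℝ :=
  ∑ i ∈ Finset.range (I + 1), lza i ^ 2 * lzs ω i

/-- the mean -/
noncomputable def lzm (I : ℕ) : ℝ := ∑ i ∈ Finset.range (I + 1), lza i ^ 2 * ((i : ℝ) / 2 + 1)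

/-- the harmonic sum -/
noncomputable def lzh (I : ℕ) : ℝ := ∑ i ∈ Finset.range (I + 1), lza i

lemma lzh_pos (I : ℕ) : 0 < lzh I :=
  Finset.sum_pos (s := Finset.range (I + 1)) (f := fun i => lza i) (fun i _ => lza_pos i)
    (Finset.nonempty_range_iff.mpr (Nat.succ_ne_zero I))

lemma lza_sq_mul (i : ℕ) : lza i ^ 2 * ((i : ℝ) + 1) = lza i := by
  rw [sq, mul_assoc, lza_mul, mul_one]

lemma lzm_le (I : ℕ) : lzm I ≤ lzh I := by
  unfold lzm lzh
  refine Finset.sum_le_sum fun i _ => ?_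
  have h1 : (0 : ℝ) ≤ i := Nat.cast_nonneg i
  have h2 : lza i ^ 2 * ((i : ℝ) / 2 + 1) ≤ lza i ^ 2 * ((i : ℝ) + 1) :=
    mul_le_mul_of_nonneg_left (by linarith) (sq_nonneg _)
  exact h2.trans (le_of_eq (lza_sq_mul i))

lemma lzW_mean (I : ℕ) : ∫ ω, lzW I ω ∂(mu DD) = lzm I := by
  unfold lzW lzm
  rw [integral_finsetSum _ fun i _ => (lzs_int i).const_mul _]
  refine Finset.sum_congr rfl fun i _ => ?_
  rw [integral_const_mul, lzs_mean]

lemma lzW_meas (I : ℕ) : Measurable (lzW I) :=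
  Finset.measurable_sum _ fun i _ => (lzs_meas i).const_mul _

lemma lzW_nonneg (I : ℕ) (ω : ℕ → DD) : 0 ≤ lzW I ω :=
  Finset.sum_nonneg fun i _ => mul_nonneg (by positivity) (lzs_pos ω i).le

lemma lzW_bd (I : ℕ) : ∃ K : ℝ, ∀ ω : ℕ → DD, lzW I ω ≤ K :=
  ⟨∑ i ∈ Finset.range (I + 1), lza i ^ 2 * ((i : ℝ) ^ 2 + 1), fun ω =>
    Finset.sum_le_sum fun i _ => mul_le_mul_of_nonneg_left (lzs_le ω i) (by positivity)⟩

lemma lzW_int (I : ℕ) : Integrable (lzW I) (mu DD) := by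
  obtain ⟨K, hK⟩ := lzW_bd I
  exact lz_int _ (lzW_meas I) K fun ω => by rw [abs_of_nonneg (lzW_nonneg I ω)]; exact hK ω

lemma lzW2_int (I : ℕ) : Integrable (fun ω => lzW I ω ^ 2) (mu DD) := by
  obtain ⟨K, hK⟩ := lzW_bd I
  refine lz_int _ ((lzW_meas I).pow_const 2) (K ^ 2) fun ω => ?_
  rw [abs_of_nonneg (by positivity)]
  exact pow_le_pow_left₀ (lzW_nonneg I ω) (hK ω) 2

/-- combinatorial bound of the covariances -/
lemma lz_comb (I : ℕ) :
    ∑ i ∈ Finset.range (I + 1), ∑ j ∈ Finset.range (I + 1),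
      lza i ^ 2 * lza j ^ 2 * ((min i j : ℕ) : ℝ) ^ 2 ≤ 2 * lzh I := by
  have hk1 : ∀ k : ℕ, lza k ^ 2 * (k : ℝ) ^ 2 ≤ 1 := by
    intro k
    have h1 : lza k * k ≤ 1 := by
      have := lza_mul k
      have := lza_pos k
      nlinarith
    have h2 : 0 ≤ lza k * k := mul_nonneg (lza_pos k).le (Nat.cast_nonneg k)
    rw [← mul_pow]
    exact pow_le_one₀ h2 h1
  have hpt : ∀ i j : ℕ, lza i ^ 2 * lza j ^ 2 * ((min i j : ℕ) : ℝ) ^ 2
      ≤ (if j ≤ i then lza i ^ 2 else 0) + (if i ≤ j then lza j ^ 2 else 0) := by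
    intro i j
    rcases le_total j i with h | h
    · rw [min_eq_right h, if_pos h]
      have h2 : (0 : ℝ) ≤ if i ≤ j then lza j ^ 2 else 0 := by split_ifs <;> positivity
      have h3 : lza i ^ 2 * lza j ^ 2 * (j : ℝ) ^ 2 = lza i ^ 2 * (lza j ^ 2 * (j : ℝ) ^ 2) := by ring
      have h4 := mul_le_mul_of_nonneg_left (hk1 j) (by positivity : (0 : ℝ) ≤ lza i ^ 2)
      linarith
    · rw [min_eq_left h, if_pos h]
      have h2 : (0 : ℝ) ≤ if j ≤ i then lza i ^ 2 else 0 := by split_ifs <;> positivity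
      have h3 : lza i ^ 2 * lza j ^ 2 * (i : ℝ) ^ 2 = lza j ^ 2 * (lza i ^ 2 * (i : ℝ) ^ 2) := by ring
      have h4 := mul_le_mul_of_nonneg_left (hk1 i) (by positivity : (0 : ℝ) ≤ lza j ^ 2)
      linarith
  have hone : ∑ i ∈ Finset.range (I + 1), ∑ j ∈ Finset.range (I + 1),
      (if j ≤ i then lza i ^ 2 else 0) ≤ lzh I := by
    unfold lzh
    refine Finset.sum_le_sum fun i _ => ?_
    rw [← Finset.sum_filter]
    calc ∑ j ∈ (Finset.range (I + 1)).filter (fun j => j ≤ i), lza i ^ 2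
        ≤ ∑ j ∈ Finset.range (i + 1), lza i ^ 2 := by
          refine Finset.sum_le_sum_of_subset_of_nonneg ?_ fun _ _ _ => by positivity
          intro j hj
          rw [Finset.mem_filter] at hj
          rw [Finset.mem_range]; omega
      _ = lza i := by
          rw [Finset.sum_const, Finset.card_range, nsmul_eq_mul, ← lza_sq_mul i]
          push_cast
          rw [lza_sq_mul]
          nlinarith [lza_sq_mul i]
  have htwo : ∑ i ∈ Finset.range (I + 1), ∑ j ∈ Finset.range (I + 1),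
      (if i ≤ j then lza j ^ 2 else 0) ≤ lzh I := by
    rw [Finset.sum_comm]
    exact hone
  calc _ ≤ ∑ i ∈ Finset.range (I + 1), ∑ j ∈ Finset.range (I + 1),
        ((if j ≤ i then lza i ^ 2 else 0) + (if i ≤ j then lza j ^ 2 else 0)) :=
        Finset.sum_le_sum fun i _ => Finset.sum_le_sum fun j _ => hpt i j
    _ = ∑ i ∈ Finset.range (I + 1), ∑ j ∈ Finset.range (I + 1), (if j ≤ i then lza i ^ 2 else 0)
        + ∑ i ∈ Finset.range (I + 1), ∑ j ∈ Finset.range (I + 1),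
          (if i ≤ j then lza j ^ 2 else 0) := by simp only [Finset.sum_add_distrib]
    _ ≤ 2 * lzh I := by linarith

lemma lzW_sq (C : ℝ) (hC0 : 0 < C) (hC : ∀ j i : ℕ, j ≤ i →
    ∫ ω, nsq (zw ω j) * nsq (zw ω i) ∂(mu DD) ≤ (j : ℝ) / 2 * ((i : ℝ) / 2) + C * (j : ℝ) ^ 2)
    (I : ℕ) : ∫ ω, lzW I ω ^ 2 ∂(mu DD) ≤ lzm I ^ 2 + C * (2 * lzh I) := by
  have e1 : ∀ ω : ℕ → DD, lzW I ω ^ 2 = ∑ i ∈ Finset.range (I + 1),
      ∑ j ∈ Finset.range (I + 1), lza i ^ 2 * lza j ^ 2 * (lzs ω i * lzs ω j) := by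
    intro ω
    unfold lzW
    rw [sq, Finset.sum_mul_sum]
    refine Finset.sum_congr rfl fun i _ => Finset.sum_congr rfl fun j _ => by ring
  have e2 : ∫ ω, lzW I ω ^ 2 ∂(mu DD) = ∑ i ∈ Finset.range (I + 1),
      ∑ j ∈ Finset.range (I + 1), lza i ^ 2 * lza j ^ 2 * ∫ ω, lzs ω i * lzs ω j ∂(mu DD) := by
    rw [integral_congr_ae (Filter.Eventually.of_forall e1), integral_finsetSum _ fun i _ =>
      integrable_finsetSum _ fun j _ => (lzs2_int i j).const_mul _]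
    refine Finset.sum_congr rfl fun i _ => ?_
    rw [integral_finsetSum _ fun j _ => (lzs2_int i j).const_mul _]
    refine Finset.sum_congr rfl fun j _ => ?_
    rw [integral_const_mul]
  have hcov : ∀ i j : ℕ, ∫ ω, lzs ω i * lzs ω j ∂(mu DD)
      ≤ ((i : ℝ) / 2 + 1) * ((j : ℝ) / 2 + 1) + C * ((min i j : ℕ) : ℝ) ^ 2 := by
    intro i j
    rcases le_total i j with h | h
    · rw [min_eq_left h]; exact lzs_cov C hC i j h
    · rw [min_eq_right h]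
      have h2 := lzs_cov C hC j i h
      have h3 : ∫ ω, lzs ω i * lzs ω j ∂(mu DD) = ∫ ω, lzs ω j * lzs ω i ∂(mu DD) :=
        integral_congr_ae (Filter.Eventually.of_forall fun ω => mul_comm _ _)
      rw [h3]
      linarith
  rw [e2]
  calc _ ≤ ∑ i ∈ Finset.range (I + 1), ∑ j ∈ Finset.range (I + 1),
        ((lza i ^ 2 * ((i : ℝ) / 2 + 1)) * (lza j ^ 2 * ((j : ℝ) / 2 + 1))
          + C * (lza i ^ 2 * lza j ^ 2 * ((min i j : ℕ) : ℝ) ^ 2)) := by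
        refine Finset.sum_le_sum fun i _ => Finset.sum_le_sum fun j _ => ?_
        have h2 := mul_le_mul_of_nonneg_left (hcov i j)
          (by positivity : (0 : ℝ) ≤ lza i ^ 2 * lza j ^ 2)
        refine h2.trans (le_of_eq (by ring))
    _ = lzm I ^ 2 + C * ∑ i ∈ Finset.range (I + 1), ∑ j ∈ Finset.range (I + 1),
        lza i ^ 2 * lza j ^ 2 * ((min i j : ℕ) : ℝ) ^ 2 := by
        simp only [Finset.sum_add_distrib]
        unfold lzm
        rw [sq, Finset.sum_mul_sum, Finset.mul_sum]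
        congr 1
        exact Finset.sum_congr rfl fun i _ => by rw [Finset.mul_sum]
    _ ≤ _ := by
        have := mul_le_mul_of_nonneg_left (lz_comb I) hC0.le
        linarith

lemma lz_cheb (C : ℝ) (hC0 : 0 < C) (hC : ∀ j i : ℕ, j ≤ i →
    ∫ ω, nsq (zw ω j) * nsq (zw ω i) ∂(mu DD) ≤ (j : ℝ) / 2 * ((i : ℝ) / 2) + C * (j : ℝ) ^ 2)
    (I : ℕ) : pr {ω | 2 * lzh I ≤ lzW I ω} ≤ 2 * C / lzh I := by
  have hh := lzh_pos I
  set m := lzm I with hm
  have hvar : ∫ ω, (lzW I ω - m) ^ 2 ∂(mu DD) ≤ C * (2 * lzh I) := by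
    have e1 : ∀ ω : ℕ → DD, (lzW I ω - m) ^ 2 = (lzW I ω ^ 2 - 2 * m * lzW I ω) + m ^ 2 := by
      intro ω; ring
    have hI1 : Integrable (fun ω : ℕ → DD => 2 * m * lzW I ω) (mu DD) :=
      (lzW_int I).const_mul _
    have hI2 : Integrable (fun ω : ℕ → DD => lzW I ω ^ 2 - 2 * m * lzW I ω) (mu DD) :=
      (lzW2_int I).sub hI1
    rw [integral_congr_ae (Filter.Eventually.of_forall e1),
      integral_add hI2 (integrable_const _),
      integral_sub (lzW2_int I) hI1, integral_const_mul, lzW_mean]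
    have h2 := lzW_sq C hC0 hC I
    rw [← hm] at h2 ⊢
    simp only [integral_const, probReal_univ, smul_eq_mul, one_mul]
    nlinarith
  have hint : Integrable (fun ω => (lzW I ω - m) ^ 2) (mu DD) := by
    have e1 : (fun ω : ℕ → DD => (lzW I ω - m) ^ 2)
        = fun ω => (lzW I ω ^ 2 - 2 * m * lzW I ω) + m ^ 2 := by
      funext ω; ring
    rw [e1]
    exact ((lzW2_int I).sub ((lzW_int I).const_mul _)).add (integrable_const _)
  have hmk := mul_meas_ge_le_integral_of_nonneg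
    (Filter.Eventually.of_forall fun ω => sq_nonneg (lzW I ω - m)) hint (lzh I ^ 2)
  have hsub : {ω : ℕ → DD | 2 * lzh I ≤ lzW I ω} ⊆ {ω | lzh I ^ 2 ≤ (lzW I ω - m) ^ 2} := by
    intro ω hω
    have h2 : 2 * lzh I ≤ lzW I ω := hω
    have h3 := lzm_le I
    rw [← hm] at h3
    show lzh I ^ 2 ≤ (lzW I ω - m) ^ 2
    exact pow_le_pow_left₀ hh.le (by linarith) 2
  have hle : pr {ω | 2 * lzh I ≤ lzW I ω}
      ≤ (mu DD).real {ω | lzh I ^ 2 ≤ (lzW I ω - m) ^ 2} := by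
    unfold pr
    exact measureReal_mono hsub
  have h4 : lzh I ^ 2 * pr {ω | 2 * lzh I ≤ lzW I ω} ≤ C * (2 * lzh I) :=
    (mul_le_mul_of_nonneg_left hle (by positivity)).trans (hmk.trans hvar)
  rw [le_div_iff₀ hh]
  have h5 : lzh I * (pr {ω | 2 * lzh I ≤ lzW I ω} * lzh I) ≤ lzh I * (2 * C) := by nlinarith
  exact le_of_mul_le_mul_left h5 hh

/-- Cauchy-Schwarz -/
lemma lz_cs (I : ℕ) (ω : ℕ → DD) (h : lzW I ω < 2 * lzh I) :
    lzh I / 2 ≤ ∑ i ∈ Finset.range (I + 1), 1 / lzs ω i := by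
  have hh := lzh_pos I
  have h1 := Finset.sum_sq_le_sum_mul_sum_of_sq_le_mul (Finset.range (I + 1))
    (r := fun i => lza i) (f := fun i => 1 / lzs ω i) (g := fun i => lza i ^ 2 * lzs ω i)
    (fun i _ => (div_pos one_pos (lzs_pos ω i)).le)
    (fun i _ => mul_nonneg (by positivity) (lzs_pos ω i).le)
    (fun i _ => le_of_eq (by have := (lzs_pos ω i).ne'; field_simp))
  have h2 : lzh I ^ 2 ≤ (∑ i ∈ Finset.range (I + 1), 1 / lzs ω i) * lzW I ω := h1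
  have h3 : 0 ≤ ∑ i ∈ Finset.range (I + 1), 1 / lzs ω i :=
    Finset.sum_nonneg fun i _ => (div_pos one_pos (lzs_pos ω i)).le
  have h4 : lzh I ^ 2 ≤ (∑ i ∈ Finset.range (I + 1), 1 / lzs ω i) * (2 * lzh I) :=
    h2.trans (mul_le_mul_of_nonneg_left h.le h3)
  nlinarith

lemma lzh_log (I : ℕ) : Real.log (((I + 1 : ℕ) : ℝ) + 1) ≤ lzh I := by
  have h1 := log_add_one_le_harmonic (I + 1)
  have h2 : ((harmonic (I + 1) : ℚ) : ℝ) = lzh I := by
    unfold harmonic lzh lza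
    push_cast
    refine Finset.sum_congr rfl fun i _ => ?_
    rw [one_div]
  rw [h2] at h1
  refine le_trans (le_of_eq ?_) h1
  push_cast
  ring_nf

theorem lemZ : ∃ c : ℝ, 0 < c ∧ ∃ C : ℝ, 0 < C ∧ ∃ n0 : ℕ, ∀ (n : ℕ) [NeZero n], n0 ≤ n →
    pr {ω | ZZ n ω < c * LL n} ≤ C / LL n := by
  obtain ⟨c1, hc1, hH1⟩ := heat_lower
  obtain ⟨C, hC0, hC⟩ := nsq_cov
  set c0 : ℝ := min c1 1 with hc0
  have h0 : 0 < c0 := lt_min hc1 one_pos
  have h1 : c0 ≤ 1 := min_le_right _ _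
  have hH : ∀ (n : ℕ) [NeZero n] (t : ℕ) (x : V n) (z : Fin 4 → ℤ),
      1 ≤ t → t ≤ n ^ 2 → (∑ a, (z a : ℝ) ^ 2) ≤ c0 * t →
      c0 / (t : ℝ) ^ 2 ≤ hk n t x (x + fun a => (z a : ZMod n)) := by
    intro n _ t x z ht ht2 hz
    have hle : c0 ≤ c1 := min_le_left _ _
    refine le_trans ?_ (hH1 n t x z ht ht2
      (hz.trans (mul_le_mul_of_nonneg_right hle (Nat.cast_nonneg t))))
    exact div_le_div_of_nonneg_right hle (by positivity)
  set K : ℕ := ⌈4 / c0⌉₊ with hK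
  have hK4 : 4 / c0 ≤ K := Nat.le_ceil _
  have hK4' : (4 : ℝ) ≤ K := by
    refine le_trans ?_ hK4
    rw [le_div_iff₀ h0]
    linarith
  refine ⟨c0 ^ 2 / 64, by positivity, 16 * C, by positivity, K ^ 4, fun n _ hn => ?_⟩
  set s1 := Nat.sqrt n with hs1
  set s2 := Nat.sqrt s1 with hs2
  set I := Nat.sqrt s2 with hI
  have hs1K : K ^ 2 ≤ s1 := by
    rw [hs1, Nat.le_sqrt]
    calc K ^ 2 * K ^ 2 = K ^ 4 := by ring
      _ ≤ n := hn
  have hs2K : K ≤ s2 := by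
    rw [hs2, Nat.le_sqrt]
    calc K * K = K ^ 2 := by ring
      _ ≤ s1 := hs1K
  have hs2s1 : s2 * s2 ≤ s1 := Nat.sqrt_le s1
  have hIs2 : I * I ≤ s2 := Nat.sqrt_le s2
  have hs1n : s1 ≤ n := Nat.sqrt_le_self n
  have hs2r : (K : ℝ) ≤ s2 := by exact_mod_cast hs2K
  have hs2s1r : (s2 : ℝ) * s2 ≤ s1 := by exact_mod_cast hs2s1
  have hIs2r : (I : ℝ) * I ≤ s2 := by exact_mod_cast hIs2
  -- condition for the heat kernel sum
  have hcond : ∀ (ω : ℕ → DD) (i : ℕ), i ≤ I → 2 * (nsq (zw ω i) / c0 + 1) ≤ (s1 : ℝ) := by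
    intro ω i hi
    have hir : (i : ℝ) ≤ I := by exact_mod_cast hi
    have h2 : nsq (zw ω i) ≤ s2 := by
      refine (nsq_zw_le ω i).trans ?_
      have : (i : ℝ) ^ 2 ≤ (I : ℝ) * I := by
        rw [sq]; exact mul_le_mul hir hir (Nat.cast_nonneg i) (Nat.cast_nonneg I)
      exact this.trans hIs2r
    have h3 : nsq (zw ω i) / c0 ≤ s2 / c0 := div_le_div_of_nonneg_right h2 h0.le
    have h4 : (s2 : ℝ) / c0 ≤ (s2 : ℝ) * s2 / 4 := by
      have h5 : 4 / c0 ≤ (s2 : ℝ) := hK4.trans hs2r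
      have h6 : (s2 : ℝ) / c0 = s2 * (4 / c0) / 4 := by ring
      rw [h6]
      have := mul_le_mul_of_nonneg_left h5 (Nat.cast_nonneg (α := ℝ) s2)
      linarith
    have h7 : (4 : ℝ) ≤ s2 := hK4'.trans hs2r
    nlinarith
  -- lower bound of ZZ
  have hIb : I ≤ s1 := (Nat.sqrt_le_self s2).trans (Nat.sqrt_le_self s1)
  have hZ : ∀ ω : ℕ → DD, c0 ^ 2 / 4 * ∑ i ∈ Finset.range (I + 1), 1 / lzs ω i ≤ ZZ n ω := by
    intro ω
    unfold ZZ
    rw [Finset.mul_sum]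
    refine (Finset.sum_le_sum (g := fun i => ∑ j ∈ Finset.range (b1 n + 1),
      hk n j 0 (pos (act n) 0 ω i)) fun i hi => ?_).trans
      (Finset.sum_le_sum_of_subset_of_nonneg ?_ ?_)
    · rw [Finset.mem_range] at hi
      rw [pos_zw]
      exact lz_heat c0 h0 h1 hH n (b1 n) (by unfold b1; exact hs1n) (zw ω i)
        (by unfold b1; exact hcond ω i (by omega))
    · intro i hi
      rw [Finset.mem_range] at hi ⊢
      unfold b1
      omega
    · intro i _ _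
      exact Finset.sum_nonneg fun j _ => lz_hk_nonneg _ _ _ _
  -- logarithm
  have hnr : (1 : ℝ) < n := by
    have h2 : (4 : ℝ) ≤ s1 := by nlinarith
    have h3 : (s1 : ℝ) ≤ n := by exact_mod_cast hs1n
    linarith
  have hL : 0 < LL n := Real.log_pos hnr
  have hlog : LL n / 8 ≤ lzh I := by
    have h2 : n < (I + 1) ^ 8 := by
      have a1 : n < (s1 + 1) * (s1 + 1) := Nat.lt_succ_sqrt n
      have a2 : s1 + 1 ≤ (s2 + 1) * (s2 + 1) := Nat.lt_succ_sqrt s1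
      have a3 : s2 + 1 ≤ (I + 1) * (I + 1) := Nat.lt_succ_sqrt s2
      calc n < (s1 + 1) * (s1 + 1) := a1
        _ ≤ ((s2 + 1) * (s2 + 1)) * ((s2 + 1) * (s2 + 1)) := Nat.mul_le_mul a2 a2
        _ ≤ (((I + 1) * (I + 1)) * ((I + 1) * (I + 1))) *
            (((I + 1) * (I + 1)) * ((I + 1) * (I + 1))) :=
            Nat.mul_le_mul (Nat.mul_le_mul a3 a3) (Nat.mul_le_mul a3 a3)
        _ = (I + 1) ^ 8 := by ring
    have h3 : (n : ℝ) ≤ ((I : ℝ) + 1) ^ 8 := by exact_mod_cast h2.le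
    have h4 : LL n ≤ 8 * Real.log ((I : ℝ) + 1) := by
      unfold LL
      have h5 := Real.log_le_log (by linarith) h3
      rwa [Real.log_pow] at h5
    have h6 : Real.log ((I : ℝ) + 1) ≤ Real.log (((I + 1 : ℕ) : ℝ) + 1) := by
      refine Real.log_le_log (by positivity) ?_
      push_cast
      linarith
    have h7 := lzh_log I
    linarith
  have hsub : {ω : ℕ → DD | ZZ n ω < c0 ^ 2 / 64 * LL n} ⊆ {ω | 2 * lzh I ≤ lzW I ω} := by
    intro ω hω
    have h2 : ZZ n ω < c0 ^ 2 / 64 * LL n := hω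
    show 2 * lzh I ≤ lzW I ω
    by_contra hlt
    rw [not_le] at hlt
    have h3 := lz_cs I ω hlt
    have h4 := hZ ω
    have h5 : c0 ^ 2 / 4 * (lzh I / 2) ≤ c0 ^ 2 / 4 * ∑ i ∈ Finset.range (I + 1), 1 / lzs ω i :=
      mul_le_mul_of_nonneg_left h3 (by positivity)
    have h6 : c0 ^ 2 / 4 * (LL n / 8 / 2) ≤ c0 ^ 2 / 4 * (lzh I / 2) :=
      mul_le_mul_of_nonneg_left (by linarith) (by positivity)
    have h7 : c0 ^ 2 / 4 * (LL n / 8 / 2) = c0 ^ 2 / 64 * LL n := by ring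
    linarith
  have hcheb := lz_cheb C hC0 hC I
  have hmono : pr {ω : ℕ → DD | ZZ n ω < c0 ^ 2 / 64 * LL n} ≤ pr {ω | 2 * lzh I ≤ lzW I ω} := by
    unfold pr
    exact measureReal_mono hsub
  refine hmono.trans (hcheb.trans ?_)
  rw [div_le_div_iff₀ (lzh_pos I) hL]
  nlinarith

end Pool.Agent.UST
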