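import Pool.Agent.Helper54.UST.Defs

/-! Paths in a spanning tree. -/

namespace Pool.Agent.UST

open MeasureTheory

section treebasic
variable {n : ℕ} (T : Tr n)

/-- the path as a walk -/
private noncomputable def wk (a b : V n) : T.1.Walk a b := (T.2.2.existsUnique_path a b).choose

private theorem wk_path (a b : V n) : (wk T a b).IsPath :=
  (T.2.2.existsUnique_path a b).choose_spec.1

private theorem wk_unique (a b : V n) (p : T.1.Walk a b) (hp : p.IsPath) : p = wk T a b :=
  (T.2.2.existsUnique_path a b).choose_spec.2 p hp

private theorem pth_eq (a b : V n) : pth T a b = (wk T a b).support := rfl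

private theorem pth_eq_support (a b : V n) (p : T.1.Walk a b) (hp : p.IsPath) :
    pth T a b = p.support := by
  rw [pth_eq, wk_unique T a b p hp]

theorem pth_nodup (a b : V n) : (pth T a b).Nodup := (wk_path T a b).support_nodup

theorem pth_head (a b : V n) : (pth T a b).head? = some a := by
  rw [pth_eq]
  rw [List.head?_eq_some_head (by simp), SimpleGraph.Walk.head_support]

theorem pth_last (a b : V n) : (pth T a b).getLast? = some b := by
  rw [pth_eq]
  rw [List.getLast?_eq_some_getLast (by simp), SimpleGraph.Walk.getLast_support]

theorem pth_self (a : V n) : pth T a a = [a] := by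
  rw [pth_eq_support T a a SimpleGraph.Walk.nil (by simp)]
  rfl

theorem pth_chain (a b : V n) : (pth T a b).IsChain (fun x y => T.1.Adj x y) :=
  (wk T a b).isChain_adj_support

theorem pth_unique (a b : V n) (l : List (V n)) (hl : l.Nodup)
    (hc : l.IsChain (fun x y => T.1.Adj x y)) (h1 : l.head? = some a) (h2 : l.getLast? = some b) :
    l = pth T a b := by
  have hne : l ≠ [] := by
    rintro rfl
    simp at h1
  have e1 : l.head hne = a := by
    rw [List.head?_eq_some_head hne] at h1
    exact Option.some.inj h1
  have e2 : l.getLast hne = b := by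
    rw [List.getLast?_eq_some_getLast hne] at h2
    exact Option.some.inj h2
  subst e1
  subst e2
  rw [pth_eq_support T _ _ (SimpleGraph.Walk.ofSupport l hne hc)
    (SimpleGraph.Walk.IsPath.mk' (by rw [SimpleGraph.Walk.support_ofSupport]; exact hl))]
  rw [SimpleGraph.Walk.support_ofSupport]

theorem pth_rev (a b : V n) : pth T b a = (pth T a b).reverse := by
  rw [pth_eq_support T b a (wk T a b).reverse (wk_path T a b).reverse,
    SimpleGraph.Walk.support_reverse]
  rfl

theorem pth_split {a b y : V n} (h : y ∈ pth T a b) :
    pth T a b = pth T a y ++ (pth T y b).tail := by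
  classical
  have h' : y ∈ (wk T a b).support := h
  rw [pth_eq_support T a y ((wk T a b).takeUntil y h') ((wk_path T a b).takeUntil h'),
    pth_eq_support T y b ((wk T a b).dropUntil y h') ((wk_path T a b).dropUntil h'),
    ← SimpleGraph.Walk.support_append, SimpleGraph.Walk.take_spec]
  rfl

theorem pth_mem_left (a b : V n) : a ∈ pth T a b := (wk T a b).start_mem_support

theorem pth_mem_right (a b : V n) : b ∈ pth T a b := (wk T a b).end_mem_support

theorem pth_length (a b : V n) : (pth T a b).length = dst T a b + 1 := by
  have : 0 < (pth T a b).length := List.length_pos_of_mem (pth_mem_left T a b)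
  unfold dst
  omega

theorem pth_subset (a b c : V n) : st (pth T a c) ⊆ st (pth T a b) ∪ st (pth T b c) := by
  classical
  intro y hy
  have h1 : pth T a c = ((wk T a b).append (wk T b c)).bypass.support :=
    pth_eq_support T a c _ (SimpleGraph.Walk.bypass_isPath _)
  have hy' : y ∈ ((wk T a b).append (wk T b c)).bypass.support := by
    rw [← h1]
    exact hy
  have h2 := SimpleGraph.Walk.support_bypass_subset_support _ hy'
  rw [SimpleGraph.Walk.mem_support_append_iff] at h2
  exact h2

theorem dst_eq_dist (a b : V n) : dst T a b = T.1.dist a b := by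
  obtain ⟨p, hp, hl⟩ := T.2.2.1.exists_path_of_dist a b
  have h1 := pth_length T a b
  rw [pth_eq_support T a b p hp, SimpleGraph.Walk.length_support] at h1
  omega

theorem dst_self (a : V n) : dst T a a = 0 := by
  rw [dst_eq_dist, SimpleGraph.dist_self]

theorem dst_symm (a b : V n) : dst T a b = dst T b a := by
  rw [dst_eq_dist, dst_eq_dist, SimpleGraph.dist_comm]

theorem dst_triangle (a b c : V n) : dst T a c ≤ dst T a b + dst T b c := by
  rw [dst_eq_dist, dst_eq_dist, dst_eq_dist]
  exact T.2.2.1.dist_triangle

theorem dst_add {a b y : V n} (h : y ∈ pth T a b) : dst T a b = dst T a y + dst T y b := by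
  have h1 := congrArg List.length (pth_split T h)
  rw [List.length_append, List.length_tail, pth_length, pth_length, pth_length] at h1
  omega

/-- if `dst T x y ≤ ρ - ρ'` then the ball of radius `ρ'` around `y` is in the ball of radius `ρ` -/
theorem nb_mono [NeZero n] {x y : V n} {ρ ρ' : ℕ} (h : dst T x y + ρ' ≤ ρ) :
    nb T y ρ' ≤ nb T x ρ := by
  unfold nb
  refine Set.ncard_le_ncard ?_ (Set.toFinite _)
  intro z hz
  have h1 : dst T y z ≤ ρ' := hz
  have h2 := dst_triangle T x y z
  show dst T x z ≤ ρ
  omega

end treebasic

end Pool.Agent.UST
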