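import Pool.Agent.Helper54.UST.NT
import Pool.Agent.Helper54.UST.LT
import Pool.Agent.Helper54.UST.Av
import Pool.Agent.Helper54.UST.TreeBasic

/-! Main theorem. -/

namespace Pool.Agent.UST

open MeasureTheory

private theorem main_cover {n : ℕ} [NeZero n] (T : Tr n) (a δ : ℝ) (ha : 0 < a) (K : ℕ)
    (hK : 1 ≤ K) (L : List (V n)) (hL : L.length = K + 1) :
    ind (∃ x : V n, (nb T x ⌊a * rr n⌋₊ : ℝ) < δ * NN n) ≤
      ind (∃ x : V n, ∀ y ∈ spn T L, a / 4 * rr n < dst T x y) +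
      ∑ j ∈ Finset.Icc 1 K, ind (∃ z ∈ pth T (L.getD j 0) (L.getD 0 0),
        (nb T z ⌊a / 2 * rr n⌋₊ : ℝ) < δ * NN n) := by
  refine le_trans ?_ (add_le_add_right (ind_exists_le (Finset.Icc 1 K) fun j =>
    ∃ z ∈ pth T (L.getD j 0) (L.getD 0 0), (nb T z ⌊a / 2 * rr n⌋₊ : ℝ) < δ * NN n) _)
  refine le_trans (ind_mono ?_) (ind_or_le _ _)
  rintro ⟨x, hx⟩
  by_cases h : ∀ y ∈ spn T L, a / 4 * rr n < dst T x y
  · exact Or.inl ⟨x, h⟩
  right
  push Not at h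
  obtain ⟨y, hy, hxy⟩ := h
  have hne : L ≠ [] := by
    rintro rfl
    simp at hL
  have hhead : L.headD 0 = L.getD 0 0 := by
    cases L with
    | nil => exact absurd rfl hne
    | cons b L => rfl
  have hr : 0 ≤ rr n := by
    unfold rr LL
    have : 0 ≤ Real.log n := Real.log_natCast_nonneg n
    positivity
  -- the point is thin
  have hthin : (nb T y ⌊a / 2 * rr n⌋₊ : ℝ) < δ * NN n := by
    refine lt_of_le_of_lt ?_ hx
    have h1 : dst T x y + ⌊a / 2 * rr n⌋₊ ≤ ⌊a * rr n⌋₊ := by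
      apply Nat.le_floor
      push_cast
      have h2 : (⌊a / 2 * rr n⌋₊ : ℝ) ≤ a / 2 * rr n := Nat.floor_le (by positivity)
      have h3 : 0 ≤ a * rr n := by positivity
      linarith
    exact_mod_cast nb_mono T h1
  obtain ⟨u, hu, hyu⟩ := hy
  rw [hhead] at hyu
  obtain ⟨j, hj, hju⟩ := List.getElem_of_mem hu
  have hju' : L.getD j 0 = u := by
    rw [List.getD_eq_getElem _ _ hj, hju]
  rcases Nat.eq_zero_or_pos j with hj0 | hj0
  · -- then `y` is the root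
    subst hj0
    rw [← hju', pth_self] at hyu
    rw [List.mem_singleton] at hyu
    refine ⟨1, Finset.mem_Icc.2 ⟨le_rfl, hK⟩, y, ?_, hthin⟩
    rw [hyu]
    exact pth_mem_right T _ _
  · refine ⟨j, Finset.mem_Icc.2 ⟨hj0, by omega⟩, y, ?_, hthin⟩
    rw [hju']
    exact hyu

theorem mainTr (a ε : ℝ) (ha : 0 < a) (hε : 0 < ε) : ∃ δ : ℝ, 0 < δ ∧ ∃ n0 : ℕ,
    ∀ (n : ℕ) [NeZero n], n0 ≤ n →
    av (fun T : Tr n => ind (∃ x : V n, (nb T x ⌊a * rr n⌋₊ : ℝ) < δ * NN n)) ≤ ε := by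
  obtain ⟨K, hK, n1, h1⟩ := leafTight (ε / 2) (a / 4) (by positivity) (by positivity)
  have hKr : (1 : ℝ) ≤ K := by exact_mod_cast hK
  obtain ⟨δ, hδ, n2, h2⟩ := noThin (a / 2) (ε / (2 * K)) (by positivity) (by positivity)
  refine ⟨δ, hδ, max n1 n2, fun n _ hn => ?_⟩
  have g1 := h1 n (le_trans (le_max_left _ _) hn)
  have g2 := h2 n (le_trans (le_max_right _ _) hn)
  have hstep : ∀ T : Tr n, ind (∃ x : V n, (nb T x ⌊a * rr n⌋₊ : ℝ) < δ * NN n) ≤
      avL (fun L => ind (∃ x : V n, ∀ y ∈ spn T L, a / 4 * rr n < dst T x y)) (K + 1) +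
      ∑ _j ∈ Finset.Icc 1 K, av (fun w : V n => av (fun u : V n =>
        ind (∃ z ∈ pth T w u, (nb T z ⌊a / 2 * rr n⌋₊ : ℝ) < δ * NN n))) := by
    intro T
    have e1 := avL_mono n (K + 1) (fun L hL => main_cover T a δ ha K hK L hL)
    rw [avL_const, avL_add_fn, avL_sum] at e1
    refine e1.trans (le_of_eq ?_)
    congr 1
    refine Finset.sum_congr rfl fun j hj => ?_
    rw [Finset.mem_Icc] at hj
    exact avL_get₂ n (fun w u => ind (∃ z ∈ pth T w u,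
      (nb T z ⌊a / 2 * rr n⌋₊ : ℝ) < δ * NN n)) (K + 1) j 0 (by omega) (by omega) (by omega)
  refine (av_mono hstep).trans ?_
  rw [av_add, av_sum]
  have e2 : ∑ _j ∈ Finset.Icc 1 K, av (fun T : Tr n => av (fun w : V n => av (fun u : V n =>
        ind (∃ z ∈ pth T w u, (nb T z ⌊a / 2 * rr n⌋₊ : ℝ) < δ * NN n)))) ≤ ε / 2 := by
    rw [Finset.sum_const, Nat.card_Icc, nsmul_eq_mul]
    have hc : ((K + 1 - 1 : ℕ) : ℝ) = K := by norm_num
    rw [hc]
    calc (K : ℝ) * _ ≤ K * (ε / (2 * K)) := mul_le_mul_of_nonneg_left g2 (by positivity)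
      _ = ε / 2 := by field_simp
  linarith

end Pool.Agent.UST
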