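import Pool.Agent.Helper54.UST.PmBasic
import Pool.Agent.Helper54.UST.Heat
import Pool.Agent.Helper54.UST.Av

namespace Pool.Agent.UST

open MeasureTheory

section mixaux
variable {D : Type} [Fintype D] [Nonempty D] [MeasurableSpace D] [MeasurableSingletonClass D]

/-- restriction to the first `t` choices -/
private def mrt (D : Type) (t : ℕ) (ω : ℕ → D) : Fin t → D := fun i => ω i

private theorem measurable_mrt (t : ℕ) : Measurable (mrt D t) :=
  measurable_pi_lambda _ fun i => measurable_pi_apply _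

/-- extension of a finite sequence of choices -/
private noncomputable def mxt {D : Type} [Nonempty D] (t : ℕ) (a : Fin t → D) : ℕ → D :=
  fun i => if h : i < t then a ⟨i, h⟩ else Classical.arbitrary D

private theorem mxt_mrt (t : ℕ) (ω : ℕ → D) : ∀ i, i < t → ω i = mxt t (mrt D t ω) i := by
  intro i hi
  simp [mxt, mrt, hi]

/-- joint measurability if the dependence on the first argument is finite -/
private theorem measurable_uncurry_dep (t : ℕ) (F : (ℕ → D) → (ℕ → D) → ℝ)
    (hF : ∀ ω, Measurable (F ω))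
    (hdep : ∀ ω ω' η, (∀ i, i < t → ω i = ω' i) → F ω η = F ω' η) :
    Measurable (Function.uncurry F) := by
  have h : Function.uncurry F =
      (fun p : (Fin t → D) × (ℕ → D) => F (mxt t p.1) p.2) ∘ (Prod.map (mrt D t) id) := by
    funext p
    exact hdep _ _ _ (mxt_mrt t p.1)
  rw [h]
  refine Measurable.comp ?_ ((measurable_mrt t).prodMap measurable_id)
  exact measurable_from_prod_countable_right fun a => hF (mxt t a)

/-- a function of finitely many choices is bounded -/
private theorem bdd_dep (t : ℕ) (f : (ℕ → D) → ℝ)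
    (hf : ∀ ω ω' : ℕ → D, (∀ i, i < t → ω i = ω' i) → f ω = f ω') : ∃ C, ∀ ω, |f ω| ≤ C := by
  refine ⟨∑ a : Fin t → D, |f (mxt t a)|, fun ω => ?_⟩
  rw [hf _ _ (mxt_mrt t ω)]
  exact Finset.single_le_sum (f := fun a : Fin t → D => |f (mxt t a)|)
    (fun a _ => abs_nonneg _) (Finset.mem_univ (mrt D t ω))

private theorem integrable_bdd (f : (ℕ → D) → ℝ) (hf : Measurable f) (C : ℝ)
    (hC : ∀ ω, |f ω| ≤ C) : Integrable f (mu D) :=
  Integrable.of_bound hf.aestronglyMeasurable C (ae_of_all _ fun ω => by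
    rw [Real.norm_eq_abs]
    exact hC ω)

private theorem integrable_dep (t : ℕ) (f : (ℕ → D) → ℝ)
    (hf : ∀ ω ω' : ℕ → D, (∀ i, i < t → ω i = ω' i) → f ω = f ω') : Integrable f (mu D) := by
  obtain ⟨C, hC⟩ := bdd_dep t f hf
  exact integrable_bdd f (measurable_dep t f hf) C hC

private theorem hit_congr' {W : Type} (act : D → W → W) (x : W) (ω ω' : ℕ → D) (s t : ℕ)
    (B : Set W) (h : ∀ i, i < t → ω i = ω' i) : hit act x ω s t B ↔ hit act x ω' s t B := by
  rw [hit_iff, hit_iff, seg_congr act x ω ω' s t h]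

private theorem hit_shift' {W : Type} (act : D → W → W) (x : W) (ω : ℕ → D) (r s t : ℕ)
    (B : Set W) : hit act x ω (r + s) (r + t) B ↔ hit act (pos act x ω r) (sh r ω) s t B := by
  rw [hit_iff, hit_iff, seg_shift]

end mixaux

section mix
variable (n : ℕ) [NeZero n]

private theorem measurableSet_dep (t : ℕ) (P : (ℕ → DD) → Prop)
    (hP : ∀ ω ω' : ℕ → DD, (∀ i, i < t → ω i = ω' i) → (P ω ↔ P ω')) :
    MeasurableSet {ω | P ω} := by
  have h : Measurable P := measurable_dep t P fun ω ω' h => propext (hP ω ω' h)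
  exact measurableSet_setOfPred.mpr h

private theorem card_V : (Fintype.card (V n) : ℝ) = NN n := by
  simp [V, NN, ZMod.card]

private theorem NN_pos : 0 < NN n := by
  have : (0 : ℝ) < n := by exact_mod_cast Nat.pos_of_ne_zero (NeZero.ne n)
  unfold NN
  positivity

/-- the law of the position at time `t` -/
private theorem int_pos (x : V n) (t : ℕ) (g : V n → ℝ) :
    ∫ η, g (pos (act n) x η t) ∂(mu DD) = ∑ y, g y * hk n t x y := by
  have h1 : ∀ η : ℕ → DD, g (pos (act n) x η t) = ∑ y, g y * ind (pos (act n) x η t = y) := by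
    intro η
    rw [Finset.sum_eq_single (pos (act n) x η t)]
    · rw [ind_true rfl, mul_one]
    · intro y _ hy
      rw [ind_false (fun h => hy h.symm), mul_zero]
    · intro h
      exact absurd (Finset.mem_univ _) h
  simp_rw [h1]
  have hdep : ∀ y : V n, ∀ ω ω' : ℕ → DD, (∀ i, i < t → ω i = ω' i) →
      g y * ind (pos (act n) x ω t = y) = g y * ind (pos (act n) x ω' t = y) := by
    intro y ω ω' h
    rw [pos_congr (act n) x ω ω' t h]
  rw [integral_finsetSum _ fun y _ => integrable_dep t _ (hdep y)]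
  refine Finset.sum_congr rfl fun y _ => ?_
  rw [integral_const_mul, integral_ind]
  · rfl
  · refine measurableSet_dep t _ fun ω ω' h => ?_
    rw [pos_congr (act n) x ω ω' t h]

/-- the two Markov properties at the times `s` and `s - t0` -/
private theorem mix_eq (x : V n) (s : ℕ) (hs : t0 n ≤ s) (F : (ℕ → DD) → V n → (ℕ → DD) → ℝ)
    (hF : ∀ ω y, Measurable (F ω y)) (C : ℝ) (hC : ∀ ω y η, 0 ≤ F ω y η ∧ F ω y η ≤ C)
    (hdep : ∀ ω ω' y η, (∀ i, i < s - t0 n → ω i = ω' i) → F ω y η = F ω' y η) :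
    ∫ ω, F ω (pos (act n) x ω s) (sh s ω) ∂(mu DD) =
      ∫ ω, ∑ y, (∫ η, F ω y η ∂(mu DD)) * hk n (t0 n) (pos (act n) x ω (s - t0 n)) y ∂(mu DD) := by
  have h1 := markov_int s (fun ω η => F ω (pos (act n) x ω s) η)
    (measurable_uncurry_dep s _ (fun ω => hF _ _) (fun ω ω' η h => by
      rw [pos_congr (act n) x ω ω' s h]
      exact hdep _ _ _ _ fun i hi => h i (by omega))) C
    (fun ω η => by
      rw [abs_of_nonneg (hC _ _ _).1]
      exact (hC _ _ _).2)
    (fun ω ω' η h => by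
      rw [pos_congr (act n) x ω ω' s h]
      exact hdep _ _ _ _ fun i hi => h i (by omega))
  rw [h1]
  have hg0 : ∀ ω y, 0 ≤ ∫ η, F ω y η ∂(mu DD) := fun ω y => integral_nonneg fun η => (hC _ _ _).1
  have hgC : ∀ ω y, ∫ η, F ω y η ∂(mu DD) ≤ C := by
    intro ω y
    have : ∫ η, F ω y η ∂(mu DD) ≤ ∫ _, C ∂(mu DD) := by
      refine integral_mono (integrable_bdd _ (hF _ _) C fun η => ?_) (integrable_const _)
        fun η => (hC _ _ _).2
      rw [abs_of_nonneg (hC _ _ _).1]
      exact (hC _ _ _).2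
    simpa using this
  have hgdep : ∀ ω ω' y, (∀ i, i < s - t0 n → ω i = ω' i) →
      ∫ η, F ω y η ∂(mu DD) = ∫ η, F ω' y η ∂(mu DD) := by
    intro ω ω' y h
    congr 1
    funext η
    exact hdep _ _ _ _ h
  have e : ∀ ω : ℕ → DD, pos (act n) x ω s =
      pos (act n) (pos (act n) x ω (s - t0 n)) (sh (s - t0 n) ω) (t0 n) := by
    intro ω
    rw [← pos_add]
    congr 1
    omega
  have h2 := markov_int (s - t0 n)
    (fun ω η => ∫ ζ, F ω (pos (act n) (pos (act n) x ω (s - t0 n)) η (t0 n)) ζ ∂(mu DD))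
    (measurable_uncurry_dep (s - t0 n) _
      (fun ω => measurable_dep (t0 n) _ fun η η' h => by
        rw [pos_congr (act n) _ η η' _ h])
      (fun ω ω' η h => by
        rw [pos_congr (act n) x ω ω' _ h]
        exact hgdep _ _ _ h)) C
    (fun ω η => by
      rw [abs_of_nonneg (hg0 _ _)]
      exact hgC _ _)
    (fun ω ω' η h => by
      rw [pos_congr (act n) x ω ω' _ h]
      exact hgdep _ _ _ h)
  simp_rw [e]
  rw [h2]
  congr 1
  funext ω
  exact int_pos n _ _ (fun y => ∫ ζ, F ω y ζ ∂(mu DD))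

/-- the future after time `s` given the choices before `s - t0` -/
theorem mix_le (x : V n) (s : ℕ) (hs : t0 n ≤ s) (F : (ℕ → DD) → V n → (ℕ → DD) → ℝ)
    (hF : ∀ ω y, Measurable (F ω y)) (C : ℝ) (hC : ∀ ω y η, 0 ≤ F ω y η ∧ F ω y η ≤ C)
    (hdep : ∀ ω ω' y η, (∀ i, i < s - t0 n → ω i = ω' i) → F ω y η = F ω' y η) :
    ∫ ω, F ω (pos (act n) x ω s) (sh s ω) ∂(mu DD) ≤
      2 * ∫ ω, av (fun y : V n => ∫ η, F ω y η ∂(mu DD)) ∂(mu DD) := by
  have hg0 : ∀ ω y, 0 ≤ ∫ η, F ω y η ∂(mu DD) := fun ω y => integral_nonneg fun η => (hC _ _ _).1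
  have hgdep : ∀ ω ω' y, (∀ i, i < s - t0 n → ω i = ω' i) →
      ∫ η, F ω y η ∂(mu DD) = ∫ η, F ω' y η ∂(mu DD) := by
    intro ω ω' y h
    congr 1
    funext η
    exact hdep _ _ _ _ h
  rw [mix_eq n x s hs F hF C hC hdep, ← integral_const_mul]
  refine integral_mono ?_ ?_ fun ω => ?_
  · refine integrable_dep (s - t0 n) _ fun ω ω' h => ?_
    refine Finset.sum_congr rfl fun y _ => ?_
    rw [pos_congr (act n) x ω ω' _ h, hgdep _ _ _ h]
  · refine integrable_dep (s - t0 n) _ fun ω ω' h => ?_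
    congr 2
    funext y
    exact hgdep _ _ _ h
  · show ∑ y, (∫ η, F ω y η ∂(mu DD)) * hk n (t0 n) (pos (act n) x ω (s - t0 n)) y ≤
      2 * ((∑ y, ∫ η, F ω y η ∂(mu DD)) / (Fintype.card (V n) : ℝ))
    rw [card_V, mul_div_assoc', Finset.mul_sum, Finset.sum_div]
    refine Finset.sum_le_sum fun y _ => ?_
    have := mul_le_mul_of_nonneg_left
      (heat_mix n (t0 n) le_rfl (pos (act n) x ω (s - t0 n)) y).2 (hg0 ω y)
    refine this.trans (le_of_eq ?_)
    ring

theorem mix_ge (x : V n) (s : ℕ) (hs : t0 n ≤ s) (F : (ℕ → DD) → V n → (ℕ → DD) → ℝ)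
    (hF : ∀ ω y, Measurable (F ω y)) (C : ℝ) (hC : ∀ ω y η, 0 ≤ F ω y η ∧ F ω y η ≤ C)
    (hdep : ∀ ω ω' y η, (∀ i, i < s - t0 n → ω i = ω' i) → F ω y η = F ω' y η) :
    (1 / 2) * ∫ ω, av (fun y : V n => ∫ η, F ω y η ∂(mu DD)) ∂(mu DD) ≤
      ∫ ω, F ω (pos (act n) x ω s) (sh s ω) ∂(mu DD) := by
  have hg0 : ∀ ω y, 0 ≤ ∫ η, F ω y η ∂(mu DD) := fun ω y => integral_nonneg fun η => (hC _ _ _).1
  have hgdep : ∀ ω ω' y, (∀ i, i < s - t0 n → ω i = ω' i) →
      ∫ η, F ω y η ∂(mu DD) = ∫ η, F ω' y η ∂(mu DD) := by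
    intro ω ω' y h
    congr 1
    funext η
    exact hdep _ _ _ _ h
  rw [mix_eq n x s hs F hF C hC hdep, ← integral_const_mul]
  refine integral_mono ?_ ?_ fun ω => ?_
  · refine integrable_dep (s - t0 n) _ fun ω ω' h => ?_
    congr 2
    funext y
    exact hgdep _ _ _ h
  · refine integrable_dep (s - t0 n) _ fun ω ω' h => ?_
    refine Finset.sum_congr rfl fun y _ => ?_
    rw [pos_congr (act n) x ω ω' _ h, hgdep _ _ _ h]
  · show (1 / 2) * ((∑ y, ∫ η, F ω y η ∂(mu DD)) / (Fintype.card (V n) : ℝ)) ≤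
      ∑ y, (∫ η, F ω y η ∂(mu DD)) * hk n (t0 n) (pos (act n) x ω (s - t0 n)) y
    rw [card_V, mul_div_assoc', Finset.mul_sum, Finset.sum_div]
    refine Finset.sum_le_sum fun y _ => ?_
    have := mul_le_mul_of_nonneg_left
      (heat_mix n (t0 n) le_rfl (pos (act n) x ω (s - t0 n)) y).1 (hg0 ω y)
    refine (le_of_eq ?_).trans this
    have := (NN_pos n).ne'
    field_simp

private theorem measurable_ind_hit (y : V n) (a b : ℕ) (B : Set (V n)) :
    Measurable (fun η : ℕ → DD => ind (hit (act n) y η a b B)) :=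
  measurable_dep b _ fun η η' h => by
    rw [hit_congr' (act n) y η η' a b B h]

private theorem int_ind_hit (y : V n) (a b : ℕ) (B : Set (V n)) :
    ∫ η, ind (hit (act n) y η a b B) ∂(mu DD) = pr {η | hit (act n) y η a b B} := by
  rw [integral_ind]
  · rfl
  · exact measurableSet_dep b _ fun ω ω' h => hit_congr' (act n) y ω ω' a b B h

theorem hit_mix_le (x : V n) (s m : ℕ) (hs : t0 n ≤ s) (G : (ℕ → DD) → ℝ) (hG : ∀ ω, 0 ≤ G ω)
    (B : (ℕ → DD) → Set (V n))
    (hdepG : ∀ ω ω', (∀ i, i < s - t0 n → ω i = ω' i) → G ω = G ω')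
    (hdepB : ∀ ω ω', (∀ i, i < s - t0 n → ω i = ω' i) → B ω = B ω') :
    ∫ ω, G ω * ind (hit (act n) x ω s (s + m) (B ω)) ∂(mu DD) ≤
      2 * ∫ ω, G ω * pm n m (B ω) ∂(mu DD) := by
  obtain ⟨C, hC⟩ := bdd_dep (s - t0 n) G hdepG
  have h := mix_le n x s hs (fun ω y η => G ω * ind (hit (act n) y η 0 m (B ω)))
    (fun ω y => (measurable_ind_hit n y 0 m (B ω)).const_mul _) C
    (fun ω y η => ⟨mul_nonneg (hG _) (ind_nonneg _), by
      have h1 : G ω * ind (hit (act n) y η 0 m (B ω)) ≤ G ω * 1 :=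
        mul_le_mul_of_nonneg_left (ind_le_one _) (hG _)
      have h2 := (le_abs_self _).trans (hC ω)
      linarith⟩)
    (fun ω ω' y η h => by
      rw [hdepG _ _ h, hdepB _ _ h])
  refine (le_of_eq ?_).trans (h.trans (le_of_eq ?_))
  · congr 1
    funext ω
    congr 2
    exact propext (hit_shift' (act n) x ω s 0 m (B ω))
  · congr 2
    funext ω
    show av (fun y : V n => ∫ η, G ω * ind (hit (act n) y η 0 m (B ω)) ∂(mu DD)) = _
    simp_rw [integral_const_mul, int_ind_hit]
    exact av_mul_left _ _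

theorem hit_ge (x : V n) (m : ℕ) (B : Set (V n)) :
    pm n m B / 2 ≤ pr {ω | hit (act n) x ω (t0 n) (t0 n + m) B} := by
  have h := mix_ge n x (t0 n) le_rfl (fun _ y η => ind (hit (act n) y η 0 m B))
    (fun ω y => measurable_ind_hit n y 0 m B) 1
    (fun ω y η => ⟨ind_nonneg _, ind_le_one _⟩) (fun _ _ _ _ _ => rfl)
  simp_rw [int_ind_hit] at h
  have e1 : ∫ _ : ℕ → DD, av (fun y : V n => pr {η | hit (act n) y η 0 m B}) ∂(mu DD) =
      pm n m B := by
    simp [pm]
  rw [e1] at h
  have e2 : ∫ ω, ind (hit (act n) (pos (act n) x ω (t0 n)) (sh (t0 n) ω) 0 m B) ∂(mu DD) =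
      pr {ω | hit (act n) x ω (t0 n) (t0 n + m) B} := by
    rw [← int_ind_hit]
    congr 1
    funext ω
    congr 1
    exact propext (hit_shift' (act n) x ω (t0 n) 0 m B).symm
  rw [e2] at h
  linarith

/-- `J` blocks -/
private theorem miss_blocks (m : ℕ) (B : Set (V n)) (J : ℕ) : ∀ x : V n,
    ∫ ω, ind (∀ j, j < J → ¬ hit (act n) x ω (j * (m + t0 n) + t0 n)
      (j * (m + t0 n) + (t0 n + m)) B) ∂(mu DD) ≤ (1 - pm n m B / 2) ^ J := by
  induction J with
  | zero =>
    intro x
    simp [ind]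
  | succ J ih =>
    intro x
    set b := m + t0 n with hb
    have e : ∀ ω : ℕ → DD, ind (∀ j, j < J + 1 → ¬ hit (act n) x ω (j * b + t0 n)
        (j * b + (t0 n + m)) B) =
        ind (¬ hit (act n) x ω (t0 n) (t0 n + m) B) *
          ind (∀ j, j < J → ¬ hit (act n) (pos (act n) x ω b) (sh b ω) (j * b + t0 n)
            (j * b + (t0 n + m)) B) := by
      intro ω
      rw [← ind_and]
      congr 1
      refine propext ⟨fun h => ⟨?_, fun j hj => ?_⟩, fun h j hj => ?_⟩
      · have := h 0 (Nat.succ_pos _)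
        simpa using this
      · have := h (j + 1) (by omega)
        rw [← hit_shift']
        have e1 : b + (j * b + t0 n) = (j + 1) * b + t0 n := by ring
        have e2 : b + (j * b + (t0 n + m)) = (j + 1) * b + (t0 n + m) := by ring
        rw [e1, e2]
        exact this
      · rcases j with _ | j
        · simpa using h.1
        · have := h.2 j (by omega)
          rw [← hit_shift'] at this
          have e1 : b + (j * b + t0 n) = (j + 1) * b + t0 n := by ring
          have e2 : b + (j * b + (t0 n + m)) = (j + 1) * b + (t0 n + m) := by ring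
          rw [e1, e2] at this
          exact this
    simp_rw [e]
    have hd1 : ∀ ω ω' : ℕ → DD, (∀ i, i < b → ω i = ω' i) →
        ind (¬ hit (act n) x ω (t0 n) (t0 n + m) B) =
        ind (¬ hit (act n) x ω' (t0 n) (t0 n + m) B) := by
      intro ω ω' h
      rw [hit_congr' (act n) x ω ω' (t0 n) (t0 n + m) B fun i hi => h i (by omega)]
    have hd2 : ∀ y : V n, ∀ η η' : ℕ → DD, (∀ i, i < J * b + (t0 n + m) → η i = η' i) →
        ind (∀ j, j < J → ¬ hit (act n) y η (j * b + t0 n) (j * b + (t0 n + m)) B) =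
        ind (∀ j, j < J → ¬ hit (act n) y η' (j * b + t0 n) (j * b + (t0 n + m)) B) := by
      intro y η η' h
      congr 1
      refine propext (forall_congr' fun j => forall_congr' fun hj => not_congr ?_)
      refine hit_congr' (act n) y η η' _ _ B fun i hi => h i (hi.trans_le ?_)
      exact Nat.add_le_add_right (Nat.mul_le_mul_right _ hj.le) _
    have hM := markov_int b (fun ω η => ind (¬ hit (act n) x ω (t0 n) (t0 n + m) B) *
        ind (∀ j, j < J → ¬ hit (act n) (pos (act n) x ω b) η (j * b + t0 n)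
            (j * b + (t0 n + m)) B))
      (measurable_uncurry_dep b _
        (fun ω => (measurable_dep (J * b + (t0 n + m)) _ (hd2 _)).const_mul _)
        (fun ω ω' η h => by
          rw [hd1 _ _ h, pos_congr (act n) x ω ω' b h])) 1
      (fun ω η => by
        rw [abs_of_nonneg (mul_nonneg (ind_nonneg _) (ind_nonneg _))]
        exact mul_le_one₀ (ind_le_one _) (ind_nonneg _) (ind_le_one _))
      (fun ω ω' η h => by
        rw [hd1 _ _ h, pos_congr (act n) x ω ω' b h])
    rw [hM]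
    have hp0 : 0 ≤ 1 - pm n m B / 2 := by
      have := pm_le_one n m B
      linarith
    have hstep : ∫ ω, ∫ η, ind (¬ hit (act n) x ω (t0 n) (t0 n + m) B) *
        ind (∀ j, j < J → ¬ hit (act n) (pos (act n) x ω b) η (j * b + t0 n)
            (j * b + (t0 n + m)) B) ∂(mu DD) ∂(mu DD) ≤
        ∫ ω, ind (¬ hit (act n) x ω (t0 n) (t0 n + m) B) * (1 - pm n m B / 2) ^ J ∂(mu DD) := by
      refine integral_mono ?_ ?_ fun ω => ?_
      · refine integrable_dep b _ fun ω ω' h => ?_
        congr 1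
        funext η
        rw [hd1 _ _ h, pos_congr (act n) x ω ω' b h]
      · refine integrable_dep b _ fun ω ω' h => ?_
        show _ * _ = _ * _
        rw [hd1 _ _ h]
      · show ∫ η, _ ∂(mu DD) ≤ _
        rw [integral_const_mul]
        exact mul_le_mul_of_nonneg_left (ih _) (ind_nonneg _)
    refine hstep.trans ?_
    rw [integral_mul_const, pow_succ, mul_comm]
    refine mul_le_mul_of_nonneg_left ?_ (pow_nonneg hp0 _)
    have e3 : ∫ ω, ind (¬ hit (act n) x ω (t0 n) (t0 n + m) B) ∂(mu DD) =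
        1 - ∫ ω, ind (hit (act n) x ω (t0 n) (t0 n + m) B) ∂(mu DD) := by
      simp_rw [ind_not]
      rw [integral_sub (integrable_const _)]
      · simp
      · exact integrable_dep (t0 n + m) _ fun ω ω' h => by
          rw [hit_congr' (act n) x ω ω' _ _ B h]
    rw [e3, int_ind_hit]
    have := hit_ge n x m B
    linarith

theorem miss_le (x : V n) (T m : ℕ) (B : Set (V n)) :
    pr {ω | ¬ hit (act n) x ω (t0 n) T B} ≤ (1 - pm n m B / 2) ^ (T / (m + t0 n)) := by
  refine le_trans ?_ (miss_blocks n m B (T / (m + t0 n)) x)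
  have e : pr {ω | ¬ hit (act n) x ω (t0 n) T B} =
      ∫ ω, ind (¬ hit (act n) x ω (t0 n) T B) ∂(mu DD) := by
    rw [integral_ind]
    · rfl
    · exact measurableSet_dep T _ fun ω ω' h =>
        not_congr (hit_congr' (act n) x ω ω' (t0 n) T B h)
  rw [e]
  refine integral_mono ?_ ?_ fun ω => ?_
  · exact integrable_dep T _ fun ω ω' h => by
      rw [hit_congr' (act n) x ω ω' (t0 n) T B h]
  · refine integrable_dep (T / (m + t0 n) * (m + t0 n) + (t0 n + m)) _ fun ω ω' h => ?_
    congr 1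
    refine propext (forall_congr' fun j => forall_congr' fun hj => not_congr ?_)
    refine hit_congr' (act n) x ω ω' _ _ B fun i hi => h i (hi.trans_le ?_)
    exact Nat.add_le_add_right (Nat.mul_le_mul_right _ hj.le) _
  · refine ind_mono fun h j hj => fun hh => h ?_
    obtain ⟨i, h1, h2, h3⟩ := hh
    refine ⟨i, ?_, ?_, h3⟩
    · exact le_trans (Nat.le_add_left _ _) h1
    · have h4 : (j + 1) * (m + t0 n) ≤ T / (m + t0 n) * (m + t0 n) :=
        Nat.mul_le_mul_right _ hj
      have h5 : T / (m + t0 n) * (m + t0 n) ≤ T := Nat.div_mul_le_self _ _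
      have h6 : (j + 1) * (m + t0 n) = j * (m + t0 n) + (t0 n + m) := by ring
      omega

end mix

end Pool.Agent.UST
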