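import Pool.Agent.Helper54.UST.S1
import Pool.Agent.Helper54.UST.LTb
import Pool.Agent.Helper54.UST.GPa
import Pool.Agent.Helper54.UST.Asy

/-! Paper 10.1. -/

namespace Pool.Agent.UST

open MeasureTheory

theorem p101_lerw (n : ℕ) (x : V n) (ω : ℕ → DD) (A : Set (V n)) :
    lerw (act n) x ω A = MM n [x] x ω (tau (act n) x ω A) := by
  unfold lerw MM
  have h : seg (act n) x ω 0 (tau (act n) x ω A) = x :: seg (act n) x ω 1 (tau (act n) x ω A) := by
    rw [seg_append (act n) x ω 0 0 (tau (act n) x ω A) (by omega) (Nat.zero_le _)]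
    simp [seg, pos]
  rw [h, le_cons]

/-- for a fixed target set -/
theorem p101_S (n : ℕ) [NeZero n] (S : Set (V n)) (hS : S.Nonempty) (ξ θ η ε' : ℝ) (m : ℕ)
    (hm : θ * kk n ≤ m) (hε' : 0 ≤ ε') (ht0 : (t0 n : ℝ) ≤ ξ * kk n) (h1 : 1 ≤ ξ * kk n)
    (hgp : ∀ (x : V n) (γ : List (V n)), Path1 γ x →
      pr {ω | ∃ t : ℕ, θ * kk n ≤ t ∧ (t : ℝ) ≤ 1 * kk n ∧
        qq n (st (MM n γ x ω t)) < η} ≤ ε') :
    av (fun v : V n => ∫ ω, ind (MA n S ≤ ξ * kk n ∧ qq n (st (lerw (act n) v ω S)) < η)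
      ∂(mu DD)) ≤ pm n m S + 2 * (2 : ℝ) ^ (-((kk n : ℝ) / (3 * (3 * (ξ * kk n))))) + ε' := by
  classical
  have hpos : 0 ≤ 2 * (2 : ℝ) ^ (-((kk n : ℝ) / (3 * (3 * (ξ * kk n))))) := by positivity
  by_cases hMA : MA n S ≤ ξ * kk n
  · have hEt : ∀ x, Et n S x ≤ 3 * (ξ * kk n) := fun x => by
      have := Et_le_MA n S hS x
      linarith
    have hb : ∀ v : V n, ∫ ω, ind (MA n S ≤ ξ * kk n ∧ qq n (st (lerw (act n) v ω S)) < η)
        ∂(mu DD) ≤ pr {ω | hit (act n) v ω 0 m S} +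
          (2 * (2 : ℝ) ^ (-((kk n : ℝ) / (3 * (3 * (ξ * kk n))))) + ε') := by
      intro v
      have hmeas : MeasurableSet {ω : ℕ → DD | MA n S ≤ ξ * kk n ∧
          qq n (st (lerw (act n) v ω S)) < η} := by
        refine measurableSet_setOfPred.2 ?_
        exact measurable_tau (act n) S v (fun t ω => MA n S ≤ ξ * kk n ∧
          qq n (st (le (seg (act n) v ω 0 t))) < η) (fun t ω ω' h => by
            rw [seg_congr (act n) v ω ω' 0 t h])
      rw [integral_ind _ _ hmeas]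
      have hae := ae_hit (act n) S (act_reach n S hS) v
      have hnull : (mu DD).real {ω | ¬ ∃ t, pos (act n) v ω t ∈ S} = 0 := by
        rw [measureReal_def, show (mu DD) {ω | ¬ ∃ t, pos (act n) v ω t ∈ S} = 0 from
          ae_iff.1 hae]
        rfl
      have hsub : {ω : ℕ → DD | MA n S ≤ ξ * kk n ∧ qq n (st (lerw (act n) v ω S)) < η} ⊆
          (({ω | ¬ ∃ t, pos (act n) v ω t ∈ S} ∪ {ω | hit (act n) v ω 0 m S}) ∪
          {ω | kk n < tau (act n) v ω S}) ∪ {ω | ∃ t : ℕ, θ * kk n ≤ t ∧ (t : ℝ) ≤ 1 * kk n ∧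
            qq n (st (MM n [v] v ω t)) < η} := by
        rintro ω ⟨-, hω⟩
        by_cases he : ∃ t, pos (act n) v ω t ∈ S
        · by_cases hk : kk n < tau (act n) v ω S
          · exact Or.inl (Or.inr hk)
          · by_cases hθ : θ * kk n ≤ (tau (act n) v ω S : ℝ)
            · refine Or.inr ⟨tau (act n) v ω S, hθ, ?_, ?_⟩
              · rw [one_mul]
                exact_mod_cast not_lt.1 hk
              · rw [← p101_lerw]
                exact hω
            · refine Or.inl (Or.inl (Or.inr ?_))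
              refine ⟨tau (act n) v ω S, Nat.zero_le _, ?_, (tau_spec (act n) v ω S he).1⟩
              have : (tau (act n) v ω S : ℝ) ≤ m := by linarith
              exact_mod_cast this
        · exact Or.inl (Or.inl (Or.inl he))
      have hfin : ∀ s : Set (ℕ → DD), (mu DD) s ≠ ⊤ := fun s => measure_ne_top _ _
      calc (mu DD).real {ω : ℕ → DD | MA n S ≤ ξ * kk n ∧
            qq n (st (lerw (act n) v ω S)) < η}
          ≤ (mu DD).real ((({ω | ¬ ∃ t, pos (act n) v ω t ∈ S} ∪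
            {ω | hit (act n) v ω 0 m S}) ∪ {ω | kk n < tau (act n) v ω S}) ∪
            {ω | ∃ t : ℕ, θ * kk n ≤ t ∧ (t : ℝ) ≤ 1 * kk n ∧
            qq n (st (MM n [v] v ω t)) < η}) := measureReal_mono hsub (hfin _)
        _ ≤ (mu DD).real {ω | ¬ ∃ t, pos (act n) v ω t ∈ S} +
            (mu DD).real {ω | hit (act n) v ω 0 m S} +
            (mu DD).real {ω | kk n < tau (act n) v ω S} +
            (mu DD).real {ω | ∃ t : ℕ, θ * kk n ≤ t ∧ (t : ℝ) ≤ 1 * kk n ∧
            qq n (st (MM n [v] v ω t)) < η} := by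
            refine (measureReal_union_le _ _).trans ?_
            gcongr
            refine (measureReal_union_le _ _).trans ?_
            gcongr
            exact measureReal_union_le _ _
        _ ≤ _ := by
            rw [hnull, zero_add]
            have e1 := survive_pr n S hS (3 * (ξ * kk n)) (by linarith) hEt v (kk n)
            have e2 := hgp v [v] ⟨List.nodup_singleton v, rfl⟩
            have e3 : (mu DD).real {ω | kk n < tau (act n) v ω S} ≤
                2 * (2 : ℝ) ^ (-((kk n : ℝ) / (3 * (3 * (ξ * kk n))))) := e1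
            have e4 : (mu DD).real {ω | ∃ t : ℕ, θ * kk n ≤ t ∧ (t : ℝ) ≤ 1 * kk n ∧
              qq n (st (MM n [v] v ω t)) < η} ≤ ε' := e2
            have e5 : (mu DD).real {ω | hit (act n) v ω 0 m S} =
              pr {ω | hit (act n) v ω 0 m S} := rfl
            rw [e5]
            linarith
    refine (av_mono hb).trans ?_
    rw [av_add]
    have h3 : av (fun _ : V n => 2 * (2 : ℝ) ^ (-((kk n : ℝ) / (3 * (3 * (ξ * kk n))))) + ε') =
        2 * (2 : ℝ) ^ (-((kk n : ℝ) / (3 * (3 * (ξ * kk n))))) + ε' := av_const _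
    rw [h3]
    have h4 : av (fun v : V n => pr {ω | hit (act n) v ω 0 m S}) = pm n m S := rfl
    rw [h4]
    linarith
  · have h0 : ∀ v : V n, ∫ ω, ind (MA n S ≤ ξ * kk n ∧ qq n (st (lerw (act n) v ω S)) < η)
        ∂(mu DD) = 0 := by
      intro v
      have : ∀ ω : ℕ → DD, ind (MA n S ≤ ξ * kk n ∧ qq n (st (lerw (act n) v ω S)) < η) = 0 :=
        fun ω => ind_false fun h => hMA h.1
      simp only [this, integral_zero]
    simp only [h0]
    rw [av_const]
    have := pm_nonneg n m S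
    linarith

theorem p101_sub {n : ℕ} (T : Tr n) (w : V n) (L : List (V n)) (M : ℕ)
    (h : (brn T L w).length ≤ M) :
    st (brn T L w) ⊆ st ((pth T w (L.headD 0)).take M) := by
  intro y hy
  have h1 : (brn T L w) <+: (pth T w (L.headD 0)).take M := by
    rw [List.prefix_take_iff]
    exact ⟨brn_prefix T L w, h⟩
  exact h1.subset hy

theorem p101 (h ε : ℝ) (hh : 0 < h) (hε : 0 < ε) : ∃ η : ℝ, 0 < η ∧ ∃ n0 : ℕ,
    ∀ (n : ℕ) [NeZero n], n0 ≤ n →
    av (fun T : Tr n => av (fun w : V n => av (fun u : V n =>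
      ind (qq n (st ((pth T w u).take ⌊h * rr n⌋₊)) < η)))) ≤ ε := by
  classical
  obtain ⟨Cb, hCb, hbt⟩ := branch_tail
  obtain ⟨n1, hbt⟩ := hbt 1 one_pos
  obtain ⟨C1, hC1, n2, ht1⟩ := t1A_spn
  -- the constants
  obtain ⟨N, hN⟩ := exists_pow_lt_of_lt_one (show 0 < ε / 16 by positivity)
    (show (1 / 2 : ℝ) < 1 by norm_num)
  obtain ⟨ξ, hξ0, hξ1, hξh, hξC, hξN⟩ : ∃ ξ : ℝ, 0 < ξ ∧ ξ ≤ 1 ∧ ξ ≤ h ∧
      ξ ≤ h * ε / (64 * Cb) ∧ ξ ≤ 1 / (9 * ((N : ℝ) + 1)) := by
    refine ⟨min (min 1 h) (min (h * ε / (64 * Cb)) (1 / (9 * ((N : ℝ) + 1)))), ?_, ?_, ?_, ?_, ?_⟩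
    · refine lt_min (lt_min one_pos hh) (lt_min (by positivity) (by positivity))
    · exact (min_le_left _ _).trans (min_le_left _ _)
    · exact (min_le_left _ _).trans (min_le_right _ _)
    · exact (min_le_right _ _).trans (min_le_left _ _)
    · exact (min_le_right _ _).trans (min_le_right _ _)
  obtain ⟨K0, n3, hsk⟩ := skeleton' ξ (ε / 8) hξ0 (by positivity)
  set K := max K0 1 with hK
  have hK1 : 1 ≤ K := le_max_right _ _
  have hK1r : (1 : ℝ) ≤ K := by exact_mod_cast hK1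
  obtain ⟨θ, hθ0, hθ1, hθC⟩ : ∃ θ : ℝ, 0 < θ ∧ θ ≤ 1 / 16 ∧ θ ≤ ε / (16 * (C1 * K)) := by
    refine ⟨min (1 / 16) (ε / (16 * (C1 * K))), lt_min (by norm_num) ?_, min_le_left _ _,
      min_le_right _ _⟩
    have : (0 : ℝ) < K := by linarith
    positivity
  obtain ⟨η, hη, n4, hgp⟩ := gpA θ 1 (ε / 8) hθ0 (by linarith) le_rfl (by positivity)
  obtain ⟨n5, hrk⟩ := rr_kk
  obtain ⟨n6, hsq⟩ := sq_le_kk 16 (min ξ θ) (lt_min hξ0 hθ0)
  obtain ⟨n7, hLL⟩ := LL_large 1
  refine ⟨η, hη, max (max (max n1 n2) (max n3 n4)) (max (max n5 n6) (max n7 3)), ?_⟩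
  intro n _ hn
  simp only [max_le_iff] at hn
  obtain ⟨⟨⟨hn1, hn2⟩, hn3, hn4⟩, ⟨hn5, hn6⟩, hn7, hn8⟩ := hn
  have hL1 : 1 ≤ LL n := hLL n hn7
  have hL0 : 0 < LL n := by linarith
  have hn3' : (3 : ℝ) ≤ n := by exact_mod_cast hn8
  have hs := hsq n hn6
  have hkk1 : (1 : ℝ) ≤ kk n := by
    have h1 : min ξ θ * kk n ≤ kk n := by
      have : min ξ θ ≤ 1 := (min_le_left _ _).trans hξ1
      have h2 : (0 : ℝ) ≤ kk n := Nat.cast_nonneg _
      nlinarith
    have h2 : (9 : ℝ) ≤ (n : ℝ) ^ 2 := by nlinarith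
    linarith
  have ht0 : (t0 n : ℝ) = 4 * (n : ℝ) ^ 2 := by
    unfold t0
    push_cast
    ring
  have hξk : 16 * (n : ℝ) ^ 2 ≤ ξ * kk n :=
    hs.trans (mul_le_mul_of_nonneg_right (min_le_left _ _) (by linarith))
  have hθk : 16 * (n : ℝ) ^ 2 ≤ θ * kk n :=
    hs.trans (mul_le_mul_of_nonneg_right (min_le_right _ _) (by linarith))
  have hn9 : (9 : ℝ) ≤ (n : ℝ) ^ 2 := by nlinarith
  have hr0 : 0 < rr n := by
    unfold rr
    have : 0 < LL n ^ ((1 : ℝ) / 6) := Real.rpow_pos_of_pos hL0 _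
    positivity
  -- rewrite with lists
  have hlist : ∀ T : Tr n, av (fun w : V n => av (fun u : V n =>
      ind (qq n (st ((pth T w u).take ⌊h * rr n⌋₊)) < η))) =
      avL (fun L => ind (qq n (st ((pth T (L.getD (K + 1) 0) (L.getD 0 0)).take
        ⌊h * rr n⌋₊)) < η)) (K + 1 + 1) := fun T =>
    (avL_get₂ n (fun w u : V n => ind (qq n (st ((pth T w u).take ⌊h * rr n⌋₊)) < η))
      (K + 1 + 1) (K + 1) 0 (by omega) (by omega) (by omega)).symm
  simp only [hlist]
  have hbound : ∀ (T : Tr n) (L : List (V n)), L.length = K + 1 + 1 →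
      ind (qq n (st ((pth T (L.getD (K + 1) 0) (L.getD 0 0)).take ⌊h * rr n⌋₊)) < η) ≤
      ind (ξ * kk n < MA n (spn T (L.take (K + 1)))) +
      ind (MA n (spn T (L.take (K + 1))) ≤ ξ * kk n ∧
        h * rr n ≤ ((brn T (L.take (K + 1)) (L.getD (K + 1) 0)).length : ℝ)) +
      ind (MA n (spn T (L.take (K + 1))) ≤ ξ * kk n ∧
        qq n (st (brn T (L.take (K + 1)) (L.getD (K + 1) 0))) < η) := by
    intro T L hL
    by_cases hq : qq n (st ((pth T (L.getD (K + 1) 0) (L.getD 0 0)).take ⌊h * rr n⌋₊)) < η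
    · rw [ind_true hq]
      by_cases hM : MA n (spn T (L.take (K + 1))) ≤ ξ * kk n
      · by_cases hl : h * rr n ≤ ((brn T (L.take (K + 1)) (L.getD (K + 1) 0)).length : ℝ)
        · rw [ind_true (show (_ ∧ _) from ⟨hM, hl⟩)]
          have e1 := ind_nonneg (ξ * kk n < MA n (spn T (L.take (K + 1))))
          have e2 := ind_nonneg (MA n (spn T (L.take (K + 1))) ≤ ξ * kk n ∧
            qq n (st (brn T (L.take (K + 1)) (L.getD (K + 1) 0))) < η)
          linarith
        · have hlen : (brn T (L.take (K + 1)) (L.getD (K + 1) 0)).length ≤ ⌊h * rr n⌋₊ :=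
            Nat.le_floor (not_le.1 hl).le
          have hhead : (L.take (K + 1)).headD 0 = L.getD 0 0 := by
            cases L with
            | nil => simp at hL
            | cons a L => simp
          have hsub := p101_sub T (L.getD (K + 1) 0) (L.take (K + 1)) _ hlen
          rw [hhead] at hsub
          have hq2 : qq n (st (brn T (L.take (K + 1)) (L.getD (K + 1) 0))) < η :=
            lt_of_le_of_lt (pm_mono n le_rfl hsub) hq
          rw [ind_true (show (MA n (spn T (L.take (K + 1))) ≤ ξ * kk n ∧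
            qq n (st (brn T (L.take (K + 1)) (L.getD (K + 1) 0))) < η) from ⟨hM, hq2⟩)]
          have e1 := ind_nonneg (ξ * kk n < MA n (spn T (L.take (K + 1))))
          have e2 := ind_nonneg (MA n (spn T (L.take (K + 1))) ≤ ξ * kk n ∧
            h * rr n ≤ ((brn T (L.take (K + 1)) (L.getD (K + 1) 0)).length : ℝ))
          linarith
      · rw [ind_true (not_le.1 hM)]
        have e1 := ind_nonneg (MA n (spn T (L.take (K + 1))) ≤ ξ * kk n ∧
            qq n (st (brn T (L.take (K + 1)) (L.getD (K + 1) 0))) < η)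
        have e2 := ind_nonneg (MA n (spn T (L.take (K + 1))) ≤ ξ * kk n ∧
            h * rr n ≤ ((brn T (L.take (K + 1)) (L.getD (K + 1) 0)).length : ℝ))
        linarith
    · rw [ind_false hq]
      have e1 := ind_nonneg (MA n (spn T (L.take (K + 1))) ≤ ξ * kk n ∧
          qq n (st (brn T (L.take (K + 1)) (L.getD (K + 1) 0))) < η)
      have e2 := ind_nonneg (MA n (spn T (L.take (K + 1))) ≤ ξ * kk n ∧
          h * rr n ≤ ((brn T (L.take (K + 1)) (L.getD (K + 1) 0)).length : ℝ))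
      have e3 := ind_nonneg (ξ * kk n < MA n (spn T (L.take (K + 1))))
      linarith
  refine (av_mono fun T => avL_mono n (K + 1 + 1) (hbound T)).trans ?_
  simp only [avL_add_fn, av_add]
  -- term A
  have hA : av (fun T : Tr n => avL (fun L => ind (ξ * kk n < MA n (spn T (L.take (K + 1)))))
      (K + 1 + 1)) ≤ ε / 8 := by
    have : ∀ T : Tr n, avL (fun L => ind (ξ * kk n < MA n (spn T (L.take (K + 1)))))
        (K + 1 + 1) = avL (fun L => ind (ξ * kk n < MA n (spn T L))) (K + 1) := fun T =>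
      avL_take n (fun L => ind (ξ * kk n < MA n (spn T L))) (K + 1) 1
    simp only [this]
    exact hsk n hn3 K (le_max_left _ _)
  -- term B
  have hB : av (fun T : Tr n => avL (fun L => ind (MA n (spn T (L.take (K + 1))) ≤ ξ * kk n ∧
      h * rr n ≤ ((brn T (L.take (K + 1)) (L.getD (K + 1) 0)).length : ℝ))) (K + 1 + 1)) ≤
      ε / 8 := by
    refine (hbt n hn1 ξ hξ1 (by linarith) (K + 1) (K + 1) (K + 1 + 1) (by omega) le_rfl
      (by omega) (h * rr n) (by positivity)).trans ?_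
    have hkr := (hrk n hn5).2
    have hLp : (LL n ^ ((1 : ℝ) / 3)) ^ 3 = LL n := by
      rw [← Real.rpow_natCast, ← Real.rpow_mul hL0.le]
      norm_num
    have e1 : (ξ * kk n) ^ 3 ≤ ξ ^ 3 * (8 * rr n ^ 3 * LL n) := by
      rw [mul_pow]
      refine mul_le_mul_of_nonneg_left ?_ (by positivity)
      calc (kk n : ℝ) ^ 3 ≤ (2 * (rr n * LL n ^ ((1 : ℝ) / 3))) ^ 3 :=
            pow_le_pow_left₀ (by linarith) hkr 3
        _ = 8 * rr n ^ 3 * (LL n ^ ((1 : ℝ) / 3)) ^ 3 := by ring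
        _ = _ := by rw [hLp]
    have e2 : Cb * (ξ * kk n) ^ 3 / (LL n * (h * rr n) ^ 3) ≤ 8 * Cb * (ξ / h) ^ 3 := by
      rw [div_le_iff₀ (by positivity)]
      calc Cb * (ξ * kk n) ^ 3 ≤ Cb * (ξ ^ 3 * (8 * rr n ^ 3 * LL n)) :=
            mul_le_mul_of_nonneg_left e1 hCb.le
        _ = 8 * Cb * (ξ / h) ^ 3 * (LL n * (h * rr n) ^ 3) := by
            field_simp
    refine e2.trans ?_
    have e3 : ξ / h ≤ 1 := by
      rw [div_le_one hh]
      exact hξh
    have e4 : (ξ / h) ^ 3 ≤ ξ / h := by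
      have h0 : 0 ≤ ξ / h := by positivity
      calc (ξ / h) ^ 3 ≤ (ξ / h) ^ 1 := pow_le_pow_of_le_one h0 e3 (by norm_num)
        _ = ξ / h := pow_one _
    have e5 : ξ / h ≤ ε / (64 * Cb) := by
      rw [div_le_iff₀ hh]
      calc ξ ≤ h * ε / (64 * Cb) := hξC
        _ = ε / (64 * Cb) * h := by ring
    calc 8 * Cb * (ξ / h) ^ 3 ≤ 8 * Cb * (ε / (64 * Cb)) :=
          mul_le_mul_of_nonneg_left (e4.trans e5) (by positivity)
      _ = ε / 8 := by
          field_simp
          ring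
  -- term C
  have hC : av (fun T : Tr n => avL (fun L => ind (MA n (spn T (L.take (K + 1))) ≤ ξ * kk n ∧
      qq n (st (brn T (L.take (K + 1)) (L.getD (K + 1) 0))) < η)) (K + 1 + 1)) ≤
      3 * (ε / 8) := by
    rw [branch_law n hn8 (K + 1) (K + 1) (K + 1 + 1) (by omega) le_rfl (by omega)
      (fun S l => ind (MA n S ≤ ξ * kk n ∧ qq n (st l) < η))]
    set m := ⌈θ * kk n⌉₊ with hm
    have hm1 : θ * kk n ≤ m := Nat.le_ceil _
    have hm2 : (m : ℝ) < θ * kk n + 1 := Nat.ceil_lt_add_one (by positivity)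
    have hm3 : (m : ℝ) ≤ 2 * (θ * kk n) := by linarith
    have hmt : t0 n ≤ m := by
      have : (t0 n : ℝ) ≤ m := by linarith
      exact_mod_cast this
    have hm8 : 8 * m ≤ kk n := by
      have : ((8 * m : ℕ) : ℝ) ≤ kk n := by
        push_cast
        nlinarith
      exact_mod_cast this
    have hS : ∀ (T : Tr n) (L : List (V n)), L.length = K + 1 →
        av (fun v : V n => ∫ ω, ind (MA n (spn T L) ≤ ξ * kk n ∧
          qq n (st (lerw (act n) v ω (spn T L))) < η) ∂(mu DD)) ≤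
        pm n m (spn T L) + (2 * (2 : ℝ) ^ (-((kk n : ℝ) / (3 * (3 * (ξ * kk n))))) + ε / 8) := by
      intro T L hL
      have hne : (spn T L).Nonempty := by
        refine spn_nonempty T ?_
        intro h0
        rw [h0] at hL
        simp at hL
      have := p101_S n (spn T L) hne ξ θ η (ε / 8) m hm1 (by positivity) (by linarith)
        (by linarith) (hgp n hn4)
      linarith
    refine (av_mono fun T => avL_mono n (K + 1) (hS T)).trans ?_
    simp only [avL_add_fn, av_add, avL_const]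
    have c1 := ht1 n hn2 m K hmt hm8 hK1
    have c2 : C1 * K * m / kk n ≤ ε / 8 := by
      rw [div_le_iff₀ (by linarith)]
      have hCK : 0 < C1 * K := by positivity
      calc C1 * K * m ≤ C1 * K * (2 * (θ * kk n)) :=
            mul_le_mul_of_nonneg_left hm3 hCK.le
        _ ≤ C1 * K * (2 * (ε / (16 * (C1 * K)) * kk n)) := by
            gcongr
        _ = ε / 8 * kk n := by
            field_simp
            ring
    have c3 : 2 * (2 : ℝ) ^ (-((kk n : ℝ) / (3 * (3 * (ξ * kk n))))) ≤ ε / 8 := by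
      have d1 : (kk n : ℝ) / (3 * (3 * (ξ * kk n))) = 1 / (9 * ξ) := by
        field_simp
        ring
      rw [d1]
      have d2 : (N : ℝ) + 1 ≤ 1 / (9 * ξ) := by
        rw [le_div_iff₀ (by positivity)]
        rw [le_div_iff₀ (by positivity)] at hξN
        linarith
      have d3 : (2 : ℝ) ^ (-(1 / (9 * ξ))) ≤ (2 : ℝ) ^ (-(N : ℝ)) :=
        Real.rpow_le_rpow_of_exponent_le (by norm_num) (by linarith)
      have d4 : (2 : ℝ) ^ (-(N : ℝ)) = (1 / 2) ^ N := by
        rw [Real.rpow_neg (by norm_num), Real.rpow_natCast, one_div, inv_pow]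
      rw [d4] at d3
      linarith
    have c4 : av (fun _ : Tr n => 2 * (2 : ℝ) ^ (-((kk n : ℝ) / (3 * (3 * (ξ * kk n)))))) ≤
        ε / 8 := av_le (by positivity) fun _ => c3
    have c5 : av (fun _ : Tr n => ε / 8) ≤ ε / 8 := av_le (by positivity) fun _ => le_rfl
    linarith
  linarith

end Pool.Agent.UST
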