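import Pool.Agent.Helper54.UST.P105
import Pool.Agent.Helper54.UST.P101
import Pool.Agent.Helper54.UST.CM
import Pool.Agent.Helper54.UST.Asy

/-! Paper Proposition NT (no thin points on the path between two points). -/

namespace Pool.Agent.UST

open MeasureTheory

theorem nt_pr_mono {s t : Set (ℕ → DD)} (h : s ⊆ t) : pr s ≤ pr t :=
  measureReal_mono h (measure_ne_top _ _)

theorem nt_pr_le_one (s : Set (ℕ → DD)) : pr s ≤ 1 := measureReal_le_one

/-- missing a thick set for a long time is unlikely -/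
theorem nt_miss (n : ℕ) [NeZero n] (hk : t0 n ≤ kk n) (hk0 : 0 < kk n) (x : V n) (J : ℕ) (η : ℝ)
    (hη : 0 < η) (hη1 : η ≤ 1) (B : Set (V n)) (hB : η ≤ qq n B) :
    pr {ω | ¬ hit (act n) x ω 0 (3 * J * kk n) B} ≤ (1 - η / 2) ^ J := by
  have h1 : pr {ω | ¬ hit (act n) x ω 0 (3 * J * kk n) B} ≤
      pr {ω | ¬ hit (act n) x ω (t0 n) (3 * J * kk n) B} := by
    refine nt_pr_mono fun ω hω => ?_
    intro hh
    apply hω
    obtain ⟨i, _, hi2, hi3⟩ := hh
    exact ⟨i, Nat.zero_le _, hi2, hi3⟩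
  refine h1.trans ((miss_le n x (3 * J * kk n) (2 * kk n) B).trans ?_)
  have hq1 : qq n B ≤ 1 := pm_le_one n _ _
  have h2 : pm n (2 * kk n) B = qq n B := rfl
  rw [h2]
  have hJ : J ≤ 3 * J * kk n / (2 * kk n + t0 n) := by
    rw [Nat.le_div_iff_mul_le (by omega)]
    calc J * (2 * kk n + t0 n) ≤ J * (3 * kk n) := Nat.mul_le_mul_left _ (by omega)
      _ = 3 * J * kk n := by ring
  calc (1 - qq n B / 2) ^ (3 * J * kk n / (2 * kk n + t0 n))
      ≤ (1 - η / 2) ^ (3 * J * kk n / (2 * kk n + t0 n)) := by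
        refine pow_le_pow_left₀ (by linarith) (by linarith) _
    _ ≤ (1 - η / 2) ^ J := pow_le_pow_of_le_one (by linarith) (by linarith) hJ

theorem nt_nb_mono {n : ℕ} [NeZero n] (T : Tr n) (z : V n) {ρ ρ' : ℕ} (h : ρ ≤ ρ') :
    nb T z ρ ≤ nb T z ρ' := by
  unfold nb
  exact Set.ncard_le_ncard (fun y hy => le_trans hy h) (Set.toFinite _)

theorem nt_nbs_le {n : ℕ} [NeZero n] (T : Tr n) (z : V n) (h B ζ : ℝ) (ρ : ℕ)
    (hρ : h * rr n ≤ (ρ : ℝ) + 1) : (NBs n h B ζ T z).ncard ≤ nb T z ρ := by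
  unfold nb
  refine Set.ncard_le_ncard (fun y hy => ?_) (Set.toFinite _)
  have h1 : ((pth T y z).length : ℝ) ≤ h * rr n := hy.1
  rw [pth_length] at h1
  push_cast at h1
  have h2 : (dst T y z : ℝ) ≤ ρ := by linarith
  show dst T z y ≤ ρ
  rw [dst_symm]
  exact_mod_cast h2

theorem noThin (a ε : ℝ) (ha : 0 < a) (hε : 0 < ε) : ∃ δ : ℝ, 0 < δ ∧ ∃ n0 : ℕ,
    ∀ (n : ℕ) [NeZero n], n0 ≤ n →
    av (fun T : Tr n => av (fun w : V n => av (fun u : V n =>
      ind (∃ z ∈ pth T w u, (nb T z ⌊a * rr n⌋₊ : ℝ) < δ * NN n)))) ≤ ε := by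
  classical
  obtain ⟨η, hη, n1, h101⟩ := p101 (a / 10) (ε / 6) (by positivity) (by positivity)
  set η' := min η 1 with hη'
  have hη'0 : 0 < η' := lt_min hη one_pos
  have hη'1 : η' ≤ 1 := min_le_right _ _
  obtain ⟨J0, hJ0⟩ := exists_pow_lt_of_lt_one (show 0 < ε / 6 by positivity)
    (show 1 - η' / 2 < 1 by linarith)
  set J := J0 + 1 with hJdef
  have hJ : (1 - η' / 2) ^ J ≤ ε / 6 := by
    refine le_trans ?_ hJ0.le
    exact pow_le_pow_of_le_one (by linarith) (by linarith) (by omega)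
  obtain ⟨δ1, hδ1, n2, hcard⟩ := nbs_card 1 (a / 8) 1 (ε / 3) one_pos (by positivity) one_pos
    (by positivity)
  obtain ⟨C4, hC4, n3, hmiss⟩ := p104_miss
  set B'' : ℝ := 3 * (J : ℝ) with hB''
  have hJ1 : (1 : ℝ) ≤ (J : ℝ) := by
    rw [hJdef]
    push_cast
    have : (0 : ℝ) ≤ J0 := Nat.cast_nonneg _
    linarith
  have hB''0 : 0 < B'' := by rw [hB'']; linarith
  set ε' := a * ε / (144 * (B'' + 1)) with hε'
  have hε'0 : 0 < ε' := by positivity
  obtain ⟨δ2, hδ2, n4, h105⟩ := p105 B'' (a / 8) ε' hB''0 (by positivity) hε'0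
  obtain ⟨n5, hLL⟩ := LL_large 16
  obtain ⟨n6, ht0⟩ := t0_kk
  obtain ⟨n7, hrk⟩ := rr_kk
  obtain ⟨n8, hrl⟩ := rr_large (8 / a + 72 / (a * ε) + 576 * C4 / (a * ε))
  refine ⟨min δ1 δ2, lt_min hδ1 hδ2,
    max (max (max n1 n2) (max n3 n4)) (max (max n5 n6) (max (max n7 n8) 3)), ?_⟩
  intro n _ hn
  simp only [max_le_iff] at hn
  obtain ⟨⟨⟨hn1, hn2⟩, hn3, hn4⟩, ⟨hn5, hn6⟩, ⟨hn7, hn8⟩, hn9⟩ := hn
  -- the scales
  have hL16 : 16 ≤ LL n := hLL n hn5
  have hL0 : 0 < LL n := by linarith
  have hLr : 0 < LL n ^ (-(1 / 3 : ℝ)) := Real.rpow_pos_of_pos hL0 _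
  have hLr1 : LL n ^ (-(1 / 3 : ℝ)) ≤ 1 :=
    Real.rpow_le_one_of_one_le_of_nonpos (by linarith) (by norm_num)
  have hn3' : (3 : ℝ) ≤ n := by exact_mod_cast hn9
  have hkk0 : 0 < kk n := by
    unfold kk
    rw [Nat.ceil_pos]
    have : 0 < Real.sqrt (LL n) := Real.sqrt_pos.2 hL0
    positivity
  have hkkr : (0 : ℝ) < kk n := by exact_mod_cast hkk0
  have ht0k : t0 n ≤ kk n := by
    have h1 := ht0 n hn6
    have h2 : (4 : ℝ) ≤ Real.sqrt (LL n) := by
      rw [show (4 : ℝ) = Real.sqrt (4 ^ 2) by rw [Real.sqrt_sq (by norm_num)]]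
      exact Real.sqrt_le_sqrt (by linarith)
    have h3 : 4 * (kk n : ℝ) / Real.sqrt (LL n) ≤ kk n := by
      rw [div_le_iff₀ (by linarith)]
      nlinarith
    exact_mod_cast h1.trans h3
  have hr0 : 0 < rr n := by
    unfold rr
    have : 0 < LL n ^ ((1 : ℝ) / 6) := Real.rpow_pos_of_pos hL0 _
    positivity
  obtain ⟨-, hkr⟩ := hrk n hn7
  obtain ⟨-, hrn2, hrbb⟩ := hrl n hn8
  have hNN : 0 < NN n := by
    unfold NN
    positivity
  set K0 := 8 / a + 72 / (a * ε) + 576 * C4 / (a * ε) with hK0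
  have hK0a : 8 / a ≤ K0 := by
    have h1 : 0 ≤ 72 / (a * ε) := by positivity
    have h2 : 0 ≤ 576 * C4 / (a * ε) := by positivity
    linarith
  have hK0b : 72 / (a * ε) ≤ K0 := by
    have h1 : 0 ≤ 8 / a := by positivity
    have h2 : 0 ≤ 576 * C4 / (a * ε) := by positivity
    linarith
  have hK0c : 576 * C4 / (a * ε) ≤ K0 := by
    have h1 : 0 ≤ 8 / a := by positivity
    have h2 : 0 ≤ 72 / (a * ε) := by positivity
    linarith
  have har : 8 ≤ a * rr n := by
    have h1 : 8 / a * (n : ℝ) ^ 2 ≤ rr n := by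
      refine le_trans (mul_le_mul_of_nonneg_right hK0a (by positivity)) hrn2
    have h2 : 8 / a ≤ rr n := by
      refine le_trans ?_ h1
      have : (1 : ℝ) ≤ (n : ℝ) ^ 2 := by nlinarith
      have h3 : 0 ≤ 8 / a := by positivity
      nlinarith
    rw [div_le_iff₀ ha] at h2
    linarith
  -- the radii
  set r1 := ⌊a * rr n / 4⌋₊ with hr1
  have hr1a : (r1 : ℝ) ≤ a * rr n / 4 := Nat.floor_le (by positivity)
  have hr1b : a * rr n / 4 < r1 + 1 := Nat.lt_floor_add_one _
  have hr1c : a * rr n / 8 ≤ r1 := by linarith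
  have hr1pos : 1 ≤ r1 := by
    have : (1 : ℝ) ≤ r1 := by linarith
    exact_mod_cast this
  have h4r1 : 4 * r1 ≤ ⌊a * rr n⌋₊ := by
    apply Nat.le_floor
    push_cast
    linarith
  set h1 := r1 / 2 with hh1
  have hh1r : h1 ≤ r1 := Nat.div_le_self _ _
  set δ := min δ1 δ2 with hδ
  have hδ0 : 0 < δ := lt_min hδ1 hδ2
  set m := ⌈δ * NN n⌉₊ with hm
  set I := 3 * J * kk n with hI
  have hchain := chain_ineq n hn9 I r1 h1 m hr1pos hh1r
  -- left side
  have hleft : av (fun T : Tr n => av (fun w : V n => av (fun u : V n =>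
      ind (∃ z ∈ pth T w u, (nb T z ⌊a * rr n⌋₊ : ℝ) < δ * NN n)))) ≤
      av (fun T : Tr n => av (fun w : V n => av (fun u : V n =>
      ind (∃ z ∈ pth T w u, nb T z (4 * r1) < m)))) := by
    refine av_mono fun T => av_mono fun w => av_mono fun u => ind_mono ?_
    rintro ⟨z, hz, hnb⟩
    refine ⟨z, hz, ?_⟩
    rw [hm, Nat.lt_ceil]
    refine lt_of_le_of_lt ?_ hnb
    exact_mod_cast nt_nb_mono T z h4r1
  refine hleft.trans (hchain.trans ?_)
  -- first term
  have hterm1 : av (fun T : Tr n => av (fun w : V n => ind (nb T w (2 * r1) < m))) ≤ ε / 3 := by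
    refine le_trans (av_mono fun T => av_mono fun w => ind_mono ?_) (hcard n hn2)
    intro hnb
    rw [hm, Nat.lt_ceil] at hnb
    have e1 : ((NBs n (a / 8) 1 1 T w).ncard : ℝ) ≤ nb T w (2 * r1) := by
      exact_mod_cast nt_nbs_le T w (a / 8) 1 1 (2 * r1) (by push_cast; linarith)
    have e2 : δ * NN n ≤ δ1 * NN n := mul_le_mul_of_nonneg_right (min_le_left _ _) hNN.le
    linarith
  -- second term
  have hterm2 : av (fun T : Tr n => av (fun w : V n => av (fun u : V n =>
      pr {ω | ¬ hit (act n) u ω 0 I (st ((pth T w u).take (h1 + 1)))}))) ≤ ε / 3 := by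
    have hle : ∀ (T : Tr n) (w u : V n),
        pr {ω | ¬ hit (act n) u ω 0 I (st ((pth T w u).take (h1 + 1)))} ≤
        ind (qq n (st ((pth T w u).take ⌊a / 10 * rr n⌋₊)) < η) + ε / 6 := by
      intro T w u
      by_cases hq : qq n (st ((pth T w u).take ⌊a / 10 * rr n⌋₊)) < η
      · rw [ind_true hq]
        have := nt_pr_le_one {ω | ¬ hit (act n) u ω 0 I (st ((pth T w u).take (h1 + 1)))}
        linarith
      · rw [ind_false hq, zero_add]
        rw [not_lt] at hq
        have hfl : ⌊a / 10 * rr n⌋₊ ≤ h1 + 1 := by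
          have e1 : ⌊a / 10 * rr n⌋₊ ≤ (r1 + 1) / 2 := by
            rw [Nat.le_div_iff_mul_le (by norm_num)]
            have e2 : (⌊a / 10 * rr n⌋₊ : ℝ) ≤ a / 10 * rr n := Nat.floor_le (by positivity)
            have e3 : ((⌊a / 10 * rr n⌋₊ * 2 : ℕ) : ℝ) ≤ ((r1 + 1 : ℕ) : ℝ) := by
              push_cast
              nlinarith
            exact_mod_cast e3
          omega
        have hsub : st ((pth T w u).take ⌊a / 10 * rr n⌋₊) ⊆ st ((pth T w u).take (h1 + 1)) := by
          intro y hy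
          exact (List.take_subset_take_left _ hfl) hy
        have hqq : η' ≤ qq n (st ((pth T w u).take (h1 + 1))) := by
          refine (min_le_left _ _).trans (hq.trans ?_)
          exact pm_mono n le_rfl hsub
        exact (nt_miss n ht0k hkk0 u J η' hη'0 hη'1 _ hqq).trans hJ
    have h2 : av (fun T : Tr n => av (fun w : V n => av (fun u : V n =>
        pr {ω | ¬ hit (act n) u ω 0 I (st ((pth T w u).take (h1 + 1)))}))) ≤
        av (fun T : Tr n => av (fun w : V n => av (fun u : V n =>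
          (ind (qq n (st ((pth T w u).take ⌊a / 10 * rr n⌋₊)) < η) + ε / 6)))) :=
      av_mono fun T => av_mono fun w => av_mono fun u => hle T w u
    refine h2.trans ?_
    have hne : Nonempty (Tr n) ∨ ¬ Nonempty (Tr n) := em _
    have h3 : av (fun T : Tr n => av (fun w : V n => av (fun u : V n =>
          (ind (qq n (st ((pth T w u).take ⌊a / 10 * rr n⌋₊)) < η) + ε / 6)))) =
        av (fun T : Tr n => av (fun w : V n => av (fun u : V n =>
          ind (qq n (st ((pth T w u).take ⌊a / 10 * rr n⌋₊)) < η)))) +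
        av (fun _ : Tr n => ε / 6) := by
      simp only [av_add, av_const]
    rw [h3]
    have h4 : av (fun _ : Tr n => ε / 6) ≤ ε / 6 := av_le (by positivity) fun _ => le_rfl
    have h5 := h101 n hn1
    linarith
  -- third term
  have hterm3 : (1 / (r1 : ℝ)) * ∑ i ∈ Finset.range (I + 1),
      av (fun T : Tr n => av (fun w : V n => av (fun z : V n =>
        pr {ω | ¬ hit (act n) z ω 1 i (st (pth T w z)) ∧
          Set.ncard {v | dst T v z ≤ 3 * r1 ∧
            ¬ hit (act n) z ω 1 i (st (pth T v z))} < m}))) ≤ ε / 3 := by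
    have hbound : ∀ i ∈ Finset.range (I + 1),
        av (fun T : Tr n => av (fun w : V n => av (fun z : V n =>
        pr {ω | ¬ hit (act n) z ω 1 i (st (pth T w z)) ∧
          Set.ncard {v | dst T v z ≤ 3 * r1 ∧
            ¬ hit (act n) z ω 1 i (st (pth T v z))} < m}))) ≤
        (if i < bb n then 1 else 0) + (if i < 2 * t0 n then C4 * LL n ^ (-(1 / 3 : ℝ)) else 0) +
          ε' * LL n ^ (-(1 / 3 : ℝ)) := by
      intro i hi
      rw [Finset.mem_range] at hi
      by_cases h1b : i < bb n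
      · rw [if_pos h1b]
        have e1 : av (fun T : Tr n => av (fun w : V n => av (fun z : V n =>
          pr {ω | ¬ hit (act n) z ω 1 i (st (pth T w z)) ∧
          Set.ncard {v | dst T v z ≤ 3 * r1 ∧
            ¬ hit (act n) z ω 1 i (st (pth T v z))} < m}))) ≤ 1 :=
          av_le zero_le_one fun T => av_le zero_le_one fun w => av_le zero_le_one fun z =>
            nt_pr_le_one _
        have e2 : 0 ≤ (if i < 2 * t0 n then C4 * LL n ^ (-(1 / 3 : ℝ)) else 0) := by
          split_ifs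
          · positivity
          · exact le_rfl
        have e3 : 0 ≤ ε' * LL n ^ (-(1 / 3 : ℝ)) := by positivity
        linarith
      · rw [if_neg h1b]
        by_cases h2t : i < 2 * t0 n
        · rw [if_pos h2t]
          have e3 : 0 ≤ ε' * LL n ^ (-(1 / 3 : ℝ)) := by positivity
          have e4 : av (fun T : Tr n => av (fun w : V n => av (fun z : V n =>
            pr {ω | ¬ hit (act n) z ω 1 i (st (pth T w z)) ∧
            Set.ncard {v | dst T v z ≤ 3 * r1 ∧
            ¬ hit (act n) z ω 1 i (st (pth T v z))} < m}))) ≤ C4 * LL n ^ (-(1 / 3 : ℝ)) := by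
            refine le_trans ?_ (hmiss n hn3)
            refine av_mono fun T => ?_
            rw [av_comm (fun w z : V n => pr {ω | ¬ hit (act n) z ω 1 i (st (pth T w z)) ∧
              Set.ncard {v | dst T v z ≤ 3 * r1 ∧
              ¬ hit (act n) z ω 1 i (st (pth T v z))} < m})]
            refine av_mono fun z => av_mono fun w => nt_pr_mono ?_
            rintro ω ⟨hω, -⟩ hh
            apply hω
            obtain ⟨j, hj1, hj2, hj3⟩ := hh
            refine ⟨j, hj1, by omega, ?_⟩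
            have : pos (act n) z ω j ∈ pth T z w := hj3
            show pos (act n) z ω j ∈ pth T w z
            rw [pth_rev T z w]
            exact List.mem_reverse.2 this
          linarith
        · rw [if_neg h2t]
          have e5 := h105 n hn4 i (by omega) (by
            have : i ≤ I := by omega
            calc (i : ℝ) ≤ I := by exact_mod_cast this
              _ = B'' * kk n := by rw [hI, hB'']; push_cast; ring) (3 * r1) (by
                push_cast
                linarith)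
          have e6 : av (fun T : Tr n => av (fun w : V n => av (fun z : V n =>
            pr {ω | ¬ hit (act n) z ω 1 i (st (pth T w z)) ∧
            Set.ncard {v | dst T v z ≤ 3 * r1 ∧
            ¬ hit (act n) z ω 1 i (st (pth T v z))} < m}))) ≤ ε' * LL n ^ (-(1 / 3 : ℝ)) := by
            refine le_trans (av_mono fun T => av_mono fun w => av_mono fun z => nt_pr_mono ?_) e5
            rintro ω ⟨hω1, hω2⟩
            refine ⟨hω1, ?_⟩
            rw [hm, Nat.lt_ceil] at hω2
            refine lt_of_lt_of_le hω2 ?_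
            exact mul_le_mul_of_nonneg_right (min_le_right _ _) hNN.le
          linarith
    have hsum := Finset.sum_le_sum hbound
    have hsum2 : ∑ i ∈ Finset.range (I + 1), ((if i < bb n then (1 : ℝ) else 0) +
        (if i < 2 * t0 n then C4 * LL n ^ (-(1 / 3 : ℝ)) else 0) +
          ε' * LL n ^ (-(1 / 3 : ℝ))) ≤
        bb n + 2 * t0 n * (C4 * LL n ^ (-(1 / 3 : ℝ))) +
          ((I : ℝ) + 1) * (ε' * LL n ^ (-(1 / 3 : ℝ))) := by
      rw [Finset.sum_add_distrib, Finset.sum_add_distrib]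
      have s1 : ∑ i ∈ Finset.range (I + 1), (if i < bb n then (1 : ℝ) else 0) ≤ bb n := by
        rw [← Finset.sum_filter, Finset.sum_const, nsmul_eq_mul, mul_one]
        have : ((Finset.range (I + 1)).filter (fun i => i < bb n)).card ≤ bb n := by
          calc _ ≤ (Finset.range (bb n)).card := Finset.card_le_card (by
                intro i hi
                rw [Finset.mem_filter] at hi
                exact Finset.mem_range.2 hi.2)
            _ = bb n := Finset.card_range _
        exact_mod_cast this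
      have s2 : ∑ i ∈ Finset.range (I + 1),
          (if i < 2 * t0 n then C4 * LL n ^ (-(1 / 3 : ℝ)) else 0) ≤
          2 * t0 n * (C4 * LL n ^ (-(1 / 3 : ℝ))) := by
        rw [← Finset.sum_filter, Finset.sum_const, nsmul_eq_mul]
        have h3 : ((Finset.range (I + 1)).filter (fun i => i < 2 * t0 n)).card ≤ 2 * t0 n := by
          calc _ ≤ (Finset.range (2 * t0 n)).card := Finset.card_le_card (by
                intro i hi
                rw [Finset.mem_filter] at hi
                exact Finset.mem_range.2 hi.2)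
            _ = 2 * t0 n := Finset.card_range _
        have h4 : (((Finset.range (I + 1)).filter (fun i => i < 2 * t0 n)).card : ℝ) ≤
            2 * t0 n := by exact_mod_cast h3
        exact mul_le_mul_of_nonneg_right h4 (by positivity)
      have s3 : ∑ _i ∈ Finset.range (I + 1), ε' * LL n ^ (-(1 / 3 : ℝ)) =
          ((I : ℝ) + 1) * (ε' * LL n ^ (-(1 / 3 : ℝ))) := by
        rw [Finset.sum_const, Finset.card_range, nsmul_eq_mul]
        push_cast
        ring
      linarith
    have hr1r : (0 : ℝ) < r1 := by exact_mod_cast hr1pos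
    rw [one_div, inv_mul_le_iff₀ hr1r]
    refine (hsum.trans hsum2).trans ?_
    -- three pieces
    have p1 : (bb n : ℝ) ≤ a * ε / 72 * rr n := by
      have e1 : 72 / (a * ε) * bb n ≤ rr n :=
        le_trans (mul_le_mul_of_nonneg_right hK0b (Nat.cast_nonneg _)) hrbb
      rw [div_mul_eq_mul_div, div_le_iff₀ (by positivity)] at e1
      have : (bb n : ℝ) = (72 * bb n) / 72 := by ring
      rw [this]
      calc (72 * (bb n : ℝ)) / 72 ≤ (rr n * (a * ε)) / 72 := by
            exact div_le_div_of_nonneg_right e1 (by norm_num)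
        _ = a * ε / 72 * rr n := by ring
    have p2 : 2 * (t0 n : ℝ) * (C4 * LL n ^ (-(1 / 3 : ℝ))) ≤ a * ε / 72 * rr n := by
      have e1 : 576 * C4 / (a * ε) * (n : ℝ) ^ 2 ≤ rr n :=
        le_trans (mul_le_mul_of_nonneg_right hK0c (by positivity)) hrn2
      rw [div_mul_eq_mul_div, div_le_iff₀ (by positivity)] at e1
      have e2 : (t0 n : ℝ) = 4 * (n : ℝ) ^ 2 := by
        unfold t0
        push_cast
        ring
      rw [e2]
      have e3 : 2 * (4 * (n : ℝ) ^ 2) * (C4 * LL n ^ (-(1 / 3 : ℝ))) ≤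
          2 * (4 * (n : ℝ) ^ 2) * (C4 * 1) := by
        gcongr
      refine e3.trans ?_
      have e4 : 2 * (4 * (n : ℝ) ^ 2) * (C4 * 1) = (576 * C4 * (n : ℝ) ^ 2) / 72 := by ring
      rw [e4]
      calc (576 * C4 * (n : ℝ) ^ 2) / 72 ≤ (rr n * (a * ε)) / 72 :=
            div_le_div_of_nonneg_right e1 (by norm_num)
        _ = a * ε / 72 * rr n := by ring
    have p3 : ((I : ℝ) + 1) * (ε' * LL n ^ (-(1 / 3 : ℝ))) ≤ a * ε / 72 * rr n := by
      have e1 : (I : ℝ) + 1 ≤ (B'' + 1) * kk n := by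
        have : (1 : ℝ) ≤ kk n := by exact_mod_cast hkk0
        rw [hI, hB'']
        push_cast
        nlinarith
      have e2 : (kk n : ℝ) * LL n ^ (-(1 / 3 : ℝ)) ≤ 2 * rr n := by
        have e3 : LL n ^ ((1 : ℝ) / 3) * LL n ^ (-(1 / 3 : ℝ)) = 1 := by
          rw [← Real.rpow_add hL0]
          norm_num
        calc (kk n : ℝ) * LL n ^ (-(1 / 3 : ℝ))
            ≤ (2 * (rr n * LL n ^ ((1 : ℝ) / 3))) * LL n ^ (-(1 / 3 : ℝ)) :=
              mul_le_mul_of_nonneg_right hkr hLr.le
          _ = 2 * rr n * (LL n ^ ((1 : ℝ) / 3) * LL n ^ (-(1 / 3 : ℝ))) := by ring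
          _ = 2 * rr n := by rw [e3, mul_one]
      calc ((I : ℝ) + 1) * (ε' * LL n ^ (-(1 / 3 : ℝ)))
          ≤ ((B'' + 1) * kk n) * (ε' * LL n ^ (-(1 / 3 : ℝ))) :=
            mul_le_mul_of_nonneg_right e1 (by positivity)
        _ = (B'' + 1) * ε' * (kk n * LL n ^ (-(1 / 3 : ℝ))) := by ring
        _ ≤ (B'' + 1) * ε' * (2 * rr n) := mul_le_mul_of_nonneg_left e2 (by positivity)
        _ = a * ε / 72 * rr n := by
            rw [hε']
            field_simp
            ring
    have : a * ε / 24 * rr n ≤ (r1 : ℝ) * (ε / 3) := by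
      calc a * ε / 24 * rr n = (a * rr n / 8) * (ε / 3) := by ring
        _ ≤ r1 * (ε / 3) := mul_le_mul_of_nonneg_right hr1c (by positivity)
    calc (bb n : ℝ) + 2 * t0 n * (C4 * LL n ^ (-(1 / 3 : ℝ))) +
          ((I : ℝ) + 1) * (ε' * LL n ^ (-(1 / 3 : ℝ)))
        ≤ a * ε / 72 * rr n + a * ε / 72 * rr n + a * ε / 72 * rr n := by linarith
      _ = a * ε / 24 * rr n := by ring
      _ ≤ _ := this
  linarith

end Pool.Agent.UST
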