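import Pool.Agent.Helper54.UST.WilC

/-! The one-point identity (paper (*)): measure form, integrated form, time form. -/

namespace Pool.Agent.UST

open MeasureTheory

namespace OnePt

variable {W D : Type} [Fintype D] [Nonempty D] [MeasurableSpace D]
  [MeasurableSingletonClass D] (act : D → W → W)

omit [Fintype D] [Nonempty D] [MeasurableSpace D] [MeasurableSingletonClass D] in
/-- the set on the path of `g0` is closed -/
theorem closed_path (A : Set W) (g0 : W → D) (hg0 : g0 ∈ FG act A) (y : W) (η1 : List W)
    (hp : gpath act g0 A y = y :: η1) :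
    ∀ v ∈ A ∪ st (y :: η1), v ∉ A → act (g0 v) v ∈ A ∪ st (y :: η1) := by
  intro v hv hvA
  rcases hv with hv | hv
  · exact absurd hv hvA
  · right
    have hv' : v ∈ y :: η1 := hv
    obtain ⟨l0, l1, hl⟩ := List.append_of_mem hv'
    have h1 : gpath act g0 A v = v :: l1 := by
      have := (gpath_split act g0 A y v hg0 l0 l1).mp (by rw [hp, hl])
      exact this.1
    have h2 := gpath_cons act g0 A v hg0 hvA
    rw [h1] at h2
    have h3 : l1 = gpath act g0 A (act (g0 v) v) := (List.cons.inj h2).2
    have h4 := gpath_head act g0 A (act (g0 v) v)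
    have h5 : act (g0 v) v ∈ gpath act g0 A (act (g0 v) v) := List.mem_of_mem_head? h4
    show act (g0 v) v ∈ y :: η1
    rw [hl]
    rw [← h3] at h5
    exact List.mem_append_right _ (List.mem_cons_of_mem _ h5)

omit [Fintype D] [Nonempty D] [MeasurableSpace D] [MeasurableSingletonClass D] in
/-- the fibre of the restriction map -/
theorem fibre (A : Set W) (g0 : W → D) (hg0 : g0 ∈ FG act A) (y : W) (η1 : List W)
    (hp : gpath act g0 A y = y :: η1) (g : W → D)
    (h : ∀ v ∈ A ∪ st (y :: η1), v ∉ A → g v = g0 v) : gpath act g A y = y :: η1 := by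
  rw [← hp]
  refine gpath_congr act g0 g A y hg0 fun v hv => ?_
  have h1 : v ∉ A := gpath_dropLast act g0 A y hg0 v hv
  have h2 : v ∈ gpath act g0 A y := List.dropLast_subset _ hv
  rw [hp] at h2
  exact h v (Or.inr h2) h1

theorem count [Finite W] (A : Set W) (hA : Reach act A) (w y : W) (η1 η : List W) :
    (({g | g ∈ FG act A ∧ gpath act g A y = y :: η1 ∧
        gpath act g (A ∪ st (y :: η1)) w = η}).ncard : ℝ) =
      (({g | g ∈ FG act A ∧ gpath act g A y = y :: η1}).ncard : ℝ) *
        (mu D).real {ω | lerw act w ω (A ∪ st (y :: η1)) = η} := by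
  classical
  haveI := Fintype.ofFinite W
  set S : Set W := A ∪ st (y :: η1) with hS
  set P : ℝ := (mu D).real {ω | lerw act w ω S = η} with hP
  set E : Finset (W → D) := Finset.univ.filter (fun g => g ∈ FG act A ∧
    gpath act g A y = y :: η1) with hE
  set ρ : (W → D) → (W → Option D) := fun g v => if v ∈ S ∧ v ∉ A then some (g v) else none
    with hρ
  have e1 : ({g | g ∈ FG act A ∧ gpath act g A y = y :: η1 ∧
      gpath act g S w = η}).ncard = (E.filter (fun g => gpath act g S w = η)).card := by
    rw [← Set.ncard_coe_finset]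
    congr 1
    ext g
    simp [hE, and_assoc]
  have e2 : ({g | g ∈ FG act A ∧ gpath act g A y = y :: η1}).ncard = E.card := by
    rw [← Set.ncard_coe_finset]
    congr 1
    ext g
    simp [hE]
  rw [e1, e2]
  have e3 : (E.filter (fun g => gpath act g S w = η)).card =
      ∑ r ∈ E.image ρ, ((E.filter (fun g => gpath act g S w = η)).filter
        (fun g => ρ g = r)).card :=
    Finset.card_eq_sum_card_fiberwise (fun g hg =>
      Finset.mem_coe.mpr (Finset.mem_image_of_mem ρ (Finset.mem_filter.mp hg).1))
  have e4 : E.card = ∑ r ∈ E.image ρ, (E.filter (fun g => ρ g = r)).card :=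
    Finset.card_eq_sum_card_fiberwise (fun g hg =>
      Finset.mem_coe.mpr (Finset.mem_image_of_mem ρ hg))
  rw [e3, e4]
  push_cast
  rw [Finset.sum_mul]
  refine Finset.sum_congr rfl fun r hr => ?_
  obtain ⟨g0, hg0E, rfl⟩ := Finset.mem_image.mp hr
  have hg0 : g0 ∈ FG act A := (Finset.mem_filter.mp hg0E).2.1
  have hp : gpath act g0 A y = y :: η1 := (Finset.mem_filter.mp hg0E).2.2
  have key : ∀ g : W → D, ρ g = ρ g0 ↔ ∀ v ∈ S, v ∉ A → g v = g0 v := by
    intro g
    constructor
    · intro h v hv hvA
      have h1 := congrFun h v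
      simp only [hρ] at h1
      rw [if_pos ⟨hv, hvA⟩, if_pos ⟨hv, hvA⟩] at h1
      exact Option.some.inj h1
    · intro h
      funext v
      simp only [hρ]
      by_cases hv : v ∈ S ∧ v ∉ A
      · rw [if_pos hv, if_pos hv, h v hv.1 hv.2]
      · rw [if_neg hv, if_neg hv]
  have w1 := wilson_cond act A S hA Set.subset_union_left g0 hg0
    (closed_path act A g0 hg0 y η1 hp) w η
  have f1 : (FG act A ∩ {g | (∀ v ∈ S, v ∉ A → g v = g0 v) ∧ gpath act g S w = η}).ncard =
      ((E.filter (fun g => gpath act g S w = η)).filter (fun g => ρ g = ρ g0)).card := by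
    rw [← Set.ncard_coe_finset]
    congr 1
    ext g
    simp only [Set.mem_inter_iff, Set.mem_ofPred_eq, Finset.coe_filter, Finset.mem_filter, hE,
      Finset.mem_univ, true_and]
    rw [key g]
    constructor
    · rintro ⟨h1, h2, h3⟩
      exact ⟨⟨⟨h1, fibre act A g0 hg0 y η1 hp g h2⟩, h3⟩, h2⟩
    · rintro ⟨⟨⟨h1, _⟩, h3⟩, h2⟩
      exact ⟨h1, h2, h3⟩
  have f2 : (FG act A ∩ {g | ∀ v ∈ S, v ∉ A → g v = g0 v}).ncard =
      (E.filter (fun g => ρ g = ρ g0)).card := by
    rw [← Set.ncard_coe_finset]
    congr 1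
    ext g
    simp only [Set.mem_inter_iff, Set.mem_ofPred_eq, Finset.coe_filter, Finset.mem_filter, hE,
      Finset.mem_univ, true_and]
    rw [key g]
    constructor
    · rintro ⟨h1, h2⟩
      exact ⟨⟨h1, fibre act A g0 hg0 y η1 hp g h2⟩, h2⟩
    · rintro ⟨⟨h1, _⟩, h2⟩
      exact ⟨h1, h2⟩
  rw [f1, f2] at w1
  exact w1

/-- the splittings of a list -/
theorem tsum_split (G : List W × W × List W → ENNReal) (l : List W) :
    (∑' t : List W × W × List W, (open Classical in
      if t.1 ++ t.2.1 :: t.2.2 = l then G t else 0)) =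
      ∑ i : Fin l.length, G (l.take i, l[i], l.drop (i + 1)) := by
  classical
  set φ : Fin l.length → List W × W × List W := fun i => (l.take i, l[i], l.drop (i + 1))
    with hφ
  have hinj : Function.Injective φ := by
    intro i j hij
    have h1 : (l.take i).length = (l.take j).length := by
      have := congrArg (fun t : List W × W × List W => t.1.length) hij
      simpa [hφ] using this
    rw [List.length_take, List.length_take, min_eq_left i.2.le, min_eq_left j.2.le] at h1
    exact Fin.ext h1
  rw [tsum_eq_sum (s := Finset.univ.image φ) (fun t ht => ?_), Finset.sum_image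
    (fun a _ b _ h => hinj h)]
  · refine Finset.sum_congr rfl fun i _ => ?_
    rw [if_pos]
    show l.take i ++ l[i] :: l.drop (i + 1) = l
    have := List.take_append_drop (i : ℕ) l
    conv_rhs => rw [← this]
    congr 1
    exact (List.drop_eq_getElem_cons i.2).symm
  · rw [if_neg]
    intro h
    apply ht
    have hlen : t.1.length < l.length := by rw [← h]; simp
    refine Finset.mem_image.mpr ⟨⟨t.1.length, hlen⟩, Finset.mem_univ _, ?_⟩
    obtain ⟨a, b, c⟩ := t
    simp only at h hlen ⊢
    subst h
    simp [hφ]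

end OnePt

section onept
variable {W D : Type} [Fintype D] [Nonempty D] [MeasurableSpace D]
  [MeasurableSingletonClass D] (act : D → W → W)

theorem onept [Finite W] (A : Set W) (hA : Reach act A) (w y : W) (η0 η1 : List W) :
    (mu D).real {ω | lerw act w ω A = η0 ++ y :: η1} =
      (mu D).real {ω | lerw act y ω A = y :: η1} *
        (mu D).real {ω | lerw act w ω (A ∪ st (y :: η1)) = η0 ++ [y]} := by
  classical
  have hpos : (0 : ℝ) < ((FG act A).ncard : ℝ) := by
    have h1 := FG_nonempty act A hA
    have h2 : 0 < (FG act A).ncard := (Set.ncard_pos (Set.toFinite _)).mpr h1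
    exact_mod_cast h2
  have w1 := wilson act A hA w (η0 ++ y :: η1)
  have w2 := wilson act A hA y (y :: η1)
  have w3 := OnePt.count act A hA w y η1 (η0 ++ [y])
  have e1 : FG act A ∩ {g | gpath act g A w = η0 ++ y :: η1} =
      {g | g ∈ FG act A ∧ gpath act g A y = y :: η1 ∧
        gpath act g (A ∪ st (y :: η1)) w = η0 ++ [y]} := by
    ext g
    constructor
    · rintro ⟨hg, hp⟩
      exact ⟨hg, (gpath_split act g A w y hg η0 η1).mp hp⟩
    · rintro ⟨hg, hp⟩
      exact ⟨hg, (gpath_split act g A w y hg η0 η1).mpr hp⟩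
  have e2 : FG act A ∩ {g | gpath act g A y = y :: η1} =
      {g | g ∈ FG act A ∧ gpath act g A y = y :: η1} := rfl
  rw [e1, w3] at w1
  rw [e2] at w2
  rw [w2] at w1
  have w4 : ((FG act A).ncard : ℝ) * ((mu D).real {ω | lerw act w ω A = η0 ++ y :: η1}) =
      ((FG act A).ncard : ℝ) * ((mu D).real {ω | lerw act y ω A = y :: η1} *
        (mu D).real {ω | lerw act w ω (A ∪ st (y :: η1)) = η0 ++ [y]}) := by
    rw [← w1]; ring
  exact mul_left_cancel₀ hpos.ne' w4

end onept

namespace OnePt

variable {W D : Type} [Fintype D] [Nonempty D] [MeasurableSpace D]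
  [MeasurableSingletonClass D] (act : D → W → W)

/-- integral of a function of a loop-erased walk -/
theorem lint_lerw [Finite W] (A : Set W) (w : W) (F : List W → ENNReal) :
    ∫⁻ ω, F (lerw act w ω A) ∂(mu D) =
      ∑' l : List W, F l * (mu D) {ω | lerw act w ω A = l} := by
  classical
  letI : MeasurableSpace (List W) := ⊤
  haveI : MeasurableSingletonClass (List W) := ⟨fun _ => trivial⟩
  have hm : Measurable (fun ω : ℕ → D => lerw act w ω A) := measurable_lerw act A w (fun l => l)
  have h1 : ∫⁻ ω, F (lerw act w ω A) ∂(mu D) =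
      ∫⁻ l, F l ∂((mu D).map (fun ω : ℕ → D => lerw act w ω A)) :=
    (lintegral_map (f := F) (fun _ _ => trivial) hm).symm
  rw [h1, lintegral_countable']
  refine tsum_congr fun l => ?_
  rw [Measure.map_apply hm (measurableSet_singleton l)]
  rfl

theorem real_to (s t u : Set (ℕ → D)) (h : (mu D).real s = (mu D).real t * (mu D).real u) :
    mu D s = mu D t * mu D u := by
  have h1 : (mu D) s ≠ ⊤ := measure_ne_top _ _
  have h2 : (mu D) t ≠ ⊤ := measure_ne_top _ _
  have h3 : (mu D) u ≠ ⊤ := measure_ne_top _ _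
  unfold Measure.real at h
  rw [← ENNReal.toReal_mul] at h
  exact (ENNReal.toReal_eq_toReal_iff' h1 (ENNReal.mul_ne_top h2 h3)).mp h

end OnePt

section onept
variable {W D : Type} [Fintype D] [Nonempty D] [MeasurableSpace D]
  [MeasurableSingletonClass D] (act : D → W → W)

theorem onept_int [Fintype W] (A : Set W) (hA : Reach act A) (w : W)
    (F : List W → List W → ENNReal) :
    ∫⁻ ω, ∑ i ∈ Finset.range (lerw act w ω A).length,
        F ((lerw act w ω A).take (i + 1)) ((lerw act w ω A).drop i) ∂(mu D) =
      ∑ y, ∫⁻ ω, ∫⁻ ω', (open Classical in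
        if pos act w ω' (tau act w ω' (A ∪ st (lerw act y ω A))) = y then
          F (lerw act w ω' (A ∪ st (lerw act y ω A))) (lerw act y ω A) else 0)
            ∂(mu D) ∂(mu D) := by
  classical
  -- left-hand side
  have hL : ∫⁻ ω, ∑ i ∈ Finset.range (lerw act w ω A).length,
        F ((lerw act w ω A).take (i + 1)) ((lerw act w ω A).drop i) ∂(mu D) =
      ∑' t : List W × W × List W, F (t.1 ++ [t.2.1]) (t.2.1 :: t.2.2) *
        (mu D) {ω | lerw act w ω A = t.1 ++ t.2.1 :: t.2.2} := by
    have h1 := OnePt.lint_lerw act A w (fun l => ∑ i ∈ Finset.range l.length,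
      F (l.take (i + 1)) (l.drop i))
    rw [h1]
    have h2 : ∀ l : List W, (∑ i ∈ Finset.range l.length, F (l.take (i + 1)) (l.drop i)) =
        ∑' t : List W × W × List W, (if t.1 ++ t.2.1 :: t.2.2 = l then
          F (t.1 ++ [t.2.1]) (t.2.1 :: t.2.2) else 0) := by
      intro l
      rw [OnePt.tsum_split (fun t => F (t.1 ++ [t.2.1]) (t.2.1 :: t.2.2)) l, Finset.sum_range]
      refine Finset.sum_congr rfl fun i _ => ?_
      have e1 : l.take ((i : ℕ) + 1) = l.take (i : ℕ) ++ [l[i]] :=
        (List.take_succ_eq_append_getElem i.2)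
      have e2 : l.drop (i : ℕ) = l[i] :: l.drop ((i : ℕ) + 1) := List.drop_eq_getElem_cons i.2
      rw [e1, e2]
    have h3 : ∀ l : List W, (∑ i ∈ Finset.range l.length, F (l.take (i + 1)) (l.drop i)) *
        (mu D) {ω | lerw act w ω A = l} =
        ∑' t : List W × W × List W, (if t.1 ++ t.2.1 :: t.2.2 = l then
          F (t.1 ++ [t.2.1]) (t.2.1 :: t.2.2) * (mu D) {ω | lerw act w ω A = l} else 0) := by
      intro l
      rw [h2 l, ← ENNReal.tsum_mul_right]
      refine tsum_congr fun t => ?_
      split_ifs <;> simp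
    rw [tsum_congr h3, ENNReal.tsum_comm]
    refine tsum_congr fun t => ?_
    rw [tsum_eq_single (t.1 ++ t.2.1 :: t.2.2)]
    · rw [if_pos rfl]
    · intro l hl
      rw [if_neg hl.symm]
  -- right-hand side
  have hR : ∀ y : W, ∫⁻ ω, ∫⁻ ω', (if pos act w ω' (tau act w ω' (A ∪ st (lerw act y ω A))) = y
        then F (lerw act w ω' (A ∪ st (lerw act y ω A))) (lerw act y ω A) else 0)
            ∂(mu D) ∂(mu D) =
      ∑' η1 : List W, ∑' η0 : List W, F (η0 ++ [y]) (y :: η1) *
        (mu D) {ω | lerw act w ω A = η0 ++ y :: η1} := by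
    intro y
    have h1 : ∀ (B : Set W) (l1 : List W), ∫⁻ ω', (if pos act w ω' (tau act w ω' B) = y
        then F (lerw act w ω' B) l1 else 0) ∂(mu D) =
        ∑' η0 : List W, F (η0 ++ [y]) l1 * (mu D) {ω | lerw act w ω B = η0 ++ [y]} := by
      intro B l1
      have h2 : ∀ ω' : ℕ → D, (if pos act w ω' (tau act w ω' B) = y
          then F (lerw act w ω' B) l1 else 0) =
          (fun l : List W => if l.getLast? = some y then F l l1 else 0) (lerw act w ω' B) := by
        intro ω'
        simp only
        rw [lerw_getLast act B w ω']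
        by_cases h : pos act w ω' (tau act w ω' B) = y
        · rw [if_pos h, if_pos (by rw [h])]
        · rw [if_neg h, if_neg (fun h' => h (Option.some.inj h'))]
      rw [lintegral_congr h2, OnePt.lint_lerw act B w
        (fun l : List W => if l.getLast? = some y then F l l1 else 0)]
      have hinj : Function.Injective (fun η0 : List W => η0 ++ [y]) :=
        fun a b h => List.append_cancel_right h
      have hs : Function.support (fun l : List W => (if l.getLast? = some y then F l l1 else 0) *
          (mu D) {ω | lerw act w ω B = l}) ⊆ Set.range (fun η0 : List W => η0 ++ [y]) := by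
        intro l hl
        by_contra hne
        apply hl
        have : l.getLast? ≠ some y := by
          intro h
          apply hne
          obtain ⟨l', hl'⟩ := List.getLast?_eq_some_iff.mp h
          exact ⟨l', hl'.symm⟩
        simp [this]
      rw [← hinj.tsum_eq hs]
      refine tsum_congr fun η0 => ?_
      simp
    simp only [h1]
    have h3 := OnePt.lint_lerw act A y (fun l1 => ∑' η0 : List W, F (η0 ++ [y]) l1 *
      (mu D) {ω | lerw act w ω (A ∪ st l1) = η0 ++ [y]})
    rw [h3]
    have hinj : Function.Injective (fun η1 : List W => y :: η1) :=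
      fun a b h => (List.cons.inj h).2
    have hs : Function.support (fun l1 : List W => (∑' η0 : List W, F (η0 ++ [y]) l1 *
      (mu D) {ω | lerw act w ω (A ∪ st l1) = η0 ++ [y]}) * (mu D) {ω | lerw act y ω A = l1}) ⊆
        Set.range (fun η1 : List W => y :: η1) := by
      intro l hl
      by_contra hne
      apply hl
      have h0 : {ω : ℕ → D | lerw act y ω A = l} = ∅ := by
        ext ω
        simp only [Set.mem_ofPred_eq, Set.mem_empty_iff_false, iff_false]
        intro h
        apply hne
        have h4 := lerw_head act A y ω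
        rw [h] at h4
        obtain ⟨l', hl'⟩ := List.head?_eq_some_iff.mp h4
        exact ⟨l', hl'.symm⟩
      show _ * (mu D) {ω | lerw act y ω A = l} = 0
      rw [h0]
      simp
    rw [← hinj.tsum_eq hs]
    refine tsum_congr fun η1 => ?_
    rw [← ENNReal.tsum_mul_right]
    refine tsum_congr fun η0 => ?_
    rw [OnePt.real_to _ _ _ (onept act A hA w y η0 η1), mul_assoc]
    congr 1
    rw [mul_comm]
  rw [hL, Finset.sum_congr rfl (fun y _ => hR y)]
  have hP : ∑' t : List W × W × List W, F (t.1 ++ [t.2.1]) (t.2.1 :: t.2.2) *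
        (mu D) {ω | lerw act w ω A = t.1 ++ t.2.1 :: t.2.2} =
      ∑' η0 : List W, ∑' y : W, ∑' η1 : List W, F (η0 ++ [y]) (y :: η1) *
        (mu D) {ω | lerw act w ω A = η0 ++ y :: η1} := by
    rw [ENNReal.tsum_prod']
    refine tsum_congr fun η0 => ?_
    rw [ENNReal.tsum_prod']
  rw [hP, ENNReal.tsum_comm, tsum_fintype]
  refine Finset.sum_congr rfl fun y _ => ?_
  rw [ENNReal.tsum_comm]

end onept

end Pool.Agent.UST
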