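import Pool.Agent.Helper54.UST.L3
import Pool.Agent.Helper54.UST.LemUC
import Pool.Agent.Helper54.UST.Asy
import Pool.Agent.Helper54.UST.Tau
import Pool.Agent.Helper54.UST.LE2

/-! Paper 10.2 (pieces), for every starting point. -/

namespace Pool.Agent.UST

open MeasureTheory

namespace P102

/-- cutting a list in short pieces -/
theorem chunks {W : Type} (w : ℕ) (hw : 1 ≤ w) : ∀ (m : ℕ) (l : List W), l.length = m →
    ∃ c : List (List W), c.flatten = l ∧ c.length ≤ l.length / w + 1 ∧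
      ∀ p ∈ c, p.length ≤ w ∧ ∀ y ∈ p, y ∈ l := by
  intro m
  induction m using Nat.strong_induction_on with
  | _ m ih =>
    intro l hl
    by_cases h : l.length ≤ w
    · refine ⟨[l], by simp, by simp, ?_⟩
      intro p hp
      rw [List.mem_singleton] at hp
      subst hp
      exact ⟨h, fun y hy => hy⟩
    · push Not at h
      have h1 : (l.drop w).length = l.length - w := List.length_drop
      obtain ⟨c, hc1, hc2, hc3⟩ := ih (l.drop w).length (by omega) (l.drop w) rfl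
      refine ⟨l.take w :: c, ?_, ?_, ?_⟩
      · rw [List.flatten_cons, hc1, List.take_append_drop]
      · rw [List.length_cons]
        have h2 := Nat.div_eq_sub_div (show 0 < w by omega) h.le
        rw [h1] at hc2
        omega
      · intro p hp
        rcases List.mem_cons.mp hp with hp | hp
        · subst hp
          exact ⟨by rw [List.length_take]; exact min_le_left _ _,
            fun y hy => List.take_subset _ _ hy⟩
        · obtain ⟨h3, h4⟩ := hc3 p hp
          exact ⟨h3, fun y hy => List.drop_subset _ _ (h4 y hy)⟩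

theorem chunks_list {W : Type} (w : ℕ) (hw : 1 ≤ w) (ps : List (List W)) :
    ∃ c : List (List W), c.flatten = ps.flatten ∧ c.length ≤ ps.flatten.length / w + ps.length ∧
      ∀ p ∈ c, p.length ≤ w ∧ ∃ q ∈ ps, ∀ y ∈ p, y ∈ q := by
  induction ps with
  | nil => exact ⟨[], by simp, by simp, by simp⟩
  | cons q ps ih =>
    obtain ⟨c, hc1, hc2, hc3⟩ := ih
    obtain ⟨c', hc1', hc2', hc3'⟩ := chunks w hw q.length q rfl
    refine ⟨c' ++ c, ?_, ?_, ?_⟩
    · rw [List.flatten_append, List.flatten_cons, hc1, hc1']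
    · rw [List.length_append, List.flatten_cons, List.length_append, List.length_cons]
      have := Nat.add_div_le_add_div q.length ps.flatten.length w
      omega
    · intro p hp
      rcases List.mem_append.mp hp with hp | hp
      · obtain ⟨h1, h2⟩ := hc3' p hp
        exact ⟨h1, q, List.mem_cons_self, h2⟩
      · obtain ⟨h1, q', hq', h2⟩ := hc3 p hp
        exact ⟨h1, q', List.mem_cons_of_mem _ hq', h2⟩

/-- cutting a list in windows -/
theorem windows {W : Type} (s : ℕ) (l : List W) (J : ℕ) :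
    ((List.range J).map (fun j => (l.drop (j * s)).take s)).flatten = l.take (J * s) := by
  induction J with
  | zero => simp
  | succ J ih =>
    rw [List.range_succ, List.map_append, List.flatten_append, ih, List.map_singleton,
      List.flatten_singleton, Nat.succ_mul, List.take_add]

theorem mem_window (n : ℕ) (x : V n) (ω : ℕ → DD) (t s j : ℕ) (y : V n)
    (hy : y ∈ ((seg (act n) x ω 0 t).drop (j * s)).take s) :
    y ∈ seg (act n) x ω (j * s) (j * s + s) := by
  rw [List.mem_iff_getElem] at hy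
  obtain ⟨i, hi, rfl⟩ := hy
  have hi' : i < s ∧ j * s + i < (seg (act n) x ω 0 t).length := by
    rw [List.length_take, List.length_drop] at hi
    omega
  rw [List.getElem_take, List.getElem_drop, mem_seg]
  refine ⟨j * s + i, by omega, by omega, ?_⟩
  unfold seg
  simp

/-- deterministic part -/
theorem determ (n : ℕ) [NeZero n] (R J s w T : ℕ) (h B' ζ Λ : ℝ) (hw1 : 1 ≤ w)
    (hwh : (w : ℝ) ≤ h * rr n) (hJ : T + 1 ≤ J * s) (G : ℕ) (hG : Λ * rr n ≤ (w * G : ℕ))
    (hR : J + G ≤ R) (A : Set (V n)) (x : V n) (ω : ℕ → DD)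
    (h1 : tau (act n) x ω A ≤ T) (h2 : ((lerw (act n) x ω A).length : ℝ) ≤ Λ * rr n)
    (h3 : ∀ j < J, pm n ⌈B' * kk n⌉₊ (st (seg (act n) x ω (j * s) (j * s + s))) ≤ ζ) :
    Pieces n R h B' ζ (lerw (act n) x ω A) := by
  set t := tau (act n) x ω A with ht
  set l := seg (act n) x ω 0 t with hl
  have hlen : l.length = t + 1 := by rw [hl, seg_length]; omega
  set ls := (List.range J).map (fun j => (l.drop (j * s)).take s) with hls
  have hfl : ls.flatten = l := by
    rw [hls, windows, List.take_of_length_le (by omega)]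
  obtain ⟨ps, hps1, hps2, hps3⟩ := le_flatten ls
  obtain ⟨c, hc1, hc2, hc3⟩ := chunks_list w hw1 ps
  have hle : lerw (act n) x ω A = ps.flatten := by
    rw [hps2, hfl]
    rfl
  have hlsl : ls.length = J := by rw [hls]; simp
  refine ⟨c, by rw [hc1, hle], ?_, ?_⟩
  · have h4 : ps.flatten.length ≤ w * G := by
      have : ((ps.flatten.length : ℕ) : ℝ) ≤ ((w * G : ℕ) : ℝ) := by
        rw [← hle]
        exact h2.trans hG
      exact_mod_cast this
    have h5 : ps.flatten.length / w ≤ G := Nat.div_le_of_le_mul h4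
    omega
  · intro p hp
    obtain ⟨h4, q, hq, h5⟩ := hc3 p hp
    refine ⟨le_trans (by exact_mod_cast h4) hwh, ?_⟩
    obtain ⟨i, hi, rfl⟩ := List.mem_iff_getElem.mp hq
    have hi' : i < ls.length := by omega
    refine le_trans (pm_mono n le_rfl ?_) (h3 i (by omega))
    intro y hy
    have h6 := hps3 i hi hi' y (h5 y hy)
    have h7 : ls[i] = (l.drop (i * s)).take s := by
      simp [hls]
    rw [h7] at h6
    exact mem_window n x ω t s i y h6

end P102

open P102

theorem p102 (B B' h ζ ε : ℝ) (hB : 0 < B) (hB' : 0 < B') (hh : 0 < h) (hζ : 0 < ζ)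
    (hε : 0 < ε) : ∃ R n0 : ℕ, ∀ (n : ℕ) [NeZero n], n0 ≤ n → ∀ A : Set (V n), A.Nonempty →
    (∀ x, Et n A x ≤ B * kk n) → ∀ x : V n,
    pr {ω | ¬ Pieces n R h B' ζ (lerw (act n) x ω A)} ≤ ε := by
  obtain ⟨Cu, hCu, hUC⟩ := lemUC_k
  obtain ⟨C3, hC3, n3, hL3⟩ := l3_tail
  set θ : ℝ := ζ / (Cu * B') with hθ
  have hθ0 : 0 < θ := by positivity
  obtain ⟨nu, hnu⟩ := hUC B' θ hB' hθ0
  obtain ⟨lam, hlam⟩ := exists_pow_lt_of_lt_one (show (0 : ℝ) < ε / 6 by positivity)
    (show (1 / 2 : ℝ) < 1 by norm_num)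
  set Λ : ℝ := 24 * C3 * B ^ 3 / ε + 1 with hΛ
  have hΛ1 : 1 ≤ Λ := by
    rw [hΛ]
    have : 0 ≤ 24 * C3 * B ^ 3 / ε := by positivity
    linarith
  set J : ℕ := ⌈3 * B * lam / θ⌉₊ + 2 with hJdef
  set G : ℕ := ⌈2 * Λ / h⌉₊ with hGdef
  obtain ⟨na, hna⟩ := sq_le_kk 1 B hB
  obtain ⟨nb, hnb⟩ := kk_le_pow B
  obtain ⟨nc, hnc⟩ := rr_kk
  obtain ⟨nd, hnd⟩ := exp_small (3 * J / ε) 0
  obtain ⟨ne, hne⟩ := sq_le_kk 1 θ hθ0
  obtain ⟨nf, hnf⟩ := rr_large (2 / h)
  obtain ⟨ng, hng⟩ := LL_large 1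
  refine ⟨J + G, n3 + nu + na + nb + nc + nd + ne + nf + ng + 1,
    fun n _ hn A hA hEt x => ?_⟩
  have hn1 : (1 : ℝ) ≤ n := by exact_mod_cast (show 1 ≤ n by omega)
  have hn2 : (1 : ℝ) ≤ (n : ℝ) ^ 2 := by nlinarith
  have hBk := hna n (by omega)
  have hBk9 := hnb n (by omega)
  obtain ⟨_, hkr⟩ := hnc n (by omega)
  have hexp := hnd n (by omega)
  have hθk := hne n (by omega)
  obtain ⟨_, hrl, _⟩ := hnf n (by omega)
  have hL1 := hng n (by omega)
  have hL0 : 0 < LL n := by linarith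
  have hBk1 : 1 ≤ B * kk n := by linarith
  have hθk1 : 1 ≤ θ * kk n := by linarith
  have hk0 : (0 : ℝ) < kk n := by
    by_contra hcon
    push Not at hcon
    have : θ * kk n ≤ 0 := mul_nonpos_of_nonneg_of_nonpos hθ0.le hcon
    linarith
  have hr0 : 0 < rr n := by
    have : 0 < 2 / h * (n : ℝ) ^ 2 := by positivity
    linarith
  have hhr : 2 ≤ h * rr n := by
    have h1 : h * (2 / h * (n : ℝ) ^ 2) ≤ h * rr n := mul_le_mul_of_nonneg_left hrl hh.le
    have h2 : h * (2 / h * (n : ℝ) ^ 2) = 2 * (n : ℝ) ^ 2 := by field_simp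
    linarith
  set s : ℕ := ⌈θ * kk n⌉₊ with hs
  have hs1 : θ * kk n ≤ s := Nat.le_ceil _
  have hs2 : (s : ℝ) ≤ θ * kk n + 1 := (Nat.ceil_lt_add_one (by positivity)).le
  set T : ℕ := ⌈3 * B * lam * kk n⌉₊ with hT
  have hT1 : 3 * B * lam * kk n ≤ T := Nat.le_ceil _
  have hT2 : (T : ℝ) ≤ 3 * B * lam * kk n + 1 := (Nat.ceil_lt_add_one (by positivity)).le
  have hJs : T + 1 ≤ J * s := by
    have h1 : ((T + 1 : ℕ) : ℝ) ≤ ((J * s : ℕ) : ℝ) := by
      push_cast
      have h2 : 3 * B * lam / θ ≤ (⌈3 * B * lam / θ⌉₊ : ℝ) := Nat.le_ceil _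
      have h3 : (J : ℝ) = (⌈3 * B * lam / θ⌉₊ : ℝ) + 2 := by rw [hJdef]; push_cast; ring
      have h4 : (3 * B * lam / θ + 2) * (θ * kk n) ≤ J * s := by
        rw [h3]
        exact mul_le_mul (by linarith) hs1 (by positivity) (by positivity)
      have h5 : (3 * B * lam / θ + 2) * (θ * kk n) = 3 * B * lam * kk n + 2 * (θ * kk n) := by
        field_simp
      linarith
    exact_mod_cast h1
  set w : ℕ := ⌊h * rr n⌋₊ with hw
  have hw1 : (w : ℝ) ≤ h * rr n := Nat.floor_le (by positivity)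
  have hw2 : h * rr n / 2 ≤ w := by
    have := Nat.lt_floor_add_one (h * rr n)
    linarith
  have hw3 : 1 ≤ w := by
    have : (1 : ℝ) ≤ w := by linarith
    exact_mod_cast this
  have hwG : Λ * rr n ≤ ((w * G : ℕ) : ℝ) := by
    push_cast
    have h1 : 2 * Λ / h ≤ (G : ℝ) := Nat.le_ceil _
    have h2 : h * rr n / 2 * (2 * Λ / h) ≤ w * G :=
      mul_le_mul hw2 h1 (by positivity) (by positivity)
    have h3 : h * rr n / 2 * (2 * Λ / h) = Λ * rr n := by field_simp
    linarith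
  -- the events
  have hsub : {ω | ¬ Pieces n (J + G) h B' ζ (lerw (act n) x ω A)} ⊆
      ({ω | T < tau (act n) x ω A} ∪ {ω | Λ * rr n ≤ ((lerw (act n) x ω A).length : ℝ)}) ∪
        ⋃ j ∈ Finset.range J, {ω | Cu * B' * θ <
          pm n ⌈B' * kk n⌉₊ (st (seg (act n) x ω (j * s) (j * s + s)))} := by
    intro ω hω
    by_contra hcon
    rw [Set.mem_union, Set.mem_union, not_or, not_or] at hcon
    obtain ⟨⟨h1, h2⟩, h3⟩ := hcon
    apply hω
    have h1' : tau (act n) x ω A ≤ T := not_lt.mp h1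
    have h2' : ((lerw (act n) x ω A).length : ℝ) ≤ Λ * rr n := (not_le.mp h2).le
    refine determ n (J + G) J s w T h B' ζ Λ hw3 hw1 hJs G hwG le_rfl A x ω h1' h2' ?_
    intro j hj
    by_contra hcon
    apply h3
    rw [Set.mem_iUnion₂]
    refine ⟨j, Finset.mem_range.mpr hj, ?_⟩
    show Cu * B' * θ < _
    have h4 : Cu * B' * θ = ζ := by rw [hθ]; field_simp
    rw [h4]
    exact not_le.mp hcon
  have e1 : pr {ω | T < tau (act n) x ω A} ≤ ε / 3 := by
    refine (survive_pr n A hA (B * kk n) hBk1 hEt x T).trans ?_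
    have h1 : (2 : ℝ) ^ (-((T : ℝ) / (3 * (B * kk n)))) ≤ (2 : ℝ) ^ (-(lam : ℝ)) := by
      refine Real.rpow_le_rpow_of_exponent_le (by norm_num) ?_
      rw [neg_le_neg_iff, le_div_iff₀ (by positivity)]
      linarith
    have h2 : (2 : ℝ) ^ (-(lam : ℝ)) = (1 / 2 : ℝ) ^ lam := by
      rw [Real.rpow_neg (by norm_num), Real.rpow_natCast, one_div, inv_pow]
    linarith
  have e2 : pr {ω | Λ * rr n ≤ ((lerw (act n) x ω A).length : ℝ)} ≤ ε / 3 := by
    refine (hL3 n (by omega) A hA (B * kk n) (by linarith) hBk9 hEt x (Λ * rr n)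
      (by positivity)).trans ?_
    have h1 : (LL n ^ ((1 : ℝ) / 3)) ^ 3 = LL n := by
      rw [← Real.rpow_natCast, ← Real.rpow_mul hL0.le]
      norm_num
    have h2 : (kk n : ℝ) ^ 3 ≤ 8 * rr n ^ 3 * LL n := by
      have h3 : (kk n : ℝ) ^ 3 ≤ (2 * (rr n * LL n ^ ((1 : ℝ) / 3))) ^ 3 :=
        pow_le_pow_left₀ hk0.le hkr 3
      rw [mul_pow, mul_pow, h1] at h3
      linarith
    rw [div_le_iff₀ (by positivity)]
    have h4 : 24 * C3 * B ^ 3 / ε ≤ Λ ^ 3 := by
      have h5 : Λ ≤ Λ ^ 3 := by nlinarith [sq_nonneg (Λ - 1), mul_self_nonneg Λ]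
      linarith
    rw [div_le_iff₀ hε] at h4
    calc C3 * (B * kk n) ^ 3 = C3 * B ^ 3 * (kk n : ℝ) ^ 3 := by ring
      _ ≤ C3 * B ^ 3 * (8 * rr n ^ 3 * LL n) := by gcongr
      _ = (24 * C3 * B ^ 3) * (rr n ^ 3 * LL n / 3) := by ring
      _ ≤ (Λ ^ 3 * ε) * (rr n ^ 3 * LL n / 3) := by gcongr
      _ = ε / 3 * (LL n * (Λ * rr n) ^ 3) := by ring
  have e3 : pr (⋃ j ∈ Finset.range J, {ω | Cu * B' * θ <
      pm n ⌈B' * kk n⌉₊ (st (seg (act n) x ω (j * s) (j * s + s)))}) ≤ ε / 3 := by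
    have h1 : pr (⋃ j ∈ Finset.range J, {ω | Cu * B' * θ <
        pm n ⌈B' * kk n⌉₊ (st (seg (act n) x ω (j * s) (j * s + s)))}) ≤
        ∑ j ∈ Finset.range J, Real.exp (-((n : ℝ) ^ ((1 : ℝ) / 4))) := by
      refine (measureReal_biUnion_finset_le _ _).trans (Finset.sum_le_sum fun j _ => ?_)
      exact hnu n (by omega) ⌈B' * kk n⌉₊ s (j * s) x
        (Nat.ceil_lt_add_one (by positivity)).le hs2
    rw [Finset.sum_const, Finset.card_range, nsmul_eq_mul] at h1
    rw [pow_zero, div_one] at hexp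
    have h2 : (J : ℝ) * Real.exp (-((n : ℝ) ^ ((1 : ℝ) / 4))) ≤ ε / 3 := by
      have h3 : 3 * (J : ℝ) / ε * Real.exp (-((n : ℝ) ^ ((1 : ℝ) / 4))) =
        (J : ℝ) * Real.exp (-((n : ℝ) ^ ((1 : ℝ) / 4))) * (3 / ε) := by ring
      rw [h3, ← le_div_iff₀ (by positivity)] at hexp
      calc _ ≤ 1 / (3 / ε) := hexp
        _ = ε / 3 := by field_simp
    exact h1.trans h2
  calc pr {ω | ¬ Pieces n (J + G) h B' ζ (lerw (act n) x ω A)}
      ≤ pr (({ω | T < tau (act n) x ω A} ∪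
          {ω | Λ * rr n ≤ ((lerw (act n) x ω A).length : ℝ)}) ∪
        ⋃ j ∈ Finset.range J, {ω | Cu * B' * θ <
          pm n ⌈B' * kk n⌉₊ (st (seg (act n) x ω (j * s) (j * s + s)))}) :=
        measureReal_mono hsub (measure_ne_top _ _)
    _ ≤ (ε / 3 + ε / 3) + ε / 3 :=
        (measureReal_union_le _ _).trans (add_le_add
          ((measureReal_union_le _ _).trans (add_le_add e1 e2)) e3)
    _ = ε := by ring

end Pool.Agent.UST
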