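import Pool.Agent.Helper54.UST.Mix
import Pool.Agent.Helper54.UST.LemU
import Pool.Agent.Helper54.UST.LE2
import Pool.Agent.Helper54.UST.Av
import Pool.Agent.Helper54.UST.BaseMu
import Pool.Agent.Helper54.UST.BasePos

/-! Paper Lemma UP. -/

namespace Pool.Agent.UST

open MeasureTheory

/-- if the first part of a path is hit then the rest of the path is lost -/
private theorem up_mem {W : Type} (β ρ l : List W) (h : ∃ y ∈ l, y ∈ β) :
    ∀ z ∈ leF (β ++ ρ) l, z ∈ β ∨ z ∈ l := by
  induction l generalizing ρ with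
  | nil =>
    obtain ⟨y, hy, -⟩ := h
    exact absurd hy List.not_mem_nil
  | cons w l ih =>
    intro z hz
    rw [le1_leF_cons] at hz
    by_cases hw : w ∈ β
    · rw [le1_stepLE_append_mem hw] at hz
      rcases mem_leF hz with h1 | h1
      · rcases le1_mem_stepLE h1 with h2 | h2
        · exact Or.inl h2
        · exact Or.inr (h2 ▸ List.mem_cons_self)
      · exact Or.inr (List.mem_cons_of_mem _ h1)
    · rw [le1_stepLE_append_notMem hw] at hz
      obtain ⟨y, hy, hyβ⟩ := h
      have hyl : y ∈ l := by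
        rcases List.mem_cons.mp hy with h1 | h1
        · exact absurd (h1 ▸ hyβ) hw
        · exact h1
      rcases ih (stepLE ρ w) ⟨y, hyl, hyβ⟩ z hz with h2 | h2
      · exact Or.inl h2
      · exact Or.inr (List.mem_cons_of_mem _ h2)

private theorem up_pm_leF (n : ℕ) [NeZero n] (m : ℕ) (β l : List (V n)) (S : Set (V n))
    (h : ∀ z ∈ S, z ∈ β ∨ z ∈ l) : pm n m S ≤ pm n m (st β) + pm n m (st l) := by
  refine (pm_mono n (le_refl m) (B' := st β ∪ st l) ?_).trans (pm_union n m _ _)
  intro z hz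
  exact h z hz

/-- the shortest initial segment with large hitting functional, without its last element -/
private theorem up_seg (n : ℕ) [NeZero n] (m : ℕ) (γ : List (V n)) (a : ℝ) (ha : 0 < a) :
    ∃ β : List (V n), (a ≤ pm n m (st γ) → a - ((m : ℝ) + 1) / NN n ≤ pm n m (st β)) ∧
      ∀ l : List (V n), pm n m (st (leF γ l)) < a + pm n m (st l) ∨
        (a ≤ pm n m (st γ) ∧ ∀ y ∈ l, y ∉ β) := by
  classical
  by_cases hγ : a ≤ pm n m (st γ)
  · have hex : ∃ i, a ≤ pm n m (st (γ.take i)) := ⟨γ.length, by rwa [List.take_length]⟩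
    set i := Nat.find hex with hi
    have hi1 : a ≤ pm n m (st (γ.take i)) := Nat.find_spec hex
    have hi0 : i ≠ 0 := by
      intro h0
      rw [h0, List.take_zero] at hi1
      have h1 : pm n m (st ([] : List (V n))) ≤ 0 := by
        have h2 := pm_card n m (st ([] : List (V n)))
        have h3 : st ([] : List (V n)) = ∅ := by
          ext y
          simp [st]
        rw [h3, Set.ncard_empty] at h2
        rw [h3]
        simpa using h2
      linarith
    obtain ⟨j, hj⟩ := Nat.exists_eq_succ_of_ne_zero hi0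
    have hj1 : ¬ a ≤ pm n m (st (γ.take j)) := Nat.find_min hex (by omega)
    have hjl : j < γ.length := by
      by_contra hc
      rw [not_lt] at hc
      apply hj1
      rw [List.take_of_length_le hc]
      exact hγ
    refine ⟨γ.take j, fun _ => ?_, fun l => ?_⟩
    · have h1 : pm n m (st (γ.take i)) ≤ pm n m (st (γ.take j)) + pm n m (st [γ[j]]) := by
        refine up_pm_leF n m _ _ _ fun z hz => ?_
        have hz' : z ∈ γ.take (j + 1) := by
          rw [hj] at hz
          exact hz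
        rw [← List.take_concat_get' γ j hjl, List.mem_append] at hz'
        exact hz'
      have h2 : pm n m (st [γ[j]]) ≤ ((m : ℝ) + 1) / NN n := by
        have h3 := pm_card n m (st [γ[j]])
        have h4 : st [γ[j]] = {γ[j]} := by
          ext y
          simp [st]
        rw [h4, Set.ncard_singleton] at h3
        rw [h4]
        simpa using h3
      linarith
    · by_cases hhit : ∃ y ∈ l, y ∈ γ.take j
      · left
        have h1 := up_mem (γ.take j) (γ.drop j) l hhit
        rw [List.take_append_drop] at h1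
        have h2 := up_pm_leF n m (γ.take j) l (st (leF γ l)) h1
        rw [not_le] at hj1
        linarith
      · right
        push Not at hhit
        exact ⟨hγ, hhit⟩
  · refine ⟨γ, fun h => absurd h hγ, fun l => Or.inl ?_⟩
    have h2 := up_pm_leF n m γ l (st (leF γ l)) fun z hz => mem_leF hz
    rw [not_le] at hγ
    linarith

private theorem up_exp_sum (J : ℕ) :
    ∑ j ∈ Finset.Icc 1 J, Real.exp (-((j : ℝ) / 16)) ≤ 16 * (1 - Real.exp (-((J : ℝ) / 16))) := by
  induction J with
  | zero => simp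
  | succ J ih =>
    rw [Finset.sum_Icc_succ_top (by omega)]
    have h1 : Real.exp (-(((J + 1 : ℕ) : ℝ) / 16)) * (1 / 16 + 1) ≤
        Real.exp (-((J : ℝ) / 16)) := by
      have h2 : Real.exp (-((J : ℝ) / 16)) =
          Real.exp (-(((J + 1 : ℕ) : ℝ) / 16)) * Real.exp (1 / 16) := by
        rw [← Real.exp_add]
        congr 1
        push_cast
        ring
      rw [h2]
      exact mul_le_mul_of_nonneg_left (Real.add_one_le_exp _) (Real.exp_pos _).le
    linarith

/-- counting of the levels -/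
private theorem up_count (A B c : ℝ) (hc : 0 ≤ c) (hB : 0 ≤ B) (J : ℕ) (hJ : A ≤ c * J)
    (E : ℕ → Prop) (h : ∀ j ∈ Finset.Icc 1 J, A < j * c + B ∨ E j) :
    A ≤ B + c * (1 + ∑ j ∈ Finset.Icc 1 J, ind (E j)) := by
  classical
  have hnn : ∀ j, 0 ≤ ind (E j) := fun j => ind_nonneg _
  by_cases hall : ∀ j ∈ Finset.Icc 1 J, E j
  · have h1 : ∑ j ∈ Finset.Icc 1 J, ind (E j) = J := by
      rw [Finset.sum_congr rfl fun j hj => ind_true (hall j hj)]
      simp
    rw [h1]
    nlinarith
  · push Not at hall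
    have hex : ∃ j, j ∈ Finset.Icc 1 J ∧ ¬ E j := hall
    set i := Nat.find hex with hi
    obtain ⟨hi1, hi2⟩ : i ∈ Finset.Icc 1 J ∧ ¬ E i := Nat.find_spec hex
    have h1 : A < i * c + B := (h i hi1).resolve_right hi2
    rw [Finset.mem_Icc] at hi1
    have h2 : ∀ j ∈ Finset.Icc 1 (i - 1), E j := by
      intro j hj
      rw [Finset.mem_Icc] at hj
      by_contra hc'
      exact Nat.find_min hex (m := j) (by omega) ⟨Finset.mem_Icc.mpr ⟨hj.1, by omega⟩, hc'⟩
    have h3 : ((i - 1 : ℕ) : ℝ) ≤ ∑ j ∈ Finset.Icc 1 J, ind (E j) := by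
      have h4 : ∑ j ∈ Finset.Icc 1 (i - 1), ind (E j) = ((i - 1 : ℕ) : ℝ) := by
        rw [Finset.sum_congr rfl fun j hj => ind_true (h2 j hj)]
        simp
      rw [← h4]
      exact Finset.sum_le_sum_of_subset_of_nonneg
        (Finset.Icc_subset_Icc_right (by omega)) fun j _ _ => hnn j
    rw [Nat.cast_sub hi1.1, Nat.cast_one] at h3
    nlinarith

/-- the probability to miss a set with large hitting functional -/
private theorem up_miss (n : ℕ) [NeZero n] (x : V n) (m k : ℕ) (hm : t0 n ≤ m) (hm1 : 1 ≤ m)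
    (hk : 8 * m ≤ k) (j : ℕ) (B : Set (V n)) (hB : (j : ℝ) * (m / k) / 2 ≤ pm n m B) :
    pr {ω | ¬ hit (act n) x ω (t0 n) k B} ≤ Real.exp (-((j : ℝ) / 16)) := by
  refine (miss_le n x k m B).trans ?_
  set p := pm n m B with hp
  have hp1 : p ≤ 1 := pm_le_one n m B
  set q := k / (m + t0 n) with hq
  have hmr : (1 : ℝ) ≤ m := by exact_mod_cast hm1
  have hkr : (8 : ℝ) * m ≤ k := by exact_mod_cast hk
  have hk0 : (0 : ℝ) < k := by linarith
  have hqr : (k : ℝ) / (4 * m) ≤ q := by
    have h1 : k < (m + t0 n) * (q + 1) := by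
      rw [hq]
      exact Nat.lt_mul_div_succ k (by omega)
    have h2 : k < (2 * m) * (q + 1) :=
      lt_of_lt_of_le h1 (Nat.mul_le_mul_right _ (by omega))
    have h3 : (k : ℝ) < (2 * m) * (q + 1) := by exact_mod_cast h2
    rw [div_le_iff₀ (by positivity)]
    nlinarith
  have h1 : (1 - p / 2) ^ q ≤ Real.exp (-(p / 2)) ^ q :=
    pow_le_pow_left₀ (by linarith) (by
      have := Real.add_one_le_exp (-(p / 2))
      linarith) q
  refine h1.trans ?_
  rw [← Real.exp_nat_mul]
  apply Real.exp_le_exp.mpr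
  have hp0 : 0 ≤ (j : ℝ) * (m / k) / 2 := by positivity
  have h2 : (j : ℝ) / 16 ≤ (q : ℝ) * (p / 2) := by
    calc (j : ℝ) / 16 = (k : ℝ) / (4 * m) * ((j : ℝ) * (m / k) / 2 / 2) := by
          field_simp
          ring
      _ ≤ (q : ℝ) * (p / 2) := by
          apply mul_le_mul hqr _ (by positivity) (by positivity)
          linarith
  linarith

theorem lemUP : ∃ C : ℝ, 0 < C ∧ ∃ n0 : ℕ, ∀ (n : ℕ) [NeZero n], n0 ≤ n →
    ∀ (x : V n) (γ : List (V n)) (m : ℕ), Path1 γ x → t0 n ≤ m → 8 * m ≤ kk n →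
    ∫ ω, pm n m (st (MM n γ x ω (kk n))) ∂(mu DD) ≤ C * m / kk n := by
  obtain ⟨C, hC, n0, hU⟩ := lemU
  refine ⟨4 * C + 17, by positivity, max n0 8, fun n _ hn x γ m _ hm hmk => ?_⟩
  have hn0 : n0 ≤ n := (le_max_left _ _).trans hn
  have hn8 : 8 ≤ n := (le_max_right _ _).trans hn
  have hnr : (8 : ℝ) ≤ n := by exact_mod_cast hn8
  -- numbers
  have ht0 : 1 ≤ t0 n := by
    unfold t0
    have : 0 < n ^ 2 := by positivity
    omega
  have hm1 : 1 ≤ m := ht0.trans hm
  have hmr : (1 : ℝ) ≤ m := by exact_mod_cast hm1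
  have hk0 : 0 < kk n := by omega
  have hkr : (0 : ℝ) < kk n := by exact_mod_cast hk0
  have hN : (0 : ℝ) < NN n := by
    unfold NN
    positivity
  have hL1 : (1 : ℝ) ≤ LL n := by
    unfold LL
    rw [Real.le_log_iff_exp_le (by linarith)]
    have := Real.exp_one_lt_d9
    linarith
  have hLn : LL n ≤ n := by
    unfold LL
    have := Real.log_le_sub_one_of_pos (show (0 : ℝ) < n by linarith)
    linarith
  have hs1 : 1 ≤ Real.sqrt (LL n) := by
    rw [Real.one_le_sqrt]
    exact hL1
  have hsn : Real.sqrt (LL n) ≤ n := by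
    rw [Real.sqrt_le_left (by linarith)]
    nlinarith
  have hss : Real.sqrt (LL n) * Real.sqrt (LL n) = LL n :=
    Real.mul_self_sqrt (by linarith)
  have hkle : (kk n : ℝ) ≤ 2 * (n : ℝ) ^ 2 * Real.sqrt (LL n) := by
    have h1 : (kk n : ℝ) < (n : ℝ) ^ 2 * Real.sqrt (LL n) + 1 := by
      unfold kk
      exact Nat.ceil_lt_add_one (by positivity)
    have h2 : (1 : ℝ) ≤ (n : ℝ) ^ 2 * Real.sqrt (LL n) := by
      have : (1 : ℝ) ≤ (n : ℝ) ^ 2 := by nlinarith
      nlinarith
    linarith
  have hk2 : (kk n : ℝ) * kk n ≤ 4 * (NN n * LL n) := by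
    calc (kk n : ℝ) * kk n ≤ (2 * (n : ℝ) ^ 2 * Real.sqrt (LL n)) *
          (2 * (n : ℝ) ^ 2 * Real.sqrt (LL n)) :=
          mul_le_mul hkle hkle hkr.le (by positivity)
      _ = 4 * ((n : ℝ) ^ 4 * (Real.sqrt (LL n) * Real.sqrt (LL n))) := by ring
      _ = 4 * (NN n * LL n) := by rw [hss]; rfl
  have hkN : 4 * (kk n : ℝ) ≤ NN n := by
    have h1 : (kk n : ℝ) ≤ 2 * (n : ℝ) ^ 2 * n :=
      hkle.trans (mul_le_mul_of_nonneg_left hsn (by positivity))
    have h2 : NN n = (n : ℝ) ^ 2 * n * n := by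
      unfold NN
      ring
    rw [h2]
    have h3 : 0 ≤ (n : ℝ) ^ 2 * n := by positivity
    nlinarith
  set c : ℝ := (m : ℝ) / kk n with hc
  have hc0 : 0 < c := by positivity
  -- the initial segments
  have hseg : ∀ j : ℕ, ∃ β : List (V n), 1 ≤ j → ((j * c ≤ pm n m (st γ) →
      j * c - ((m : ℝ) + 1) / NN n ≤ pm n m (st β)) ∧
      ∀ l : List (V n), pm n m (st (leF γ l)) < j * c + pm n m (st l) ∨
        (j * c ≤ pm n m (st γ) ∧ ∀ y ∈ l, y ∉ β)) := by
    intro j
    by_cases hj : 1 ≤ j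
    · have hjc : 0 < (j : ℝ) * c := by
        have : (1 : ℝ) ≤ j := by exact_mod_cast hj
        positivity
      obtain ⟨β, hβ⟩ := up_seg n m γ (j * c) hjc
      exact ⟨β, fun _ => hβ⟩
    · exact ⟨[], fun h => absurd h hj⟩
  choose β hβ using hseg
  set E : ℕ → (ℕ → DD) → Prop := fun j ω => j * c ≤ pm n m (st γ) ∧
    ¬ hit (act n) x ω (t0 n) (kk n) (st (β j)) with hE
  have hpt : ∀ ω : ℕ → DD, pm n m (st (MM n γ x ω (kk n))) ≤
      pm n m (st (seg (act n) x ω 0 (kk n))) +
        c * (1 + ∑ j ∈ Finset.Icc 1 (kk n), ind (E j ω)) := by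
    intro ω
    refine up_count _ _ c hc0.le (pm_nonneg n m _) (kk n) ?_ (fun j => E j ω) fun j hj => ?_
    · have h1 : c * (kk n : ℝ) = m := by
        rw [hc]
        field_simp
      rw [h1]
      exact (pm_le_one n m _).trans hmr
    · rw [Finset.mem_Icc] at hj
      rcases (hβ j hj.1).2 (seg (act n) x ω 1 (kk n)) with h1 | ⟨h1, h2⟩
      · left
        unfold MM
        refine h1.trans_le ?_
        have h3 : pm n m (st (seg (act n) x ω 1 (kk n))) ≤
            pm n m (st (seg (act n) x ω 0 (kk n))) := by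
          refine pm_mono n (le_refl m) fun y hy => ?_
          obtain ⟨i, hi1, hi2, hi3⟩ := (mem_seg (act n) x ω 1 (kk n) y).1 hy
          exact (mem_seg (act n) x ω 0 (kk n) y).2 ⟨i, Nat.zero_le _, hi2, hi3⟩
        linarith
      · right
        refine ⟨h1, ?_⟩
        rintro ⟨i, hi1, hi2, hi3⟩
        exact h2 _ ((mem_seg (act n) x ω 1 (kk n) _).2 ⟨i, ht0.trans hi1, hi2, rfl⟩) hi3
  -- integrability
  have hint : ∀ f : (ℕ → DD) → ℝ, (∀ ω ω' : ℕ → DD, (∀ i, i < kk n → ω i = ω' i) → f ω = f ω') →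
      (∀ ω, 0 ≤ f ω ∧ f ω ≤ 1) → Integrable f (mu DD) := by
    intro f hf hb
    refine Integrable.of_bound (measurable_dep (kk n) f hf).aestronglyMeasurable 1
      (ae_of_all _ fun ω => ?_)
    rw [Real.norm_eq_abs, abs_of_nonneg (hb ω).1]
    exact (hb ω).2
  have hi1 : Integrable (fun ω => pm n m (st (MM n γ x ω (kk n)))) (mu DD) := by
    refine hint _ (fun ω ω' h => ?_) fun ω => ⟨pm_nonneg n m _, pm_le_one n m _⟩
    unfold MM
    rw [seg_congr (act n) x ω ω' 1 (kk n) h]
  have hi2 : Integrable (fun ω => pm n m (st (seg (act n) x ω 0 (kk n)))) (mu DD) := by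
    refine hint _ (fun ω ω' h => ?_) fun ω => ⟨pm_nonneg n m _, pm_le_one n m _⟩
    rw [seg_congr (act n) x ω ω' 0 (kk n) h]
  have hEdep : ∀ j, ∀ ω ω' : ℕ → DD, (∀ i, i < kk n → ω i = ω' i) → (E j ω ↔ E j ω') := by
    intro j ω ω' h
    have h1 : ∀ t, t ≤ kk n → pos (act n) x ω t = pos (act n) x ω' t := fun t ht =>
      pos_congr (act n) x ω ω' t fun i hi => h i (by omega)
    have h2 : hit (act n) x ω (t0 n) (kk n) (st (β j)) ↔
        hit (act n) x ω' (t0 n) (kk n) (st (β j)) := by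
      constructor
      · rintro ⟨i, a1, a2, a3⟩
        exact ⟨i, a1, a2, by rwa [← h1 i a2]⟩
      · rintro ⟨i, a1, a2, a3⟩
        exact ⟨i, a1, a2, by rwa [h1 i a2]⟩
    simp only [hE, h2]
  have hi3 : ∀ j, Integrable (fun ω => ind (E j ω)) (mu DD) := by
    intro j
    refine hint _ (fun ω ω' h => ?_) fun ω => ⟨ind_nonneg _, ind_le_one _⟩
    have : E j ω = E j ω' := propext (hEdep j ω ω' h)
    rw [this]
  have hmeas : ∀ j, MeasurableSet {ω | E j ω} := by
    intro j
    have h1 : Measurable (fun ω : ℕ → DD => E j ω) :=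
      measurable_dep (kk n) _ fun ω ω' h => propext (hEdep j ω ω' h)
    exact measurableSet_setOfPred.mpr h1
  -- the bounds
  have hEj : ∀ j ∈ Finset.Icc 1 (kk n), ∫ ω, ind (E j ω) ∂(mu DD) ≤
      Real.exp (-((j : ℝ) / 16)) := by
    intro j hj
    rw [Finset.mem_Icc] at hj
    rw [integral_ind (mu DD) (fun ω => E j ω) (hmeas j)]
    by_cases hγ : j * c ≤ pm n m (st γ)
    · have h1 : (j : ℝ) * c / 2 ≤ pm n m (st (β j)) := by
        have h2 := (hβ j hj.1).1 hγ
        have hj1 : (1 : ℝ) ≤ j := by exact_mod_cast hj.1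
        have h3 : ((m : ℝ) + 1) / NN n ≤ c / 2 := by
          rw [hc, div_div, div_le_div_iff₀ hN (by positivity)]
          nlinarith
        have h4 : c / 2 ≤ (j : ℝ) * c / 2 := by nlinarith
        linarith
      have h5 := up_miss n x m (kk n) hm hm1 hmk j (st (β j)) h1
      refine le_trans ?_ h5
      unfold pr
      refine measureReal_mono (fun ω hω => hω.2) (measure_ne_top _ _)
    · have h1 : {ω | E j ω} = ∅ := by
        ext ω
        simp only [hE, Set.mem_ofPred_eq, Set.mem_empty_iff_false, iff_false]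
        exact fun h => hγ h.1
      rw [h1, measureReal_empty]
      exact (Real.exp_pos _).le
  have hi4 : Integrable (fun ω => c * (1 + ∑ j ∈ Finset.Icc 1 (kk n), ind (E j ω))) (mu DD) :=
    ((integrable_const 1).add (integrable_finsetSum _ fun j _ => hi3 j)).const_mul c
  have hmain : ∫ ω, pm n m (st (MM n γ x ω (kk n))) ∂(mu DD) ≤
      ∫ ω, pm n m (st (seg (act n) x ω 0 (kk n))) ∂(mu DD) + c * (1 + 16) := by
    calc ∫ ω, pm n m (st (MM n γ x ω (kk n))) ∂(mu DD)
        ≤ ∫ ω, (pm n m (st (seg (act n) x ω 0 (kk n))) +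
          c * (1 + ∑ j ∈ Finset.Icc 1 (kk n), ind (E j ω))) ∂(mu DD) :=
          integral_mono hi1 (hi2.add hi4) hpt
      _ = ∫ ω, pm n m (st (seg (act n) x ω 0 (kk n))) ∂(mu DD) +
          c * (1 + ∑ j ∈ Finset.Icc 1 (kk n), ∫ ω, ind (E j ω) ∂(mu DD)) := by
          rw [integral_add hi2 hi4, integral_const_mul, integral_add (integrable_const 1)
            (integrable_finsetSum _ fun j _ => hi3 j), integral_finsetSum _ fun j _ => hi3 j]
          simp
      _ ≤ ∫ ω, pm n m (st (seg (act n) x ω 0 (kk n))) ∂(mu DD) + c * (1 + 16) := by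
          have h1 : ∑ j ∈ Finset.Icc 1 (kk n), ∫ ω, ind (E j ω) ∂(mu DD) ≤ 16 := by
            refine (Finset.sum_le_sum hEj).trans ((up_exp_sum (kk n)).trans ?_)
            have := Real.exp_pos (-((kk n : ℝ) / 16))
            linarith
          have h2 := mul_le_mul_of_nonneg_left (add_le_add_right h1 1) hc0.le
          linarith
  have hUk := hU n hn0 m (kk n) x (by
      refine le_trans ?_ hm
      unfold b1 t0
      have h1 := Nat.sqrt_le_self n
      nlinarith) (by
      refine le_trans ?_ (show m ≤ kk n by omega)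
      refine le_trans ?_ hm
      unfold b1 t0
      have h1 := Nat.sqrt_le_self n
      nlinarith)
  have hfin : C * m * kk n / (NN n * LL n) ≤ 4 * C * c := by
    rw [div_le_iff₀ (by positivity)]
    have h1 : 4 * C * c * (NN n * LL n) = C * c * (4 * (NN n * LL n)) := by ring
    have h2 : C * m * kk n = C * c * (kk n * kk n) := by
      rw [hc]
      field_simp
    rw [h1, h2]
    exact mul_le_mul_of_nonneg_left hk2 (by positivity)
  calc ∫ ω, pm n m (st (MM n γ x ω (kk n))) ∂(mu DD)
      ≤ 4 * C * c + c * (1 + 16) := by linarith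
    _ = (4 * C + 17) * m / kk n := by
        rw [hc]
        ring

end Pool.Agent.UST
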