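import Pool.Agent.Helper54.UST.RootTree
import Pool.Agent.Helper54.UST.GPa
import Pool.Agent.Helper54.UST.GPb
import Pool.Agent.Helper54.UST.UP
import Pool.Agent.Helper54.UST.Spn
import Pool.Agent.Helper54.UST.Tau
import Pool.Agent.Helper54.UST.BaseMu
import Pool.Agent.Helper54.UST.BasePos
import Pool.Agent.Helper54.UST.Av
import Pool.Agent.Helper54.UST.PmBasic
import Pool.Agent.Helper54.UST.TreeBasic

/-! Paper Corollary T1. -/

namespace Pool.Agent.UST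

open MeasureTheory

theorem t1A : ∃ C : ℝ, 0 < C ∧ ∃ n0 : ℕ, ∀ (n : ℕ) [NeZero n], n0 ≤ n → ∀ m : ℕ,
    t0 n ≤ m → 8 * m ≤ kk n →
    av (fun T : Tr n => av (fun u : V n => av (fun v : V n => pm n m (st (pth T u v))))) ≤
      C * m / kk n := by
  obtain ⟨C, hC, n0, h⟩ := lemUP
  refine ⟨C, hC, max 3 n0, fun n _ hn m hm hm8 => ?_⟩
  exact tree_le n (le_of_max_le_left hn) (kk n) (fun l => pm n m (st l)) _
    (fun x γ hγ => h n (le_of_max_le_right hn) x γ m hγ hm hm8)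

private theorem t1_headD {n : ℕ} (L : List (V n)) : L.headD 0 = L.getD 0 0 := by
  cases L <;> rfl

private theorem t1_spn_sub {n : ℕ} (T : Tr n) (L : List (V n)) (K : ℕ) (hL : L.length = K + 1)
    (hK : 1 ≤ K) :
    spn T L ⊆ ⋃ j ∈ Finset.range K, st (pth T (L.getD (j + 1) 0) (L.getD 0 0)) := by
  rintro y ⟨u, hu, hy⟩
  rw [t1_headD] at hy
  obtain ⟨i, hi, rfl⟩ := List.mem_iff_getElem.1 hu
  simp only [Set.mem_iUnion, Finset.mem_range]
  have hget : L[i] = L.getD i 0 := by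
    rw [List.getD_eq_getElem?_getD, List.getElem?_eq_getElem hi, Option.getD_some]
  rw [hget] at hy
  cases i with
  | zero =>
    rw [pth_self, List.mem_singleton] at hy
    refine ⟨0, hK, ?_⟩
    rw [hy]
    exact pth_mem_right T _ _
  | succ j => exact ⟨j, by omega, hy⟩

/-- subtrees spanned by `K+1` points -/
theorem t1A_spn : ∃ C : ℝ, 0 < C ∧ ∃ n0 : ℕ, ∀ (n : ℕ) [NeZero n], n0 ≤ n → ∀ m K : ℕ,
    t0 n ≤ m → 8 * m ≤ kk n → 1 ≤ K →
    av (fun T : Tr n => avL (fun L => pm n m (spn T L)) (K + 1)) ≤ C * K * m / kk n := by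
  obtain ⟨C, hC, n0, h⟩ := t1A
  refine ⟨C, hC, n0, fun n _ hn m K hm hm8 hK => ?_⟩
  have h1 : ∀ T : Tr n, avL (fun L => pm n m (spn T L)) (K + 1) ≤
      ∑ _j ∈ Finset.range K, av (fun u : V n => av (fun v : V n => pm n m (st (pth T u v)))) := by
    intro T
    calc avL (fun L => pm n m (spn T L)) (K + 1)
        ≤ avL (fun L => ∑ j ∈ Finset.range K,
            pm n m (st (pth T (L.getD (j + 1) 0) (L.getD 0 0)))) (K + 1) := by
          refine avL_mono n (K + 1) fun L hL => ?_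
          refine le_trans ?_ (pm_iUnion n (Finset.range K) m
            (fun j => st (pth T (L.getD (j + 1) 0) (L.getD 0 0))))
          exact pm_mono n le_rfl (t1_spn_sub T L K hL hK)
      _ = ∑ j ∈ Finset.range K, avL (fun L =>
            pm n m (st (pth T (L.getD (j + 1) 0) (L.getD 0 0)))) (K + 1) :=
          avL_sum n _ _ _
      _ = ∑ _j ∈ Finset.range K,
            av (fun u : V n => av (fun v : V n => pm n m (st (pth T u v)))) := by
          refine Finset.sum_congr rfl fun j hj => ?_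
          rw [Finset.mem_range] at hj
          exact avL_get₂ n (fun u v => pm n m (st (pth T u v))) (K + 1) (j + 1) 0 (by omega)
            (by omega) (by omega)
  refine (av_mono h1).trans ?_
  rw [av_sum]
  rw [Finset.sum_const, Finset.card_range, nsmul_eq_mul]
  have h2 := h n hn m hm hm8
  calc (K : ℝ) * av (fun T : Tr n => av (fun u : V n => av (fun v : V n =>
        pm n m (st (pth T u v))))) ≤ (K : ℝ) * (C * m / kk n) :=
        mul_le_mul_of_nonneg_left h2 (Nat.cast_nonneg _)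
    _ = C * K * m / kk n := by ring

private theorem t1_tree_ind (n : ℕ) [NeZero n] (hn : 3 ≤ n) (t : ℕ) (P : List (V n) → Prop)
    (a : ℝ) (h : ∀ (x : V n) (γ : List (V n)), Path1 γ x → pr {ω | P (MM n γ x ω t)} ≤ a) :
    av (fun T : Tr n => av (fun u : V n => av (fun v : V n => ind (P (pth T u v))))) ≤ a := by
  refine tree_le n hn t (fun l => ind (P l)) a fun x γ hγ => ?_
  have hm : Measurable (fun ω : ℕ → DD => P (MM n γ x ω t)) := by
    refine measurable_dep t _ fun ω ω' hω => ?_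
    have : MM n γ x ω t = MM n γ x ω' t := by
      unfold MM
      rw [seg_congr (act n) x ω ω' 1 t hω]
    rw [this]
  rw [integral_ind (mu DD) (fun ω => P (MM n γ x ω t)) (measurableSet_setOfPred.2 hm)]
  exact h x γ hγ

theorem t1B (ε : ℝ) (hε : 0 < ε) : ∃ η : ℝ, 0 < η ∧ ∃ n0 : ℕ, ∀ (n : ℕ) [NeZero n], n0 ≤ n →
    av (fun T : Tr n => av (fun u : V n => av (fun v : V n =>
      ind (qq n (st (pth T u v)) < η)))) ≤ ε := by
  obtain ⟨η, hη, n0, h⟩ := gpA 1 1 ε one_pos le_rfl le_rfl hε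
  refine ⟨η, hη, max 3 n0, fun n _ hn => ?_⟩
  refine t1_tree_ind n (le_of_max_le_left hn) (kk n) (fun l => qq n (st l) < η) ε
    fun x γ hγ => ?_
  refine le_trans ?_ (h n (le_of_max_le_right hn) x γ hγ)
  unfold pr
  refine measureReal_mono ?_ (measure_ne_top _ _)
  intro ω hω
  exact ⟨kk n, by rw [one_mul], by rw [one_mul], hω⟩

private theorem t1_LL (n : ℕ) (hn : 3 ≤ n) : 1 ≤ LL n := by
  unfold LL
  have h3 : (3 : ℝ) ≤ n := by exact_mod_cast hn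
  rw [Real.le_log_iff_exp_le (by linarith)]
  exact (Real.exp_one_lt_d9.le.trans (by norm_num)).trans h3

private theorem t1_kk_ge (n : ℕ) (hn : 3 ≤ n) : (n : ℝ) ^ 2 ≤ kk n := by
  have h1 := t1_LL n hn
  have h2 : (1 : ℝ) ≤ Real.sqrt (LL n) := Real.one_le_sqrt.2 h1
  have h3 : (n : ℝ) ^ 2 * Real.sqrt (LL n) ≤ kk n := Nat.le_ceil _
  nlinarith [sq_nonneg (n : ℝ)]

private theorem t1_Et (n : ℕ) [NeZero n] (hn : 3 ≤ n) (T : Tr n) (u v : V n) (η : ℝ)
    (hη : 0 < η) (h : η ≤ qq n (st (pth T u v))) (x : V n) :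
    Et n (st (pth T u v)) x ≤ 14 * kk n / η := by
  have hA : (st (pth T u v)).Nonempty := ⟨u, pth_mem_left T u v⟩
  refine (Et_le_pm n (st (pth T u v)) hA η hη (2 * kk n) h x).trans ?_
  have h1 := t1_kk_ge n hn
  have h3 : (3 : ℝ) ≤ n := by exact_mod_cast hn
  have h4 : ((t0 n : ℕ) : ℝ) = 4 * (n : ℝ) ^ 2 := by
    unfold t0
    push_cast
    ring
  refine div_le_div_of_nonneg_right ?_ hη.le
  rw [h4]
  push_cast
  nlinarith

/-- mean hitting times of the path between two points -/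
theorem t1M (ε : ℝ) (hε : 0 < ε) : ∃ B : ℝ, 1 ≤ B ∧ ∃ n0 : ℕ, ∀ (n : ℕ) [NeZero n], n0 ≤ n →
    av (fun T : Tr n => av (fun u : V n => av (fun v : V n =>
      ind (∃ x, B * kk n < Et n (st (pth T u v)) x)))) ≤ ε := by
  obtain ⟨η, hη, n0, h⟩ := t1B ε hε
  refine ⟨max 1 (14 / η), le_max_left _ _, max 3 n0, fun n _ hn => ?_⟩
  refine le_trans ?_ (h n (le_of_max_le_right hn))
  refine av_mono fun T => av_mono fun u => av_mono fun v => ind_mono ?_
  rintro ⟨x, hx⟩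
  by_contra hcon
  have h1 := t1_Et n (le_of_max_le_left hn) T u v η hη (not_lt.1 hcon) x
  have h2 : (14 / η) * (kk n : ℝ) ≤ max 1 (14 / η) * kk n :=
    mul_le_mul_of_nonneg_right (le_max_right _ _) (Nat.cast_nonneg _)
  have h3 : 14 * (kk n : ℝ) / η = (14 / η) * (kk n : ℝ) := by ring
  linarith

theorem t1C : ∃ n0 : ℕ, ∀ (n : ℕ) [NeZero n], n0 ≤ n →
    av (fun T : Tr n => av (fun u : V n => av (fun v : V n =>
      ind (qq n (st (pth T u v)) < (n : ℝ) ^ (-(1 / 10 : ℝ)))))) ≤ 3 / LL n := by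
  obtain ⟨C, _, n0, h⟩ := gpB
  refine ⟨max 3 n0, fun n _ hn => ?_⟩
  exact t1_tree_ind n (le_of_max_le_left hn) (⌈C * Real.log (LL n)⌉₊ * kk n)
    (fun l => qq n (st l) < (n : ℝ) ^ (-(1 / 10 : ℝ))) (3 / LL n)
    (fun x γ hγ => h n (le_of_max_le_right hn) x γ hγ)

private theorem t1_kk_le (n : ℕ) (hn : 3 ≤ n) :
    (kk n : ℝ) ≤ 40 * (n : ℝ) ^ ((41 : ℝ) / 20) := by
  have h0 := t1_LL n hn
  have h3 : (3 : ℝ) ≤ n := by exact_mod_cast hn
  have hn0 : (0 : ℝ) < n := by linarith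
  have h1 : (kk n : ℝ) ≤ (n : ℝ) ^ 2 * Real.sqrt (LL n) + 1 :=
    (Nat.ceil_lt_add_one (by positivity)).le
  have h2 : Real.sqrt (LL n) ≤ LL n := by
    rw [Real.sqrt_le_left (by linarith)]
    nlinarith
  have h4 : LL n ≤ 20 * (n : ℝ) ^ ((1 : ℝ) / 20) := by
    have := Real.log_le_rpow_div hn0.le (ε := (1 : ℝ) / 20) (by norm_num)
    unfold LL
    linarith
  have h5 : (n : ℝ) ^ ((41 : ℝ) / 20) = (n : ℝ) ^ 2 * (n : ℝ) ^ ((1 : ℝ) / 20) := by
    rw [← Real.rpow_natCast, ← Real.rpow_add hn0]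
    norm_num
  have h6 : (1 : ℝ) ≤ (n : ℝ) ^ 2 * LL n := by nlinarith
  rw [h5]
  nlinarith [sq_nonneg (n : ℝ), mul_le_mul_of_nonneg_left h2 (sq_nonneg (n : ℝ)),
    mul_le_mul_of_nonneg_left h4 (sq_nonneg (n : ℝ))]

theorem t1CM : ∃ n0 : ℕ, ∀ (n : ℕ) [NeZero n], n0 ≤ n →
    av (fun T : Tr n => av (fun u : V n => av (fun v : V n =>
      ind (∃ x, (n : ℝ) ^ ((9 : ℝ) / 4) < Et n (st (pth T u v)) x)))) ≤ 3 / LL n := by
  obtain ⟨n0, h⟩ := t1C
  refine ⟨max (max 3 ⌈(560 : ℝ) ^ (10 : ℝ)⌉₊) n0, fun n _ hn => ?_⟩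
  have hn3 : 3 ≤ n := le_of_max_le_left (le_of_max_le_left hn)
  have hn5 : (560 : ℝ) ^ (10 : ℝ) ≤ n :=
    (Nat.le_ceil _).trans (by exact_mod_cast le_of_max_le_right (le_of_max_le_left hn))
  have hn0 : (0 : ℝ) < n := by
    have : (3 : ℝ) ≤ n := by exact_mod_cast hn3
    linarith
  refine le_trans ?_ (h n (le_of_max_le_right hn))
  refine av_mono fun T => av_mono fun u => av_mono fun v => ind_mono ?_
  rintro ⟨x, hx⟩
  by_contra hcon
  have hη : (0 : ℝ) < (n : ℝ) ^ (-(1 / 10 : ℝ)) := Real.rpow_pos_of_pos hn0 _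
  have h1 := t1_Et n hn3 T u v _ hη (not_lt.1 hcon) x
  have h2 := t1_kk_le n hn3
  have h3 : (560 : ℝ) ≤ (n : ℝ) ^ ((1 : ℝ) / 10) := by
    have h4 := Real.rpow_le_rpow (by positivity) hn5 (show (0 : ℝ) ≤ 1 / 10 by norm_num)
    rw [← Real.rpow_mul (by norm_num)] at h4
    norm_num at h4
    norm_num
    exact h4
  have h5 : 14 * (kk n : ℝ) / (n : ℝ) ^ (-(1 / 10 : ℝ)) =
      14 * (kk n : ℝ) * (n : ℝ) ^ ((1 : ℝ) / 10) := by
    rw [Real.rpow_neg hn0.le, div_inv_eq_mul]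
  have h6 : (n : ℝ) ^ ((9 : ℝ) / 4) =
      (n : ℝ) ^ ((1 : ℝ) / 10) * ((n : ℝ) ^ ((41 : ℝ) / 20) * (n : ℝ) ^ ((1 : ℝ) / 10)) := by
    rw [← Real.rpow_add hn0, ← Real.rpow_add hn0]
    norm_num
  have h7 : (0 : ℝ) ≤ (n : ℝ) ^ ((1 : ℝ) / 10) := (Real.rpow_pos_of_pos hn0 _).le
  have h8 : (0 : ℝ) ≤ (n : ℝ) ^ ((41 : ℝ) / 20) := (Real.rpow_pos_of_pos hn0 _).le
  have h9 : 14 * (kk n : ℝ) * (n : ℝ) ^ ((1 : ℝ) / 10) ≤
      560 * ((n : ℝ) ^ ((41 : ℝ) / 20) * (n : ℝ) ^ ((1 : ℝ) / 10)) := by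
    nlinarith [mul_le_mul_of_nonneg_right h2 h7]
  have h10 : 560 * ((n : ℝ) ^ ((41 : ℝ) / 20) * (n : ℝ) ^ ((1 : ℝ) / 10)) ≤
      (n : ℝ) ^ ((1 : ℝ) / 10) * ((n : ℝ) ^ ((41 : ℝ) / 20) * (n : ℝ) ^ ((1 : ℝ) / 10)) :=
    mul_le_mul_of_nonneg_right h3 (mul_nonneg h8 h7)
  rw [h5] at h1
  rw [h6] at hx
  linarith

end Pool.Agent.UST
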