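import Pool.Agent.Helper54.UST.Tau

/-! Monotonicity of the mean hitting times. -/

namespace Pool.Agent.UST

open MeasureTheory

theorem Et_mono (n : ℕ) [NeZero n] {A A' : Set (V n)} (hA : A.Nonempty) (h : A ⊆ A') (x : V n) :
    Et n A' x ≤ Et n A x := by
  unfold Et
  refine integral_mono_ae (tauaux_tau_int n A' (hA.mono h) x) (tauaux_tau_int n A hA x) ?_
  filter_upwards [tauaux_ae n A hA x] with ω hω
  have h1 : tau (act n) x ω A' ≤ tau (act n) x ω A := by
    unfold tau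
    exact Nat.sInf_le (h (Nat.sInf_mem hω))
  exact_mod_cast h1

theorem Et_nonneg (n : ℕ) (A : Set (V n)) (x : V n) : 0 ≤ Et n A x :=
  integral_nonneg fun _ => Nat.cast_nonneg _

theorem Et_le_of_MA (n : ℕ) [NeZero n] (A : Set (V n)) (hA : A.Nonempty) (M : ℝ)
    (h : MA n A ≤ M) (hM : (n : ℝ) ^ 2 ≤ M) (x : V n) : Et n A x ≤ 6 * M := by
  have h1 := Et_le_MA n A hA x
  have h2 : ((t0 n : ℕ) : ℝ) = 4 * (n : ℝ) ^ 2 := by
    unfold t0
    push_cast
    ring
  rw [h2] at h1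
  linarith

end Pool.Agent.UST
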