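import Pool.Agent.Helper54.UST.P102
import Pool.Agent.Helper54.UST.T1
import Pool.Agent.Helper54.UST.LTb
import Pool.Agent.Helper54.UST.Spn
import Pool.Agent.Helper54.UST.TauX
import Pool.Agent.Helper54.UST.WilB
import Pool.Agent.Helper54.UST.PmBasic
import Pool.Agent.Helper54.UST.Av
import Pool.Agent.Helper54.UST.BaseTorus

/-! Paper 10.3, second part: the subtree minus the first path is made of few pieces. -/

namespace Pool.Agent.UST

open MeasureTheory

theorem p103b_chain {α : Type} {R : α → α → Prop} {l l' : List α} (h : l'.IsChain R)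
    (hi : l <:+: l') : l.IsChain R := by
  obtain ⟨s, t, rfl⟩ := hi
  exact (List.isChain_append.mp (List.isChain_append.mp h).1).2.1

/-- the tree path between two vertices of a piece of a path stays in the piece: ordered case -/
private theorem p103b_seg1 {n : ℕ} (T : Tr n) (l₁ l₃ l₄ : List (V n)) (a a' : V n)
    (l₂ : List (V n)) (he : a :: l₂ = l₃ ++ a' :: l₄) (hn : (l₁ ++ a :: l₂).Nodup)
    (hc : (l₁ ++ a :: l₂).IsChain (fun x y => T.1.Adj x y)) :
    pth T a a' = l₃ ++ [a'] := by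
  have hinf : l₃ ++ [a'] <:+: l₁ ++ a :: l₂ := by
    refine ⟨l₁, l₄, ?_⟩
    rw [he]
    simp
  symm
  refine pth_unique T a a' _ ?_ ?_ ?_ ?_
  · exact hn.sublist hinf.sublist
  · exact p103b_chain hc hinf
  · cases l₃ with
    | nil =>
      have h1 : a = a' := by
        rw [List.nil_append] at he
        exact (List.cons.inj he).1
      rw [h1]
      rfl
    | cons b l =>
      have h1 : a = b := by
        rw [List.cons_append] at he
        exact (List.cons.inj he).1
      rw [h1]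
      rfl
  · simp

private theorem p103b_seg {n : ℕ} (T : Tr n) (p : List (V n)) (hn : p.Nodup)
    (hc : p.IsChain (fun x y => T.1.Adj x y)) {a a' : V n} (ha : a ∈ p) (ha' : a' ∈ p) :
    (∀ y ∈ pth T a a', y ∈ p) ∧ (pth T a a').length ≤ p.length := by
  obtain ⟨l₁, l₂, hp⟩ := List.append_of_mem ha
  have key : ∀ (l₃ l₄ : List (V n)), a :: l₂ = l₃ ++ a' :: l₄ →
      (∀ y ∈ pth T a a', y ∈ p) ∧ (pth T a a').length ≤ p.length := by
    intro l₃ l₄ he
    rw [p103b_seg1 T l₁ l₃ l₄ a a' l₂ he (hp ▸ hn) (hp ▸ hc)]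
    rw [hp, he]
    constructor
    · intro y hy
      simp only [List.mem_append, List.mem_cons, List.not_mem_nil, or_false] at hy ⊢
      tauto
    · simp only [List.length_append, List.length_cons, List.length_nil]
      omega
  rw [hp, List.mem_append] at ha'
  rcases ha' with h1 | h1
  · obtain ⟨l₃, l₄, he⟩ := List.append_of_mem h1
    have hp' : p = l₃ ++ a' :: (l₄ ++ a :: l₂) := by
      rw [hp, he]
      simp
    have h2 := p103b_seg1 T l₃ (a' :: l₄) l₂ a' a (l₄ ++ a :: l₂) (by simp) (hp' ▸ hn) (hp' ▸ hc)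
    have h3 : pth T a a' = (a' :: l₄ ++ [a]).reverse := by
      rw [pth_rev T a' a, h2]
    rw [h3]
    constructor
    · intro y hy
      rw [List.mem_reverse] at hy
      rw [hp']
      simp only [List.mem_append, List.mem_cons, List.not_mem_nil, or_false,
        List.cons_append] at hy ⊢
      tauto
    · rw [List.length_reverse, hp']
      simp only [List.length_append, List.length_cons, List.length_nil]
      omega
  · obtain ⟨l₃, l₄, he⟩ := List.append_of_mem h1
    exact key l₃ l₄ he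

/-- the spanned set is the union of the branches -/
private theorem p103b_cover {n : ℕ} (T : Tr n) (L : List (V n)) (m : ℕ) (hm2 : 2 ≤ m)
    (hm : m ≤ L.length) (y : V n) (hy : y ∈ spn T (L.take m)) (hy2 : y ∉ spn T (L.take 2)) :
    ∃ j, 2 ≤ j ∧ j < m ∧ y ∈ brn T (L.take j) (L.getD j 0) := by
  induction m, hm2 using Nat.le_induction with
  | base => exact absurd hy hy2
  | succ m hm2 ih =>
    have hlt : m < L.length := by omega
    have h1 : L.take (m + 1) = L.take m ++ [L.getD m 0] := by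
      rw [List.take_succ_eq_append_getElem hlt, List.getD_eq_getElem?_getD,
        List.getElem?_eq_getElem hlt, Option.getD_some]
    have h2 : L.take m ≠ [] := by
      intro h
      have := congrArg List.length h
      rw [List.length_take, List.length_nil] at this
      omega
    rw [h1, spn_snoc T h2] at hy
    rcases hy with hy | hy
    · obtain ⟨j, hj2, hjm, hj⟩ := ih (by omega) hy
      exact ⟨j, hj2, by omega, hj⟩
    · exact ⟨m, hm2, by omega, hy⟩

private theorem p103b_det {n : ℕ} [NeZero n] (T : Tr n) (L : List (V n)) (K R : ℕ)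
    (hL : L.length = K + 1) (h B' ζ : ℝ)
    (hp : ∀ j, 2 ≤ j → j ≤ K → Pieces n R h B' ζ (brn T (L.take j) (L.getD j 0))) :
    ∃ c : V n → ℕ, (∀ a ∈ spn T L, a ∉ spn T (L.take 2) → c a < (K + 1) * (R + 1)) ∧
        ∀ a ∈ spn T L, a ∉ spn T (L.take 2) → ∀ a' ∈ spn T L, a' ∉ spn T (L.take 2) →
          c a = c a' → ((pth T a a').length : ℝ) ≤ h * rr n ∧
            pm n ⌈B' * kk n⌉₊ (st (pth T a a')) ≤ ζ := by
  classical
  by_cases hK : K + 1 < 2
  · have h1 : L.take 2 = L := List.take_of_length_le (by omega)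
    rw [h1]
    exact ⟨fun _ => 0, fun a ha ha' => absurd ha ha', fun a ha ha' => absurd ha ha'⟩
  have hp' : ∀ j : ℕ, ∃ c : List (List (V n)), 2 ≤ j → j ≤ K →
      c.flatten = brn T (L.take j) (L.getD j 0) ∧ c.length ≤ R ∧
      ∀ p ∈ c, (p.length : ℝ) ≤ h * rr n ∧ pm n ⌈B' * kk n⌉₊ (st p) ≤ ζ := by
    intro j
    by_cases hj : 2 ≤ j ∧ j ≤ K
    · obtain ⟨c, hc⟩ := hp j hj.1 hj.2
      exact ⟨c, fun _ _ => hc⟩
    · exact ⟨[], fun h1 h2 => absurd ⟨h1, h2⟩ hj⟩
  choose cs hcs using hp'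
  -- the position of a vertex
  have hpos : ∀ a : V n, ∃ ji : ℕ × ℕ, (a ∈ spn T L ∧ a ∉ spn T (L.take 2)) →
      2 ≤ ji.1 ∧ ji.1 ≤ K ∧ ji.2 < (cs ji.1).length ∧ a ∈ (cs ji.1).getD ji.2 [] := by
    intro a
    by_cases ha : a ∈ spn T L ∧ a ∉ spn T (L.take 2)
    · have h1 : L.take (K + 1) = L := List.take_of_length_le (by omega)
      obtain ⟨j, hj2, hjK, hj⟩ := p103b_cover T L (K + 1) (by omega) (by omega) a
        (by rw [h1]; exact ha.1) ha.2
      have h2 := (hcs j hj2 (by omega)).1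
      rw [← h2, List.mem_flatten] at hj
      obtain ⟨p, hp1, hp2⟩ := hj
      obtain ⟨i, hi, rfl⟩ := List.mem_iff_getElem.1 hp1
      refine ⟨(j, i), fun _ => ⟨hj2, by omega, hi, ?_⟩⟩
      show a ∈ (cs j).getD i []
      rw [List.getD_eq_getElem?_getD, List.getElem?_eq_getElem hi, Option.getD_some]
      exact hp2
    · exact ⟨(0, 0), fun h => absurd h ha⟩
  choose q hq using hpos
  refine ⟨fun a => (q a).1 * (R + 1) + (q a).2, ?_, ?_⟩
  · intro a ha ha2
    obtain ⟨h1, h2, h3, -⟩ := hq a ⟨ha, ha2⟩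
    have h4 := (hcs (q a).1 h1 h2).2.1
    show (q a).1 * (R + 1) + (q a).2 < (K + 1) * (R + 1)
    have h5 : (q a).1 * (R + 1) ≤ K * (R + 1) := Nat.mul_le_mul_right _ h2
    have h6 : (K + 1) * (R + 1) = K * (R + 1) + (R + 1) := by ring
    omega
  · intro a ha ha2 a' ha' ha2' heq
    obtain ⟨h1, h2, h3, h4⟩ := hq a ⟨ha, ha2⟩
    obtain ⟨h1', h2', h3', h4'⟩ := hq a' ⟨ha', ha2'⟩
    have h5 := (hcs (q a).1 h1 h2).2.1
    have h5' := (hcs (q a').1 h1' h2').2.1
    have heq' : (q a).1 * (R + 1) + (q a).2 = (q a').1 * (R + 1) + (q a').2 := heq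
    have e1 : (q a).1 = (q a').1 := by
      have g1 : ((q a).1 * (R + 1) + (q a).2) / (R + 1) = (q a).1 := by
        rw [Nat.add_comm, Nat.add_mul_div_right _ _ (by omega), Nat.div_eq_of_lt (by omega),
          Nat.zero_add]
      have g2 : ((q a').1 * (R + 1) + (q a').2) / (R + 1) = (q a').1 := by
        rw [Nat.add_comm, Nat.add_mul_div_right _ _ (by omega), Nat.div_eq_of_lt (by omega),
          Nat.zero_add]
      rw [← g1, ← g2, heq']
    have e2 : (q a).2 = (q a').2 := by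
      rw [e1] at heq'
      omega
    rw [← e1, ← e2] at h4'
    -- the piece
    have hget : (cs (q a).1).getD (q a).2 [] = (cs (q a).1)[(q a).2] := by
      rw [List.getD_eq_getElem?_getD, List.getElem?_eq_getElem h3, Option.getD_some]
    rw [hget] at h4 h4'
    obtain ⟨hfl, -, hpc⟩ := hcs (q a).1 h1 h2
    have hmem : (cs (q a).1)[(q a).2] ∈ cs (q a).1 := List.getElem_mem h3
    obtain ⟨g1, g2⟩ := hpc _ hmem
    have hinf : (cs (q a).1)[(q a).2] <:+: brn T (L.take (q a).1) (L.getD (q a).1 0) := by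
      rw [← hfl]
      exact List.infix_of_mem_flatten hmem
    have hne : L.take (q a).1 ≠ [] := by
      intro h
      have := congrArg List.length h
      rw [List.length_take, List.length_nil] at this
      omega
    obtain ⟨b, hb, hbr, -, -⟩ := brn_eq T hne (L.getD (q a).1 0)
    rw [hbr] at hinf
    obtain ⟨k1, k2⟩ := p103b_seg T _ ((pth_nodup T _ _).sublist hinf.sublist)
      (p103b_chain (pth_chain T _ _) hinf) h4 h4'
    refine ⟨?_, ?_⟩
    · refine le_trans ?_ g1
      exact_mod_cast k2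
    · refine le_trans (pm_mono n le_rfl ?_) g2
      intro y hy
      exact k1 y hy

theorem p103b (K : ℕ) (B' h ζ ε : ℝ) (hB' : 0 < B') (hh : 0 < h) (hζ : 0 < ζ) (hε : 0 < ε) :
    ∃ R n0 : ℕ, ∀ (n : ℕ) [NeZero n], n0 ≤ n →
    av (fun T : Tr n => avL (fun L =>
      ind (¬ ∃ c : V n → ℕ, (∀ a ∈ spn T L, a ∉ spn T (L.take 2) → c a < R) ∧
        ∀ a ∈ spn T L, a ∉ spn T (L.take 2) → ∀ a' ∈ spn T L, a' ∉ spn T (L.take 2) →
          c a = c a' → ((pth T a a').length : ℝ) ≤ h * rr n ∧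
            pm n ⌈B' * kk n⌉₊ (st (pth T a a')) ≤ ζ)) (K + 1)) ≤ ε := by
  obtain ⟨B, hB, n1, h1⟩ := t1M (ε / 2) (by positivity)
  obtain ⟨R, n2, h2⟩ := p102 B B' h ζ (ε / (2 * ((K : ℝ) + 1))) (by linarith) hB' hh hζ
    (by positivity)
  refine ⟨(K + 1) * (R + 1), max 3 (max n1 n2), fun n _ hn => ?_⟩
  have hn3 : 3 ≤ n := le_of_max_le_left hn
  have hn1 : n1 ≤ n := le_of_max_le_left (le_of_max_le_right hn)
  have hn2 : n2 ≤ n := le_of_max_le_right (le_of_max_le_right hn)
  by_cases hK : K + 1 < 2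
  · have h0 : av (fun T : Tr n => avL (fun L =>
      ind (¬ ∃ c : V n → ℕ, (∀ a ∈ spn T L, a ∉ spn T (L.take 2) → c a < (K + 1) * (R + 1)) ∧
        ∀ a ∈ spn T L, a ∉ spn T (L.take 2) → ∀ a' ∈ spn T L, a' ∉ spn T (L.take 2) →
          c a = c a' → ((pth T a a').length : ℝ) ≤ h * rr n ∧
            pm n ⌈B' * kk n⌉₊ (st (pth T a a')) ≤ ζ)) (K + 1)) ≤ 0 := by
      refine av_le le_rfl fun T => ?_
      refine le_trans (avL_mono n (K + 1) (G := fun _ => 0) fun L hL => ?_) (avL_const n _ _).le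
      rw [ind_false]
      rw [not_not]
      exact p103b_det T L K R hL h B' ζ (fun j hj1 hj2 => by omega)
    linarith
  -- the indicator is bounded by the indicators of the bad events
  have hb : ∀ T : Tr n, ∀ L : List (V n), L.length = K + 1 →
      ind (¬ ∃ c : V n → ℕ, (∀ a ∈ spn T L, a ∉ spn T (L.take 2) → c a < (K + 1) * (R + 1)) ∧
        ∀ a ∈ spn T L, a ∉ spn T (L.take 2) → ∀ a' ∈ spn T L, a' ∉ spn T (L.take 2) →
          c a = c a' → ((pth T a a').length : ℝ) ≤ h * rr n ∧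
            pm n ⌈B' * kk n⌉₊ (st (pth T a a')) ≤ ζ) ≤
      ind (∃ x, B * kk n < Et n (st (pth T (L.getD 1 0) (L.getD 0 0))) x) +
      ∑ j ∈ Finset.Icc 2 K, ind ((∀ x, Et n (spn T (L.take j)) x ≤ B * kk n) ∧
        ¬ Pieces n R h B' ζ (brn T (L.take j) (L.getD j 0))) := by
    intro T L hL
    by_cases hE : ∃ x, B * kk n < Et n (st (pth T (L.getD 1 0) (L.getD 0 0))) x
    · rw [ind_true hE]
      have := ind_le_one (¬ ∃ c : V n → ℕ, (∀ a ∈ spn T L, a ∉ spn T (L.take 2) →
          c a < (K + 1) * (R + 1)) ∧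
        ∀ a ∈ spn T L, a ∉ spn T (L.take 2) → ∀ a' ∈ spn T L, a' ∉ spn T (L.take 2) →
          c a = c a' → ((pth T a a').length : ℝ) ≤ h * rr n ∧
            pm n ⌈B' * kk n⌉₊ (st (pth T a a')) ≤ ζ)
      have h3 : 0 ≤ ∑ j ∈ Finset.Icc 2 K, ind ((∀ x, Et n (spn T (L.take j)) x ≤ B * kk n) ∧
        ¬ Pieces n R h B' ζ (brn T (L.take j) (L.getD j 0))) :=
        Finset.sum_nonneg fun j _ => ind_nonneg _
      linarith
    · rw [ind_false hE, zero_add]
      refine le_trans (ind_mono ?_) (ind_exists_le (Finset.Icc 2 K)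
        (fun j => (∀ x, Et n (spn T (L.take j)) x ≤ B * kk n) ∧
        ¬ Pieces n R h B' ζ (brn T (L.take j) (L.getD j 0))))
      intro hbad
      by_contra hcon
      refine hbad (p103b_det T L K R hL h B' ζ fun j hj2 hjK => ?_)
      by_contra hP
      refine hcon ⟨j, Finset.mem_Icc.2 ⟨hj2, hjK⟩, ?_, hP⟩
      intro x
      have hlen : 2 ≤ L.length := by omega
      have e2 : L.take 2 = [L.getD 0 0, L.getD 1 0] := by
        match L, hlen with
        | a :: b :: l, _ => simp
      have hsub : st (pth T (L.getD 1 0) (L.getD 0 0)) ⊆ spn T (L.take j) := by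
        rw [← spn_pair, ← e2]
        refine spn_mono T (by rw [e2]; simp) ?_
        refine ⟨(L.take j).drop 2, ?_⟩
        have e3 : L.take 2 = (L.take j).take 2 := by
          rw [List.take_take, min_eq_left hj2]
        rw [e3, List.take_append_drop]
      have hA : (st (pth T (L.getD 1 0) (L.getD 0 0))).Nonempty := ⟨_, pth_mem_left T _ _⟩
      push Not at hE
      exact (Et_mono n hA hsub x).trans (hE x)
  have hstep : av (fun T : Tr n => avL (fun L =>
      ind (¬ ∃ c : V n → ℕ, (∀ a ∈ spn T L, a ∉ spn T (L.take 2) → c a < (K + 1) * (R + 1)) ∧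
        ∀ a ∈ spn T L, a ∉ spn T (L.take 2) → ∀ a' ∈ spn T L, a' ∉ spn T (L.take 2) →
          c a = c a' → ((pth T a a').length : ℝ) ≤ h * rr n ∧
            pm n ⌈B' * kk n⌉₊ (st (pth T a a')) ≤ ζ)) (K + 1)) ≤
      av (fun T : Tr n => avL (fun L =>
        ind (∃ x, B * kk n < Et n (st (pth T (L.getD 1 0) (L.getD 0 0))) x)) (K + 1)) +
      ∑ j ∈ Finset.Icc 2 K, av (fun T : Tr n => avL (fun L =>
        ind ((∀ x, Et n (spn T (L.take j)) x ≤ B * kk n) ∧
        ¬ Pieces n R h B' ζ (brn T (L.take j) (L.getD j 0)))) (K + 1)) := by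
    rw [← av_sum, ← av_add]
    refine av_mono fun T => ?_
    rw [← avL_sum, ← avL_add_fn]
    exact avL_mono n (K + 1) fun L hL => hb T L hL
  refine hstep.trans ?_
  have hfirst : av (fun T : Tr n => avL (fun L =>
        ind (∃ x, B * kk n < Et n (st (pth T (L.getD 1 0) (L.getD 0 0))) x)) (K + 1)) ≤ ε / 2 := by
    refine le_trans ?_ (h1 n hn1)
    refine av_mono fun T => ?_
    exact (avL_get₂ n (fun u v => ind (∃ x, B * kk n < Et n (st (pth T u v)) x)) (K + 1) 1 0
      (by omega) (by omega) (by omega)).le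
  have hj : ∀ j ∈ Finset.Icc 2 K, av (fun T : Tr n => avL (fun L =>
        ind ((∀ x, Et n (spn T (L.take j)) x ≤ B * kk n) ∧
        ¬ Pieces n R h B' ζ (brn T (L.take j) (L.getD j 0)))) (K + 1)) ≤
        ε / (2 * ((K : ℝ) + 1)) := by
    intro j hj
    rw [Finset.mem_Icc] at hj
    have hpos : (0 : ℝ) ≤ ε / (2 * ((K : ℝ) + 1)) := by positivity
    rw [branch_law n hn3 j j (K + 1) (by omega) le_rfl (by omega)
      (fun S l => ind ((∀ x, Et n S x ≤ B * kk n) ∧ ¬ Pieces n R h B' ζ l))]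
    refine av_le hpos fun T => ?_
    refine le_trans (avL_mono n j (G := fun _ => ε / (2 * ((K : ℝ) + 1))) fun L hL => ?_)
      (avL_const n _ _).le
    have hLne : L ≠ [] := by
      rintro rfl
      rw [List.length_nil] at hL
      omega
    refine av_le hpos fun v => ?_
    by_cases hEt : ∀ x, Et n (spn T L) x ≤ B * kk n
    · have hm : Measurable (fun ω : ℕ → DD =>
          ((∀ x, Et n (spn T L) x ≤ B * kk n) ∧
            ¬ Pieces n R h B' ζ (lerw (act n) v ω (spn T L)) : Prop)) :=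
        measurable_lerw (act n) (spn T L) v (fun l =>
          ((∀ x, Et n (spn T L) x ≤ B * kk n) ∧ ¬ Pieces n R h B' ζ l : Prop))
      rw [integral_ind (mu DD) _ (measurableSet_setOfPred.2 hm)]
      refine le_trans ?_ (h2 n hn2 (spn T L) (spn_nonempty T hLne) hEt v)
      unfold pr
      refine measureReal_mono ?_ (measure_ne_top _ _)
      intro ω hω
      exact hω.2
    · have : ∀ ω : ℕ → DD, ind ((∀ x, Et n (spn T L) x ≤ B * kk n) ∧
          ¬ Pieces n R h B' ζ (lerw (act n) v ω (spn T L))) = 0 := by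
        intro ω
        exact ind_false fun h => hEt h.1
      simp only [this, integral_zero]
      exact hpos
  have hsum := Finset.sum_le_card_nsmul (Finset.Icc 2 K) _ _ hj
  rw [Nat.card_Icc, nsmul_eq_mul] at hsum
  have hc : ((K + 1 - 2 : ℕ) : ℝ) ≤ (K : ℝ) + 1 := by
    have : K + 1 - 2 ≤ K + 1 := Nat.sub_le _ _
    exact_mod_cast this
  have h5 : ((K + 1 - 2 : ℕ) : ℝ) * (ε / (2 * ((K : ℝ) + 1))) ≤ ε / 2 := by
    have h6 : ((K + 1 - 2 : ℕ) : ℝ) * (ε / (2 * ((K : ℝ) + 1))) ≤
        ((K : ℝ) + 1) * (ε / (2 * ((K : ℝ) + 1))) :=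
      mul_le_mul_of_nonneg_right hc (by positivity)
    have h7 : ((K : ℝ) + 1) * (ε / (2 * ((K : ℝ) + 1))) = ε / 2 := by
      have : (K : ℝ) + 1 ≠ 0 := by positivity
      field_simp
    linarith
  linarith

end Pool.Agent.UST
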