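import Pool.Agent.Helper54.UST.P103a
import Pool.Agent.Helper54.UST.P103b

/-! Paper 10.3 (closeness). -/

namespace Pool.Agent.UST

open MeasureTheory

private theorem p103_pow_le (x : ℝ) (h0 : 0 ≤ x) (h1 : x ≤ 1) (Q : ℕ) :
    x * (1 - x) ^ Q ≤ 1 / ((Q : ℝ) + 1) := by
  have key : ∀ Q : ℕ, ((Q : ℝ) + 1) * (x * (1 - x) ^ Q) + (1 - x) ^ (Q + 1) ≤ 1 := by
    intro Q
    induction Q with
    | zero => simp
    | succ Q ih =>
      have h2 : (1 - x) ^ (Q + 1) ≤ 1 := pow_le_one₀ (by linarith) (by linarith)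
      have h3 : (0 : ℝ) ≤ 1 - x := by linarith
      have h4 := mul_le_mul_of_nonneg_left ih h3
      have h5 := mul_le_mul_of_nonneg_left h2 h0
      push_cast
      have e : ((Q : ℝ) + 1 + 1) * (x * (1 - x) ^ (Q + 1)) + (1 - x) ^ (Q + 1 + 1)
          = (1 - x) * (((Q : ℝ) + 1) * (x * (1 - x) ^ Q) + (1 - x) ^ (Q + 1))
            + x * (1 - x) ^ (Q + 1) := by
        rw [pow_succ (1 - x) (Q + 1), pow_succ (1 - x) Q]
        ring
      rw [e]
      linarith
  have h2 := key Q
  have h3 : (0 : ℝ) ≤ (1 - x) ^ (Q + 1) := pow_nonneg (by linarith) _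
  have h4 : (0 : ℝ) < (Q : ℝ) + 1 := by positivity
  rw [le_div_iff₀ h4]
  linarith

/-- the pigeonhole bound for one tree and one subtree -/
private theorem p103_one (n : ℕ) [NeZero n] (B' h ζ : ℝ) (T : Tr n) (L : List (V n))
    (hL : L ≠ []) (R Q : ℕ) :
    av (fun z : V n => avL (fun L' => ind (∀ v ∈ L', v ∉ NBs n h B' ζ T z)) Q) ≤
      ind (¬ ∃ c : V n → ℕ, (∀ a ∈ spn T L, a ∉ spn T (L.take 2) → c a < R) ∧
        ∀ a ∈ spn T L, a ∉ spn T (L.take 2) → ∀ a' ∈ spn T L, a' ∉ spn T (L.take 2) →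
          c a = c a' → ((pth T a a').length : ℝ) ≤ h / 3 * rr n ∧
            pm n ⌈B' * kk n⌉₊ (st (pth T a a')) ≤ ζ / 3) +
      av (fun v : V n =>
        ind (¬ ((∀ a, (brn T L v).getLast? = some a → a ∉ spn T (L.take 2)) ∧
          ((brn T L v).length : ℝ) ≤ h / 3 * rr n ∧
          pm n ⌈B' * kk n⌉₊ (st (brn T L v)) ≤ ζ / 3))) + (R : ℝ) / ((Q : ℝ) + 1) := by
  classical
  have hR : (0 : ℝ) ≤ (R : ℝ) / ((Q : ℝ) + 1) := by positivity
  by_cases hc : ∃ c : V n → ℕ, (∀ a ∈ spn T L, a ∉ spn T (L.take 2) → c a < R) ∧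
        ∀ a ∈ spn T L, a ∉ spn T (L.take 2) → ∀ a' ∈ spn T L, a' ∉ spn T (L.take 2) →
          c a = c a' → ((pth T a a').length : ℝ) ≤ h / 3 * rr n ∧
            pm n ⌈B' * kk n⌉₊ (st (pth T a a')) ≤ ζ / 3
  swap
  · rw [ind_true hc]
    have h1 : av (fun z : V n => avL (fun L' => ind (∀ v ∈ L', v ∉ NBs n h B' ζ T z)) Q) ≤ 1 := by
      refine av_le zero_le_one fun z => ?_
      have := avL_mono n (F := fun L' => ind (∀ v ∈ L', v ∉ NBs n h B' ζ T z))
        (G := fun _ => 1) Q (fun L' _ => ind_le_one _)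
      rwa [avL_const] at this
    have h2 : 0 ≤ av (fun v : V n =>
        ind (¬ ((∀ a, (brn T L v).getLast? = some a → a ∉ spn T (L.take 2)) ∧
          ((brn T L v).length : ℝ) ≤ h / 3 * rr n ∧
          pm n ⌈B' * kk n⌉₊ (st (brn T L v)) ≤ ζ / 3))) := av_nonneg fun v => ind_nonneg _
    linarith
  · rw [ind_false (not_not.2 hc), zero_add]
    obtain ⟨c, hc1, hc2⟩ := hc
    choose att ha hb _ _ using fun v : V n => brn_eq T hL v
    set good : V n → Prop := fun v =>
      (∀ a, (brn T L v).getLast? = some a → a ∉ spn T (L.take 2)) ∧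
          ((brn T L v).length : ℝ) ≤ h / 3 * rr n ∧
          pm n ⌈B' * kk n⌉₊ (st (brn T L v)) ≤ ζ / 3 with hgood
    have hg : ∀ v, good v → att v ∉ spn T (L.take 2) := by
      intro v hv
      refine hv.1 (att v) ?_
      rw [hb v, pth_last]
    have hnb : ∀ v z, good v → good z → c (att v) = c (att z) → v ∈ NBs n h B' ζ T z := by
      intro v z hv hz he
      obtain ⟨l1, l2⟩ := hc2 _ (ha v) (hg v hv) _ (ha z) (hg z hz) he
      obtain ⟨-, v1, v2⟩ := hv
      obtain ⟨-, z1, z2⟩ := hz
      rw [hb v] at v1 v2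
      rw [hb z] at z1 z2
      refine ⟨?_, ?_⟩
      · have e1 := dst_triangle T v (att v) z
        have e2 := dst_triangle T (att v) (att z) z
        rw [dst_symm T (att z) z] at e2
        have e3 := pth_length T v z
        have e4 := pth_length T v (att v)
        have e5 := pth_length T (att v) (att z)
        have e6 := pth_length T z (att z)
        have e7 : (pth T v z).length ≤ (pth T v (att v)).length + (pth T (att v) (att z)).length
            + (pth T z (att z)).length := by omega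
        have e8 : ((pth T v z).length : ℝ) ≤ ((pth T v (att v)).length : ℝ) +
            ((pth T (att v) (att z)).length : ℝ) + ((pth T z (att z)).length : ℝ) := by
          exact_mod_cast e7
        linarith
      · have s1 : st (pth T v z) ⊆ st (pth T v (att v)) ∪
            (st (pth T (att v) (att z)) ∪ st (pth T z (att z))) := by
          intro y hy
          rcases pth_subset T v (att v) z hy with hy | hy
          · exact Or.inl hy
          · rcases pth_subset T (att v) (att z) z hy with hy | hy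
            · exact Or.inr (Or.inl hy)
            · refine Or.inr (Or.inr ?_)
              have hy' : y ∈ pth T (att z) z := hy
              rw [pth_rev T z (att z), List.mem_reverse] at hy'
              exact hy'
        have s2 := pm_mono (n := n) (le_refl ⌈B' * kk n⌉₊) s1
        have s3 := pm_union (n := n) ⌈B' * kk n⌉₊ (st (pth T v (att v)))
          (st (pth T (att v) (att z)) ∪ st (pth T z (att z)))
        have s4 := pm_union (n := n) ⌈B' * kk n⌉₊ (st (pth T (att v) (att z)))
          (st (pth T z (att z)))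
        linarith
    set x : ℕ → ℝ := fun i => av (fun v : V n => ind (good v ∧ c (att v) = i)) with hx
    have hx0 : ∀ i, 0 ≤ x i := fun i => av_nonneg fun v => ind_nonneg _
    have hx1 : ∀ i, x i ≤ 1 := fun i => av_le zero_le_one fun v => ind_le_one _
    have hz : ∀ z : V n, avL (fun L' => ind (∀ v ∈ L', v ∉ NBs n h B' ζ T z)) Q ≤
        ind (¬ good z) + ∑ i ∈ Finset.range R, (1 - x i) ^ Q * ind (good z ∧ c (att z) = i) := by
      intro z
      rw [avL_all]
      have hsum : 0 ≤ ∑ i ∈ Finset.range R, (1 - x i) ^ Q * ind (good z ∧ c (att z) = i) :=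
        Finset.sum_nonneg fun i _ => mul_nonneg (pow_nonneg (by linarith [hx1 i]) _)
          (ind_nonneg _)
      have hav0 : 0 ≤ av (fun v : V n => ind (v ∉ NBs n h B' ζ T z)) :=
        av_nonneg fun v => ind_nonneg _
      by_cases hgz : good z
      · rw [ind_false (not_not.2 hgz), zero_add]
        have hi : c (att z) < R := hc1 _ (ha z) (hg z hgz)
        have hle : av (fun v : V n => ind (v ∉ NBs n h B' ζ T z)) ≤ 1 - x (c (att z)) := by
          have e1 : av (fun v : V n => (1 : ℝ) - ind (good v ∧ c (att v) = c (att z))) =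
              1 - x (c (att z)) := by
            rw [av_sub, av_const]
          rw [← e1]
          refine av_mono fun v => ?_
          by_cases hv : good v ∧ c (att v) = c (att z)
          · rw [ind_true hv, ind_false (not_not.2 (hnb v z hv.1 hgz hv.2))]
            norm_num
          · rw [ind_false hv, sub_zero]
            exact ind_le_one _
        have h1 : (av (fun v : V n => ind (v ∉ NBs n h B' ζ T z))) ^ Q ≤
            (1 - x (c (att z))) ^ Q := pow_le_pow_left₀ hav0 hle Q
        refine le_trans h1 ?_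
        have h2 := Finset.single_le_sum
          (f := fun i => (1 - x i) ^ Q * ind (good z ∧ c (att z) = i))
          (s := Finset.range R) (fun i _ => mul_nonneg (pow_nonneg (by linarith [hx1 i]) _)
          (ind_nonneg _)) (Finset.mem_range.2 hi)
        refine le_trans ?_ h2
        simp only [hgz, true_and, ind_true, mul_one, le_refl]
      · rw [ind_true hgz]
        have h1 : (av (fun v : V n => ind (v ∉ NBs n h B' ζ T z))) ^ Q ≤ 1 :=
          pow_le_one₀ hav0 (av_le zero_le_one fun v => ind_le_one _)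
        linarith
    have hfin : av (fun z : V n => avL (fun L' => ind (∀ v ∈ L', v ∉ NBs n h B' ζ T z)) Q) ≤
        av (fun z : V n => ind (¬ good z)) + ∑ i ∈ Finset.range R, (1 - x i) ^ Q * x i := by
      refine le_trans (av_mono hz) ?_
      rw [av_add, av_sum]
      simp only [av_mul_left]
      exact le_refl _
    refine le_trans hfin ?_
    have hs : ∑ i ∈ Finset.range R, (1 - x i) ^ Q * x i ≤ (R : ℝ) / ((Q : ℝ) + 1) := by
      have : ∑ i ∈ Finset.range R, (1 - x i) ^ Q * x i ≤
          ∑ _i ∈ Finset.range R, 1 / ((Q : ℝ) + 1) := by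
        refine Finset.sum_le_sum fun i _ => ?_
        rw [mul_comm]
        exact p103_pow_le (x i) (hx0 i) (hx1 i) Q
      rw [Finset.sum_const, Finset.card_range, nsmul_eq_mul] at this
      rw [mul_one_div] at this
      exact this
    linarith

theorem p103 (B' h ζ ε : ℝ) (hB' : 0 < B') (hh : 0 < h) (hζ : 0 < ζ) (hε : 0 < ε) :
    ∃ Q0 : ℕ, 1 ≤ Q0 ∧ ∃ n0 : ℕ, ∀ (n : ℕ) [NeZero n], n0 ≤ n → ∀ Q : ℕ, Q0 ≤ Q →
    av (fun T : Tr n => av (fun z : V n => avL (fun L =>
      ind (∀ v ∈ L, v ∉ NBs n h B' ζ T z)) Q)) ≤ ε := by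
  obtain ⟨K, hK, n1, H1⟩ := p103a B' (h / 3) (ζ / 3) (ε / 3) hB' (by positivity) (by positivity)
    (by positivity)
  obtain ⟨R, n2, H2⟩ := p103b K B' (h / 3) (ζ / 3) (ε / 3) hB' (by positivity) (by positivity)
    (by positivity)
  obtain ⟨Q0, hQ0⟩ := exists_nat_gt ((R : ℝ) / (ε / 3))
  refine ⟨Q0 + 1, by omega, max n1 n2, ?_⟩
  intro n _ hn Q hQ
  have h1 := H1 n (le_trans (le_max_left _ _) hn)
  have h2 := H2 n (le_trans (le_max_right _ _) hn)
  have h3 : (R : ℝ) / ((Q : ℝ) + 1) ≤ ε / 3 := by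
    have hQ' : (Q0 : ℝ) ≤ (Q : ℝ) := by
      exact_mod_cast (by omega : Q0 ≤ Q)
    rw [div_lt_iff₀ (by positivity)] at hQ0
    rw [div_le_iff₀ (by positivity)]
    nlinarith
  have h4 : av (fun T : Tr n => av (fun z : V n => avL (fun L =>
      ind (∀ v ∈ L, v ∉ NBs n h B' ζ T z)) Q)) ≤
      av (fun T : Tr n => avL (fun L =>
        ind (¬ ∃ c : V n → ℕ, (∀ a ∈ spn T L, a ∉ spn T (L.take 2) → c a < R) ∧
        ∀ a ∈ spn T L, a ∉ spn T (L.take 2) → ∀ a' ∈ spn T L, a' ∉ spn T (L.take 2) →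
          c a = c a' → ((pth T a a').length : ℝ) ≤ h / 3 * rr n ∧
            pm n ⌈B' * kk n⌉₊ (st (pth T a a')) ≤ ζ / 3)) (K + 1)) +
      av (fun T : Tr n => avL (fun L => av (fun v : V n =>
        ind (¬ ((∀ a, (brn T L v).getLast? = some a → a ∉ spn T (L.take 2)) ∧
          ((brn T L v).length : ℝ) ≤ h / 3 * rr n ∧
          pm n ⌈B' * kk n⌉₊ (st (brn T L v)) ≤ ζ / 3)))) (K + 1)) +
      av (fun _T : Tr n => (R : ℝ) / ((Q : ℝ) + 1)) := by
    rw [← av_add, ← av_add]
    refine av_mono fun T => ?_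
    have e1 := avL_const n (av (fun z : V n => avL (fun L =>
      ind (∀ v ∈ L, v ∉ NBs n h B' ζ T z)) Q)) (K + 1)
    have e2 := avL_const n ((R : ℝ) / ((Q : ℝ) + 1)) (K + 1)
    rw [← e1, ← e2, ← avL_add_fn, ← avL_add_fn]
    refine avL_mono n (K + 1) fun L hL => ?_
    refine p103_one n B' h ζ T L ?_ R Q
    intro hL'
    rw [hL'] at hL
    simp at hL
  have h5 : av (fun _T : Tr n => (R : ℝ) / ((Q : ℝ) + 1)) ≤ ε / 3 :=
    av_le (by positivity) fun _ => h3
  linarith

end Pool.Agent.UST
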