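import Pool.Agent.Helper54.UST.S1
import Pool.Agent.Helper54.UST.LTb
import Pool.Agent.Helper54.UST.T1
import Pool.Agent.Helper54.UST.LemUC
import Pool.Agent.Helper54.UST.Asy

/-! Paper 10.3, first part: most vertices are good. -/

namespace Pool.Agent.UST

open MeasureTheory

namespace P103a

/-- the branch `η` to the subtree of `L` is bad -/
private def Bad (n : ℕ) [NeZero n] (B' h ζ : ℝ) (T : Tr n) (L : List (V n)) (η : List (V n)) :
    Prop :=
  ¬ ((∀ a, η.getLast? = some a → a ∉ spn T (L.take 2)) ∧ (η.length : ℝ) ≤ h * rr n ∧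
    pm n ⌈B' * kk n⌉₊ (st η) ≤ ζ)

private theorem spn_congr {n : ℕ} (T T' : Tr n) (L : List (V n)) (M : List (V n)) (hM : M <+: L)
    (hM0 : M ≠ []) (h : ∀ v ∈ L, pth T v (L.headD 0) = pth T' v (L.headD 0)) :
    spn T M = spn T' M := by
  obtain ⟨N, rfl⟩ := hM
  ext y
  unfold spn
  have e : (M ++ N).headD 0 = M.headD 0 := spn_headD_append hM0
  rw [e] at h
  constructor
  · rintro ⟨u, hu, hy⟩
    exact ⟨u, hu, by rwa [← h u (List.mem_append_left N hu)]⟩
  · rintro ⟨u, hu, hy⟩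
    exact ⟨u, hu, by rwa [h u (List.mem_append_left N hu)]⟩

/-- transfer to the walk -/
private theorem step1 (n : ℕ) [NeZero n] (hn : 3 ≤ n) (B' h ζ : ℝ) (K : ℕ) :
    av (fun T : Tr n => avL (fun L => av (fun v : V n =>
      ind (Bad n B' h ζ T L (brn T L v)))) (K + 1)) ≤
    av (fun T : Tr n => avL (fun L => av (fun v : V n =>
      ∫ ω, ind (Bad n B' h ζ T L (lerw (act n) v ω (spn T L))) ∂(mu DD))) (K + 1)) := by
  rw [← avL_av n (fun (T : Tr n) L => av (fun v : V n => ind (Bad n B' h ζ T L (brn T L v)))),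
    ← avL_av n (fun (T : Tr n) L => av (fun v : V n =>
      ∫ ω, ind (Bad n B' h ζ T L (lerw (act n) v ω (spn T L))) ∂(mu DD)))]
  refine avL_mono n (K + 1) fun L hL => ?_
  have hL0 : L ≠ [] := by
    rintro rfl
    simp at hL
  rw [av_comm, av_comm (fun (T : Tr n) (v : V n) =>
      ∫ ω, ind (Bad n B' h ζ T L (lerw (act n) v ω (spn T L))) ∂(mu DD))]
  refine av_mono fun v => le_of_eq ?_
  refine wilson_step n hn L hL0 v (fun T η => ind (Bad n B' h ζ T L η)) ?_
  intro T T' hT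
  funext η
  have e : spn T (L.take 2) = spn T' (L.take 2) := by
    refine spn_congr T T' L (L.take 2) (List.take_prefix 2 L) ?_ hT
    intro h0
    have := congrArg List.length h0
    rw [List.length_take, List.length_nil] at this
    omega
  unfold Bad
  rw [e]

/-- one walk -/
private theorem step2 (n : ℕ) [NeZero n] (B' h ζ : ℝ) (T : Tr n) (L : List (V n)) (v : V n)
    (m : ℕ) (p1 p3 p4 : ℝ)
    (h1 : pr {ω | m < tau (act n) v ω (spn T L)} ≤ p1)
    (h3 : pr {ω | h * rr n ≤ ((lerw (act n) v ω (spn T L)).length : ℝ)} ≤ p3)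
    (h4 : pr {ω | ζ < pm n ⌈B' * kk n⌉₊ (st (seg (act n) v ω 0 (0 + m)))} ≤ p4) :
    ∫ ω, ind (Bad n B' h ζ T L (lerw (act n) v ω (spn T L))) ∂(mu DD) ≤
      p1 + pr {ω | hit (act n) v ω 0 m (spn T (L.take 2))} + p3 + p4 := by
  have hms : MeasurableSet {ω | Bad n B' h ζ T L (lerw (act n) v ω (spn T L))} :=
    measurableSet_setOfPred.mpr (measurable_lerw (act n) (spn T L) v (fun η => Bad n B' h ζ T L η))
  rw [integral_ind (mu DD) _ hms]
  set E1 : Set (ℕ → DD) := {ω | m < tau (act n) v ω (spn T L)} with hE1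
  set E2 : Set (ℕ → DD) := {ω | hit (act n) v ω 0 m (spn T (L.take 2))} with hE2
  set E3 : Set (ℕ → DD) := {ω | h * rr n ≤ ((lerw (act n) v ω (spn T L)).length : ℝ)} with hE3
  set E4 : Set (ℕ → DD) := {ω | ζ < pm n ⌈B' * kk n⌉₊ (st (seg (act n) v ω 0 (0 + m)))} with hE4
  have hsub : {ω | Bad n B' h ζ T L (lerw (act n) v ω (spn T L))} ⊆ ((E1 ∪ E2) ∪ E3) ∪ E4 := by
    intro ω hω
    by_cases ht : m < tau (act n) v ω (spn T L)
    · exact Or.inl (Or.inl (Or.inl ht))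
    · have ht' : tau (act n) v ω (spn T L) ≤ m := not_lt.mp ht
      by_cases hc1 : ∀ a, (lerw (act n) v ω (spn T L)).getLast? = some a → a ∉ spn T (L.take 2)
      · by_cases hc2 : ((lerw (act n) v ω (spn T L)).length : ℝ) ≤ h * rr n
        · by_cases hc3 : pm n ⌈B' * kk n⌉₊ (st (lerw (act n) v ω (spn T L))) ≤ ζ
          · exact absurd ⟨hc1, hc2, hc3⟩ hω
          · refine Or.inr (lt_of_lt_of_le (not_le.mp hc3) ?_)
            refine pm_mono n le_rfl ?_
            intro y hy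
            have hy' : y ∈ lerw (act n) v ω (spn T L) := hy
            have hy2 : y ∈ seg (act n) v ω 0 (tau (act n) v ω (spn T L)) := mem_le hy'
            rw [mem_seg] at hy2
            obtain ⟨i, hi1, hi2, hi3⟩ := hy2
            exact (mem_seg (act n) v ω 0 (0 + m) y).mpr ⟨i, hi1, by omega, hi3⟩
        · exact Or.inl (Or.inr (not_le.mp hc2).le)
      · push Not at hc1
        obtain ⟨a, ha1, ha2⟩ := hc1
        rw [lerw_getLast] at ha1
        refine Or.inl (Or.inl (Or.inr ⟨tau (act n) v ω (spn T L), Nat.zero_le _, ht', ?_⟩))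
        rw [Option.some.inj ha1]
        exact ha2
  have h5 : (mu DD).real {ω | Bad n B' h ζ T L (lerw (act n) v ω (spn T L))} ≤
      (mu DD).real E1 + (mu DD).real E2 + (mu DD).real E3 + (mu DD).real E4 := by
    refine le_trans (measureReal_mono hsub) ?_
    refine le_trans (measureReal_union_le _ _) (add_le_add ?_ le_rfl)
    refine le_trans (measureReal_union_le _ _) (add_le_add ?_ le_rfl)
    exact measureReal_union_le _ _
  refine le_trans h5 ?_
  unfold pr at h1 h3 h4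
  show _ ≤ p1 + (mu DD).real E2 + p3 + p4
  linarith

/-- averaging -/
private theorem step3 (n : ℕ) [NeZero n] (hn : 3 ≤ n) (B' h ζ : ℝ) (K : ℕ) (hK : 1 ≤ K) (m : ℕ)
    (a p1 p2 p3 p4 q : ℝ)
    (hq : av (fun T : Tr n => avL (fun L => ind (a < MA n (spn T L))) (K + 1)) ≤ q)
    (h1 : ∀ (T : Tr n) (L : List (V n)) (v : V n), L ≠ [] → MA n (spn T L) ≤ a →
      pr {ω | m < tau (act n) v ω (spn T L)} ≤ p1)
    (h2 : av (fun T : Tr n => avL (fun L => pm n m (spn T L)) (1 + 1)) ≤ p2)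
    (h3 : ∀ (T : Tr n) (L : List (V n)) (v : V n), L ≠ [] → MA n (spn T L) ≤ a →
      pr {ω | h * rr n ≤ ((lerw (act n) v ω (spn T L)).length : ℝ)} ≤ p3)
    (h4 : ∀ v : V n, pr {ω | ζ < pm n ⌈B' * kk n⌉₊ (st (seg (act n) v ω 0 (0 + m)))} ≤ p4)
    (hp1 : 0 ≤ p1) (hp3 : 0 ≤ p3) (hp4 : 0 ≤ p4) :
    av (fun T : Tr n => avL (fun L => av (fun v : V n =>
      ∫ ω, ind (Bad n B' h ζ T L (lerw (act n) v ω (spn T L))) ∂(mu DD))) (K + 1)) ≤
      q + p1 + p2 + p3 + p4 := by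
  have e1 : ∀ T : Tr n, avL (fun L => av (fun v : V n =>
      ∫ ω, ind (Bad n B' h ζ T L (lerw (act n) v ω (spn T L))) ∂(mu DD))) (K + 1) ≤
      avL (fun L => ind (a < MA n (spn T L)) + (pm n m (spn T (L.take 2)) + (p1 + p3 + p4)))
        (K + 1) := by
    intro T
    refine avL_mono n (K + 1) fun L hL => ?_
    have hL0 : L ≠ [] := by
      rintro rfl
      simp at hL
    by_cases hM : a < MA n (spn T L)
    · rw [ind_true hM]
      have h5 : av (fun v : V n =>
          ∫ ω, ind (Bad n B' h ζ T L (lerw (act n) v ω (spn T L))) ∂(mu DD)) ≤ 1 := by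
        refine av_le zero_le_one fun v => ?_
        have hms : MeasurableSet {ω | Bad n B' h ζ T L (lerw (act n) v ω (spn T L))} :=
          measurableSet_setOfPred.mpr
            (measurable_lerw (act n) (spn T L) v (fun η => Bad n B' h ζ T L η))
        rw [integral_ind (mu DD) _ hms]
        exact measureReal_le_one
      have h6 := pm_nonneg n m (spn T (L.take 2))
      linarith
    · rw [ind_false hM, zero_add]
      have hM' := not_lt.mp hM
      have h5 : av (fun v : V n =>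
          ∫ ω, ind (Bad n B' h ζ T L (lerw (act n) v ω (spn T L))) ∂(mu DD)) ≤
          av (fun v : V n => pr {ω | hit (act n) v ω 0 m (spn T (L.take 2))} + (p1 + p3 + p4)) := by
        refine av_mono fun v => ?_
        refine le_trans (step2 n B' h ζ T L v m p1 p3 p4 (h1 T L v hL0 hM') (h3 T L v hL0 hM')
          (h4 v)) (le_of_eq (by ring))
      refine le_trans h5 ?_
      rw [av_add, av_const]
      exact le_rfl
  refine le_trans (av_mono e1) ?_
  have e2 : (fun T : Tr n => avL (fun L => ind (a < MA n (spn T L)) +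
      (pm n m (spn T (L.take 2)) + (p1 + p3 + p4))) (K + 1)) =
      fun T : Tr n => avL (fun L => ind (a < MA n (spn T L))) (K + 1) +
        (avL (fun L => pm n m (spn T L)) (1 + 1) + (p1 + p3 + p4)) := by
    funext T
    rw [avL_add_fn n (fun L => ind (a < MA n (spn T L))), avL_add_fn n (fun L => pm n m (spn T (L.take 2))),
      avL_const]
    congr 2
    obtain ⟨b, rfl⟩ : ∃ b, K = 1 + b := ⟨K - 1, by omega⟩
    have := avL_take n (fun L => pm n m (spn T L)) 2 b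
    rw [show 1 + b + 1 = 2 + b by ring]
    exact this
  rw [e2, av_add, av_add]
  have : Nonempty (Tr n) := tr_nonempty n hn
  rw [av_const]
  linarith

end P103a

theorem p103a (B' h ζ ε : ℝ) (hB' : 0 < B') (hh : 0 < h) (hζ : 0 < ζ) (hε : 0 < ε) :
    ∃ K : ℕ, 1 ≤ K ∧ ∃ n0 : ℕ, ∀ (n : ℕ) [NeZero n], n0 ≤ n →
    av (fun T : Tr n => avL (fun L => av (fun v : V n =>
      ind (¬ ((∀ a, (brn T L v).getLast? = some a → a ∉ spn T (L.take 2)) ∧
        ((brn T L v).length : ℝ) ≤ h * rr n ∧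
        pm n ⌈B' * kk n⌉₊ (st (brn T L v)) ≤ ζ)))) (K + 1)) ≤ ε := by
  obtain ⟨Ca, hCa, n1, hA⟩ := t1A_spn
  obtain ⟨Cl, hCl, n2, hl3⟩ := l3_tail
  obtain ⟨Cu, hCu, hUC⟩ := lemUC_k
  -- the number of windows
  obtain ⟨N, hN⟩ := exists_pow_lt_of_lt_one (by positivity : (0 : ℝ) < ε / 16)
    (by norm_num : (1 / 2 : ℝ) < 1)
  set lam : ℝ := 9 * (N + 1) with hlam
  have hlam9 : 9 ≤ lam := by
    have : (0 : ℝ) ≤ N := Nat.cast_nonneg N
    rw [hlam]
    linarith
  have hlam0 : 0 < lam := by linarith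
  set ξ : ℝ := min (min 1 (1 / (16 * lam))) (min (ε / (16 * Ca * lam))
    (min (ζ / (Cu * B' * lam)) (ε * h ^ 3 / (1728 * Cl)))) with hξ
  have hξ0 : 0 < ξ := by
    refine lt_min (lt_min one_pos (by positivity)) (lt_min (by positivity)
      (lt_min (by positivity) (by positivity)))
  have hξ1 : ξ ≤ 1 := (min_le_left _ _).trans (min_le_left _ _)
  have hξ2 : ξ ≤ 1 / (16 * lam) := (min_le_left _ _).trans (min_le_right _ _)
  have hξ3 : ξ ≤ ε / (16 * Ca * lam) := (min_le_right _ _).trans (min_le_left _ _)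
  have hξ4 : ξ ≤ ζ / (Cu * B' * lam) :=
    (min_le_right _ _).trans ((min_le_right _ _).trans (min_le_left _ _))
  have hξ5 : ξ ≤ ε * h ^ 3 / (1728 * Cl) :=
    (min_le_right _ _).trans ((min_le_right _ _).trans (min_le_right _ _))
  set θ : ℝ := lam * ξ with hθ
  have hθ0 : 0 < θ := by positivity
  have hθ1 : 16 * θ ≤ 1 := by
    rw [hθ]
    rw [le_div_iff₀ (by positivity)] at hξ2
    linarith
  have hθ2 : 16 * Ca * θ ≤ ε := by
    rw [hθ]
    rw [le_div_iff₀ (by positivity)] at hξ3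
    linarith
  have hθ3 : Cu * B' * θ ≤ ζ := by
    rw [hθ]
    rw [le_div_iff₀ (by positivity)] at hξ4
    linarith
  obtain ⟨K0, n3, hsk⟩ := skeleton' ξ (ε / 8) hξ0 (by positivity)
  obtain ⟨n4, hUC'⟩ := hUC B' θ hB' hθ0
  obtain ⟨n5, hexp⟩ := exp_small (8 / ε) 0
  obtain ⟨n6, hsq⟩ := sq_le_kk 16 ξ hξ0
  obtain ⟨n7, hsqθ⟩ := sq_le_kk 16 θ hθ0
  obtain ⟨n8, hkp⟩ := kk_le_pow (3 * ξ)
  obtain ⟨n9, hrk⟩ := rr_kk
  obtain ⟨n10, hLL⟩ := LL_large 1
  refine ⟨max K0 1, le_max_right _ _, max 3 (max n1 (max n2 (max n3 (max n4 (max n5 (max n6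
    (max n7 (max n8 (max n9 n10))))))))), ?_⟩
  intro n _ hn
  simp only [max_le_iff] at hn
  obtain ⟨hn3, hn1, hn2, hn3', hn4, hn5, hn6, hn7, hn8, hn9, hn10⟩ := hn
  have hnR : (3 : ℝ) ≤ n := by exact_mod_cast hn3
  have hn0 : (0 : ℝ) < n := by linarith
  have hsq' := hsq n hn6
  have hsqθ' := hsqθ n hn7
  have hkk0 : (0 : ℝ) < kk n := by
    by_contra hc
    have h1 : ξ * (kk n : ℝ) ≤ 0 := mul_nonpos_of_nonneg_of_nonpos hξ0.le (not_lt.mp hc)
    have h2 : 0 < 16 * (n : ℝ) ^ 2 := by positivity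
    linarith
  have hn2R : 1 ≤ (n : ℝ) ^ 2 := by nlinarith
  have hθkk : 16 ≤ θ * (kk n : ℝ) := by linarith
  have hLL1 := hLL n hn10
  have hLL0 : 0 < LL n := by linarith
  set m : ℕ := ⌈θ * (kk n : ℝ)⌉₊ with hm
  have hmlow : θ * (kk n : ℝ) ≤ m := Nat.le_ceil _
  have hmup : (m : ℝ) < θ * kk n + 1 := Nat.ceil_lt_add_one (by positivity)
  set H : ℝ := 3 * ξ * kk n with hH
  have ht0R : ((t0 n : ℕ) : ℝ) = 4 * (n : ℝ) ^ 2 := by
    unfold t0
    push_cast
    ring
  have hHn : (n : ℝ) ^ 2 ≤ H := by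
    rw [hH]
    nlinarith
  have hH1 : 1 ≤ H := le_trans hn2R hHn
  have hHp : H ≤ (n : ℝ) ^ ((9 : ℝ) / 4) := hkp n hn8
  have hEt : ∀ (T : Tr n) (L : List (V n)), L ≠ [] → MA n (spn T L) ≤ ξ * kk n → ∀ x,
      Et n (spn T L) x ≤ H := by
    intro T L hL hM x
    have h1 := Et_le_MA n (spn T L) (spn_nonempty T hL) x
    rw [ht0R] at h1
    rw [hH]
    linarith
  have ht0m : t0 n ≤ m := by
    have : ((t0 n : ℕ) : ℝ) ≤ m := by
      rw [ht0R]
      linarith
    exact_mod_cast this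
  have h8m : 8 * m ≤ kk n := by
    have : 8 * (m : ℝ) ≤ kk n := by nlinarith
    exact_mod_cast this
  refine le_trans (P103a.step1 n hn3 B' h ζ (max K0 1)) ?_
  have hfin := P103a.step3 n hn3 B' h ζ (max K0 1) (le_max_right _ _) m (ξ * kk n) (ε / 8) (ε / 8)
    (ε / 8) (ε / 8) (ε / 8) (hsk n hn3' (max K0 1) (le_max_left _ _)) ?_ ?_ ?_ ?_ (by positivity)
    (by positivity) (by positivity)
  · linarith
  · intro T L v hL hM
    refine le_trans (survive_pr n (spn T L) (spn_nonempty T hL) H hH1 (hEt T L hL hM) v m) ?_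
    have h1 : lam / 9 ≤ (m : ℝ) / (3 * H) := by
      rw [le_div_iff₀ (by positivity), hH]
      have : lam / 9 * (3 * (3 * ξ * (kk n : ℝ))) = θ * kk n := by rw [hθ]; ring
      rw [this]
      exact hmlow
    have h2 : (2 : ℝ) ^ (-((m : ℝ) / (3 * H))) ≤ (2 : ℝ) ^ (-((N : ℝ) + 1)) := by
      refine Real.rpow_le_rpow_of_exponent_le (by norm_num) ?_
      have : lam / 9 = (N : ℝ) + 1 := by rw [hlam]; ring
      linarith
    have h3 : (2 : ℝ) ^ (-((N : ℝ) + 1)) = (1 / 2) ^ (N + 1) := by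
      rw [Real.rpow_neg (by norm_num), one_div, inv_pow]
      congr 1
      exact_mod_cast Real.rpow_natCast 2 (N + 1)
    have h4 : (1 / 2 : ℝ) ^ (N + 1) ≤ (1 / 2) ^ N := by
      rw [pow_succ]
      have : (0 : ℝ) < (1 / 2) ^ N := by positivity
      linarith
    rw [h3] at h2
    linarith
  · refine le_trans (hA n hn1 m 1 ht0m h8m le_rfl) ?_
    rw [div_le_iff₀ hkk0]
    push_cast
    have h1 : (m : ℝ) ≤ 2 * (θ * kk n) := by linarith
    have h2 : Ca * (m : ℝ) ≤ Ca * (2 * (θ * kk n)) := mul_le_mul_of_nonneg_left h1 hCa.le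
    have h3 : 16 * Ca * θ * (kk n : ℝ) ≤ ε * kk n := mul_le_mul_of_nonneg_right hθ2 hkk0.le
    nlinarith
  · intro T L v hL hM
    have hr0 : 0 < rr n := by
      unfold rr
      positivity
    refine le_trans (hl3 n hn2 (spn T L) (spn_nonempty T hL) H hHn hHp (hEt T L hL hM) v
      (h * rr n) (by positivity)) ?_
    have h1 := (hrk n hn9).2
    have h2 : (kk n : ℝ) ^ 3 ≤ 8 * rr n ^ 3 * LL n := by
      refine le_trans (pow_le_pow_left₀ hkk0.le h1 3) (le_of_eq ?_)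
      have h3 : (LL n ^ ((1 : ℝ) / 3)) ^ 3 = LL n := by
        rw [← Real.rpow_natCast, ← Real.rpow_mul hLL0.le]
        norm_num
      rw [mul_pow, mul_pow, h3]
      ring
    rw [div_le_iff₀ (by positivity)]
    have h4 : ξ ^ 3 ≤ ξ := by
      have : ξ ^ 2 ≤ 1 := pow_le_one₀ hξ0.le hξ1
      calc ξ ^ 3 = ξ * ξ ^ 2 := by ring
        _ ≤ ξ * 1 := mul_le_mul_of_nonneg_left this hξ0.le
        _ = ξ := mul_one _
    have h5 : 1728 * Cl * ξ ≤ ε * h ^ 3 := by
      rw [le_div_iff₀ (by positivity)] at hξ5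
      linarith
    calc Cl * H ^ 3 = 27 * Cl * ξ ^ 3 * (kk n : ℝ) ^ 3 := by rw [hH]; ring
      _ ≤ 27 * Cl * ξ ^ 3 * (8 * rr n ^ 3 * LL n) := mul_le_mul_of_nonneg_left h2 (by positivity)
      _ = 216 * Cl * (rr n ^ 3 * LL n) * ξ ^ 3 := by ring
      _ ≤ 216 * Cl * (rr n ^ 3 * LL n) * ξ := mul_le_mul_of_nonneg_left h4 (by positivity)
      _ = (1728 * Cl * ξ) * (rr n ^ 3 * LL n) / 8 := by ring
      _ ≤ (ε * h ^ 3) * (rr n ^ 3 * LL n) / 8 := by
        refine div_le_div_of_nonneg_right (mul_le_mul_of_nonneg_right h5 (by positivity))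
          (by norm_num)
      _ = ε / 8 * (LL n * (h * rr n) ^ 3) := by ring
  · intro v
    have h1 := hUC' n hn4 ⌈B' * (kk n : ℝ)⌉₊ m 0 v (Nat.ceil_lt_add_one (by positivity)).le hmup.le
    have h2 := hexp n hn5
    rw [pow_zero, div_one] at h2
    have h3 : Real.exp (-((n : ℝ) ^ ((1 : ℝ) / 4))) ≤ ε / 8 := by
      rw [div_mul_eq_mul_div, div_le_one hε] at h2
      linarith
    refine le_trans (measureReal_mono ?_) (le_trans h1 h3)
    intro ω hω
    exact lt_of_le_of_lt hθ3 hω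

end Pool.Agent.UST
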