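import Pool.Agent.Helper54.UST.P104q

/-! Paper 10.4, and the bound of the number of neighbours. -/

namespace Pool.Agent.UST

open MeasureTheory

private theorem q104_av_ind (n : ℕ) [NeZero n] (S : Set (V n)) :
    av (fun v : V n => ind (v ∉ S)) = 1 - (S.ncard : ℝ) / NN n := by
  classical
  have h1 : av (fun v : V n => ind (v ∉ S)) = av (fun v : V n => 1 - ind (v ∈ S)) := by
    congr 1
    funext v
    exact ind_not _
  have hcard : (Fintype.card (V n) : ℝ) = NN n := by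
    unfold NN
    rw [Fintype.card_fun, ZMod.card, Fintype.card_fin]
    push_cast
    rfl
  have h2 : av (fun v : V n => ind (v ∈ S)) = (S.ncard : ℝ) / NN n := by
    unfold av
    rw [hcard]
    congr 1
    unfold ind
    rw [Finset.sum_boole, Set.ncard_eq_toFinset_card']
    congr 1
    congr 1
    ext v
    simp
  rw [h1, av_sub, av_const, h2]

private theorem q104_pow (n : ℕ) [NeZero n] (S : Set (V n)) (Q : ℕ) (hQ : 1 ≤ Q)
    (hS : (S.ncard : ℝ) < 1 / (2 * Q) * NN n) :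
    1 ≤ 2 * avL (fun L => ind (∀ v ∈ L, v ∉ S)) Q := by
  rw [avL_all n (fun v => v ∉ S) Q, q104_av_ind]
  have hN : 0 < NN n := by
    unfold NN
    have : (0 : ℝ) < n := by exact_mod_cast Nat.pos_of_ne_zero (NeZero.ne n)
    positivity
  have hQ' : (1 : ℝ) ≤ Q := by exact_mod_cast hQ
  have h1 : (S.ncard : ℝ) / NN n ≤ 1 / (2 * Q) := by
    rw [div_le_iff₀ hN]
    exact hS.le
  have h2 : (1 : ℝ) / (2 * Q) ≤ 1 / 2 := by
    apply one_div_le_one_div_of_le (by norm_num)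
    linarith
  have h3 : 1 + (Q : ℝ) * (-(1 / (2 * Q))) ≤ (1 + (-(1 / (2 * Q) : ℝ))) ^ Q :=
    one_add_mul_le_pow (by linarith) Q
  have h4 : (1 + (-(1 / (2 * Q) : ℝ))) ^ Q ≤ (1 - (S.ncard : ℝ) / NN n) ^ Q := by
    apply pow_le_pow_left₀ (by linarith)
    linarith
  have h5 : (Q : ℝ) * (-(1 / (2 * Q))) = -(1 / 2) := by
    field_simp
  rw [h5] at h3
  linarith

private theorem q104_pr_and (P : (ℕ → DD) → Prop) (c : Prop) :
    pr {ω | P ω ∧ c} = ind c * pr {ω | P ω} := by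
  by_cases h : c
  · simp [h, ind_true]
  · have : {ω : ℕ → DD | P ω ∧ c} = ∅ := by
      ext ω
      simp [h]
    rw [this, ind_false h]
    simp [pr]

private theorem q104_key (n : ℕ) [NeZero n] (S : Set (V n)) (P : (ℕ → DD) → Prop) (Q : ℕ)
    (hQ : 1 ≤ Q) :
    pr {ω | P ω ∧ (S.ncard : ℝ) < 1 / (2 * Q) * NN n} ≤
      2 * avL (fun L => pr {ω | P ω ∧ ∀ v ∈ L, v ∉ S}) Q := by
  have hp : 0 ≤ pr {ω | P ω} := by
    unfold pr
    exact measureReal_nonneg
  have h1 : (fun L : List (V n) => pr {ω | P ω ∧ ∀ v ∈ L, v ∉ S}) =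
      fun L => pr {ω | P ω} * ind (∀ v ∈ L, v ∉ S) := by
    funext L
    rw [q104_pr_and, mul_comm]
  rw [h1, avL_mul_left, q104_pr_and]
  have h2 : 0 ≤ avL (fun L : List (V n) => ind (∀ v ∈ L, v ∉ S)) Q :=
    avL_nonneg n Q fun L _ => ind_nonneg _
  by_cases hS : (S.ncard : ℝ) < 1 / (2 * Q) * NN n
  · rw [ind_true hS]
    have h3 := q104_pow n S Q hQ hS
    nlinarith
  · rw [ind_false hS, zero_mul]
    positivity

theorem p104 (B' h ζ ε : ℝ) (hB' : 0 < B') (hh : 0 < h) (hζ : 0 < ζ) (hε : 0 < ε) :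
    ∃ δ : ℝ, 0 < δ ∧ ∃ n0 : ℕ, ∀ (n : ℕ) [NeZero n], n0 ≤ n →
    av (fun T : Tr n => av (fun z : V n => av (fun w : V n =>
      pr {ω | ¬ hit (act n) z ω 1 (bb n) (st (pth T z w)) ∧
        ((NBs n h B' ζ T z).ncard : ℝ) < δ * NN n}))) ≤ ε * LL n ^ (-(1 / 3 : ℝ)) := by
  obtain ⟨Q, hQ, n0, hn0⟩ := p104q B' h ζ (ε / 2) hB' hh hζ (by linarith)
  have hQ' : (1 : ℝ) ≤ Q := by exact_mod_cast hQ
  refine ⟨1 / (2 * Q), by positivity, n0, fun n _ hn => ?_⟩
  have h1 := hn0 n hn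
  calc _ ≤ av (fun T : Tr n => av (fun z : V n => av (fun w : V n => 2 * avL (fun L =>
      pr {ω | ¬ hit (act n) z ω 1 (bb n) (st (pth T z w)) ∧
        ∀ v ∈ L, v ∉ NBs n h B' ζ T z}) Q))) := by
        refine av_mono fun T => av_mono fun z => av_mono fun w => ?_
        exact q104_key n (NBs n h B' ζ T z) _ Q hQ
    _ = 2 * av (fun T : Tr n => av (fun z : V n => av (fun w : V n => avL (fun L =>
      pr {ω | ¬ hit (act n) z ω 1 (bb n) (st (pth T z w)) ∧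
        ∀ v ∈ L, v ∉ NBs n h B' ζ T z}) Q))) := by
        simp only [av_mul_left]
    _ ≤ 2 * (ε / 2 * LL n ^ (-(1 / 3 : ℝ))) := by linarith
    _ = ε * LL n ^ (-(1 / 3 : ℝ)) := by ring

/-- from 10.3 -/
theorem nbs_card (B' h ζ ε : ℝ) (hB' : 0 < B') (hh : 0 < h) (hζ : 0 < ζ) (hε : 0 < ε) :
    ∃ δ : ℝ, 0 < δ ∧ ∃ n0 : ℕ, ∀ (n : ℕ) [NeZero n], n0 ≤ n →
    av (fun T : Tr n => av (fun z : V n =>
      ind (((NBs n h B' ζ T z).ncard : ℝ) < δ * NN n))) ≤ ε := by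
  obtain ⟨Q, hQ, n0, hn0⟩ := p103 B' h ζ (ε / 2) hB' hh hζ (by linarith)
  have hQ' : (1 : ℝ) ≤ Q := by exact_mod_cast hQ
  refine ⟨1 / (2 * Q), by positivity, n0, fun n _ hn => ?_⟩
  have h1 := hn0 n hn Q le_rfl
  calc _ ≤ av (fun T : Tr n => av (fun z : V n => 2 * avL (fun L =>
      ind (∀ v ∈ L, v ∉ NBs n h B' ζ T z)) Q)) := by
        refine av_mono fun T => av_mono fun z => ?_
        have h2 : 0 ≤ avL (fun L : List (V n) => ind (∀ v ∈ L, v ∉ NBs n h B' ζ T z)) Q :=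
          avL_nonneg n Q fun L _ => ind_nonneg _
        by_cases hS : ((NBs n h B' ζ T z).ncard : ℝ) < 1 / (2 * Q) * NN n
        · rw [ind_true hS]
          exact q104_pow n _ Q hQ hS
        · rw [ind_false hS]
          positivity
    _ = 2 * av (fun T : Tr n => av (fun z : V n => avL (fun L =>
      ind (∀ v ∈ L, v ∉ NBs n h B' ζ T z)) Q)) := by
        simp only [av_mul_left]
    _ ≤ 2 * (ε / 2) := by linarith
    _ = ε := by ring

end Pool.Agent.UST
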