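import Pool.Agent.Helper54.UST.Spn
import Pool.Agent.Helper54.UST.PmBasic

/-! Paper 10.4: deterministic facts on the neighbours. -/

namespace Pool.Agent.UST

open MeasureTheory

private theorem p104d_st_rev {n : ℕ} (T : Tr n) (a b : V n) : st (pth T b a) = st (pth T a b) := by
  ext y
  show y ∈ pth T b a ↔ y ∈ pth T a b
  rw [pth_rev T a b, List.mem_reverse]

/-- if no point of `L` is a neighbour of `z` then the branch is long, or thick, or its end is bad -/
theorem nbs_split {n : ℕ} [NeZero n] (T : Tr n) (w z : V n) (L : List (V n)) (h B ζ : ℝ)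
    (hn : ∀ v ∈ L, v ∉ NBs n h B ζ T z) :
    h / 2 * rr n < ((brn T (w :: L) z).length : ℝ) ∨
    ζ / 2 < pm n ⌈B * kk n⌉₊ (st (brn T (w :: L) z)) ∨
    ∀ a, (brn T (w :: L) z).getLast? = some a → ∀ v ∈ L, v ∉ NBs n (h / 2) B (ζ / 2) T a := by
  by_contra hc
  push Not at hc
  obtain ⟨h1, h2, a, ha, v, hv, hva⟩ := hc
  obtain ⟨a', ha', hb, _, _⟩ := brn_eq T (L := w :: L) (by simp) z
  rw [hb, pth_last, Option.some.injEq] at ha
  subst ha
  rw [hb] at h1 h2
  obtain ⟨h3, h4⟩ := hva
  apply hn v hv
  constructor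
  · have h5 : (((pth T v z).length : ℕ) : ℝ) ≤ ((pth T v a').length : ℝ) + (pth T z a').length := by
      rw [pth_length, pth_length, pth_length]
      have h6 := dst_triangle T v a' z
      rw [dst_symm T a' z] at h6
      have h7 : dst T v z + 1 ≤ (dst T v a' + 1) + (dst T z a' + 1) := by omega
      exact_mod_cast h7
    have h8 : h * rr n = h / 2 * rr n + h / 2 * rr n := by ring
    rw [h8]
    exact h5.trans (add_le_add h3 h1)
  · have h5 : st (pth T v z) ⊆ st (pth T v a') ∪ st (pth T z a') := by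
      rw [← p104d_st_rev T z a']
      exact pth_subset T v a' z
    refine (pm_mono n le_rfl h5).trans ((pm_union n _ _ _).trans ?_)
    linarith

/-- bad ends have no neighbours -/
theorem nbs_bad {n : ℕ} [NeZero n] (T : Tr n) (w z a : V n) (L : List (V n)) (h B ζ : ℝ)
    (ha : (brn T (w :: L) z).getLast? = some a) (v : V n) (hv : v ∈ L)
    (hn : v ∈ NBs n h B ζ T z) : v ∈ NBs n h B ζ T a := by
  obtain ⟨a', ha', hb, _, h2⟩ := brn_eq T (L := w :: L) (by simp) z
  rw [hb, pth_last, Option.some.injEq] at ha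
  subst ha
  have hvs : v ∈ spn T (w :: L) := mem_spn_of_mem T (List.mem_cons_of_mem _ hv)
  have h3 : a' ∈ pth T z v := by
    rw [h2 v hvs, List.mem_append]
    exact Or.inl (pth_mem_right T z a')
  obtain ⟨h4, h5⟩ := hn
  constructor
  · have h6 : (pth T v a').length ≤ (pth T v z).length := by
      rw [pth_length, pth_length, dst_symm T v a', dst_symm T v z, dst_add T h3]
      omega
    have h7 : ((pth T v a').length : ℝ) ≤ ((pth T v z).length : ℝ) := by exact_mod_cast h6
    exact h7.trans h4
  · refine (pm_mono n le_rfl ?_).trans h5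
    rw [p104d_st_rev T a' v, p104d_st_rev T z v]
    intro y hy
    exact spn_sub_of_mem T h3 hy

end Pool.Agent.UST
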