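import Pool.Agent.Helper54.UST.T1
import Pool.Agent.Helper54.UST.TauX
import Pool.Agent.Helper54.UST.AlocE
import Pool.Agent.Helper54.UST.Asy

/-! Paper 10.4: control of the set of few points, and the conditional form of F1, F2. -/

namespace Pool.Agent.UST

open MeasureTheory

theorem spn_Et : ∃ n0 : ℕ, ∀ (n : ℕ) [NeZero n], n0 ≤ n → ∀ Q : ℕ, 1 ≤ Q →
    av (fun T : Tr n => av (fun w : V n => avL (fun L =>
      ind (∃ x, (n : ℝ) ^ ((9 : ℝ) / 4) < Et n (spn T (w :: L)) x)) Q)) ≤ 3 / LL n := by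
  obtain ⟨n0, h⟩ := t1CM
  refine ⟨n0, fun n _ hn Q hQ => le_trans ?_ (h n hn)⟩
  refine av_mono fun T => ?_
  rw [av_comm (fun u v : V n => ind (∃ x, (n : ℝ) ^ ((9 : ℝ) / 4) < Et n (st (pth T u v)) x))]
  refine av_mono fun w => ?_
  rw [← avL_get n (fun u : V n => ind (∃ x, (n : ℝ) ^ ((9 : ℝ) / 4) < Et n (st (pth T u w)) x))
    Q 0 (by omega)]
  refine avL_mono n Q fun L hL => ind_mono ?_
  rintro ⟨x, hx⟩
  refine ⟨x, hx.trans_le (Et_mono n ⟨w, pth_mem_right T _ w⟩ ?_ x)⟩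
  intro y hy
  cases L with
  | nil => simp at hL; omega
  | cons a L' =>
    refine ⟨a, by simp, ?_⟩
    exact hy

theorem spn_i0 : ∃ C : ℝ, 0 < C ∧ ∃ n0 : ℕ, ∀ (n : ℕ) [NeZero n], n0 ≤ n → ∀ Q : ℕ, 1 ≤ Q →
    av (fun T : Tr n => av (fun w : V n => avL (fun L =>
      pm n (i0 n) (spn T (w :: L))) Q)) ≤ C * Q / Real.sqrt (LL n) := by
  obtain ⟨C, hC, n1, h⟩ := t1A_spn
  obtain ⟨n2, h2⟩ := t0_kk
  obtain ⟨n3, h3⟩ := sq_le_kk 32 1 one_pos
  obtain ⟨n4, h4⟩ := LL_large 1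
  refine ⟨4 * C, by positivity, max (max n1 n2) (max n3 n4), fun n _ hn Q hQ => ?_⟩
  have hn1 : n1 ≤ n := le_of_max_le_left (le_of_max_le_left hn)
  have hn2 : n2 ≤ n := le_of_max_le_right (le_of_max_le_left hn)
  have hn3 : n3 ≤ n := le_of_max_le_left (le_of_max_le_right hn)
  have hn4 : n4 ≤ n := le_of_max_le_right (le_of_max_le_right hn)
  have k2 := h2 n hn2
  have k3 := h3 n hn3
  have k4 := h4 n hn4
  have hi : i0 n ≤ t0 n := by
    have h5 := (i0_spec n).1.2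
    have h6 : bb n ≤ n * n := Nat.mul_le_mul_left n (Nat.sqrt_le_self n)
    unfold t0
    nlinarith
  have h8 : 8 * t0 n ≤ kk n := by
    have : ((8 * t0 n : ℕ) : ℝ) ≤ kk n := by
      unfold t0
      push_cast
      linarith
    exact_mod_cast this
  have h9 := h n hn1 (t0 n) Q le_rfl h8 hQ
  have h10 : av (fun T : Tr n => av (fun w : V n => avL (fun L =>
      pm n (i0 n) (spn T (w :: L))) Q)) ≤
      av (fun T : Tr n => avL (fun L => pm n (t0 n) (spn T L)) (Q + 1)) := by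
    refine av_mono fun T => ?_
    show _ ≤ av (fun w : V n => avL (fun L => pm n (t0 n) (spn T (w :: L))) Q)
    refine av_mono fun w => avL_mono n Q fun L _ => ?_
    exact pm_mono n hi (fun _ h => h)
  refine h10.trans (h9.trans ?_)
  have hs : 0 < Real.sqrt (LL n) := Real.sqrt_pos.2 (by linarith)
  have hk : (0 : ℝ) < kk n := by
    have h11 : (0 : ℝ) < n := by exact_mod_cast Nat.pos_of_ne_zero (NeZero.ne n)
    have : 0 < 32 * (n : ℝ) ^ 2 := by positivity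
    linarith
  rw [div_le_div_iff₀ hk hs]
  have h12 : (t0 n : ℝ) * Real.sqrt (LL n) ≤ 4 * kk n := by
    rwa [le_div_iff₀ hs] at k2
  have h13 : 0 ≤ C * Q := by positivity
  calc C * Q * (t0 n : ℝ) * Real.sqrt (LL n) = C * Q * ((t0 n : ℝ) * Real.sqrt (LL n)) := by ring
    _ ≤ C * Q * (4 * kk n) := mul_le_mul_of_nonneg_left h12 h13
    _ = 4 * C * Q * kk n := by ring

end Pool.Agent.UST
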