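import Pool.Agent.Helper54.UST.AlocB
import Pool.Agent.Helper54.UST.P104x
import Pool.Agent.Helper54.UST.F1
import Pool.Agent.Helper54.UST.WStep
import Pool.Agent.Helper54.UST.Spn

/-! Paper 10.4, second claim. -/

namespace Pool.Agent.UST

open MeasureTheory

/-- the event depends on the first `b` choices -/
private theorem p104m_meas_hit (n : ℕ) [NeZero n] (z : V n) (b : ℕ) (B : Set (V n)) :
    MeasurableSet {η : ℕ → DD | ¬ hit (act n) z η 1 b B} := by
  have h := measurable_dep (D := DD) b (fun η : ℕ → DD => ¬ hit (act n) z η 1 b B)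
    (fun η η' h => by
      apply propext
      apply not_congr
      constructor
      · rintro ⟨i, h1, h2, h3⟩
        refine ⟨i, h1, h2, ?_⟩
        rw [← pos_congr (act n) z η η' i (fun j hj => h j (lt_of_lt_of_le hj h2))]
        exact h3
      · rintro ⟨i, h1, h2, h3⟩
        refine ⟨i, h1, h2, ?_⟩
        rw [pos_congr (act n) z η η' i (fun j hj => h j (lt_of_lt_of_le hj h2))]
        exact h3)
  exact measurableSet_setOfPred.2 h

private theorem p104m_meas_prod (n : ℕ) [NeZero n] (z : V n) (A : Set (V n)) (b : ℕ) :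
    MeasurableSet {ω : (ℕ → DD) × (ℕ → DD) |
      ¬ hit (act n) z ω.1 1 b (st (lerw (act n) z ω.2 A))} := by
  have h : {ω : (ℕ → DD) × (ℕ → DD) | ¬ hit (act n) z ω.1 1 b (st (lerw (act n) z ω.2 A))} =
      ⋃ l : List (V n), ({η : ℕ → DD | ¬ hit (act n) z η 1 b (st l)} ×ˢ
        {ω : ℕ → DD | lerw (act n) z ω A = l}) := by
    ext ω
    constructor
    · intro hω
      exact Set.mem_iUnion.2 ⟨lerw (act n) z ω.2 A, hω, rfl⟩
    · intro hω
      obtain ⟨l, h1, h2⟩ := Set.mem_iUnion.1 hω
      have h2' : lerw (act n) z ω.2 A = l := h2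
      have h1' : ¬ hit (act n) z ω.1 1 b (st l) := h1
      show ¬ hit (act n) z ω.1 1 b (st (lerw (act n) z ω.2 A))
      rw [h2']
      exact h1'
  rw [h]
  refine MeasurableSet.iUnion fun l => (p104m_meas_hit n z b (st l)).prod ?_
  exact measurableSet_setOfPred.2 (measurable_lerw (act n) A z (fun l' => (l' = l : Prop)))

private theorem p104m_pr2 (n : ℕ) [NeZero n] (z : V n) (A : Set (V n)) (b : ℕ) :
    ∫ ω, pr {η | ¬ hit (act n) z η 1 b (st (lerw (act n) z ω A))} ∂(mu DD) =
      pr2 {ω | ¬ hit (act n) z ω.1 1 b (st (lerw (act n) z ω.2 A))} := by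
  have hm := p104m_meas_prod n z A b
  unfold pr2
  rw [measureReal_def, Measure.prod_apply_symm hm]
  have h1 : ∀ ω : ℕ → DD, pr {η | ¬ hit (act n) z η 1 b (st (lerw (act n) z ω A))} =
      ((mu DD) ((fun η => (η, ω)) ⁻¹' {ω : (ℕ → DD) × (ℕ → DD) |
        ¬ hit (act n) z ω.1 1 b (st (lerw (act n) z ω.2 A))})).toReal := fun ω => rfl
  simp_rw [h1]
  rw [integral_toReal]
  · exact (measurable_measure_prodMk_right hm).aemeasurable
  · exact Filter.Eventually.of_forall fun ω => measure_lt_top _ _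

/-- the bound for a fixed target -/
private theorem p104m_fixed : ∃ C : ℝ, 0 < C ∧ ∃ n0 : ℕ, ∀ (n : ℕ) [NeZero n], n0 ≤ n →
    ∀ (A : Set (V n)), A.Nonempty →
    av (fun z : V n => pr2 {ω | ¬ hit (act n) z ω.1 1 (bb n) (st (lerw (act n) z ω.2 A))}) ≤
      (aloc n (i0 n) + C / LL n) + (pm n (i0 n) A +
        ind (∃ x, (n : ℝ) ^ ((9 : ℝ) / 4) < Et n A x)) := by
  obtain ⟨C, hC, n0, h⟩ := f1
  obtain ⟨n1, hn1⟩ := LL_large 1
  refine ⟨C, hC, max n0 n1, fun n _ hn A hA => ?_⟩
  have hL : 1 ≤ LL n := hn1 n (le_trans (le_max_right _ _) hn)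
  have hal : 0 ≤ aloc n (i0 n) := aloc_nonneg n (i0 n)
  have hpm : 0 ≤ pm n (i0 n) A := av_nonneg fun y => measureReal_nonneg
  have hCL : 0 ≤ C / LL n := by positivity
  by_cases hE : ∃ x, (n : ℝ) ^ ((9 : ℝ) / 4) < Et n A x
  · rw [ind_true hE]
    have h1 : av (fun z : V n => pr2 {ω |
        ¬ hit (act n) z ω.1 1 (bb n) (st (lerw (act n) z ω.2 A))}) ≤ 1 := by
      refine av_le zero_le_one fun z => ?_
      unfold pr2
      exact measureReal_le_one
    linarith
  · rw [ind_false hE]
    push Not at hE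
    have h1 := h n (le_trans (le_max_left _ _) hn) A hA hE Set.univ 0
    have h2 : ∀ z : V n, pr2 {ω | ¬ hit (act n) z ω.1 1 (bb n) (st (lerw (act n) z ω.2 A)) ∧
        (pos (act n) z ω.2 (tau (act n) z ω.2 A) ∈ (Set.univ : Set (V n)) ∨
          0 < tau (act n) z ω.2 A)} =
        pr2 {ω | ¬ hit (act n) z ω.1 1 (bb n) (st (lerw (act n) z ω.2 A))} := by
      intro z
      congr 1
      ext ω
      constructor
      · intro hω
        exact hω.1
      · intro hω
        exact ⟨hω, Or.inl (Set.mem_univ _)⟩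
    simp only [h2] at h1
    have h3 : av (fun z : V n => pr {ω |
        pos (act n) z ω (tau (act n) z ω A) ∈ (Set.univ : Set (V n)) ∨
          0 < tau (act n) z ω A + i0 n}) ≤ 1 := by
      refine av_le zero_le_one fun z => ?_
      unfold pr
      exact measureReal_le_one
    have h4 := mul_le_mul_of_nonneg_left h3 hal
    linarith

theorem p104_miss : ∃ C : ℝ, 0 < C ∧ ∃ n0 : ℕ, ∀ (n : ℕ) [NeZero n], n0 ≤ n →
    av (fun T : Tr n => av (fun z : V n => av (fun w : V n =>
      pr {ω | ¬ hit (act n) z ω 1 (bb n) (st (pth T z w))}))) ≤ C * LL n ^ (-(1 / 3 : ℝ)) := by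
  obtain ⟨C1, hC1, n1, h1⟩ := p104m_fixed
  obtain ⟨C2, hC2, n2, h2⟩ := aloc_le
  obtain ⟨n3, h3⟩ := spn_Et
  obtain ⟨C4, hC4, n4, h4⟩ := spn_i0
  obtain ⟨n5, h5⟩ := LL_large 1
  refine ⟨C2 + C1 + (C4 + 3), by positivity, max 3 (max n1 (max n2 (max n3 (max n4 n5)))),
    fun n _ hn => ?_⟩
  simp only [max_le_iff] at hn
  obtain ⟨hn3, hn1, hn2, hn3', hn4, hn5⟩ := hn
  have hL : 1 ≤ LL n := h5 n hn5
  have hL0 : 0 < LL n := by linarith
  have := tr_nonempty n hn3
  -- smaller paths are missed more often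
  have s1 : av (fun T : Tr n => av (fun z : V n => av (fun w : V n =>
      pr {ω | ¬ hit (act n) z ω 1 (bb n) (st (pth T z w))}))) ≤
      av (fun T : Tr n => av (fun z : V n => av (fun w : V n => av (fun v : V n =>
        pr {ω | ¬ hit (act n) z ω 1 (bb n) (st (brn T [w, v] z))})))) := by
    refine av_mono fun T => av_mono fun z => av_mono fun w => ?_
    rw [← av_const (α := V n) (pr {ω | ¬ hit (act n) z ω 1 (bb n) (st (pth T z w))})]
    refine av_mono fun v => ?_
    unfold pr
    refine measureReal_mono ?_ (measure_ne_top _ _)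
    intro ω hω
    have hω' : ¬ hit (act n) z ω 1 (bb n) (st (pth T z w)) := hω
    show ¬ hit (act n) z ω 1 (bb n) (st (brn T [w, v] z))
    rintro ⟨i, hi1, hi2, hi3⟩
    apply hω'
    refine ⟨i, hi1, hi2, ?_⟩
    have hpre : brn T [w, v] z <+: pth T z w := brn_prefix T [w, v] z
    exact hpre.subset hi3
  refine s1.trans ?_
  -- Wilson step
  have s2 : ∀ z w v : V n,
      av (fun T : Tr n => pr {ω | ¬ hit (act n) z ω 1 (bb n) (st (brn T [w, v] z))}) =
      av (fun T : Tr n => pr2 {ω |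
        ¬ hit (act n) z ω.1 1 (bb n) (st (lerw (act n) z ω.2 (spn T [w, v])))}) := by
    intro z w v
    have h := wilson_step n hn3 [w, v] (by simp) z
      (fun _ l => pr {ω | ¬ hit (act n) z ω 1 (bb n) (st l)}) (fun _ _ _ => rfl)
    rw [h]
    congr 1
    ext T
    exact p104m_pr2 n z (spn T [w, v]) (bb n)
  have s3 : av (fun T : Tr n => av (fun z : V n => av (fun w : V n => av (fun v : V n =>
        pr {ω | ¬ hit (act n) z ω 1 (bb n) (st (brn T [w, v] z))})))) =
      av (fun T : Tr n => av (fun w : V n => av (fun v : V n => av (fun z : V n =>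
        pr2 {ω | ¬ hit (act n) z ω.1 1 (bb n) (st (lerw (act n) z ω.2 (spn T [w, v])))})))) := by
    calc av (fun T : Tr n => av (fun z : V n => av (fun w : V n => av (fun v : V n =>
        pr {ω | ¬ hit (act n) z ω 1 (bb n) (st (brn T [w, v] z))}))))
        = av (fun z : V n => av (fun w : V n => av (fun v : V n => av (fun T : Tr n =>
          pr {ω | ¬ hit (act n) z ω 1 (bb n) (st (brn T [w, v] z))})))) := by
          rw [av_comm]
          congr 1
          ext z
          rw [av_comm]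
          congr 1
          ext w
          rw [av_comm]
      _ = av (fun z : V n => av (fun w : V n => av (fun v : V n => av (fun T : Tr n =>
          pr2 {ω | ¬ hit (act n) z ω.1 1 (bb n)
            (st (lerw (act n) z ω.2 (spn T [w, v])))})))) := by
          simp only [s2]
      _ = av (fun w : V n => av (fun v : V n => av (fun T : Tr n => av (fun z : V n =>
          pr2 {ω | ¬ hit (act n) z ω.1 1 (bb n)
            (st (lerw (act n) z ω.2 (spn T [w, v])))})))) := by
          rw [av_comm]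
          congr 1
          ext w
          rw [av_comm]
          congr 1
          ext v
          rw [av_comm]
      _ = av (fun T : Tr n => av (fun w : V n => av (fun v : V n => av (fun z : V n =>
          pr2 {ω | ¬ hit (act n) z ω.1 1 (bb n)
            (st (lerw (act n) z ω.2 (spn T [w, v])))})))) := by
          symm
          rw [av_comm]
          congr 1
          ext w
          rw [av_comm]
  rw [s3]
  -- the bound for fixed `T`, `w`, `v`
  have s4 : av (fun T : Tr n => av (fun w : V n => av (fun v : V n => av (fun z : V n =>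
        pr2 {ω | ¬ hit (act n) z ω.1 1 (bb n) (st (lerw (act n) z ω.2 (spn T [w, v])))})))) ≤
      av (fun T : Tr n => av (fun w : V n => av (fun v : V n =>
        (aloc n (i0 n) + C1 / LL n) + (pm n (i0 n) (spn T [w, v]) +
        ind (∃ x, (n : ℝ) ^ ((9 : ℝ) / 4) < Et n (spn T [w, v]) x))))) := by
    refine av_mono fun T => av_mono fun w => av_mono fun v => ?_
    exact h1 n hn1 (spn T [w, v]) (spn_nonempty T (by simp))
  refine s4.trans ?_
  have s5 : av (fun T : Tr n => av (fun w : V n => av (fun v : V n =>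
        (aloc n (i0 n) + C1 / LL n) + (pm n (i0 n) (spn T [w, v]) +
        ind (∃ x, (n : ℝ) ^ ((9 : ℝ) / 4) < Et n (spn T [w, v]) x))))) =
      (aloc n (i0 n) + C1 / LL n) +
      (av (fun T : Tr n => av (fun w : V n => av (fun v : V n => pm n (i0 n) (spn T [w, v])))) +
      av (fun T : Tr n => av (fun w : V n => av (fun v : V n =>
        ind (∃ x, (n : ℝ) ^ ((9 : ℝ) / 4) < Et n (spn T [w, v]) x))))) := by
    simp only [av_add, av_const]
  rw [s5]
  have s6 : av (fun T : Tr n => av (fun w : V n => av (fun v : V n =>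
      pm n (i0 n) (spn T [w, v])))) ≤ C4 / Real.sqrt (LL n) := by
    have := h4 n hn4 1 le_rfl
    simp only [avL, Nat.cast_one, mul_one] at this
    exact this
  have s7 : av (fun T : Tr n => av (fun w : V n => av (fun v : V n =>
        ind (∃ x, (n : ℝ) ^ ((9 : ℝ) / 4) < Et n (spn T [w, v]) x)))) ≤ 3 / LL n := by
    have := h3 n hn3' 1 le_rfl
    simp only [avL] at this
    exact this
  have s8 := h2 n hn2
  -- comparison of the powers
  have t1 : (LL n)⁻¹ ≤ LL n ^ (-(1 / 3 : ℝ)) := by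
    rw [← Real.rpow_neg_one]
    exact Real.rpow_le_rpow_of_exponent_le hL (by norm_num)
  have t2 : (Real.sqrt (LL n))⁻¹ ≤ LL n ^ (-(1 / 3 : ℝ)) := by
    rw [Real.sqrt_eq_rpow, ← Real.rpow_neg hL0.le]
    exact Real.rpow_le_rpow_of_exponent_le hL (by norm_num)
  have t3 : C1 / LL n ≤ C1 * LL n ^ (-(1 / 3 : ℝ)) := by
    rw [div_eq_mul_inv]
    exact mul_le_mul_of_nonneg_left t1 hC1.le
  have t4 : C4 / Real.sqrt (LL n) ≤ C4 * LL n ^ (-(1 / 3 : ℝ)) := by
    rw [div_eq_mul_inv]
    exact mul_le_mul_of_nonneg_left t2 hC4.le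
  have t5 : 3 / LL n ≤ 3 * LL n ^ (-(1 / 3 : ℝ)) := by
    rw [div_eq_mul_inv]
    exact mul_le_mul_of_nonneg_left t1 (by norm_num)
  calc (aloc n (i0 n) + C1 / LL n) +
      (av (fun T : Tr n => av (fun w : V n => av (fun v : V n => pm n (i0 n) (spn T [w, v])))) +
      av (fun T : Tr n => av (fun w : V n => av (fun v : V n =>
        ind (∃ x, (n : ℝ) ^ ((9 : ℝ) / 4) < Et n (spn T [w, v]) x)))))
      ≤ (C2 * LL n ^ (-(1 / 3 : ℝ)) + C1 * LL n ^ (-(1 / 3 : ℝ))) +
        (C4 * LL n ^ (-(1 / 3 : ℝ)) + 3 * LL n ^ (-(1 / 3 : ℝ))) :=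
        add_le_add (add_le_add s8 t3) (add_le_add (s6.trans t4) (s7.trans t5))
    _ = (C2 + C1 + (C4 + 3)) * LL n ^ (-(1 / 3 : ℝ)) := by ring

end Pool.Agent.UST
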