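import Pool.Agent.Helper54.UST.Block
import Pool.Agent.Helper54.UST.T1

/-! Paper Proposition S1: the levels of the skeleton. -/

namespace Pool.Agent.UST

open MeasureTheory

section s1aux

theorem s1_Kl_diff (C : ℝ) (hC : 1 ≤ C) (i : ℕ) :
    (Kl C i : ℝ) + C * 4 ^ i * (3 * i + 6) ≤ (Kl C (i + 1) : ℝ) := by
  have h1 : (Kl C i : ℝ) < C * ((i : ℝ) + 1) * 4 ^ i + 1 := by
    unfold Kl
    apply Nat.ceil_lt_add_one
    positivity
  have h2 : C * (((i + 1 : ℕ) : ℝ) + 1) * 4 ^ (i + 1) ≤ (Kl C (i + 1) : ℝ) := by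
    unfold Kl
    exact Nat.le_ceil _
  have h3 : (1 : ℝ) ≤ C * 4 ^ i := by
    have h4 : (1 : ℝ) ≤ 4 ^ i := one_le_pow₀ (by norm_num)
    nlinarith
  push_cast at h2
  have h5 : C * ((i : ℝ) + 1 + 1) * 4 ^ (i + 1) = C * 4 ^ i * (4 * i + 8) := by ring
  rw [h5] at h2
  nlinarith

theorem s1_Kl_le_succ (C : ℝ) (hC : 1 ≤ C) (i : ℕ) : Kl C i ≤ Kl C (i + 1) := by
  have h := s1_Kl_diff C hC i
  have h1 : (0 : ℝ) ≤ C * 4 ^ i * (3 * i + 6) := by positivity
  have h2 : (Kl C i : ℝ) ≤ (Kl C (i + 1) : ℝ) := by linarith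
  exact_mod_cast h2

theorem s1_Kl_mono (C : ℝ) (hC : 1 ≤ C) : Monotone (Kl C) :=
  monotone_nat_of_le_succ (s1_Kl_le_succ C hC)

theorem s1_one_le_Kl (C : ℝ) (hC : 1 ≤ C) (i : ℕ) : 1 ≤ Kl C i := by
  have h : 1 ≤ Kl C 0 := by
    unfold Kl
    rw [Nat.one_le_ceil_iff]
    simp
    linarith
  exact h.trans (s1_Kl_mono C hC (Nat.zero_le i))

/-- the exponent of one level -/
theorem s1_exponent (c B C : ℝ) (hc : 0 < c) (hB : 1 ≤ B) (hC : 1 ≤ C) (i : ℕ) :
    c * C / 2 * ((i : ℝ) + 2) ≤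
      c * (B / 2 ^ (i + 1)) ^ 2 * ((Kl C (i + 1) - Kl C i : ℕ) : ℝ) := by
  have h1 := s1_Kl_diff C hC i
  rw [Nat.cast_sub (s1_Kl_le_succ C hC i)]
  have h2 : C * 4 ^ i * (3 * i + 6) ≤ (Kl C (i + 1) : ℝ) - (Kl C i : ℝ) := by linarith
  have h3 : (0 : ℝ) < c * (B / 2 ^ (i + 1)) ^ 2 := by positivity
  have h4 : c * (B / 2 ^ (i + 1)) ^ 2 * (C * 4 ^ i * (3 * i + 6)) ≤
      c * (B / 2 ^ (i + 1)) ^ 2 * ((Kl C (i + 1) : ℝ) - (Kl C i : ℝ)) :=
    mul_le_mul_of_nonneg_left h2 h3.le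
  refine le_trans ?_ h4
  have h5 : (2 : ℝ) ^ (i + 1) * 2 ^ (i + 1) = 4 * 4 ^ i := by
    rw [← mul_pow]; norm_num; ring
  have h6 : c * (B / 2 ^ (i + 1)) ^ 2 * (C * 4 ^ i * (3 * i + 6)) =
      c * C * B ^ 2 * (3 * i + 6) / 4 := by
    rw [div_pow, pow_two ((2 : ℝ) ^ (i + 1)), h5]
    have h7 : (4 : ℝ) ^ i ≠ 0 := by positivity
    field_simp
  rw [h6]
  have h8 : 1 ≤ B ^ 2 := by nlinarith
  have h9 : 0 < c * C := by positivity
  have h10 : (0 : ℝ) ≤ i := Nat.cast_nonneg i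
  have h11 : c * C * (3 * (i : ℝ) + 6) ≤ c * C * B ^ 2 * (3 * i + 6) := by
    have : c * C * 1 ≤ c * C * B ^ 2 := mul_le_mul_of_nonneg_left h8 h9.le
    have h12 : (0 : ℝ) ≤ 3 * i + 6 := by positivity
    nlinarith
  nlinarith

theorem s1_choose_C (c δ : ℝ) (hc : 0 < c) (hδ : 0 < δ) :
    ∃ C : ℝ, 1 ≤ C ∧ Real.exp (-(c * C / 2)) ≤ δ := by
  refine ⟨max 1 (2 / c * (-Real.log δ)), le_max_left _ _, ?_⟩
  rw [← Real.exp_log hδ]
  apply Real.exp_le_exp.2
  rw [Real.exp_log hδ]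
  have h : 2 / c * (-Real.log δ) ≤ max 1 (2 / c * (-Real.log δ)) := le_max_right _ _
  have h1 : c / 2 * (2 / c * (-Real.log δ)) ≤ c / 2 * max 1 (2 / c * (-Real.log δ)) :=
    mul_le_mul_of_nonneg_left h (by positivity)
  have h2 : c / 2 * (2 / c * (-Real.log δ)) = -Real.log δ := by
    field_simp
  linarith

/-- first level -/
theorem s1_first (n : ℕ) [NeZero n] (B : ℝ) (K : ℕ) (hK : 2 ≤ K) (a : ℕ) (ha : 2 ≤ a) :
    av (fun T : Tr n => avL (fun L => ind (B * kk n < MA n (spn T (L.take a)))) K) ≤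
      av (fun T : Tr n => av (fun u : V n => av (fun v : V n =>
        ind (∃ x, B * kk n < Et n (st (pth T u v)) x)))) := by
  refine av_mono fun T => ?_
  have h1 : avL (fun L => ind (B * kk n < MA n (spn T (L.take a)))) K ≤
      avL (fun L => (fun L' => ind (B * kk n < MA n (spn T L'))) (L.take 2)) K := by
    apply avL_mono
    intro L hL
    apply ind_mono
    intro h
    refine lt_of_lt_of_le h ?_
    have hne : L.take 2 ≠ [] := by
      intro h0
      have := congrArg List.length h0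
      rw [List.length_take, hL, List.length_nil] at this
      omega
    apply MA_mono n _ (spn_nonempty T hne)
    apply spn_mono T hne
    exact List.take_prefix_take_left ha
  refine h1.trans ?_
  obtain ⟨b, rfl⟩ := Nat.exists_eq_add_of_le hK
  rw [avL_take n (fun L' => ind (B * kk n < MA n (spn T L'))) 2 b]
  have h2 : avL (fun L' => ind (B * kk n < MA n (spn T L'))) 2 =
      av (fun v : V n => av (fun u : V n => ind (B * kk n < MA n (spn T [v, u])))) := rfl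
  rw [h2, av_comm (fun u v : V n => ind (∃ x, B * kk n < Et n (st (pth T u v)) x))]
  refine av_mono fun v => av_mono fun u => ?_
  rw [spn_pair]
  apply ind_mono
  intro h
  by_contra hcon
  push Not at hcon
  exact absurd (MA_le_of_Et n _ ⟨u, pth_mem_left T u v⟩ _ hcon) (not_le.2 h)

/-- one level -/
theorem s1_level (n : ℕ) [NeZero n] (hn : 3 ≤ n) (s t p : ℝ) (hp : 0 ≤ p) (a m K : ℕ) (ha : 1 ≤ a)
    (hK : a + m ≤ K)
    (hblock : ∀ A : Set (V n), A.Nonempty → MA n A ≤ s →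
      ((kop n)^[m] (fun S => ind (t < MA n S))) A ≤ p) :
    av (fun T : Tr n => avL (fun L =>
      ind (¬ s < MA n (spn T (L.take a)) ∧ t < MA n (spn T (L.take (a + m))))) K) ≤ p := by
  obtain ⟨b, rfl⟩ := Nat.exists_eq_add_of_le hK
  have h1 : (fun T : Tr n => avL (fun L =>
      ind (¬ s < MA n (spn T (L.take a)) ∧ t < MA n (spn T (L.take (a + m))))) (a + m + b)) =
      (fun T : Tr n => avL (fun L => (fun S : Set (V n) => ind (¬ s < MA n S)) (spn T (L.take a)) *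
        (fun S : Set (V n) => ind (t < MA n S)) (spn T L)) (a + m)) := by
    funext T
    rw [← avL_take n (fun L => (fun S : Set (V n) => ind (¬ s < MA n S)) (spn T (L.take a)) *
        (fun S : Set (V n) => ind (t < MA n S)) (spn T L)) (a + m) b]
    congr 1
    funext L
    rw [ind_and, List.take_take, min_eq_left (by omega)]
  rw [h1]
  refine le_trans (le_of_eq (chain_law n hn a m ha (fun S : Set (V n) => ind (¬ s < MA n S))
    (fun S : Set (V n) => ind (t < MA n S)))) ?_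
  refine av_le hp fun T => ?_
  rw [← avL_const n p a]
  apply avL_mono
  intro L hL
  have hne : L ≠ [] := by
    intro h0
    rw [h0] at hL
    simp at hL
    omega
  by_cases h : s < MA n (spn T L)
  · rw [ind_false (not_not.2 h), zero_mul]
    exact hp
  · rw [ind_true h, one_mul]
    exact hblock _ (spn_nonempty T hne) (not_lt.1 h)

theorem s1_exists_step (P : ℕ → Prop) (im : ℕ) (h : ∃ i, i ≤ im ∧ P i) :
    P 0 ∨ ∃ i ∈ Finset.range im, ¬ P i ∧ P (i + 1) := by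
  classical
  by_contra hcon
  push Not at hcon
  obtain ⟨h0, h1⟩ := hcon
  obtain ⟨i, hi, hP⟩ := h
  have : ∀ j, j ≤ i → ¬ P j := by
    intro j
    induction j with
    | zero => intro _; exact h0
    | succ j ih =>
      intro hj
      exact h1 j (Finset.mem_range.2 (by omega)) (ih (by omega))
  exact this i le_rfl hP

end s1aux

theorem skeleton (ε : ℝ) (hε : 0 < ε) : ∃ B : ℝ, 1 ≤ B ∧ ∃ C : ℝ, 1 ≤ C ∧ ∃ C' : ℝ, 1 ≤ C' ∧
    ∃ n0 : ℕ, ∀ (n : ℕ) [NeZero n], n0 ≤ n → ∀ im : ℕ, C' * (n : ℝ) ^ 2 ≤ B / 2 ^ im * kk n →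
    av (fun T : Tr n => avL (fun L =>
      ind (∃ i, i ≤ im ∧ B / 2 ^ i * kk n < MA n (spn T (L.take (Kl C i + 1)))))
        (Kl C im + 1)) ≤ ε := by
  obtain ⟨B, hB, n1, hn1⟩ := t1M (ε / 2) (by positivity)
  obtain ⟨c, hc, Cb, hCb, n2, hn2⟩ := block B hB
  obtain ⟨C, hC, hq⟩ := s1_choose_C c (min (1 / 2) (ε / 8)) hc (by positivity)
  refine ⟨B, hB, C, hC, max 1 Cb, le_max_left _ _, max (max n1 n2) 3, ?_⟩
  intro n _ hn im him
  have hnn1 : n1 ≤ n := le_trans (le_trans (le_max_left _ _) (le_max_left _ _)) hn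
  have hnn2 : n2 ≤ n := le_trans (le_trans (le_max_right _ _) (le_max_left _ _)) hn
  have hn3 : 3 ≤ n := le_trans (le_max_right _ _) hn
  have hkk : (0 : ℝ) ≤ kk n := Nat.cast_nonneg _
  set q : ℝ := Real.exp (-(c * C / 2)) with hqdef
  have hq0 : 0 < q := Real.exp_pos _
  have hq1 : q ≤ 1 / 2 := hq.trans (min_le_left _ _)
  have hq2 : q ≤ ε / 8 := hq.trans (min_le_right _ _)
  -- the union bound
  have hU : av (fun T : Tr n => avL (fun L =>
      ind (∃ i, i ≤ im ∧ B / 2 ^ i * kk n < MA n (spn T (L.take (Kl C i + 1)))))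
        (Kl C im + 1)) ≤
      av (fun T : Tr n => avL (fun L =>
        ind (B * kk n < MA n (spn T (L.take (Kl C 0 + 1))))) (Kl C im + 1)) +
      ∑ i ∈ Finset.range im, av (fun T : Tr n => avL (fun L =>
        ind (¬ B / 2 ^ i * kk n < MA n (spn T (L.take (Kl C i + 1))) ∧
          B / 2 ^ (i + 1) * kk n < MA n (spn T (L.take (Kl C i + 1 +
            (Kl C (i + 1) - Kl C i)))))) (Kl C im + 1)) := by
    rw [← av_sum, ← av_add]
    refine av_mono fun T => ?_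
    rw [← avL_sum, ← avL_add_fn]
    apply avL_mono
    intro L hL
    have h1 : ind (∃ i, i ≤ im ∧ B / 2 ^ i * kk n < MA n (spn T (L.take (Kl C i + 1)))) ≤
        ind ((B / 2 ^ 0 * kk n < MA n (spn T (L.take (Kl C 0 + 1)))) ∨
          ∃ i ∈ Finset.range im, ¬ B / 2 ^ i * kk n < MA n (spn T (L.take (Kl C i + 1))) ∧
            B / 2 ^ (i + 1) * kk n < MA n (spn T (L.take (Kl C (i + 1) + 1)))) :=
      ind_mono fun h => s1_exists_step
        (fun i => B / 2 ^ i * kk n < MA n (spn T (L.take (Kl C i + 1)))) im h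
    refine h1.trans ((ind_or_le _ _).trans ?_)
    apply add_le_add
    · rw [pow_zero, div_one]
    · refine (ind_exists_le _ _).trans (Finset.sum_le_sum fun i _ => le_of_eq ?_)
      have : Kl C i + 1 + (Kl C (i + 1) - Kl C i) = Kl C (i + 1) + 1 := by
        have := s1_Kl_le_succ C hC i
        omega
      rw [this]
  refine hU.trans ?_
  have hfirst : av (fun T : Tr n => avL (fun L =>
      ind (B * kk n < MA n (spn T (L.take (Kl C 0 + 1))))) (Kl C im + 1)) ≤ ε / 2 := by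
    refine (s1_first n B _ ?_ _ ?_).trans (hn1 n hnn1)
    · have := s1_one_le_Kl C hC im
      omega
    · have := s1_one_le_Kl C hC 0
      omega
  have hlev : ∀ i ∈ Finset.range im, av (fun T : Tr n => avL (fun L =>
        ind (¬ B / 2 ^ i * kk n < MA n (spn T (L.take (Kl C i + 1))) ∧
          B / 2 ^ (i + 1) * kk n < MA n (spn T (L.take (Kl C i + 1 +
            (Kl C (i + 1) - Kl C i)))))) (Kl C im + 1)) ≤ ε / 8 * (1 / 2) ^ i := by
    intro i hi
    rw [Finset.mem_range] at hi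
    have hB0 : 0 < B := by linarith
    have hξ0 : 0 < B / 2 ^ (i + 1) := by positivity
    have hξB : B / 2 ^ (i + 1) ≤ B := div_le_self hB0.le (one_le_pow₀ (by norm_num))
    have hξn : Cb * (n : ℝ) ^ 2 ≤ B / 2 ^ (i + 1) * kk n := by
      have h1 : Cb * (n : ℝ) ^ 2 ≤ max 1 Cb * (n : ℝ) ^ 2 :=
        mul_le_mul_of_nonneg_right (le_max_right _ _) (by positivity)
      have h2 : B / 2 ^ im * kk n ≤ B / 2 ^ (i + 1) * kk n := by
        apply mul_le_mul_of_nonneg_right _ hkk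
        apply div_le_div_of_nonneg_left hB0.le (by positivity)
        exact pow_le_pow_right₀ (by norm_num) (by omega)
      linarith
    have hstep := s1_level n hn3 (B / 2 ^ i * kk n) (B / 2 ^ (i + 1) * kk n)
      (2 * q ^ (i + 2)) (by positivity) (Kl C i + 1) (Kl C (i + 1) - Kl C i) (Kl C im + 1)
      (by omega)
      (by
        have h1 := s1_Kl_le_succ C hC i
        have h2 := s1_Kl_mono C hC (show i + 1 ≤ im by omega)
        omega)
      (by
        intro A hA hMA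
        have h1 := hn2 n hnn2 (B / 2 ^ (i + 1)) hξ0 hξB hξn A hA
          (by
            refine hMA.trans (le_of_eq ?_)
            rw [pow_succ]
            field_simp) (Kl C (i + 1) - Kl C i)
        refine h1.trans ?_
        have h2 : Real.exp (-(c * (B / 2 ^ (i + 1)) ^ 2 * ((Kl C (i + 1) - Kl C i : ℕ) : ℝ))) ≤
            q ^ (i + 2) := by
          rw [hqdef, ← Real.exp_nat_mul]
          apply Real.exp_le_exp.2
          have h3 := s1_exponent c B C hc hB hC i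
          push_cast
          linarith
        linarith)
    refine hstep.trans ?_
    have h4 : q ^ (i + 2) = q * q ^ (i + 1) := by ring
    have h5 : q ^ (i + 1) ≤ (1 / 2 : ℝ) ^ (i + 1) := pow_le_pow_left₀ hq0.le hq1 _
    have h6 : q * q ^ (i + 1) ≤ ε / 8 * (1 / 2 : ℝ) ^ (i + 1) :=
      mul_le_mul hq2 h5 (by positivity) (by positivity)
    rw [h4]
    have h7 : ε / 8 * (1 / 2 : ℝ) ^ (i + 1) * 2 = ε / 8 * (1 / 2 : ℝ) ^ i := by
      rw [pow_succ]; ring
    linarith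
  have hsum : ∑ i ∈ Finset.range im, ε / 8 * (1 / 2 : ℝ) ^ i ≤ ε / 4 := by
    rw [← Finset.mul_sum]
    have := sum_geometric_two_le im
    nlinarith
  have := Finset.sum_le_sum hlev
  linarith

theorem s1_kk_large (D : ℝ) : ∃ n0 : ℕ, ∀ n : ℕ, n0 ≤ n → D * (n : ℝ) ^ 2 ≤ kk n := by
  refine ⟨⌈Real.exp (D ^ 2)⌉₊ + 1, fun n hn => ?_⟩
  have h1 : Real.exp (D ^ 2) ≤ n := by
    have h2 : Real.exp (D ^ 2) ≤ (⌈Real.exp (D ^ 2)⌉₊ : ℝ) := Nat.le_ceil _
    have h3 : ((⌈Real.exp (D ^ 2)⌉₊ + 1 : ℕ) : ℝ) ≤ n := by exact_mod_cast hn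
    push_cast at h3
    linarith
  have h4 : D ^ 2 ≤ LL n := by
    unfold LL
    rw [← Real.log_exp (D ^ 2)]
    exact Real.log_le_log (Real.exp_pos _) h1
  have h5 : D ≤ Real.sqrt (LL n) := Real.le_sqrt_of_sq_le h4
  have h6 : (n : ℝ) ^ 2 * Real.sqrt (LL n) ≤ kk n := by
    unfold kk
    exact Nat.le_ceil _
  have h7 : D * (n : ℝ) ^ 2 ≤ (n : ℝ) ^ 2 * Real.sqrt (LL n) := by
    rw [mul_comm]
    exact mul_le_mul_of_nonneg_left h5 (by positivity)
  linarith

/-- paper (S1') -/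
theorem skeleton' (ξ ε : ℝ) (hξ : 0 < ξ) (hε : 0 < ε) : ∃ K0 n0 : ℕ, ∀ (n : ℕ) [NeZero n],
    n0 ≤ n → ∀ K : ℕ, K0 ≤ K →
    av (fun T : Tr n => avL (fun L => ind (ξ * kk n < MA n (spn T L))) (K + 1)) ≤ ε := by
  obtain ⟨B, hB, C, hC, C', hC', n1, hn1⟩ := skeleton ε hε
  obtain ⟨im, him⟩ : ∃ im : ℕ, B / 2 ^ im ≤ ξ := by
    obtain ⟨im, him⟩ := pow_unbounded_of_one_lt (B / ξ) (by norm_num : (1 : ℝ) < 2)
    refine ⟨im, ?_⟩
    rw [div_le_iff₀ (by positivity)]
    rw [div_lt_iff₀ hξ] at him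
    linarith
  obtain ⟨n2, hn2⟩ := s1_kk_large (C' / (B / 2 ^ im))
  have hB0 : 0 < B := by linarith
  refine ⟨Kl C im, max n1 n2, fun n _ hn K hK => ?_⟩
  have hnn1 : n1 ≤ n := le_trans (le_max_left _ _) hn
  have hnn2 : n2 ≤ n := le_trans (le_max_right _ _) hn
  have hkk : (0 : ℝ) ≤ kk n := Nat.cast_nonneg _
  have hb : 0 < B / 2 ^ im := by positivity
  have h1 : C' * (n : ℝ) ^ 2 ≤ B / 2 ^ im * kk n := by
    have h2 := hn2 n hnn2
    have h3 : (B / 2 ^ im) * (C' / (B / 2 ^ im) * (n : ℝ) ^ 2) ≤ B / 2 ^ im * kk n :=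
      mul_le_mul_of_nonneg_left h2 hb.le
    have h4 : (B / 2 ^ im) * (C' / (B / 2 ^ im) * (n : ℝ) ^ 2) = C' * (n : ℝ) ^ 2 := by
      field_simp
    linarith
  refine le_trans ?_ (hn1 n hnn1 im h1)
  refine av_mono fun T => ?_
  obtain ⟨b, rfl⟩ := Nat.exists_eq_add_of_le hK
  rw [show Kl C im + b + 1 = Kl C im + 1 + b by omega]
  rw [← avL_take n (fun L => ind (∃ i, i ≤ im ∧ B / 2 ^ i * kk n <
    MA n (spn T (L.take (Kl C i + 1))))) (Kl C im + 1) b]
  apply avL_mono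
  intro L hL
  apply ind_mono
  intro h
  refine ⟨im, le_rfl, ?_⟩
  rw [List.take_take, min_self]
  have hne : L.take (Kl C im + 1) ≠ [] := by
    intro h0
    have := congrArg List.length h0
    rw [List.length_take, hL, List.length_nil] at this
    omega
  have h5 : MA n (spn T L) ≤ MA n (spn T (L.take (Kl C im + 1))) :=
    MA_mono n _ (spn_nonempty T hne) (spn_mono T hne (List.take_prefix _ _))
  have h6 : B / 2 ^ im * kk n ≤ ξ * kk n := mul_le_mul_of_nonneg_right him hkk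
  linarith

end Pool.Agent.UST
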