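import Pool.Agent.Helper54.UST.P104qAux
import Pool.Agent.Helper54.UST.P104d
import Pool.Agent.Helper54.UST.P104x
import Pool.Agent.Helper54.UST.P103
import Pool.Agent.Helper54.UST.F1
import Pool.Agent.Helper54.UST.F2
import Pool.Agent.Helper54.UST.WStep
import Pool.Agent.Helper54.UST.S1
import Pool.Agent.Helper54.UST.LemUC
import Pool.Agent.Helper54.UST.TauX

/-! Paper 10.4, with `Q` sampled points. -/

namespace Pool.Agent.UST

open MeasureTheory

namespace P104q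

variable {n : ℕ} [NeZero n]

/-- the event of the loop-erased walk -/
def Ev (ℓ ζ : ℝ) (m : ℕ) (A Bad : Set (V n)) (z : V n) (η : ℕ → DD) (l : List (V n)) : Prop :=
  ¬ hit (act n) z η 1 (bb n) (st l) ∧
    ((ℓ < (l.length : ℝ) ∨ ζ < pm n m (st l)) ∨ ∃ a ∈ A, l.getLast? = some a ∧ a ∈ Bad)

/-- the event that the end is bad -/
def Lst (A Bad : Set (V n)) (l : List (V n)) : Prop := ∃ a ∈ A, l.getLast? = some a ∧ a ∈ Bad

theorem meas_Ev (ℓ ζ : ℝ) (m : ℕ) (A Bad : Set (V n)) (z : V n) (l : List (V n)) :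
    MeasurableSet {η : ℕ → DD | Ev ℓ ζ m A Bad z η l} := by
  have : {η : ℕ → DD | Ev ℓ ζ m A Bad z η l} =
      {η | ¬ hit (act n) z η 1 (bb n) (st l)} ∩
        {_η | (ℓ < (l.length : ℝ) ∨ ζ < pm n m (st l)) ∨
          ∃ a ∈ A, l.getLast? = some a ∧ a ∈ Bad} := rfl
  rw [this]
  exact (meas_hit z _ _ _).inter (MeasurableSet.const _)

theorem int_lerw (A : Set (V n)) (z : V n) (F : List (V n) → ℝ) (hF : ∀ l, |F l| ≤ 1) :
    Integrable (fun ω : ℕ → DD => F (lerw (act n) z ω A)) (mu DD) := by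
  refine Integrable.of_bound (C := 1) ?_ (ae_of_all _ fun ω => ?_)
  · exact (measurable_lerw (act n) A z F).aestronglyMeasurable
  · rw [Real.norm_eq_abs]
    exact hF _

/-- general bound by F1 -/
theorem bound1 (ℓ ζ : ℝ) (m : ℕ) (A Bad : Set (V n)) :
    av (fun z : V n => ∫ ω, pr {η | Ev ℓ ζ m A Bad z η (lerw (act n) z ω A)} ∂(mu DD)) ≤
      av (fun z : V n => pr2 {ω | ¬ hit (act n) z ω.1 1 (bb n) (st (lerw (act n) z ω.2 A)) ∧
        (pos (act n) z ω.2 (tau (act n) z ω.2 A) ∈ (Set.univ : Set (V n)) ∨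
          0 < tau (act n) z ω.2 A)}) := by
  refine av_mono fun z => ?_
  have h1 := (pr2_pair z A (fun η l => Ev ℓ ζ m A Bad z η l) (fun _ => True)
    (fun l => meas_Ev ℓ ζ m A Bad z l) (MeasurableSet.const _)).1
  have h2 : ∫ ω, pr {η | Ev ℓ ζ m A Bad z η (lerw (act n) z ω A)} ∂(mu DD) =
      ∫ ω, pr {η | Ev ℓ ζ m A Bad z η (lerw (act n) z ω A) ∧ True} ∂(mu DD) := by
    simp only [and_true]
  rw [h2, ← h1]
  refine pr2_mn ?_
  rintro ω ⟨h3, -⟩
  exact ⟨h3.1, Or.inl (Set.mem_univ _)⟩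

theorem meas_pos_tau (A : Set (V n)) (z : V n) (Bd : Set (V n)) (t : ℕ) :
    MeasurableSet {ω : ℕ → DD | pos (act n) z ω (tau (act n) z ω A) ∈ Bd ∨
      t < tau (act n) z ω A} := by
  refine measurableSet_setOfPred.2 ?_
  refine measurable_tau (act n) A z
    (fun k ω => (pos (act n) z ω k ∈ Bd ∨ t < k : Prop)) fun k ω ω' h => ?_
  rw [pos_congr (act n) z ω ω' k h]

/-- decomposition of the event -/
theorem bound2 (ℓ ζ : ℝ) (m t : ℕ) (A Bad : Set (V n)) :
    av (fun z : V n => ∫ ω, pr {η | Ev ℓ ζ m A Bad z η (lerw (act n) z ω A)} ∂(mu DD)) ≤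
      av (fun z : V n => pr2 {ω | ¬ hit (act n) z ω.1 1 (bb n) (st (lerw (act n) z ω.2 A)) ∧
        ℓ ≤ ((lerw (act n) z ω.2 A).length : ℝ)}) +
      av (fun z : V n => pr2 {ω | ¬ hit (act n) z ω.1 1 (bb n) (st (lerw (act n) z ω.2 A)) ∧
        (pos (act n) z ω.2 (tau (act n) z ω.2 A) ∈ Bad ∩ A ∨ t < tau (act n) z ω.2 A)}) +
      av (fun z : V n => pr {ω | ζ < pm n m (st (seg (act n) z ω 0 (0 + t)))}) := by
  rw [← av_add, ← av_add]
  refine av_mono fun z => ?_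
  obtain ⟨e1, i1⟩ := pr2_pair z A
    (fun η l => ¬ hit (act n) z η 1 (bb n) (st l) ∧ ℓ ≤ (l.length : ℝ)) (fun _ => True)
    (fun l => (meas_hit z 1 (bb n) (st l)).inter (MeasurableSet.const (ℓ ≤ (l.length : ℝ))))
    (MeasurableSet.const _)
  simp only [and_true] at e1 i1
  obtain ⟨e2, i2⟩ := pr2_pair z A (fun η l => ¬ hit (act n) z η 1 (bb n) (st l))
    (fun ω => pos (act n) z ω (tau (act n) z ω A) ∈ Bad ∩ A ∨ t < tau (act n) z ω A)
    (fun l => meas_hit z 1 (bb n) (st l)) (meas_pos_tau A z (Bad ∩ A) t)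
  have hm3 : MeasurableSet {ω : ℕ → DD | ζ < pm n m (st (seg (act n) z ω 0 (0 + t)))} := by
    refine measurableSet_setOfPred.2 (measurable_dep t
      (fun ω => ζ < pm n m (st (seg (act n) z ω 0 (0 + t)))) fun ω ω' h => ?_)
    rw [seg_congr (act n) z ω ω' 0 (0 + t) (by simpa using h)]
  have e3 := integral_ind (mu DD) (fun ω => ζ < pm n m (st (seg (act n) z ω 0 (0 + t)))) hm3
  have i3 : Integrable (fun ω : ℕ → DD => ind (ζ < pm n m (st (seg (act n) z ω 0 (0 + t)))))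
      (mu DD) := by
    refine Integrable.of_bound (C := 1) ?_ (ae_of_all _ fun ω => ?_)
    · refine Measurable.aestronglyMeasurable ?_
      unfold ind
      exact Measurable.ite hm3 measurable_const measurable_const
    · rw [Real.norm_eq_abs, abs_of_nonneg (ind_nonneg _)]
      exact ind_le_one _
  have hpr3 : pr {ω | ζ < pm n m (st (seg (act n) z ω 0 (0 + t)))} =
      ∫ ω, ind (ζ < pm n m (st (seg (act n) z ω 0 (0 + t)))) ∂(mu DD) := e3.symm
  have i12 : Integrable (fun ω : ℕ → DD => pr {η : ℕ → DD |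
      ¬ hit (act n) z η 1 (bb n) (st (lerw (act n) z ω A)) ∧
        ℓ ≤ ((lerw (act n) z ω A).length : ℝ)} +
      pr {η : ℕ → DD | ¬ hit (act n) z η 1 (bb n) (st (lerw (act n) z ω A)) ∧
        (pos (act n) z ω (tau (act n) z ω A) ∈ Bad ∩ A ∨ t < tau (act n) z ω A)}) (mu DD) :=
    i1.add i2
  rw [e1, e2, hpr3, ← integral_add i1 i2, ← integral_add i12 i3]
  refine integral_mono (int_lerw A z (fun l => pr {η | Ev ℓ ζ m A Bad z η l}) fun l => ?_)
    (i12.add i3) fun ω => ?_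
  · rw [abs_of_nonneg (pr_nn _)]
    exact pr_le1 _
  · beta_reduce
    have n1 := pr_nn {η : ℕ → DD | ¬ hit (act n) z η 1 (bb n) (st (lerw (act n) z ω A)) ∧
      ℓ ≤ ((lerw (act n) z ω A).length : ℝ)}
    have n2 := pr_nn {η : ℕ → DD | ¬ hit (act n) z η 1 (bb n) (st (lerw (act n) z ω A)) ∧
      (pos (act n) z ω (tau (act n) z ω A) ∈ Bad ∩ A ∨ t < tau (act n) z ω A)}
    by_cases h3 : ζ < pm n m (st (seg (act n) z ω 0 (0 + t)))
    · have h4 := pr_le1 {η : ℕ → DD | Ev ℓ ζ m A Bad z η (lerw (act n) z ω A)}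
      rw [ind_true h3]
      linarith
    · rw [ind_false h3, add_zero]
      refine le_trans (pr_mn ?_) (pr_un _ _)
      rintro η ⟨hη1, hη2⟩
      rcases hη2 with (hη2 | hη2) | ⟨a, ha, ha2, ha3⟩
      · exact Or.inl ⟨hη1, hη2.le⟩
      · right
        refine ⟨hη1, Or.inr ?_⟩
        by_contra hcon
        push Not at hcon
        exact h3 (hη2.trans_le (pm_mono n le_rfl (lerw_sub z ω A (by simpa using hcon))))
      · right
        refine ⟨hη1, Or.inl ?_⟩
        rw [lerw_last] at ha2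
        have ha4 : pos (act n) z ω (tau (act n) z ω A) = a := Option.some.inj ha2
        rw [ha4]
        exact ⟨ha3, ha⟩

/-- the probability of a bad end -/
theorem bound3 (t i : ℕ) (A Bad : Set (V n)) (hA : A.Nonempty) (hi : i ≤ t) (c : ℝ)
    (hc : 0 < c) (hct : c ≤ (t : ℝ) + 1 - i) :
    av (fun z : V n => pr {ω | pos (act n) z ω (tau (act n) z ω A) ∈ Bad ∩ A ∨
      t < tau (act n) z ω A + i}) ≤
    av (fun z : V n => ∫ ω, ind (Lst A Bad (lerw (act n) z ω A)) ∂(mu DD)) + MA n A / c := by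
  have h0 : MA n A / c = av (fun z : V n => Et n A z / c) := by
    unfold MA
    simp only [div_eq_mul_inv]
    rw [av_mul_right]
  rw [h0, ← av_add]
  refine av_mono fun z => ?_
  have hsub : {ω : ℕ → DD | pos (act n) z ω (tau (act n) z ω A) ∈ Bad ∩ A ∨
      t < tau (act n) z ω A + i} ⊆
      {ω | Lst A Bad (lerw (act n) z ω A)} ∪ {ω | t + 1 - i ≤ tau (act n) z ω A} := by
    rintro ω (h | h)
    · exact Or.inl ⟨_, h.2, lerw_last z ω A, h.1⟩
    · right
      show t + 1 - i ≤ tau (act n) z ω A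
      omega
  refine (pr_mn hsub).trans ((pr_un _ _).trans (add_le_add ?_ ?_))
  · have hm : MeasurableSet {ω : ℕ → DD | Lst A Bad (lerw (act n) z ω A)} :=
      measurableSet_setOfPred.2 (measurable_lerw (act n) A z (fun l => (Lst A Bad l : Prop)))
    exact le_of_eq (integral_ind (mu DD) (fun ω => Lst A Bad (lerw (act n) z ω A)) hm).symm
  · refine (tau_markov A hA z (t + 1 - i) (by omega)).trans ?_
    have h1 : c ≤ ((t + 1 - i : ℕ) : ℝ) := by
      rw [Nat.cast_sub (by omega)]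
      push_cast
      exact hct
    exact div_le_div_of_nonneg_left (Et_nonneg n A z) hc h1

/-- average over the tree, the root and the list -/
noncomputable def EE (Q : ℕ) (F : Tr n → V n → List (V n) → ℝ) : ℝ :=
  av (fun T : Tr n => av (fun w : V n => avL (fun L => F T w L) Q))

theorem EE_mono (Q : ℕ) {F G : Tr n → V n → List (V n) → ℝ} (h : ∀ T w L, F T w L ≤ G T w L) :
    EE Q F ≤ EE Q G :=
  av_mono fun T => av_mono fun w => avL_mono n Q fun L _ => h T w L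

theorem EE_add (Q : ℕ) (F G : Tr n → V n → List (V n) → ℝ) :
    EE Q (fun T w L => F T w L + G T w L) = EE Q F + EE Q G := by
  unfold EE
  simp only [avL_add_fn, av_add]

theorem EE_mul (Q : ℕ) (c : ℝ) (F : Tr n → V n → List (V n) → ℝ) :
    EE Q (fun T w L => c * F T w L) = c * EE Q F := by
  unfold EE
  simp only [avL_mul_left, av_mul_left]

theorem EE_const (hn : 3 ≤ n) (Q : ℕ) (c : ℝ) :
    EE Q (fun (_ : Tr n) _ _ => c) = c := by
  have := tr_nonempty n hn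
  unfold EE
  simp only [avL_const, av_const]

/-- the bad ends -/
def Bd (h B' ζ : ℝ) (T : Tr n) (L : List (V n)) : Set (V n) :=
  {a | ∀ v ∈ L, v ∉ NBs n h B' ζ T a}

theorem Bd_congr (h B' ζ : ℝ) {T T' : Tr n} {w : V n} {L : List (V n)}
    (hT : ∀ v ∈ w :: L, pth T v ((w :: L).headD 0) = pth T' v ((w :: L).headD 0)) {a : V n}
    (ha : a ∈ spn T (w :: L)) : a ∈ Bd h B' ζ T L ↔ a ∈ Bd h B' ζ T' L := by
  unfold Bd NBs
  simp only [Set.mem_ofPred_eq]
  refine forall₂_congr fun v hv => ?_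
  rw [pth_congr hT (List.mem_cons_of_mem w hv) ha]

theorem Lst_congr (h B' ζ : ℝ) {T T' : Tr n} {w : V n} {L : List (V n)}
    (hT : ∀ v ∈ w :: L, pth T v ((w :: L).headD 0) = pth T' v ((w :: L).headD 0))
    (l : List (V n)) : Lst (spn T (w :: L)) (Bd h B' ζ T L) l ↔
      Lst (spn T' (w :: L)) (Bd h B' ζ T' L) l := by
  unfold Lst
  constructor
  · rintro ⟨a, ha, h1, h2⟩
    exact ⟨a, spn_congr' hT ▸ ha, h1, (Bd_congr h B' ζ hT ha).1 h2⟩
  · rintro ⟨a, ha, h1, h2⟩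
    have ha' : a ∈ spn T (w :: L) := by rw [spn_congr' hT]; exact ha
    exact ⟨a, ha', h1, (Bd_congr h B' ζ hT ha').2 h2⟩

/-- the event of the target is contained in the event of the branch -/
theorem target_le (B' h ζ : ℝ) (T : Tr n) (z w : V n) (L : List (V n)) :
    pr {ω | ¬ hit (act n) z ω 1 (bb n) (st (pth T z w)) ∧ ∀ v ∈ L, v ∉ NBs n h B' ζ T z} ≤
      pr {η | Ev (h / 2 * rr n) (ζ / 2) ⌈B' * kk n⌉₊ (spn T (w :: L))
        (Bd (h / 2) B' (ζ / 2) T L) z η (brn T (w :: L) z)} := by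
  refine pr_mn ?_
  rintro ω ⟨h1, h2⟩
  refine ⟨?_, ?_⟩
  · rintro ⟨i, hi1, hi2, hi3⟩
    refine h1 ⟨i, hi1, hi2, ?_⟩
    exact (brn_prefix T (w :: L) z).subset hi3
  · obtain ⟨a, ha, hb, -, -⟩ := brn_eq T (L := w :: L) (by simp) z
    have hl : (brn T (w :: L) z).getLast? = some a := by
      rw [hb]
      exact pth_last T z a
    rcases nbs_split T w z L h B' ζ h2 with h3 | h3 | h3
    · exact Or.inl (Or.inl h3)
    · exact Or.inl (Or.inr h3)
    · exact Or.inr ⟨a, ha, hl, h3 a hl⟩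

theorem target_le_EE (hn : 3 ≤ n) (B' h ζ : ℝ) (Q : ℕ) :
    av (fun T : Tr n => av (fun z : V n => av (fun w : V n => avL (fun L =>
      pr {ω | ¬ hit (act n) z ω 1 (bb n) (st (pth T z w)) ∧
        ∀ v ∈ L, v ∉ NBs n h B' ζ T z}) Q))) ≤
    EE Q (fun T w L => av (fun z : V n => ∫ ω, pr {η | Ev (h / 2 * rr n) (ζ / 2) ⌈B' * kk n⌉₊
      (spn T (w :: L)) (Bd (h / 2) B' (ζ / 2) T L) z η
        (lerw (act n) z ω (spn T (w :: L)))} ∂(mu DD))) := by
  have h1 : av (fun T : Tr n => av (fun z : V n => av (fun w : V n => avL (fun L =>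
      pr {ω | ¬ hit (act n) z ω 1 (bb n) (st (pth T z w)) ∧
        ∀ v ∈ L, v ∉ NBs n h B' ζ T z}) Q))) ≤
      av (fun T : Tr n => av (fun z : V n => av (fun w : V n => avL (fun L =>
        pr {η | Ev (h / 2 * rr n) (ζ / 2) ⌈B' * kk n⌉₊ (spn T (w :: L))
        (Bd (h / 2) B' (ζ / 2) T L) z η (brn T (w :: L) z)}) Q))) :=
    av_mono fun T => av_mono fun z => av_mono fun w => avL_mono n Q fun L _ =>
      target_le B' h ζ T z w L
  refine h1.trans (le_of_eq ?_)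
  rw [sw (fun T z w L => pr {η | Ev (h / 2 * rr n) (ζ / 2) ⌈B' * kk n⌉₊ (spn T (w :: L))
        (Bd (h / 2) B' (ζ / 2) T L) z η (brn T (w :: L) z)})]
  unfold EE
  rw [← sw2 (fun T z w L => ∫ ω, pr {η | Ev (h / 2 * rr n) (ζ / 2) ⌈B' * kk n⌉₊
      (spn T (w :: L)) (Bd (h / 2) B' (ζ / 2) T L) z η
        (lerw (act n) z ω (spn T (w :: L)))} ∂(mu DD))]
  congr 1
  funext z
  congr 1
  funext w
  congr 1
  funext L
  refine wilson_step n hn (w :: L) (by simp) z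
    (fun T l => pr {η | Ev (h / 2 * rr n) (ζ / 2) ⌈B' * kk n⌉₊ (spn T (w :: L))
        (Bd (h / 2) B' (ζ / 2) T L) z η l}) fun T T' hT => ?_
  funext l
  have : ∀ η : ℕ → DD, Ev (h / 2 * rr n) (ζ / 2) ⌈B' * kk n⌉₊ (spn T (w :: L))
        (Bd (h / 2) B' (ζ / 2) T L) z η l ↔ Ev (h / 2 * rr n) (ζ / 2) ⌈B' * kk n⌉₊
        (spn T' (w :: L)) (Bd (h / 2) B' (ζ / 2) T' L) z η l := fun η =>
    and_congr_right fun _ => or_congr_right (Lst_congr (h / 2) B' (ζ / 2) hT l)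
  simp only [this]

theorem lst_EE (hn : 3 ≤ n) (B' h ζ : ℝ) (Q : ℕ) :
    EE Q (fun T w L => av (fun z : V n => ∫ ω, ind (Lst (spn T (w :: L)) (Bd h B' ζ T L)
        (lerw (act n) z ω (spn T (w :: L)))) ∂(mu DD))) ≤
    av (fun T : Tr n => av (fun z : V n => avL (fun L =>
      ind (∀ v ∈ L, v ∉ NBs n h B' ζ T z)) Q)) := by
  unfold EE
  rw [← sw2 (fun T z w L => ∫ ω, ind (Lst (spn T (w :: L)) (Bd h B' ζ T L)
        (lerw (act n) z ω (spn T (w :: L)))) ∂(mu DD))]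
  have h1 : av (fun z : V n => av (fun w : V n => avL (fun L => av (fun T : Tr n =>
      ∫ ω, ind (Lst (spn T (w :: L)) (Bd h B' ζ T L)
        (lerw (act n) z ω (spn T (w :: L)))) ∂(mu DD))) Q)) =
      av (fun z : V n => av (fun w : V n => avL (fun L => av (fun T : Tr n =>
        ind (Lst (spn T (w :: L)) (Bd h B' ζ T L) (brn T (w :: L) z)))) Q)) := by
    congr 1
    funext z
    congr 1
    funext w
    congr 1
    funext L
    refine (wilson_step n hn (w :: L) (by simp) z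
      (fun T l => ind (Lst (spn T (w :: L)) (Bd h B' ζ T L) l)) fun T T' hT => ?_).symm
    funext l
    simp only [Lst_congr h B' ζ hT l]
  rw [h1, ← sw (fun T z w L => ind (Lst (spn T (w :: L)) (Bd h B' ζ T L) (brn T (w :: L) z)))]
  refine av_mono fun T => av_mono fun z => ?_
  have h2 : avL (fun L => ind (∀ v ∈ L, v ∉ NBs n h B' ζ T z)) Q =
      av (fun _ : V n => avL (fun L => ind (∀ v ∈ L, v ∉ NBs n h B' ζ T z)) Q) :=
    (av_const _).symm
  rw [h2]
  refine av_mono fun w => avL_mono n Q fun L _ => ind_mono ?_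
  rintro ⟨a, -, ha2, ha3⟩ v hv hv2
  exact ha3 v hv (nbs_bad T w z a L h B' ζ ha2 v hv hv2)

/-- the last numerical step -/
theorem num (ε D L : ℝ) (hε : 0 < ε) (hD : 0 ≤ D) (hL : 0 < L) (h : (2 * D / ε) ^ 6 ≤ L) :
    D / Real.sqrt L ≤ ε / 2 * L ^ (-(1 / 3 : ℝ)) := by
  have h1 : 2 * D / ε ≤ L ^ ((1 : ℝ) / 6) := by
    have h2 : 2 * D / ε = ((2 * D / ε) ^ 6) ^ ((1 : ℝ) / 6) := by
      rw [← Real.rpow_natCast, ← Real.rpow_mul (by positivity)]
      norm_num
    rw [h2]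
    exact Real.rpow_le_rpow (by positivity) h (by norm_num)
  have h3 : D ≤ ε / 2 * L ^ ((1 : ℝ) / 6) := by
    rw [div_le_iff₀ hε] at h1
    linarith
  have h4 : Real.sqrt L = L ^ ((1 : ℝ) / 2) := Real.sqrt_eq_rpow L
  rw [h4, div_le_iff₀ (Real.rpow_pos_of_pos hL _), mul_assoc, ← Real.rpow_add hL]
  norm_num at h3 ⊢
  exact h3

end P104q

open P104q

theorem p104q (B' h ζ ε : ℝ) (hB' : 0 < B') (hh : 0 < h) (hζ : 0 < ζ) (hε : 0 < ε) :
    ∃ Q : ℕ, 1 ≤ Q ∧ ∃ n0 : ℕ, ∀ (n : ℕ) [NeZero n], n0 ≤ n →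
    av (fun T : Tr n => av (fun z : V n => av (fun w : V n => avL (fun L =>
      pr {ω | ¬ hit (act n) z ω 1 (bb n) (st (pth T z w)) ∧
        ∀ v ∈ L, v ∉ NBs n h B' ζ T z}) Q))) ≤ ε * LL n ^ (-(1 / 3 : ℝ)) := by
  obtain ⟨Ca, hCa, na, haloc⟩ := aloc_le
  obtain ⟨C1, hC1, n1, hf1⟩ := f1
  obtain ⟨C2, hC2, n2, hf2⟩ := f2
  obtain ⟨Cu, hCu, huc⟩ := lemUC_k
  obtain ⟨Cs, hCs, ns, hspn⟩ := spn_i0
  obtain ⟨nE, hE⟩ := spn_Et
  set θ : ℝ := ζ / (2 * Cu * B') with hθdef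
  have hθ : 0 < θ := by positivity
  set δ : ℝ := ε / (8 * (Ca + 1)) with hδdef
  have hδ : 0 < δ := by positivity
  set ξ : ℝ := min (ε * h / (192 * C2)) (δ * θ / 2) with hξdef
  have hξ : 0 < ξ := lt_min (by positivity) (by positivity)
  obtain ⟨Q0, hQ0, nQ, hQ⟩ := p103 B' (h / 2) (ζ / 2) δ hB' (by positivity) (by positivity) hδ
  obtain ⟨K0, nK, hK⟩ := skeleton' ξ δ hξ hδ
  set Q : ℕ := max Q0 K0 with hQdef
  have hQ1 : 1 ≤ Q := hQ0.trans (le_max_left _ _)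
  obtain ⟨nu, hu⟩ := huc B' θ hB' hθ
  set D : ℝ := 4 + C1 + Cs * Q with hDdef
  have hD : 0 ≤ D := by positivity
  obtain ⟨nL, hL⟩ := LL_large ((2 * D / ε) ^ 6 + 1)
  obtain ⟨ne, he⟩ := exp_small 1 1
  obtain ⟨nr, hr⟩ := rr_kk
  obtain ⟨nx, hx⟩ := sq_le_kk 1 ξ hξ
  obtain ⟨nt, ht⟩ := sq_le_kk 4 θ hθ
  obtain ⟨np, hp⟩ := kk_le_pow (6 * ξ)
  obtain ⟨nb', hb⟩ := bb_bounds
  refine ⟨Q, hQ1, max 3 (max na (max n1 (max n2 (max ns (max nE (max nQ (max nK (max nu
    (max nL (max ne (max nr (max nx (max nt (max np nb')))))))))))))), fun n _ hn => ?_⟩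
  simp only [max_le_iff] at hn
  obtain ⟨hn3, hna, hn1, hn2, hns, hnE, hnQ, hnK, hnu, hnL, hne, hnr, hnx, hnt, hnp, hnb⟩ := hn
  have haloc := haloc n hna
  have hal0 : 0 ≤ aloc n (i0 n) := aloc_nonneg n _
  have hLL := hL n hnL
  have hLL1 : 1 ≤ LL n := by
    have : 0 ≤ (2 * D / ε) ^ 6 := by positivity
    linarith
  have hLL0 : 0 < LL n := by linarith
  have hn0 : (3 : ℝ) ≤ n := by exact_mod_cast hn3
  have hkk0 : 0 < (kk n : ℝ) := by
    have h1 := hx n hnx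
    have h2 : 0 < ξ * kk n := lt_of_lt_of_le (by positivity) h1
    exact (mul_pos_iff_of_pos_left hξ).1 h2
  have hrk := hr n hnr
  have hrr0 : 0 < rr n := by
    unfold rr
    exact mul_pos (by positivity) (Real.rpow_pos_of_pos hLL0 _)
  have hpw0 : 0 < LL n ^ (-(1 / 3 : ℝ)) := Real.rpow_pos_of_pos hLL0 _
  set t : ℕ := ⌊θ * kk n⌋₊ with htdef
  have ht1 : (t : ℝ) ≤ θ * kk n := Nat.floor_le (by positivity)
  have ht2 : θ * kk n < (t : ℝ) + 1 := Nat.lt_floor_add_one _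
  have hi0 : i0 n ≤ 2 * bb n := (i0_spec n).1.2
  have hbn : bb n ≤ n ^ 2 := (hb n hnb).2.2.2.2.2
  have hi1 : 2 * (i0 n : ℝ) ≤ θ * kk n := by
    have h1 : (i0 n : ℝ) ≤ 2 * (n : ℝ) ^ 2 := by
      have : i0 n ≤ 2 * n ^ 2 := hi0.trans (by omega)
      exact_mod_cast this
    have h2 := ht n hnt
    linarith
  have hi2 : i0 n ≤ t := by
    have : (i0 n : ℝ) ≤ θ * kk n := by
      have : (0 : ℝ) ≤ i0 n := Nat.cast_nonneg _
      linarith
    exact Nat.le_floor this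
  -- the bound for one set
  have key : ∀ (A Bad : Set (V n)), A.Nonempty →
      av (fun z : V n => ∫ ω, pr {η | Ev (h / 2 * rr n) (ζ / 2) ⌈B' * kk n⌉₊ A Bad z η
        (lerw (act n) z ω A)} ∂(mu DD)) ≤
      ind (∃ x, (n : ℝ) ^ ((9 : ℝ) / 4) < Et n A x) + aloc n (i0 n) * ind (ξ * kk n < MA n A) +
      aloc n (i0 n) * av (fun z : V n => ∫ ω, ind (Lst A Bad (lerw (act n) z ω A)) ∂(mu DD)) +
      pm n (i0 n) A + (24 * C2 * ξ / h * LL n ^ (-(1 / 3 : ℝ)) +
        Real.exp (-((n : ℝ) ^ ((1 : ℝ) / 4))) + aloc n (i0 n) * (2 * ξ / θ) + C1 / LL n) := by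
    intro A Bad hA
    have p1 : 0 ≤ ind (∃ x, (n : ℝ) ^ ((9 : ℝ) / 4) < Et n A x) := ind_nonneg _
    have p2 : 0 ≤ aloc n (i0 n) * ind (ξ * kk n < MA n A) := mul_nonneg hal0 (ind_nonneg _)
    have p3 : 0 ≤ aloc n (i0 n) *
        av (fun z : V n => ∫ ω, ind (Lst A Bad (lerw (act n) z ω A)) ∂(mu DD)) :=
      mul_nonneg hal0 (av_nonneg fun z => integral_nonneg fun ω => ind_nonneg _)
    have p4 : 0 ≤ pm n (i0 n) A := pm_nonneg _ _ _
    have p5 : 0 ≤ 24 * C2 * ξ / h * LL n ^ (-(1 / 3 : ℝ)) := by positivity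
    have p6 := (Real.exp_pos (-((n : ℝ) ^ ((1 : ℝ) / 4)))).le
    have p7 : 0 ≤ aloc n (i0 n) * (2 * ξ / θ) := mul_nonneg hal0 (by positivity)
    have p8 : 0 ≤ C1 / LL n := by positivity
    by_cases hc1 : ∃ x, (n : ℝ) ^ ((9 : ℝ) / 4) < Et n A x
    · rw [ind_true hc1]
      have h1 : av (fun z : V n => ∫ ω, pr {η | Ev (h / 2 * rr n) (ζ / 2) ⌈B' * kk n⌉₊ A Bad z η
          (lerw (act n) z ω A)} ∂(mu DD)) ≤ 1 := by
        refine av_le zero_le_one fun z => ?_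
        have h2 : ∫ ω, pr {η | Ev (h / 2 * rr n) (ζ / 2) ⌈B' * kk n⌉₊ A Bad z η
          (lerw (act n) z ω A)} ∂(mu DD) ≤ ∫ _ω : ℕ → DD, (1 : ℝ) ∂(mu DD) :=
          integral_mono (int_lerw A z (fun l => pr {η | Ev (h / 2 * rr n) (ζ / 2)
            ⌈B' * kk n⌉₊ A Bad z η l}) fun l => by
              rw [abs_of_nonneg (pr_nn _)]; exact pr_le1 _) (integrable_const _)
            fun ω => pr_le1 _
        rw [integral_const, probReal_univ, one_smul] at h2
        exact h2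
      linarith
    · rw [ind_false hc1]
      push Not at hc1
      have hF1 := hf1 n hn1 A hA hc1
      by_cases hc2 : ξ * kk n < MA n A
      · rw [ind_true hc2]
        have h1 := bound1 (h / 2 * rr n) (ζ / 2) ⌈B' * kk n⌉₊ A Bad
        have h2 := hF1 Set.univ 0
        have h3 : av (fun z : V n => pr {ω |
            pos (act n) z ω (tau (act n) z ω A) ∈ (Set.univ : Set (V n)) ∨
              0 < tau (act n) z ω A + i0 n}) ≤ 1 := av_le zero_le_one fun z => pr_le1 _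
        have h4 := mul_le_mul_of_nonneg_left h3 hal0
        linarith
      · rw [ind_false hc2]
        push Not at hc2
        have h1 := bound2 (h / 2 * rr n) (ζ / 2) ⌈B' * kk n⌉₊ t A Bad
        have h2 := hF1 (Bad ∩ A) t
        have h3 := bound3 t (i0 n) A Bad hA hi2 (θ * kk n / 2) (by positivity) (by linarith)
        have h4 := mul_le_mul_of_nonneg_left h3 hal0
        have h5 : MA n A / (θ * kk n / 2) ≤ 2 * ξ / θ := by
          calc MA n A / (θ * kk n / 2) ≤ ξ * kk n / (θ * kk n / 2) := by gcongr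
            _ = 2 * ξ / θ := by field_simp
        have h6 := mul_le_mul_of_nonneg_left h5 hal0
        have h7 : av (fun z : V n => pr {ω | ζ / 2 <
            pm n ⌈B' * kk n⌉₊ (st (seg (act n) z ω 0 (0 + t)))}) ≤
            Real.exp (-((n : ℝ) ^ ((1 : ℝ) / 4))) := by
          refine av_le p6 fun z => ?_
          have h8 := hu n hnu ⌈B' * kk n⌉₊ t 0 z
            (Nat.ceil_lt_add_one (by positivity)).le (by linarith)
          have h9 : Cu * B' * θ = ζ / 2 := by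
            rw [hθdef]; field_simp
          rw [h9] at h8
          exact h8
        have h10 : av (fun z : V n => pr2 {ω |
            ¬ hit (act n) z ω.1 1 (bb n) (st (lerw (act n) z ω.2 A)) ∧
            h / 2 * rr n ≤ ((lerw (act n) z ω.2 A).length : ℝ)}) ≤
            24 * C2 * ξ / h * LL n ^ (-(1 / 3 : ℝ)) := by
          refine av_le p5 fun z => ?_
          have hxk := hx n hnx
          have hEt : ∀ x, Et n A x ≤ 6 * (ξ * kk n) := fun x =>
            Et_le_of_MA n A hA (ξ * kk n) hc2 (by linarith) x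
          have h60 : (n : ℝ) ^ 2 ≤ 6 * ξ * kk n := by
            have h61 : 6 * ξ * kk n = 6 * (ξ * kk n) := by ring
            have h62 := sq_nonneg (n : ℝ)
            rw [h61]
            linarith
          have h11 := hf2 n hn2 A hA (6 * ξ * kk n) h60 (hp n hnp)
            (fun x => (hEt x).trans (by linarith)) z (h / 2 * rr n) (by positivity)
          refine h11.trans ?_
          rw [div_le_iff₀ (by positivity)]
          have h12 : (kk n : ℝ) * LL n ^ (-(2 / 3 : ℝ)) ≤ 2 * rr n * LL n ^ (-(1 / 3 : ℝ)) := by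
            have h13 := mul_le_mul_of_nonneg_right hrk.2
              (Real.rpow_nonneg hLL0.le (-(2 / 3 : ℝ)))
            have h14 : LL n ^ ((1 : ℝ) / 3) * LL n ^ (-(2 / 3 : ℝ)) = LL n ^ (-(1 / 3 : ℝ)) := by
              rw [← Real.rpow_add hLL0]
              norm_num
            calc (kk n : ℝ) * LL n ^ (-(2 / 3 : ℝ))
                ≤ 2 * (rr n * LL n ^ ((1 : ℝ) / 3)) * LL n ^ (-(2 / 3 : ℝ)) := h13
              _ = 2 * rr n * (LL n ^ ((1 : ℝ) / 3) * LL n ^ (-(2 / 3 : ℝ))) := by ring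
              _ = _ := by rw [h14]
          calc C2 * (6 * ξ * kk n) * LL n ^ (-(2 / 3 : ℝ))
              = 6 * C2 * ξ * (kk n * LL n ^ (-(2 / 3 : ℝ))) := by ring
            _ ≤ 6 * C2 * ξ * (2 * rr n * LL n ^ (-(1 / 3 : ℝ))) := by gcongr
            _ = 24 * C2 * ξ / h * LL n ^ (-(1 / 3 : ℝ)) * (h / 2 * rr n) := by
                field_simp; ring
        linarith
  refine (target_le_EE hn3 B' h ζ Q).trans ?_
  refine (EE_mono Q fun T w L => key (spn T (w :: L)) (Bd (h / 2) B' (ζ / 2) T L)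
    (spn_nonempty T (by simp))).trans ?_
  rw [EE_add, EE_add, EE_add, EE_add, EE_mul, EE_mul, EE_const hn3]
  have a1 : EE Q (fun (T : Tr n) w L => ind (∃ x, (n : ℝ) ^ ((9 : ℝ) / 4) <
      Et n (spn T (w :: L)) x)) ≤ 3 / LL n := hE n hnE Q hQ1
  have a2 : EE Q (fun (T : Tr n) w L => ind (ξ * kk n < MA n (spn T (w :: L)))) ≤ δ :=
    hK n hnK Q (le_max_right _ _)
  have a3 := (lst_EE hn3 B' (h / 2) (ζ / 2) Q).trans (hQ n hnQ Q (le_max_left _ _))
  have a4 : EE Q (fun (T : Tr n) w L => pm n (i0 n) (spn T (w :: L))) ≤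
      Cs * Q / Real.sqrt (LL n) := hspn n hns Q hQ1
  have b2 := mul_le_mul_of_nonneg_left a2 hal0
  have b3 := mul_le_mul_of_nonneg_left a3 hal0
  -- numbers
  have c1 : 24 * C2 * ξ / h ≤ ε / 8 := by
    rw [div_le_iff₀ hh]
    have h1 : ξ ≤ ε * h / (192 * C2) := min_le_left _ _
    rw [le_div_iff₀ (by positivity)] at h1
    linarith
  have c2 : 2 * ξ / θ ≤ δ := by
    rw [div_le_iff₀ hθ]
    have h1 : ξ ≤ δ * θ / 2 := min_le_right _ _
    linarith
  have c3 : Ca * δ ≤ ε / 8 := by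
    rw [hδdef, mul_div_assoc', div_le_div_iff₀ (by positivity) (by norm_num)]
    have h1 : ε * (8 * (Ca + 1)) = Ca * ε * 8 + 8 * ε := by ring
    linarith
  have c4 := num ε D (LL n) hε hD hLL0 (by linarith)
  have c5 : Real.exp (-((n : ℝ) ^ ((1 : ℝ) / 4))) ≤ 1 / LL n := by
    have h1 := he n hne
    rw [one_mul, pow_one] at h1
    refine h1.trans ?_
    have h2 : LL n ≤ n := Real.log_le_self (by linarith)
    exact one_div_le_one_div_of_le hLL0 h2
  have c6 : 1 / LL n ≤ 1 / Real.sqrt (LL n) := by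
    refine one_div_le_one_div_of_le (Real.sqrt_pos.2 hLL0) ?_
    rw [Real.sqrt_le_left hLL0.le, sq]
    have h1 := mul_le_mul_of_nonneg_left hLL1 hLL0.le
    rwa [mul_one] at h1
  have c7 : aloc n (i0 n) * δ ≤ ε / 8 * LL n ^ (-(1 / 3 : ℝ)) := by
    calc aloc n (i0 n) * δ ≤ Ca * LL n ^ (-(1 / 3 : ℝ)) * δ :=
          mul_le_mul_of_nonneg_right haloc hδ.le
      _ = Ca * δ * LL n ^ (-(1 / 3 : ℝ)) := by ring
      _ ≤ _ := mul_le_mul_of_nonneg_right c3 hpw0.le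
  have c8 : aloc n (i0 n) * (2 * ξ / θ) ≤ aloc n (i0 n) * δ := mul_le_mul_of_nonneg_left c2 hal0
  have c9 : 24 * C2 * ξ / h * LL n ^ (-(1 / 3 : ℝ)) ≤ ε / 8 * LL n ^ (-(1 / 3 : ℝ)) :=
    mul_le_mul_of_nonneg_right c1 hpw0.le
  have c10 : 3 / LL n + C1 / LL n + 1 / LL n + Cs * Q / Real.sqrt (LL n) ≤
      D / Real.sqrt (LL n) := by
    have h1 : 3 / LL n + C1 / LL n + 1 / LL n = (4 + C1) * (1 / LL n) := by ring
    have h2 : D / Real.sqrt (LL n) = (4 + C1) * (1 / Real.sqrt (LL n)) +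
        Cs * Q / Real.sqrt (LL n) := by rw [hDdef]; ring
    rw [h1, h2]
    have h3 := mul_le_mul_of_nonneg_left c6 (by positivity : (0:ℝ) ≤ 4 + C1)
    linarith
  have c11 : 0 < ε * LL n ^ (-(1 / 3 : ℝ)) := by positivity
  linarith

end Pool.Agent.UST
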