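import Pool.Agent.Helper54.UST.Spn
import Pool.Agent.Helper54.UST.Av
import Pool.Agent.Helper54.UST.WStep

/-! Auxiliary facts for the module P104q. -/

namespace Pool.Agent.UST

open MeasureTheory

namespace P104q

section tree

variable {n : ℕ}

theorem adj_cases (T : Tr n) {x y : V n} (ρ : V n) (hxy : T.1.Adj x y) :
    x ∉ pth T y ρ ∨ y ∉ pth T x ρ := by
  by_contra hcon
  push Not at hcon
  have h1 := dst_add T hcon.1
  have h2 := dst_add T hcon.2
  have h3 : dst T x y = 0 := by omega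
  rw [dst_eq_dist] at h3
  have h4 : x = y := (T.2.2.1.dist_eq_zero_iff).1 h3
  exact hxy.ne h4

theorem pth_of_adj (T : Tr n) {x y : V n} (ρ : V n) (hxy : T.1.Adj x y) (h : x ∉ pth T y ρ) :
    pth T x ρ = x :: pth T y ρ := by
  symm
  refine pth_unique T x ρ _ ?_ ?_ rfl ?_
  · exact List.nodup_cons.2 ⟨h, pth_nodup T y ρ⟩
  · rw [spn_pth_cons T y ρ]
    refine List.IsChain.cons_cons hxy ?_
    rw [← spn_pth_cons T y ρ]
    exact pth_chain T y ρ
  · rw [spn_pth_cons T y ρ, List.getLast?_cons_cons, ← spn_pth_cons T y ρ]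
    exact pth_last T y ρ

theorem adj_transfer_aux {T T' : Tr n} {L : List (V n)}
    (h : ∀ v ∈ L, pth T v (L.headD 0) = pth T' v (L.headD 0)) {x y : V n}
    (hx : x ∈ spn T L) (hxy : T.1.Adj x y) (hn : x ∉ pth T y (L.headD 0)) : T'.1.Adj x y := by
  obtain ⟨u, hu, hxu⟩ := hx
  have h1 := pth_split T hxu
  rw [pth_of_adj T _ hxy hn, List.tail_cons, h u hu] at h1
  have h2 := pth_chain T' u (L.headD 0)
  rw [h1, List.isChain_append] at h2
  refine h2.2.2 x ?_ y ?_
  · rw [pth_last]; rfl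
  · rw [pth_head]; rfl

theorem adj_transfer {T T' : Tr n} {L : List (V n)}
    (h : ∀ v ∈ L, pth T v (L.headD 0) = pth T' v (L.headD 0)) {x y : V n}
    (hx : x ∈ spn T L) (hy : y ∈ spn T L) (hxy : T.1.Adj x y) : T'.1.Adj x y := by
  rcases adj_cases T (L.headD 0) hxy with h1 | h1
  · exact adj_transfer_aux h hx hxy h1
  · exact (adj_transfer_aux h hy hxy.symm h1).symm

theorem pth_congr {T T' : Tr n} {L : List (V n)}
    (h : ∀ v ∈ L, pth T v (L.headD 0) = pth T' v (L.headD 0)) {v a : V n}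
    (hv : v ∈ L) (ha : a ∈ spn T L) : pth T v a = pth T' v a := by
  refine pth_unique T' v a _ (pth_nodup T v a) ?_ (pth_head T v a) (pth_last T v a)
  have hcl := spn_closed T (mem_spn_of_mem T hv) ha
  have h1 : ∀ l : List (V n), (∀ y ∈ l, y ∈ spn T L) → l.IsChain (fun x y => T.1.Adj x y) →
      l.IsChain (fun x y => T'.1.Adj x y) := by
    intro l
    induction l with
    | nil => intro _ _; exact List.isChain_nil
    | cons x l ih =>
      intro hl hc
      cases l with
      | nil => exact List.isChain_singleton _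
      | cons y l =>
        rw [List.isChain_cons_cons] at hc ⊢
        exact ⟨adj_transfer h (hl x (by simp)) (hl y (by simp)) hc.1,
          ih (fun z hz => hl z (List.mem_cons_of_mem _ hz)) hc.2⟩
  exact h1 _ (fun y hy => hcl hy) (pth_chain T v a)

theorem spn_congr' {T T' : Tr n} {L : List (V n)}
    (h : ∀ v ∈ L, pth T v (L.headD 0) = pth T' v (L.headD 0)) : spn T L = spn T' L := by
  ext y
  constructor
  · rintro ⟨u, hu, hy⟩
    exact ⟨u, hu, by rw [← h u hu]; exact hy⟩
  · rintro ⟨u, hu, hy⟩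
    exact ⟨u, hu, by rw [h u hu]; exact hy⟩

end tree

section prob

variable {n : ℕ} [NeZero n]

theorem pr_nn (s : Set (ℕ → DD)) : 0 ≤ pr s := measureReal_nonneg

theorem pr_le1 (s : Set (ℕ → DD)) : pr s ≤ 1 := measureReal_le_one

theorem pr_mn {s t : Set (ℕ → DD)} (h : s ⊆ t) : pr s ≤ pr t :=
  measureReal_mono h (measure_ne_top _ _)

theorem pr_un (s t : Set (ℕ → DD)) : pr (s ∪ t) ≤ pr s + pr t := measureReal_union_le _ _

theorem meas_hit (z : V n) (s t : ℕ) (B : Set (V n)) :
    MeasurableSet {ω : ℕ → DD | ¬ hit (act n) z ω s t B} := by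
  refine measurableSet_setOfPred.2 (measurable_dep t (fun ω => ¬ hit (act n) z ω s t B) ?_)
  intro ω ω' h
  have : hit (act n) z ω s t B ↔ hit (act n) z ω' s t B := by
    unfold hit
    refine exists_congr fun i => and_congr_right fun _ => and_congr_right fun hi => ?_
    rw [pos_congr (act n) z ω ω' i fun j hj => h j (by omega)]
  simp only [this]

/-- the measurable sets of pairs -/
theorem meas_pair (z : V n) (A : Set (V n)) (Q : (ℕ → DD) → List (V n) → Prop)
    (R : (ℕ → DD) → Prop) (hQ : ∀ l, MeasurableSet {η | Q η l}) (hR : MeasurableSet {ω | R ω}) :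
    MeasurableSet {ω : (ℕ → DD) × (ℕ → DD) | Q ω.1 (lerw (act n) z ω.2 A) ∧ R ω.2} := by
  have hE : {ω : (ℕ → DD) × (ℕ → DD) | Q ω.1 (lerw (act n) z ω.2 A) ∧ R ω.2} =
      ⋃ l : List (V n), ({η : ℕ → DD | Q η l} ×ˢ
        ({ω : ℕ → DD | lerw (act n) z ω A = l} ∩ {ω | R ω})) := by
    ext ω
    simp only [Set.mem_iUnion, Set.mem_prod]
    constructor
    · rintro ⟨h1, h2⟩
      exact ⟨lerw (act n) z ω.2 A, h1, rfl, h2⟩
    · rintro ⟨l, h1, h2, h3⟩
      have h2' : lerw (act n) z ω.2 A = l := h2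
      subst h2'
      exact ⟨h1, h3⟩
  rw [hE]
  refine MeasurableSet.iUnion fun l => MeasurableSet.prod (hQ l) (MeasurableSet.inter ?_ hR)
  exact measurableSet_setOfPred.mpr (measurable_lerw (act n) A z (fun l' => l' = l))

theorem pr2_pair (z : V n) (A : Set (V n)) (Q : (ℕ → DD) → List (V n) → Prop)
    (R : (ℕ → DD) → Prop) (hQ : ∀ l, MeasurableSet {η | Q η l}) (hR : MeasurableSet {ω | R ω}) :
    pr2 {ω | Q ω.1 (lerw (act n) z ω.2 A) ∧ R ω.2} =
      ∫ ω, pr {η | Q η (lerw (act n) z ω A) ∧ R ω} ∂(mu DD) ∧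
    Integrable (fun ω => pr {η | Q η (lerw (act n) z ω A) ∧ R ω}) (mu DD) := by
  set E : Set ((ℕ → DD) × (ℕ → DD)) := {ω | Q ω.1 (lerw (act n) z ω.2 A) ∧ R ω.2} with hE
  have hEm : MeasurableSet E := meas_pair z A Q R hQ hR
  have hEr : (fun ω : ℕ → DD => pr {η | Q η (lerw (act n) z ω A) ∧ R ω}) =
      fun ω => ((mu DD) ((fun η => (η, ω)) ⁻¹' E)).toReal := rfl
  have hme : Measurable (fun ω : ℕ → DD => (mu DD) ((fun η => (η, ω)) ⁻¹' E)) :=
    measurable_measure_prodMk_right hEm
  refine ⟨?_, ?_⟩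
  · rw [hEr, integral_toReal hme.aemeasurable (ae_of_all _ fun ω => measure_lt_top _ _), pr2,
      Measure.real, Measure.prod_apply_symm hEm]
  · refine Integrable.of_bound (C := 1) ?_ (ae_of_all _ fun ω => ?_)
    · rw [hEr]
      exact hme.ennreal_toReal.aestronglyMeasurable
    · rw [Real.norm_eq_abs, abs_of_nonneg (pr_nn _)]
      exact pr_le1 _

theorem pr2_le1 (s : Set ((ℕ → DD) × (ℕ → DD))) : pr2 s ≤ 1 := measureReal_le_one

theorem pr2_mn {s t : Set ((ℕ → DD) × (ℕ → DD))} (h : s ⊆ t) : pr2 s ≤ pr2 t :=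
  measureReal_mono h (measure_ne_top _ _)

/-- the last vertex of the loop-erased walk -/
theorem lerw_last (z : V n) (ω : ℕ → DD) (A : Set (V n)) :
    (lerw (act n) z ω A).getLast? = some (pos (act n) z ω (tau (act n) z ω A)) := by
  unfold lerw le
  have hne : seg (act n) z ω 0 (tau (act n) z ω A) ≠ [] := by
    intro h
    have := seg_length (act n) z ω 0 (tau (act n) z ω A)
    rw [h, List.length_nil] at this
    omega
  rw [leF_getLast hne]
  unfold seg
  rw [List.getLast?_map]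
  have : (List.range' 0 (tau (act n) z ω A + 1 - 0)).getLast? = some (tau (act n) z ω A) := by
    rw [Nat.sub_zero, List.getLast?_range']
    simp
  rw [this]
  rfl

theorem lerw_sub (z : V n) (ω : ℕ → DD) (A : Set (V n)) {t : ℕ} (h : tau (act n) z ω A ≤ t) :
    st (lerw (act n) z ω A) ⊆ st (seg (act n) z ω 0 t) := by
  intro y hy
  have h1 : y ∈ seg (act n) z ω 0 (tau (act n) z ω A) := by
    have h2 : y ∈ leF [] (seg (act n) z ω 0 (tau (act n) z ω A)) := hy
    rcases mem_leF h2 with h3 | h3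
    · simp at h3
    · exact h3
  obtain ⟨i, _, hi, he⟩ := (mem_seg _ _ _ _ _ _).1 h1
  exact (mem_seg _ _ _ _ _ _).2 ⟨i, Nat.zero_le _, hi.trans h, he⟩

/-- Markov's inequality for the hitting time -/
theorem tau_markov (A : Set (V n)) (hA : A.Nonempty) (z : V n) (s : ℕ) (hs : 0 < s) :
    pr {ω | s ≤ tau (act n) z ω A} ≤ Et n A z / s := by
  have hs' : (0 : ℝ) < s := by exact_mod_cast hs
  rw [le_div_iff₀ hs']
  have hint : Integrable (fun ω => (tau (act n) z ω A : ℝ)) (mu DD) := by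
    have h := tau_integrable (act n) A (act_reach n A hA) z 1
    simpa using h
  have h := mul_meas_ge_le_integral_of_nonneg (μ := mu DD)
    (f := fun ω => (tau (act n) z ω A : ℝ)) (ae_of_all _ fun ω => Nat.cast_nonneg _) hint (s : ℝ)
  have h2 : {ω : ℕ → DD | (s : ℝ) ≤ (tau (act n) z ω A : ℝ)} = {ω | s ≤ tau (act n) z ω A} := by
    ext ω
    simp
  rw [h2] at h
  unfold Et
  rw [mul_comm]
  exact h

end prob

section swap

variable {n : ℕ} [NeZero n]

theorem sw (G : Tr n → V n → V n → List (V n) → ℝ) (Q : ℕ) :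
    av (fun T : Tr n => av (fun z : V n => av (fun w : V n => avL (fun L => G T z w L) Q))) =
    av (fun z : V n => av (fun w : V n => avL (fun L => av (fun T : Tr n => G T z w L)) Q)) := by
  rw [av_comm]
  congr 1
  funext z
  rw [av_comm]
  congr 1
  funext w
  rw [avL_av]

theorem sw2 (G : Tr n → V n → V n → List (V n) → ℝ) (Q : ℕ) :
    av (fun z : V n => av (fun w : V n => avL (fun L => av (fun T : Tr n => G T z w L)) Q)) =
    av (fun T : Tr n => av (fun w : V n => avL (fun L => av (fun z : V n => G T z w L)) Q)) := by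
  rw [← sw]
  congr 1
  funext T
  rw [av_comm]
  congr 1
  funext w
  rw [avL_av]

end swap

end P104q

end Pool.Agent.UST
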