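import Pool.Agent.Helper54.UST.P104
import Pool.Agent.Helper54.UST.P104m
import Pool.Agent.Helper54.UST.T1
import Pool.Agent.Helper54.UST.Mix
import Pool.Agent.Helper54.UST.C2a

/-! Paper 10.5. -/

namespace Pool.Agent.UST

open MeasureTheory

namespace P105

theorem ncard_eq_sum {n : ℕ} [NeZero n] (P : V n → Prop) :
    ((Set.ncard {v : V n | P v} : ℕ) : ℝ) = ∑ v : V n, ind (P v) := by
  classical
  rw [Set.ncard_eq_toFinset_card' {v : V n | P v}]
  unfold ind
  rw [Finset.sum_boole]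
  congr 2
  ext v
  simp

/-- the deterministic inclusion -/
theorem incl {n : ℕ} [NeZero n] (T : Tr n) (w z : V n) (ω : ℕ → DD) (i ρ : ℕ) (h B' ζ δ : ℝ)
    (hb : bb n ≤ i) (hρ : h * rr n ≤ ρ)
    (h1 : ¬ hit (act n) z ω 1 i (st (pth T w z)))
    (h2 : (Set.ncard {v | dst T v z ≤ ρ ∧ ¬ hit (act n) z ω 1 i (st (pth T v z))} : ℝ) <
          δ / 2 * NN n) :
    (¬ hit (act n) z ω 1 (bb n) (st (pth T z w)) ∧ ((NBs n h B' ζ T z).ncard : ℝ) < δ * NN n) ∨
    (¬ hit (act n) z ω 1 (bb n) (st (pth T z w)) ∧ ((NBs n h B' ζ T z).ncard : ℝ) / 4 <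
      ∑ v : V n, ind (v ∈ NBs n h B' ζ T z ∧ hit (act n) z ω (2 * t0 n) i (st (pth T v z)))) ∨
    δ * NN n / 4 ≤ ∑ v : V n, ind (hit (act n) z ω 0 (2 * t0 n) (st (pth T v w))) := by
  have hst : st (pth T z w) = st (pth T w z) := by
    ext y
    unfold st
    rw [pth_rev T w z]
    simp
  have h3 : ¬ hit (act n) z ω 1 (bb n) (st (pth T z w)) := by
    rw [hst]
    rintro ⟨l, hl1, hl2, hl3⟩
    exact h1 ⟨l, hl1, hl2.trans hb, hl3⟩
  by_cases h4 : ((NBs n h B' ζ T z).ncard : ℝ) < δ * NN n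
  · exact Or.inl ⟨h3, h4⟩
  right
  by_contra hcon
  push Not at hcon
  obtain ⟨h5, h6⟩ := hcon
  have h5' := h5 h3
  have h4' := not_lt.mp h4
  set X2 := ∑ v : V n, ind (v ∈ NBs n h B' ζ T z ∧
    hit (act n) z ω (2 * t0 n) i (st (pth T v z))) with hX2
  set X3 := ∑ v : V n, ind (hit (act n) z ω 0 (2 * t0 n) (st (pth T v w))) with hX3
  have h7 : ((NBs n h B' ζ T z).ncard : ℝ) ≤
      (Set.ncard {v | dst T v z ≤ ρ ∧ ¬ hit (act n) z ω 1 i (st (pth T v z))} : ℝ) + (X2 + X3) := by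
    have e1 : ((NBs n h B' ζ T z).ncard : ℝ) = ∑ v : V n, ind (v ∈ NBs n h B' ζ T z) :=
      ncard_eq_sum (fun v => v ∈ NBs n h B' ζ T z)
    rw [e1, ncard_eq_sum, hX2, hX3, ← Finset.sum_add_distrib, ← Finset.sum_add_distrib]
    refine Finset.sum_le_sum fun v _ => ?_
    by_cases hv : v ∈ NBs n h B' ζ T z
    swap
    · rw [ind_false hv]
      have := ind_nonneg (dst T v z ≤ ρ ∧ ¬ hit (act n) z ω 1 i (st (pth T v z)))
      have := ind_nonneg (v ∈ NBs n h B' ζ T z ∧ hit (act n) z ω (2 * t0 n) i (st (pth T v z)))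
      have := ind_nonneg (hit (act n) z ω 0 (2 * t0 n) (st (pth T v w)))
      linarith
    rw [ind_true hv]
    have hd : dst T v z ≤ ρ := by
      have e2 : ((pth T v z).length : ℝ) ≤ ρ := hv.1.trans hρ
      rw [pth_length] at e2
      have e3 : dst T v z + 1 ≤ ρ := by exact_mod_cast e2
      omega
    have n1 := ind_nonneg (dst T v z ≤ ρ ∧ ¬ hit (act n) z ω 1 i (st (pth T v z)))
    have n2 := ind_nonneg (v ∈ NBs n h B' ζ T z ∧ hit (act n) z ω (2 * t0 n) i (st (pth T v z)))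
    have n3 := ind_nonneg (hit (act n) z ω 0 (2 * t0 n) (st (pth T v w)))
    by_cases hh : hit (act n) z ω 1 i (st (pth T v z))
    · obtain ⟨l, hl1, hl2, hl3⟩ := hh
      by_cases hl : l ≤ 2 * t0 n
      · have hy : pos (act n) z ω l ∈ st (pth T v w) := by
          rcases pth_subset T v w z hl3 with h8 | h8
          · exact h8
          · exact absurd ⟨l, hl1, hl2, h8⟩ h1
        rw [ind_true (P := hit (act n) z ω 0 (2 * t0 n) (st (pth T v w)))
          ⟨l, Nat.zero_le _, hl, hy⟩]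
        linarith
      · rw [ind_true (P := v ∈ NBs n h B' ζ T z ∧
          hit (act n) z ω (2 * t0 n) i (st (pth T v z))) ⟨hv, l, by omega, hl2, hl3⟩]
        linarith
    · rw [ind_true (P := dst T v z ≤ ρ ∧ ¬ hit (act n) z ω 1 i (st (pth T v z))) ⟨hd, hh⟩]
      linarith
  linarith

/-- the second event -/
theorem ev2 {n : ℕ} [NeZero n] (T : Tr n) (w z : V n) (i : ℕ) (h B' ζ : ℝ) (hζ : 0 ≤ ζ)
    (hi : 2 * t0 n ≤ i) (hiB : (i : ℝ) ≤ B' * kk n) (hbt : bb n ≤ t0 n) :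
    pr {ω | ¬ hit (act n) z ω 1 (bb n) (st (pth T z w)) ∧ ((NBs n h B' ζ T z).ncard : ℝ) / 4 <
      ∑ v : V n, ind (v ∈ NBs n h B' ζ T z ∧ hit (act n) z ω (2 * t0 n) i (st (pth T v z)))} ≤
    8 * ζ * pr {ω | ¬ hit (act n) z ω 1 (bb n) (st (pth T z w))} := by
  have hpr : IsProbabilityMeasure (mu DD) := mu_prob
  set NB := NBs n h B' ζ T z with hNB
  set G : (ℕ → DD) → ℝ := fun ω => ind (¬ hit (act n) z ω 1 (bb n) (st (pth T z w))) with hG
  have hG0 : ∀ ω, 0 ≤ G ω := fun ω => ind_nonneg _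
  have hG1 : ∀ ω, G ω ≤ 1 := fun ω => ind_le_one _
  have hGm : Measurable G := C2a.measurable_ind (C2a.meas_hit z 1 (bb n) _).compl
  have hIG : ∫ ω, G ω ∂(mu DD) = pr {ω | ¬ hit (act n) z ω 1 (bb n) (st (pth T z w))} :=
    integral_ind (mu DD) _ (C2a.meas_hit z 1 (bb n) _).compl
  have hHm : ∀ v : V n, Measurable (fun ω : ℕ → DD =>
      ind (hit (act n) z ω (2 * t0 n) i (st (pth T v z)))) := fun v =>
    C2a.measurable_ind (C2a.meas_hit z _ _ _)
  have hXm : ∀ v : V n, Measurable (fun ω : ℕ → DD =>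
      ind (v ∈ NB ∧ hit (act n) z ω (2 * t0 n) i (st (pth T v z)))) := fun v => by
    have : ∀ ω : ℕ → DD, ind (v ∈ NB ∧ hit (act n) z ω (2 * t0 n) i (st (pth T v z))) =
        ind (v ∈ NB) * ind (hit (act n) z ω (2 * t0 n) i (st (pth T v z))) := fun ω => ind_and _ _
    simp only [this]
    exact (hHm v).const_mul _
  -- one vertex
  have hone : ∀ v : V n, ∫ ω, G ω * ind (v ∈ NB ∧
      hit (act n) z ω (2 * t0 n) i (st (pth T v z))) ∂(mu DD) ≤
      ind (v ∈ NB) * (2 * ζ * ∫ ω, G ω ∂(mu DD)) := by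
    intro v
    by_cases hv : v ∈ NB
    · rw [ind_true hv, one_mul]
      have e1 : ∀ ω : ℕ → DD, ind (v ∈ NB ∧ hit (act n) z ω (2 * t0 n) i (st (pth T v z))) =
          ind (hit (act n) z ω (2 * t0 n) (2 * t0 n + (i - 2 * t0 n)) (st (pth T v z))) := by
        intro ω
        rw [ind_and, ind_true hv, one_mul, show 2 * t0 n + (i - 2 * t0 n) = i by omega]
      simp only [e1]
      refine (hit_mix_le n z (2 * t0 n) (i - 2 * t0 n) (by omega) G hG0
        (fun _ => st (pth T v z)) ?_ (fun _ _ _ => rfl)).trans ?_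
      · intro ω ω' hω
        simp only [hG]
        rw [C2a.hit_congr (act n) z ω ω' 1 (bb n) _ (fun a ha => hω a (by omega))]
      · rw [integral_mul_const]
        have e2 : pm n (i - 2 * t0 n) (st (pth T v z)) ≤ ζ := by
          refine le_trans (pm_mono n ?_ le_rfl) hv.2
          have e3 : (i : ℝ) ≤ (⌈B' * kk n⌉₊ : ℝ) := hiB.trans (Nat.le_ceil _)
          have e4 : i ≤ ⌈B' * kk n⌉₊ := by exact_mod_cast e3
          omega
        have e5 : 0 ≤ ∫ ω, G ω ∂(mu DD) := integral_nonneg hG0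
        nlinarith
    · rw [ind_false hv, zero_mul]
      have e1 : ∀ ω : ℕ → DD, ind (v ∈ NB ∧ hit (act n) z ω (2 * t0 n) i (st (pth T v z))) = 0 :=
        fun ω => ind_false fun h => hv h.1
      simp only [e1, mul_zero, integral_zero, le_refl]
  -- all vertices
  have hint : ∀ v : V n, Integrable (fun ω => G ω * ind (v ∈ NB ∧
      hit (act n) z ω (2 * t0 n) i (st (pth T v z)))) (mu DD) := fun v =>
    Integrable.of_bound (hGm.mul (hXm v)).aestronglyMeasurable 1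
      (Filter.Eventually.of_forall fun ω => by
        rw [Real.norm_eq_abs, abs_of_nonneg (mul_nonneg (hG0 ω) (ind_nonneg _))]
        exact mul_le_one₀ (hG1 ω) (ind_nonneg _) (ind_le_one _))
  have hall : ∫ ω, G ω * ∑ v : V n, ind (v ∈ NB ∧
      hit (act n) z ω (2 * t0 n) i (st (pth T v z))) ∂(mu DD) ≤
      (NB.ncard : ℝ) * (2 * ζ * ∫ ω, G ω ∂(mu DD)) := by
    have e1 : (NB.ncard : ℝ) = ∑ v : V n, ind (v ∈ NB) := ncard_eq_sum (fun v => v ∈ NB)
    rw [e1, Finset.sum_mul]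
    simp only [Finset.mul_sum]
    rw [integral_finsetSum _ fun v _ => hint v]
    exact Finset.sum_le_sum fun v _ => hone v
  set P : (ℕ → DD) → Prop := fun ω => (NB.ncard : ℝ) / 4 < ∑ v : V n, ind (v ∈ NB ∧
      hit (act n) z ω (2 * t0 n) i (st (pth T v z))) with hP
  have hPm : MeasurableSet {ω | P ω} :=
    measurableSet_lt measurable_const (Finset.measurable_fun_sum _ fun v _ => hXm v)
  have hev : pr {ω | ¬ hit (act n) z ω 1 (bb n) (st (pth T z w)) ∧ P ω} =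
      ∫ ω, G ω * ind (P ω) ∂(mu DD) := by
    have e1 : ∀ ω, G ω * ind (P ω) = ind (¬ hit (act n) z ω 1 (bb n) (st (pth T z w)) ∧ P ω) :=
      fun ω => (ind_and _ _).symm
    simp only [e1]
    exact (integral_ind (mu DD)
      (fun ω => ¬ hit (act n) z ω 1 (bb n) (st (pth T z w)) ∧ P ω)
      ((C2a.meas_hit z 1 (bb n) _).compl.inter hPm)).symm
  change pr {ω | ¬ hit (act n) z ω 1 (bb n) (st (pth T z w)) ∧ P ω} ≤ _
  rw [hev, ← hIG]
  have e5 : 0 ≤ ∫ ω, G ω ∂(mu DD) := integral_nonneg hG0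
  by_cases hc : NB.ncard = 0
  · have hz : ∀ ω, G ω * ind (P ω) = 0 := by
      intro ω
      have : ¬ P ω := by
        have hNBe : NB = ∅ := (Set.ncard_eq_zero (Set.toFinite _)).mp hc
        simp only [hP, hc, Nat.cast_zero, zero_div, not_lt]
        refine le_of_eq (Finset.sum_eq_zero fun v _ => ind_false fun h => ?_)
        rw [hNBe] at h
        exact h.1
      rw [ind_false this, mul_zero]
    simp only [hz, integral_zero]
    positivity
  · have hc' : (0 : ℝ) < NB.ncard := by exact_mod_cast Nat.pos_of_ne_zero hc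
    have hle : ∫ ω, G ω * ind (P ω) ∂(mu DD) ≤ ∫ ω, (4 / (NB.ncard : ℝ)) * (G ω *
        ∑ v : V n, ind (v ∈ NB ∧ hit (act n) z ω (2 * t0 n) i (st (pth T v z)))) ∂(mu DD) := by
      refine integral_mono_of_nonneg (Filter.Eventually.of_forall fun ω =>
        mul_nonneg (hG0 ω) (ind_nonneg _)) ?_ (Filter.Eventually.of_forall fun ω => ?_)
      · refine Integrable.const_mul ?_ _
        simp only [Finset.mul_sum]
        exact integrable_finsetSum _ fun v _ => hint v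
      · have hX0 : 0 ≤ ∑ v : V n, ind (v ∈ NB ∧
            hit (act n) z ω (2 * t0 n) i (st (pth T v z))) :=
          Finset.sum_nonneg fun v _ => ind_nonneg _
        by_cases hPω : P ω
        · show G ω * ind (P ω) ≤ _
          rw [ind_true hPω, mul_one]
          have h8 : 1 ≤ 4 / (NB.ncard : ℝ) * ∑ v : V n, ind (v ∈ NB ∧
              hit (act n) z ω (2 * t0 n) i (st (pth T v z))) := by
            have h9 : (NB.ncard : ℝ) / 4 < ∑ v : V n, ind (v ∈ NB ∧
              hit (act n) z ω (2 * t0 n) i (st (pth T v z))) := hPω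
            rw [div_mul_eq_mul_div, le_div_iff₀ hc']
            linarith
          have := hG0 ω
          nlinarith
        · show G ω * ind (P ω) ≤ _
          rw [ind_false hPω, mul_zero]
          have := hG0 ω
          positivity
    rw [integral_const_mul] at hle
    refine hle.trans ?_
    refine (mul_le_mul_of_nonneg_left hall (by positivity)).trans (le_of_eq ?_)
    field_simp
    ring

/-- the third event -/
theorem ev3 {n : ℕ} [NeZero n] (T : Tr n) (w z : V n) (δ : ℝ) (hδ : 0 < δ) :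
    pr {ω | δ * NN n / 4 ≤ ∑ v : V n, ind (hit (act n) z ω 0 (2 * t0 n) (st (pth T v w)))} ≤
      4 / δ * av (fun v : V n => pr {ω | hit (act n) z ω 0 (2 * t0 n) (st (pth T v w))}) := by
  have hpr : IsProbabilityMeasure (mu DD) := mu_prob
  have hN := C2a.NN_pos n
  have hXm : ∀ v : V n, Measurable (fun ω : ℕ → DD =>
      ind (hit (act n) z ω 0 (2 * t0 n) (st (pth T v w)))) := fun v =>
    C2a.measurable_ind (C2a.meas_hit z _ _ _)
  have hint : ∀ v : V n, Integrable (fun ω => ind (hit (act n) z ω 0 (2 * t0 n)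
      (st (pth T v w)))) (mu DD) := fun v =>
    Integrable.of_bound (hXm v).aestronglyMeasurable 1
      (Filter.Eventually.of_forall fun ω => by
        rw [Real.norm_eq_abs, abs_of_nonneg (ind_nonneg _)]
        exact ind_le_one _)
  have hPm : MeasurableSet {ω : ℕ → DD | δ * NN n / 4 ≤
      ∑ v : V n, ind (hit (act n) z ω 0 (2 * t0 n) (st (pth T v w)))} :=
    measurableSet_le measurable_const (Finset.measurable_fun_sum _ fun v _ => hXm v)
  have e1 : pr {ω | δ * NN n / 4 ≤ ∑ v : V n, ind (hit (act n) z ω 0 (2 * t0 n)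
      (st (pth T v w)))} = ∫ ω, ind (δ * NN n / 4 ≤
      ∑ v : V n, ind (hit (act n) z ω 0 (2 * t0 n) (st (pth T v w)))) ∂(mu DD) :=
    (integral_ind (mu DD) _ hPm).symm
  rw [e1]
  have hle : ∫ ω, ind (δ * NN n / 4 ≤
      ∑ v : V n, ind (hit (act n) z ω 0 (2 * t0 n) (st (pth T v w)))) ∂(mu DD) ≤
      ∫ ω, (4 / (δ * NN n)) * ∑ v : V n, ind (hit (act n) z ω 0 (2 * t0 n)
        (st (pth T v w))) ∂(mu DD) := by
    refine integral_mono_of_nonneg (Filter.Eventually.of_forall fun ω => ind_nonneg _) ?_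
      (Filter.Eventually.of_forall fun ω => ?_)
    · exact Integrable.const_mul (integrable_finsetSum _ fun v _ => hint v) _
    · have hX0 : 0 ≤ ∑ v : V n, ind (hit (act n) z ω 0 (2 * t0 n) (st (pth T v w))) :=
        Finset.sum_nonneg fun v _ => ind_nonneg _
      by_cases hP : δ * NN n / 4 ≤ ∑ v : V n, ind (hit (act n) z ω 0 (2 * t0 n) (st (pth T v w)))
      · show ind (δ * NN n / 4 ≤ _) ≤ 4 / (δ * NN n) * _
        rw [ind_true hP, div_mul_eq_mul_div, le_div_iff₀ (by positivity)]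
        linarith
      · show ind (δ * NN n / 4 ≤ _) ≤ 4 / (δ * NN n) * _
        rw [ind_false hP]
        positivity
  refine hle.trans (le_of_eq ?_)
  rw [integral_const_mul, integral_finsetSum _ fun v _ => hint v]
  unfold av
  rw [C2a.card_V]
  have e2 : ∀ v : V n, ∫ ω, ind (hit (act n) z ω 0 (2 * t0 n) (st (pth T v w))) ∂(mu DD) =
      pr {ω | hit (act n) z ω 0 (2 * t0 n) (st (pth T v w))} := fun v =>
    integral_ind (mu DD) _ (C2a.meas_hit z _ _ _)
  simp only [e2]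
  field_simp

end P105

open P105 in
theorem p105 (B' h ε : ℝ) (hB' : 0 < B') (hh : 0 < h) (hε : 0 < ε) :
    ∃ δ : ℝ, 0 < δ ∧ ∃ n0 : ℕ, ∀ (n : ℕ) [NeZero n], n0 ≤ n → ∀ i : ℕ, 2 * t0 n ≤ i →
    (i : ℝ) ≤ B' * kk n → ∀ ρ : ℕ, h * rr n ≤ ρ →
    av (fun T : Tr n => av (fun w : V n => av (fun z : V n =>
      pr {ω | ¬ hit (act n) z ω 1 i (st (pth T w z)) ∧
        (Set.ncard {v | dst T v z ≤ ρ ∧ ¬ hit (act n) z ω 1 i (st (pth T v z))} : ℝ) <
          δ * NN n}))) ≤ ε * LL n ^ (-(1 / 3 : ℝ)) := by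
  obtain ⟨C1, hC1, n1, h1⟩ := p104_miss
  obtain ⟨C2, hC2, n2, h2⟩ := t1A
  set ζ : ℝ := ε / (24 * C1) with hζ
  have hζ0 : 0 < ζ := by positivity
  obtain ⟨δ, hδ, n3, h3⟩ := p104 B' h ζ (ε / 3) hB' hh hζ0 (by positivity)
  refine ⟨δ / 2, by positivity, max (max (max n1 n2) (max n3 3))
    (max ⌈Real.exp 4096⌉₊ ⌈Real.exp ((96 * C2 / (δ * ε)) ^ 6)⌉₊), ?_⟩
  intro n _ hn i hi hiB ρ hρ
  have hn1 : n1 ≤ n := by omega
  have hn2 : n2 ≤ n := by omega
  have hn3 : n3 ≤ n := by omega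
  have hn4 : 3 ≤ n := by omega
  have hn5 : Real.exp 4096 ≤ n := (Nat.le_ceil _).trans (by exact_mod_cast (by omega))
  have hn6 : Real.exp ((96 * C2 / (δ * ε)) ^ 6) ≤ n :=
    (Nat.le_ceil _).trans (by exact_mod_cast (by omega))
  have hN := C2a.NN_pos n
  have hn0 : (0 : ℝ) < n := by
    have : (3 : ℝ) ≤ n := by exact_mod_cast hn4
    linarith
  have hL1 : 4096 ≤ LL n := by
    unfold LL
    rwa [Real.le_log_iff_exp_le hn0]
  have hL2 : (96 * C2 / (δ * ε)) ^ 6 ≤ LL n := by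
    unfold LL
    rwa [Real.le_log_iff_exp_le hn0]
  have hL0 : 0 < LL n := by linarith
  have hbt : bb n ≤ t0 n := by
    unfold bb t0
    have := Nat.sqrt_le_self n
    nlinarith
  have hkk : (n : ℝ) ^ 2 * Real.sqrt (LL n) ≤ kk n := Nat.le_ceil _
  have hs64 : 64 ≤ Real.sqrt (LL n) := by
    rw [show (64 : ℝ) = Real.sqrt 4096 by
      rw [show (4096 : ℝ) = 64 ^ 2 by norm_num, Real.sqrt_sq (by norm_num)]]
    exact Real.sqrt_le_sqrt hL1
  have ht0 : ((t0 n : ℕ) : ℝ) = 4 * (n : ℝ) ^ 2 := by unfold t0; push_cast; ring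
  have hn2p : (0 : ℝ) < (n : ℝ) ^ 2 := by positivity
  have hm8 : 8 * (2 * t0 n) ≤ kk n := by
    have : ((8 * (2 * t0 n) : ℕ) : ℝ) ≤ kk n := by
      push_cast
      rw [ht0]
      nlinarith
    exact_mod_cast this
  -- the pointwise bound
  have hpt : ∀ (T : Tr n) (w z : V n),
      pr {ω | ¬ hit (act n) z ω 1 i (st (pth T w z)) ∧
        (Set.ncard {v | dst T v z ≤ ρ ∧ ¬ hit (act n) z ω 1 i (st (pth T v z))} : ℝ) <
          δ / 2 * NN n} ≤
      pr {ω | ¬ hit (act n) z ω 1 (bb n) (st (pth T z w)) ∧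
        ((NBs n h B' ζ T z).ncard : ℝ) < δ * NN n} +
      (8 * ζ * pr {ω | ¬ hit (act n) z ω 1 (bb n) (st (pth T z w))} +
      4 / δ * av (fun v : V n => pr {ω | hit (act n) z ω 0 (2 * t0 n) (st (pth T v w))})) := by
    intro T w z
    refine le_trans (C2a.pr_mono (t := {ω | ¬ hit (act n) z ω 1 (bb n) (st (pth T z w)) ∧
        ((NBs n h B' ζ T z).ncard : ℝ) < δ * NN n} ∪
      ({ω | ¬ hit (act n) z ω 1 (bb n) (st (pth T z w)) ∧ ((NBs n h B' ζ T z).ncard : ℝ) / 4 <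
        ∑ v : V n, ind (v ∈ NBs n h B' ζ T z ∧ hit (act n) z ω (2 * t0 n) i (st (pth T v z)))} ∪
      {ω | δ * NN n / 4 ≤ ∑ v : V n, ind (hit (act n) z ω 0 (2 * t0 n) (st (pth T v w)))})) ?_) ?_
    · rintro ω ⟨h4, h5⟩
      exact incl T w z ω i ρ h B' ζ δ (by omega) hρ h4 h5
    · refine (C2a.pr_union _ _).trans (add_le_add le_rfl ((C2a.pr_union _ _).trans
        (add_le_add ?_ ?_)))
      · exact ev2 T w z i h B' ζ hζ0.le hi hiB hbt
      · exact ev3 T w z δ hδ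
  refine (av_mono fun T => av_mono fun w => av_mono fun z => hpt T w z).trans ?_
  simp only [av_add, av_mul_left]
  -- first term
  have t1 : av (fun T : Tr n => av (fun w : V n => av (fun z : V n =>
      pr {ω | ¬ hit (act n) z ω 1 (bb n) (st (pth T z w)) ∧
        ((NBs n h B' ζ T z).ncard : ℝ) < δ * NN n}))) ≤ ε / 3 * LL n ^ (-(1 / 3 : ℝ)) := by
    refine le_trans (le_of_eq ?_) (h3 n hn3)
    congr 1
    funext T
    rw [av_comm]
  have t2 : av (fun T : Tr n => av (fun w : V n => av (fun z : V n =>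
      pr {ω | ¬ hit (act n) z ω 1 (bb n) (st (pth T z w))}))) ≤ C1 * LL n ^ (-(1 / 3 : ℝ)) := by
    refine le_trans (le_of_eq ?_) (h1 n hn1)
    congr 1
    funext T
    rw [av_comm]
  have t3 : av (fun T : Tr n => av (fun w : V n => av (fun z : V n => av (fun v : V n =>
      pr {ω | hit (act n) z ω 0 (2 * t0 n) (st (pth T v w))})))) ≤
      C2 * ((2 * t0 n : ℕ) : ℝ) / kk n := by
    refine le_trans (le_of_eq ?_) (h2 n hn2 (2 * t0 n) (by omega) hm8)
    congr 1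
    funext T
    have e1 : ∀ w : V n, av (fun z : V n => av (fun v : V n =>
        pr {ω | hit (act n) z ω 0 (2 * t0 n) (st (pth T v w))})) =
        av (fun v : V n => pm n (2 * t0 n) (st (pth T v w))) := by
      intro w
      rw [av_comm]
      rfl
    simp only [e1]
    rw [av_comm]
  have hLp : 0 < LL n ^ (-(1 / 3 : ℝ)) := Real.rpow_pos_of_pos hL0 _
  have t4 : 4 / δ * (C2 * ((2 * t0 n : ℕ) : ℝ) / kk n) ≤ ε / 3 * LL n ^ (-(1 / 3 : ℝ)) := by
    have hk0 : (0 : ℝ) < kk n := by nlinarith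
    have hsq0 : 0 < Real.sqrt (LL n) := by linarith
    have e1 : ((2 * t0 n : ℕ) : ℝ) / kk n ≤ 8 / Real.sqrt (LL n) := by
      rw [div_le_div_iff₀ hk0 hsq0]
      push_cast
      rw [ht0]
      nlinarith
    have e2 : 1 / Real.sqrt (LL n) = LL n ^ (-(1 / 3 : ℝ)) * LL n ^ (-(1 / 6 : ℝ)) := by
      rw [← Real.rpow_add hL0, Real.sqrt_eq_rpow, one_div, ← Real.rpow_neg hL0.le]
      norm_num
    have e3 : LL n ^ (-(1 / 6 : ℝ)) ≤ δ * ε / (96 * C2) := by
      have e4 : 96 * C2 / (δ * ε) ≤ LL n ^ (1 / 6 : ℝ) := by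
        have e5 : ((96 * C2 / (δ * ε)) ^ 6) ^ (1 / 6 : ℝ) ≤ LL n ^ (1 / 6 : ℝ) :=
          Real.rpow_le_rpow (by positivity) hL2 (by norm_num)
        rw [← Real.rpow_natCast, ← Real.rpow_mul (by positivity)] at e5
        norm_num at e5
        norm_num
        exact e5
      rw [Real.rpow_neg hL0.le]
      have e6 : 0 < 96 * C2 / (δ * ε) := by positivity
      calc (LL n ^ (1 / 6 : ℝ))⁻¹ ≤ (96 * C2 / (δ * ε))⁻¹ := inv_anti₀ e6 e4
        _ = δ * ε / (96 * C2) := by rw [inv_div]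
    calc 4 / δ * (C2 * ((2 * t0 n : ℕ) : ℝ) / kk n)
        = 4 / δ * C2 * (((2 * t0 n : ℕ) : ℝ) / kk n) := by ring
      _ ≤ 4 / δ * C2 * (8 / Real.sqrt (LL n)) := by gcongr
      _ = 32 * C2 / δ * (1 / Real.sqrt (LL n)) := by ring
      _ = 32 * C2 / δ * (LL n ^ (-(1 / 3 : ℝ)) * LL n ^ (-(1 / 6 : ℝ))) := by rw [e2]
      _ ≤ 32 * C2 / δ * (LL n ^ (-(1 / 3 : ℝ)) * (δ * ε / (96 * C2))) := by gcongr
      _ = ε / 3 * LL n ^ (-(1 / 3 : ℝ)) := by field_simp; ring
  have t5 : 8 * ζ * (C1 * LL n ^ (-(1 / 3 : ℝ))) = ε / 3 * LL n ^ (-(1 / 3 : ℝ)) := by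
    rw [hζ]; field_simp; ring
  have t6 := mul_le_mul_of_nonneg_left t2 (show 0 ≤ 8 * ζ by positivity)
  have t7 := mul_le_mul_of_nonneg_left t3 (show 0 ≤ 4 / δ by positivity)
  calc _ ≤ ε / 3 * LL n ^ (-(1 / 3 : ℝ)) + (8 * ζ * (C1 * LL n ^ (-(1 / 3 : ℝ))) +
        4 / δ * (C2 * ((2 * t0 n : ℕ) : ℝ) / kk n)) :=
        add_le_add t1 (add_le_add t6 t7)
    _ ≤ ε / 3 * LL n ^ (-(1 / 3 : ℝ)) + (ε / 3 * LL n ^ (-(1 / 3 : ℝ)) +
        ε / 3 * LL n ^ (-(1 / 3 : ℝ))) := by rw [t5]; gcongr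
    _ = ε * LL n ^ (-(1 / 3 : ℝ)) := by ring

end Pool.Agent.UST
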