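import Pool.Agent.Helper54.UST.WilA
import Pool.Agent.Helper54.UST.BaseHit
import Pool.Agent.Helper54.UST.LE1

/-! Root moving in the general model (paper 5.2, R1 and R2). -/

namespace Pool.Agent.UST

open MeasureTheory

section rootgen
variable {W D : Type} (act : D → W → W)

theorem gmv_congr (g : W → D) (x : W) (ω ω' : ℕ → D) (t : ℕ) (h : ∀ i, i < t → ω i = ω' i) :
    gmv act g x ω t = gmv act g x ω' t := by
  induction t with
  | zero => rfl
  | succ t ih =>
    have h1 := ih fun i hi => h i (Nat.lt_succ_of_lt hi)
    have h2 := pos_congr act x ω ω' t fun i hi => h i (Nat.lt_succ_of_lt hi)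
    simp only [gmv]
    rw [h1, h2, h t (Nat.lt_succ_self t)]

theorem gmv_add (g : W → D) (x : W) (ω : ℕ → D) (s t : ℕ) :
    gmv act g x ω (s + t) = gmv act (gmv act g x ω s) (pos act x ω s) (sh s ω) t := by
  induction t with
  | zero => rfl
  | succ t ih =>
    rw [← Nat.add_assoc]
    simp only [gmv]
    rw [ih, pos_add]
    rfl

/-- reachability of `x` does not depend on the direction at `x` -/
private theorem reach_congr {g g' : W → D} {x : W} (h : ∀ v, v ≠ x → g' v = g v) (t : ℕ) :
    ∀ v, (fun v => act (g v) v)^[t] v = x → ∃ t', (fun v => act (g' v) v)^[t'] v = x := by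
  induction t with
  | zero => intro v hv; exact ⟨0, hv⟩
  | succ t ih =>
    intro v hv
    by_cases hx : v = x
    · exact ⟨0, hx⟩
    · rw [Function.iterate_succ_apply] at hv
      obtain ⟨t', ht'⟩ := ih _ hv
      refine ⟨t' + 1, ?_⟩
      rw [Function.iterate_succ_apply]
      simp only [h v hx]
      exact ht'

open Classical in
private theorem step_mem {g : W → D} {x : W} (hg : g ∈ FG act {x}) (d : D) :
    Function.update g x d ∈ FG act {act d x} := by
  intro v
  obtain ⟨t, ht⟩ := hg v
  obtain ⟨t', ht'⟩ := reach_congr act (g := g) (g' := Function.update g x d) (x := x)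
    (fun v hv => Function.update_of_ne hv _ _) t v ht
  refine ⟨t' + 1, ?_⟩
  rw [Function.iterate_succ_apply', ht']
  simp

theorem gmv_mem (g : W → D) (x : W) (hg : g ∈ FG act {x}) (ω : ℕ → D) (t : ℕ) :
    gmv act g x ω t ∈ FG act {pos act x ω t} := by
  induction t with
  | zero => exact hg
  | succ t ih =>
    simp only [gmv, pos]
    exact step_mem act ih (ω t)

open Classical in
private theorem step_gpath {g : W → D} {x : W} (hg : g ∈ FG act {x}) (d : D) (n : ℕ) :
    ∀ w, (gpath act g {x} w).length = n →
      gpath act (Function.update g x d) {act d x} w = stepLE (gpath act g {x} w) (act d x) := by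
  induction n with
  | zero =>
    intro w hw
    have := gpath_head act g {x} w
    rw [List.length_eq_zero_iff.mp hw] at this
    simp at this
  | succ n ih =>
    intro w hw
    by_cases h1 : w = act d x
    · have h2 : gpath act (Function.update g x d) {act d x} w = [w] :=
        gpath_mem act _ _ _ (by rw [h1]; exact Set.mem_singleton _)
      rw [h2]
      by_cases h3 : w = x
      · rw [gpath_mem act g {x} w (by rw [h3]; exact Set.mem_singleton _)]
        simp [stepLE, ← h1]
      · rw [gpath_cons act g {x} w hg (by simpa using h3)]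
        simp [stepLE, ← h1]
    · rw [gpath_cons act (Function.update g x d) {act d x} w (step_mem act hg d)
        (by simpa using h1)]
      by_cases h3 : w = x
      · rw [gpath_mem act g {x} w (by rw [h3]; exact Set.mem_singleton _)]
        subst h3
        rw [Function.update_self, gpath_mem act _ {act d w} (act d w) (Set.mem_singleton _)]
        simp [stepLE, h1]
      · rw [Function.update_of_ne h3]
        have h4 := gpath_cons act g {x} w hg (by simpa using h3)
        have h5 : (gpath act g {x} (act (g w) w)).length = n := by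
          rw [h4, List.length_cons] at hw
          omega
        rw [ih _ h5, h4]
        simp [stepLE, h1]

/-- the path to the root after `t` steps -/
theorem gmv_gpath (g : W → D) (x : W) (hg : g ∈ FG act {x}) (ω : ℕ → D) (t : ℕ) (w : W) :
    gpath act (gmv act g x ω t) {pos act x ω t} w =
      leF (gpath act g {x} w) (seg act x ω 1 t) := by
  induction t with
  | zero => rfl
  | succ t ih =>
    have h1 : seg act x ω 1 (t + 1) = seg act x ω 1 t ++ [pos act x ω (t + 1)] := by
      rw [seg_append act x ω 1 t (t + 1) (by omega) (by omega)]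
      congr 1
      simp [seg]
    rw [h1, leF_append, ← ih]
    simp only [gmv, pos]
    rw [step_gpath act (gmv_mem act g x hg ω t) (ω t) _ w rfl]
    rfl

/-- uniqueness of the predecessor on the cycle of the root -/
private theorem pred_unique {g : W → D} {x' x1 x2 : W}
    (h1 : act (g x1) x1 = x') (h2 : act (g x2) x2 = x')
    (r1 : ∃ k, (fun v => act (g v) v)^[k] x' = x1) (r2 : ∃ k, (fun v => act (g v) v)^[k] x' = x2) :
    x1 = x2 := by
  obtain ⟨k1, hk1⟩ := r1
  obtain ⟨k2, hk2⟩ := r2
  have p : ∀ (k : ℕ) (y : W), act (g y) y = x' → (fun v => act (g v) v)^[k] x' = y →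
      y ∈ Function.periodicPts (fun v => act (g v) v) := by
    intro k y hy hk
    refine ⟨k + 1, Nat.succ_pos k, ?_⟩
    show (fun v => act (g v) v)^[k + 1] y = y
    rw [Function.iterate_succ_apply]
    simp only [hy]
    exact hk
  exact (Function.bijOn_periodicPts (fun v => act (g v) v)).injOn (p k1 x1 h1 hk1) (p k2 x2 h2 hk2)
    (by simp only [h1, h2])

open Classical in
private theorem pred_exists {g : W → D} {x' : W} (hg : g ∈ FG act {x'}) :
    ∃ x, act (g x) x = x' ∧ ∀ e : D, Function.update g x e ∈ FG act {x} := by
  obtain ⟨r, hr⟩ := hg (act (g x') x')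
  refine ⟨(fun v => act (g v) v)^[r] x', ?_, ?_⟩
  · have : (fun v => act (g v) v)^[r + 1] x' = x' := by
      rw [Function.iterate_succ_apply]
      exact hr
    rw [Function.iterate_succ_apply'] at this
    exact this
  · intro e v
    obtain ⟨t, ht⟩ := hg v
    have h1 : (fun v => act (g v) v)^[r + t] v = (fun v => act (g v) v)^[r] x' := by
      rw [Function.iterate_add_apply]
      rw [Set.mem_singleton_iff.mp ht]
    exact reach_congr act (g := g) (fun v hv => Function.update_of_ne hv _ _) _ v h1

variable [Fintype W] [Fintype D]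

/-- one step: every rooted tree has `|D|` preimages -/
theorem gmv_step_sum (F : (W → D) → W → ℝ) : (open Classical in
    ∑ x : W, ∑ g : W → D, ∑ d : D, (if g ∈ FG act {x} then
      F (Function.update g x d) (act d x) else 0)) =
    (open Classical in
      (Fintype.card D : ℝ) * ∑ x : W, ∑ g : W → D, if g ∈ FG act {x} then F g x else 0) := by
  classical
  have e1 : (∑ x : W, ∑ g : W → D, ∑ d : D, (if g ∈ FG act {x} then
      F (Function.update g x d) (act d x) else 0)) =
      ∑ p ∈ (Finset.univ : Finset (W × (W → D) × D)).filter (fun p => p.2.1 ∈ FG act {p.1}),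
        F (Function.update p.2.1 p.1 p.2.2) (act p.2.2 p.1) := by
    rw [Finset.sum_filter, Fintype.sum_prod_type]
    refine Finset.sum_congr rfl fun x _ => ?_
    rw [Fintype.sum_prod_type]
  have e2 : ((Fintype.card D : ℝ) * ∑ x : W, ∑ g : W → D, if g ∈ FG act {x} then F g x else 0) =
      ∑ p ∈ (Finset.univ : Finset (W × (W → D) × D)).filter (fun p => p.2.1 ∈ FG act {p.1}),
        F p.2.1 p.1 := by
    rw [Finset.sum_filter, Fintype.sum_prod_type, Finset.mul_sum]
    refine Finset.sum_congr rfl fun x _ => ?_
    rw [Fintype.sum_prod_type, Finset.mul_sum]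
    refine Finset.sum_congr rfl fun g _ => ?_
    dsimp only
    by_cases hg : g ∈ FG act {x}
    · simp [hg]
    · simp [hg]
  refine Eq.trans ?_ (Eq.trans (Finset.sum_bij
    (s := (Finset.univ : Finset (W × (W → D) × D)).filter (fun p => p.2.1 ∈ FG act {p.1}))
    (t := (Finset.univ : Finset (W × (W → D) × D)).filter (fun p => p.2.1 ∈ FG act {p.1}))
    (f := fun p => F (Function.update p.2.1 p.1 p.2.2) (act p.2.2 p.1))
    (g := fun p => F p.2.1 p.1)
    (fun p _ => (act p.2.2 p.1, Function.update p.2.1 p.1 p.2.2, p.2.1 p.1)) ?_ ?_ ?_ ?_) ?_)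
  · convert e1 using 1
  · rintro ⟨x, g, d⟩ hp
    simp only [Finset.mem_filter, Finset.mem_univ, true_and] at hp ⊢
    exact step_mem act hp d
  · rintro ⟨x1, g1, d1⟩ hp1 ⟨x2, g2, d2⟩ hp2 h
    simp only [Finset.mem_filter, Finset.mem_univ, true_and, Prod.mk.injEq] at hp1 hp2 h
    obtain ⟨ha, hb, hc⟩ := h
    have k1 : act (Function.update g1 x1 d1 x1) x1 = act d1 x1 := by rw [Function.update_self]
    have k2 : act (Function.update g1 x1 d1 x2) x2 = act d1 x1 := by
      rw [hb, Function.update_self, ha]
    have r1 : ∃ k, (fun v => act (Function.update g1 x1 d1 v) v)^[k] (act d1 x1) = x1 := by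
      obtain ⟨t, ht⟩ := hp1 (act d1 x1)
      exact reach_congr act (g := g1) (fun v hv => Function.update_of_ne hv _ _) t _ ht
    have r2 : ∃ k, (fun v => act (Function.update g1 x1 d1 v) v)^[k] (act d1 x1) = x2 := by
      obtain ⟨t, ht⟩ := hp2 (act d1 x1)
      rw [hb]
      exact reach_congr act (g := g2) (fun v hv => Function.update_of_ne hv _ _) t _ ht
    have hx : x1 = x2 := pred_unique act k1 k2 r1 r2
    subst hx
    have hd : d1 = d2 := by
      have := congrFun hb x1
      rwa [Function.update_self, Function.update_self] at this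
    subst hd
    have hg : g1 = g2 := by
      funext v
      by_cases hv : v = x1
      · rw [hv]; exact hc
      · have := congrFun hb v
        rwa [Function.update_of_ne hv, Function.update_of_ne hv] at this
    rw [hg]
  · rintro ⟨x', g', e⟩ hp
    simp only [Finset.mem_filter, Finset.mem_univ, true_and] at hp
    obtain ⟨x, hx1, hx2⟩ := pred_exists act hp
    refine ⟨(x, Function.update g' x e, g' x), ?_, ?_⟩
    · simp only [Finset.mem_filter, Finset.mem_univ, true_and]
      convert hx2 e
    · simp only [Prod.mk.injEq]
      refine ⟨hx1, ?_, ?_⟩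
      · rw [Function.update_idem, Function.update_eq_self]
      · rw [Function.update_self]
  · rintro ⟨x, g, d⟩ _
    rfl
  · convert e2.symm using 1

variable [Nonempty D] [MeasurableSpace D] [MeasurableSingletonClass D]

/-- stationarity at time `t`, jointly with the choices after `t` -/
theorem gmv_stat (t : ℕ) (F : (W → D) → W → (ℕ → D) → ℝ) (hF : ∀ g x, Measurable (F g x))
    (C : ℝ) (hC : ∀ g x ω, |F g x ω| ≤ C) : (open Classical in
    ∑ x : W, ∑ g : W → D, (if g ∈ FG act {x} then
      ∫ ω, F (gmv act g x ω t) (pos act x ω t) (sh t ω) ∂(mu D) else 0)) =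
    (open Classical in
      ∑ x : W, ∑ g : W → D, if g ∈ FG act {x} then ∫ ω, F g x ω ∂(mu D) else 0) := by
  classical
  induction t generalizing F C with
  | zero =>
    have h0 : ∀ ω : ℕ → D, sh 0 ω = ω := fun ω => by funext i; simp [sh]
    simp only [gmv, pos, h0]
  | succ t ih =>
    have hcard : (Fintype.card D : ℝ) ≠ 0 := by
      exact_mod_cast Fintype.card_ne_zero
    have hm : ∀ g x, Measurable (fun p : D × (ℕ → D) =>
        F (Function.update g x p.1) (act p.1 x) p.2) := fun g x =>
      measurable_from_prod_countable_right fun d => by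
        dsimp only
        exact hF _ _
    have h1 := ih (fun g x ω => F (Function.update g x (ω 0)) (act (ω 0) x) (sh 1 ω))
      (fun g x => (hm g x).comp ((measurable_pi_apply 0).prodMk (measurable_sh 1))) C
      (fun g x ω => hC _ _ _)
    have h2 : ∀ (g : W → D) (x : W) (ω : ℕ → D),
        F (gmv act g x ω (t + 1)) (pos act x ω (t + 1)) (sh (t + 1) ω) =
          F (Function.update (gmv act g x ω t) (pos act x ω t) (sh t ω 0))
            (act (sh t ω 0) (pos act x ω t)) (sh 1 (sh t ω)) := by
      intro g x ω
      have e1 : sh t ω 0 = ω t := rfl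
      have e2 : sh 1 (sh t ω) = sh (t + 1) ω := by
        funext i
        simp only [sh]
        congr 1
        omega
      rw [e1, e2]
      simp only [gmv, pos]
    have h3 : ∀ (g : W → D) (x : W),
        ∫ ω, F (Function.update g x (ω 0)) (act (ω 0) x) (sh 1 ω) ∂(mu D) =
          (∑ d : D, ∫ η, F (Function.update g x d) (act d x) η ∂(mu D)) / Fintype.card D := by
      intro g x
      have h7 : Measurable (fun p : (ℕ → D) × (ℕ → D) => (p.1 0, p.2)) :=
        ((measurable_pi_apply 0).comp measurable_fst).prodMk measurable_snd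
      have h8 : Measurable (Function.uncurry fun (ω η : ℕ → D) =>
          F (Function.update g x (ω 0)) (act (ω 0) x) η) := (hm g x).comp h7
      have h4 := markov_int 1 (fun ω η => F (Function.update g x (ω 0)) (act (ω 0) x) η) h8 C
        (fun ω η => hC _ _ _)
        (fun ω ω' η h => by simp only [h 0 Nat.one_pos])
      rw [h4]
      exact mu_first (fun d => ∫ η, F (Function.update g x d) (act d x) η ∂(mu D))
    simp only [h2]
    refine Eq.trans (by convert h1 using 1) ?_
    simp only [h3]
    have h5 := gmv_step_sum act (fun g x => ∫ η, F g x η ∂(mu D))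
    have h6 : (∑ x : W, ∑ g : W → D, (if g ∈ FG act {x} then
        (∑ d : D, ∫ η, F (Function.update g x d) (act d x) η ∂(mu D)) / Fintype.card D else 0)) =
        (∑ x : W, ∑ g : W → D, ∑ d : D, (if g ∈ FG act {x} then
          ∫ η, F (Function.update g x d) (act d x) η ∂(mu D) else 0)) / Fintype.card D := by
      rw [Finset.sum_div]
      refine Finset.sum_congr rfl fun x _ => ?_
      rw [Finset.sum_div]
      refine Finset.sum_congr rfl fun g _ => ?_
      split_ifs
      · rfl
      · simp
    refine Eq.trans (by convert h6 using 1) ?_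
    rw [div_eq_iff hcard, mul_comm]
    convert h5 using 1

end rootgen

end Pool.Agent.UST
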