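import Pool.Agent.Helper54.UST.Defs

/-! Wilson's theorem, combinatorial part: directions leading to `A`. -/

namespace Pool.Agent.UST

open MeasureTheory

namespace WilA

variable {W D : Type} (act : D → W → W)

/-- one step along the directions `g` -/
def stp (g : W → D) (v : W) : W := act (g v) v

/-- the number of steps to `A` -/
noncomputable def TT (g : W → D) (A : Set W) (v : W) : ℕ := sInf {t | (stp act g)^[t] v ∈ A}

theorem gpath_def (g : W → D) (A : Set W) (v : W) :
    gpath act g A v = (List.range (TT act g A v + 1)).map (fun i => (stp act g)^[i] v) := rfl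

theorem TT_mem (g : W → D) (A : Set W) (v : W) (hv : v ∈ A) : TT act g A v = 0 := by
  unfold TT
  have h : (0 : ℕ) ∈ {t | (stp act g)^[t] v ∈ A} := hv
  exact Nat.sInf_eq_zero.mpr (Or.inl h)

theorem TT_spec (g : W → D) (A : Set W) (v : W) (hv : ∃ t, (stp act g)^[t] v ∈ A) :
    (stp act g)^[TT act g A v] v ∈ A :=
  Nat.sInf_mem (s := {t | (stp act g)^[t] v ∈ A}) hv

theorem TT_succ (g : W → D) (A : Set W) (v : W) (hv : ∃ t, (stp act g)^[t] v ∈ A)
    (hvA : v ∉ A) : TT act g A v = TT act g A (stp act g v) + 1 := by
  have h1 := TT_spec act g A v hv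
  have h0 : TT act g A v ≠ 0 := by
    intro h
    rw [h] at h1
    exact hvA h1
  obtain ⟨s, hs⟩ := Nat.exists_eq_succ_of_ne_zero h0
  have h2 : (stp act g)^[s] (stp act g v) ∈ A := by
    rw [hs] at h1
    rwa [Function.iterate_succ_apply] at h1
  have h3 : TT act g A (stp act g v) ≤ s := Nat.sInf_le h2
  have h4 : (stp act g)^[TT act g A (stp act g v) + 1] v ∈ A := by
    rw [Function.iterate_succ_apply]
    exact TT_spec act g A _ ⟨s, h2⟩
  have h5 : TT act g A v ≤ TT act g A (stp act g v) + 1 := Nat.sInf_le h4
  omega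

theorem step_reach (g : W → D) (A : Set W) (v : W) (hv : ∃ t, (stp act g)^[t] v ∈ A)
    (hvA : v ∉ A) : ∃ t, (stp act g)^[t] (stp act g v) ∈ A := by
  obtain ⟨t, ht⟩ := hv
  cases t with
  | zero => exact absurd ht hvA
  | succ t =>
    rw [Function.iterate_succ_apply] at ht
    exact ⟨t, ht⟩

theorem gpath_cons' (g : W → D) (A : Set W) (w : W) (hg : ∃ t, (stp act g)^[t] w ∈ A)
    (hw : w ∉ A) : gpath act g A w = w :: gpath act g A (stp act g w) := by
  rw [gpath_def, gpath_def, TT_succ act g A w hg hw, List.range_succ_eq_map, List.map_cons,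
    List.map_map]
  rfl

/-- induction along the paths -/
theorem FG_ind {g : W → D} {A : Set W} (hg : g ∈ FG act A) {P : W → Prop}
    (h0 : ∀ w ∈ A, P w) (h1 : ∀ w, w ∉ A → P (stp act g w) → P w) : ∀ w, P w := by
  have key : ∀ (t : ℕ) (w : W), (stp act g)^[t] w ∈ A → P w := by
    intro t
    induction t with
    | zero => intro w hw; exact h0 w hw
    | succ t ih =>
      intro w hw
      by_cases hwA : w ∈ A
      · exact h0 w hwA
      · apply h1 w hwA
        apply ih
        rwa [Function.iterate_succ_apply] at hw
  intro w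
  obtain ⟨t, ht⟩ := hg w
  exact key t w ht

theorem FG_mono {A A' : Set W} (h : A ⊆ A') {g : W → D} (hg : g ∈ FG act A) : g ∈ FG act A' := by
  intro v
  obtain ⟨t, ht⟩ := hg v
  exact ⟨t, h ht⟩

theorem gpath_ne_nil (g : W → D) (A : Set W) (w : W) : gpath act g A w ≠ [] := by
  rw [gpath_def]
  simp

end WilA

section wila
variable {W D : Type} (act : D → W → W)

theorem gpath_mem (g : W → D) (A : Set W) (w : W) (hw : w ∈ A) : gpath act g A w = [w] := by
  rw [WilA.gpath_def, WilA.TT_mem act g A w hw]
  rfl

theorem gpath_cons (g : W → D) (A : Set W) (w : W) (hg : g ∈ FG act A) (hw : w ∉ A) :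
    gpath act g A w = w :: gpath act g A (act (g w) w) :=
  WilA.gpath_cons' act g A w (hg w) hw

theorem gpath_last (g : W → D) (A : Set W) (w : W) (hg : g ∈ FG act A) :
    ∃ a ∈ A, (gpath act g A w).getLast? = some a := by
  refine WilA.FG_ind act hg (P := fun w => ∃ a ∈ A, (gpath act g A w).getLast? = some a)
    (fun w hw => ⟨w, hw, ?_⟩) (fun w hw ih => ?_) w
  · rw [gpath_mem act g A w hw]
    rfl
  · obtain ⟨a, ha, h⟩ := ih
    refine ⟨a, ha, ?_⟩
    rw [gpath_cons act g A w hg hw, List.getLast?_cons]
    have h' : (gpath act g A (act (g w) w)).getLast? = some a := h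
    rw [h']
    rfl

theorem gpath_head (g : W → D) (A : Set W) (w : W) : (gpath act g A w).head? = some w := by
  rw [WilA.gpath_def, List.range_succ_eq_map, List.map_cons]
  rfl

theorem gpath_dropLast (g : W → D) (A : Set W) (w : W) (hg : g ∈ FG act A) :
    ∀ y ∈ (gpath act g A w).dropLast, y ∉ A := by
  refine WilA.FG_ind act hg (P := fun w => ∀ y ∈ (gpath act g A w).dropLast, y ∉ A)
    (fun w hw => ?_) (fun w hw ih => ?_) w
  · rw [gpath_mem act g A w hw]
    intro y hy
    exact absurd hy List.not_mem_nil
  · rw [gpath_cons act g A w hg hw,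
      List.dropLast_cons_of_ne_nil (WilA.gpath_ne_nil act g A (act (g w) w))]
    intro y hy
    rcases List.mem_cons.mp hy with hy | hy
    · rw [hy]; exact hw
    · exact ih y hy

theorem gpath_nodup (g : W → D) (A : Set W) (w : W) (hg : g ∈ FG act A) :
    (gpath act g A w).Nodup := by
  have hT : ∀ v, ∀ y ∈ gpath act g A v, WilA.TT act g A y ≤ WilA.TT act g A v := by
    refine WilA.FG_ind act hg (fun v hv => ?_) (fun v hv ih => ?_)
    · rw [gpath_mem act g A v hv]
      intro y hy
      rw [List.mem_singleton.mp hy]
    · rw [gpath_cons act g A v hg hv, WilA.TT_succ act g A v (hg v) hv]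
      intro y hy
      rcases List.mem_cons.mp hy with hy | hy
      · rw [hy, WilA.TT_succ act g A v (hg v) hv]
      · exact (ih y hy).trans (Nat.le_succ _)
  refine WilA.FG_ind act hg (P := fun w => (gpath act g A w).Nodup)
    (fun w hw => ?_) (fun w hw ih => ?_) w
  · rw [gpath_mem act g A w hw]
    exact List.nodup_singleton w
  · rw [gpath_cons act g A w hg hw, List.nodup_cons]
    refine ⟨fun h => ?_, ih⟩
    have h1 := hT _ w h
    rw [WilA.TT_succ act g A w (hg w) hw] at h1
    have h2 : WilA.TT act g A (act (g w) w) = WilA.TT act g A (WilA.stp act g w) := rfl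
    omega

namespace WilA

theorem gpath_congr' (g g' : W → D) (A : Set W) (hg : g ∈ FG act A) (w : W) :
    (∀ v ∈ (gpath act g A w).dropLast, g' v = g v) →
      (∃ t, (stp act g')^[t] w ∈ A) ∧ gpath act g' A w = gpath act g A w := by
  refine FG_ind act hg (P := fun w => (∀ v ∈ (gpath act g A w).dropLast, g' v = g v) →
      (∃ t, (stp act g')^[t] w ∈ A) ∧ gpath act g' A w = gpath act g A w)
    (fun w hw _ => ?_) (fun w hw ih h => ?_) w
  · exact ⟨⟨0, hw⟩, by rw [gpath_mem act g A w hw, gpath_mem act g' A w hw]⟩
  · rw [gpath_cons act g A w hg hw,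
      List.dropLast_cons_of_ne_nil (gpath_ne_nil act g A (act (g w) w))] at h
    have h1 : g' w = g w := h w List.mem_cons_self
    have h2 : stp act g' w = stp act g w := by unfold stp; rw [h1]
    obtain ⟨⟨t, ht⟩, h3⟩ := ih (fun v hv => h v (List.mem_cons_of_mem _ hv))
    have h4 : ∃ t, (stp act g')^[t] w ∈ A := ⟨t + 1, by
      rw [Function.iterate_succ_apply, h2]; exact ht⟩
    refine ⟨h4, ?_⟩
    rw [gpath_cons' act g' A w h4 hw, gpath_cons' act g A w (hg w) hw, h2, h3]

end WilA

/-- the path depends only on the directions at its vertices outside `A` -/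
theorem gpath_congr (g g' : W → D) (A : Set W) (w : W) (hg : g ∈ FG act A)
    (h : ∀ v ∈ (gpath act g A w).dropLast, g' v = g v) : gpath act g' A w = gpath act g A w :=
  (WilA.gpath_congr' act g g' A hg w h).2

/-- splitting of a path at a vertex -/
theorem gpath_split (g : W → D) (A : Set W) (w y : W) (hg : g ∈ FG act A) (η0 η1 : List W) :
    gpath act g A w = η0 ++ y :: η1 ↔ gpath act g A y = y :: η1 ∧
      gpath act g (A ∪ st (y :: η1)) w = η0 ++ [y] := by
  have hg' : g ∈ FG act (A ∪ st (y :: η1)) := WilA.FG_mono act Set.subset_union_left hg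
  have hy : y ∈ A ∪ st (y :: η1) := Or.inr (show y ∈ y :: η1 from List.mem_cons_self)
  induction η0 generalizing w with
  | nil =>
    rw [List.nil_append, List.nil_append]
    constructor
    · intro h
      have h1 : w = y := by
        have := gpath_head act g A w
        rw [h] at this
        exact (Option.some.inj this).symm
      rw [h1] at h ⊢
      exact ⟨h, gpath_mem act g _ y hy⟩
    · rintro ⟨h1, h2⟩
      have h3 : w = y := by
        have := gpath_head act g (A ∪ st (y :: η1)) w
        rw [h2] at this
        exact (Option.some.inj this).symm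
      rw [h3]
      exact h1
  | cons x η0 ih =>
    constructor
    · intro h
      have hw : w ∉ A := by
        intro hw
        rw [gpath_mem act g A w hw] at h
        have := congrArg List.length h
        simp at this
      have hnd := gpath_nodup act g A w hg
      rw [gpath_cons act g A w hg hw] at h hnd
      rw [List.cons_append, List.cons.injEq] at h
      obtain ⟨h1, h2⟩ := h
      obtain ⟨h3, h4⟩ := (ih (act (g w) w)).mp h2
      refine ⟨h3, ?_⟩
      have hw' : w ∉ A ∪ st (y :: η1) := by
        rintro (h5 | h5)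
        · exact hw h5
        · rw [h2, List.nodup_cons] at hnd
          exact hnd.1 (List.mem_append_right _ h5)
      rw [gpath_cons act g _ w hg' hw', h4, h1, List.cons_append]
    · rintro ⟨h1, h2⟩
      have hw' : w ∉ A ∪ st (y :: η1) := by
        intro hw
        rw [gpath_mem act g _ w hw] at h2
        have := congrArg List.length h2
        simp at this
      have hw : w ∉ A := fun h => hw' (Or.inl h)
      rw [gpath_cons act g _ w hg' hw', List.cons_append, List.cons.injEq] at h2
      obtain ⟨h3, h4⟩ := h2
      rw [gpath_cons act g A w hg hw, (ih (act (g w) w)).mpr ⟨h1, h4⟩, h3, List.cons_append]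

namespace WilA

theorem pos_succ' (x : W) (ω : ℕ → D) (t : ℕ) :
    pos act x ω (t + 1) = pos act (act (ω 0) x) (fun i => ω (i + 1)) t := by
  induction t with
  | zero => rfl
  | succ t ih =>
    show act (ω (t + 1)) (pos act x ω (t + 1)) = _
    rw [ih]
    rfl

/-- paths for `A` and `insert w A` -/
theorem gpath_insert (g : W → D) (A : Set W) (w : W) (hg : g ∈ FG act A) (v : W) :
    w ∉ gpath act g A v → gpath act g (insert w A) v = gpath act g A v := by
  have hg' : g ∈ FG act (insert w A) := FG_mono act (Set.subset_insert w A) hg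
  refine FG_ind act hg (P := fun v => w ∉ gpath act g A v →
    gpath act g (insert w A) v = gpath act g A v) (fun v hv _ => ?_) (fun v hv ih h => ?_) v
  · rw [gpath_mem act g A v hv, gpath_mem act g _ v (Set.mem_insert_of_mem _ hv)]
  · rw [gpath_cons act g A v hg hv, List.mem_cons, not_or] at h
    have hv' : v ∉ insert w A := by
      rintro (h1 | h1)
      · exact h.1 h1.symm
      · exact hv h1
    rw [gpath_cons act g A v hg hv, gpath_cons act g _ v hg' hv']
    have h2 : gpath act g (insert w A) (act (g v) v) = gpath act g A (act (g v) v) := ih h.2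
    rw [h2]

theorem gpath_insert' (g : W → D) (A : Set W) (w : W) (hg : g ∈ FG act A) (v : W) :
    w ∉ gpath act g (insert w A) v → gpath act g A v = gpath act g (insert w A) v := by
  have hg' : g ∈ FG act (insert w A) := FG_mono act (Set.subset_insert w A) hg
  refine FG_ind act hg' (P := fun v => w ∉ gpath act g (insert w A) v →
    gpath act g A v = gpath act g (insert w A) v) (fun v hv h => ?_) (fun v hv ih h => ?_) v
  · rw [gpath_mem act g _ v hv] at h ⊢
    have hv1 : v ∈ A := by
      rcases hv with h1 | h1
      · exact absurd (List.mem_singleton.mpr h1.symm) h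
      · exact h1
    rw [gpath_mem act g A v hv1]
  · rw [gpath_cons act g _ v hg' hv, List.mem_cons, not_or] at h
    have hv1 : v ∉ A := fun h1 => hv (Set.mem_insert_of_mem _ h1)
    rw [gpath_cons act g A v hg hv1, gpath_cons act g _ v hg' hv]
    have h2 : gpath act g A (act (g v) v) = gpath act g (insert w A) (act (g v) v) := ih h.2
    rw [h2]

theorem getLast_reach (g : W → D) (A : Set W) (v a : W)
    (h : (gpath act g A v).getLast? = some a) : (stp act g)^[TT act g A v] v = a := by
  rw [gpath_def, List.range_succ, List.map_append, List.map_singleton,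
    List.getLast?_append_of_ne_nil _ (by simp)] at h
  exact Option.some.inj h

theorem FG_update (g : W → D) (A : Set W) (w : W) (hw : w ∈ A) (g' : W → D)
    (h : ∀ v, v ≠ w → g' v = g v) (hg : g ∈ FG act A) : g' ∈ FG act A := by
  have key : ∀ v, ∃ t, (stp act g')^[t] v ∈ A := by
    refine FG_ind act hg (fun v hv => ⟨0, hv⟩) (fun v hv ih => ?_)
    obtain ⟨t, ht⟩ := ih
    refine ⟨t + 1, ?_⟩
    rw [Function.iterate_succ_apply]
    have h1 : stp act g' v = stp act g v := by
      unfold stp
      rw [h v (fun hvw => hv (hvw ▸ hw))]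
    rw [h1]
    exact ht
  exact key

theorem gpath_update (g : W → D) (A : Set W) (w : W) (hw : w ∈ A) (g' : W → D)
    (h : ∀ v, v ≠ w → g' v = g v) (hg : g ∈ FG act A) (e : W) :
    gpath act g' A e = gpath act g A e := by
  refine gpath_congr act g g' A e hg fun v hv => h v ?_
  rintro rfl
  exact gpath_dropLast act g A e hg v hv hw

/-- the set on the left of `FG_rec` -/
theorem FG_rec_set (A : Set W) (w : W) (hw : w ∉ A) (e : W) (η : List W)
    (hη : ∃ a ∈ A, (e :: η).getLast? = some a) :
    FG act A ∩ {g | gpath act g A w = w :: e :: η} =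
      {g | g ∈ FG act (insert w A) ∩ {g | gpath act g (insert w A) e = e :: η} ∧
        act (g w) w = e} := by
  ext g
  constructor
  · rintro ⟨hg, hp⟩
    have hp' : gpath act g A w = w :: e :: η := hp
    have hnd := gpath_nodup act g A w hg
    rw [hp', List.nodup_cons] at hnd
    rw [gpath_cons act g A w hg hw, List.cons.injEq] at hp'
    have h1 := gpath_head act g A (act (g w) w)
    rw [hp'.2] at h1
    have h2 : act (g w) w = e := (Option.some.inj h1).symm
    refine ⟨⟨FG_mono act (Set.subset_insert w A) hg, ?_⟩, h2⟩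
    show gpath act g (insert w A) e = e :: η
    have h3 : gpath act g A e = e :: η := by
      rw [← hp'.2, h2]
    rw [gpath_insert act g A w hg e (by rw [h3]; exact hnd.1), h3]
  · rintro ⟨⟨hg', hp⟩, he⟩
    have hp' : gpath act g (insert w A) e = e :: η := hp
    obtain ⟨a, ha, hla⟩ := hη
    have hla' : (gpath act g (insert w A) e).getLast? = some a := by rw [hp']; exact hla
    have hwn : w ∉ e :: η := by
      intro hwm
      have hd := gpath_dropLast act g (insert w A) e hg'
      rw [hp'] at hd
      have h1 : (e :: η) = (e :: η).dropLast ++ [a] := by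
        have h2 : (e :: η).getLast (List.cons_ne_nil _ _) = a := by
          rw [List.getLast?_eq_some_getLast (List.cons_ne_nil _ _)] at hla
          exact Option.some.inj hla
        conv_lhs => rw [← List.dropLast_append_getLast (List.cons_ne_nil e η), h2]
      rw [h1, List.mem_append, List.mem_singleton] at hwm
      rcases hwm with h2 | h2
      · exact hd w h2 (Set.mem_insert w A)
      · exact hw (h2 ▸ ha)
    have hea : ∃ t, (stp act g)^[t] e ∈ A :=
      ⟨TT act g (insert w A) e, by rw [getLast_reach act g _ e a hla']; exact ha⟩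
    have hg : g ∈ FG act A := by
      have key : ∀ v, ∃ t, (stp act g)^[t] v ∈ A := by
        refine FG_ind act hg' (fun v hv => ?_) (fun v hv ih => ?_)
        · rcases hv with hv | hv
          · obtain ⟨t, ht⟩ := hea
            refine ⟨t + 1, ?_⟩
            rw [Function.iterate_succ_apply, hv]
            have : stp act g w = e := he
            rw [this]
            exact ht
          · exact ⟨0, hv⟩
        · obtain ⟨t, ht⟩ := ih
          exact ⟨t + 1, by rw [Function.iterate_succ_apply]; exact ht⟩
      exact key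
    refine ⟨hg, ?_⟩
    show gpath act g A w = w :: e :: η
    rw [gpath_cons act g A w hg hw, he, gpath_insert' act g A w hg e (by rw [hp']; exact hwn), hp']

end WilA

variable [Finite W] [Fintype D]

theorem FG_nonempty (A : Set W) (hA : Reach act A) : (FG act A).Nonempty := by
  classical
  set dst : W → ℕ := fun x => sInf {t | ∃ ω : ℕ → D, pos act x ω t ∈ A} with hdst
  have hne : ∀ x, {t | ∃ ω : ℕ → D, pos act x ω t ∈ A}.Nonempty := by
    intro x
    obtain ⟨ω, t, ht⟩ := hA x
    exact ⟨t, ω, ht⟩
  have hch : ∀ x, ∃ e : D, x ∉ A → dst (act e x) < dst x := by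
    intro x
    obtain ⟨ω, hω⟩ := Nat.sInf_mem (hne x)
    refine ⟨ω 0, fun hx => ?_⟩
    have h0 : dst x ≠ 0 := by
      intro h0
      have h1 : pos act x ω (dst x) ∈ A := hω
      rw [h0] at h1
      exact hx h1
    obtain ⟨s, hs⟩ := Nat.exists_eq_succ_of_ne_zero h0
    have h1 : pos act x ω (dst x) ∈ A := hω
    rw [hs, Nat.succ_eq_add_one, WilA.pos_succ'] at h1
    have h2 : dst (act (ω 0) x) ≤ s := Nat.sInf_le ⟨_, h1⟩
    omega
  choose g hg using hch
  refine ⟨g, ?_⟩
  have key : ∀ (m : ℕ) (v : W), dst v = m → ∃ t, (WilA.stp act g)^[t] v ∈ A := by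
    intro m
    induction m using Nat.strong_induction_on with
    | _ m ih =>
      intro v hv
      by_cases hvA : v ∈ A
      · exact ⟨0, hvA⟩
      · have h1 := hg v hvA
        obtain ⟨t, ht⟩ := ih (dst (act (g v) v)) (by omega) _ rfl
        exact ⟨t + 1, by rw [Function.iterate_succ_apply]; exact ht⟩
  exact fun v => key _ v rfl

theorem FG_rec (A : Set W) (w : W) (hw : w ∉ A) (e : W) (η : List W)
    (hη : ∃ a ∈ A, (e :: η).getLast? = some a) :
    ((FG act A ∩ {g | gpath act g A w = w :: e :: η}).ncard : ℝ) =
      (Set.ncard {d | act d w = e} : ℝ) / Fintype.card D *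
        ((FG act (insert w A) ∩ {g | gpath act g (insert w A) e = e :: η}).ncard : ℝ) := by
  classical
  rw [WilA.FG_rec_set act A w hw e η hη]
  set X : Set (W → D) := FG act (insert w A) ∩ {g | gpath act g (insert w A) e = e :: η} with hX
  have hXu : ∀ (g : W → D) (d : D), g ∈ X → Function.update g w d ∈ X := by
    rintro g d ⟨h1, h2⟩
    have h3 : ∀ v, v ≠ w → Function.update g w d v = g v :=
      fun v hv => Function.update_of_ne hv d g
    refine ⟨WilA.FG_update act g _ w (Set.mem_insert w A) _ h3 h1, ?_⟩
    show gpath act _ (insert w A) e = e :: η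
    rw [WilA.gpath_update act g _ w (Set.mem_insert w A) _ h3 h1 e]
    exact h2
  have hcard : Set.ncard ({g | g ∈ X ∧ act (g w) w = e} ×ˢ (Set.univ : Set D)) =
      Set.ncard ({d | act d w = e} ×ˢ X) := by
    refine Set.ncard_congr (fun p _ => (p.1 w, Function.update p.1 w p.2)) ?_ ?_ ?_
    · rintro ⟨g, d⟩ ⟨⟨h1, h2⟩, -⟩
      exact ⟨h2, hXu g d h1⟩
    · rintro ⟨g, d⟩ ⟨g', d'⟩ - - h
      simp only [Prod.mk.injEq] at h
      obtain ⟨h1, h2⟩ := h
      have h3 : d = d' := by
        have := congrFun h2 w
        rwa [Function.update_self, Function.update_self] at this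
      have h4 : g = g' := by
        funext v
        by_cases hv : v = w
        · rw [hv]; exact h1
        · have := congrFun h2 v
          rwa [Function.update_of_ne hv, Function.update_of_ne hv] at this
      rw [h3, h4]
    · rintro ⟨d, g⟩ ⟨h1, h2⟩
      refine ⟨(Function.update g w d, g w), ⟨⟨hXu g d h2, ?_⟩, Set.mem_univ _⟩, ?_⟩
      · show act (Function.update g w d w) w = e
        rw [Function.update_self]
        exact h1
      · simp
  rw [Set.ncard_prod, Set.ncard_prod, Set.ncard_univ, Nat.card_eq_fintype_card] at hcard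
  by_cases hD : Fintype.card D = 0
  · have hemp : IsEmpty D := Fintype.card_eq_zero_iff.mp hD
    have h1 : ∀ s : Set (W → D), s.ncard = 0 := by
      intro s
      have : s = ∅ := by
        ext g
        exact ⟨fun _ => hemp.elim (g w), fun h => absurd h (Set.notMem_empty g)⟩
      rw [this, Set.ncard_empty]
    rw [h1, h1]
    simp
  · have hD' : (Fintype.card D : ℝ) ≠ 0 := Nat.cast_ne_zero.mpr hD
    have h2 : (Set.ncard {g | g ∈ X ∧ act (g w) w = e} : ℝ) * Fintype.card D =
        (Set.ncard {d | act d w = e} : ℝ) * (X.ncard : ℝ) := by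
      exact_mod_cast hcard
    field_simp
    linarith

end wila

end Pool.Agent.UST
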