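import Pool.Agent.Helper54.UST.TreeBasic
import Pool.Agent.Helper54.UST.WilA
import Pool.Agent.Helper54.UST.BaseTorus

/-! Spanning trees of the torus and directions to the root `ρ`. -/

namespace Pool.Agent.UST

open MeasureTheory

/-! ### the increments -/

theorem trfg_inc_true (n : ℕ) (i : Fin 4) (s : Bool) :
    inc n (true, i, s) = Pi.single i (if s then 1 else -1) := rfl

theorem trfg_inc_false (n : ℕ) (p : Fin 4 × Bool) : inc n (false, p) = 0 := rfl

theorem trfg_one_ne (n : ℕ) (hn : 3 ≤ n) : (1 : ZMod n) ≠ 0 := by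
  have : Fact (1 < n) := ⟨by omega⟩
  exact one_ne_zero

theorem trfg_one_ne_neg (n : ℕ) (hn : 3 ≤ n) : (1 : ZMod n) ≠ -1 := by
  intro h
  have h1 : ((2 : ℕ) : ZMod n) = 0 := by
    have h2 : (1 : ZMod n) + 1 = 0 := by
      nth_rewrite 2 [h]
      exact add_neg_cancel 1
    push_cast
    rw [← h2]
    norm_num
  rw [ZMod.natCast_eq_zero_iff] at h1
  have := Nat.le_of_dvd (by norm_num) h1
  omega

theorem trfg_inc_inj (n : ℕ) (hn : 3 ≤ n) (d d' : DD) (h0 : inc n d ≠ 0)
    (h : inc n d = inc n d') : d = d' := by
  have h0' : inc n d' ≠ 0 := h ▸ h0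
  obtain ⟨a, i, s⟩ := d
  obtain ⟨a', i', s'⟩ := d'
  cases a with
  | false => exact absurd rfl h0
  | true =>
    cases a' with
    | false => exact absurd rfl h0'
    | true =>
      rw [trfg_inc_true, trfg_inc_true] at h
      have hu : ∀ s : Bool, (if s then (1 : ZMod n) else -1) ≠ 0 := by
        intro s
        cases s
        · exact neg_ne_zero.2 (trfg_one_ne n hn)
        · exact trfg_one_ne n hn
      have hi := congrFun h i
      rw [Pi.single_eq_same] at hi
      by_cases hii : i = i'
      · subst hii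
        rw [Pi.single_eq_same] at hi
        have : s = s' := by
          cases s <;> cases s'
          · rfl
          · exact absurd hi.symm (trfg_one_ne_neg n hn)
          · exact absurd hi (trfg_one_ne_neg n hn)
          · rfl
        rw [this]
      · rw [Pi.single_eq_of_ne hii] at hi
        exact absurd hi (hu s)

theorem trfg_act_inj (n : ℕ) (hn : 3 ≤ n) (d d' : DD) (x : V n) (h0 : act n d x ≠ x)
    (h : act n d x = act n d' x) : d = d' := by
  apply trfg_inc_inj n hn d d'
  · intro h1
    apply h0
    rw [act, h1, add_zero]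
  · exact add_left_cancel h

theorem trfg_torus_act (n : ℕ) (d : DD) (x : V n) (h : act n d x ≠ x) :
    (torus n).Adj x (act n d x) := by
  rw [torus, SimpleGraph.fromRel_adj]
  refine ⟨h.symm, ?_⟩
  obtain ⟨a, i, s⟩ := d
  cases a with
  | false => exact absurd (add_zero x) h
  | true =>
    cases s with
    | true =>
      refine Or.inl ⟨i, ?_, ?_⟩
      · intro j hj
        rw [act, trfg_inc_true, Pi.add_apply, Pi.single_eq_of_ne hj, add_zero]
      · rw [act, trfg_inc_true, Pi.add_apply, Pi.single_eq_same, if_pos rfl]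
    | false =>
      refine Or.inr ⟨i, ?_, ?_⟩
      · intro j hj
        rw [act, trfg_inc_true, Pi.add_apply, Pi.single_eq_of_ne hj, add_zero]
      · rw [act, trfg_inc_true, Pi.add_apply, Pi.single_eq_same, if_neg (by simp)]
        exact (neg_add_cancel_right (x i) 1).symm

theorem trfg_exists_act (n : ℕ) (x y : V n) (h : (torus n).Adj x y) : ∃ d, act n d x = y := by
  rw [torus, SimpleGraph.fromRel_adj] at h
  rcases h.2 with ⟨i, h1, h2⟩ | ⟨i, h1, h2⟩
  · refine ⟨(true, i, true), ?_⟩
    funext j
    rw [act, trfg_inc_true, Pi.add_apply, if_pos rfl]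
    by_cases hj : j = i
    · subst hj
      rw [Pi.single_eq_same, h2]
    · rw [Pi.single_eq_of_ne hj, add_zero, h1 j hj]
  · refine ⟨(true, i, false), ?_⟩
    funext j
    rw [act, trfg_inc_true, Pi.add_apply, if_neg (by simp)]
    by_cases hj : j = i
    · subst hj
      rw [Pi.single_eq_same, h2]
      exact add_neg_cancel_right (y j) 1
    · rw [Pi.single_eq_of_ne hj, add_zero, h1 j hj]

/-! ### paths in trees -/

section tree
variable {n : ℕ}

theorem trfg_ne_nil (T : Tr n) (a b : V n) : pth T a b ≠ [] := by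
  intro h
  have := pth_head T a b
  rw [h] at this
  exact absurd this (by simp)

theorem trfg_cons (T : Tr n) (a b : V n) : pth T a b = a :: (pth T a b).tail := by
  have h := pth_head T a b
  cases hl : pth T a b with
  | nil => exact absurd hl (trfg_ne_nil T a b)
  | cons c l =>
    rw [hl] at h
    have : c = a := by simpa using h
    rw [this, List.tail_cons]

/-- first step of the path to `ρ` -/
theorem trfg_first (T : Tr n) (v ρ : V n) (h : v ≠ ρ) :
    ∃ y, T.1.Adj v y ∧ pth T v ρ = v :: pth T y ρ := by
  have h1 := trfg_cons T v ρ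
  have hlast := pth_last T v ρ
  have hch := pth_chain T v ρ
  have hnd := pth_nodup T v ρ
  cases hl : (pth T v ρ).tail with
  | nil =>
    rw [hl] at h1
    rw [h1] at hlast
    exact absurd (by simpa using hlast) h
  | cons y l =>
    rw [hl] at h1
    rw [h1] at hlast hch hnd
    refine ⟨y, ?_, ?_⟩
    · exact (List.isChain_cons_cons.1 hch).1
    · rw [h1]
      congr 1
      apply pth_unique T y ρ (y :: l)
      · exact (List.nodup_cons.1 hnd).2
      · exact (List.isChain_cons_cons.1 hch).2
      · rfl
      · rw [List.getLast?_cons_cons] at hlast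
        exact hlast

theorem trfg_adj_pth (T : Tr n) (x y ρ : V n) (h : T.1.Adj x y) :
    pth T x ρ = x :: pth T y ρ ∨ pth T y ρ = y :: pth T x ρ := by
  by_cases hx : x ∈ pth T y ρ
  · right
    have h1 := pth_split T hx
    have h2 : pth T y x = [y, x] := by
      symm
      apply pth_unique T y x
      · simp [h.ne.symm]
      · simp [h.symm]
      · rfl
      · rfl
    rw [h2] at h1
    rw [h1]
    have h3 := trfg_cons T x ρ
    show y :: x :: (pth T x ρ).tail = y :: pth T x ρ
    rw [← h3]
  · left
    symm
    apply pth_unique T x ρ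
    · exact List.nodup_cons.2 ⟨hx, pth_nodup T y ρ⟩
    · rw [List.isChain_cons]
      refine ⟨?_, pth_chain T y ρ⟩
      intro z hz
      rw [pth_head T y ρ] at hz
      have : y = z := by simpa using hz
      rw [← this]
      exact h
    · rfl
    · rw [trfg_cons T y ρ, List.getLast?_cons_cons, ← trfg_cons T y ρ]
      exact pth_last T y ρ

theorem trfg_adj_of_eq (T T' : Tr n) (ρ : V n) (h : ∀ v, pth T v ρ = pth T' v ρ) (x y : V n)
    (hxy : T.1.Adj x y) : T'.1.Adj x y := by
  have key : ∀ x y : V n, pth T x ρ = x :: pth T y ρ → T'.1.Adj x y := by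
    intro x y h1
    have h2 := pth_chain T' x ρ
    rw [← h x, h1, List.isChain_cons] at h2
    exact h2.1 y (by rw [pth_head T y ρ]; rfl)
  rcases trfg_adj_pth T x y ρ hxy with h1 | h1
  · exact key x y h1
  · exact (key y x h1).symm

end tree

/-- a tree is determined by its paths to a root -/
theorem tr_ext (n : ℕ) (T T' : Tr n) (ρ : V n) (h : ∀ v, pth T v ρ = pth T' v ρ) : T = T' := by
  apply Subtype.ext
  ext x y
  exact ⟨trfg_adj_of_eq T T' ρ h x y, trfg_adj_of_eq T' T ρ (fun v => (h v).symm) x y⟩

/-! ### the graph of the directions -/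

/-- the graph with the edges from `x` to `act (g x) x`, `x ≠ ρ` -/
def trfgGraph (n : ℕ) (ρ : V n) (g : V n → DD) : SimpleGraph (V n) :=
  SimpleGraph.fromRel (fun x y => x ≠ ρ ∧ act n (g x) x = y)

section graph
variable {n : ℕ} {ρ : V n} {g : V n → DD}

theorem trfg_act_ne (hg : g ∈ FG (act n) {ρ}) {x : V n} (hx : x ≠ ρ) : act n (g x) x ≠ x := by
  intro h
  obtain ⟨t, ht⟩ := hg x
  rw [Function.iterate_fixed (f := fun v => act n (g v) v) h t] at ht
  exact hx ht

theorem trfg_adj (hg : g ∈ FG (act n) {ρ}) {x : V n} (hx : x ≠ ρ) :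
    (trfgGraph n ρ g).Adj x (act n (g x) x) := by
  rw [trfgGraph, SimpleGraph.fromRel_adj]
  exact ⟨(trfg_act_ne hg hx).symm, Or.inl ⟨hx, rfl⟩⟩

theorem trfg_le (hg : g ∈ FG (act n) {ρ}) : trfgGraph n ρ g ≤ torus n := by
  intro x y h
  rw [trfgGraph, SimpleGraph.fromRel_adj] at h
  rcases h.2 with ⟨h1, h2⟩ | ⟨h1, h2⟩
  · rw [← h2]
    exact trfg_torus_act n (g x) x (trfg_act_ne hg h1)
  · rw [← h2]
    exact (trfg_torus_act n (g y) y (trfg_act_ne hg h1)).symm

theorem trfg_reach (hg : g ∈ FG (act n) {ρ}) (v : V n) : (trfgGraph n ρ g).Reachable v ρ := by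
  obtain ⟨t, ht⟩ := hg v
  induction t generalizing v with
  | zero =>
    have : v = ρ := ht
    rw [this]
  | succ t ih =>
    by_cases hv : v = ρ
    · rw [hv]
    · rw [Function.iterate_succ_apply] at ht
      exact (trfg_adj hg hv).reachable.trans (ih _ ht)

theorem trfg_isTree [NeZero n] (hg : g ∈ FG (act n) {ρ}) : (trfgGraph n ρ g).IsTree := by
  classical
  have hconn : (trfgGraph n ρ g).Connected := by
    rw [SimpleGraph.connected_iff]
    exact ⟨fun u v => (trfg_reach hg u).trans (trfg_reach hg v).symm, ⟨ρ⟩⟩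
  rw [SimpleGraph.isTree_iff_connected_and_card]
  refine ⟨hconn, ?_⟩
  have h1 := hconn.card_vert_le_card_edgeSet_add_one
  have h2 : Nat.card (Option (trfgGraph n ρ g).edgeSet) ≤ Nat.card (V n) := by
    let F : V n → Option (trfgGraph n ρ g).edgeSet := fun x =>
      if h : x = ρ then none else some ⟨s(x, act n (g x) x), trfg_adj hg h⟩
    apply Nat.card_le_card_of_surjective F
    rintro (_ | ⟨e, he⟩)
    · exact ⟨ρ, dif_pos rfl⟩
    · induction e using Sym2.ind with
      | _ x y =>
        have he' : (trfgGraph n ρ g).Adj x y := he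
        rw [trfgGraph, SimpleGraph.fromRel_adj] at he'
        rcases he'.2 with ⟨h3, h4⟩ | ⟨h3, h4⟩
        · refine ⟨x, ?_⟩
          show (if h : x = ρ then none else some _) = _
          rw [dif_neg h3]
          congr 1
          apply Subtype.ext
          show s(x, act n (g x) x) = s(x, y)
          rw [h4]
        · refine ⟨y, ?_⟩
          show (if h : y = ρ then none else some _) = _
          rw [dif_neg h3]
          congr 1
          apply Subtype.ext
          show s(y, act n (g y) y) = s(x, y)
          rw [h4]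
          exact Sym2.eq_swap
  rw [Finite.card_option] at h2
  omega

/-- the spanning tree of the directions `g` -/
noncomputable def trfgTree [NeZero n] (hg : g ∈ FG (act n) {ρ}) : Tr n :=
  ⟨trfgGraph n ρ g, trfg_le hg, trfg_isTree hg⟩

theorem trfg_gpath_chain (hg : g ∈ FG (act n) {ρ}) (v : V n) :
    (gpath (act n) g {ρ} v).IsChain (fun x y => (trfgGraph n ρ g).Adj x y) := by
  obtain ⟨t, ht⟩ := hg v
  induction t generalizing v with
  | zero =>
    have : v ∈ ({ρ} : Set (V n)) := ht
    rw [gpath_mem (act n) g {ρ} v this]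
    simp
  | succ t ih =>
    by_cases hv : v ∈ ({ρ} : Set (V n))
    · rw [gpath_mem (act n) g {ρ} v hv]
      simp
    · rw [Function.iterate_succ_apply] at ht
      rw [gpath_cons (act n) g {ρ} v hg hv, List.isChain_cons]
      refine ⟨?_, ih _ ht⟩
      intro z hz
      rw [gpath_head] at hz
      have : act n (g v) v = z := by simpa using hz
      rw [← this]
      exact trfg_adj hg hv

theorem trfg_pth [NeZero n] (hg : g ∈ FG (act n) {ρ}) (v : V n) :
    pth (trfgTree hg) v ρ = gpath (act n) g {ρ} v := by
  symm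
  apply pth_unique
  · exact gpath_nodup (act n) g {ρ} v hg
  · exact trfg_gpath_chain hg v
  · exact gpath_head (act n) g {ρ} v
  · obtain ⟨a, ha, h⟩ := gpath_last (act n) g {ρ} v hg
    rw [h, Set.mem_singleton_iff.1 ha]

end graph

/-! ### the bijection -/

theorem tr_fg (n : ℕ) [NeZero n] (hn : 3 ≤ n) (ρ : V n) :
    ∃ φ : {g : V n → DD // g ∈ FG (act n) {ρ}} ≃ Tr n × DD,
      ∀ g v, pth (φ g).1 v ρ = gpath (act n) g.1 {ρ} v := by
  classical
  let F : {g : V n → DD // g ∈ FG (act n) {ρ}} → Tr n × DD :=
    fun g => (trfgTree g.2, g.1 ρ)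
  have hinj : Function.Injective F := by
    rintro ⟨g, hg⟩ ⟨g', hg'⟩ h
    apply Subtype.ext
    funext x
    show g x = g' x
    by_cases hx : x = ρ
    · rw [hx]
      exact congrArg Prod.snd h
    · have h1 : trfgTree hg = trfgTree hg' := congrArg Prod.fst h
      have h2 := trfg_pth hg x
      rw [h1, trfg_pth hg' x, gpath_cons (act n) g {ρ} x hg hx,
        gpath_cons (act n) g' {ρ} x hg' hx] at h2
      have h3 := (List.cons_eq_cons.1 h2).2
      have h4 := congrArg List.head? h3
      rw [gpath_head, gpath_head] at h4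
      have h5 : act n (g' x) x = act n (g x) x := by simpa using h4
      exact trfg_act_inj n hn _ _ x (trfg_act_ne hg hx) h5.symm
  have hsurj : Function.Surjective F := by
    rintro ⟨T, d⟩
    have hnx : ∀ v : V n, ∃ d' : DD, v ≠ ρ → pth T v ρ = v :: pth T (act n d' v) ρ := by
      intro v
      by_cases hv : v = ρ
      · exact ⟨d, fun h => absurd hv h⟩
      · obtain ⟨y, hy, h1⟩ := trfg_first T v ρ hv
        obtain ⟨d', hd'⟩ := trfg_exists_act n v y (T.2.1 hy)
        exact ⟨d', fun _ => by rw [hd']; exact h1⟩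
    choose nx hnx using hnx
    let g : V n → DD := fun v => if v = ρ then d else nx v
    have hgρ : g ρ = d := if_pos rfl
    have hgv : ∀ v, v ≠ ρ → pth T v ρ = v :: pth T (act n (g v) v) ρ := by
      intro v hv
      have h1 : g v = nx v := if_neg hv
      rw [h1]
      exact hnx v hv
    have hFG : g ∈ FG (act n) {ρ} := by
      intro v
      induction hk : (pth T v ρ).length using Nat.strong_induction_on generalizing v with
      | _ k ih =>
        by_cases hv : v = ρ
        · exact ⟨0, hv⟩
        · have h1 := hgv v hv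
          have h2 : (pth T (act n (g v) v) ρ).length < k := by
            rw [← hk, h1, List.length_cons]
            exact Nat.lt_succ_self _
          obtain ⟨t, ht⟩ := ih _ h2 (act n (g v) v) rfl
          refine ⟨t + 1, ?_⟩
          rw [Function.iterate_succ_apply]
          exact ht
    have hpath : ∀ v, gpath (act n) g {ρ} v = pth T v ρ := by
      intro v
      induction hk : (pth T v ρ).length using Nat.strong_induction_on generalizing v with
      | _ k ih =>
        by_cases hv : v = ρ
        · rw [hv, gpath_mem (act n) g {ρ} ρ rfl, pth_self]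
        · have h1 := hgv v hv
          have h2 : (pth T (act n (g v) v) ρ).length < k := by
            rw [← hk, h1, List.length_cons]
            exact Nat.lt_succ_self _
          rw [gpath_cons (act n) g {ρ} v hFG hv, ih _ h2 (act n (g v) v) rfl]
          exact h1.symm
    refine ⟨⟨g, hFG⟩, ?_⟩
    apply Prod.ext
    · apply tr_ext n _ _ ρ
      intro v
      exact (trfg_pth hFG v).trans (hpath v)
    · exact hgρ
  exact ⟨Equiv.ofBijective F ⟨hinj, hsurj⟩, fun g v => trfg_pth g.2 v⟩

theorem tr_nonempty (n : ℕ) [NeZero n] (hn : 3 ≤ n) : Nonempty (Tr n) := by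
  obtain ⟨φ, -⟩ := tr_fg n hn 0
  obtain ⟨g, hg⟩ := FG_nonempty (act n) ({0} : Set (V n))
    (act_reach n {0} (Set.singleton_nonempty 0))
  exact ⟨(φ ⟨g, hg⟩).1⟩

end Pool.Agent.UST
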