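import Pool.Agent.Helper54.UST.RootGen
import Pool.Agent.Helper54.UST.TreeFG
import Pool.Agent.Helper54.UST.Av

/-! Root moving for spanning trees of the torus (paper 5.2). -/

namespace Pool.Agent.UST

open MeasureTheory

private theorem fin_bound {α : Type} [Finite α] (f : α → ℝ) : ∃ C, ∀ a, |f a| ≤ C := by
  obtain ⟨C, hC⟩ := (Set.finite_range fun a => |f a|).bddAbove
  exact ⟨C, fun a => hC ⟨a, rfl⟩⟩

private theorem prefix_last {α : Type} {l l1 l2 : List α} {x : α} (hl : l.Nodup) (h1 : l1 <+: l)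
    (h2 : l2 <+: l) (e1 : l1.getLast? = some x) (e2 : l2.getLast? = some x) : l1 = l2 := by
  have key : ∀ l1 l2 : List α, l1 <+: l2 → l2.Nodup → l1.getLast? = some x →
      l2.getLast? = some x → l1 = l2 := by
    intro l1 l2 h hn e1 e2
    obtain ⟨r, rfl⟩ := h
    rcases List.eq_nil_or_concat' r with hr | ⟨r', y, hr⟩
    · rw [hr, List.append_nil]
    · exfalso
      rw [hr, ← List.append_assoc, List.getLast?_append] at e2
      simp only [List.getLast?_singleton, Option.some_or, Option.some.injEq] at e2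
      have hx : x ∈ l1 := List.mem_of_getLast? e1
      have hx' : x ∈ r := by rw [hr, ← e2]; simp
      exact (List.nodup_append.1 hn).2.2 x hx x hx' rfl
  rcases List.prefix_or_prefix_of_prefix h1 h2 with h | h
  · exact key _ _ h (hl.sublist h2.sublist) e1 e2
  · exact (key _ _ h (hl.sublist h1.sublist) e2 e1).symm

section roottree
variable (n : ℕ) [NeZero n] (hn : 3 ≤ n)
include hn

/-- the bijection with the rooted directions -/
private noncomputable def ph (ρ : V n) : {g : V n → DD // g ∈ FG (act n) {ρ}} ≃ Tr n × DD :=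
  (tr_fg n hn ρ).choose

private theorem ph_spec (ρ : V n) (g : {g : V n → DD // g ∈ FG (act n) {ρ}}) (v : V n) :
    pth (ph n hn ρ g).1 v ρ = gpath (act n) g.1 {ρ} v := (tr_fg n hn ρ).choose_spec g v

private theorem ph_gmv (x : V n) (g : {g : V n → DD // g ∈ FG (act n) {x}}) (ω : ℕ → DD) (t : ℕ)
    (w : V n) :
    pth (ph n hn (pos (act n) x ω t) ⟨gmv (act n) g.1 x ω t, gmv_mem (act n) g.1 x g.2 ω t⟩).1 w
      (pos (act n) x ω t) = MM n (pth (ph n hn x g).1 w x) x ω t := by
  rw [ph_spec n hn, ph_spec n hn, gmv_gpath (act n) g.1 x g.2 ω t w]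
  rfl

private theorem mv_exists (T : Tr n) (x : V n) (ω : ℕ → DD) (t : ℕ) :
    ∃ T' : Tr n, ∀ w, pth T' w (pos (act n) x ω t) = MM n (pth T w x) x ω t := by
  obtain ⟨g, hg⟩ := (ph n hn x).surjective (T, (false, 0, false))
  refine ⟨(ph n hn (pos (act n) x ω t)
      ⟨gmv (act n) g.1 x ω t, gmv_mem (act n) g.1 x g.2 ω t⟩).1, fun w => ?_⟩
  rw [ph_gmv n hn x g ω t w, hg]

/-- the paths to the root of the moved tree -/
theorem mvT_pth (T : Tr n) (x : V n) (ω : ℕ → DD) (t : ℕ) (w : V n) :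
    pth (mvT n T x ω t) w (pos (act n) x ω t) = MM n (pth T w x) x ω t := by
  have h := mv_exists n hn T x ω t
  unfold mvT
  rw [dif_pos h]
  exact h.choose_spec w

private theorem mvT_ph (x : V n) (g : {g : V n → DD // g ∈ FG (act n) {x}}) (ω : ℕ → DD) (t : ℕ) :
    (ph n hn (pos (act n) x ω t) ⟨gmv (act n) g.1 x ω t, gmv_mem (act n) g.1 x g.2 ω t⟩).1 =
      mvT n (ph n hn x g).1 x ω t := by
  refine tr_ext n _ _ (pos (act n) x ω t) fun w => ?_
  rw [ph_gmv n hn x g ω t w, mvT_pth n hn]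

theorem mvT_congr (T : Tr n) (x : V n) (ω ω' : ℕ → DD) (t : ℕ) (h : ∀ i, i < t → ω i = ω' i) :
    mvT n T x ω t = mvT n T x ω' t := by
  have h1 : pos (act n) x ω t = pos (act n) x ω' t := pos_congr (act n) x ω ω' t h
  refine tr_ext n _ _ (pos (act n) x ω t) fun w => ?_
  rw [mvT_pth n hn]
  rw [h1, mvT_pth n hn]
  unfold MM
  rw [seg_congr (act n) x ω ω' 1 t h]

theorem mvT_add (T : Tr n) (x : V n) (ω : ℕ → DD) (s t : ℕ) :
    mvT n T x ω (s + t) = mvT n (mvT n T x ω s) (pos (act n) x ω s) (sh s ω) t := by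
  refine tr_ext n _ _ (pos (act n) x ω (s + t)) fun w => ?_
  rw [mvT_pth n hn, pos_add, mvT_pth n hn, mvT_pth n hn]
  unfold MM
  rw [seg_append (act n) x ω 1 s (s + t) (by omega) (by omega), leF_append,
    seg_shift (act n) x ω s 1 t]

/-- the average over the directions is the average over the trees -/
private theorem sum_ph (x : V n) (inst : Fintype (V n → DD))
    (dec : ∀ g : V n → DD, Decidable (g ∈ FG (act n) {x})) (A : (V n → DD) → ℝ) (G : Tr n → ℝ)
    (hA : ∀ (g : V n → DD) (h : g ∈ FG (act n) {x}), A g = G (ph n hn x ⟨g, h⟩).1) :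
    @Finset.sum _ _ _ (@Finset.univ _ inst)
      (fun g => @ite ℝ (g ∈ FG (act n) {x}) (dec g) (A g) 0) =
      (Fintype.card DD : ℝ) * ∑ T : Tr n, G T := by
  have h1 : @Finset.sum _ _ _ (@Finset.univ _ inst)
      (fun g => @ite ℝ (g ∈ FG (act n) {x}) (dec g) (A g) 0) =
      ∑ g : {g : V n → DD // g ∈ FG (act n) {x}}, A g.1 := by
    rw [← Finset.sum_filter]
    exact Finset.sum_subtype _ (fun g => by simp) _
  rw [h1]
  have h2 : ∑ g : {g : V n → DD // g ∈ FG (act n) {x}}, A g.1 =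
      ∑ g : {g : V n → DD // g ∈ FG (act n) {x}}, G (ph n hn x g).1 :=
    Finset.sum_congr rfl fun g _ => hA g.1 g.2
  rw [h2, Equiv.sum_comp (ph n hn x) (fun p => G p.1), Fintype.sum_prod_type_right]
  simp only
  rw [Finset.sum_const, Finset.card_univ, nsmul_eq_mul]

set_option maxHeartbeats 400000 in
/-- stationarity -/
theorem mvT_stat (t : ℕ) (F : Tr n → V n → (ℕ → DD) → ℝ) (hF : ∀ T x, Measurable (F T x))
    (C : ℝ) (hC : ∀ T x ω, |F T x ω| ≤ C) :
    av (fun T : Tr n => av (fun x : V n =>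
      ∫ ω, F (mvT n T x ω t) (pos (act n) x ω t) (sh t ω) ∂(mu DD))) =
    av (fun T : Tr n => av (fun x : V n => ∫ ω, F T x ω ∂(mu DD))) := by
  classical
  obtain ⟨F', hF'⟩ : ∃ F' : (V n → DD) → V n → (ℕ → DD) → ℝ, F' = fun g x ω =>
    if h : g ∈ FG (act n) {x} then F (ph n hn x ⟨g, h⟩).1 x ω else 0 := ⟨_, rfl⟩
  have hpos : ∀ (g : V n → DD) (x : V n) (h : g ∈ FG (act n) {x}) (ω : ℕ → DD),
      F' g x ω = F (ph n hn x ⟨g, h⟩).1 x ω := by
    intro g x h ω
    rw [hF']
    exact dif_pos h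
  have hneg : ∀ (g : V n → DD) (x : V n) (h : ¬ g ∈ FG (act n) {x}) (ω : ℕ → DD),
      F' g x ω = 0 := by
    intro g x h ω
    rw [hF']
    exact dif_neg h
  have hst := gmv_stat (act n) t F'
    (fun g x => by
      by_cases h : g ∈ FG (act n) {x}
      · have : F' g x = F (ph n hn x ⟨g, h⟩).1 x := funext fun ω => hpos g x h ω
        rw [this]
        exact hF _ _
      · have : F' g x = fun _ => 0 := funext fun ω => hneg g x h ω
        rw [this]
        exact measurable_const)
    (max C 0)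
    (fun g x ω => by
      by_cases h : g ∈ FG (act n) {x}
      · rw [hpos g x h ω]
        exact (hC _ _ _).trans (le_max_left _ _)
      · rw [hneg g x h ω, abs_zero]
        exact le_max_right _ _)
  have hA : ∀ (x : V n) (g : V n → DD) (h : g ∈ FG (act n) {x}),
      ∫ ω, F' (gmv (act n) g x ω t) (pos (act n) x ω t) (sh t ω) ∂(mu DD) =
        ∫ ω, F (mvT n (ph n hn x ⟨g, h⟩).1 x ω t) (pos (act n) x ω t) (sh t ω) ∂(mu DD) := by
    intro x g h
    congr 1
    funext ω
    rw [hpos _ _ (gmv_mem (act n) g x h ω t), mvT_ph n hn x ⟨g, h⟩ ω t]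
  have hB : ∀ (x : V n) (g : V n → DD) (h : g ∈ FG (act n) {x}),
      ∫ ω, F' g x ω ∂(mu DD) = ∫ ω, F (ph n hn x ⟨g, h⟩).1 x ω ∂(mu DD) := by
    intro x g h
    congr 1
    funext ω
    rw [hpos _ _ h]
  have h3 := Finset.sum_congr (s₁ := (Finset.univ : Finset (V n))) rfl fun x _ => (sum_ph n hn x Pi.instFintype
      (fun g => Classical.propDecidable _) _
      (fun T => ∫ ω, F (mvT n T x ω t) (pos (act n) x ω t) (sh t ω) ∂(mu DD))
      (hA x))
  have h4 := Finset.sum_congr (s₁ := (Finset.univ : Finset (V n))) rfl fun x _ => (sum_ph n hn x Pi.instFintype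
      (fun g => Classical.propDecidable _) _
      (fun T => ∫ ω, F T x ω ∂(mu DD))
      (hB x))
  have hst' : ∑ x : V n, (Fintype.card DD : ℝ) * ∑ T : Tr n,
        ∫ ω, F (mvT n T x ω t) (pos (act n) x ω t) (sh t ω) ∂(mu DD) =
      ∑ x : V n, (Fintype.card DD : ℝ) * ∑ T : Tr n, ∫ ω, F T x ω ∂(mu DD) := by
    rw [← h3, ← h4]
    convert hst using 4
  rw [← Finset.mul_sum, ← Finset.mul_sum] at hst'
  have hc : (Fintype.card DD : ℝ) ≠ 0 := by exact_mod_cast Fintype.card_ne_zero
  have hst2 := mul_left_cancel₀ hc hst'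
  rw [av_comm, av_comm (fun T x => ∫ ω, F T x ω ∂(mu DD))]
  unfold av
  rw [← Finset.sum_div, ← Finset.sum_div, hst2]

/-- paths which are not hit are kept -/
theorem mvT_keep (T : Tr n) (x v : V n) (ω : ℕ → DD) (t : ℕ)
    (h : ¬ hit (act n) x ω 1 t (st (pth T v x))) :
    pth (mvT n T x ω t) v x = pth T v x := by
  have h1 : pth T v x <+: MM n (pth T v x) x ω t := by
    unfold MM
    refine leF_keep List.prefix_rfl fun y hy hy' => h ?_
    rw [hit_iff]
    exact ⟨y, hy, List.mem_of_mem_dropLast hy'⟩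
  have h2 := mvT_pth n hn T x ω t v
  rw [← h2] at h1
  have h3 : x ∈ pth (mvT n T x ω t) v (pos (act n) x ω t) :=
    h1.subset (pth_mem_right T v x)
  have h4 : pth (mvT n T x ω t) v x <+: pth (mvT n T x ω t) v (pos (act n) x ω t) := by
    rw [pth_split (mvT n T x ω t) h3]
    exact List.prefix_append _ _
  exact prefix_last (pth_nodup _ _ _) h4 h1 (pth_last _ _ _) (pth_last _ _ _)

/-- the path between two independent uniform points after `t` steps of the root -/
theorem tree_MM (t : ℕ) (F : List (V n) → ℝ) :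
    av (fun T : Tr n => av (fun w : V n => av (fun x : V n => F (pth T w x)))) =
      av (fun T : Tr n => av (fun w : V n => av (fun x : V n =>
        ∫ ω, F (MM n (pth T w x) x ω t) ∂(mu DD)))) := by
  rw [av_comm, av_comm (fun T w => av (fun x : V n =>
        ∫ ω, F (MM n (pth T w x) x ω t) ∂(mu DD)))]
  congr 1
  funext w
  obtain ⟨C, hC⟩ := fin_bound (fun p : Tr n × V n => F (pth p.1 w p.2))
  have h := mvT_stat n hn t (fun T x _ => F (pth T w x)) (fun _ _ => measurable_const) C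
    (fun T x _ => hC (T, x))
  simp only [mvT_pth n hn] at h
  rw [h]
  congr 1
  funext T
  congr 1
  funext x
  rw [integral_const]
  simp

/-- consequence: bounds which hold for all initial paths hold for the tree path -/
theorem tree_le (t : ℕ) (F : List (V n) → ℝ) (a : ℝ)
    (h : ∀ (x : V n) (γ : List (V n)), Path1 γ x → ∫ ω, F (MM n γ x ω t) ∂(mu DD) ≤ a) :
    av (fun T : Tr n => av (fun w : V n => av (fun x : V n => F (pth T w x)))) ≤ a := by
  rw [tree_MM n hn t F]
  have := tr_nonempty n hn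
  calc _ ≤ av (fun _ : Tr n => av (fun _ : V n => av (fun _ : V n => a))) :=
        av_mono fun T => av_mono fun w => av_mono fun x => h x _ ⟨pth_nodup T w x, pth_last T w x⟩
    _ = a := by rw [av_const, av_const, av_const]

end roottree

end Pool.Agent.UST
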