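import Pool.Agent.Helper54.UST.C3
import Pool.Agent.Helper54.UST.Chain

/-! Paper Proposition S2. -/

namespace Pool.Agent.UST

open MeasureTheory

private theorem s2_ind_true {P : Prop} (h : P) : ind P = 1 := by simp [ind, h]

private theorem s2_ind_false {P : Prop} (h : ¬ P) : ind P = 0 := by simp [ind, h]

private theorem s2_ind_nonneg (P : Prop) : 0 ≤ ind P := by
  by_cases h : P
  · rw [s2_ind_true h]; exact zero_le_one
  · rw [s2_ind_false h]

private theorem s2_ind_le_one (P : Prop) : ind P ≤ 1 := by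
  by_cases h : P
  · rw [s2_ind_true h]
  · rw [s2_ind_false h]; exact zero_le_one

private theorem s2_hit_congr (n : ℕ) (x : V n) (ω ω' : ℕ → DD) (t : ℕ) (S : Set (V n))
    (h : ∀ i, i < t → ω i = ω' i) : hit (act n) x ω 0 t S ↔ hit (act n) x ω' 0 t S := by
  constructor
  · rintro ⟨i, h0, hi, hS⟩
    refine ⟨i, h0, hi, ?_⟩
    rwa [← pos_congr (act n) x ω ω' i fun j hj => h j (by omega)]
  · rintro ⟨i, h0, hi, hS⟩
    refine ⟨i, h0, hi, ?_⟩
    rwa [pos_congr (act n) x ω ω' i fun j hj => h j (by omega)]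

private theorem s2_pr_eq (A : Set (ℕ → DD)) (hA : MeasurableSet A) :
    pr A = ∫ ω, ind (ω ∈ A) ∂(mu DD) := by
  classical
  have : (fun ω : ℕ → DD => ind (ω ∈ A)) = A.indicator (fun _ => (1 : ℝ)) := by
    funext ω
    by_cases h : ω ∈ A
    · rw [s2_ind_true h, Set.indicator_of_mem h]
    · rw [s2_ind_false h, Set.indicator_of_notMem h]
  rw [this, integral_indicator hA, setIntegral_const, pr]
  simp

private theorem s2_meas_hit (n : ℕ) (x : V n) (t : ℕ) (S : Set (V n)) :
    MeasurableSet {ω : ℕ → DD | ¬ hit (act n) x ω 0 t S} := by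
  have h : Measurable (fun ω : ℕ → DD => (¬ hit (act n) x ω 0 t S : Prop)) :=
    measurable_dep t _ fun ω ω' hω => by
      rw [s2_hit_congr n x ω ω' t S hω]
  exact measurableSet_setOfPred.2 h

private theorem s2_step (n : ℕ) [NeZero n] (S : Set (V n)) (p q : ℝ) (s t : ℕ) (hq : 0 ≤ q)
    (h1 : ∀ y, pr {ω | ¬ hit (act n) y ω 0 t S} ≤ q)
    (h2 : ∀ y, pr {ω | ¬ hit (act n) y ω 0 s S} ≤ p) (x : V n) :
    pr {ω | ¬ hit (act n) x ω 0 (t + s) S} ≤ q * p := by
  classical
  set F : (ℕ → DD) → (ℕ → DD) → ℝ := fun ω η => ∑ y : V n,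
    ind (¬ hit (act n) x ω 0 t S ∧ pos (act n) x ω t = y) *
      ind (¬ hit (act n) y η 0 s S) with hF
  have hFval : ∀ ω η, F ω η = ind (¬ hit (act n) x ω 0 t S) *
      ind (¬ hit (act n) (pos (act n) x ω t) η 0 s S) := by
    intro ω η
    rw [hF]
    dsimp only
    rw [Finset.sum_eq_single (pos (act n) x ω t)]
    · congr 1
      by_cases h : ¬ hit (act n) x ω 0 t S
      · rw [s2_ind_true h, s2_ind_true ⟨h, rfl⟩]
      · rw [s2_ind_false h, s2_ind_false fun h' => h h'.1]
    · intro y _ hy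
      rw [s2_ind_false fun h' => hy h'.2.symm, zero_mul]
    · intro h
      exact absurd (Finset.mem_univ _) h
  have hm : Measurable (Function.uncurry F) := by
    rw [hF]
    refine Finset.measurable_sum _ fun y _ => ?_
    refine Measurable.mul ?_ ?_
    · have : Measurable (fun ω : ℕ → DD =>
          ind (¬ hit (act n) x ω 0 t S ∧ pos (act n) x ω t = y)) :=
        measurable_dep t _ fun ω ω' hω => by
          rw [s2_hit_congr n x ω ω' t S hω, pos_congr (act n) x ω ω' t hω]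
      exact this.comp measurable_fst
    · have : Measurable (fun ω : ℕ → DD => ind (¬ hit (act n) y ω 0 s S)) :=
        measurable_dep s _ fun ω ω' hω => by
          rw [s2_hit_congr n y ω ω' s S hω]
      exact this.comp measurable_snd
  have hdep : ∀ ω ω' η, (∀ i, i < t → ω i = ω' i) → F ω η = F ω' η := by
    intro ω ω' η hω
    rw [hFval, hFval, s2_hit_congr n x ω ω' t S hω, pos_congr (act n) x ω ω' t hω]
  have hb : ∀ ω η, |F ω η| ≤ 1 := by
    intro ω η
    rw [hFval, abs_of_nonneg (mul_nonneg (s2_ind_nonneg _) (s2_ind_nonneg _))]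
    exact mul_le_one₀ (s2_ind_le_one _) (s2_ind_nonneg _) (s2_ind_le_one _)
  have key := markov_int t F hm 1 hb hdep
  have hsub : pr {ω | ¬ hit (act n) x ω 0 (t + s) S} ≤ ∫ ω, F ω (sh t ω) ∂(mu DD) := by
    rw [s2_pr_eq _ (s2_meas_hit n x (t + s) S)]
    refine integral_mono_of_nonneg (Filter.Eventually.of_forall fun ω => s2_ind_nonneg _) ?_ ?_
    · refine Integrable.of_bound ?_ 1 (Filter.Eventually.of_forall fun ω => ?_)
      · exact (hm.comp (measurable_id.prodMk (measurable_sh t))).aestronglyMeasurable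
      · rw [Real.norm_eq_abs]; exact hb _ _
    · refine Filter.Eventually.of_forall fun ω => ?_
      dsimp only
      by_cases h : ω ∈ {ω | ¬ hit (act n) x ω 0 (t + s) S}
      · have h3 : ¬ hit (act n) x ω 0 t S := fun ⟨i, h0, hi, hS⟩ => h ⟨i, h0, by omega, hS⟩
        have h4 : ¬ hit (act n) (pos (act n) x ω t) (sh t ω) 0 s S := by
          rintro ⟨i, h0, hi, hS⟩
          rw [← pos_add] at hS
          exact h ⟨t + i, Nat.zero_le _, by omega, hS⟩
        rw [hFval, s2_ind_true h3, s2_ind_true h4, s2_ind_true h, one_mul]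
      · rw [s2_ind_false h, hFval]
        exact mul_nonneg (s2_ind_nonneg _) (s2_ind_nonneg _)
  have hin : ∀ ω, ∫ η, F ω η ∂(mu DD) ≤ ind (ω ∈ {ω | ¬ hit (act n) x ω 0 t S}) * p := by
    intro ω
    have h5 : ∫ η, F ω η ∂(mu DD) = ind (¬ hit (act n) x ω 0 t S) *
        pr {η | ¬ hit (act n) (pos (act n) x ω t) η 0 s S} := by
      rw [s2_pr_eq _ (s2_meas_hit n _ s S), ← integral_const_mul]
      refine integral_congr_ae (Filter.Eventually.of_forall fun η => ?_)
      exact hFval ω η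
    rw [h5]
    exact mul_le_mul_of_nonneg_left (h2 _) (s2_ind_nonneg _)
  have hp : 0 ≤ p := le_trans measureReal_nonneg (h2 x)
  calc pr {ω | ¬ hit (act n) x ω 0 (t + s) S} ≤ ∫ ω, F ω (sh t ω) ∂(mu DD) := hsub
    _ = ∫ ω, ∫ η, F ω η ∂(mu DD) ∂(mu DD) := key
    _ ≤ ∫ ω, ind (ω ∈ {ω | ¬ hit (act n) x ω 0 t S}) * p ∂(mu DD) := by
        refine integral_mono_of_nonneg (Filter.Eventually.of_forall fun ω => ?_) ?_
          (Filter.Eventually.of_forall hin)
        · refine integral_nonneg fun η => ?_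
          rw [hFval]
          exact mul_nonneg (s2_ind_nonneg _) (s2_ind_nonneg _)
        · refine Integrable.of_bound ?_ p (Filter.Eventually.of_forall fun ω => ?_)
          · have : Measurable (fun ω : ℕ → DD =>
                ind (ω ∈ {ω | ¬ hit (act n) x ω 0 t S}) * p) :=
              measurable_dep t _ fun ω ω' hω => by
                simp only [Set.mem_ofPred_eq]
                rw [s2_hit_congr n x ω ω' t S hω]
            exact this.aestronglyMeasurable
          · rw [Real.norm_eq_abs, abs_of_nonneg (mul_nonneg (s2_ind_nonneg _) hp)]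
            exact mul_le_of_le_one_left hp (s2_ind_le_one _)
    _ = pr {ω | ¬ hit (act n) x ω 0 t S} * p := by
        rw [integral_mul_const, ← s2_pr_eq _ (s2_meas_hit n x t S)]
    _ ≤ q * p := mul_le_mul_of_nonneg_right (h1 x) hp

private theorem s2_compl (n : ℕ) (S : Set (V n)) (t : ℕ) (y : V n) :
    pr {ω | ¬ hit (act n) y ω 0 t S} = 1 - pr {ω | hit (act n) y ω 0 t S} := by
  have h := s2_meas_hit n y t S
  have e : {ω : ℕ → DD | hit (act n) y ω 0 t S} = {ω | ¬ hit (act n) y ω 0 t S}ᶜ := by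
    ext ω
    simp
  rw [pr, pr, e, probReal_compl_eq_one_sub h]
  ring

private theorem s2_surv (n : ℕ) [NeZero n] (S : Set (V n)) (p : ℝ)
    (h : ∀ y, p ≤ h3 n S y) (hp1 : p ≤ 1) (j : ℕ) : ∀ x : V n,
    pr {ω | ¬ hit (act n) x ω 0 (j * t3 n) S} ≤ (1 - p) ^ j := by
  induction j with
  | zero =>
    intro x
    rw [pow_zero]
    exact measureReal_le_one
  | succ j ih =>
    intro x
    have h1 : ∀ y, pr {ω | ¬ hit (act n) y ω 0 (t3 n) S} ≤ 1 - p := by
      intro y
      rw [s2_compl]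
      have := h y
      rw [h3] at this
      linarith
    have h2 := s2_step n S ((1 - p) ^ j) (1 - p) (j * t3 n) (t3 n) (by linarith) h1 ih x
    rw [pow_succ', show (j + 1) * t3 n = t3 n + j * t3 n by ring]
    exact h2

private theorem s2_h3_mono (n : ℕ) {S S' : Set (V n)} (h : S ⊆ S') (x : V n) :
    h3 n S x ≤ h3 n S' x := by
  unfold h3 pr
  refine measureReal_mono ?_ (measure_ne_top _ _)
  rintro ω ⟨i, h0, hi, hS⟩
  exact ⟨i, h0, hi, h hS⟩

private theorem s2_iter_mono (n : ℕ) [NeZero n] {Φ Φ' : Set (V n) → ℝ}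
    (h : ∀ S, S.Nonempty → Φ S ≤ Φ' S) (m : ℕ) : ∀ S : Set (V n), S.Nonempty →
    ((kop n)^[m] Φ) S ≤ ((kop n)^[m] Φ') S := by
  induction m with
  | zero => exact h
  | succ m ih =>
    intro S _
    rw [Function.iterate_succ', Function.comp, Function.comp]
    exact kop_mono n ih S

private theorem s2_kop_sum (n : ℕ) [NeZero n] {ι : Type} (s : Finset ι)
    (Φ : ι → Set (V n) → ℝ) (S : Set (V n)) :
    kop n (fun S => ∑ x ∈ s, Φ x S) S = ∑ x ∈ s, kop n (Φ x) S := by
  classical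
  induction s using Finset.induction_on with
  | empty =>
    simp only [Finset.sum_empty]
    exact kop_const n 0 S
  | insert a s ha ih =>
    simp only [Finset.sum_insert ha]
    rw [kop_add n (Φ a) (fun S => ∑ x ∈ s, Φ x S) S, ih]

private theorem s2_iter_sum (n : ℕ) [NeZero n] {ι : Type} (s : Finset ι)
    (Φ : ι → Set (V n) → ℝ) (m : ℕ) : ∀ S : Set (V n),
    ((kop n)^[m] (fun S => ∑ x ∈ s, Φ x S)) S = ∑ x ∈ s, ((kop n)^[m] (Φ x)) S := by
  induction m with
  | zero => intro S; rfl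
  | succ m ih =>
    intro S
    simp only [Function.iterate_succ', Function.comp]
    rw [show ((kop n)^[m] (fun S => ∑ x ∈ s, Φ x S)) =
      fun S => ∑ x ∈ s, ((kop n)^[m] (Φ x)) S from funext ih]
    exact s2_kop_sum n s _ S

private theorem s2_contr (n : ℕ) [NeZero n] (A : Set (V n)) (x : V n) (a ρ K : ℝ)
    (hρ : 0 ≤ ρ) (hρ1 : ρ ≤ 1) (hne : A.Nonempty) (hMA : MA n A ≤ K)
    (h : ∀ S : Set (V n), S.Nonempty → MA n S ≤ K →
      1 - ρ ≤ kop n (fun S => ind (a ≤ h3 n S x)) S) (m : ℕ) :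
    ((kop n)^[m] (fun S => ind (¬ a ≤ h3 n S x))) A ≤ ρ ^ m := by
  have h1 := kop_iter_le n (fun S => S.Nonempty ∧ MA n S ≤ K)
    (fun S S' hS hP => ⟨hP.1.mono hS, (MA_mono n S hP.1 hS).trans hP.2⟩)
    (Φ := fun S => ind (¬ a ≤ h3 n S x)) (ρ := ρ) hρ ?_ m A ⟨hne, hMA⟩
  · refine h1.trans ?_
    have := mul_le_mul_of_nonneg_left (s2_ind_le_one (¬ a ≤ h3 n A x)) (pow_nonneg hρ m)
    rwa [mul_one] at this
  · rintro S ⟨hS, hK⟩
    by_cases hx : a ≤ h3 n S x
    · have h2 : kop n (fun S => ind (¬ a ≤ h3 n S x)) S ≤ kop n (fun _ => (0 : ℝ)) S := by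
        refine kop_le_of_le n (fun S => a ≤ h3 n S x)
          (fun S S' hS hP => hP.trans (s2_h3_mono n hS x)) ?_ S hx
        intro S hS
        rw [s2_ind_false (not_not.2 hS)]
      rw [kop_const] at h2
      rw [s2_ind_false (not_not.2 hx), mul_zero]
      exact h2
    · have h2 := kop_add n (fun S => ind (a ≤ h3 n S x)) (fun S => ind (¬ a ≤ h3 n S x)) S
      have h3' : (fun S : Set (V n) => ind (a ≤ h3 n S x) + ind (¬ a ≤ h3 n S x)) =
          fun _ => (1 : ℝ) := by
        funext S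
        by_cases h4 : a ≤ h3 n S x
        · rw [s2_ind_true h4, s2_ind_false (not_not.2 h4), add_zero]
        · rw [s2_ind_false h4, s2_ind_true h4, zero_add]
      rw [h3', kop_const] at h2
      rw [s2_ind_true hx, mul_one]
      linarith [h S hS hK]

private theorem s2_one_sub_pow (a : ℝ) (ha : a ≤ 1) (m : ℕ) :
    (1 - a) ^ m ≤ Real.exp (-(a * m)) := by
  have h1 : 1 - a ≤ Real.exp (-a) := by
    have := Real.add_one_le_exp (-a)
    linarith
  calc (1 - a) ^ m ≤ (Real.exp (-a)) ^ m := pow_le_pow_left₀ (by linarith) h1 m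
    _ = Real.exp (-(a * m)) := by
        rw [← Real.exp_nat_mul]
        congr 1
        ring

private theorem s2_NN (n : ℕ) (hn : 0 < n) : NN n = Real.exp (4 * LL n) := by
  unfold NN LL
  have h : (0 : ℝ) < n := by exact_mod_cast hn
  rw [show (4 : ℝ) * Real.log n = ((4 : ℕ) : ℝ) * Real.log n by norm_num, Real.exp_nat_mul,
    Real.exp_log h]

theorem skelS2 (C' : ℝ) (hC' : 0 < C') : ∃ n0 : ℕ, ∀ (n : ℕ) [NeZero n], n0 ≤ n →
    ∀ A : Set (V n), A.Nonempty → MA n A ≤ C' * (n : ℝ) ^ 2 →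
    ((kop n)^[⌈LL n ^ 11⌉₊] (fun S => ind (∃ x, 1 / NN n ^ 3 <
      pr {ω | n ^ 2 < tau (act n) x ω S}))) A ≤ 1 / NN n := by
  obtain ⟨c, hc, n1, hC3⟩ := lemC3 C' hC'
  have hlog : Filter.Tendsto (fun n : ℕ => Real.log n) Filter.atTop Filter.atTop :=
    Real.tendsto_log_atTop.comp tendsto_natCast_atTop_atTop
  have e1 := hlog.eventually_ge_atTop (max (max 2 (8 / c)) (max c (48 / c)))
  have e2 : ∀ᶠ n : ℕ in Filter.atTop, Real.log n ^ 4 ≤ n := by
    have h := (Real.isLittleO_pow_log_id_atTop (n := 4)).comp_tendsto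
      (tendsto_natCast_atTop_atTop (R := ℝ))
    have h' := h.bound (c := 1) one_pos
    filter_upwards [h'] with n hn
    simp only [Function.comp, id, Real.norm_eq_abs, one_mul, Nat.abs_cast] at hn
    exact (le_abs_self _).trans hn
  obtain ⟨n2, hn2⟩ := Filter.eventually_atTop.1 (e1.and e2)
  refine ⟨max (max n1 n2) 1, fun n _ hn A hA hMA => ?_⟩
  have hn1 : n1 ≤ n := (le_max_left _ _).trans ((le_max_left _ _).trans hn)
  obtain ⟨hL, hL4⟩ := hn2 n ((le_max_right _ _).trans ((le_max_left _ _).trans hn))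
  have hnpos : 0 < n := Nat.pos_of_ne_zero (NeZero.ne n)
  have hnR : (0 : ℝ) < n := by exact_mod_cast hnpos
  have hn1R : (1 : ℝ) ≤ n := by exact_mod_cast hnpos
  set L := LL n with hLdef
  have hLL : Real.log n = L := rfl
  rw [hLL] at hL hL4
  have hL2 : 2 ≤ L := (le_max_left _ _).trans ((le_max_left _ _).trans hL)
  have hL8 : 8 / c ≤ L := (le_max_right _ _).trans ((le_max_left _ _).trans hL)
  have hLc : c ≤ L := (le_max_left _ _).trans ((le_max_right _ _).trans hL)
  have hL48 : 48 / c ≤ L := (le_max_right _ _).trans ((le_max_right _ _).trans hL)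
  have hLpos : 0 < L := by linarith
  have hcL8 : 8 ≤ c * L := by
    rw [div_le_iff₀ hc] at hL8
    linarith
  have hcL48 : 48 ≤ c * L := by
    rw [div_le_iff₀ hc] at hL48
    linarith
  have hL1 : 1 ≤ L := by linarith
  -- the two small quantities
  have hcL9 : c / L ^ 9 ≤ 1 := by
    rw [div_le_one (by positivity)]
    calc c ≤ L := hLc
      _ = L ^ 1 := (pow_one L).symm
      _ ≤ L ^ 9 := pow_le_pow_right₀ hL1 (by norm_num)
  have hcL : c / L ≤ 1 := by
    rw [div_le_one hLpos]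
    exact hLc
  have hNN : NN n = Real.exp (4 * L) := s2_NN n hnpos
  have hNpos : 0 < NN n := by rw [hNN]; exact Real.exp_pos _
  -- the survival
  have hsurv : ∀ S : Set (V n), S.Nonempty → (∀ x, c / L ≤ h3 n S x) → ∀ x,
      pr {ω | n ^ 2 < tau (act n) x ω S} ≤ 1 / NN n ^ 3 := by
    intro S hS hh x
    set j := n ^ 2 / t3 n with hj
    have ht3pos : 0 < t3 n := by
      unfold t3
      exact Nat.ceil_pos.2 (by positivity)
    have hjt : j * t3 n ≤ n ^ 2 := Nat.div_mul_le_self _ _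
    have h1 : pr {ω | n ^ 2 < tau (act n) x ω S} ≤
        pr {ω | ¬ hit (act n) x ω 0 (j * t3 n) S} := by
      refine measureReal_mono ?_ (measure_ne_top _ _)
      rintro ω hω ⟨i, _, hi, hS'⟩
      have : tau (act n) x ω S ≤ i := Nat.sInf_le (s := {t | pos (act n) x ω t ∈ S}) hS'
      have hω' : n ^ 2 < tau (act n) x ω S := hω
      omega
    refine h1.trans ((s2_surv n S (c / L) hh hcL j x).trans ?_)
    refine (s2_one_sub_pow (c / L) hcL j).trans ?_
    have h2 : 1 / NN n ^ 3 = Real.exp (-(12 * L)) := by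
      rw [hNN, ← Real.exp_nat_mul, one_div, ← Real.exp_neg]
      congr 1
      push_cast
      ring
    rw [h2, Real.exp_le_exp, neg_le_neg_iff]
    -- the lower bound for j
    have h3' : (t3 n : ℝ) ≤ 2 * (n : ℝ) ^ 2 / L ^ 4 := by
      have h4 : (t3 n : ℝ) < (n : ℝ) ^ 2 / L ^ 4 + 1 := Nat.ceil_lt_add_one (by positivity)
      have h5 : 1 ≤ (n : ℝ) ^ 2 / L ^ 4 := by
        rw [le_div_iff₀ (by positivity), one_mul]
        nlinarith
      have h6 : 2 * (n : ℝ) ^ 2 / L ^ 4 = (n : ℝ) ^ 2 / L ^ 4 + (n : ℝ) ^ 2 / L ^ 4 := by ring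
      linarith
    have h7 : (n : ℝ) ^ 2 < ((j : ℝ) + 1) * t3 n := by
      have := Nat.lt_div_mul_add (a := n ^ 2) ht3pos
      have h8 : n ^ 2 < (j + 1) * t3 n := by
        rw [add_mul, one_mul]
        exact this
      exact_mod_cast h8
    have h9 : L ^ 4 / 2 ≤ (j : ℝ) + 1 := by
      by_contra hcon
      push Not at hcon
      have h10 : ((j : ℝ) + 1) * t3 n ≤ (L ^ 4 / 2) * (2 * (n : ℝ) ^ 2 / L ^ 4) :=
        mul_le_mul hcon.le h3' (by positivity) (by positivity)
      have h11 : (L ^ 4 / 2) * (2 * (n : ℝ) ^ 2 / L ^ 4) = (n : ℝ) ^ 2 := by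
        field_simp
      rw [h11] at h10
      linarith
    have h12 : 12 * L * L ≤ c * j := by
      have h13 : 48 * (L ^ 3) ≤ (c * L) * L ^ 3 := mul_le_mul_of_nonneg_right hcL48 (by positivity)
      have h14 : c * (L ^ 4 / 2) ≤ c * (j + 1) := mul_le_mul_of_nonneg_left h9 hc.le
      have h15 : c ≤ L ^ 3 := by
        calc c ≤ L := hLc
          _ = L ^ 1 := (pow_one L).symm
          _ ≤ L ^ 3 := pow_le_pow_right₀ hL1 (by norm_num)
      have h16 : L * L ≤ L ^ 3 := by nlinarith [mul_pos hLpos hLpos]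
      nlinarith
    have : c / L * (j : ℝ) = c * j / L := by ring
    rw [this, le_div_iff₀ hLpos]
    linarith
  -- the union bound
  have hΨ : ∀ S : Set (V n), S.Nonempty →
      ind (∃ x, 1 / NN n ^ 3 < pr {ω | n ^ 2 < tau (act n) x ω S}) ≤
        ∑ x : V n, ind (¬ c / L ≤ h3 n S x) := by
    intro S hS
    by_cases h : ∀ x, c / L ≤ h3 n S x
    · have h1 : ¬ ∃ x, 1 / NN n ^ 3 < pr {ω | n ^ 2 < tau (act n) x ω S} := by
        rintro ⟨x, hx⟩
        exact absurd (hsurv S hS h x) (not_le.2 hx)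
      rw [s2_ind_false h1]
      exact Finset.sum_nonneg fun x _ => s2_ind_nonneg _
    · push Not at h
      obtain ⟨x, hx⟩ := h
      refine (s2_ind_le_one _).trans ?_
      have h1 : ind (¬ c / L ≤ h3 n S x) = 1 := s2_ind_true (not_le.2 hx)
      rw [← h1]
      exact Finset.single_le_sum (f := fun x => ind (¬ c / L ≤ h3 n S x))
        (fun y _ => s2_ind_nonneg _) (Finset.mem_univ x)
  refine (s2_iter_mono n hΨ _ A hA).trans ?_
  rw [s2_iter_sum]
  have hone : ∀ x : V n, ((kop n)^[⌈L ^ 11⌉₊] (fun S => ind (¬ c / L ≤ h3 n S x))) A ≤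
      1 / NN n ^ 2 := by
    intro x
    have h1 := s2_contr n A x (c / L) (1 - c / L ^ 9) (C' * (n : ℝ) ^ 2) (by linarith)
      (by have : 0 ≤ c / L ^ 9 := by positivity
          linarith) hA hMA (fun S hS hK => by
        have := hC3 n hn1 S hS hK x
        rw [sub_sub_cancel]
        exact this) ⌈L ^ 11⌉₊
    refine h1.trans ((s2_one_sub_pow (c / L ^ 9) hcL9 _).trans ?_)
    have h2 : 1 / NN n ^ 2 = Real.exp (-(8 * L)) := by
      rw [hNN, ← Real.exp_nat_mul, one_div, ← Real.exp_neg]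
      congr 1
      push_cast
      ring
    rw [h2, Real.exp_le_exp, neg_le_neg_iff]
    have h3' : L ^ 11 ≤ (⌈L ^ 11⌉₊ : ℝ) := Nat.le_ceil _
    calc 8 * L ≤ (c * L) * L := mul_le_mul_of_nonneg_right hcL8 hLpos.le
      _ = c / L ^ 9 * L ^ 11 := by field_simp
      _ ≤ c / L ^ 9 * (⌈L ^ 11⌉₊ : ℝ) := mul_le_mul_of_nonneg_left h3' (by positivity)
  calc ∑ x : V n, ((kop n)^[⌈L ^ 11⌉₊] (fun S => ind (¬ c / L ≤ h3 n S x))) A
      ≤ ∑ _x : V n, 1 / NN n ^ 2 := Finset.sum_le_sum fun x _ => hone x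
    _ = 1 / NN n := by
        rw [Finset.sum_const, Finset.card_univ, nsmul_eq_mul]
        have hcard : (Fintype.card (V n) : ℝ) = NN n := by
          simp [NN, ZMod.card]
        rw [hcard]
        field_simp

end Pool.Agent.UST
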