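import Pool.Agent.Helper54.UST.WilA
import Pool.Agent.Helper54.UST.WilB

/-! Wilson's theorem (paper Theorem W), by induction on the number of points outside `A`. -/

namespace Pool.Agent.UST

open MeasureTheory

namespace Wil

/-- a list starting at `w ∉ A` and ending in `A` -/
theorem list_form {W : Type} (A : Set W) (w : W) (hw : w ∉ A) (η : List W)
    (h1 : η.head? = some w) (h2 : ∃ a ∈ A, η.getLast? = some a) :
    ∃ e η', η = w :: e :: η' ∧ ∃ a ∈ A, (e :: η').getLast? = some a := by
  obtain ⟨a, ha, hla⟩ := h2
  match η, h1, hla with
  | [], h1, _ => simp at h1
  | [x], h1, hla =>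
    simp at h1 hla
    rw [h1] at hla
    exact absurd (hla ▸ ha) hw
  | x :: e :: η', h1, hla =>
    simp at h1
    refine ⟨e, η', by rw [h1], a, ha, ?_⟩
    rw [List.getLast?_cons_cons] at hla
    exact hla

variable {W D : Type} [Finite W] [Fintype D] [Nonempty D] [MeasurableSpace D]
  [MeasurableSingletonClass D] (act : D → W → W)

theorem nodup_finite (W : Type) [Finite W] : {l : List W | l.Nodup}.Finite := by
  classical
  have := Fintype.ofFinite W
  refine (List.finite_length_le W (Fintype.card W)).subset ?_
  intro l hl
  exact List.Nodup.length_le_card hl

omit [Nonempty D] [MeasurableSpace D] [MeasurableSingletonClass D] in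
theorem sum_a (A : Set W) (w : W) (T : Finset (List W)) (hT : ∀ l : List W, l.Nodup → l ∈ T) :
    ∑ η ∈ T, ((FG act A ∩ {g | gpath act g A w = η}).ncard : ℝ) = ((FG act A).ncard : ℝ) := by
  classical
  have hfin : (FG act A).Finite := Set.toFinite _
  have h1 : (FG act A).ncard = hfin.toFinset.card := Set.ncard_eq_toFinset_card _ hfin
  have h2 := Finset.card_eq_sum_card_fiberwise (s := hfin.toFinset) (t := T)
    (f := fun g => gpath act g A w) (fun g hg => by
      have hg' : g ∈ FG act A := by simpa using hg
      exact hT _ (gpath_nodup act g A w hg'))
  rw [h1, h2, Nat.cast_sum]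
  refine Finset.sum_congr rfl fun η _ => ?_
  congr 1
  have h3 : (FG act A ∩ {g | gpath act g A w = η})
      = ((hfin.toFinset.filter fun g => gpath act g A w = η : Finset (W → D)) :
        Set (W → D)) := by
    ext g
    simp
  rw [h3, Set.ncard_coe_finset]

theorem sum_b (A : Set W) (w : W) (T : Finset (List W)) (hT : ∀ l : List W, l.Nodup → l ∈ T) :
    ∑ η ∈ T, (mu D).real {ω | lerw act w ω A = η} = 1 := by
  have h1 := sum_measureReal_preimage_singleton (μ := mu D) T
    (f := fun ω : ℕ → D => lerw act w ω A) (fun η _ => by
      have := measurable_lerw (D := D) act A w (fun l => l = η)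
      exact measurableSet_setOfPred.mpr this)
  have h2 : ((fun ω : ℕ → D => lerw act w ω A) ⁻¹' (T : Set (List W))) = Set.univ := by
    ext ω
    simp only [Set.mem_preimage, Finset.mem_coe, Set.mem_univ, iff_true]
    exact hT _ (lerw_nodup act A w ω)
  rw [h2, probReal_univ] at h1
  exact h1

end Wil

section wil
variable {W D : Type} [Finite W] [Fintype D] [Nonempty D] [MeasurableSpace D]
  [MeasurableSingletonClass D] (act : D → W → W)

theorem wilson (A : Set W) (hA : Reach act A) (w : W) (η : List W) :
    ((FG act A ∩ {g | gpath act g A w = η}).ncard : ℝ) =
      ((FG act A).ncard : ℝ) * (mu D).real {ω | lerw act w ω A = η} := by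
  classical
  have key : ∀ (m : ℕ) (A : Set W), Reach act A → Aᶜ.ncard = m → ∀ (w : W) (η : List W),
      ((FG act A ∩ {g | gpath act g A w = η}).ncard : ℝ) =
        ((FG act A).ncard : ℝ) * (mu D).real {ω | lerw act w ω A = η} := by
    intro m
    induction m with
    | zero =>
      intro A hA hm w η
      have hAu : w ∈ A := by
        have h1 : Aᶜ = ∅ := (Set.ncard_eq_zero (Set.toFinite _)).mp hm
        rw [Set.compl_empty_iff] at h1
        rw [h1]; exact Set.mem_univ w
      by_cases hη : η = [w]
      · have h1 : (FG act A ∩ {g | gpath act g A w = η}) = FG act A := by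
          ext g
          simp only [Set.mem_inter_iff, Set.mem_ofPred_eq, and_iff_left_iff_imp]
          intro _
          rw [gpath_mem act g A w hAu, hη]
        have h2 : {ω : ℕ → D | lerw act w ω A = η} = Set.univ := by
          ext ω
          simp only [Set.mem_ofPred_eq, Set.mem_univ, iff_true]
          rw [lerw_mem act A w hAu, hη]
        rw [h1, h2, probReal_univ, mul_one]
      · have h1 : (FG act A ∩ {g | gpath act g A w = η}) = ∅ := by
          ext g
          simp only [Set.mem_inter_iff, Set.mem_ofPred_eq, Set.mem_empty_iff_false, iff_false]
          rintro ⟨_, h⟩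
          rw [gpath_mem act g A w hAu] at h
          exact hη h.symm
        have h2 : {ω : ℕ → D | lerw act w ω A = η} = ∅ := by
          ext ω
          simp only [Set.mem_ofPred_eq, Set.mem_empty_iff_false, iff_false]
          intro h
          rw [lerw_mem act A w hAu] at h
          exact hη h.symm
        rw [h1, h2]; simp
    | succ m ih =>
      intro A hA hm w η
      by_cases hw : w ∈ A
      · by_cases hη : η = [w]
        · have h1 : (FG act A ∩ {g | gpath act g A w = η}) = FG act A := by
            ext g
            simp only [Set.mem_inter_iff, Set.mem_ofPred_eq, and_iff_left_iff_imp]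
            intro _
            rw [gpath_mem act g A w hw, hη]
          have h2 : {ω : ℕ → D | lerw act w ω A = η} = Set.univ := by
            ext ω
            simp only [Set.mem_ofPred_eq, Set.mem_univ, iff_true]
            rw [lerw_mem act A w hw, hη]
          rw [h1, h2, probReal_univ, mul_one]
        · have h1 : (FG act A ∩ {g | gpath act g A w = η}) = ∅ := by
            ext g
            simp only [Set.mem_inter_iff, Set.mem_ofPred_eq, Set.mem_empty_iff_false, iff_false]
            rintro ⟨_, h⟩
            rw [gpath_mem act g A w hw] at h
            exact hη h.symm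
          have h2 : {ω : ℕ → D | lerw act w ω A = η} = ∅ := by
            ext ω
            simp only [Set.mem_ofPred_eq, Set.mem_empty_iff_false, iff_false]
            intro h
            rw [lerw_mem act A w hw] at h
            exact hη h.symm
          rw [h1, h2]; simp
      · -- `w ∉ A`
        have hA' : Reach act (insert w A) := by
          intro x
          obtain ⟨ω, t, ht⟩ := hA x
          exact ⟨ω, t, Set.mem_insert_of_mem _ ht⟩
        have hm' : (insert w A)ᶜ.ncard = m := by
          have h1 : Aᶜ = insert w (insert w A)ᶜ := by
            ext v
            simp only [Set.mem_compl_iff, Set.mem_insert_iff, not_or]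
            constructor
            · intro hv
              by_cases hvw : v = w
              · exact Or.inl hvw
              · exact Or.inr ⟨hvw, hv⟩
            · rintro (h | h)
              · rw [h]; exact hw
              · exact h.2
          have h2 : w ∉ (insert w A)ᶜ := fun h => h (Set.mem_insert w A)
          have h3 := Set.ncard_insert_of_notMem h2 (Set.toFinite _)
          rw [← h1, hm] at h3
          omega
        obtain ⟨G, hG⟩ := lerw_rec (D := D) act A hA w hw
        set N' : ℝ := ((FG act (insert w A)).ncard : ℝ) with hN'
        -- proportionality
        have hprop : ∀ η : List W, G * ((FG act A ∩ {g | gpath act g A w = η}).ncard : ℝ)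
            = N' * (mu D).real {ω | lerw act w ω A = η} := by
          intro η
          by_cases hform : ∃ e η', η = w :: e :: η' ∧ ∃ a ∈ A, (e :: η').getLast? = some a
          · obtain ⟨e, η', rfl, hla⟩ := hform
            rw [FG_rec act A w hw e η' hla, hG e η' hla,
              ih (insert w A) hA' hm' e (e :: η')]
            ring
          · have h1 : (FG act A ∩ {g | gpath act g A w = η}) = ∅ := by
              ext g
              simp only [Set.mem_inter_iff, Set.mem_ofPred_eq, Set.mem_empty_iff_false,
                iff_false]
              rintro ⟨hg, h⟩
              refine hform (Wil.list_form A w hw η ?_ ?_)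
              · rw [← h]; exact gpath_head act g A w
              · rw [← h]; exact gpath_last act g A w hg
            have h2 : (mu D).real {ω : ℕ → D | lerw act w ω A = η} = 0 := by
              have hae := ae_hit (D := D) act A hA w
              have h3 : ∀ᵐ ω ∂(mu D), ω ∉ {ω : ℕ → D | lerw act w ω A = η} := by
                filter_upwards [hae] with ω hω
                intro h
                have h' : lerw act w ω A = η := h
                refine hform (Wil.list_form A w hw η ?_ ?_)
                · rw [← h']; exact lerw_head act A w ω
                · rw [← h']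
                  exact ⟨_, (tau_spec act w ω A hω).1, lerw_getLast act A w ω⟩
              have h4 : (mu D) {ω : ℕ → D | lerw act w ω A = η} = 0 :=
                measure_eq_zero_iff_ae_notMem.mpr h3
              rw [measureReal_def, h4]; rfl
            rw [h1, h2]; simp
        set T : Finset (List W) := (Wil.nodup_finite W).toFinset with hT
        have hTm : ∀ l : List W, l.Nodup → l ∈ T := fun l hl => by
          rw [hT, Set.Finite.mem_toFinset]; exact hl
        have hs1 := Wil.sum_a act A w T hTm
        have hs2 := Wil.sum_b (D := D) act A w T hTm
        have hGN : G * ((FG act A).ncard : ℝ) = N' := by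
          rw [← hs1, Finset.mul_sum, Finset.sum_congr rfl (fun η _ => hprop η),
            ← Finset.mul_sum, hs2, mul_one]
        have hN'pos : 0 < N' := by
          rw [hN']
          have := (Set.ncard_pos (Set.toFinite _)).mpr (FG_nonempty act (insert w A) hA')
          exact_mod_cast this
        have hG0 : G ≠ 0 := by
          rintro rfl
          rw [zero_mul] at hGN
          exact hN'pos.ne hGN
        have h5 := hprop η
        rw [← hGN, mul_assoc] at h5
        exact mul_left_cancel₀ hG0 h5
  exact key _ A hA rfl w η

end wil

end Pool.Agent.UST
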