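import Pool.Agent.Helper54.UST.BaseTorus
import Pool.Agent.Helper54.UST.Av
import Pool.Agent.Helper54.UST.BaseMu

/-! Moments of the walk in `ℤ^4` (paper H4). -/

namespace Pool.Agent.UST

open MeasureTheory

/-! ### Functions of the first choices -/

private def zrt (t : ℕ) (ω : ℕ → DD) : Fin t → DD := fun i => ω i

private theorem measurable_zrt (t : ℕ) : Measurable (zrt t) :=
  measurable_pi_lambda _ fun i => measurable_pi_apply _

private def zxt (t : ℕ) (a : Fin t → DD) : ℕ → DD :=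
  fun i => if h : i < t then a ⟨i, h⟩ else (true, 0, true)

private theorem zxt_lt (t : ℕ) (ω : ℕ → DD) (i : ℕ) (hi : i < t) : ω i = zxt t (zrt t ω) i := by
  simp [zxt, zrt, hi]

/-- functions of the first `t` choices -/
private def Dep (t : ℕ) (f : (ℕ → DD) → ℝ) : Prop :=
  ∀ ω ω' : ℕ → DD, (∀ i, i < t → ω i = ω' i) → f ω = f ω'

private theorem Dep.integrable {t : ℕ} {f : (ℕ → DD) → ℝ} (hf : Dep t f) :
    Integrable f (mu DD) := by
  have h : f = (fun a : Fin t → DD => f (zxt t a)) ∘ zrt t := by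
    funext ω
    exact hf _ _ fun i hi => zxt_lt t ω i hi
  rw [h]
  have : IsProbabilityMeasure ((mu DD).map (zrt t)) :=
    Measure.isProbabilityMeasure_map (measurable_zrt t).aemeasurable
  exact Integrable.comp_measurable Integrable.of_finite (measurable_zrt t)

private theorem step_aux (t : ℕ) (g : (Fin t → DD) → DD → ℝ) :
    ∫ ω, g (fun k : Fin t => ω k) (ω t) ∂(mu DD) =
      ∫ ω, (∑ d, g (fun k : Fin t => ω k) d) / 16 ∂(mu DD) := by
  have h1 := mu_fin (D := DD) (t + 1) (fun a => g (Fin.init a) (a (Fin.last t)))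
  have h2 := mu_fin (D := DD) t (fun a => (∑ d, g a d) / 16)
  have hc : (Fintype.card DD : ℝ) = 16 := by
    simp [DD]
  rw [hc] at h1 h2
  have e1 : ∀ ω : ℕ → DD, g (fun k : Fin t => ω k) (ω t) =
      (fun a : Fin (t + 1) → DD => g (Fin.init a) (a (Fin.last t)))
        (fun k : Fin (t + 1) => ω k) := by
    intro ω
    rfl
  rw [h2]
  refine (integral_congr_ae (ae_of_all _ e1)).trans (h1.trans ?_)
  have e2 : ∑ a : Fin (t + 1) → DD, g (Fin.init a) (a (Fin.last t)) =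
      ∑ a : Fin t → DD, ∑ d, g a d := by
    rw [← Equiv.sum_comp (Fin.snocEquiv (fun _ : Fin (t + 1) => DD)), Fintype.sum_prod_type,
      Finset.sum_comm]
    refine Finset.sum_congr rfl fun a _ => Finset.sum_congr rfl fun d _ => ?_
    simp [Fin.snocEquiv]
  rw [e2, ← Finset.sum_div, pow_succ]
  field_simp

/-- averaging the last choice -/
private theorem step (t : ℕ) (g : (ℕ → DD) → DD → ℝ) (hg : ∀ d, Dep t (fun ω => g ω d)) :
    ∫ ω, g ω (ω t) ∂(mu DD) = ∫ ω, (∑ d, g ω d) / 16 ∂(mu DD) := by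
  have h := step_aux t (fun a d => g (zxt t a) d)
  have e : ∀ (ω : ℕ → DD) (d : DD), g ω d = g (zxt t (fun k : Fin t => ω k)) d := by
    intro ω d
    exact hg d _ _ fun i hi => zxt_lt t ω i hi
  calc ∫ ω, g ω (ω t) ∂(mu DD)
      = ∫ ω, g (zxt t (fun k : Fin t => ω k)) (ω t) ∂(mu DD) :=
        integral_congr_ae (ae_of_all _ fun ω => e ω (ω t))
    _ = _ := h
    _ = _ := by
        refine integral_congr_ae (ae_of_all _ fun ω => ?_)
        show (∑ d, g (zxt t (fun k : Fin t => ω k)) d) / 16 = (∑ d, g ω d) / 16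
        congr 1
        exact Finset.sum_congr rfl fun d _ => (e ω d).symm

private theorem zw_succ (ω : ℕ → DD) (i : ℕ) : zw ω (i + 1) = zw ω i + incZ (ω i) := by
  simp [zw, Finset.sum_range_succ]

private theorem zw_zero (ω : ℕ → DD) : zw ω 0 = 0 := by
  simp [zw]

private theorem zw_congr {i : ℕ} {ω ω' : ℕ → DD} (h : ∀ k, k < i → ω k = ω' k) :
    zw ω i = zw ω' i := by
  unfold zw
  exact Finset.sum_congr rfl fun k hk => by rw [h k (Finset.mem_range.mp hk)]

private theorem dep_zw (i j : ℕ) (hij : j ≤ i) (f : (Fin 4 → ℤ) → ℝ) :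
    Dep i (fun ω => f (zw ω j)) := by
  intro ω ω' h
  show f (zw ω j) = f (zw ω' j)
  rw [zw_congr fun k hk => h k (lt_of_lt_of_le hk hij)]

theorem pos_zw (n : ℕ) (x : V n) (ω : ℕ → DD) (i : ℕ) :
    pos (act n) x ω i = x + fun a => ((zw ω i a : ℤ) : ZMod n) := by
  induction i with
  | zero =>
    funext a
    simp [pos, zw_zero]
  | succ i ih =>
    funext a
    rw [show pos (act n) x ω (i + 1) = act n (ω i) (pos (act n) x ω i) from rfl, ih, zw_succ]
    unfold act inc incZ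
    obtain ⟨b, k, s⟩ := ω i
    cases b <;> cases s <;> simp [Pi.single_apply, add_assoc]

/-- the scalar product with an increment -/
private theorem nsq_add_incZ (z : Fin 4 → ℤ) (d : DD) :
    nsq (z + incZ d) = nsq z + 2 * (∑ a, (z a : ℝ) * (incZ d a : ℝ)) + nsq (incZ d) := by
  unfold nsq
  rw [Finset.mul_sum, ← Finset.sum_add_distrib, ← Finset.sum_add_distrib]
  refine Finset.sum_congr rfl fun a _ => ?_
  simp only [Pi.add_apply, Int.cast_add]
  ring

private theorem sum_nsq (z : Fin 4 → ℤ) :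
    (∑ d : DD, nsq (z + incZ d)) / 16 = nsq z + 1 / 2 := by
  simp only [DD, Fintype.sum_prod_type, Fintype.sum_bool, Fin.sum_univ_four, nsq, incZ,
    Pi.add_apply]
  simp
  ring

private theorem sum_nsq_sq (z : Fin 4 → ℤ) :
    (∑ d : DD, nsq (z + incZ d) ^ 2) / 16 = nsq z ^ 2 + 3 / 2 * nsq z + 1 / 2 := by
  simp only [DD, Fintype.sum_prod_type, Fintype.sum_bool, Fin.sum_univ_four, nsq, incZ,
    Pi.add_apply]
  simp
  ring

private theorem nsq_nonneg (z : Fin 4 → ℤ) : 0 ≤ nsq z :=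
  Finset.sum_nonneg fun a _ => sq_nonneg _

theorem nsq_zw_le (ω : ℕ → DD) (i : ℕ) : nsq (zw ω i) ≤ (i : ℝ) ^ 2 := by
  have h : ∀ i : ℕ, ∑ a, |(zw ω i a : ℝ)| ≤ i := by
    intro i
    induction i with
    | zero => simp [zw_zero]
    | succ i ih =>
      have h1 : ∀ d : DD, ∑ a, |(incZ d a : ℝ)| ≤ 1 := by
        rintro ⟨b, k, s⟩
        cases b <;> cases s <;> fin_cases k <;>
          simp [incZ, Fin.sum_univ_four, Pi.single_apply]
      rw [zw_succ]
      calc ∑ a, |(((zw ω i + incZ (ω i)) a : ℤ) : ℝ)|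
          ≤ ∑ a, (|(zw ω i a : ℝ)| + |(incZ (ω i) a : ℝ)|) := by
            refine Finset.sum_le_sum fun a _ => ?_
            rw [Pi.add_apply, Int.cast_add]
            exact abs_add_le _ _
        _ = ∑ a, |(zw ω i a : ℝ)| + ∑ a, |(incZ (ω i) a : ℝ)| := Finset.sum_add_distrib
        _ ≤ (i : ℝ) + 1 := add_le_add ih (h1 _)
        _ = ((i + 1 : ℕ) : ℝ) := by push_cast; ring
  have h2 : nsq (zw ω i) ≤ (∑ a, |(zw ω i a : ℝ)|) ^ 2 := by
    unfold nsq
    have : ∀ a, (zw ω i a : ℝ) ^ 2 = |(zw ω i a : ℝ)| ^ 2 := fun a => (sq_abs _).symm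
    simp_rw [this]
    simp only [Fin.sum_univ_four]
    have p0 := abs_nonneg (zw ω i 0 : ℝ)
    have p1 := abs_nonneg (zw ω i 1 : ℝ)
    have p2 := abs_nonneg (zw ω i 2 : ℝ)
    have p3 := abs_nonneg (zw ω i 3 : ℝ)
    nlinarith [mul_nonneg p0 p1, mul_nonneg p0 p2, mul_nonneg p0 p3, mul_nonneg p1 p2,
      mul_nonneg p1 p3, mul_nonneg p2 p3]
  refine h2.trans ?_
  have h3 : 0 ≤ ∑ a, |(zw ω i a : ℝ)| := Finset.sum_nonneg fun a _ => abs_nonneg _
  exact pow_le_pow_left₀ h3 (h i) 2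

theorem measurable_zw (i : ℕ) (f : (Fin 4 → ℤ) → ℝ) :
    Measurable (fun ω : ℕ → DD => f (zw ω i)) :=
  measurable_dep i _ (dep_zw i i le_rfl f)

theorem nsq_mean (i : ℕ) : ∫ ω, nsq (zw ω i) ∂(mu DD) = i / 2 := by
  induction i with
  | zero => simp [zw_zero, nsq]
  | succ i ih =>
    have h1 : ∫ ω, nsq (zw ω (i + 1)) ∂(mu DD) =
        ∫ ω, (∑ d, nsq (zw ω i + incZ d)) / 16 ∂(mu DD) := by
      rw [← step i (fun ω d => nsq (zw ω i + incZ d))
        (fun d => dep_zw i i le_rfl (fun z => nsq (z + incZ d)))]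
      simp only [zw_succ]
    rw [h1]
    simp only [sum_nsq]
    rw [integral_add (dep_zw i i le_rfl nsq).integrable (integrable_const _), ih]
    simp
    ring

private theorem nsq_sq_mean (j : ℕ) : ∫ ω, nsq (zw ω j) ^ 2 ∂(mu DD) ≤ (j : ℝ) ^ 2 := by
  suffices h : ∫ ω, nsq (zw ω j) ^ 2 ∂(mu DD) = 3 / 8 * (j : ℝ) * (j - 1) + j / 2 by
    rw [h]
    have : (j : ℝ) ≤ (j : ℝ) ^ 2 := by
      rcases Nat.eq_zero_or_pos j with h0 | h0
      · simp [h0]
      · have : (1 : ℝ) ≤ j := by exact_mod_cast h0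
        nlinarith
    nlinarith
  induction j with
  | zero => simp [zw_zero, nsq]
  | succ j ih =>
    have h1 : ∫ ω, nsq (zw ω (j + 1)) ^ 2 ∂(mu DD) =
        ∫ ω, (∑ d, nsq (zw ω j + incZ d) ^ 2) / 16 ∂(mu DD) := by
      rw [← step j (fun ω d => nsq (zw ω j + incZ d) ^ 2)
        (fun d => dep_zw j j le_rfl (fun z => nsq (z + incZ d) ^ 2))]
      simp only [zw_succ]
    rw [h1]
    simp only [sum_nsq_sq]
    have i1 : Integrable (fun ω => nsq (zw ω j) ^ 2) (mu DD) :=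
      (dep_zw j j le_rfl (fun z => nsq z ^ 2)).integrable
    have i2 : Integrable (fun ω => 3 / 2 * nsq (zw ω j)) (mu DD) :=
      (dep_zw j j le_rfl (fun z => 3 / 2 * nsq z)).integrable
    have i3 : Integrable (fun ω => nsq (zw ω j) ^ 2 + 3 / 2 * nsq (zw ω j)) (mu DD) := i1.add i2
    rw [integral_add i3 (integrable_const _), integral_add i1 i2, ih,
      integral_const_mul, nsq_mean]
    simp
    ring

private theorem nsq_cov_eq (j k : ℕ) :
    ∫ ω, nsq (zw ω j) * nsq (zw ω (j + k)) ∂(mu DD) =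
      ∫ ω, nsq (zw ω j) ^ 2 ∂(mu DD) + (j : ℝ) / 2 * (k / 2) := by
  induction k with
  | zero => simp [sq]
  | succ k ih =>
    have hd : ∀ d, Dep (j + k) (fun ω => nsq (zw ω j) * nsq (zw ω (j + k) + incZ d)) := by
      intro d ω ω' h
      show nsq (zw ω j) * nsq (zw ω (j + k) + incZ d) =
        nsq (zw ω' j) * nsq (zw ω' (j + k) + incZ d)
      rw [zw_congr (i := j + k) h, zw_congr (i := j) fun l hl => h l (by omega)]
    have h1 : ∫ ω, nsq (zw ω j) * nsq (zw ω (j + (k + 1))) ∂(mu DD) =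
        ∫ ω, (∑ d, nsq (zw ω j) * nsq (zw ω (j + k) + incZ d)) / 16 ∂(mu DD) := by
      rw [← step (j + k) (fun ω d => nsq (zw ω j) * nsq (zw ω (j + k) + incZ d)) hd]
      simp only [← add_assoc, zw_succ]
    have h2 : ∀ ω, (∑ d, nsq (zw ω j) * nsq (zw ω (j + k) + incZ d)) / 16 =
        nsq (zw ω j) * nsq (zw ω (j + k)) + 1 / 2 * nsq (zw ω j) := by
      intro ω
      rw [← Finset.mul_sum, mul_div_assoc, sum_nsq]
      ring
    rw [h1]
    simp only [h2]
    have i1 : Integrable (fun ω => nsq (zw ω j) * nsq (zw ω (j + k))) (mu DD) := by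
      refine Dep.integrable (t := j + k) ?_
      intro ω ω' h
      show nsq (zw ω j) * nsq (zw ω (j + k)) = nsq (zw ω' j) * nsq (zw ω' (j + k))
      rw [zw_congr (i := j + k) h, zw_congr (i := j) fun l hl => h l (by omega)]
    have i2 : Integrable (fun ω => 1 / 2 * nsq (zw ω j)) (mu DD) :=
      (dep_zw j j le_rfl (fun z => 1 / 2 * nsq z)).integrable
    rw [integral_add i1 i2, ih, integral_const_mul, nsq_mean]
    push_cast
    ring

theorem nsq_cov : ∃ C : ℝ, 0 < C ∧ ∀ j i : ℕ, j ≤ i →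
    ∫ ω, nsq (zw ω j) * nsq (zw ω i) ∂(mu DD) ≤ (j : ℝ) / 2 * ((i : ℝ) / 2) + C * (j : ℝ) ^ 2 := by
  refine ⟨1, one_pos, fun j i hij => ?_⟩
  obtain ⟨k, rfl⟩ := Nat.exists_eq_add_of_le hij
  rw [nsq_cov_eq]
  have h := nsq_sq_mean j
  have h0 : (0 : ℝ) ≤ j := Nat.cast_nonneg j
  push_cast
  nlinarith [mul_nonneg h0 h0]

end Pool.Agent.UST
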